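import Mathlib

set_option autoImplicit false

namespace Pool.Agent.H74.WordPSL

open Matrix Polynomial

variable {K : Type} [Field K]

/-- entries of degree at most n with top coefficients M -/
def Lead (n : ℕ) (W : Matrix (Fin 2) (Fin 2) K[X]) (M : Matrix (Fin 2) (Fin 2) K) : Prop :=
  ∀ i j, (W i j).natDegree ≤ n ∧ (W i j).coeff n = M i j

theorem Lead.mul {n n' : ℕ} {W W' : Matrix (Fin 2) (Fin 2) K[X]} {M M' : Matrix (Fin 2) (Fin 2) K}
    (h : Lead n W M) (h' : Lead n' W' M') : Lead (n + n') (W * W') (M * M') := by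
  intro i j
  simp only [mul_apply, Fin.sum_univ_two]
  constructor
  · refine (natDegree_add_le _ _).trans (max_le ?_ ?_)
    · exact natDegree_mul_le.trans (add_le_add (h _ _).1 (h' _ _).1)
    · exact natDegree_mul_le.trans (add_le_add (h _ _).1 (h' _ _).1)
  · rw [coeff_add, coeff_mul_add_eq_of_natDegree_le (h _ _).1 (h' _ _).1,
      coeff_mul_add_eq_of_natDegree_le (h _ _).1 (h' _ _).1, (h _ _).2, (h _ _).2, (h' _ _).2,
      (h' _ _).2]

theorem lead_one : Lead 0 (1 : Matrix (Fin 2) (Fin 2) K[X]) (1 : Matrix (Fin 2) (Fin 2) K) := by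
  intro i j
  fin_cases i <;> fin_cases j <;> simp

theorem lead_lin (A M : Matrix (Fin 2) (Fin 2) K) :
    Lead 1 (Matrix.of fun i j => C (M i j) * X + C (A i j)) M := by
  intro i j
  constructor
  · simp only [of_apply]
    compute_degree
  · simp

/-- the generators over the polynomial ring -/
noncomputable def gen (j : K) : Matrix.SpecialLinearGroup (Fin 2) K[X] :=
  ⟨!![C (j + 1) * X + C (2 * j + 1), C (-1) * X + C (-2);
      C (j * (j + 1)) * X + C (2 * j ^ 2 + 2 * j + 1), C (-j) * X + C (-2 * j - 1)], by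
    rw [det_fin_two_of]
    simp only [map_add, map_mul, map_neg, map_one, map_pow, map_sub, map_ofNat]
    ring⟩

def uu (j : K) (b : Bool) : Fin 2 → K := if b then ![1, j] else ![1, j + 1]

def ph (j : K) (b : Bool) : Fin 2 → K := if b then ![j + 1, -1] else ![-j, 1]

theorem lead_gen (j : K) : Lead 1 (gen j).1 (vecMulVec (uu j true) (ph j true)) := by
  have := lead_lin (!![2 * j + 1, -2; 2 * j ^ 2 + 2 * j + 1, -2 * j - 1])
    (vecMulVec (uu j true) (ph j true))
  convert this using 1
  ext i k : 2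
  fin_cases i <;> fin_cases k <;> simp [gen, uu, ph, vecMulVec_apply]

theorem lead_gen_inv (j : K) : Lead 1 (gen j)⁻¹.1 (vecMulVec (uu j false) (ph j false)) := by
  have := lead_lin (!![-2 * j - 1, 2; -(2 * j ^ 2 + 2 * j + 1), 2 * j + 1])
    (vecMulVec (uu j false) (ph j false))
  convert this using 1
  rw [Matrix.SpecialLinearGroup.coe_inv, adjugate_fin_two]
  ext i k : 2
  fin_cases i <;> fin_cases k <;> simp [gen, uu, ph, vecMulVec_apply] <;> ring

variable {m : ℕ}

def jj (i : Fin m) : K := ((2 * i.1 : ℕ) : K)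

noncomputable def Gs (i : Fin m) : Matrix.SpecialLinearGroup (Fin 2) K[X] := gen (jj i)

def MM (l : Fin m × Bool) : Matrix (Fin 2) (Fin 2) K := vecMulVec (uu (jj l.1) l.2) (ph (jj l.1) l.2)

theorem lead_list (L : List (Fin m × Bool)) :
    Lead L.length (FreeGroup.lift (Gs (K := K)) (FreeGroup.mk L)).1 (L.map (MM (K := K))).prod := by
  induction L with
  | nil => simpa [← FreeGroup.one_eq_mk] using lead_one
  | cons l L ih =>
    have e : FreeGroup.mk (l :: L) = FreeGroup.mk [l] * FreeGroup.mk L := by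
      rw [FreeGroup.mul_mk]; rfl
    rw [e, map_mul, Matrix.SpecialLinearGroup.coe_mul, List.map_cons, List.prod_cons,
      List.length_cons, add_comm]
    refine Lead.mul ?_ ih
    obtain ⟨i, b⟩ := l
    cases b
    · simpa [FreeGroup.lift_mk, Gs, MM] using lead_gen_inv (jj (K := K) i)
    · simpa [FreeGroup.lift_mk, Gs, MM] using lead_gen (jj (K := K) i)

theorem dot_ne [CharZero K] (a b : Fin m × Bool) (h : a.1 = b.1 → a.2 = b.2) :
    ph (jj (K := K) a.1) a.2 ⬝ᵥ uu (jj b.1) b.2 ≠ 0 := by
  obtain ⟨i, x⟩ := a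
  obtain ⟨k, y⟩ := b
  have hik : i.1 = k.1 → x = y := fun e => h (Fin.ext e)
  cases x <;> cases y <;> simp only [ph, uu, jj, dotProduct, Fin.sum_univ_two] <;> simp <;> intro e
  · have : ((2 * k.1 + 1 : ℕ) : K) = ((2 * i.1 : ℕ) : K) := by push_cast; linear_combination e
    have := Nat.cast_injective this
    omega
  · have : ((2 * k.1 : ℕ) : K) = ((2 * i.1 : ℕ) : K) := by push_cast; linear_combination e
    have := Nat.cast_injective this
    have := hik (by omega)
    simp at this
  · have : ((2 * k.1 : ℕ) : K) = ((2 * i.1 : ℕ) : K) := by push_cast; linear_combination -e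
    have := Nat.cast_injective this
    have := hik (by omega)
    simp at this
  · have : ((2 * k.1 : ℕ) : K) = ((2 * i.1 + 1 : ℕ) : K) := by push_cast; linear_combination -e
    have := Nat.cast_injective this
    omega

theorem prod_MM [CharZero K] (L : List (Fin m × Bool)) (l : Fin m × Bool)
    (h : FreeGroup.IsReduced (l :: L)) :
    ∃ c : K, c ≠ 0 ∧ ∃ z, (l :: L).getLast? = some z ∧
      ((l :: L).map (MM (K := K))).prod = c • vecMulVec (uu (jj l.1) l.2) (ph (jj z.1) z.2) := by
  induction L generalizing l with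
  | nil => exact ⟨1, one_ne_zero, l, rfl, by simp [MM]⟩
  | cons l' L ih =>
    rw [FreeGroup.isReduced_cons_cons] at h
    obtain ⟨c, hc, z, hz, e⟩ := ih l' h.2
    refine ⟨c * (ph (jj (K := K) l.1) l.2 ⬝ᵥ uu (jj l'.1) l'.2), mul_ne_zero hc (dot_ne l l' h.1),
      z, by simpa using hz, ?_⟩
    rw [List.map_cons, List.prod_cons, e, Matrix.mul_smul, MM, vecMulVec_mul_vecMulVec]
    ext i j
    simp [vecMulVec_apply]
    ring

theorem trace_nonconst [CharZero K] (L : List (Fin m × Bool)) (hL : L ≠ [])
    (h : FreeGroup.IsCyclicallyReduced L) :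
    (FreeGroup.lift (Gs (K := K)) (FreeGroup.mk L)).1.trace.natDegree ≠ 0 := by
  obtain ⟨l, L, rfl⟩ := List.exists_cons_of_ne_nil hL
  obtain ⟨c, hc, z, hz, e⟩ := prod_MM (K := K) L l h.1
  have h1 := lead_list (K := K) (l :: L)
  rw [e] at h1
  have h2 : (FreeGroup.lift (Gs (K := K)) (FreeGroup.mk (l :: L))).1.trace.coeff (l :: L).length
      = c * (ph (jj (K := K) z.1) z.2 ⬝ᵥ uu (jj l.1) l.2) := by
    rw [trace_fin_two, coeff_add, (h1 0 0).2, (h1 1 1).2]
    simp [vecMulVec_apply, dotProduct, Fin.sum_univ_two]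
    ring
  have h3 := mul_ne_zero hc (dot_ne (K := K) z l (h.2 z hz l rfl))
  rw [← h2] at h3
  have := le_natDegree_of_ne_zero h3
  simp only [List.length_cons] at this
  omega

/-- a nonconstant polynomial cannot have only multiple roots in two different fibres -/
theorem two_fibres [IsAlgClosed K] [CharZero K] (p : K[X]) (hp : p.natDegree ≠ 0)
    (h1 : ∀ t, p.eval t = 2 → (X - C t) ^ 2 ∣ p - C 2)
    (h2 : ∀ t, p.eval t = -2 → (X - C t) ^ 2 ∣ p - C (-2)) : False := by
  classical
  have ha : p - C 2 ≠ 0 := by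
    intro h
    apply hp
    rw [sub_eq_zero.1 h, natDegree_C]
  have hb : p - C (-2) ≠ 0 := by
    intro h
    apply hp
    rw [sub_eq_zero.1 h, natDegree_C]
  have hd : derivative p ≠ 0 := fun h => hp (derivative_eq_zero.1 h)
  have key : ∀ (c c' : K) (t : K), c ≠ c' → p - C c ≠ 0 → p.eval t = c → (X - C t) ^ 2 ∣ p - C c →
      rootMultiplicity t (p - C c) + rootMultiplicity t (p - C c')
        ≤ rootMultiplicity t (derivative p) + rootMultiplicity t (derivative p) := by
    intro c c' t hcc h0 ht hdv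
    have r1 : (p - C c).IsRoot t := by simp [ht]
    have r2 : ¬ (p - C c').IsRoot t := by simp [ht, sub_eq_zero, hcc]
    have e1 := derivative_rootMultiplicity_of_root r1
    rw [derivative_sub, derivative_C, sub_zero] at e1
    have e2 := (le_rootMultiplicity_iff h0).2 hdv
    rw [rootMultiplicity_eq_zero r2]
    omega
  have h22 : (2 : K) ≠ -2 := by norm_num
  have hdvd : (p - C 2) * (p - C (-2)) ∣ derivative p * derivative p := by
    rw [IsAlgClosed.dvd_iff_roots_le_roots (mul_ne_zero ha hb) (mul_ne_zero hd hd),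
      Multiset.le_iff_count]
    intro t
    rw [count_roots, count_roots, rootMultiplicity_mul (mul_ne_zero ha hb),
      rootMultiplicity_mul (mul_ne_zero hd hd)]
    by_cases t1 : p.eval t = 2
    · exact key 2 (-2) t h22 ha t1 (h1 t t1)
    by_cases t2 : p.eval t = -2
    · rw [add_comm]
      exact key (-2) 2 t h22.symm hb t2 (h2 t t2)
    · rw [rootMultiplicity_eq_zero (by simp [sub_eq_zero, t1]),
        rootMultiplicity_eq_zero (by simpa [add_eq_zero_iff_eq_neg] using t2)]
      omega
  have := natDegree_le_of_dvd hdvd (mul_ne_zero hd hd)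
  rw [natDegree_mul ha hb, natDegree_mul hd hd, natDegree_sub_C, natDegree_sub_C] at this
  have := natDegree_derivative_lt hp
  omega

theorem sq_dvd (W : Matrix (Fin 2) (Fin 2) K[X]) (hW : W.det = 1) (t e : K) (he : e * e = 1)
    (h : W.map (eval t) = e • (1 : Matrix (Fin 2) (Fin 2) K)) :
    (X - C t) ^ 2 ∣ W.trace - C (2 * e) := by
  have h00 : X - C t ∣ W 0 0 - C e := by
    rw [dvd_iff_isRoot]
    have := congrFun (congrFun h 0) 0
    simp at this
    simp [this]
  have h11 : X - C t ∣ W 1 1 - C e := by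
    rw [dvd_iff_isRoot]
    have := congrFun (congrFun h 1) 1
    simp at this
    simp [this]
  have h01 : X - C t ∣ W 0 1 := by
    rw [dvd_iff_isRoot]
    have := congrFun (congrFun h 0) 1
    simpa using this
  have h10 : X - C t ∣ W 1 0 := by
    rw [dvd_iff_isRoot]
    have := congrFun (congrFun h 1) 0
    simpa using this
  have hC : (C e : K[X]) * C e = 1 := by rw [← map_mul, he, map_one]
  rw [det_fin_two] at hW
  have e1 : W.trace - C (2 * e) =
      -C e * ((W 0 0 - C e) * (W 1 1 - C e) - W 0 1 * W 1 0) := by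
    rw [trace_fin_two, map_mul, map_ofNat]
    linear_combination C e * hW + (C e - W 0 0 - W 1 1) * hC
  rw [e1, pow_two]
  exact Dvd.dvd.mul_left (dvd_sub (mul_dvd_mul h00 h11) (mul_dvd_mul h01 h10)) _

theorem exists_val [IsAlgClosed K] [CharZero K] (W : Matrix (Fin 2) (Fin 2) K[X]) (hW : W.det = 1)
    (hp : W.trace.natDegree ≠ 0) (τ : K) :
    ∃ t, W.map (eval t) ≠ 1 ∧ W.map (eval t) ≠ -1 ∧
      ((W.map (eval t)).trace = τ ∨ (W.map (eval t)).trace = -τ) := by
  have htr : ∀ t, (W.map (eval t)).trace = W.trace.eval t := by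
    intro t
    simp [trace_fin_two]
  by_cases hτ : τ = 2 ∨ τ = -2
  · by_contra hc
    push Not at hc
    have h22 : (2 : K) ≠ -2 := by norm_num
    have hc' : ∀ t, (W.trace.eval t = 2 ∨ W.trace.eval t = -2) →
        W.map (eval t) = 1 ∨ W.map (eval t) = -1 := by
      intro t ht
      by_contra hn
      push Not at hn
      have := hc t hn.1 hn.2
      rw [htr] at this
      rcases hτ with rfl | rfl <;> rcases ht with ht | ht <;> simp_all
    apply two_fibres W.trace hp
    · intro t ht
      rcases hc' t (Or.inl ht) with h | h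
      · simpa using sq_dvd W hW t 1 (by simp) (by simpa using h)
      · rw [← htr, h] at ht
        simp at ht
        exact absurd ht.symm h22
    · intro t ht
      rcases hc' t (Or.inr ht) with h | h
      · rw [← htr, h] at ht
        simp at ht
        exact absurd ht h22
      · simpa using sq_dvd W hW t (-1) (by simp) (by simpa using h)
  · push Not at hτ
    have hdeg : (W.trace - C τ).degree ≠ 0 := by
      intro h
      have := natDegree_eq_of_degree_eq_some (n := 0) h
      rw [natDegree_sub_C] at this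
      exact hp this
    obtain ⟨t, ht⟩ := IsAlgClosed.exists_root _ hdeg
    have ht' : (W.map (eval t)).trace = τ := by
      rw [htr]
      simpa [sub_eq_zero] using ht
    refine ⟨t, fun h => hτ.1 ?_, fun h => hτ.2 ?_, Or.inl ht'⟩
    · rw [← ht', h]; simp
    · rw [← ht', h]; simp

def comp (τ : K) : Matrix.SpecialLinearGroup (Fin 2) K :=
  ⟨!![0, -1; 1, τ], by simp [det_fin_two_of]⟩

theorem conj_vec [IsAlgClosed K] (A : Matrix.SpecialLinearGroup (Fin 2) K) (x y : K)
    (h : x * (A.1 1 0 * x + A.1 1 1 * y) - (A.1 0 0 * x + A.1 0 1 * y) * y ≠ 0) :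
    IsConj (comp A.1.trace) A := by
  obtain ⟨s, hs⟩ := IsAlgClosed.exists_pow_nat_eq
    (x * (A.1 1 0 * x + A.1 1 1 * y) - (A.1 0 0 * x + A.1 0 1 * y) * y)⁻¹ (n := 2) (by norm_num)
  have hs' : s ^ 2 * (x * (A.1 1 0 * x + A.1 1 1 * y) - (A.1 0 0 * x + A.1 0 1 * y) * y) = 1 := by
    rw [hs, inv_mul_cancel₀ h]
  let P : Matrix.SpecialLinearGroup (Fin 2) K :=
    ⟨!![s * x, s * (A.1 0 0 * x + A.1 0 1 * y); s * y, s * (A.1 1 0 * x + A.1 1 1 * y)], by
      rw [det_fin_two_of]; linear_combination hs'⟩
  have hA := A.2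
  rw [det_fin_two] at hA
  rw [isConj_iff]
  refine ⟨P, ?_⟩
  rw [mul_inv_eq_iff_eq_mul]
  apply Subtype.ext
  rw [Matrix.SpecialLinearGroup.coe_mul, Matrix.SpecialLinearGroup.coe_mul]
  ext i j
  fin_cases i <;> fin_cases j <;> simp [P, comp, mul_apply, Fin.sum_univ_two, trace_fin_two]
  · ring
  · linear_combination (s * x) * hA
  · ring
  · linear_combination (s * y) * hA

theorem conj_comp [IsAlgClosed K] (A : Matrix.SpecialLinearGroup (Fin 2) K) (h1 : A.1 ≠ 1)
    (h2 : A.1 ≠ -1) : IsConj (comp A.1.trace) A := by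
  by_cases hc : A.1 1 0 = 0
  · by_cases hb : A.1 0 1 = 0
    · apply conj_vec A 1 1
      intro h
      have hA := A.2
      rw [det_fin_two, hc, hb] at hA
      rw [hc, hb] at h
      have hd : A.1 1 1 = A.1 0 0 := by linear_combination h
      rw [hd] at hA
      have : (A.1 0 0 - 1) * (A.1 0 0 + 1) = 0 := by linear_combination hA
      rcases mul_eq_zero.1 this with h0 | h0
      · apply h1
        have h0' : A.1 0 0 = 1 := by linear_combination h0
        ext i j
        fin_cases i <;> fin_cases j <;> simp [hc, hb, hd, h0']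
      · apply h2
        have h0' : A.1 0 0 = -1 := by linear_combination h0
        ext i j
        fin_cases i <;> fin_cases j <;> simp [hc, hb, hd, h0']
    · apply conj_vec A 0 1
      simpa using hb
  · apply conj_vec A 1 0
    simpa using hc

theorem main [IsAlgClosed K] [CharZero K] (w : FreeGroup (Fin m)) (hw : w ≠ 1) :
    Function.Surjective
      (fun x : Fin m → (Matrix.SpecialLinearGroup (Fin 2) K ⧸
          Subgroup.center (Matrix.SpecialLinearGroup (Fin 2) K)) => FreeGroup.lift x w) := by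
  intro a
  obtain ⟨A, rfl⟩ := QuotientGroup.mk_surjective a
  let π := QuotientGroup.mk' (Subgroup.center (Matrix.SpecialLinearGroup (Fin 2) K))
  have hneg : ∀ B : Matrix.SpecialLinearGroup (Fin 2) K, π (-B) = π B := by
    intro B
    have : π (-1) = 1 := by
      apply (QuotientGroup.eq_one_iff _).2
      rw [Subgroup.mem_center_iff]
      intro g
      simp
    rw [← neg_one_mul, map_mul, this, one_mul]
  have hone : FreeGroup.lift (fun _ => (1 : Matrix.SpecialLinearGroup (Fin 2) K ⧸
      Subgroup.center (Matrix.SpecialLinearGroup (Fin 2) K))) w = 1 := by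
    have : FreeGroup.lift (fun _ : Fin m => (1 : Matrix.SpecialLinearGroup (Fin 2) K ⧸
      Subgroup.center (Matrix.SpecialLinearGroup (Fin 2) K))) = 1 := by
      ext i; simp
    rw [this]; rfl
  by_cases a1 : A.1 = 1
  · refine ⟨fun _ => 1, hone.trans ?_⟩
    rw [show A = 1 from Subtype.ext a1]; rfl
  by_cases a2 : A.1 = -1
  · refine ⟨fun _ => 1, hone.trans ?_⟩
    rw [show A = -1 from Subtype.ext a2]
    exact ((hneg 1).trans (map_one π)).symm
  -- conjugation invariance of the image
  have hconj : ∀ (x : Fin m → (Matrix.SpecialLinearGroup (Fin 2) K ⧸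
      Subgroup.center (Matrix.SpecialLinearGroup (Fin 2) K))) b, IsConj (FreeGroup.lift x w) b →
      ∃ y, FreeGroup.lift y w = b := by
    intro x b hb
    obtain ⟨c, rfl⟩ := isConj_iff.1 hb
    refine ⟨fun i => c * x i * c⁻¹, ?_⟩
    have : FreeGroup.lift (fun i => c * x i * c⁻¹) =
        (MulAut.conj c).toMonoidHom.comp (FreeGroup.lift x) := by
      ext i; simp
    rw [this]; rfl
  set L := FreeGroup.reduceCyclically w.toWord with hL
  have hwL : IsConj (FreeGroup.mk L) w := by
    rw [isConj_iff]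
    refine ⟨FreeGroup.mk (FreeGroup.reduceCyclically.conjugator w.toWord), ?_⟩
    rw [FreeGroup.inv_mk, FreeGroup.mul_mk, FreeGroup.mul_mk, hL,
      FreeGroup.reduceCyclically.conj_conjugator_reduceCyclically, FreeGroup.mk_toWord]
  have hne : L ≠ [] := by
    intro h
    rw [h, ← FreeGroup.one_eq_mk, isConj_one_right] at hwL
    exact hw hwL
  have hcyc : FreeGroup.IsCyclicallyReduced L :=
    FreeGroup.reduceCyclically.isCyclicallyReduced FreeGroup.isReduced_toWord
  obtain ⟨t, t1, t2, t3⟩ := exists_val _ (FreeGroup.lift (Gs (K := K)) (FreeGroup.mk L)).2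
    (trace_nonconst L hne hcyc) A.1.trace
  let ev : Matrix.SpecialLinearGroup (Fin 2) K[X] →* Matrix.SpecialLinearGroup (Fin 2) K :=
    Matrix.SpecialLinearGroup.map (evalRingHom t)
  set B := ev (FreeGroup.lift (Gs (K := K)) (FreeGroup.mk L)) with hB
  have hB1 : B.1 = (FreeGroup.lift (Gs (K := K)) (FreeGroup.mk L)).1.map (eval t) := rfl
  rw [← hB1] at t1 t2 t3
  have hl : FreeGroup.lift (fun i : Fin m => π (ev (Gs i))) = (π.comp ev).comp (FreeGroup.lift Gs) := by
    ext i; simp
  apply hconj (fun i => π (ev (Gs i)))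
  refine ((FreeGroup.lift (fun i => π (ev (Gs i)))).map_isConj hwL).symm.trans ?_
  rw [hl]
  change IsConj (π B) (π A)
  rcases t3 with t3 | t3
  · apply π.map_isConj
    have := conj_comp B t1 t2
    rw [t3] at this
    exact this.symm.trans (conj_comp A a1 a2)
  · rw [← hneg B]
    apply π.map_isConj
    have := conj_comp (-B) (by
      intro h; apply t2; rw [← h]; simp) (by
      intro h; apply t1; simpa using h)
    have e : (-B).1.trace = A.1.trace := by
      simp [t3]
    rw [e] at this
    exact this.symm.trans (conj_comp A a1 a2)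

end Pool.Agent.H74.WordPSL
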