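import Mathlib

set_option autoImplicit false

namespace Pool.Agent.H74.Amalg

open Monoid

variable {Γ : Type} [Group Γ] (A : Bool → Subgroup Γ) (E : Subgroup Γ)

/-- Products of alternating letters outside `E`: first index, last index, length, value. -/
inductive W : Bool → Bool → ℕ → Γ → Prop
  | single (i : Bool) (x : Γ) : x ∈ A i → x ∉ E → W i i 1 x
  | cons (i j k : Bool) (n : ℕ) (x g : Γ) :
      x ∈ A i → x ∉ E → i ≠ j → W j k n g → W i k (n + 1) (x * g)

variable {A E}

lemma W.append {i j k l : Bool} {n m : ℕ} {g h : Γ} (h1 : W A E i j n g) (h2 : W A E k l m h)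
    (hjk : j ≠ k) : W A E i l (n + m) (g * h) := by
  induction h1 with
  | single i x hx hx' =>
    rw [add_comm]
    exact W.cons i k l m x h hx hx' hjk h2
  | cons i j' k' n x g hx hx' hij _ ih =>
    rw [mul_assoc, show n + 1 + m = n + m + 1 by ring]
    exact W.cons i j' l _ x _ hx hx' hij (ih hjk)

lemma W.inv {i j : Bool} {n : ℕ} {g : Γ} (h1 : W A E i j n g) : W A E j i n g⁻¹ := by
  induction h1 with
  | single i x hx hx' => exact W.single i _ ((A i).inv_mem hx) (by simpa using hx')
  | cons i j' k' n x g hx hx' hij _ ih =>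
    rw [mul_inv_rev]
    exact ih.append (W.single i _ ((A i).inv_mem hx) (by simpa using hx')) hij.symm

lemma W.pos {i j : Bool} {n : ℕ} {g : Γ} (h1 : W A E i j n g) : 1 ≤ n := by
  cases h1 <;> omega

lemma W.left (hE : ∀ i, E ≤ A i) {i j : Bool} {n : ℕ} {g e : Γ} (h1 : W A E i j n g)
    (he : e ∈ E) : W A E i j n (e * g) := by
  cases h1 with
  | single _ x hx hx' =>
    exact W.single i _ ((A i).mul_mem (hE i he) hx) (by rwa [E.mul_mem_cancel_left he])
  | cons _ j' _ n x g hx hx' hij h =>
    rw [← mul_assoc]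
    exact W.cons i j' j n _ g ((A i).mul_mem (hE i he) hx)
      (by rwa [E.mul_mem_cancel_left he]) hij h

lemma W.mul_left (hE : ∀ i, E ≤ A i) {i : Bool} {x g : Γ} (hx : x ∈ A i)
    (hg : g ∈ E ∨ ∃ j k n, W A E j k n g) : x * g ∈ E ∨ ∃ j k n, W A E j k n (x * g) := by
  rcases hg with hg | ⟨j, k, n, hg⟩
  · by_cases h : x * g ∈ E
    · exact Or.inl h
    · exact Or.inr ⟨i, i, 1, W.single i _ ((A i).mul_mem hx (hE i hg)) h⟩
  by_cases hxE : x ∈ E
  · exact Or.inr ⟨j, k, n, hg.left hE hxE⟩
  by_cases hij : i = j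
  · subst hij
    cases hg with
    | single _ y hy hy' =>
      by_cases h : x * g ∈ E
      · exact Or.inl h
      · exact Or.inr ⟨i, i, 1, W.single i _ ((A i).mul_mem hx hy) h⟩
    | cons _ j' _ n y g hy hy' hij h =>
      rw [← mul_assoc]
      by_cases h' : x * y ∈ E
      · exact Or.inr ⟨_, _, _, h.left hE h'⟩
      · exact Or.inr ⟨_, _, _, W.cons i j' k n _ g ((A i).mul_mem hx hy) h' hij h⟩
  · exact Or.inr ⟨_, _, _, W.cons i j k n x g hx hxE hij hg⟩

lemma W.mul_right (hE : ∀ i, E ≤ A i) {j k : Bool} {n : ℕ} {h x : Γ} (hw : W A E j k n h)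
    (hx : x ∈ A k) : h * x ∈ E ∨ ∃ k' n', n' ≤ n ∧ W A E j k' n' (h * x) := by
  induction hw with
  | single i y hy hy' =>
    by_cases h : y * x ∈ E
    · exact Or.inl h
    · exact Or.inr ⟨i, 1, le_rfl, W.single i _ ((A i).mul_mem hy hx) h⟩
  | cons i j' k' n y g hy hy' hij _ ih =>
    rw [mul_assoc]
    rcases ih hx with h | ⟨k'', n', hn', h⟩
    · exact Or.inr ⟨i, 1, by omega, W.single i _ ((A i).mul_mem hy (hE i h))
        (by rwa [E.mul_mem_cancel_right h])⟩
    · exact Or.inr ⟨k'', n' + 1, by omega, W.cons i j' k'' n' y _ hy hy' hij h⟩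

/-- The abstract normal form property. -/
structure NF (A : Bool → Subgroup Γ) (E : Subgroup Γ) : Prop where
  le : ∀ i, E ≤ A i
  notMem : ∀ i j n g, W A E i j n g → g ∉ E
  gen : ∀ g, g ∈ E ∨ ∃ j k n, W A E j k n g

lemma NF.not_mem_A (hN : NF A E) {i j l : Bool} {n : ℕ} {g : Γ} (hw : W A E i j n g)
    (hn : 2 ≤ n) : g ∉ A l := by
  intro hg
  by_cases hgE : g ∈ E
  · exact hN.notMem _ _ _ _ hw hgE
  by_cases hil : l = i
  · subst hil
    cases hw with
    | single _ y hy hy' => omega
    | cons _ j' _ n y h hy hy' hij hh =>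
      have hm : (y * h)⁻¹ * y ∈ A l := (A l).mul_mem ((A l).inv_mem hg) hy
      by_cases h' : (y * h)⁻¹ * y ∈ E
      · have := hN.notMem _ _ _ _ (hh.left hN.le h')
        apply this
        simp [E.one_mem]
      · have := hN.notMem _ _ _ _ (W.cons l j' j n _ h hm h' hij hh)
        apply this
        simp [E.one_mem]
  · have := hN.notMem _ _ _ _ (W.cons l i j n g⁻¹ g ((A l).inv_mem hg) (by simpa using hgE) hil hw)
    apply this
    simp [E.one_mem]

lemma NF.conj (hN : NF A E) {i j k l : Bool} {n : ℕ} {u g : Γ} (hu : u ∈ A i) (hu' : u ∉ E)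
    (hw : W A E j k n g) (hij : i ≠ j) : g⁻¹ * u * g ∉ A l := by
  have h1 := (hw.inv.append (W.single i u hu hu') hij.symm).append hw hij
  exact hN.not_mem_A h1 (by have := hw.pos; omega)

lemma NF.inf (hN : NF A E) {x : Γ} (h1 : x ∈ A true) (h2 : x ∈ A false) : x ∈ E := by
  by_contra h
  have := hN.notMem _ _ _ _ (W.cons true false false 1 x x⁻¹ h1 h (by simp)
    (W.single false _ ((A false).inv_mem h2) (by simpa using h)))
  apply this
  simp [E.one_mem]

lemma NF.cube (hN : NF A E) (g : Γ) (hg : g ^ 3 = 1) : ∃ h j, h⁻¹ * g * h ∈ A j := by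
  rcases hN.gen g with h | ⟨i, k, n, hw⟩
  · exact ⟨1, true, by simpa using hN.le true h⟩
  induction n using Nat.strong_induction_on generalizing g i k with
  | _ n ih =>
    cases hw with
    | single _ y hy hy' => exact ⟨1, i, by simpa using hy⟩
    | cons _ j _ n x h hx hx' hij hh =>
      by_cases hki : k = i
      · subst hki
        have h3 : (h * x) ^ 3 = 1 := by
          have : h * x = x⁻¹ * (x * h) * x⁻¹⁻¹ := by group
          rw [this, conj_pow, hg]
          group
        rcases hh.mul_right hN.le hx with h' | ⟨k', n', hn', h'⟩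
        · exact ⟨x, true, by simpa [mul_assoc] using hN.le true h'⟩
        · obtain ⟨z, l, hz⟩ := ih n' (by omega) (h * x) h3 _ _ h'
          exact ⟨x * z, l, by simpa [mul_assoc] using hz⟩
      · exfalso
        have hw := W.cons i j k n x h hx hx' hij hh
        have := hN.notMem _ _ _ _ ((hw.append hw hki).append hw hki)
        apply this
        rw [← pow_three', hg]
        exact E.one_mem

lemma NF.rigid (hN : NF A E) {i : Bool} {c g : Γ} (hc : c ∈ A i)
    (hc' : ∀ d ∈ A i, d⁻¹ * c * d ∉ E) (hg : g⁻¹ * c * g ∈ A i) : g ∈ A i := by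
  have hcE : c ∉ E := by simpa using hc' 1 (A i).one_mem
  rcases hN.gen g with h | ⟨j, k, n, hw⟩
  · exact hN.le i h
  by_cases hij : i = j
  · subst hij
    cases hw with
    | single _ y hy hy' => exact hy
    | cons _ j _ n x h hx hx' hij hh =>
      exfalso
      apply hN.conj (l := i) ((A i).mul_mem ((A i).mul_mem ((A i).inv_mem hx) hc) hx)
        (hc' x hx) hh hij
      simpa [mul_assoc] using hg
  · exact absurd hg (hN.conj hc hcE hw hij)

lemma NF.star (hN : NF A E) {a g : Γ} (ha : a ∈ E)
    (hD : ∀ d ∈ A false, d ∉ E → d⁻¹ * a * d ∉ E)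
    (hB : ∀ b ∈ A true, b⁻¹ * a * b ∈ E → b⁻¹ * a * b = a)
    (hg : g⁻¹ * a * g ∈ A true) : g ∈ A true := by
  have key : ∀ k n g, W A E false k n g → g⁻¹ * a * g ∉ A true := by
    intro k n g hw hg
    cases hw with
    | single _ y hy hy' =>
      exact hD g hy hy' (hN.inf hg
        ((A false).mul_mem ((A false).mul_mem ((A false).inv_mem hy) (hN.le _ ha)) hy))
    | cons _ j _ n x h hx hx' hij hh =>
      apply hN.conj (l := true)
        ((A false).mul_mem ((A false).mul_mem ((A false).inv_mem hx) (hN.le _ ha)) hx)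
        (hD x hx hx') hh hij
      simpa [mul_assoc] using hg
  rcases hN.gen g with h | ⟨j, k, n, hw⟩
  · exact hN.le _ h
  cases j with
  | false => exact absurd hg (key _ _ _ hw)
  | true =>
    cases hw with
    | single _ y hy hy' => exact hy
    | cons _ j _ n x h hx hx' hij hh =>
      exfalso
      by_cases h' : x⁻¹ * a * x ∈ E
      · have hj : j = false := by cases j <;> simp_all
        subst hj
        apply key _ _ _ hh
        rw [← hB x hx h']
        simpa [mul_assoc] using hg
      · apply hN.conj (l := true)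
          ((A true).mul_mem ((A true).mul_mem ((A true).inv_mem hx) (hN.le _ ha)) hx) h' hh hij
        simpa [mul_assoc] using hg

lemma NF.injective (hN : NF A E) (f : Γ →* Γ) (h1 : ∀ i, ∀ x ∈ A i, f x ∈ A i)
    (h2 : ∀ i, ∀ x ∈ A i, f x ∈ E → x ∈ E) (h3 : ∀ x ∈ E, f x = 1 → x = 1) :
    Function.Injective f := by
  have key : ∀ i j n g, W A E i j n g → W A E i j n (f g) := by
    intro i j n g hw
    induction hw with
    | single i x hx hx' => exact W.single i _ (h1 i x hx) (fun h => hx' (h2 i x hx h))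
    | cons i j k n x g hx hx' hij _ ih =>
      rw [map_mul]
      exact W.cons i j k n _ _ (h1 i x hx) (fun h => hx' (h2 i x hx h)) hij ih
  rw [injective_iff_map_eq_one]
  intro g hg
  rcases hN.gen g with h | ⟨j, k, n, hw⟩
  · exact h3 g h hg
  · exact absurd (hg ▸ E.one_mem) (hN.notMem _ _ _ _ (key _ _ _ _ hw))

theorem pushout_NF {G : Bool → Type} [∀ i, Group (G i)] {H : Type} [Group H]
    (φ : ∀ i, H →* G i) (hφ : ∀ i, Function.Injective (φ i)) :
    NF (fun i => (PushoutI.of (φ := φ) i).range) (PushoutI.base φ).range := by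
  have hle : ∀ i, (PushoutI.base φ).range ≤ (PushoutI.of (φ := φ) i).range := by
    rintro i _ ⟨h, rfl⟩
    exact ⟨φ i h, PushoutI.of_apply_eq_base φ i h⟩
  refine ⟨hle, ?_, ?_⟩
  · intro i j n g hw
    have : ∃ w : CoprodI.Word G, PushoutI.Reduced φ w ∧ PushoutI.ofCoprodI w.prod = g ∧
        w.fstIdx = some i := by
      induction hw with
      | single i x hx hx' =>
        obtain ⟨y, rfl⟩ := hx
        have hy : y ∉ (φ i).range := by
          rintro ⟨e, rfl⟩
          exact hx' ⟨e, (PushoutI.of_apply_eq_base φ i e).symm⟩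
        have hy1 : y ≠ 1 := by
          rintro rfl
          exact hy (Subgroup.one_mem _)
        refine ⟨CoprodI.Word.cons y CoprodI.Word.empty (by simp [CoprodI.Word.fstIdx]) hy1,
          ?_, ?_, ?_⟩
        · intro l hl
          simp only [CoprodI.Word.cons_toList, CoprodI.Word.empty_toList, List.mem_singleton] at hl
          subst hl
          exact hy
        · simp
        · simp
      | cons i j k n x g hx hx' hij _ ih =>
        obtain ⟨w, hw1, hw2, hw3⟩ := ih
        obtain ⟨y, rfl⟩ := hx
        have hy : y ∉ (φ i).range := by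
          rintro ⟨e, rfl⟩
          exact hx' ⟨e, (PushoutI.of_apply_eq_base φ i e).symm⟩
        have hy1 : y ≠ 1 := by
          rintro rfl
          exact hy (Subgroup.one_mem _)
        refine ⟨CoprodI.Word.cons y w (by rw [hw3]; simpa using hij.symm) hy1, ?_, ?_, ?_⟩
        · intro l hl
          simp only [CoprodI.Word.cons_toList, List.mem_cons] at hl
          rcases hl with rfl | hl
          · exact hy
          · exact hw1 l hl
        · simp [hw2]
        · simp
    obtain ⟨w, hw1, hw2, hw3⟩ := this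
    intro hg
    have := hw1.eq_empty_of_mem_range hφ (hw2 ▸ hg)
    rw [this] at hw3
    simp [CoprodI.Word.fstIdx] at hw3
  · intro g
    have : ∀ h, (h ∈ (PushoutI.base φ).range ∨ ∃ j k n,
        W (fun i => (PushoutI.of (φ := φ) i).range) (PushoutI.base φ).range j k n h) →
        (g * h ∈ (PushoutI.base φ).range ∨ ∃ j k n,
        W (fun i => (PushoutI.of (φ := φ) i).range) (PushoutI.base φ).range j k n (g * h)) := by
      induction g using PushoutI.induction_on with
      | of i x => exact fun h hh => W.mul_left hle (i := i) ⟨x, rfl⟩ hh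
      | base x => exact fun h hh => W.mul_left hle (i := true) (hle true ⟨x, rfl⟩) hh
      | mul x y hx hy => exact fun h hh => by rw [mul_assoc]; exact hx _ (hy _ hh)
    simpa using this 1 (Or.inl (Subgroup.one_mem _))

end Pool.Agent.H74.Amalg
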