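import Mathlib

namespace Pool.Agent.H74.Av
open Finset

variable {V : Type*} [Fintype V] [DecidableEq V]

def Near (G : SimpleGraph V) (S : Finset V) : Prop :=
  ∃! e : Sym2 V, e ∈ G.edgeSet ∧ ∀ v ∈ e, v ∈ S

open Classical in
noncomputable def NI (G : SimpleGraph V) : Finset (Finset V) := univ.filter (Near G)

open Classical in
noncomputable def Cl (G : SimpleGraph V) (u v : V) : Finset (Finset V) :=
  univ.filter (fun S => u ∈ S ∧ v ∈ S ∧ ∀ x y, G.Adj x y → x ∈ S → y ∈ S → s(x, y) = s(u, v))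

theorem mem_NI {G : SimpleGraph V} {S : Finset V} : S ∈ NI G ↔ Near G S := by
  simp [NI]

theorem mem_Cl {G : SimpleGraph V} {u v : V} {S : Finset V} : S ∈ Cl G u v ↔
    u ∈ S ∧ v ∈ S ∧ ∀ x y, G.Adj x y → x ∈ S → y ∈ S → s(x, y) = s(u, v) := by
  simp [Cl]

omit [Fintype V] [DecidableEq V] in
theorem near_iff {G : SimpleGraph V} {S : Finset V} : Near G S ↔
    ∃ u v, G.Adj u v ∧ u ∈ S ∧ v ∈ S ∧
      ∀ x y, G.Adj x y → x ∈ S → y ∈ S → s(x, y) = s(u, v) := by
  constructor
  · rintro ⟨e, ⟨he, hS⟩, hu⟩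
    induction e using Sym2.ind with
    | _ u v =>
      refine ⟨u, v, he, hS u (by simp), hS v (by simp), fun x y hxy hx hy => hu _ ⟨hxy, ?_⟩⟩
      intro w hw
      rcases Sym2.mem_iff.1 hw with rfl | rfl <;> assumption
  · rintro ⟨u, v, h, hu, hv, H⟩
    refine ⟨s(u, v), ⟨h, ?_⟩, ?_⟩
    · intro w hw
      rcases Sym2.mem_iff.1 hw with rfl | rfl <;> assumption
    · intro e
      induction e using Sym2.ind with
      | _ x y =>
        rintro ⟨he, hS⟩
        exact H x y he (hS x (by simp)) (hS y (by simp))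

theorem sum_nonpos_of_classes {G : SimpleGraph V} (g : Finset V → ℤ)
    (h : ∀ u v, G.Adj u v → ∑ S ∈ Cl G u v, g S ≤ 0) : ∑ S ∈ NI G, g S ≤ 0 := by
  classical
  have h1 : ∑ S ∈ NI G, g S
      = ∑ S ∈ NI G, ∑ e ∈ G.edgeFinset, if (∀ v ∈ e, v ∈ S) then g S else 0 := by
    refine sum_congr rfl fun S hS => ?_
    obtain ⟨e, ⟨he, hS'⟩, hu⟩ := mem_NI.1 hS
    rw [sum_eq_single e]
    · rw [if_pos hS']
    · intro b hb hne
      rw [if_neg]
      intro hb'
      exact hne (hu b ⟨by simpa using hb, hb'⟩)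
    · intro hn
      exact absurd (by simpa using he) hn
  rw [h1, sum_comm]
  refine sum_nonpos fun e he => ?_
  induction e using Sym2.ind with
  | _ u v =>
    have huv : G.Adj u v := by simpa using he
    rw [← sum_filter]
    have : (NI G).filter (fun S => ∀ w ∈ s(u, v), w ∈ S) = Cl G u v := by
      ext S
      rw [mem_filter, mem_NI, near_iff, mem_Cl]
      constructor
      · rintro ⟨⟨a, b, _, _, _, H⟩, hS⟩
        have hu := hS u (by simp)
        have hv := hS v (by simp)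
        exact ⟨hu, hv, fun x y hxy hx hy => (H x y hxy hx hy).trans (H u v huv hu hv).symm⟩
      · rintro ⟨hu, hv, H⟩
        refine ⟨⟨u, v, huv, hu, hv, H⟩, fun w hw => ?_⟩
        rcases Sym2.mem_iff.1 hw with rfl | rfl <;> assumption
    rw [this]
    exact h u v huv

theorem erase_mem {G : SimpleGraph V} {u v w : V} {S : Finset V} (hS : S ∈ Cl G u v)
    (hu : w ≠ u) (hv : w ≠ v) : S.erase w ∈ Cl G u v := by
  rw [mem_Cl] at hS ⊢
  refine ⟨mem_erase.2 ⟨hu.symm, hS.1⟩, mem_erase.2 ⟨hv.symm, hS.2.1⟩, fun x y h hx hy => ?_⟩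
  exact hS.2.2 x y h (mem_of_mem_erase hx) (mem_of_mem_erase hy)

noncomputable def aw (G : SimpleGraph V) (u v w : V) : ℕ := ((Cl G u v).filter (fun S => w ∈ S)).card

theorem erase_inj (w : V) (A : Finset (Finset V)) :
    Set.InjOn (fun S : Finset V => S.erase w) (A.filter (fun S => w ∈ S) : Finset (Finset V)) := by
  intro S hS T hT h
  have hS' := (mem_filter.1 (mem_coe.1 hS)).2
  have hT' := (mem_filter.1 (mem_coe.1 hT)).2
  have h' : S.erase w = T.erase w := h
  rw [← insert_erase hS', ← insert_erase hT', h']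

theorem half {G : SimpleGraph V} {u v w : V} (hu : w ≠ u) (hv : w ≠ v) :
    2 * aw G u v w ≤ (Cl G u v).card := by
  have h1 : aw G u v w ≤ ((Cl G u v).filter (fun S => ¬ w ∈ S)).card := by
    refine card_le_card_of_injOn (fun S => S.erase w) ?_ (erase_inj w _)
    intro S hS
    have hS' := mem_filter.1 (mem_coe.1 hS)
    exact mem_coe.2 (mem_filter.2 ⟨erase_mem hS'.1 hu hv, by simp⟩)
  have h2 := card_filter_add_card_filter_not (s := Cl G u v) (fun S => w ∈ S)
  unfold aw at *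
  omega

theorem not_both {G : SimpleGraph V} {u v x y : V} {S : Finset V} (hS : S ∈ Cl G u v)
    (hu : x ≠ u) (hv : x ≠ v) (h : G.Adj x y) (hx : x ∈ S) : y ∉ S := by
  intro hy
  have := (mem_Cl.1 hS).2.2 x y h hx hy
  rw [Sym2.eq_iff] at this
  tauto

theorem third {G : SimpleGraph V} {u v x y : V} (hxu : x ≠ u) (hxv : x ≠ v) (hyu : y ≠ u)
    (hyv : y ≠ v) (h : G.Adj x y) : 3 * (aw G u v x + aw G u v y) ≤ 2 * (Cl G u v).card := by
  have h1 : aw G u v x ≤ ((Cl G u v).filter (fun S => x ∉ S ∧ y ∉ S)).card := by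
    refine card_le_card_of_injOn (fun S => S.erase x) ?_ (erase_inj x _)
    intro S hS
    have hS' := mem_filter.1 (mem_coe.1 hS)
    refine mem_coe.2 (mem_filter.2 ⟨erase_mem hS'.1 hxu hxv, by simp, fun hy => ?_⟩)
    exact not_both hS'.1 hxu hxv h hS'.2 (mem_of_mem_erase hy)
  have h2 : aw G u v y ≤ ((Cl G u v).filter (fun S => x ∉ S ∧ y ∉ S)).card := by
    refine card_le_card_of_injOn (fun S => S.erase y) ?_ (erase_inj y _)
    intro S hS
    have hS' := mem_filter.1 (mem_coe.1 hS)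
    refine mem_coe.2 (mem_filter.2 ⟨erase_mem hS'.1 hyu hyv, fun hx => ?_, by simp⟩)
    exact not_both hS'.1 hyu hyv h.symm hS'.2 (mem_of_mem_erase hx)
  have h3 : aw G u v x + aw G u v y + ((Cl G u v).filter (fun S => x ∉ S ∧ y ∉ S)).card
      ≤ (Cl G u v).card := by
    unfold aw
    rw [card_filter, card_filter, card_filter, ← sum_add_distrib, ← sum_add_distrib,
      card_eq_sum_ones]
    refine sum_le_sum fun S hS => ?_
    by_cases hx : x ∈ S
    · have := not_both hS hxu hxv h hx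
      simp [hx, this]
    · by_cases hy : y ∈ S <;> simp [hx, hy]
  omega

theorem dead {G : SimpleGraph V} {u v w : V} (hu : w ≠ u) (hv : w ≠ v)
    (h : G.Adj w u ∨ G.Adj w v) : aw G u v w = 0 := by
  unfold aw
  rw [card_eq_zero, filter_eq_empty_iff]
  intro S hS hw
  rcases h with h | h
  · exact not_both hS hu hv h hw (mem_Cl.1 hS).1
  · exact not_both hS hu hv h hw (mem_Cl.1 hS).2.1

theorem aw_le (G : SimpleGraph V) (u v w : V) : aw G u v w ≤ (Cl G u v).card :=
  card_filter_le _ _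

theorem sum_card (G : SimpleGraph V) (u v : V) :
    ∑ S ∈ Cl G u v, S.card = ∑ w, aw G u v w := by
  unfold aw
  simp_rw [card_filter]
  rw [sum_comm]
  refine sum_congr rfl fun S _ => ?_
  rw [← card_filter]
  congr 1
  ext w
  simp

theorem split (G : SimpleGraph V) (u v : V) (Z : Finset V) (hu : u ∈ Z) (hv : v ∈ Z) :
    2 * ∑ S ∈ Cl G u v, S.card + Z.card * (Cl G u v).card
      ≤ 2 * ∑ w ∈ Z, aw G u v w + Fintype.card V * (Cl G u v).card := by
  rw [sum_card, ← sum_add_sum_compl Z]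
  have h1 : 2 * ∑ w ∈ Zᶜ, aw G u v w ≤ Zᶜ.card * (Cl G u v).card := by
    rw [mul_sum, ← smul_eq_mul, ← sum_const]
    refine sum_le_sum fun w hw => half ?_ ?_
    · rintro rfl; exact (mem_compl.1 hw) hu
    · rintro rfl; exact (mem_compl.1 hw) hv
  have h2 : Z.card + Zᶜ.card = Fintype.card V := card_add_card_compl Z
  rw [← h2]
  nlinarith

def IsR (G : SimpleGraph V) (u v c : V) : Prop :=
  u ≠ v ∧ u ≠ c ∧ v ≠ c ∧ ∀ x y, G.Adj x y ↔
    (x = u ∧ y = v) ∨ (x = v ∧ y = u) ∨ (x = c ∧ y ≠ c ∧ y ≠ u) ∨ (y = c ∧ x ≠ c ∧ x ≠ u)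

omit [Fintype V] [DecidableEq V] in
theorem cross {G : SimpleGraph V} (hG : G.Connected) (S : Set V) {a b : V} (ha : a ∈ S)
    (hb : b ∉ S) : ∃ x y, x ∈ S ∧ y ∉ S ∧ G.Adj x y := by
  obtain ⟨p⟩ := hG.preconnected a b
  obtain ⟨d, _, h1, h2⟩ := p.exists_boundary_dart S ha hb
  exact ⟨d.fst, d.snd, h1, h2, d.adj⟩

omit [Fintype V] [DecidableEq V] in
theorem isR_of {G : SimpleGraph V} (hG : G.IsTree) {u v c : V} (huv : G.Adj u v) (hcu : c ≠ u)
    (hcv : G.Adj c v)
    (hD : ∀ d, d ≠ u → d ≠ v → (G.Adj d u ∨ G.Adj d v) → d = c)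
    (hF : ∀ x y, x ≠ u → x ≠ v → x ≠ c → y ≠ u → y ≠ v → y ≠ c → ¬ G.Adj x y) : IsR G u v c := by
  classical
  have hnt : ¬ G.Adj c u := by
    intro h
    have := hG.isAcyclic.cliqueFree (le_refl 3)
    exact this {c, u, v} (SimpleGraph.is3Clique_triple_iff.2 ⟨h, hcv, huv⟩)
  have hleaf : ∀ x, x ≠ u → x ≠ v → x ≠ c → G.Adj c x := by
    intro x h1 h2 h3
    obtain ⟨a, b, ha, hb, hab⟩ := cross hG.connected {x} (a := x) (b := c) rfl (fun h => h3 h.symm)
    have ha' : a = x := ha
    subst ha'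
    by_cases e1 : b = u
    · subst e1; exact absurd (hD a h1 h2 (Or.inl hab)) h3
    by_cases e2 : b = v
    · subst e2; exact absurd (hD a h1 h2 (Or.inr hab)) h3
    by_cases e3 : b = c
    · subst e3; exact hab.symm
    exact absurd hab (hF a b h1 h2 h3 e1 e2 e3)
  refine ⟨huv.ne, hcu.symm, hcv.ne.symm, fun x y => ⟨fun h => ?_, fun h => ?_⟩⟩
  · have hne := h.ne
    by_cases e3 : x = c
    · subst e3
      refine Or.inr (Or.inr (Or.inl ⟨rfl, hne.symm, ?_⟩))
      rintro rfl
      exact hnt h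
    by_cases f3 : y = c
    · subst f3
      refine Or.inr (Or.inr (Or.inr ⟨rfl, hne, ?_⟩))
      rintro rfl
      exact hnt h.symm
    by_cases e1 : x = u
    · subst e1
      by_cases f2 : y = v
      · exact Or.inl ⟨rfl, f2⟩
      · exact absurd (hD y hne.symm f2 (Or.inl h.symm)) f3
    by_cases e2 : x = v
    · subst e2
      by_cases f1 : y = u
      · exact Or.inr (Or.inl ⟨rfl, f1⟩)
      · exact absurd (hD y f1 hne.symm (Or.inr h.symm)) f3
    by_cases f1 : y = u
    · subst f1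
      exact absurd (hD x e1 e2 (Or.inl h)) e3
    by_cases f2 : y = v
    · subst f2
      exact absurd (hD x e1 e2 (Or.inr h)) e3
    exact absurd h (hF x y e1 e2 e3 f1 f2 f3)
  · rcases h with ⟨rfl, rfl⟩ | ⟨rfl, rfl⟩ | ⟨rfl, h1, h2⟩ | ⟨rfl, h1, h2⟩
    · exact huv
    · exact huv.symm
    · by_cases e : y = v
      · subst e; exact hcv
      · exact hleaf y h2 e h1
    · by_cases e : x = v
      · subst e; exact hcv.symm
      · exact (hleaf x h2 e h1).symm

theorem class_bound {G : SimpleGraph V} (hG : G.IsTree) (hn : 3 ≤ Fintype.card V) {u v : V}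
    (huv : G.Adj u v) (hR : ∀ a b c, ¬ IsR G a b c) :
    6 * ∑ S ∈ Cl G u v, S.card ≤ (3 * Fintype.card V + 1) * (Cl G u v).card := by
  have hne := huv.ne
  obtain ⟨w, hw⟩ : ∃ w, w ∉ ({u, v} : Finset V) := by
    by_contra hcon
    push Not at hcon
    have : (univ : Finset V) ⊆ {u, v} := fun w _ => hcon w
    have h2 := card_le_card this
    have h3 : ({u, v} : Finset V).card ≤ 2 := card_le_two
    rw [card_univ] at h2
    omega
  obtain ⟨a, c, ha, hc, hac⟩ := cross hG.connected ({u, v} : Set V) (a := u) (b := w) (by simp)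
    (by simpa using hw)
  have hcu : c ≠ u := fun h => hc (by simp [h])
  have hcv : c ≠ v := fun h => hc (by simp [h])
  have hcd : G.Adj c u ∨ G.Adj c v := by
    rcases ha with rfl | rfl
    · exact Or.inl hac.symm
    · exact Or.inr hac.symm
  have au := aw_le G u v u
  have av := aw_le G u v v
  have ac := dead hcu hcv hcd
  by_cases hD : ∀ d, d ≠ u → d ≠ v → (G.Adj d u ∨ G.Adj d v) → d = c
  · by_cases hF : ∀ x y, x ≠ u → x ≠ v → x ≠ c → y ≠ u → y ≠ v → y ≠ c → ¬ G.Adj x y
    · exfalso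
      rcases hcd with h | h
      · exact hR v u c (isR_of hG huv.symm hcv h (fun d h1 h2 h3 => hD d h2 h1 h3.symm)
          (fun x y h1 h2 h3 h4 h5 h6 => hF x y h2 h1 h3 h5 h4 h6))
      · exact hR u v c (isR_of hG huv hcu h hD hF)
    · push Not at hF
      obtain ⟨x, y, h1, h2, h3, h4, h5, h6, hxy⟩ := hF
      have h7 := hxy.ne
      have hs := split G u v {u, v, c, x, y} (by simp) (by simp)
      have ht := third h1 h2 h4 h5 hxy
      have n1 : u ∉ ({v, c, x, y} : Finset V) := by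
        simp [hne, hcu.symm, h1.symm, h4.symm]
      have n2 : v ∉ ({c, x, y} : Finset V) := by simp [hcv.symm, h2.symm, h5.symm]
      have n3 : c ∉ ({x, y} : Finset V) := by simp [h3.symm, h6.symm]
      have n4 : x ∉ ({y} : Finset V) := by simp [h7]
      rw [sum_insert n1, sum_insert n2, sum_insert n3, sum_insert n4, sum_singleton,
        card_insert_of_notMem n1, card_insert_of_notMem n2, card_insert_of_notMem n3,
        card_insert_of_notMem n4, card_singleton] at hs
      rw [add_mul, mul_assoc]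
      omega
  · push Not at hD
    obtain ⟨d, h1, h2, h3, h4⟩ := hD
    have ad := dead h1 h2 h3
    have hs := split G u v {u, v, c, d} (by simp) (by simp)
    have n1 : u ∉ ({v, c, d} : Finset V) := by simp [hne, hcu.symm, h1.symm]
    have n2 : v ∉ ({c, d} : Finset V) := by simp [hcv.symm, h2.symm]
    have n3 : c ∉ ({d} : Finset V) := by simp [Ne.symm h4]
    rw [sum_insert n1, sum_insert n2, sum_insert n3, sum_singleton,
      card_insert_of_notMem n1, card_insert_of_notMem n2, card_insert_of_notMem n3,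
      card_singleton] at hs
    rw [add_mul, mul_assoc]
    omega

theorem global_bound {G : SimpleGraph V} (hG : G.IsTree) (hn : 3 ≤ Fintype.card V)
    (hR : ∀ a b c, ¬ IsR G a b c) :
    6 * ∑ S ∈ NI G, S.card ≤ (3 * Fintype.card V + 1) * (NI G).card := by
  have key : ∀ A : Finset (Finset V),
      ∑ S ∈ A, (6 * (S.card : ℤ) - (3 * Fintype.card V + 1)) ≤ 0 ↔
      6 * ∑ S ∈ A, S.card ≤ (3 * Fintype.card V + 1) * A.card := by
    intro A
    rw [sum_sub_distrib, ← mul_sum, sum_const, nsmul_eq_mul, sub_nonpos, mul_comm (A.card : ℤ)]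
    exact_mod_cast Iff.rfl
  rw [← key]
  refine sum_nonpos_of_classes _ fun u v huv => ?_
  rw [key]
  exact class_bound hG hn huv hR

end Pool.Agent.H74.Av
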