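import Pool.Agent.H74.Av1

namespace Pool.Agent.H74.Av
open Finset

variable {V : Type*} [Fintype V] [DecidableEq V]

omit [Fintype V] in
theorem sum_card_powerset (L : Finset V) :
    2 * ∑ I ∈ L.powerset, I.card = L.card * 2 ^ L.card := by
  induction L using Finset.induction_on with
  | empty => simp
  | insert a L ha ih =>
    rw [sum_powerset_insert ha, card_insert_of_notMem ha]
    have : ∑ I ∈ L.powerset, (insert a I).card = ∑ I ∈ L.powerset, (I.card + 1) := by
      refine sum_congr rfl fun I hI => card_insert_of_notMem fun h => ha (mem_powerset.1 hI h)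
    rw [this, sum_add_distrib, sum_const, card_powerset, smul_eq_mul, pow_succ]
    nlinarith

theorem NI_R {G : SimpleGraph V} {u v c : V} (h : IsR G u v c) :
    NI G = (((univ \ {u, v, c}).powerset.image (fun I => insert u (insert v I))) ∪
      ((univ \ {u, c}).image (fun w => ({c, w} : Finset V)))) ∪
      ((univ \ {u, v, c}).image (fun w => ({u, c, w} : Finset V))) := by
  obtain ⟨huv, huc, hvc, H⟩ := h
  ext S
  rw [mem_NI, near_iff]
  simp only [mem_union, mem_image, mem_powerset]
  constructor
  · rintro ⟨a, b, hab, ha, hb, hS⟩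
    by_cases hc : c ∈ S
    · obtain ⟨w, hw, hwc, hwu, hS'⟩ : ∃ w, w ∈ S ∧ w ≠ c ∧ w ≠ u ∧
          ∀ x y, G.Adj x y → x ∈ S → y ∈ S → s(x, y) = s(c, w) := by
        rcases (H a b).1 hab with ⟨rfl, rfl⟩ | ⟨rfl, rfl⟩ | ⟨rfl, h1, h2⟩ | ⟨rfl, h1, h2⟩
        · have := hS c b ((H c b).2 (Or.inr (Or.inr (Or.inl ⟨rfl, hvc, huv.symm⟩)))) hc hb
          rw [Sym2.eq_iff] at this
          rcases this with ⟨h1, _⟩ | ⟨h1, _⟩
          · exact absurd h1.symm huc
          · exact absurd h1.symm hvc
        · have := hS c a ((H c a).2 (Or.inr (Or.inr (Or.inl ⟨rfl, hvc, huv.symm⟩)))) hc ha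
          rw [Sym2.eq_iff] at this
          rcases this with ⟨h1, _⟩ | ⟨h1, _⟩
          · exact absurd h1.symm hvc
          · exact absurd h1.symm huc
        · exact ⟨b, hb, h1, h2, hS⟩
        · exact ⟨a, ha, h1, h2, fun x y hxy hx hy => (hS x y hxy hx hy).trans Sym2.eq_swap⟩
      have hz : ∀ z ∈ S, z = c ∨ z = u ∨ z = w := by
        intro z hz
        by_cases e1 : z = c
        · exact Or.inl e1
        by_cases e2 : z = u
        · exact Or.inr (Or.inl e2)
        have := hS' c z ((H c z).2 (Or.inr (Or.inr (Or.inl ⟨rfl, e1, e2⟩)))) hc hz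
        exact Or.inr (Or.inr (Sym2.congr_right.1 this))
      by_cases hu : u ∈ S
      · right
        have hwv : w ≠ v := by
          rintro rfl
          have := hS' u w ((H u w).2 (Or.inl ⟨rfl, rfl⟩)) hu hw
          exact huc (Sym2.congr_left.1 this)
        refine ⟨w, by simp [hwc, hwu, hwv], ?_⟩
        ext z
        simp only [mem_insert, mem_singleton]
        constructor
        · rintro (rfl | rfl | rfl) <;> assumption
        · intro h
          have := hz z h
          tauto
      · left; right
        refine ⟨w, by simp [hwc, hwu], ?_⟩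
        ext z
        simp only [mem_insert, mem_singleton]
        constructor
        · rintro (rfl | rfl) <;> assumption
        · intro h
          rcases hz z h with h1 | h1 | h1
          · exact Or.inl h1
          · exact absurd (h1 ▸ h) hu
          · exact Or.inr h1
    · left; left
      have huvS : u ∈ S ∧ v ∈ S := by
        rcases (H a b).1 hab with ⟨rfl, rfl⟩ | ⟨rfl, rfl⟩ | ⟨rfl, _, _⟩ | ⟨rfl, _, _⟩
        · exact ⟨ha, hb⟩
        · exact ⟨hb, ha⟩
        · exact absurd ha hc
        · exact absurd hb hc
      refine ⟨S \ {u, v}, ?_, ?_⟩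
      · intro z hz
        rw [mem_sdiff] at hz ⊢
        refine ⟨mem_univ _, ?_⟩
        have h1 := hz.2
        simp only [mem_insert, mem_singleton, not_or] at h1 ⊢
        exact ⟨h1.1, h1.2, fun h => hc (h ▸ hz.1)⟩
      · ext z
        simp only [mem_insert, mem_sdiff, mem_singleton]
        constructor
        · rintro (rfl | rfl | h)
          · exact huvS.1
          · exact huvS.2
          · exact h.1
        · intro h
          tauto
  · rintro ((⟨I, hI, rfl⟩ | ⟨w, hw, rfl⟩) | ⟨w, hw, rfl⟩)
    · have hc : c ∉ insert u (insert v I) := by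
        simp only [mem_insert, not_or]
        refine ⟨huc.symm, hvc.symm, fun h => ?_⟩
        have := hI h
        simp at this
      refine ⟨u, v, (H u v).2 (Or.inl ⟨rfl, rfl⟩), by simp, by simp, fun x y hxy hx hy => ?_⟩
      rcases (H x y).1 hxy with ⟨rfl, rfl⟩ | ⟨rfl, rfl⟩ | ⟨rfl, _, _⟩ | ⟨rfl, _, _⟩
      · rfl
      · exact Sym2.eq_swap
      · exact absurd hx hc
      · exact absurd hy hc
    · simp only [mem_sdiff, mem_univ, mem_insert, mem_singleton, not_or, true_and] at hw
      refine ⟨c, w, (H c w).2 (Or.inr (Or.inr (Or.inl ⟨rfl, hw.2, hw.1⟩))), by simp, by simp,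
        fun x y hxy hx hy => ?_⟩
      have hne := hxy.ne
      simp only [mem_insert, mem_singleton] at hx hy
      rcases hx with rfl | rfl <;> rcases hy with rfl | rfl
      · exact absurd rfl hne
      · rfl
      · exact Sym2.eq_swap
      · exact absurd rfl hne
    · simp only [mem_sdiff, mem_univ, mem_insert, mem_singleton, not_or, true_and] at hw
      refine ⟨c, w, (H c w).2 (Or.inr (Or.inr (Or.inl ⟨rfl, hw.2.2, hw.1⟩))), by simp, by simp,
        fun x y hxy hx hy => ?_⟩
      have hnu : ∀ z, G.Adj u z → z = v := by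
        intro z hz
        rcases (H u z).1 hz with ⟨_, h⟩ | ⟨h, _⟩ | ⟨h, _, _⟩ | ⟨_, _, h⟩
        · exact h
        · exact absurd h huv
        · exact absurd h huc
        · exact absurd rfl h
      have hne := hxy.ne
      simp only [mem_insert, mem_singleton] at hx hy
      rcases hx with rfl | rfl | rfl <;> rcases hy with rfl | rfl | rfl
      · exact absurd rfl hne
      · exact absurd (hnu _ hxy).symm hvc
      · exact absurd (hnu _ hxy) hw.2.1
      · exact absurd (hnu _ hxy.symm).symm hvc
      · exact absurd rfl hne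
      · rfl
      · exact absurd (hnu _ hxy.symm) hw.2.1
      · exact Sym2.eq_swap
      · exact absurd rfl hne

theorem sum_R {G : SimpleGraph V} {u v c : V} (h : IsR G u v c) (g : ℕ → ℕ) :
    ∑ S ∈ NI G, g S.card = ∑ I ∈ (univ \ {u, v, c} : Finset V).powerset, g (I.card + 2)
      + (univ \ {u, c} : Finset V).card * g 2 + (univ \ {u, v, c} : Finset V).card * g 3 := by
  rw [NI_R h]
  obtain ⟨huv, huc, hvc, -⟩ := h
  have hI : ∀ I ∈ (univ \ {u, v, c} : Finset V).powerset, u ∉ I ∧ v ∉ I ∧ c ∉ I := by
    intro I hI
    have := mem_powerset.1 hI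
    refine ⟨fun h => ?_, fun h => ?_, fun h => ?_⟩ <;> simpa using this h
  rw [sum_union, sum_union, sum_image, sum_image, sum_image]
  · congr 1
    · congr 1
      · refine sum_congr rfl fun I hI' => ?_
        obtain ⟨h1, h2, _⟩ := hI I hI'
        rw [card_insert_of_notMem (by simp [huv, h1]), card_insert_of_notMem h2]
      · rw [← smul_eq_mul, ← sum_const]
        refine sum_congr rfl fun w hw => ?_
        simp only [mem_sdiff, mem_univ, mem_insert, mem_singleton, not_or, true_and] at hw
        rw [card_pair (Ne.symm hw.2)]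
    · rw [← smul_eq_mul, ← sum_const]
      refine sum_congr rfl fun w hw => ?_
      simp only [mem_sdiff, mem_univ, mem_insert, mem_singleton, not_or, true_and] at hw
      rw [card_insert_of_notMem (by simp [huc, Ne.symm hw.1]), card_pair (Ne.symm hw.2.2)]
  · intro w hw w' _ he
    simp only [coe_sdiff, coe_univ, coe_insert, coe_singleton, Set.mem_diff, Set.mem_univ,
      Set.mem_insert_iff, Set.mem_singleton_iff, not_or, true_and] at hw
    have he' : ({u, c, w} : Finset V) = {u, c, w'} := he
    have : w ∈ ({u, c, w'} : Finset V) := he' ▸ (by simp)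
    simp only [mem_insert, mem_singleton] at this
    tauto
  · intro w hw w' _ he
    simp only [coe_sdiff, coe_univ, coe_insert, coe_singleton, Set.mem_diff, Set.mem_univ,
      Set.mem_insert_iff, Set.mem_singleton_iff, not_or, true_and] at hw
    have he' : ({c, w} : Finset V) = {c, w'} := he
    have : w ∈ ({c, w'} : Finset V) := he' ▸ (by simp)
    simp only [mem_insert, mem_singleton] at this
    tauto
  · intro I h1 J h2 he
    have he' : insert u (insert v I) = insert u (insert v J) := he
    obtain ⟨a1, a2, _⟩ := hI I h1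
    obtain ⟨b1, b2, _⟩ := hI J h2
    ext z
    have := Finset.ext_iff.1 he' z
    simp only [mem_insert] at this
    by_cases e1 : z = u
    · subst e1; simp [a1, b1]
    by_cases e2 : z = v
    · subst e2; simp [a2, b2]
    tauto
  · rw [disjoint_left]
    intro S h1 h2
    obtain ⟨I, hI', rfl⟩ := mem_image.1 h1
    obtain ⟨w, _, he⟩ := mem_image.1 h2
    have : c ∈ insert u (insert v I) := he ▸ (by simp)
    have h3 := (hI I hI').2.2
    simp [huc.symm, hvc.symm, h3] at this
  · rw [disjoint_left]
    intro S h1 h2
    obtain ⟨w', _, rfl⟩ := mem_image.1 h2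
    rcases mem_union.1 h1 with h1 | h1
    · obtain ⟨I, hI', he⟩ := mem_image.1 h1
      have : c ∈ insert u (insert v I) := he ▸ (by simp)
      have h3 := (hI I hI').2.2
      simp [huc.symm, hvc.symm, h3] at this
    · obtain ⟨w, hw, he⟩ := mem_image.1 h1
      simp only [mem_sdiff, mem_univ, mem_insert, mem_singleton, not_or, true_and] at hw
      have : u ∈ ({c, w} : Finset V) := he ▸ (by simp)
      simp [huc, Ne.symm hw.1] at this

theorem formula_R {G : SimpleGraph V} {u v c : V} (h : IsR G u v c) {m : ℕ}
    (hm : Fintype.card V = m + 3) :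
    (NI G).card = 2 ^ m + (m + 1) + m ∧
      2 * ∑ S ∈ NI G, S.card = (m + 4) * 2 ^ m + 4 * (m + 1) + 6 * m := by
  have h1 : (univ \ {u, v, c} : Finset V).card = m := by
    rw [card_univ_diff, card_insert_of_notMem (by simp [h.1, h.2.1]), card_pair h.2.2.1]
    omega
  have h2 : (univ \ {u, c} : Finset V).card = m + 1 := by
    rw [card_univ_diff, card_pair h.2.1]
    omega
  constructor
  · have := sum_R h (fun _ => 1)
    simp only [sum_const, smul_eq_mul, mul_one, card_powerset, h1, h2] at this
    exact this
  · have := sum_R h id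
    have h3 := sum_card_powerset (univ \ {u, v, c} : Finset V)
    simp only [id, sum_add_distrib, sum_const, smul_eq_mul, card_powerset, h1, h2] at this h3
    rw [this]
    nlinarith

end Pool.Agent.H74.Av
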