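import Pool.Agent.H74.Av2

namespace Pool.Agent.H74.Av
open Finset

def cnt (a b : ℕ) : List ℕ → ℕ → ℕ → ℕ → ℕ → ℤ
  | [], _, _, sz, e => if e = 1 then (b * sz : ℤ) - a else 0
  | q :: qs, i, mask, sz, e =>
    if 2 ≤ e then 0 else
    cnt a b qs (i + 1) mask sz e +
      cnt a b qs (i + 1) (mask ||| 2 ^ i) (sz + 1) (if mask.testBit q then e + 1 else e)

def chk (a b : ℕ) : ℕ → ℕ → ℕ → List ℕ → Bool
  | 0, _, _, ps => decide (cnt a b ps 0 0 0 0 ≤ 0)
  | k + 1, i, lo, ps =>
    (List.range i).all (fun q => decide (q < lo) || chk a b k (i + 1) q (ps ++ [q]))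

def ec (p : ℕ → ℕ) (U : Finset ℕ) : ℕ := (U.filter (fun i => p i < i ∧ p i ∈ U)).card

def wt (a b : ℕ) (p : ℕ → ℕ) (U : Finset ℕ) : ℤ := if ec p U = 1 then (b * U.card : ℤ) - a else 0

theorem ec_mono (p : ℕ → ℕ) {S T : Finset ℕ} (h : S ⊆ T) : ec p S ≤ ec p T := by
  refine card_le_card fun i hi => ?_
  rw [mem_filter] at hi ⊢
  exact ⟨h hi.1, hi.2.1, h hi.2.2⟩

theorem ec_insert (p : ℕ → ℕ) {S : Finset ℕ} {i : ℕ} (h : ∀ j ∈ S, j < i) :
    ec p (insert i S) = if p i ∈ S then ec p S + 1 else ec p S := by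
  have hi : i ∉ S := fun hh => lt_irrefl _ (h i hh)
  have h1 : S.filter (fun j => p j < j ∧ p j ∈ insert i S) = S.filter (fun j => p j < j ∧ p j ∈ S) := by
    refine filter_congr fun j hj => ?_
    have := h j hj
    rw [mem_insert]
    constructor
    · rintro ⟨a, b | b⟩
      · omega
      · exact ⟨a, b⟩
    · rintro ⟨a, b⟩
      exact ⟨a, Or.inr b⟩
  unfold ec
  rw [filter_insert, h1]
  by_cases hp : p i ∈ S
  · rw [if_pos ⟨h _ hp, mem_insert_of_mem hp⟩, if_pos hp,
      card_insert_of_notMem (fun hh => hi (mem_filter.1 hh).1)]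
  · rw [if_neg, if_neg hp]
    rintro ⟨a, b⟩
    rcases mem_insert.1 b with b | b
    · omega
    · exact hp b

theorem cnt_spec (a b : ℕ) (p : ℕ → ℕ) (k : ℕ) : ∀ (i mask : ℕ) (S : Finset ℕ),
    (∀ j ∈ S, j < i) → (∀ j, mask.testBit j = true ↔ j ∈ S) →
    cnt a b ((List.range' i k).map p) i mask S.card (ec p S)
      = ∑ T ∈ (Ico i (i + k)).powerset, wt a b p (S ∪ T) := by
  induction k with
  | zero =>
    intro i mask S _ _
    simp [cnt, wt]
  | succ k ih =>
    intro i mask S hS hm
    have hi : i ∉ S := fun hh => lt_irrefl _ (hS i hh)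
    rw [List.range'_succ, List.map_cons, cnt]
    by_cases h2 : 2 ≤ ec p S
    · rw [if_pos h2]
      refine (sum_eq_zero fun T _ => ?_).symm
      have := ec_mono p (subset_union_left : S ⊆ S ∪ T)
      unfold wt
      rw [if_neg (by omega)]
    · rw [if_neg h2]
      have e : Ico i (i + (k + 1)) = insert i (Ico (i + 1) (i + 1 + k)) := by
        ext j
        simp only [mem_Ico, mem_insert]
        omega
      rw [e, sum_powerset_insert (by simp), ih (i + 1) mask S (fun j hj => by have := hS j hj; omega) hm]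
      congr 1
      have h3 := ih (i + 1) (mask ||| 2 ^ i) (insert i S)
        (fun j hj => by
          rcases mem_insert.1 hj with h | h
          · omega
          · have := hS j h; omega)
        (fun j => by
          rw [Nat.testBit_or, Bool.or_eq_true, hm, Nat.testBit_two_pow, mem_insert]
          simp only [decide_eq_true_eq]
          tauto)
      rw [card_insert_of_notMem hi, ec_insert p hS] at h3
      have h4 : (if mask.testBit (p i) = true then ec p S + 1 else ec p S)
          = if p i ∈ S then ec p S + 1 else ec p S := by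
        simp only [hm]
      rw [h4, h3]
      refine sum_congr rfl fun T _ => ?_
      rw [insert_union, union_insert]

theorem chk_spec (a b : ℕ) (p : ℕ → ℕ) (k : ℕ) : ∀ (i lo : ℕ) (ps : List ℕ),
    chk a b k i lo ps = true → (∀ j, i ≤ j → j < i + k → p j < j) → (0 < k → lo ≤ p i) →
    (∀ j, j + 1 < i + k → p j ≤ p (j + 1)) →
    cnt a b (ps ++ (List.range' i k).map p) 0 0 0 0 ≤ 0 := by
  induction k with
  | zero =>
    intro i lo ps h _ _ _
    simpa [chk] using h
  | succ k ih =>
    intro i lo ps h h1 h2 h3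
    rw [chk, List.all_eq_true] at h
    have h4 := h (p i) (List.mem_range.2 (h1 i le_rfl (by omega)))
    have h5 := h2 (by omega)
    rw [Bool.or_eq_true, decide_eq_true_eq] at h4
    rcases h4 with h4 | h4
    · omega
    · have := ih (i + 1) (p i) (ps ++ [p i]) h4 (fun j a b => h1 j (by omega) (by omega))
        (fun hk => h3 i (by omega)) (fun j a => h3 j (by omega))
      rw [List.range'_succ, List.map_cons]
      simpa using this

theorem code_bound (a b : ℕ) (p : ℕ → ℕ) (k : ℕ) (h : chk a b k 1 0 [0] = true) (h0 : p 0 = 0)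
    (h1 : ∀ j, 1 ≤ j → j < k + 1 → p j < j) (h3 : ∀ j, j + 1 < k + 1 → p j ≤ p (j + 1)) :
    ∑ T ∈ (range (k + 1)).powerset, wt a b p T ≤ 0 := by
  have h4 := chk_spec a b p k 1 0 [0] h (fun j x y => h1 j x (by omega)) (fun _ => Nat.zero_le _)
    (fun j x => h3 j (by omega))
  have h5 := cnt_spec a b p (k + 1) 0 0 ∅ (by simp) (by simp)
  rw [List.range'_succ, List.map_cons, h0] at h5
  simp only [empty_union, zero_add, card_empty] at h5
  rw [range_eq_Ico, ← h5]
  exact h4

variable {V : Type*} [Fintype V] [DecidableEq V]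

omit [DecidableEq V] in
theorem bfs {G : SimpleGraph V} (hG : G.Connected) (k : ℕ) (hk : k + 1 ≤ Fintype.card V) :
    ∃ (f : ℕ → V) (p : ℕ → ℕ), Set.InjOn f (range (k + 1) : Finset ℕ) ∧ p 0 = 0 ∧
      (∀ i, 1 ≤ i → i < k + 1 → p i < i ∧ G.Adj (f i) (f (p i))) ∧
      (∀ i, i + 1 < k + 1 → p i ≤ p (i + 1)) ∧
      (∀ a < p k, ∀ w, G.Adj (f a) w → ∃ j < k + 1, f j = w) := by
  classical
  induction k with
  | zero =>
    obtain ⟨r⟩ := hG.nonempty
    refine ⟨fun _ => r, fun _ => 0, ?_, rfl, fun i a b => by omega, fun i a => by omega,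
      fun a h => absurd h (Nat.not_lt_zero a)⟩
    intro x hx y hy _
    simp at hx hy
    omega
  | succ k ih =>
    obtain ⟨f, p, hf, h0, h1, h2, h3⟩ := ih (by omega)
    obtain ⟨z, hz⟩ : ∃ z, z ∉ (range (k + 1)).image f := by
      by_contra hcon
      push Not at hcon
      have : (univ : Finset V) ⊆ (range (k + 1)).image f := fun w _ => hcon w
      have h4 := (card_le_card this).trans card_image_le
      rw [card_univ, card_range] at h4
      omega
    have hex : ∃ a, a < k + 1 ∧ ∃ w, G.Adj (f a) w ∧ ¬ ∃ j < k + 1, f j = w := by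
      obtain ⟨x, y, hx, hy, hxy⟩ := cross hG (((range (k + 1)).image f : Finset V) : Set V)
        (a := f 0) (b := z) (mem_coe.2 (mem_image_of_mem f (by simp))) (fun h => hz (mem_coe.1 h))
      obtain ⟨a, ha, rfl⟩ := mem_image.1 (mem_coe.1 hx)
      refine ⟨a, mem_range.1 ha, y, hxy, ?_⟩
      rintro ⟨j, hj, rfl⟩
      exact hy (mem_coe.2 (mem_image_of_mem f (mem_range.2 hj)))
    obtain ⟨ha, w, hw, hnw⟩ := Nat.find_spec hex
    have hmin := fun m => Nat.find_min hex (m := m)
    generalize Nat.find hex = a at ha hw hmin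
    have fo : ∀ j, j < k + 1 → Function.update f (k + 1) w j = f j :=
      fun j hj => Function.update_of_ne (by omega) _ _
    have po : ∀ j, j < k + 1 → Function.update p (k + 1) a j = p j :=
      fun j hj => Function.update_of_ne (by omega) _ _
    refine ⟨Function.update f (k + 1) w, Function.update p (k + 1) a, ?_, ?_, ?_, ?_, ?_⟩
    · intro x hx y hy hxy
      have hx' : x < k + 1 + 1 := by simpa using hx
      have hy' : y < k + 1 + 1 := by simpa using hy
      by_cases e1 : x = k + 1 <;> by_cases e2 : y = k + 1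
      · omega
      · subst e1
        rw [Function.update_self, fo y (by omega)] at hxy
        exact absurd ⟨y, by omega, hxy.symm⟩ hnw
      · subst e2
        rw [Function.update_self, fo x (by omega)] at hxy
        exact absurd ⟨x, by omega, hxy⟩ hnw
      · rw [fo x (by omega), fo y (by omega)] at hxy
        exact hf (by simp; omega) (by simp; omega) hxy
    · rw [po 0 (by omega), h0]
    · intro i hi1 hi2
      by_cases e : i = k + 1
      · subst e
        rw [Function.update_self, Function.update_self, fo a ha]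
        exact ⟨ha, hw.symm⟩
      · obtain ⟨x, y⟩ := h1 i hi1 (by omega)
        rw [po i (by omega), fo i (by omega), fo (p i) (by omega)]
        exact ⟨x, y⟩
    · intro i hi
      by_cases e : i = k
      · subst e
        rw [Function.update_self, po i (by omega)]
        by_contra hlt
        exact hnw (h3 a (by omega) w hw)
      · rw [po i (by omega), po (i + 1) (by omega)]
        exact h2 i (by omega)
    · intro a' ha' w' hw'
      rw [Function.update_self] at ha'
      rw [fo a' (by omega)] at hw'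
      have := hmin a' ha'
      push Not at this
      obtain ⟨j, hj, e⟩ := this (by omega) w' hw'
      exact ⟨j, by omega, by rw [fo j hj, e]⟩

theorem small_bound {G : SimpleGraph V} (hG : G.IsTree) (a b k : ℕ) (hk : Fintype.card V = k + 1)
    (h : chk a b k 1 0 [0] = true) : b * ∑ S ∈ NI G, S.card ≤ a * (NI G).card := by
  classical
  obtain ⟨f, p, hf, h0, h1, h2, -⟩ := bfs hG.connected k hk.ge
  have hb := code_bound a b p k h h0 (fun j x y => (h1 j x y).1) h2
  have hinj : ∀ i j, i < k + 1 → j < k + 1 → f i = f j → i = j :=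
    fun i j hi hj e => hf (by simpa using hi) (by simpa using hj) e
  have hsurj : (range (k + 1)).image f = univ := by
    apply eq_univ_of_card
    rw [card_image_of_injOn hf, card_range, hk]
  have hei : ∀ i j, 1 ≤ i → i < k + 1 → 1 ≤ j → j < k + 1 →
      s(f i, f (p i)) = s(f j, f (p j)) → i = j := by
    intro i j a1 a2 b1 b2 e
    have c1 := (h1 i a1 a2).1
    have c2 := (h1 j b1 b2).1
    rcases Sym2.eq_iff.1 e with ⟨e1, _⟩ | ⟨e1, e2⟩
    · exact hinj i j a2 b2 e1
    · have := hinj _ _ a2 (by omega) e1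
      have := hinj _ _ (by omega) b2 e2
      omega
  have hE : (Ico 1 (k + 1)).image (fun i => s(f i, f (p i))) = G.edgeFinset := by
    apply eq_of_subset_of_card_le
    · intro e he
      obtain ⟨i, hi, rfl⟩ := mem_image.1 he
      rw [mem_Ico] at hi
      simpa using (h1 i hi.1 hi.2).2
    · rw [card_image_of_injOn]
      · have := hG.card_edgeFinset
        rw [Nat.card_Ico]
        omega
      · intro i hi j hj e
        have hi' := mem_Ico.1 (mem_coe.1 hi)
        have hj' := mem_Ico.1 (mem_coe.1 hj)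
        exact hei i j hi'.1 hi'.2 hj'.1 hj'.2 e
  have hnear : ∀ U ∈ (range (k + 1)).powerset, Near G (U.image f) ↔ ec p U = 1 := by
    intro U hU
    have hU' : ∀ j ∈ U, j < k + 1 := fun j hj => mem_range.1 (mem_powerset.1 hU hj)
    have hm : ∀ j, j < k + 1 → (f j ∈ U.image f ↔ j ∈ U) := by
      intro j hj
      constructor
      · intro hh
        obtain ⟨i, hi, e⟩ := mem_image.1 hh
        exact hinj i j (hU' i hi) hj e ▸ hi
      · exact mem_image_of_mem f
    unfold ec Near
    rw [card_eq_one_iff_existsUnique]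
    constructor
    · rintro ⟨e, ⟨he, hS⟩, hu⟩
      have he' : e ∈ G.edgeFinset := by simpa using he
      rw [← hE] at he'
      obtain ⟨i, hi, rfl⟩ := mem_image.1 he'
      rw [mem_Ico] at hi
      have c1 := (h1 i hi.1 hi.2).1
      refine ⟨i, mem_filter.2 ⟨(hm i hi.2).1 (hS _ (by simp)), c1,
        (hm _ (by omega)).1 (hS _ (by simp))⟩, fun j hj => ?_⟩
      obtain ⟨d1, d2, d3⟩ := mem_filter.1 hj
      have d4 := hU' j d1
      refine hei j i (by omega) d4 hi.1 hi.2 (hu _ ⟨(h1 j (by omega) d4).2, fun v hv => ?_⟩)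
      rcases Sym2.mem_iff.1 hv with rfl | rfl
      · exact mem_image_of_mem f d1
      · exact mem_image_of_mem f d3
    · rintro ⟨i, hi, hu⟩
      obtain ⟨d1, d2, d3⟩ := mem_filter.1 hi
      have d4 := hU' i d1
      refine ⟨s(f i, f (p i)), ⟨(h1 i (by omega) d4).2, fun v hv => ?_⟩, ?_⟩
      · rcases Sym2.mem_iff.1 hv with rfl | rfl
        · exact mem_image_of_mem f d1
        · exact mem_image_of_mem f d3
      · rintro e ⟨he, hS⟩
        have he' : e ∈ G.edgeFinset := by simpa using he
        rw [← hE] at he'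
        obtain ⟨j, hj, rfl⟩ := mem_image.1 he'
        rw [mem_Ico] at hj
        have c1 := (h1 j hj.1 hj.2).1
        have : j = i := hu j (mem_filter.2 ⟨(hm j hj.2).1 (hS _ (by simp)), c1,
          (hm _ (by omega)).1 (hS _ (by simp))⟩)
        rw [this]
  have hpi : Set.InjOn (fun U : Finset ℕ => U.image f)
      ((range (k + 1)).powerset : Finset (Finset ℕ)) := by
    intro U hU W hW e
    have e' : U.image f = W.image f := e
    have hU' : ∀ j ∈ U, j < k + 1 := fun j hj => mem_range.1 (mem_powerset.1 (mem_coe.1 hU) hj)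
    have hW' : ∀ j ∈ W, j < k + 1 := fun j hj => mem_range.1 (mem_powerset.1 (mem_coe.1 hW) hj)
    ext j
    constructor
    · intro hj
      obtain ⟨i, hi, e2⟩ := mem_image.1 (e' ▸ mem_image_of_mem f hj)
      exact hinj i j (hW' i hi) (hU' j hj) e2 ▸ hi
    · intro hj
      obtain ⟨i, hi, e2⟩ := mem_image.1 (e'.symm ▸ mem_image_of_mem f hj)
      exact hinj i j (hU' i hi) (hW' j hj) e2 ▸ hi
  have hsum : ∑ S ∈ NI G, ((b : ℤ) * S.card - a) = ∑ T ∈ (range (k + 1)).powerset, wt a b p T := by
    unfold NI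
    rw [sum_filter, ← powerset_univ, ← hsurj, powerset_image, sum_image hpi]
    refine sum_congr rfl fun U hU => ?_
    unfold wt
    rw [card_image_of_injOn (hf.mono (mem_powerset.1 hU))]
    simp only [hnear U hU]
  rw [← hsum, sum_sub_distrib, ← mul_sum, sum_const, nsmul_eq_mul, sub_nonpos,
    mul_comm ((NI G).card : ℤ)] at hb
  exact_mod_cast hb

theorem c4 : chk 12 5 3 1 0 [0] = true := by decide +kernel
theorem c5 : chk 8 3 4 1 0 [0] = true := by decide +kernel
theorem c6 : chk 3 1 5 1 0 [0] = true := by decide +kernel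
theorem c7 : chk 86 25 6 1 0 [0] = true := by decide +kernel
theorem c8 : chk 171 43 7 1 0 [0] = true := by decide +kernel
theorem c9 : chk 32 7 8 1 0 [0] = true := by decide +kernel

end Pool.Agent.H74.Av
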