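import Mathlib

set_option autoImplicit false

namespace Pool.Agent.H74.Baum

open Polynomial

abbrev K := ZMod 2
abbrev S := AddMonoidAlgebra K (ℤ × ℤ)

noncomputable def e (p : ℤ × ℤ) : S := AddMonoidAlgebra.single p 1
noncomputable def I : Ideal S := Ideal.span {e (0, 1) - 1 - e (1, 0)}
abbrev R := S ⧸ I
noncomputable def mon (p : ℤ × ℤ) : R := Ideal.Quotient.mk I (e p)

lemma e_add (p q : ℤ × ℤ) : e (p + q) = e p * e q := by
  simp [e, AddMonoidAlgebra.single_mul_single]

lemma e_zero : e 0 = 1 := rfl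

lemma mon_add (p q : ℤ × ℤ) : mon (p + q) = mon p * mon q := by
  simp [mon, e_add]

@[simp] lemma mon_zero : mon 0 = 1 := rfl

lemma mon_rel : mon (0, 1) = 1 + mon (1, 0) := by
  have : Ideal.Quotient.mk I (e (0, 1) - 1 - e (1, 0)) = 0 :=
    Ideal.Quotient.eq_zero_iff_mem.2 (Ideal.subset_span rfl)
  simp only [map_sub, map_one] at this
  unfold mon
  linear_combination this

lemma two_alg (T : Type) [CommRing T] [Algebra K T] : (2 : T) = 0 := by
  have : (algebraMap K T) 2 = 0 := by
    rw [show (2 : K) = 0 from rfl, map_zero]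
  rwa [map_ofNat] at this

lemma two0 : (2 : R) = 0 := two_alg R

lemma S_ind {motive : S → Prop} (h0 : motive 0) (hadd : ∀ a b, motive a → motive b → motive (a + b))
    (hm : ∀ p, motive (e p)) (s : S) : motive s := by
  induction s using AddMonoidAlgebra.induction_linear with
  | zero => exact h0
  | add a b ha hb => exact hadd a b ha hb
  | single p c =>
    have : c = 0 ∨ c = 1 := by revert c; decide
    rcases this with rfl | rfl
    · simpa using h0
    · exact hm p

lemma R_ind {motive : R → Prop} (h0 : motive 0) (hadd : ∀ a b, motive a → motive b → motive (a + b))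
    (hm : ∀ p, motive (mon p)) (r : R) : motive r := by
  obtain ⟨s, rfl⟩ := Ideal.Quotient.mk_surjective r
  induction s using S_ind with
  | h0 => simpa using h0
  | hadd a b ha hb => rw [map_add]; exact hadd _ _ ha hb
  | hm p => exact hm p

section ev
variable {T : Type} [CommRing T] [Algebra K T]

def uh (u v : Tˣ) : Multiplicative (ℤ × ℤ) →* T :=
  (Units.coeHom T).comp (MonoidHom.mk' (fun p => u ^ p.toAdd.1 * v ^ p.toAdd.2) (by
    intro p q
    simp only [toAdd_mul, Prod.fst_add, Prod.snd_add, zpow_add]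
    exact mul_mul_mul_comm _ _ _ _))

noncomputable def ev (u v : Tˣ) (h : (v : T) = 1 + u) : R →+* T :=
  Ideal.Quotient.lift I (AddMonoidAlgebra.lift K T (ℤ × ℤ) (uh u v)).toRingHom (by
    intro a ha
    obtain ⟨b, rfl⟩ := Ideal.mem_span_singleton'.1 ha
    simp [e, uh, h])

lemma ev_mon (u v : Tˣ) (h : (v : T) = 1 + u) (p : ℤ × ℤ) :
    ev u v h (mon p) = ((u ^ p.1 * v ^ p.2 : Tˣ) : T) := by
  simp [ev, mon, e, uh]

end ev

noncomputable def monHom : Multiplicative (ℤ × ℤ) →* R where
  toFun p := mon p.toAdd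
  map_one' := rfl
  map_mul' _ _ := mon_add _ _

noncomputable def xu : Rˣ := monHom.toHomUnits (Multiplicative.ofAdd (1, 0))
noncomputable def yu : Rˣ := monHom.toHomUnits (Multiplicative.ofAdd (0, 1))

lemma xu_val : (xu : R) = mon (1, 0) := rfl
lemma yu_val : (yu : R) = mon (0, 1) := rfl

lemma mon_eq (p : ℤ × ℤ) : mon p = ((xu ^ p.1 * yu ^ p.2 : Rˣ) : R) := by
  rw [xu, yu, ← map_zpow monHom.toHomUnits, ← map_zpow monHom.toHomUnits, ← map_mul]
  show mon p = mon _
  congr 1
  ext <;> simp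

noncomputable def tau : R →+* R := ev yu xu (by
  rw [xu_val, yu_val, mon_rel]
  linear_combination -two0)

lemma tau_mon (p : ℤ × ℤ) : tau (mon p) = mon p.swap := by
  rw [tau, ev_mon, mon_eq, mul_comm (yu ^ p.1)]
  rfl

@[simp] lemma tau_tau (r : R) : tau (tau r) = r := by
  induction r using R_ind with
  | h0 => simp
  | hadd a b ha hb => simp [ha, hb]
  | hm p => simp [tau_mon]

noncomputable def fr : R →+* R where
  toFun r := r ^ 2
  map_one' := by simp
  map_mul' a b := mul_pow a b 2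
  map_zero' := by simp
  map_add' a b := by linear_combination (a * b) * two0

lemma fr_apply (r : R) : fr r = r ^ 2 := rfl

lemma fr_mon (p : ℤ × ℤ) : fr (mon p) = mon (p + p) := by
  rw [fr_apply, mon_add, pow_two]

lemma fr_tau (r : R) : fr (tau r) = tau (fr r) := by
  simp [fr_apply]

abbrev L := Localization.Away (X * (X + 1) : K[X])

lemma XX_ne : (X * (X + 1) : K[X]) ≠ 0 :=
  mul_ne_zero X_ne_zero (by
    have := X_add_C_ne_zero (1 : K)
    simpa using this)

instance : IsDomain L := IsLocalization.Away.isDomain (R := K[X]) (S := L) XX_ne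

lemma L_unit : IsUnit (algebraMap K[X] L X * algebraMap K[X] L (X + 1)) := by
  rw [← map_mul]
  exact IsLocalization.Away.algebraMap_isUnit _

noncomputable def ux : Lˣ := (isUnit_of_mul_isUnit_left L_unit).unit
noncomputable def uy : Lˣ := (isUnit_of_mul_isUnit_right L_unit).unit

noncomputable def toL : R →+* L := ev ux uy (by
  simp [ux, uy, add_comm])

noncomputable def ofL : L →+* R :=
  IsLocalization.Away.lift (X * (X + 1) : K[X]) (g := (aeval (xu : R)).toRingHom) (by
    have : (aeval (xu : R)).toRingHom (X * (X + 1) : K[X]) = ((xu * yu : Rˣ) : R) := by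
      simp [yu_val, mon_rel, xu_val, add_comm]
    rw [this]
    exact Units.isUnit _)

lemma ofL_toL (r : R) : ofL (toL r) = r := by
  have h1 : Units.map (ofL : L →* R) ux = xu := by
    ext
    simp [ux, ofL]
  have h2 : Units.map (ofL : L →* R) uy = yu := by
    ext
    simp only [uy, Units.coe_map, IsUnit.unit_spec, MonoidHom.coe_coe, ofL,
      IsLocalization.Away.lift_eq]
    simp [yu_val, mon_rel, xu_val, add_comm]
  induction r using R_ind with
  | h0 => simp
  | hadd a b ha hb => simp [ha, hb]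
  | hm p =>
    rw [toL, ev_mon, mon_eq, ← h1, ← h2, ← map_zpow, ← map_zpow, ← map_mul]
    rfl

lemma toL_inj : Function.Injective toL := Function.LeftInverse.injective ofL_toL

instance : IsDomain R := toL_inj.isDomain toL

lemma fr_inj : Function.Injective fr := by
  rw [injective_iff_map_eq_zero]
  intro r hr
  exact pow_eq_zero_iff (two_ne_zero) |>.1 hr

abbrev Q := RatFunc K

lemma X1_ne : (1 + RatFunc.X : Q) ≠ 0 := by
  have : (1 + RatFunc.X : Q) = algebraMap K[X] Q (X + C 1) := by simp [add_comm]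
  rw [this]
  exact RatFunc.algebraMap_ne_zero (X_add_C_ne_zero _)

noncomputable def qx : Qˣ := Units.mk0 RatFunc.X RatFunc.X_ne_zero
noncomputable def qy : Qˣ := Units.mk0 (1 + RatFunc.X) X1_ne

noncomputable def toQ : R →+* Q := ev qx qy rfl

lemma not_sq (p q : Q) (h : p ^ 2 = RatFunc.X * q ^ 2) : q = 0 := by
  by_contra hq
  have hp : p ≠ 0 := by
    rintro rfl
    exact mul_ne_zero RatFunc.X_ne_zero (pow_ne_zero 2 hq) (by simpa using h.symm)
  have := congrArg RatFunc.intDegree h
  rw [pow_two, pow_two, RatFunc.intDegree_mul hp hp,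
    RatFunc.intDegree_mul RatFunc.X_ne_zero (mul_ne_zero hq hq), RatFunc.intDegree_mul hq hq,
    RatFunc.intDegree_X] at this
  omega

lemma indep_nat (i j : ℕ) (h : (X : K[X]) ^ i = (X + 1) ^ j) : i = 0 ∧ j = 0 := by
  have h1 : i = 0 := by
    by_contra hi
    have := congrArg (eval 0) h
    simp [hi] at this
  subst h1
  refine ⟨rfl, ?_⟩
  by_contra hj
  have := congrArg (eval 1) h
  have e2 : (1 + 1 : K) = 0 := rfl
  simp [hj, e2] at this

lemma indep_nat' (i j : ℕ) (h : (X : K[X]) ^ i * (X + 1) ^ j = 1) : i = 0 ∧ j = 0 := by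
  have h1 : i = 0 := by
    by_contra hi
    have := congrArg (eval 0) h
    simp [hi] at this
  subst h1
  exact indep_nat 0 j (by simpa using h.symm)

lemma qx_pow (i : ℕ) : ((qx ^ i : Qˣ) : Q) = algebraMap K[X] Q (X ^ i) := by
  simp [qx]

lemma qy_pow (i : ℕ) : ((qy ^ i : Qˣ) : Q) = algebraMap K[X] Q ((X + 1) ^ i) := by
  simp [qy, add_comm]

lemma indep (i j : ℤ) (h : qx ^ i * qy ^ j = 1) : i = 0 ∧ j = 0 := by
  have inj := RatFunc.algebraMap_injective K
  have A : ∀ i j : ℕ, qx ^ i * qy ^ j = 1 → i = 0 ∧ j = 0 := by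
    intro i j h
    apply indep_nat'
    apply inj
    rw [map_mul, ← qx_pow, ← qy_pow, ← Units.val_mul, h]
    simp
  have B : ∀ i j : ℕ, qx ^ i = qy ^ j → i = 0 ∧ j = 0 := by
    intro i j h
    apply indep_nat
    apply inj
    rw [← qx_pow, ← qy_pow, h]
  obtain ⟨i, rfl | rfl⟩ := Int.eq_nat_or_neg i <;> obtain ⟨j, rfl | rfl⟩ := Int.eq_nat_or_neg j
  · have := A i j (by simpa using h)
    omega
  · have := B i j (by simpa [mul_inv_eq_one] using h)
    omega
  · have := B i j (by simpa [inv_mul_eq_one] using h)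
    omega
  · have := A i j (by
      simp only [zpow_neg, zpow_natCast] at h
      rw [← mul_inv, inv_eq_one] at h
      exact h)
    omega

/-- the unit equation with odd total degrees -/
lemma unit_eq (p q : ℤ × ℤ) (hp : Odd (p.1 + p.2)) (hq : Odd (q.1 + q.2))
    (h : mon q = 1 + mon p) : (p = (1, 0) ∧ q = (0, 1)) ∨ (p = (0, 1) ∧ q = (1, 0)) := by
  have h2 : (2 : Q) = 0 := two_alg Q
  have hQ := congrArg toQ h
  rw [map_add, map_one, toQ, ev_mon, ev_mon] at hQ
  have split : ∀ p : ℤ × ℤ, Odd (p.1 + p.2) → ∃ i j : ℤ,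
      (p = (2 * i + 1, 2 * j) ∧ ((qx ^ p.1 * qy ^ p.2 : Qˣ) : Q) =
        RatFunc.X * ((qx ^ i * qy ^ j : Qˣ) : Q) ^ 2) ∨
      (p = (2 * i, 2 * j + 1) ∧ ((qx ^ p.1 * qy ^ p.2 : Qˣ) : Q) =
        (1 + RatFunc.X) * ((qx ^ i * qy ^ j : Qˣ) : Q) ^ 2) := by
    rintro ⟨a, b⟩ hab
    have hx : (RatFunc.X : Q) = (qx : Q) := rfl
    have hy : (1 + RatFunc.X : Q) = (qy : Q) := rfl
    rcases Int.even_or_odd' a with ⟨i, rfl | rfl⟩ <;> rcases Int.even_or_odd' b with ⟨j, rfl | rfl⟩
    · obtain ⟨k, hk⟩ := hab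
      simp only at hk
      omega
    · refine ⟨i, j, Or.inr ⟨rfl, ?_⟩⟩
      rw [hy, ← Units.val_pow_eq_pow_val, ← Units.val_mul]
      congr 1
      simp only [zpow_add, two_mul, zpow_one, pow_two]
      simp only [mul_comm, mul_left_comm, mul_assoc]
    · refine ⟨i, j, Or.inl ⟨rfl, ?_⟩⟩
      rw [hx, ← Units.val_pow_eq_pow_val, ← Units.val_mul]
      congr 1
      simp only [zpow_add, two_mul, zpow_one, pow_two]
      simp only [mul_comm, mul_left_comm, mul_assoc]
    · obtain ⟨k, hk⟩ := hab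
      simp only at hk
      omega
  obtain ⟨i, j, hp'⟩ := split p hp
  obtain ⟨k, l, hq'⟩ := split q hq
  set w : Qˣ := qx ^ i * qy ^ j with hw
  set z : Qˣ := qx ^ k * qy ^ l with hz
  have one : ∀ i j : ℤ, ((qx ^ i * qy ^ j : Qˣ) : Q) ^ 2 = 1 → i = 0 ∧ j = 0 := by
    intro i j h
    apply indep
    ext
    have : (((qx ^ i * qy ^ j : Qˣ) : Q) - 1) ^ 2 = 0 := by
      linear_combination h + (1 - ((qx ^ i * qy ^ j : Qˣ) : Q)) * h2
    have := pow_eq_zero_iff (two_ne_zero) |>.1 this
    simpa [sub_eq_zero] using this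
  rcases hp' with ⟨rfl, e1⟩ | ⟨rfl, e1⟩ <;> rcases hq' with ⟨rfl, e2⟩ | ⟨rfl, e2⟩ <;>
    rw [e1, e2] at hQ
  · exfalso
    have := not_sq 1 ((w : Q) + z) (by
      linear_combination -hQ - (RatFunc.X * (w : Q) ^ 2 + RatFunc.X * w * z) * h2)
    have h3 : (z : Q) = -w := by linear_combination this
    rw [h3] at hQ
    simp at hQ
  · left
    have := not_sq (1 + z) ((w : Q) + z) (by
      linear_combination hQ + (1 + z - RatFunc.X * (z : Q) ^ 2 - RatFunc.X * w * z) * h2)
    have h3 : (z : Q) = -w := by linear_combination this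
    have h4 : (w : Q) ^ 2 = 1 := by
      rw [h3] at hQ
      linear_combination hQ
    have h5 : (z : Q) ^ 2 = 1 := by rw [h3]; linear_combination h4
    obtain ⟨rfl, rfl⟩ := one i j h4
    obtain ⟨rfl, rfl⟩ := one k l h5
    simp
  · right
    have := not_sq (1 + w) ((w : Q) + z) (by
      linear_combination -hQ + (w - RatFunc.X * (w : Q) ^ 2 - RatFunc.X * w * z) * h2)
    have h3 : (z : Q) = -w := by linear_combination this
    have h4 : (w : Q) ^ 2 = 1 := by
      rw [h3] at hQ
      linear_combination -hQ - h2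
    have h5 : (z : Q) ^ 2 = 1 := by rw [h3]; linear_combination h4
    obtain ⟨rfl, rfl⟩ := one i j h4
    obtain ⟨rfl, rfl⟩ := one k l h5
    simp
  · exfalso
    have := not_sq (1 + w + z) ((w : Q) + z) (by
      linear_combination hQ + (1 + (w : Q) ^ 2 + w + z + w * z - RatFunc.X * (z : Q) ^ 2
        - RatFunc.X * w * z) * h2)
    have h3 : (z : Q) = -w := by linear_combination this
    rw [h3] at hQ
    simp at hQ

end Pool.Agent.H74.Baum
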