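import Mathlib
import Pool.Agent.H74.BaumRing

set_option autoImplicit false

namespace Pool.Agent.H74.Baum

noncomputable def tw : Bool → R →+* R
  | true => tau
  | false => RingHom.id R

def sw : Bool → ℤ × ℤ → ℤ × ℤ
  | true => Prod.swap
  | false => id

@[simp] lemma tw_true (r : R) : tw true r = tau r := rfl
@[simp] lemma tw_false (r : R) : tw false r = r := rfl
@[simp] lemma sw_true (p : ℤ × ℤ) : sw true p = p.swap := rfl
@[simp] lemma sw_false (p : ℤ × ℤ) : sw false p = p := rfl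

@[ext] structure B where
  r : R
  p : ℤ × ℤ
  t : Bool

noncomputable instance : Mul B := ⟨fun g h =>
  ⟨g.r + mon g.p * tw g.t h.r, g.p + sw g.t h.p, xor g.t h.t⟩⟩
noncomputable instance : One B := ⟨⟨0, 0, false⟩⟩
noncomputable instance : Inv B := ⟨fun g =>
  ⟨-(mon (-sw g.t g.p) * tw g.t g.r), -sw g.t g.p, g.t⟩⟩

@[simp] lemma mul_r (g h : B) : (g * h).r = g.r + mon g.p * tw g.t h.r := rfl
@[simp] lemma mul_p (g h : B) : (g * h).p = g.p + sw g.t h.p := rfl
@[simp] lemma mul_t (g h : B) : (g * h).t = xor g.t h.t := rfl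
@[simp] lemma one_r : (1 : B).r = 0 := rfl
@[simp] lemma one_p : (1 : B).p = 0 := rfl
@[simp] lemma one_t : (1 : B).t = false := rfl
lemma inv_r (g : B) : (g⁻¹).r = -(mon (-sw g.t g.p) * tw g.t g.r) := rfl
@[simp] lemma inv_p (g : B) : (g⁻¹).p = -sw g.t g.p := rfl
@[simp] lemma inv_t (g : B) : (g⁻¹).t = g.t := rfl

noncomputable instance : Group B := Group.ofLeftAxioms
  (fun ⟨r, p, t⟩ ⟨r', p', t'⟩ ⟨r'', p'', t''⟩ => by
    ext1
    · cases t <;> cases t' <;> simp [mon_add, tau_mon] <;> ring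
    · cases t <;> cases t' <;> simp [add_assoc]
    · cases t <;> cases t' <;> simp)
  (fun g => by ext1 <;> simp)
  (fun g => by ext1 <;> simp [inv_r])

noncomputable def nB (r : R) : B := ⟨r, 0, false⟩
noncomputable def aB : B := nB 1
noncomputable def xB : B := ⟨0, (1, 0), false⟩
noncomputable def yB : B := ⟨0, (0, 1), false⟩
noncomputable def tB : B := ⟨0, 0, true⟩

lemma nB_add (r s : R) : nB (r + s) = nB r * nB s := by
  ext1 <;> simp [nB]

lemma nB_inj : Function.Injective nB := fun _ _ h => congrArg B.r h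

lemma conj_nB (g : B) (r : R) : g * nB r * g⁻¹ = nB (mon g.p * tw g.t r) := by
  rw [mul_inv_eq_iff_eq_mul]
  ext1 <;> cases h : g.t <;> simp [nB, add_comm, h]

lemma conj_aB (g : B) : g * aB * g⁻¹ = nB (mon g.p) := by
  rw [aB, conj_nB]; simp

lemma zpow_pt (g : B) (ht : g.t = false) (n : ℤ) : (g ^ n).t = false ∧ (g ^ n).p = n • g.p := by
  induction n using Int.induction_on with
  | zero => simp
  | succ n ih => rw [zpow_add_one]; simp [ih.1, ih.2, ht, add_smul, -zpow_natCast]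
  | pred n ih =>
    rw [zpow_sub_one]
    simp only [mul_t, ih.1, inv_t, ht, mul_p, ih.2, inv_p, sw_false, sub_smul, one_smul]
    exact ⟨rfl, by abel⟩

noncomputable def chiB : B →* Multiplicative (ZMod 2) :=
  MonoidHom.mk' (fun g => Multiplicative.ofAdd (((g.p.1 + g.p.2 : ℤ) : ZMod 2) + cond g.t 1 0)) (by
    rintro ⟨r, p, t⟩ ⟨r', p', t'⟩
    rw [← ofAdd_add]
    congr 1
    have h2 : (2 : ZMod 2) = 0 := rfl
    cases t <;> cases t' <;> simp
    all_goals first | ring1 | linear_combination -h2)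

lemma chiB_eq_one (g : B) : chiB g = 1 ↔ (g.t = true ↔ Odd (g.p.1 + g.p.2)) := by
  show Multiplicative.ofAdd _ = Multiplicative.ofAdd 0 ↔ _
  rw [Multiplicative.ofAdd.apply_eq_iff_eq]
  rcases Int.even_or_odd (g.p.1 + g.p.2) with h | h
  · rw [(ZMod.intCast_eq_zero_iff_even).2 h]
    have := Int.not_odd_iff_even.2 h
    cases g.t <;> simp [this]
  · rw [(ZMod.intCast_eq_one_iff_odd).2 h]
    cases g.t <;> simp [h]
    rfl

noncomputable def degB : B →* Multiplicative ℤ :=
  MonoidHom.mk' (fun g => Multiplicative.ofAdd (g.p.1 + g.p.2)) (by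
    rintro ⟨r, p, t⟩ ⟨r', p', t'⟩
    rw [← ofAdd_add]
    congr 1
    cases t <;> simp <;> ring)

noncomputable def frB : B →* B :=
  MonoidHom.mk' (fun g => ⟨fr g.r, g.p + g.p, g.t⟩) (by
    rintro ⟨r, p, t⟩ ⟨r', p', t'⟩
    ext1
    · cases t <;> simp [fr_mon, fr_tau]
    · cases t <;> simp <;> abel
    · simp)

lemma frB_inj : Function.Injective frB := by
  intro g h e
  have e1 : fr g.r = fr h.r := congrArg B.r e
  have e2 : g.p + g.p = h.p + h.p := congrArg B.p e
  have e3 : (frB g).t = (frB h).t := congrArg B.t e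
  have e4 := congrArg Prod.fst e2
  have e5 := congrArg Prod.snd e2
  simp only [Prod.fst_add, Prod.snd_add] at e4 e5
  ext1
  · exact fr_inj e1
  · ext <;> omega
  · exact e3

lemma cube_eq_one (g : B) (h : g ^ 3 = 1) : g = 1 := by
  rw [pow_three] at h
  have e3 := congrArg B.t h
  have ht : g.t = false := by
    cases h' : g.t
    · rfl
    · simp [h'] at e3
  have e2 := congrArg B.p h
  simp only [mul_p, ht, sw_false, one_p] at e2
  have e4 := congrArg Prod.fst e2
  have e5 := congrArg Prod.snd e2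
  simp only [Prod.fst_add, Prod.snd_add, Prod.fst_zero, Prod.snd_zero] at e4 e5
  have hp : g.p = 0 := by ext <;> simp <;> omega
  have e1 := congrArg B.r h
  simp only [mul_r, ht, hp, mon_zero, tw_false, one_r, one_mul] at e1
  ext1
  · simp only [one_r]
    linear_combination e1 - g.r * two0
  · exact hp
  · exact ht

lemma genB (L : Subgroup B) (ha : aB ∈ L) (g1 g2 : B) (h1 : g1 ∈ L) (h2 : g2 ∈ L)
    (p1 : g1.p = (1, 0)) (t1 : g1.t = true) (p2 : g2.p = (0, 1)) (t2 : g2.t = true)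
    (g : B) (hg : chiB g = 1) : g ∈ L := by
  have hex : ∀ p : ℤ × ℤ, ∃ k ∈ L, k.p = p ∧ (k.t = true ↔ Odd (p.1 + p.2)) := by
    have hev : ∀ i j : ℤ, ∃ k ∈ L, k.p = (i + j, j - i) ∧ k.t = false := by
      intro i j
      obtain ⟨a1, a2⟩ := zpow_pt (g1 * g2⁻¹) (by simp [t1, t2]) i
      obtain ⟨b1, b2⟩ := zpow_pt (g1 * g1) (by simp [t1]) j
      refine ⟨(g1 * g2⁻¹) ^ i * (g1 * g1) ^ j,
        L.mul_mem (L.zpow_mem (L.mul_mem h1 (L.inv_mem h2)) _) (L.zpow_mem (L.mul_mem h1 h1) _),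
        ?_, by simp [a1, b1]⟩
      rw [mul_p, a1, a2, b2]
      ext <;> simp [p1, p2, t1, t2]
      ring
    rintro ⟨u, v⟩
    rcases Int.even_or_odd' (u + v) with ⟨j, hj | hj⟩
    · obtain ⟨k, hk, e1, e2⟩ := hev (u - j) j
      refine ⟨k, hk, by rw [e1]; ext <;> simp; omega, ?_⟩
      simp [e2, hj]
    · obtain ⟨k, hk, e1, e2⟩ := hev (u - 1 - j) j
      refine ⟨k * g1, L.mul_mem hk h1, by rw [mul_p, e1, e2, p1]; ext <;> simp; omega, ?_⟩
      simp [e2, t1, hj]
  have hn : ∀ r, nB r ∈ L := by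
    intro r
    induction r using R_ind with
    | h0 => exact L.one_mem
    | hadd a b ha hb => rw [nB_add]; exact L.mul_mem ha hb
    | hm p =>
      obtain ⟨k, hk, e1, -⟩ := hex p
      rw [← e1, ← conj_aB]
      exact L.mul_mem (L.mul_mem hk ha) (L.inv_mem hk)
  obtain ⟨k, hk, e1, e2⟩ := hex g.p
  have ht : k.t = g.t := by
    rw [chiB_eq_one] at hg
    rw [← hg] at e2
    cases h : k.t <;> cases h' : g.t <;> simp_all
  have : g * k⁻¹ = nB (g * k⁻¹).r := by
    ext1
    · rfl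
    · cases h : g.t <;> simp [nB, ht, e1, h]
    · simp [nB, ht]
  rw [← L.mul_mem_cancel_right (L.inv_mem hk), this]
  exact hn _

section Baumslag
variable {P : Type} [Group P] (a x y t : P)

lemma baum_comm (ha : a * a = 1) (hxy : Commute x y)
    (hr : y * a * y⁻¹ = a * (x * a * x⁻¹)) (p q : ℤ × ℤ) :
    Commute (x ^ p.1 * y ^ p.2 * a * (x ^ p.1 * y ^ p.2)⁻¹)
      (x ^ q.1 * y ^ q.2 * a * (x ^ q.1 * y ^ q.2)⁻¹) := by
  set α : ℤ → P := fun i => x ^ i * a * (x ^ i)⁻¹ with hα
  have cj : ∀ (g : P) {u v : P}, Commute u v → Commute (g * u * g⁻¹) (g * v * g⁻¹) :=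
    fun g u v h => (h.map (MulAut.conj g))
  have hx : ∀ i j, x ^ j * α i * (x ^ j)⁻¹ = α (i + j) := by
    intro i j
    simp only [hα]
    rw [add_comm, zpow_add]
    group
  have hy : ∀ i, y * α i * y⁻¹ = α i * α (i + 1) := by
    intro i
    have h1 : y * x ^ i = x ^ i * y := (hxy.zpow_left i).eq.symm
    have h2 : y * α i * y⁻¹ = (y * x ^ i) * a * (y * x ^ i)⁻¹ := by simp only [hα]; group
    rw [h2, h1]
    have h3 : x ^ i * y * a * (x ^ i * y)⁻¹ = x ^ i * (y * a * y⁻¹) * (x ^ i)⁻¹ := by group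
    rw [h3, hr]
    simp only [hα]
    group
  have hsq : ∀ i, α i * α i = 1 := by
    intro i
    have : α i * α i = x ^ i * (a * a) * (x ^ i)⁻¹ := by simp only [hα]; group
    rw [this, ha]; group
  have hstep : ∀ n : ℕ, ∀ m : ℕ, m ≤ n + 1 → ∀ i, Commute (α i) (α (i + m)) := by
    intro n
    induction n with
    | zero =>
      intro m hm i
      interval_cases m
      · simp
      · have h1 : (α i * α (i + 1)) * (α i * α (i + 1)) = 1 := by
          rw [← hy]
          have : y * α i * y⁻¹ * (y * α i * y⁻¹) = y * (α i * α i) * y⁻¹ := by group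
          rw [this, hsq]; group
        have h2 : α i * α (i + 1) = (α i * α (i + 1))⁻¹ := eq_inv_of_mul_eq_one_left h1
        rw [mul_inv_rev, inv_eq_of_mul_eq_one_left (hsq i),
          inv_eq_of_mul_eq_one_left (hsq (i + 1))] at h2
        rw [Nat.cast_one]
        exact h2
    | succ n ih =>
      intro m hm i
      rcases Nat.lt_or_ge m (n + 2) with h | h
      · exact ih m (by omega) i
      have hm' : m = n + 2 := by omega
      subst hm'
      have h1 := cj y (ih (n + 1) le_rfl i)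
      rw [hy, hy] at h1
      have c1 : Commute (α (i + 1)) (α (i + ((n + 1 : ℕ) : ℤ))) := by
        have := ih n (by omega) (i + 1)
        convert this using 2
        push_cast; ring
      have c2 : Commute (α (i + 1)) (α (i + ((n + 1 : ℕ) : ℤ) + 1)) := by
        have := ih (n + 1) le_rfl (i + 1)
        convert this using 2
        ring
      have c3 := ih (n + 1) le_rfl i
      have c4 : Commute (α i) (α (i + ((n + 1 : ℕ) : ℤ)) * α (i + ((n + 1 : ℕ) : ℤ) + 1)) := by
        have := h1.mul_left (c1.mul_right c2).inv_left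
        simpa using this
      have c5 := c3.inv_right.mul_right c4
      have e : (i + ((n + 2 : ℕ) : ℤ)) = i + ((n + 1 : ℕ) : ℤ) + 1 := by push_cast; ring
      rw [e]
      simpa using c5
  have hall : ∀ i j, Commute (α i) (α j) := by
    intro i j
    rcases le_total i j with h | h
    · obtain ⟨m, rfl⟩ := Int.le.dest h
      exact hstep m m (by omega) i
    · obtain ⟨m, rfl⟩ := Int.le.dest h
      exact (hstep m m (by omega) j).symm
  set A0 := Subgroup.closure (Set.range α) with hA0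
  have hA0c : ∀ u ∈ A0, ∀ v ∈ A0, Commute u v := by
    intro u hu v hv
    refine Subgroup.closure_induction₂ (p := fun u v _ _ => Commute u v) ?_ ?_ ?_ ?_ ?_ ?_ ?_ hu hv
    · rintro _ _ ⟨i, rfl⟩ ⟨j, rfl⟩; exact hall i j
    · intro v _; exact Commute.one_left v
    · intro v _; exact Commute.one_right v
    · intro _ _ _ _ _ _ h1 h2; exact h1.mul_left h2
    · intro _ _ _ _ _ _ h1 h2; exact h1.mul_right h2
    · intro _ _ _ _ h1; exact h1.inv_left
    · intro _ _ _ _ h1; exact h1.inv_right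
  have hyA : ∀ n : ℕ, ∀ i, y ^ n * α i * (y ^ n)⁻¹ ∈ A0 := by
    intro n
    induction n with
    | zero =>
      intro i
      have : α i ∈ A0 := Subgroup.subset_closure ⟨i, rfl⟩
      simpa using this
    | succ n ih =>
      intro i
      have : y ^ (n + 1) * α i * (y ^ (n + 1))⁻¹ =
          (y ^ n * α i * (y ^ n)⁻¹) * (y ^ n * α (i + 1) * (y ^ n)⁻¹) := by
        have h1 : y ^ (n + 1) * α i * (y ^ (n + 1))⁻¹ = y ^ n * (y * α i * y⁻¹) * (y ^ n)⁻¹ := by
          rw [pow_succ]; group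
        rw [h1, hy]; group
      rw [this]
      exact A0.mul_mem (ih i) (ih (i + 1))
  have hform : ∀ (i k : ℤ) (n : ℕ), x ^ i * y ^ (k + n) * a * (x ^ i * y ^ (k + n))⁻¹ =
      y ^ k * (y ^ n * α i * (y ^ n)⁻¹) * (y ^ k)⁻¹ := by
    intro i k n
    rw [(hxy.zpow_zpow i (k + n)).eq, zpow_add, zpow_natCast]
    simp only [hα]
    group
  obtain ⟨n, hn⟩ := Int.le.dest (min_le_left p.2 q.2)
  obtain ⟨m, hm⟩ := Int.le.dest (min_le_right p.2 q.2)
  rw [← hn, hform]
  conv => rhs; rw [← hm, hform]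
  exact cj _ (hA0c _ (hyA n _) _ (hyA m _))

open scoped IsMulCommutative in
lemma exists_mu (ha : a * a = 1) (hxy : Commute x y)
    (hr : y * a * y⁻¹ = a * (x * a * x⁻¹)) :
    ∃ m : R → P, (∀ r s, m (r + s) = m r * m s) ∧
      ∀ p, m (mon p) = x ^ p.1 * y ^ p.2 * a * (x ^ p.1 * y ^ p.2)⁻¹ := by
  set γ : ℤ × ℤ → P := fun p => x ^ p.1 * y ^ p.2 * a * (x ^ p.1 * y ^ p.2)⁻¹ with hγ
  set A := Subgroup.closure (Set.range γ) with hA
  have : IsMulCommutative A := Subgroup.isMulCommutative_closure (by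
    rintro _ ⟨p, rfl⟩ _ ⟨q, rfl⟩
    exact baum_comm a x y ha hxy hr p q)
  let γ' : ℤ × ℤ → Additive A := fun p => Additive.ofMul ⟨γ p, Subgroup.subset_closure ⟨p, rfl⟩⟩
  have hγ2 : ∀ p, (zmultiplesHom (Additive A) (γ' p)) ((2 : ℕ) : ℤ) = 0 := by
    intro p
    simp only [zmultiplesHom_apply, Nat.cast_ofNat, two_zsmul]
    apply Additive.toMul.injective
    apply Subtype.ext
    show γ p * γ p = 1
    have : γ p * γ p = x ^ p.1 * y ^ p.2 * (a * a) * (x ^ p.1 * y ^ p.2)⁻¹ := by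
      simp only [hγ]; group
    rw [this, ha]; group
  let μ0 : S →+ Additive A :=
    (Finsupp.liftAddHom (fun p => ZMod.lift 2 ⟨zmultiplesHom (Additive A) (γ' p), hγ2 p⟩)).comp
      AddMonoidAlgebra.coeffAddEquiv.toAddMonoidHom
  have hμ0 : ∀ p, μ0 (e p) = γ' p := by
    intro p
    have : (1 : ZMod 2) = ((1 : ℤ) : ZMod 2) := by simp
    simp only [μ0, e, AddMonoidHom.coe_comp, Function.comp_apply]
    erw [show (AddMonoidAlgebra.coeffAddEquiv.toAddMonoidHom (AddMonoidAlgebra.single p (1 : K)) :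
      (ℤ × ℤ) →₀ K) = Finsupp.single p 1 from rfl]
    rw [Finsupp.liftAddHom_apply_single, this, ZMod.lift_coe]
    simp
  have hker : ∀ s ∈ I, μ0 s = 0 := by
    intro s hs
    obtain ⟨b, rfl⟩ := Ideal.mem_span_singleton'.1 hs
    induction b using S_ind with
    | h0 => simp
    | hadd a b ha hb =>
      rw [add_mul, map_add, ha (I.mul_mem_left _ (Ideal.subset_span rfl)),
        hb (I.mul_mem_left _ (Ideal.subset_span rfl)), add_zero]
    | hm p =>
      rw [mul_sub, mul_sub, ← e_add, ← e_add, mul_one, map_sub, map_sub, hμ0, hμ0, hμ0,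
        sub_sub, sub_eq_zero]
      apply Additive.toMul.injective
      apply Subtype.ext
      show γ (p + (0, 1)) = γ p * γ (p + (1, 0))
      have h1 : γ (p + (0, 1)) = x ^ p.1 * y ^ p.2 * (y * a * y⁻¹) * (x ^ p.1 * y ^ p.2)⁻¹ := by
        simp only [hγ, Prod.fst_add, Prod.snd_add, add_zero]; group
      have h2 : γ (p + (1, 0)) = x ^ p.1 * y ^ p.2 * (x * a * x⁻¹) * (x ^ p.1 * y ^ p.2)⁻¹ := by
        have h3 : x ^ (p.1 + 1) * y ^ p.2 = x ^ p.1 * y ^ p.2 * x := by
          rw [zpow_add_one, mul_assoc, mul_assoc, (hxy.zpow_right p.2).eq]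
        simp only [hγ, Prod.fst_add, Prod.snd_add, add_zero, h3]; group
      rw [h1, h2, hr]
      simp only [hγ]
      group
  let μ : R →+ Additive A := QuotientAddGroup.lift I.toAddSubgroup μ0 hker
  refine ⟨fun r => ((μ r).toMul : A), fun r s => by simp, fun p => ?_⟩
  have : μ (mon p) = μ0 (e p) := rfl
  simp only [this, hμ0]
  rfl

lemma exists_sigma (ha : a * a = 1) (hxy : Commute x y)
    (hr : y * a * y⁻¹ = a * (x * a * x⁻¹)) (ht : t * t = 1) (hta : t * a * t⁻¹ = a)
    (htx : t * x * t⁻¹ = y) :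
    ∃ σ : B →* P, σ aB = a ∧ σ xB = x ∧ σ yB = y ∧ σ tB = t := by
  obtain ⟨m, hm1, hm2⟩ := exists_mu a x y ha hxy hr
  have hm0 : m 0 = 1 := by simpa using hm1 0 0
  have hti : t⁻¹ = t := inv_eq_of_mul_eq_one_left ht
  have hty : t * y * t⁻¹ = x := by
    rw [← htx]
    have : t * (t * x * t⁻¹) * t⁻¹ = (t * t) * x * (t * t)⁻¹ := by group
    rw [this, ht]; group
  set c : ℤ × ℤ → P := fun p => x ^ p.1 * y ^ p.2 with hc
  have hcadd : ∀ p q, c (p + q) = c p * c q := by
    intro p q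
    simp only [hc, Prod.fst_add, Prod.snd_add, zpow_add]
    exact (hxy.zpow_zpow q.1 p.2).mul_mul_mul_comm _ _
  have hct : ∀ p, c p.swap = t * c p * t⁻¹ := by
    intro p
    simp only [hc, Prod.fst_swap, Prod.snd_swap]
    rw [(hxy.zpow_zpow p.2 p.1).eq]
    have e1 : y ^ p.1 = t * x ^ p.1 * t⁻¹ := by rw [← htx, conj_zpow]
    have e2 : x ^ p.2 = t * y ^ p.2 * t⁻¹ := by rw [← hty, conj_zpow]
    rw [e1, e2]
    group
  have hmon : ∀ q r, m (mon q * r) = c q * m r * (c q)⁻¹ := by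
    intro q r
    induction r using R_ind with
    | h0 => simp [hm0]
    | hadd u v hu hv => rw [mul_add, hm1, hm1, hu, hv]; group
    | hm p =>
      rw [← mon_add, hm2, hm2]
      show c (q + p) * a * (c (q + p))⁻¹ = c q * (c p * a * (c p)⁻¹) * (c q)⁻¹
      rw [hcadd]; group
  have htau : ∀ r, m (tau r) = t * m r * t⁻¹ := by
    intro r
    induction r using R_ind with
    | h0 => simp [hm0]
    | hadd u v hu hv => rw [map_add, hm1, hm1, hu, hv]; group
    | hm p =>
      rw [tau_mon, hm2, hm2]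
      show c p.swap * a * (c p.swap)⁻¹ = t * (c p * a * (c p)⁻¹) * t⁻¹
      rw [hct]
      conv => lhs; rw [← hta]
      group
  refine ⟨MonoidHom.mk' (fun g => m g.r * c g.p * cond g.t t 1) ?_, ?_, ?_, ?_, ?_⟩
  · rintro ⟨r, p, s⟩ ⟨r', p', s'⟩
    cases s <;> cases s' <;>
      simp only [mul_r, mul_p, mul_t, hm1, hmon, hcadd, tw_true, tw_false, sw_true, sw_false,
        htau, hct, Bool.xor_false, Bool.xor_true, Bool.not_false, Bool.not_true, cond_true,
        cond_false]
    · group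
    · group
    · group
    · have e : ∀ u v : P, u * t * (v * t) = u * t * (v * t⁻¹) := fun u v => by rw [hti]
      rw [e]
      group
  · have := hm2 0
    simpa [aB, nB, hc] using this
  · simp [xB, hm0, hc]
  · simp [yB, hm0, hc]
  · simp [tB, hm0, hc]

end Baumslag

def rels : Set (FreeGroup (Fin 4)) :=
  {FreeGroup.of 0 * FreeGroup.of 0,
   FreeGroup.of 1 * FreeGroup.of 2 * (FreeGroup.of 2 * FreeGroup.of 1)⁻¹,
   FreeGroup.of 2 * FreeGroup.of 0 * (FreeGroup.of 2)⁻¹ *
     (FreeGroup.of 0 * (FreeGroup.of 1 * FreeGroup.of 0 * (FreeGroup.of 1)⁻¹))⁻¹,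
   FreeGroup.of 3 * FreeGroup.of 3,
   FreeGroup.of 3 * FreeGroup.of 0 * (FreeGroup.of 3)⁻¹ * (FreeGroup.of 0)⁻¹,
   FreeGroup.of 3 * FreeGroup.of 1 * (FreeGroup.of 3)⁻¹ * (FreeGroup.of 2)⁻¹}

lemma aB_sq : aB * aB = 1 := by
  rw [aB, ← nB_add, one_add_one_eq_two, two0]; rfl

lemma tB_sq : tB * tB = 1 := by
  ext1 <;> simp [tB]

instance : Group.IsFinitelyPresented B := by
  have : Finite rels := by
    unfold rels
    exact Set.Finite.to_subtype (Set.toFinite _)
  let f : Fin 4 → B := ![aB, xB, yB, tB]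
  have hf : ∀ r ∈ rels, FreeGroup.lift f r = 1 := by
    intro r hr
    simp only [rels, Set.mem_insert_iff, Set.mem_singleton_iff] at hr
    rcases hr with rfl | rfl | rfl | rfl | rfl | rfl <;>
      simp only [map_mul, map_inv, FreeGroup.lift_apply_of, mul_inv_eq_one]
    · exact aB_sq
    · show xB * yB = yB * xB
      ext1 <;> simp [xB, yB]
    · show yB * aB * yB⁻¹ = aB * (xB * aB * xB⁻¹)
      rw [conj_aB, conj_aB, aB, ← nB_add]
      exact congrArg nB mon_rel
    · exact tB_sq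
    · show tB * aB * tB⁻¹ = aB
      rw [conj_aB]; rfl
    · show tB * xB * tB⁻¹ = yB
      rw [mul_inv_eq_iff_eq_mul]
      ext1 <;> simp [tB, xB, yB]
  let π : PresentedGroup rels →* B := PresentedGroup.toGroup hf
  have hrel : ∀ r ∈ rels, PresentedGroup.mk rels r = 1 := fun r hr =>
    PresentedGroup.one_of_mem hr
  obtain ⟨σ, s0, s1, s2, s3⟩ := exists_sigma (P := PresentedGroup rels)
    (PresentedGroup.of 0) (PresentedGroup.of 1) (PresentedGroup.of 2) (PresentedGroup.of 3)
    (hrel (FreeGroup.of 0 * FreeGroup.of 0) (by simp [rels]))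
    (mul_inv_eq_one.1 (hrel
      (FreeGroup.of 1 * FreeGroup.of 2 * (FreeGroup.of 2 * FreeGroup.of 1)⁻¹) (by simp [rels])))
    (mul_inv_eq_one.1 (hrel
      (FreeGroup.of 2 * FreeGroup.of 0 * (FreeGroup.of 2)⁻¹ *
        (FreeGroup.of 0 * (FreeGroup.of 1 * FreeGroup.of 0 * (FreeGroup.of 1)⁻¹))⁻¹)
      (by simp [rels])))
    (hrel (FreeGroup.of 3 * FreeGroup.of 3) (by simp [rels]))
    (mul_inv_eq_one.1 (hrel
      (FreeGroup.of 3 * FreeGroup.of 0 * (FreeGroup.of 3)⁻¹ * (FreeGroup.of 0)⁻¹)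
      (by simp [rels])))
    (mul_inv_eq_one.1 (hrel
      (FreeGroup.of 3 * FreeGroup.of 1 * (FreeGroup.of 3)⁻¹ * (FreeGroup.of 2)⁻¹)
      (by simp [rels])))
  have hπ : ∀ i, π (PresentedGroup.of i) = f i := fun i => PresentedGroup.toGroup.of hf
  have hleft : σ.comp π = MonoidHom.id _ := by
    ext i
    simp only [MonoidHom.comp_apply, hπ, MonoidHom.id_apply]
    fin_cases i
    · exact s0
    · exact s1
    · exact s2
    · exact s3
  have hinj : Function.Injective π :=
    Function.LeftInverse.injective (g := σ) (fun z => DFunLike.congr_fun hleft z)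
  have hsurj : Function.Surjective π := by
    have m0 : aB ∈ π.range := ⟨_, hπ 0⟩
    have m1 : xB ∈ π.range := ⟨_, hπ 1⟩
    have m2 : yB ∈ π.range := ⟨_, hπ 2⟩
    have m3 : tB ∈ π.range := ⟨_, hπ 3⟩
    have key := genB π.range m0 (xB * tB) (yB * tB) (π.range.mul_mem m1 m3)
      (π.range.mul_mem m2 m3) (by simp [xB, tB]) (by simp [xB, tB]) (by simp [yB, tB])
      (by simp [yB, tB])
    intro g
    by_cases hg : chiB g = 1
    · exact key g hg
    · have : chiB (g * tB) = 1 := by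
        rw [map_mul]
        have h1 : chiB tB = Multiplicative.ofAdd 1 := by simp [chiB, tB]
        rw [h1]
        revert hg
        generalize chiB g = z
        revert z
        decide
      exact (π.range.mul_mem_cancel_right m3).1 (key _ this)
  exact Group.IsFinitelyPresented.equiv (MulEquiv.ofBijective π ⟨hinj, hsurj⟩)

end Pool.Agent.H74.Baum
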