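import Mathlib
import Pool.Agent.H74.BaumGroup
import Pool.Agent.H74.Amalg

set_option autoImplicit false

namespace Pool.Agent.H74.Baum

open Monoid DihedralGroup Pool.Agent.H74.Amalg

abbrev D := DihedralGroup 6
abbrev E := DihedralGroup 2

def phiD : E →* D := MonoidHom.mk'
  (fun z => match z with
    | r i => r (3 * (i.val : ZMod 6))
    | sr i => sr (3 * (i.val : ZMod 6))) (by decide)

def chiD : D →* Multiplicative (ZMod 2) := MonoidHom.mk'
  (fun z => match z with
    | r i => Multiplicative.ofAdd (i.val : ZMod 2)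
    | sr i => Multiplicative.ofAdd (i.val : ZMod 2)) (by decide)

lemma E_cases (z : E) : z = r 0 ∨ z = r 1 ∨ z = sr 0 ∨ z = sr 1 := by
  revert z; decide

noncomputable def phiBf : E → B
  | r i => ⟨0, 0, decide (i = 1)⟩
  | sr i => ⟨1, 0, decide (i = 1)⟩

lemma one_add_one_R : (1 + 1 : R) = 0 := by rw [one_add_one_eq_two, two0]

noncomputable def phiB : E →* B := MonoidHom.mk' phiBf (by
  intro z w
  have h : (1 + 1 : ZMod 2) = 0 := rfl
  rcases E_cases z with rfl | rfl | rfl | rfl <;> rcases E_cases w with rfl | rfl | rfl | rfl <;>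
    ext1 <;> simp [phiBf, one_add_one_R, h, -r_zero])

lemma phiB_r0 : phiB (r 0) = 1 := map_one phiB
lemma phiB_r1 : phiB (r 1) = tB := by ext1 <;> simp [phiB, phiBf, tB]
lemma phiB_sr0 : phiB (sr 0) = aB := by ext1 <;> simp [phiB, phiBf, aB, nB]
lemma phiB_sr1 : phiB (sr 1) = ⟨1, 0, true⟩ := by ext1 <;> simp [phiB, phiBf]

lemma phiB_inj : Function.Injective phiB := by
  rw [injective_iff_map_eq_one]
  intro z hz
  rcases E_cases z with rfl | rfl | rfl | rfl
  · rfl
  · simpa [phiB_r1, tB] using congrArg B.t hz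
  · simpa [phiB_sr0, aB, nB] using congrArg B.r hz
  · simpa [phiB_sr1] using congrArg B.t hz

def Fam : Bool → Type
  | true => B
  | false => D

noncomputable instance famGroup : ∀ b, Group (Fam b)
  | true => (inferInstance : Group B)
  | false => (inferInstance : Group D)

noncomputable def ph : ∀ b, E →* Fam b
  | true => phiB
  | false => phiD

lemma ph_inj : ∀ b, Function.Injective (ph b)
  | true => phiB_inj
  | false => (by decide : Function.Injective phiD)

abbrev G := PushoutI ph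

noncomputable def iB : B →* G := PushoutI.of (φ := ph) true
noncomputable def iD : D →* G := PushoutI.of (φ := ph) false
noncomputable def iE : E →* G := PushoutI.base ph

lemma iB_inj : Function.Injective iB := PushoutI.of_injective ph_inj true
lemma iD_inj : Function.Injective iD := PushoutI.of_injective ph_inj false
lemma iB_phi (z : E) : iB (phiB z) = iE z := PushoutI.of_apply_eq_base ph true z
lemma iD_phi (z : E) : iD (phiD z) = iE z := PushoutI.of_apply_eq_base ph false z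

noncomputable def AA : Bool → Subgroup G := fun i => (PushoutI.of (φ := ph) i).range

lemma AA_true : AA true = iB.range := rfl
lemma AA_false : AA false = iD.range := rfl

lemma nf : NF AA iE.range := pushout_NF ph ph_inj

def famf {T : Type} [Group T] (f : B →* T) (g : D →* T) : ∀ i, Fam i →* T
  | true => f
  | false => g

lemma famf_comp {T : Type} [Group T] (f : B →* T) (g : D →* T)
    (h : ∀ z, f (phiB z) = g (phiD z)) : ∀ i, (famf f g i).comp (ph i) = f.comp phiB
  | true => rfl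
  | false => MonoidHom.ext fun z => (h z).symm

noncomputable def glift {T : Type} [Group T] (f : B →* T) (g : D →* T)
    (h : ∀ z, f (phiB z) = g (phiD z)) : G →* T :=
  PushoutI.lift (famf f g) (f.comp phiB) (famf_comp f g h)

lemma glift_iB {T : Type} [Group T] (f : B →* T) (g : D →* T)
    (h : ∀ z, f (phiB z) = g (phiD z)) (b : B) : glift f g h (iB b) = f b :=
  PushoutI.lift_of (famf f g) (f.comp phiB) (famf_comp f g h) (i := true) b

lemma glift_iD {T : Type} [Group T] (f : B →* T) (g : D →* T)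
    (h : ∀ z, f (phiB z) = g (phiD z)) (d : D) : glift f g h (iD d) = g d :=
  PushoutI.lift_of (famf f g) (f.comp phiB) (famf_comp f g h) (i := false) d

lemma G_ind {motive : G → Prop} (hB : ∀ b, motive (iB b)) (hD : ∀ d, motive (iD d))
    (hmul : ∀ x y, motive x → motive y → motive (x * y)) (g : G) : motive g := by
  induction g using PushoutI.induction_on with
  | of i x =>
    cases i
    · exact hD x
    · exact hB x
  | base z =>
    have := hB (phiB z)
    rwa [iB_phi] at this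
  | mul x y hx hy => exact hmul x y hx hy

instance : Group.IsFinitelyPresented G := by
  let fw : Coprod B D →* G := Coprod.lift iB iD
  have hsurj : Function.Surjective fw := by
    intro g
    induction g using G_ind with
    | hB b => exact ⟨Coprod.inl b, by simp [fw]⟩
    | hD d => exact ⟨Coprod.inr d, by simp [fw]⟩
    | hmul x y hx hy =>
      obtain ⟨u, rfl⟩ := hx
      obtain ⟨v, rfl⟩ := hy
      exact ⟨u * v, map_mul _ _ _⟩
  let T : Set (Coprod B D) :=
    Set.range (fun z : E => Coprod.inl (phiB z) * (Coprod.inr (phiD z))⁻¹)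
  refine Group.IsFinitelyPresented.of_surjective fw hsurj ⟨T, Set.finite_range _, ?_⟩
  apply le_antisymm
  · apply Subgroup.normalClosure_le_normal
    rintro _ ⟨z, rfl⟩
    simp [fw, iB_phi, iD_phi]
  · let N := Subgroup.normalClosure T
    let bk : G →* Coprod B D ⧸ N := glift ((QuotientGroup.mk' N).comp Coprod.inl)
      ((QuotientGroup.mk' N).comp Coprod.inr) (by
        intro z
        simp only [MonoidHom.comp_apply]
        rw [← mul_inv_eq_one, ← map_inv, ← map_mul, QuotientGroup.mk'_apply,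
          QuotientGroup.eq_one_iff]
        exact Subgroup.subset_normalClosure ⟨z, rfl⟩)
    have hc : bk.comp fw = QuotientGroup.mk' N := by
      apply Coprod.hom_ext
      · ext b
        simp [fw, bk, glift_iB]
      · ext d
        simp [fw, bk, glift_iD]
    intro x hx
    have := DFunLike.congr_fun hc x
    rw [MonoidHom.comp_apply, MonoidHom.mem_ker.1 hx, map_one, QuotientGroup.mk'_apply] at this
    exact (QuotientGroup.eq_one_iff x).1 this.symm

lemma chiB_phi (z : E) : chiB (phiB z) = chiD (phiD z) := by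
  rcases E_cases z with rfl | rfl | rfl | rfl
  · rw [phiB_r0, map_one]; decide
  · rw [phiB_r1]
    have h1 : chiB tB = Multiplicative.ofAdd 1 := by simp [chiB, tB]
    rw [h1]; decide
  · rw [phiB_sr0]
    have h1 : chiB aB = 1 := by simp [chiB, aB, nB]
    rw [h1]; decide
  · rw [phiB_sr1]
    have h1 : chiB ⟨1, 0, true⟩ = Multiplicative.ofAdd 1 := by simp [chiB]
    rw [h1]; decide

noncomputable def chi : G →* Multiplicative (ZMod 2) := glift chiB chiD chiB_phi

lemma chi_iB (b : B) : chi (iB b) = chiB b := glift_iB _ _ _ b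
lemma chi_iD (d : D) : chi (iD d) = chiD d := glift_iD _ _ _ d

lemma frB_phi (z : E) : frB (phiB z) = phiB z := by
  rcases E_cases z with rfl | rfl | rfl | rfl <;> ext1 <;> simp [frB, phiB, phiBf, -r_zero]

noncomputable def Phi : G →* G := glift (iB.comp frB) iD (by
  intro z
  rw [MonoidHom.comp_apply, frB_phi, iB_phi, iD_phi])

lemma Phi_iB (b : B) : Phi (iB b) = iB (frB b) := glift_iB _ _ _ b
lemma Phi_iD (d : D) : Phi (iD d) = iD d := glift_iD _ _ _ d

lemma Phi_inj : Function.Injective Phi := by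
  apply nf.injective
  · intro i x hx
    cases i
    · obtain ⟨d, rfl⟩ : x ∈ iD.range := hx
      exact ⟨d, (Phi_iD d).symm⟩
    · obtain ⟨b, rfl⟩ : x ∈ iB.range := hx
      exact ⟨frB b, (Phi_iB b).symm⟩
  · intro i x hx hx'
    cases i
    · obtain ⟨d, rfl⟩ : x ∈ iD.range := hx
      rwa [Phi_iD] at hx'
    · obtain ⟨b, rfl⟩ : x ∈ iB.range := hx
      obtain ⟨z, hz⟩ := hx'
      rw [Phi_iB, ← iB_phi, ← frB_phi] at hz
      rw [← frB_inj (iB_inj hz)]
      exact ⟨z, (iB_phi z).symm⟩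
  · rintro _ ⟨z, rfl⟩ h
    rwa [← iD_phi, Phi_iD, iD_phi] at h

noncomputable def deg : G →* Multiplicative ℤ := glift degB 1 (by
  intro z
  rcases E_cases z with rfl | rfl | rfl | rfl <;> simp [degB, phiB, phiBf, -r_zero])

lemma Phi_not_surj : ¬ Function.Surjective Phi := by
  have key : ∀ g, deg (Phi g) = deg g * deg g := by
    intro g
    induction g using G_ind with
    | hB b =>
      rw [Phi_iB, deg, glift_iB, glift_iB]
      show Multiplicative.ofAdd _ = Multiplicative.ofAdd _ * Multiplicative.ofAdd _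
      rw [← ofAdd_add]
      congr 1
      simp [frB]; ring
    | hD d => rw [Phi_iD, deg, glift_iD]; simp
    | hmul x y hx hy => rw [map_mul, map_mul, hx, hy, map_mul, mul_mul_mul_comm]
  intro h
  obtain ⟨g, hg⟩ := h (iB xB)
  have := key g
  rw [hg, deg, glift_iB] at this
  have h2 := congrArg Multiplicative.toAdd this
  simp only [degB, xB, MonoidHom.mk'_apply, toAdd_ofAdd, toAdd_mul] at h2
  omega

noncomputable def H : Subgroup G := chi.ker

instance : H.Normal := MonoidHom.normal_ker _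
instance : H.FiniteIndex := Subgroup.finiteIndex_ker _

lemma mem_H (g : G) : g ∈ H ↔ chi g = 1 := Iff.rfl

lemma iB_aB : iB aB = iD (sr 0) := by
  rw [← phiB_sr0, iB_phi, ← iD_phi]; rfl

lemma iB_tB : iB tB = iD (r 3) := by
  rw [← phiB_r1, iB_phi, ← iD_phi]; rfl

lemma starG {g : G} (hg : g⁻¹ * iB aB * g ∈ iB.range) : g ∈ iB.range := by
  refine nf.star (a := iB aB) ⟨sr 0, by rw [← iB_phi, phiB_sr0]⟩ ?_ ?_ hg
  · rintro _ ⟨d, rfl⟩ hd ⟨z, hz⟩
    apply hd
    change iE z = (iD d)⁻¹ * iB aB * iD d at hz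
    rw [iB_aB, ← map_inv, ← map_mul, ← map_mul, ← iD_phi] at hz
    have h1 := iD_inj hz
    have : ∀ (z : E) (d : D), phiD z = d⁻¹ * sr 0 * d → ∃ w, phiD w = d := by decide
    obtain ⟨w, rfl⟩ := this z d h1
    exact ⟨w, (iD_phi w).symm⟩
  · rintro _ ⟨b, rfl⟩ ⟨z, hz⟩
    change iE z = (iB b)⁻¹ * iB aB * iB b at hz
    change (iB b)⁻¹ * iB aB * iB b = iB aB
    rw [← map_inv, ← map_mul, ← map_mul] at hz ⊢
    rw [← iB_phi] at hz
    have h1 := iB_inj hz
    have h2 := conj_aB b⁻¹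
    rw [inv_inv] at h2
    rw [← hz]
    rw [h2] at h1
    rcases E_cases z with rfl | rfl | rfl | rfl
    · rw [phiB_r0] at h1
      have := congrArg B.r h1
      change 0 = mon _ at this
      rw [mon_eq] at this
      exact absurd this.symm (Units.ne_zero _)
    · simpa [phiB_r1, tB, nB] using congrArg B.t h1
    · rw [phiB_sr0]
    · simpa [phiB_sr1, nB] using congrArg B.t h1

lemma rigidG {g : G} {c : D} (hc : c = r 2 ∨ c = r 4) (hg : g⁻¹ * iD c * g ∈ iD.range) :
    g ∈ iD.range := by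
  refine nf.rigid (i := false) (c := iD c) ⟨c, rfl⟩ ?_ hg
  rintro _ ⟨d, rfl⟩ ⟨z, hz⟩
  change iE z = (iD d)⁻¹ * iD c * iD d at hz
  rw [← map_inv, ← map_mul, ← map_mul, ← iD_phi] at hz
  have : ∀ (c d : D) (z : E), (c = r 2 ∨ c = r 4) → phiD z ≠ d⁻¹ * c * d := by decide
  exact this c d z hc (iD_inj hz)

lemma H_gen (L : Subgroup G) (hB : ∀ b, chiB b = 1 → iB b ∈ L) (hD : ∀ d, chiD d = 1 → iD d ∈ L) :
    H ≤ L := by
  let τ : G := iB tB
  have hτ : τ * τ = 1 := by rw [← map_mul, tB_sq, map_one]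
  have hτi : τ⁻¹ = τ := inv_eq_of_mul_eq_one_left hτ
  let L0 : Subgroup G := L ⊓ L.comap (MulAut.conj τ).toMonoidHom ⊓ H
  have hL0 : ∀ l ∈ L0, τ * l * τ⁻¹ ∈ L0 := by
    rintro l ⟨⟨h1, h2⟩, h3⟩
    refine ⟨⟨h2, ?_⟩, (inferInstance : H.Normal).conj_mem l h3 τ⟩
    show τ * (τ * l * τ⁻¹) * τ⁻¹ ∈ L
    have : τ * (τ * l * τ⁻¹) * τ⁻¹ = (τ * τ) * l * (τ * τ)⁻¹ := by group
    rw [this, hτ]
    simpa using h1
  have hB0 : ∀ b, chiB b = 1 → iB b ∈ L0 := by
    intro b hb
    refine ⟨⟨hB b hb, ?_⟩, (mem_H _).2 (by rw [chi_iB, hb])⟩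
    show iB tB * iB b * (iB tB)⁻¹ ∈ L
    rw [← map_inv, ← map_mul, ← map_mul]
    apply hB
    simp [hb]
  have hD0 : ∀ d, chiD d = 1 → iD d ∈ L0 := by
    intro d hd
    refine ⟨⟨hD d hd, ?_⟩, (mem_H _).2 (by rw [chi_iD, hd])⟩
    show iB tB * iD d * (iB tB)⁻¹ ∈ L
    rw [iB_tB, ← map_inv, ← map_mul, ← map_mul]
    apply hD
    rw [map_mul, map_mul, map_inv, hd, mul_one, mul_inv_cancel]
  have h1 : chiB tB = Multiplicative.ofAdd 1 := by simp [chiB, tB]
  have key : ∀ g : G, ∃ l ∈ L0, g = l ∨ g = l * τ := by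
    intro g
    induction g using G_ind with
    | hB b =>
      by_cases hb : chiB b = 1
      · exact ⟨iB b, hB0 b hb, Or.inl rfl⟩
      · refine ⟨iB (b * tB), hB0 _ ?_, Or.inr (by rw [map_mul, mul_assoc, hτ, mul_one])⟩
        rw [map_mul, h1]
        revert hb
        generalize chiB b = z
        revert z
        decide
    | hD d =>
      by_cases hd : chiD d = 1
      · exact ⟨iD d, hD0 d hd, Or.inl rfl⟩
      · refine ⟨iD (d * r 3), hD0 _ ?_,
          Or.inr (by rw [map_mul, ← iB_tB, mul_assoc, hτ, mul_one])⟩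
        revert d
        decide
    | hmul x y hx hy =>
      obtain ⟨l, hl, rfl | rfl⟩ := hx <;> obtain ⟨l', hl', rfl | rfl⟩ := hy
      · exact ⟨_, L0.mul_mem hl hl', Or.inl rfl⟩
      · exact ⟨_, L0.mul_mem hl hl', Or.inr (by group)⟩
      · exact ⟨_, L0.mul_mem hl (hL0 _ hl'), Or.inr (by group)⟩
      · exact ⟨_, L0.mul_mem hl (hL0 _ hl'), Or.inl (by rw [hτi]; group)⟩
  intro g hg
  obtain ⟨l, hl, rfl | rfl⟩ := key g
  · exact hl.1.1
  · exfalso
    have h2 : τ ∈ H := (H.mul_mem_cancel_left hl.2).1 hg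
    rw [mem_H, chi_iB, h1] at h2
    revert h2
    decide

noncomputable def aH : H := ⟨iB aB, by rw [mem_H, chi_iB]; simp [chiB, aB, nB]⟩
noncomputable def cH : H := ⟨iD (r 2), by rw [mem_H, chi_iD]; decide⟩
noncomputable def sH : H := ⟨iB (xB * tB), by rw [mem_H, chi_iB, chiB_eq_one]; simp [xB, tB]⟩
noncomputable def sH' : H := ⟨iB (yB * tB), by rw [mem_H, chi_iB, chiB_eq_one]; simp [yB, tB]⟩

lemma step3 (f : H →* G) (hf : ∀ x, f x ∈ H) (ha : f aH = iB aB)
    (hc : f cH = iD (r 2) ∨ f cH = iD (r 4)) : H ≤ f.range := by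
  have hconj : ∀ b : B, ∀ hb : iB b ∈ H, f ⟨iB b, hb⟩ ∈ iB.range := by
    intro b hb
    set u : H := ⟨iB b, hb⟩ with hu
    have h1 : (u * aH * u⁻¹)⁻¹ * aH * (u * aH * u⁻¹) = aH := by
      apply Subtype.ext
      simp only [Subgroup.coe_mul, InvMemClass.coe_inv, hu, aH, ← map_inv, ← map_mul]
      congr 1
      rw [conj_aB, mul_assoc, inv_mul_eq_iff_eq_mul, aB, ← nB_add, ← nB_add, add_comm]
    have h2 := congrArg f h1
    simp only [map_mul, map_inv, ha] at h2
    have h3 := starG (g := f u * iB aB * (f u)⁻¹) (by rw [h2]; exact ⟨aB, rfl⟩)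
    have h4 := starG (g := (f u)⁻¹) (by rwa [inv_inv])
    exact (Subgroup.inv_mem_iff _).1 h4
  obtain ⟨b, hb⟩ := hconj _ sH.2
  obtain ⟨b', hb'⟩ := hconj _ sH'.2
  change iB b = f sH at hb
  change iB b' = f sH' at hb'
  have r1 : sH' * aH * sH'⁻¹ = aH * (sH * aH * sH⁻¹) := by
    apply Subtype.ext
    simp only [Subgroup.coe_mul, InvMemClass.coe_inv, sH, sH', aH, ← map_inv, ← map_mul]
    congr 1
    rw [conj_aB, conj_aB, aB, ← nB_add]
    congr 1
    simpa [xB, yB, tB] using mon_rel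
  have r2 : sH * sH = sH' * sH' := by
    apply Subtype.ext
    simp only [Subgroup.coe_mul, sH, sH', ← map_mul]
    congr 1
    ext1 <;> simp [xB, yB, tB]
  have q1 := congrArg f r1
  have q2 := congrArg f r2
  simp only [map_mul, map_inv, ha, ← hb, ← hb'] at q1 q2
  simp only [← map_inv, ← map_mul] at q1 q2
  replace q1 := iB_inj q1
  replace q2 := iB_inj q2
  rw [conj_aB, conj_aB, aB, ← nB_add] at q1
  replace q1 := nB_inj q1
  have c1 : chiB b = 1 := by rw [← chi_iB, hb]; exact hf _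
  have c2 : chiB b' = 1 := by rw [← chi_iB, hb']; exact hf _
  rw [chiB_eq_one] at c1 c2
  have q3 := congrArg B.p q2
  have q4 := congrArg Prod.fst q3
  have q5 := congrArg Prod.snd q3
  have hab : aB ∈ f.range.comap iB := ⟨aH, ha⟩
  have hb1 : b ∈ f.range.comap iB := ⟨sH, hb.symm⟩
  have hb2 : b' ∈ f.range.comap iB := ⟨sH', hb'.symm⟩
  have hB : ∀ g, chiB g = 1 → iB g ∈ f.range := by
    cases ht : b.t <;> cases ht' : b'.t <;>
      simp only [mul_p, ht, ht', sw_true, sw_false, Prod.fst_add, Prod.snd_add, Prod.fst_swap,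
        Prod.snd_swap] at q4 q5
    · exfalso
      have : b.p = b'.p := by ext <;> omega
      rw [this] at q1
      simp at q1
    · exfalso
      obtain ⟨k, hk⟩ := c2.1 ht'
      omega
    · exfalso
      obtain ⟨k, hk⟩ := c1.1 ht
      omega
    · rcases unit_eq b.p b'.p (c1.1 ht) (c2.1 ht') q1 with ⟨e1, e2⟩ | ⟨e1, e2⟩
      · exact genB _ hab b b' hb1 hb2 e1 ht e2 ht'
      · exact genB _ hab b' b hb2 hb1 e2 ht' e1 ht
  apply H_gen _ hB
  have m1 : (sr 0 : D) ∈ f.range.comap iD := ⟨aH, by rw [ha, iB_aB]⟩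
  have m2 : (r 2 : D) ∈ f.range.comap iD := by
    rcases hc with hc | hc
    · exact ⟨cH, hc⟩
    · have : (r 4 : D) ∈ f.range.comap iD := ⟨cH, hc⟩
      exact Subgroup.mul_mem _ this this
  intro d hd
  have : ∀ d : D, chiD d = 1 → d = 1 ∨ d = r 2 ∨ d = r 2 * r 2 ∨ d = sr 0 ∨ d = sr 0 * r 2 ∨
      d = sr 0 * (r 2 * r 2) := by decide
  change d ∈ f.range.comap iD
  rcases this d hd with rfl | rfl | rfl | rfl | rfl | rfl
  · exact Subgroup.one_mem _
  · exact m2
  · exact Subgroup.mul_mem _ m2 m2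
  · exact m1
  · exact Subgroup.mul_mem _ m1 m2
  · exact Subgroup.mul_mem _ m1 (Subgroup.mul_mem _ m2 m2)

lemma conj_step (f : H →* G) (h : G)
    (hle : H ≤ ((MulAut.conj h⁻¹).toMonoidHom.comp f).range) : H ≤ f.range := by
  intro y hy
  obtain ⟨x, hx⟩ := hle ((inferInstance : H.Normal).conj_mem y hy h⁻¹)
  refine ⟨x, ?_⟩
  change h⁻¹ * f x * h⁻¹⁻¹ = h⁻¹ * y * h⁻¹⁻¹ at hx
  simpa using hx

lemma step2 (f : H →* G) (hf : ∀ x, f x ∈ H)
    (hc : f cH = iD (r 2) ∨ f cH = iD (r 4)) : H ≤ f.range := by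
  have r1 : aH⁻¹ * cH * aH = cH⁻¹ := by
    apply Subtype.ext
    simp only [Subgroup.coe_mul, InvMemClass.coe_inv, cH, aH, iB_aB, ← map_inv, ← map_mul]
    congr 1
  have q1 := congrArg f r1
  simp only [map_mul, map_inv] at q1
  obtain ⟨c, hc', hc⟩ : ∃ c : D, (c = r 2 ∨ c = r 4) ∧ f cH = iD c := by
    rcases hc with hc | hc
    · exact ⟨_, Or.inl rfl, hc⟩
    · exact ⟨_, Or.inr rfl, hc⟩
  rw [hc] at q1
  obtain ⟨δ, hδ⟩ := rigidG (g := f aH) hc' (by rw [q1]; exact ⟨c⁻¹, map_inv _ _⟩)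
  rw [← hδ, ← map_inv, ← map_inv, ← map_mul, ← map_mul] at q1
  replace q1 := iD_inj q1
  have c1 : chiD δ = 1 := by rw [← chi_iD, hδ]; exact hf _
  have : ∀ c δ : D, (c = r 2 ∨ c = r 4) → δ⁻¹ * c * δ = c⁻¹ → chiD δ = 1 →
      ∃ k : D, k⁻¹ * δ * k = sr 0 ∧ (k⁻¹ * c * k = r 2 ∨ k⁻¹ * c * k = r 4) := by decide
  obtain ⟨k, k1, k2⟩ := this c δ hc' q1 c1
  apply conj_step f (iD k)
  apply step3
  · intro x
    exact (inferInstance : H.Normal).conj_mem _ (hf x) _
  · change (iD k)⁻¹ * f aH * (iD k)⁻¹⁻¹ = _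
    rw [← hδ, inv_inv, ← map_inv, ← map_mul, ← map_mul, k1, iB_aB]
  · change (iD k)⁻¹ * f cH * (iD k)⁻¹⁻¹ = _ ∨ (iD k)⁻¹ * f cH * (iD k)⁻¹⁻¹ = _
    rw [hc, inv_inv, ← map_inv, ← map_mul, ← map_mul]
    rcases k2 with k2 | k2 <;> simp [k2]

theorem H_cohopf (f : H →* H) (hf : Function.Injective f) : Function.Surjective f := by
  let f' : H →* G := H.subtype.comp f
  have hc3 : cH ^ 3 = 1 := by
    apply Subtype.ext
    simp only [SubmonoidClass.coe_pow, cH, ← map_pow, OneMemClass.coe_one]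
    rw [show (r 2 : D) ^ 3 = 1 by decide, map_one]
  have hc1 : f' cH ≠ 1 := by
    intro h
    have h1 : f cH = f 1 := by rw [map_one]; exact Subtype.ext h
    have h2 : iD (r 2) = iD 1 := by rw [map_one]; exact congrArg Subtype.val (hf h1)
    exact absurd (iD_inj h2) (by decide)
  have h3 : (f' cH) ^ 3 = 1 := by rw [← map_pow, hc3, map_one]
  obtain ⟨h, j, hj⟩ := nf.cube _ h3
  have h4 : (h⁻¹ * f' cH * h) ^ 3 = 1 := by
    have : h⁻¹ * f' cH * h = h⁻¹ * f' cH * h⁻¹⁻¹ := by group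
    rw [this, conj_pow, h3]; group
  have h5 : h⁻¹ * f' cH * h ≠ 1 := by
    intro e
    apply hc1
    have : f' cH = h * (h⁻¹ * f' cH * h) * h⁻¹ := by group
    rw [this, e]; group
  have hle : H ≤ f'.range := by
    cases j
    · obtain ⟨d, hd⟩ : _ ∈ iD.range := hj
      rw [← hd, ← map_pow, ← map_one iD] at h4
      have h6 : d ≠ 1 := by rintro rfl; exact h5 (by rw [← hd, map_one])
      have : ∀ d : D, d ^ 3 = 1 → d ≠ 1 → d = r 2 ∨ d = r 4 := by decide
      apply conj_step f' h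
      apply step2
      · intro x
        exact (inferInstance : H.Normal).conj_mem _ (f x).2 _
      · change h⁻¹ * f' cH * h⁻¹⁻¹ = _ ∨ h⁻¹ * f' cH * h⁻¹⁻¹ = _
        rw [inv_inv, ← hd]
        rcases this d (iD_inj h4) h6 with rfl | rfl <;> simp
    · obtain ⟨b, hb⟩ : _ ∈ iB.range := hj
      rw [← hb, ← map_pow, ← map_one iB] at h4
      have := cube_eq_one b (iB_inj h4)
      exact absurd (by rw [← hb, this, map_one]) h5
  intro y
  obtain ⟨x, hx⟩ := hle y.2
  exact ⟨x, Subtype.ext hx⟩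

end Pool.Agent.H74.Baum
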