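import Mathlib

namespace Pool.Agent.H74.Bc
open Finset

theorem seq (Free : ℕ → Prop) (g : ℕ → ℕ) (L : ℕ) (h0 : Free 0)
    (hg : ∀ x y, x < y → y ≤ L → Free x → Free y → (∀ z, x < z → z < y → ¬ Free z) →
      2 * g x + 3 * y ≤ 2 * g y + 1 + 3 * x) :
    ∀ y, y ≤ L → Free y → ∃ (Q : ℕ) (τ : ℕ → ℕ), τ 0 = 0 ∧ (∀ j < Q, τ j < τ (j + 1)) ∧
      (∀ j ≤ Q, Free (τ j) ∧ τ j % 2 = j % 2) ∧ τ Q ≤ y ∧ 3 * y ≤ 2 * g y + Q := by
  classical
  intro y
  induction y using Nat.strong_induction_on with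
  | _ y ih =>
    intro hy hf
    rcases Nat.eq_zero_or_pos y with rfl | hpos
    · exact ⟨0, fun _ => 0, rfl, by simp, fun j hj => ⟨h0, by beta_reduce; omega⟩, le_rfl, by omega⟩
    have hx1 : Free (Nat.findGreatest Free (y - 1)) := Nat.findGreatest_spec (Nat.zero_le _) h0
    have hx2 : Nat.findGreatest Free (y - 1) ≤ y - 1 := Nat.findGreatest_le _
    have hx3 : ∀ z, Nat.findGreatest Free (y - 1) < z → z < y → ¬ Free z :=
      fun z h1 h2 => Nat.findGreatest_is_greatest h1 (by omega)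
    generalize Nat.findGreatest Free (y - 1) = x at *
    obtain ⟨Q, τ, t0, t1, t2, t3, t4⟩ := ih x (by omega) (by omega) hx1
    have := hg x y (by omega) hy hx1 hf hx3
    by_cases c : 3 * y ≤ 2 * g y + Q
    · exact ⟨Q, τ, t0, t1, t2, by omega, c⟩
    · refine ⟨Q + 1, fun j => if j ≤ Q then τ j else y, by simp [t0], fun j hj => ?_,
        fun j hj => ?_, by simp, by omega⟩
      · by_cases e : j + 1 ≤ Q
        · simp only [e, show j ≤ Q by omega, if_true]; exact t1 j (by omega)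
        · obtain rfl : j = Q := by omega
          simp only [e, le_rfl, if_true, if_false]; omega
      · by_cases e : j ≤ Q
        · simp only [e, if_true]; exact t2 j e
        · simp only [e, if_false]; exact ⟨hf, by omega⟩

theorem seq' (Free : ℕ → Prop) (L n Q : ℕ) (τ : ℕ → ℕ) (hL : Free L) (t0 : τ 0 = 0)
    (t1 : ∀ j < Q, τ j < τ (j + 1)) (t2 : ∀ j ≤ Q, Free (τ j) ∧ τ j % 2 = j % 2) (t3 : τ Q ≤ L)
    (t4 : 3 * L ≤ 2 * n + Q) (hQ : 1 ≤ Q) :
    ∃ (Q : ℕ) (τ : ℕ → ℕ), τ 0 = 0 ∧ (∀ j < Q, τ j < τ (j + 1)) ∧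
      (∀ j ≤ Q, Free (τ j) ∧ τ j % 2 = j % 2) ∧ τ Q = L ∧ 3 * L ≤ 2 * n + Q := by
  by_cases c : L % 2 = Q % 2
  · refine ⟨Q, fun j => if j < Q then τ j else L, by simp [t0, show 0 < Q by omega],
      fun j hj => ?_, fun j hj => ?_, by simp, t4⟩
    · have := t1 j hj
      by_cases e : j + 1 < Q
      · simp only [e, hj, if_true]; exact this
      · obtain rfl : Q = j + 1 := by omega
        simp only [e, hj, if_true, if_false]; omega
    · by_cases e : j < Q
      · simp only [e, if_true]; exact t2 j hj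
      · simp only [e, if_false]; exact ⟨hL, by omega⟩
  · have := (t2 Q le_rfl).2
    refine ⟨Q + 1, fun j => if j ≤ Q then τ j else L, by simp [t0], fun j hj => ?_,
      fun j hj => ?_, by simp, by omega⟩
    · by_cases e : j + 1 ≤ Q
      · simp only [e, show j ≤ Q by omega, if_true]; exact t1 j (by omega)
      · obtain rfl : j = Q := by omega
        simp only [e, le_rfl, if_true, if_false]; omega
    · by_cases e : j ≤ Q
      · simp only [e, if_true]; exact t2 j e
      · simp only [e, if_false]; exact ⟨hL, by omega⟩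

theorem tele (σ r : ℕ → ℕ) (hr : ∀ e, σ e + 2 * r e + 1 = σ (e + 3)) (s m : ℕ) :
    σ s + 2 * ∑ i ∈ range m, r (s + 3 * i) + m = σ (s + 3 * m) := by
  induction m with
  | zero => simp
  | succ m ih =>
    rw [Finset.sum_range_succ, show s + 3 * (m + 1) = s + 3 * m + 3 by ring, ← hr, ← ih]
    ring

theorem cover (Free : ℕ → Prop) (g : ℕ → ℕ) (L : ℕ) (hL2 : 2 ≤ L) (h0 : Free 0) (hL : Free L)
    (hg : ∀ x y, x < y → y ≤ L → Free x → Free y → (∀ z, x < z → z < y → ¬ Free z) →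
      2 * g x + 3 * y ≤ 2 * g y + 1 + 3 * x) :
    ∃ f : ℕ → ℕ, 3 * ∑ p ∈ range L, f p ≤ 2 * g L + 4 ∧ (∀ p < L, f p < L) ∧
      ∀ a b, a ≤ b → b < L → (∀ z, a < z → z ≤ b → ¬ Free z) →
        ∃ c₁ c₂, c₁ ≠ c₂ ∧ c₁ < L ∧ c₂ < L ∧ 0 < f c₁ ∧ 0 < f c₂ ∧ c₁ ≤ a + f c₁ ∧ b ≤ c₁ + f c₁ ∧
          c₂ ≤ a + f c₂ ∧ b ≤ c₂ + f c₂ := by
  by_cases big : 3 * L ≤ 2 * g L + 4
  · refine ⟨fun p => (if p = L / 2 - 1 then L - L / 2 else 0) + (if p = L / 2 then L / 2 else 0),
      ?_, fun p _ => ?_, fun a b _ hb _ => ⟨L / 2 - 1, L / 2, by omega, by omega, by omega, ?_⟩⟩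
    · rw [Finset.sum_add_distrib, Finset.sum_ite_eq', Finset.sum_ite_eq']
      split_ifs <;> omega
    · beta_reduce
      split_ifs <;> omega
    · have h1 : L / 2 - 1 ≠ L / 2 := by omega
      simp only [h1, h1.symm, if_true, if_false]
      omega
  obtain ⟨Q, τ, t0, t1, t2, t3, t4⟩ := seq Free g L h0 hg L le_rfl hL
  obtain ⟨Q, τ, t0, t1, t2, t3, t4⟩ := seq' Free L (g L) Q τ hL t0 t1 t2 t3 t4 (by omega)
  have hQ : 5 ≤ Q := by omega
  let σ : ℕ → ℕ := fun i => if i < 2 then i else if i ≤ Q + 2 then τ (i - 2) + 2 else L + i - Q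
  have s1 : ∀ i, i ≤ 2 → σ i = i := by
    intro i hi
    rcases Nat.lt_or_ge i 2 with h | h
    · simp only [σ, h, if_true]
    · obtain rfl : i = 2 := by omega
      simp [σ, t0]
  have s2 : ∀ j, j ≤ Q → σ (j + 2) = τ j + 2 := by
    intro j hj
    simp [σ, hj]
  have s3 : ∀ i, Q + 2 ≤ i → σ i + Q = L + i := by
    intro i hi
    rcases hi.lt_or_eq with h | rfl
    · simp only [σ, show ¬ i < 2 by omega, show ¬ i ≤ Q + 2 by omega, if_false]; omega
    · rw [s2 Q le_rfl]; omega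
  have sm : ∀ i, σ i < σ (i + 1) ∧ σ i % 2 = i % 2 := by
    intro i
    rcases Nat.lt_or_ge i 2 with h | h
    · rw [s1 i (by omega), s1 (i + 1) (by omega)]; omega
    · obtain ⟨j, rfl⟩ : ∃ j, i = j + 2 := ⟨i - 2, by omega⟩
      rcases Nat.lt_or_ge j Q with h' | h'
      · rw [show j + 2 + 1 = j + 1 + 2 by ring, s2 j (by omega), s2 (j + 1) (by omega)]
        have := t1 j h'
        have := (t2 j (by omega)).2
        omega
      · have := s3 (j + 2) (by omega)
        have := s3 (j + 2 + 1) (by omega)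
        have := (t2 Q le_rfl).2
        omega
  have mono : ∀ i k, σ i + k ≤ σ (i + k) := by
    intro i k
    induction k with
    | zero => simp
    | succ k ih => have := (sm (i + k)).1; rw [← Nat.add_assoc i]; omega
  have mono' : ∀ i j, i ≤ j → σ i + j ≤ σ j + i := by
    intro i j h
    obtain ⟨k, rfl⟩ := Nat.exists_eq_add_of_le h
    have := mono i k
    omega
  generalize σ = σ at *
  obtain ⟨r, hr⟩ : ∃ r : ℕ → ℕ, ∀ e, σ e + 2 * r e + 1 = σ (e + 3) :=
    ⟨fun e => (σ (e + 3) - σ e - 1) / 2, fun e => by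
      have := mono e 3
      have := (sm e).2
      have := (sm (e + 3)).2
      beta_reduce
      omega⟩
  have r1 : ∀ e, 1 ≤ r e := fun e => by have := mono e 3; have := hr e; omega
  obtain ⟨t, ht⟩ : ∃ t, (t = 0 ∧ Q % 3 = 1) ∨ (t = 1 ∧ Q % 3 ≠ 1) := by
    by_cases h : Q % 3 = 1
    · exact ⟨0, Or.inl ⟨rfl, h⟩⟩
    · exact ⟨1, Or.inr ⟨rfl, h⟩⟩
  let c : ℕ → ℕ := fun e => min (σ e + r e - 2) (L - 1)
  have hc : ∀ e, c e = min (σ e + r e - 2) (L - 1) := fun _ => rfl
  generalize c = c at hc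
  let F : ℕ → ℕ → ℕ → ℕ := fun s m p => ∑ i ∈ range m, if c (s + 3 * i) = p then r (s + 3 * i) else 0
  have F1 : ∀ s m, ∑ p ∈ range L, F s m p = ∑ i ∈ range m, r (s + 3 * i) := by
    intro s m
    rw [Finset.sum_comm]
    refine Finset.sum_congr rfl fun i _ => ?_
    rw [Finset.sum_ite_eq, if_pos]
    rw [Finset.mem_range, hc]; omega
  have F2 : ∀ s m i, i < m → r (s + 3 * i) ≤ F s m (c (s + 3 * i)) := by
    intro s m i hi
    have := Finset.single_le_sum (s := range m)
      (f := fun k => if c (s + 3 * k) = c (s + 3 * i) then r (s + 3 * k) else 0)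
      (fun _ _ => Nat.zero_le _) (Finset.mem_range.2 hi)
    simpa using this
  generalize F = F at F1 F2
  have tA := tele σ r hr 2 ((Q + 2) / 3)
  have tB := tele σ r hr t ((Q + 4 - t) / 3)
  have eA := s3 (2 + 3 * ((Q + 2) / 3)) (by omega)
  have eB := s3 (t + 3 * ((Q + 4 - t) / 3)) (by omega)
  have a2 := s1 2 le_rfl
  have at' := s1 t (by omega)
  have tot : 3 * ∑ p ∈ range L, (F 2 ((Q + 2) / 3) p + F t ((Q + 4 - t) / 3) p) + Q ≤ 3 * L + 4 := by
    rw [Finset.sum_add_distrib, F1, F1]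
    omega
  refine ⟨fun p => F 2 ((Q + 2) / 3) p + F t ((Q + 4 - t) / 3) p, by beta_reduce; omega,
    fun p hp => ?_,
    fun a b hab hb hf => ?_⟩
  · have := Finset.single_le_sum (s := range L)
      (f := fun p => F 2 ((Q + 2) / 3) p + F t ((Q + 4 - t) / 3) p)
      (fun _ _ => Nat.zero_le _) (Finset.mem_range.2 hp)
    simp only at this ⊢
    omega
  · obtain ⟨j, hj, j1, j2⟩ : ∃ j < Q, τ j ≤ a ∧ a < τ (j + 1) := by
      by_contra hn
      push Not at hn
      have : ∀ j ≤ Q, τ j ≤ a := by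
        intro j
        induction j with
        | zero => intro _; omega
        | succ j ih => intro h; exact hn j (by omega) (ih (by omega))
      have := this Q le_rfl
      omega
    have j3 : b < τ (j + 1) := by
      by_contra h
      exact hf _ j2 (by omega) (t2 _ (by omega)).1
    have u1 := s2 j (by omega)
    have u2 := s2 (j + 1) (by omega)
    have key : ∀ e, e ≤ j + 2 → j + 2 < e + 3 → c e < L ∧ c e ≤ a + r e ∧ b ≤ c e + r e := by
      intro e h1 h2
      have := mono' e (j + 2) h1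
      have := mono' (j + 1 + 2) (e + 3) (by omega)
      have := hr e
      rw [hc]
      omega
    have dist : ∀ e e', e < e' → 2 ≤ e' → e + 1 ≤ Q → c e ≠ c e' := by
      intro e e' h1 h2 h3
      have := mono' e e' h1.le
      have := mono' (e + 3) (e' + 3) (by omega)
      have := mono' 2 e' h2
      have := mono' (e + 3) (Q + 2) (by omega)
      have := s3 (Q + 2) le_rfl
      have := hr e
      have := hr e'
      have := r1 e
      have := r1 e'
      rw [hc, hc]
      omega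
    have kA := key (2 + 3 * (j / 3)) (by omega) (by omega)
    have kB := key (t + 3 * ((j + 2 - t) / 3)) (by omega) (by omega)
    have fA := F2 2 ((Q + 2) / 3) (j / 3) (by omega)
    have fB := F2 t ((Q + 4 - t) / 3) ((j + 2 - t) / 3) (by omega)
    have rA := r1 (2 + 3 * (j / 3))
    have rB := r1 (t + 3 * ((j + 2 - t) / 3))
    refine ⟨c (2 + 3 * (j / 3)), c (t + 3 * ((j + 2 - t) / 3)), ?_, kA.1, kB.1, ?_⟩
    · rcases Nat.lt_or_ge (2 + 3 * (j / 3)) (t + 3 * ((j + 2 - t) / 3)) with h | h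
      · exact dist _ _ h (by omega) (by omega)
      · exact (dist _ _ (by omega) (by omega) (by omega)).symm
    · simp only
      omega

end Pool.Agent.H74.Bc
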