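import Mathlib

set_option autoImplicit false
open Matrix

namespace Pool.Agent.H74.CP5

/-- The circulant matrix with first row 8,5,1,1,5. -/
def A : Matrix (Fin 5) (Fin 5) ℝ :=
  !![8,5,1,1,5; 5,8,5,1,1; 1,5,8,5,1; 1,1,5,8,5; 5,1,1,5,8]

/-- The Horn matrix. -/
def H : Matrix (Fin 5) (Fin 5) ℝ :=
  !![1,-1,1,1,-1; -1,1,-1,1,1; 1,-1,1,-1,1; 1,1,-1,1,-1; -1,1,1,-1,1]

/-- Circulant factor with columns the shifts of (x, y, z, 0, 0). -/
def Bm (x y z : ℝ) : Matrix (Fin 5) (Fin 5) ℝ :=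
  !![x,0,0,z,y; y,x,0,0,z; z,y,x,0,0; 0,z,y,x,0; 0,0,z,y,x]

noncomputable def B : Matrix (Fin 5) (Fin 5) ℝ :=
  Bm ((√5 + 1) / 2) (√5) ((√5 - 1) / 2)

lemma s5 : (√5 : ℝ) * √5 = 5 := Real.mul_self_sqrt (by norm_num)

lemma s5_gt : (1 : ℝ) < √5 := by
  rw [Real.lt_sqrt (by norm_num)]; norm_num

lemma A_eq : A = B * Bᵀ := by
  have h := s5
  ext i j
  fin_cases i <;> fin_cases j <;>
    simp [A, B, Bm, Matrix.mul_apply, Fin.sum_univ_succ] <;> nlinarith [h]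

lemma B_nonneg : ∀ i j, 0 ≤ B i j := by
  have h := s5_gt
  intro i j
  fin_cases i <;> fin_cases j <;> simp [B, Bm] <;> linarith

lemma A_rat : ∀ i j, ∃ q : ℚ, A i j = (q : ℝ) := by
  intro i j
  refine ⟨(!![8,5,1,1,5; 5,8,5,1,1; 1,5,8,5,1; 1,1,5,8,5; 5,1,1,5,8] : Matrix (Fin 5) (Fin 5) ℚ) i j, ?_⟩
  fin_cases i <;> fin_cases j <;> simp [A]

lemma A_pos : ∀ i j, 0 < A i j := by
  intro i j
  fin_cases i <;> fin_cases j <;> simp [A]

lemma A_symm : Aᵀ = A := by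
  ext i j
  fin_cases i <;> fin_cases j <;> simp [A]

lemma H_symm : Hᵀ = H := by
  ext i j
  fin_cases i <;> fin_cases j <;> simp [H]

lemma A_posDef : A.PosDef := by
  apply Matrix.PosDef.of_dotProduct_mulVec_pos
  · exact A_symm
  · intro x hx
    have key : star x ⬝ᵥ A *ᵥ x =
        (1/2) * (x 0 ^ 2 + x 1 ^ 2 + x 2 ^ 2 + x 3 ^ 2 + x 4 ^ 2) +
        ((15/2) * (x 0 ^ 2 + x 1 ^ 2 + x 2 ^ 2 + x 3 ^ 2 + x 4 ^ 2)
          + 10 * (x 0 * x 1 + x 1 * x 2 + x 2 * x 3 + x 3 * x 4 + x 4 * x 0)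
          + 2 * (x 0 * x 2 + x 1 * x 3 + x 2 * x 4 + x 3 * x 0 + x 4 * x 1)) := by
      simp [A, dotProduct, mulVec, Fin.sum_univ_succ]
      ring
    rw [key]
    have h1 : 0 < x 0 ^ 2 + x 1 ^ 2 + x 2 ^ 2 + x 3 ^ 2 + x 4 ^ 2 := by
      by_contra hh
      apply hx
      have a0 := sq_nonneg (x 0)
      have a1 := sq_nonneg (x 1)
      have a2 := sq_nonneg (x 2)
      have a3 := sq_nonneg (x 3)
      have a4 := sq_nonneg (x 4)
      have b0 : x 0 = 0 := by nlinarith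
      have b1 : x 1 = 0 := by nlinarith
      have b2 : x 2 = 0 := by nlinarith
      have b3 : x 3 = 0 := by nlinarith
      have b4 : x 4 = 0 := by nlinarith
      ext i
      fin_cases i <;> simp [b0, b1, b2, b3, b4]
    have h2 : 0 ≤ ((15/2) * (x 0 ^ 2 + x 1 ^ 2 + x 2 ^ 2 + x 3 ^ 2 + x 4 ^ 2)
          + 10 * (x 0 * x 1 + x 1 * x 2 + x 2 * x 3 + x 3 * x 4 + x 4 * x 0)
          + 2 * (x 0 * x 2 + x 1 * x 3 + x 2 * x 4 + x 3 * x 0 + x 4 * x 1)) := by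
      have e : ((15/2) * (x 0 ^ 2 + x 1 ^ 2 + x 2 ^ 2 + x 3 ^ 2 + x 4 ^ 2)
          + 10 * (x 0 * x 1 + x 1 * x 2 + x 2 * x 3 + x 3 * x 4 + x 4 * x 0)
          + 2 * (x 0 * x 2 + x 1 * x 3 + x 2 * x 4 + x 3 * x 0 + x 4 * x 1)) =
          15/2 * (x 0 + 2/3 * x 1 + 2/15 * x 2 + 2/15 * x 3 + 2/3 * x 4) ^ 2
          + 25/6 * (x 1 + 26/25 * x 2 + 2/25 * x 3 - 14/25 * x 4) ^ 2
          + 143/50 * (x 2 + 226/143 * x 3 + 138/143 * x 4) ^ 2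
          + 281/1430 * (x 3 + 226/281 * x 4) ^ 2 + 39/562 * x 4 ^ 2 := by ring
      rw [e]; positivity
    linarith

lemma horn (a b c d e : ℝ) (ha : 0 ≤ a) (hb : 0 ≤ b) (hc : 0 ≤ c) (hd : 0 ≤ d) (he : 0 ≤ e) :
    0 ≤ a ^ 2 + b ^ 2 + c ^ 2 + d ^ 2 + e ^ 2
      - 2 * (a * b + b * c + c * d + d * e + e * a) + 2 * (a * c + b * d + c * e + d * a + e * b) := by
  rcases le_total d e with h | h
  · have := mul_nonneg hc (sub_nonneg.2 h)
    have := mul_nonneg hb hd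
    nlinarith [sq_nonneg (a - b + c + d - e)]
  · have := mul_nonneg ha (sub_nonneg.2 h)
    have := mul_nonneg hb he
    nlinarith [sq_nonneg (a - b + c - d + e)]

lemma horn_cp (m : ℕ) (C : Matrix (Fin 5) (Fin m) ℝ) (hC : ∀ i j, 0 ≤ C i j) :
    0 ≤ ∑ i, ∑ j, H i j * (C * Cᵀ) i j := by
  have : ∑ i, ∑ j, H i j * (C * Cᵀ) i j = ∑ k, ∑ i, ∑ j, H i j * (C i k * C j k) := by
    simp only [Matrix.mul_apply, Matrix.transpose_apply, Finset.mul_sum]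
    rw [Finset.sum_comm (f := fun k i => ∑ j, H i j * (C i k * C j k))]
    refine Finset.sum_congr rfl fun i _ => ?_
    rw [Finset.sum_comm]
  rw [this]
  refine Finset.sum_nonneg fun k _ => ?_
  have h := horn (C 0 k) (C 1 k) (C 2 k) (C 3 k) (C 4 k) (hC _ _) (hC _ _) (hC _ _) (hC _ _) (hC _ _)
  simp [H, Fin.sum_univ_succ]
  nlinarith [h]

lemma A_boundary : ∀ ε : ℝ, 0 < ε → ∃ S : Matrix (Fin 5) (Fin 5) ℝ, Sᵀ = S ∧
    (∀ i j, |S i j - A i j| < ε) ∧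
    ¬ ∃ m : ℕ, ∃ C : Matrix (Fin 5) (Fin m) ℝ, (∀ i j, 0 ≤ C i j) ∧ S = C * Cᵀ := by
  intro ε hε
  refine ⟨A - (ε / 2) • H, ?_, ?_, ?_⟩
  · rw [transpose_sub, transpose_smul, A_symm, H_symm]
  · intro i j
    have : |H i j| = 1 := by fin_cases i <;> fin_cases j <;> simp [H]
    simp only [Matrix.sub_apply, Matrix.smul_apply, smul_eq_mul, sub_sub_cancel_left, abs_neg,
      abs_mul, this, mul_one]
    rw [abs_of_pos (by linarith)]; linarith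
  · rintro ⟨m, C, hC, hS⟩
    have h := horn_cp m C hC
    rw [← hS] at h
    simp [H, A, Fin.sum_univ_succ] at h
    linarith

lemma sqrt5_irr : Irrational (√5 : ℝ) := by
  have : Nat.Prime 5 := by norm_num
  exact_mod_cast this.irrational_sqrt

end Pool.Agent.H74.CP5
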