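import Mathlib

set_option autoImplicit false

namespace Pool.Agent.H74.CoHopf

abbrev F := ZMod 7
abbrev R := ℤ →₀ F

instance : Fact (Nat.Prime 7) := ⟨by norm_num⟩

def two : Fˣ := ⟨2, 4, by decide, by decide⟩

noncomputable def sh (n : ℤ) : R →ₗ[F] R := Finsupp.lmapDomain F F (fun i => i + n)
noncomputable def dil : R →ₗ[F] R := Finsupp.lmapDomain F F (fun i => 3 * i)

def IsP (d : ℤ) : Prop := ∃ k : ℕ, d = 3 ^ k

open Classical in
noncomputable def pp (d : ℤ) : F := if IsP d then 1 else 0

noncomputable def B : R →ₗ[F] R →ₗ[F] F :=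
  Finsupp.linearCombination F (fun i => Finsupp.linearCombination F (fun j => pp (i - j)))

@[simp] lemma sh_single (n i : ℤ) (x : F) : sh n (Finsupp.single i x) = Finsupp.single (i + n) x := by
  simp [sh]

@[simp] lemma dil_single (i : ℤ) (x : F) : dil (Finsupp.single i x) = Finsupp.single (3 * i) x := by
  simp [dil]

@[simp] lemma B_single (i j : ℤ) (x y : F) :
    B (Finsupp.single i x) (Finsupp.single j y) = x * y * pp (i - j) := by
  simp [B, mul_assoc]

lemma isP_three (d : ℤ) : IsP (3 * d) ↔ IsP d := by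
  constructor
  · rintro ⟨k, hk⟩
    cases k with
    | zero => simp at hk; omega
    | succ k => exact ⟨k, by rw [pow_succ] at hk; omega⟩
  · rintro ⟨k, hk⟩
    exact ⟨k + 1, by rw [pow_succ, hk]; ring⟩

lemma pp_three (d : ℤ) : pp (3 * d) = pp d := by
  unfold pp
  by_cases h : IsP d
  · rw [if_pos h, if_pos ((isP_three d).2 h)]
  · rw [if_neg h, if_neg (fun e => h ((isP_three d).1 e))]

lemma B_sh (n : ℤ) (a a' : R) : B (sh n a) (sh n a') = B a a' := by
  induction a using Finsupp.induction_linear with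
  | zero => simp
  | add a b ha hb => simp [ha, hb]
  | single i x =>
    induction a' using Finsupp.induction_linear with
    | zero => simp
    | add a b ha hb => simp only [map_add, ha, hb]
    | single j y => simp

lemma B_dil (a a' : R) : B (dil a) (dil a') = B a a' := by
  induction a using Finsupp.induction_linear with
  | zero => simp
  | add a b ha hb => simp [ha, hb]
  | single i x =>
    induction a' using Finsupp.induction_linear with
    | zero => simp
    | add a b ha hb => simp only [map_add, ha, hb]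
    | single j y => simp [← mul_sub, pp_three]

lemma sh_add (n m : ℤ) (a : R) : sh (n + m) a = sh n (sh m a) := by
  induction a using Finsupp.induction_linear with
  | zero => simp
  | add a b ha hb => simp [ha, hb]
  | single i x => simp [add_comm, add_left_comm]

lemma sh_zero (a : R) : sh 0 a = a := by
  induction a using Finsupp.induction_linear with
  | zero => simp
  | add a b ha hb => simp [ha, hb]
  | single i x => simp

lemma dil_sh (n : ℤ) (a : R) : dil (sh n a) = sh (3 * n) (dil a) := by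
  induction a using Finsupp.induction_linear with
  | zero => simp
  | add a b ha hb => simp [ha, hb]
  | single i x => simp [mul_add]

lemma dil_inj : Function.Injective dil := by
  intro a b h
  exact Finsupp.mapDomain_injective (fun i j (hij : 3 * i = 3 * j) => by omega) h

noncomputable def act (u : Fˣ) (n : ℤ) : R →ₗ[F] R := (u : F) • sh n

lemma act_mul (u v : Fˣ) (n m : ℤ) (a : R) : act (u * v) (n + m) a = act u n (act v m a) := by
  simp [act, sh_add, smul_smul, mul_comm]

@[simp] lemma act_one (a : R) : act 1 0 a = a := by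
  simp [act, sh_zero]

lemma B_act (u : Fˣ) (n : ℤ) (a a' : R) :
    B (act u n a) (act u n a') = (u : F) ^ 2 * B a a' := by
  simp [act, B_sh]; ring

lemma dil_act (u : Fˣ) (n : ℤ) (a : R) : dil (act u n a) = act u (3 * n) (dil a) := by
  simp [act, dil_sh]

@[ext] structure G where
  c : F
  a : R
  n : ℤ
  u : Fˣ

noncomputable instance : Mul G := ⟨fun g h =>
  ⟨g.c + (g.u : F) ^ 2 * h.c + B g.a (act g.u g.n h.a), g.a + act g.u g.n h.a, g.n + h.n, g.u * h.u⟩⟩
instance : One G := ⟨⟨0, 0, 0, 1⟩⟩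
noncomputable instance : Inv G := ⟨fun g =>
  ⟨((g.u⁻¹ : Fˣ) : F) ^ 2 * (B g.a g.a - g.c), - act g.u⁻¹ (-g.n) g.a, -g.n, g.u⁻¹⟩⟩

@[simp] lemma mul_c (g h : G) :
    (g * h).c = g.c + (g.u : F) ^ 2 * h.c + B g.a (act g.u g.n h.a) := rfl
@[simp] lemma mul_a (g h : G) : (g * h).a = g.a + act g.u g.n h.a := rfl
@[simp] lemma mul_n (g h : G) : (g * h).n = g.n + h.n := rfl
@[simp] lemma mul_u (g h : G) : (g * h).u = g.u * h.u := rfl
@[simp] lemma one_c : (1 : G).c = 0 := rfl
@[simp] lemma one_a : (1 : G).a = 0 := rfl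
@[simp] lemma one_n : (1 : G).n = 0 := rfl
@[simp] lemma one_u : (1 : G).u = 1 := rfl
lemma inv_c (g : G) : (g⁻¹).c = ((g.u⁻¹ : Fˣ) : F) ^ 2 * (B g.a g.a - g.c) := rfl
lemma inv_a (g : G) : (g⁻¹).a = - act g.u⁻¹ (-g.n) g.a := rfl
@[simp] lemma inv_n (g : G) : (g⁻¹).n = -g.n := rfl
@[simp] lemma inv_u (g : G) : (g⁻¹).u = g.u⁻¹ := rfl

noncomputable instance : Group G := Group.ofLeftAxioms
  (fun g h k => by
    ext1
    · simp only [mul_c, mul_a, mul_n, mul_u, act_mul, map_add, LinearMap.add_apply, B_act,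
        Units.val_mul]
      ring
    · simp only [mul_a, mul_n, mul_u, act_mul, map_add, add_assoc]
    · simp [add_assoc]
    · simp [mul_assoc])
  (fun g => by ext1 <;> simp)
  (fun g => by
    ext1
    · simp only [mul_c, inv_c, inv_a, inv_n, inv_u, map_neg, LinearMap.neg_apply, B_act, one_c]
      ring
    · simp [inv_a]
    · simp
    · simp)

def nHom : G →* Multiplicative ℤ where
  toFun g := Multiplicative.ofAdd g.n
  map_one' := rfl
  map_mul' _ _ := rfl

lemma zpow_n (g : G) (j : ℤ) : (g ^ j).n = j * g.n := by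
  have := map_zpow nHom g j
  have h2 := congrArg Multiplicative.toAdd this
  simpa [nHom] using h2

lemma pow_n (g : G) (j : ℕ) : (g ^ j).n = j * g.n := by
  have := zpow_n g j
  simpa using this

noncomputable def chi : G →* Fˣ where
  toFun g := g.u * two ^ (-g.n)
  map_one' := by simp
  map_mul' g h := by
    simp only [mul_u, mul_n, neg_add, zpow_add]
    exact mul_mul_mul_comm _ _ _ _

noncomputable def H : Subgroup G := chi.ker

lemma mem_H (g : G) : g ∈ H ↔ g.u = two ^ g.n := by
  simp [H, chi, MonoidHom.mem_ker, mul_inv_eq_one]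

instance : H.Normal := MonoidHom.normal_ker _
instance : H.FiniteIndex := Subgroup.finiteIndex_ker _

noncomputable def phi : G →* G := MonoidHom.mk' (fun g => ⟨g.c, dil g.a, 3 * g.n, g.u⟩) (by
  intro g h
  ext1
  · simp only [mul_c, ← dil_act, B_dil]
  · simp only [mul_a, map_add, dil_act]
  · simp [mul_add]
  · simp)

lemma phi_inj : Function.Injective phi := by
  intro g h e
  have e1 := congrArg G.c e
  have e2 := congrArg G.a e
  have e3 := congrArg G.n e
  have e4 := congrArg G.u e
  simp only [phi, MonoidHom.mk'_apply] at e1 e2 e3 e4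
  ext1
  · exact e1
  · exact dil_inj e2
  · omega
  · exact e4

def cc (γ : F) : G := ⟨γ, 0, 0, 1⟩
def nn (a : R) : G := ⟨0, a, 0, 1⟩
def ss : G := ⟨0, 0, 1, two⟩

lemma phi_not_surj : ¬ Function.Surjective phi := by
  intro h
  obtain ⟨g, hg⟩ := h ss
  have e3 := congrArg G.n hg
  simp only [phi, MonoidHom.mk'_apply, ss] at e3
  omega

lemma cc_mem (γ : F) : cc γ ∈ H := by simp [mem_H, cc]
lemma nn_mem (a : R) : nn a ∈ H := by simp [mem_H, nn]
lemma ss_mem : ss ∈ H := by simp [mem_H, ss]

lemma cc_add (x y : F) : cc (x + y) = cc x * cc y := by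
  ext1 <;> simp [cc]

lemma cc_zero : cc 0 = 1 := rfl

lemma cc_pow (x : F) (k : ℕ) : cc x ^ k = cc (k * x) := by
  induction k with
  | zero => simp [cc_zero]
  | succ k ih => rw [pow_succ, ih, ← cc_add]; congr 1; push_cast; ring

lemma cc_inj : Function.Injective cc := fun _ _ h => congrArg G.c h

lemma mul_cc (g : G) (γ : F) : g * cc γ = cc ((g.u : F) ^ 2 * γ) * g := by
  ext1 <;> simp [cc, add_comm]

lemma comm_N (g h : G) (hg : g.n = 0) (hg' : g.u = 1) (hh : h.n = 0) (hh' : h.u = 1) :
    g * h = cc (B g.a h.a - B h.a g.a) * (h * g) := by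
  ext1 <;> simp [cc, hg, hg', hh, hh', add_comm]

lemma conj_N (g h : G) (hh : h.n = 0) (hh' : h.u = 1) :
    (g * h * g⁻¹).n = 0 ∧ (g * h * g⁻¹).u = 1 ∧ (g * h * g⁻¹).a = act g.u g.n h.a := by
  have h1 : (g * h * g⁻¹).n = 0 := by simp [hh]
  have h2 : (g * h * g⁻¹).u = 1 := by simp [hh']
  refine ⟨h1, h2, ?_⟩
  have e : g * h * g⁻¹ * g = g * h := by group
  have e2 := congrArg G.a e
  rw [mul_a (g * h * g⁻¹), h1, h2, act_one, mul_a g h, add_comm] at e2
  exact add_left_cancel e2

lemma eq_cc_nn (g : G) (hg : g.n = 0) (hg' : g.u = 1) : g = cc g.c * nn g.a := by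
  ext1 <;> simp [cc, nn, hg, hg']

lemma pp_zero : pp 0 = 0 := by
  have : ¬ IsP 0 := by
    rintro ⟨k, hk⟩
    have : (0 : ℤ) < 3 ^ k := by positivity
    omega
  simp [pp, this]

lemma nn_pow (i : ℤ) (x : F) (k : ℕ) :
    nn (Finsupp.single i x) ^ k = nn (Finsupp.single i (k * x)) := by
  induction k with
  | zero => ext1 <;> simp [nn]
  | succ k ih =>
    rw [pow_succ, ih]
    ext1
    · simp only [nn, mul_c, act_one, B_single, sub_self, pp_zero]
      simp
    · simp only [nn, mul_a, act_one, ← Finsupp.single_add]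
      congr 1
      push_cast
      ring
    · simp [nn]
    · simp [nn]

lemma exists_nat_mul (x y : F) (hx : x ≠ 0) : ∃ k : ℕ, (k : F) * x = y :=
  ⟨(y / x).val, by rw [ZMod.natCast_zmod_val]; field_simp⟩

/-- generation lemma -/
lemma gen (L : Subgroup G) (γ : F) (hγ : γ ≠ 0) (h1 : cc γ ∈ L)
    (g : G) (hg : g ∈ L) (hgn : g.n = 0) (hgu : g.u = 1) (i : ℤ) (x : F) (hx : x ≠ 0)
    (hga : g.a = Finsupp.single i x)
    (σ : G) (hσ : σ ∈ L) (hσH : σ ∈ H) (hσn : σ.n = 1) : H ≤ L := by
  have hc : ∀ y, cc y ∈ L := by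
    intro y
    obtain ⟨k, hk⟩ := exists_nat_mul γ y hγ
    rw [← hk, ← cc_pow]
    exact L.pow_mem h1 k
  have hnn : ∀ h ∈ L, h.n = 0 → h.u = 1 → nn h.a ∈ L := by
    intro h hh hn hu
    have := eq_cc_nn h hn hu
    rw [this] at hh
    exact (L.mul_mem_cancel_left (hc _)).1 hh
  have hsingle : ∀ j y, nn (Finsupp.single j y) ∈ L := by
    intro j y
    have hm : σ ^ (j - i) * g * (σ ^ (j - i))⁻¹ ∈ L :=
      L.mul_mem (L.mul_mem (L.zpow_mem hσ _) hg) (L.inv_mem (L.zpow_mem hσ _))
    obtain ⟨e1, e2, e3⟩ := conj_N (σ ^ (j - i)) g hgn hgu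
    have := hnn _ hm e1 e2
    rw [e3, hga, zpow_n, hσn] at this
    simp only [act, LinearMap.smul_apply, sh_single, mul_one, add_sub_cancel,
      Finsupp.smul_single, smul_eq_mul] at this
    obtain ⟨k, hk⟩ := exists_nat_mul (((σ ^ (j - i)).u : F) * x) y
      (mul_ne_zero (Units.ne_zero _) hx)
    rw [← hk, ← nn_pow]
    exact L.pow_mem this k
  have hall : ∀ a, nn a ∈ L := by
    intro a
    induction a using Finsupp.induction_linear with
    | zero => exact L.one_mem
    | add a b ha hb =>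
      have := hnn _ (L.mul_mem ha hb) (by simp [nn]) (by simp [nn])
      simpa [nn] using this
    | single j y => exact hsingle j y
  intro h hh
  have hm : h * (σ ^ h.n)⁻¹ ∈ H := H.mul_mem hh (H.inv_mem (H.zpow_mem hσH _))
  have hn : (h * (σ ^ h.n)⁻¹).n = 0 := by simp [zpow_n, hσn]
  have hu : (h * (σ ^ h.n)⁻¹).u = 1 := by
    rw [(mem_H _).1 hm, hn, zpow_zero]
  have hL : h * (σ ^ h.n)⁻¹ ∈ L := by
    rw [eq_cc_nn _ hn hu]
    exact L.mul_mem (hc _) (hall _)
  exact (L.mul_mem_cancel_right (L.inv_mem (L.zpow_mem hσ _))).1 hL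

noncomputable def om (d : ℤ) : F := pp d - pp (-d)

lemma isP_pos {d : ℤ} (h : IsP d) : 0 < d := by
  obtain ⟨k, rfl⟩ := h
  positivity

lemma om_ne_zero (d : ℤ) : om d ≠ 0 ↔ IsP d ∨ IsP (-d) := by
  unfold om pp
  by_cases h1 : IsP d <;> by_cases h2 : IsP (-d)
  · have := isP_pos h1
    have := isP_pos h2
    omega
  · simp [h1, h2]
  · simp [h1, h2]
  · simp [h1, h2]

lemma not_isP (k : ℕ) (e : ℤ) (h1 : 3 ^ k < e) (h2 : e < 3 ^ (k + 1)) : ¬ IsP e := by
  rintro ⟨l, rfl⟩
  have a1 := (pow_lt_pow_iff_right₀ (by norm_num : (1 : ℤ) < 3)).1 h1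
  have a2 := (pow_lt_pow_iff_right₀ (by norm_num : (1 : ℤ) < 3)).1 h2
  omega

noncomputable def W (r : R) (k : ℤ) : F := B r (sh k r) - B (sh k r) r

lemma W_eq (r : R) (k : ℤ) :
    W r k = ∑ i ∈ r.support, ∑ j ∈ r.support, r i * r j * om (i - j - k) := by
  have key : ∀ a b : R, B a (sh k b) - B (sh k b) a =
      a.sum (fun i x => b.sum (fun j y => x * y * om (i - j - k))) := by
    intro a b
    induction a using Finsupp.induction_linear with
    | zero => simp
    | add a a' ha ha' =>
      rw [Finsupp.sum_add_index' (by simp) (by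
        intro i x x'
        simp only [Finsupp.sum, add_mul, Finset.sum_add_distrib]), ← ha, ← ha']
      simp only [map_add, LinearMap.add_apply]
      ring
    | single i x =>
      rw [Finsupp.sum_single_index (by simp)]
      induction b using Finsupp.induction_linear with
      | zero => simp
      | add b b' hb hb' =>
        rw [Finsupp.sum_add_index' (by simp) (by
          intro j y y'
          ring), ← hb, ← hb']
        simp only [map_add, LinearMap.add_apply]
        ring
      | single j y =>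
        rw [Finsupp.sum_single_index (by simp)]
        simp only [sh_single, B_single, om]
        rw [show i - (j + k) = i - j - k by ring, show j + k - i = -(i - j - k) by ring]
        ring
  rw [W, key]
  rfl

lemma key (r : R) (n : ℤ) (hn : ¬ (3 : ℤ) ∣ n) (hn' : n ≠ -1)
    (h : ∀ j : ℤ, om (-j) = 0 ↔ W r (j * n) = 0) :
    n = 1 ∧ ∃ i x, x ≠ 0 ∧ r = Finsupp.single i x := by
  have hr : r.support.Nonempty := by
    rw [Finset.nonempty_iff_ne_empty]
    intro he
    have : W r (1 * n) = 0 := by rw [W_eq, he]; simp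
    have h1 := (h 1).2 this
    have : om (-1) ≠ 0 := (om_ne_zero _).2 (Or.inr ⟨0, by norm_num⟩)
    exact this h1
  set M := r.support.max' hr with hM
  set m := r.support.min' hr with hm
  have hMs : M ∈ r.support := Finset.max'_mem _ _
  have hms : m ∈ r.support := Finset.min'_mem _ _
  have hle : ∀ i ∈ r.support, m ≤ i ∧ i ≤ M := fun i hi =>
    ⟨Finset.min'_le _ _ hi, Finset.le_max' _ _ hi⟩
  obtain ⟨k, hk⟩ := pow_unbounded_of_one_lt (2 * (M - m)) (by norm_num : (1 : ℤ) < 3)
  have hmM := (hle M hMs).1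
  have hkpos : (0 : ℤ) < 3 ^ k := by positivity
  have hn1 : n = 1 := by
    have h1 : om (-(3 ^ k)) ≠ 0 := (om_ne_zero _).2 (Or.inr ⟨k, by simp⟩)
    have h2 : W r (3 ^ k * n) ≠ 0 := fun e => h1 ((h _).2 e)
    rw [W_eq] at h2
    obtain ⟨i, hi, h3⟩ := Finset.exists_ne_zero_of_sum_ne_zero h2
    obtain ⟨j, hj, h4⟩ := Finset.exists_ne_zero_of_sum_ne_zero h3
    have h5 : om (i - j - 3 ^ k * n) ≠ 0 := fun e => h4 (by rw [e, mul_zero])
    have hi' := hle i hi
    have hj' := hle j hj
    have hn0 : n ≠ 0 := by rintro rfl; simp at hn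
    obtain ⟨l, ε, hε, hl⟩ : ∃ (l : ℕ) (ε : ℤ), (ε = 1 ∨ ε = -1) ∧
        i - j - 3 ^ k * n = ε * 3 ^ l := by
      rcases (om_ne_zero _).1 h5 with ⟨l, hl⟩ | ⟨l, hl⟩
      · exact ⟨l, 1, Or.inl rfl, by linarith⟩
      · exact ⟨l, -1, Or.inr rfl, by linarith⟩
    rcases le_or_gt k l with hkl | hkl
    · obtain ⟨e, rfl⟩ := Nat.exists_eq_add_of_le hkl
      have h6 : i - j = 3 ^ k * (n + ε * 3 ^ e) := by rw [pow_add] at hl; linarith
      have h7 : n + ε * 3 ^ e = 0 := by
        by_contra h7
        rcases lt_or_gt_of_ne h7 with h8 | h8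
        · nlinarith
        · nlinarith
      cases e with
      | zero => rcases hε with rfl | rfl <;> simp at h7 <;> omega
      | succ e =>
        exfalso
        apply hn
        exact ⟨-(ε * 3 ^ e), by rw [pow_succ] at h7; linarith⟩
    · exfalso
      obtain ⟨e, rfl⟩ := Nat.exists_eq_add_of_lt hkl
      have hl0 : (0 : ℤ) < 3 ^ l := by positivity
      have he1 : (1 : ℤ) ≤ 3 ^ e := one_le_pow₀ (by norm_num)
      have h9 : (3 : ℤ) * 3 ^ l ≤ 3 ^ (l + e + 1) := by
        rw [pow_succ, pow_add]; nlinarith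
      rcases lt_or_gt_of_ne hn0 with h8 | h8
      · rcases hε with rfl | rfl <;> nlinarith
      · rcases hε with rfl | rfl <;> nlinarith
  refine ⟨hn1, M, r M, Finsupp.mem_support_iff.1 hMs, ?_⟩
  subst hn1
  have hD : M = m := by
    by_contra hD
    have hD' : 0 < M - m := by omega
    have h1 : om (-(3 ^ k + (M - m))) = 0 := by
      by_contra h1
      rcases (om_ne_zero _).1 h1 with h2 | h2
      · have := isP_pos h2
        omega
      · exact not_isP k _ (by omega) (by rw [pow_succ]; omega) h2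
    have h2 := (h _).1 h1
    rw [W_eq, Finset.sum_eq_single M, Finset.sum_eq_single m] at h2
    · have h3 : om (M - m - (3 ^ k + (M - m)) * 1) ≠ 0 :=
        (om_ne_zero _).2 (Or.inr ⟨k, by ring⟩)
      exact mul_ne_zero (mul_ne_zero (Finsupp.mem_support_iff.1 hMs)
        (Finsupp.mem_support_iff.1 hms)) h3 h2
    · intro j hj hjm
      have := hle j hj
      have h3 : om (M - j - (3 ^ k + (M - m)) * 1) = 0 := by
        by_contra h1
        rcases (om_ne_zero _).1 h1 with h2 | h2
        · have := isP_pos h2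
          omega
        · exact not_isP k _ (by omega) (by rw [pow_succ]; omega) h2
      rw [h3, mul_zero]
    · intro hh; exact absurd hms hh
    · intro i hi hiM
      apply Finset.sum_eq_zero
      intro j hj
      have := hle j hj
      have := hle i hi
      have h3 : om (i - j - (3 ^ k + (M - m)) * 1) = 0 := by
        by_contra h1
        rcases (om_ne_zero _).1 h1 with h2 | h2
        · have := isP_pos h2
          omega
        · exact not_isP k _ (by omega) (by rw [pow_succ]; omega) h2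
      rw [h3, mul_zero]
    · intro hh; exact absurd hMs hh
  rw [Finsupp.eq_single_iff]
  refine ⟨?_, rfl⟩
  intro i hi
  have := hle i hi
  simp only [Finset.mem_singleton]
  omega

lemma two_cube : two ^ (3 : ℤ) = 1 := by
  ext; decide

theorem H_cohopf (f : H →* H) (hf : Function.Injective f) : Function.Surjective f := by
  let c : F → H := fun γ => ⟨cc γ, cc_mem γ⟩
  let a0 : H := ⟨nn (Finsupp.single 0 1), nn_mem _⟩
  let s : H := ⟨ss, ss_mem⟩
  have hN : ∀ x : H, (x : G).n = 0 → (x : G).u = 1 := by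
    intro x hx
    rw [(mem_H _).1 x.2, hx, zpow_zero]
  have ha7 : a0 ^ 7 = 1 := by
    apply Subtype.ext
    simp only [a0, SubmonoidClass.coe_pow, nn_pow, OneMemClass.coe_one]
    have : ((7 : ℕ) : F) * 1 = 0 := by decide
    rw [this]
    ext1 <;> simp [nn]
  have hfa : ((f a0 : H) : G).n = 0 := by
    have e : (f a0) ^ 7 = 1 := by rw [← map_pow, ha7, map_one]
    have e2 := congrArg (fun x : H => (x : G).n) e
    simp only [SubmonoidClass.coe_pow, pow_n, OneMemClass.coe_one, one_n] at e2
    omega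
  set r := ((f a0 : H) : G).a with hr
  set n := ((f s : H) : G).n with hn
  have hrel : ∀ j : ℤ, ((f (c ((two ^ j : Fˣ) * om (-j))) : H) : G) =
      cc ((two ^ (j * n) : Fˣ) * W r (j * n)) := by
    intro j
    have e1 : a0 * (s ^ j * a0 * (s ^ j)⁻¹) =
        c ((two ^ j : Fˣ) * om (-j)) * ((s ^ j * a0 * (s ^ j)⁻¹) * a0) := by
      apply Subtype.ext
      obtain ⟨d1, d2, d3⟩ := conj_N (ss ^ j) (nn (Finsupp.single 0 1)) rfl rfl
      have := comm_N (nn (Finsupp.single 0 1)) _ rfl rfl d1 d2
      simp only [Subgroup.coe_mul, SubgroupClass.coe_zpow, InvMemClass.coe_inv, a0, s, c]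
      rw [this, d3, (mem_H _).1 (H.zpow_mem ss_mem j), zpow_n]
      congr 2
      simp [act, nn, ss, om]
      ring
    have e2 := congrArg (fun x : H => ((f x : H) : G)) e1
    simp only [map_mul, map_zpow, map_inv, Subgroup.coe_mul, SubgroupClass.coe_zpow,
      InvMemClass.coe_inv] at e2
    obtain ⟨d1, d2, d3⟩ := conj_N (((f s : H) : G) ^ j) ((f a0 : H) : G) hfa (hN _ hfa)
    have := comm_N ((f a0 : H) : G) _ hfa (hN _ hfa) d1 d2
    rw [this] at e2
    have e3 := mul_right_cancel e2
    rw [← e3, d3, (mem_H _).1 (H.zpow_mem (f s).2 j), zpow_n]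
    congr 1
    simp only [act, LinearMap.smul_apply, map_smul, smul_eq_mul, W, ← hr, ← hn]
    ring
  have hiff : ∀ j : ℤ, om (-j) = 0 ↔ W r (j * n) = 0 := by
    intro j
    constructor
    · intro e
      have := hrel j
      rw [e, mul_zero] at this
      have e1 : c 0 = 1 := rfl
      rw [e1, map_one] at this
      have e2 := cc_inj (cc_zero.trans this)
      exact (mul_eq_zero.1 e2.symm).resolve_left (Units.ne_zero _)
    · intro e
      have := hrel j
      rw [e, mul_zero, cc_zero] at this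
      have e1 : f (c ((two ^ j : Fˣ) * om (-j))) = f 1 := by
        rw [map_one]; exact Subtype.ext this
      have e2 := congrArg (fun x : H => (x : G).c) (hf e1)
      exact (mul_eq_zero.1 e2).resolve_left (Units.ne_zero _)
  have hom1 : om (-1) ≠ 0 := (om_ne_zero _).2 (Or.inr ⟨0, by norm_num⟩)
  have hΩ : ((two ^ (1 * n) : Fˣ) : F) * W r (1 * n) ≠ 0 :=
    mul_ne_zero (Units.ne_zero _) (fun e => hom1 ((hiff 1).2 e))
  have hsq : (((two ^ n : Fˣ) : F)) ^ 2 = 4 := by
    have e1 : ∀ γ, s * c γ = (c γ) ^ 4 * s := by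
      intro γ
      apply Subtype.ext
      simp only [Subgroup.coe_mul, SubmonoidClass.coe_pow, s, c, cc_pow, mul_cc]
      congr 3
    have e2 := congrArg (fun x : H => ((f x : H) : G)) (e1 ((two ^ (1 : ℤ) : Fˣ) * om (-1)))
    simp only [map_mul, map_pow, Subgroup.coe_mul, SubmonoidClass.coe_pow] at e2
    rw [hrel 1, mul_cc, cc_pow] at e2
    have e3 := cc_inj (mul_right_cancel e2)
    have e4 := mul_right_cancel₀ hΩ e3
    rw [(mem_H _).1 (f s).2] at e4
    exact e4
  have h3 : ¬ (3 : ℤ) ∣ n := by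
    rintro ⟨m, hm⟩
    rw [hm, zpow_mul, two_cube, one_zpow] at hsq
    revert hsq
    decide
  have h1 : n ≠ -1 := by
    intro hm
    rw [hm] at hsq
    revert hsq
    decide
  obtain ⟨hn1, i, x, hx, hrx⟩ := key r n h3 h1 hiff
  have hle : H ≤ f.range.map H.subtype := by
    refine gen _ _ hΩ ?_ ((f a0 : H) : G) ?_ hfa (hN _ hfa) i x hx hrx ((f s : H) : G) ?_
      (f s).2 hn1
    · rw [← hrel 1]
      exact Subgroup.mem_map_of_mem H.subtype ⟨_, rfl⟩
    · exact Subgroup.mem_map_of_mem H.subtype ⟨_, rfl⟩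
    · exact Subgroup.mem_map_of_mem H.subtype ⟨_, rfl⟩
  intro y
  obtain ⟨z, ⟨w, hw⟩, hz⟩ := hle y.2
  exact ⟨w, by rw [hw]; exact Subtype.ext hz⟩

theorem H_closure : Subgroup.closure {cc 1, nn (Finsupp.single 0 1), ss} = H := by
  apply le_antisymm
  · rw [Subgroup.closure_le]
    intro x hx
    rcases hx with rfl | rfl | rfl
    · exact cc_mem _
    · exact nn_mem _
    · exact ss_mem
  · refine gen _ 1 one_ne_zero (Subgroup.subset_closure (by simp)) (nn (Finsupp.single 0 1))
      (Subgroup.subset_closure (by simp)) rfl rfl 0 1 one_ne_zero rfl ss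
      (Subgroup.subset_closure (by simp)) ss_mem rfl

end Pool.Agent.H74.CoHopf
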