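import Mathlib

/-! A commensurated subset gives an affine isometric action on a real Hilbert space. -/

namespace Pool.Agent.H74.CommAct

open scoped ENNReal

variable {Y : Type*}

abbrev L2 (Y : Type*) := lp (fun _ : Y => ℝ) 2

lemma mem_comp (e : Y ≃ Y) (v : L2 Y) : Memℓp (fun y => (v : Y → ℝ) (e y)) 2 := by
  have h := (lp.memℓp v).summable (by norm_num : 0 < (2 : ℝ≥0∞).toReal)
  exact memℓp_gen ((e.summable_iff (f := fun y => ‖(v : Y → ℝ) y‖ ^ (2 : ℝ≥0∞).toReal)).2 h)

/-- composition with a permutation -/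
noncomputable def perm (e : Y ≃ Y) : L2 Y ≃ₗᵢ[ℝ] L2 Y where
  toFun v := ⟨fun y => (v : Y → ℝ) (e y), mem_comp e v⟩
  invFun v := ⟨fun y => (v : Y → ℝ) (e.symm y), mem_comp e.symm v⟩
  map_add' _ _ := rfl
  map_smul' _ _ := rfl
  left_inv v := by
    apply lp.ext
    funext y
    show (v : Y → ℝ) (e (e.symm y)) = _
    rw [e.apply_symm_apply]
  right_inv v := by
    apply lp.ext
    funext y
    show (v : Y → ℝ) (e.symm (e y)) = _
    rw [e.symm_apply_apply]
  norm_map' v := by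
    rw [lp.norm_eq_tsum_rpow (by norm_num), lp.norm_eq_tsum_rpow (by norm_num)]
    congr 1
    exact e.tsum_eq (fun y => ‖(v : Y → ℝ) y‖ ^ (2 : ℝ≥0∞).toReal)

variable {G : Type*} [Group G] [MulAction G Y]

/-- the elements that commensurate `M` -/
def comm (G : Type*) [Group G] [MulAction G Y] (M : Set Y) : Subgroup G where
  carrier := {g | {y | ¬ (g⁻¹ • y ∈ M ↔ y ∈ M)}.Finite}
  one_mem' := by simp
  mul_mem' := by
    intro g h hg hh
    refine (hg.union (hh.image (g • ·))).subset ?_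
    intro y hy
    by_cases h1 : (g⁻¹ • y ∈ M ↔ y ∈ M)
    · right
      refine ⟨g⁻¹ • y, ?_, by simp⟩
      intro h2
      apply hy
      rw [mul_inv_rev, mul_smul, h2, h1]
    · exact Or.inl h1
  inv_mem' := by
    intro g hg
    refine (hg.image (g⁻¹ • ·)).subset ?_
    intro y hy
    refine ⟨g • y, ?_, by simp⟩
    intro h2
    apply hy
    rw [inv_smul_smul] at h2
    rw [inv_inv, h2]

open Classical in
/-- the cocycle -/
noncomputable def coc (M : Set Y) (g : comm G M) : L2 Y :=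
  ⟨fun y => (if (g : G)⁻¹ • y ∈ M then 1 else 0) - (if y ∈ M then 1 else 0), by
    refine (memℓp_zero (g.2.subset ?_)).of_exponent_ge (by norm_num)
    intro y hy h
    apply hy
    simp only [h, sub_self]⟩

open Classical in
/-- the affine isometric action -/
noncomputable def act (M : Set Y) : comm G M →* (L2 Y ≃ᵃⁱ[ℝ] L2 Y) :=
  MonoidHom.mk' (fun g => (perm (MulAction.toPerm (g : G)⁻¹)).toAffineIsometryEquiv.trans
    (AffineIsometryEquiv.constVAdd ℝ (L2 Y) (coc M g))) (by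
      intro g h
      ext1 v
      apply lp.ext
      funext y
      show ((if ((g : G) * h)⁻¹ • y ∈ M then (1 : ℝ) else 0) - (if y ∈ M then 1 else 0)) +
          (v : Y → ℝ) (((g : G) * h)⁻¹ • y) =
        ((if (g : G)⁻¹ • y ∈ M then (1 : ℝ) else 0) - (if y ∈ M then 1 else 0)) +
          (((if (h : G)⁻¹ • (g : G)⁻¹ • y ∈ M then (1 : ℝ) else 0) -
            (if (g : G)⁻¹ • y ∈ M then 1 else 0)) + (v : Y → ℝ) ((h : G)⁻¹ • (g : G)⁻¹ • y))
      rw [mul_inv_rev, mul_smul]
      ring)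

open Classical in
lemma act_apply (M : Set Y) (g : comm G M) (v : L2 Y) (y : Y) :
    (act M g v : Y → ℝ) y = ((if (g : G)⁻¹ • y ∈ M then (1 : ℝ) else 0) -
      (if y ∈ M then 1 else 0)) + (v : Y → ℝ) ((g : G)⁻¹ • y) := rfl

lemma eq_zero_of_const (v : L2 Y) (u : ℕ → Y) (hu : Function.Injective u) (c : ℝ)
    (hc : ∀ n, (v : Y → ℝ) (u n) = c) : c = 0 := by
  have h := ((lp.memℓp v).summable (by norm_num : 0 < (2 : ℝ≥0∞).toReal)).tendsto_cofinite_zero
  have h2 := h.comp hu.tendsto_cofinite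
  have h3 : ((fun y => ‖(v : Y → ℝ) y‖ ^ (2 : ℝ≥0∞).toReal) ∘ u) =
      fun _ => ‖c‖ ^ (2 : ℝ≥0∞).toReal := by
    funext n; simp [hc]
  rw [h3] at h2
  have h4 := tendsto_nhds_unique tendsto_const_nhds h2
  simpa using h4

end Pool.Agent.H74.CommAct
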