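import Mathlib
import Pool.Agent.H49.WV2
import Pool.Agent.H55.PNT

set_option autoImplicit false

namespace Pool.Agent.H74.Cov

open Finset Pool.Agent.H61.Sieve Pool.Agent.H54.PrimeSieve Pool.Agent.H49.WV

lemma modEq_iff (p x c : ℕ) (hp : 1 ≤ p) : x ≡ c [MOD p] ↔ p ∣ x + (p - 1) * c := by
  obtain ⟨r, rfl⟩ := Nat.exists_eq_add_of_le' hp
  rw [Nat.add_sub_cancel, ← Nat.modEq_zero_iff_dvd]
  have h : c + r * c ≡ 0 [MOD r + 1] := by
    rw [Nat.modEq_zero_iff_dvd]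
    exact ⟨c, by ring⟩
  exact ⟨fun h1 => (h1.add_right _).trans h, fun h1 => Nat.ModEq.add_right_cancel' _
    (h1.trans h.symm)⟩

lemma one_sol (p M b c : ℕ) (hp : p.Prime) (hM : ¬ p ∣ M) :
    ∃ s, (range p).filter (fun s => b + M * s ≡ c [MOD p]) = {s} := by
  obtain ⟨s, hs⟩ := lin_sol p M (b + (p - 1) * c) hp hM
  refine ⟨s, hs ▸ filter_congr (fun x _ => ?_)⟩
  rw [modEq_iff _ _ _ hp.pos, add_right_comm]

lemma per (p M b c s : ℕ) : b + M * (s + p) ≡ c [MOD p] ↔ b + M * s ≡ c [MOD p] := by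
  rw [mul_add, ← add_assoc]
  simp [Nat.ModEq]

lemma t2 (q : ℕ) (hq : q.Prime) (a : ℕ → ℕ) (b y N : ℕ) (hy : 1 ≤ y) (S : Finset ℕ)
    (hS : S ⊆ Ico 0 (0 + N))
    (h : ∀ s ∈ S, ∀ p, p.Prime → p ≤ y → p ≠ q → ¬ b + q ^ 2 * s ≡ a p [MOD p]) :
    (S.card : ℝ) ≤ 4 * N / Real.log (y + 1) + 2 * (y : ℝ) ^ 4 := by
  have hl := log_pos' y hy
  have hw := one_le_wt q hq.ne_zero
  have hw2 : wt q ≤ 2 := by
    have h1 : (1 : ℝ) ≤ q := by exact_mod_cast hq.pos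
    rw [wt, hq.divisors, sum_pair hq.one_lt.ne]
    have : 1 / (q : ℝ) ≤ 1 := (div_le_one (by linarith)).2 h1
    push_cast
    linarith
  have hrho : ∀ p ∈ (Icc 1 y).filter (fun p => p.Prime ∧ ¬ p ∣ q),
      rho (fun p s => b + q ^ 2 * s ≡ a p [MOD p]) p = 1 := by
    intro p hp
    obtain ⟨s, hs⟩ := one_sol p (q ^ 2) b (a p) (mem_filter.1 hp).2.1
      (fun h => (mem_filter.1 hp).2.2 ((mem_filter.1 hp).2.1.dvd_of_dvd_pow h))
    unfold rho
    rw [hs, card_singleton]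
  have h := selberg' (fun p s => b + q ^ 2 * s ≡ a p [MOD p])
    ((Icc 1 y).filter (fun p => p.Prime ∧ ¬ p ∣ q))
    (fun p hp => (mem_filter.mp hp).2.1) (fun p _ s => per _ _ _ _ _)
    (fun _ => 1) (fun _ => zero_le_one) (fun p hp => by rw [hrho p hp]; simp)
    (fun p hp => by rw [hrho p hp]; exact one_pos)
    (fun p hp => by rw [hrho p hp]; exact (mem_filter.mp hp).2.1.one_lt)
    y hy _ (T_ok q y y le_rfl) (Real.log (y + 1) / 4) (by positivity) ?_ 0 N S hS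
    (fun s hs p hp => h s hs p (mem_filter.1 hp).2.1 (mem_Icc.1 (mem_filter.1 hp).1).2
      (fun e => (mem_filter.1 hp).2.2 (e ▸ dvd_rfl)))
  · rwa [div_div_eq_mul_div, mul_comm] at h
  · have h1 : ∀ m, cm (fun _ => 1) m = 1 := fun m => by simp [cm_eq]
    simp only [h1]
    have h2 := coprime_sum q y hq.ne_zero
    have h3 : 0 ≤ ∑ v ∈ (Icc 1 y).filter (fun v => v.Coprime q), (1 : ℝ) / v :=
      sum_nonneg (fun _ _ => by positivity)
    nlinarith

lemma low (B : Finset ℕ) (y : ℕ) (hB : ∀ p ∈ B, p.Prime ∧ p ≤ y) :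
    Real.log (y + 1) * ∑ p ∈ B, (1 : ℝ) / p ≤
      ∑ m ∈ Icc 1 (y * y), cm (fun p => if p ∈ B then 2 else 1) m / m := by
  have h1 : ∀ p ∈ B, Real.log (y + 1) * (1 / p) ≤
      ∑ m ∈ Icc 1 (y * y), if p ∣ m then (1 : ℝ) / m else 0 := by
    intro p hp
    have hp0 := (hB p hp).1.pos
    calc _ ≤ (∑ u ∈ Icc 1 y, (1 / u : ℝ)) * (1 / p) :=
          mul_le_mul_of_nonneg_right (harm_lo y) (by positivity)
      _ = ∑ m ∈ (Icc 1 y).image (p * ·), (1 : ℝ) / m := by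
          rw [sum_image (fun u _ v _ h => Nat.eq_of_mul_eq_mul_left hp0 h), sum_mul]
          apply sum_congr rfl
          intro u _
          push_cast
          rw [one_div_mul_one_div, mul_comm]
      _ ≤ _ := by
          rw [← sum_filter]
          refine sum_le_sum_of_subset_of_nonneg (fun m hm => ?_) (fun _ _ _ => by positivity)
          obtain ⟨u, hu, rfl⟩ := mem_image.1 hm
          obtain ⟨u1, u2⟩ := mem_Icc.1 hu
          exact mem_filter.2 ⟨mem_Icc.2 ⟨Nat.mul_pos hp0 u1, Nat.mul_le_mul (hB p hp).2 u2⟩,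
            dvd_mul_right _ _⟩
  rw [mul_sum]
  refine (sum_le_sum h1).trans ?_
  rw [sum_comm]
  apply sum_le_sum
  intro m hm
  have hm0 : m ≠ 0 := by have := (mem_Icc.1 hm).1; omega
  rw [← sum_filter, sum_const, nsmul_eq_mul, mul_one_div]
  refine div_le_div_of_nonneg_right ?_ (by positivity)
  rw [cm_eq]
  calc ((B.filter (· ∣ m)).card : ℝ) ≤ ∏ p ∈ B.filter (· ∣ m), (2 : ℝ) := by
        rw [prod_const]
        exact_mod_cast (Nat.lt_two_pow_self).le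
    _ ≤ ∏ p ∈ B.filter (· ∣ m), (if p ∈ B then (2 : ℝ) else 1) ^ m.factorization p := by
        refine prod_le_prod (fun _ _ => by norm_num) (fun p hp => ?_)
        rw [if_pos (mem_filter.1 hp).1]
        exact le_self_pow₀ (by norm_num) ((hB p (mem_filter.1 hp).1).1.factorization_pos_of_dvd hm0
          (mem_filter.1 hp).2).ne'
    _ ≤ _ := by
        refine prod_le_prod_of_subset_of_one_le (fun p hp => ?_) (fun p _ => by positivity)
          (fun p _ _ => one_le_pow₀ (by split_ifs <;> norm_num))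
        exact Nat.mem_primeFactors.2 ⟨(hB p (mem_filter.1 hp).1).1, (mem_filter.1 hp).2, hm0⟩

lemma t1 (B : Finset ℕ) (y m N : ℕ) (hy : 1 ≤ y) (hB : ∀ p ∈ B, p.Prime ∧ p ≤ y)
    (hm : ∀ p ∈ B, 3 ≤ p ∧ ¬ p ∣ m) (hH : 0 < ∑ p ∈ B, (1 : ℝ) / p) (S : Finset ℕ)
    (hS : S ⊆ Ico 0 (0 + N))
    (h : ∀ r ∈ S, r.Prime ∧ y * y < r ∧ ∀ p ∈ B, ¬ m * r ≡ 1 [MOD p]) :
    (S.card : ℝ) ≤ N / (Real.log (y + 1) * ∑ p ∈ B, (1 : ℝ) / p) + 2 * ((y * y : ℕ) : ℝ) ^ 4 := by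
  have hl := log_pos' y hy
  have hrho : ∀ p, p.Prime → rho (fun p s => p ∣ s ∨ (p ∈ B ∧ 0 + m * s ≡ 1 [MOD p])) p
      = if p ∈ B then 2 else 1 := by
    intro p hp
    obtain ⟨s0, h0⟩ := lin_sol p 1 0 hp (fun h => hp.one_lt.ne' (Nat.dvd_one.1 h))
    simp only [zero_add, one_mul] at h0
    unfold rho
    split_ifs with hpB
    · obtain ⟨s1, h1⟩ := one_sol p m 0 1 hp (hm p hpB).2
      simp only [hpB, true_and]
      rw [filter_or, h0, h1, card_union_of_disjoint, card_singleton, card_singleton]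
      rw [← h0, ← h1, disjoint_filter]
      intro s _ h2 h3
      rw [zero_add] at h3
      have := (Nat.modEq_zero_iff_dvd.2 (h2.mul_left m)).symm.trans h3
      exact hp.one_lt.ne' (Nat.dvd_one.1 (Nat.modEq_zero_iff_dvd.1 this.symm))
    · simp only [hpB, false_and, or_false]
      rw [h0, card_singleton]
  refine selberg' (fun p s => p ∣ s ∨ (p ∈ B ∧ 0 + m * s ≡ 1 [MOD p]))
    ((Icc 1 (y * y)).filter Nat.Prime) (fun p hp => (mem_filter.mp hp).2)
    (fun p _ s => by rw [per, Nat.dvd_add_self_right])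
    (fun p => if p ∈ B then 2 else 1) (fun _ => by split_ifs <;> norm_num)
    (fun p hp => by rw [hrho p (mem_filter.1 hp).2]; split_ifs <;> norm_num)
    (fun p hp => by rw [hrho p (mem_filter.1 hp).2]; split_ifs <;> norm_num)
    (fun p hp => by
      rw [hrho p (mem_filter.1 hp).2]
      split_ifs with h1
      · exact (hm p h1).1
      · exact (mem_filter.1 hp).2.one_lt)
    (y * y) (Nat.mul_pos hy hy) (Icc 1 (y * y)) (fun u hu => ⟨(mem_Icc.1 hu).1, (mem_Icc.1 hu).2,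
      fun p hp => mem_filter.2 ⟨mem_Icc.2 ⟨(Nat.prime_of_mem_primeFactors hp).pos,
        (Nat.le_of_mem_primeFactors hp).trans (mem_Icc.1 hu).2⟩, Nat.prime_of_mem_primeFactors hp⟩⟩)
    _ (mul_pos hl hH) (low B y hB) 0 N S hS ?_
  rintro r hr p hp (h1 | ⟨h1, h2⟩)
  · have := (Nat.prime_dvd_prime_iff_eq (mem_filter.1 hp).2 (h r hr).1).1 h1
    have := (mem_Icc.1 (mem_filter.1 hp).1).2
    have := (h r hr).2.1
    omega
  · rw [zero_add] at h2
    exact (h r hr).2.2 p h1 h2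

lemma all_one (q n : ℕ) (hn : n ≠ 0) (h : ∀ r, r.Prime → r ∣ n → r = q ∨ r ≡ 1 [MOD q]) :
    q ∣ n ∨ n ≡ 1 [MOD q] := by
  induction n using Nat.recOnMul with
  | zero => exact absurd rfl hn
  | one => exact Or.inr rfl
  | prime p hp =>
    rcases h p hp dvd_rfl with rfl | h
    · exact Or.inl dvd_rfl
    · exact Or.inr h
  | mul a b ha hb =>
    rcases ha (left_ne_zero_of_mul hn) (fun r h1 h2 => h r h1 (h2.mul_right b)) with h1 | h1
    · exact Or.inl (h1.mul_right b)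
    rcases hb (right_ne_zero_of_mul hn) (fun r h1 h2 => h r h1 (h2.mul_left a)) with h2 | h2
    · exact Or.inl (h2.mul_left a)
    · exact Or.inr (by simpa using h1.mul h2)

lemma demand (K q X y : ℕ) (hq : q.Prime) (hK : 1 ≤ K) (hKq : 4 * K ≤ q) (B : Finset ℕ)
    (hB : ∀ p ∈ B, p.Prime ∧ q < p ∧ p ≤ y) (hH : 0 < ∑ p ∈ B, (1 : ℝ) / p) (hy : q ≤ y)
    (hX : 2 * K * (y * y) ≤ X) (a : ℕ → ℕ) (h1 : a q = 1) (h2 : ∀ p ∈ B, a p = 1)
    (h3 : ∀ p, p ≠ q → ¬ p ≡ 1 [MOD q] → a p = 0) (D : Finset ℕ)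
    (hD : ∀ n ∈ D, X ≤ n ∧ n < 2 * X ∧ ∀ p, p.Prime → 2 * K * p ≤ X → ¬ n ≡ a p [MOD p]) :
    (D.card : ℝ) ≤ 2 * (4 * (2 * X / q ^ 2 + 1) / Real.log (y + 1) + 2 * (y : ℝ) ^ 4)
      + 4 * K * (2 * X / (Real.log (y + 1) * ∑ p ∈ B, (1 : ℝ) / p) + 2 * (y : ℝ) ^ 8) := by
  have hy1 : 1 ≤ y := hq.pos.trans_le hy
  have hl := log_pos' y hy1
  have hyy : y ≤ y * y := Nat.le_mul_self y
  have hsm : ∀ p, p ≤ y * y → 2 * K * p ≤ X := fun p hp => (Nat.mul_le_mul_left _ hp).trans hX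
  have hX0 : 0 < X := lt_of_lt_of_le (by positivity) hX
  let S2 : ℕ → Finset ℕ := fun b => (Ico 0 (0 + (2 * X / q ^ 2 + 1))).filter (b + q ^ 2 * · ∈ D)
  let S1 : ℕ → Finset ℕ := fun m => (Ico 0 (0 + 2 * X)).filter
    (fun r => r.Prime ∧ X < 2 * K * r ∧ m * r ∈ D)
  have hc : D ⊆ ((S2 0).image (0 + q ^ 2 * ·) ∪ (S2 q).image (q + q ^ 2 * ·))
      ∪ (Ico 1 (4 * K)).biUnion (fun m => (S1 m).image (m * ·)) := by
    intro n hn
    obtain ⟨d1, d2, d3⟩ := hD n hn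
    rw [mem_union]
    by_cases h : ∀ r, r.Prime → r ∣ n → r = q ∨ r ≡ 1 [MOD q]
    · left
      have hb : ∀ b s, n = b + q ^ 2 * s → n ∈ (S2 b).image (b + q ^ 2 * ·) := by
        intro b s e
        refine mem_image.2 ⟨s, mem_filter.2 ⟨mem_Ico.2 ⟨Nat.zero_le _, ?_⟩, e ▸ hn⟩, e.symm⟩
        rw [zero_add, Nat.lt_succ_iff, Nat.le_div_iff_mul_le (pow_pos hq.pos 2)]
        nlinarith
      obtain ⟨n', rfl⟩ := (all_one q n (by omega) h).resolve_right
        (h1 ▸ d3 q hq (hsm q (hy.trans hyy)))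
      rw [mem_union]
      rcases all_one q n' (by rintro rfl; omega) (fun r r1 r2 => h r r1 (r2.mul_left q))
        with ⟨s, rfl⟩ | h4
      · exact Or.inl (hb 0 s (by ring))
      · refine Or.inr (hb q (n' / q) ?_)
        have := Nat.div_add_mod n' q
        rw [h4, Nat.mod_eq_of_lt hq.one_lt] at this
        conv_lhs => rw [← this]
        ring
    · right
      push Not at h
      obtain ⟨r, r1, ⟨m, rfl⟩, r2, r3⟩ := h
      have r4 : X < 2 * K * r := by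
        by_contra r4
        refine d3 r r1 (not_lt.1 r4) ?_
        rw [h3 r r2 r3]
        exact Nat.modEq_zero_iff_dvd.2 (dvd_mul_right _ _)
      have m0 : 1 ≤ m := Nat.pos_of_ne_zero (by rintro rfl; omega)
      refine mem_biUnion.2 ⟨m, mem_Ico.2 ⟨m0, ?_⟩, mem_image.2 ⟨r, mem_filter.2
        ⟨mem_Ico.2 ⟨Nat.zero_le _, by nlinarith⟩, r1, r4, by rwa [mul_comm]⟩, mul_comm _ _⟩⟩
      by_contra m1
      push Not at m1
      nlinarith
  have c2 : ∀ b, (((S2 b).image (b + q ^ 2 * ·)).card : ℝ)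
      ≤ 4 * (2 * X / q ^ 2 + 1) / Real.log (y + 1) + 2 * (y : ℝ) ^ 4 := by
    intro b
    refine (Nat.cast_le.2 card_image_le).trans ((t2 q hq a b y _ hy1 _ (filter_subset _ _)
      (fun s hs p p1 p2 _ => (hD _ (mem_filter.1 hs).2).2.2 p p1 (hsm p (p2.trans hyy)))).trans ?_)
    have : ((2 * X / q ^ 2 + 1 : ℕ) : ℝ) ≤ 2 * X / q ^ 2 + 1 := by
      have := @Nat.cast_div_le ℝ _ _ _ (2 * X) (q ^ 2)
      push_cast at this ⊢
      linarith
    gcongr
  have c1 : ∀ m ∈ Ico 1 (4 * K), (((S1 m).image (m * ·)).card : ℝ)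
      ≤ 2 * X / (Real.log (y + 1) * ∑ p ∈ B, (1 : ℝ) / p) + 2 * (y : ℝ) ^ 8 := by
    intro m hm
    obtain ⟨m1, m2⟩ := mem_Ico.1 hm
    refine (Nat.cast_le.2 card_image_le).trans ((t1 B y m _ hy1
      (fun p hp => ⟨(hB p hp).1, (hB p hp).2.2⟩) (fun p hp => ?_) hH _ (filter_subset _ _)
      (fun r hr => ?_)).trans_eq (by push_cast; ring))
    · have := (hB p hp).2.1
      exact ⟨by omega, fun h => by have := Nat.le_of_dvd m1 h; omega⟩
    · obtain ⟨_, r1, r2, r3⟩ := mem_filter.1 hr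
      refine ⟨r1, ?_, fun p hp => h2 p hp ▸ (hD _ r3).2.2 p (hB p hp).1
        (hsm p ((hB p hp).2.2.trans hyy))⟩
      by_contra h
      have := hsm r (not_lt.1 h)
      omega
  have c3 : (((Ico 1 (4 * K)).biUnion (fun m => (S1 m).image (m * ·))).card : ℝ)
      ≤ 4 * K * (2 * X / (Real.log (y + 1) * ∑ p ∈ B, (1 : ℝ) / p) + 2 * (y : ℝ) ^ 8) := by
    refine (Nat.cast_le.2 card_biUnion_le).trans ?_
    rw [Nat.cast_sum]
    refine (sum_le_card_nsmul _ _ _ c1).trans ?_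
    rw [nsmul_eq_mul, Nat.card_Ico]
    refine mul_le_mul_of_nonneg_right ?_ (by positivity)
    exact_mod_cast Nat.sub_le _ _
  have c4 := (card_le_card hc).trans ((card_union_le _ _).trans
    (add_le_add_left (card_union_le _ _) _))
  have c5 := (Nat.cast_le (α := ℝ)).2 c4
  push_cast at c5
  linarith [c2 0, c2 q]

end Pool.Agent.H74.Cov
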