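import Mathlib
import Pool.Agent.H74.Cov1

set_option autoImplicit false

namespace Pool.Agent.H74.Cov

open Finset Filter Topology

def Sp (K q X : ℕ) : Finset ℕ :=
  (Icc 1 X).filter (fun p => p.Prime ∧ p ≡ 1 [MOD q] ∧ X < 2 * K * p ∧ K * p ≤ X)

lemma supply (K q : ℕ) (hq : q.Prime) (hK : 1 ≤ K) :
    ∀ᶠ X : ℕ in atTop, (X : ℝ) / (4 * K * q) ≤ (Sp K q X).card * Real.log X := by
  have : NeZero q := ⟨hq.ne_zero⟩
  have hK' : (0 : ℝ) < K := by exact_mod_cast hK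
  have hq' : (1 : ℝ) < q := by exact_mod_cast hq.one_lt
  set T : ℝ → ℝ := fun x => ∑ p ∈ (Finset.Icc 1 ⌊x⌋₊).filter
      (fun p : ℕ => p.Prime ∧ (p : ZMod q) = 1), Real.log p with hT
  have h0 : Tendsto (fun x => T x / x) atTop (𝓝 ((q.totient : ℝ)⁻¹)) :=
    Pool.Agent.H55.PNT.theta_ap (q := q) isUnit_one
  have h1 : ∀ c : ℝ, 0 < c → Tendsto (fun X : ℕ => T (X / c) / (X / c) / c) atTop
      (𝓝 ((q.totient : ℝ)⁻¹ / c)) := fun c hc =>
    (h0.comp (tendsto_natCast_atTop_atTop.atTop_div_const hc)).div_const c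
  have h2 := (h1 K hK').sub (h1 (2 * K) (by positivity))
  have h3 : 1 / (4 * K * q : ℝ) < (q.totient : ℝ)⁻¹ / K - (q.totient : ℝ)⁻¹ / (2 * K) := by
    rw [Nat.totient_prime hq, Nat.cast_sub hq.pos, Nat.cast_one]
    have : (0 : ℝ) < q - 1 := by linarith
    rw [show ((q : ℝ) - 1)⁻¹ / K - ((q : ℝ) - 1)⁻¹ / (2 * K) = 1 / (2 * K * (q - 1)) by
      field_simp; ring]
    apply one_div_lt_one_div_of_lt (by positivity)
    nlinarith
  filter_upwards [h2.eventually (lt_mem_nhds h3), eventually_ge_atTop 1] with X hX hX1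
  have hX' : (1 : ℝ) ≤ X := by exact_mod_cast hX1
  have e1 : T (X / K) / (X / K) / K - T (X / (2 * K)) / (X / (2 * K)) / (2 * K)
      = (T (X / K) - T (X / (2 * K))) / X := by field_simp
  rw [e1, lt_div_iff₀ (by linarith), one_div_mul_eq_div] at hX
  refine hX.le.trans ?_
  rw [sub_le_iff_le_add']
  have e2 : ∑ p ∈ Sp K q X, Real.log p ≤ (Sp K q X).card * Real.log X := by
    rw [← nsmul_eq_mul]
    apply sum_le_card_nsmul
    intro p hp
    obtain ⟨p1, p2⟩ := mem_Icc.1 (mem_filter.1 hp).1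
    exact Real.log_le_log (by exact_mod_cast p1) (by exact_mod_cast p2)
  refine le_trans ?_ (add_le_add_right e2 _)
  have su : ∀ s t : Finset ℕ, ∑ p ∈ s ∪ t, Real.log p ≤ ∑ p ∈ s, Real.log p + ∑ p ∈ t, Real.log p := by
    intro s t
    rw [← sum_union_inter]
    exact le_add_of_nonneg_right (sum_nonneg (fun p _ => Real.log_natCast_nonneg p))
  refine le_trans (sum_le_sum_of_subset_of_nonneg (fun p hp => ?_)
    (fun p _ _ => Real.log_natCast_nonneg p)) (su _ _)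
  obtain ⟨p1, p2, p3⟩ := mem_filter.1 hp
  obtain ⟨p4, p5⟩ := mem_Icc.1 p1
  have p6 : K * p ≤ X := by
    have := (Nat.le_floor_iff (by positivity)).1 p5
    rw [le_div_iff₀ hK', mul_comm] at this
    exact_mod_cast this
  by_cases h : X < 2 * K * p
  · refine mem_union_right _ (mem_filter.2 ⟨mem_Icc.2 ⟨p4, by nlinarith⟩, p2, ?_, h, p6⟩)
    rw [← ZMod.natCast_eq_natCast_iff, p3, Nat.cast_one]
  · refine mem_union_left _ (mem_filter.2 ⟨mem_Icc.2 ⟨p4, Nat.le_floor ?_⟩, p2, p3⟩)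
    rw [le_div_iff₀ (by positivity), mul_comm]
    exact_mod_cast not_lt.1 h

lemma exists_B (q : ℕ) (hq : q.Prime) (c : ℝ) : ∃ B : Finset ℕ,
    (∀ p ∈ B, p.Prime ∧ q < p ∧ p ≡ 1 [MOD q]) ∧ c ≤ ∑ p ∈ B, (1 : ℝ) / p := by
  have : NeZero q := ⟨hq.ne_zero⟩
  have h := (not_summable_iff_tendsto_nat_atTop_of_nonneg (fun n => by
    split_ifs <;> positivity)).1 (Pool.Agent.H61.Sieve.not_summable_recip_class (q := q) isUnit_one)
  obtain ⟨n, hn⟩ := (h.eventually (eventually_ge_atTop c)).exists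
  rw [← sum_filter] at hn
  refine ⟨_, fun p hp => ?_, hn⟩
  obtain ⟨_, p1, p2⟩ := mem_filter.1 hp
  have p3 : p ≡ 1 [MOD q] := by rw [← ZMod.natCast_eq_natCast_iff, p2, Nat.cast_one]
  refine ⟨p1, ?_, p3⟩
  have h1 := Nat.le_of_dvd (by have := p1.two_le; omega) ((Nat.modEq_iff_dvd' p1.pos).1 p3.symm)
  have := p1.two_le
  omega

lemma card_le (K q : ℕ) (hq : q.Prime) (hK : 1 ≤ K) (hKq : 2000 * K ≤ q) (B : Finset ℕ)
    (hB : ∀ p ∈ B, p.Prime ∧ q < p) (hH : (1000 * K ^ 2 * q : ℝ) ≤ ∑ p ∈ B, (1 : ℝ) / p) :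
    ∀ᶠ X : ℕ in atTop, ∀ a : ℕ → ℕ, a q = 1 → (∀ p ∈ B, a p = 1) →
      (∀ p, p ≠ q → ¬ p ≡ 1 [MOD q] → a p = 0) → ∀ D : Finset ℕ,
      (∀ n ∈ D, X ≤ n ∧ n < 2 * X ∧ ∀ p, p.Prime → 2 * K * p ≤ X → ¬ n ≡ a p [MOD p]) →
      D.card ≤ (Sp K q X).card := by
  filter_upwards [supply K q hq hK, eventually_ge_atTop ((B.sup id + 3000 * K ^ 2 * q) ^ 10)]
    with X hs hX a h1 h2 h3 D hD
  set y := Nat.nthRoot 10 X
  have y1 : y ^ 10 ≤ X := Nat.pow_nthRoot_le_iff.2 (Or.inl (by norm_num))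
  have y2 : X < (y + 1) ^ 10 := Nat.lt_pow_nthRoot_add_one (by norm_num) X
  have y3 : B.sup id + 3000 * K ^ 2 * q ≤ y :=
    Nat.lt_succ_iff.1 (lt_of_pow_lt_pow_left₀ 10 (Nat.zero_le _) (hX.trans_lt y2))
  have q0 := hq.pos
  have y4 : q ≤ y := by nlinarith [Nat.one_le_pow 2 K hK]
  have y5 : 1 ≤ y := q0.trans_le y4
  have K' : (1 : ℝ) ≤ K := by exact_mod_cast hK
  have q' : (2000 * K : ℝ) ≤ q := by exact_mod_cast hKq
  have y' : (3000 * K ^ 2 * q : ℝ) ≤ y := by exact_mod_cast (Nat.le_add_left _ _).trans y3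
  have y1' : (y : ℝ) ^ 10 ≤ X := by exact_mod_cast y1
  have y5' : (1 : ℝ) ≤ y := by exact_mod_cast y5
  have q0' : (0 : ℝ) < q := by exact_mod_cast q0
  have H0 : 0 < ∑ p ∈ B, (1 : ℝ) / p := lt_of_lt_of_le (by positivity) hH
  have hd := demand K q X y hq hK (by omega) B (fun p hp => ⟨(hB p hp).1, (hB p hp).2,
    (le_sup (f := id) hp).trans ((Nat.le_add_right _ _).trans y3)⟩) H0 y4 (by
      calc 2 * K * (y * y) ≤ y * (y * y) := Nat.mul_le_mul_right _ (by omega)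
        _ = y ^ 3 := by ring
        _ ≤ y ^ 10 := Nat.pow_le_pow_right y5 (by norm_num)
        _ ≤ X := y1) a h1 h2 h3 D hD
  generalize ∑ p ∈ B, (1 : ℝ) / p = H at hd H0 hH
  set l := Real.log (y + 1)
  have l0 : 0 < l := Pool.Agent.H49.WV.log_pos' y y5
  have l1 : l ≤ y := by
    have := Real.log_le_sub_one_of_pos (show (0 : ℝ) < y + 1 by positivity)
    linarith
  have X0 : (0 : ℝ) < X := lt_of_lt_of_le (by positivity) y1'
  have l2 : Real.log X ≤ 10 * l := by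
    have := Real.log_le_log X0 (show (X : ℝ) ≤ (y + 1) ^ 10 by exact_mod_cast y2.le)
    rwa [Real.log_pow] at this
  have e1 : (X : ℝ) / (4 * K * q) ≤ (Sp K q X).card * (10 * l) :=
    hs.trans (mul_le_mul_of_nonneg_left l2 (Nat.cast_nonneg _))
  have e2 : (D.card : ℝ) * (10 * l) ≤ 160 * X / q ^ 2 + 80 * K * X / H
      + (80 + (40 * y ^ 4 + 80 * K * y ^ 8) * l) := by
    refine (mul_le_mul_of_nonneg_right hd (by positivity)).trans_eq ?_
    field_simp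
    ring
  have e3 : 160 * (X : ℝ) / q ^ 2 ≤ X / (12 * K * q) := by
    rw [div_le_div_iff₀ (by positivity) (by positivity)]
    have : 160 * (12 * K * q : ℝ) ≤ q ^ 2 := by nlinarith
    nlinarith
  have e4 : 80 * K * (X : ℝ) / H ≤ X / (12 * K * q) := by
    rw [div_le_div_iff₀ (by positivity) (by positivity)]
    have : 80 * K * (12 * K * q : ℝ) ≤ H := by nlinarith
    nlinarith
  have e5 : (80 + (40 * y ^ 4 + 80 * K * y ^ 8) * l : ℝ) ≤ X / (12 * K * q) := by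
    rw [le_div_iff₀ (by positivity)]
    have a1 : (1 : ℝ) ≤ y ^ 9 := one_le_pow₀ y5'
    have a2 : (y : ℝ) ^ 4 ≤ y ^ 8 := pow_le_pow_right₀ y5' (by norm_num)
    have a3 : (40 * y ^ 4 + 80 * K * y ^ 8 : ℝ) ≤ 120 * K * y ^ 8 := by
      nlinarith [pow_pos (show (0 : ℝ) < y by linarith) 8]
    have a4 : (40 * y ^ 4 + 80 * K * y ^ 8 : ℝ) * l ≤ 120 * K * y ^ 8 * y :=
      mul_le_mul a3 l1 l0.le (by positivity)
    have a5 : (80 + (40 * y ^ 4 + 80 * K * y ^ 8) * l : ℝ) ≤ 200 * K * y ^ 9 := by nlinarith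
    calc _ ≤ (200 * K * y ^ 9 : ℝ) * (12 * K * q) := mul_le_mul_of_nonneg_right a5 (by positivity)
      _ = y ^ 9 * (2400 * K ^ 2 * q) := by ring
      _ ≤ y ^ 9 * y := mul_le_mul_of_nonneg_left (by nlinarith) (by positivity)
      _ ≤ X := by rwa [← pow_succ]
  have e6 : (X : ℝ) / (4 * K * q) = 3 * (X / (12 * K * q)) := by field_simp; ring
  have e7 : (D.card : ℝ) * (10 * l) ≤ (Sp K q X).card * (10 * l) := by linarith
  exact_mod_cast le_of_mul_le_mul_right e7 (by positivity)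

theorem cover (K : ℕ) (hK : 1 ≤ K) : ∃ a : ℕ → ℕ, (∀ p : ℕ, p.Prime → a p < p) ∧
    ∃ N : ℕ, ∀ n : ℕ, N ≤ n → ∃ p : ℕ, p.Prime ∧ K * p ≤ n ∧ n ≡ a p [MOD p] := by
  classical
  obtain ⟨q, hKq, hq⟩ := Nat.exists_infinite_primes (2000 * K)
  obtain ⟨B, hB, hH⟩ := exists_B q hq (1000 * K ^ 2 * q)
  obtain ⟨X0, hX0⟩ := eventually_atTop.1 ((card_le K q hq hK hKq B
    (fun p hp => ⟨(hB p hp).1, (hB p hp).2.1⟩) hH).and
    (eventually_ge_atTop (2 * K * B.sup id + 1)))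
  let Inv : (ℕ → ℕ) → Prop := fun a => a q = 1 ∧ (∀ p ∈ B, a p = 1) ∧
    (∀ p, p ≠ q → ¬ p ≡ 1 [MOD q] → a p = 0) ∧ ∀ p, p.Prime → a p < p
  have step : ∀ X, X0 ≤ X → ∀ a, Inv a → ∃ a', Inv a' ∧ (∀ p, 2 * K * p ≤ X → a' p = a p) ∧
      ∀ n, X ≤ n → n < 2 * X → ∃ p, p.Prime ∧ K * p ≤ X ∧ n ≡ a' p [MOD p] := by
    rintro X hX a ⟨i1, i2, i3, i4⟩
    obtain ⟨h1, h2⟩ := hX0 X hX
    let D := (Ico X (2 * X)).filter (fun n => ∀ p, p.Prime → 2 * K * p ≤ X → ¬ n ≡ a p [MOD p])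
    obtain ⟨φ⟩ : Nonempty (D ↪ Sp K q X) := Function.Embedding.nonempty_of_card_le (by
      rw [Fintype.card_coe, Fintype.card_coe]
      exact h1 a i1 i2 i3 D (fun n hn => ⟨(mem_Ico.1 (mem_filter.1 hn).1).1,
        (mem_Ico.1 (mem_filter.1 hn).1).2, (mem_filter.1 hn).2⟩))
    let a' : ℕ → ℕ := fun p => if h : ∃ n : D, (φ n : ℕ) = p then (h.choose : ℕ) % p else a p
    have k1 : ∀ p, p ∉ Sp K q X → a' p = a p := fun p hp =>
      dif_neg (fun ⟨n, hn⟩ => hp (hn ▸ (φ n).2))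
    have k2 : ∀ p, 2 * K * p ≤ X → a' p = a p := fun p hp => k1 p (fun h => by
      have := (mem_filter.1 h).2.2.2.1
      omega)
    refine ⟨a', ⟨?_, fun p hp => ?_, fun p p1 p2 => ?_, fun p hp => ?_⟩, k2, fun n n1 n2 => ?_⟩
    · rw [k1 q (fun h => ?_), i1]
      have := (Nat.modEq_zero_iff_dvd.2 dvd_rfl).symm.trans (mem_filter.1 h).2.2.1
      exact hq.one_lt.ne' (Nat.dvd_one.1 (Nat.modEq_zero_iff_dvd.1 this.symm))
    · rw [k2 p, i2 p hp]
      have := Nat.mul_le_mul_left (2 * K) (le_sup (f := id) hp)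
      simp only [id] at this
      omega
    · rw [k1 p (fun h => p2 (mem_filter.1 h).2.2.1), i3 p p1 p2]
    · simp only [a']
      split_ifs
      · exact Nat.mod_lt _ hp.pos
      · exact i4 p hp
    · by_cases hn : n ∈ D
      · have h3 : ∃ m : D, (φ m : ℕ) = φ ⟨n, hn⟩ := ⟨_, rfl⟩
        have h4 := (mem_filter.1 (φ ⟨n, hn⟩).2).2
        refine ⟨φ ⟨n, hn⟩, h4.1, h4.2.2.2, ?_⟩
        simp only [a', dif_pos h3]
        rw [φ.injective (Subtype.ext h3.choose_spec)]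
        exact (Nat.mod_modEq _ _).symm
      · simp only [D, mem_filter, mem_Ico, n1, n2, true_and, not_forall, not_not] at hn
        obtain ⟨p, p1, p2, p3⟩ := hn
        exact ⟨p, p1, by nlinarith, k2 p p2 ▸ p3⟩
  choose! F F1 F2 F3 using step
  let X : ℕ → ℕ := fun j => (X0 + 1) * 2 ^ j
  have hX : ∀ j, X0 ≤ X j := fun j => by
    have := Nat.one_le_two_pow (n := j)
    simp only [X]
    nlinarith
  let A : ℕ → ℕ → ℕ := fun j => Nat.rec (fun p => if p = q ∨ p ∈ B then 1 else 0)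
    (fun j a => F (X j) a) j
  have A1 : ∀ j, Inv (A j) := by
    intro j
    induction j with
    | zero =>
      refine ⟨if_pos (Or.inl rfl), fun p hp => if_pos (Or.inr hp), fun p p1 p2 => if_neg ?_,
        fun p hp => ?_⟩
      · rintro (h | h)
        · exact p1 h
        · exact p2 (hB p h).2.2
      · show (if p = q ∨ p ∈ B then 1 else 0) < p
        have := hp.one_lt
        split_ifs <;> omega
    | succ j ih => exact F1 _ (hX j) _ ih
  have A2 : ∀ j p, 2 * K * p ≤ X j → ∀ i, j ≤ i → A i p = A j p := by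
    intro j p hp i hi
    induction i, hi using Nat.le_induction with
    | base => rfl
    | succ i hi ih =>
      rw [← ih]
      exact F2 _ (hX i) _ (A1 i) p (hp.trans (Nat.mul_le_mul_left _
        (Nat.pow_le_pow_right (by norm_num) hi)))
  have A3 : ∀ p, 2 * K * p ≤ X (2 * K * p) := fun p => by
    exact (Nat.lt_two_pow_self (n := 2 * K * p)).le.trans (Nat.le_mul_of_pos_left _ (Nat.succ_pos _))
  refine ⟨fun p => A (2 * K * p) p, fun p hp => (A1 _).2.2.2 p hp, X0 + 1, fun n hn => ?_⟩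
  have h1 : n / (X0 + 1) ≠ 0 := (Nat.div_pos hn (Nat.succ_pos _)).ne'
  set j := Nat.log 2 (n / (X0 + 1))
  have h2 : X j ≤ n := (Nat.mul_le_mul_left _ (Nat.pow_log_le_self 2 h1)).trans (Nat.mul_div_le _ _)
  have h3 : n < 2 * X j := by
    have := (Nat.div_lt_iff_lt_mul (Nat.succ_pos X0)).1
      (Nat.lt_pow_succ_log_self (b := 2) (by norm_num) (n / (X0 + 1)))
    simp only [X]
    rw [pow_succ] at this
    nlinarith
  obtain ⟨p, p1, p2, p3⟩ := F3 _ (hX j) _ (A1 j) n h2 h3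
  refine ⟨p, p1, p2.trans h2, ?_⟩
  have h4 : 2 * K * p ≤ X (j + 1) := by
    simp only [X] at p2 ⊢
    rw [pow_succ]
    nlinarith
  beta_reduce
  rw [← A2 _ p (A3 p) _ (le_max_left _ (j + 1)), A2 _ p h4 _ (le_max_right _ _)]
  exact p3

end Pool.Agent.H74.Cov
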