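import Pool.Agent.H74.Cubes

set_option autoImplicit false

namespace Pool.Agent.H74.Cubes

variable {G : Type} [Group G]

/-- Congruence modulo `H` on the right. -/
def Eqv (H : Subgroup G) (x y : G) : Prop := x⁻¹ * y ∈ H

lemma Eqv.refl (H : Subgroup G) (x : G) : Eqv H x x := by simp [Eqv]

lemma Eqv.symm {H : Subgroup G} {x y : G} (h : Eqv H x y) : Eqv H y x := by
  have := inv_mem h; simpa [Eqv] using this

lemma Eqv.trans {H : Subgroup G} {x y z : G} (h : Eqv H x y) (h' : Eqv H y z) : Eqv H x z := by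
  have := mul_mem h h'
  unfold Eqv; convert this using 1; group

lemma Eqv.left {H : Subgroup G} {x y : G} (h : Eqv H x y) (g : G) : Eqv H (g * x) (g * y) := by
  unfold Eqv at *; convert h using 1; group

lemma Eqv.mono {H H' : Subgroup G} (hH : H ≤ H') {x y : G} (h : Eqv H x y) : Eqv H' x y := hH h

def Cub (Γ : Filt G) (H : Subgroup G) (n : ℕ) (f : V n → G) : Prop :=
  ∃ p ∈ (P Γ n).s 0, ∀ s, Eqv H (p s) (f s)

def Closed (L R : G → G) (Γ : Filt G) (H : Subgroup G) : Prop :=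
  ∀ n, ∀ g ∈ (P Γ n).s 0, ∀ h ∈ (P Γ n).s 0,
    Cub Γ H n (fun s => L (g s) * h s) ∧ Cub Γ H n (fun s => (L (g s))⁻¹ * h s) ∧
      Cub Γ H n (fun s => (R (g s))⁻¹ * h s)

structure Good (K : ℕ → Subgroup G) (c w : ℕ) (Γ : Filt G) : Prop where
  one : Γ.s 1 = ⊤
  ge : ∀ m, K c ≤ Γ.s m
  eq : ∀ m, w < m → Γ.s m ≤ K c

structure Series (K : ℕ → Subgroup G) : Prop where
  zero : K 0 = ⊤
  normal : ∀ a, (K a).Normal
  anti : ∀ a, K (a + 1) ≤ K a
  comm : ∀ a, ∀ x ∈ K a, ∀ y, x * y * x⁻¹ * y⁻¹ ∈ K (a + 1)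

def trunc {K : ℕ → Subgroup G} (hK : Series K) {c w : ℕ} {Γ : Filt G} (hΓ : Good K c w Γ)
    (t : ℕ) (ht : 2 * w ≤ t) : Filt G where
  s m := if m ≤ t then Γ.s m else K (c + 1)
  anti m := by
    split_ifs with h1 h2 h2
    · exact Γ.anti m
    · omega
    · exact (hK.anti c).trans (hΓ.ge m)
    · exact le_rfl
  comm k l a ha b hb := by
    have le1 : ∀ m, (if m ≤ t then Γ.s m else K (c + 1)) ≤ Γ.s m := fun m => by
      split_ifs
      · exact le_rfl
      · exact (hK.anti c).trans (hΓ.ge m)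
    by_cases h : k + l ≤ t
    · rw [if_pos h]
      exact Γ.comm k l a (le1 k ha) b (le1 l hb)
    · rw [if_neg h]
      by_cases hk : w < k
      · exact hK.comm c a (hΓ.eq k hk (le1 k ha)) b
      · have := inv_mem (hK.comm c b (hΓ.eq l (by omega) (le1 l hb)) a)
        convert this using 1; group

def supK (H N : Subgroup G) [N.Normal] : Subgroup G where
  carrier := {x | ∃ k ∈ N, k⁻¹ * x ∈ H}
  mul_mem' := by
    rintro x y ⟨k, hk, h⟩ ⟨k', hk', h'⟩
    refine ⟨k * ((k⁻¹ * x) * k' * (k⁻¹ * x)⁻¹), mul_mem hk (‹N.Normal›.conj_mem _ hk' _), ?_⟩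
    convert mul_mem h h' using 1; group
  one_mem' := ⟨1, one_mem _, by simp⟩
  inv_mem' := by
    rintro x ⟨k, hk, h⟩
    refine ⟨(k⁻¹ * x)⁻¹ * k⁻¹ * (k⁻¹ * x)⁻¹⁻¹, ‹N.Normal›.conj_mem _ (inv_mem hk) _, ?_⟩
    convert inv_mem h using 1; group

section step

variable {K : ℕ → Subgroup G} (hK : Series K) {c : ℕ} {H : Subgroup G} (hH : K (c + 1) ≤ H)
include hK hH

lemma central {k : G} (hk : k ∈ K c) (x : G) : Eqv H (x * k) (k * x) := by
  apply hH
  have := hK.comm c _ (inv_mem hk) x⁻¹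
  convert this using 1; group

lemma right_mul {x y k : G} (h : Eqv H x y) (hk : k ∈ K c) : Eqv H (x * k) (y * k) :=
  (central hK hH hk x).trans ((h.left k).trans (central hK hH hk y).symm)

lemma div_step {Γ : Filt G} {n : ℕ} (X r' q h : V n → G) [(K c).Normal]
    (hr : r' ∈ (P Γ n).s 0) (hq : q ∈ (P Γ n).s 0) (hh : h ∈ (P Γ n).s 0)
    (e1 : ∀ s, Eqv (supK H (K c)) (r' s) ((X s)⁻¹ * h s)) (e2 : ∀ s, Eqv H (q s) (X s * r' s)) :
    Cub Γ H n (fun s => (X s)⁻¹ * h s) := by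
  refine ⟨r' * q⁻¹ * h, mul_mem (mul_mem hr (inv_mem hq)) hh, fun s => ?_⟩
  obtain ⟨k, hk, e⟩ := e1 s
  have a1 : Eqv H (r' s * k) ((X s)⁻¹ * h s) := by
    unfold Eqv; convert e using 1; group
  have a2 : Eqv H (X s * r' s * k) (h s) := by
    have := a1.left (X s); simpa [mul_assoc] using this
  have a3 : Eqv H (q s * k) (h s) := (right_mul hK hH (e2 s) hk).trans a2
  have a4 := (a3.left (r' s * (q s)⁻¹)).symm
  have a5 : r' s * (q s)⁻¹ * (q s * k) = r' s * k := by group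
  rw [a5] at a4
  exact a4.trans a1

end step

theorem step (L R : G → G) {K : ℕ → Subgroup G} (hK : Series K) {c w : ℕ} (hw : 1 ≤ w)
    {Γ : Filt G} (hΓ : Good K c w Γ)
    (ih : ∀ H : Subgroup G, K c ≤ H → (∀ g h, Eqv H (L g * h) (R h * g)) → Closed L R Γ H)
    (H : Subgroup G) (hH : K (c + 1) ≤ H) (hLR : ∀ g h, Eqv H (L g * h) (R h * g)) :
    Closed L R (trunc hK hΓ (4 * w) (by omega)) H := by
  have := hK.normal c
  set Γn := trunc hK hΓ (4 * w) (by omega) with hΓn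
  set Γp := trunc hK hΓ (2 * w) le_rfl with hΓp
  set H' := supK H (K c) with hH'
  have KH' : K c ≤ H' := fun k hk => ⟨k, hk, by simp⟩
  have HH' : H ≤ H' := fun x hx => ⟨1, one_mem _, by simpa using hx⟩
  have hc := ih H' KH' (fun g h => (hLR g h).mono HH')
  have pn : ∀ m, Γp.s m ≤ Γn.s m := fun m => by
    simp only [hΓp, hΓn, trunc]
    split_ifs
    · exact le_rfl
    · omega
    · exact (hK.anti c).trans (hΓ.ge m)
    · exact le_rfl
  have nΓ : ∀ m, Γn.s m ≤ Γ.s m := fun m => by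
    simp only [hΓn, trunc]
    split_ifs
    · exact le_rfl
    · exact (hK.anti c).trans (hΓ.ge m)
  have modK : ∀ m, ∀ b ∈ Γ.s m, ∃ a ∈ Γp.s m, a⁻¹ * b ∈ K c := fun m b hb => by
    by_cases h : m ≤ 2 * w
    · exact ⟨b, by simpa [hΓp, trunc, h] using hb, by simp⟩
    · exact ⟨1, one_mem _, by simpa using hΓ.eq m (by omega) hb⟩
  have p0 : ∀ x, x ∈ Γp.s 0 := fun x => by
    have : Γ.s 0 = ⊤ := top_le_iff.1 (hΓ.one ▸ Γ.anti 0)
    simp [hΓp, trunc, this]
  -- the abelian layer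
  have nH : (H.subgroupOf H').Normal := ⟨by
    rintro ⟨h, hh'⟩ hh ⟨x, k, hk, e⟩
    rw [Subgroup.mem_subgroupOf] at hh ⊢
    have a1 : (k⁻¹ * x) * h * (k⁻¹ * x)⁻¹ ∈ H := mul_mem (mul_mem e hh) (inv_mem e)
    have a2 := hH (hK.comm c k hk ((k⁻¹ * x) * h * (k⁻¹ * x)⁻¹))
    have := mul_mem a2 a1
    convert this using 1
    simp only [Subgroup.coe_mul, Subgroup.coe_inv]; group⟩
  let A := H' ⧸ H.subgroupOf H'
  let π : H' →* A := QuotientGroup.mk' _
  have πeq : ∀ x y : H', π x = π y ↔ Eqv H x y := fun x y => by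
    exact (QuotientGroup.eq (s := H.subgroupOf H') (a := x) (b := y)).trans Iff.rfl
  have πsurj : ∀ a : A, ∃ k, ∃ hk : k ∈ K c, π ⟨k, KH' hk⟩ = a := fun a => by
    obtain ⟨⟨x, k, hk, e⟩, rfl⟩ := QuotientGroup.mk'_surjective _ a
    exact ⟨k, hk, (πeq _ _).2 e⟩
  let cg : CommGroup A := { (inferInstance : Group A) with
    mul_comm := fun a b => by
      obtain ⟨k, hk, rfl⟩ := πsurj a
      obtain ⟨k', hk', rfl⟩ := πsurj b
      rw [← map_mul, ← map_mul, πeq]
      exact central hK hH hk' k }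
  have T1 : ∀ n (b : V n → H'), (fun s => (b s : G)) ∈ (P Γp n).s 0 →
      (fun s => π (b s)) ∈ (P (Λ A (2 * w)) n).s 0 := fun n b hb => by
    refine map_mem (Γp.comap H'.subtype) _ π (fun m a ha => ?_) n 0 b (comap_mem Γp H'.subtype n 0 b hb)
    simp only [Λ]
    split_ifs with h
    · trivial
    · rw [Subgroup.mem_bot, ← map_one π, eq_comm, πeq]
      have : (a : G) ∈ K (c + 1) := by
        simpa [hΓp, trunc, h, Filt.comap, Subgroup.mem_subgroupOf] using ha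
      simpa [Eqv] using hH this
  have T2 : ∀ n (a : V n → A), a ∈ (P (Λ A (2 * w + 2 * w)) n).s 0 →
      ∃ p : V n → H', (fun s => (p s : G)) ∈ (P Γn n).s 0 ∧ ∀ s, π (p s) = a s := fun n a ha => by
    obtain ⟨p, hp, e⟩ := lift_mem (Γn.comap H'.subtype) _ π (fun m b hb => by
      simp only [Λ] at hb
      split_ifs at hb with h
      · obtain ⟨k, hk, rfl⟩ := πsurj b
        refine ⟨_, ?_, rfl⟩
        have h' : m ≤ 4 * w := by omega
        simpa [hΓn, trunc, h', Filt.comap, Subgroup.mem_subgroupOf] using hΓ.ge m hk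
      · rw [Subgroup.mem_bot] at hb
        exact ⟨1, one_mem _, by rw [hb, map_one]⟩) n 0 a ha
    exact ⟨p, map_mem _ Γn H'.subtype (fun m x hx => hx) n 0 p hp, e⟩
  have core : ∀ n, ∀ g ∈ (P Γp n).s 0, ∀ h ∈ (P Γp n).s 0, Cub Γn H n (fun s => L (g s) * h s) := by
    intro n g hg h hh
    have hg2 := pull_mem Γp (n + n) n 0 (fun u i => u (Fin.castAdd n i))
      (fun i => Or.inr ⟨_, fun _ => rfl⟩) g hg
    have hh2 := pull_mem Γp (n + n) n 0 (fun u i => u (Fin.natAdd n i))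
      (fun i => Or.inr ⟨_, fun _ => rfl⟩) h hh
    obtain ⟨u0, hu0, e0⟩ := (hc (n + n) _ (le_mem _ _ (fun m => (pn m).trans (nΓ m)) _ _ _ hg2) _
      (le_mem _ _ (fun m => (pn m).trans (nΓ m)) _ _ _ hh2)).1
    obtain ⟨u, hu, e1⟩ := mod_normal Γ Γp (K c) modK _ _ _ hu0
    have e2 : ∀ s t : V n, Eqv H' (u (Fin.append s t)) (L (g s) * h t) := fun s t => by
      have := (Eqv.mono KH' (e1 (Fin.append s t))).trans (e0 (Fin.append s t))
      simpa only [Fin.append_left, Fin.append_right] using this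
    have e3 : ∀ s t : V n, Eqv H' (u (Fin.append s t)) (R (h t) * g s) := fun s t =>
      (e2 s t).trans ((hLR _ _).mono HH')
    let b : V n → V n → H' := fun s t => ⟨_, e2 s t⟩
    let b' : V n → V n → H' := fun s t => ⟨_, e3 s t⟩
    have bb : ∀ s t, π (b s t) = π (b' s t) := fun s t => (πeq _ _).2 ((hLR _ _).left _)
    have s1 : ∀ s, (fun t => π (b s t)) ∈ (P (Λ A (2 * w)) n).s 0 := fun s => by
      apply T1
      have a1 := pull_mem Γp n (n + n) 0 (fun t => Fin.append s t) (fun i => by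
        refine Fin.addCases (fun j => Or.inl ⟨s j, fun t => by simp only [Fin.append_left]⟩)
          (fun j => Or.inr ⟨j, fun t => by simp only [Fin.append_left, Fin.append_right]⟩) i) u hu
      exact mul_mem (inv_mem a1) (mul_mem (const_mem Γp n 0 (L (g s)) (p0 _)) hh)
    have s2 : ∀ t, (fun s => π (b s t)) ∈ (P (Λ A (2 * w)) n).s 0 := fun t => by
      simp only [bb]
      apply T1
      have a1 := pull_mem Γp n (n + n) 0 (fun s => Fin.append s t) (fun i => by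
        refine Fin.addCases (fun j => Or.inr ⟨j, fun t => by simp only [Fin.append_left, Fin.append_right]⟩)
          (fun j => Or.inl ⟨t j, fun t => by simp only [Fin.append_left, Fin.append_right]⟩) i) u hu
      exact mul_mem (inv_mem a1) (mul_mem (const_mem Γp n 0 (R (h t)) (p0 _)) hg)
    obtain ⟨p, hp, e4⟩ := T2 n _ (sep (2 * w) (2 * w) n 0 0 (fun s t => π (b s t)) s2 s1)
    have a1 := pull_mem Γp n (n + n) 0 (fun s => Fin.append s s) (fun i => by
      refine Fin.addCases (fun j => Or.inr ⟨j, fun t => by simp only [Fin.append_left, Fin.append_right]⟩)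
        (fun j => Or.inr ⟨j, fun t => by simp only [Fin.append_left, Fin.append_right]⟩) i) u hu
    refine ⟨_, mul_mem (le_mem _ _ pn _ _ _ a1) hp, fun s => ?_⟩
    have := ((πeq _ _).1 (e4 s)).left (u (Fin.append s s))
    simpa [b] using this
  have M : ∀ n, ∀ g ∈ (P Γn n).s 0, ∀ h ∈ (P Γn n).s 0, Cub Γn H n (fun s => L (g s) * h s) := by
    intro n g hg h hh
    obtain ⟨g', hg', eg⟩ := mod_normal Γ Γp (K c) modK _ _ _ (le_mem _ _ nΓ _ _ _ hg)
    obtain ⟨h', hh', eh⟩ := mod_normal Γ Γp (K c) modK _ _ _ (le_mem _ _ nΓ _ _ _ hh)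
    obtain ⟨q, hq, e⟩ := core n g' hg' h' hh'
    refine ⟨q * (g'⁻¹ * g) * (h'⁻¹ * h), mul_mem (mul_mem hq (mul_mem (inv_mem
      (le_mem _ _ pn _ _ _ hg')) hg)) (mul_mem (inv_mem (le_mem _ _ pn _ _ _ hh')) hh), fun s => ?_⟩
    have a1 := right_mul hK hH ((e s).trans (hLR _ _)) (eg s)
    have a2 : R (h' s) * g' s * ((g' s)⁻¹ * g s) = R (h' s) * g s := by group
    rw [a2] at a1
    have a3 := right_mul hK hH (a1.trans (hLR _ _).symm) (eh s)
    have a4 : L (g s) * h' s * ((h' s)⁻¹ * h s) = L (g s) * h s := by group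
    rw [a4] at a3
    exact a3
  intro n g hg h hh
  obtain ⟨-, ⟨r1, hr1, e1⟩, ⟨r2, hr2, e2⟩⟩ :=
    hc n g (le_mem _ _ nΓ _ _ _ hg) h (le_mem _ _ nΓ _ _ _ hh)
  obtain ⟨r1', hr1', e1'⟩ := mod_normal Γ Γp (K c) modK _ _ _ hr1
  obtain ⟨r2', hr2', e2'⟩ := mod_normal Γ Γp (K c) modK _ _ _ hr2
  refine ⟨M n g hg h hh, ?_, ?_⟩
  · obtain ⟨q, hq, e⟩ := M n g hg r1' (le_mem _ _ pn _ _ _ hr1')
    exact div_step hK hH _ r1' q h (le_mem _ _ pn _ _ _ hr1') hq hh
      (fun s => (Eqv.mono KH' (e1' s)).trans (e1 s)) e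
  · obtain ⟨q, hq, e⟩ := M n r2' (le_mem _ _ pn _ _ _ hr2') g hg
    exact div_step hK hH _ r2' q h (le_mem _ _ pn _ _ _ hr2') hq hh
      (fun s => (Eqv.mono KH' (e2' s)).trans (e2 s)) (fun s => (e s).trans (hLR _ _))

theorem exists_good (L R : G → G) {K : ℕ → Subgroup G} (hK : Series K) (c : ℕ) :
    ∃ Γ : Filt G, Good K c (4 ^ c) Γ ∧
      ∀ H : Subgroup G, K c ≤ H → (∀ g h, Eqv H (L g * h) (R h * g)) → Closed L R Γ H := by
  induction c with
  | zero =>
    refine ⟨⟨fun _ => ⊤, fun _ => le_rfl, fun _ _ _ _ _ _ => trivial⟩,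
      ⟨rfl, fun _ => le_top, fun _ _ => by rw [hK.zero]⟩, fun H hH _ n g _ h _ => ?_⟩
    rw [hK.zero] at hH
    exact ⟨⟨1, one_mem _, fun s => hH trivial⟩, ⟨1, one_mem _, fun s => hH trivial⟩,
      ⟨1, one_mem _, fun s => hH trivial⟩⟩
  | succ c ih =>
    obtain ⟨Γ, hΓ, ih⟩ := ih
    have hw : 1 ≤ 4 ^ c := Nat.one_le_pow _ _ (by norm_num)
    refine ⟨trunc hK hΓ (4 * 4 ^ c) (by omega), ⟨?_, fun m => ?_, fun m hm => ?_⟩,
      step L R hK hw hΓ ih⟩
    · simp only [trunc]; rw [if_pos (by omega)]; exact hΓ.one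
    · simp only [trunc]
      split_ifs
      · exact (hK.anti c).trans (hΓ.ge m)
      · exact le_rfl
    · simp only [trunc]; rw [if_neg (by rw [pow_succ] at hm; omega)]

end Pool.Agent.H74.Cubes
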