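import Mathlib

set_option autoImplicit false

namespace Pool.Agent.H74.Cubes

/-- A filtration of a group. -/
structure Filt (G : Type) [Group G] where
  s : ℕ → Subgroup G
  anti : ∀ k, s (k + 1) ≤ s k
  comm : ∀ k l, ∀ a ∈ s k, ∀ b ∈ s l, a * b * a⁻¹ * b⁻¹ ∈ s (k + l)

variable {G G' : Type} [Group G] [Group G']

lemma Filt.mono (Γ : Filt G) {k l : ℕ} (h : k ≤ l) : Γ.s l ≤ Γ.s k :=
  antitone_nat_of_succ_le Γ.anti h

lemma Filt.conj (Γ : Filt G) {k l : ℕ} {a b : G} (ha : a ∈ Γ.s k) (hb : b ∈ Γ.s l) :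
    a * b * a⁻¹ ∈ Γ.s l := by
  have h := Γ.mono (Nat.le_add_left l k) (Γ.comm k l a ha b hb)
  have := mul_mem h hb
  simpa using this

def Filt.comap (Γ : Filt G') (φ : G →* G') : Filt G where
  s k := (Γ.s k).comap φ
  anti k := Subgroup.comap_mono (Γ.anti k)
  comm k l a ha b hb := by
    simp only [Subgroup.mem_comap, map_mul, map_inv] at *
    exact Γ.comm k l _ ha _ hb

def Filt.edge (Γ : Filt G) : Filt (G × G) where
  s k :=
    { carrier := {x | x.1 ∈ Γ.s k ∧ x.1⁻¹ * x.2 ∈ Γ.s (k + 1)}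
      mul_mem' := by
        rintro ⟨a, b⟩ ⟨c, d⟩ ⟨h1, h2⟩ ⟨h3, h4⟩
        refine ⟨mul_mem h1 h3, ?_⟩
        have := mul_mem (Γ.conj (inv_mem h3) h2) h4
        convert this using 1
        simp only [Prod.fst_mul, Prod.snd_mul]; group
      one_mem' := ⟨one_mem _, by simp⟩
      inv_mem' := by
        rintro ⟨a, b⟩ ⟨h1, h2⟩
        refine ⟨inv_mem h1, ?_⟩
        have := Γ.conj h1 (inv_mem h2)
        convert this using 1
        simp only [Prod.fst_inv, Prod.snd_inv]; group }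
  anti k := by
    rintro ⟨a, b⟩ ⟨h1, h2⟩
    exact ⟨Γ.anti k h1, Γ.anti _ h2⟩
  comm k l := by
    rintro ⟨a, b⟩ ⟨h1, h2⟩ ⟨c, d⟩ ⟨h3, h4⟩
    have h0 := Γ.comm k l a h1 c h3
    refine ⟨h0, ?_⟩
    have hd : d ∈ Γ.s l := by
      have := mul_mem h3 (Γ.anti l h4); simpa using this
    have e1 := Γ.comm _ _ _ h2 _ hd
    have e2 := Γ.comm _ _ _ h1 _ h4
    rw [show k + 1 + l = k + l + 1 by ring] at e1
    have e3 := Γ.conj (inv_mem h0) (Γ.conj h1 e1)
    have e4 := Γ.conj h3 e2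
    have := mul_mem e3 e4
    convert this using 1
    simp only [Prod.fst_mul, Prod.snd_mul, Prod.fst_inv, Prod.snd_inv]; group

abbrev V (n : ℕ) : Type := Fin n → Bool

def split (n : ℕ) : (V (n + 1) → G) →* (V n → G) × (V n → G) where
  toFun f := (fun s => f (Fin.cons false s), fun s => f (Fin.cons true s))
  map_one' := rfl
  map_mul' _ _ := rfl

/-- The Host-Kra type cube groups of a filtration. -/
def P (Γ : Filt G) : (n : ℕ) → Filt (V n → G)
  | 0 => Γ.comap (Pi.evalMonoidHom (fun _ => G) ![])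
  | n + 1 => (P Γ n).edge.comap (split n)

lemma mem_zero {Γ : Filt G} {k : ℕ} {f : V 0 → G} : f ∈ (P Γ 0).s k ↔ f ![] ∈ Γ.s k := Iff.rfl

lemma mem_succ {Γ : Filt G} {n k : ℕ} {f : V (n + 1) → G} : f ∈ (P Γ (n + 1)).s k ↔
    (fun s => f (Fin.cons false s)) ∈ (P Γ n).s k ∧
      (fun s => (f (Fin.cons false s))⁻¹ * f (Fin.cons true s)) ∈ (P Γ n).s (k + 1) := Iff.rfl

lemma face_true {Γ : Filt G} {n k : ℕ} {f : V (n + 1) → G} (h : f ∈ (P Γ (n + 1)).s k) :
    (fun s => f (Fin.cons true s)) ∈ (P Γ n).s k := by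
  have := mul_mem (mem_succ.1 h).1 ((P Γ n).anti k (mem_succ.1 h).2)
  convert this using 1
  funext s; simp

lemma const_mem (Γ : Filt G) (n : ℕ) : ∀ k (a : G), a ∈ Γ.s k → (fun _ => a) ∈ (P Γ n).s k := by
  induction n with
  | zero => intro k a h; exact h
  | succ n ih =>
    intro k a h
    refine mem_succ.2 ⟨ih k a h, ?_⟩
    simp only [inv_mul_cancel]
    exact one_mem _

lemma map_mem (Γ : Filt G) (Γ' : Filt G') (φ : G →* G') (h : ∀ k, ∀ a ∈ Γ.s k, φ a ∈ Γ'.s k)
    (n : ℕ) : ∀ k (f : V n → G), f ∈ (P Γ n).s k → (fun s => φ (f s)) ∈ (P Γ' n).s k := by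
  induction n with
  | zero => intro k f hf; exact h k _ hf
  | succ n ih =>
    intro k f hf
    refine mem_succ.2 ⟨ih k _ (mem_succ.1 hf).1, ?_⟩
    have := ih _ _ (mem_succ.1 hf).2
    simpa using this

lemma comap_mem (Γ' : Filt G') (φ : G →* G') (n : ℕ) :
    ∀ k (f : V n → G), (fun s => φ (f s)) ∈ (P Γ' n).s k → f ∈ (P (Γ'.comap φ) n).s k := by
  induction n with
  | zero => intro k f hf; exact hf
  | succ n ih =>
    intro k f hf
    refine mem_succ.2 ⟨ih k _ (mem_succ.1 hf).1, ih _ _ ?_⟩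
    have := (mem_succ.1 hf).2
    simpa using this

def glue {n : ℕ} {X : Type} (f g : V n → X) : V (n + 1) → X :=
  fun s => if s 0 then g (Fin.tail s) else f (Fin.tail s)

@[simp] lemma glue_false {n : ℕ} {X : Type} (f g : V n → X) (s : V n) :
    glue f g (Fin.cons false s) = f s := by simp [glue]

@[simp] lemma glue_true {n : ℕ} {X : Type} (f g : V n → X) (s : V n) :
    glue f g (Fin.cons true s) = g s := by simp [glue]

lemma cases_V {n : ℕ} (s : V (n + 1)) :
    ∃ t : V n, s = Fin.cons false t ∨ s = Fin.cons true t := by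
  refine ⟨Fin.tail s, ?_⟩
  cases h : s 0
  · left; rw [← h, Fin.cons_self_tail]
  · right; rw [← h, Fin.cons_self_tail]

lemma lift_mem (Γ : Filt G) (Γ' : Filt G') (φ : G →* G')
    (h : ∀ k, ∀ b ∈ Γ'.s k, ∃ a ∈ Γ.s k, φ a = b) (n : ℕ) :
    ∀ k (f : V n → G'), f ∈ (P Γ' n).s k → ∃ p ∈ (P Γ n).s k, ∀ s, φ (p s) = f s := by
  induction n with
  | zero =>
    intro k f hf
    obtain ⟨a, ha, e⟩ := h k _ hf
    exact ⟨fun _ => a, ha, fun s => by rw [e, Subsingleton.elim s ![]]; rfl⟩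
  | succ n ih =>
    intro k f hf
    obtain ⟨p, hp, e⟩ := ih k _ (mem_succ.1 hf).1
    obtain ⟨d, hd, e'⟩ := ih _ _ (mem_succ.1 hf).2
    refine ⟨glue p (p * d), mem_succ.2 ⟨by simpa using hp, by simpa using hd⟩, fun s => ?_⟩
    obtain ⟨t, rfl | rfl⟩ := cases_V s
    · simp [e]
    · simp [e, e']

/-- Passing to a smaller filtration modulo a normal subgroup. -/
lemma mod_normal (Γ Γ' : Filt G) (N : Subgroup G) [N.Normal]
    (h : ∀ k, ∀ b ∈ Γ.s k, ∃ a ∈ Γ'.s k, a⁻¹ * b ∈ N) (n k : ℕ) (f : V n → G)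
    (hf : f ∈ (P Γ n).s k) : ∃ p ∈ (P Γ' n).s k, ∀ s, (p s)⁻¹ * f s ∈ N := by
  let Δ : Filt (G ⧸ N) :=
    { s := fun k => (Γ.s k).map (QuotientGroup.mk' N)
      anti := fun k => Subgroup.map_mono (Γ.anti k)
      comm := by
        rintro k l _ ⟨a, ha, rfl⟩ _ ⟨b, hb, rfl⟩
        exact ⟨_, Γ.comm k l a ha b hb, by simp⟩ }
  have h1 := map_mem Γ Δ (QuotientGroup.mk' N) (fun k a ha => ⟨a, ha, rfl⟩) n k f hf
  obtain ⟨p, hp, e⟩ := lift_mem Γ' Δ (QuotientGroup.mk' N) (by
    rintro k _ ⟨b, hb, rfl⟩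
    obtain ⟨a, ha, e⟩ := h k b hb
    exact ⟨a, ha, QuotientGroup.eq.2 e⟩) n k _ h1
  exact ⟨p, hp, fun s => QuotientGroup.eq.1 (e s)⟩

lemma le_mem (Γ Γ' : Filt G) (h : ∀ k, Γ.s k ≤ Γ'.s k) (n k : ℕ) (f : V n → G)
    (hf : f ∈ (P Γ n).s k) : f ∈ (P Γ' n).s k :=
  map_mem Γ Γ' (MonoidHom.id G) (fun k _ ha => h k ha) n k f hf

lemma mask_mem (Γ : Filt G) (n : ℕ) : ∀ k (i : Fin n) (f : V n → G), f ∈ (P Γ n).s (k + 1) →
    (fun s => if s i then f s else 1) ∈ (P Γ n).s k := by
  induction n with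
  | zero => intro k i; exact i.elim0
  | succ n ih =>
    intro k i f hf
    refine Fin.cases ?_ (fun j => ?_) i
    · refine mem_succ.2 ⟨?_, ?_⟩
      · simp only [Fin.cons_zero, Bool.false_eq_true, if_false]
        exact one_mem _
      · simpa using face_true hf
    · refine mem_succ.2 ⟨?_, ?_⟩
      · simpa using ih k j _ (mem_succ.1 hf).1
      · have := ih _ j _ (mem_succ.1 hf).2
        convert this using 1
        funext s
        simp only [Fin.cons_succ]
        split_ifs <;> simp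

/-- Pullback along a map of cubes each of whose coordinates is constant or a coordinate. -/
lemma pull_mem (Γ : Filt G) (m n : ℕ) : ∀ k (φ : V m → V n)
    (_ : ∀ i, (∃ b, ∀ s, φ s i = b) ∨ ∃ j, ∀ s, φ s i = s j) (f : V n → G),
    f ∈ (P Γ n).s k → (fun s => f (φ s)) ∈ (P Γ m).s k := by
  induction n with
  | zero =>
    intro k φ _ f hf
    have : (fun s => f (φ s)) = fun _ => f ![] := by
      funext s; rw [Subsingleton.elim (φ s) ![]]
    rw [this]; exact const_mem Γ m k _ hf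
  | succ n ih =>
    intro k φ hφ f hf
    have h1 := ih k (fun s => Fin.tail (φ s)) (fun i => hφ i.succ) _ (mem_succ.1 hf).1
    have h2 := ih _ (fun s => Fin.tail (φ s)) (fun i => hφ i.succ) _ (mem_succ.1 hf).2
    have h3 := ih k (fun s => Fin.tail (φ s)) (fun i => hφ i.succ) _ (face_true hf)
    rcases hφ 0 with ⟨b, hb⟩ | ⟨j, hj⟩
    · cases b
      · convert h1 using 2 with s
        rw [← hb s, Fin.cons_self_tail]
      · convert h3 using 2 with s
        rw [← hb s, Fin.cons_self_tail]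
    · have := mul_mem h1 (mask_mem Γ m k j _ h2)
      convert this using 1
      funext s
      simp only [Pi.mul_apply, ← hj s]
      cases h : φ s 0
      · simp only [Bool.false_eq_true, if_false, mul_one]
        rw [← h, Fin.cons_self_tail]
      · simp only [if_true, mul_inv_cancel_left]
        rw [← h, Fin.cons_self_tail]

lemma top_mem (Γ : Filt G) (H : Subgroup G) (n : ℕ) : ∀ k (f : V n → G), f ∈ (P Γ n).s k →
    Γ.s (n + k) ≤ H → (∀ s, s ≠ (fun _ => true) → f s ∈ H) → f (fun _ => true) ∈ H := by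
  induction n with
  | zero =>
    intro k f hf hH _
    rw [Subsingleton.elim (fun _ => true : V 0) ![]]
    exact hH (by simpa using mem_zero.1 hf)
  | succ n ih =>
    intro k f hf hH h
    have a : ∀ s : V n, f (Fin.cons false s) ∈ H := fun s => h _ (fun e => by
      have := congrFun e 0; simp at this)
    have e : (Fin.cons true (fun _ => true) : V (n + 1)) = fun _ => true := by
      funext i; refine Fin.cases rfl (fun _ => rfl) i
    have := ih _ _ (mem_succ.1 hf).2 (by rwa [show n + (k + 1) = n + 1 + k by ring]) (fun s hs =>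
      mul_mem (inv_mem (a s)) (h _ (fun e' => hs (by
        funext i; have := congrFun e' i.succ; simpa using this))))
    have h2 := mul_mem (a (fun _ => true)) this
    rw [← e]; simpa using h2

/-- The degree filtration of an abelian group. -/
def Λ (A : Type) [CommGroup A] (w : ℕ) : Filt A where
  s k := if k ≤ w then ⊤ else ⊥
  anti k := by
    split_ifs with h1 h2 h2
    · exact le_rfl
    · omega
    · exact bot_le
    · exact le_rfl
  comm k l a _ b _ := by
    rw [mul_comm a b]; simp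

lemma sep {A : Type} [CommGroup A] (w w' : ℕ) (n : ℕ) : ∀ k l (a : V n → V n → A),
    (∀ t, (fun s => a s t) ∈ (P (Λ A w) n).s k) → (∀ s, (fun t => a s t) ∈ (P (Λ A w') n).s l) →
    (fun s => a s s) ∈ (P (Λ A (w + w')) n).s (k + l) := by
  induction n with
  | zero =>
    intro k l a h1 h2
    have a1 := mem_zero.1 (h1 ![])
    have a2 := mem_zero.1 (h2 ![])
    refine mem_zero.2 ?_
    simp only [Λ] at *
    split_ifs at * <;> omega
  | succ n ih =>
    intro k l a h1 h2
    refine mem_succ.2 ⟨ih k l (fun s t => a (Fin.cons false s) (Fin.cons false t))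
      (fun t => (mem_succ.1 (h1 _)).1) (fun s => (mem_succ.1 (h2 _)).1), ?_⟩
    have b1 := ih (k + 1) l
      (fun s t => (a (Fin.cons false s) (Fin.cons true t))⁻¹ * a (Fin.cons true s) (Fin.cons true t))
      (fun t => (mem_succ.1 (h1 _)).2)
      (fun s => mul_mem (inv_mem (face_true (h2 _))) (face_true (h2 _)))
    have b2 := ih k (l + 1)
      (fun s t => (a (Fin.cons false s) (Fin.cons false t))⁻¹ * a (Fin.cons false s) (Fin.cons true t))
      (fun t => mul_mem (inv_mem (mem_succ.1 (h1 _)).1) (mem_succ.1 (h1 _)).1)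
      (fun s => (mem_succ.1 (h2 _)).2)
    rw [show k + 1 + l = k + l + 1 by ring] at b1
    rw [show k + (l + 1) = k + l + 1 by ring] at b2
    have := mul_mem b2 b1
    convert this using 1
    funext s
    simp only [Pi.mul_apply]; group

lemma dir_mem (Γ : Filt G) (h1 : Γ.s 1 = ⊤) (n : ℕ) (i : Fin n) (a b : G) :
    (fun s : V n => if s i then b else a) ∈ (P Γ n).s 0 := by
  have h0 : Γ.s 0 = ⊤ := top_le_iff.1 (h1 ▸ Γ.anti 0)
  have := mul_mem (const_mem Γ n 0 a (h0 ▸ Subgroup.mem_top _))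
    (mask_mem Γ n 0 i _ (const_mem Γ n 1 (a⁻¹ * b) (h1 ▸ Subgroup.mem_top _)))
  convert this using 1
  funext s
  simp only [Pi.mul_apply]
  split_ifs <;> simp

end Pool.Agent.H74.Cubes
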