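import Mathlib

namespace Pool.Agent.H74.Cw
open Finset

/-- Adaptive strategies for `N` coins and three scales: either name a coin, or weigh `L` against
`R` on scale `s` and continue according to the reported outcome (left lighter, right lighter,
balance). -/
inductive Strat (N : ℕ) : Type
  | guess (c : Fin N) : Strat N
  | weigh (s : Fin 3) (L R : Finset (Fin N)) (tl tr tb : Strat N) : Strat N

/-- With fake coin `c` and broken scale `b`, every possible run of the strategy uses only legal
weighings, uses at most `d` weighings and names `c`. -/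
def Solves {N : ℕ} (c : Fin N) (b : Fin 3) : Strat N → ℕ → Prop
  | .guess c', _ => c' = c
  | .weigh _ _ _ _ _ _, 0 => False
  | .weigh s L R tl tr tb, d + 1 => Disjoint L R ∧ L.card = R.card ∧
      ((s = b ∨ c ∈ L) → Solves c b tl d) ∧ ((s = b ∨ c ∈ R) → Solves c b tr d) ∧
      ((s = b ∨ (c ∉ L ∧ c ∉ R)) → Solves c b tb d)

/-- Some strategy succeeds for `N` coins with at most `d` weighings in the worst case. -/
def Solvable (N d : ℕ) : Prop := ∃ T : Strat N, ∀ c b, Solves c b T d

variable {N : ℕ}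

def Win (S : Set (Fin N × Fin 3)) (d : ℕ) : Prop := ∃ T : Strat N, ∀ p ∈ S, Solves p.1 p.2 T d

def cmp (L R : Finset (Fin N)) (c : Fin N) : Fin 3 := if c ∈ L then 0 else if c ∈ R then 1 else 2

theorem Win.mono {S S' : Set (Fin N × Fin 3)} {d : ℕ} (h : Win S d) (hs : S' ⊆ S) : Win S' d := by
  obtain ⟨T, hT⟩ := h
  exact ⟨T, fun p hp => hT p (hs hp)⟩

theorem win_guess {S : Set (Fin N × Fin 3)} (d : ℕ) (c : Fin N) (h : ∀ p ∈ S, p.1 = c) :
    Win S d := ⟨.guess c, fun p hp => by cases d <;> exact (h p hp).symm⟩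

theorem win_step {S : Set (Fin N × Fin 3)} {d : ℕ} (s : Fin 3) (L R : Finset (Fin N))
    (hd : Disjoint L R) (hc : L.card = R.card)
    (h : ∀ o, Win {p | p ∈ S ∧ (p.2 = s ∨ cmp L R p.1 = o)} d) : Win S (d + 1) := by
  obtain ⟨T0, h0⟩ := h 0
  obtain ⟨T1, h1⟩ := h 1
  obtain ⟨T2, h2⟩ := h 2
  refine ⟨.weigh s L R T0 T1 T2, fun p hp => ⟨hd, hc, fun h => h0 p ⟨hp, ?_⟩,
    fun h => h1 p ⟨hp, ?_⟩, fun h => h2 p ⟨hp, ?_⟩⟩⟩
  · rcases h with h | h
    · exact Or.inl h.symm
    · exact Or.inr (by simp [cmp, h])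
  · rcases h with h | h
    · exact Or.inl h.symm
    · have : p.1 ∉ L := fun h' => Finset.disjoint_left.1 hd h' h
      exact Or.inr (by simp [cmp, h, this])
  · rcases h with h | h
    · exact Or.inl h.symm
    · exact Or.inr (by simp [cmp, h.1, h.2])

theorem win_zero [NeZero N] {S : Set (Fin N × Fin 3)} (h : Win S 0) : ∃ c, ∀ p ∈ S, p.1 = c := by
  obtain ⟨T, hT⟩ := h
  cases T with
  | guess c => exact ⟨c, fun p hp => (hT p hp).symm⟩
  | weigh s L R a b c => exact ⟨0, fun p hp => (hT p hp).elim⟩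

theorem win_inv {S : Set (Fin N × Fin 3)} {d : ℕ} (h : Win S (d + 1)) :
    (∃ c, ∀ p ∈ S, p.1 = c) ∨ ∃ (s : Fin 3) (f : Fin N → Fin 3),
      ∀ o, Win {p | p ∈ S ∧ (p.2 = s ∨ f p.1 = o)} d := by
  obtain ⟨T, hT⟩ := h
  cases T with
  | guess c => exact Or.inl ⟨c, fun p hp => (hT p hp).symm⟩
  | weigh s L R a b c =>
    refine Or.inr ⟨s, cmp L R, fun o => ?_⟩
    fin_cases o
    · refine ⟨a, fun p hp => (hT p hp.1).2.2.1 ?_⟩
      rcases hp.2 with h | h
      · exact Or.inl h.symm
      · right; by_contra h'; simp only [cmp, h', if_false] at h; split_ifs at h <;> simp at h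
    · refine ⟨b, fun p hp => (hT p hp.1).2.2.2.1 ?_⟩
      rcases hp.2 with h | h
      · exact Or.inl h.symm
      · right; by_contra h'; simp only [cmp, h', if_false] at h; split_ifs at h <;> simp at h
    · refine ⟨c, fun p hp => (hT p hp.1).2.2.2.2 ?_⟩
      rcases hp.2 with h | h
      · exact Or.inl h.symm
      · right; simp only [cmp] at h; split_ifs at h with h1 h2
        · simp at h
        · simp at h
        · exact ⟨h1, h2⟩

theorem card3 (A : Finset (Fin N)) (g : Fin N → Fin 3) :
    (A.filter (g · = 0)).card + (A.filter (g · = 1)).card + (A.filter (g · = 2)).card = A.card := by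
  rw [Finset.card_eq_sum_card_fiberwise (s := A) (f := g) (t := univ) (fun _ _ => by simp),
    Fin.sum_univ_three]

theorem weighAux (A : Finset (Fin N)) (g : Fin N → Fin 3) (o1 o2 o3 : Fin 3) (h12 : o1 ≠ o2)
    (h3 : ∀ o, o ≠ o1 → o ≠ o2 → o = o3)
    (h1 : (A.filter (g · = o1)).card ≤ (A.filter (g · = o2)).card)
    (h2 : (A.filter (g · = o2)).card + A.card ≤ (A.filter (g · = o1)).card + N) :
    ∃ L R : Finset (Fin N), Disjoint L R ∧ L.card = R.card ∧
      ∃ σ : Fin 3 → Fin 3, ∀ c ∈ A, g c = σ (cmp L R c) := by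
  have hc : (Aᶜ).card = N - A.card := by rw [Finset.card_compl, Fintype.card_fin]
  have hA : A.card ≤ N := by simpa using Finset.card_le_univ A
  obtain ⟨D, hD, hDc⟩ := Finset.exists_subset_card_eq (s := Aᶜ)
    (n := (A.filter (g · = o2)).card - (A.filter (g · = o1)).card) (by omega)
  have hDA : ∀ c ∈ D, c ∉ A := fun c hc => Finset.mem_compl.1 (hD hc)
  refine ⟨A.filter (g · = o1) ∪ D, A.filter (g · = o2), ?_, ?_, ![o1, o2, o3], fun c hc => ?_⟩
  · rw [Finset.disjoint_left]
    intro c hc hc'
    rw [Finset.mem_filter] at hc'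
    rcases Finset.mem_union.1 hc with h | h
    · exact h12 ((Finset.mem_filter.1 h).2.symm.trans hc'.2)
    · exact hDA c h hc'.1
  · rw [Finset.card_union_of_disjoint, hDc]
    · omega
    · rw [Finset.disjoint_left]
      intro c hc hc'
      exact hDA c hc' (Finset.mem_filter.1 hc).1
  · have hD' : c ∉ D := fun h => hDA c h hc
    unfold cmp
    by_cases e1 : g c = o1
    · simp [e1, hc]
    · by_cases e2 : g c = o2
      · simp [e2, hc, hD', h12.symm]
      · rw [if_neg (by simp [e1, hD']), if_neg (by simp [e2])]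
        exact h3 _ e1 e2

theorem weighable (A : Finset (Fin N)) (g : Fin N → Fin 3)
    (h : 3 * A.card ≤ 2 * N ∨ (A.filter (g · = 0)).card = (A.filter (g · = 1)).card) :
    ∃ L R : Finset (Fin N), Disjoint L R ∧ L.card = R.card ∧
      ∃ σ : Fin 3 → Fin 3, ∀ c ∈ A, g c = σ (cmp L R c) := by
  have h3 := card3 A g
  have hA : A.card ≤ N := by simpa using Finset.card_le_univ A
  have k01 := weighAux A g 0 1 2 (by decide) (by decide)
  have k10 := weighAux A g 1 0 2 (by decide) (by decide)
  have k02 := weighAux A g 0 2 1 (by decide) (by decide)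
  have k20 := weighAux A g 2 0 1 (by decide) (by decide)
  have k12 := weighAux A g 1 2 0 (by decide) (by decide)
  have k21 := weighAux A g 2 1 0 (by decide) (by decide)
  by_contra hn
  simp only [hn, imp_false, not_le] at k01 k10 k02 k20 k12 k21
  omega

theorem color (A : Finset (Fin N)) (a b c : ℕ) (h : A.card ≤ a + b + c) :
    ∃ f : Fin N → Fin 3, (A.filter (f · = 0)).card ≤ a ∧ (A.filter (f · = 1)).card ≤ b ∧
      (A.filter (f · = 2)).card ≤ c := by
  obtain ⟨L, hL, hLc⟩ := Finset.exists_subset_card_eq (s := A) (n := min a A.card) (by omega)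
  have h1 : (A \ L).card = A.card - min a A.card := by rw [Finset.card_sdiff_of_subset hL, hLc]
  obtain ⟨R, hR, hRc⟩ := Finset.exists_subset_card_eq (s := A \ L) (n := min b (A \ L).card)
    (by omega)
  have h2 : ((A \ L) \ R).card = (A \ L).card - min b (A \ L).card := by
    rw [Finset.card_sdiff_of_subset hR, hRc]
  refine ⟨cmp L R, ?_, ?_, ?_⟩
  · refine le_trans (Finset.card_le_card (t := L) fun c hc => ?_) (by omega)
    have h := (Finset.mem_filter.1 hc).2
    by_contra h'; simp only [cmp, h', if_false] at h; split_ifs at h <;> simp at h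
  · refine le_trans (Finset.card_le_card (t := R) fun c hc => ?_) (by omega)
    have h := (Finset.mem_filter.1 hc).2
    by_contra h'; simp only [cmp, h', if_false] at h; split_ifs at h <;> simp at h
  · refine le_trans (Finset.card_le_card (t := (A \ L) \ R) fun c hc => ?_) (by omega)
    have h := (Finset.mem_filter.1 hc).2
    simp only [cmp] at h; split_ifs at h with h1 h2
    · simp at h
    · simp at h
    · simp [h1, h2, (Finset.mem_filter.1 hc).1]

end Pool.Agent.H74.Cw
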