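import Pool.Agent.H74.Cw1

namespace Pool.Agent.H74.Cw
open Finset
variable {N : ℕ}

theorem fin3 : ∀ o : Fin 3, o = 0 ∨ o = 1 ∨ o = 2 := by decide

def St (X U V : Finset (Fin N)) (i j : Fin 3) : Set (Fin N × Fin 3) :=
  {p | p.1 ∈ X ∨ (p.1 ∈ U ∧ p.2 = i) ∨ (p.1 ∈ V ∧ p.2 = j)}

theorem stepF {d : ℕ} (X U V : Finset (Fin N)) (hXU : Disjoint X U) (hXV : Disjoint X V)
    (hUV : Disjoint U V) (i j k : Fin 3) (f1 f2 f3 : Fin N → Fin 3)
    (hpad : 3 * (X.card + U.card + V.card) ≤ 2 * N ∨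
      (X.filter (f1 · = 0)).card + (U.filter (f2 · = 0)).card + (V.filter (f3 · = 0)).card =
      (X.filter (f1 · = 1)).card + (U.filter (f2 · = 1)).card + (V.filter (f3 · = 1)).card)
    (hik : i ≠ k) (hjk : j ≠ k)
    (h : ∀ o, Win (St (X.filter (f1 · = o)) (U.filter (f2 · = o)) (V.filter (f3 · = o)) i j ∪
      {p | p.1 ∈ X.filter (fun c => ¬ f1 c = o) ∧ p.2 = k}) d) :
    Win (St X U V i j) (d + 1) := by
  let g : Fin N → Fin 3 := fun c => if c ∈ X then f1 c else if c ∈ U then f2 c else f3 c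
  have gX : ∀ c ∈ X, g c = f1 c := fun c hc => by simp [g, hc]
  have gU : ∀ c ∈ U, g c = f2 c := fun c hc => by
    have : c ∉ X := fun h => Finset.disjoint_left.1 hXU h hc
    simp [g, hc, this]
  have gV : ∀ c ∈ V, g c = f3 c := fun c hc => by
    have h1 : c ∉ X := fun h => Finset.disjoint_left.1 hXV h hc
    have h2 : c ∉ U := fun h => Finset.disjoint_left.1 hUV h hc
    simp [g, h1, h2]
  have hcard : ∀ o, ((X ∪ U ∪ V).filter (g · = o)).card =
      (X.filter (f1 · = o)).card + (U.filter (f2 · = o)).card + (V.filter (f3 · = o)).card := by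
    intro o
    rw [Finset.filter_union, Finset.filter_union, Finset.card_union_of_disjoint,
      Finset.card_union_of_disjoint]
    · rw [Finset.filter_congr (s := X) (q := (f1 · = o)) (fun c hc => by rw [gX c hc]),
        Finset.filter_congr (s := U) (q := (f2 · = o)) (fun c hc => by rw [gU c hc]),
        Finset.filter_congr (s := V) (q := (f3 · = o)) (fun c hc => by rw [gV c hc])]
    · exact Finset.disjoint_filter_filter hXU
    · rw [Finset.disjoint_union_left]
      exact ⟨Finset.disjoint_filter_filter hXV, Finset.disjoint_filter_filter hUV⟩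
  have hA : (X ∪ U ∪ V).card ≤ X.card + U.card + V.card :=
    le_trans (Finset.card_union_le _ _) (Nat.add_le_add_right (Finset.card_union_le _ _) _)
  obtain ⟨L, R, hd, hc, σ, hσ⟩ := weighable (X ∪ U ∪ V) g (by rw [hcard, hcard]; omega)
  refine win_step k L R hd hc fun o => (h (σ o)).mono ?_
  rintro ⟨c, b⟩ ⟨hp, ho⟩
  simp only [St, Set.mem_setOf_eq, Set.mem_union, Finset.mem_filter] at hp ho ⊢
  rcases hp with hp | ⟨hp, rfl⟩ | ⟨hp, rfl⟩
  · have := hσ c (by simp [hp])
    rw [gX c hp] at this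
    by_cases e : f1 c = σ o
    · exact Or.inl (Or.inl ⟨hp, e⟩)
    · rcases ho with ho | ho
      · exact Or.inr ⟨⟨hp, e⟩, ho⟩
      · exact absurd (ho ▸ this) e
  · have := hσ c (by simp [hp])
    rw [gU c hp] at this
    rcases ho with ho | ho
    · exact absurd ho hik
    · exact Or.inl (Or.inr (Or.inl ⟨⟨hp, ho ▸ this⟩, rfl⟩))
  · have := hσ c (by simp [hp])
    rw [gV c hp] at this
    rcases ho with ho | ho
    · exact absurd ho hjk
    · exact Or.inl (Or.inr (Or.inr ⟨⟨hp, ho ▸ this⟩, rfl⟩))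

def H (q x u v : ℕ) : Prop := ∀ (N : ℕ) [NeZero N] (X U V : Finset (Fin N)) (i j : Fin 3),
  Disjoint X U → Disjoint X V → Disjoint U V → i ≠ j → X.card ≤ x → U.card ≤ u → V.card ≤ v →
  3 * (X.card + U.card + V.card) ≤ 2 * N → Win (St X U V i j) q

theorem H.mono {q x u v x' u' v' : ℕ} (h : H q x u v) (hx : x' ≤ x) (hu : u' ≤ u) (hv : v' ≤ v) :
    H q x' u' v' := fun N _ X U V i j a b c d e f g k =>
  h N X U V i j a b c d (e.trans hx) (f.trans hu) (g.trans hv) k

theorem H.symm {q x u v : ℕ} (h : H q x u v) : H q x v u := fun N _ X U V i j a b c d e f g k =>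
  (h N X V U j i b a c.symm d.symm e g f (by omega)).mono (fun p hp => by
    simp only [St, Set.mem_setOf_eq] at hp ⊢; tauto)

theorem H_one {q x u v : ℕ} (h : x + u + v ≤ 1) : H q x u v := by
  intro N _ X U V i j _ _ _ _ e f g _
  have hA : (X ∪ U ∪ V).card ≤ X.card + U.card + V.card :=
    le_trans (Finset.card_union_le _ _) (Nat.add_le_add_right (Finset.card_union_le _ _) _)
  obtain ⟨c, hc⟩ := (Finset.card_le_one_iff_subset_singleton (s := X ∪ U ∪ V)).1 (by omega)
  refine win_guess q c fun p hp => Finset.mem_singleton.1 (hc ?_)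
  simp only [St, Set.mem_setOf_eq] at hp
  simp only [Finset.mem_union]; tauto

def Ch (q r a u v : ℕ) : Prop :=
  (r = 0 ∧ H q a u v) ∨ (v = 0 ∧ H q a u r) ∨ (u = 0 ∧ H q a v r)

theorem child [NeZero N] {q r a u v : ℕ} (h : Ch q r a u v) (X U V W : Finset (Fin N))
    (i j k : Fin 3) (hXU : Disjoint X U) (hXV : Disjoint X V) (hUV : Disjoint U V)
    (hXW : Disjoint X W) (hUW : Disjoint U W) (hVW : Disjoint V W) (hij : i ≠ j) (hik : i ≠ k)
    (hjk : j ≠ k) (e : X.card ≤ a) (f : U.card ≤ u) (g : V.card ≤ v) (l : W.card ≤ r)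
    (hp : 3 * (X.card + U.card + V.card + W.card) ≤ 2 * N) :
    Win (St X U V i j ∪ {p | p.1 ∈ W ∧ p.2 = k}) q := by
  rcases h with ⟨rfl, h⟩ | ⟨rfl, h⟩ | ⟨rfl, h⟩
  · obtain rfl : W = ∅ := Finset.card_eq_zero.1 (by omega)
    exact (h N X U V i j hXU hXV hUV hij e f g (by omega)).mono (fun p hp => by simpa using hp)
  · obtain rfl : V = ∅ := Finset.card_eq_zero.1 (by omega)
    exact (h N X U W i k hXU hXW hUW hik e f l (by omega)).mono (fun p hp => by
      simp only [St, Set.mem_setOf_eq, Set.mem_union, Finset.notMem_empty] at hp ⊢; tauto)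
  · obtain rfl : U = ∅ := Finset.card_eq_zero.1 (by omega)
    exact (h N X V W j k hXV hXW hVW hjk e g l (by omega)).mono (fun p hp => by
      simp only [St, Set.mem_setOf_eq, Set.mem_union, Finset.notMem_empty] at hp ⊢; tauto)

theorem H_step {q x u v : ℕ} (a0 a1 a2 u0 u1 u2 v0 v1 v2 : ℕ)
    (h0 : Ch q (a1 + a2) a0 u0 v0) (h1 : Ch q (a0 + a2) a1 u1 v1) (h2 : Ch q (a0 + a1) a2 u2 v2)
    (hx : x ≤ a0 + a1 + a2) (hu : u ≤ u0 + u1 + u2) (hv : v ≤ v0 + v1 + v2) :
    H (q + 1) x u v := by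
  intro N _ X U V i j hXU hXV hUV hij e f g hp
  obtain ⟨k, hik, hjk⟩ : ∃ k, i ≠ k ∧ j ≠ k :=
    (by decide : ∀ i j : Fin 3, ∃ k, i ≠ k ∧ j ≠ k) i j
  obtain ⟨f1, x0, x1, x2⟩ := color X a0 a1 a2 (by omega)
  obtain ⟨f2, y0, y1, y2⟩ := color U u0 u1 u2 (by omega)
  obtain ⟨f3, z0, z1, z2⟩ := color V v0 v1 v2 (by omega)
  have c1 := card3 X f1
  refine stepF X U V hXU hXV hUV i j k f1 f2 f3 (Or.inl hp) hik hjk fun o => ?_
  have n1 := Finset.card_filter_add_card_filter_not (s := X) (fun c => f1 c = o)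
  have n2 := Finset.card_filter_le U (fun c => f2 c = o)
  have n3 := Finset.card_filter_le V (fun c => f3 c = o)
  have key : ∀ r a u v, Ch q r a u v → (X.filter (f1 · = o)).card ≤ a →
      (U.filter (f2 · = o)).card ≤ u → (V.filter (f3 · = o)).card ≤ v →
      (X.filter (fun c => ¬ f1 c = o)).card ≤ r →
      Win (St (X.filter (f1 · = o)) (U.filter (f2 · = o)) (V.filter (f3 · = o)) i j ∪
      {p | p.1 ∈ X.filter (fun c => ¬ f1 c = o) ∧ p.2 = k}) q := fun r a u v h e f g l =>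
    child h _ _ _ _ i j k (Finset.disjoint_filter_filter hXU) (Finset.disjoint_filter_filter hXV)
      (Finset.disjoint_filter_filter hUV) (Finset.disjoint_filter_filter_not _ _ _)
      (Finset.disjoint_filter_filter hXU.symm) (Finset.disjoint_filter_filter hXV.symm)
      hij hik hjk e f g l (by omega)
  obtain rfl | rfl | rfl := fin3 o
  · exact key _ _ _ _ h0 x0 y0 z0 (by omega)
  · exact key _ _ _ _ h1 x1 y1 z1 (by omega)
  · exact key _ _ _ _ h2 x2 y2 z2 (by omega)

theorem H_zero (q : ℕ) : ∀ u v, u + v ≤ 3 ^ q → H q 0 u v := by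
  induction q with
  | zero => intro u v h; exact H_one (by omega)
  | succ q ih =>
    intro u v h
    rw [pow_succ] at h
    generalize 3 ^ q = T at h ih
    refine H_step 0 0 0 (min u T) (min (u - min u T) T) (u - min u T - min (u - min u T) T)
      (min v (T - min u T)) (min (v - min v (T - min u T)) (T - min (u - min u T) T))
      (v - min v (T - min u T) - min (v - min v (T - min u T)) (T - min (u - min u T) T))
      (Or.inl ⟨rfl, ih _ _ (by omega)⟩) (Or.inl ⟨rfl, ih _ _ (by omega)⟩)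
      (Or.inl ⟨rfl, ih _ _ (by omega)⟩) (by omega) (by omega) (by omega)

/-- all of `x` with both types in one branch; the others take `u` only -/
theorem H_uu {q x u v : ℕ} (hx : x ≤ 3 ^ q) (h : H q x (u - 2 * (3 ^ q - x)) v) :
    H (q + 1) x u v :=
  H_step x 0 0 (u - 2 * (3 ^ q - x)) (3 ^ q - x) (3 ^ q - x) v 0 0 (Or.inl ⟨rfl, h⟩)
    (Or.inr (Or.inl ⟨rfl, H_zero _ _ _ (by omega)⟩))
    (Or.inr (Or.inl ⟨rfl, H_zero _ _ _ (by omega)⟩)) (by omega) (by omega) (by omega)

theorem H_uv {q x u v : ℕ} (hx : x ≤ 3 ^ q) (h : H q x (u - (3 ^ q - x)) (v - (3 ^ q - x))) :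
    H (q + 1) x u v :=
  H_step x 0 0 (u - (3 ^ q - x)) (3 ^ q - x) 0 (v - (3 ^ q - x)) 0 (3 ^ q - x) (Or.inl ⟨rfl, h⟩)
    (Or.inr (Or.inl ⟨rfl, H_zero _ _ _ (by omega)⟩))
    (Or.inr (Or.inr ⟨rfl, H_zero _ _ _ (by omega)⟩)) (by omega) (by omega) (by omega)

/-- `v` alone in one branch, `u` in the other two -/
theorem H_sp {q x u v : ℕ} (a b c ua uc : ℕ) (hx : x ≤ a + b + c) (hu : u ≤ ua + uc)
    (ha : H q a ua (b + c)) (hb : H q b v (a + c)) (hc : H q c uc (a + b)) : H (q + 1) x u v :=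
  H_step a b c ua 0 uc 0 v 0 (Or.inr (Or.inl ⟨rfl, ha⟩)) (Or.inr (Or.inr ⟨rfl, hb⟩))
    (Or.inr (Or.inl ⟨rfl, hc⟩)) hx (by omega) (by omega)

theorem H_tr {q x u : ℕ} (a b c ua ub uc : ℕ) (hx : x ≤ a + b + c) (hu : u ≤ ua + ub + uc)
    (ha : H q a ua (b + c)) (hb : H q b ub (a + c)) (hc : H q c uc (a + b)) : H (q + 1) x u 0 :=
  H_step a b c ua ub uc 0 0 0 (Or.inr (Or.inl ⟨rfl, ha⟩)) (Or.inr (Or.inl ⟨rfl, hb⟩))
    (Or.inr (Or.inl ⟨rfl, hc⟩)) hx hu (by omega)

/-- two even weighings at the start -/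
theorem start {q Y : ℕ} (hY : 0 < Y) (h : H q Y (2 * Y) (2 * Y)) : Solvable (9 * Y) (q + 2) := by
  haveI : NeZero (9 * Y) := ⟨by omega⟩
  have hU : (univ : Finset (Fin (9 * Y))).card = 9 * Y := by simp
  suffices hw : Win (St (univ : Finset (Fin (9 * Y))) ∅ ∅ 1 2) (q + 1 + 1) by
    obtain ⟨T, hT⟩ := hw
    exact ⟨T, fun c b => hT (c, b) (Or.inl (Finset.mem_univ _))⟩
  obtain ⟨f, x0, x1, x2⟩ := color (univ : Finset (Fin (9 * Y))) (3 * Y) (3 * Y) (3 * Y) (by omega)
  have c1 := card3 univ f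
  refine stepF _ _ _ (by simp) (by simp) (by simp) 1 2 0 f f f (Or.inr (by simp; omega))
    (by decide) (by decide) fun o => ?_
  have hX : (univ.filter (f · = o)).card = 3 * Y := by
    obtain rfl | rfl | rfl := fin3 o
    all_goals omega
  have n1 := Finset.card_filter_add_card_filter_not (s := univ) (fun c => f c = o)
  have hd : Disjoint (univ.filter (f · = o)) (univ.filter (fun c => ¬ f c = o)) :=
    Finset.disjoint_filter_filter_not _ _ _
  generalize univ.filter (f · = o) = X at *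
  generalize univ.filter (fun c => ¬ f c = o) = U at *
  refine Win.mono (S := St X U ∅ 0 2) ?_ (fun p hp => by
    simp only [St, Set.mem_setOf_eq, Set.mem_union, Finset.notMem_empty,
      Finset.filter_empty] at hp ⊢; tauto)
  obtain ⟨f1, y0, y1, y2⟩ := color X Y Y Y (by omega)
  obtain ⟨f2, z0, z1, z2⟩ := color U (2 * Y) (2 * Y) (2 * Y) (by omega)
  have c2 := card3 X f1
  have c3 := card3 U f2
  refine stepF _ _ _ hd (by simp) (by simp) 0 2 1 f1 f2 f2 (Or.inr (by simp; omega))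
    (by decide) (by decide) fun o => ?_
  have n2 := Finset.card_filter_add_card_filter_not (s := X) (fun c => f1 c = o)
  have hX' : (X.filter (f1 · = o)).card = Y ∧ (U.filter (f2 · = o)).card = 2 * Y := by
    obtain rfl | rfl | rfl := fin3 o
    all_goals omega
  refine child (r := 2 * Y) (a := Y) (u := 2 * Y) (v := 0) (Or.inr (Or.inl ⟨rfl, h⟩)) _ _ _ _ 0 2 1
    (Finset.disjoint_filter_filter hd) (by simp) (by simp)
    (Finset.disjoint_filter_filter_not _ _ _) (Finset.disjoint_filter_filter hd.symm) (by simp)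
    (by decide) (by decide) (by decide) (by omega) (by omega) (by simp) (by omega)
    (by simp; omega)

end Pool.Agent.H74.Cw
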