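import Pool.Agent.H74.Cw2

namespace Pool.Agent.H74.Cw

def R (w E P T x u v : ℕ) : Prop :=
  (x = 0 ∧ u + v ≤ T) ∨
    (w * x + E * (u + v) ≤ E * T ∧ (x < u → x < v → w * x + E * (u + v + P) ≤ E * T))

theorem R.symm {w E P T x u v : ℕ} (h : R w E P T x u v) : R w E P T x v u := by
  rcases h with h | ⟨h1, h2⟩
  · exact Or.inl ⟨h.1, by omega⟩
  · exact Or.inr ⟨by rwa [Nat.add_comm v u], fun a b => by rw [Nat.add_comm v u]; exact h2 b a⟩

theorem two (m x KA KB Q : ℕ) (hm : 0 < m) (h : m * x + m + Q ≤ KA + KB) (hA : KA < m * x)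
    (hB : KB < m * x) : ∃ a b, a + b = x ∧ m * a ≤ KA ∧ m * b ≤ KB ∧
      (b ≤ a ∨ m * a + Q ≤ KA) ∧ (a ≤ b ∨ m * b + Q ≤ KB) := by
  have a1 := Nat.mul_div_le KA m
  have a2 := Nat.lt_mul_div_succ KA hm
  have b1 := Nat.mul_div_le KB m
  have b2 := Nat.lt_mul_div_succ KB hm
  generalize KA / m = a at *
  generalize KB / m = b at *
  have ha : a < x := by by_contra h'; push_neg at h'; nlinarith
  have hb : b < x := by by_contra h'; push_neg at h'; nlinarith
  have hab : x ≤ a + b := by by_contra h'; push_neg at h'; nlinarith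
  by_cases h2 : x ≤ 2 * b
  · obtain ⟨c, rfl⟩ := Nat.exists_eq_add_of_le hb.le
    exact ⟨c, b, by omega, by nlinarith, b1, Or.inr (by nlinarith), Or.inl (by omega)⟩
  · obtain ⟨c, rfl⟩ := Nat.exists_eq_add_of_le ha.le
    exact ⟨a, c, by omega, a1, by nlinarith, Or.inl (by omega), Or.inr (by nlinarith)⟩

theorem three (m x KA KB KC Q : ℕ) (hm : 0 < m) (h : m * x + 2 * m + 2 * Q ≤ KA + KB + KC) :
    ∃ a b c, a + b + c = x ∧ (a = 0 ∨ m * a + Q ≤ KA) ∧ (b = 0 ∨ m * b + Q ≤ KB) ∧
      m * c ≤ KC := by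
  have a1 := Nat.mul_div_le (KA - Q) m
  have a2 := Nat.lt_mul_div_succ (KA - Q) hm
  have b1 := Nat.mul_div_le (KB - Q) m
  have b2 := Nat.lt_mul_div_succ (KB - Q) hm
  generalize (KA - Q) / m = a at *
  generalize (KB - Q) / m = b at *
  have key : ∀ K a a', a' ≤ a → m * a ≤ K - Q → a' = 0 ∨ m * a' + Q ≤ K := by
    intro K a a' h1 h2
    rcases Nat.eq_zero_or_pos a' with h3 | h3
    · exact Or.inl h3
    · have := Nat.mul_le_mul_left m h1
      have := Nat.mul_pos hm h3
      omega
  by_cases h1 : x ≤ a + b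
  · exact ⟨min a x, x - min a x, 0, by omega, key _ _ _ (by omega) a1, key _ _ _ (by omega) b1,
      by omega⟩
  · obtain ⟨c, rfl⟩ := Nat.exists_eq_add_of_le (not_le.1 h1).le
    refine ⟨a, b, c, rfl, key _ _ _ le_rfl a1, key _ _ _ le_rfl b1, ?_⟩
    simp only [Nat.mul_add] at h a2 b2
    omega

theorem step_le {q m E P P' : ℕ} (hE : 0 < E) (hm : 0 < m) (hP : E * P' + m ≤ E * P)
    (h4 : P * (m + 3 * E + 1) ≤ 3 ^ q)
    (ih : ∀ x u v, R (m + E) E P' (3 ^ q) x u v → H q x u v) (x u v : ℕ) (hvu : v ≤ u)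
    (h : R (m + 3 * E + 1) E P (3 * 3 ^ q) x u v) : H (q + 1) x u v := by
  have huu := @H_uu q x u v
  have huv := @H_uv q x u v
  have hz : u + v ≤ 3 * 3 ^ q → H (q + 1) 0 u v := fun h =>
    H_zero _ _ _ (by rw [pow_succ]; omega)
  generalize 3 ^ q = T at *
  rcases h with ⟨rfl, h⟩ | ⟨h1, h2⟩
  · exact hz h
  have hxT : x ≤ T := by by_contra h'; push_neg at h'; first | linarith | nlinarith
  obtain ⟨W, rfl⟩ := Nat.exists_eq_add_of_le hxT
  rw [Nat.add_sub_cancel_left] at huu huv
  have h4E := Nat.mul_le_mul_left E h4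
  by_cases cA : W ≤ v
  · obtain ⟨v', rfl⟩ := Nat.exists_eq_add_of_le cA
    obtain ⟨u', rfl⟩ := Nat.exists_eq_add_of_le (cA.trans hvu)
    rw [Nat.add_sub_cancel_left, Nat.add_sub_cancel_left] at huv
    refine huv hxT (ih _ _ _ (Or.inr ⟨by (first | linarith | nlinarith), fun a b => ?_⟩))
    have := h2 (by omega) (by omega)
    first | linarith | nlinarith
  by_cases cB : (m + E) * x + E * v ≤ E * (x + W)
  · refine huu hxT (ih _ _ _ (Or.inr ?_))
    by_cases c : u ≤ 2 * W
    · rw [Nat.sub_eq_zero_of_le c]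
      exact ⟨by simpa using cB, fun a => by omega⟩
    · obtain ⟨u', rfl⟩ := Nat.exists_eq_add_of_le (not_le.1 c).le
      rw [Nat.add_sub_cancel_left]
      refine ⟨by (first | linarith | nlinarith), fun a b => ?_⟩
      have := h2 (by omega) b
      first | linarith | nlinarith
  by_cases cC : (m + E) * x + E * (u - W) ≤ E * (x + W)
  · refine huv hxT (ih _ _ _ (Or.inr ?_))
    rw [Nat.sub_eq_zero_of_le (not_le.1 cA).le]
    exact ⟨by simpa using cC, fun _ a => by omega⟩
  push_neg at cA cB cC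
  obtain ⟨kB, rfl⟩ := Nat.exists_eq_add_of_le cA.le
  by_cases cD : v + kB ≤ u
  · obtain ⟨u', rfl⟩ := Nat.exists_eq_add_of_le cD
    rw [Nat.add_sub_cancel_left] at cC
    have hu : u' ≤ v + kB := by by_contra h'; push_neg at h'; first | linarith | nlinarith
    obtain ⟨kA, hk⟩ := Nat.exists_eq_add_of_le hu
    have hkE : E * v + E * kB = E * u' + E * kA := by rw [← Nat.mul_add, hk, Nat.mul_add]
    have hs : m * x + m + E * P' ≤ E * kA + E * kB := by
      by_cases g : (m + 2 * E) * x ≤ E * (x + (v + kB))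
      · have hv : x < v := by by_contra h'; push_neg at h'; first | linarith | nlinarith
        have := h2 (by omega) hv
        first | linarith | nlinarith
      · have hx : E * P < x := by by_contra h'; push_neg at h'; first | linarith | nlinarith
        first | linarith | nlinarith
    obtain ⟨a, b, rfl, ha, hb, ha', hb'⟩ := two m x (E * kA) (E * kB) (E * P') hm hs
      (by (first | linarith | nlinarith)) (by (first | linarith | nlinarith))
    refine H_sp a b 0 u' (v + kB) le_rfl (by omega) (ih _ _ _ (Or.inr ⟨by (first | linarith | nlinarith), ?_⟩))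
      (ih _ _ _ (Or.inr ⟨by (first | linarith | nlinarith), ?_⟩)) (ih _ _ _ (Or.inl ⟨rfl, by omega⟩))
    · intro _ h'
      rcases ha' with ha' | ha'
      · omega
      · first | linarith | nlinarith
    · intro _ h'
      rcases hb' with hb' | hb'
      · omega
      · first | linarith | nlinarith
  · push_neg at cD
    rw [Nat.sub_eq_zero_of_le cD.le] at cC
    obtain ⟨kA, hk⟩ := Nat.exists_eq_add_of_le cD.le
    have hkE : E * v + E * kB = E * u + E * kA := by rw [← Nat.mul_add, hk, Nat.mul_add]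
    have hx : E * P < x := by by_contra h'; push_neg at h'; first | linarith | nlinarith
    have hs : m * x + 2 * (E * P) ≤ E * kA + E * kB + E * (v + kB) := by
      by_cases g : x < v
      · have := h2 (by omega) g
        first | linarith | nlinarith
      · push_neg at g
        have g1 := Nat.mul_le_mul_left E g
        obtain ⟨s, hs⟩ := Nat.exists_eq_add_of_le
          (show m * x + x ≤ E * kA + E * kB + E * (v + kB) by (first | linarith | nlinarith))
        have g2 : 2 * (E * (x + (v + kB))) ≤ (m + 3 * E) * x + (x + s) := by (first | linarith | nlinarith)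
        have g3 : 2 * (E * P) ≤ x + s := by
          by_contra h'; push_neg at h'
          have := Nat.mul_le_mul_left (m + 3 * E + 1) (Nat.succ_le_of_lt h')
          have := Nat.zero_le ((m + 3 * E) * s)
          simp only [Nat.succ_eq_add_one] at *
          linarith
        omega
    obtain ⟨a, b, c, rfl, ha, hb, hc⟩ := three m x (E * kA) (E * kB) (E * (v + kB)) (E * P') hm
      (by omega)
    refine H_sp a b c u 0 le_rfl (by omega) (ih _ _ _ ?_) (ih _ _ _ ?_)
      (ih _ _ _ (Or.inr ⟨by (first | linarith | nlinarith), fun h => by omega⟩))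
    · rcases ha with rfl | ha
      · exact Or.inl ⟨rfl, by omega⟩
      · exact Or.inr ⟨by (first | linarith | nlinarith), fun _ _ => by (first | linarith | nlinarith)⟩
    · rcases hb with rfl | hb
      · exact Or.inl ⟨rfl, by omega⟩
      · exact Or.inr ⟨by (first | linarith | nlinarith), fun _ _ => by (first | linarith | nlinarith)⟩

theorem step_gen {q m E P P' : ℕ} (hE : 0 < E) (hm : 0 < m) (hP : E * P' + m ≤ E * P)
    (h4 : P * (m + 3 * E + 1) ≤ 3 ^ q)
    (ih : ∀ x u v, R (m + E) E P' (3 ^ q) x u v → H q x u v) (x u v : ℕ)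
    (h : R (m + 3 * E + 1) E P (3 * 3 ^ q) x u v) : H (q + 1) x u v := by
  rcases le_total v u with h' | h'
  · exact step_le hE hm hP h4 ih x u v h' h
  · exact (step_le hE hm hP h4 ih x v u h' h.symm).symm

end Pool.Agent.H74.Cw
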