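import Pool.Agent.H74.Cw2

namespace Pool.Agent.H74.Cw
open Finset

/-- A winnable state with `x` coins never contradicted and `y b` coins contradicted by scale `b`. -/
def Pf (q x : ℕ) (y : Fin 3 → ℕ) : Prop :=
  ∃ (N : ℕ) (_ : NeZero N) (X : Finset (Fin N)) (Y : Fin 3 → Finset (Fin N)),
    X.card = x ∧ (∀ b, (Y b).card = y b) ∧ (∀ b, Disjoint X (Y b)) ∧
    (∀ b b', b ≠ b' → Disjoint (Y b) (Y b')) ∧ Win {p | p.1 ∈ X ∨ p.1 ∈ Y p.2} q

theorem small {N : ℕ} (X : Finset (Fin N)) (Y : Fin 3 → Finset (Fin N))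
    (h1 : ∀ b, Disjoint X (Y b)) (h2 : ∀ b b', b ≠ b' → Disjoint (Y b) (Y b')) (c : Fin N)
    (h : ∀ p ∈ {p : Fin N × Fin 3 | p.1 ∈ X ∨ p.1 ∈ Y p.2}, p.1 = c) :
    X.card + (Y 0).card + (Y 1).card + (Y 2).card ≤ 1 := by
  haveI : Nonempty (Fin N) := ⟨c⟩
  rw [← Finset.card_union_of_disjoint (h1 0), ← Finset.card_union_of_disjoint,
    ← Finset.card_union_of_disjoint]
  · refine Finset.card_le_one_iff_subset_singleton.2 ⟨c, fun a ha => Finset.mem_singleton.2 ?_⟩
    simp only [Finset.mem_union] at ha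
    rcases ha with ((ha | ha) | ha) | ha
    · exact h (a, 0) (Or.inl ha)
    · exact h (a, 0) (Or.inr ha)
    · exact h (a, 1) (Or.inr ha)
    · exact h (a, 2) (Or.inr ha)
  · simp only [Finset.disjoint_union_left]
    exact ⟨⟨h1 2, h2 0 2 (by decide)⟩, h2 1 2 (by decide)⟩
  · simp only [Finset.disjoint_union_left]
    exact ⟨h1 1, h2 0 1 (by decide)⟩

theorem pf_zero {x : ℕ} {y : Fin 3 → ℕ} (h : Pf 0 x y) : x + y 0 + y 1 + y 2 ≤ 1 := by
  obtain ⟨N, _, X, Y, rfl, hY, h1, h2, hw⟩ := h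
  obtain ⟨c, hc⟩ := win_zero hw
  rw [← hY, ← hY, ← hY]
  exact small X Y h1 h2 c hc

theorem pf_inv {q x : ℕ} {y : Fin 3 → ℕ} (h : Pf (q + 1) x y) : x + y 0 + y 1 + y 2 ≤ 1 ∨
    ∃ (s : Fin 3) (a : Fin 3 → ℕ) (z : Fin 3 → Fin 3 → ℕ), a 0 + a 1 + a 2 = x ∧
      (∀ b, b ≠ s → z 0 b + z 1 b + z 2 b = y b) ∧ (∀ o, z o s + a o = y s + x) ∧
      ∀ o, Pf q (a o) (z o) := by
  obtain ⟨N, hN, X, Y, rfl, hY, h1, h2, hw⟩ := h
  rcases win_inv hw with ⟨c, hc⟩ | ⟨s, f, hf⟩
  · left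
    rw [← hY, ← hY, ← hY]
    exact small X Y h1 h2 c hc
  right
  let Z : Fin 3 → Fin 3 → Finset (Fin N) := fun o b =>
    if b = s then Y s ∪ X.filter (fun c => ¬ f c = o) else (Y b).filter (f · = o)
  have Zs : ∀ o, Z o s = Y s ∪ X.filter (fun c => ¬ f c = o) := fun o => by simp [Z]
  have Zb : ∀ o b, b ≠ s → Z o b = (Y b).filter (f · = o) := fun o b hb => by simp [Z, hb]
  refine ⟨s, fun o => (X.filter (f · = o)).card, fun o b => (Z o b).card, card3 X f,
    fun b hb => ?_, fun o => ?_, fun o => ⟨N, hN, _, Z o, rfl, fun _ => rfl, fun b => ?_,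
    fun b b' hb => ?_, (hf o).mono ?_⟩⟩
  · simp only [Zb _ b hb]
    rw [card3, hY]
  · have := Finset.card_filter_add_card_filter_not (s := X) (fun c => f c = o)
    simp only [Zs]
    rw [Finset.card_union_of_disjoint (Finset.disjoint_of_subset_right (Finset.filter_subset _ _)
      (h1 s).symm), hY]
    omega
  · by_cases hb : b = s
    · rw [hb, Zs, Finset.disjoint_union_right]
      exact ⟨Finset.disjoint_of_subset_left (Finset.filter_subset _ _) (h1 s),
        Finset.disjoint_filter_filter_not _ _ _⟩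
    · rw [Zb _ b hb]
      exact Finset.disjoint_filter_filter (h1 b)
  · have key : ∀ b, b ≠ s → Disjoint (Z o s) (Z o b) := fun b hb => by
      rw [Zs, Zb _ b hb, Finset.disjoint_union_left]
      exact ⟨Finset.disjoint_of_subset_right (Finset.filter_subset _ _) (h2 s b hb.symm),
        Finset.disjoint_filter_filter (h1 b)⟩
    by_cases e : b = s
    · rw [e] at hb ⊢; exact key b' hb.symm
    · by_cases e' : b' = s
      · rw [e']; exact (key b e).symm
      · rw [Zb _ b e, Zb _ b' e']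
        exact Finset.disjoint_filter_filter (h2 b b' hb)
  · rintro ⟨c, b⟩ hp
    simp only [Set.mem_setOf_eq] at hp ⊢
    rcases hp with hp | hp
    · rw [Finset.mem_filter] at hp
      exact ⟨Or.inl hp.1, Or.inr hp.2⟩
    · by_cases e : b = s
      · rw [e, Zs, Finset.mem_union, Finset.mem_filter] at hp
        exact ⟨by rw [e]; tauto, Or.inl e⟩
      · rw [Zb _ b e, Finset.mem_filter] at hp
        exact ⟨Or.inr hp.1, Or.inr hp.2⟩

theorem lt_pow3 (q : ℕ) : 2 * q + 1 ≤ 3 ^ q := by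
  induction q with
  | zero => simp
  | succ q ih => rw [pow_succ]; omega

theorem pf_le : ∀ (q x : ℕ) (y : Fin 3 → ℕ), Pf q x y →
    (2 * q + 1) * x + (y 0 + y 1 + y 2) ≤ 3 ^ q := by
  intro q
  induction q with
  | zero => intro x y h; have := pf_zero h; omega
  | succ q ih =>
    intro x y h
    rcases pf_inv h with h | ⟨s, a, z, rfl, h2, h3, h4⟩
    · have := lt_pow3 (q + 1)
      rcases Nat.eq_zero_or_pos x with rfl | hx
      · omega
      · obtain rfl : x = 1 := by omega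
        omega
    · have i0 := ih _ _ (h4 0)
      have i1 := ih _ _ (h4 1)
      have i2 := ih _ _ (h4 2)
      have e0 := h3 0
      have e1 := h3 1
      have e2 := h3 2
      rw [pow_succ]
      obtain rfl | rfl | rfl := fin3 s
      · have := h2 1 (by decide); have := h2 2 (by decide); linarith
      · have := h2 0 (by decide); have := h2 2 (by decide); linarith
      · have := h2 0 (by decide); have := h2 1 (by decide); linarith

/-- tight states -/
def Tt (q x : ℕ) (y : Fin 3 → ℕ) : Prop :=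
  Pf q x y ∧ (2 * q + 1) * x + (y 0 + y 1 + y 2) = 3 ^ q

theorem tt_inv {q x : ℕ} {y : Fin 3 → ℕ} (hq : 1 ≤ q) (h : Tt (q + 1) x y) :
    ∃ (s : Fin 3) (a : Fin 3 → ℕ) (z : Fin 3 → Fin 3 → ℕ), y s = 0 ∧ a 0 + a 1 + a 2 = x ∧
      (∀ b, b ≠ s → z 0 b + z 1 b + z 2 b = y b) ∧ (∀ o, z o s + a o = x) ∧
      ∀ o, Tt q (a o) (z o) := by
  obtain ⟨h, he⟩ := h
  rw [pow_succ] at he
  rcases pf_inv h with h | ⟨s, a, z, rfl, h2, h3, h4⟩
  · have := lt_pow3 q
    rcases Nat.eq_zero_or_pos x with rfl | hx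
    · omega
    · obtain rfl : x = 1 := by omega
      omega
  · have i0 := pf_le _ _ _ (h4 0)
    have i1 := pf_le _ _ _ (h4 1)
    have i2 := pf_le _ _ _ (h4 2)
    have e0 := h3 0
    have e1 := h3 1
    have e2 := h3 2
    have key : y s = 0 ∧ (2 * q + 1) * a 0 + (z 0 0 + z 0 1 + z 0 2) = 3 ^ q ∧
        (2 * q + 1) * a 1 + (z 1 0 + z 1 1 + z 1 2) = 3 ^ q ∧
        (2 * q + 1) * a 2 + (z 2 0 + z 2 1 + z 2 2) = 3 ^ q := by
      have e : (2 * (q + 1) + 1) * (a 0 + a 1 + a 2) = (2 * q + 1) * a 0 + (2 * q + 1) * a 1 +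
        (2 * q + 1) * a 2 + 2 * (a 0 + a 1 + a 2) := by ring
      obtain rfl | rfl | rfl := fin3 s
      · have := h2 1 (by decide); have := h2 2 (by decide); omega
      · have := h2 0 (by decide); have := h2 2 (by decide); omega
      · have := h2 0 (by decide); have := h2 1 (by decide); omega
    refine ⟨s, a, z, key.1, rfl, h2, fun o => by have := h3 o; omega, fun o => ⟨h4 o, ?_⟩⟩
    obtain rfl | rfl | rfl := fin3 o
    · exact key.2.1
    · exact key.2.2.1
    · exact key.2.2.2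

theorem pf_start {N d : ℕ} (hN : 0 < N) (h : Solvable N d) : Pf d N (fun _ => 0) := by
  obtain ⟨T, hT⟩ := h
  exact ⟨N, ⟨hN.ne'⟩, univ, fun _ => ∅, by simp, by simp, by simp, by simp,
    T, fun p _ => hT p.1 p.2⟩

theorem nodiv {d c b m : ℕ} (h3 : ¬ 3 ∣ d) (h : d * b = c * 3 ^ m) (h0 : 0 < c) (hc : c < d) :
    False := by
  have hco : Nat.Coprime d (3 ^ m) :=
    Nat.Coprime.pow_right m ((Nat.Prime.coprime_iff_not_dvd Nat.prime_three).2 h3).symm
  have := Nat.le_of_dvd h0 (hco.dvd_of_dvd_mul_right ⟨b, h.symm⟩)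
  omega

theorem third : ∀ s s' : Fin 3, s ≠ s' → ∃ t, t ≠ s ∧ t ≠ s' ∧ ∀ b, b = s ∨ b = s' ∨ b = t := by
  decide

theorem sum3 (y : Fin 3 → ℕ) {s s' t : Fin 3} (h1 : s ≠ s') (h2 : t ≠ s) (h3 : t ≠ s') :
    y 0 + y 1 + y 2 = y s + y s' + y t := by
  obtain rfl | rfl | rfl := fin3 s <;> obtain rfl | rfl | rfl := fin3 s' <;>
    obtain rfl | rfl | rfl := fin3 t <;> first | omega | contradiction

theorem lvl {r K m a : ℕ} {y : Fin 3 → ℕ} {s s' t : Fin 3} (hr : 1 ≤ r) (hK : 2 * r + 9 = 9 * K)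
    (hK3 : 3 ≤ K) (hX : 3 ^ (r + 1) = K * 3 ^ m) (h1 : s ≠ s') (h2 : t ≠ s) (h3 : t ≠ s')
    (h4 : ∀ b, b = s ∨ b = s' ∨ b = t) (hv : y s' + a = 3 ^ m) (ht : y t = 0)
    (ha : 3 * K * 3 ^ m ≤ (2 * r + 4) * a + 3 * 3 ^ m) (h : Tt (r + 1 + 1) a y) :
    ∃ b, (2 * r + 2) * b + y s + a = K * 3 ^ m := by
  have he := h.2
  rw [pow_succ, hX, sum3 y h1 h2 h3, ht] at he
  have hp : 0 < 3 ^ m := by positivity
  obtain ⟨K, rfl⟩ : ∃ k, K = k + 3 := ⟨K - 3, by omega⟩
  have hu : y s ≠ 0 := by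
    intro h0
    refine nodiv (d := 2 * r + 4) (c := 3 * K + 8) (b := a) (m := m) (by omega) ?_ (by omega)
      (by omega)
    rw [h0] at he
    linarith
  have hv' : y s' ≠ 0 := by
    intro h0
    have : a = 3 ^ m := by omega
    rw [this] at he
    have : (2 * (r + 1 + 1) + 1) = 9 * K + 23 := by omega
    rw [this] at he
    nlinarith [Nat.zero_le (K * 3 ^ m)]
  obtain ⟨s'', b, z, e0, e1, e2, e3, e4⟩ := tt_inv (by omega) h
  obtain rfl : s'' = t := by
    rcases h4 s'' with rfl | rfl | h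
    · exact absurd e0 hu
    · exact absurd e0 hv'
    · exact h
  have k1 : ∀ o, (2 * r + 2) * b o + z o s + z o s' + a = (K + 3) * 3 ^ m := by
    intro o
    have := (e4 o).2
    rw [hX, sum3 (z o) h1 h2 h3] at this
    have := e3 o
    linarith
  have k2 : ∀ o, z o s = 0 ∨ z o s' = 0 := by
    intro o
    obtain ⟨s3, -, -, f0, -⟩ := tt_inv hr (e4 o)
    rcases h4 s3 with rfl | rfl | rfl
    · exact Or.inl f0
    · exact Or.inr f0
    · exfalso
      have g1 := e3 o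
      have g2 := k1 o
      have g3 : b o = a := by omega
      rw [g3] at g2
      have g4 : 2 * r = 9 * K + 18 := by omega
      have g5 : (9 * K + 21) * a ≤ (K + 3) * 3 ^ m := by nlinarith
      have g6 : (3 * K + 6) * 3 ^ m ≤ (9 * K + 22) * a := by nlinarith
      have g7 := Nat.mul_le_mul_left (9 * K + 22) g5
      have g8 := Nat.mul_le_mul_left (9 * K + 21) g6
      generalize 3 ^ m = X at *
      nlinarith [Nat.zero_le (K * X), Nat.zero_le (K * K * X)]
  have k3 : ∀ o, z o s = 0 → z o s' ≠ y s' := by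
    intro o h0 h5
    have g2 := k1 o
    rw [h0, h5] at g2
    exact nodiv (d := 2 * r + 2) (c := K + 2) (b := b o) (m := m) (by omega) (by linarith)
      (by omega) (by omega)
  have s1 := e2 s h2.symm
  have s2 := e2 s' h3.symm
  have : ∃ o, z o s = y s ∧ z o s' = 0 := by
    have := k2 0; have := k2 1; have := k2 2
    have := k3 0; have := k3 1; have := k3 2
    by_contra hn
    simp only [not_exists] at hn
    have := hn 0; have := hn 1; have := hn 2
    omega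
  obtain ⟨o, o1, o2⟩ := this
  exact ⟨b o, by have := k1 o; rw [o1, o2] at this; linarith⟩

theorem no_tight {r K m : ℕ} (hr : 1 ≤ r) (hK : 2 * r + 9 = 9 * K) (hK3 : 3 ≤ K)
    (hX : 3 ^ (r + 1) = K * 3 ^ m) : ¬ Tt (r + 1 + 1 + 1 + 1) (3 * 3 ^ m) (fun _ => 0) := by
  intro h
  have hp : 0 < 3 ^ m := by positivity
  obtain ⟨s, a, z, -, -, e2, e3, e4⟩ := tt_inv (by omega) h
  have h' := e4 0
  have e3' := e3 0
  have zb : ∀ b, b ≠ s → z 0 b = 0 := fun b hb => by have := e2 b hb; omega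
  generalize a 0 = x at *
  generalize z 0 = y at *
  obtain ⟨s', a', z', f0, f1, f2, f3, f4⟩ := tt_inv (by omega) h'
  have he := h'.2
  obtain ⟨s1, hs1⟩ := exists_ne s
  obtain ⟨t1, u1, u2, -⟩ := third s s1 hs1.symm
  rw [pow_succ, pow_succ, hX, sum3 y hs1.symm u1 u2, zb s1 hs1, zb t1 u1] at he
  have hx : x = 3 ^ m := by
    have g : (2 * r + 6) * x = (2 * r + 6) * 3 ^ m := by
      have : K * 3 ^ m * 3 * 3 = (2 * r + 9) * 3 ^ m := by rw [hK]; ring
      linarith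
    exact Nat.eq_of_mul_eq_mul_left (by omega) g
  subst hx
  have hss : s ≠ s' := by
    rintro rfl
    omega
  obtain ⟨t, h2, h3, h4⟩ := third s s' hss
  have zt : ∀ o, z' o t = 0 := by
    have := f2 t h3
    have := zb t h2
    intro o
    obtain rfl | rfl | rfl := fin3 o <;> omega
  have hle : ∀ o, (2 * r + 4) * a' o + 3 ^ m ≤ 3 * K * 3 ^ m := by
    intro o
    have g := (f4 o).2
    rw [pow_succ, hX, sum3 (z' o) hss h2 h3] at g
    have := f3 o
    nlinarith [Nat.zero_le (z' o s), Nat.zero_le (z' o t)]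
  have hge : ∀ o, 3 * K * 3 ^ m ≤ (2 * r + 4) * a' o + 3 * 3 ^ m := by
    have g0 := hle 0
    have g1 := hle 1
    have g2 := hle 2
    have g : (2 * r + 4) * (a' 0 + a' 1 + a' 2) + 5 * 3 ^ m = 9 * K * 3 ^ m := by
      rw [f1, ← hK]; ring
    intro o
    obtain rfl | rfl | rfl := fin3 o <;> linarith
  obtain ⟨b0, g0⟩ := lvl hr hK hK3 hX hss h2 h3 h4 (f3 0) (zt 0) (hge 0) (f4 0)
  obtain ⟨b1, g1⟩ := lvl hr hK hK3 hX hss h2 h3 h4 (f3 1) (zt 1) (hge 1) (f4 1)
  obtain ⟨b2, g2⟩ := lvl hr hK hK3 hX hss h2 h3 h4 (f3 2) (zt 2) (hge 2) (f4 2)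
  have g3 := f2 s hss
  obtain ⟨K, rfl⟩ : ∃ k, K = k + 3 := ⟨K - 3, by omega⟩
  exact nodiv (d := 2 * r + 2) (c := 3 * K + 6) (b := b0 + b1 + b2) (m := m) (by omega)
    (by linarith) (by omega) (by omega)

end Pool.Agent.H74.Cw
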