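import Pool.Agent.H74.Cubes

set_option autoImplicit false

namespace Pool.Agent.H74.Cubes

variable {R : Type} [CommRing R]

/-- Functions of degree at most `w` on the discrete cube. -/
def Deg (w : ℕ) {n : ℕ} (f : V n → R) : Prop :=
  (fun s => Multiplicative.ofAdd (f s)) ∈ (P (Λ (Multiplicative R) w) n).s 0

lemma Deg.add {w n : ℕ} {f g : V n → R} (hf : Deg w f) (hg : Deg w g) :
    Deg w (fun s => f s + g s) := mul_mem hf hg

lemma Deg.neg {w n : ℕ} {f : V n → R} (hf : Deg w f) : Deg w (fun s => -f s) := inv_mem hf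

lemma Deg.sub {w n : ℕ} {f g : V n → R} (hf : Deg w f) (hg : Deg w g) :
    Deg w (fun s => f s - g s) := by
  simpa only [sub_eq_add_neg] using hf.add hg.neg

lemma Deg.const (w n : ℕ) (a : R) : Deg w (fun _ : V n => a) :=
  const_mem _ n 0 _ (by simp [Λ])

lemma Deg.mono {w w' n : ℕ} (h : w ≤ w') {f : V n → R} (hf : Deg w f) : Deg w' f :=
  le_mem _ _ (fun k => by
    simp only [Λ]
    split_ifs
    · exact le_rfl
    · omega
    · exact bot_le
    · exact le_rfl) n 0 _ hf

lemma Deg.mul_const {w n : ℕ} {f : V n → R} (hf : Deg w f) (c : R) : Deg w (fun s => f s * c) :=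
  map_mem _ _ (AddMonoidHom.toMultiplicative (AddMonoidHom.mulRight c)) (fun k a ha => by
    simp only [Λ] at *
    split_ifs at *
    · trivial
    · rw [Subgroup.mem_bot] at ha ⊢
      rw [ha, map_one]) n 0 _ hf

lemma Deg.mul {w w' n : ℕ} {f g : V n → R} (hf : Deg w f) (hg : Deg w' g) :
    Deg (w + w') (fun s => f s * g s) :=
  sep w w' n 0 0 (fun s t => Multiplicative.ofAdd (f s * g t)) (fun t => hf.mul_const (g t))
    (fun s => by
      have := hg.mul_const (f s)
      unfold Deg at this
      simpa only [mul_comm] using this)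

lemma Deg.pow {n : ℕ} {f : V n → R} (hf : Deg 1 f) (d : ℕ) : Deg d (fun s => f s ^ d) := by
  induction d with
  | zero => simpa using Deg.const 0 n (1 : R)
  | succ d ih => simpa only [pow_succ] using ih.mul hf

lemma Deg.dir {w : ℕ} (hw : 1 ≤ w) {n : ℕ} (i : Fin n) (a b : R) :
    Deg w (fun s : V n => if s i then b else a) := by
  have := dir_mem (Λ (Multiplicative R) w) (by simp [Λ, hw]) n i (Multiplicative.ofAdd a)
    (Multiplicative.ofAdd b)
  unfold Deg
  convert this using 2 with s
  dsimp only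
  split_ifs <;> rfl

lemma Deg.uniq {w n : ℕ} (hn : w < n) {f g : V n → R} (hf : Deg w f) (hg : Deg w g)
    (h : ∀ s, s ≠ (fun _ => true) → f s = g s) : f (fun _ => true) = g (fun _ => true) := by
  have := top_mem _ ⊥ n 0 _ (hf.sub hg) (by simp [Λ, hn]) (fun s hs => by simp [h s hs])
  rw [Subgroup.mem_bot] at this
  exact sub_eq_zero.1 (Multiplicative.ofAdd.injective this)

end Pool.Agent.H74.Cubes
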