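import Mathlib

set_option autoImplicit false

namespace Pool.Agent.H74.Degen

open Polynomial

section
variable {S : Type} [CommRing S] (θ : S →+* S[X]) {ι : Type} (f j : ι → S) (δ : ι → ℕ)

theorem lift_coeff (hh : ∀ g m, θ ((θ g).coeff m) = monomial m ((θ g).coeff m))
    (hd : ∀ e, (θ (f e)).natDegree ≤ δ e) (hj : ∀ e, (θ (f e)).coeff (δ e) = j e) (s : Set ι)
    (x : S) (hx : x ∈ Ideal.span (j '' s)) : ∀ m, ∃ h ∈ Ideal.span (f '' s),
      (θ h).natDegree ≤ m ∧ (θ h).coeff m = (θ x).coeff m := by
  induction hx using Submodule.span_induction with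
  | mem x hx =>
    obtain ⟨e, he, rfl⟩ := hx
    intro m
    have h1 : θ (j e) = monomial (δ e) (j e) := by
      have := hh (f e) (δ e)
      rwa [hj] at this
    by_cases hm : δ e = m
    · subst hm
      exact ⟨f e, Ideal.subset_span ⟨e, he, rfl⟩, hd e, by rw [hj, h1, coeff_monomial_same]⟩
    · exact ⟨0, zero_mem _, by simp, by rw [h1, coeff_monomial, if_neg hm]; simp⟩
  | zero => exact fun m => ⟨0, zero_mem _, by simp, rfl⟩
  | add x y _ _ ihx ihy =>
    intro m
    obtain ⟨a, a1, a2, a3⟩ := ihx m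
    obtain ⟨b, b1, b2, b3⟩ := ihy m
    refine ⟨a + b, add_mem a1 b1, ?_, by rw [map_add, map_add, coeff_add, coeff_add, a3, b3]⟩
    rw [map_add]
    exact (natDegree_add_le _ _).trans (max_le a2 b2)
  | smul c x _ ih =>
    intro m
    choose h h1 h2 h3 using ih
    refine ⟨∑ p ∈ Finset.HasAntidiagonal.antidiagonal m, (θ c).coeff p.1 * h p.2,
      Ideal.sum_mem _ (fun p _ => Ideal.mul_mem_left _ _ (h1 _)), ?_, ?_⟩
    · rw [map_sum]
      apply natDegree_sum_le_of_forall_le
      intro p hp
      rw [map_mul, hh, ← Finset.HasAntidiagonal.mem_antidiagonal.1 hp]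
      exact natDegree_mul_le.trans (add_le_add (natDegree_monomial_le _) (h2 _))
    · rw [smul_eq_mul, map_mul, coeff_mul, map_sum, finsetSum_coeff]
      apply Finset.sum_congr rfl
      intro p hp
      rw [map_mul, hh, ← Finset.HasAntidiagonal.mem_antidiagonal.1 hp, add_comm, coeff_monomial_mul, h3]

theorem reduce (he : ∀ g, (θ g).eval 1 = g)
    (hh : ∀ g m, θ ((θ g).coeff m) = monomial m ((θ g).coeff m))
    (hd : ∀ e, (θ (f e)).natDegree ≤ δ e) (hj : ∀ e, (θ (f e)).coeff (δ e) = j e) (s : Set ι)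
    (a : S) : ∃ b, a - b ∈ Ideal.span (f '' s) ∧
      (b = 0 ∨ (θ b).leadingCoeff ∉ Ideal.span (j '' s)) := by
  induction hn : (θ a).degree using WellFoundedLT.induction generalizing a with
  | ind n ih =>
    by_cases h0 : a = 0
    · exact ⟨0, by simp [h0], Or.inl rfl⟩
    by_cases h1 : (θ a).leadingCoeff ∈ Ideal.span (j '' s)
    · obtain ⟨h, k1, k2, k3⟩ := lift_coeff θ f j δ hh hd hj s _ h1 (θ a).natDegree
      have h2 : θ a ≠ 0 := fun h => h0 (by rw [← he a, h, eval_zero])
      have h3 : (θ (a - h)).degree < n := by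
        rw [← hn, degree_eq_natDegree h2, degree_lt_iff_coeff_zero]
        intro m hm
        rw [map_sub, coeff_sub]
        rcases hm.eq_or_lt with rfl | hm
        · rw [k3, leadingCoeff, hh, coeff_monomial_same, sub_self]
        · rw [coeff_eq_zero_of_natDegree_lt hm, coeff_eq_zero_of_natDegree_lt (k2.trans_lt hm),
            sub_self]
      obtain ⟨b, b1, b2⟩ := ih _ h3 (a - h) rfl
      refine ⟨b, ?_, b2⟩
      have := add_mem b1 k1
      rwa [show a - h - b + h = a - b by ring] at this
    · exact ⟨a, by simp, Or.inr h1⟩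

variable [IsDomain S] [DecidableEq ι]

theorem lead_mem (he : ∀ g, (θ g).eval 1 = g)
    (hh : ∀ g m, θ ((θ g).coeff m) = monomial m ((θ g).coeff m))
    (hd : ∀ e, (θ (f e)).natDegree ≤ δ e) (hj : ∀ e, (θ (f e)).coeff (δ e) = j e) (E : Finset ι)
    (hp : ∀ s : Finset ι, s ⊆ E → (Ideal.span (j '' s)).IsPrime)
    (hn : ∀ s : Finset ι, s ⊆ E → ∀ e ∈ E, e ∉ s → j e ∉ Ideal.span (j '' s))
    (s : Finset ι) (hs : s ⊆ E) : ∀ g ∈ Ideal.span (f '' s),
      (θ g).leadingCoeff ∈ Ideal.span (j '' s) := by
  induction s using Finset.induction_on with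
  | empty =>
    intro g hg
    simp only [Finset.coe_empty, Set.image_empty, Ideal.span_empty, Ideal.mem_bot] at hg
    simp [hg]
  | insert e s hes ih =>
    have hs' : s ⊆ E := (Finset.subset_insert e s).trans hs
    have heE : e ∈ E := hs (Finset.mem_insert_self e s)
    have ih := ih hs'
    intro g hg
    rw [Finset.coe_insert, Set.image_insert_eq, Ideal.mem_span_insert] at hg
    obtain ⟨a, z, hz, rfl⟩ := hg
    obtain ⟨b, b1, b2⟩ := reduce θ f j δ he hh hd hj s a
    have hle : Ideal.span (j '' (s : Set ι)) ≤ Ideal.span (j '' (insert e s : Finset ι)) :=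
      Ideal.span_mono (Set.image_mono (by simp))
    have h1 : (a - b) * f e + z ∈ Ideal.span (f '' (s : Set ι)) :=
      add_mem (Ideal.mul_mem_right _ _ b1) hz
    have h2 := ih _ h1
    rw [show a * f e + z = b * f e + ((a - b) * f e + z) by ring]
    generalize (a - b) * f e + z = h at h1 h2
    rcases b2 with rfl | b2
    · rw [zero_mul, zero_add]
      exact hle h2
    have h3 := hn s hs' e heE hes
    have h4 : j e ≠ 0 := fun h => h3 (h ▸ zero_mem _)
    have h5 : (θ (f e)).leadingCoeff = j e := by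
      rw [leadingCoeff, le_antisymm (hd e) (le_natDegree_of_ne_zero (by rw [hj]; exact h4)), hj]
    have h6 : (θ (b * f e)).leadingCoeff = (θ b).leadingCoeff * j e := by
      rw [map_mul, leadingCoeff_mul, h5]
    have h7 : (θ (b * f e)).leadingCoeff ∉ Ideal.span (j '' (s : Set ι)) := by
      rw [h6]
      intro h
      rcases (hp s hs').mem_or_mem h with h | h
      · exact b2 h
      · exact h3 h
    have h8 : (θ (b * f e)).leadingCoeff ∈ Ideal.span (j '' (insert e s : Finset ι)) := by
      rw [h6]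
      exact Ideal.mul_mem_left _ _ (Ideal.subset_span ⟨e, by simp, rfl⟩)
    rw [map_add]
    rcases lt_trichotomy (θ (b * f e)).degree (θ h).degree with h9 | h9 | h9
    · rw [leadingCoeff_add_of_degree_lt h9]
      exact hle h2
    · rw [leadingCoeff_add_of_degree_eq h9]
      · exact add_mem h8 (hle h2)
      · intro h0
        apply h7
        rw [eq_neg_of_add_eq_zero_left h0]
        exact neg_mem h2
    · rw [leadingCoeff_add_of_degree_lt' h9]
      exact h8

theorem degen (he : ∀ g, (θ g).eval 1 = g)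
    (hh : ∀ g m, θ ((θ g).coeff m) = monomial m ((θ g).coeff m))
    (hd : ∀ e, (θ (f e)).natDegree ≤ δ e) (hj : ∀ e, (θ (f e)).coeff (δ e) = j e) (E : Finset ι)
    (hp : ∀ s : Finset ι, s ⊆ E → (Ideal.span (j '' s)).IsPrime)
    (hn : ∀ s : Finset ι, s ⊆ E → ∀ e ∈ E, e ∉ s → j e ∉ Ideal.span (j '' s)) :
    (Ideal.span (f '' E)).IsPrime := by
  have G := lead_mem θ f j δ he hh hd hj E hp hn E subset_rfl
  have P := hp E subset_rfl
  refine ⟨fun h => P.ne_top ?_, fun {a b} h => ?_⟩
  · have := G 1 (h ▸ Submodule.mem_top)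
    rw [map_one, leadingCoeff_one] at this
    exact (Ideal.eq_top_iff_one _).2 this
  · obtain ⟨a', a1, a2⟩ := reduce θ f j δ he hh hd hj E a
    obtain ⟨b', b1, b2⟩ := reduce θ f j δ he hh hd hj E b
    rcases a2 with rfl | a2
    · left; simpa using a1
    rcases b2 with rfl | b2
    · right; simpa using b1
    exfalso
    have h1 : a' * b' ∈ Ideal.span (f '' (E : Set ι)) := by
      rw [show a' * b' = a * b - (a - a') * b - a' * (b - b') by ring]
      exact sub_mem (sub_mem h (Ideal.mul_mem_right _ _ a1)) (Ideal.mul_mem_left _ _ b1)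
    have h2 := G _ h1
    rw [map_mul, leadingCoeff_mul] at h2
    rcases P.mem_or_mem h2 with h | h
    · exact a2 h
    · exact b2 h

end

theorem lin_dvd {D : Type} [CommRing D] {K : Type} [Field K] (φ : D →+* K)
    (hφ : Function.Injective φ) (a b : D) (ha : a ≠ 0)
    (hab : ∀ c, a ∣ b * c → a ∣ c) (g : D[X]) (hg : g.eval₂ φ (-φ b / φ a) = 0) :
    C a * X + C b ∣ g := by
  have ha' : φ a ≠ 0 := fun h => ha (hφ (by rw [h, map_zero]))
  induction hn : g.natDegree using Nat.strong_induction_on generalizing g with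
  | _ n ih =>
    rcases Nat.eq_zero_or_pos n with rfl | hpos
    · rw [eq_C_of_natDegree_eq_zero hn] at hg ⊢
      rw [eval₂_C] at hg
      rw [hφ (hg.trans (map_zero φ).symm), map_zero]
      exact dvd_zero _
    have h1 : a ∣ (-b) ^ n * g.leadingCoeff := by
      have h2 : g.eval₂ φ (-φ b / φ a) * φ a ^ n = φ (∑ i ∈ Finset.range (n + 1),
          g.coeff i * (-b) ^ i * a ^ (n - i)) := by
        rw [eval₂_eq_sum_range, hn, Finset.sum_mul, map_sum]
        apply Finset.sum_congr rfl
        intro i hi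
        obtain ⟨m, rfl⟩ := Nat.exists_eq_add_of_le (Nat.lt_succ_iff.1 (Finset.mem_range.1 hi))
        simp only [map_mul, map_pow, map_neg, add_tsub_cancel_left, div_pow, pow_add]
        field_simp
      rw [hg, zero_mul, ← map_zero φ] at h2
      have h3 := hφ h2
      rw [Finset.sum_range_succ, Nat.sub_self, pow_zero, mul_one] at h3
      rw [leadingCoeff, hn, mul_comm, eq_neg_of_add_eq_zero_right h3.symm, dvd_neg]
      apply Finset.dvd_sum
      intro i hi
      exact Dvd.dvd.mul_left (dvd_pow_self a (Nat.sub_ne_zero_of_lt (Finset.mem_range.1 hi))) _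
    have h4 : ∀ m c, a ∣ (-b) ^ m * c → a ∣ c := by
      intro m
      induction m with
      | zero => simp
      | succ m ihm =>
        intro c hc
        apply ihm
        apply hab
        rw [← dvd_neg]
        convert hc using 1
        ring
    obtain ⟨c, hc⟩ := h4 _ _ h1
    obtain ⟨m, rfl⟩ := Nat.exists_eq_add_of_le' hpos
    have h5 : (g - (C a * X + C b) * monomial m c).natDegree < m + 1 := by
      rw [Nat.lt_succ_iff, natDegree_le_iff_coeff_eq_zero]
      intro N hN
      obtain ⟨r, rfl⟩ := Nat.exists_eq_add_of_le' (Nat.succ_le_of_lt hN)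
      have e1 : (C a * X + C b) * monomial m c = monomial (m + 1) (a * c) + monomial m (b * c) := by
        rw [add_mul, mul_assoc, X_mul_monomial, C_mul_monomial, C_mul_monomial]
      rw [e1, coeff_sub, coeff_add, coeff_monomial, coeff_monomial, if_neg hN.ne, add_zero]
      split_ifs with h
      · rw [← h, ← hc, leadingCoeff, hn, sub_self]
      · rw [sub_zero]
        apply coeff_eq_zero_of_natDegree_lt
        omega
    have h6 := ih _ h5 _ (by
      rw [eval₂_sub, hg, eval₂_mul, eval₂_add, eval₂_mul, eval₂_C, eval₂_C, eval₂_X]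
      field_simp
      simp) rfl
    have := dvd_add h6 (dvd_mul_right (C a * X + C b) (monomial m c))
    rwa [sub_add_cancel] at this

theorem lin_prime {S : Type} [CommRing S] (θ : S →+* S[X]) (x : S) (he : ∀ g, (θ g).eval x = g)
    (T : Set S) (hT : ∀ g ∈ T, θ g = C g) (hP : (Ideal.span T).IsPrime) (a b : S)
    (hθ : θ (a * x + b) = C a * X + C b) (ha : a ∉ Ideal.span T)
    (hab : ∀ c, b * c ∈ Ideal.span (insert a T) → c ∈ Ideal.span (insert a T)) :
    (Ideal.span (insert (a * x + b) T)).IsPrime := by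
  set P := Ideal.span T
  let π := Ideal.Quotient.mk P
  let φ := algebraMap (S ⧸ P) (FractionRing (S ⧸ P))
  have hφ : Function.Injective φ := IsFractionRing.injective _ _
  have ha0 : π a ≠ 0 := fun h => ha (Ideal.Quotient.eq_zero_iff_mem.1 h)
  have ha' : φ (π a) ≠ 0 := fun h => ha0 (hφ (by rw [h, map_zero]))
  have hdv : ∀ c, π a ∣ π c ↔ c ∈ Ideal.span (insert a T) := by
    intro c
    rw [Ideal.mem_span_insert]
    constructor
    · rintro ⟨u, hu⟩
      obtain ⟨u, rfl⟩ := Ideal.Quotient.mk_surjective u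
      refine ⟨u, c - u * a, Ideal.Quotient.eq_zero_iff_mem.1 ?_, by ring⟩
      rw [map_sub, map_mul, hu]; ring
    · rintro ⟨u, z, hz, rfl⟩
      rw [map_add, Ideal.Quotient.eq_zero_iff_mem.2 hz, add_zero, map_mul]
      exact dvd_mul_left _ _
  let ψ : S →+* FractionRing (S ⧸ P) :=
    (eval₂RingHom φ (-φ (π b) / φ (π a))).comp ((mapRingHom π).comp θ)
  have : Ideal.span (insert (a * x + b) T) = RingHom.ker ψ := by
    apply le_antisymm
    · rw [Ideal.span_le]
      rintro g (rfl | hg)
      · simp only [SetLike.mem_coe, RingHom.mem_ker, ψ, RingHom.comp_apply, hθ, coe_mapRingHom,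
          Polynomial.map_add, Polynomial.map_mul, map_C, map_X, coe_eval₂RingHom, eval₂_add,
          eval₂_mul, eval₂_C, eval₂_X]
        field_simp
        simp
      · have : π g = 0 := Ideal.Quotient.eq_zero_iff_mem.2 (Ideal.subset_span hg)
        simp [RingHom.mem_ker, ψ, hT g hg, this]
    · intro g hg
      obtain ⟨q, hq⟩ := lin_dvd φ hφ (π a) (π b) ha0 (fun c hc => by
        obtain ⟨c, rfl⟩ := Ideal.Quotient.mk_surjective c
        rw [← map_mul, hdv] at hc
        exact (hdv c).2 (hab c hc)) ((θ g).map π) hg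
      obtain ⟨q, rfl⟩ := map_surjective π Ideal.Quotient.mk_surjective q
      rw [Ideal.mem_span_insert]
      refine ⟨q.eval x, g - q.eval x * (a * x + b), Ideal.Quotient.eq_zero_iff_mem.1 ?_, by ring⟩
      have h1 := congrArg (eval (π x)) hq
      rw [eval_mul, eval_map, eval_map, eval₂_at_apply, eval₂_at_apply, he] at h1
      rw [eval_add, eval_mul, eval_C, eval_C, eval_X] at h1
      change π _ = 0
      rw [map_sub, h1, map_mul, map_add, map_mul]
      ring
  rw [this]
  exact RingHom.ker_isPrime ψ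

end Pool.Agent.H74.Degen
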