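import Mathlib
import Pool.Agent.Results.MP_c79496_ag.PrimePmd

set_option autoImplicit false

namespace Pool.Agent.H74.Degen

open Finset Pool.Agent.Results.MP_c79496_ag.PrimePmd

section
open Polynomial
variable {S : Type} [CommRing S] (θ : S →+* S[X]) {ι : Type} (f j : ι → S) (s : Set ι)

theorem low_lift (hh : ∀ g m, θ ((θ g).coeff m) = monomial m ((θ g).coeff m))
    (hj : ∀ e, θ (j e) = C (j e)) (hf : ∀ e ∈ s, (θ (f e)).coeff 0 = j e)
    (x : S) (hx : x ∈ Ideal.span (j '' s)) : ∀ m, ∃ h ∈ Ideal.span (f '' s),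
      X ^ m ∣ θ h ∧ (θ h).coeff m = (θ x).coeff m := by
  induction hx using Submodule.span_induction with
  | mem x hx =>
    obtain ⟨e, he, rfl⟩ := hx
    intro m
    by_cases hm : m = 0
    · subst hm
      exact ⟨f e, Ideal.subset_span ⟨e, he, rfl⟩, by simp, by rw [hj, hf e he, coeff_C_zero]⟩
    · exact ⟨0, zero_mem _, by simp, by rw [hj, coeff_C, if_neg hm]; simp⟩
  | zero => exact fun m => ⟨0, zero_mem _, by simp, rfl⟩
  | add x y _ _ ihx ihy =>
    intro m
    obtain ⟨a, a1, a2, a3⟩ := ihx m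
    obtain ⟨b, b1, b2, b3⟩ := ihy m
    refine ⟨a + b, add_mem a1 b1, ?_, by rw [map_add, map_add, coeff_add, coeff_add, a3, b3]⟩
    rw [map_add]
    exact dvd_add a2 b2
  | smul c x _ ih =>
    intro m
    choose h h1 h2 h3 using ih
    refine ⟨∑ p ∈ Finset.HasAntidiagonal.antidiagonal m, (θ c).coeff p.1 * h p.2,
      Ideal.sum_mem _ (fun p _ => Ideal.mul_mem_left _ _ (h1 _)), ?_, ?_⟩
    · rw [map_sum]
      apply Finset.dvd_sum
      intro p hp
      rw [map_mul, hh, ← Finset.HasAntidiagonal.mem_antidiagonal.1 hp, pow_add,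
        ← C_mul_X_pow_eq_monomial]
      exact mul_dvd_mul (dvd_mul_left _ _) (h2 _)
    · rw [smul_eq_mul, map_mul, coeff_mul, map_sum, finsetSum_coeff]
      apply Finset.sum_congr rfl
      intro p hp
      rw [map_mul, hh, ← Finset.HasAntidiagonal.mem_antidiagonal.1 hp, add_comm,
        coeff_monomial_mul, h3]

theorem order_lift (hh : ∀ g m, θ ((θ g).coeff m) = monomial m ((θ g).coeff m))
    (hj : ∀ e, θ (j e) = C (j e)) (hf : ∀ e ∈ s, (θ (f e)).coeff 0 = j e)
    {T K : Type} [CommRing T] [IsDomain T] [CommRing K] (ψ : S →+* T) (t : T) (ht : t ≠ 0)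
    (ε : T →+* K) (hε : ε t = 0) (hker : ∀ x, ε (ψ x) = 0 → x ∈ Ideal.span (j '' s))
    (h0 : ∀ g ∈ Ideal.span (f '' s), (θ g).eval₂ ψ t = 0) (g : S) (hg : (θ g).eval₂ ψ t = 0)
    (m : ℕ) : ∃ h ∈ Ideal.span (f '' s), X ^ m ∣ θ (g - h) := by
  induction m with
  | zero => exact ⟨0, zero_mem _, by simp⟩
  | succ m ih =>
    obtain ⟨h, h1, q, hq⟩ := ih
    have h2 : (θ (g - h)).eval₂ ψ t = 0 := by rw [map_sub, eval₂_sub, hg, h0 h h1, sub_zero]
    rw [hq, eval₂_mul, eval₂_pow, eval₂_X] at h2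
    have h3 := congrArg ε ((mul_eq_zero.1 h2).resolve_left (pow_ne_zero _ ht))
    rw [hom_eval₂, hε, eval₂_at_zero, map_zero] at h3
    have h4 : (θ (g - h)).coeff m = q.coeff 0 := by
      rw [hq]
      simpa using coeff_X_pow_mul q m 0
    obtain ⟨h', k1, k2, k3⟩ := low_lift θ f j s hh hj hf _ (hker _ h3) m
    rw [← h4, hh, coeff_monomial_same] at k3
    refine ⟨h + h', add_mem h1 k1, ?_⟩
    rw [← sub_sub, map_sub, X_pow_dvd_iff]
    intro i hi
    rw [coeff_sub]
    rcases (Nat.lt_succ_iff.1 hi).eq_or_lt with rfl | hi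
    · rw [k3, sub_self]
    · rw [X_pow_dvd_iff.1 k2 i hi, X_pow_dvd_iff.1 ⟨q, hq⟩ i hi, sub_self]

theorem hom_mem (hh : ∀ e ∈ s, ∃ m, θ (f e) = monomial m (f e)) (x : S)
    (hx : x ∈ Ideal.span (f '' s)) : ∀ m, (θ x).coeff m ∈ Ideal.span (f '' s) := by
  induction hx using Submodule.span_induction with
  | mem x hx =>
    obtain ⟨e, he, rfl⟩ := hx
    intro m
    obtain ⟨r, hr⟩ := hh e he
    rw [hr, coeff_monomial]
    split_ifs
    · exact Ideal.subset_span ⟨e, he, rfl⟩
    · exact zero_mem _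
  | zero => simp
  | add x y _ _ ihx ihy =>
    intro m
    rw [map_add, coeff_add]
    exact add_mem (ihx m) (ihy m)
  | smul c x _ ih =>
    intro m
    rw [smul_eq_mul, map_mul, coeff_mul]
    exact Ideal.sum_mem _ (fun p _ => Ideal.mul_mem_left _ _ (ih _))

theorem mem_of_approx (he : ∀ g, (θ g).eval 1 = g)
    (hh : ∀ e ∈ s, ∃ m, θ (f e) = monomial m (f e)) (g : S)
    (hg : ∀ m, ∃ h ∈ Ideal.span (f '' s), X ^ m ∣ θ (g - h)) : g ∈ Ideal.span (f '' s) := by
  obtain ⟨h, h1, h2⟩ := hg ((θ g).natDegree + 1)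
  rw [← he g, eval_eq_sum_range]
  refine Ideal.sum_mem _ (fun i hi => ?_)
  have := X_pow_dvd_iff.1 h2 i (Finset.mem_range.1 hi)
  rw [map_sub, coeff_sub, sub_eq_zero] at this
  rw [this]
  exact Ideal.mul_mem_right _ _ (hom_mem θ f s hh h h1 i)

end

section
open MvPolynomial
variable {k : Type} [Field k] {n d : ℕ} (E : Finset (Finset (Fin n)))

theorem minor_not_mem (hcl : ∀ e ∈ E, ∀ e' ∈ E, e ⊆ e' → e = e') (hne : ∀ e ∈ E, e.Nonempty)
    (v : Fin n) {ι : Type} [Fintype ι] [DecidableEq ι] (μ : ι → Finset (Fin n))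
    (hμ : Function.Injective μ) (h1 : ∀ a, μ a ∈ E) (h2 : ∀ a, v ∈ μ a) (lam : ι → Fin d)
    (hl : Function.Injective lam) :
    (Matrix.of fun a b => mono k ((μ a).erase v) (lam b)).det
      ∉ Ideal.span (fe k (univ : Finset (Fin d)) '' (E : Set (Finset (Fin n)))) := by
  classical
  let φ : MvPolynomial (Fin n × Fin d) k →+* k :=
    eval (fun p => if ∃ b, lam b = p.2 ∧ p.1 ∈ (μ b).erase v then 1 else 0)
  refine not_mem φ _ ?_ _ ?_
  · rintro _ ⟨e, he, rfl⟩
    rw [fe, map_sum]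
    apply sum_eq_zero
    intro l _
    rw [mono, map_prod]
    by_contra h
    have h3 : ∀ i ∈ e, ∃ b, lam b = l ∧ i ∈ (μ b).erase v := by
      intro i hi
      by_contra h4
      exact h (prod_eq_zero hi (by simp only [φ, eval_X, if_neg h4]))
    obtain ⟨i0, hi0⟩ := hne e he
    obtain ⟨b, hb, _⟩ := h3 i0 hi0
    have h4 : e ⊆ (μ b).erase v := by
      intro i hi
      obtain ⟨b', hb', h5⟩ := h3 i hi
      rwa [hl (hb.trans hb'.symm)]
    have h5 := hcl e he _ (h1 b) (h4.trans (erase_subset _ _))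
    exact notMem_erase v (μ b) (h4 (h5 ▸ h2 b))
  · rw [RingHom.map_det, ← Matrix.det_one (n := ι)]
    congr 1
    ext a b
    simp only [RingHom.mapMatrix_apply, Matrix.map_apply, Matrix.of_apply, mono, map_prod,
      Matrix.one_apply]
    split_ifs with h
    · subst h
      exact prod_eq_one (fun i hi => by simp only [φ, eval_X]; exact if_pos ⟨a, rfl, hi⟩)
    · obtain ⟨i, h3, h4⟩ := not_subset.1 (fun h5 => h (hμ (hcl _ (h1 a) _ (h1 b) h5)))
      refine prod_eq_zero (i := i) (mem_erase.2 ⟨fun h5 => h4 (h5 ▸ h2 b), h3⟩) ?_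
      simp only [φ, eval_X]
      rw [if_neg]
      rintro ⟨b', h5, h6⟩
      exact h4 (hl h5 ▸ mem_of_mem_erase h6)

theorem deg_le (hcl : ∀ e ∈ E, ∀ e' ∈ E, e ⊆ e' → e = e') (hne : ∀ e ∈ E, e.Nonempty)
    (hd : 1 ≤ d)
    (hP : (Ideal.span (fe k (univ : Finset (Fin d)) '' (E : Set (Finset (Fin n))))).IsPrime)
    (v : Fin n) : (E.filter (v ∈ ·)).card ≤ d := by
  by_contra h
  push Not at h
  obtain ⟨μ⟩ : Nonempty (Fin d ↪ (E.filter (v ∈ ·))) :=
    Function.Embedding.nonempty_of_card_le (by rw [Fintype.card_fin, Fintype.card_coe]; exact h.le)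
  have h1 : ∀ a, (μ a : Finset (Fin n)) ∈ E := fun a => (mem_filter.1 (μ a).2).1
  have h2 : ∀ a, v ∈ (μ a : Finset (Fin n)) := fun a => (mem_filter.1 (μ a).2).2
  have h3 := minor_not_mem (k := k) E hcl hne v (fun a => (μ a : Finset (Fin n)))
    (Subtype.val_injective.comp μ.injective) h1 h2 id Function.injective_id
  set M := (Matrix.of fun a b => mono k ((μ a : Finset (Fin n)).erase v) (id b) :
    Matrix (Fin d) (Fin d) (MvPolynomial (Fin n × Fin d) k)) with hM
  have h4 : M.mulVec (fun l => X (v, l)) = fun a => fe k univ (μ a : Finset (Fin n)) := by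
    funext a
    simp only [Matrix.mulVec, dotProduct, hM, Matrix.of_apply, id, fe, mono]
    exact sum_congr rfl (fun l _ => prod_erase_mul _ (fun i => X (i, l)) (h2 a))
  have h5 := congrFun (congrArg M.adjugate.mulVec h4) ⟨0, hd⟩
  rw [Matrix.mulVec_mulVec, Matrix.adjugate_mul, Matrix.smul_mulVec, Matrix.one_mulVec,
    Pi.smul_apply, smul_eq_mul] at h5
  have h6 : M.det * X (v, ⟨0, hd⟩)
      ∈ Ideal.span (fe k (univ : Finset (Fin d)) '' (E : Set (Finset (Fin n)))) := by
    rw [h5]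
    simp only [Matrix.mulVec, dotProduct]
    refine Ideal.sum_mem _ (fun a _ => ?_)
    exact Ideal.mul_mem_left _ _ (Ideal.subset_span ⟨_, h1 a, rfl⟩)
  refine not_mem (pt k {v} (⟨0, hd⟩ : Fin d)) _ ?_ _ (by simp [pt])
    ((hP.mem_or_mem h6).resolve_left h3)
  rintro _ ⟨e, he, rfl⟩
  refine pt_zero _ _ _ _ (fun h7 => ?_)
  have h8 : e = {v} := (subset_singleton_iff.1 h7).resolve_left (hne e he).ne_empty
  have : E.filter (v ∈ ·) ⊆ {e} := by
    intro e' he'
    rw [mem_singleton]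
    exact (hcl e he e' (mem_filter.1 he').1 (h7.trans (by simpa using (mem_filter.1 he').2))).symm
  have := card_le_card this
  rw [card_singleton] at this
  omega

theorem solve {T K : Type} [CommRing T] [Field K] (ε : T →+* K) (hu : ∀ x, ε x ≠ 0 → IsUnit x)
    (y : Fin n × Fin d → K) (c : Finset (Fin n) → T)
    (hc : ∀ e ∈ E, ε (c e) = ∑ l, ∏ i ∈ e, y (i, l)) (Y0 : Fin n × Fin d → T)
    (h0 : ∀ p, ε (Y0 p) = y p) (hne : ∀ e ∈ E, e.Nonempty)
    (hr : ∀ v, ∃ lam : E.filter (v ∈ ·) → Fin d,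
      (Matrix.of fun a b : E.filter (v ∈ ·) => ∏ i ∈ a.1.erase v, y (i, lam b)).det ≠ 0)
    (U : Finset (Fin n)) : ∃ Y : Fin n × Fin d → T, (∀ p, ε (Y p) = y p) ∧
      ∀ e ∈ E, e ⊆ U → ∑ l, ∏ i ∈ e, Y (i, l) = c e := by
  induction U using Finset.induction_on with
  | empty => exact ⟨Y0, h0, fun e he h => absurd (subset_empty.1 h) (hne e he).ne_empty⟩
  | insert v U hv ih =>
    obtain ⟨Y, h1, h2⟩ := ih
    obtain ⟨lam, hl⟩ := hr v
    let M : Matrix (E.filter (v ∈ ·)) (E.filter (v ∈ ·)) T :=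
      Matrix.of fun a b => ∏ i ∈ a.1.erase v, Y (i, lam b)
    have hM : IsUnit M.det := by
      apply hu
      rw [RingHom.map_det]
      convert hl
      ext a b
      simp [M, h1]
    let r : E.filter (v ∈ ·) → T := fun a => c a - ∑ l, ∏ i ∈ a.1, Y (i, l)
    let w := M⁻¹.mulVec r
    have hw : ∀ b, ε (w b) = 0 := by
      intro b
      simp only [w, Matrix.mulVec, dotProduct, map_sum, map_mul]
      apply sum_eq_zero
      intro a _
      simp only [r, map_sub, map_sum, map_prod, h1, hc a (mem_filter.1 a.2).1, sub_self, mul_zero]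
    have hMw : M.mulVec w = r := by
      rw [Matrix.mulVec_mulVec, Matrix.mul_nonsing_inv _ hM, Matrix.one_mulVec]
    refine ⟨fun p => if p.1 = v then Y p + ∑ b, if lam b = p.2 then w b else 0 else Y p,
      fun p => ?_, fun e he hU => ?_⟩
    · beta_reduce
      split_ifs
      · rw [map_add, map_sum, h1, sum_eq_zero, add_zero]
        intro b _
        split_ifs
        · exact hw b
        · exact map_zero _
      · exact h1 p
    · by_cases hve : v ∈ e
      · have h3 := congrFun hMw ⟨e, mem_filter.2 ⟨he, hve⟩⟩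
        simp only [Matrix.mulVec, dotProduct, M, Matrix.of_apply, r] at h3
        rw [eq_sub_iff_add_eq] at h3
        rw [← h3]
        have h4 : ∀ l, (∏ i ∈ e, if i = v then Y (i, l) + ∑ b, (if lam b = l then w b else 0)
            else Y (i, l)) = ∏ i ∈ e, Y (i, l)
              + ∑ b, if lam b = l then (∏ i ∈ e.erase v, Y (i, lam b)) * w b else 0 := by
          intro l
          rw [← prod_erase_mul _ _ hve, ← prod_erase_mul _ _ hve, if_pos rfl,
            prod_congr rfl (fun i hi => if_neg (ne_of_mem_erase hi)), mul_add, mul_sum]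
          congr 1
          apply sum_congr rfl
          intro b _
          split_ifs with h
          · rw [h]
          · exact mul_zero _
        simp only [h4, sum_add_distrib]
        rw [add_comm, sum_comm]
        simp
      · rw [← h2 e he (fun i hi => (mem_insert.1 (hU hi)).resolve_left (fun h => hve (h ▸ hi)))]
        exact sum_congr rfl (fun l _ => prod_congr rfl (fun i hi =>
          if_neg (fun h : i = v => hve (h ▸ hi))))

end

end Pool.Agent.H74.Degen
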