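import Mathlib
import Pool.Agent.H74.Degen2

set_option autoImplicit false

namespace Pool.Agent.H74.Degen

open RingTheory.Sequence

section
variable {A : Type} [CommRing A]

theorem reg_snoc (l : List A) (r : A) : IsWeaklyRegular A (l ++ [r]) ↔
    IsWeaklyRegular A l ∧ ∀ x, r * x ∈ Ideal.ofList l → x ∈ Ideal.ofList l := by
  rw [isWeaklyRegular_append_iff, isWeaklyRegular_singleton_iff,
    isSMulRegular_quotient_iff_mem_of_smul_mem]
  simp

theorem ofList_perm {l l' : List A} (h : l.Perm l') : Ideal.ofList l = Ideal.ofList l' :=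
  congrArg Ideal.span (Set.ext fun _ => h.mem_iff)

variable [IsLocalRing A]

theorem unit_coeff (g : List A) : ∀ q ∈ Ideal.ofList g,
    q ∈ IsLocalRing.maximalIdeal A * Ideal.ofList g ∨
      ∃ x g' u, IsUnit u ∧ g.Perm (x :: g') ∧ q - u * x ∈ Ideal.ofList g' := by
  induction g with
  | nil =>
    intro q hq
    left
    simpa using hq
  | cons y t ih =>
    intro q hq
    rw [Ideal.ofList_cons] at hq ⊢
    obtain ⟨_, h1, q', h2, rfl⟩ := Submodule.mem_sup.1 hq
    obtain ⟨b, rfl⟩ := Ideal.mem_span_singleton'.1 h1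
    by_cases hb : IsUnit b
    · exact Or.inr ⟨y, t, b, hb, List.Perm.refl _, by simpa using h2⟩
    rcases ih q' h2 with h | ⟨x, g', u, hu, hp, h⟩
    · left
      exact add_mem (Ideal.mul_mem_mul hb (Ideal.mem_sup_left (Ideal.mem_span_singleton_self y)))
        (Ideal.mul_mono_right le_sup_right h)
    · refine Or.inr ⟨x, y :: g', u, hu, (hp.cons y).trans (List.Perm.swap _ _ _), ?_⟩
      rw [Ideal.ofList_cons, add_sub_assoc]
      exact add_mem (Ideal.mem_sup_left h1) (Ideal.mem_sup_right h)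

theorem exchange [IsNoetherianRing A] (l g : List A) (h : IsWeaklyRegular A (l ++ g))
    (hm : Ideal.ofList (l ++ g) ≤ IsLocalRing.maximalIdeal A) (f : A)
    (h1 : f ∈ Ideal.ofList (l ++ g))
    (h2 : f ∉ IsLocalRing.maximalIdeal A * Ideal.ofList (l ++ g) ⊔ Ideal.ofList l) :
    ∃ g', IsWeaklyRegular A ((l ++ [f]) ++ g') ∧
      Ideal.ofList ((l ++ [f]) ++ g') = Ideal.ofList (l ++ g) := by
  have h3 := h1
  rw [Ideal.ofList_append] at h3
  obtain ⟨p, hp, q, hq, rfl⟩ := Submodule.mem_sup.1 h3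
  rcases unit_coeff g q hq with h4 | ⟨x, g', u, hu, h4, h5⟩
  · refine absurd (add_mem (Ideal.mem_sup_right hp) (Ideal.mem_sup_left ?_)) h2
    exact Ideal.mul_mono_right (by rw [Ideal.ofList_append]; exact le_sup_right) h4
  have p1 : (l ++ g).Perm ((l ++ g') ++ [x]) := by
    rw [List.append_assoc]
    exact (h4.trans (List.perm_append_singleton x g').symm).append_left l
  have p2 : ((l ++ g') ++ [p + q]).Perm ((l ++ [p + q]) ++ g') := by
    rw [List.append_assoc, List.append_assoc]
    exact List.perm_append_comm.append_left l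
  have h6 : p + q - u * x ∈ Ideal.ofList (l ++ g') := by
    rw [Ideal.ofList_append, add_sub_assoc]
    exact add_mem (Ideal.mem_sup_left hp) (Ideal.mem_sup_right h5)
  have h7 : Ideal.ofList ((l ++ g') ++ [p + q]) = Ideal.ofList (l ++ g) := by
    apply le_antisymm
    · rw [Ideal.ofList_append, Ideal.ofList_singleton, sup_le_iff, Ideal.span_singleton_le_iff_mem]
      refine ⟨?_, h1⟩
      rw [ofList_perm p1, Ideal.ofList_append (l ++ g')]
      exact le_sup_left
    · rw [ofList_perm p1, Ideal.ofList_append (l ++ g'), Ideal.ofList_append (l ++ g'),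
        Ideal.ofList_singleton, Ideal.ofList_singleton, sup_le_iff,
        Ideal.span_singleton_le_iff_mem]
      refine ⟨le_sup_left, (Ideal.unit_mul_mem_iff_mem _ hu).1 ?_⟩
      rw [show u * x = p + q - (p + q - u * x) by ring]
      exact sub_mem (Ideal.mem_sup_right (Ideal.mem_span_singleton_self _)) (Ideal.mem_sup_left h6)
  have h8 := IsLocalRing.isWeaklyRegular_of_perm_of_subset_maximalIdeal h p1
    (fun r hr => hm (Ideal.subset_span hr))
  rw [reg_snoc] at h8
  refine ⟨g', IsLocalRing.isWeaklyRegular_of_perm_of_subset_maximalIdeal ?_ p2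
    (fun r hr => hm (h7.le (Ideal.subset_span hr))), (ofList_perm p2).symm.trans h7⟩
  rw [reg_snoc]
  refine ⟨h8.1, fun z hz => (Ideal.unit_mul_mem_iff_mem _ hu).1 (h8.2 _ ?_)⟩
  rw [show x * (u * z) = (p + q) * z - (p + q - u * x) * z by ring]
  exact sub_mem hz (Ideal.mul_mem_right _ _ h6)

theorem local_nzd [IsNoetherianRing A] {ι : Type} [DecidableEq ι] (f : ι → A) (E : Finset ι)
    (g : List A) (h : IsWeaklyRegular A g) (hg : Ideal.ofList g = Ideal.span (f '' E))
    (hm : Ideal.span (f '' E) ≤ IsLocalRing.maximalIdeal A)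
    (hi : ∀ s : Finset ι, s ⊆ E → ∀ e ∈ E, e ∉ s →
      f e ∉ IsLocalRing.maximalIdeal A * Ideal.span (f '' E) ⊔ Ideal.span (f '' s))
    (s : Finset ι) (hs : s ⊆ E) (e : ι) (he : e ∈ E) (hes : e ∉ s) :
    ∀ x, f e * x ∈ Ideal.span (f '' s) → x ∈ Ideal.span (f '' s) := by
  have key : ∀ s : Finset ι, s ⊆ E → ∃ l g', Ideal.ofList l = Ideal.span (f '' s) ∧
      IsWeaklyRegular A (l ++ g') ∧ Ideal.ofList (l ++ g') = Ideal.span (f '' E) := by
    intro s hs
    induction s using Finset.induction_on with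
    | empty => exact ⟨[], g, by simp, h, hg⟩
    | insert e s hes ih =>
      have hs' := (Finset.subset_insert e s).trans hs
      have he := hs (Finset.mem_insert_self e s)
      obtain ⟨l, g', k1, k2, k3⟩ := ih hs'
      obtain ⟨g'', k4, k5⟩ := exchange l g' k2 (k3 ▸ hm) (f e)
        (k3 ▸ Ideal.subset_span ⟨e, he, rfl⟩) (k3 ▸ k1 ▸ hi s hs' e he hes)
      refine ⟨l ++ [f e], g'', ?_, k4, k5.trans k3⟩
      rw [Ideal.ofList_append, k1, Ideal.ofList_singleton, Finset.coe_insert, Set.image_insert_eq,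
        Ideal.span_insert, sup_comm]
  obtain ⟨l, g', k1, k2, k3⟩ := key s hs
  obtain ⟨g'', k4, _⟩ := exchange l g' k2 (k3 ▸ hm) (f e)
    (k3 ▸ Ideal.subset_span ⟨e, he, rfl⟩) (k3 ▸ k1 ▸ hi s hs e he hes)
  rw [← k1]
  exact ((reg_snoc l (f e)).1 ((isWeaklyRegular_append_iff A _ _).1 k4).1).2

end

section
open Polynomial
variable {S : Type} [CommRing S] (θ : S →+* S[X]) {ι : Type} (f j : ι → S) (δ : ι → ℕ)

theorem mem_of_unit (s : Set ι) (he : ∀ g, (θ g).eval 1 = g)
    (hh : ∀ e ∈ s, ∃ m, θ (f e) = monomial m (f e)) (t x : S) (ht : IsUnit ((θ t).coeff 0))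
    (h : t * x ∈ Ideal.span (f '' s)) : x ∈ Ideal.span (f '' s) := by
  have h1 : ∀ m, (θ x).coeff m ∈ Ideal.span (f '' s) := by
    intro m
    induction m using Nat.strong_induction_on with
    | _ m ih =>
      have h2 := hom_mem θ f s hh _ h m
      rw [map_mul, coeff_mul, Finset.Nat.sum_antidiagonal_eq_sum_range_succ_mk,
        Finset.sum_range_succ', Ideal.add_mem_iff_right] at h2
      · exact (Ideal.unit_mul_mem_iff_mem _ ht).1 h2
      · refine Ideal.sum_mem _ (fun i hi => Ideal.mul_mem_left _ _ (ih _ ?_))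
        have := Finset.mem_range.1 hi
        simp only
        omega
  rw [← he x, eval_eq_sum_range]
  exact Ideal.sum_mem _ (fun i _ => Ideal.mul_mem_right _ _ (h1 i))

variable [IsDomain S] [DecidableEq ι]

theorem degen_nzd (he : ∀ g, (θ g).eval 1 = g)
    (hh : ∀ g m, θ ((θ g).coeff m) = monomial m ((θ g).coeff m))
    (hd : ∀ e, (θ (f e)).natDegree ≤ δ e) (hj : ∀ e, (θ (f e)).coeff (δ e) = j e) (E : Finset ι)
    (hp : ∀ s : Finset ι, s ⊆ E → ∀ e ∈ E, e ∉ s →
      ∀ x, j e * x ∈ Ideal.span (j '' s) → x ∈ Ideal.span (j '' s))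
    (hn : ∀ e ∈ E, j e ≠ 0) (s : Finset ι) (hs : s ⊆ E) (e : ι) (heE : e ∈ E) (hes : e ∉ s) :
    ∀ x, f e * x ∈ Ideal.span (f '' s) → x ∈ Ideal.span (f '' s) := by
  have h5 : ∀ e ∈ E, (θ (f e)).leadingCoeff = j e := by
    intro e he
    rw [leadingCoeff, le_antisymm (hd e) (le_natDegree_of_ne_zero (by rw [hj]; exact hn e he)), hj]
  have key : ∀ s : Finset ι, s ⊆ E → ∀ g ∈ Ideal.span (f '' s),
      (θ g).leadingCoeff ∈ Ideal.span (j '' s) := by
    intro s hs
    induction s using Finset.induction_on with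
    | empty =>
      intro g hg
      simp only [Finset.coe_empty, Set.image_empty, Ideal.span_empty, Ideal.mem_bot] at hg
      simp [hg]
    | insert e s hes ih =>
      have hs' : s ⊆ E := (Finset.subset_insert e s).trans hs
      have heE : e ∈ E := hs (Finset.mem_insert_self e s)
      have ih := ih hs'
      intro g hg
      rw [Finset.coe_insert, Set.image_insert_eq, Ideal.mem_span_insert] at hg
      obtain ⟨a, z, hz, rfl⟩ := hg
      obtain ⟨b, b1, b2⟩ := reduce θ f j δ he hh hd hj s a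
      have hle : Ideal.span (j '' (s : Set ι)) ≤ Ideal.span (j '' (insert e s : Finset ι)) :=
        Ideal.span_mono (Set.image_mono (by simp))
      have h1 : (a - b) * f e + z ∈ Ideal.span (f '' (s : Set ι)) :=
        add_mem (Ideal.mul_mem_right _ _ b1) hz
      have h2 := ih _ h1
      rw [show a * f e + z = b * f e + ((a - b) * f e + z) by ring]
      generalize (a - b) * f e + z = h at h1 h2
      rcases b2 with rfl | b2
      · rw [zero_mul, zero_add]
        exact hle h2
      have h6 : (θ (b * f e)).leadingCoeff = j e * (θ b).leadingCoeff := by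
        rw [map_mul, leadingCoeff_mul, h5 e heE, mul_comm]
      have h7 : (θ (b * f e)).leadingCoeff ∉ Ideal.span (j '' (s : Set ι)) := by
        rw [h6]
        exact fun h => b2 (hp s hs' e heE hes _ h)
      have h8 : (θ (b * f e)).leadingCoeff ∈ Ideal.span (j '' (insert e s : Finset ι)) := by
        rw [h6]
        exact Ideal.mul_mem_right _ _ (Ideal.subset_span ⟨e, by simp, rfl⟩)
      rw [map_add]
      rcases lt_trichotomy (θ (b * f e)).degree (θ h).degree with h9 | h9 | h9
      · rw [leadingCoeff_add_of_degree_lt h9]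
        exact hle h2
      · rw [leadingCoeff_add_of_degree_eq h9]
        · exact add_mem h8 (hle h2)
        · intro h0
          apply h7
          rw [eq_neg_of_add_eq_zero_left h0]
          exact neg_mem h2
      · rw [leadingCoeff_add_of_degree_lt' h9]
        exact h8
  intro x hx
  obtain ⟨b, b1, b2⟩ := reduce θ f j δ he hh hd hj s x
  rcases b2 with rfl | b2
  · simpa using b1
  have h1 : f e * b ∈ Ideal.span (f '' (s : Set ι)) := by
    rw [show f e * b = f e * x - f e * (x - b) by ring]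
    exact sub_mem hx (Ideal.mul_mem_left _ _ b1)
  have h2 := key s hs _ h1
  rw [map_mul, leadingCoeff_mul, h5 e heE] at h2
  exact absurd (hp s hs e heE hes _ h2) b2

theorem reg_list (E : Finset ι) (hp : ∀ s : Finset ι, s ⊆ E → ∀ e ∈ E, e ∉ s →
      ∀ x, f e * x ∈ Ideal.span (f '' s) → x ∈ Ideal.span (f '' s)) (s : Finset ι) (hs : s ⊆ E) :
    ∃ l, IsWeaklyRegular S l ∧ Ideal.ofList l = Ideal.span (f '' s) := by
  induction s using Finset.induction_on with
  | empty => exact ⟨[], IsWeaklyRegular.nil _ _, by simp⟩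
  | insert e s hes ih =>
    have hs' : s ⊆ E := (Finset.subset_insert e s).trans hs
    obtain ⟨l, k1, k2⟩ := ih hs'
    refine ⟨l ++ [f e], (reg_snoc l _).2 ⟨k1, ?_⟩, ?_⟩
    · rw [k2]
      exact hp s hs' e (hs (Finset.mem_insert_self e s)) hes
    · rw [Ideal.ofList_append, k2, Ideal.ofList_singleton, Finset.coe_insert, Set.image_insert_eq,
        Ideal.span_insert, sup_comm]

end

end Pool.Agent.H74.Degen
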