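import Mathlib
import Pool.Agent.H15.Brouwer

set_option autoImplicit false
set_option linter.unusedSimpArgs false

namespace Pool.Agent.H74.E2AC
open Matrix MatrixGroups

section alg
variable {A : Type} [CommRing A]

def up (a : A) : SL(2, A) := ⟨!![1, a; 0, 1], by simp [Matrix.det_fin_two]⟩
def lo (a : A) : SL(2, A) := ⟨!![1, 0; a, 1], by simp [Matrix.det_fin_two]⟩
def dg (u : Aˣ) : SL(2, A) := ⟨!![(u : A), 0; 0, (↑u⁻¹ : A)], by simp [Matrix.det_fin_two]⟩

theorem sl_ext {g h : SL(2, A)} (h00 : g 0 0 = h 0 0) (h01 : g 0 1 = h 0 1) (h10 : g 1 0 = h 1 0)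
    (h11 : g 1 1 = h 1 1) : g = h := by
  ext i j; fin_cases i <;> fin_cases j <;> assumption

theorem mul_ap (g h : SL(2, A)) (i j : Fin 2) : (g * h) i j = g i 0 * h 0 j + g i 1 * h 1 j := by
  simp [Matrix.mul_apply, Fin.sum_univ_two]

@[simp] theorem inv00 (g : SL(2, A)) : g⁻¹ 0 0 = g 1 1 := by
  rw [Matrix.SpecialLinearGroup.SL2_inv_expl]; rfl
@[simp] theorem inv01 (g : SL(2, A)) : g⁻¹ 0 1 = -g 0 1 := by
  rw [Matrix.SpecialLinearGroup.SL2_inv_expl]; rfl
@[simp] theorem inv10 (g : SL(2, A)) : g⁻¹ 1 0 = -g 1 0 := by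
  rw [Matrix.SpecialLinearGroup.SL2_inv_expl]; rfl
@[simp] theorem inv11 (g : SL(2, A)) : g⁻¹ 1 1 = g 0 0 := by
  rw [Matrix.SpecialLinearGroup.SL2_inv_expl]; rfl

theorem det2 (g : SL(2, A)) : g 0 0 * g 1 1 - g 0 1 * g 1 0 = 1 := by
  have := g.2; rw [Matrix.det_fin_two] at this; exact this

theorem up00 (a : A) : up a 0 0 = 1 := rfl
theorem up01 (a : A) : up a 0 1 = a := rfl
theorem up10 (a : A) : up a 1 0 = 0 := rfl
theorem up11 (a : A) : up a 1 1 = 1 := rfl
theorem lo00 (a : A) : lo a 0 0 = 1 := rfl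
theorem lo01 (a : A) : lo a 0 1 = 0 := rfl
theorem lo10 (a : A) : lo a 1 0 = a := rfl
theorem lo11 (a : A) : lo a 1 1 = 1 := rfl
theorem dg00 (u : Aˣ) : dg u 0 0 = u := rfl
theorem dg01 (u : Aˣ) : dg u 0 1 = 0 := rfl
theorem dg10 (u : Aˣ) : dg u 1 0 = 0 := rfl
theorem dg11 (u : Aˣ) : dg u 1 1 = (↑u⁻¹ : A) := rfl

theorem up_add (a b : A) : up (a + b) = up a * up b := by
  apply sl_ext <;> simp only [mul_ap, up00, up01, up10, up11] <;> ring

theorem up_zero : up (0 : A) = 1 := by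
  apply sl_ext <;> simp [up00, up01, up10, up11]

theorem lo_zero : lo (0 : A) = 1 := by
  apply sl_ext <;> simp [lo00, lo01, lo10, lo11]

theorem up_neg (a : A) : up (-a) = (up a)⁻¹ := by
  rw [eq_inv_iff_mul_eq_one, ← up_add, neg_add_cancel, up_zero]

def ww : SL(2, A) := up 1 * (lo 1)⁻¹ * up 1

theorem ww00 : (ww : SL(2, A)) 0 0 = 0 := by
  simp only [ww, mul_ap, inv00, inv01, inv10, inv11, up00, up01, up10, up11, lo00, lo01, lo10, lo11]; ring
theorem ww01 : (ww : SL(2, A)) 0 1 = 1 := by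
  simp only [ww, mul_ap, inv00, inv01, inv10, inv11, up00, up01, up10, up11, lo00, lo01, lo10, lo11]; ring
theorem ww10 : (ww : SL(2, A)) 1 0 = -1 := by
  simp only [ww, mul_ap, inv00, inv01, inv10, inv11, up00, up01, up10, up11, lo00, lo01, lo10, lo11]; ring
theorem ww11 : (ww : SL(2, A)) 1 1 = 0 := by
  simp only [ww, mul_ap, inv00, inv01, inv10, inv11, up00, up01, up10, up11, lo00, lo01, lo10, lo11]; ring

theorem lo_eq (a : A) : lo a = ww * up (-a) * ww⁻¹ := by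
  apply sl_ext <;> simp only [mul_ap, inv00, inv01, inv10, inv11, up00, up01, up10, up11, lo00,
    lo01, lo10, lo11, ww00, ww01, ww10, ww11] <;> ring

theorem dg_eq (u : Aˣ) : dg u = up (u : A) * lo (-(↑u⁻¹ : A)) * up (u : A) * ww⁻¹ := by
  have h : (u : A) * ↑u⁻¹ = 1 := u.mul_inv
  apply sl_ext <;> simp only [mul_ap, inv00, inv01, inv10, inv11, up00, up01, up10, up11, lo00,
    lo01, lo10, lo11, ww00, ww01, ww10, ww11, dg00, dg01, dg10, dg11]
  · linear_combination (u : A) * h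
  · linear_combination -h
  · linear_combination h
  · ring

/-- The elementary group. -/
def E2 (A : Type) [CommRing A] : Subgroup SL(2, A) :=
  Subgroup.closure (Set.range up ∪ Set.range lo)

theorem up_mem (a : A) : up a ∈ E2 A := Subgroup.subset_closure (Or.inl ⟨a, rfl⟩)
theorem lo_mem (a : A) : lo a ∈ E2 A := Subgroup.subset_closure (Or.inr ⟨a, rfl⟩)
theorem ww_mem : ww ∈ E2 A :=
  (E2 A).mul_mem ((E2 A).mul_mem (up_mem _) ((E2 A).inv_mem (lo_mem _))) (up_mem _)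
theorem dg_mem (u : Aˣ) : dg u ∈ E2 A := by
  rw [dg_eq]
  exact (E2 A).mul_mem ((E2 A).mul_mem ((E2 A).mul_mem (up_mem _) (lo_mem _)) (up_mem _))
    ((E2 A).inv_mem ww_mem)

theorem conj_up (h : SL(2, A)) (h0 : h 1 0 = 0) (t : A) :
    h * up t * h⁻¹ = up (h 0 0 ^ 2 * t) := by
  have hd := det2 h
  rw [h0] at hd
  apply sl_ext <;> simp only [mul_ap, inv00, inv01, inv10, inv11, up00, up01, up10, up11, h0]
  · linear_combination hd
  · ring
  · ring
  · linear_combination hd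

theorem E2_fg (T : Finset Aˣ)
    (hT : ∀ B : Subring A, (∀ u ∈ T, (u : A) ^ 2 ∈ B ∧ (↑u⁻¹ : A) ^ 2 ∈ B) → ∀ a, a ∈ B) :
    Group.FG (E2 A) := by
  classical
  let S : Finset SL(2, A) := insert (up 1) (insert (lo 1) (T.image dg))
  let H := Subgroup.closure (S : Set SL(2, A))
  have h1 : up 1 ∈ H := Subgroup.subset_closure (by simp [S])
  have h2 : lo 1 ∈ H := Subgroup.subset_closure (by simp [S])
  have h3 : ∀ u ∈ T, dg u ∈ H := fun u hu => Subgroup.subset_closure (by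
    simp only [S, Finset.coe_insert, Finset.coe_image]
    exact Or.inr (Or.inr ⟨u, hu, rfl⟩))
  let B : Subring A :=
    { carrier := {a | ∀ t, up t ∈ H → up (a * t) ∈ H}
      mul_mem' := fun {a b} ha hb t ht => by rw [mul_assoc]; exact ha _ (hb _ ht)
      one_mem' := fun t ht => by rwa [one_mul]
      add_mem' := fun {a b} ha hb t ht => by rw [add_mul, up_add]; exact H.mul_mem (ha _ ht) (hb _ ht)
      zero_mem' := fun t _ => by rw [zero_mul, up_zero]; exact H.one_mem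
      neg_mem' := fun {a} ha t ht => by rw [neg_mul, up_neg]; exact H.inv_mem (ha _ ht) }
  have hB : ∀ a, a ∈ B := hT B fun u hu => ⟨fun t ht => by
      have := conj_up (dg u) (dg10 u) t
      rw [dg00] at this
      rw [← this]
      exact H.mul_mem (H.mul_mem (h3 u hu) ht) (H.inv_mem (h3 u hu)), fun t ht => by
      have := conj_up (dg u)⁻¹ (by rw [inv10, dg10, neg_zero]) t
      rw [inv00, dg11] at this
      rw [← this]
      exact H.mul_mem (H.mul_mem (H.inv_mem (h3 u hu)) ht) (H.inv_mem (H.inv_mem (h3 u hu)))⟩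
  have hu : ∀ a, up a ∈ H := fun a => by simpa using hB a 1 h1
  have hw : ww ∈ H := H.mul_mem (H.mul_mem h1 (H.inv_mem h2)) h1
  have hE : H = E2 A := by
    apply le_antisymm
    · rw [Subgroup.closure_le]
      intro g hg
      simp only [S, Finset.coe_insert, Finset.coe_image, Set.mem_insert_iff, Set.mem_image] at hg
      rcases hg with rfl | rfl | ⟨u, _, rfl⟩
      · exact up_mem _
      · exact lo_mem _
      · exact dg_mem _
    · rw [E2, Subgroup.closure_le]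
      rintro g (⟨a, rfl⟩ | ⟨a, rfl⟩)
      · exact hu a
      · rw [lo_eq]; exact H.mul_mem (H.mul_mem hw (hu _)) (H.inv_mem hw)
  rw [Group.fg_iff_subgroup_fg, ← hE]
  exact ⟨S, rfl⟩

/-- level ideal of a subgroup -/
def lev (N : Subgroup SL(2, A)) : Ideal A where
  carrier := {c | ∀ t, up (c * t) ∈ N}
  add_mem' := fun {a b} ha hb t => by rw [add_mul, up_add]; exact N.mul_mem (ha t) (hb t)
  zero_mem' := fun t => by rw [zero_mul, up_zero]; exact N.one_mem
  smul_mem' := fun c x hx t => by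
    rw [smul_eq_mul, mul_comm c x, mul_assoc]; exact hx _

def Nrm (N : Subgroup SL(2, A)) : Prop := ∀ g ∈ N, ∀ w ∈ E2 A, w * g * w⁻¹ ∈ N

theorem tri {N : Subgroup SL(2, A)} (hN : Nrm N) {h : SL(2, A)} (hh : h ∈ N) (h0 : h 1 0 = 0) :
    h 0 0 ^ 2 - 1 ∈ lev N := by
  intro t
  have h1 : h * (up t * h⁻¹ * (up t)⁻¹) ∈ N := N.mul_mem hh (hN _ (N.inv_mem hh) _ (up_mem t))
  have h2 : h * (up t * h⁻¹ * (up t)⁻¹) = up ((h 0 0 ^ 2 - 1) * t) := by
    rw [← mul_assoc, ← mul_assoc, conj_up h h0, ← up_neg, ← up_add]; congr 1; ring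
  rwa [h2] at h1

theorem key {N : Subgroup SL(2, A)} (hN : Nrm N) {g : SL(2, A)} (hg : g ∈ N) (u : Aˣ) (r : A)
    (hr : (u : A) - ↑u⁻¹ = g 1 0 * r) : (u : A) ^ 4 - 1 ∈ lev N := by
  have hu : (u : A) * ↑u⁻¹ = 1 := u.mul_inv
  let y : SL(2, A) := dg u * up (↑u⁻¹ * r * g 1 1)
  have hy : y ∈ E2 A := (E2 A).mul_mem (dg_mem u) (up_mem _)
  have y00 : y 0 0 = u := by simp only [y, mul_ap, dg00, dg01, up00, up10]; ring
  have y01 : y 0 1 = r * g 1 1 := by
    simp only [y, mul_ap, dg00, dg01, up01, up11]; linear_combination r * g 1 1 * hu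
  have y10 : y 1 0 = 0 := by simp only [y, mul_ap, dg10, dg11, up00, up10]; ring
  have y11 : y 1 1 = ↑u⁻¹ := by simp only [y, mul_ap, dg10, dg11, up01, up11]; ring
  have hd := det2 g
  have hh : g * (y * g⁻¹ * y⁻¹) ∈ N := N.mul_mem hg (hN _ (N.inv_mem hg) _ hy)
  have e0 : (g * (y * g⁻¹ * y⁻¹)) 1 0 = 0 := by
    simp only [mul_ap, inv00, inv01, inv10, inv11, y00, y01, y10, y11]
    linear_combination (g 1 0 * g 1 1 * ↑u⁻¹) * hr
  have e1 : (g * (y * g⁻¹ * y⁻¹)) 0 0 = (↑u⁻¹ : A) ^ 2 := by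
    simp only [mul_ap, inv00, inv01, inv10, inv11, y00, y01, y10, y11]
    linear_combination (g 0 0 * g 1 1 * ↑u⁻¹) * hr + (↑u⁻¹ : A) ^ 2 * hd
  have h3 := tri hN hh e0
  rw [e1] at h3
  have h4 := (lev N).mul_mem_left (-(u : A) ^ 4) h3
  convert h4 using 1
  have : (u : A) ^ 4 * ((↑u⁻¹ : A) ^ 2) ^ 2 = 1 := by
    rw [← pow_mul, ← mul_pow, hu, one_pow]
  linear_combination this

theorem lo_of_lev {N : Subgroup SL(2, A)} (hN : Nrm N) {c : A} (hc : c ∈ lev N) (t : A) :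
    lo (c * t) ∈ N := by
  rw [lo_eq]
  refine hN _ ?_ _ ww_mem
  rw [← mul_neg]; exact hc _

theorem top_of_lev {N : Subgroup SL(2, A)} (hN : Nrm N) (h : (1 : A) ∈ lev N) : E2 A ≤ N := by
  rw [E2, Subgroup.closure_le]
  rintro g (⟨a, rfl⟩ | ⟨a, rfl⟩)
  · simpa using h a
  · simpa using lo_of_lev hN h a

theorem key' {N : Subgroup SL(2, A)} (hN : Nrm N) {g : SL(2, A)} (hg : g ∈ N) (c e : A)
    (he : e * e = 1) (hc : g 1 0 = e * c) (h1 : IsUnit (1 + c)) (h2 : IsUnit (2 + c))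
    (h3 : IsUnit (1 + (1 + c) ^ 2)) : c ∈ lev N := by
  obtain ⟨u, hu⟩ := h1
  have hu' : (u : A) * ↑u⁻¹ = 1 := u.mul_inv
  have h4 := key hN hg u (e * ↑u⁻¹ * (2 + c)) (by
    rw [hc]
    have : (u : A) = 1 + c := hu
    rw [this] at hu'
    linear_combination this - (1 + c) * hu' - (c * (↑u⁻¹ : A) * (2 + c)) * he)
  have h5 : (u : A) ^ 4 - 1 = ((2 + c) * (1 + (1 + c) ^ 2)) * c := by rw [hu]; ring
  rw [h5] at h4
  exact ((lev N).unit_mul_mem_iff_mem (h2.mul h3)).1 h4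

/-- the chart near the identity -/
def ch (b c : A) (d : Aˣ) : SL(2, A) := up (b * ↑d⁻¹) * dg d⁻¹ * lo (c * ↑d⁻¹)

theorem ch_mem (b c : A) (d : Aˣ) : ch b c d ∈ E2 A :=
  (E2 A).mul_mem ((E2 A).mul_mem (up_mem _) (dg_mem _)) (lo_mem _)

theorem ch01 (b c : A) (d : Aˣ) : ch b c d 0 1 = b := by
  have hu : (d : A) * ↑d⁻¹ = 1 := d.mul_inv
  simp only [ch, mul_ap, up00, up01, dg00, dg01, dg10, dg11, lo01, lo11, inv_inv]
  linear_combination b * hu
theorem ch10 (b c : A) (d : Aˣ) : ch b c d 1 0 = c := by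
  have hu : (d : A) * ↑d⁻¹ = 1 := d.mul_inv
  simp only [ch, mul_ap, up10, up11, dg00, dg01, dg10, dg11, lo00, lo10, inv_inv]
  linear_combination c * hu
theorem ch11 (b c : A) (d : Aˣ) : ch b c d 1 1 = d := by
  simp only [ch, mul_ap, up10, up11, dg00, dg01, dg10, dg11, lo01, lo11, inv_inv]
  ring

def Good (c : A) : Prop := IsUnit (1 + c) ∧ IsUnit (2 + c) ∧ IsUnit (1 + (1 + c) ^ 2)

theorem ch_lev {N : Subgroup SL(2, A)} (hN : Nrm N) {b c z : A} {d : Aˣ} (hd : (d : A) = 1 + z)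
    (hb : Good b) (hc : Good c) (hz : Good z) (hg : ch b c d ∈ N) :
    b ∈ lev N ∧ c ∈ lev N ∧ z ∈ lev N := by
  have h1 : c ∈ lev N := key' hN hg c 1 (by ring) (by rw [ch10]; ring) hc.1 hc.2.1 hc.2.2
  have h2 : b ∈ lev N := key' hN (hN _ hg _ ww_mem) b (-1) (by ring) (by
    simp only [mul_ap, inv00, inv10, ww00, ww01, ww10, ww11, ch01]; ring) hb.1 hb.2.1 hb.2.2
  refine ⟨h2, h1, ?_⟩
  have h3 : dg d⁻¹ ∈ N := by
    have : dg d⁻¹ = (up (b * ↑d⁻¹))⁻¹ * ch b c d * (lo (c * ↑d⁻¹))⁻¹ := by simp [ch, mul_assoc]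
    rw [this]
    exact N.mul_mem (N.mul_mem (N.inv_mem (h2 _)) hg) (N.inv_mem (lo_of_lev hN h1 _))
  have h4 := tri hN (N.inv_mem h3) (by rw [inv10, dg10, neg_zero])
  rw [inv00, dg11, inv_inv, hd] at h4
  have h5 : (1 + z) ^ 2 - 1 = (2 + z) * z := by ring
  rw [h5] at h4
  exact ((lev N).unit_mul_mem_iff_mem hz.2.1).1 h4

theorem up_one_lev {N : Subgroup SL(2, A)} (hN : Nrm N) (h2 : IsUnit (2 : A)) (h15 : IsUnit (15 : A))
    (hg : lo 1 ∈ N) : (1 : A) ∈ lev N := by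
  obtain ⟨u, hu⟩ := h2
  have h4 := key hN hg u (u - ↑u⁻¹) (by rw [lo10, one_mul])
  have h5 : (u : A) ^ 4 - 1 = 15 * 1 := by rw [hu]; norm_num
  rw [h5] at h4
  exact ((lev N).unit_mul_mem_iff_mem h15).1 h4

theorem nrm_map (N : Subgroup (E2 A)) [hN : N.Normal] : Nrm (N.map (E2 A).subtype) := by
  intro g' hg' w hw
  obtain ⟨g, hg, he⟩ := Subgroup.mem_map.1 hg'
  obtain ⟨w', rfl⟩ : ∃ w' : E2 A, (E2 A).subtype w' = w := ⟨⟨w, hw⟩, rfl⟩
  refine Subgroup.mem_map.2 ⟨w' * g * w'⁻¹, hN.conj_mem g hg w', ?_⟩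
  rw [map_mul, map_mul, map_inv, he]

theorem eq_top_of (N : Subgroup (E2 A)) [N.Normal] (h : (1 : A) ∈ lev (N.map (E2 A).subtype)) :
    N = ⊤ := by
  rw [eq_top_iff]
  intro g _
  obtain ⟨g', hg', he⟩ := top_of_lev (nrm_map N) h g.2
  rwa [← Subtype.ext he]

theorem perfect (h2 : IsUnit (2 : A)) (h3 : IsUnit (3 : A)) : commutator (E2 A) = ⊤ := by
  apply eq_top_of
  obtain ⟨u, hu⟩ := h2
  obtain ⟨v, hv⟩ := h3
  intro t
  let a : E2 A := ⟨dg u, dg_mem u⟩
  let b : E2 A := ⟨up (↑v⁻¹ * t), up_mem _⟩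
  refine Subgroup.mem_map.2 ⟨a * b * a⁻¹ * b⁻¹,
    Subgroup.commutator_mem_commutator (Subgroup.mem_top a) (Subgroup.mem_top b), ?_⟩
  have hv' : (v : A) * ↑v⁻¹ = 1 := v.mul_inv
  have ha : (E2 A).subtype a = dg u := by simp [a]
  have hb : (E2 A).subtype b = up (↑v⁻¹ * t) := by simp [b]
  rw [map_mul, map_mul, map_mul, map_inv, map_inv, ha, hb, conj_up _ (dg10 u), ← up_neg, ← up_add, dg00, hu]
  congr 1
  rw [hv] at hv'
  linear_combination t * hv'

end alg

section top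
open unitInterval Metric

theorem sphere_not_null {E : Type} [NormedAddCommGroup E] [InnerProductSpace ℝ E]
    [FiniteDimensional ℝ E] (p : sphere (0 : E) 1) (f : C(sphere (0 : E) 1, {v : E // v ≠ 0}))
    (hf : ∀ x, (f x).1 = x.1) : ¬ f.Nullhomotopic := by
  classical
  rintro ⟨y, ⟨H⟩⟩
  let n : E → sphere (0 : E) 1 := fun z =>
    if h : z = 0 then p else ⟨‖z‖⁻¹ • z, by simp [norm_smul, h]⟩
  let τ : E → I := fun z => Set.projIcc 0 1 zero_le_one (2 - 2 * ‖z‖)
  have hτ : Continuous τ := continuous_projIcc.comp (by fun_prop)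
  let F : E → E := fun z => max 1 ‖z‖ • (H (τ z, n z)).1
  have hF : Continuous F := by
    refine Continuous.smul (by fun_prop) (continuous_subtype_val.comp ?_)
    rw [continuous_iff_continuousAt]
    intro z
    by_cases hz : z = 0
    · subst hz
      refine (continuousAt_const (y := y)).congr ?_
      filter_upwards [ball_mem_nhds (0 : E) (by norm_num : (0 : ℝ) < 1 / 2)] with z hz
      have : τ z = 1 := Set.projIcc_of_right_le _ (by
        rw [mem_ball_zero_iff] at hz; linarith)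
      rw [this, H.apply_one]; rfl
    · refine H.continuous.continuousAt.comp (hτ.continuousAt.prodMk ?_)
      rw [Topology.IsInducing.subtypeVal.continuousAt_iff]
      have : ContinuousAt (fun z : E => ‖z‖⁻¹ • z) z :=
        (continuousAt_id.norm.inv₀ (norm_ne_zero_iff.2 hz)).smul continuousAt_id
      refine this.congr ?_
      filter_upwards [isOpen_ne.mem_nhds hz] with w hw
      simp [n, hw]
  obtain ⟨z, hz⟩ := Pool.Agent.H15.Brouwer.exists_zero F hF (fun z hz => by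
    have h0 : z ≠ 0 := by rintro rfl; simp at hz; linarith
    have : τ z = 0 := Set.projIcc_of_le_left _ (by linarith)
    simp only [F, this, H.apply_zero, hf, max_eq_right hz, n, dif_neg h0, smul_smul]
    rw [mul_inv_cancel₀ (norm_ne_zero_iff.2 h0), one_smul])
  rcases smul_eq_zero.1 hz with h | h
  · have := le_max_left 1 ‖z‖; linarith
  · exact (H (τ z, n z)).2 h

variable {A : Type} [CommRing A] {X : Type} [TopologicalSpace X]

theorem path (ev : X → A →+* ℝ) (hev : ∀ a, Continuous fun x => ev x a) (w : SL(2, A))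
    (hw : w ∈ E2 A) : ∃ H : C(I × X, SL(2, ℝ)), (∀ x, H (0, x) = 1) ∧
      ∀ x, H (1, x) = Matrix.SpecialLinearGroup.map (ev x) w := by
  induction hw using Subgroup.closure_induction with
  | mem g hg =>
    rcases hg with ⟨a, rfl⟩ | ⟨a, rfl⟩
    · refine ⟨⟨fun q => up (q.1 * ev q.2 a), ?_⟩, fun x => by
        change up (((0 : I) : ℝ) * ev x a) = 1
        rw [Set.Icc.coe_zero, zero_mul, up_zero], fun x => ?_⟩
      · refine Continuous.subtype_mk (continuous_matrix fun i j => ?_) _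
        have := hev a
        fin_cases i <;> fin_cases j <;> simp <;> fun_prop
      · apply sl_ext <;> simp [up, Matrix.SpecialLinearGroup.map]
    · refine ⟨⟨fun q => lo (q.1 * ev q.2 a), ?_⟩, fun x => by
        change lo (((0 : I) : ℝ) * ev x a) = 1
        rw [Set.Icc.coe_zero, zero_mul, lo_zero], fun x => ?_⟩
      · refine Continuous.subtype_mk (continuous_matrix fun i j => ?_) _
        have := hev a
        fin_cases i <;> fin_cases j <;> simp <;> fun_prop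
      · apply sl_ext <;> simp [lo, Matrix.SpecialLinearGroup.map]
  | one => exact ⟨1, fun x => rfl, fun x => by simp⟩
  | mul a b _ _ ha hb =>
    obtain ⟨H, h0, h1⟩ := ha
    obtain ⟨H', h0', h1'⟩ := hb
    exact ⟨H * H', fun x => by simp [h0, h0'], fun x => by simp [h1, h1']⟩
  | inv a _ ha =>
    obtain ⟨H, h0, h1⟩ := ha
    exact ⟨H⁻¹, fun x => by simp [h0], fun x => by simp [h1]⟩

end top
end Pool.Agent.H74.E2AC
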