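import Mathlib

/-! Involution systems and their right weak order. -/

namespace Pool.Agent.H74.Emis

variable {W : Type*} [Group W]

/-- The word length with respect to `S`. -/
noncomputable def len (S : Set W) (w : W) : ℕ :=
  sInf {n | ∃ l : List W, (∀ s ∈ l, s ∈ S) ∧ l.prod = w ∧ l.length = n}

/-- A reduced word over `S`. -/
def Reduced (S : Set W) (l : List W) : Prop := (∀ s ∈ l, s ∈ S) ∧ l.length = len S l.prod

/-- The right weak order: some reduced word for `u` is an initial segment of some reduced word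
for `v`. -/
def WeakLE (S : Set W) (u v : W) : Prop :=
  ∃ l l' : List W, Reduced S l ∧ l.prod = u ∧ Reduced S (l ++ l') ∧ (l ++ l').prod = v

/-- `m` is a greatest lower bound of `X`. -/
def IsMeet (S : Set W) (X : Set W) (m : W) : Prop :=
  (∀ x ∈ X, WeakLE S m x) ∧ ∀ y, (∀ x ∈ X, WeakLE S y x) → WeakLE S y m

/-- `m` is a least upper bound of `X`. -/
def IsJoin (S : Set W) (X : Set W) (m : W) : Prop :=
  (∀ x ∈ X, WeakLE S x m) ∧ ∀ y, (∀ x ∈ X, WeakLE S x y) → WeakLE S m y

/-- `(W, S)` is an even meet involution system. -/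
def IsEMIS (S : Set W) : Prop :=
  S.Finite ∧ (∀ s ∈ S, s ≠ 1 ∧ s * s = 1) ∧ Subgroup.closure S = ⊤ ∧
    (∃ ε : W →* ℤˣ, ∀ s ∈ S, ε s = -1) ∧ ∀ X : Set W, X.Nonempty → ∃ m, IsMeet S X m

end Pool.Agent.H74.Emis
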