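import Pool.Agent.H74.Emis

namespace Pool.Agent.H74.Emis

open DihedralGroup

abbrev G := DihedralGroup 4 × Multiplicative (ZMod 2)

def z : Multiplicative (ZMod 2) := Multiplicative.ofAdd 1
def a : G := (sr 0, 1)
def b : G := (sr 1, 1)
def c : G := (sr 0, z)
def d : G := (sr 3, z)
def S0 : Finset G := {a, b, c, d}

def wd (w : G) : List G :=
  match w.1, decide (w.2 = 1) with
  | r i, true => ![[], [a, b], [a, b, a, b], [b, a]] i
  | r i, false => ![[a, c], [c, b], [b, d], [a, d]] i
  | sr i, true => ![[a], [b], [b, a, b], [a, b, a]] i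
  | sr i, false => ![[c], [a, c, b], [a, b, d], [d]] i

lemma wd_prod : ∀ w : G, (wd w).prod = w := by decide +kernel
lemma wd_mem : ∀ w : G, ∀ s ∈ wd w, s ∈ S0 := by decide +kernel
lemma wd_step : ∀ w : G, ∀ s ∈ S0, (wd (s * w)).length ≤ (wd w).length + 1 := by decide +kernel

lemma wd_le (l : List G) (hl : ∀ s ∈ l, s ∈ (S0 : Set G)) : (wd l.prod).length ≤ l.length := by
  induction l with
  | nil => decide
  | cons s l ih =>
    rw [List.prod_cons, List.length_cons]
    exact (wd_step _ s (hl s (by simp))).trans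
      (Nat.succ_le_succ (ih fun t ht => hl t (by simp [ht])))

lemma len_eq (w : G) : len (S0 : Set G) w = (wd w).length := by
  apply le_antisymm
  · exact Nat.sInf_le ⟨wd w, wd_mem w, wd_prod w, rfl⟩
  · refine le_csInf ⟨_, wd w, wd_mem w, wd_prod w, rfl⟩ ?_
    rintro _ ⟨l, hl, rfl, rfl⟩
    exact wd_le l hl

def le0 (u v : G) : Prop := (wd u).length + (wd (u⁻¹ * v)).length = (wd v).length

instance : DecidableRel le0 := fun _ _ => Nat.decEq _ _

lemma tri : ∀ u v : G, (wd v).length ≤ (wd u).length + (wd (u⁻¹ * v)).length := by decide +kernel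

lemma le_iff (u v : G) : WeakLE (S0 : Set G) u v ↔ le0 u v := by
  constructor
  · rintro ⟨l, l', h1, rfl, h2, rfl⟩
    have h3 := h1.2
    have h4 := h2.2
    rw [len_eq] at h3 h4
    have h5 := wd_le l' fun s hs => h2.1 s (by simp [hs])
    have h6 := tri l.prod (l ++ l').prod
    unfold le0
    rw [List.length_append] at h4
    rw [List.prod_append, inv_mul_cancel_left] at *
    omega
  · intro h
    refine ⟨wd u, wd (u⁻¹ * v), ⟨wd_mem u, by rw [len_eq, wd_prod]⟩, wd_prod u, ⟨?_, ?_⟩, ?_⟩
    · intro s hs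
      rcases List.mem_append.1 hs with hs | hs
      · exact wd_mem _ s hs
      · exact wd_mem _ s hs
    · rw [len_eq, List.prod_append, wd_prod, wd_prod, mul_inv_cancel_left, List.length_append]
      exact h
    · rw [List.prod_append, wd_prod, wd_prod, mul_inv_cancel_left]

lemma le0_iff : ∀ u v : G, le0 u v ↔ ∀ s ∈ S0, le0 s u → le0 s v := by decide +kernel

lemma surj : ∀ p q s t : Bool, ∃ m : G, decide (le0 a m) = p ∧ decide (le0 b m) = q ∧
    decide (le0 c m) = s ∧ decide (le0 d m) = t := by decide +kernel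

def sg : G →* ℤˣ where
  toFun w := match w.1 with
    | r _ => 1
    | sr _ => -1
  map_one' := rfl
  map_mul' := by decide +kernel

lemma isEMIS : IsEMIS (S0 : Set G) := by
  classical
  refine ⟨S0.finite_toSet, ?_, ?_, ⟨sg, ?_⟩, fun X _ => ?_⟩
  · show ∀ s ∈ S0, s ≠ 1 ∧ s * s = 1
    decide +kernel
  · rw [eq_top_iff]
    intro w _
    rw [← wd_prod w]
    exact Subgroup.list_prod_mem _ fun s hs => Subgroup.subset_closure (wd_mem w s hs)
  · show ∀ s ∈ S0, sg s = -1
    decide +kernel
  · obtain ⟨m, h1, h2, h3, h4⟩ := surj (decide (∀ x ∈ X, le0 a x)) (decide (∀ x ∈ X, le0 b x))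
      (decide (∀ x ∈ X, le0 c x)) (decide (∀ x ∈ X, le0 d x))
    rw [decide_eq_decide] at h1 h2 h3 h4
    have h : ∀ s ∈ S0, le0 s m ↔ ∀ x ∈ X, le0 s x := by
      intro s hs
      simp only [S0, Finset.mem_insert, Finset.mem_singleton] at hs
      rcases hs with rfl | rfl | rfl | rfl <;> assumption
    refine ⟨m, fun x hx => ?_, fun y hy => ?_⟩
    · rw [le_iff, le0_iff]
      exact fun s hs h' => (h s hs).1 h' x hx
    · rw [le_iff, le0_iff]
      exact fun s hs h' => (h s hs).2 fun x hx =>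
        (le0_iff y x).1 ((le_iff _ _).1 (hy x hx)) s hs h'

lemma I_sub : ({a, b} : Set G) ⊆ S0 := by
  rintro _ (rfl | rfl) <;> simp [S0]

lemma snd_eq {w : G} (h : w ∈ Subgroup.closure ({a, b} : Set G)) : w.2 = 1 := by
  have : Subgroup.closure ({a, b} : Set G) ≤ (MonoidHom.snd _ _).ker := by
    rw [Subgroup.closure_le]
    rintro _ (rfl | rfl) <;> rfl
  exact this h

lemma a_mem : a ∈ Subgroup.closure ({a, b} : Set G) := Subgroup.subset_closure (by simp)
lemma b_mem : b ∈ Subgroup.closure ({a, b} : Set G) := Subgroup.subset_closure (by simp)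

end Pool.Agent.H74.Emis
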