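import Pool.Agent.H74.GKKDefs

set_option autoImplicit false

namespace Pool.Agent.H74.GKK

open Matrix Polynomial

variable {n : ℕ}

/-- Determinant by expansion along the first row. -/
def detF {R : Type} [CommRing R] : (k : ℕ) → (Fin k → Fin k → R) → R
  | 0, _ => 1
  | k + 1, M => ∑ j : Fin (k + 1), (-1) ^ (j : ℕ) * M 0 j *
      detF k (fun a b => M a.succ (j.succAbove b))

lemma detF_eq {R : Type} [CommRing R] (k : ℕ) (M : Matrix (Fin k) (Fin k) R) :
    detF k (fun a b => M a b) = M.det := by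
  induction k with
  | zero => simp [detF]
  | succ k ih =>
    rw [Matrix.det_succ_row_zero, detF]
    refine Finset.sum_congr rfl fun j _ => ?_
    rw [← ih]; rfl

def srt (α : Finset (Fin (n + 1))) : List (Fin (n + 1)) := (List.finRange (n + 1)).filter (· ∈ α)

lemma srt_eq (α : Finset (Fin (n + 1))) : srt α = α.sort (· ≤ ·) := by
  apply List.Perm.eq_of_pairwise (le := (· ≤ ·))
  · intro a b _ _ h1 h2; exact le_antisymm h1 h2
  · exact ((List.pairwise_lt_finRange _).imp le_of_lt).filter _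
  · exact Finset.pairwise_sort _ _
  · apply (List.perm_ext_iff_of_nodup ((List.nodup_finRange _).filter _) (Finset.sort_nodup _ _)).2
    intro a; simp

lemma emb_eq (α : Finset (Fin (n + 1))) {k : ℕ} (h : α.card = k) (a : Fin k) :
    α.orderEmbOfFin h a = (srt α).getD a 0 := by
  rw [Finset.orderEmbOfFin_apply, srt_eq, List.getD_eq_getElem]
  rfl

/-- Integer minor. -/
def D (M : Matrix (Fin (n + 1)) (Fin (n + 1)) ℤ) (α β : Finset (Fin (n + 1))) : ℤ :=
  detF α.card (fun a b => M ((srt α).getD a 0) ((srt β).getD b 0))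

lemma minor_cast (M : Matrix (Fin (n + 1)) (Fin (n + 1)) ℤ) {k : ℕ} (α β : Finset (Fin (n + 1)))
    (hα : α.card = k) (hβ : β.card = k) :
    minor (M.map (Int.cast : ℤ → ℂ)) α β hα hβ = (D M α β : ℂ) := by
  subst hα
  unfold minor D
  have : (fun (a b : Fin α.card) => M ((srt α).getD a 0) ((srt β).getD b 0)) =
      fun a b => (M.submatrix (α.orderEmbOfFin rfl) (β.orderEmbOfFin hβ)) a b := by
    funext a b
    simp only [Matrix.submatrix_apply, emb_eq]
  rw [this, detF_eq, Int.cast_det]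
  rfl

lemma psub_det_eq_minor (A : Matrix (Fin n) (Fin n) ℂ) (α : Finset (Fin n)) {k : ℕ}
    (h : α.card = k) : (psub A α).det = minor A α α h h := by
  unfold minor psub
  rw [← Matrix.det_submatrix_equiv_self (α.orderIsoOfFin h).toEquiv]
  rfl

lemma psub_det_cast (M : Matrix (Fin (n + 1)) (Fin (n + 1)) ℤ) (α : Finset (Fin (n + 1))) :
    (psub (M.map (Int.cast : ℤ → ℂ)) α).det = (D M α α : ℂ) := by
  rw [psub_det_eq_minor _ _ rfl, minor_cast]

lemma det_inj {ι : Type} [Fintype ι] [DecidableEq ι] (A : Matrix (Fin n) (Fin n) ℂ)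
    (f : ι → Fin n) (hf : Function.Injective f) :
    (A.submatrix f f).det = (psub A (Finset.univ.image f)).det := by
  let e : ι ≃ (Finset.univ.image f : Finset (Fin n)) :=
    Equiv.ofBijective (fun i => ⟨f i, by simp⟩) ⟨fun a b h => hf (congrArg Subtype.val h), by
      rintro ⟨x, hx⟩
      obtain ⟨i, -, rfl⟩ := Finset.mem_image.1 hx
      exact ⟨i, rfl⟩⟩
  rw [← Matrix.det_submatrix_equiv_self e (psub A _)]
  rfl

lemma mem_spec_iff {ι : Type} [Fintype ι] [DecidableEq ι] (B : Matrix ι ι ℂ) (z : ℂ) :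
    z ∈ spectrum ℂ B ↔ (B - z • (1 : Matrix ι ι ℂ)).det = 0 := by
  rw [spectrum.mem_iff, Matrix.isUnit_iff_isUnit_det, isUnit_iff_ne_zero, not_not]
  have : (algebraMap ℂ (Matrix ι ι ℂ)) z - B = -(B - z • (1 : Matrix ι ι ℂ)) := by
    rw [Algebra.algebraMap_eq_smul_one]; abel
  rw [this, Matrix.det_neg]
  simp

lemma det_add_smul {ι : Type} [Fintype ι] [DecidableEq ι] (B : Matrix ι ι ℂ) (t : ℂ) :
    (B + t • (1 : Matrix ι ι ℂ)).det = ∑ k ∈ Finset.range (Fintype.card ι + 1),
      (∑ s ∈ (Finset.univ : Finset ι).powersetCard k,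
        (B.submatrix (Subtype.val : s → ι) (Subtype.val : s → ι)).det) * t ^ (Fintype.card ι - k) := by
  have h1 : (B + t • (1 : Matrix ι ι ℂ)).det = (-B).charpoly.eval t := by
    rw [Matrix.eval_charpoly]
    congr 1
    ext i j
    simp [Matrix.scalar_apply, Matrix.diagonal_apply, Matrix.one_apply]
    split_ifs <;> ring
  rw [h1, Polynomial.eval_eq_sum_range, Matrix.charpoly_natDegree_eq_dim,
    ← Finset.sum_range_reflect]
  refine Finset.sum_congr rfl fun k hk => ?_
  have hk' : k ≤ Fintype.card ι := Nat.lt_succ_iff.1 (Finset.mem_range.1 hk)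
  have : Fintype.card ι + 1 - 1 - k = Fintype.card ι - k := by omega
  rw [this, Matrix.charpoly_coeff_eq_sum_minors _ _ hk', Finset.mul_sum]
  congr 1
  refine Finset.sum_congr rfl fun s hs => ?_
  have hs' := (Finset.mem_powersetCard.1 hs).2
  have : (-B).submatrix (Subtype.val : s → ι) (Subtype.val : s → ι) =
      -(B.submatrix (Subtype.val : s → ι) (Subtype.val : s → ι)) := rfl
  rw [this, Matrix.det_neg, Fintype.card_coe, hs', ← mul_assoc, ← mul_pow]
  simp

open scoped ComplexOrder in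
lemma det_add_pos (B : Matrix (Fin n) (Fin n) ℂ) (α : Finset (Fin n))
    (h : ∀ β ⊆ α, 0 ≤ (psub B β).det) (t : ℝ) (ht : 0 < t) :
    0 < (psub B α + (t : ℂ) • (1 : Matrix α α ℂ)).det := by
  rw [det_add_smul, Finset.sum_range_succ']
  have ht' : (0 : ℂ) < t := by exact_mod_cast ht
  apply add_pos_of_nonneg_of_pos
  · refine Finset.sum_nonneg fun k _ => mul_nonneg (Finset.sum_nonneg fun s _ => ?_) (pow_pos ht' _).le
    have : (psub B α).submatrix (Subtype.val : s → α) (Subtype.val : s → α) =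
        B.submatrix (fun x : s => (x.1.1 : Fin n)) (fun x : s => (x.1.1 : Fin n)) := rfl
    rw [this, det_inj _ _ (fun a b h => Subtype.ext (Subtype.ext h))]
    apply h
    intro x hx
    obtain ⟨i, -, rfl⟩ := Finset.mem_image.1 hx
    exact i.1.2
  · simp
    exact pow_pos ht' _

/-- Shifted integer matrix. -/
def shift (M : Matrix (Fin (n + 1)) (Fin (n + 1)) ℤ) (x : ℤ) : Matrix (Fin (n + 1)) (Fin (n + 1)) ℤ :=
  fun i j => if i = j then M i j - x else M i j

lemma psub_shift (M : Matrix (Fin (n + 1)) (Fin (n + 1)) ℤ) (x : ℤ) (α : Finset (Fin (n + 1))) :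
    psub ((shift M x).map (Int.cast : ℤ → ℂ)) α =
      psub (M.map (Int.cast : ℤ → ℂ)) α - (x : ℂ) • (1 : Matrix α α ℂ) := by
  ext i j
  simp only [psub, shift, Matrix.submatrix_apply, Matrix.map_apply, Matrix.sub_apply,
    Matrix.smul_apply, Matrix.one_apply, Subtype.ext_iff]
  split_ifs <;> simp

open scoped ComplexOrder in
lemma pos_below (M : Matrix (Fin (n + 1)) (Fin (n + 1)) ℤ) (α : Finset (Fin (n + 1))) (lo : ℤ)
    (h : ∀ β ⊆ α, 0 ≤ D (shift M lo) β β) (x : ℝ) (hx : x < lo) :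
    0 < (psub (M.map (Int.cast : ℤ → ℂ)) α - (x : ℂ) • (1 : Matrix α α ℂ)).det := by
  have := det_add_pos ((shift M lo).map (Int.cast : ℤ → ℂ)) α (fun β hβ => by
    rw [psub_det_cast]; exact_mod_cast h β hβ) (lo - x) (by linarith)
  rw [psub_shift] at this
  convert this using 2
  push_cast
  rw [sub_smul]; abel

open scoped ComplexOrder in
lemma le_lmin (M : Matrix (Fin (n + 1)) (Fin (n + 1)) ℤ) (α : Finset (Fin (n + 1))) (lo : ℤ)
    (h : ∀ β ⊆ α, 0 ≤ D (shift M lo) β β) :
    ((lo : ℝ) : EReal) ≤ lmin (psub (M.map (Int.cast : ℤ → ℂ)) α) := by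
  apply le_sInf
  rintro _ ⟨r, rfl, hr⟩
  rw [mem_spec_iff] at hr
  by_contra hh
  have : r < lo := by
    rw [not_le] at hh
    exact_mod_cast hh
  have := pos_below M α lo h r this
  rw [hr] at this
  exact lt_irrefl _ this

open scoped ComplexOrder in
lemma lmin_le (M : Matrix (Fin (n + 1)) (Fin (n + 1)) ℤ) (α : Finset (Fin (n + 1))) (lo hi : ℤ)
    (h : ∀ β ⊆ α, 0 ≤ D (shift M lo) β β) (h2 : D (shift M hi) α α ≤ 0) :
    lmin (psub (M.map (Int.cast : ℤ → ℂ)) α) ≤ ((hi : ℝ) : EReal) := by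
  let B : Matrix α α ℝ := (M.map (Int.cast : ℤ → ℝ)).submatrix Subtype.val Subtype.val
  let f : ℝ → ℝ := fun x => (B - x • (1 : Matrix α α ℝ)).det
  have hf : ∀ x : ℝ, ((f x : ℝ) : ℂ) =
      (psub (M.map (Int.cast : ℤ → ℂ)) α - (x : ℂ) • (1 : Matrix α α ℂ)).det := by
    intro x
    have := (Complex.ofRealHom).map_det (B - x • (1 : Matrix α α ℝ))
    simp only [Complex.ofRealHom_eq_coe] at this
    rw [this]
    congr 1
    ext i j
    simp only [B, psub, RingHom.mapMatrix_apply, Matrix.map_apply, Matrix.sub_apply,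
      Matrix.submatrix_apply, Matrix.smul_apply, Matrix.one_apply]
    split_ifs <;> simp
  have hc : Continuous f := by
    apply Continuous.matrix_det
    fun_prop
  have h3 : f hi ≤ 0 := by
    have := hf hi
    rw [show (((hi : ℝ) : ℂ)) = (hi : ℂ) by simp, ← psub_shift, psub_det_cast] at this
    have h4 : f hi = (D (shift M hi) α α : ℝ) := by exact_mod_cast this
    rw [h4]; exact_mod_cast h2
  set x0 : ℝ := min (lo : ℝ) (hi : ℝ) - 1 with hx0
  have h5 : 0 < f x0 := by
    have := pos_below M α lo h x0 (by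
      have : min (lo : ℝ) hi ≤ lo := min_le_left _ _
      linarith)
    rw [← hf] at this
    exact_mod_cast this
  have h6 : x0 ≤ hi := by
    have : min (lo : ℝ) hi ≤ hi := min_le_right _ _
    linarith
  obtain ⟨r, hr, hr0⟩ := intermediate_value_Icc' h6 hc.continuousOn ⟨h3, h5.le⟩
  refine sInf_le_of_le ⟨r, rfl, ?_⟩ (by exact_mod_cast hr.2)
  rw [mem_spec_iff, ← hf, hr0]; simp

lemma spec_psub_univ (A : Matrix (Fin n) (Fin n) ℂ) :
    spectrum ℂ (psub A Finset.univ) = spectrum ℂ A := by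
  ext z
  rw [mem_spec_iff, mem_spec_iff]
  have : psub A Finset.univ - z • (1 : Matrix _ _ ℂ) = psub (A - z • 1) Finset.univ := by
    ext i j
    simp only [psub, Matrix.one_apply, Matrix.sub_apply, Matrix.smul_apply, Matrix.submatrix_apply,
      Subtype.ext_iff]
  rw [this]
  have h2 := det_inj (A - z • 1) id Function.injective_id
  rw [Finset.image_id] at h2
  rw [← h2]; rfl

lemma lmin_psub_univ (A : Matrix (Fin n) (Fin n) ℂ) : lmin (psub A Finset.univ) = lmin A := by
  unfold lmin; rw [spec_psub_univ]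

lemma isTau_of_cert (M : Matrix (Fin (n + 1)) (Fin (n + 1)) ℤ) (lo hi : Finset (Fin (n + 1)) → ℤ)
    (h1 : ∀ α : Finset (Fin (n + 1)), α.Nonempty → ∀ β ⊆ α, 0 ≤ D (shift M (lo α)) β β)
    (h2 : ∀ α : Finset (Fin (n + 1)), α.Nonempty → D (shift M (hi α)) α α ≤ 0)
    (h3 : ∀ α β : Finset (Fin (n + 1)), β.Nonempty → β ⊆ α → β ≠ α → hi α ≤ lo β)
    (h4 : 0 ≤ lo Finset.univ) :
    IsTau (M.map (Int.cast : ℤ → ℂ)) := by
  refine ⟨fun α β hβ hs => ⟨?_, ?_⟩, ?_⟩
  · by_cases he : β = α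
    · subst he; exact le_rfl
    · have hα : α.Nonempty := hβ.mono hs
      refine (lmin_le M α _ _ (h1 α hα) (h2 α hα)).trans (le_trans ?_ (le_lmin M β _ (h1 β hβ)))
      exact_mod_cast h3 α β hβ hs he
  · exact (lmin_le M β _ _ (h1 β hβ) (h2 β hβ)).trans_lt (EReal.coe_lt_top _)
  · rw [← lmin_psub_univ]
    refine le_trans ?_ (le_lmin M _ _ (h1 _ Finset.univ_nonempty))
    exact_mod_cast h4

lemma isP_of_cert (M : Matrix (Fin (n + 1)) (Fin (n + 1)) ℤ) (h : ∀ α, 0 < D M α α) :
    IsP (M.map (Int.cast : ℤ → ℂ)) := by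
  intro α
  rw [psub_det_cast]
  refine ⟨by simp, ?_⟩
  simp only [Complex.intCast_re]
  exact_mod_cast h α

lemma isWSS_of_cert (M : Matrix (Fin (n + 1)) (Fin (n + 1)) ℤ)
    (h : ∀ α β : Finset (Fin (n + 1)), α.card = β.card → (α ∩ β).card + 1 = α.card →
      0 ≤ D M α β * D M β α) : IsWSS (M.map (Int.cast : ℤ → ℂ)) := by
  intro k α β hα hβ hk
  rw [minor_cast, minor_cast, ← Int.cast_mul]
  refine ⟨Complex.intCast_im _, ?_⟩
  simp only [Complex.intCast_re]
  exact_mod_cast h α β (hα.trans hβ.symm) (hk.trans hα.symm)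

lemma isStrictWSS_of_cert (M : Matrix (Fin (n + 1)) (Fin (n + 1)) ℤ)
    (h : ∀ α β : Finset (Fin (n + 1)), α.card = β.card → (α ∩ β).card + 1 = α.card →
      0 < D M α β * D M β α) : IsStrictWSS (M.map (Int.cast : ℤ → ℂ)) := by
  intro k α β hα hβ hk
  rw [minor_cast, minor_cast, ← Int.cast_mul]
  refine ⟨Complex.intCast_im _, ?_⟩
  simp only [Complex.intCast_re]
  exact_mod_cast h α β (hα.trans hβ.symm) (hk.trans hα.symm)

/-- If all eigenvalues have positive real part then the characteristic polynomial is larger at the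
mirror image in the left half plane. -/
lemma norm_det_le (A : Matrix (Fin n) (Fin n) ℂ) (hA : IsStable A) (z : ℂ) (hz : 0 ≤ z.re) :
    ‖(A - z • (1 : Matrix (Fin n) (Fin n) ℂ)).det‖ ≤
      ‖(A - (-(starRingEnd ℂ z)) • (1 : Matrix (Fin n) (Fin n) ℂ)).det‖ := by
  have key : ∀ w : ℂ, ‖(A - w • (1 : Matrix (Fin n) (Fin n) ℂ)).det‖ =
      (A.charpoly.roots.map fun r => ‖w - r‖).prod := by
    intro w
    have h1 : (A - w • (1 : Matrix (Fin n) (Fin n) ℂ)) = -(Matrix.scalar (Fin n) w - A) := by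
      ext i j
      simp [Matrix.scalar_apply, Matrix.diagonal_apply, Matrix.one_apply]
    rw [h1, Matrix.det_neg, ← Matrix.eval_charpoly, norm_mul]
    have h2 := (IsAlgClosed.splits A.charpoly).eval_eq_prod_roots_of_monic (Matrix.charpoly_monic A) w
    rw [h2]
    simp only [norm_pow, norm_neg, norm_one, one_pow, one_mul]
    have h3 := map_multiset_prod (normHom : ℂ →*₀ ℝ) (A.charpoly.roots.map fun r => w - r)
    simpa [Multiset.map_map] using h3
  rw [key, key]
  apply Multiset.prod_map_le_prod_map₀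
  · intro r _; exact norm_nonneg _
  · intro r hr
    have hr' : 0 < r.re := hA r (by
      rw [Matrix.mem_spectrum_iff_isRoot_charpoly]
      exact (Polynomial.mem_roots (Matrix.charpoly_monic A).ne_zero).1 hr)
    rw [← sq_le_sq₀ (norm_nonneg _) (norm_nonneg _), Complex.sq_norm, Complex.sq_norm,
      Complex.normSq_apply, Complex.normSq_apply]
    simp
    nlinarith [mul_nonneg hz hr'.le]

lemma det_gauss (M : Matrix (Fin n) (Fin n) ℤ) (a b : ℤ) :
    (M.map (Int.cast : ℤ → ℂ) - ((a : ℂ) + b * Complex.I) • (1 : Matrix (Fin n) (Fin n) ℂ)).det =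
      GaussianInt.toComplex
        (detF n fun i j => if i = j then (⟨M i j - a, -b⟩ : GaussianInt) else ⟨M i j, 0⟩) := by
  have := detF_eq n (Matrix.of fun i j => if i = j then (⟨M i j - a, -b⟩ : GaussianInt) else ⟨M i j, 0⟩)
  simp only [Matrix.of_apply] at this
  rw [this, GaussianInt.toComplex.map_det]
  congr 1
  ext i j
  simp only [Matrix.sub_apply, Matrix.map_apply, Matrix.smul_apply, Matrix.one_apply,
    RingHom.mapMatrix_apply, Matrix.of_apply]
  split_ifs
  · rw [GaussianInt.toComplex_def']; push_cast; simp; ring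
  · rw [GaussianInt.toComplex_def']; simp

lemma not_stable_of_cert (M : Matrix (Fin n) (Fin n) ℤ) (a b : ℤ) (ha : 0 ≤ a)
    (h : (detF n fun i j => if i = j then (⟨M i j - (-a), -b⟩ : GaussianInt) else ⟨M i j, 0⟩).norm <
      (detF n fun i j => if i = j then (⟨M i j - a, -b⟩ : GaussianInt) else ⟨M i j, 0⟩).norm) :
    ¬ IsStable (M.map (Int.cast : ℤ → ℂ)) := by
  intro hs
  have h1 := norm_det_le _ hs ((a : ℂ) + b * Complex.I) (by simpa using ha)
  have h2 : -(starRingEnd ℂ ((a : ℂ) + b * Complex.I)) = ((-a : ℤ) : ℂ) + b * Complex.I := by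
    simp; ring
  rw [h2, det_gauss, det_gauss, ← sq_le_sq₀ (norm_nonneg _) (norm_nonneg _), Complex.sq_norm,
    Complex.sq_norm, ← GaussianInt.intCast_real_norm, ← GaussianInt.intCast_real_norm] at h1
  have : ((_ : ℤ) : ℝ) < ((_ : ℤ) : ℝ) := Int.cast_lt.2 h
  linarith

end Pool.Agent.H74.GKK
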