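import Mathlib

set_option autoImplicit false

namespace Pool.Agent.H74.GKK

variable {n : ℕ}

/-- The principal submatrix `A(α)`. -/
def psub (A : Matrix (Fin n) (Fin n) ℂ) (α : Finset (Fin n)) : Matrix α α ℂ :=
  A.submatrix Subtype.val Subtype.val

/-- The minor `A[α,β]`, rows `α` and columns `β` taken in increasing order. -/
noncomputable def minor (A : Matrix (Fin n) (Fin n) ℂ) {k : ℕ} (α β : Finset (Fin n))
    (hα : α.card = k) (hβ : β.card = k) : ℂ :=
  (A.submatrix (α.orderEmbOfFin hα) (β.orderEmbOfFin hβ)).det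

/-- P-matrix: every principal minor is real and positive. -/
def IsP (A : Matrix (Fin n) (Fin n) ℂ) : Prop :=
  ∀ α : Finset (Fin n), (psub A α).det.im = 0 ∧ 0 < (psub A α).det.re

/-- Weak sign-symmetry: `A[α,β] A[β,α]` is real and nonnegative for almost principal minors. -/
def IsWSS (A : Matrix (Fin n) (Fin n) ℂ) : Prop :=
  ∀ (k : ℕ) (α β : Finset (Fin n)) (hα : α.card = k) (hβ : β.card = k),
    (α ∩ β).card + 1 = k →
      (minor A α β hα hβ * minor A β α hβ hα).im = 0 ∧
        0 ≤ (minor A α β hα hβ * minor A β α hβ hα).re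

/-- Strict weak sign-symmetry: `A[α,β] A[β,α]` is real and positive for almost principal minors. -/
def IsStrictWSS (A : Matrix (Fin n) (Fin n) ℂ) : Prop :=
  ∀ (k : ℕ) (α β : Finset (Fin n)) (hα : α.card = k) (hβ : β.card = k),
    (α ∩ β).card + 1 = k →
      (minor A α β hα hβ * minor A β α hβ hα).im = 0 ∧
        0 < (minor A α β hα hβ * minor A β α hβ hα).re

/-- GKK matrix: a weakly sign-symmetric P-matrix. -/
def IsGKK (A : Matrix (Fin n) (Fin n) ℂ) : Prop := IsP A ∧ IsWSS A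

/-- Strict GKK matrix. -/
def IsStrictGKK (A : Matrix (Fin n) (Fin n) ℂ) : Prop := IsP A ∧ IsStrictWSS A

/-- `l(B)`: the least real eigenvalue of `B`, and `⊤` if there is none. -/
noncomputable def lmin {ι : Type} [Fintype ι] [DecidableEq ι] (B : Matrix ι ι ℂ) : EReal :=
  sInf {x : EReal | ∃ r : ℝ, x = (r : EReal) ∧ (r : ℂ) ∈ spectrum ℂ B}

/-- ω-matrix: eigenvalue monotonicity. -/
def IsOmega (A : Matrix (Fin n) (Fin n) ℂ) : Prop :=
  ∀ α β : Finset (Fin n), β.Nonempty → β ⊆ α →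
    lmin (psub A α) ≤ lmin (psub A β) ∧ lmin (psub A β) < ⊤

/-- τ-matrix: an ω-matrix with `l(A) ≥ 0`. -/
def IsTau (A : Matrix (Fin n) (Fin n) ℂ) : Prop := IsOmega A ∧ 0 ≤ lmin A

/-- Positive stability. -/
def IsStable (A : Matrix (Fin n) (Fin n) ℂ) : Prop := ∀ z ∈ spectrum ℂ A, 0 < z.re

/-- The normalised sum `c_j` of the principal minors of order `j`. -/
noncomputable def cj (A : Matrix (Fin n) (Fin n) ℂ) (j : ℕ) : ℂ :=
  ((n.choose j : ℕ) : ℂ)⁻¹ * ∑ α ∈ (Finset.univ : Finset (Fin n)).powersetCard j, (psub A α).det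

end Pool.Agent.H74.GKK
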