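import Pool.Agent.H74.GKKCert

set_option autoImplicit false

namespace Pool.Agent.H74.GKK

/-- A 5x5 integer matrix that is strict GKK, τ and unstable. -/
def M5 : Matrix (Fin 5) (Fin 5) ℤ :=
  !![100000000000, 100000000000, 100000000000, 100000000000, 100000000000;
     1000000000, 1010000000, 999999999, 999999999, 999999999;
     1000000000, 10000000, 1010000000, 999999999, 999999999;
     1000000000, 100000, 10000000, 1010000000, 999999999;
     1000000000, 1000, 100000, 10000000, 1010000000]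

def lo5 (α : Finset (Fin 5)) : ℤ :=
  if 0 ∈ α then [0, 100000000000, 9900980, 3798502, 95183, 889].getD α.card 0
  else [0, 1010000000, 910000000, 873490283, 856785590].getD α.card 0

def hi5 (α : Finset (Fin 5)) : ℤ :=
  if 0 ∈ α then [0, 100000000000, 9900981, 3815510, 96092, 890].getD α.card 0
  else [0, 1010000000, 1009000001, 909595416, 856785591].getD α.card 0

lemma M5_P : IsP (M5.map (Int.cast : ℤ → ℂ)) := isP_of_cert _ (by decide +kernel)

lemma M5_strict : IsStrictWSS (M5.map (Int.cast : ℤ → ℂ)) :=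
  isStrictWSS_of_cert _ (by decide +kernel)

lemma M5_tau : IsTau (M5.map (Int.cast : ℤ → ℂ)) :=
  isTau_of_cert _ lo5 hi5 (by decide +kernel) (by decide +kernel) (by decide +kernel)
    (by decide +kernel)

lemma M5_unstable : ¬ IsStable (M5.map (Int.cast : ℤ → ℂ)) :=
  not_stable_of_cert _ 41000000 229000000 (by norm_num) (by decide +kernel)

/-- A 4x4 integer GKK τ-matrix violating a Newton inequality. -/
def M4 : Matrix (Fin 4) (Fin 4) ℤ :=
  !![400, 400, 400, 400; 100, 110, 100, 100; 100, 0, 110, 100; 100, 0, 0, 110]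

def lo4 (α : Finset (Fin 4)) : ℤ := if 0 ∈ α then [0, 400, 7, 2, 0].getD α.card 0 else 110

def hi4 (α : Finset (Fin 4)) : ℤ := if 0 ∈ α then [0, 400, 8, 3, 1].getD α.card 0 else 110

lemma M4_P : IsP (M4.map (Int.cast : ℤ → ℂ)) := isP_of_cert _ (by decide +kernel)

lemma M4_WSS : IsWSS (M4.map (Int.cast : ℤ → ℂ)) := isWSS_of_cert _ (by decide +kernel)

lemma M4_tau : IsTau (M4.map (Int.cast : ℤ → ℂ)) :=
  isTau_of_cert _ lo4 hi4 (by decide +kernel) (by decide +kernel) (by decide +kernel)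
    (by decide +kernel)

lemma cj_cast {n : ℕ} (M : Matrix (Fin (n + 1)) (Fin (n + 1)) ℤ) (j : ℕ) :
    cj (M.map (Int.cast : ℤ → ℂ)) j = (((n + 1).choose j : ℕ) : ℂ)⁻¹ *
      ((∑ α ∈ (Finset.univ : Finset (Fin (n + 1))).powersetCard j, D M α α : ℤ) : ℂ) := by
  unfold cj
  simp only [psub_det_cast]
  push_cast; rfl

lemma M4_c1 : cj (M4.map (Int.cast : ℤ → ℂ)) 1 = ((365 / 2 : ℝ) : ℂ) := by
  rw [cj_cast, show (∑ α ∈ (Finset.univ : Finset (Fin (3 + 1))).powersetCard 1, D M4 α α) = 730 by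
    decide +kernel, show Nat.choose (3 + 1) 1 = 4 by decide]
  push_cast; norm_num

lemma M4_c2 : cj (M4.map (Int.cast : ℤ → ℂ)) 2 = ((8050 : ℝ) : ℂ) := by
  rw [cj_cast, show (∑ α ∈ (Finset.univ : Finset (Fin (3 + 1))).powersetCard 2, D M4 α α) = 48300 by
    decide +kernel, show Nat.choose (3 + 1) 2 = 6 by decide]
  push_cast; norm_num

lemma M4_c3 : cj (M4.map (Int.cast : ℤ → ℂ)) 3 = ((362750 : ℝ) : ℂ) := by
  rw [cj_cast, show (∑ α ∈ (Finset.univ : Finset (Fin (3 + 1))).powersetCard 3, D M4 α α) = 1451000 by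
    decide +kernel, show Nat.choose (3 + 1) 3 = 4 by decide]
  push_cast; norm_num

/-- A singular 4x4 τ-matrix with eigenvalues `0`, `525`, `1 ± 2i`. -/
def V4 : Matrix (Fin 4) (Fin 4) ℤ :=
  !![464, 464, 464, 464; 3, 3, 3, 3; 25, 0, 25, 25; 35, 0, 0, 35]

def l4 (α : Finset (Fin 4)) : ℤ :=
  if 0 ∈ α then (if α.card = 1 then 464 else 0) else if 1 ∈ α then 3 else if 2 ∈ α then 25 else 35

lemma V4_tau : IsTau (V4.map (Int.cast : ℤ → ℂ)) :=
  isTau_of_cert _ l4 l4 (by decide +kernel) (by decide +kernel) (by decide +kernel)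
    (by decide +kernel)

lemma V4_l : lmin (V4.map (Int.cast : ℤ → ℂ)) = ((0 : ℝ) : EReal) := by
  rw [← lmin_psub_univ]
  apply le_antisymm
  · simpa using lmin_le V4 Finset.univ 0 0 (by decide +kernel) (by decide +kernel)
  · simpa using le_lmin V4 Finset.univ 0 (by decide +kernel)

lemma V4_eig : (1 + 2 * Complex.I) ∈ spectrum ℂ (V4.map (Int.cast : ℤ → ℂ)) := by
  rw [mem_spec_iff]
  have := det_gauss V4 1 2
  rw [show (detF 4 fun i j => if i = j then (⟨V4 i j - 1, -2⟩ : GaussianInt) else ⟨V4 i j, 0⟩) = 0 by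
    decide +kernel] at this
  simpa using this

end Pool.Agent.H74.GKK
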