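import Pool.Agent.H74.GKKCert

set_option autoImplicit false

namespace Pool.Agent.H74.GKK

open Matrix

variable {n : ℕ}

/-- Real part of a principal minor. -/
noncomputable def pd (A : Matrix (Fin n) (Fin n) ℂ) (α : Finset (Fin n)) : ℝ := (psub A α).det.re

lemma pd_eq {A : Matrix (Fin n) (Fin n) ℂ} (h : IsP A) (α : Finset (Fin n)) :
    (psub A α).det = (pd A α : ℂ) := by
  apply Complex.ext
  · simp [pd]
  · simp [(h α).1]

lemma pd_pos {A : Matrix (Fin n) (Fin n) ℂ} (h : IsP A) (α : Finset (Fin n)) : 0 < pd A α :=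
  (h α).2

lemma exists_perm {k : ℕ} (f : Fin k → Fin n) (hf : Function.Injective f)
    (h : (Finset.univ.image f).card = k) :
    ∃ σ : Equiv.Perm (Fin k), f = (Finset.univ.image f).orderEmbOfFin h ∘ σ := by
  let g : Fin k → Fin k := fun i => ((Finset.univ.image f).orderIsoOfFin h).symm ⟨f i, by simp⟩
  have hg : Function.Injective g := by
    intro a b hab
    have := ((Finset.univ.image f).orderIsoOfFin h).symm.injective hab
    exact hf (congrArg Subtype.val this)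
  refine ⟨Equiv.ofBijective g (Finite.injective_iff_bijective.1 hg), ?_⟩
  funext i
  simp only [Function.comp, Equiv.ofBijective_apply, g]
  rw [← Finset.coe_orderIsoOfFin_apply, OrderIso.apply_symm_apply]

lemma prod_inj (A : Matrix (Fin n) (Fin n) ℂ) {k : ℕ} (f g : Fin k → Fin n)
    (hf : Function.Injective f) (hg : Function.Injective g)
    (h1 : (Finset.univ.image f).card = k) (h2 : (Finset.univ.image g).card = k) :
    (A.submatrix f g).det * (A.submatrix g f).det =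
      minor A _ _ h1 h2 * minor A _ _ h2 h1 := by
  obtain ⟨σ, hσ⟩ := exists_perm f hf h1
  obtain ⟨τ, hτ⟩ := exists_perm g hg h2
  set e1 := (Finset.univ.image f).orderEmbOfFin h1
  set e2 := (Finset.univ.image g).orderEmbOfFin h2
  have a1 : A.submatrix f g = ((A.submatrix e1 e2).submatrix σ id).submatrix id τ := by
    rw [hσ, hτ]; rfl
  have a2 : A.submatrix g f = ((A.submatrix e2 e1).submatrix τ id).submatrix id σ := by
    rw [hσ, hτ]; rfl
  rw [a1, a2, Matrix.det_permute', Matrix.det_permute', Matrix.det_permute, Matrix.det_permute]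
  unfold minor
  have s1 : ((Equiv.Perm.sign σ : ℤ) : ℂ) * ((Equiv.Perm.sign σ : ℤ) : ℂ) = 1 := by
    rw [← Int.cast_mul, ← Units.val_mul, Int.units_mul_self]; simp
  have s2 : ((Equiv.Perm.sign τ : ℤ) : ℂ) * ((Equiv.Perm.sign τ : ℤ) : ℂ) = 1 := by
    rw [← Int.cast_mul, ← Units.val_mul, Int.units_mul_self]; simp
  linear_combination (exp := 1) ((A.submatrix e1 e2).det * (A.submatrix e2 e1).det *
    ((Equiv.Perm.sign τ : ℤ) : ℂ) * ((Equiv.Perm.sign τ : ℤ) : ℂ)) * s1 +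
    ((A.submatrix e1 e2).det * (A.submatrix e2 e1).det) * s2

lemma wss_inj {A : Matrix (Fin n) (Fin n) ℂ} (hA : IsWSS A) {k : ℕ} (f g : Fin k → Fin n)
    (hf : Function.Injective f) (hg : Function.Injective g)
    (h : ((Finset.univ.image f) ∩ (Finset.univ.image g)).card + 1 = k) :
    0 ≤ ((A.submatrix f g).det * (A.submatrix g f).det).re := by
  have h1 : (Finset.univ.image f).card = k := by
    rw [Finset.card_image_of_injective _ hf]; simp
  have h2 : (Finset.univ.image g).card = k := by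
    rw [Finset.card_image_of_injective _ hg]; simp
  rw [prod_inj A f g hf hg h1 h2]
  exact (hA k _ _ h1 h2 h).2

lemma det_pd {A : Matrix (Fin n) (Fin n) ℂ} (hA : IsP A) {k : ℕ} (f : Fin k → Fin n)
    (hf : Function.Injective f) (α : Finset (Fin n)) (h : Finset.univ.image f = α) :
    (A.submatrix f f).det = (pd A α : ℂ) := by
  rw [det_inj A f hf, h, pd_eq hA]

lemma det4 {R : Type} [CommRing R] (M : Matrix (Fin 4) (Fin 4) R) : M.det =
    M 0 0 * (M 1 1 * (M 2 2 * M 3 3 - M 2 3 * M 3 2) - M 1 2 * (M 2 1 * M 3 3 - M 2 3 * M 3 1)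
      + M 1 3 * (M 2 1 * M 3 2 - M 2 2 * M 3 1))
    - M 0 1 * (M 1 0 * (M 2 2 * M 3 3 - M 2 3 * M 3 2) - M 1 2 * (M 2 0 * M 3 3 - M 2 3 * M 3 0)
      + M 1 3 * (M 2 0 * M 3 2 - M 2 2 * M 3 0))
    + M 0 2 * (M 1 0 * (M 2 1 * M 3 3 - M 2 3 * M 3 1) - M 1 1 * (M 2 0 * M 3 3 - M 2 3 * M 3 0)
      + M 1 3 * (M 2 0 * M 3 1 - M 2 1 * M 3 0))
    - M 0 3 * (M 1 0 * (M 2 1 * M 3 2 - M 2 2 * M 3 1) - M 1 1 * (M 2 0 * M 3 2 - M 2 2 * M 3 0)
      + M 1 2 * (M 2 0 * M 3 1 - M 2 1 * M 3 0)) := by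
  rw [← detF_eq]
  simp [detF, Fin.sum_univ_succ, Fin.succAbove]
  ring

lemma inj1 (i : Fin n) : Function.Injective ![i] := by
  intro a b _; exact Subsingleton.elim _ _

lemma inj2 {i j : Fin n} (h : i ≠ j) : Function.Injective ![i, j] := by
  intro a b; fin_cases a <;> fin_cases b <;> simp [h, h.symm]

lemma inj3 {i j k : Fin n} (h : i ≠ j) (h2 : i ≠ k) (h3 : j ≠ k) : Function.Injective ![i, j, k] := by
  intro a b; fin_cases a <;> fin_cases b <;> simp [h, h.symm, h2, h2.symm, h3, h3.symm]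

lemma inj4 {i j k l : Fin n} (h : i ≠ j) (h2 : i ≠ k) (h3 : j ≠ k) (h4 : i ≠ l) (h5 : j ≠ l)
    (h6 : k ≠ l) : Function.Injective ![i, j, k, l] := by
  intro a b; fin_cases a <;> fin_cases b <;>
    simp [h, h.symm, h2, h2.symm, h3, h3.symm, h4, h4.symm, h5, h5.symm, h6, h6.symm]

lemma im1 (i : Fin n) : Finset.univ.image ![i] = {i} := by
  ext x; simp [eq_comm]

lemma im2 (i j : Fin n) : Finset.univ.image ![i, j] = {i, j} := by
  ext x; simp [Fin.exists_fin_succ, eq_comm]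

lemma im3 (i j k : Fin n) : Finset.univ.image ![i, j, k] = {i, j, k} := by
  ext x; simp [Fin.exists_fin_succ, eq_comm]

lemma im4 (i j k l : Fin n) : Finset.univ.image ![i, j, k, l] = {i, j, k, l} := by
  ext x; simp [Fin.exists_fin_succ, eq_comm]

lemma L0 {A : Matrix (Fin n) (Fin n) ℂ} (hA : IsGKK A) {i j : Fin n} (h : i ≠ j) :
    pd A {i, j} ≤ pd A {i} * pd A {j} := by
  have w := wss_inj hA.2 ![i] ![j] (inj1 _) (inj1 _) (by
    rw [im1, im1, Finset.inter_singleton_of_notMem (by simpa using h.symm)]; rfl)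
  have e : (A.submatrix ![i] ![j]).det * (A.submatrix ![j] ![i]).det =
      (A.submatrix ![i] ![i]).det * (A.submatrix ![j] ![j]).det - (A.submatrix ![i, j] ![i, j]).det := by
    simp [Matrix.det_fin_two]
  rw [e, det_pd hA.1 _ (inj1 _) _ (im1 _), det_pd hA.1 _ (inj1 _) _ (im1 _),
    det_pd hA.1 _ (inj2 h) _ (im2 _ _)] at w
  norm_cast at w
  linarith

lemma L1 {A : Matrix (Fin n) (Fin n) ℂ} (hA : IsGKK A) {a i j : Fin n} (h1 : a ≠ i) (h2 : a ≠ j)
    (h : i ≠ j) : pd A {a} * pd A {a, i, j} ≤ pd A {a, i} * pd A {a, j} := by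
  have w := wss_inj hA.2 ![a, i] ![a, j] (inj2 h1) (inj2 h2) (by
    rw [im2, im2]
    have : ({a, i} : Finset (Fin n)) ∩ {a, j} = {a} := by
      ext x; simp only [Finset.mem_inter, Finset.mem_insert, Finset.mem_singleton]
      constructor
      · rintro ⟨h3 | h3, h4 | h4⟩
        · exact h3
        · exact h3
        · exact h4
        · exact absurd (h3.symm.trans h4) h
      · rintro rfl; simp
    rw [this]; rfl)
  have e : (A.submatrix ![a, i] ![a, j]).det * (A.submatrix ![a, j] ![a, i]).det =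
      (A.submatrix ![a, i] ![a, i]).det * (A.submatrix ![a, j] ![a, j]).det -
        (A.submatrix ![a] ![a]).det * (A.submatrix ![a, i, j] ![a, i, j]).det := by
    simp [Matrix.det_fin_two, Matrix.det_fin_three]; ring
  rw [e, det_pd hA.1 _ (inj1 _) _ (im1 _), det_pd hA.1 _ (inj2 h1) _ (im2 _ _),
    det_pd hA.1 _ (inj2 h2) _ (im2 _ _), det_pd hA.1 _ (inj3 h1 h2 h) _ (im3 _ _ _)] at w
  norm_cast at w
  linarith

lemma L2 {A : Matrix (Fin n) (Fin n) ℂ} (hA : IsGKK A) {a b i j : Fin n} (h0 : a ≠ b) (h1 : a ≠ i)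
    (h2 : a ≠ j) (h3 : b ≠ i) (h4 : b ≠ j) (h : i ≠ j) :
    pd A {a, b} * pd A {a, b, i, j} ≤ pd A {a, b, i} * pd A {a, b, j} := by
  have w := wss_inj hA.2 ![a, b, i] ![a, b, j] (inj3 h0 h1 h3) (inj3 h0 h2 h4) (by
    rw [im3, im3]
    have : ({a, b, i} : Finset (Fin n)) ∩ {a, b, j} = {a, b} := by
      ext x; simp only [Finset.mem_inter, Finset.mem_insert, Finset.mem_singleton]
      constructor
      · rintro ⟨h3 | h3 | h3, h4 | h4 | h4⟩ <;> first | tauto | exact absurd (h3.symm.trans h4) h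
      · rintro (rfl | rfl) <;> simp
    rw [this, Finset.card_pair h0])
  have e : (A.submatrix ![a, b, i] ![a, b, j]).det * (A.submatrix ![a, b, j] ![a, b, i]).det =
      (A.submatrix ![a, b, i] ![a, b, i]).det * (A.submatrix ![a, b, j] ![a, b, j]).det -
        (A.submatrix ![a, b] ![a, b]).det * (A.submatrix ![a, b, i, j] ![a, b, i, j]).det := by
    simp [Matrix.det_fin_two, Matrix.det_fin_three, det4]; ring
  rw [e, det_pd hA.1 _ (inj2 h0) _ (im2 _ _), det_pd hA.1 _ (inj3 h0 h1 h3) _ (im3 _ _ _),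
    det_pd hA.1 _ (inj3 h0 h2 h4) _ (im3 _ _ _),
    det_pd hA.1 _ (inj4 h0 h1 h3 h2 h4 h) _ (im4 _ _ _ _)] at w
  norm_cast at w
  linarith

lemma K1 {A : Matrix (Fin n) (Fin n) ℂ} (hA : IsGKK A) (i j k : Fin n) (h1 : i ≠ j) (h2 : i ≠ k)
    (h : j ≠ k) (α β : Finset (Fin n)) (hα : α = {j, i, k}) (hβ : β = {j, k}) :
    pd A α ≤ pd A {i} * pd A β := by
  subst hα hβ
  have a1 := L1 hA h1.symm h h2
  have a2 := L0 hA h1.symm
  have p1 := pd_pos hA.1 {j}
  have p2 := pd_pos hA.1 {j, k}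
  have : pd A {j} * pd A {j, i, k} ≤ pd A {j} * (pd A {i} * pd A {j, k}) := by
    nlinarith [mul_le_mul_of_nonneg_right a2 p2.le]
  exact le_of_mul_le_mul_left this p1

lemma K2 {A : Matrix (Fin n) (Fin n) ℂ} (hA : IsGKK A) (k l j m : Fin n) (h0 : k ≠ l) (h1 : k ≠ j)
    (h2 : k ≠ m) (h3 : l ≠ j) (h4 : l ≠ m) (h : j ≠ m) (α β γ : Finset (Fin n))
    (hα : α = {k, l, j, m}) (hβ : β = {k, j}) (hγ : γ = {k, l, m}) :
    pd A {k} * pd A α ≤ pd A β * pd A γ := by
  subst hα hβ hγ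
  have a1 := L1 hA h0 h1 h3
  have a2 := L2 hA h0 h1 h2 h3 h4 h
  have p1 := pd_pos hA.1 {k}
  have p2 := pd_pos hA.1 {k, l}
  have p3 := pd_pos hA.1 {k, l, m}
  have : pd A {k, l} * (pd A {k} * pd A {k, l, j, m}) ≤ pd A {k, l} * (pd A {k, j} * pd A {k, l, m}) := by
    nlinarith [mul_le_mul_of_nonneg_right a1 p3.le, mul_le_mul_of_nonneg_left a2 p1.le]
  exact le_of_mul_le_mul_left this p2

lemma char_eq {A : Matrix (Fin n) (Fin n) ℂ} (hA : IsP A) (z : ℂ) (hz : z ∈ spectrum ℂ A) :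
    ∑ k ∈ Finset.range (n + 1),
      ((∑ s ∈ (Finset.univ : Finset (Fin n)).powersetCard k, pd A s : ℝ) : ℂ) * (-z) ^ (n - k) = 0 := by
  rw [mem_spec_iff, sub_eq_add_neg, ← neg_smul, det_add_smul] at hz
  simp only [Fintype.card_fin] at hz
  rw [← hz]
  refine Finset.sum_congr rfl fun k _ => ?_
  congr 1
  push_cast
  refine Finset.sum_congr rfl fun s _ => ?_
  exact (pd_eq hA s).symm

lemma pd_empty (A : Matrix (Fin n) (Fin n) ℂ) : pd A ∅ = 1 := by
  simp [pd]

lemma hurwitz2 (e1 e2 : ℝ) (h1 : 0 < e1) (h2 : 0 < e2) (z : ℂ)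
    (h : z ^ 2 - e1 * z + e2 = 0) : 0 < z.re := by
  have hr := congrArg Complex.re h
  have hi := congrArg Complex.im h
  simp [pow_succ] at hr hi
  by_contra hh
  push Not at hh
  by_cases hb : z.im = 0
  · rw [hb] at hr; nlinarith
  · have : 2 * z.re - e1 = 0 := by
      apply mul_left_cancel₀ hb; linarith
    linarith

lemma hurwitz3 (e1 e2 e3 : ℝ) (h1 : 0 < e1) (h2 : 0 < e2) (h3 : 0 < e3) (hH : e3 < e1 * e2) (z : ℂ)
    (h : -z ^ 3 + e1 * z ^ 2 - e2 * z + e3 = 0) : 0 < z.re := by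
  have hr := congrArg Complex.re h
  have hi := congrArg Complex.im h
  simp [pow_succ] at hr hi
  set a := z.re
  set b := z.im
  by_contra hh
  push Not at hh
  by_cases hb : b = 0
  · rw [hb] at hr
    nlinarith [mul_nonneg (neg_nonneg.2 hh) (mul_self_nonneg a), mul_nonneg h1.le (mul_self_nonneg a),
      mul_nonneg h2.le (neg_nonneg.2 hh)]
  · have e2' : e2 = a ^ 2 + b ^ 2 + 2 * a * (e1 - 2 * a) := by
      apply mul_left_cancel₀ hb; linarith
    have e3' : e3 = (a ^ 2 + b ^ 2) * (e1 - 2 * a) := by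
      rw [e2'] at hr; linarith
    have : e1 * e2 - e3 = 2 * a * ((e1 - a) ^ 2 + b ^ 2) := by
      rw [e3', e2']; ring
    nlinarith [mul_nonneg (neg_nonneg.2 hh) (add_nonneg (sq_nonneg (e1 - a)) (sq_nonneg b))]

lemma hurwitz4 (e1 e2 e3 e4 : ℝ) (h1 : 0 < e1) (h2 : 0 < e2) (h3 : 0 < e3) (h4 : 0 < e4)
    (hH : e3 ^ 2 + e1 ^ 2 * e4 < e1 * e2 * e3) (z : ℂ)
    (h : z ^ 4 - e1 * z ^ 3 + e2 * z ^ 2 - e3 * z + e4 = 0) : 0 < z.re := by
  have hr := congrArg Complex.re h
  have hi := congrArg Complex.im h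
  simp [pow_succ] at hr hi
  set a := z.re
  set b := z.im
  by_contra hh
  push Not at hh
  by_cases hb : b = 0
  · rw [hb] at hr
    nlinarith [mul_nonneg h1.le (mul_nonneg (neg_nonneg.2 hh) (mul_self_nonneg a)),
      mul_nonneg h2.le (mul_self_nonneg a), mul_nonneg h3.le (neg_nonneg.2 hh),
      mul_self_nonneg (a * a)]
  · set m := a ^ 2 + b ^ 2 with hm
    set s := e1 - 2 * a with hs
    set t := e2 - m - 2 * a * s with ht
    have e3' : e3 = 2 * a * t + s * m := by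
      apply mul_left_cancel₀ hb
      rw [ht, hs, hm]; linarith
    have e4' : e4 = m * t := by
      rw [e3', ht, hs, hm] at hr
      rw [ht, hs, hm]; linarith
    have e1' : e1 = 2 * a + s := by rw [hs]; ring
    have e2' : e2 = m + t + 2 * a * s := by rw [ht]; ring
    have : e1 * e2 * e3 - e3 ^ 2 - e1 ^ 2 * e4 = 2 * a * s * ((m - t) ^ 2 + e1 * e3) := by
      clear_value m s t
      subst e4' e3' e2' e1'
      ring
    have hs0 : 0 < s := by rw [hs]; linarith
    nlinarith [mul_nonneg (mul_nonneg (neg_nonneg.2 hh) hs0.le)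
      (add_nonneg (sq_nonneg (m - t)) (mul_pos h1 h3).le)]

end Pool.Agent.H74.GKK
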