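import Pool.Agent.H74.GKKStab

set_option autoImplicit false

namespace Pool.Agent.H74.GKK

lemma sum_1_0 (f : Finset (Fin 1) → ℝ) :
    ∑ s ∈ (Finset.univ : Finset (Fin 1)).powersetCard 0, f s = f ∅ := by
  rw [show (Finset.univ : Finset (Fin 1)).powersetCard 0 = {∅} by decide]
  rw [Finset.sum_singleton]

lemma sum_1_1 (f : Finset (Fin 1) → ℝ) :
    ∑ s ∈ (Finset.univ : Finset (Fin 1)).powersetCard 1, f s = f {0} := by
  rw [show (Finset.univ : Finset (Fin 1)).powersetCard 1 = {{0}} by decide]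
  rw [Finset.sum_singleton]

lemma sum_2_0 (f : Finset (Fin 2) → ℝ) :
    ∑ s ∈ (Finset.univ : Finset (Fin 2)).powersetCard 0, f s = f ∅ := by
  rw [show (Finset.univ : Finset (Fin 2)).powersetCard 0 = {∅} by decide]
  rw [Finset.sum_singleton]

lemma sum_2_1 (f : Finset (Fin 2) → ℝ) :
    ∑ s ∈ (Finset.univ : Finset (Fin 2)).powersetCard 1, f s = f {0} + f {1} := by
  rw [show (Finset.univ : Finset (Fin 2)).powersetCard 1 = {{0}, {1}} by decide]
  repeat rw [Finset.sum_insert (by decide)]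
  rw [Finset.sum_singleton]

lemma sum_2_2 (f : Finset (Fin 2) → ℝ) :
    ∑ s ∈ (Finset.univ : Finset (Fin 2)).powersetCard 2, f s = f {0, 1} := by
  rw [show (Finset.univ : Finset (Fin 2)).powersetCard 2 = {{0, 1}} by decide]
  rw [Finset.sum_singleton]

lemma sum_3_0 (f : Finset (Fin 3) → ℝ) :
    ∑ s ∈ (Finset.univ : Finset (Fin 3)).powersetCard 0, f s = f ∅ := by
  rw [show (Finset.univ : Finset (Fin 3)).powersetCard 0 = {∅} by decide]
  rw [Finset.sum_singleton]

lemma sum_3_1 (f : Finset (Fin 3) → ℝ) :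
    ∑ s ∈ (Finset.univ : Finset (Fin 3)).powersetCard 1, f s = f {0} + f {1} + f {2} := by
  rw [show (Finset.univ : Finset (Fin 3)).powersetCard 1 = {{0}, {1}, {2}} by decide]
  repeat rw [Finset.sum_insert (by decide)]
  rw [Finset.sum_singleton]
  ring

lemma sum_3_2 (f : Finset (Fin 3) → ℝ) :
    ∑ s ∈ (Finset.univ : Finset (Fin 3)).powersetCard 2, f s = f {0, 1} + f {0, 2} + f {1, 2} := by
  rw [show (Finset.univ : Finset (Fin 3)).powersetCard 2 = {{0, 1}, {0, 2}, {1, 2}} by decide]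
  repeat rw [Finset.sum_insert (by decide)]
  rw [Finset.sum_singleton]
  ring

lemma sum_3_3 (f : Finset (Fin 3) → ℝ) :
    ∑ s ∈ (Finset.univ : Finset (Fin 3)).powersetCard 3, f s = f {0, 1, 2} := by
  rw [show (Finset.univ : Finset (Fin 3)).powersetCard 3 = {{0, 1, 2}} by decide]
  rw [Finset.sum_singleton]

lemma sum_4_0 (f : Finset (Fin 4) → ℝ) :
    ∑ s ∈ (Finset.univ : Finset (Fin 4)).powersetCard 0, f s = f ∅ := by
  rw [show (Finset.univ : Finset (Fin 4)).powersetCard 0 = {∅} by decide]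
  rw [Finset.sum_singleton]

lemma sum_4_1 (f : Finset (Fin 4) → ℝ) :
    ∑ s ∈ (Finset.univ : Finset (Fin 4)).powersetCard 1, f s = f {0} + f {1} + f {2} + f {3} := by
  rw [show (Finset.univ : Finset (Fin 4)).powersetCard 1 = {{0}, {1}, {2}, {3}} by decide]
  repeat rw [Finset.sum_insert (by decide)]
  rw [Finset.sum_singleton]
  ring

lemma sum_4_2 (f : Finset (Fin 4) → ℝ) :
    ∑ s ∈ (Finset.univ : Finset (Fin 4)).powersetCard 2, f s = f {0, 1} + f {0, 2} + f {0, 3} + f {1, 2} + f {1, 3} + f {2, 3} := by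
  rw [show (Finset.univ : Finset (Fin 4)).powersetCard 2 = {{0, 1}, {0, 2}, {0, 3}, {1, 2}, {1, 3}, {2, 3}} by decide]
  repeat rw [Finset.sum_insert (by decide)]
  rw [Finset.sum_singleton]
  ring

lemma sum_4_3 (f : Finset (Fin 4) → ℝ) :
    ∑ s ∈ (Finset.univ : Finset (Fin 4)).powersetCard 3, f s = f {0, 1, 2} + f {0, 1, 3} + f {0, 2, 3} + f {1, 2, 3} := by
  rw [show (Finset.univ : Finset (Fin 4)).powersetCard 3 = {{0, 1, 2}, {0, 1, 3}, {0, 2, 3}, {1, 2, 3}} by decide]
  repeat rw [Finset.sum_insert (by decide)]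
  rw [Finset.sum_singleton]
  ring

lemma sum_4_4 (f : Finset (Fin 4) → ℝ) :
    ∑ s ∈ (Finset.univ : Finset (Fin 4)).powersetCard 4, f s = f {0, 1, 2, 3} := by
  rw [show (Finset.univ : Finset (Fin 4)).powersetCard 4 = {{0, 1, 2, 3}} by decide]
  rw [Finset.sum_singleton]

lemma hur_aux (e1 e2 e3 e4 : ℝ) (h1 : 0 < e1) (h2 : 0 < e2) (h3 : 0 < e3) (a1 : 3 * e3 ≤ e1 * e2)
    (a2 : 3 * (e1 * e4) ≤ e2 * e3) : e3 ^ 2 + e1 ^ 2 * e4 < e1 * e2 * e3 := by
  nlinarith [mul_le_mul_of_nonneg_right a1 h3.le, mul_le_mul_of_nonneg_left a2 h1.le,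
    mul_pos (mul_pos h1 h2) h3]

lemma stable1 (A : Matrix (Fin 1) (Fin 1) ℂ) (hA : IsGKK A) : IsStable A := by
  intro z hz
  have h := char_eq hA.1 z hz
  simp only [Finset.sum_range_succ, Finset.range_zero, Finset.sum_empty, sum_1_0, sum_1_1, pd_empty] at h
  have hp0 := pd_pos hA.1 {0}
  have hr := congrArg Complex.re h
  simp at hr
  linarith

lemma stable2 (A : Matrix (Fin 2) (Fin 2) ℂ) (hA : IsGKK A) : IsStable A := by
  intro z hz
  have h := char_eq hA.1 z hz
  simp only [Finset.sum_range_succ, Finset.range_zero, Finset.sum_empty, sum_2_0, sum_2_1, sum_2_2, pd_empty] at h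
  have hp0 := pd_pos hA.1 {0}
  have hp1 := pd_pos hA.1 {1}
  have hp01 := pd_pos hA.1 {0, 1}
  refine hurwitz2 (pd A {0} + pd A {1}) (pd A {0, 1}) (by positivity) (by positivity) z ?_
  rw [← h]; push_cast; ring

lemma stable3 (A : Matrix (Fin 3) (Fin 3) ℂ) (hA : IsGKK A) : IsStable A := by
  intro z hz
  have h := char_eq hA.1 z hz
  simp only [Finset.sum_range_succ, Finset.range_zero, Finset.sum_empty, sum_3_0, sum_3_1, sum_3_2, sum_3_3, pd_empty] at h
  have hp0 := pd_pos hA.1 {0}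
  have hp1 := pd_pos hA.1 {1}
  have hp2 := pd_pos hA.1 {2}
  have hp01 := pd_pos hA.1 {0, 1}
  have hp02 := pd_pos hA.1 {0, 2}
  have hp12 := pd_pos hA.1 {1, 2}
  have hp012 := pd_pos hA.1 {0, 1, 2}
  have k012 := K1 hA 0 1 2 (by decide) (by decide) (by decide) {0, 1, 2} {1, 2} (by decide) (by decide)
  have k102 := K1 hA 1 0 2 (by decide) (by decide) (by decide) {0, 1, 2} {0, 2} (by decide) (by decide)
  have k201 := K1 hA 2 0 1 (by decide) (by decide) (by decide) {0, 1, 2} {0, 1} (by decide) (by decide)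
  have q0p01 := mul_pos hp0 hp01
  have q1p01 := mul_pos hp1 hp01
  have q0p02 := mul_pos hp0 hp02
  have q2p02 := mul_pos hp2 hp02
  have q1p12 := mul_pos hp1 hp12
  have q2p12 := mul_pos hp2 hp12
  refine hurwitz3 (pd A {0} + pd A {1} + pd A {2}) (pd A {0, 1} + pd A {0, 2} + pd A {1, 2}) (pd A {0, 1, 2}) (by positivity) (by positivity) (by positivity) (by linarith) z ?_
  rw [← h]; push_cast; ring

lemma stable4 (A : Matrix (Fin 4) (Fin 4) ℂ) (hA : IsGKK A) : IsStable A := by
  intro z hz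
  have h := char_eq hA.1 z hz
  simp only [Finset.sum_range_succ, Finset.range_zero, Finset.sum_empty, sum_4_0, sum_4_1, sum_4_2, sum_4_3, sum_4_4, pd_empty] at h
  have hp0 := pd_pos hA.1 {0}
  have hp1 := pd_pos hA.1 {1}
  have hp2 := pd_pos hA.1 {2}
  have hp3 := pd_pos hA.1 {3}
  have hp01 := pd_pos hA.1 {0, 1}
  have hp02 := pd_pos hA.1 {0, 2}
  have hp03 := pd_pos hA.1 {0, 3}
  have hp12 := pd_pos hA.1 {1, 2}
  have hp13 := pd_pos hA.1 {1, 3}
  have hp23 := pd_pos hA.1 {2, 3}
  have hp012 := pd_pos hA.1 {0, 1, 2}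
  have hp013 := pd_pos hA.1 {0, 1, 3}
  have hp023 := pd_pos hA.1 {0, 2, 3}
  have hp123 := pd_pos hA.1 {1, 2, 3}
  have hp0123 := pd_pos hA.1 {0, 1, 2, 3}
  have k012 := K1 hA 0 1 2 (by decide) (by decide) (by decide) {0, 1, 2} {1, 2} (by decide) (by decide)
  have k102 := K1 hA 1 0 2 (by decide) (by decide) (by decide) {0, 1, 2} {0, 2} (by decide) (by decide)
  have k201 := K1 hA 2 0 1 (by decide) (by decide) (by decide) {0, 1, 2} {0, 1} (by decide) (by decide)
  have k013 := K1 hA 0 1 3 (by decide) (by decide) (by decide) {0, 1, 3} {1, 3} (by decide) (by decide)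
  have k103 := K1 hA 1 0 3 (by decide) (by decide) (by decide) {0, 1, 3} {0, 3} (by decide) (by decide)
  have k301 := K1 hA 3 0 1 (by decide) (by decide) (by decide) {0, 1, 3} {0, 1} (by decide) (by decide)
  have k023 := K1 hA 0 2 3 (by decide) (by decide) (by decide) {0, 2, 3} {2, 3} (by decide) (by decide)
  have k203 := K1 hA 2 0 3 (by decide) (by decide) (by decide) {0, 2, 3} {0, 3} (by decide) (by decide)
  have k302 := K1 hA 3 0 2 (by decide) (by decide) (by decide) {0, 2, 3} {0, 2} (by decide) (by decide)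
  have k123 := K1 hA 1 2 3 (by decide) (by decide) (by decide) {1, 2, 3} {2, 3} (by decide) (by decide)
  have k213 := K1 hA 2 1 3 (by decide) (by decide) (by decide) {1, 2, 3} {1, 3} (by decide) (by decide)
  have k312 := K1 hA 3 1 2 (by decide) (by decide) (by decide) {1, 2, 3} {1, 2} (by decide) (by decide)
  have q0p01 := mul_pos hp0 hp01
  have q1p01 := mul_pos hp1 hp01
  have q0p02 := mul_pos hp0 hp02
  have q2p02 := mul_pos hp2 hp02
  have q0p03 := mul_pos hp0 hp03
  have q3p03 := mul_pos hp3 hp03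
  have q1p12 := mul_pos hp1 hp12
  have q2p12 := mul_pos hp2 hp12
  have q1p13 := mul_pos hp1 hp13
  have q3p13 := mul_pos hp3 hp13
  have q2p23 := mul_pos hp2 hp23
  have q3p23 := mul_pos hp3 hp23
  have r01 := K2 hA 0 2 1 3 (by decide) (by decide) (by decide) (by decide) (by decide) (by decide) {0, 1, 2, 3} {0, 1} {0, 2, 3} (by decide) (by decide) (by decide)
  have r02 := K2 hA 0 1 2 3 (by decide) (by decide) (by decide) (by decide) (by decide) (by decide) {0, 1, 2, 3} {0, 2} {0, 1, 3} (by decide) (by decide) (by decide)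
  have r03 := K2 hA 0 1 3 2 (by decide) (by decide) (by decide) (by decide) (by decide) (by decide) {0, 1, 2, 3} {0, 3} {0, 1, 2} (by decide) (by decide) (by decide)
  have r10 := K2 hA 1 2 0 3 (by decide) (by decide) (by decide) (by decide) (by decide) (by decide) {0, 1, 2, 3} {0, 1} {1, 2, 3} (by decide) (by decide) (by decide)
  have r12 := K2 hA 1 0 2 3 (by decide) (by decide) (by decide) (by decide) (by decide) (by decide) {0, 1, 2, 3} {1, 2} {0, 1, 3} (by decide) (by decide) (by decide)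
  have r13 := K2 hA 1 0 3 2 (by decide) (by decide) (by decide) (by decide) (by decide) (by decide) {0, 1, 2, 3} {1, 3} {0, 1, 2} (by decide) (by decide) (by decide)
  have r20 := K2 hA 2 1 0 3 (by decide) (by decide) (by decide) (by decide) (by decide) (by decide) {0, 1, 2, 3} {0, 2} {1, 2, 3} (by decide) (by decide) (by decide)
  have r21 := K2 hA 2 0 1 3 (by decide) (by decide) (by decide) (by decide) (by decide) (by decide) {0, 1, 2, 3} {1, 2} {0, 2, 3} (by decide) (by decide) (by decide)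
  have r23 := K2 hA 2 0 3 1 (by decide) (by decide) (by decide) (by decide) (by decide) (by decide) {0, 1, 2, 3} {2, 3} {0, 1, 2} (by decide) (by decide) (by decide)
  have r30 := K2 hA 3 1 0 2 (by decide) (by decide) (by decide) (by decide) (by decide) (by decide) {0, 1, 2, 3} {0, 3} {1, 2, 3} (by decide) (by decide) (by decide)
  have r31 := K2 hA 3 0 1 2 (by decide) (by decide) (by decide) (by decide) (by decide) (by decide) {0, 1, 2, 3} {1, 3} {0, 2, 3} (by decide) (by decide) (by decide)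
  have r32 := K2 hA 3 0 2 1 (by decide) (by decide) (by decide) (by decide) (by decide) (by decide) {0, 1, 2, 3} {2, 3} {0, 1, 3} (by decide) (by decide) (by decide)
  have up012p01 := mul_pos hp01 hp012
  have up012p02 := mul_pos hp02 hp012
  have up012p12 := mul_pos hp12 hp012
  have up013p01 := mul_pos hp01 hp013
  have up013p03 := mul_pos hp03 hp013
  have up013p13 := mul_pos hp13 hp013
  have up023p02 := mul_pos hp02 hp023
  have up023p03 := mul_pos hp03 hp023
  have up023p23 := mul_pos hp23 hp023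
  have up123p12 := mul_pos hp12 hp123
  have up123p13 := mul_pos hp13 hp123
  have up123p23 := mul_pos hp23 hp123
  have a1 : 3 * (pd A {0, 1, 2} + pd A {0, 1, 3} + pd A {0, 2, 3} + pd A {1, 2, 3}) ≤ (pd A {0} + pd A {1} + pd A {2} + pd A {3}) * (pd A {0, 1} + pd A {0, 2} + pd A {0, 3} + pd A {1, 2} + pd A {1, 3} + pd A {2, 3}) := by linarith
  have a2 : 3 * ((pd A {0} + pd A {1} + pd A {2} + pd A {3}) * (pd A {0, 1, 2, 3})) ≤ (pd A {0, 1} + pd A {0, 2} + pd A {0, 3} + pd A {1, 2} + pd A {1, 3} + pd A {2, 3}) * (pd A {0, 1, 2} + pd A {0, 1, 3} + pd A {0, 2, 3} + pd A {1, 2, 3}) := by linarith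
  refine hurwitz4 (pd A {0} + pd A {1} + pd A {2} + pd A {3}) (pd A {0, 1} + pd A {0, 2} + pd A {0, 3} + pd A {1, 2} + pd A {1, 3} + pd A {2, 3}) (pd A {0, 1, 2} + pd A {0, 1, 3} + pd A {0, 2, 3} + pd A {1, 2, 3}) (pd A {0, 1, 2, 3}) (by positivity) (by positivity) (by positivity) (by positivity) (hur_aux _ _ _ _ (by positivity) (by positivity) (by positivity) a1 a2) z ?_
  rw [← h]; push_cast; ring

lemma stable0 (A : Matrix (Fin 0) (Fin 0) ℂ) : IsStable A := by
  intro z hz
  rw [mem_spec_iff] at hz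
  simp at hz

theorem stable_le4 (n : ℕ) (hn : n ≤ 4) (A : Matrix (Fin n) (Fin n) ℂ) (hA : IsGKK A) :
    IsStable A := by
  interval_cases n
  · exact stable0 A
  · exact stable1 A hA
  · exact stable2 A hA
  · exact stable3 A hA
  · exact stable4 A hA

end Pool.Agent.H74.GKK
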