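import Pool.Agent.H74.GKKStab
import Pool.Agent.H74.GKKEx

set_option autoImplicit false

namespace Pool.Agent.H74.GKK

open Matrix Real

variable {n : ℕ}

lemma lmin_spec {ι : Type} [Fintype ι] [DecidableEq ι] (B : Matrix ι ι ℂ) (h : lmin B < ⊤) :
    ∃ r : ℝ, lmin B = (r : EReal) ∧ (r : ℂ) ∈ spectrum ℂ B ∧
      ∀ s : ℝ, (s : ℂ) ∈ spectrum ℂ B → r ≤ s := by
  set S := {x : EReal | ∃ r : ℝ, x = (r : EReal) ∧ (r : ℂ) ∈ spectrum ℂ B} with hS
  have hfin : S.Finite := by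
    have h1 : {r : ℝ | (r : ℂ) ∈ spectrum ℂ B}.Finite :=
      (Matrix.finite_spectrum B).preimage Complex.ofReal_injective.injOn
    refine (h1.image (fun r : ℝ => (r : EReal))).subset ?_
    rintro _ ⟨r, rfl, hr⟩
    exact ⟨r, hr, rfl⟩
  have hne : S.Nonempty := by
    by_contra hh
    rw [Set.not_nonempty_iff_eq_empty] at hh
    unfold lmin at h
    rw [← hS, hh] at h
    simp at h
  obtain ⟨r, hr, hr2⟩ := hne.csInf_mem hfin
  refine ⟨r, hr, hr2, fun s hs => ?_⟩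
  have : sInf S ≤ (s : EReal) := sInf_le ⟨s, rfl, hs⟩
  rw [hr] at this
  exact_mod_cast this

lemma psub_sub (A : Matrix (Fin n) (Fin n) ℂ) (α : Finset (Fin n)) (z : ℂ) :
    psub A α - z • (1 : Matrix α α ℂ) = psub (A - z • 1) α := by
  ext i j
  simp only [psub, Matrix.one_apply, Matrix.sub_apply, Matrix.smul_apply, Matrix.submatrix_apply,
    Subtype.ext_iff]

lemma spec1 (A : Matrix (Fin n) (Fin n) ℂ) (i : Fin n) (z : ℂ) :
    z ∈ spectrum ℂ (psub A {i}) ↔ A i i = z := by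
  rw [mem_spec_iff, psub_sub, ← im1, ← det_inj _ _ (inj1 i)]
  simp [sub_eq_zero]

lemma spec2 (A : Matrix (Fin n) (Fin n) ℂ) {i j : Fin n} (h : i ≠ j) (z : ℂ) :
    z ∈ spectrum ℂ (psub A {i, j}) ↔ (A i i - z) * (A j j - z) - A i j * A j i = 0 := by
  rw [mem_spec_iff, psub_sub, ← im2, ← det_inj _ _ (inj2 h)]
  simp [Matrix.det_fin_two, h, h.symm, Matrix.one_apply]

lemma diag_real {A : Matrix (Fin n) (Fin n) ℂ} (hA : IsOmega A) (i : Fin n) :
    ∃ d : ℝ, A i i = d ∧ lmin (psub A {i}) = (d : EReal) := by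
  obtain ⟨r, h1, h2, -⟩ := lmin_spec _ (hA {i} {i} (by simp) subset_rfl).2
  exact ⟨r, (spec1 A i r).1 h2, h1⟩

lemma pair_bound {A : Matrix (Fin n) (Fin n) ℂ} (hA : IsOmega A) {i j : Fin n} (h : i ≠ j) (r : ℝ)
    (hr : lmin A = (r : EReal)) (di dj : ℝ) (hi : A i i = di) (hj : A j j = dj)
    (li : lmin (psub A {i}) = (di : EReal)) (lj : lmin (psub A {j}) = (dj : EReal)) :
    ∃ p : ℝ, A i j * A j i = p ∧ 0 ≤ p ∧ p ≤ (di - r) * (dj - r) ∧ r ≤ di ∧ r ≤ dj := by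
  obtain ⟨m, h1, h2, -⟩ := lmin_spec _ (hA {i, j} {i, j} (by simp) subset_rfl).2
  rw [spec2 A h, hi, hj] at h2
  have a1 := (hA Finset.univ {i, j} (by simp) (Finset.subset_univ _)).1
  have a2 := (hA {i, j} {i} (by simp) (by simp)).1
  have a3 := (hA {i, j} {j} (by simp) (by simp)).1
  rw [lmin_psub_univ, hr, h1] at a1
  rw [h1, li] at a2
  rw [h1, lj] at a3
  have b1 : r ≤ m := by exact_mod_cast a1
  have b2 : m ≤ di := by exact_mod_cast a2
  have b3 : m ≤ dj := by exact_mod_cast a3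
  refine ⟨(di - m) * (dj - m), ?_, ?_, ?_, by linarith, by linarith⟩
  · push_cast; linear_combination -h2
  · exact mul_nonneg (by linarith) (by linarith)
  · apply mul_le_mul <;> linarith

lemma l_top {A : Matrix (Fin (n + 1)) (Fin (n + 1)) ℂ} (hA : IsOmega A) : lmin A < ⊤ := by
  rw [← lmin_psub_univ]
  exact (hA _ _ Finset.univ_nonempty subset_rfl).2

lemma arg_real {A : Matrix (Fin n) (Fin n) ℂ} (r : ℝ)
    (hr : ∀ s : ℝ, (s : ℂ) ∈ spectrum ℂ A → r ≤ s) (z : ℂ) (hz : z ∈ spectrum ℂ A)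
    (him : z.im = 0) : Complex.arg (z - r) = 0 := by
  have e : z = (z.re : ℂ) := Complex.ext (by simp) (by simp [him])
  have := hr z.re (e ▸ hz)
  rw [Complex.arg_eq_zero_iff]
  simp [him, this]

lemma arg_le_of (w : ℂ) (h0 : 0 < w.re) (h : 3 * w.im ^ 2 ≤ w.re ^ 2) : |Complex.arg w| ≤ π / 6 := by
  by_contra hh
  push Not at hh
  have hw : w ≠ 0 := by rintro rfl; simp at h0
  have h1 : Real.cos |Complex.arg w| < Real.cos (π / 6) :=
    Real.cos_lt_cos_of_nonneg_of_le_pi (by positivity) (Complex.abs_arg_le_pi w) hh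
  rw [Real.cos_abs, Complex.cos_arg hw, Real.cos_pi_div_six, div_lt_div_iff₀ (norm_pos_iff.2 hw)
    two_pos] at h1
  have h2 : ‖w‖ ^ 2 = w.re ^ 2 + w.im ^ 2 := by
    rw [Complex.sq_norm, Complex.normSq_apply]; ring
  have h3 : (√3 : ℝ) ^ 2 = 3 := Real.sq_sqrt (by norm_num)
  have h4 : (w.re * 2) ^ 2 < (√3 * ‖w‖) ^ 2 := by
    apply pow_lt_pow_left₀ h1 (by positivity) two_ne_zero
  rw [mul_pow, mul_pow, h3, h2] at h4
  linarith

lemma varga1 (A : Matrix (Fin 1) (Fin 1) ℂ) (hA : IsOmega A) (z : ℂ) (hz : z ∈ spectrum ℂ A) :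
    z = ((lmin A).toReal : ℂ) := by
  obtain ⟨r, h1, h2, -⟩ := lmin_spec _ (l_top hA)
  rw [h1, EReal.toReal_coe]
  rw [mem_spec_iff] at hz h2
  simp [sub_eq_zero] at hz h2
  rw [← hz, h2]

lemma varga2 (A : Matrix (Fin 2) (Fin 2) ℂ) (hA : IsOmega A) (z : ℂ) (hz : z ∈ spectrum ℂ A)
    (hne : z ≠ ((lmin A).toReal : ℂ)) : Complex.arg (z - ((lmin A).toReal : ℂ)) = 0 := by
  obtain ⟨r, h1, h2, h3⟩ := lmin_spec _ (l_top hA)
  rw [h1, EReal.toReal_coe] at hne ⊢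
  apply arg_real r h3 z hz
  obtain ⟨d0, e0, -⟩ := diag_real hA 0
  obtain ⟨d1, e1, -⟩ := diag_real hA 1
  rw [mem_spec_iff] at hz h2
  simp [Matrix.det_fin_two, e0, e1] at hz h2
  have : z = d0 + d1 - r := by
    apply mul_left_cancel₀ (sub_ne_zero.2 hne)
    linear_combination hz - h2
  rw [this]; simp

lemma varga3 (A : Matrix (Fin 3) (Fin 3) ℂ) (hA : IsOmega A) (z : ℂ) (hz : z ∈ spectrum ℂ A)
    (hne : z ≠ ((lmin A).toReal : ℂ)) : |Complex.arg (z - ((lmin A).toReal : ℂ))| ≤ π / 6 := by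
  obtain ⟨r, h1, h2, h3⟩ := lmin_spec _ (l_top hA)
  rw [h1, EReal.toReal_coe] at hne ⊢
  by_cases him : z.im = 0
  · rw [arg_real r h3 z hz him]; simp; positivity
  obtain ⟨d0, e0, l0⟩ := diag_real hA 0
  obtain ⟨d1, e1, l1⟩ := diag_real hA 1
  obtain ⟨d2, e2, l2⟩ := diag_real hA 2
  obtain ⟨p01, a1, a2, a3, a4, a5⟩ := pair_bound hA (i := 0) (j := 1) (by decide) r h1 _ _ e0 e1 l0 l1
  obtain ⟨p02, b1, b2, b3, -, b5⟩ := pair_bound hA (i := 0) (j := 2) (by decide) r h1 _ _ e0 e2 l0 l2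
  obtain ⟨p12, c1, c2, c3, -, -⟩ := pair_bound hA (i := 1) (j := 2) (by decide) r h1 _ _ e1 e2 l1 l2
  rw [mem_spec_iff] at hz h2
  simp [Matrix.det_fin_three, e0, e1, e2] at hz h2
  set E1 : ℝ := (d0 - r) + (d1 - r) + (d2 - r) with hE1
  set E2 : ℝ := (d0 - r) * (d1 - r) + (d0 - r) * (d2 - r) + (d1 - r) * (d2 - r) - p01 - p02 - p12
    with hE2
  have q : (z - r) ^ 2 - E1 * (z - r) + E2 = 0 := by
    apply mul_left_cancel₀ (sub_ne_zero.2 hne)
    rw [hE1, hE2]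
    push_cast
    rw [← a1, ← b1, ← c1]
    linear_combination h2 - hz
  have hE : 3 * E2 ≤ E1 ^ 2 := by
    rw [hE1, hE2]
    nlinarith [sq_nonneg (d0 - d1), sq_nonneg (d0 - d2), sq_nonneg (d1 - d2)]
  have hE0 : 0 ≤ E1 := by rw [hE1]; linarith
  clear_value E1 E2
  set w := z - r with hw
  have hwim : w.im ≠ 0 := by rw [hw]; simpa using him
  clear_value w
  have hr := congrArg Complex.re q
  have hi := congrArg Complex.im q
  simp [pow_succ] at hr hi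
  have f1 : E1 = 2 * w.re := by
    apply mul_left_cancel₀ hwim; linarith
  have f2 : 3 * w.im ^ 2 ≤ w.re ^ 2 := by
    rw [f1] at hr hE; nlinarith
  apply arg_le_of w _ f2
  rcases eq_or_lt_of_le (show 0 ≤ w.re by linarith) with h | h
  · exfalso
    rw [← h] at f2
    have := sq_pos_of_ne_zero hwim
    linarith
  · exact h

lemma V4_fail : ¬ |Complex.arg (1 + 2 * Complex.I)| ≤ π / 4 := by
  intro h
  have hw : (1 + 2 * Complex.I : ℂ) ≠ 0 := by
    intro h; have := congrArg Complex.re h; simp at this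
  have h1 : Real.cos (π / 4) ≤ Real.cos |Complex.arg (1 + 2 * Complex.I)| :=
    Real.cos_le_cos_of_nonneg_of_le_pi (abs_nonneg _) (by linarith [Real.pi_pos]) h
  rw [Real.cos_abs, Complex.cos_arg hw, Real.cos_pi_div_four, div_le_div_iff₀ two_pos
    (norm_pos_iff.2 hw)] at h1
  have h2 : ‖(1 + 2 * Complex.I : ℂ)‖ ^ 2 = 5 := by
    rw [Complex.sq_norm, Complex.normSq_apply]; simp; norm_num
  have h3 : (√2 : ℝ) ^ 2 = 2 := Real.sq_sqrt (by norm_num)
  have h4 := pow_le_pow_left₀ (by positivity) h1 2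
  rw [mul_pow, h3, h2] at h4
  simp at h4
  norm_num at h4

end Pool.Agent.H74.GKK
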