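import Mathlib

set_option autoImplicit false

namespace Pool.Agent.H74.PD

/-- H is of type FP: the trivial module Z has a finite-length resolution by finitely generated
projective Z[H]-modules. -/
def IsFP (H : Type) [Group H] : Prop :=
  ∃ (P : ℕ → Type) (_ : ∀ i, AddCommGroup (P i)) (_ : ∀ i, Module (MonoidAlgebra ℤ H) (P i))
    (d : ∀ i, P (i + 1) →ₗ[MonoidAlgebra ℤ H] P i) (ε : P 0 →+ ℤ) (m : ℕ),
    (∀ i, Module.Finite (MonoidAlgebra ℤ H) (P i)) ∧
    (∀ i, Module.Projective (MonoidAlgebra ℤ H) (P i)) ∧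
    (∀ i, m < i → Subsingleton (P i)) ∧
    Function.Surjective ε ∧
    (∀ (h : H) (x : P 0), ε (MonoidAlgebra.of ℤ H h • x) = ε x) ∧
    (∀ x : P 0, ε x = 0 ↔ x ∈ LinearMap.range (d 0)) ∧
    (∀ (i : ℕ) (x : P (i + 1)), d i x = 0 ↔ x ∈ LinearMap.range (d (i + 1)))

/-- H is a Poincare duality group of dimension n. -/
def IsPD (n : ℕ) (H : Type) [Group H] : Prop :=
  IsFP H ∧ (∀ i : ℕ, i ≠ n → Subsingleton (groupCohomology (Rep.ofMulAction ℤ H H) i)) ∧
    Nonempty (groupCohomology (Rep.ofMulAction ℤ H H) n ≃+ ℤ)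

end Pool.Agent.H74.PD
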