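import Mathlib
import Pool.Agent.H74.PDdef
import Pool.Agent.H71.PD3c

set_option autoImplicit false

namespace Pool.Agent.H74.PD

open Matrix Pool.Agent.H71.PD3

theorem isPD_of {G : Type} [Group G] (n : ℕ) (m : ℕ → ℕ)
    (D : ∀ i, Matrix (Fin (m (i + 1))) (Fin (m i)) (R ℤ G))
    (ε : (Fin (m 0) → R ℤ G) →ₗ[ℤ] ℤ)
    (h1 : ∀ (g : G) x, ε (MonoidAlgebra.of ℤ G g • x) = ε x) (h2 : Function.Surjective ε)
    (h3 : ∀ x, x ∈ LinearMap.range (D 0).vecMulLinear ↔ ε x = 0)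
    (h4 : ∀ i, LinearMap.range (D (i + 1)).vecMulLinear = LinearMap.ker (D i).vecMulLinear)
    (hm : ∀ i, n + 1 < i → m i = 0)
    (c0 : ∀ y, D 0 *ᵥ y = 0 → y = 0)
    (c1 : ∀ i, i < n → ∀ y, D (i + 1) *ᵥ y = 0 → ∃ z, D i *ᵥ z = y)
    (h0 : D (n + 1) = 0) (η : (Fin (m (n + 1)) → R ℤ G) →ₗ[ℤ] ℤ)
    (hη : Function.Surjective η) (h : ∀ y, η y = 0 ↔ ∃ z, D n *ᵥ z = y) : IsPD (n + 1) G := by
  refine ⟨⟨fun i => Fin (m i) → R ℤ G, inferInstance, inferInstance,
    fun i => (D i).vecMulLinear, ε.toAddMonoidHom, n + 1, inferInstance, inferInstance,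
    fun i hi => ?_, h2, h1, fun x => (h3 x).symm, fun i x => ?_⟩, fun i hi => ?_,
    top_iso m D ε h1 h2 h3 h4 n h0 η hη h⟩
  · have : IsEmpty (Fin (m i)) := by rw [hm i hi]; infer_instance
    infer_instance
  · rw [h4 i]; rfl
  · rcases i with _ | i
    · exact vanish_zero m D ε h1 h2 h3 h4 c0
    · rcases lt_or_gt_of_ne hi with h' | h'
      · exact vanish_succ m D ε h1 h2 h3 h4 i (c1 i (by omega))
      · exact vanish_top m D ε h1 h2 h3 h4 _ i (hm _ h')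

/-- self-dual resolution data of length two -/
structure Data2 (G : Type) [Group G] (ι : Type) [Fintype ι] where
  a : ι → R ℤ G
  b : ι → R ℤ G
  η : R ℤ G →ₗ[ℤ] ℤ
  ha : ∀ i, ag G (a i) = 0
  hba : ∑ i, b i * a i = 0
  ex0 : ∀ r, ag G r = 0 → ∃ v : ι → R ℤ G, r = ∑ i, v i * a i
  ex1 : ∀ v : ι → R ℤ G, ∑ i, v i * a i = 0 → ∃ u, ∀ i, v i = u * b i
  ex2 : ∀ u, (∀ i, u * b i = 0) → u = 0
  co0 : ∀ u, (∀ i, a i * u = 0) → u = 0
  co1 : ∀ v : ι → R ℤ G, ∑ i, b i * v i = 0 → ∃ u, ∀ i, v i = a i * u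
  hη : Function.Surjective η
  co2 : ∀ r, η r = 0 ↔ ∃ v : ι → R ℤ G, r = ∑ i, b i * v i

/-- self-dual resolution data of length three -/
structure Data3 (G : Type) [Group G] (ι : Type) [Fintype ι] where
  a : ι → R ℤ G
  M : ι → ι → R ℤ G
  b : ι → R ℤ G
  η : R ℤ G →ₗ[ℤ] ℤ
  ha : ∀ i, ag G (a i) = 0
  hMa : ∀ i, ∑ j, M i j * a j = 0
  hbM : ∀ j, ∑ i, b i * M i j = 0
  ex0 : ∀ r, ag G r = 0 → ∃ v : ι → R ℤ G, r = ∑ i, v i * a i
  ex1 : ∀ v : ι → R ℤ G, ∑ i, v i * a i = 0 → ∃ u : ι → R ℤ G, ∀ j, v j = ∑ i, u i * M i j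
  ex2 : ∀ v : ι → R ℤ G, (∀ j, ∑ i, v i * M i j = 0) → ∃ u, ∀ i, v i = u * b i
  ex3 : ∀ u, (∀ i, u * b i = 0) → u = 0
  co0 : ∀ u, (∀ i, a i * u = 0) → u = 0
  co1 : ∀ v : ι → R ℤ G, (∀ i, ∑ j, M i j * v j = 0) → ∃ u, ∀ i, v i = a i * u
  co2 : ∀ v : ι → R ℤ G, ∑ i, b i * v i = 0 → ∃ u : ι → R ℤ G, ∀ i, v i = ∑ j, M i j * u j
  hη : Function.Surjective η
  co3 : ∀ r, η r = 0 ↔ ∃ v : ι → R ℤ G, r = ∑ i, b i * v i

def r2 (g : ℕ) : ℕ → ℕ
  | 0 => 1
  | 1 => g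
  | 2 => 1
  | _ + 3 => 0

def r3 (g : ℕ) : ℕ → ℕ
  | 0 => 1
  | 1 => g
  | 2 => g
  | 3 => 1
  | _ + 4 => 0

section
variable {G : Type} [Group G] {g : ℕ}

def colM (a : Fin g → R ℤ G) : Matrix (Fin g) (Fin 1) (R ℤ G) := Matrix.of fun i _ => a i
def rowM (b : Fin g → R ℤ G) : Matrix (Fin 1) (Fin g) (R ℤ G) := Matrix.of fun _ i => b i

theorem vm_col (a v : Fin g → R ℤ G) : (v ᵥ* colM a) 0 = ∑ i, v i * a i := rfl
theorem vm_row (b : Fin g → R ℤ G) (v : Fin 1 → R ℤ G) (i : Fin g) :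
    (v ᵥ* rowM b) i = v 0 * b i := by simp [rowM, vecMul, dotProduct]
theorem mv_col (a : Fin g → R ℤ G) (v : Fin 1 → R ℤ G) (i : Fin g) :
    (colM a *ᵥ v) i = a i * v 0 := by simp [colM, mulVec, dotProduct]
theorem mv_row (b v : Fin g → R ℤ G) : (rowM b *ᵥ v) 0 = ∑ i, b i * v i := rfl

theorem hex0 (a : Fin g → R ℤ G) (ha : ∀ i, ag G (a i) = 0)
    (ex0 : ∀ r, ag G r = 0 → ∃ v : Fin g → R ℤ G, r = ∑ i, v i * a i) (x : Fin 1 → R ℤ G) :
    x ∈ LinearMap.range (colM a).vecMulLinear ↔ ε1 G x = 0 := by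
  constructor
  · rintro ⟨u, rfl⟩
    rw [ε1_apply, vecMulLinear_apply, vm_col, map_sum]
    simp [ha]
  · intro h
    obtain ⟨v, hv⟩ := ex0 _ h
    exact ⟨v, ext1 ((vm_col _ _).trans hv.symm)⟩

theorem rk_cr (a b : Fin g → R ℤ G) (hba : ∑ i, b i * a i = 0)
    (ex1 : ∀ v : Fin g → R ℤ G, ∑ i, v i * a i = 0 → ∃ u, ∀ i, v i = u * b i) :
    LinearMap.range (rowM b).vecMulLinear = LinearMap.ker (colM a).vecMulLinear := by
  refine le_antisymm ?_ fun v hv => ?_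
  · rintro _ ⟨u, rfl⟩
    rw [LinearMap.mem_ker, vecMulLinear_apply, vecMulLinear_apply]
    refine ext1 ?_
    rw [vm_col]
    simp only [vm_row, mul_assoc, ← Finset.mul_sum, hba, mul_zero, Pi.zero_apply]
  · rw [LinearMap.mem_ker, vecMulLinear_apply] at hv
    obtain ⟨u, hu⟩ := ex1 v (by rw [← vm_col, hv]; rfl)
    exact ⟨fun _ => u, funext fun i => by rw [vecMulLinear_apply, vm_row, hu]⟩

theorem rk_0r (b : Fin g → R ℤ G) (ex2 : ∀ u, (∀ i, u * b i = 0) → u = 0) :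
    LinearMap.range (0 : Matrix (Fin 0) (Fin 1) (R ℤ G)).vecMulLinear =
      LinearMap.ker (rowM b).vecMulLinear := by
  refine le_antisymm ?_ fun v hv => ?_
  · rintro _ ⟨u, rfl⟩
    rw [LinearMap.mem_ker, vecMulLinear_apply, vecMulLinear_apply, vecMul_zero, zero_vecMul]
  · rw [LinearMap.mem_ker, vecMulLinear_apply] at hv
    have : v = 0 := ext1 (ex2 _ fun i => by rw [← vm_row, hv]; rfl)
    rw [this]; exact zero_mem _

theorem rk_00 {k l : ℕ} (A : Matrix (Fin k) (Fin 0) (R ℤ G)) (B : Matrix (Fin 0) (Fin l) (R ℤ G)) :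
    LinearMap.range A.vecMulLinear = LinearMap.ker B.vecMulLinear := by
  ext v
  have : v = 0 := Subsingleton.elim _ _
  simp [this]

theorem vm_M (M : Fin g → Fin g → R ℤ G) (v : Fin g → R ℤ G) (j : Fin g) :
    (v ᵥ* Matrix.of M) j = ∑ i, v i * M i j := rfl
theorem mv_M (M : Fin g → Fin g → R ℤ G) (v : Fin g → R ℤ G) (i : Fin g) :
    (Matrix.of M *ᵥ v) i = ∑ j, M i j * v j := rfl

theorem rk_cM (a : Fin g → R ℤ G) (M : Fin g → Fin g → R ℤ G) (hMa : ∀ i, ∑ j, M i j * a j = 0)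
    (ex1 : ∀ v : Fin g → R ℤ G, ∑ i, v i * a i = 0 →
      ∃ u : Fin g → R ℤ G, ∀ j, v j = ∑ i, u i * M i j) :
    LinearMap.range (Matrix.of M).vecMulLinear = LinearMap.ker (colM a).vecMulLinear := by
  refine le_antisymm ?_ fun v hv => ?_
  · rintro _ ⟨u, rfl⟩
    rw [LinearMap.mem_ker, vecMulLinear_apply, vecMulLinear_apply]
    refine ext1 ?_
    rw [vm_col]
    simp only [vm_M, Finset.sum_mul, mul_assoc]
    rw [Finset.sum_comm]
    simp only [← Finset.mul_sum, hMa, mul_zero, Finset.sum_const_zero, Pi.zero_apply]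
  · rw [LinearMap.mem_ker, vecMulLinear_apply] at hv
    obtain ⟨u, hu⟩ := ex1 v (by rw [← vm_col, hv]; rfl)
    exact ⟨u, funext fun j => by rw [vecMulLinear_apply, vm_M, hu]⟩

theorem rk_Mr (b : Fin g → R ℤ G) (M : Fin g → Fin g → R ℤ G) (hbM : ∀ j, ∑ i, b i * M i j = 0)
    (ex2 : ∀ v : Fin g → R ℤ G, (∀ j, ∑ i, v i * M i j = 0) → ∃ u, ∀ i, v i = u * b i) :
    LinearMap.range (rowM b).vecMulLinear = LinearMap.ker (Matrix.of M).vecMulLinear := by
  refine le_antisymm ?_ fun v hv => ?_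
  · rintro _ ⟨u, rfl⟩
    rw [LinearMap.mem_ker, vecMulLinear_apply, vecMulLinear_apply]
    funext j
    rw [vm_M]
    simp only [vm_row, mul_assoc, ← Finset.mul_sum, hbM, mul_zero, Pi.zero_apply]
  · rw [LinearMap.mem_ker, vecMulLinear_apply] at hv
    obtain ⟨u, hu⟩ := ex2 v (fun j => by rw [← vm_M, hv]; rfl)
    exact ⟨fun _ => u, funext fun i => by rw [vecMulLinear_apply, vm_row, hu]⟩

theorem k0 (a : Fin g → R ℤ G) (co0 : ∀ u, (∀ i, a i * u = 0) → u = 0) (y : Fin 1 → R ℤ G)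
    (hy : colM a *ᵥ y = 0) : y = 0 :=
  ext1 (co0 _ fun i => by rw [← mv_col, hy]; rfl)

theorem k_top (b : Fin g → R ℤ G) (η : R ℤ G →ₗ[ℤ] ℤ)
    (co2 : ∀ r, η r = 0 ↔ ∃ v : Fin g → R ℤ G, r = ∑ i, b i * v i) (y : Fin 1 → R ℤ G) :
    (η.comp (LinearMap.proj (0 : Fin 1))) y = 0 ↔ ∃ z, rowM b *ᵥ z = y := by
  refine (co2 (y 0)).trans ⟨?_, ?_⟩
  · rintro ⟨v, hv⟩
    exact ⟨v, ext1 (by rw [mv_row, hv])⟩
  · rintro ⟨v, rfl⟩
    exact ⟨v, mv_row _ _⟩

theorem k_surj (η : R ℤ G →ₗ[ℤ] ℤ) (hη : Function.Surjective η) :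
    Function.Surjective (η.comp (LinearMap.proj (0 : Fin 1)) : (Fin 1 → R ℤ G) →ₗ[ℤ] ℤ) := by
  intro n
  obtain ⟨r, hr⟩ := hη n
  exact ⟨fun _ => r, hr⟩

theorem k_cr (a b : Fin g → R ℤ G)
    (co1 : ∀ v : Fin g → R ℤ G, ∑ i, b i * v i = 0 → ∃ u, ∀ i, v i = a i * u)
    (y : Fin g → R ℤ G) (hy : rowM b *ᵥ y = 0) : ∃ z, colM a *ᵥ z = y := by
  obtain ⟨u, hu⟩ := co1 y (by rw [← mv_row, hy]; rfl)
  exact ⟨fun _ => u, funext fun i => by rw [mv_col, hu]⟩

theorem k_cM (a : Fin g → R ℤ G) (M : Fin g → Fin g → R ℤ G)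
    (co1 : ∀ v : Fin g → R ℤ G, (∀ i, ∑ j, M i j * v j = 0) → ∃ u, ∀ i, v i = a i * u)
    (y : Fin g → R ℤ G) (hy : Matrix.of M *ᵥ y = 0) : ∃ z, colM a *ᵥ z = y := by
  obtain ⟨u, hu⟩ := co1 y (fun i => by rw [← mv_M, hy]; rfl)
  exact ⟨fun _ => u, funext fun i => by rw [mv_col, hu]⟩

theorem k_Mr (b : Fin g → R ℤ G) (M : Fin g → Fin g → R ℤ G)
    (co2 : ∀ v : Fin g → R ℤ G, ∑ i, b i * v i = 0 →
      ∃ u : Fin g → R ℤ G, ∀ i, v i = ∑ j, M i j * u j)
    (y : Fin g → R ℤ G) (hy : rowM b *ᵥ y = 0) : ∃ z, Matrix.of M *ᵥ z = y := by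
  obtain ⟨u, hu⟩ := co2 y (by rw [← mv_row, hy]; rfl)
  exact ⟨u, funext fun i => by rw [mv_M, hu]⟩

noncomputable def D2' (d : Data2 G (Fin g)) :
    ∀ i, Matrix (Fin (r2 g (i + 1))) (Fin (r2 g i)) (R ℤ G)
  | 0 => colM d.a
  | 1 => rowM d.b
  | _ + 2 => 0

theorem Data2.pd (d : Data2 G (Fin g)) : IsPD 2 G := by
  refine isPD_of 1 (r2 g) (D2' d) (ε1 G) ε1_inv ε1_surj (hex0 d.a d.ha d.ex0) ?_ ?_
    (k0 d.a d.co0) ?_ rfl (d.η.comp (LinearMap.proj (0 : Fin 1))) (k_surj _ d.hη)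
    (k_top d.b d.η d.co2)
  · intro i
    match i with
    | 0 => exact rk_cr d.a d.b d.hba d.ex1
    | 1 => exact rk_0r d.b d.ex2
    | i + 2 => exact rk_00 _ _
  · intro i hi
    obtain ⟨j, rfl⟩ : ∃ j, i = j + 3 := ⟨i - 3, by omega⟩
    rfl
  · intro i hi
    obtain rfl : i = 0 := by omega
    exact k_cr d.a d.b d.co1

noncomputable def D3' (d : Data3 G (Fin g)) :
    ∀ i, Matrix (Fin (r3 g (i + 1))) (Fin (r3 g i)) (R ℤ G)
  | 0 => colM d.a
  | 1 => (Matrix.of d.M : Matrix (Fin g) (Fin g) (R ℤ G))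
  | 2 => rowM d.b
  | _ + 3 => 0

theorem Data3.pd (d : Data3 G (Fin g)) : IsPD 3 G := by
  refine isPD_of 2 (r3 g) (D3' d) (ε1 G) ε1_inv ε1_surj (hex0 d.a d.ha d.ex0) ?_ ?_
    (k0 d.a d.co0) ?_ rfl (d.η.comp (LinearMap.proj (0 : Fin 1))) (k_surj _ d.hη)
    (k_top d.b d.η d.co3)
  · intro i
    match i with
    | 0 => exact rk_cM d.a d.M d.hMa d.ex1
    | 1 => exact rk_Mr d.b d.M d.hbM d.ex2
    | 2 => exact rk_0r d.b d.ex3
    | i + 3 => exact rk_00 _ _
  · intro i hi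
    obtain ⟨j, rfl⟩ : ∃ j, i = j + 4 := ⟨i - 4, by omega⟩
    rfl
  · intro i hi
    obtain rfl | rfl : i = 0 ∨ i = 1 := by omega
    · exact k_cM d.a d.M d.co1
    · exact k_Mr d.b d.M d.co2

theorem pd_N : IsPD 3 N := by
  refine isPD_of 2 m3 D3 (ε1 N) ε1_inv ε1_surj ex0 h4 ?_ co0 ?_ rfl (ε1 N) ε1_surj co3
  · intro i hi
    obtain ⟨j, rfl⟩ : ∃ j, i = j + 4 := ⟨i - 4, by omega⟩
    rfl
  · intro i hi
    obtain rfl | rfl : i = 0 ∨ i = 1 := by omega
    exacts [co1, co2]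

end

section cone
variable {Q : Type} [Group Q]

/-- product with the infinite cyclic group -/
abbrev PZ (Q : Type) : Type := Q × Multiplicative ℤ

noncomputable def inc : R ℤ Q →ₐ[ℤ] R ℤ (PZ Q) :=
  MonoidAlgebra.lift ℤ _ Q ((MonoidAlgebra.of ℤ (PZ Q)).comp (MonoidHom.inl Q _))
noncomputable def prj : R ℤ (PZ Q) →ₐ[ℤ] R ℤ Q :=
  MonoidAlgebra.lift ℤ _ (PZ Q) ((MonoidAlgebra.of ℤ Q).comp (MonoidHom.fst Q _))
def zz : PZ Q := (1, Multiplicative.ofAdd 1)
noncomputable def ww : R ℤ (PZ Q) := o zz - 1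

theorem inc_o (g : Q) : inc (o g) = o ((g, 1) : PZ Q) := MonoidAlgebra.lift_of _ _
theorem prj_o (g : PZ Q) : prj (o g) = o g.1 := MonoidAlgebra.lift_of _ _
theorem prj_inc (r : R ℤ Q) : prj (inc r) = r := by
  induction r using MonoidAlgebra.induction_on with
  | of g => rw [inc_o, prj_o]
  | add a b ha hb => rw [map_add, map_add, ha, hb]
  | smul c a ha => rw [map_smul, map_smul, ha]
theorem prj_ww : prj (ww : R ℤ (PZ Q)) = 0 := by
  rw [ww, map_sub, prj_o, map_one]; exact sub_eq_zero.2 (map_one _)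
theorem ag_prj (r : R ℤ (PZ Q)) : ag Q (prj r) = ag _ r := by
  induction r using MonoidAlgebra.induction_on with
  | of g => rw [prj_o, ag_o, ag_o]
  | add a b ha hb => rw [map_add, map_add, map_add, ha, hb]
  | smul c a ha => rw [map_smul, map_smul, map_smul, ha]
theorem ww_comm (r : R ℤ (PZ Q)) : ww * r = r * ww := by
  induction r using MonoidAlgebra.induction_on with
  | of g =>
    have : o (zz : PZ Q) * o g = o g * o zz := by
      rw [← map_mul, ← map_mul]; congr 1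
      ext <;> simp [zz, mul_comm]
    change ww * o g = o g * ww
    rw [ww, sub_mul, mul_sub, this, one_mul, mul_one]
  | add a b ha hb => rw [mul_add, add_mul, ha, hb]
  | smul c a ha => rw [mul_smul_comm, smul_mul_assoc, ha]
theorem ww_cancel {r : R ℤ (PZ Q)} (h : r * ww = 0) : r = 0 := by
  refine cancelL (g := zz) (fun n hn => ?_) h
  have := congrArg (fun p : PZ Q => Multiplicative.toAdd p.2) hn
  simpa [zz] using this
theorem split (r : R ℤ (PZ Q)) : ∃ c, r = inc (prj r) + c * ww := by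
  induction r using MonoidAlgebra.induction_on with
  | of g =>
    have h1 : ((1, g.2) : PZ Q) ∈ Subgroup.closure {zz, zz, zz} := by
      have : ((1, g.2) : PZ Q) = zz ^ (Multiplicative.toAdd g.2) := by
        ext <;> simp [zz, ← ofAdd_zsmul]
      rw [this]
      exact zpow_mem (Subgroup.subset_closure (by simp)) _
    obtain ⟨a, b, c, e⟩ := JL_gen h1
    refine ⟨o ((g.1, 1) : PZ Q) * (a + b + c), ?_⟩
    change o g = _
    rw [prj_o, inc_o]
    have h2 : o g = o ((g.1, 1) : PZ Q) * o ((1, g.2) : PZ Q) := by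
      rw [← map_mul]; congr 1; ext <;> simp
    rw [h2, ww]
    linear_combination (norm := noncomm_ring) o ((g.1, 1) : PZ Q) * e
  | add a b ha hb =>
    obtain ⟨c, hc⟩ := ha
    obtain ⟨c', hc'⟩ := hb
    refine ⟨c + c', ?_⟩
    rw [map_add, map_add]
    linear_combination (norm := noncomm_ring) hc + hc'
  | smul n a ha =>
    obtain ⟨c, hc⟩ := ha
    refine ⟨n • c, ?_⟩
    rw [map_smul, map_smul, smul_mul_assoc, ← smul_add, ← hc]

theorem sum_delta {A : Type} [Ring A] {g : ℕ} (u : Fin g → A) (w : A) (j : Fin g) :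
    ∑ i, u i * (if i = j then -w else 0) = -(u j * w) := by
  simp [mul_ite]
theorem sum_delta' {A : Type} [Ring A] {g : ℕ} (u : Fin g → A) (w : A) (i : Fin g) :
    ∑ j, (if i = j then -w else 0) * u j = -(w * u i) := by
  simp [ite_mul]

noncomputable def Data2.cone {g : ℕ} (d : Data2 Q (Fin g)) : Data3 (PZ Q) (Fin (g + 1)) where
  a := Fin.cons ww fun i => inc (d.a i)
  M := Fin.cons (Fin.cons 0 fun j => inc (d.b j))
    fun i => Fin.cons (inc (d.a i)) fun j => if i = j then -ww else 0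
  b := Fin.cons ww fun i => inc (d.b i)
  η := d.η.comp prj.toLinearMap
  ha i := by
    refine Fin.cases ?_ (fun i => ?_) i
    · exact ag_gen _
    · simp only [Fin.cons_succ]; rw [← ag_prj, prj_inc, d.ha]
  hMa i := by
    refine Fin.cases ?_ (fun i => ?_) i
    · simp only [Fin.sum_univ_succ, Fin.cons_zero, Fin.cons_succ, zero_mul, zero_add, ← map_mul,
        ← map_sum, d.hba, map_zero]
    · simp only [Fin.sum_univ_succ, Fin.cons_zero, Fin.cons_succ, sum_delta', ww_comm,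
        add_neg_cancel]
  hbM j := by
    refine Fin.cases ?_ (fun j => ?_) j
    · simp only [Fin.sum_univ_succ, Fin.cons_zero, Fin.cons_succ, mul_zero, zero_add, ← map_mul,
        ← map_sum, d.hba, map_zero]
    · simp only [Fin.sum_univ_succ, Fin.cons_zero, Fin.cons_succ, sum_delta, ww_comm,
        add_neg_cancel]
  ex0 r hr := by
    obtain ⟨c, hc⟩ := split r
    obtain ⟨v, hv⟩ := d.ex0 (prj r) ((ag_prj r).trans hr)
    refine ⟨Fin.cons c fun i => inc (v i), ?_⟩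
    simp only [Fin.sum_univ_succ, Fin.cons_zero, Fin.cons_succ, ← map_mul, ← map_sum, ← hv]
    rw [add_comm]; exact hc
  ex1 v hv := by
    simp only [Fin.sum_univ_succ, Fin.cons_zero, Fin.cons_succ] at hv
    have h1 := congrArg prj hv
    simp only [map_add, map_mul, prj_ww, mul_zero, zero_add, map_sum, prj_inc, map_zero] at h1
    obtain ⟨u, hu⟩ := d.ex1 _ h1
    choose c hc using fun i : Fin g => split (v i.succ)
    have h2 : ∑ i : Fin g, v i.succ * inc (d.a i) = (∑ i, c i * inc (d.a i)) * ww := by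
      have : ∀ i : Fin g, v i.succ * inc (d.a i) =
          inc u * inc (d.b i * d.a i) + c i * inc (d.a i) * ww := fun i => by
        rw [hc i, hu i, map_mul, map_mul, add_mul, mul_assoc (c i), ww_comm]; noncomm_ring
      simp only [this, Finset.sum_add_distrib, ← Finset.mul_sum, ← map_sum, d.hba, map_zero,
        mul_zero, zero_add, Finset.sum_mul]
    rw [h2, ← add_mul] at hv
    have h3 := ww_cancel hv
    refine ⟨Fin.cons (inc u) fun i => - c i, fun j => ?_⟩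
    refine Fin.cases ?_ (fun j => ?_) j
    · simp only [Fin.sum_univ_succ, Fin.cons_zero, Fin.cons_succ, mul_zero, zero_add, neg_mul,
        Finset.sum_neg_distrib]
      exact eq_neg_of_add_eq_zero_left h3
    · simp only [Fin.sum_univ_succ, Fin.cons_zero, Fin.cons_succ, sum_delta]
      rw [← map_mul, ← hu, neg_mul, neg_neg]
      exact hc j
  ex2 v hv := by
    have h1 : ∀ j : Fin g, v 0 * inc (d.b j) = v j.succ * ww := fun j => by
      have := hv j.succ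
      simp only [Fin.sum_univ_succ, Fin.cons_zero, Fin.cons_succ, sum_delta] at this
      exact eq_of_sub_eq_zero (by rw [sub_eq_add_neg]; exact this)
    have h2 : prj (v 0) = 0 := d.ex2 _ fun j => by
      have := congrArg prj (h1 j)
      simpa only [map_mul, prj_inc, prj_ww, mul_zero] using this
    obtain ⟨c, hc⟩ := split (v 0)
    rw [h2, map_zero, zero_add] at hc
    refine ⟨c, fun i => Fin.cases hc (fun i => ?_) i⟩
    simp only [Fin.cons_succ]
    refine eq_of_sub_eq_zero (ww_cancel ?_)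
    rw [sub_mul, ← h1, hc, mul_assoc, ww_comm, mul_assoc, sub_self]
  ex3 u hu := ww_cancel (hu 0)
  co0 u hu := ww_cancel ((ww_comm u).symm.trans (hu 0))
  co1 v hv := by
    have h1 : ∀ j : Fin g, inc (d.a j) * v 0 = ww * v j.succ := fun j => by
      have := hv j.succ
      simp only [Fin.sum_univ_succ, Fin.cons_zero, Fin.cons_succ, sum_delta'] at this
      exact eq_of_sub_eq_zero (by rw [sub_eq_add_neg]; exact this)
    have h2 : prj (v 0) = 0 := d.co0 _ fun j => by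
      have := congrArg prj (h1 j)
      simpa only [map_mul, prj_inc, prj_ww, zero_mul] using this
    obtain ⟨c, hc⟩ := split (v 0)
    rw [h2, map_zero, zero_add] at hc
    refine ⟨c, fun i => Fin.cases (hc.trans (ww_comm c).symm) (fun i => ?_) i⟩
    simp only [Fin.cons_succ]
    refine eq_of_sub_eq_zero (ww_cancel ?_)
    rw [sub_mul, ← ww_comm, ← h1, hc, mul_assoc, sub_self]
  co2 v hv := by
    simp only [Fin.sum_univ_succ, Fin.cons_zero, Fin.cons_succ] at hv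
    have h1 := congrArg prj hv
    simp only [map_add, map_mul, prj_ww, zero_mul, zero_add, map_sum, prj_inc, map_zero] at h1
    obtain ⟨u, hu⟩ := d.co1 _ h1
    choose c hc using fun i : Fin g => split (v i.succ)
    have h2 : ∑ i : Fin g, inc (d.b i) * v i.succ = (∑ i, inc (d.b i) * c i) * ww := by
      have : ∀ i : Fin g, inc (d.b i) * v i.succ =
          inc (d.b i * d.a i) * inc u + inc (d.b i) * c i * ww := fun i => by
        rw [hc i, hu i, map_mul, map_mul]; noncomm_ring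
      simp only [this, Finset.sum_add_distrib, ← Finset.sum_mul, ← map_sum, d.hba, map_zero,
        zero_mul, zero_add]
    rw [h2, ww_comm, ← add_mul] at hv
    have h3 := ww_cancel hv
    refine ⟨Fin.cons (inc u) fun i => - c i, fun j => ?_⟩
    refine Fin.cases ?_ (fun j => ?_) j
    · simp only [Fin.sum_univ_succ, Fin.cons_zero, Fin.cons_succ, zero_mul, zero_add, mul_neg,
        Finset.sum_neg_distrib]
      exact eq_neg_of_add_eq_zero_left h3
    · simp only [Fin.sum_univ_succ, Fin.cons_zero, Fin.cons_succ, sum_delta']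
      rw [← map_mul, ← hu, mul_neg, neg_neg, ww_comm]
      exact hc j
  hη n := by
    obtain ⟨r, hr⟩ := d.hη n
    exact ⟨inc r, by simpa [prj_inc] using hr⟩
  co3 r := by
    refine (d.co2 (prj r)).trans ⟨?_, ?_⟩
    · rintro ⟨v, hv⟩
      obtain ⟨c, hc⟩ := split r
      refine ⟨Fin.cons c fun i => inc (v i), ?_⟩
      simp only [Fin.sum_univ_succ, Fin.cons_zero, Fin.cons_succ, ← map_mul, ← map_sum, ← hv]
      rw [add_comm, ww_comm]; exact hc
    · rintro ⟨v, rfl⟩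
      refine ⟨fun i => prj (v i.succ), ?_⟩
      simp only [Fin.sum_univ_succ, Fin.cons_zero, Fin.cons_succ, map_add, map_mul, prj_ww,
        zero_mul, zero_add, map_sum, prj_inc]

end cone

end Pool.Agent.H74.PD
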