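import Mathlib
import Pool.Agent.H74.PDm

set_option autoImplicit false
set_option backward.isDefEq.respectTransparency false

namespace Pool.Agent.H74.PD

open Matrix Pool.Agent.H71.PD3 CategoryTheory

variable {Q : Type} [Group Q]

theorem kerR {u v w : Q} (K : Subgroup Q) [hN : K.Normal] (hK : Subgroup.closure {u, v, w} = K)
    {c : R ℤ Q} (h : pr K c = 0) : c ∈ JR u v w := by
  refine ker_sub K _ (fun a b e => ?_) c h
  have := neg_mem (JR_mul (o a) (JR_gen (hK ▸ hN.mem_comm (QuotientGroup.eq.1 e))))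
  rwa [sub_mul, one_mul, ← map_mul, inv_mul_cancel_right, neg_sub] at this

theorem o_one : o (1 : Q) = 1 := map_one _

/-- twisted augmentation -/
noncomputable def tw (χ : Q →* ℤ) : R ℤ Q →ₐ[ℤ] ℤ := MonoidAlgebra.lift ℤ ℤ Q χ

theorem tw_o (χ : Q →* ℤ) (g : Q) : tw χ (o g) = χ g := MonoidAlgebra.lift_of _ _

theorem ker_tw (χ : Q →* ℤ) (J : AddSubgroup (R ℤ Q)) (hJ : ∀ r ∈ J, ∀ s, r * s ∈ J)
    (S : Set Q) (hS : ∀ g, g ∈ Subgroup.closure S) (hg : ∀ g ∈ S, o g - χ g • 1 ∈ J)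
    (r : R ℤ Q) (hr : tw χ r = 0) : r ∈ J := by
  have h1 : ∀ g, o g - χ g • 1 ∈ J := fun g => by
    induction hS g using Subgroup.closure_induction with
    | mem g h => exact hg g h
    | one => rw [o, map_one, map_one, one_smul, sub_self]; exact zero_mem _
    | mul g h _ _ hg hh =>
      have := add_mem (hJ _ hg (o h)) (zsmul_mem hh (χ g))
      convert this using 1
      rw [o, map_mul, map_mul, sub_mul, smul_sub, smul_mul_assoc, one_mul, mul_smul]
      abel
    | inv g _ hg =>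
      have := neg_mem (zsmul_mem (hJ _ hg (o g⁻¹)) (χ g⁻¹))
      convert this using 1
      rw [sub_mul, ← map_mul, mul_inv_cancel, map_one, smul_mul_assoc, one_mul, smul_sub,
        smul_smul, ← map_mul, inv_mul_cancel, map_one, one_smul, neg_sub]
  have : r - tw χ r • 1 ∈ J := by
    clear hr
    induction r using MonoidAlgebra.induction_on with
    | of g => rw [tw_o]; exact h1 g
    | add a b ha hb =>
      rw [map_add, add_smul, add_sub_add_comm]
      exact add_mem ha hb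
    | smul c a ha =>
      rw [map_smul, smul_assoc, ← smul_sub]
      exact zsmul_mem ha c
  rwa [hr, zero_smul, sub_zero] at this

/-- right ideal generated by a finite family -/
def RI {g : ℕ} (b : Fin g → R ℤ Q) : AddSubgroup (R ℤ Q) where
  carrier := {r | ∃ v : Fin g → R ℤ Q, r = ∑ i, b i * v i}
  add_mem' := by
    rintro _ _ ⟨a, rfl⟩ ⟨a', rfl⟩
    exact ⟨a + a', by simp [mul_add, Finset.sum_add_distrib]⟩
  zero_mem' := ⟨0, by simp⟩
  neg_mem' := by
    rintro _ ⟨a, rfl⟩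
    exact ⟨-a, by simp⟩

theorem RI_mul {g : ℕ} (b : Fin g → R ℤ Q) (r : R ℤ Q) (hr : r ∈ RI b) (s : R ℤ Q) :
    r * s ∈ RI b := by
  obtain ⟨v, rfl⟩ := hr
  exact ⟨fun i => v i * s, by simp [Finset.sum_mul, mul_assoc]⟩

noncomputable def flat2 (x t g0 : Q) (s : ℤ) (hs : s * s = 1) (K : Subgroup Q) [K.Normal]
    (hK : Subgroup.closure {x, 1, 1} = K) (hx : ∀ n : ℕ, x ^ n = 1 → n = 0)
    (ht : ∀ n : ℕ, t ^ n ∈ K → n = 0) (hg : ∀ n : ℕ, g0 ^ n ∈ K → n = 0)
    (hrel : (o x - 1) * o t = (s • o g0) * (o x - 1))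
    (c1 : ∀ g, g ∈ Subgroup.closure {x, t, 1}) (c2 : ∀ g, g ∈ Subgroup.closure {x, g0})
    (χ : Q →* ℤ) (χ1 : χ x = 1) (χ2 : χ g0 = s) : Data2 Q (Fin 2) where
  a := ![o x - 1, o t - 1]
  b := ![1 - s • o g0, o x - 1]
  η := (tw χ).toLinearMap
  ha i := by fin_cases i <;> exact ag_gen _
  hba := by
    rw [Fin.sum_univ_two]
    change (1 - s • o g0) * (o x - 1) + (o x - 1) * (o t - 1) = 0
    generalize s • o g0 = β at hrel
    linear_combination (norm := noncomm_ring) hrel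
  ex0 r hr := by
    obtain ⟨a, b, c, e⟩ := ker_ag (JL x t 1) (fun g => JL_gen (c1 g)) _ hr
    refine ⟨![a, b], ?_⟩
    rw [Fin.sum_univ_two, e, o_one, sub_self, mul_zero, add_zero]; rfl
  ex1 v hv := by
    rw [Fin.sum_univ_two] at hv
    change v 0 * (o x - 1) + v 1 * (o t - 1) = 0 at hv
    obtain ⟨u, a, b, e⟩ := regL K hK ht (c := v 1) ⟨-v 0, 0, 0, by
      linear_combination (norm := noncomm_ring) hv⟩
    rw [o_one, sub_self, mul_zero, mul_zero, add_zero, add_zero] at e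
    have h2 : v 0 - u * (1 - s • o g0) = 0 := cancelL hx (by
      rw [e] at hv
      generalize s • o g0 = β at hrel
      linear_combination (norm := noncomm_ring) hv - u * hrel)
    refine ⟨u, fun i => ?_⟩
    fin_cases i
    exacts [sub_eq_zero.1 h2, e]
  ex2 u hu := cancelL hx (hu 1)
  co0 u hu := cancelR hx (hu 0)
  co1 v hv := by
    rw [Fin.sum_univ_two] at hv
    change (1 - s • o g0) * v 0 + (o x - 1) * v 1 = 0 at hv
    have hxK : x ∈ K := hK ▸ Subgroup.subset_closure (by simp)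
    have h1 := congrArg (pr K) hv
    rw [map_add, map_mul, map_mul, pr_gen K hxK, zero_mul, add_zero, map_sub, map_one, map_zsmul,
      pr_o, map_zero] at h1
    have h2 : pr K (v 0) = 0 := cancelR (g := ((g0 * g0 : Q) : Q ⧸ K)) (fun n hn => by
      rw [← QuotientGroup.mk_pow, QuotientGroup.eq_one_iff, ← pow_two, ← pow_mul] at hn
      have := hg _ hn
      omega) (by
      have e : o ((g0 * g0 : Q) : Q ⧸ K) = (s • o (g0 : Q ⧸ K)) * (s • o (g0 : Q ⧸ K)) := by
        rw [smul_mul_smul_comm, hs, one_smul, ← map_mul]; rfl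
      rw [e]
      generalize s • o (g0 : Q ⧸ K) = β at h1
      linear_combination (norm := noncomm_ring) -(1 + β) * h1)
    obtain ⟨u, a, b, e⟩ := kerR K hK h2
    rw [o_one, sub_self, zero_mul, zero_mul, add_zero, add_zero] at e
    have h3 : v 1 - (o t - 1) * u = 0 := cancelR hx (by
      rw [e] at hv
      generalize s • o g0 = β at hrel hv
      linear_combination (norm := noncomm_ring) hv - hrel * u)
    refine ⟨u, fun i => ?_⟩
    fin_cases i
    exacts [e, sub_eq_zero.1 h3]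
  hη n := ⟨n, by simp⟩
  co2 r := by
    constructor
    · intro hr
      refine ker_tw χ (RI ![1 - s • o g0, o x - 1]) (RI_mul _) _ c2 ?_ r hr
      rintro g (rfl | rfl)
      · exact ⟨![0, 1], by simp [χ1, -MonoidAlgebra.of_apply]⟩
      · refine ⟨![-(s • 1), 0], ?_⟩
        rw [Fin.sum_univ_two, χ2]
        change _ = (1 - s • o g) * (-(s • 1)) + _ * 0
        rw [mul_zero, add_zero, mul_neg, mul_smul_comm, mul_one, smul_sub, smul_smul, hs, one_smul,
          neg_sub]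
    · rintro ⟨v, rfl⟩
      rw [Fin.sum_univ_two]
      change tw χ ((1 - s • o g0) * v 0 + (o x - 1) * v 1) = 0
      simp only [map_add, map_mul, map_sub, map_one, map_zsmul, tw_o, χ1, χ2, smul_eq_mul, hs,
        sub_self, zero_mul, add_zero]

theorem triv_alg (r : R ℤ Q) (z : ℤ) :
    (Rep.trivial ℤ Q ℤ).ρ.asAlgebraHom r z = ag Q r * z := by
  induction r using MonoidAlgebra.induction_on with
  | of g => rw [Representation.asAlgebraHom_of, ag_o, one_mul]; rfl
  | add a b ha hb => rw [map_add, LinearMap.add_apply, ha, hb, map_add, add_mul]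
  | smul c a ha => rw [map_smul, LinearMap.smul_apply, ha, map_smul, smul_mul_assoc]

theorem or1 (φ : F ℤ N 3 ⟶ Rep.trivial ℤ N ℤ) :
    φ.hom ((Pi.single 0 1 : Fin 1 → R ℤ N) ᵥ* D2) = 0 := by
  rw [hom_eq φ, Fin.sum_univ_three]
  obtain ⟨a, b, c⟩ := v2 (Pi.single 0 1 : Fin 1 → R ℤ N)
  rw [triv_alg, triv_alg, triv_alg, a, b, c]
  simp only [map_mul, map_sub, ag_o, map_one, mul_one, sub_self, mul_zero, zero_mul, add_zero]

theorem or2 (φ : F ℤ N 1 ⟶ Rep.trivial ℤ N ℤ) (h : φ.hom (Pi.single 0 1 : Fin 1 → R ℤ N) = 0)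
    (v : Fin 1 → R ℤ N) : φ.hom v = 0 := by
  rw [hom_eq φ v, Fin.sum_univ_one, h, map_zero]

theorem orient_N : Nonempty (groupCohomology (Rep.trivial ℤ N ℤ) 3 ≃+ ℤ) := by
  let K := (cx m3 D3 h4).linearYonedaObj ℤ (Rep.trivial ℤ N ℤ)
  let S := K.sc' 2 3 4
  let ev : (F ℤ N 1 ⟶ Rep.trivial ℤ N ℤ) →ₗ[ℤ] ℤ :=
    { toFun := fun φ => φ.hom (Pi.single 0 1 : Fin 1 → R ℤ N)
      map_smul' := fun _ _ => rfl
      map_add' := fun _ _ => rfl }
  let p : S.X₂ ⟶ ModuleCat.of ℤ ℤ := ModuleCat.ofHom ev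
  have hfp : S.f ≫ p = 0 := by
    ext φ
    change ((cx m3 D3 h4).d (2 + 1) 2 ≫ φ).hom (Pi.single 0 1 : Fin 1 → R ℤ N) = 0
    rw [cx_d]
    exact or1 φ
  have hg : S.g = 0 := by
    ext φ
    refine rext fun v => ?_
    have hv : v = 0 := Subsingleton.elim (α := Fin 0 → R ℤ N) _ _
    rw [hv, map_zero, map_zero]
  have hex : (ShortComplex.mk S.f p hfp).Exact := by
    rw [ShortComplex.moduleCat_exact_iff]
    intro φ hφ
    refine ⟨0, ?_⟩
    rw [map_zero]
    refine rext fun v => ?_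
    exact (or2 φ hφ v).symm
  have : Epi (ShortComplex.mk S.f p hfp).g := (ModuleCat.epi_iff_surjective p).2 fun z => by
    refine ⟨lift (n := 1) (Rep.trivial ℤ N ℤ) fun _ => z, ?_⟩
    change (lift (n := 1) (Rep.trivial ℤ N ℤ) fun _ => z).hom (Pi.single 0 1 : Fin 1 → R ℤ N) = z
    rw [lift_apply, Fin.sum_univ_one, triv_alg]
    simp
  let e := groupCohomologyIso _ 3 (res m3 D3 (ε1 N) ε1_inv ε1_surj ex0 h4) ≪≫
    K.homologyIsoSc' 2 3 4 (by simp) (by simp) ≪≫
    (ShortComplex.LeftHomologyData.ofIsColimitCokernelCofork S hg _ hex.gIsCokernel).homologyIso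
  exact ⟨e.toLinearEquiv.toAddEquiv⟩

end Pool.Agent.H74.PD
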