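import Mathlib
import Pool.Agent.H74.PDk

set_option autoImplicit false

namespace Pool.Agent.H74.PD

open Pool.Agent.H71.PD3

/-- the Klein bottle group -/
@[ext] structure Kb where
  a : ℤ
  n : ℤ

namespace Kb

instance : Mul Kb := ⟨fun g h => ⟨g.a + g.n.negOnePow * h.a, g.n + h.n⟩⟩
instance : One Kb := ⟨⟨0, 0⟩⟩
instance : Inv Kb := ⟨fun g => ⟨-(g.n.negOnePow * g.a), -g.n⟩⟩
@[simp] theorem mul_a (g h : Kb) : (g * h).a = g.a + g.n.negOnePow * h.a := rfl
@[simp] theorem mul_n (g h : Kb) : (g * h).n = g.n + h.n := rfl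
@[simp] theorem one_a : (1 : Kb).a = 0 := rfl
@[simp] theorem one_n : (1 : Kb).n = 0 := rfl
@[simp] theorem inv_a (g : Kb) : g⁻¹.a = -(g.n.negOnePow * g.a) := rfl
@[simp] theorem inv_n (g : Kb) : g⁻¹.n = -g.n := rfl

instance : Group Kb where
  mul_assoc g h k := by ext <;> simp [Int.negOnePow_add] <;> ring
  one_mul g := by ext <;> simp
  mul_one g := by ext <;> simp
  inv_mul_cancel g := by ext <;> simp

def X : Kb := ⟨1, 0⟩
def T : Kb := ⟨0, 1⟩

theorem X_zpow (k : ℤ) : X ^ k = ⟨k, 0⟩ := by
  induction k with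
  | zero => rfl
  | succ n ih => rw [zpow_add_one, ih]; ext <;> simp [X]
  | pred n ih => rw [zpow_sub_one, ih]; ext <;> simp [X, sub_eq_add_neg]

theorem T_zpow (k : ℤ) : T ^ k = ⟨0, k⟩ := by
  induction k with
  | zero => rfl
  | succ n ih => rw [zpow_add_one, ih]; ext <;> simp [T]
  | pred n ih => rw [zpow_sub_one, ih]; ext <;> simp [T, sub_eq_add_neg]

theorem nf (g : Kb) : g = X ^ g.a * T ^ g.n := by
  rw [X_zpow, T_zpow]; ext <;> simp

theorem pow_n (g : Kb) (k : ℕ) : (g ^ k).n = k * g.n := by
  induction k with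
  | zero => simp
  | succ k ih => rw [pow_succ, mul_n, ih]; push_cast; ring

def K : Subgroup Kb where
  carrier := {g | g.n = 0}
  mul_mem' := fun {g h} (hg : g.n = 0) (hh : h.n = 0) => show (g * h).n = 0 by simp [hg, hh]
  one_mem' := rfl
  inv_mem' := fun {g} (hg : g.n = 0) => show g⁻¹.n = 0 by simp [hg]

instance : K.Normal := ⟨fun h (hh : h.n = 0) g => show (g * h * g⁻¹).n = 0 by simp [hh]⟩

def sgn : Kb →* ℤ where
  toFun g := g.n.negOnePow
  map_one' := by simp
  map_mul' g h := by simp [Int.negOnePow_add]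

noncomputable def data : Data2 Kb (Fin 2) :=
  flat2 X T (X * T) (-1) (by norm_num) K
    (by
      apply le_antisymm
      · rw [Subgroup.closure_le]
        rintro _ (rfl | rfl | rfl) <;> exact rfl
      · intro g (hg : g.n = 0)
        rw [nf g, hg, zpow_zero, mul_one]
        exact zpow_mem (Subgroup.subset_closure (by simp)) _)
    (fun n h => by
      rw [← zpow_natCast, X_zpow] at h
      simpa using congrArg Kb.a h)
    (fun n (h : (T ^ n).n = 0) => by simpa [pow_n, T] using h)
    (fun n (h : ((X * T) ^ n).n = 0) => by simpa [pow_n, T, X] using h)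
    (by
      have h : o X * o T * o X = o T := by rw [← map_mul, ← map_mul]; congr 1
      rw [neg_smul, one_smul, show o (X * T) = o X * o T from map_mul _ _ _]
      linear_combination (norm := noncomm_ring) h)
    (fun g => by
      rw [nf g]
      exact mul_mem (zpow_mem (Subgroup.subset_closure (by simp)) _)
        (zpow_mem (Subgroup.subset_closure (by simp)) _))
    (fun g => by
      have hx : X ∈ Subgroup.closure {X, X * T} := Subgroup.subset_closure (by simp)
      have ht : T ∈ Subgroup.closure {X, X * T} :=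
        (Subgroup.mul_mem_cancel_left _ hx).1 (Subgroup.subset_closure (by simp))
      rw [nf g]
      exact mul_mem (zpow_mem hx _) (zpow_mem ht _))
    sgn (by simp [sgn, X]) (by simp [sgn, X, T])

theorem pd2 : IsPD 2 Kb := data.pd
theorem pd3 : IsPD 3 (PZ Kb) := data.cone.pd

end Kb

end Pool.Agent.H74.PD
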