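import Mathlib
import Pool.Agent.H74.Kb

set_option autoImplicit false

namespace Pool.Agent.H74.PD

open Pool.Agent.H71.PD3

variable {Q Q' : Type} [Group Q] [Group Q']

theorem ag_dom (e : Q ≃* Q') (r : R ℤ Q) :
    ag Q' (MonoidAlgebra.domCongr ℤ ℤ e r) = ag Q r := by
  induction r using MonoidAlgebra.induction_on with
  | of g =>
    rw [ag_o, MonoidAlgebra.of_apply, MonoidAlgebra.domCongr_single]
    exact ag_o _
  | add a b ha hb => rw [map_add, map_add, map_add, ha, hb]
  | smul c a ha => rw [map_smul, map_smul, map_smul, ha]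

noncomputable def Data2.map {ι : Type} [Fintype ι] (d : Data2 Q ι) (e : Q ≃* Q') : Data2 Q' ι :=
  let E := MonoidAlgebra.domCongr ℤ ℤ e
  { a := fun i => E (d.a i)
    b := fun i => E (d.b i)
    η := d.η.comp E.symm.toLinearMap
    ha := fun i => (ag_dom e _).trans (d.ha i)
    hba := by simp only [← map_mul, ← map_sum, d.hba, map_zero]
    ex0 := fun r hr => by
      obtain ⟨r, rfl⟩ := E.surjective r
      obtain ⟨v, rfl⟩ := d.ex0 r ((ag_dom e r).symm.trans hr)
      exact ⟨fun i => E (v i), by simp only [map_sum, map_mul]⟩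
    ex1 := fun v hv => by
      obtain ⟨u, hu⟩ := d.ex1 (fun i => E.symm (v i)) (E.injective (by
        simpa only [map_sum, map_mul, AlgEquiv.apply_symm_apply, map_zero] using hv))
      exact ⟨E u, fun i => by rw [← map_mul, ← hu, AlgEquiv.apply_symm_apply]⟩
    ex2 := fun u hu => by
      obtain ⟨u, rfl⟩ := E.surjective u
      rw [d.ex2 u fun i => E.injective (by rw [map_mul, hu, map_zero]), map_zero]
    co0 := fun u hu => by
      obtain ⟨u, rfl⟩ := E.surjective u
      rw [d.co0 u fun i => E.injective (by rw [map_mul, hu, map_zero]), map_zero]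
    co1 := fun v hv => by
      obtain ⟨u, hu⟩ := d.co1 (fun i => E.symm (v i)) (E.injective (by
        simpa only [map_sum, map_mul, AlgEquiv.apply_symm_apply, map_zero] using hv))
      exact ⟨E u, fun i => by rw [← map_mul, ← hu, AlgEquiv.apply_symm_apply]⟩
    hη := d.hη.comp E.symm.surjective
    co2 := fun r => by
      refine (d.co2 (E.symm r)).trans ⟨?_, ?_⟩
      · rintro ⟨v, hv⟩
        refine ⟨fun i => E (v i), ?_⟩
        simp only [← map_mul, ← map_sum, ← hv, AlgEquiv.apply_symm_apply]
      · rintro ⟨v, rfl⟩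
        exact ⟨fun i => E.symm (v i), by simp only [map_sum, map_mul, AlgEquiv.symm_apply_apply]⟩ }

/-- the free abelian group of rank two -/
abbrev Z2 : Type := Multiplicative (ℤ × ℤ)

noncomputable def dataZ2 : Data2 Z2 (Fin 2) :=
  have nf : ∀ g : Z2, g = (Multiplicative.ofAdd ((1, 0) : ℤ × ℤ)) ^ g.toAdd.1 *
      (Multiplicative.ofAdd ((0, 1) : ℤ × ℤ)) ^ g.toAdd.2 := fun g =>
    Multiplicative.toAdd.injective (by ext <;> simp)
  flat2 (Multiplicative.ofAdd (1, 0)) (Multiplicative.ofAdd (0, 1)) (Multiplicative.ofAdd (0, 1))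
    1 (by norm_num) (Subgroup.zpowers (Multiplicative.ofAdd (1, 0)))
    (le_antisymm (by
      rw [Subgroup.closure_le]
      rintro _ (rfl | rfl | rfl)
      exacts [Subgroup.mem_zpowers _, one_mem _, one_mem _])
      (Subgroup.zpowers_le.2 (Subgroup.subset_closure (by simp))))
    (fun n h => by simpa using congrArg (fun g : Z2 => g.toAdd.1) h)
    (by rintro n ⟨k, h⟩; simpa using (congrArg (fun g : Z2 => g.toAdd.2) h).symm)
    (by rintro n ⟨k, h⟩; simpa using (congrArg (fun g : Z2 => g.toAdd.2) h).symm)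
    (by rw [one_smul, mul_comm])
    (fun g => by
      rw [nf g]
      exact mul_mem (zpow_mem (Subgroup.subset_closure (by simp)) _)
        (zpow_mem (Subgroup.subset_closure (by simp)) _))
    (fun g => by
      rw [nf g]
      exact mul_mem (zpow_mem (Subgroup.subset_closure (by simp)) _)
        (zpow_mem (Subgroup.subset_closure (by simp)) _))
    1 rfl rfl

end Pool.Agent.H74.PD
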