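import Mathlib
import Pool.Agent.H74.PDmap

set_option autoImplicit false

namespace Pool.Agent.H74.PD

open Pool.Agent.H71.PD3

variable {Q : Type} [Group Q]

/-- Q is presented by x, y, z with x x y y z z = 1 -/
structure Univ (x y z : Q) : Prop where
  rel : x * x * (y * y) * (z * z) = 1
  gen : ∀ g, g ∈ Subgroup.closure {x, y, z}
  lift : ∀ (L : Type) [Group L] (p q r : L), p * p * (q * q) * (r * r) = 1 →
    ∃ f : Q →* L, f x = p ∧ f y = q ∧ f z = r

/-- semidirect product of a module with the group -/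
@[ext] structure SD (Q : Type) (M : Type) where
  m : M
  g : Q

section
variable {M : Type} [AddCommGroup M] [Module (R ℤ Q) M]

noncomputable instance : Mul (SD Q M) := ⟨fun a b => ⟨a.m + o a.g • b.m, a.g * b.g⟩⟩
instance : One (SD Q M) := ⟨⟨0, 1⟩⟩
noncomputable instance : Inv (SD Q M) := ⟨fun a => ⟨-(o a.g⁻¹ • a.m), a.g⁻¹⟩⟩
theorem SD.mul_m (a b : SD Q M) : (a * b).m = a.m + o a.g • b.m := rfl
theorem SD.mul_g (a b : SD Q M) : (a * b).g = a.g * b.g := rfl
theorem o_mul (g h : Q) : o (g * h) = o g * o h := map_mul _ _ _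

noncomputable instance : Group (SD Q M) where
  mul_assoc a b c := by
    ext
    · simp only [SD.mul_m, SD.mul_g, o_mul, smul_add, mul_smul, add_assoc]
    · simp only [SD.mul_g, mul_assoc]
  one_mul a := by
    ext
    · change 0 + o (1 : Q) • a.m = a.m
      rw [o_one, one_smul, zero_add]
    · exact one_mul _
  mul_one a := by
    ext
    · change a.m + o a.g • (0 : M) = a.m
      rw [smul_zero, add_zero]
    · exact mul_one _
  inv_mul_cancel a := by
    ext
    · exact neg_add_cancel _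
    · exact inv_mul_cancel _

theorem deriv_ext (D : Q → M) (hD : ∀ g h, D (g * h) = D g + o g • D h) :
    ∃ L : R ℤ Q →+ M, ∀ r s, L (r * (o s - 1)) = r • D s := by
  let L : R ℤ Q →ₗ[ℤ] M := (MonoidAlgebra.basis Q ℤ).constr ℤ D
  have hL : ∀ g, L (o g) = D g := fun g => by
    have := (MonoidAlgebra.basis Q ℤ).constr_basis ℤ D g
    rwa [MonoidAlgebra.basis_apply] at this
  refine ⟨L.toAddMonoidHom, fun r s => ?_⟩
  change L _ = _
  induction r using MonoidAlgebra.induction_on with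
  | of g =>
    change L (o g * _) = o g • _
    rw [mul_sub, mul_one, ← o_mul, map_sub, hL, hL, hD, add_sub_cancel_left]
  | add a b ha hb => rw [add_mul, map_add, ha, hb, add_smul]
  | smul c a ha => rw [smul_mul_assoc, map_smul, ha, smul_assoc]
end

theorem foxL {x y z : Q} (h : Univ x y z) {v1 v2 v3 : R ℤ Q}
    (hv : v1 * (o x - 1) + v2 * (o y - 1) + v3 * (o z - 1) = 0) :
    ∃ u, v1 = u * (1 + o x) ∧ v2 = u * (o x * o x * (1 + o y)) ∧
      v3 = u * (o x * o x * (o y * o y) * (1 + o z)) := by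
  let β : R ℤ Q × R ℤ Q × R ℤ Q :=
    (1 + o x, o x * o x * (1 + o y), o x * o x * (o y * o y) * (1 + o z))
  let W : Submodule (R ℤ Q) (R ℤ Q × R ℤ Q × R ℤ Q) := Submodule.span _ {β}
  obtain ⟨f, f1, f2, f3⟩ := h.lift (SD Q ((R ℤ Q × R ℤ Q × R ℤ Q) ⧸ W))
    ⟨W.mkQ (1, 0, 0), x⟩ ⟨W.mkQ (0, 1, 0), y⟩ ⟨W.mkQ (0, 0, 1), z⟩ (by
      ext
      · simp only [SD.mul_m, SD.mul_g, ← map_smul, ← map_add, o_mul]
        change W.mkQ _ = 0
        rw [Submodule.mkQ_apply, Submodule.Quotient.mk_eq_zero]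
        refine Submodule.mem_span_singleton.2 ⟨1, ?_⟩
        simp only [β, one_smul, Prod.smul_mk, Prod.mk_add_mk, smul_eq_mul, mul_zero, mul_one,
          add_zero, zero_add]
      · exact h.rel)
  have hg : ∀ g, (f g).g = g := fun g => by
    induction h.gen g using Subgroup.closure_induction with
    | mem g hg => rcases hg with rfl | rfl | rfl <;> simp only [f1, f2, f3]
    | one => rw [map_one]; rfl
    | mul a b _ _ ha hb => rw [map_mul, SD.mul_g, ha, hb]
    | inv a _ ha => rw [map_inv]; exact congrArg Inv.inv ha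
  obtain ⟨L, hL⟩ := deriv_ext (fun g => (f g).m) fun a b => by
    rw [map_mul, SD.mul_m, hg]
  have h1 := congrArg L hv
  simp only [map_add, hL, f1, f2, f3, map_zero, ← map_smul] at h1
  rw [← map_add, ← map_add, Submodule.mkQ_apply, Submodule.Quotient.mk_eq_zero] at h1
  obtain ⟨u, hu⟩ := Submodule.mem_span_singleton.1 h1
  simp only [β, Prod.smul_mk, Prod.mk_add_mk, smul_eq_mul, mul_zero, mul_one, add_zero, zero_add,
    Prod.mk.injEq] at hu
  exact ⟨u, hu.1.symm, hu.2.1.symm, hu.2.2.symm⟩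

/-- twisted conjugation, as a map to the opposite ring -/
noncomputable def Top (χ : Q →* ℤ) : R ℤ Q →ₐ[ℤ] (R ℤ Q)ᵐᵒᵖ :=
  MonoidAlgebra.lift ℤ _ Q
    { toFun := fun g => MulOpposite.op (χ g • o g⁻¹)
      map_one' := by rw [map_one, inv_one, o_one, one_smul]; rfl
      map_mul' := fun g h => by
        rw [← MulOpposite.op_mul, smul_mul_smul_comm, ← o_mul, ← map_mul, mul_inv_rev, map_mul,
          map_mul, mul_comm (χ g)] }

noncomputable def Tw (χ : Q →* ℤ) : R ℤ Q →+ R ℤ Q :=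
  MulOpposite.opAddEquiv.symm.toAddMonoidHom.comp (Top χ).toRingHom.toAddMonoidHom

theorem Tw_apply (χ : Q →* ℤ) (r : R ℤ Q) : Tw χ r = (Top χ r).unop := rfl
theorem Tw_mul (χ : Q →* ℤ) (r s : R ℤ Q) : Tw χ (r * s) = Tw χ s * Tw χ r := by
  rw [Tw_apply, map_mul, MulOpposite.unop_mul]; rfl
theorem Tw_one (χ : Q →* ℤ) : Tw χ 1 = 1 := by rw [Tw_apply, map_one]; rfl
theorem Tw_o (χ : Q →* ℤ) (g : Q) : Tw χ (o g) = χ g • o g⁻¹ := by
  rw [Tw_apply, Top, o, MonoidAlgebra.lift_of]; rfl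
theorem Tw_Tw (χ : Q →* ℤ) (r : R ℤ Q) : Tw χ (Tw χ r) = r := by
  induction r using MonoidAlgebra.induction_on with
  | of g =>
    change Tw χ (Tw χ (o g)) = o g
    rw [Tw_o, map_zsmul, Tw_o, smul_smul, ← map_mul, mul_inv_cancel, map_one, one_smul, inv_inv]
  | add a b ha hb => rw [map_add, map_add, ha, hb]
  | smul c a ha => rw [map_zsmul, map_zsmul, ha]

theorem Univ.chi {x y z : Q} (h : Univ x y z) :
    ∃ χ : Q →* ℤ, χ x = -1 ∧ χ y = -1 ∧ χ z = -1 := by
  obtain ⟨f, f1, f2, f3⟩ := h.lift ℤˣ (-1) (-1) (-1) (by simp)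
  exact ⟨(Units.coeHom ℤ).comp f, by simp [f1], by simp [f2], by simp [f3]⟩

theorem chi_inv (χ : Q →* ℤ) {g : Q} (h : χ g = -1) : χ g⁻¹ = -1 := by
  have : χ g * χ g⁻¹ = 1 := by rw [← map_mul, mul_inv_cancel, map_one]
  rw [h] at this; linarith

theorem foxR {x y z : Q} (h : Univ x⁻¹ y⁻¹ z⁻¹) {v1 v2 v3 : R ℤ Q}
    (hv : (1 + o x) * v1 + (1 + o y) * v2 + (1 + o z) * v3 = 0) :
    ∃ u, v1 = (o x - 1) * u ∧ v2 = (o y - 1) * (o x * o x) * u ∧
      v3 = (o z - 1) * (o y * o y) * (o x * o x) * u := by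
  obtain ⟨χ, c1, c2, c3⟩ := h.chi
  have d1 : χ x = -1 := by simpa using chi_inv χ c1
  have d2 : χ y = -1 := by simpa using chi_inv χ c2
  have d3 : χ z = -1 := by simpa using chi_inv χ c3
  have h1 := congrArg (Tw χ) hv
  simp only [map_add, Tw_mul, Tw_one, Tw_o, d1, d2, d3, map_zero, neg_smul, one_smul] at h1
  obtain ⟨u, u1, u2, u3⟩ := foxL h (v1 := Tw χ v1) (v2 := Tw χ v2) (v3 := Tw χ v3) (by
    linear_combination (norm := noncomm_ring) -h1)
  have e1 := congrArg (Tw χ) u1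
  have e2 := congrArg (Tw χ) u2
  have e3 := congrArg (Tw χ) u3
  simp only [map_add, Tw_mul, Tw_one, Tw_o, c1, c2, c3, neg_smul, one_smul, Tw_Tw, inv_inv]
    at e1 e2 e3
  refine ⟨- Tw χ u, ?_, ?_, ?_⟩
  · rw [e1]; noncomm_ring
  · rw [e2]; noncomm_ring
  · rw [e3]; noncomm_ring

theorem Univ.dual {a b c : Q} (h : Univ a b c) : Univ c⁻¹ a⁻¹ (a * a * b * a⁻¹ * a⁻¹)⁻¹ := by
  have hc : c * c = (a * a * (b * b))⁻¹ := eq_inv_of_mul_eq_one_right h.rel
  refine ⟨?_, fun g => ?_, fun L _ p q r e => ?_⟩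
  · rw [← mul_inv_rev c c, hc]; group
  · have h1 : c ∈ Subgroup.closure {c⁻¹, a⁻¹, (a * a * b * a⁻¹ * a⁻¹)⁻¹} :=
      inv_mem_iff.1 (Subgroup.subset_closure (by simp))
    have h2 : a ∈ Subgroup.closure {c⁻¹, a⁻¹, (a * a * b * a⁻¹ * a⁻¹)⁻¹} :=
      inv_mem_iff.1 (Subgroup.subset_closure (by simp))
    have h3 : a * a * b * a⁻¹ * a⁻¹ ∈ Subgroup.closure {c⁻¹, a⁻¹, (a * a * b * a⁻¹ * a⁻¹)⁻¹} :=
      inv_mem_iff.1 (Subgroup.subset_closure (by simp))
    have h4 : b ∈ Subgroup.closure {c⁻¹, a⁻¹, (a * a * b * a⁻¹ * a⁻¹)⁻¹} := by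
      have := mul_mem (mul_mem (mul_mem (mul_mem (inv_mem h2) (inv_mem h2)) h3) h2) h2
      simpa [mul_assoc] using this
    refine (Subgroup.closure_le _).2 ?_ (h.gen g)
    rintro _ (rfl | rfl | rfl) <;> assumption
  · have hr : r * r = (p * p * (q * q))⁻¹ := eq_inv_of_mul_eq_one_right e
    obtain ⟨f, f1, f2, f3⟩ := h.lift L q⁻¹ (q * q * r⁻¹ * q⁻¹ * q⁻¹) p⁻¹ (by
      have : q * q * r⁻¹ * q⁻¹ * q⁻¹ * (q * q * r⁻¹ * q⁻¹ * q⁻¹) =
          q * q * (r * r)⁻¹ * q⁻¹ * q⁻¹ := by group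
      rw [this, hr]; group)
    refine ⟨f, by rw [map_inv, f3, inv_inv], by rw [map_inv, f1, inv_inv], ?_⟩
    simp only [map_inv, map_mul, f1, f2]; group

theorem Univ.ord {a b c : Q} (h : Univ a b c) (n : ℕ) (hn : a ^ n = 1) : n = 0 := by
  obtain ⟨f, f1, -, -⟩ := h.lift (Multiplicative ℤ) (Multiplicative.ofAdd 1)
    (Multiplicative.ofAdd (-1)) 1 (by decide)
  have := congrArg (fun g => (f g).toAdd) hn
  simpa [f1] using this

theorem o_inv_mul (g : Q) : o g⁻¹ * o g = 1 := by rw [← o_mul, inv_mul_cancel, o_one]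
theorem o_mul_inv (g : Q) : o g * o g⁻¹ = 1 := by rw [← o_mul, mul_inv_cancel, o_one]

theorem Univ.data' {a b c : Q} (h : Univ a b c) (χ : Q →* ℤ) (c1 : χ a = -1) (c2 : χ b = -1)
    (c3 : χ c = -1) : ∃ d : Data2 Q (Fin 3), d.η = (tw χ).toLinearMap := by
  have hrel : o a * o a * (o b * o b) * (o c * o c) = 1 := by
    simp only [← o_mul, h.rel, o_one]
  have hrel' : o c * o c * (o a * o a * (o b * o b)) = 1 := by
    simp only [← o_mul]
    rw [mul_eq_one_comm.1 h.rel, o_one]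
  have ia := o_inv_mul a
  have ia' := o_mul_inv a
  refine ⟨{
    a := ![o a - 1, o b - 1, o c - 1]
    b := ![1 + o a, o a * o a * (1 + o b), o a * o a * (o b * o b) * (1 + o c)]
    η := (tw χ).toLinearMap
    ha := fun i => by fin_cases i <;> exact ag_gen _
    hba := ?_, ex0 := ?_, ex1 := ?_, ex2 := ?_, co0 := ?_, co1 := ?_
    hη := fun n => ⟨n, by simp⟩, co2 := ?_ }, rfl⟩
  · rw [Fin.sum_univ_three]
    change (1 + o a) * (o a - 1) + o a * o a * (1 + o b) * (o b - 1) +
      o a * o a * (o b * o b) * (1 + o c) * (o c - 1) = 0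
    linear_combination (norm := noncomm_ring) hrel
  · intro r hr
    obtain ⟨p, q, s, e⟩ := ker_ag (JL a b c) (fun g => JL_gen (h.gen g)) _ hr
    exact ⟨![p, q, s], by rw [Fin.sum_univ_three]; exact e⟩
  · intro v hv
    rw [Fin.sum_univ_three] at hv
    obtain ⟨u, u1, u2, u3⟩ := foxL h hv
    exact ⟨u, fun i => by fin_cases i; exacts [u1, u2, u3]⟩
  · intro u hu
    have h0 : u * (1 + o a) = 0 := hu 0
    refine cancelL (g := a * a) (fun n hn => ?_) ?_
    · rw [← pow_two, ← pow_mul] at hn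
      have := h.ord _ hn
      omega
    · rw [o_mul]
      linear_combination (norm := noncomm_ring) h0 * (o a - 1)
  · intro u hu
    exact cancelR h.ord (hu 0)
  · intro v hv
    rw [Fin.sum_univ_three] at hv
    change (1 + o a) * v 0 + o a * o a * (1 + o b) * v 1 +
      o a * o a * (o b * o b) * (1 + o c) * v 2 = 0 at hv
    have hcomm : o a * o a * (o b * o b) * o c = o c * (o a * o a * (o b * o b)) := by
      simp only [← o_mul]
      congr 1
      rw [eq_inv_of_mul_eq_one_left h.rel]; group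
    obtain ⟨u, u1, u2, u3⟩ := foxR h.dual (v1 := o a * o a * (o b * o b) * v 2) (v2 := v 0)
      (v3 := o a * o a * v 1) (by
        simp only [o_mul]
        linear_combination (norm := noncomm_ring) hv - hcomm * v 2 +
          o a * o a * o b * o a⁻¹ * ia * o a * v 1 + o a * o a * o b * ia * v 1)
    refine ⟨o c * o c * u, fun i => ?_⟩
    fin_cases i
    · exact u2.trans (mul_assoc _ _ _)
    · change v 1 = (o b - 1) * (o c * o c * u)
      simp only [o_mul] at u3
      have e : o a * o a * v 1 = o a * o a * ((o b - 1) * (o c * o c * u)) := by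
        linear_combination (norm := noncomm_ring) u3 +
          o a * o a * o b * o a⁻¹ * ia * o a * (o c * o c * u) +
          o a * o a * o b * ia * (o c * o c * u)
      linear_combination (norm := noncomm_ring) o a⁻¹ * o a⁻¹ * e -
        o a⁻¹ * ia * o a * (v 1 - (o b - 1) * (o c * o c * u)) -
        ia * (v 1 - (o b - 1) * (o c * o c * u))
    · change v 2 = (o c - 1) * (o c * o c * u)
      linear_combination (norm := noncomm_ring) o c * o c * u1 - hrel' * v 2
  · intro r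
    constructor
    · intro hr
      refine ker_tw χ (RI _) (RI_mul _) {c⁻¹, a⁻¹, (a * a * b * a⁻¹ * a⁻¹)⁻¹} h.dual.gen ?_ r hr
      have key : ∀ g : Q, χ g = -1 → 1 + o g ∈ RI ![1 + o a, o a * o a * (1 + o b),
          o a * o a * (o b * o b) * (1 + o c)] → o g⁻¹ - χ g⁻¹ • 1 ∈ RI ![1 + o a,
          o a * o a * (1 + o b), o a * o a * (o b * o b) * (1 + o c)] := fun g hg hm => by
        have := RI_mul _ _ hm (o g⁻¹)
        rw [add_mul, one_mul, o_mul_inv] at this
        rwa [chi_inv χ hg, neg_one_smul, sub_neg_eq_add]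
      rintro g (rfl | rfl | rfl)
      · refine key c c3 ⟨![0, 0, o c * o c], ?_⟩
        rw [Fin.sum_univ_three]
        change _ = _ * 0 + _ * 0 + o a * o a * (o b * o b) * (1 + o c) * (o c * o c)
        linear_combination (norm := noncomm_ring) - hrel * (1 + o c)
      · refine key a c1 ⟨![1, 0, 0], ?_⟩
        rw [Fin.sum_univ_three]
        change _ = (1 + o a) * 1 + _ * 0 + _ * 0
        noncomm_ring
      · refine key _ (by simp only [map_mul, c1, c2, chi_inv χ c1]; norm_num)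
          ⟨![0, o a⁻¹ * o a⁻¹, 0], ?_⟩
        rw [Fin.sum_univ_three]
        change _ = _ * 0 + o a * o a * (1 + o b) * (o a⁻¹ * o a⁻¹) + _ * 0
        simp only [o_mul]
        linear_combination (norm := noncomm_ring) - o a * ia' * o a⁻¹ - ia'
    · rintro ⟨v, rfl⟩
      rw [Fin.sum_univ_three]
      change tw χ ((1 + o a) * v 0 + o a * o a * (1 + o b) * v 1 +
        o a * o a * (o b * o b) * (1 + o c) * v 2) = 0
      simp only [map_add, map_mul, map_one, tw_o, c1, c2, c3, add_neg_cancel, mul_zero, zero_mul,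
        add_zero]

theorem Univ.data {a b c : Q} (h : Univ a b c) : Nonempty (Data2 Q (Fin 3)) := by
  obtain ⟨χ, c1, c2, c3⟩ := h.chi
  obtain ⟨d, -⟩ := h.data' χ c1 c2 c3
  exact ⟨d⟩

/-- the relator of the non-orientable surface of genus three -/
def rels3 : Set (FreeGroup (Fin 3)) :=
  {FreeGroup.of 0 * FreeGroup.of 0 * (FreeGroup.of 1 * FreeGroup.of 1) *
    (FreeGroup.of 2 * FreeGroup.of 2)}

/-- the group of the non-orientable surface of genus three -/
abbrev N3 : Type := PresentedGroup rels3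

theorem univ3 : Univ (PresentedGroup.of 0 : N3) (PresentedGroup.of 1) (PresentedGroup.of 2) := by
  refine ⟨PresentedGroup.one_of_mem (rels := rels3) rfl, fun g => ?_, fun L _ p q r e => ?_⟩
  · have := PresentedGroup.closure_range_of rels3
    have h2 : g ∈ Subgroup.closure (Set.range (PresentedGroup.of : Fin 3 → N3)) := by
      rw [this]; trivial
    refine Subgroup.closure_mono ?_ h2
    rintro _ ⟨i, rfl⟩
    fin_cases i <;> simp
  · have hr : ∀ w ∈ rels3, FreeGroup.lift ![p, q, r] w = 1 := by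
      rintro _ rfl
      simpa using e
    exact ⟨PresentedGroup.toGroup hr, PresentedGroup.toGroup.of hr, PresentedGroup.toGroup.of hr,
      PresentedGroup.toGroup.of hr⟩

theorem pd_N3 : IsPD 2 N3 := univ3.data.elim fun d => d.pd
theorem pd_N3Z : IsPD 3 (PZ N3) := univ3.data.elim fun d => d.cone.pd

end Pool.Agent.H74.PD
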