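import Mathlib
import Pool.Agent.H74.Surf

set_option autoImplicit false

namespace Pool.Agent.H74.PD

open Pool.Agent.H71.PD3

section abstractcone
variable {G : Type} [Group G] {g : ℕ}

noncomputable def cone3 (A B : Fin g → R ℤ G) (N : Fin g → Fin g → R ℤ G) (w ω : R ℤ G)
    (η : R ℤ G →ₗ[ℤ] ℤ) (hA : ∀ i, ag G (A i) = 0) (hw : ag G w = 0)
    (hBA : ∑ i, B i * A i = 0) (hN : ∀ i, ∑ j, N i j * A j = A i * w)
    (hN' : ∀ j, ∑ i, B i * N i j = ω * B j)
    (e0 : ∀ r, ag G r = 0 → ∃ (c : R ℤ G) (v : Fin g → R ℤ G), r = c * w + ∑ i, v i * A i)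
    (r0 : ∀ (c : R ℤ G) (v : Fin g → R ℤ G), c * w + ∑ i, v i * A i = 0 →
      ∃ u : Fin g → R ℤ G, c = ∑ i, u i * A i)
    (e1 : ∀ v : Fin g → R ℤ G, ∑ i, v i * A i = 0 → ∃ u, ∀ i, v i = u * B i)
    (e2 : ∀ u, (∀ i, u * B i = 0) → u = 0) (f0 : ∀ u, (∀ i, A i * u = 0) → u = 0)
    (f1 : ∀ v : Fin g → R ℤ G, ∑ i, B i * v i = 0 → ∃ u, ∀ i, v i = A i * u)
    (r2 : ∀ (c : R ℤ G) (v : Fin g → R ℤ G), ω * c + ∑ i, B i * v i = 0 →
      ∃ u : Fin g → R ℤ G, c = ∑ i, B i * u i)
    (hη : Function.Surjective η)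
    (f3 : ∀ r, η r = 0 ↔ ∃ (c : R ℤ G) (v : Fin g → R ℤ G), r = ω * c + ∑ i, B i * v i) :
    Data3 G (Fin (g + 1)) where
  a := Fin.cons w A
  M := Fin.cons (Fin.cons 0 B) fun i => Fin.cons (A i) fun j => - N i j
  b := Fin.cons ω B
  η := η
  ha i := Fin.cases hw hA i
  hMa i := by
    refine Fin.cases ?_ (fun i => ?_) i
    · simp only [Fin.sum_univ_succ, Fin.cons_zero, Fin.cons_succ, zero_mul, zero_add, hBA]
    · simp only [Fin.sum_univ_succ, Fin.cons_zero, Fin.cons_succ, neg_mul, Finset.sum_neg_distrib,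
        hN, add_neg_cancel]
  hbM j := by
    refine Fin.cases ?_ (fun j => ?_) j
    · simp only [Fin.sum_univ_succ, Fin.cons_zero, Fin.cons_succ, mul_zero, zero_add, hBA]
    · simp only [Fin.sum_univ_succ, Fin.cons_zero, Fin.cons_succ, mul_neg, Finset.sum_neg_distrib,
        hN', add_neg_cancel]
  ex0 r hr := by
    obtain ⟨c, v, e⟩ := e0 r hr
    exact ⟨Fin.cons c v, by simpa only [Fin.sum_univ_succ, Fin.cons_zero, Fin.cons_succ] using e⟩
  ex1 v hv := by
    simp only [Fin.sum_univ_succ, Fin.cons_zero, Fin.cons_succ] at hv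
    obtain ⟨c, hc⟩ := r0 _ _ hv
    obtain ⟨u, hu⟩ := e1 (fun j => ∑ i, c i * N i j + v j.succ) (by
      simp only [add_mul, Finset.sum_add_distrib, Finset.sum_mul, mul_assoc]
      rw [Finset.sum_comm]
      simp only [← Finset.mul_sum, hN]
      simpa only [hc, Finset.sum_mul, mul_assoc] using hv)
    refine ⟨Fin.cons u c, fun j => Fin.cases ?_ (fun j => ?_) j⟩
    · simpa only [Fin.sum_univ_succ, Fin.cons_zero, Fin.cons_succ, mul_zero, zero_add] using hc
    · simp only [Fin.sum_univ_succ, Fin.cons_zero, Fin.cons_succ, mul_neg, Finset.sum_neg_distrib,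
        ← hu]
      abel
  ex2 v hv := by
    have h0 := hv 0
    simp only [Fin.sum_univ_succ, Fin.cons_zero, Fin.cons_succ, mul_zero, zero_add] at h0
    obtain ⟨c, hc⟩ := e1 _ h0
    have h1 : v 0 - c * ω = 0 := e2 _ fun j => by
      have := hv j.succ
      simp only [Fin.sum_univ_succ, Fin.cons_zero, Fin.cons_succ, mul_neg, Finset.sum_neg_distrib,
        hc, mul_assoc, ← Finset.mul_sum, hN'] at this
      rw [sub_mul, mul_assoc, sub_eq_add_neg]; exact this
    exact ⟨c, fun i => Fin.cases (sub_eq_zero.1 h1) hc i⟩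
  ex3 u hu := e2 u fun i => hu i.succ
  co0 u hu := f0 u fun i => hu i.succ
  co1 v hv := by
    have h0 := hv 0
    simp only [Fin.sum_univ_succ, Fin.cons_zero, Fin.cons_succ, zero_mul, zero_add] at h0
    obtain ⟨c, hc⟩ := f1 _ h0
    have h1 : v 0 - w * c = 0 := f0 _ fun j => by
      have := hv j.succ
      simp only [Fin.sum_univ_succ, Fin.cons_zero, Fin.cons_succ, neg_mul, Finset.sum_neg_distrib,
        hc, ← mul_assoc, ← Finset.sum_mul, hN] at this
      rw [mul_sub, ← mul_assoc, sub_eq_add_neg]; exact this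
    exact ⟨c, fun i => Fin.cases (sub_eq_zero.1 h1) hc i⟩
  co2 v hv := by
    simp only [Fin.sum_univ_succ, Fin.cons_zero, Fin.cons_succ] at hv
    obtain ⟨c, hc⟩ := r2 _ _ hv
    obtain ⟨u, hu⟩ := f1 (fun i => ∑ j, N i j * c j + v i.succ) (by
      simp only [mul_add, Finset.sum_add_distrib, Finset.mul_sum, ← mul_assoc]
      rw [Finset.sum_comm]
      simp only [← Finset.sum_mul, hN']
      simpa only [hc, Finset.mul_sum, ← mul_assoc] using hv)
    refine ⟨Fin.cons u c, fun j => Fin.cases ?_ (fun j => ?_) j⟩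
    · simpa only [Fin.sum_univ_succ, Fin.cons_zero, Fin.cons_succ, zero_mul, zero_add] using hc
    · simp only [Fin.sum_univ_succ, Fin.cons_zero, Fin.cons_succ, neg_mul, Finset.sum_neg_distrib,
        ← hu]
      abel
  hη := hη
  co3 r := by
    refine (f3 r).trans ⟨?_, ?_⟩
    · rintro ⟨c, v, e⟩
      exact ⟨Fin.cons c v, by simpa only [Fin.sum_univ_succ, Fin.cons_zero, Fin.cons_succ] using e⟩
    · rintro ⟨v, e⟩
      exact ⟨v 0, fun i => v i.succ, by
        simpa only [Fin.sum_univ_succ, Fin.cons_zero, Fin.cons_succ] using e⟩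

end abstractcone

section semi
variable {Q G : Type} [Group Q] [Group G] (ι : Q →* G)

noncomputable def incl : R ℤ Q →ₐ[ℤ] R ℤ G :=
  MonoidAlgebra.lift ℤ _ Q ((MonoidAlgebra.of ℤ G).comp ι)

theorem incl_o (q : Q) : incl ι (o q) = o (ι q) := MonoidAlgebra.lift_of _ _

theorem lin_of {M : Type} [AddCommGroup M] (F : G → M) :
    ∃ L : R ℤ G →ₗ[ℤ] M, ∀ g, L (o g) = F g := by
  refine ⟨(MonoidAlgebra.basis G ℤ).constr ℤ F, fun g => ?_⟩
  have := (MonoidAlgebra.basis G ℤ).constr_basis ℤ F g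
  rwa [MonoidAlgebra.basis_apply] at this

variable (hι : Function.Injective ι) (ψ : G →* Multiplicative ℤ)
  (hψ : ∀ g, ψ g = 1 ↔ g ∈ ι.range) (t : G) (ht : ψ t = Multiplicative.ofAdd 1)
include hι hψ ht

theorem cmpL : ∃ C : ℤ → R ℤ G →ₗ[ℤ] R ℤ Q, (∀ n r s, C n (r * incl ι s) = C n r * s) ∧
    ∀ r, ∃ S0 : Finset ℤ, ∀ S, S0 ⊆ S → r = ∑ n ∈ S, o (t ^ n) * incl ι (C n r) := by
  classical
  have dec : ∀ g : G, ∃ q, g = t ^ (ψ g).toAdd * ι q := fun g => by
    obtain ⟨q, hq⟩ := (hψ (t ^ (-(ψ g).toAdd) * g)).1 (by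
      rw [map_mul, map_zpow, ht, ← ofAdd_zsmul]; simp)
    exact ⟨q, by rw [hq]; group⟩
  choose sec hsec using dec
  choose C hC using fun n : ℤ => lin_of (G := G)
    (fun g => if (ψ g).toAdd = n then o (sec g) else (0 : R ℤ Q))
  refine ⟨C, fun n r s => ?_, fun r => ?_⟩
  · induction r using MonoidAlgebra.induction_on with
    | of g =>
      induction s using MonoidAlgebra.induction_on with
      | of q =>
        change C n (o g * incl ι (o q)) = C n (o g) * o q
        have h1 : ψ (g * ι q) = ψ g := by rw [map_mul, (hψ _).2 ⟨q, rfl⟩, mul_one]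
        have h2 : sec (g * ι q) = sec g * q := hι (by
          have e := hsec (g * ι q)
          rw [h1] at e
          rw [map_mul, ← mul_right_inj (t ^ (ψ g).toAdd), ← e, ← mul_assoc, ← hsec])
        rw [incl_o, ← o_mul, hC, hC, h1, h2]
        split_ifs
        · exact o_mul _ _
        · rw [zero_mul]
      | add a b ha hb => rw [map_add, mul_add, map_add, ha, hb, mul_add]
      | smul c a ha => rw [map_smul, mul_smul_comm, map_smul, ha, mul_smul_comm]
    | add a b ha hb => rw [add_mul, map_add, ha, hb, map_add, add_mul]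
    | smul c a ha => rw [smul_mul_assoc, map_smul, ha, map_smul, smul_mul_assoc]
  · induction r using MonoidAlgebra.induction_on with
    | of g =>
      refine ⟨{(ψ g).toAdd}, fun S hS => ?_⟩
      change o g = ∑ n ∈ S, o (t ^ n) * incl ι (C n (o g))
      rw [Finset.sum_eq_single_of_mem (ψ g).toAdd (hS (Finset.mem_singleton_self _))]
      · rw [hC, if_pos rfl, incl_o, ← o_mul, ← hsec]
      · intro n _ hn; rw [hC, if_neg hn.symm, map_zero, mul_zero]
    | add a b ha hb =>
      obtain ⟨S1, h1⟩ := ha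
      obtain ⟨S2, h2⟩ := hb
      refine ⟨S1 ∪ S2, fun S hS => ?_⟩
      simp only [map_add, mul_add, Finset.sum_add_distrib]
      rw [← h1 S (Finset.union_subset_left hS), ← h2 S (Finset.union_subset_right hS)]
    | smul c a ha =>
      obtain ⟨S1, h1⟩ := ha
      refine ⟨S1, fun S hS => ?_⟩
      simp only [map_smul, mul_smul_comm, ← Finset.smul_sum]
      rw [← h1 S hS]

theorem cmpR : ∃ C : ℤ → R ℤ G →ₗ[ℤ] R ℤ Q, (∀ n r s, C n (incl ι s * r) = s * C n r) ∧
    ∀ r, ∃ S0 : Finset ℤ, ∀ S, S0 ⊆ S → r = ∑ n ∈ S, incl ι (C n r) * o (t ^ n) := by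
  classical
  have dec : ∀ g : G, ∃ q, g = ι q * t ^ (ψ g).toAdd := fun g => by
    obtain ⟨q, hq⟩ := (hψ (g * t ^ (-(ψ g).toAdd))).1 (by
      rw [map_mul, map_zpow, ht, ← ofAdd_zsmul]; simp)
    exact ⟨q, by rw [hq]; group⟩
  choose sec hsec using dec
  choose C hC using fun n : ℤ => lin_of (G := G)
    (fun g => if (ψ g).toAdd = n then o (sec g) else (0 : R ℤ Q))
  refine ⟨C, fun n r s => ?_, fun r => ?_⟩
  · induction r using MonoidAlgebra.induction_on with
    | of g =>
      induction s using MonoidAlgebra.induction_on with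
      | of q =>
        change C n (incl ι (o q) * o g) = o q * C n (o g)
        have h1 : ψ (ι q * g) = ψ g := by rw [map_mul, (hψ _).2 ⟨q, rfl⟩, one_mul]
        have h2 : sec (ι q * g) = q * sec g := hι (by
          have e := hsec (ι q * g)
          rw [h1] at e
          rw [map_mul, ← mul_left_inj (t ^ (ψ g).toAdd), ← e, mul_assoc, ← hsec])
        rw [incl_o, ← o_mul, hC, hC, h1, h2]
        split_ifs
        · exact o_mul _ _
        · rw [mul_zero]
      | add a b ha hb => rw [map_add, add_mul, map_add, ha, hb, add_mul]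
      | smul c a ha => rw [map_smul, smul_mul_assoc, map_smul, ha, smul_mul_assoc]
    | add a b ha hb => rw [mul_add, map_add, ha, hb, map_add, mul_add]
    | smul c a ha => rw [mul_smul_comm, map_smul, ha, map_smul, mul_smul_comm]
  · induction r using MonoidAlgebra.induction_on with
    | of g =>
      refine ⟨{(ψ g).toAdd}, fun S hS => ?_⟩
      change o g = ∑ n ∈ S, incl ι (C n (o g)) * o (t ^ n)
      rw [Finset.sum_eq_single_of_mem (ψ g).toAdd (hS (Finset.mem_singleton_self _))]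
      · rw [hC, if_pos rfl, incl_o, ← o_mul, ← hsec]
      · intro n _ hn; rw [hC, if_neg hn.symm, map_zero, zero_mul]
    | add a b ha hb =>
      obtain ⟨S1, h1⟩ := ha
      obtain ⟨S2, h2⟩ := hb
      refine ⟨S1 ∪ S2, fun S hS => ?_⟩
      simp only [map_add, add_mul, Finset.sum_add_distrib]
      rw [← h1 S (Finset.union_subset_left hS), ← h2 S (Finset.union_subset_right hS)]
    | smul c a ha =>
      obtain ⟨S1, h1⟩ := ha
      refine ⟨S1, fun S hS => ?_⟩
      simp only [map_smul, smul_mul_assoc, ← Finset.smul_sum]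
      rw [← h1 S hS]

variable {g : ℕ} (d : Data2 Q (Fin g))

theorem bc_e1 (v : Fin g → R ℤ G) (hv : ∑ i, v i * incl ι (d.a i) = 0) :
    ∃ u, ∀ i, v i = u * incl ι (d.b i) := by
  classical
  obtain ⟨C, h1, h2⟩ := cmpL ι hι ψ hψ t ht
  choose u hu using fun n => d.ex1 (fun i => C n (v i)) (by
    simpa only [map_sum, h1, map_zero] using congrArg (C n) hv)
  choose S hS using fun i => h2 (v i)
  refine ⟨∑ n ∈ Finset.univ.biUnion S, o (t ^ n) * incl ι (u n), fun i => ?_⟩
  rw [hS i _ (Finset.subset_biUnion_of_mem S (Finset.mem_univ i)), Finset.sum_mul]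
  simp only [hu, map_mul, mul_assoc]

theorem bc_e2 (u : R ℤ G) (hu : ∀ i, u * incl ι (d.b i) = 0) : u = 0 := by
  obtain ⟨C, h1, h2⟩ := cmpL ι hι ψ hψ t ht
  obtain ⟨S, hS⟩ := h2 u
  rw [hS S subset_rfl]
  refine Finset.sum_eq_zero fun n _ => ?_
  rw [d.ex2 (C n u) fun i => by rw [← h1, hu, map_zero], map_zero, mul_zero]

theorem bc_f0 (u : R ℤ G) (hu : ∀ i, incl ι (d.a i) * u = 0) : u = 0 := by
  obtain ⟨C, h1, h2⟩ := cmpR ι hι ψ hψ t ht
  obtain ⟨S, hS⟩ := h2 u
  rw [hS S subset_rfl]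
  refine Finset.sum_eq_zero fun n _ => ?_
  rw [d.co0 (C n u) fun i => by rw [← h1, hu, map_zero], map_zero, zero_mul]

theorem bc_f1 (v : Fin g → R ℤ G) (hv : ∑ i, incl ι (d.b i) * v i = 0) :
    ∃ u, ∀ i, v i = incl ι (d.a i) * u := by
  classical
  obtain ⟨C, h1, h2⟩ := cmpR ι hι ψ hψ t ht
  choose u hu using fun n => d.co1 (fun i => C n (v i)) (by
    simpa only [map_sum, h1, map_zero] using congrArg (C n) hv)
  choose S hS using fun i => h2 (v i)
  refine ⟨∑ n ∈ Finset.univ.biUnion S, incl ι (u n) * o (t ^ n), fun i => ?_⟩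
  rw [hS i _ (Finset.subset_biUnion_of_mem S (Finset.mem_univ i)), Finset.mul_sum]
  simp only [hu, map_mul, mul_assoc]

end semi

end Pool.Agent.H74.PD
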