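import Mathlib
import Pool.Agent.H74.Semi

set_option autoImplicit false

namespace Pool.Agent.H74.PD

open Pool.Agent.H71.PD3

variable {Q G : Type} [Group Q] [Group G] {g : ℕ}

theorem lift_aut (d : Data2 Q (Fin g)) (α : Q ≃* Q) :
    ∃ (Φ : Fin g → Fin g → R ℤ Q) (φ : R ℤ Q),
      (∀ i, MonoidAlgebra.domCongr ℤ ℤ α (d.a i) = ∑ j, Φ i j * d.a j) ∧
      ∀ j, ∑ i, MonoidAlgebra.domCongr ℤ ℤ α (d.b i) * Φ i j = φ * d.b j := by
  choose Φ hΦ using fun i => d.ex0 _ ((ag_dom α (d.a i)).trans (d.ha i))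
  obtain ⟨φ, hφ⟩ := d.ex1 (fun j => ∑ i, MonoidAlgebra.domCongr ℤ ℤ α (d.b i) * Φ i j) (by
    simp only [Finset.sum_mul, mul_assoc]
    rw [Finset.sum_comm]
    simp only [← Finset.mul_sum, ← hΦ, ← map_mul, ← map_sum, d.hba, map_zero])
  exact ⟨Φ, φ, hΦ, hφ⟩

theorem lift_unit (d : Data2 Q (Fin g)) (χ : Q →* ℤ) (hη : d.η = (tw χ).toLinearMap) (α : Q ≃* Q)
    (Φ : Fin g → Fin g → R ℤ Q) (φ : R ℤ Q)
    (h1 : ∀ i, MonoidAlgebra.domCongr ℤ ℤ α (d.a i) = ∑ j, Φ i j * d.a j)
    (h2 : ∀ j, ∑ i, MonoidAlgebra.domCongr ℤ ℤ α (d.b i) * Φ i j = φ * d.b j) :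
    tw χ φ * tw χ φ = 1 := by
  classical
  obtain ⟨Φ', φ', k1, k2⟩ := lift_aut d α.symm
  set A := MonoidAlgebra.domCongr ℤ ℤ α with hA
  have hAA : ∀ r, A (MonoidAlgebra.domCongr ℤ ℤ α.symm r) = r := fun r =>
    A.apply_symm_apply r
  have e1 : ∀ i, ∑ k, ((∑ j, A (Φ' i j) * Φ j k) - if i = k then 1 else 0) * d.a k = 0 := fun i => by
    simp only [sub_mul, Finset.sum_sub_distrib, Finset.sum_mul, mul_assoc]
    rw [Finset.sum_comm]
    simp only [← Finset.mul_sum, ← h1, ← map_mul, ← map_sum, ← k1, hAA]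
    simp
  choose s hs using fun i => d.ex1 _ (e1 i)
  have e2 : A φ' * φ - (1 + ∑ i, d.b i * s i) = 0 := d.ex2 _ fun k => by
    have p1 : ∑ i, d.b i * ∑ j, A (Φ' i j) * Φ j k = A φ' * φ * d.b k := by
      simp only [Finset.mul_sum, ← mul_assoc]
      rw [Finset.sum_comm]
      have : ∀ j, ∑ i, d.b i * A (Φ' i j) * Φ j k = A φ' * (A (d.b j) * Φ j k) := fun j => by
        rw [← Finset.sum_mul, ← mul_assoc, ← map_mul, ← k2, map_sum]
        simp only [map_mul, hAA]
      simp only [this]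
      rw [← Finset.mul_sum, h2, mul_assoc]
    have p2 : ∀ i, ∑ j, A (Φ' i j) * Φ j k = s i * d.b k + if i = k then 1 else 0 := fun i => by
      rw [← hs i k, sub_add_cancel]
    rw [sub_mul, ← p1]
    simp only [p2, mul_add, Finset.sum_add_distrib, add_mul, one_mul, Finset.sum_mul, mul_assoc]
    simp [add_comm]
  have e3 : tw χ (∑ i, d.b i * s i) = 0 := by
    have := (d.co2 _).2 ⟨s, rfl⟩
    rwa [hη] at this
  have e4 := congrArg (tw χ) (sub_eq_zero.1 e2)
  rw [map_mul, map_add, map_one, e3, add_zero, mul_comm] at e4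
  rcases Int.eq_one_or_neg_one_of_mul_eq_one e4 with h | h <;> rw [h] <;> norm_num

/-- left ideal generated by a finite family -/
def LI (a : Fin g → R ℤ G) : AddSubgroup (R ℤ G) where
  carrier := {r | ∃ v : Fin g → R ℤ G, r = ∑ i, v i * a i}
  add_mem' := by
    rintro _ _ ⟨a, rfl⟩ ⟨a', rfl⟩
    exact ⟨a + a', by simp [add_mul, Finset.sum_add_distrib]⟩
  zero_mem' := ⟨0, by simp⟩
  neg_mem' := by
    rintro _ ⟨a, rfl⟩
    exact ⟨-a, by simp⟩

theorem ker_sec {M : Type} [AddCommGroup M] (J : AddSubgroup (R ℤ G)) (E : R ℤ G →ₗ[ℤ] M)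
    (σ : M →ₗ[ℤ] R ℤ G) (h : ∀ x, o x - σ (E (o x)) ∈ J) (r : R ℤ G) (hr : E r = 0) : r ∈ J := by
  have : r - σ (E r) ∈ J := by
    clear hr
    induction r using MonoidAlgebra.induction_on with
    | of x => exact h x
    | add a b ha hb =>
      rw [map_add, map_add, add_sub_add_comm]
      exact add_mem ha hb
    | smul c a ha =>
      rw [map_smul, map_smul, ← smul_sub]
      exact zsmul_mem ha c
  rwa [hr, map_zero, sub_zero] at this

theorem ofAdd_ord (n : ℕ) (h : (Multiplicative.ofAdd (1 : ℤ)) ^ n = 1) : n = 0 := by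
  simpa using congrArg Multiplicative.toAdd h

theorem ag_incl (ι : Q →* G) (r : R ℤ Q) : ag G (incl ι r) = ag Q r := by
  induction r using MonoidAlgebra.induction_on with
  | of q => change ag G (incl ι (o q)) = ag Q (o q); rw [incl_o, ag_o, ag_o]
  | add a b ha hb => rw [map_add, map_add, map_add, ha, hb]
  | smul c a ha => rw [map_smul, map_smul, map_smul, ha]

theorem semi (ι : Q →* G) (hι : Function.Injective ι) (ψ : G →* Multiplicative ℤ)
    (hψ : ∀ g, ψ g = 1 ↔ g ∈ ι.range) (t : G) (ht : ψ t = Multiplicative.ofAdd 1)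
    (d : Data2 Q (Fin g)) (α : Q ≃* Q) (hα : ∀ q, ι q * t = t * ι (α q))
    (χ : Q →* ℤ) (hη : d.η = (tw χ).toLinearMap) (χ0 : G →* ℤ) (h0 : ∀ q, χ0 (ι q) = χ q) :
    ∃ (D : Data3 G (Fin (g + 1))) (χG : G →* ℤ), D.η = (tw χG).toLinearMap ∧
      ∀ q, χG (ι q) = χ q := by
  classical
  obtain ⟨Φ, φ, h1, h2⟩ := lift_aut d α
  have hε := lift_unit d χ hη α Φ φ h1 h2
  set ε := tw χ φ with hεd
  have hψι : ∀ q, ψ (ι q) = 1 := fun q => (hψ _).2 ⟨q, rfl⟩
  have ht0 : χ0 t * χ0 t = 1 := by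
    have : χ0 t * χ0 t⁻¹ = 1 := by rw [← map_mul, mul_inv_cancel, map_one]
    rcases Int.eq_one_or_neg_one_of_mul_eq_one this with h | h <;> rw [h] <;> norm_num
  have hδ : ε * χ0 t * (ε * χ0 t) = 1 := by linear_combination (χ0 t * χ0 t) * hε + ht0
  let u : ℤˣ := ⟨ε * χ0 t, ε * χ0 t, hδ, hδ⟩
  let χG : G →* ℤ := χ0 * (Units.coeHom ℤ).comp ((zpowersHom ℤˣ u).comp ψ)
  have g1 : ∀ q, χG (ι q) = χ q := fun q => by simp [χG, hψι, h0]
  have g2 : χG t = ε := by
    simp only [χG, MonoidHom.mul_apply, MonoidHom.comp_apply, ht, zpowersHom_apply, toAdd_ofAdd,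
      zpow_one, Units.coeHom_apply, u]
    linear_combination ε * ht0
  have gsq : ∀ x, χG x * χG x = 1 := fun x => by
    have : χG x * χG x⁻¹ = 1 := by rw [← map_mul, mul_inv_cancel, map_one]
    rcases Int.eq_one_or_neg_one_of_mul_eq_one this with h | h <;> rw [h] <;> norm_num
  have hA : ∀ s, incl ι s * o t = o t * incl ι (MonoidAlgebra.domCongr ℤ ℤ α s) := fun s => by
    induction s using MonoidAlgebra.induction_on with
    | of q =>
      rw [MonoidAlgebra.of_apply, MonoidAlgebra.domCongr_single]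
      change incl ι (o q) * o t = o t * incl ι (o (α q))
      rw [incl_o, incl_o, ← o_mul, ← o_mul, hα]
    | add a b ha hb => rw [map_add, add_mul, ha, hb, map_add, map_add, mul_add]
    | smul c a ha => rw [map_smul, smul_mul_assoc, ha, map_smul, map_smul, mul_smul_comm]
  have decL : ∀ x : G, ∃ q, x = t ^ (ψ x).toAdd * ι q := fun x => by
    obtain ⟨q, hq⟩ := (hψ (t ^ (-(ψ x).toAdd) * x)).1 (by
      rw [map_mul, map_zpow, ht, ← ofAdd_zsmul]; simp)
    exact ⟨q, by rw [hq]; group⟩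
  have decR : ∀ x : G, ∃ q, x = ι q * t ^ (ψ x).toAdd := fun x => by
    obtain ⟨q, hq⟩ := (hψ (x * t ^ (-(ψ x).toAdd))).1 (by
      rw [map_mul, map_zpow, ht, ← ofAdd_zsmul]; simp)
    exact ⟨q, by rw [hq]; group⟩
  have gen : ∀ x : G, x ∈ Subgroup.closure (insert t (Set.range ι)) := fun x => by
    obtain ⟨q, hq⟩ := decL x
    rw [hq]
    exact mul_mem (zpow_mem (Subgroup.subset_closure (by simp)) _)
      (Subgroup.subset_closure (by simp))
  have E0i : ∀ s, incl ψ (incl ι s) = ag Q s • 1 := fun s => by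
    induction s using MonoidAlgebra.induction_on with
    | of q => change incl ψ (incl ι (o q)) = ag Q (o q) • 1; rw [incl_o, incl_o, hψι, ag_o, o_one, one_smul]
    | add a b ha hb => rw [map_add, map_add, map_add, ha, hb, add_smul]
    | smul c a ha => rw [map_smul, map_smul, map_smul, ha, smul_assoc]
  have kerL : ∀ r, incl ψ r = 0 → r ∈ LI fun i => incl ι (d.a i) := fun r hr => by
    obtain ⟨σ, hσ⟩ := lin_of (G := Multiplicative ℤ) (fun n => o (t ^ n.toAdd))
    refine ker_sec _ (incl ψ).toLinearMap σ (fun x => ?_) r hr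
    change o x - σ (incl ψ (o x)) ∈ _
    rw [incl_o, hσ]
    obtain ⟨q, hq⟩ := decL x
    obtain ⟨v, hv⟩ := d.ex0 _ (ag_gen q)
    refine ⟨fun i => o (t ^ (ψ x).toAdd) * incl ι (v i), ?_⟩
    simp only [mul_assoc, ← Finset.mul_sum, ← map_mul (incl ι), ← map_sum, ← hv]
    rw [map_sub, map_one, incl_o, mul_sub, mul_one, ← o_mul, ← hq]
  let E : R ℤ G →ₐ[ℤ] R ℤ (Multiplicative ℤ) := MonoidAlgebra.lift ℤ _ G
    { toFun := fun x => χG x • o (ψ x)
      map_one' := by rw [map_one, map_one, o_one, one_smul]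
      map_mul' := fun x y => by rw [smul_mul_smul_comm, ← o_mul, map_mul, map_mul] }
  have Eo : ∀ x, E (o x) = χG x • o (ψ x) := fun x => MonoidAlgebra.lift_of _ _
  have Ei : ∀ s, E (incl ι s) = tw χ s • 1 := fun s => by
    induction s using MonoidAlgebra.induction_on with
    | of q => change E (incl ι (o q)) = tw χ (o q) • 1; rw [incl_o, Eo, hψι, tw_o, o_one, g1]
    | add a b ha hb => rw [map_add, map_add, map_add, ha, hb, add_smul]
    | smul c a ha => rw [map_smul, map_smul, map_smul, ha, smul_assoc]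
  have twb : ∀ i, tw χ (d.b i) = 0 := fun i => by
    have := (d.co2 (d.b i)).2 ⟨Pi.single i 1, by simp [Pi.single_apply]⟩
    rwa [hη] at this
  have twq : ∀ q, ∃ v : Fin g → R ℤ Q, o q - χ q • 1 = ∑ i, d.b i * v i := fun q =>
    (d.co2 _).1 (by rw [hη]; change tw χ _ = 0; simp [tw_o, -MonoidAlgebra.of_apply])
  have kerE : ∀ r, E r = 0 → r ∈ RI fun i => incl ι (d.b i) := fun r hr => by
    obtain ⟨σ, hσ⟩ := lin_of (G := Multiplicative ℤ) (fun n => χG (t ^ n.toAdd) • o (t ^ n.toAdd))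
    refine ker_sec _ E.toLinearMap σ (fun x => ?_) r hr
    change o x - σ (E (o x)) ∈ _
    rw [Eo, map_smul, hσ]
    obtain ⟨q, hq⟩ := decR x
    obtain ⟨v, hv⟩ := twq q
    refine ⟨fun i => incl ι (v i) * o (t ^ (ψ x).toAdd), ?_⟩
    simp only [← mul_assoc, ← Finset.sum_mul, ← map_mul (incl ι), ← map_sum, ← hv]
    rw [map_sub, map_smul, map_one, incl_o, sub_mul, ← o_mul, ← hq, smul_mul_assoc, one_mul,
      smul_smul]
    congr 2
    conv_lhs => rw [hq, map_mul, g1, ← hq, mul_assoc, gsq, mul_one]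
  have Eφ : E (o t * incl ι φ) = o (Multiplicative.ofAdd 1) := by
    rw [map_mul, Eo, Ei, g2, ht, smul_mul_smul_comm, mul_one, hε, one_smul]
  have twi : ∀ s, tw χG (incl ι s) = tw χ s := fun s => by
    induction s using MonoidAlgebra.induction_on with
    | of q => change tw χG (incl ι (o q)) = tw χ (o q); rw [incl_o, tw_o, tw_o, g1]
    | add a b ha hb => rw [map_add, map_add, map_add, ha, hb]
    | smul c a ha => rw [map_smul, map_smul, map_smul, ha]
  refine ⟨cone3 (fun i => incl ι (d.a i)) (fun i => incl ι (d.b i))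
    (fun i j => o t * incl ι (Φ i j) - if i = j then 1 else 0) (o t - 1) (o t * incl ι φ - 1)
    (tw χG).toLinearMap (fun i => (ag_incl ι _).trans (d.ha i)) (ag_gen t) ?_ ?_ ?_ ?_ ?_
    (bc_e1 ι hι ψ hψ t ht d) (bc_e2 ι hι ψ hψ t ht d) (bc_f0 ι hι ψ hψ t ht d)
    (bc_f1 ι hι ψ hψ t ht d) ?_ (fun n => ⟨n, by simp⟩) ?_, χG, rfl, g1⟩
  · simp only [← map_mul, ← map_sum, d.hba, map_zero]
  · intro i
    simp only [sub_mul, Finset.sum_sub_distrib, mul_assoc, ← Finset.mul_sum, ← map_mul (incl ι),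
      ← map_sum, ← h1, ← hA, mul_sub, mul_one]
    simp
  · intro j
    simp only [mul_sub, Finset.sum_sub_distrib, ← mul_assoc, hA]
    simp only [mul_assoc, ← Finset.mul_sum, ← map_mul (incl ι), ← map_sum, h2, sub_mul, one_mul]
    simp
  · intro r hr
    have : r ∈ LI (Fin.cons (o t - 1) fun i => incl ι (d.a i) : Fin (g + 1) → R ℤ G) := by
      refine ker_ag _ (fun x => ?_) r hr
      have mulL : ∀ (s r : R ℤ G), r ∈ LI (Fin.cons (o t - 1) fun i => incl ι (d.a i) :
          Fin (g + 1) → R ℤ G) → s * r ∈ LI (Fin.cons (o t - 1) fun i => incl ι (d.a i) :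
          Fin (g + 1) → R ℤ G) := by
        rintro s _ ⟨v, rfl⟩
        exact ⟨fun i => s * v i, by simp only [Finset.mul_sum, mul_assoc]⟩
      induction gen x using Subgroup.closure_induction with
      | mem x hx =>
        rcases hx with rfl | ⟨q, rfl⟩
        · exact ⟨Fin.cons 1 0, by simp [Fin.sum_univ_succ, -MonoidAlgebra.of_apply]⟩
        · obtain ⟨v, hv⟩ := d.ex0 _ (ag_gen q)
          refine ⟨Fin.cons 0 fun i => incl ι (v i), ?_⟩
          simp only [Fin.sum_univ_succ, Fin.cons_zero, Fin.cons_succ, zero_mul, zero_add,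
            ← map_mul, ← map_sum, ← hv]
          rw [map_sub, map_one, incl_o]
      | one => rw [o_one, sub_self]; exact zero_mem _
      | mul x y _ _ hx hy =>
        have := add_mem (mulL (o x) _ hy) hx
        rwa [mul_sub, mul_one, sub_add_sub_cancel, ← o_mul] at this
      | inv x _ hx =>
        have := neg_mem (mulL (o x⁻¹) _ hx)
        rwa [mul_sub, mul_one, o_inv_mul, neg_sub] at this
    obtain ⟨v, hv⟩ := this
    exact ⟨v 0, fun i => v i.succ, by
      simpa only [Fin.sum_univ_succ, Fin.cons_zero, Fin.cons_succ] using hv⟩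
  · intro c v hv
    refine kerL c (cancelL ofAdd_ord ?_)
    have := congrArg (incl ψ) hv
    simpa only [map_add, map_mul, map_sub, map_sum, map_one, incl_o, ht, E0i, d.ha, zero_smul,
      mul_zero, Finset.sum_const_zero, add_zero, map_zero] using this
  · intro c v hv
    refine kerE c (cancelR ofAdd_ord ?_)
    have := congrArg E hv
    rw [map_add, map_mul, map_sub, Eφ] at this
    simpa only [map_mul, map_sum, map_one, Ei, twb, zero_smul,
      zero_mul, Finset.sum_const_zero, add_zero, map_zero] using this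
  · intro r
    constructor
    · intro hr
      have : r ∈ RI (Fin.cons (o t * incl ι φ - 1) fun i => incl ι (d.b i) :
          Fin (g + 1) → R ℤ G) := by
        refine ker_tw χG _ (RI_mul _) _ gen ?_ r hr
        rintro x (rfl | ⟨q, rfl⟩)
        · obtain ⟨v, hv⟩ := kerE (o x * incl ι φ - ε • o x) (by
            rw [map_sub, Eφ, map_smul, Eo, g2, smul_smul, hε, one_smul, ht, sub_self])
          refine ⟨Fin.cons (ε • 1) fun i => -(ε • v i), ?_⟩
          simp only [Fin.sum_univ_succ, Fin.cons_zero, Fin.cons_succ, mul_neg, mul_smul_comm,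
            Finset.sum_neg_distrib, ← Finset.smul_sum, ← hv, g2, mul_one, smul_sub, smul_smul, hε,
            one_smul]
          abel
        · obtain ⟨v, hv⟩ := twq q
          refine ⟨Fin.cons 0 fun i => incl ι (v i), ?_⟩
          simp only [Fin.sum_univ_succ, Fin.cons_zero, Fin.cons_succ, mul_zero, zero_add,
            ← map_mul (incl ι), ← map_sum, ← hv]
          rw [map_sub, map_smul, map_one, incl_o, g1]
      obtain ⟨v, hv⟩ := this
      exact ⟨v 0, fun i => v i.succ, by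
        simpa only [Fin.sum_univ_succ, Fin.cons_zero, Fin.cons_succ] using hv⟩
    · rintro ⟨c, v, rfl⟩
      change tw χG _ = 0
      simp only [map_add, map_mul, map_sub, map_sum, map_one, tw_o, twi, twb, g2, ← hεd, hε,
        sub_self, zero_mul, Finset.sum_const_zero, add_zero]

end Pool.Agent.H74.PD
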