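import Mathlib
import Pool.Agent.H74.Semi2

set_option autoImplicit false
set_option backward.isDefEq.respectTransparency false

namespace Pool.Agent.H74.PD

open Pool.Agent.H71.PD3 Matrix CategoryTheory

variable {G : Type} [Group G] {g : ℕ}

/-- the right ideal generated by the augmentation ideal of a subgroup -/
noncomputable def JH (H : Subgroup G) : AddSubgroup (R ℤ G) :=
  AddSubgroup.closure {x | ∃ k ∈ H, ∃ r, x = (o k - 1) * r}

theorem JH_mul (H : Subgroup G) {r : R ℤ G} (hr : r ∈ JH H) (s : R ℤ G) : r * s ∈ JH H := by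
  induction hr using AddSubgroup.closure_induction with
  | mem x hx =>
    obtain ⟨k, hk, r, rfl⟩ := hx
    exact AddSubgroup.subset_closure ⟨k, hk, r * s, mul_assoc _ _ _⟩
  | zero => rw [zero_mul]; exact zero_mem _
  | add a b _ _ ha hb => rw [add_mul]; exact add_mem ha hb
  | neg a _ ha => rw [neg_mul]; exact neg_mem ha

abbrev RC (H : Subgroup G) : Type := Quotient (QuotientGroup.rightRel H)

def RC.act (H : Subgroup G) (x : G) : RC H → RC H :=
  Quotient.map (· * x) fun a b h => by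
    have h1 := QuotientGroup.rightRel_apply.1 h
    exact QuotientGroup.rightRel_apply.2 (by simpa [mul_assoc] using h1)

theorem RC.act_inj (H : Subgroup G) (x : G) : Function.Injective (RC.act H x) := by
  intro a b
  induction a using Quotient.inductionOn with | h a =>
  induction b using Quotient.inductionOn with | h b =>
  intro h
  have h1 := QuotientGroup.rightRel_apply.1 (Quotient.exact h)
  exact Quotient.sound (QuotientGroup.rightRel_apply.2 (by simpa [mul_assoc] using h1))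

theorem coset_proj (H : Subgroup G) : ∃ P : R ℤ G →ₗ[ℤ] (RC H →₀ ℤ),
    (∀ r, P r = 0 ↔ r ∈ JH H) ∧
    ∀ r x X, P (r * o x) (RC.act H x X) = P r X := by
  obtain ⟨P, hP⟩ := lin_of (G := G) fun x => Finsupp.single (Quotient.mk _ x : RC H) (1 : ℤ)
  refine ⟨P, fun r => ⟨fun hr => ?_, fun hr => ?_⟩, fun r x X => ?_⟩
  · refine ker_sec _ P (Finsupp.linearCombination ℤ fun X : RC H => o X.out) (fun x => ?_) r hr
    rw [hP, Finsupp.linearCombination_single, one_smul]
    have h1 := QuotientGroup.rightRel_apply.1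
      (Quotient.exact (Quotient.out_eq (Quotient.mk _ x : RC H)))
    refine AddSubgroup.subset_closure ⟨_, h1, o (Quotient.mk _ x : RC H).out, ?_⟩
    rw [sub_mul, one_mul, ← o_mul, inv_mul_cancel_right]
  · induction hr using AddSubgroup.closure_induction with
    | mem x hx =>
      obtain ⟨k, hk, r, rfl⟩ := hx
      induction r using MonoidAlgebra.induction_on with
      | of y =>
        change P ((o k - 1) * o y) = 0
        rw [sub_mul, one_mul, ← o_mul, map_sub, hP, hP, sub_eq_zero]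
        congr 1
        exact Quotient.sound (QuotientGroup.rightRel_apply.2 (by simpa using hk))
      | add a b ha hb => rw [mul_add, map_add, ha, hb, add_zero]
      | smul c a ha => rw [mul_smul_comm, map_smul, ha, smul_zero]
    | zero => exact map_zero _
    | add a b _ _ ha hb => rw [map_add, ha, hb, add_zero]
    | neg a _ ha => rw [map_neg, ha, neg_zero]
  · classical
    induction r using MonoidAlgebra.induction_on with
    | of y =>
      change P (o y * o x) _ = P (o y) X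
      rw [← o_mul, hP, hP, Finsupp.single_apply, Finsupp.single_apply]
      have : (Quotient.mk _ (y * x) : RC H) = RC.act H x (Quotient.mk _ y) := rfl
      simp only [this, (RC.act_inj H x).eq_iff]
    | add a b ha hb => rw [add_mul, map_add, map_add, Finsupp.add_apply, Finsupp.add_apply, ha, hb]
    | smul c a ha =>
      rw [smul_mul_assoc, map_smul, map_smul, Finsupp.smul_apply, Finsupp.smul_apply, ha]

theorem tw_inv (H : Subgroup G) (χ : G →* ℤ) {x0 : G} (hx : x0 ∈ H) (h1 : χ x0 = -1) {u : R ℤ G}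
    (hu : ∀ x, u * (o x - χ x • 1) ∈ JH H) : u ∈ JH H := by
  obtain ⟨P, p1, p2⟩ := coset_proj H
  rw [← p1]
  ext X
  induction X using Quotient.inductionOn with | h y =>
  have e1 := (p1 _).2 (hu (y⁻¹ * x0 * y))
  have e2 : χ (y⁻¹ * x0 * y) = -1 := by
    rw [map_mul, map_mul, h1, mul_right_comm, ← map_mul, inv_mul_cancel, map_one, one_mul]
  have e3 : RC.act H (y⁻¹ * x0 * y) (Quotient.mk _ y) = Quotient.mk _ y :=
    Quotient.sound (QuotientGroup.rightRel_apply.2 (by simpa [mul_assoc] using hx))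
  have e4 := p2 u (y⁻¹ * x0 * y) (Quotient.mk _ y)
  rw [e3] at e4
  rw [e2, mul_sub, mul_smul_comm, mul_one, map_sub, map_smul] at e1
  have e5 := DFunLike.congr_fun e1 (Quotient.mk _ y)
  simp only [Finsupp.sub_apply, e4, Finsupp.smul_apply, smul_eq_mul, Finsupp.zero_apply] at e5 ⊢
  omega

theorem cancel_central (H : Subgroup G) {h : G} (hc : ∀ x, h * x = x * h)
    (hH : ∀ n : ℤ, h ^ n ∈ H → n = 0) {u : R ℤ G} (hu : u * (o h - 1) ∈ JH H) : u ∈ JH H := by
  obtain ⟨P, p1, p2⟩ := coset_proj H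
  rw [← p1]
  have e1 := (p1 _).2 hu
  rw [mul_sub, mul_one, map_sub, sub_eq_zero] at e1
  ext X
  induction X using Quotient.inductionOn with | h y =>
  by_contra hne
  have e2 : ∀ n : ℕ, P u (Quotient.mk _ (y * h ^ n)) = P u (Quotient.mk _ y) := fun n => by
    induction n with
    | zero => simp
    | succ n ih =>
      rw [← ih, ← p2 u h (Quotient.mk _ (y * h ^ n)), e1, pow_succ, ← mul_assoc]; rfl
  have hinj : Function.Injective fun n : ℕ => (Quotient.mk _ (y * h ^ n) : RC H) := fun n m e => by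
    have h1 := QuotientGroup.rightRel_apply.1 (Quotient.exact e)
    have h2 : y * h ^ m * (y * h ^ n)⁻¹ = h ^ ((m : ℤ) - n) := by
      have : Commute (h ^ ((m : ℤ) - n)) y := (Commute.zpow_left (hc y) _)
      rw [← mul_left_inj y, this.eq]; group
    rw [h2] at h1
    have := hH _ h1
    omega
  refine Set.infinite_range_of_injective hinj ((P u).support.finite_toSet.subset ?_)
  rintro _ ⟨n, rfl⟩
  rw [Finset.mem_coe, Finsupp.mem_support_iff, e2]
  exact hne

theorem o_central {h : G} (hc : ∀ x, h * x = x * h) (r : R ℤ G) : o h * r = r * o h := by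
  induction r using MonoidAlgebra.induction_on with
  | of y => change o h * o y = o y * o h; rw [← o_mul, ← o_mul, hc]
  | add a b ha hb => rw [mul_add, add_mul, ha, hb]
  | smul c a ha => rw [mul_smul_comm, smul_mul_assoc, ha]

theorem JH_sup (H : Subgroup G) {h : G} (hc : ∀ x, h * x = x * h) {u : R ℤ G}
    (hu : u ∈ JH (H ⊔ Subgroup.zpowers h)) : ∃ c, u - c * (o h - 1) ∈ JH H := by
  have hw : ∀ r, (o h - 1) * r = r * (o h - 1) := fun r => by
    rw [sub_mul, mul_sub, o_central hc, one_mul, mul_one]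
  have key : ∀ k ∈ H ⊔ Subgroup.zpowers h, ∃ c, o k - 1 - c * (o h - 1) ∈ JH H := fun k hk => by
    rw [Subgroup.zpowers_eq_closure, ← Subgroup.closure_eq H, ← Subgroup.closure_union] at hk
    induction hk using Subgroup.closure_induction with
    | mem x hx =>
      rcases hx with hx | rfl
      · exact ⟨0, AddSubgroup.subset_closure ⟨x, hx, 1, by simp⟩⟩
      · exact ⟨1, by simp⟩
    | one => exact ⟨0, by rw [o_one, sub_self, zero_mul, sub_zero]; exact zero_mem _⟩
    | mul x y _ _ hx hy =>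
      obtain ⟨c, hx⟩ := hx
      obtain ⟨c', hy⟩ := hy
      refine ⟨c * o y + c', ?_⟩
      convert add_mem (JH_mul H hx (o y)) hy using 1
      rw [o_mul]
      linear_combination (norm := noncomm_ring) c * hw (o y)
    | inv x _ hx =>
      obtain ⟨c, hx⟩ := hx
      refine ⟨-(c * o x⁻¹), ?_⟩
      convert neg_mem (JH_mul H hx (o x⁻¹)) using 1
      linear_combination (norm := noncomm_ring) o_mul_inv x - c * hw (o x⁻¹)
  induction hu using AddSubgroup.closure_induction with
  | mem x hx =>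
    obtain ⟨k, hk, r, rfl⟩ := hx
    obtain ⟨c, hc'⟩ := key k hk
    refine ⟨c * r, ?_⟩
    convert JH_mul H hc' r using 1
    linear_combination (norm := noncomm_ring) c * hw r
  | zero => exact ⟨0, by simp⟩
  | add a b _ _ ha hb =>
    obtain ⟨c, ha⟩ := ha
    obtain ⟨c', hb⟩ := hb
    refine ⟨c + c', ?_⟩
    convert add_mem ha hb using 1
    noncomm_ring
  | neg a _ ha =>
    obtain ⟨c, ha⟩ := ha
    refine ⟨-c, ?_⟩
    convert neg_mem ha using 1
    noncomm_ring

theorem JH_mono {H K : Subgroup G} (h : H ≤ K) : JH H ≤ JH K :=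
  AddSubgroup.closure_mono fun _ ⟨k, hk, r, e⟩ => ⟨k, h hk, r, e⟩

theorem core (d : Data3 G (Fin g)) (χ : G →* ℤ) (hη : d.η = (tw χ).toLinearMap) (H : Subgroup G)
    {h : G} (hc : ∀ x, h * x = x * h) (hH : ∀ n : ℤ, h ^ n ∈ H → n = 0) {x0 : G} (hx : x0 ∈ H)
    (h1 : χ x0 = -1) (v : Fin g → R ℤ G) (hv : ∀ j, ∑ i, v i * d.M i j ∈ JH H) :
    ∃ u, ∀ i, v i - u * d.b i ∈ JH H := by
  classical
  have hw : ∀ r, (o h - 1) * r = r * (o h - 1) := fun r => by
    rw [sub_mul, mul_sub, o_central hc, one_mul, mul_one]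
  obtain ⟨s, hs⟩ := d.ex0 _ (ag_gen h)
  have s1 : ∀ i, ∑ j, ((if i = j then o h - 1 else 0) - d.a i * s j) * d.a j = 0 := fun i => by
    simp only [sub_mul (_ : R ℤ G) (d.a i * _), Finset.sum_sub_distrib, mul_assoc, ← Finset.mul_sum,
      ← hs, ite_mul, zero_mul, Finset.sum_ite_eq, Finset.mem_univ, if_true, hw, sub_self]
  choose S hS using fun i => d.ex1 _ (s1 i)
  have s2 : ∀ i j, ∑ l, ((if i = l then o h - 1 else 0) - ∑ k, d.M i k * S k l) * d.M l j = 0 :=
    fun i j => by
    simp only [sub_mul (_ : R ℤ G) (∑ k, d.M i k * S k _), Finset.sum_sub_distrib, Finset.sum_mul,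
      mul_assoc, ite_mul, zero_mul, Finset.sum_ite_eq, Finset.mem_univ, if_true]
    rw [Finset.sum_comm]
    simp only [← Finset.mul_sum, ← hS]
    simp only [mul_sub _ _ (d.a _ * s j), Finset.sum_sub_distrib, ← mul_assoc,
      ← Finset.sum_mul, d.hMa, zero_mul, sub_zero, mul_ite, mul_zero, Finset.sum_ite_eq',
      Finset.mem_univ, if_true, hw, sub_self]
  choose σ hσ using fun i => d.ex2 _ (s2 i)
  have s3 : ∀ l, v l * (o h - 1) - (∑ i, v i * σ i) * d.b l ∈ JH H := fun l => by
    have : v l * (o h - 1) - (∑ i, v i * σ i) * d.b l = ∑ k, (∑ i, v i * d.M i k) * S k l := by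
      simp only [Finset.sum_mul, mul_assoc, ← hσ, mul_sub (v _) _ (∑ k, d.M _ k * S k l),
        Finset.sum_sub_distrib, mul_ite, mul_zero, Finset.sum_ite_eq', Finset.mem_univ, if_true,
        Finset.mul_sum, sub_sub_cancel]
      exact Finset.sum_comm
    rw [this]
    exact sum_mem fun k _ => JH_mul H (hv k) _
  set u := ∑ i, v i * σ i
  have s4 : u ∈ JH (H ⊔ Subgroup.zpowers h) := by
    refine tw_inv _ χ (Subgroup.mem_sup_left hx) h1 fun x => ?_
    obtain ⟨c, hc'⟩ := (d.co3 (o x - χ x • 1)).1 (by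
      rw [hη]; change tw χ _ = 0; simp [tw_o, -MonoidAlgebra.of_apply])
    rw [hc', Finset.mul_sum]
    refine sum_mem fun l _ => ?_
    rw [← mul_assoc]
    refine JH_mul _ ?_ _
    have p1 := JH_mono (le_sup_left : H ≤ H ⊔ Subgroup.zpowers h) (s3 l)
    have p2 : v l * (o h - 1) ∈ JH (H ⊔ Subgroup.zpowers h) := AddSubgroup.subset_closure
      ⟨h, Subgroup.mem_sup_right (Subgroup.mem_zpowers h), v l, (hw _).symm⟩
    simpa using sub_mem p2 p1
  obtain ⟨c, hc'⟩ := JH_sup H hc s4
  refine ⟨c, fun l => cancel_central H hc hH ?_⟩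
  convert add_mem (s3 l) (JH_mul H hc' (d.b l)) using 1
  linear_combination (norm := noncomm_ring) c * hw (d.b l)

theorem D3h4 (d : Data3 G (Fin g)) : ∀ i, LinearMap.range (D3' d (i + 1)).vecMulLinear =
    LinearMap.ker (D3' d i).vecMulLinear
  | 0 => rk_cM d.a d.M d.hMa d.ex1
  | 1 => rk_Mr d.b d.M d.hbM d.ex2
  | 2 => rk_0r d.b d.ex3
  | _ + 3 => rk_00 _ _

/-- the restriction of a free module to a subgroup -/
noncomputable abbrev FR (H : Subgroup G) (n : ℕ) : Rep ℤ H := Rep.res H.subtype (F ℤ G n)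

theorem ker_iff (H : Subgroup G) (n : ℕ) (v : Fin n → R ℤ G) :
    Rep.coinvariantsTensorMk (Rep.trivial ℤ H ℤ) (FR H n) (1 : ℤ) v = 0 ↔ ∀ i, v i ∈ JH H := by
  constructor
  · intro h i
    have h1 : (1 : ℤ) ⊗ₜ[ℤ] v ∈ Representation.Coinvariants.ker
      ((Rep.trivial ℤ H ℤ).ρ.tprod (FR H n).ρ) := (Representation.Coinvariants.mk_eq_zero _).1 h
    have key : ∀ x ∈ Representation.Coinvariants.ker ((Rep.trivial ℤ H ℤ).ρ.tprod (FR H n).ρ),
        (TensorProduct.lid ℤ (Fin n → R ℤ G) x) i ∈ JH H := fun x hx => by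
      induction hx using Submodule.span_induction with
      | mem x hx =>
        obtain ⟨⟨k, y⟩, rfl⟩ := hx
        obtain ⟨w, rfl⟩ := (TensorProduct.lid ℤ (Fin n → R ℤ G)).symm.surjective y
        refine AddSubgroup.subset_closure ⟨k, k.2, w i, ?_⟩
        change (TensorProduct.lid ℤ (Fin n → R ℤ G) ((1 : ℤ) ⊗ₜ[ℤ] ((F ℤ G n).ρ (k : G) w) -
          (1 : ℤ) ⊗ₜ[ℤ] w)) i = _
        rw [F_ρ]
        simp [sub_mul]
      | zero => simp
      | add a b _ _ ha hb => rw [map_add]; exact add_mem ha hb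
      | smul c a _ ha => rw [map_smul]; exact zsmul_mem ha c
    simpa using key _ h1
  · intro h
    have : v = ∑ i, Pi.single i (v i) := by ext1 j; simp [Finset.sum_apply, Pi.single_apply]
    rw [this, map_sum]
    refine Finset.sum_eq_zero fun i _ => ?_
    have hi := h i
    generalize v i = r at hi
    induction hi using AddSubgroup.closure_induction with
    | mem x hx =>
      obtain ⟨k, hk, r, rfl⟩ := hx
      refine (Representation.Coinvariants.mk_eq_zero _).2 (Submodule.subset_span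
        ⟨(⟨k, hk⟩, (1 : ℤ) ⊗ₜ[ℤ] (Pi.single i r : Fin n → R ℤ G)), ?_⟩)
      change (1 : ℤ) ⊗ₜ[ℤ] ((F ℤ G n).ρ k (Pi.single i r : Fin n → R ℤ G)) -
        (1 : ℤ) ⊗ₜ[ℤ] (Pi.single i r : Fin n → R ℤ G) = (1 : ℤ) ⊗ₜ[ℤ] _
      rw [F_ρ, ← TensorProduct.tmul_sub]
      congr 1
      ext1 j
      by_cases hj : j = i
      · subst hj; simp [sub_mul]
      · simp [hj]
    | zero => rw [Pi.single_zero]; exact map_zero _
    | add a b _ _ ha hb => rw [Pi.single_add, map_add, ha, hb, add_zero]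
    | neg a _ ha => rw [Pi.single_neg, map_neg, ha, neg_zero]

theorem mk_surj (H : Subgroup G) (n : ℕ)
    (x : ((Rep.coinvariantsTensor ℤ H).obj (Rep.trivial ℤ H ℤ)).obj (FR H n)) :
    ∃ v : Fin n → R ℤ G, Rep.coinvariantsTensorMk (Rep.trivial ℤ H ℤ) (FR H n) (1 : ℤ) v = x := by
  obtain ⟨y, rfl⟩ := Representation.Coinvariants.mk_surjective _ x
  obtain ⟨w, rfl⟩ := (TensorProduct.lid ℤ (Fin n → R ℤ G)).symm.surjective y
  exact ⟨w, rfl⟩

theorem H2_vanish (d : Data3 G (Fin g)) (H : Subgroup G)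
    (h : ∀ v : Fin g → R ℤ G, (∀ j, ∑ i, v i * d.M i j ∈ JH H) → ∃ u, ∀ i, v i - u * d.b i ∈ JH H) :
    Subsingleton (groupHomology (Rep.trivial ℤ H ℤ) 2) := by
  classical
  rw [← ModuleCat.isZero_iff_subsingleton]
  let P := res (r3 g) (D3' d) (ε1 G) ε1_inv ε1_surj (hex0 d.a d.ha d.ex0) (D3h4 d)
  refine Limits.IsZero.of_iso ?_ (groupHomologyIso (Rep.trivial ℤ H ℤ) 2
    ((Rep.resFunctor H.subtype).mapProjectiveResolution P))
  rw [← HomologicalComplex.exactAt_iff_isZero_homology,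
    HomologicalComplex.exactAt_iff' _ 3 2 1 (by simp) (by simp), ShortComplex.moduleCat_exact_iff]
  intro x hx
  obtain ⟨v, rfl⟩ := mk_surj H g x
  have e1 : Rep.coinvariantsTensorMk (Rep.trivial ℤ H ℤ) (FR H g) (1 : ℤ)
      (((cx (r3 g) (D3' d) (D3h4 d)).d (1 + 1) 1).hom v) = 0 := hx
  rw [cx_d] at e1
  obtain ⟨u, hu⟩ := h v ((ker_iff H g _).1 e1)
  refine ⟨Rep.coinvariantsTensorMk (Rep.trivial ℤ H ℤ) (FR H 1) (1 : ℤ) (fun _ => u), ?_⟩
  change Rep.coinvariantsTensorMk (Rep.trivial ℤ H ℤ) (FR H g) (1 : ℤ)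
      (((cx (r3 g) (D3' d) (D3h4 d)).d (2 + 1) 2).hom (fun _ => u)) =
    Rep.coinvariantsTensorMk (Rep.trivial ℤ H ℤ) (FR H g) (1 : ℤ) v
  rw [cx_d, eq_comm, ← sub_eq_zero, ← map_sub]
  refine (ker_iff H g _).2 fun i => ?_
  change v i - ((fun _ : Fin 1 => u) ᵥ* rowM d.b) i ∈ JH H
  rw [vm_row]
  exact hu i

end Pool.Agent.H74.PD
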