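import Mathlib

set_option autoImplicit false

namespace Pool.Agent.H74.InnGen

variable {α : Type} (mul ld rd : α → α → α) (e : α) (A B : α → α → α → α)

/-- If the two standard families of inner mappings commute pairwise, the inner mapping group is
abelian. -/
theorem inn_comm (h1 : ∀ x, mul e x = x) (h2 : ∀ x, mul x e = x)
    (l1 : ∀ x z, mul x (ld x z) = z) (l2 : ∀ x z, ld x (mul x z) = z)
    (r1 : ∀ x z, mul (rd z x) x = z) (r2 : ∀ x z, rd (mul z x) x = z)
    (hA : ∀ x a z, mul (mul x a) (A x a z) = mul x (mul a z))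
    (hB : ∀ x a z, mul (mul a x) (B x a z) = mul (mul a z) x)
    (AA : ∀ x a u b z, A x a (A u b z) = A u b (A x a z))
    (AB : ∀ x a u b z, A x a (B u b z) = B u b (A x a z))
    (BB : ∀ x a u b z, B x a (B u b z) = B u b (B x a z)) :
    ∀ σ ∈ Subgroup.closure
        {π : Equiv.Perm α | ∃ a, (∀ x, π x = mul a x) ∨ (∀ x, π x = mul x a)},
      ∀ τ ∈ Subgroup.closure
        {π : Equiv.Perm α | ∃ a, (∀ x, π x = mul a x) ∨ (∀ x, π x = mul x a)},
        σ e = e → τ e = e → σ * τ = τ * σ := by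
  let L : α → Equiv.Perm α := fun a => ⟨mul a, ld a, l2 a, l1 a⟩
  let R : α → Equiv.Perm α := fun a => ⟨fun x => mul x a, fun x => rd x a, fun x => r2 a x,
    fun x => r1 a x⟩
  let S : Set (Equiv.Perm α) := {g | ∃ x a, (∀ z, g z = A x a z) ∨ (∀ z, g z = B x a z)}
  have gA : ∀ x a, (L (mul x a))⁻¹ * L x * L a ∈ S := fun x a => ⟨x, a, Or.inl fun z => by
    show ld (mul x a) (mul x (mul a z)) = _
    rw [← hA, l2]⟩
  have gB : ∀ x a, (L (mul a x))⁻¹ * R x * L a ∈ S := fun x a => ⟨x, a, Or.inr fun z => by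
    show ld (mul a x) (mul (mul a z) x) = _
    rw [← hB, l2]⟩
  have cS : ∀ g ∈ S, ∀ h ∈ S, g * h = h * g := by
    rintro g ⟨x, a, hg | hg⟩ h ⟨u, b, hh | hh⟩ <;> ext z <;>
      simp only [Equiv.Perm.mul_apply, hg, hh]
    · exact AA _ _ _ _ _
    · exact AB _ _ _ _ _
    · exact (AB _ _ _ _ _).symm
    · exact BB _ _ _ _ _
  have cH : ∀ g ∈ Subgroup.closure S, ∀ h ∈ Subgroup.closure S, g * h = h * g := by
    intro g hg h hh
    have := (Subgroup.isMulCommutative_closure cS).is_comm.comm ⟨g, hg⟩ ⟨h, hh⟩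
    exact congrArg Subtype.val this
  have fixS : ∀ g ∈ Subgroup.closure S, g e = e := by
    intro g hg
    refine Subgroup.closure_induction (p := fun g _ => g e = e) ?_ rfl ?_ ?_ hg
    · rintro g ⟨x, a, hg | hg⟩
      · rw [hg]
        have := congrArg (ld (mul x a)) (hA x a e)
        rw [l2, h2] at this
        rw [this]
        have h3 := l2 (mul x a) e
        rwa [h2] at h3
      · rw [hg]
        have := congrArg (ld (mul a x)) (hB x a e)
        rw [l2, h2] at this
        rw [this]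
        have h3 := l2 (mul a x) e
        rwa [h2] at h3
    · intro g h _ _ hg hh
      rw [Equiv.Perm.mul_apply, hh, hg]
    · intro g _ hg
      rw [Equiv.Perm.inv_eq_iff_eq, hg]
  have dec : ∀ σ ∈ Subgroup.closure
      {π : Equiv.Perm α | ∃ a, (∀ x, π x = mul a x) ∨ (∀ x, π x = mul x a)},
      ∃ a, ∃ h ∈ Subgroup.closure S, σ = L a * h := by
    intro σ hσ
    refine Subgroup.closure_induction_left
      (p := fun σ _ => ∃ a, ∃ h ∈ Subgroup.closure S, σ = L a * h) ?_ ?_ ?_ hσ
    · exact ⟨e, 1, one_mem _, by ext z; exact (h1 z).symm⟩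
    · rintro π ⟨x, hx | hx⟩ _ _ ⟨a, h, hh, rfl⟩
      · have : π = L x := Equiv.ext hx
        exact ⟨mul x a, _, mul_mem (Subgroup.subset_closure (gA x a)) hh, by rw [this]; group⟩
      · have : π = R x := Equiv.ext hx
        exact ⟨mul a x, _, mul_mem (Subgroup.subset_closure (gB x a)) hh, by rw [this]; group⟩
    · rintro π ⟨x, hx | hx⟩ _ _ ⟨a, h, hh, rfl⟩
      · have : π = L x := Equiv.ext hx
        refine ⟨ld x a, _, mul_mem (inv_mem (Subgroup.subset_closure (gA x (ld x a)))) hh, ?_⟩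
        rw [this, l1]; group
      · have : π = R x := Equiv.ext hx
        refine ⟨rd a x, _, mul_mem (inv_mem (Subgroup.subset_closure (gB x (rd a x)))) hh, ?_⟩
        rw [this, r1]; group
  have inH : ∀ σ ∈ Subgroup.closure
      {π : Equiv.Perm α | ∃ a, (∀ x, π x = mul a x) ∨ (∀ x, π x = mul x a)},
      σ e = e → σ ∈ Subgroup.closure S := by
    intro σ hσ he
    obtain ⟨a, h, hh, rfl⟩ := dec σ hσ
    rw [Equiv.Perm.mul_apply, fixS h hh] at he
    have ha : a = e := (h2 a).symm.trans he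
    have : L a = 1 := by ext z; rw [ha]; exact h1 z
    rw [this, one_mul]; exact hh
  intro σ hσ τ hτ a b
  exact cH _ (inH σ hσ a) _ (inH τ hτ b)

end Pool.Agent.H74.InnGen
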