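import Mathlib

set_option autoImplicit false

namespace Pool.Agent.H74.KP

open unitInterval Set Topology

variable {Y : Type} [TopologicalSpace Y]

def IsCoc (v : (I → Y) → ZMod 2) : Prop :=
  ∀ G : I × I → Y, Continuous G → ∃ τ : I × I → ZMod 2,
    ∀ k : I → I × I, Continuous k → v (G ∘ k) = τ (k 0) + τ (k 1)

def Pot {Z : Type} [TopologicalSpace Z] (v : (I → Y) → ZMod 2) (f : Z → Y) (A : Set Z)
    (τ : Z → ZMod 2) : Prop :=
  ∀ g : I → Z, Continuous g → (∀ t, g t ∈ A) → v (f ∘ g) = τ (g 0) + τ (g 1)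

theorem z2a : ∀ a b c d : ZMod 2, (a + b) + (c + d) = (a + c) + (b + d) := by decide

theorem sq {v : (I → Y) → ZMod 2} (hv : IsCoc v) (G : I × I → Y) (hG : Continuous G) :
    v (fun t => G (0, t)) + v (fun t => G (1, t)) = v (fun s => G (s, 0)) + v (fun s => G (s, 1)) := by
  obtain ⟨τ, h⟩ := hv G hG
  have h1 := h (fun t => (0, t)) (by fun_prop)
  have h2 := h (fun t => (1, t)) (by fun_prop)
  have h3 := h (fun t => (t, 0)) (by fun_prop)
  have h4 := h (fun t => (t, 1)) (by fun_prop)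
  exact (congrArg₂ (· + ·) h1 h2).trans ((z2a _ _ _ _).trans (congrArg₂ (· + ·) h3 h4).symm)

theorem z2b : ∀ a : ZMod 2, a + a = 0 := by decide

theorem vconst {v : (I → Y) → ZMod 2} (hv : IsCoc v) (y : Y) : v (fun _ => y) = 0 := by
  obtain ⟨τ, h⟩ := hv (fun _ => y) continuous_const
  exact (h (fun _ => (0, 0)) continuous_const).trans (z2b _)

instance : ContractibleSpace I := (convex_Icc (0 : ℝ) 1).contractibleSpace ⟨0, by simp⟩

open CategoryTheory in
theorem exists_coc [PathConnectedSpace Y] (y₀ : Y)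
    (ε : FundamentalGroup Y y₀ →* Multiplicative (ZMod 2)) :
    ∃ v : (I → Y) → ZMod 2, IsCoc v ∧
      ∀ a : Path y₀ y₀, v a = Multiplicative.toAdd (ε (FundamentalGroup.fromPath ⟦a⟧)) := by
  classical
  let p : ∀ y : Y, FundamentalGroupoid.mk y₀ ⟶ FundamentalGroupoid.mk y := fun y =>
    (⟦PathConnectedSpace.somePath y₀ y⟧ : Path.Homotopic.Quotient y₀ y)
  let w : ∀ {x y : Y}, (FundamentalGroupoid.mk x ⟶ FundamentalGroupoid.mk y) → ZMod 2 :=
    fun {x y} γ => Multiplicative.toAdd (ε (FundamentalGroup.fromArrow (p x ≫ γ ≫ inv (p y))))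
  have hw : ∀ {x y z : Y} (γ : FundamentalGroupoid.mk x ⟶ FundamentalGroupoid.mk y)
      (δ : FundamentalGroupoid.mk y ⟶ FundamentalGroupoid.mk z), w (γ ≫ δ) = w γ + w δ := by
    intro x y z γ δ
    simp only [w]
    rw [← toAdd_mul, mul_comm, ← map_mul]
    congr 2
    change _ = (p x ≫ γ ≫ inv (p y)) ≫ (p y ≫ δ ≫ inv (p z))
    simp
  let v : (I → Y) → ZMod 2 := fun g => if h : Continuous g then
    w (x := g 0) (y := g 1) (⟦⟨⟨g, h⟩, rfl, rfl⟩⟧ : Path.Homotopic.Quotient _ _) else 0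
  have hvw : ∀ {x y : Y} (γ : Path x y), v γ = w (⟦γ⟧ : Path.Homotopic.Quotient _ _) := by
    intro x y γ
    obtain ⟨⟨g, hg⟩, rfl, rfl⟩ := γ
    exact dif_pos hg
  refine ⟨v, fun G hG => ?_, fun a => ?_⟩
  · let β : ∀ c : I × I, Path ((0, 0) : I × I) c := fun c => PathConnectedSpace.somePath _ _
    refine ⟨fun c => w (⟦(β c).map hG⟧ : Path.Homotopic.Quotient _ _), fun k hk => ?_⟩
    let κ : Path (k 0) (k 1) := ⟨⟨k, hk⟩, rfl, rfl⟩
    have e1 : v (G ∘ k) = w (⟦κ.map hG⟧ : Path.Homotopic.Quotient _ _) := hvw (κ.map hG)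
    have e2 : (((β (k 0)).trans κ).map hG).Homotopic ((β (k 1)).map hG) :=
      (SimplyConnectedSpace.paths_homotopic _ _).map ⟨G, hG⟩
    have e3 := hw (⟦(β (k 0)).map hG⟧ : Path.Homotopic.Quotient _ _)
      (⟦κ.map hG⟧ : Path.Homotopic.Quotient _ _)
    have e4 : w (⟦(β (k 1)).map hG⟧ : Path.Homotopic.Quotient _ _) = _ :=
      Eq.trans (congrArg w (Quotient.sound (by rw [← Path.map_trans]; exact e2.symm))) e3
    rw [e1]
    beta_reduce
    rw [e4, ← add_assoc, z2b, zero_add]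
  · rw [hvw]
    simp only [w]
    have : FundamentalGroup.fromArrow (p y₀ ≫ (⟦a⟧ : Path.Homotopic.Quotient _ _) ≫ inv (p y₀)) =
        (FundamentalGroup.fromArrow (p y₀))⁻¹ * FundamentalGroup.fromPath ⟦a⟧ *
          FundamentalGroup.fromArrow (p y₀) := by
      change _ = p y₀ ≫ _ ≫ Groupoid.inv (p y₀)
      rw [Groupoid.inv_eq_inv]
    rw [this, ε.map_mul, ε.map_mul, ε.map_inv, mul_right_comm, inv_mul_cancel, one_mul]

theorem z2c : ∀ a b c d : ZMod 2, a + b = c + d → a + c = b + d := by decide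

theorem loc {Z : Type} [TopologicalSpace Z] [LocallyPathConnectedSpace Z] {C : Set Z}
    (hC : IsOpen C) {φ : Z → ZMod 2}
    (h : ∀ γ : I → Z, Continuous γ → (∀ u, γ u ∈ C) → φ (γ 0) = φ (γ 1)) {t : Z} (ht : t ∈ C) :
    ∀ᶠ s in nhds t, φ s = φ t := by
  obtain ⟨U, hU, hU', hs⟩ := (pathConnected_subset_basis hC ht).ex_mem
  filter_upwards [hU] with s hs'
  obtain ⟨γ, hγ⟩ := hU'.joinedIn s hs' t (mem_of_mem_nhds hU)
  have := h γ γ.continuous fun u => hs (hγ u)
  rwa [γ.source, γ.target] at this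

instance : LocallyPathConnectedSpace I := (convex_Icc (0 : ℝ) 1).locallyPathConnectedSpace

theorem glue {Z : Type} [TopologicalSpace Z] {v : (I → Y) → ZMod 2} (hv : IsCoc v) {f : Z → Y}
    {A B : Set Z} (hA : IsOpen A) (hB : IsOpen B) (hf : ContinuousOn f (A ∪ B)) {τ : Z → ZMod 2}
    (h1 : Pot v f A τ) (h2 : Pot v f B τ) : Pot v f (A ∪ B) τ := by
  intro g hg hm
  have hc : Continuous (f ∘ g) := hf.comp_continuous hg hm
  obtain ⟨ω, h⟩ := hv (fun c => (f ∘ g) c.1) (hc.comp continuous_fst)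
  have key : ∀ C : Set Z, IsOpen C → Pot v f C τ → ∀ t, g t ∈ C →
      ∀ᶠ s in nhds t, ω (s, 0) + τ (g s) = ω (t, 0) + τ (g t) := by
    intro C hC hp t ht
    refine loc (φ := fun s => ω (s, 0) + τ (g s)) (hC.preimage hg) (fun γ hγ hγ' => ?_) ht
    exact z2c _ _ _ _ ((h (fun u => (γ u, 0)) (by fun_prop)).symm.trans
      (hp (g ∘ γ) (hg.comp hγ) hγ'))
  have hl : IsLocallyConstant fun s : I => ω (s, 0) + τ (g s) :=
    (IsLocallyConstant.iff_eventually_eq _).2 fun t =>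
      (hm t).elim (key A hA h1 t) (key B hB h2 t)
  have a1 := h (fun u => (u, 0)) (by fun_prop)
  exact a1.trans (z2c _ _ _ _ (hl.apply_eq_of_preconnectedSpace 0 1))

theorem star {V : Type} [NormedAddCommGroup V] [NormedSpace ℝ V] {v : (I → Y) → ZMod 2}
    (hv : IsCoc v) {f : V → Y} {A : Set V} (p : V)
    (hA : ∀ x ∈ A, ∀ s : I, (1 - (s : ℝ)) • p + (s : ℝ) • x ∈ A) (hf : ContinuousOn f A) :
    ∃ τ, Pot v f A τ := by
  refine ⟨fun x => v fun s => f ((1 - (s : ℝ)) • p + (s : ℝ) • x), fun g hg hm => ?_⟩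
  have := sq hv (fun c => f ((1 - (c.1 : ℝ)) • p + (c.1 : ℝ) • g c.2))
    (hf.comp_continuous (by fun_prop) fun c => hA _ (hm _) _)
  simp only [Icc.coe_zero, sub_zero, one_smul, zero_smul, add_zero, Icc.coe_one, sub_self,
    zero_add, vconst hv] at this
  exact this

theorem punct {m : ℕ} {v : (I → Y) → ZMod 2} (hv : IsCoc v) {f : (Fin (m + 3) → ℝ) → Y}
    (hf : ContinuousOn f {0}ᶜ) : ∃ τ, Pot v f {0}ᶜ τ := by
  classical
  let C : Set (Fin (m + 3) → ℝ) := {x | ∃ i, i ≠ 0 ∧ x i ≠ 0}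
  have hC : IsOpen C := by
    simp only [C, ofPred_exists]
    refine isOpen_iUnion fun i => (isOpen_const).inter ?_
    exact isOpen_ne_fun (continuous_apply i) continuous_const
  have hsub : ∀ c : ℝ, c ≠ 0 → {x | 0 < c * x 0} ∪ C ⊆ ({0}ᶜ : Set (Fin (m + 3) → ℝ)) := by
    rintro c hc x (h | ⟨i, -, h⟩) rfl
    · simp at h
    · simp at h
  have hst : ∀ c : ℝ, c * c = 1 → ∃ τ, Pot v f ({x | 0 < c * x 0} ∪ C) τ := by
    intro c hc
    have hc0 : c ≠ 0 := by rintro rfl; simp at hc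
    refine star hv (Pi.single 0 c) ?_ (hf.mono (hsub c hc0))
    intro x hx s
    have h0 := s.2.1
    have h1 := s.2.2
    rcases eq_or_lt_of_le h0 with h | h
    · left; simp [← h, hc]
    · rcases hx with hx | ⟨i, hi, hx⟩
      · left
        simp only [mem_ofPred_eq, Pi.add_apply, Pi.smul_apply, Pi.single_eq_same, smul_eq_mul] at hx ⊢
        nlinarith [mul_pos h hx]
      · right
        exact ⟨i, hi, by simp [hi, hx, h.ne']⟩
  obtain ⟨τ₁, h1⟩ := hst 1 (by norm_num)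
  obtain ⟨τ₂, h2⟩ := hst (-1) (by norm_num)
  have hpc : IsPathConnected C := by
    have : C = ((Submodule.span ℝ {(Pi.single 0 1 : Fin (m + 3) → ℝ)} : Submodule ℝ _) : Set _)ᶜ := by
      ext x
      simp only [C, mem_ofPred_eq, mem_compl_iff, SetLike.mem_coe, Submodule.mem_span_singleton]
      constructor
      · rintro ⟨i, hi, hx⟩ ⟨a, rfl⟩
        simp [hi] at hx
      · intro h
        by_contra h'
        push Not at h'
        refine h ⟨x 0, funext fun i => ?_⟩
        by_cases hi : i = 0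
        · simp [hi]
        · simp [hi, h' i hi]
    rw [this]
    apply isPathConnected_compl_of_one_lt_codim
    have e := (Submodule.span ℝ {(Pi.single 0 1 : Fin (m + 3) → ℝ)}).finrank_quotient_add_finrank
    rw [finrank_span_singleton (by simp), Module.finrank_fin_fun] at e
    rw [← Module.finrank_eq_rank]
    exact_mod_cast (by omega)
  obtain ⟨x₀, hx₀⟩ := hpc.nonempty
  have hcst : ∀ x ∈ C, τ₁ x = τ₂ x + (τ₁ x₀ + τ₂ x₀) := by
    intro x hx
    obtain ⟨γ, hγ⟩ := hpc.joinedIn x hx x₀ hx₀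
    have a1 := h1 γ γ.continuous fun t => Or.inr (hγ t)
    have a2 := h2 γ γ.continuous fun t => Or.inr (hγ t)
    rw [γ.source, γ.target] at a1 a2
    have : ∀ a b c d : ZMod 2, a + b = c + d → a = c + (b + d) := by decide
    exact this _ _ _ _ (a1.symm.trans a2)
  let A : Set (Fin (m + 3) → ℝ) := {x | 0 < 1 * x 0} ∪ C
  let B : Set (Fin (m + 3) → ℝ) := {x | 0 < -1 * x 0} ∪ C
  have hAB : A ∪ B = {0}ᶜ := by
    refine Subset.antisymm (union_subset (hsub 1 one_ne_zero) (hsub (-1) (by norm_num))) ?_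
    intro x hx
    obtain ⟨i, hi⟩ := Function.ne_iff.1 hx
    by_cases h0 : i = 0
    · subst h0
      rcases lt_or_gt_of_ne hi with h | h
      · right; left; simpa using h
      · left; left; simpa using h
    · exact Or.inl (Or.inr ⟨i, h0, hi⟩)
  refine ⟨fun x => if x ∈ A then τ₁ x else τ₂ x + (τ₁ x₀ + τ₂ x₀), ?_⟩
  rw [← hAB]
  refine glue hv ((isOpen_lt continuous_const (by fun_prop)).union hC)
    ((isOpen_lt continuous_const (by fun_prop)).union hC) (hAB ▸ hf) ?_ ?_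
  · intro g hg hm
    beta_reduce
    rw [if_pos (hm 0), if_pos (hm 1)]
    exact h1 g hg hm
  · intro g hg hm
    have : ∀ x ∈ B, (if x ∈ A then τ₁ x else τ₂ x + (τ₁ x₀ + τ₂ x₀)) = τ₂ x + (τ₁ x₀ + τ₂ x₀) := by
      intro x hx
      split_ifs with h
      · refine hcst x ?_
        rcases h with h | h
        · rcases hx with hx | hx
          · simp only [mem_ofPred_eq] at h hx; linarith
          · exact hx
        · exact h
      · rfl
    beta_reduce
    rw [this _ (hm 0), this _ (hm 1), z2a, z2b, add_zero]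
    exact h2 g hg hm

theorem fac {A B : Type} [TopologicalSpace A] [CompactSpace A] [TopologicalSpace B] [T2Space B]
    [Nonempty A] (P : A → B) (hP : Continuous P) (h : A → Y) (hh : Continuous h)
    (e : ∀ a b, P a = P b → h a = h b) :
    ∃ F : B → Y, ContinuousOn F (range P) ∧ ∀ a, F (P a) = h a := by
  have hF : ∀ a, h (Function.invFun P (P a)) = h a := fun a =>
    e _ _ (Function.invFun_eq ⟨a, rfl⟩)
  refine ⟨fun b => h (Function.invFun P b), ?_, hF⟩
  rw [continuousOn_iff_isClosed]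
  intro C hC
  refine ⟨P '' (h ⁻¹' C), ((hC.preimage hh).isCompact.image hP).isClosed, ?_⟩
  ext b
  constructor
  · rintro ⟨hb, a, rfl⟩
    exact ⟨⟨a, by simpa [hF] using hb, rfl⟩, a, rfl⟩
  · rintro ⟨⟨a, ha, rfl⟩, -⟩
    exact ⟨by simpa [hF] using ha, a, rfl⟩

end Pool.Agent.H74.KP
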