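import Mathlib
import Pool.Agent.H74.KP1

set_option autoImplicit false

namespace Pool.Agent.H74.KP

open unitInterval Set Topology

variable {Y : Type} [TopologicalSpace Y]

theorem radial {V A : Type} [NormedAddCommGroup V] [NormedSpace ℝ V] [TopologicalSpace A]
    [CompactSpace A] [Nonempty A] (P : A → V) (hP : Continuous P) (n : V → ℝ) (hn : Continuous n)
    (hs : ∀ (r : ℝ) v, n (r • v) = |r| * n v) (hpos : ∀ v, v ≠ 0 → 0 < n v) (h1 : ∀ a, n (P a) = 1)
    (hsurj : ∀ u, n u = 1 → ∃ a, P a = u ∨ P a = -u) (h : A → Y) (hh : Continuous h)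
    (e1 : ∀ a b, P a = P b → h a = h b) (e2 : ∀ a b, P a = -P b → h a = h b) :
    ∃ F : V → Y, ContinuousOn F {0}ᶜ ∧ (∀ r : ℝ, r ≠ 0 → ∀ v, v ≠ 0 → F (r • v) = F v) ∧
      ∀ a, F (P a) = h a := by
  let Q : Bool × A → V := fun c => (if c.1 then (1 : ℝ) else -1) • P c.2
  have hQ : Continuous Q :=
    ((continuous_of_discreteTopology (f := fun b : Bool => if b then (1 : ℝ) else -1)).comp
      continuous_fst).smul (hP.comp continuous_snd)
  obtain ⟨F, hF, hF'⟩ := fac Q hQ (fun c => h c.2) (hh.comp continuous_snd) (by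
    rintro ⟨b, a⟩ ⟨b', a'⟩ e
    cases b <;> cases b' <;> simp [Q] at e
    · exact e1 _ _ e
    · exact e2 _ _ (neg_eq_iff_eq_neg.1 e)
    · exact e2 _ _ e
    · exact e1 _ _ e)
  have hn1 : ∀ v, v ≠ 0 → n ((n v)⁻¹ • v) = 1 := fun v hv => by
    rw [hs, abs_of_pos (inv_pos.2 (hpos v hv)), inv_mul_cancel₀ (hpos v hv).ne']
  have key : ∀ r : ℝ, r ≠ 0 → ∀ a, F ((n (r • P a))⁻¹ • r • P a) = h a := fun r hr a => by
    rw [hs, h1, mul_one, smul_smul]
    rcases lt_or_gt_of_ne hr with h' | h'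
    · rw [abs_of_neg h', inv_neg, neg_mul, inv_mul_cancel₀ hr]
      exact hF' (false, a)
    · rw [abs_of_pos h', inv_mul_cancel₀ hr]
      exact hF' (true, a)
  refine ⟨fun v => F ((n v)⁻¹ • v), hF.comp ?_ ?_, fun r hr v hv => ?_, fun a => ?_⟩
  · exact (hn.continuousOn.inv₀ fun v hv => (hpos v hv).ne').smul continuousOn_id
  · intro v hv
    obtain ⟨a, ha | ha⟩ := hsurj _ (hn1 v hv)
    · exact ⟨(true, a), by simp [Q, ha]⟩
    · exact ⟨(false, a), by simp [Q, ha]⟩
  · have : ∃ s : ℝ, s ≠ 0 ∧ ∃ a, v = s • P a := by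
      have h0 := (hpos v hv).ne'
      obtain ⟨a, ha | ha⟩ := hsurj _ (hn1 v hv)
      · exact ⟨n v, h0, a, by rw [ha, smul_smul, mul_inv_cancel₀ h0, one_smul]⟩
      · exact ⟨-n v, neg_ne_zero.2 h0, a, by
          rw [ha, neg_smul, smul_neg, neg_neg, smul_smul, mul_inv_cancel₀ h0, one_smul]⟩
    obtain ⟨s, hs0, a, rfl⟩ := this
    beta_reduce
    rw [key s hs0, smul_smul r s, key _ (mul_ne_zero hr hs0)]
  · simpa using key 1 one_ne_zero a

variable {m : ℕ}

def wt (w : Fin m → I) : Fin m → ℝ := fun i => 2 * w i - 1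

noncomputable def lam (ρ : ℝ) : ℝ := (2 - 2 * max ρ (1 / 2)) / max ρ (1 / 2)

noncomputable def phi (w : Fin m → I) : Fin (m + 1) → ℝ :=
  Matrix.vecCons (2 * ‖wt w‖ - 1) (lam ‖wt w‖ • wt w)

noncomputable def nn (z : Fin (m + 1) → ℝ) : ℝ := |z 0| + ‖Matrix.vecTail z‖

theorem max_pos (ρ : ℝ) : 0 < max ρ (1 / 2) := lt_max_of_lt_right (by norm_num)

theorem cont_lam : Continuous lam := by
  unfold lam
  exact Continuous.div (by fun_prop) (by fun_prop) fun ρ => (max_pos ρ).ne'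

theorem lam_pos {ρ : ℝ} (h : ρ < 1) : 0 < lam ρ :=
  div_pos (by have := max_lt h (by norm_num : (1 / 2 : ℝ) < 1); linarith) (max_pos ρ)

theorem lam_one : lam 1 = 0 := by norm_num [lam]

theorem lam_mul (ρ : ℝ) : lam ρ * ρ = 1 - |2 * ρ - 1| := by
  unfold lam
  rcases le_total ρ (1 / 2) with h1 | h1
  · rw [max_eq_right h1, abs_of_nonpos (by linarith)]; ring
  · rw [max_eq_left h1, abs_of_nonneg (by linarith)]; field_simp; ring

theorem lam_nonneg {ρ : ℝ} (h : ρ ≤ 1) : 0 ≤ lam ρ :=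
  h.eq_or_lt.elim (fun e => by rw [e, lam_one]) fun e => (lam_pos e).le

theorem cont_wt : Continuous (wt : (Fin m → I) → _) := by unfold wt; fun_prop

theorem cont_phi : Continuous (phi : (Fin m → I) → _) := by
  unfold phi
  exact Continuous.matrixVecCons (by have := @cont_wt m; fun_prop)
    ((cont_lam.comp cont_wt.norm).smul cont_wt)

theorem wt_le (w : Fin m → I) : ‖wt w‖ ≤ 1 :=
  (pi_norm_le_iff_of_nonneg zero_le_one).2 fun i => by
    have := (w i).2.1; have := (w i).2.2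
    rw [Real.norm_eq_abs, abs_le]; unfold wt; constructor <;> linarith

theorem bd_iff (w : Fin m → I) : w ∈ Cube.boundary (Fin m) ↔ ‖wt w‖ = 1 := by
  constructor
  · rintro ⟨i, hi⟩
    refine le_antisymm (wt_le w) (le_trans ?_ (norm_le_pi_norm _ i))
    rcases hi with hi | hi <;> norm_num [wt, hi]
  · intro h
    by_contra h'
    refine absurd h ((pi_norm_lt_iff zero_lt_one).2 fun i => ?_).ne
    have h0 : (w i : ℝ) ≠ 0 := fun e => h' ⟨i, Or.inl (Subtype.ext e)⟩
    have h1 : (w i : ℝ) ≠ 1 := fun e => h' ⟨i, Or.inr (Subtype.ext e)⟩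
    have := lt_of_le_of_ne (w i).2.1 h0.symm; have := lt_of_le_of_ne (w i).2.2 h1
    rw [Real.norm_eq_abs, abs_lt]; unfold wt; constructor <;> linarith

theorem phi_bd {w : Fin m → I} (h : w ∈ Cube.boundary (Fin m)) : phi w = Matrix.vecCons 1 0 := by
  rw [bd_iff] at h
  rw [phi, h, lam_one, zero_smul]; norm_num

theorem phi_inj {w w' : Fin m → I} (h : phi w = phi w') :
    w = w' ∨ (w ∈ Cube.boundary (Fin m) ∧ w' ∈ Cube.boundary (Fin m)) := by
  have h0 : ‖wt w‖ = ‖wt w'‖ := by have := congrFun h 0; simp [phi] at this; exact this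
  have h1 := congrArg Matrix.vecTail h
  simp only [phi, Matrix.tail_cons, ← h0] at h1
  rcases (wt_le w).eq_or_lt with e | e
  · exact Or.inr ⟨(bd_iff _).2 e, (bd_iff _).2 (h0 ▸ e)⟩
  · left
    have := smul_right_injective _ (lam_pos e).ne' h1
    ext i
    have := congrFun this i
    simp only [wt] at this
    linarith

theorem nn_cons (a : ℝ) (z : Fin m → ℝ) : nn (Matrix.vecCons a z) = |a| + ‖z‖ := by simp [nn]

theorem nn_phi (w : Fin m → I) : nn (phi w) = 1 := by
  rw [phi, nn_cons, norm_smul, Real.norm_of_nonneg (lam_nonneg (wt_le w)), lam_mul]; ring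

theorem nn_smul (r : ℝ) (z : Fin (m + 1) → ℝ) : nn (r • z) = |r| * nn z := by
  have : Matrix.vecTail (r • z) = r • Matrix.vecTail z := rfl
  rw [nn, this, norm_smul, Pi.smul_apply, smul_eq_mul, abs_mul, Real.norm_eq_abs, nn]; ring

theorem cont_tail : Continuous (Matrix.vecTail : (Fin (m + 1) → ℝ) → _) :=
  continuous_pi fun _ => continuous_apply _

theorem cont_nn : Continuous (nn : (Fin (m + 1) → ℝ) → ℝ) :=
  (continuous_apply 0).abs.add cont_tail.norm

theorem nn_nonneg (z : Fin (m + 1) → ℝ) : 0 ≤ nn z := add_nonneg (abs_nonneg _) (norm_nonneg _)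

theorem nn_pos (z : Fin (m + 1) → ℝ) (h : z ≠ 0) : 0 < nn z := by
  refine (nn_nonneg z).lt_of_ne fun e => h ?_
  have h1 := abs_nonneg (z 0)
  have h2 := norm_nonneg (Matrix.vecTail z)
  unfold nn at e
  rw [← Matrix.cons_head_tail z, norm_eq_zero.1 (by linarith : ‖Matrix.vecTail z‖ = 0),
    show Matrix.vecHead z = 0 from abs_eq_zero.1 (by change |z 0| = 0; linarith)]
  simp

theorem phi_surj (z : Fin (m + 2) → ℝ) (h : nn z = 1) : ∃ w, phi w = z := by
  have h1 := norm_nonneg (Matrix.vecTail z)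
  unfold nn at h
  have h2 : |z 0| ≤ 1 := by linarith
  rw [abs_le] at h2
  rcases h2.2.eq_or_lt with e | e
  · refine ⟨fun _ => 1, ?_⟩
    rw [phi_bd ⟨0, Or.inr rfl⟩, ← Matrix.cons_head_tail z]
    rw [e, abs_one] at h
    rw [norm_eq_zero.1 (by linarith : ‖Matrix.vecTail z‖ = 0)]
    exact congrArg (Matrix.vecCons · 0) e.symm
  · have hρ : (z 0 + 1) / 2 < 1 := by linarith
    have hl := lam_pos hρ
    have hm := lam_mul ((z 0 + 1) / 2)
    have hn : ‖(lam ((z 0 + 1) / 2))⁻¹ • Matrix.vecTail z‖ = (z 0 + 1) / 2 := by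
      rw [norm_smul, Real.norm_of_nonneg (inv_pos.2 hl).le, inv_mul_eq_iff_eq_mul₀ hl.ne', hm,
        show 2 * ((z 0 + 1) / 2) - 1 = z 0 by ring]
      linarith
    generalize hu : (lam ((z 0 + 1) / 2))⁻¹ • Matrix.vecTail z = u at hn
    have hb : ∀ i, |u i| ≤ 1 := fun i => (norm_le_pi_norm u i).trans (by linarith)
    let w : Fin (m + 1) → I := fun i => ⟨(u i + 1) / 2, by
      have := abs_le.1 (hb i); constructor <;> linarith⟩
    have hw : wt w = u := by ext i; simp only [wt, w]; ring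
    refine ⟨w, ?_⟩
    rw [phi, hw, hn, ← hu, smul_smul, mul_inv_cancel₀ hl.ne', one_smul,
      show 2 * ((z 0 + 1) / 2) - 1 = z 0 by ring]
    exact Matrix.cons_head_tail z

def Ev {V : Type} [NormedAddCommGroup V] [NormedSpace ℝ V] (F : V → Y) : Prop :=
  ContinuousOn F {0}ᶜ ∧ ∀ r : ℝ, r ≠ 0 → ∀ v, v ≠ 0 → F (r • v) = F v

theorem phi_ne (w : Fin m → I) : phi w ≠ 0 := fun e => by
  have := nn_phi w
  rw [e] at this
  simp [nn] at this

theorem step (y₀ : Y) (F : (Fin (m + 2) → ℝ) → Y) (hF : Ev F) (H : I × (Fin (m + 1) → I) → Y)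
    (hH : Continuous H) (h0 : ∀ w, H (0, w) = F (phi w)) (h1 : ∀ w, H (1, w) = y₀)
    (hb : ∀ t, ∀ w ∈ Cube.boundary (Fin (m + 1)), H (t, w) = y₀) :
    ∃ F' : (Fin (m + 3) → ℝ) → Y, Ev F' ∧ F' (Matrix.vecCons 1 0) = y₀ ∧
      ∀ z, z ≠ 0 → F' (Matrix.vecCons 0 z) = F z := by
  obtain ⟨F', c1, c2, c3⟩ := radial
    (fun c : I × (Fin (m + 1) → I) => Matrix.vecCons (c.1 : ℝ) ((1 - (c.1 : ℝ)) • phi c.2))
    (Continuous.matrixVecCons (by fun_prop) (by have := @cont_phi (m + 1); fun_prop))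
    (fun v => |v 0| + nn (Matrix.vecTail v))
    ((continuous_apply 0).abs.add (cont_nn.comp cont_tail))
    (fun r v => by
      have : Matrix.vecTail (r • v) = r • Matrix.vecTail v := rfl
      rw [this, nn_smul, Pi.smul_apply, smul_eq_mul, abs_mul]; ring)
    (fun v hv => by
      by_cases h : Matrix.vecTail v = 0
      · refine add_pos_of_pos_of_nonneg (abs_pos.2 fun e => hv ?_) (nn_nonneg _)
        rw [← Matrix.cons_head_tail v, h, show Matrix.vecHead v = 0 from e]; simp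
      · exact add_pos_of_nonneg_of_pos (abs_nonneg _) (nn_pos _ h))
    (fun c => by
      simp only [Matrix.cons_val_zero, Matrix.tail_cons, nn_smul, nn_phi]
      rw [abs_of_nonneg c.1.2.1, abs_of_nonneg (sub_nonneg.2 c.1.2.2)]; ring)
    (by
      have : ∀ u : Fin (m + 3) → ℝ, 0 ≤ u 0 → |u 0| + nn (Matrix.vecTail u) = 1 →
          ∃ c : I × (Fin (m + 1) → I),
            Matrix.vecCons (c.1 : ℝ) ((1 - (c.1 : ℝ)) • phi c.2) = u := by
        intro u hu h
        rw [abs_of_nonneg hu] at h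
        have h2 := nn_nonneg (Matrix.vecTail u)
        by_cases h3 : Matrix.vecTail u = 0
        · refine ⟨(1, fun _ => 0), ?_⟩
          rw [h3] at h
          rw [← Matrix.cons_head_tail u, h3, show Matrix.vecHead u = 1 from (by simpa [nn] using h : u 0 = 1)]
          simp
        · have h4 := nn_pos _ h3
          obtain ⟨w, hw⟩ := phi_surj ((1 - u 0)⁻¹ • Matrix.vecTail u) (by
            rw [nn_smul, abs_of_pos (inv_pos.2 (by linarith)), inv_mul_eq_iff_eq_mul₀ (by linarith)]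
            linarith)
          refine ⟨(⟨u 0, hu, by linarith⟩, w), ?_⟩
          simp only [hw, smul_smul]
          rw [mul_inv_cancel₀ (by linarith), one_smul]
          exact Matrix.cons_head_tail u
      intro u h
      rcases le_total 0 (u 0) with hu | hu
      · exact (this u hu h).imp fun _ => Or.inl
      · refine (this (-u) (by simpa using hu) ?_).imp fun _ => Or.inr
        have e : Matrix.vecTail (-u) = (-1 : ℝ) • Matrix.vecTail u := by ext; simp [Matrix.vecTail]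
        rw [e, nn_smul]; simpa using h)
    H hH
    (by
      rintro ⟨t, w⟩ ⟨t', w'⟩ e
      have e0 : t = t' := Subtype.ext (congrFun e 0)
      subst e0
      have e1 := congrArg Matrix.vecTail e
      simp only [Matrix.tail_cons] at e1
      by_cases ht : t = 1
      · rw [ht, h1, h1]
      · have : (1 - (t : ℝ)) ≠ 0 := fun e => ht (Subtype.ext (show (t : ℝ) = 1 by linarith))
        rcases phi_inj (smul_right_injective _ this e1) with e2 | ⟨e2, e3⟩
        · rw [e2]
        · rw [hb _ _ e2, hb _ _ e3])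
    (by
      rintro ⟨t, w⟩ ⟨t', w'⟩ e
      have e0 : (t : ℝ) = -t' := congrFun e 0
      have a1 : t = 0 := Subtype.ext (show (t : ℝ) = 0 by linarith [t.2.1, t'.2.1])
      have a2 : t' = 0 := Subtype.ext (show (t' : ℝ) = 0 by linarith [t.2.1, t'.2.1])
      subst a1 a2
      have e1 : phi w = (-1 : ℝ) • phi w' := by
        ext i; simpa using congrFun e i.succ
      rw [h0, h0, e1, hF.2 _ (by norm_num) _ (phi_ne _)])
  refine ⟨F', ⟨c1, c2⟩, ?_, fun z hz => ?_⟩
  · simpa [h1] using c3 (1, fun _ => 0)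
  · have h4 := nn_pos z hz
    obtain ⟨w, hw⟩ := phi_surj ((nn z)⁻¹ • z) (by
      rw [nn_smul, abs_of_pos (inv_pos.2 h4), inv_mul_cancel₀ h4.ne'])
    have := c3 (0, w)
    simp only [Icc.coe_zero, sub_zero, one_smul, h0, hw] at this
    rw [hF.2 _ (inv_pos.2 h4).ne' _ hz] at this
    rw [← this, ← c2 _ (inv_pos.2 h4).ne']
    · simp
    · intro e; exact hz (by simpa using congrArg Matrix.vecTail e)

noncomputable def arc (t : I) : Fin 2 → ℝ := ![2 * (t : ℝ) - 1, 1 - |2 * (t : ℝ) - 1|]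

theorem cont_arc : Continuous arc := by
  unfold arc
  exact Continuous.matrixVecCons (by fun_prop) (Continuous.matrixVecCons (by fun_prop) (by fun_prop))

theorem arc_le (t : I) : |2 * (t : ℝ) - 1| ≤ 1 := by
  rw [abs_le]; constructor <;> linarith [t.2.1, t.2.2]

theorem norm1 (z : Fin 1 → ℝ) : ‖z‖ = |z 0| := by simp [Pi.norm_def]

theorem nn2 (z : Fin 2 → ℝ) : nn z = |z 0| + |z 1| := by rw [nn, norm1]; rfl

theorem nn_arc (t : I) : nn (arc t) = 1 := by
  rw [nn2]
  simp only [arc, Matrix.cons_val_zero, Matrix.cons_val_one]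
  rw [abs_of_nonneg (sub_nonneg.2 (arc_le t))]; ring

theorem arc_ne (t : I) : arc t ≠ 0 := fun e => by
  have := nn_arc t
  rw [e] at this
  simp [nn] at this

theorem base {y₀ : Y} (a : Path y₀ y₀) : ∃ F : (Fin 2 → ℝ) → Y, Ev F ∧ (∀ t, F (arc t) = a t) ∧
    ∀ w : Fin 1 → I, F (phi w) = (a.trans a) (w 0) := by
  obtain ⟨F, c1, c2, c3⟩ := radial arc cont_arc nn cont_nn nn_smul nn_pos nn_arc
    (by
      have : ∀ u : Fin 2 → ℝ, 0 ≤ u 1 → nn u = 1 → ∃ t, arc t = u := by
        intro u hu h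
        rw [nn2, abs_of_nonneg hu] at h
        have h2 : |u 0| ≤ 1 := by linarith
        rw [abs_le] at h2
        refine ⟨⟨(u 0 + 1) / 2, by constructor <;> linarith⟩, ?_⟩
        have e : 2 * ((u 0 + 1) / 2) - 1 = u 0 := by ring
        ext i; fin_cases i
        · simp [arc, e]
        · simp [arc, e]; linarith
      intro u h
      rcases le_total 0 (u 1) with hu | hu
      · exact (this u hu h).imp fun _ => Or.inl
      · exact (this (-u) (by simpa using hu) (by simpa [nn2] using h)).imp fun _ => Or.inr)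
    a a.continuous
    (fun s t e => by
      have : 2 * (s : ℝ) - 1 = 2 * t - 1 := congrFun e 0
      rw [show s = t from Subtype.ext (by linarith)])
    (fun s t e => by
      have h1 : 1 - |2 * (s : ℝ) - 1| = -(1 - |2 * (t : ℝ) - 1|) := congrFun e 1
      have : ∀ s : I, |2 * (s : ℝ) - 1| = 1 → a s = y₀ := fun s h => by
        rcases (abs_eq zero_le_one).1 h with h | h
        · rw [show s = 1 from Subtype.ext (show (s : ℝ) = 1 by linarith), a.target]
        · rw [show s = 0 from Subtype.ext (show (s : ℝ) = 0 by linarith), a.source]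
      rw [this s (by linarith [arc_le s, arc_le t]), this t (by linarith [arc_le s, arc_le t])])
  refine ⟨F, ⟨c1, c2⟩, c3, fun w => ?_⟩
  have hl := lam_mul ‖wt w‖
  have hp : phi w = ![2 * ‖wt w‖ - 1, lam ‖wt w‖ * wt w 0] := by
    ext i; fin_cases i <;> simp [phi]
  rw [hp, Path.trans_apply]
  rw [norm1] at hl ⊢
  have hw : wt w 0 = 2 * w 0 - 1 := rfl
  rw [hw] at hl ⊢
  split_ifs with h
  · rw [← c3, ← c2 (-1) (by norm_num) (arc _) (arc_ne _)]
    rw [abs_of_nonpos (by linarith)] at hl ⊢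
    congr 1
    have e : 2 * -(2 * (w 0 : ℝ) - 1) - 1 = -(2 * (2 * w 0) - 1) := by ring
    rw [e, abs_neg] at hl
    ext i; fin_cases i
    · simp [arc]; ring
    · simp only [arc, Fin.mk_one, Matrix.cons_val_one, Matrix.cons_val_zero, Pi.smul_apply,
        smul_eq_mul]
      linarith
  · rw [← c3]
    rw [abs_of_nonneg (by linarith)] at hl ⊢
    rw [arc, hl]

def Tw (v : (I → Y) → ZMod 2) (y₀ : Y) (m : ℕ) : Prop :=
  ∃ F : (Fin (m + 1) → ℝ) → Y, Ev F ∧ F (Matrix.vecCons 1 0) = y₀ ∧ ∃ γ : I → Fin (m + 1) → ℝ,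
    Continuous γ ∧ (∀ t, γ t ≠ 0) ∧ γ 1 = -γ 0 ∧ v (F ∘ γ) = 1

theorem tw_of {v : (I → Y) → ZMod 2} {y₀ : Y} {F : (Fin (m + 1) → ℝ) → Y}
    {γ : I → Fin (m + 1) → ℝ} (h1 : Continuous γ) (h2 : ∀ t, γ t ≠ 0) (h3 : γ 1 = -γ 0)
    (h4 : v (F ∘ γ) = 1) (h : ∃ F' : (Fin (m + 2) → ℝ) → Y, Ev F' ∧ F' (Matrix.vecCons 1 0) = y₀ ∧
      ∀ z, z ≠ 0 → F' (Matrix.vecCons 0 z) = F z) : Tw v y₀ (m + 1) := by
  obtain ⟨F', a1, a2, a3⟩ := h
  refine ⟨F', a1, a2, fun t => Matrix.vecCons 0 (γ t), continuous_const.matrixVecCons h1,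
    fun t e => h2 t (by simpa using congrArg Matrix.vecTail e), by simp [h3], ?_⟩
  rw [← h4]
  exact congrArg v (funext fun t => a3 _ (h2 t))

theorem tower {v : (I → Y) → ZMod 2} {y₀ : Y} (a : Path y₀ y₀)
    (ha : (a.trans a).Homotopic (Path.refl y₀)) (hva : v a = 1)
    (hπ : ∀ n, 2 ≤ n → Subsingleton (HomotopyGroup.Pi n Y y₀)) (m : ℕ) : Tw v y₀ (m + 2) := by
  induction m with
  | zero =>
    obtain ⟨F, c1, c2, c3⟩ := base a
    obtain ⟨H⟩ := ha
    refine tw_of (F := F) cont_arc arc_ne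
      (by ext i; fin_cases i <;> norm_num [arc]) (hva ▸ congrArg v (funext c2))
      (step y₀ F c1 (fun c => H (c.1, c.2 0)) (by fun_prop) (fun w => by simp [c3])
        (fun w => by simp) ?_)
    rintro t w ⟨i, hi⟩
    obtain rfl : i = 0 := Fin.ext (by omega)
    rcases hi with hi | hi <;> simp [hi]
  | succ m ih =>
    obtain ⟨F, c1, c2, γ, g1, g2, g3, g4⟩ := ih
    let p : GenLoop (Fin (m + 2)) Y y₀ := ⟨⟨fun w => F (phi w),
      c1.1.comp_continuous cont_phi phi_ne⟩, fun w hw => by simp [phi_bd hw, c2]⟩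
    obtain ⟨H⟩ : GenLoop.Homotopic p GenLoop.const :=
      Quotient.exact ((hπ (m + 2) (by omega)).elim (⟦p⟧ : HomotopyGroup.Pi (m + 2) Y y₀) ⟦GenLoop.const⟧)
    refine tw_of g1 g2 g3 g4 (step y₀ F c1 H H.continuous (fun w => H.apply_zero w)
      (fun w => H.apply_one w) fun t w hw => (H.eq_fst t hw).trans (p.2 w hw))

end Pool.Agent.H74.KP
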