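import Mathlib
import Pool.Agent.H74.KP2
import Pool.Agent.H87.BU

set_option autoImplicit false

namespace Pool.Agent.H74.KP

open unitInterval Set Topology Metric

variable {Y K : Type} [TopologicalSpace Y] [TopologicalSpace K]

def Cov (v : (I → Y) → ZMod 2) (r : K → Y) (L : Set K) : Prop :=
  ∃ (N : ℕ) (U : Fin N → Set K) (τ : Fin N → K → ZMod 2), (∀ j, IsOpen (U j)) ∧ L ⊆ ⋃ j, U j ∧
    ∀ j, Pot v r (U j ∩ L) (τ j)

noncomputable def ex {n : ℕ} (t : I) (u : Fin n → ℝ) : Fin n → ℝ :=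
  (max ‖u‖ (1 - (t : ℝ) / 2))⁻¹ • u

theorem ex_pos {n : ℕ} (t : I) (u : Fin n → ℝ) : 0 < max ‖u‖ (1 - (t : ℝ) / 2) :=
  lt_max_of_lt_right (by linarith [t.2.2])

theorem cont_ex {n : ℕ} : Continuous fun c : I × (Fin n → ℝ) => ex c.1 c.2 :=
  (Continuous.inv₀ (by fun_prop) fun c => (ex_pos c.1 c.2).ne').smul continuous_snd

theorem ex_mem {n : ℕ} (t : I) (u : Fin n → ℝ) : ex t u ∈ closedBall (0 : Fin n → ℝ) 1 := by
  rw [mem_closedBall_zero_iff, ex, norm_smul, Real.norm_of_nonneg (inv_pos.2 (ex_pos t u)).le,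
    inv_mul_le_iff₀ (ex_pos t u), mul_one]
  exact le_max_left _ _

theorem ex_sph {n : ℕ} (t : I) {u : Fin n → ℝ} (h : ‖u‖ = 1) : ex t u = u := by
  rw [ex, h, max_eq_left (by linarith [t.2.1]), inv_one, one_smul]

theorem ex_zero {n : ℕ} {u : Fin n → ℝ} (h : ‖u‖ ≤ 1) : ex 0 u = u := by
  rw [ex, max_eq_right (by simpa using h)]; simp

theorem ex_one {n : ℕ} {u : Fin n → ℝ} (h : 1 / 2 < ‖u‖) : ‖ex 1 u‖ = 1 := by
  rw [ex, max_eq_left (by norm_num; linarith), norm_smul, norm_inv, norm_norm,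
    inv_mul_cancel₀ (by linarith)]

theorem attach [T2Space K] {v : (I → Y) → ZMod 2} (hv : IsCoc v) {r : K → Y} (hr : Continuous r)
    {L : Set K} (hL : IsCompact L) (hc : Cov v r L) {n : ℕ} (Φ : PartialEquiv (Fin n → ℝ) K)
    (hs : Φ.source = ball 0 1) (c1 : ContinuousOn Φ (closedBall 0 1))
    (c2 : ContinuousOn Φ.symm Φ.target) (hd : Disjoint (Φ '' ball 0 1) L)
    (hm : MapsTo Φ (sphere 0 1) L) : Cov v r (L ∪ Φ '' closedBall 0 1) := by
  obtain ⟨N, U, τ, hU, hcov, hp⟩ := hc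
  have : CompactSpace L := isCompact_iff_compactSpace.1 hL
  have : Nonempty (closedBall (0 : Fin n → ℝ) 1) := ⟨⟨0, by simp⟩⟩
  have hsp : ∀ u ∈ closedBall (0 : Fin n → ℝ) 1, Φ u ∈ L ↔ ‖u‖ = 1 := fun u hu =>
    ⟨fun h => (mem_closedBall_zero_iff.1 hu).eq_of_not_lt fun h' =>
      disjoint_left.1 hd ⟨u, mem_ball_zero_iff.2 h', rfl⟩ h, fun h => hm (by simpa using h)⟩
  have cΦ : Continuous fun u : closedBall (0 : Fin n → ℝ) 1 => Φ u := c1.domRestrict
  obtain ⟨H, hH, hH'⟩ := fac (A := (I × L) ⊕ (I × closedBall (0 : Fin n → ℝ) 1))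
    (Sum.elim (fun c => (c.1, (c.2 : K))) fun c => (c.1, Φ c.2))
    (Continuous.sumElim (by fun_prop) (continuous_fst.prodMk (cΦ.comp continuous_snd)))
    (Sum.elim (fun c => (c.2 : K)) fun c => Φ (ex c.1 c.2))
    (Continuous.sumElim (by fun_prop) (c1.comp_continuous
      (cont_ex.comp (f := fun c : I × closedBall (0 : Fin n → ℝ) 1 => (c.1, c.2.1)) (by fun_prop))
      fun c => ex_mem _ _))
    (by
      rintro (⟨t, y⟩ | ⟨t, u⟩) (⟨t', y'⟩ | ⟨t', u'⟩) e <;>
        simp only [Sum.elim_inl, Sum.elim_inr, Prod.mk.injEq] at e ⊢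
      · exact e.2
      · rw [ex_sph _ ((hsp _ u'.2).1 (e.2 ▸ y.2)), e.2]
      · rw [ex_sph _ ((hsp _ u.2).1 (e.2 ▸ y'.2)), e.2]
      · by_cases h : ‖u.1‖ = 1
        · rw [ex_sph _ h, ex_sph _ ((hsp _ u'.2).1 (e.2 ▸ (hsp _ u.2).2 h)), e.2]
        · have h' : ¬‖u'.1‖ = 1 := fun h' => h ((hsp _ u.2).1 (e.2 ▸ (hsp _ u'.2).2 h'))
          rw [e.1, Φ.injOn
            (hs ▸ mem_ball_zero_iff.2 ((mem_closedBall_zero_iff.1 u.2).lt_of_ne h))
            (hs ▸ mem_ball_zero_iff.2 ((mem_closedBall_zero_iff.1 u'.2).lt_of_ne h')) e.2])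
  have H1 : ∀ t, ∀ y ∈ L, H (t, y) = y := fun t y hy => hH' (Sum.inl (t, ⟨y, hy⟩))
  have H2 : ∀ t, ∀ u ∈ closedBall (0 : Fin n → ℝ) 1, H (t, Φ u) = Φ (ex t u) := fun t u hu =>
    hH' (Sum.inr (t, ⟨u, hu⟩))
  have H3 : ∀ t, ∀ y ∈ L ∪ Φ '' closedBall 0 1, (t, y) ∈ range
      (Sum.elim (fun c : I × L => (c.1, (c.2 : K)))
        fun c : I × closedBall (0 : Fin n → ℝ) 1 => (c.1, Φ c.2)) := by
    rintro t y (hy | ⟨u, hu, rfl⟩)
    · exact ⟨Sum.inl (t, ⟨y, hy⟩), rfl⟩
    · exact ⟨Sum.inr (t, ⟨u, hu⟩), rfl⟩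
  have H4 : ContinuousOn (fun y => H (1, y)) (L ∪ Φ '' closedBall 0 1) :=
    hH.comp (by fun_prop) fun y hy => H3 1 y hy
  choose W hW hW' using fun j => continuousOn_iff'.1 H4 (U j) (hU j)
  obtain ⟨τ₀, h0⟩ := star hv (f := r ∘ Φ) (A := ball 0 1) 0
    (fun x hx s => by
      rw [mem_ball_zero_iff] at hx ⊢
      rw [smul_zero, zero_add, norm_smul, Real.norm_of_nonneg s.2.1]
      nlinarith [s.2.1, s.2.2, norm_nonneg x])
    (hr.comp_continuousOn (c1.mono ball_subset_closedBall))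
  have hhalf : closedBall (0 : Fin n → ℝ) (1 / 2) ⊆ ball 0 1 := closedBall_subset_ball (by norm_num)
  refine ⟨N + 1, Fin.cons Lᶜ fun j => W j \ Φ '' closedBall 0 (1 / 2),
    Fin.cons (τ₀ ∘ Φ.symm) fun j y => v (fun s => r (H (s, y))) + τ j (H (1, y)),
    Fin.forall_fin_succ.2 ⟨hL.isClosed.isOpen_compl, fun j => (hW j).sdiff ?_⟩, fun y hy => ?_,
    Fin.forall_fin_succ.2 ⟨fun g hg hg' => ?_, fun j g hg hg' => ?_⟩⟩
  · exact ((isCompact_closedBall _ _).image_of_continuousOn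
      (c1.mono (hhalf.trans ball_subset_closedBall))).isClosed
  · by_cases h : y ∈ L
    · obtain ⟨j, hj⟩ := mem_iUnion.1 (hcov h)
      refine mem_iUnion.2 ⟨j.succ, ?_, fun h' => disjoint_left.1 hd (image_mono hhalf h') h⟩
      exact ((hW' j).subset ⟨by simpa [H1 1 y h] using hj, hy⟩).1
    · exact mem_iUnion.2 ⟨0, h⟩
  · have ht : ∀ t, g t ∈ Φ.target := fun t => by
      obtain ⟨a, b | ⟨u, hu, e⟩⟩ := hg' t
      · exact absurd b a
      · rw [← e] at a ⊢
        exact Φ.map_source (hs ▸ mem_ball_zero_iff.2 ((mem_closedBall_zero_iff.1 hu).lt_of_ne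
          fun h => a ((hsp u hu).2 h)))
    have := h0 (Φ.symm ∘ g) (c2.comp_continuous hg ht) fun t => hs ▸ Φ.map_target (ht t)
    refine Eq.trans (congrArg v (funext fun t => ?_)) this
    simp [Φ.right_inv (ht t)]
  · have a1 := sq hv (fun c => r (H (c.1, g c.2)))
      (hr.comp (hH.comp_continuous (by fun_prop) fun c => H3 _ _ (hg' _).2))
    have a2 := hp j (fun t => H (1, g t)) (H4.comp_continuous hg fun t => (hg' t).2) fun t => by
      refine ⟨((hW' j).symm.subset ⟨(hg' t).1.1, (hg' t).2⟩).1, ?_⟩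
      obtain ⟨a, b | ⟨u, hu, e⟩⟩ := hg' t
      · rwa [H1 1 _ b]
      · rw [← e, H2 1 u hu, hsp _ (ex_mem _ _)]
        exact ex_one (not_le.1 fun h => a.2 ⟨u, mem_closedBall_zero_iff.2 h, e⟩)
    have a3 : (fun t => r (H (0, g t))) = r ∘ g := funext fun t => by
      obtain b | ⟨u, hu, e⟩ := (hg' t).2
      · simp [H1 0 _ b]
      · simp only [Function.comp, ← e, H2 0 u hu, ex_zero (mem_closedBall_zero_iff.1 hu)]
    rw [a3, show (fun t => r (H (1, g t))) = r ∘ fun t => H (1, g t) from rfl, a2] at a1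
    have : ∀ a b c d e : ZMod 2, a + (b + c) = d + e → a = d + b + (e + c) := by decide
    exact this _ _ _ _ _ a1

theorem cw_cov [T2Space K] [CWComplex (univ : Set K)] [RelCWComplex.Finite (univ : Set K)]
    {v : (I → Y) → ZMod 2} (hv : IsCoc v) {r : K → Y} (hr : Continuous r) :
    Cov v r univ ∧ CompactSpace K := by
  classical
  have : _root_.Finite (Σ n, RelCWComplex.cell (univ : Set K) n) :=
    RelCWComplex.finite_cells_of_finite (C := (univ : Set K))
  have := Fintype.ofFinite (Σ n, RelCWComplex.cell (univ : Set K) n)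
  let L : Finset (Σ n, RelCWComplex.cell (univ : Set K) n) → Set K := fun S =>
    ⋃ i ∈ S, RelCWComplex.map i.1 i.2 '' closedBall 0 1
  have hL : ∀ S, IsCompact (L S) := fun S => S.isCompact_biUnion fun i _ =>
    (isCompact_closedBall _ _).image_of_continuousOn (RelCWComplex.continuousOn i.1 i.2)
  have key : ∀ S : Finset (Σ n, RelCWComplex.cell (univ : Set K) n),
      (∀ i ∈ S, ∀ j, j.1 < i.1 → j ∈ S) →
      Cov v r (L S) ∧ L S ⊆ ⋃ i ∈ S, RelCWComplex.map i.1 i.2 '' ball 0 1 := by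
    intro S
    refine Finset.induction_on_max_value Sigma.fst S ?_ fun a S ha hmax ih => ?_
    · exact fun _ => ⟨⟨0, Fin.elim0, Fin.elim0, by simp, by simp [L], by simp⟩, by simp [L]⟩
    · intro h
      have hlow : ∀ i ∈ insert a S, ∀ j, j.1 < i.1 → j ∈ S := fun i hi j hj => by
        refine (Finset.mem_insert.1 (h i hi j hj)).resolve_left ?_
        rintro rfl
        rcases Finset.mem_insert.1 hi with rfl | hi
        · exact lt_irrefl _ hj
        · exact (hmax i hi).not_gt hj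
      obtain ⟨i1, i2⟩ := ih fun i hi => hlow i (Finset.mem_insert_of_mem hi)
      have e : L (insert a S) = L S ∪ RelCWComplex.map a.1 a.2 '' closedBall 0 1 := by
        simp only [L, Finset.set_biUnion_insert, union_comm]
      have hm : MapsTo (RelCWComplex.map a.1 a.2) (sphere 0 1) (L S) := fun u hu => by
        obtain ⟨J, hJ⟩ := RelCWComplex.mapsTo a.1 a.2
        have := hJ hu
        simp only [empty_union, mem_iUnion] at this
        obtain ⟨m, hm, j, -, hj⟩ := this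
        exact mem_biUnion (hlow a (Finset.mem_insert_self _ _) ⟨m, j⟩ hm) hj
      rw [e]
      refine ⟨attach hv hr (hL S) i1 _ (RelCWComplex.source_eq _ _) (RelCWComplex.continuousOn _ _)
        (RelCWComplex.continuousOn_symm _ _) (Disjoint.mono_right i2 ?_) hm, ?_⟩
      · simp only [disjoint_iUnion_right]
        exact fun i hi => RelCWComplex.pairwiseDisjoint' (mem_univ a) (mem_univ i)
          fun e => ha (e ▸ hi)
      · rw [Finset.set_biUnion_insert]
        rintro y (hy | ⟨u, hu, rfl⟩)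
        · exact Or.inr (i2 hy)
        · rcases (mem_closedBall_zero_iff.1 hu).eq_or_lt with h | h
          · exact Or.inr (i2 (hm (by simpa using h)))
          · exact Or.inl ⟨u, mem_ball_zero_iff.2 h, rfl⟩
  have e : L Finset.univ = univ := by
    refine Eq.trans ?_ (RelCWComplex.union' (C := (univ : Set K)))
    simp [L, iUnion_sigma]
  exact ⟨e ▸ (key Finset.univ fun _ _ _ _ => Finset.mem_univ _).1, ⟨e ▸ hL _⟩⟩

/-- Y is a homotopy retract of a finite (Hausdorff) CW complex. -/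
def FinDom (Y : Type) [TopologicalSpace Y] : Prop :=
  ∃ (K : Type) (_ : TopologicalSpace K) (_ : T2Space K) (_ : CWComplex (univ : Set K)),
    RelCWComplex.Finite (univ : Set K) ∧
    ∃ (i : C(Y, K)) (r : C(K, Y)), (r.comp i).Homotopic (ContinuousMap.id Y)

theorem not_finDom [PathConnectedSpace Y] (y₀ : Y)
    (ε : FundamentalGroup Y y₀ →* Multiplicative (ZMod 2)) (a : FundamentalGroup Y y₀)
    (ha : a * a = 1) (hε : ε a ≠ 1)
    (hπ : ∀ n, 2 ≤ n → Subsingleton (HomotopyGroup.Pi n Y y₀)) : ¬FinDom Y := by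
  rintro ⟨K, _, _, _, hfin, i, r, ⟨H⟩⟩
  obtain ⟨v, hv, hv'⟩ := exists_coc y₀ ε
  obtain ⟨a⟩ := a
  obtain ⟨⟨N, U, τ, hU, hcov, hp⟩, _⟩ := cw_cov hv r.continuous
  obtain ⟨F, ⟨c1, c2⟩, -, γ, g1, g2, g3, g4⟩ := tower (v := v) a (Quotient.exact ha)
    (by
      have : ∀ x : Multiplicative (ZMod 2), x ≠ 1 → Multiplicative.toAdd x = 1 := by decide
      exact (hv' a).trans (this _ hε)) hπ N
  have hev : ∀ x, F (-x) = F x := fun x => by
    by_cases h : x = 0
    · simp [h]
    · simpa using c2 (-1) (by norm_num) x h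
  obtain ⟨ω, hω⟩ := punct hv (f := r ∘ i ∘ F) (r.continuous.comp_continuousOn
    (i.continuous.comp_continuousOn c1))
  have o1 : ω (γ 0) + ω (-γ 0) = 1 := by
    have a1 := sq hv (fun c => H (c.1, F (γ c.2)))
      (H.continuous.comp (continuous_fst.prodMk ((c1.comp_continuous g1 g2).comp continuous_snd)))
    simp only [g3, hev, z2b, H.apply_zero, H.apply_one] at a1
    rw [← g3, ← hω γ g1 g2]
    have : ∀ a b : ZMod 2, a + b = 0 → b = 1 → a = 1 := by decide
    exact this _ _ a1 g4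
  have o2 : ∀ x, x ≠ 0 → ω (-x) = ω x + 1 := fun x hx => by
    obtain ⟨δ, hδ⟩ := (isPathConnected_compl_singleton_of_one_lt_rank (E := Fin (N + 3) → ℝ)
      (by rw [rank_fin_fun]; exact_mod_cast (by omega)) 0).joinedIn x hx (γ 0) (g2 0)
    have a1 := hω δ δ.continuous hδ
    have a2 := hω (fun t => -δ t) δ.continuous.neg fun t => neg_ne_zero.2 (hδ t)
    have : (r ∘ i ∘ F) ∘ (fun t => -δ t) = (r ∘ i ∘ F) ∘ δ := funext fun t => by simp [hev]
    rw [this, a1, δ.source, δ.target] at a2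
    have : ∀ a b c d : ZMod 2, a + b = c + d → b + d = 1 → c = a + 1 := by decide
    exact this _ _ _ _ a2 o1
  obtain ⟨ρ, hρ⟩ := PartitionOfUnity.exists_isSubordinate isClosed_univ U hU hcov
  let sg : ZMod 2 → ℝ := fun z => if z = 0 then 1 else -1
  have hsg : ∀ z, sg (z + 1) = -sg z := by
    intro z
    have : ∀ z : ZMod 2, z + 1 = 0 ↔ ¬z = 0 := by decide
    simp only [sg, this]
    by_cases h : z = 0 <;> simp [h]
  have hsg0 : ∀ z, sg z ≠ 0 := fun z => by simp only [sg]; split_ifs <;> norm_num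
  let f : (Fin (N + 3) → ℝ) → Fin N → ℝ := fun x j =>
    if x = 0 then 0 else ρ j (i (F x)) * sg (ω x + τ j (i (F x)))
  have cj : ContinuousOn (fun x => i (F x)) {0}ᶜ := i.continuous.comp_continuousOn c1
  have hf : ∀ j, ContinuousOn (fun x => f x j) {0}ᶜ := fun j => by
    refine ContinuousOn.congr (f := fun x => ρ j (i (F x)) * sg (ω x + τ j (i (F x)))) ?_
      fun x hx => if_neg hx
    intro x hx
    have hn : ({0}ᶜ : Set (Fin (N + 3) → ℝ)) ∈ nhds x := isOpen_compl_singleton.mem_nhds hx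
    refine ContinuousAt.continuousWithinAt ?_
    have cx : ContinuousAt (fun x => i (F x)) x := cj.continuousAt hn
    by_cases h : i (F x) ∈ U j
    · refine ((ρ j).continuous.continuousAt.comp cx).mul (continuousAt_const.congr
        (Filter.EventuallyEq.symm (f := fun x => sg (ω x + τ j (i (F x))))
          (g := fun _ => sg (ω x + τ j (i (F x)))) ?_))
      have := loc (φ := fun x => ω x + τ j (i (F x)))
        (cj.isOpen_inter_preimage isOpen_compl_singleton (hU j))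
        (fun g hg hg' => z2c _ _ _ _ ((hω g hg fun t => (hg' t).1).symm.trans
          (hp j (fun t => i (F (g t))) (cj.comp_continuous hg fun t => (hg' t).1)
            fun t => ⟨(hg' t).2, mem_univ _⟩))) ⟨hx, h⟩
      exact this.mono fun y hy => congrArg sg hy
    · refine continuousAt_const.congr (f := fun _ => (0 : ℝ)) ?_
      have : ∀ᶠ y in nhds (i (F x)), ρ j y = 0 :=
        notMem_tsupport_iff_eventuallyEq.1 fun h' => h (hρ j h')
      exact (cx.eventually this).mono fun y hy => by simp [hy]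
  obtain ⟨x, hx, hx'⟩ := Pool.Agent.H87.BU.bu (N + 2) (fun x j => if h : j.1 < N then f x ⟨j, h⟩ else 0)
    (continuousOn_pi.2 fun j => by
      split_ifs with h
      · exact (hf _).mono fun x hx e => by simp [mem_singleton_iff.1 e] at hx
      · exact continuousOn_const)
    (fun x => funext fun j => by
      simp only [Pi.neg_apply]
      split_ifs with h
      · by_cases h0 : x = 0
        · simp [f, h0]
        · simp only [f, neg_eq_zero, if_neg h0, hev, o2 x h0]
          rw [add_right_comm, hsg, mul_neg]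
      · simp)
  have h0 : x ≠ 0 := by rintro rfl; simp at hx
  obtain ⟨j, hj⟩ := ρ.exists_pos (mem_univ (i (F x)))
  have := congrFun hx' ⟨j, by omega⟩
  simp only [j.2, dif_pos, f, if_neg h0, Pi.zero_apply] at this
  exact mul_ne_zero hj.ne' (hsg0 _) this

end Pool.Agent.H74.KP
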