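import Mathlib

set_option autoImplicit false

namespace Pool.Agent.H74.Klein

open Set Topology Metric

def sg (n : ℤ) : ℤ := if n % 2 = 0 then 1 else -1

theorem sg_add (x y : ℤ) : sg (x + y) = sg x * sg y := by unfold sg; split_ifs <;> omega
theorem sg_neg (x : ℤ) : sg (-x) = sg x := by unfold sg; split_ifs <;> omega
theorem sg_sq (x : ℤ) : sg x * sg x = 1 := by unfold sg; split_ifs <;> rfl
theorem sg_zero : sg 0 = 1 := rfl

@[ext] structure G where
  m : ℤ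
  k : ℤ

instance : Mul G := ⟨fun g h => ⟨g.m + h.m, g.k + sg g.m * h.k⟩⟩
instance : One G := ⟨⟨0, 0⟩⟩
instance : Inv G := ⟨fun g => ⟨-g.m, -(sg g.m * g.k)⟩⟩

theorem mul_def (g h : G) : g * h = ⟨g.m + h.m, g.k + sg g.m * h.k⟩ := rfl
theorem one_def : (1 : G) = ⟨0, 0⟩ := rfl
theorem inv_def (g : G) : g⁻¹ = ⟨-g.m, -(sg g.m * g.k)⟩ := rfl

instance : Group G := Group.ofLeftAxioms
  (fun a b c => by ext <;> simp only [mul_def, sg_add] <;> ring)
  (fun a => by ext <;> simp [mul_def, one_def, sg])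
  (fun a => by ext <;> simp [mul_def, inv_def, one_def, sg_neg])

abbrev E := ℝ × ℝ

instance : MulAction G E where
  smul g x := (x.1 + 2 * g.m, sg g.m * x.2 + 2 * g.k)
  one_smul x := by
    change (x.1 + 2 * ((0 : ℤ) : ℝ), (sg 0 : ℤ) * x.2 + 2 * ((0 : ℤ) : ℝ)) = x
    simp [sg]
  mul_smul g h x := by
    change (x.1 + 2 * ((g.m + h.m : ℤ) : ℝ), (sg (g.m + h.m) : ℤ) * x.2 +
      2 * ((g.k + sg g.m * h.k : ℤ) : ℝ)) = (x.1 + 2 * h.m + 2 * g.m,
        (sg g.m : ℤ) * (sg h.m * x.2 + 2 * h.k) + 2 * g.k)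
    rw [sg_add]; push_cast; ext <;> simp only <;> ring

theorem smul_def (g : G) (x : E) : g • x = (x.1 + 2 * g.m, sg g.m * x.2 + 2 * g.k) := rfl

instance : ContinuousConstSMul G E := ⟨fun g => by simp only [smul_def]; fun_prop⟩

instance : IsCancelSMul G E where
  right_cancel' a b c h := by
    simp only [smul_def, Prod.mk.injEq, add_right_inj, mul_eq_mul_left_iff, Int.cast_inj,
      OfNat.ofNat_ne_zero, or_false] at h
    obtain ⟨h1, h2⟩ := h
    rw [h1] at h2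
    exact G.ext h1 (by simpa using h2)

theorem abs_sg (m : ℤ) (x : ℝ) : |(sg m : ℝ) * x| = |x| := by unfold sg; split_ifs <;> simp

instance : ProperlyDiscontinuousSMul G E := ⟨fun {K L} hK hL => by
  obtain ⟨R, hR⟩ := (hK.union hL).isBounded.exists_norm_le
  obtain ⟨N, hN⟩ := exists_nat_ge R
  refine (((finite_Icc (-N : ℤ) N).prod (finite_Icc (-N : ℤ) N)).image
    fun p => (⟨p.1, p.2⟩ : G)).subset ?_
  rintro g ⟨_, ⟨x, hx, rfl⟩, hy⟩
  have h1 := (norm_prod_le_iff.1 (hR x (Or.inl hx)))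
  have h2 := (norm_prod_le_iff.1 (hR _ (Or.inr hy)))
  simp only [smul_def, Real.norm_eq_abs] at h1 h2
  rw [← abs_sg g.m x.2] at h1
  simp only [abs_le] at h1 h2
  have : ∀ n : ℤ, -(N : ℝ) ≤ n → (n : ℝ) ≤ N → n ∈ Icc (-N : ℤ) N := fun n a b =>
    ⟨by exact_mod_cast a, by exact_mod_cast b⟩
  exact ⟨(g.m, g.k), ⟨this _ (by linarith) (by linarith), this _ (by linarith) (by linarith)⟩, rfl⟩⟩

abbrev X := MulAction.orbitRel.Quotient G E

def p : E → X := Quotient.mk _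

theorem hp : IsQuotientCoveringMap p G :=
  isQuotientCoveringMap_quotientMk_of_properlyDiscontinuousSMul

theorem cont_p : Continuous p := hp.continuous

theorem p_eq {x y : E} : p x = p y ↔ ∃ g : G, g • y = x := hp.apply_eq_iff_mem_orbit

theorem p_smul (g : G) (x : E) : p (g • x) = p x := p_eq.2 ⟨g, rfl⟩

instance : T2Space X := t2Space_of_properlyDiscontinuousSMul_of_t2Space

instance : PathConnectedSpace X := hp.surjective.pathConnectedSpace cont_p

theorem int0 {a b : ℝ} {n : ℤ} (h : b + 2 * n = a) (h1 : a - b < 2) (h2 : b - a < 2) : n = 0 := by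
  have h3 : (n : ℝ) < 1 := by linarith
  have h4 : (-1 : ℝ) < n := by linarith
  have : n < 1 := by exact_mod_cast h3
  have : -1 < n := by exact_mod_cast h4
  omega

theorem p_inj {x y : E} (h : p x = p y) (h1 : x.1 - y.1 < 2) (h2 : y.1 - x.1 < 2)
    (h3 : x.2 - y.2 < 2) (h4 : y.2 - x.2 < 2) : x = y := by
  obtain ⟨g, hg⟩ := p_eq.1 h
  have a1 := int0 (congrArg Prod.fst hg) h1 h2
  have a2 := congrArg Prod.snd hg
  simp only [smul_def, a1, sg_zero, Int.cast_one, one_mul] at a2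
  rw [← hg, show g = 1 from G.ext a1 (int0 a2 h3 h4), one_smul]

theorem fund (x : E) : ∃ y : E, p y = p x ∧ |y.1| ≤ 1 ∧ |y.2| ≤ 1 := by
  have : ∀ a : ℝ, ∃ n : ℤ, |a + 2 * n| ≤ 1 := fun a => ⟨-round (a / 2), by
    have := abs_le.1 (abs_sub_round (a / 2))
    rw [abs_le]; push_cast; constructor <;> linarith⟩
  obtain ⟨m, hm⟩ := this x.1
  obtain ⟨k, hk⟩ := this (sg m * x.2)
  exact ⟨_, p_smul ⟨m, k⟩ x, hm, hk⟩

def cell : ℕ → Type
  | 0 => Unit
  | 1 => Bool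
  | 2 => Unit
  | _ + 3 => Empty

def ch : (n : ℕ) → cell n → (Fin n → ℝ) → E
  | 0, _, _ => (-1, -1)
  | 1, true, u => (-1, u 0)
  | 1, false, u => (u 0, -1)
  | 2, _, u => (u 0, u 1)

theorem cont_ch : ∀ n i, Continuous (ch n i)
  | 0, _ => continuous_const
  | 1, true => by change Continuous fun u : Fin 1 → ℝ => ((-1 : ℝ), u 0); fun_prop
  | 1, false => by change Continuous fun u : Fin 1 → ℝ => (u 0, (-1 : ℝ)); fun_prop
  | 2, _ => by change Continuous fun u : Fin 2 → ℝ => (u 0, u 1); fun_prop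

theorem mb {n : ℕ} {u : Fin n → ℝ} : u ∈ ball (0 : Fin n → ℝ) 1 ↔ ∀ i, -1 < u i ∧ u i < 1 := by
  simp [pi_norm_lt_iff, abs_lt]

theorem mc {n : ℕ} {u : Fin n → ℝ} :
    u ∈ closedBall (0 : Fin n → ℝ) 1 ↔ ∀ i, -1 ≤ u i ∧ u i ≤ 1 := by
  simp [pi_norm_le_iff_of_nonneg, abs_le]

theorem ch_inj : ∀ n i, ∀ u ∈ closedBall (0 : Fin n → ℝ) 1, ∀ v ∈ ball (0 : Fin n → ℝ) 1,
    p (ch n i u) = p (ch n i v) → u = v
  | 0, _, _, _, _, _, _ => Subsingleton.elim _ _
  | 1, true, u, hu, v, hv, h => by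
    have := mc.1 hu 0; have := mb.1 hv 0
    have e := p_inj h (by norm_num [ch]) (by norm_num [ch]) (by simp only [ch]; linarith)
      (by simp only [ch]; linarith)
    ext i; fin_cases i; exact congrArg Prod.snd e
  | 1, false, u, hu, v, hv, h => by
    have := mc.1 hu 0; have := mb.1 hv 0
    have e := p_inj h (by simp only [ch]; linarith) (by simp only [ch]; linarith)
      (by norm_num [ch]) (by norm_num [ch])
    ext i; fin_cases i; exact congrArg Prod.fst e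
  | 2, _, u, hu, v, hv, h => by
    have := mc.1 hu 0; have := mb.1 hv 0; have := mc.1 hu 1; have := mb.1 hv 1
    have e := p_inj h (by simp only [ch]; linarith) (by simp only [ch]; linarith)
      (by simp only [ch]; linarith) (by simp only [ch]; linarith)
    ext i; fin_cases i
    · exact congrArg Prod.fst e
    · exact congrArg Prod.snd e

theorem ch_box : ∀ n i, ∀ u ∈ ball (0 : Fin n → ℝ) 1,
    (-1 ≤ (ch n i u).1 ∧ (ch n i u).1 < 1) ∧ -1 ≤ (ch n i u).2 ∧ (ch n i u).2 < 1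
  | 0, _, _, _ => by norm_num [ch]
  | 1, true, u, hu => ⟨by norm_num [ch], (mb.1 hu 0).1.le, (mb.1 hu 0).2⟩
  | 1, false, u, hu => ⟨⟨(mb.1 hu 0).1.le, (mb.1 hu 0).2⟩, by norm_num [ch]⟩
  | 2, _, u, hu => ⟨⟨(mb.1 hu 0).1.le, (mb.1 hu 0).2⟩, (mb.1 hu 1).1.le, (mb.1 hu 1).2⟩

noncomputable def lab (x : E) : Σ n, cell n :=
  if x.1 = -1 then if x.2 = -1 then ⟨0, ()⟩ else ⟨1, true⟩
  else if x.2 = -1 then ⟨1, false⟩ else ⟨2, ()⟩

theorem ch_lab : ∀ n i, ∀ u ∈ ball (0 : Fin n → ℝ) 1, lab (ch n i u) = ⟨n, i⟩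
  | 0, _, _, _ => by simp [lab, ch]; rfl
  | 1, true, u, hu => by simp [lab, ch, (mb.1 hu 0).1.ne']
  | 1, false, u, hu => by simp [lab, ch, (mb.1 hu 0).1.ne']
  | 2, _, u, hu => by simp [lab, ch, (mb.1 hu 0).1.ne', (mb.1 hu 1).1.ne']; rfl

noncomputable def cm (n : ℕ) (i : cell n) : PartialEquiv (Fin n → ℝ) X :=
  InjOn.toPartialEquiv (p ∘ ch n i) (ball 0 1) fun u hu v hv =>
    ch_inj n i u (ball_subset_closedBall hu) v hv

theorem cm_apply (n : ℕ) (i : cell n) (u : Fin n → ℝ) : cm n i u = p (ch n i u) := rfl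

theorem cm_cont (n : ℕ) (i : cell n) : Continuous (cm n i) := cont_p.comp (cont_ch n i)

theorem cm_symm (n : ℕ) (i : cell n) : ContinuousOn (cm n i).symm (cm n i).target := by
  rw [continuousOn_iff_isClosed]
  intro C hC
  refine ⟨cm n i '' (C ∩ closedBall 0 1),
    (((isCompact_closedBall _ _).inter_left hC).image (cm_cont n i)).isClosed, ?_⟩
  ext y
  refine and_congr_left fun hy => ⟨fun h => ⟨_, ⟨h, ball_subset_closedBall
    ((cm n i).map_target hy)⟩, (cm n i).right_inv hy⟩, ?_⟩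
  rintro ⟨u, ⟨h1, h2⟩, e⟩
  rwa [ch_inj n i u h2 _ ((cm n i).map_target hy) (e.trans ((cm n i).right_inv hy).symm)] at h1

theorem cm_maps : ∀ (n : ℕ) (i : cell n),
    MapsTo (cm n i) (sphere 0 1) (⋃ (m < n) (j : cell m), cm m j '' closedBall 0 1) := by
  have key : ∀ {n : ℕ} {u : Fin n → ℝ}, u ∈ sphere (0 : Fin n → ℝ) 1 →
      (∀ i, -1 ≤ u i ∧ u i ≤ 1) ∧ ∃ i, u i = -1 ∨ u i = 1 := fun {n u} hu => by
    have h1 := mc.1 (sphere_subset_closedBall hu)
    refine ⟨h1, ?_⟩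
    by_contra h
    push Not at h
    exact (mem_ball_zero_iff.1 (mb.2 fun i => ⟨(h1 i).1.lt_of_ne (h i).1.symm,
      (h1 i).2.lt_of_ne (h i).2⟩)).ne (mem_sphere_zero_iff_norm.1 hu)
  have mk : ∀ {n : ℕ} (m : ℕ) (j : cell m) (u : Fin m → ℝ) (g : G) {x : E}, m < n →
      (∀ i, -1 ≤ u i ∧ u i ≤ 1) → g • ch m j u = x →
      p x ∈ ⋃ (m < n) (j : cell m), cm m j '' closedBall 0 1 := fun m j u g x h1 h2 h3 =>
    mem_iUnion₂.2 ⟨m, h1, mem_iUnion.2 ⟨j, u, mc.2 h2, (p_eq.2 ⟨g, h3⟩).symm⟩⟩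
  intro n i u hu
  obtain ⟨h1, j, hj⟩ := key hu
  rw [cm_apply]
  match n, i, u, j, h1, hj with
  | 1, true, u, 0, _, Or.inl h => exact mk 0 () 0 ⟨0, 0⟩ one_pos (by simp) (by simp [smul_def, ch, h, sg])
  | 1, true, u, 0, _, Or.inr h =>
    exact mk 0 () 0 ⟨0, 1⟩ one_pos (by simp) (by norm_num [smul_def, ch, h, sg])
  | 1, false, u, 0, _, Or.inl h => exact mk 0 () 0 ⟨0, 0⟩ one_pos (by simp) (by simp [smul_def, ch, h, sg])
  | 1, false, u, 0, _, Or.inr h =>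
    exact mk 0 () 0 ⟨1, -1⟩ one_pos (by simp) (by norm_num [smul_def, ch, h, sg])
  | 2, _, u, 0, h1, Or.inl h =>
    exact mk 1 true (fun _ => u 1) ⟨0, 0⟩ one_lt_two (fun _ => h1 1) (by simp [smul_def, ch, h, sg])
  | 2, _, u, 0, h1, Or.inr h =>
    exact mk 1 true (fun _ => -u 1) ⟨1, 0⟩ one_lt_two
      (fun _ => ⟨by linarith [h1 1], by linarith [h1 1]⟩) (by norm_num [smul_def, ch, h, sg])
  | 2, _, u, 1, h1, Or.inl h =>
    exact mk 1 false (fun _ => u 0) ⟨0, 0⟩ one_lt_two (fun _ => h1 0) (by simp [smul_def, ch, h, sg])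
  | 2, _, u, 1, h1, Or.inr h =>
    exact mk 1 false (fun _ => u 0) ⟨0, 1⟩ one_lt_two (fun _ => h1 0)
      (by norm_num [smul_def, ch, h, sg])

theorem top_cell : cm 2 () '' closedBall 0 1 = univ := eq_univ_of_forall fun x => by
  obtain ⟨x, rfl⟩ := hp.surjective x
  obtain ⟨y, h, h1, h2⟩ := fund x
  exact ⟨![y.1, y.2], mc.2 (Fin.forall_fin_two.2 ⟨abs_le.1 h1, abs_le.1 h2⟩), h⟩

instance : CompactSpace X := ⟨top_cell ▸ (isCompact_closedBall _ _).image (cm_cont 2 ())⟩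

theorem cw : ∃ _ : CWComplex (univ : Set X), RelCWComplex.Finite (univ : Set X) := by
  have h1 : ∀ᶠ n in Filter.atTop, IsEmpty (cell n) := Filter.eventually_atTop.2 ⟨3, fun n hn => by
    obtain ⟨n, rfl⟩ := Nat.exists_eq_add_of_le' hn
    exact inferInstanceAs (IsEmpty Empty)⟩
  have h2 : ∀ n, Finite (cell n) := fun n => match n with
    | 0 => inferInstanceAs (Finite Unit)
    | 1 => inferInstanceAs (Finite Bool)
    | 2 => inferInstanceAs (Finite Unit)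
    | _ + 3 => inferInstanceAs (Finite Empty)
  have h3 : (univ : Set (Σ n, cell n)).PairwiseDisjoint (fun ni ↦ cm ni.1 ni.2 '' ball 0 1) := by
    rintro ⟨n, i⟩ - ⟨m, j⟩ - hne
    refine disjoint_left.2 ?_
    rintro _ ⟨u, hu, rfl⟩ ⟨v, hv, e⟩
    have a := ch_box n i u hu
    have b := ch_box m j v hv
    apply hne
    rw [← ch_lab n i u hu, ← ch_lab m j v hv,
      p_inj e (by linarith) (by linarith) (by linarith) (by linarith)]
  have h4 : ⋃ (n : ℕ) (j : cell n), cm n j '' closedBall 0 1 = univ :=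
    eq_univ_of_forall fun x => mem_iUnion₂.2 ⟨2, (), top_cell ▸ mem_univ x⟩
  exact ⟨_, CWComplex.finite_mkFinite univ cell cm h1 h2 (fun _ _ => rfl)
    (fun n i => (cm_cont n i).continuousOn) cm_symm h3 cm_maps h4⟩

end Pool.Agent.H74.Klein
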