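import Mathlib

set_option autoImplicit false

namespace Pool.Agent.H74.LSS

open Finset

def Hyp (Z : Fin 6 → Fin 6 → Fin 6 → Fin 6 → ℚ) : Prop :=
  (∀ a b c d, Z a b c d = Z b a c d) ∧ (∀ a b c d, Z a b c d = Z a c b d) ∧
  (∀ a b c d, Z a b c d = Z a b d c) ∧ (∀ a c d, 2 * Z a a c d = ∑ j, Z a j c d) ∧
  ∀ a b, a ≠ b → Z a b a b = 0

theorem z4 (Z : Fin 6 → Fin 6 → Fin 6 → Fin 6 → ℚ) (H : Hyp Z) : Z 0 1 2 3 = 0 := by
  obtain ⟨s1, s2, s3, h1, h2⟩ := H
  have t1 : ∀ a b c d, b < a → Z a b c d = Z b a c d := fun a b c d _ => s1 a b c d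
  have t2 : ∀ a b c d, c < b → Z a b c d = Z a c b d := fun a b c d _ => s2 a b c d
  have t3 : ∀ a b c d, d < c → Z a b c d = Z a b d c := fun a b c d _ => s3 a b c d
  have e0 := h1 0 0 1
  have e1 := h1 0 0 2
  have e2 := h1 0 0 3
  have e3 := h1 0 0 4
  have e4 := h1 0 0 5
  have e5 := h1 0 1 2
  have e6 := h1 0 1 3
  have e7 := h1 0 1 4
  have e8 := h1 0 1 5
  have e9 := h1 0 2 3
  have e10 := h1 0 2 4
  have e11 := h1 0 2 5
  have e12 := h1 0 3 4
  have e13 := h1 0 3 5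
  have e14 := h1 0 4 4
  have e15 := h1 0 4 5
  have e16 := h1 1 0 0
  have e17 := h1 1 0 2
  have e18 := h1 1 0 3
  have e19 := h1 1 0 4
  have e20 := h1 1 1 2
  have e21 := h1 1 1 3
  have e22 := h1 1 1 4
  have e23 := h1 1 1 5
  have e24 := h1 1 2 3
  have e25 := h1 1 2 4
  have e26 := h1 1 2 5
  have e27 := h1 1 3 4
  have e28 := h1 1 3 5
  have e29 := h1 1 4 4
  have e30 := h1 1 4 5
  have e31 := h1 2 0 0
  have e32 := h1 2 0 1
  have e33 := h1 2 0 3
  have e34 := h1 2 0 4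
  have e35 := h1 2 1 1
  have e36 := h1 2 1 3
  have e37 := h1 2 1 4
  have e38 := h1 2 2 3
  have e39 := h1 2 2 4
  have e40 := h1 2 2 5
  have e41 := h1 2 3 4
  have e42 := h1 2 3 5
  have e43 := h1 2 4 4
  have e44 := h1 2 4 5
  have e45 := h1 3 0 0
  have e46 := h1 3 0 1
  have e47 := h1 3 0 2
  have e48 := h1 3 0 4
  have e49 := h1 3 1 1
  have e50 := h1 3 1 2
  have e51 := h1 3 1 4
  have e52 := h1 3 2 2
  have e53 := h1 3 2 4
  have e54 := h1 3 3 4
  have e55 := h1 3 3 5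
  have e56 := h1 3 4 4
  have e57 := h1 3 4 5
  have e58 := h1 4 0 0
  have e59 := h1 4 0 1
  have e60 := h1 4 0 2
  have e61 := h1 4 0 3
  have e62 := h1 4 0 4
  have e63 := h1 4 1 1
  have e64 := h1 4 1 2
  have e65 := h1 4 1 3
  have e66 := h1 4 1 4
  have e67 := h1 4 2 2
  have e68 := h1 4 2 3
  have e69 := h1 4 2 4
  have e70 := h1 4 3 3
  have e71 := h1 4 3 4
  have e72 := h1 4 4 5
  have e73 := h1 5 0 0
  have e74 := h1 5 0 1
  have e75 := h1 5 0 2
  have e76 := h1 5 0 3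
  have e77 := h1 5 0 4
  have e78 := h1 5 1 1
  have e79 := h1 5 1 2
  have e80 := h1 5 1 3
  have e81 := h1 5 1 4
  have e82 := h1 5 2 2
  have e83 := h1 5 2 3
  have e84 := h1 5 2 4
  have e85 := h1 5 3 3
  have e86 := h1 5 3 4
  have e87 := h1 5 4 4
  simp only [Fin.sum_univ_six] at e0 e1 e2 e3 e4 e5 e6 e7 e8 e9 e10 e11 e12 e13 e14 e15 e16 e17 e18 e19 e20 e21 e22 e23 e24 e25 e26 e27 e28 e29 e30 e31 e32 e33 e34 e35 e36 e37 e38 e39 e40 e41 e42 e43 e44 e45 e46 e47 e48 e49 e50 e51 e52 e53 e54 e55 e56 e57 e58 e59 e60 e61 e62 e63 e64 e65 e66 e67 e68 e69 e70 e71 e72 e73 e74 e75 e76 e77 e78 e79 e80 e81 e82 e83 e84 e85 e86 e87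
  simp (disch := decide) only [t1, t2, t3] at e0 e1 e2 e3 e4 e5 e6 e7 e8 e9 e10 e11 e12 e13 e14 e15 e16 e17 e18 e19 e20 e21 e22 e23 e24 e25 e26 e27 e28 e29 e30 e31 e32 e33 e34 e35 e36 e37 e38 e39 e40 e41 e42 e43 e44 e45 e46 e47 e48 e49 e50 e51 e52 e53 e54 e55 e56 e57 e58 e59 e60 e61 e62 e63 e64 e65 e66 e67 e68 e69 e70 e71 e72 e73 e74 e75 e76 e77 e78 e79 e80 e81 e82 e83 e84 e85 e86 e87
  linear_combination (1/24) * e0
    + (1/24) * e1
    + (1/24) * e2
    + (1/24) * e3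
    + (-1/24) * e4
    + (-1/24) * e5
    + (-1/24) * e6
    + (1/8) * e7
    + (1/24) * e8
    + (-1/24) * e9
    + (1/8) * e10
    + (1/24) * e11
    + (1/8) * e12
    + (1/24) * e13
    + (-1/12) * e14
    + (-1/24) * e15
    + (1/24) * e16
    + (-1/12) * e17
    + (-1/12) * e18
    + (1/12) * e19
    + (1/24) * e20
    + (1/24) * e21
    + (1/24) * e22
    + (-1/24) * e23
    + (-1/24) * e24
    + (1/8) * e25
    + (1/24) * e26
    + (1/8) * e27
    + (1/24) * e28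
    + (-1/12) * e29
    + (-1/24) * e30
    + (1/24) * e31
    + (-1/8) * e32
    + (-1/12) * e33
    + (1/12) * e34
    + (1/24) * e35
    + (-1/12) * e36
    + (1/12) * e37
    + (1/24) * e38
    + (1/24) * e39
    + (-1/24) * e40
    + (1/8) * e41
    + (1/24) * e42
    + (-1/12) * e43
    + (-1/24) * e44
    + (1/24) * e45
    + (-1/8) * e46
    + (-1/8) * e47
    + (1/12) * e48
    + (1/24) * e49
    + (-1/8) * e50
    + (1/12) * e51
    + (1/24) * e52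
    + (1/12) * e53
    + (1/24) * e54
    + (-1/24) * e55
    + (-1/12) * e56
    + (-1/24) * e57
    + (1/24) * e58
    + (-1/8) * e59
    + (-1/8) * e60
    + (-1/8) * e61
    + (-1/12) * e62
    + (1/24) * e63
    + (-1/8) * e64
    + (-1/8) * e65
    + (-1/12) * e66
    + (1/24) * e67
    + (-1/8) * e68
    + (-1/12) * e69
    + (1/24) * e70
    + (-1/12) * e71
    + (1/8) * e72
    + (-1/24) * e73
    + (1/24) * e74
    + (1/24) * e75
    + (1/24) * e76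
    + (-1/24) * e77
    + (-1/24) * e78
    + (1/24) * e79
    + (1/24) * e80
    + (-1/24) * e81
    + (-1/24) * e82
    + (1/24) * e83
    + (-1/24) * e84
    + (-1/24) * e85
    + (-1/24) * e86
    + (1/8) * e87

theorem z3 (Z : Fin 6 → Fin 6 → Fin 6 → Fin 6 → ℚ) (H : Hyp Z) : Z 0 0 1 2 = 0 := by
  obtain ⟨s1, s2, s3, h1, h2⟩ := H
  have t1 : ∀ a b c d, b < a → Z a b c d = Z b a c d := fun a b c d _ => s1 a b c d
  have t2 : ∀ a b c d, c < b → Z a b c d = Z a c b d := fun a b c d _ => s2 a b c d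
  have t3 : ∀ a b c d, d < c → Z a b c d = Z a b d c := fun a b c d _ => s3 a b c d
  have e0 := h1 0 0 1
  have e1 := h1 0 0 2
  have e2 := h1 0 0 3
  have e3 := h1 0 0 4
  have e4 := h1 0 0 5
  have e5 := h1 0 1 1
  have e6 := h1 0 1 2
  have e7 := h1 0 1 3
  have e8 := h1 0 1 4
  have e9 := h1 0 1 5
  have e10 := h1 0 2 2
  have e11 := h1 0 2 3
  have e12 := h1 0 2 4
  have e13 := h1 0 2 5
  have e14 := h1 0 3 3
  have e15 := h1 0 3 4
  have e16 := h1 0 3 5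
  have e17 := h1 0 4 4
  have e18 := h1 0 4 5
  have e19 := h1 1 0 0
  have e20 := h1 1 0 1
  have e21 := h1 1 0 2
  have e22 := h1 1 0 3
  have e23 := h1 1 0 4
  have e24 := h1 1 1 2
  have e25 := h1 1 1 3
  have e26 := h1 1 1 4
  have e27 := h1 1 1 5
  have e28 := h1 1 2 2
  have e29 := h1 1 2 3
  have e30 := h1 1 2 4
  have e31 := h1 1 2 5
  have e32 := h1 1 3 3
  have e33 := h1 1 3 4
  have e34 := h1 1 3 5
  have e35 := h1 1 4 4
  have e36 := h1 1 4 5
  have e37 := h1 2 0 0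
  have e38 := h1 2 0 1
  have e39 := h1 2 0 2
  have e40 := h1 2 0 3
  have e41 := h1 2 0 4
  have e42 := h1 2 1 1
  have e43 := h1 2 1 2
  have e44 := h1 2 1 3
  have e45 := h1 2 1 4
  have e46 := h1 2 2 3
  have e47 := h1 2 2 4
  have e48 := h1 2 2 5
  have e49 := h1 2 3 3
  have e50 := h1 2 3 4
  have e51 := h1 2 3 5
  have e52 := h1 2 4 4
  have e53 := h1 2 4 5
  have e54 := h1 3 0 0
  have e55 := h1 3 0 1
  have e56 := h1 3 0 2
  have e57 := h1 3 0 3
  have e58 := h1 3 0 4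
  have e59 := h1 3 1 1
  have e60 := h1 3 1 2
  have e61 := h1 3 1 3
  have e62 := h1 3 1 4
  have e63 := h1 3 2 2
  have e64 := h1 3 2 3
  have e65 := h1 3 2 4
  have e66 := h1 3 3 4
  have e67 := h1 3 3 5
  have e68 := h1 3 4 4
  have e69 := h1 3 4 5
  have e70 := h1 4 0 0
  have e71 := h1 4 0 1
  have e72 := h1 4 0 2
  have e73 := h1 4 0 3
  have e74 := h1 4 0 4
  have e75 := h1 4 1 1
  have e76 := h1 4 1 2
  have e77 := h1 4 1 3
  have e78 := h1 4 1 4
  have e79 := h1 4 2 2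
  have e80 := h1 4 2 3
  have e81 := h1 4 2 4
  have e82 := h1 4 3 3
  have e83 := h1 4 3 4
  have e84 := h1 4 4 5
  have e85 := h1 5 0 0
  have e86 := h1 5 0 1
  have e87 := h1 5 0 2
  have e88 := h1 5 0 3
  have e89 := h1 5 0 4
  have e90 := h1 5 1 1
  have e91 := h1 5 1 2
  have e92 := h1 5 1 3
  have e93 := h1 5 1 4
  have e94 := h1 5 2 2
  have e95 := h1 5 2 3
  have e96 := h1 5 2 4
  have e97 := h1 5 3 3
  have e98 := h1 5 3 4
  have e99 := h1 5 4 4
  simp only [Fin.sum_univ_six] at e0 e1 e2 e3 e4 e5 e6 e7 e8 e9 e10 e11 e12 e13 e14 e15 e16 e17 e18 e19 e20 e21 e22 e23 e24 e25 e26 e27 e28 e29 e30 e31 e32 e33 e34 e35 e36 e37 e38 e39 e40 e41 e42 e43 e44 e45 e46 e47 e48 e49 e50 e51 e52 e53 e54 e55 e56 e57 e58 e59 e60 e61 e62 e63 e64 e65 e66 e67 e68 e69 e70 e71 e72 e73 e74 e75 e76 e77 e78 e79 e80 e81 e82 e83 e84 e85 e86 e87 e88 e89 e90 e91 e92 e93 e94 e95 e96 e97 e98 e99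
  simp (disch := decide) only [t1, t2, t3] at e0 e1 e2 e3 e4 e5 e6 e7 e8 e9 e10 e11 e12 e13 e14 e15 e16 e17 e18 e19 e20 e21 e22 e23 e24 e25 e26 e27 e28 e29 e30 e31 e32 e33 e34 e35 e36 e37 e38 e39 e40 e41 e42 e43 e44 e45 e46 e47 e48 e49 e50 e51 e52 e53 e54 e55 e56 e57 e58 e59 e60 e61 e62 e63 e64 e65 e66 e67 e68 e69 e70 e71 e72 e73 e74 e75 e76 e77 e78 e79 e80 e81 e82 e83 e84 e85 e86 e87 e88 e89 e90 e91 e92 e93 e94 e95 e96 e97 e98 e99
  linear_combination (-1/24) * e0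
    + (-1/24) * e1
    + (-1/24) * e2
    + (-1/24) * e3
    + (1/24) * e4
    + (-1/12) * e5
    + (7/24) * e6
    + (-1/24) * e7
    + (-1/24) * e8
    + (1/24) * e9
    + (-1/12) * e10
    + (-1/24) * e11
    + (-1/24) * e12
    + (1/24) * e13
    + (1/12) * e14
    + (-1/8) * e15
    + (-1/24) * e16
    + (1/12) * e17
    + (-1/24) * e18
    + (-1/24) * e19
    + (-1/12) * e20
    + (-1/4) * e21
    + (-1/12) * e22
    + (-1/12) * e23
    + (-1/24) * e24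
    + (-1/24) * e25
    + (-1/24) * e26
    + (1/24) * e27
    + (-1/12) * e28
    + (-1/24) * e29
    + (-1/24) * e30
    + (1/24) * e31
    + (1/12) * e32
    + (-1/8) * e33
    + (-1/24) * e34
    + (1/12) * e35
    + (-1/24) * e36
    + (-1/24) * e37
    + (-7/24) * e38
    + (-1/12) * e39
    + (-1/12) * e40
    + (-1/12) * e41
    + (-1/24) * e42
    + (-1/12) * e43
    + (-1/12) * e44
    + (-1/12) * e45
    + (-1/24) * e46
    + (-1/24) * e47
    + (1/24) * e48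
    + (1/12) * e49
    + (-1/8) * e50
    + (-1/24) * e51
    + (1/12) * e52
    + (-1/24) * e53
    + (-1/24) * e54
    + (5/24) * e55
    + (5/24) * e56
    + (1/12) * e57
    + (1/12) * e58
    + (-1/24) * e59
    + (5/24) * e60
    + (1/12) * e61
    + (1/12) * e62
    + (-1/24) * e63
    + (1/12) * e64
    + (1/12) * e65
    + (1/24) * e66
    + (-1/24) * e67
    + (-1/12) * e68
    + (1/8) * e69
    + (-1/24) * e70
    + (5/24) * e71
    + (5/24) * e72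
    + (-1/24) * e73
    + (1/12) * e74
    + (-1/24) * e75
    + (5/24) * e76
    + (-1/24) * e77
    + (1/12) * e78
    + (-1/24) * e79
    + (-1/24) * e80
    + (1/12) * e81
    + (1/24) * e82
    + (-1/12) * e83
    + (-1/24) * e84
    + (1/24) * e85
    + (1/24) * e86
    + (1/24) * e87
    + (-1/24) * e88
    + (-1/24) * e89
    + (1/24) * e90
    + (1/24) * e91
    + (-1/24) * e92
    + (-1/24) * e93
    + (1/24) * e94
    + (-1/24) * e95
    + (-1/24) * e96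
    + (-1/24) * e97
    + (1/8) * e98
    + (-1/24) * e99

theorem Hyp.perm {Z : Fin 6 → Fin 6 → Fin 6 → Fin 6 → ℚ} (H : Hyp Z) (σ : Equiv.Perm (Fin 6)) :
    Hyp (fun a b c d => Z (σ a) (σ b) (σ c) (σ d)) := by
  obtain ⟨s1, s2, s3, h1, h2⟩ := H
  refine ⟨fun a b c d => s1 _ _ _ _, fun a b c d => s2 _ _ _ _, fun a b c d => s3 _ _ _ _,
    fun a c d => ?_, fun a b h => h2 _ _ (σ.injective.ne h)⟩
  rw [h1]
  exact (Equiv.sum_comp σ (fun j => Z (σ a) j (σ c) (σ d))).symm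

theorem Hyp.edge {Z : Fin 6 → Fin 6 → Fin 6 → Fin 6 → ℚ} (H : Hyp Z) (a b c d : Fin 6)
    (hab : a ≠ b) (hcd : c ≠ d) : Z a b c d = 0 := by
  have k3 : ∀ a b c, a ≠ b → a ≠ c → b ≠ c → Z a a b c = 0 := by
    intro a b c h1 h2 h3
    obtain ⟨σ, hσ⟩ := Equiv.Perm.exists_extending_pair (f := ![(0 : Fin 6), 1, 2]) (g := ![a, b, c])
      (by decide) (by
        intro i j
        fin_cases i <;> fin_cases j <;> simp_all [eq_comm])
    have := z3 _ (H.perm σ)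
    have e0 : σ 0 = a := hσ 0
    have e1 : σ 1 = b := hσ 1
    have e2 : σ 2 = c := hσ 2
    rwa [e0, e1, e2] at this
  have k4 : ∀ a b c d, a ≠ b → a ≠ c → a ≠ d → b ≠ c → b ≠ d → c ≠ d → Z a b c d = 0 := by
    intro a b c d h1 h2 h3 h4 h5 h6
    obtain ⟨σ, hσ⟩ := Equiv.Perm.exists_extending_pair (f := ![(0 : Fin 6), 1, 2, 3])
      (g := ![a, b, c, d]) (by decide) (by
        intro i j
        fin_cases i <;> fin_cases j <;> simp_all [eq_comm])
    have := z4 _ (H.perm σ)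
    have e0 : σ 0 = a := hσ 0
    have e1 : σ 1 = b := hσ 1
    have e2 : σ 2 = c := hσ 2
    have e3 : σ 3 = d := hσ 3
    rwa [e0, e1, e2, e3] at this
  obtain ⟨s1, s2, s3, h1, h2⟩ := H
  have k5 : ∀ a b d, a ≠ b → a ≠ d → Z a b a d = 0 := by
    intro a b d h3 h4
    by_cases h : b = d
    · subst h; exact h2 a b h3
    · rw [s2]; exact k3 a b d h3 h4 h
  by_cases hac : a = c
  · subst hac; exact k5 a b d hab hcd
  by_cases had : a = d
  · subst had; rw [s3]; exact k5 a b c hab hac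
  by_cases hbc : b = c
  · subst hbc; rw [s1]; exact k5 b a d hab.symm hcd
  by_cases hbd : b = d
  · subst hbd; rw [s1, s3]; exact k5 b a c hab.symm hbc
  exact k4 a b c d hab hac had hbc hbd hcd

end Pool.Agent.H74.LSS
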