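import Mathlib
import Pool.Agent.H74.LSS1

set_option autoImplicit false

namespace Pool.Agent.H74.LSS

open Finset Matrix

def Inc : Matrix (Fin 6) (Fin 15) ℚ := !![1, 0, 1, 0, 0, 0, 1, 1, 1, 0, 0, 0, 0, 0, 0;
    1, 1, 0, 0, 0, 0, 0, 0, 0, 1, 1, 1, 0, 0, 0;
    0, 1, 1, 0, 0, 0, 0, 0, 0, 0, 0, 0, 1, 1, 1;
    0, 0, 0, 1, 0, 1, 1, 0, 0, 1, 0, 0, 1, 0, 0;
    0, 0, 0, 1, 1, 0, 0, 1, 0, 0, 1, 0, 0, 1, 0;
    0, 0, 0, 0, 1, 1, 0, 0, 1, 0, 0, 1, 0, 0, 1]

def A0 : Matrix (Fin 15) (Fin 9) ℚ := !![-1/2, -1/2, -1/2, -1/2, -1/2, -1/2, 1/2, 1/2, 1/2;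
    1/2, 1/2, 1/2, -1/2, -1/2, -1/2, -1/2, -1/2, -1/2;
    -1/2, -1/2, -1/2, 1/2, 1/2, 1/2, -1/2, -1/2, -1/2;
    -1/2, -1/2, 1/2, -1/2, -1/2, 1/2, -1/2, -1/2, 1/2;
    1/2, -1/2, -1/2, 1/2, -1/2, -1/2, 1/2, -1/2, -1/2;
    -1/2, 1/2, -1/2, -1/2, 1/2, -1/2, -1/2, 1/2, -1/2;
    1, 0, 0, 0, 0, 0, 0, 0, 0;
    0, 1, 0, 0, 0, 0, 0, 0, 0;
    0, 0, 1, 0, 0, 0, 0, 0, 0;
    0, 0, 0, 1, 0, 0, 0, 0, 0;
    0, 0, 0, 0, 1, 0, 0, 0, 0;
    0, 0, 0, 0, 0, 1, 0, 0, 0;
    0, 0, 0, 0, 0, 0, 1, 0, 0;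
    0, 0, 0, 0, 0, 0, 0, 1, 0;
    0, 0, 0, 0, 0, 0, 0, 0, 1]

def C0 : Matrix (Fin 15) (Fin 6) ℚ := !![1/2, 1/2, -1/2, 0, 0, 0;
    -1/2, 1/2, 1/2, 0, 0, 0;
    1/2, -1/2, 1/2, 0, 0, 0;
    0, 0, 0, 1/2, 1/2, -1/2;
    0, 0, 0, -1/2, 1/2, 1/2;
    0, 0, 0, 1/2, -1/2, 1/2;
    0, 0, 0, 0, 0, 0;
    0, 0, 0, 0, 0, 0;
    0, 0, 0, 0, 0, 0;
    0, 0, 0, 0, 0, 0;
    0, 0, 0, 0, 0, 0;
    0, 0, 0, 0, 0, 0;
    0, 0, 0, 0, 0, 0;
    0, 0, 0, 0, 0, 0;
    0, 0, 0, 0, 0, 0]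

def P2 : Matrix (Fin 9) (Fin 15) ℚ := of fun l e => if e.val = l.val + 6 then 1 else 0

def TT : Fin 3 → Fin 5 → Fin 15 := ![![1, 3, 4, 5, 13], ![0, 6, 7, 10, 11], ![2, 8, 9, 12, 14]]

def vv : Fin 3 → Fin 6 := ![0, 2, 4]

def Ni : Fin 3 → Matrix (Fin 6) (Fin 6) ℚ := ![!![0, 1, 0, 0, 0, 0;
    0, 1/2, -1/2, 1/2, 1/2, -1/2;
    0, 1/2, -1/2, -1/2, 1/2, 1/2;
    0, -1/2, 1/2, 1/2, -1/2, 1/2;
    0, -1, 1, 0, 0, 0;
    1, 0, 0, 0, 0, 0],
  !![1/2, 1/2, 0, -1/2, -1/2, -1/2;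
    0, 0, 0, 1, 0, 0;
    1/2, -1/2, 0, -1/2, 1/2, 1/2;
    -1/2, 1/2, 0, 1/2, 1/2, -1/2;
    0, 0, 0, 0, 0, 1;
    0, 0, 1, 0, 0, 0],
  !![1/2, 1/2, 1/2, -1/2, 0, -1/2;
    1/2, -1/2, -1/2, 1/2, 0, 1/2;
    0, 1, 0, 0, 0, 0;
    0, -1, 0, 1, 0, 0;
    -1/2, 1/2, 1/2, -1/2, 0, 1/2;
    0, 0, 0, 0, 1, 0]]

section defs
variable {R : Type} [CommRing R]

def Th (K : Matrix (Fin 6) (Fin 15) R) :
    Matrix ((Fin 6 × Fin 6 × Fin 6 × Fin 6) ⊕ Fin 15) (Fin 15 × Fin 15) R :=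
  of fun r p => Sum.elim (fun q : Fin 6 × Fin 6 × Fin 6 × Fin 6 =>
    K q.1 p.1 * K q.2.1 p.1 * (K q.2.2.1 p.2 * K q.2.2.2 p.2)
      - K q.1 p.1 * K q.2.2.1 p.1 * (K q.2.1 p.2 * K q.2.2.2 p.2))
    (fun e => if p = (e, e) then 1 else 0) r

def Nm (K : Matrix (Fin 6) (Fin 15) R) (l : Fin 3) : Matrix (Fin 6) (Fin 6) R :=
  of fun a j => if h : j.val < 5 then K a (TT l ⟨j.val, h⟩) else if a = vv l then 1 else 0

def ell (K : Matrix (Fin 6) (Fin 15) R) (t : Fin 6 → R) (l : Fin 3) : R :=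
  ∑ a, (Nm K l).adjugate 5 a * t a

def KK (c : ℚ →+* R) (A : Matrix (Fin 15) (Fin 9) R) : Matrix (Fin 6) (Fin 15) R :=
  Inc.map c * ((P2.map c * A).det • (1 : Matrix (Fin 15) (Fin 15) R)
    - A * (P2.map c * A).adjugate * P2.map c)

def GG (c : ℚ →+* R) (L : Matrix (Fin 15 × Fin 15) ((Fin 6 × Fin 6 × Fin 6 × Fin 6) ⊕ Fin 15) ℚ)
    (A : Matrix (Fin 15) (Fin 9) R) (t : Fin 15 → R) : R :=
  (L.map c * Th (KK c A)).det * ∏ l, ell (KK c A) (KK c A *ᵥ t) l

variable {S : Type} [CommRing S] (φ : R →+* S)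

theorem Th_map (K : Matrix (Fin 6) (Fin 15) R) : (Th K).map φ = Th (K.map φ) := by
  ext r p
  rcases r with q | e
  · simp [Th]
  · simp only [Th, map_apply, of_apply, Sum.elim_inr]
    split_ifs <;> simp

theorem Nm_map (K : Matrix (Fin 6) (Fin 15) R) (l : Fin 3) : (Nm K l).map φ = Nm (K.map φ) l := by
  ext a j
  simp only [Nm, map_apply, of_apply]
  split_ifs <;> simp

theorem adj_map {n : Type} [Fintype n] [DecidableEq n] (M : Matrix n n R) :
    M.adjugate.map φ = (M.map φ).adjugate := φ.map_adjugate M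

theorem det_map' {n : Type} [Fintype n] [DecidableEq n] (M : Matrix n n R) :
    φ M.det = (M.map φ).det := φ.map_det M

theorem ell_map (K : Matrix (Fin 6) (Fin 15) R) (t : Fin 6 → R) (l : Fin 3) :
    φ (ell K t l) = ell (K.map φ) (φ ∘ t) l := by
  simp only [ell, map_sum, map_mul, ← Nm_map, ← adj_map, map_apply, Function.comp]

theorem KK_map (c : ℚ →+* R) (A : Matrix (Fin 15) (Fin 9) R) :
    (KK c A).map φ = KK (φ.comp c) (A.map φ) := by
  have e : ∀ {m n : Type} (M : Matrix m n ℚ), (M.map c).map φ = M.map (φ.comp c) := fun M => rfl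
  rw [KK, KK, Matrix.map_mul, Matrix.map_sub _ (map_sub φ), Matrix.map_mul, Matrix.map_mul, adj_map,
    Matrix.map_mul, e, e]
  congr 2
  rw [← e P2, ← Matrix.map_mul, ← det_map']
  ext i j
  by_cases h : i = j <;> simp [h, one_apply]

theorem GG_map (c : ℚ →+* R) (L) (A : Matrix (Fin 15) (Fin 9) R) (t : Fin 15 → R) :
    φ (GG c L A t) = GG (φ.comp c) L (A.map φ) (φ ∘ t) := by
  rw [GG, GG, map_mul, det_map', Matrix.map_mul, Th_map, KK_map, map_prod]
  congr 1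
  apply prod_congr rfl
  intro l _
  rw [ell_map, KK_map, ← KK_map]
  congr 1
  funext a
  exact φ.map_mulVec _ _ a

theorem KK_mul (c : ℚ →+* R) (A : Matrix (Fin 15) (Fin 9) R) : KK c A * A = 0 := by
  rw [KK, Matrix.mul_assoc, Matrix.sub_mul, Matrix.mul_assoc, Matrix.mul_assoc, adjugate_mul]
  simp

end defs

theorem f1 : P2 * A0 = 1 := by decide +kernel
theorem f2 : Inc * A0 = 0 := by decide +kernel
theorem f3 : Inc * C0 = 1 := by decide +kernel
theorem f4 : C0 * Inc + A0 * P2 = 1 := by decide +kernel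
theorem f5 : ∀ l, Nm Inc l * Ni l = 1 := by decide +kernel
theorem f6 : ∀ l j, Nm Inc l (vv l) j = if j = 5 then 1 else 0 := by decide +kernel
theorem f7 : ∀ e, ∃ l j, TT l j = e := by decide +kernel
theorem f8 : ∀ e : Fin 15, ∃ a b : Fin 6, a ≠ b ∧
    ∀ e', Inc a e' * Inc b e' = if e' = e then 1 else 0 := by decide +kernel
theorem f9 : ∀ a b : Fin 6, a ≠ b → ∃ e : Fin 15,
    ∀ e', Inc a e' * Inc b e' = if e' = e then 1 else 0 := by decide +kernel
theorem f10 : ∀ a e, 2 * (Inc a e * Inc a e) = ∑ j, Inc a e * Inc j e := by decide +kernel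

theorem exL : ∃ L : Matrix (Fin 15 × Fin 15) ((Fin 6 × Fin 6 × Fin 6 × Fin 6) ⊕ Fin 15) ℚ,
    L * Th Inc = 1 := by
  have hk : LinearMap.ker (toLin' (Th Inc)) = ⊥ := by
    rw [LinearMap.ker_eq_bot']
    intro y hy
    rw [toLin'_apply] at hy
    let Z : Fin 6 → Fin 6 → Fin 6 → Fin 6 → ℚ := fun a b c d =>
      ∑ p : Fin 15 × Fin 15, Inc a p.1 * Inc b p.1 * (Inc c p.2 * Inc d p.2) * y p
    have hZ : ∀ a b c d e e', (∀ x, Inc a x * Inc b x = if x = e then 1 else 0) →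
        (∀ x, Inc c x * Inc d x = if x = e' then 1 else 0) → Z a b c d = y (e, e') := by
      intro a b c d e e' h1 h2
      simp only [Z, h1, h2, Fintype.sum_prod_type]
      simp
    have H : Hyp Z := by
      refine ⟨fun a b c d => ?_, fun a b c d => ?_, fun a b c d => ?_, fun a c d => ?_,
        fun a b h => ?_⟩
      · exact sum_congr rfl (fun p _ => by ring)
      · have := congrFun hy (Sum.inl (a, b, c, d))
        simp only [mulVec, dotProduct, Th, of_apply, Sum.elim_inl, sub_mul, sum_sub_distrib,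
          Pi.zero_apply] at this
        exact sub_eq_zero.1 this
      · exact sum_congr rfl (fun p _ => by ring)
      · simp only [Z]
        rw [sum_comm, mul_sum]
        apply sum_congr rfl
        intro p _
        rw [← sum_mul, ← sum_mul, ← f10]
        ring
      · obtain ⟨e, he⟩ := f9 a b h
        rw [hZ a b a b e e he he]
        have := congrFun hy (Sum.inr e)
        simpa [mulVec, dotProduct, Th] using this
    funext ⟨e, e'⟩
    obtain ⟨a, b, h1, h2⟩ := f8 e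
    obtain ⟨c, d, h3, h4⟩ := f8 e'
    rw [← hZ a b c d e e' h2 h4]
    exact H.edge a b c d h1 h3
  obtain ⟨g, hg⟩ := LinearMap.exists_leftInverse_of_injective _ hk
  refine ⟨LinearMap.toMatrix' g, ?_⟩
  have := congrArg LinearMap.toMatrix' hg
  rwa [LinearMap.toMatrix'_comp, LinearMap.toMatrix'_toLin', LinearMap.toMatrix'_id] at this

theorem vanish {k : Type} [Field k] (c : ℚ →+* k) (L) (A B : Matrix (Fin 15) (Fin 9) k)
    (t D : Fin 15 → k) (h : A * Bᵀ + B * Aᵀ + vecMulVec t t = diagonal D) : GG c L A t = 0 := by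
  set K := KK c A with hK
  have h0 : K * A = 0 := KK_mul c A
  set τ := K *ᵥ t with hτ
  have h1 : ∀ a b, ∑ e, K a e * K b e * D e = τ a * τ b := by
    intro a b
    have h2 : K * diagonal D * Kᵀ = vecMulVec τ τ := by
      rw [← h, Matrix.mul_add, Matrix.mul_add, Matrix.add_mul, Matrix.add_mul, ← Matrix.mul_assoc,
        h0, Matrix.mul_assoc K (B * Aᵀ), Matrix.mul_assoc B, ← transpose_mul, h0]
      simp [mul_vecMulVec, vecMulVec_mul, vecMul_transpose, hτ]
    have h3 := congrFun (congrFun h2 a) b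
    rw [mul_apply, vecMulVec_apply] at h3
    rw [← h3]
    apply sum_congr rfl
    intro e _
    rw [mul_diagonal, transpose_apply]
    ring
  rw [GG, ← hK, ← hτ]
  by_contra hne
  obtain ⟨hd, hp⟩ := mul_ne_zero_iff.1 hne
  have h2 : ∀ e e', e ≠ e' → D e * D e' = 0 := by
    by_contra h3
    push Not at h3
    obtain ⟨e, e', h3, h4⟩ := h3
    apply hd
    rw [← exists_mulVec_eq_zero_iff]
    refine ⟨fun p => if p.1 = p.2 then 0 else D p.1 * D p.2, fun h5 => ?_, ?_⟩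
    · have := congrFun h5 (e, e')
      simp only [if_neg h3, Pi.zero_apply] at this
      exact h4 this
    · rw [← mulVec_mulVec]
      have : Th K *ᵥ (fun p => if p.1 = p.2 then 0 else D p.1 * D p.2) = 0 := by
        funext r
        rcases r with ⟨a, b, c, d⟩ | e
        · have e1 : ∀ a b c d, ∑ p : Fin 15 × Fin 15, K a p.1 * K b p.1 * (K c p.2 * K d p.2)
              * (D p.1 * D p.2) = τ a * τ b * (τ c * τ d) := by
            intro a b c d
            rw [← h1, ← h1, sum_mul_sum, Fintype.sum_prod_type]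
            exact sum_congr rfl (fun _ _ => sum_congr rfl (fun _ _ => by ring))
          have e2 := e1 a b c d
          have e3 := e1 a c b d
          simp only [mulVec, dotProduct, Th, of_apply, Sum.elim_inl, Pi.zero_apply]
          calc _ = ∑ p : Fin 15 × Fin 15, (K a p.1 * K b p.1 * (K c p.2 * K d p.2) * (D p.1 * D p.2)
                - K a p.1 * K c p.1 * (K b p.2 * K d p.2) * (D p.1 * D p.2)) := by
                apply sum_congr rfl
                rintro ⟨x, y⟩ _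
                simp only
                split_ifs with h6
                · subst h6; ring
                · ring
            _ = 0 := by rw [sum_sub_distrib, e2, e3]; ring
        · simp only [mulVec, dotProduct, Th, of_apply, Sum.elim_inr, Pi.zero_apply]
          apply sum_eq_zero
          rintro ⟨x, y⟩ _
          split_ifs with h6 h7 h7
          · simp
          · exact absurd (by cases h6; rfl) h7
          · simp
          · simp
      rw [this, mulVec_zero]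
  obtain ⟨e0, he0⟩ : ∃ e0, ∀ e, e ≠ e0 → D e = 0 := by
    by_cases h3 : ∃ e, D e ≠ 0
    · obtain ⟨e0, h3⟩ := h3
      exact ⟨e0, fun e he => (mul_eq_zero.1 (h2 e e0 he)).resolve_right h3⟩
    · push Not at h3
      exact ⟨0, fun e _ => h3 e⟩
  obtain ⟨l, j, rfl⟩ := f7 e0
  apply hp
  apply prod_eq_zero (mem_univ l)
  have h3 : ∀ a b, τ a * τ b = K a (TT l j) * K b (TT l j) * D (TT l j) := by
    intro a b
    rw [← h1, sum_eq_single (TT l j) (fun e _ he => by rw [he0 e he, mul_zero]) (by simp)]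
  have h4 : ∑ a, (Nm K l).adjugate 5 a * K a (TT l j) = 0 := by
    have h5 := congrFun (congrFun (adjugate_mul (Nm K l)) 5) j.castSucc
    have h6 : (5 : Fin 6) ≠ j.castSucc := (Fin.castSucc_lt_last j).ne'
    rw [mul_apply, Matrix.smul_apply, Matrix.one_apply_ne h6, smul_zero] at h5
    rw [← h5]
    apply sum_congr rfl
    intro a _
    simp [Nm]
  have h5 : ell K τ l * ell K τ l = (∑ a, (Nm K l).adjugate 5 a * K a (TT l j))
      * (∑ a, (Nm K l).adjugate 5 a * K a (TT l j)) * D (TT l j) := by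
    rw [ell, sum_mul_sum, sum_mul_sum, sum_mul]
    apply sum_congr rfl
    intro a _
    rw [sum_mul]
    apply sum_congr rfl
    intro b _
    linear_combination ((Nm K l).adjugate 5 a * (Nm K l).adjugate 5 b) * h3 a b
  rw [h4, zero_mul, zero_mul] at h5
  exact mul_self_eq_zero.1 h5

theorem nonvanish {R : Type} [CommRing R] (c : ℚ →+* R)
    (L : Matrix (Fin 15 × Fin 15) ((Fin 6 × Fin 6 × Fin 6 × Fin 6) ⊕ Fin 15) ℚ) (hL : L * Th Inc = 1)
    (x : Fin 6 → R) : ∃ u : ℚ, u ≠ 0 ∧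
      GG c L (A0.map c) (C0.map c *ᵥ x) = c u * (x 0 * x 2 * x 4) := by
  have hK : KK c (A0.map c) = Inc.map c := by
    have e : KK (RingHom.id ℚ) A0 = Inc := by
      have e1 : ∀ {m n : Type} (M : Matrix m n ℚ), M.map (RingHom.id ℚ) = M := fun M => rfl
      rw [KK, e1, e1, f1, det_one, adjugate_one, one_smul, Matrix.mul_one, Matrix.mul_sub,
        ← Matrix.mul_assoc, f2]
      simp
    have := KK_map c (RingHom.id ℚ) A0
    rw [e, RingHom.comp_id] at this
    exact this.symm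
  have h1 : ∀ l, ell (Inc.map c) x l = c (Nm Inc l).det * x (vv l) := by
    intro l
    have h2 : ∀ a, (Nm Inc l).adjugate 5 a = if a = vv l then (Nm Inc l).det else 0 := by
      intro a
      have h3 := congrFun (congrFun (mul_adjugate (Nm Inc l)) (vv l)) a
      simp only [mul_apply, f6, Matrix.smul_apply, Matrix.one_apply] at h3
      simpa [eq_comm] using h3
    rw [ell, ← Nm_map, ← adj_map]
    simp only [map_apply, h2]
    rw [sum_eq_single (vv l) (fun a _ ha => by simp [ha]) (by simp)]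
    simp
  refine ⟨∏ l, (Nm Inc l).det, prod_ne_zero_iff.2 (fun l _ h => ?_), ?_⟩
  · have := congrArg det (f5 l)
    rw [det_mul, h] at this
    simp at this
  · rw [GG, hK, ← Th_map, ← Matrix.map_mul, hL, mulVec_mulVec, ← Matrix.map_mul, f3,
      Matrix.map_one _ (map_zero c) (map_one c), Matrix.map_one _ (map_zero c) (map_one c),
      det_one, one_mulVec, one_mul]
    simp only [h1, Fin.prod_univ_three, map_mul]
    simp only [vv, Matrix.cons_val_zero, Matrix.cons_val_one, Matrix.cons_val]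
    ring

theorem exB {R : Type} [CommRing R] (c : ℚ →+* R) (x : Fin 6 → R) (D : Fin 15 → R)
    (h : Inc.map c * diagonal D * (Inc.map c)ᵀ = vecMulVec x x) :
    ∃ B : Matrix (Fin 15) (Fin 9) R, A0.map c * Bᵀ + B * (A0.map c)ᵀ
      + vecMulVec (C0.map c *ᵥ x) (C0.map c *ᵥ x) = diagonal D := by
  set A := A0.map c
  set C := C0.map c
  set I := Inc.map c
  set P := P2.map c
  have g3 : I * C = 1 := by
    rw [← Matrix.map_mul, f3, Matrix.map_one _ (map_zero c) (map_one c)]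
  have g4 : C * I = 1 - A * P := by
    rw [eq_sub_iff_add_eq, ← Matrix.map_mul, ← Matrix.map_mul, ← Matrix.map_add _ (map_add c), f4,
      Matrix.map_one _ (map_zero c) (map_one c)]
  set G := diagonal D - vecMulVec (C *ᵥ x) (C *ᵥ x) with hG
  have hGt : Gᵀ = G := by
    rw [hG, transpose_sub, diagonal_transpose, transpose_vecMulVec]
  have h1 : I * G * Iᵀ = 0 := by
    rw [hG, Matrix.mul_sub, Matrix.sub_mul, h, mul_vecMulVec, vecMulVec_mul, vecMul_transpose,
      mulVec_mulVec, g3, one_mulVec, sub_self]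
  have h2 : (1 - A * P) * G * (1 - A * P)ᵀ = 0 := by
    rw [← g4, transpose_mul, Matrix.mul_assoc C, ← Matrix.mul_assoc, Matrix.mul_assoc C, h1]
    simp
  have h3 : c (1 / 2) + c (1 / 2) = 1 := by
    rw [← map_add]; norm_num
  refine ⟨G * Pᵀ - c (1 / 2) • (A * P * G * Pᵀ), ?_⟩
  rw [← eq_sub_iff_add_eq, ← hG]
  simp only [transpose_sub, transpose_smul, transpose_mul, transpose_transpose, transpose_one, hGt,
    Matrix.mul_sub, Matrix.sub_mul, Matrix.mul_smul, Matrix.smul_mul, Matrix.mul_assoc,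
    Matrix.one_mul, Matrix.mul_one] at h2 ⊢
  have h4 : c (1 / 2) • (A * (P * (G * (Pᵀ * Aᵀ)))) + c (1 / 2) • (A * (P * (G * (Pᵀ * Aᵀ))))
      = A * (P * (G * (Pᵀ * Aᵀ))) := by rw [← add_smul, h3, one_smul]
  linear_combination (norm := abel1) -h2 - h4

end Pool.Agent.H74.LSS
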