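import Mathlib
import Pool.Agent.H74.LSS2

set_option autoImplicit false

namespace Pool.Agent.H74.LSS

open Finset Matrix

section
variable {R : Type} [CommRing R]

def Am (ι : R) (X : Fin 15 × Fin (9 + (9 + 1)) → R) : Matrix (Fin 15) (Fin 9) R :=
  of fun i l => X (i, Fin.castAdd _ l) + ι * X (i, Fin.natAdd 9 (Fin.castAdd 1 l))

def Bm (c : ℚ →+* R) (ι : R) (X : Fin 15 × Fin (9 + (9 + 1)) → R) : Matrix (Fin 15) (Fin 9) R :=
  of fun i l => c (1 / 2) * (X (i, Fin.castAdd _ l) - ι * X (i, Fin.natAdd 9 (Fin.castAdd 1 l)))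

def tv (X : Fin 15 × Fin (9 + (9 + 1)) → R) : Fin 15 → R :=
  fun i => X (i, Fin.natAdd 9 (Fin.natAdd 9 0))

theorem half (c : ℚ →+* R) : 2 * c (1 / 2) = 1 := by
  have : (2 : R) = c 2 := (map_ofNat c 2).symm
  rw [this, ← map_mul]; norm_num

theorem gram (c : ℚ →+* R) (ι : R) (hι : ι * ι = -1) (X : Fin 15 × Fin (9 + (9 + 1)) → R)
    (i j : Fin 15) : ∑ k, X (i, k) * X (j, k)
      = (Am ι X * (Bm c ι X)ᵀ + Bm c ι X * (Am ι X)ᵀ + vecMulVec (tv X) (tv X)) i j := by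
  rw [Fin.sum_univ_add, Fin.sum_univ_add, Fin.sum_univ_one, ← add_assoc, Matrix.add_apply,
    Matrix.add_apply, vecMulVec_apply, mul_apply, mul_apply, ← sum_add_distrib, ← sum_add_distrib]
  congr 1
  apply sum_congr rfl
  intro l _
  simp only [Am, Bm, of_apply, transpose_apply]
  linear_combination (-(X (i, Fin.castAdd _ l) * X (j, Fin.castAdd _ l))
    + ι * ι * X (i, Fin.natAdd 9 (Fin.castAdd 1 l)) * X (j, Fin.natAdd 9 (Fin.castAdd 1 l))) * half c
    + (X (i, Fin.natAdd 9 (Fin.castAdd 1 l)) * X (j, Fin.natAdd 9 (Fin.castAdd 1 l))) * hι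

theorem exX (c : ℚ →+* R) (ι : R) (hι : ι * ι = -1) (A B : Matrix (Fin 15) (Fin 9) R)
    (t : Fin 15 → R) : ∃ X : Fin 15 × Fin (9 + (9 + 1)) → R,
      Am ι X = A ∧ Bm c ι X = B ∧ tv X = t := by
  refine ⟨fun p => Fin.append (fun l => c (1 / 2) * A p.1 l + B p.1 l)
    (Fin.append (fun l => -ι * (c (1 / 2) * A p.1 l - B p.1 l)) (fun _ : Fin 1 => t p.1)) p.2,
    ?_, ?_, ?_⟩
  · ext i l
    simp only [Am, of_apply, Fin.append_left, Fin.append_right]
    linear_combination (A i l) * half c - (c (1 / 2) * A i l - B i l) * hι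
  · ext i l
    simp only [Bm, of_apply, Fin.append_left, Fin.append_right]
    linear_combination (B i l) * half c + c (1 / 2) * (c (1 / 2) * A i l - B i l) * hι
  · funext i
    simp only [tv, Fin.append_right]

theorem incD (c : ℚ →+* R) (y1 y2 y3 : R) (h1 : y1 * y1 = 0) (h2 : y2 * y2 = 0)
    (h3 : y3 * y3 = 0) : ∃ D : Fin 15 → R, Inc.map c * diagonal D * (Inc.map c)ᵀ
      = vecMulVec ![y1, -y1, y2, -y2, y3, -y3] ![y1, -y1, y2, -y2, y3, -y3] := by
  refine ⟨![0, -(y1 * y2), y1 * y2, -(y2 * y3), 0, y2 * y3, -(y1 * y2), y1 * y3, -(y1 * y3),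
    y1 * y2, -(y1 * y3), y1 * y3, 0, y2 * y3, -(y2 * y3)], ?_⟩
  ext a b
  rw [mul_apply, vecMulVec_apply]
  simp only [mul_diagonal, transpose_apply, map_apply]
  fin_cases a <;> fin_cases b <;> simp [Inc, Fin.sum_univ_succ, h1, h2, h3] <;> ring

end

theorem step (R : Type) [CommRing R] [Algebra ℂ R] : ∃ (S : Type) (_ : CommRing S)
    (_ : Algebra ℂ S) (φ : R →ₐ[ℂ] S) (e : S), e * e = 0 ∧ ∀ z, φ z * e = 0 → z = 0 := by
  refine ⟨DualNumber R, inferInstance, inferInstance, TrivSqZeroExt.inlAlgHom ℂ R R,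
    DualNumber.eps, DualNumber.eps_mul_eps, fun z h => ?_⟩
  have := congrArg TrivSqZeroExt.snd h
  simpa using this

theorem exR : ∃ (R : Type) (_ : CommRing R) (_ : Algebra ℂ R) (y1 y2 y3 : R), y1 * y1 = 0 ∧
    y2 * y2 = 0 ∧ y3 * y3 = 0 ∧ ∀ u : ℂ, u ≠ 0 → algebraMap ℂ R u * (y1 * y2 * y3) ≠ 0 := by
  obtain ⟨R1, _, _, φ1, e1, a1, b1⟩ := step ℂ
  obtain ⟨R2, _, _, φ2, e2, a2, b2⟩ := step R1
  obtain ⟨R3, _, _, φ3, e3, a3, b3⟩ := step R2
  refine ⟨R3, inferInstance, inferInstance, φ3 (φ2 e1), φ3 e2, e3, ?_, ?_, a3, fun u hu h => hu ?_⟩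
  · rw [← map_mul, ← map_mul, a1, map_zero, map_zero]
  · rw [← map_mul, a2, map_zero]
  · apply b1
    apply b2
    apply b3
    rw [← h, map_mul, map_mul, map_mul]
    have : φ3 (φ2 (φ1 u)) = algebraMap ℂ R3 u := by
      rw [← φ3.commutes, ← φ2.commutes, ← φ1.commutes]; rfl
    rw [this]
    ring

open MvPolynomial in
theorem main : ¬ (Ideal.span
        {p : MvPolynomial (Fin 15 × Fin (9 + (9 + 1))) ℂ |
          ∃ i j : Fin 15, i ≠ j ∧
            p = ∑ k, MvPolynomial.X (i, k) * MvPolynomial.X (j, k)}).IsRadical := by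
  intro hI
  obtain ⟨L, hL⟩ := exL
  let c0 : ℚ →+* MvPolynomial (Fin 15 × Fin (9 + (9 + 1))) ℂ := C.comp (Rat.castHom ℂ)
  have hmap : ∀ (R : Type) [CommRing R] [Algebra ℂ R] (x : Fin 15 × Fin (9 + (9 + 1)) → R),
      aeval x (GG c0 L (Am (C Complex.I) X) (tv X)) =
      GG ((algebraMap ℂ R).comp (Rat.castHom ℂ)) L (Am (algebraMap ℂ R Complex.I) x) (tv x) := by
    intro R _ _ x
    have := GG_map (aeval x : MvPolynomial _ ℂ →ₐ[ℂ] R).toRingHom c0 L (Am (C Complex.I) X) (tv X)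
    refine this.trans ?_
    have a1 : (aeval x : MvPolynomial _ ℂ →ₐ[ℂ] R).toRingHom.comp c0
      = (algebraMap ℂ R).comp (Rat.castHom ℂ) := RingHom.ext_rat _ _
    have a2 : (Am (C Complex.I) X).map (aeval x : MvPolynomial _ ℂ →ₐ[ℂ] R).toRingHom
        = Am (algebraMap ℂ R Complex.I) x := by
      ext i l
      simp [Am]
    have a3 : (aeval x : MvPolynomial _ ℂ →ₐ[ℂ] R).toRingHom ∘ tv X = tv x := by
      funext i
      simp [tv]
    rw [a1, a2, a3]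
  have hι : ∀ (R : Type) [CommRing R] [Algebra ℂ R],
      algebraMap ℂ R Complex.I * algebraMap ℂ R Complex.I = -1 := by
    intro R _ _
    rw [← map_mul, Complex.I_mul_I, map_neg, map_one]
  have h1 := hI (show GG c0 L (Am (C Complex.I) X) (tv X) ∈ _ by
    rw [← vanishingIdeal_zeroLocus_eq_radical (K := ℂ), mem_vanishingIdeal_iff]
    intro x hx
    rw [hmap]
    apply vanish _ L _ (Bm ((algebraMap ℂ ℂ).comp (Rat.castHom ℂ)) (algebraMap ℂ ℂ Complex.I) x) _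
      (fun i => ∑ k, x (i, k) * x (i, k))
    ext i j
    rw [← gram _ _ (hι ℂ)]
    by_cases h : i = j
    · subst h; rw [diagonal_apply_eq]
    · rw [diagonal_apply_ne _ h]
      have := hx _ (Ideal.subset_span ⟨i, j, h, rfl⟩)
      simpa using this)
  obtain ⟨R, _, _, y1, y2, y3, e1, e2, e3, hne⟩ := exR
  set c := (algebraMap ℂ R).comp (Rat.castHom ℂ)
  obtain ⟨D, hD⟩ := incD c y1 y2 y3 e1 e2 e3
  obtain ⟨B, hB⟩ := exB c _ D hD
  obtain ⟨x, x1, x2, x3⟩ := exX c _ (hι R) (A0.map c) B (C0.map c *ᵥ ![y1, -y1, y2, -y2, y3, -y3])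
  obtain ⟨u, hu, h2⟩ := nonvanish c L hL ![y1, -y1, y2, -y2, y3, -y3]
  have h3 : aeval x (GG c0 L (Am (C Complex.I) X) (tv X)) = 0 := by
    refine (Ideal.span_le.2 ?_ : _ ≤ RingHom.ker (aeval x : MvPolynomial _ ℂ →ₐ[ℂ] R)) h1
    rintro _ ⟨i, j, h, rfl⟩
    have := gram c _ (hι R) x i j
    rw [x1, x2, x3, hB, diagonal_apply_ne _ h] at this
    simpa [RingHom.mem_ker] using this
  rw [hmap, x1, x3, h2] at h3
  exact hne (u : ℂ) (by exact_mod_cast hu) (by simpa [c] using h3)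

end Pool.Agent.H74.LSS
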