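import Pool.Agent.H74.LeonardDefs

set_option autoImplicit false

namespace Pool.Agent.H74.Leonard

open Polynomial

universe u v

variable {K : Type u} [Field K] {V : Type v} [AddCommGroup V] [Module K V] {d : ℕ}

/-- A family of projections attached to a basis. -/
def IsProj (E : Fin (d + 1) → Module.End K V) : Prop :=
  ∃ b : Module.Basis (Fin (d + 1)) K V, ∀ i x, E i x = b.repr x i • b i

lemma exists_basis [FiniteDimensional K V] (hV : Module.finrank K V = d + 1) {A : Module.End K V}
    {θ : Fin (d + 1) → K} (h : MultFree A θ) :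
    ∃ b : Module.Basis (Fin (d + 1)) K V, (∀ i x, prim A θ i x = b.repr x i • b i) ∧
      ∀ i, A (b i) = θ i • b i := by
  choose v hv using fun i => (h.2 i).exists_hasEigenvector
  have li := Module.End.eigenvectors_linearIndependent' A θ h.1 v hv
  let b := basisOfLinearIndependentOfCardEqFinrank li (by simp [hV])
  have hb : ∀ i, b i = v i := fun i => by simp [b]
  refine ⟨b, fun i => ?_, fun i => by rw [hb]; exact (hv i).apply_eq_smul⟩
  have : prim A θ i = (b.coord i).smulRight (b i) := by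
    apply b.ext
    intro j
    rw [prim, hb j, Module.End.aeval_apply_of_hasEigenvector (hv j), ← hb j]
    simp only [LinearMap.smulRight_apply, Module.Basis.coord_apply, Module.Basis.repr_self,
      eval_prod, eval_mul, eval_C, eval_sub, eval_X]
    by_cases hij : j = i
    · subst hij
      rw [Finset.prod_eq_one, Finsupp.single_eq_same]
      intro k hk
      exact inv_mul_cancel₀ (sub_ne_zero.2 fun e => (Finset.mem_erase.1 hk).1 (h.1 e).symm)
    · rw [Finset.prod_eq_zero (i := j) (by simp [hij]) (by simp), Finsupp.single_eq_of_ne' hij]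
      simp
  intro x
  rw [this]; rfl

section proj

variable {E : Fin (d + 1) → Module.End K V}

lemma IsProj.sum (h : IsProj E) (x : V) : ∑ i, E i x = x := by
  obtain ⟨b, hb⟩ := h
  simp only [hb]; exact b.sum_repr x

lemma IsProj.idem (h : IsProj E) (i : Fin (d + 1)) (x : V) : E i (E i x) = E i x := by
  obtain ⟨b, hb⟩ := h
  simp [hb]

lemma IsProj.orth (h : IsProj E) {i j : Fin (d + 1)} (hij : i ≠ j) (x : V) : E i (E j x) = 0 := by
  obtain ⟨b, hb⟩ := h
  simp [hb, Finsupp.single_eq_of_ne hij]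

lemma IsProj.ne_zero (h : IsProj E) (i : Fin (d + 1)) : ∃ x, E i x ≠ 0 := by
  obtain ⟨b, hb⟩ := h
  exact ⟨b i, by simp [hb, b.ne_zero]⟩

lemma IsProj.rank_one (h : IsProj E) (i : Fin (d + 1)) {x : V} (hx : E i x ≠ 0) (y : V) :
    ∃ c : K, E i y = c • E i x := by
  obtain ⟨b, hb⟩ := h
  rw [hb] at hx
  have : b.repr x i ≠ 0 := left_ne_zero_of_smul hx
  exact ⟨b.repr y i / b.repr x i, by rw [hb, hb, smul_smul, div_mul_cancel₀ _ this]⟩

lemma IsProj.apply_ne (h : IsProj E) (i : Fin (d + 1)) {x : V} (hx : E i x ≠ 0)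
    {M : Module.End K V} (hM : M * E i ≠ 0) : M (E i x) ≠ 0 := by
  intro e
  apply hM
  ext y
  obtain ⟨c, hc⟩ := h.rank_one i hx y
  simp [hc, e]

/-- `x` has top index exactly `i`. -/
def Top (E : Fin (d + 1) → Module.End K V) (i : ℕ) (x : V) : Prop :=
  (∀ l : Fin (d + 1), i < l → E l x = 0) ∧ ∃ l : Fin (d + 1), (l : ℕ) = i ∧ E l x ≠ 0

lemma top_step (h : IsProj E) {A : Module.End K V} (hA : Tridiag E A) {i : ℕ} {x : V}
    (hx : Top E i x) (hi : i + 1 ≤ d) (c : K) : Top E (i + 1) (A x - c • x) := by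
  obtain ⟨h1, l0, hl0, h2⟩ := hx
  have key : ∀ l : Fin (d + 1), i < l → E l (A x - c • x) = E l (A (E l0 x)) := by
    intro l hl
    rw [map_sub, map_smul, h1 l hl, smul_zero, sub_zero]
    conv_lhs => rw [← h.sum x, map_sum, map_sum]
    refine Finset.sum_eq_single l0 (fun m _ hm => ?_) (by simp)
    by_cases hm2 : i < m
    · rw [h1 m hm2]; simp
    · have : (m : ℕ) ≠ l0 := fun e => hm (Fin.ext e)
      exact LinearMap.congr_fun ((hA l m).1 (Or.inr (by omega))) x
  refine ⟨fun l hl => ?_, ⟨i + 1, by omega⟩, rfl, ?_⟩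
  · rw [key l (by omega)]
    exact LinearMap.congr_fun ((hA l l0).1 (Or.inr (by omega))) x
  · rw [key _ (by simp)]
    exact h.apply_ne l0 h2 (M := E ⟨i + 1, by omega⟩ * A) ((hA _ l0).2 (Or.inr (by simp [hl0])))

lemma top_prod (h : IsProj E) {A : Module.End K V} (hA : Tridiag E A) {i : ℕ} {x : V}
    (hx : Top E i x) (θ : Fin (d + 1) → K) (L : Finset (Fin (d + 1))) (hL : i + L.card ≤ d) :
    Top E (i + L.card) (aeval A (∏ j ∈ L, (X - C (θ j))) x) := by
  induction L using Finset.induction_on with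
  | empty => simpa using hx
  | insert a L ha ih =>
    rw [Finset.card_insert_of_notMem ha] at hL ⊢
    rw [Finset.prod_insert ha, map_mul]
    have := top_step h hA (ih (by omega)) (by omega) (θ a)
    simpa [Module.algebraMap_end_apply, add_assoc] using this

lemma exists_top (h : IsProj E) {x : V} (hx : x ≠ 0) {r : ℕ}
    (hr : ∀ l : Fin (d + 1), r < l → E l x = 0) : ∃ i ≤ r, Top E i x := by
  classical
  have hne : (Finset.univ.filter fun l => E l x ≠ 0).Nonempty := by
    by_contra hh
    apply hx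
    rw [← h.sum x]
    refine Finset.sum_eq_zero fun l _ => ?_
    by_contra e
    exact hh ⟨l, by simpa using e⟩
  have hm := Finset.max'_mem _ hne
  simp only [Finset.mem_filter, Finset.mem_univ, true_and] at hm
  refine ⟨_, ?_, fun l hl => ?_, _, rfl, hm⟩
  · by_contra hh
    exact hm (hr _ (by omega))
  · by_contra e
    have := Finset.le_max' (Finset.univ.filter fun l => E l x ≠ 0) l (by simpa using e)
    exact absurd hl (not_lt.2 this)

end proj

/-- The basic vanishing statement. -/
lemma zero_of {Es E : Fin (d + 1) → Module.End K V} (hs : IsProj Es) (h : IsProj E)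
    {A : Module.End K V} (hA : Tridiag Es A) (θ : Fin (d + 1) → K)
    (hθ : ∀ j x, A (E j x) = θ j • E j x) (r : ℕ) (L : Finset (Fin (d + 1))) (hL : r + L.card ≤ d)
    (x : V) (h1 : ∀ l : Fin (d + 1), r < l → Es l x = 0) (h2 : ∀ j ∉ L, E j x = 0) : x = 0 := by
  by_contra hx
  obtain ⟨i, hi, ht⟩ := exists_top hs hx h1
  obtain ⟨-, l, -, hl⟩ := top_prod hs hA ht θ L (by omega)
  apply hl
  have : aeval A (∏ j ∈ L, (X - C (θ j))) x = 0 := by
    rw [← h.sum x, map_sum]
    refine Finset.sum_eq_zero fun j _ => ?_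
    by_cases hj : j ∈ L
    · rw [← Finset.prod_erase_mul _ _ hj, map_mul]
      simp [Module.algebraMap_end_apply, hθ]
    · rw [h2 j hj, map_zero]
  rw [this, map_zero]

lemma IsProj.rev {E : Fin (d + 1) → Module.End K V} (h : IsProj E) : IsProj (fun i => E i.rev) := by
  obtain ⟨b, hb⟩ := h
  refine ⟨b.reindex Fin.revPerm, fun i x => ?_⟩
  simp [hb]

lemma Tridiag.rev {E : Fin (d + 1) → Module.End K V} {A : Module.End K V} (h : Tridiag E A) :
    Tridiag (fun i => E i.rev) A := by
  intro i j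
  have hi := i.2
  have hj := j.2
  refine ⟨fun e => (h _ _).1 ?_, fun e => (h _ _).2 ?_⟩ <;> simp only [Fin.val_rev] <;> omega

lemma facts [FiniteDimensional K V] (hV : Module.finrank K V = d + 1) {A : Module.End K V}
    {θ : Fin (d + 1) → K} (h : MultFree A θ) :
    IsProj (prim A θ) ∧ ∀ j x, A (prim A θ j x) = θ j • prim A θ j x := by
  obtain ⟨b, h1, h2⟩ := exists_basis hV h
  exact ⟨⟨b, h1⟩, fun j x => by rw [h1, map_smul, h2, smul_comm]⟩

lemma kill {E : Fin (d + 1) → Module.End K V} (h : IsProj E) (S : Set (Fin (d + 1))) {x : V}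
    (hx : x ∈ ⨆ i ∈ S, LinearMap.range (E i)) (l : Fin (d + 1)) (hl : l ∉ S) : E l x = 0 := by
  have : (⨆ i ∈ S, LinearMap.range (E i)) ≤ LinearMap.ker (E l) := by
    refine iSup₂_le fun i hi => ?_
    rintro _ ⟨y, rfl⟩
    exact h.orth (fun e : l = i => hl (by rw [e]; exact hi)) y
  exact this hx

end Pool.Agent.H74.Leonard
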