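import Mathlib

set_option autoImplicit false

namespace Pool.Agent.H74.Leonard

open Polynomial

universe u v

variable {K : Type u} [Field K] {V : Type v} [AddCommGroup V] [Module K V] {d : ℕ}

/-- The `i`-th primitive idempotent `∏_{j ≠ i} (A - θ_j) / (θ_i - θ_j)`. -/
noncomputable def prim (A : Module.End K V) (θ : Fin (d + 1) → K) (i : Fin (d + 1)) :
    Module.End K V :=
  aeval A (∏ j ∈ Finset.univ.erase i, C (θ i - θ j)⁻¹ * (X - C (θ j)))

/-- `θ 0, …, θ d` are mutually distinct eigenvalues of `A`. -/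
def MultFree (A : Module.End K V) (θ : Fin (d + 1) → K) : Prop :=
  Function.Injective θ ∧ ∀ i, A.HasEigenvalue (θ i)

/-- `B` acts in an irreducible tridiagonal way with respect to the idempotents `E`. -/
def Tridiag (E : Fin (d + 1) → Module.End K V) (B : Module.End K V) : Prop :=
  ∀ i j : Fin (d + 1), ((i : ℕ) + 1 < j ∨ (j : ℕ) + 1 < i → E i * B * E j = 0) ∧
    ((i : ℕ) + 1 = j ∨ (j : ℕ) + 1 = i → E i * B * E j ≠ 0)

/-- A Leonard system, with the orderings of the primitive idempotents given by orderings `θ`, `θs`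
of the eigenvalues. -/
def IsLeonardSystem (A As : Module.End K V) (θ θs : Fin (d + 1) → K) : Prop :=
  MultFree A θ ∧ MultFree As θs ∧ Tridiag (prim A θ) As ∧ Tridiag (prim As θs) A

end Pool.Agent.H74.Leonard
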