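import Mathlib

/-! Lie powers inside the tensor algebra and invariant subspaces. -/

namespace Pool.Agent.H74.LiePow

variable (F : Type*) [Field F] {V : Type*} [AddCommGroup V] [Module F V]

/-- The left-normed bracket `[v, w₁, …, wₘ]` in the tensor algebra. -/
def lb (v : V) (l : List V) : TensorAlgebra F V :=
  l.foldl (fun u w => u * TensorAlgebra.ι F w - TensorAlgebra.ι F w * u) (TensorAlgebra.ι F v)

variable (V) in
/-- The `k`-th Lie power: the span of all brackets `[v₁, …, vₖ]`. -/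
def liePow (k : ℕ) : Submodule F (TensorAlgebra F V) :=
  Submodule.span F {x | ∃ (v : V) (l : List V), l.length + 1 = k ∧ x = lb F v l}

variable {F}

/-- The algebra endomorphism of the tensor algebra induced by `g`. -/
def act (g : V ≃ₗ[F] V) : TensorAlgebra F V →ₐ[F] TensorAlgebra F V :=
  TensorAlgebra.lift F ((TensorAlgebra.ι F).comp g.toLinearMap)

/-- `W` is an `H`-invariant subspace. -/
def Inv (H : Subgroup (V ≃ₗ[F] V)) (W : Submodule F (TensorAlgebra F V)) : Prop :=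
  ∀ h ∈ H, ∀ x ∈ W, act h x ∈ W

/-- `W` is an irreducible `H`-submodule. -/
def Irr (H : Subgroup (V ≃ₗ[F] V)) (W : Submodule F (TensorAlgebra F V)) : Prop :=
  Inv H W ∧ W ≠ ⊥ ∧ ∀ U ≤ W, Inv H U → U = ⊥ ∨ U = W

/-- Condition `(*ₙ)`. -/
def Star (H : Subgroup (V ≃ₗ[F] V)) (n : ℕ) : Prop :=
  ∀ k, 1 ≤ k → k + 1 ≤ n → ∀ W ≤ liePow F V k, Irr ⊤ W → Irr H W

/-- `M` is a sum of irreducible `H`-submodules. -/
def CompRed (H : Subgroup (V ≃ₗ[F] V)) (M : Submodule F (TensorAlgebra F V)) : Prop :=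
  M = sSup {W | W ≤ M ∧ Irr H W}

/-- The `H`-submodules of `M` form a chain. -/
def Uniserial (H : Subgroup (V ≃ₗ[F] V)) (M : Submodule F (TensorAlgebra F V)) : Prop :=
  ∀ U ≤ M, ∀ W ≤ M, Inv H U → Inv H W → U ≤ W ∨ W ≤ U

end Pool.Agent.H74.LiePow
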