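import Pool.Agent.H74.LiePowDefs

namespace Pool.Agent.H74.LiePow

variable {F : Type*} [Field F]

abbrev G (F : Type*) [Field F] := (F × F) ≃ₗ[F] (F × F)

def mkG (a b c d : F) (h : a * d - b * c ≠ 0) : G F where
  toFun v := (a * v.1 + b * v.2, c * v.1 + d * v.2)
  invFun v := ((d * v.1 - b * v.2) / (a * d - b * c), (a * v.2 - c * v.1) / (a * d - b * c))
  map_add' u v := by ext <;> simp <;> ring
  map_smul' r v := by ext <;> simp <;> ring
  left_inv v := by ext <;> simp only <;> rw [div_eq_iff h] <;> ring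
  right_inv v := by
    ext <;> simp only <;> rw [← mul_div_assoc, ← mul_div_assoc, ← add_div, div_eq_iff h] <;> ring

@[simp] lemma mkG_apply (a b c d : F) (h : a * d - b * c ≠ 0) (v : F × F) :
    mkG a b c d h v = (a * v.1 + b * v.2, c * v.1 + d * v.2) := rfl

lemma G_apply (g : G F) (v : F × F) :
    g v = ((g (1, 0)).1 * v.1 + (g (0, 1)).1 * v.2, (g (1, 0)).2 * v.1 + (g (0, 1)).2 * v.2) := by
  have : v = v.1 • ((1, 0) : F × F) + v.2 • ((0, 1) : F × F) := by ext <;> simp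
  conv_lhs => rw [this, map_add, map_smul, map_smul]
  ext <;> simp <;> ring

lemma exists_mkG (g : G F) : ∃ a b c d h, g = mkG a b c d h := by
  refine ⟨(g (1, 0)).1, (g (0, 1)).1, (g (1, 0)).2, (g (0, 1)).2, ?_, ?_⟩
  · intro h
    have h1 : g ((g (0, 1)).2, -(g (1, 0)).2) = 0 := by
      rw [G_apply]; ext
      · simp only [Prod.fst_zero]; linear_combination h
      · simp only [Prod.snd_zero]; ring
    have h2 : g ((g (0, 1)).1, -(g (1, 0)).1) = 0 := by
      rw [G_apply]; ext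
      · simp only [Prod.fst_zero]; ring
      · simp only [Prod.snd_zero]; linear_combination -h
    rw [g.map_eq_zero_iff, Prod.mk_eq_zero, neg_eq_zero] at h1 h2
    have h3 : g (1, 0) = 0 := Prod.ext h2.2 h1.2
    rw [g.map_eq_zero_iff] at h3
    simp at h3
  · ext1 v
    exact G_apply g v

lemma G_ext {g g' : G F} (h : ∀ v, g v = g' v) : g = g' := LinearEquiv.ext h

lemma mul_app (g g' : G F) (v : F × F) : (g * g') v = g (g' v) := rfl

/-- the monomial group -/
def Hm (F : Type*) [Field F] : Subgroup (G F) where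
  carrier := {g | ((g (0, 1)).1 = 0 ∧ (g (1, 0)).2 = 0) ∨ ((g (1, 0)).1 = 0 ∧ (g (0, 1)).2 = 0)}
  one_mem' := Or.inl ⟨rfl, rfl⟩
  mul_mem' := by
    intro g g' hg hg'
    obtain ⟨a, b, c, d, h, rfl⟩ := exists_mkG g
    obtain ⟨a', b', c', d', h', rfl⟩ := exists_mkG g'
    simp only [Set.mem_ofPred_eq, mul_app, mkG_apply, mul_one, mul_zero, add_zero, zero_add] at *
    rcases hg with ⟨rfl, rfl⟩ | ⟨rfl, rfl⟩ <;> rcases hg' with ⟨rfl, rfl⟩ | ⟨rfl, rfl⟩ <;> simp
  inv_mem' := by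
    intro g hg
    obtain ⟨a, b, c, d, h, rfl⟩ := exists_mkG g
    simp only [Set.mem_ofPred_eq, mkG_apply, mul_one, mul_zero, add_zero, zero_add] at hg
    show (((d * 0 - b * 1) / (a * d - b * c) = 0 ∧ (a * 0 - c * 1) / (a * d - b * c) = 0) ∨
      ((d * 1 - b * 0) / (a * d - b * c) = 0 ∧ (a * 1 - c * 0) / (a * d - b * c) = 0))
    rcases hg with ⟨rfl, rfl⟩ | ⟨rfl, rfl⟩ <;> simp

lemma mkG_mem {a b c d : F} {h : a * d - b * c ≠ 0} :
    mkG a b c d h ∈ Hm F ↔ (b = 0 ∧ c = 0) ∨ (a = 0 ∧ d = 0) := by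
  show (_ ∨ _) ↔ _
  simp

def dg (p q : F) (hp : p ≠ 0) (hq : q ≠ 0) : G F := mkG p 0 0 q (by simp [hp, hq])

def sw (F : Type*) [Field F] : G F := mkG 0 1 1 0 (by simp)

def up (l : F) : G F := mkG 1 l 0 1 (by simp)

def lo (l : F) : G F := mkG 1 0 l 1 (by simp)

lemma dg_mem (p q : F) (hp : p ≠ 0) (hq : q ≠ 0) : dg p q hp hq ∈ Hm F :=
  mkG_mem.2 (Or.inl ⟨rfl, rfl⟩)

lemma sw_mem : sw F ∈ Hm F := mkG_mem.2 (Or.inr ⟨rfl, rfl⟩)

lemma mem_cases {h : G F} (hh : h ∈ Hm F) :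
    ∃ p q hp hq, h = dg p q hp hq ∨ h = dg p q hp hq * sw F := by
  obtain ⟨a, b, c, d, hd, rfl⟩ := exists_mkG h
  rcases mkG_mem.1 hh with ⟨rfl, rfl⟩ | ⟨rfl, rfl⟩
  · have : a ≠ 0 ∧ d ≠ 0 := by simpa using hd
    exact ⟨a, d, this.1, this.2, Or.inl rfl⟩
  · have : b ≠ 0 ∧ c ≠ 0 := by simpa using hd
    refine ⟨b, c, this.1, this.2, Or.inr (G_ext fun v => ?_)⟩
    simp [dg, sw]

lemma up_conj {K : Subgroup (G F)} (hK : Hm F ≤ K) {l : F} (hl : l ≠ 0) (h : up l ∈ K) (m : F) :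
    up m ∈ K := by
  by_cases hm : m = 0
  · have : up m = 1 := G_ext fun v => by simp [up, hm]
    rw [this]; exact K.one_mem
  · have : up m = dg (m / l) 1 (div_ne_zero hm hl) one_ne_zero * up l *
        dg (l / m) 1 (div_ne_zero hl hm) one_ne_zero := G_ext fun v => by
      simp only [mul_app, dg, up, mkG_apply]
      ext
      · simp only; field_simp; ring
      · simp
    rw [this]
    exact K.mul_mem (K.mul_mem (hK (dg_mem _ _ _ _)) h) (hK (dg_mem _ _ _ _))

lemma tri_eq (a b d : F) (h : a * d - b * 0 ≠ 0) (ha : a ≠ 0) (hd : d ≠ 0) :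
    mkG a b 0 d h = dg a d ha hd * up (b / a) := G_ext fun v => by
  simp only [mul_app, dg, up, mkG_apply]
  ext
  · simp only; field_simp; ring
  · simp

lemma top_of_up {K : Subgroup (G F)} (hK : Hm F ≤ K) (h : ∀ m, up m ∈ K) : K = ⊤ := by
  have htri : ∀ a b d hd, mkG a b 0 d hd ∈ K := by
    intro a b d hd
    have : a ≠ 0 ∧ d ≠ 0 := by simpa using hd
    rw [tri_eq a b d hd this.1 this.2]
    exact K.mul_mem (hK (dg_mem _ _ _ _)) (h _)
  rw [eq_top_iff]
  intro g _
  obtain ⟨a, b, c, d, hd, rfl⟩ := exists_mkG g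
  by_cases hc : c = 0
  · subst hc; exact htri a b d hd
  · have h1 : c * (b - a * d / c) - d * 0 ≠ 0 := by
      intro h0
      apply hd
      field_simp at h0
      linear_combination -h0
    have : mkG a b c d hd = up (a / c) * sw F * mkG c d 0 (b - a * d / c) h1 := G_ext fun v => by
      simp only [mul_app, sw, up, mkG_apply]
      ext
      · simp only; field_simp; ring
      · simp
    rw [this]
    exact K.mul_mem (K.mul_mem (h _) (hK sw_mem)) (htri _ _ _ _)

lemma top_of_tri {K : Subgroup (G F)} (hK : Hm F ≤ K) {a b d : F} {hd : a * d - b * 0 ≠ 0}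
    (hb : b ≠ 0) (h : mkG a b 0 d hd ∈ K) : K = ⊤ := by
  have : a ≠ 0 ∧ d ≠ 0 := by simpa using hd
  rw [tri_eq a b d hd this.1 this.2] at h
  have h2 := (K.mul_mem_cancel_left (hK (dg_mem _ _ _ _))).1 h
  exact top_of_up hK (up_conj hK (div_ne_zero hb this.1) h2)

lemma top_of_a {K : Subgroup (G F)} (hK : Hm F ≤ K) {b c d : F} {hd : 0 * d - b * c ≠ 0}
    (hd0 : d ≠ 0) (h : mkG 0 b c d hd ∈ K) : K = ⊤ := by
  have h1 : c * b - d * 0 ≠ 0 := by intro h0; apply hd; linear_combination -h0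
  have : mkG c d 0 b h1 = sw F * mkG 0 b c d hd := G_ext fun v => by simp [sw]
  exact top_of_tri hK hd0 (this ▸ K.mul_mem (hK sw_mem) h)

lemma isCoatom [CharP F 2] : IsCoatom (Hm F) := by
  refine ⟨?_, fun K hK => ?_⟩
  · intro h
    have : up (1 : F) ∈ Hm F := h ▸ Subgroup.mem_top _
    simp [up, mkG_mem] at this
  · obtain ⟨g, hg, hg'⟩ := SetLike.exists_of_lt hK
    obtain ⟨a, b, c, d, hd, rfl⟩ := exists_mkG g
    rw [mkG_mem] at hg'
    by_cases hc : c = 0
    · subst hc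
      exact top_of_tri hK.le (fun hb => hg' (Or.inl ⟨hb, rfl⟩)) hg
    by_cases ha : a = 0
    · subst ha
      exact top_of_a hK.le (fun hb => hg' (Or.inr ⟨rfl, hb⟩)) hg
    by_cases hb : b = 0
    · subst hb
      have h1 : 0 * c - a * d ≠ 0 := by intro h0; apply hd; linear_combination -h0
      have : mkG 0 a d c h1 = mkG a 0 c d hd * sw F := G_ext fun v => by
        simp [sw, add_comm]
      exact top_of_a hK.le hc (this ▸ K.mul_mem hg (hK.le sw_mem))
    by_cases hd0 : d = 0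
    · subst hd0
      have h1 : b * c - a * 0 ≠ 0 := by intro h0; apply hd; linear_combination -h0
      have : mkG b a 0 c h1 = mkG a b c 0 hd * sw F := G_ext fun v => by
        simp [sw, add_comm]
      exact top_of_tri hK.le ha (this ▸ K.mul_mem hg (hK.le sw_mem))
    have h2 : (2 : F) = 0 := by exact_mod_cast CharP.cast_eq_zero F 2
    have h1 : 0 * (-(a * d - b * c) ^ 2) -
        (-(a * b * (a * d - b * c))) * (-(a * c * (a * d - b * c))) ≠ 0 := by
      simp [ha, hb, hc, hd]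
    have : mkG 0 _ _ _ h1 = mkG a b c d hd * dg (b * c) (-(a * a)) (by simp [hb, hc])
        (by simp [ha]) * mkG a b c d hd := G_ext fun v => by
      simp only [mul_app, dg, mkG_apply]
      ext
      · simp only; ring
      · simp only
        linear_combination (-(b ^ 2 * c ^ 2 * v.2) + a * b * c * d * v.2) * h2
    exact top_of_a hK.le (by simp [hd])
      (this ▸ K.mul_mem (K.mul_mem hg (hK.le (dg_mem _ _ _ _))) hg)

end Pool.Agent.H74.LiePow
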