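import Mathlib

set_option autoImplicit false

namespace Pool.Agent.H74.LieProd

abbrev F := ZMod 2

/-- iterated bracket -/
def E {L : Type} [LieRing L] (n : ℕ) (y v : L) : L := (fun r => ⁅y, r⁆)^[n] v

theorem E_succ {L : Type} [LieRing L] (n : ℕ) (y v : L) : E (n + 1) y v = ⁅y, E n y v⁆ :=
  Function.iterate_succ_apply' _ _ _

theorem map_E {L L' : Type} [LieRing L] [LieAlgebra F L] [LieRing L'] [LieAlgebra F L']
    (f : L →ₗ⁅F⁆ L') (n : ℕ) (y v : L) : f (E n y v) = E n (f y) (f v) := by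
  induction n with
  | zero => rfl
  | succ n ih => rw [E_succ, E_succ, LieHom.map_lie, ih]

noncomputable def gw : FreeLieAlgebra F ℕ :=
  E 3 ⁅FreeLieAlgebra.of F 2, FreeLieAlgebra.of F 3⁆
    (E 17 (FreeLieAlgebra.of F 1) (FreeLieAlgebra.of F 0))

theorem lift_gw {L : Type} [LieRing L] [LieAlgebra F L] (φ : ℕ → L) :
    FreeLieAlgebra.lift F φ gw = E 3 ⁅φ 2, φ 3⁆ (E 17 (φ 1) (φ 0)) := by
  simp only [gw, map_E, LieHom.map_lie, FreeLieAlgebra.lift_of_apply]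

theorem map_lift {L L' : Type} [LieRing L] [LieAlgebra F L] [LieRing L'] [LieAlgebra F L']
    (f : L →ₗ⁅F⁆ L') (φ : ℕ → L) (c : FreeLieAlgebra F ℕ) :
    f (FreeLieAlgebra.lift F φ c) = FreeLieAlgebra.lift F (f ∘ φ) c := by
  have : f.comp (FreeLieAlgebra.lift F φ) = FreeLieAlgebra.lift F (f ∘ φ) :=
    FreeLieAlgebra.hom_ext fun i => by simp
  exact LieHom.congr_fun this c

def Dep (k : ℕ) (c : FreeLieAlgebra F ℕ) : Prop :=
  ∀ (L : Type) [LieRing L] [LieAlgebra F L] (φ ψ : ℕ → L), (∀ i < k, φ i = ψ i) →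
    FreeLieAlgebra.lift F φ c = FreeLieAlgebra.lift F ψ c

theorem Dep.mono {k l : ℕ} {c : FreeLieAlgebra F ℕ} (h : Dep k c) (hl : k ≤ l) : Dep l c :=
  fun L _ _ φ ψ H => h L φ ψ fun i hi => H i (hi.trans_le hl)

theorem exists_dep (c : FreeLieAlgebra F ℕ) : ∃ k, Dep k c := by
  let S : LieSubalgebra F (FreeLieAlgebra F ℕ) :=
    { carrier := {c | ∃ k, Dep k c}
      add_mem' := by
        rintro a b ⟨k, hk⟩ ⟨l, hl⟩
        exact ⟨max k l, fun L _ _ φ ψ H => by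
          rw [map_add, map_add, hk.mono (le_max_left k l) L φ ψ H,
            hl.mono (le_max_right k l) L φ ψ H]⟩
      zero_mem' := ⟨0, fun L _ _ φ ψ _ => by simp⟩
      smul_mem' := by
        rintro r a ⟨k, hk⟩
        exact ⟨k, fun L _ _ φ ψ H => by rw [map_smul, map_smul, hk L φ ψ H]⟩
      lie_mem' := by
        rintro a b ⟨k, hk⟩ ⟨l, hl⟩
        exact ⟨max k l, fun L _ _ φ ψ H => by
          rw [LieHom.map_lie, LieHom.map_lie, hk.mono (le_max_left k l) L φ ψ H,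
            hl.mono (le_max_right k l) L φ ψ H]⟩ }
  let φ : ℕ → S := fun i => ⟨FreeLieAlgebra.of F i, i + 1, fun L _ _ φ ψ H => by
    simpa using H i (by omega)⟩
  have : S.incl.comp (FreeLieAlgebra.lift F φ) = LieHom.id :=
    FreeLieAlgebra.hom_ext fun i => by simp [φ]
  have h := LieHom.congr_fun this c
  rw [LieHom.id_apply] at h
  rw [← h]
  exact (FreeLieAlgebra.lift F φ c).2

theorem exists_dep_finset (C : Finset (FreeLieAlgebra F ℕ)) : ∃ k, ∀ c ∈ C, Dep k c := by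
  choose f hf using exists_dep
  exact ⟨C.sup f, fun c hc => (hf c).mono (Finset.le_sup hc)⟩

/-- membership in the product variety -/
def InAV (L : Type) [LieRing L] [LieAlgebra F L] : Prop :=
  ∃ I : LieIdeal F L,
    (∀ a ∈ ({⁅FreeLieAlgebra.of F 0, FreeLieAlgebra.of F 1⁆} : Finset (FreeLieAlgebra F ℕ)),
      ∀ φ : ℕ → I, FreeLieAlgebra.lift F φ a = 0) ∧
    (∀ b ∈ ({gw} : Finset (FreeLieAlgebra F ℕ)), ∀ φ : ℕ → L ⧸ I, FreeLieAlgebra.lift F φ b = 0)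

theorem inAV_iff (L : Type) [LieRing L] [LieAlgebra F L] : InAV L ↔ ∃ I : LieIdeal F L,
    (∀ a ∈ I, ∀ b ∈ I, ⁅a, b⁆ = 0) ∧ ∀ a b c d : L, E 3 ⁅c, d⁆ (E 17 b a) ∈ I := by
  refine exists_congr fun I => and_congr ?_ ?_
  · simp only [Finset.mem_singleton, forall_eq, LieHom.map_lie, FreeLieAlgebra.lift_of_apply]
    refine ⟨fun h a ha b hb => ?_, fun h φ => Subtype.ext (h _ (φ 0).2 _ (φ 1).2)⟩
    exact congrArg Subtype.val (h fun i => if i = 0 then ⟨a, ha⟩ else ⟨b, hb⟩)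
  · let π : L →ₗ⁅F⁆ L ⧸ I :=
      { toFun := LieSubmodule.Quotient.mk (N := I)
        map_add' := fun _ _ => rfl
        map_smul' := fun _ _ => rfl
        map_lie' := fun {_ _} => rfl }
    have hπ : ∀ x, π x = 0 ↔ x ∈ I := fun x => LieSubmodule.Quotient.mk_eq_zero'
    simp only [Finset.mem_singleton, forall_eq, lift_gw]
    refine ⟨fun h a b c d => ?_, fun h φ => ?_⟩
    · have := h fun i => π (if i = 0 then a else if i = 1 then b else if i = 2 then c else d)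
      rw [← hπ, map_E, map_E, LieHom.map_lie]
      simpa using this
    · have hs : Function.Surjective π := Submodule.Quotient.mk_surjective _
      obtain ⟨a, ha⟩ := hs (φ 0)
      obtain ⟨b, hb⟩ := hs (φ 1)
      obtain ⟨c, hc⟩ := hs (φ 2)
      obtain ⟨d, hd⟩ := hs (φ 3)
      rw [← ha, ← hb, ← hc, ← hd, ← LieHom.map_lie, ← map_E, ← map_E, hπ]
      exact h ..

theorem coe_E {L : Type} [LieRing L] [LieAlgebra F L] (K : LieSubalgebra F L) (n : ℕ) (y v : K) :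
    (E n y v).1 = E n y.1 v.1 := map_E K.incl n y v

attribute [local instance 100] LieRing.ofAssociativeRing

section block
variable {M : Type} [AddCommGroup M] [Module F M]

def T (m : M) (h : Module.End F M) (l : Module.Dual F M) (z : F) : Module.End F (F × M × F) where
  toFun v := (0, v.1 • m + h v.2.1, v.1 * z + l v.2.1)
  map_add' _ _ := by simp [add_smul, add_mul, add_add_add_comm]
  map_smul' _ _ := by simp [mul_smul, mul_add, mul_assoc]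

theorem T_ap (m : M) (h : Module.End F M) (l : Module.Dual F M) (z : F) (v : F × M × F) :
    T m h l z v = (0, v.1 • m + h v.2.1, v.1 * z + l v.2.1) := rfl

theorem T_add (m m' : M) (h h' : Module.End F M) (l l' : Module.Dual F M) (z z' : F) :
    T m h l z + T m' h' l' z' = T (m + m') (h + h') (l + l') (z + z') :=
  LinearMap.ext fun v => by simp [T_ap, mul_add, add_add_add_comm]

theorem T_zero : T (0 : M) 0 0 0 = 0 := LinearMap.ext fun v => by simp [T_ap]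

theorem T_lie (m m' : M) (h h' : Module.End F M) (l l' : Module.Dual F M) (z z' : F) :
    ⁅T m h l z, T m' h' l' z'⁆ =
      T (h m' + h' m) ⁅h, h'⁆ (l ∘ₗ h' + l' ∘ₗ h) (l m' + l' m) :=
  LinearMap.ext fun v => by
    simp only [LieRing.of_associative_ring_bracket, ZModModule.sub_eq_add, LinearMap.add_apply,
      Module.End.mul_apply, T_ap, map_add, map_smul, LinearMap.comp_apply, Prod.mk_add_mk,
      zero_smul, zero_mul, zero_add, smul_eq_mul, smul_add, mul_add, add_add_add_comm]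

theorem F_cases (c : F) : c = 0 ∨ c = 1 := by revert c; decide

variable (H : LieSubalgebra F (Module.End F M)) (M0 : Submodule F M)
  (Λ : Submodule F (Module.Dual F M)) (h1 : ∀ h ∈ H, ∀ m ∈ M0, h m ∈ M0)
  (h2 : ∀ h ∈ H, ∀ l ∈ Λ, l ∘ₗ h ∈ Λ)

def Lb : LieSubalgebra F (Module.End F (F × M × F)) where
  carrier := {S | ∃ m ∈ M0, ∃ h ∈ H, ∃ l ∈ Λ, ∃ z, S = T m h l z}
  add_mem' := by
    rintro _ _ ⟨m, hm, h, hh, l, hl, z, rfl⟩ ⟨m', hm', h', hh', l', hl', z', rfl⟩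
    exact ⟨_, add_mem hm hm', _, add_mem hh hh', _, add_mem hl hl', _, T_add ..⟩
  zero_mem' := ⟨0, zero_mem _, 0, zero_mem _, 0, zero_mem _, 0, T_zero.symm⟩
  smul_mem' := by
    intro c S hS
    rcases F_cases c with rfl | rfl
    · rw [zero_smul]; exact ⟨0, zero_mem _, 0, zero_mem _, 0, zero_mem _, 0, T_zero.symm⟩
    · rwa [one_smul]
  lie_mem' := by
    rintro _ _ ⟨m, hm, h, hh, l, hl, z, rfl⟩ ⟨m', hm', h', hh', l', hl', z', rfl⟩
    exact ⟨_, add_mem (h1 _ hh _ hm') (h1 _ hh' _ hm), _, H.lie_mem hh hh', _,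
      add_mem (h2 _ hh' _ hl) (h2 _ hh _ hl'), _, T_lie ..⟩

theorem E_T0 (n : ℕ) (m m' : M) (h : Module.End F M) (l l' : Module.Dual F M) (z z' : F) :
    ∃ w, E n (T m h l z) (T m' 0 l' z') = T ((h ^ n) m') 0 (l' ∘ₗ (h ^ n)) w := by
  induction n with
  | zero => exact ⟨z', rfl⟩
  | succ n ih =>
    obtain ⟨w, hw⟩ := ih
    refine ⟨l ((h ^ n) m') + (l' ∘ₗ (h ^ n)) m, ?_⟩
    rw [E_succ, hw, T_lie, lie_zero, LinearMap.zero_apply, add_zero, LinearMap.comp_zero, zero_add,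
      ← Module.End.mul_apply, ← pow_succ', LinearMap.comp_assoc, ← Module.End.mul_eq_comp, ← pow_succ]

include h1 h2 in
theorem E_T (n : ℕ) {m m' : M} {h h' : Module.End F M} {l l' : Module.Dual F M} (z z' : F)
    (hm : m ∈ M0) (hm' : m' ∈ M0) (hh : h ∈ H) (hh' : h' ∈ H) (hl : l ∈ Λ) (hl' : l' ∈ Λ) :
    ∃ a ∈ M0, ∃ b ∈ Λ, ∃ w, E n (T m h l z) (T m' h' l' z') = T a (E n h h') b w ∧ E n h h' ∈ H := by
  induction n with
  | zero => exact ⟨m', hm', l', hl', z', rfl, hh'⟩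
  | succ n ih =>
    obtain ⟨a, ha, b, hb, w, hw, hE⟩ := ih
    refine ⟨_, add_mem (h1 _ hh _ ha) (h1 _ hE _ hm), _, add_mem (h2 _ hE _ hl) (h2 _ hh _ hb), _,
      by rw [E_succ, hw, T_lie, E_succ], by rw [E_succ]; exact H.lie_mem hh hE⟩

theorem pos (he : ∀ h ∈ H, ∀ h' ∈ H, E 17 h h' = 0) (P : Submodule F M)
    (hP : ∀ h ∈ H, ∀ m ∈ P, h m ∈ P)
    (hP1 : ∀ h ∈ H, ∀ h' ∈ H, ∀ m ∈ M0, (⁅h, h'⁆ ^ 3) m ∈ P)
    (hP2 : ∀ h ∈ H, ∀ h' ∈ H, ∀ m ∈ P, ∀ l ∈ Λ, l ((⁅h, h'⁆ ^ 3) m) = 0) :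
    InAV (Lb H M0 Λ h1 h2) := by
  let I : LieIdeal F (Lb H M0 Λ h1 h2) :=
    { carrier := {S | ∃ m ∈ P, ∃ l ∈ P.dualAnnihilator, ∃ z, S.1 = T m 0 l z}
      add_mem' := by
        rintro S S' ⟨m, hm, l, hl, z, h⟩ ⟨m', hm', l', hl', z', h'⟩
        refine ⟨_, add_mem hm hm', _, add_mem hl hl', z + z', ?_⟩
        change S.1 + S'.1 = _
        rw [h, h', T_add, add_zero]
      zero_mem' := ⟨0, zero_mem _, 0, zero_mem _, 0, T_zero.symm⟩
      smul_mem' := by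
        intro c S hS
        rcases F_cases c with rfl | rfl
        · rw [zero_smul]; exact ⟨0, zero_mem _, 0, zero_mem _, 0, T_zero.symm⟩
        · rwa [one_smul]
      lie_mem := by
        rintro ⟨_, m, hm, h, hh, l, hl, z, rfl⟩ S ⟨m', hm', l', hl', z', h'⟩
        refine ⟨_, hP _ hh _ hm', l' ∘ₗ h, ?_, l m' + l' m, ?_⟩
        · rw [Submodule.mem_dualAnnihilator] at hl' ⊢
          exact fun w hw => hl' _ (hP _ hh _ hw)
        · change ⁅T m h l z, S.1⁆ = _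
          rw [h', T_lie]; simp }
  refine (inAV_iff _).2 ⟨I, ?_, ?_⟩
  · rintro S ⟨m, hm, l, hl, z, h⟩ S' ⟨m', hm', l', hl', z', h'⟩
    apply Subtype.ext
    change ⁅S.1, S'.1⁆ = 0
    rw [Submodule.mem_dualAnnihilator] at hl hl'
    rw [h, h', T_lie, hl _ hm', hl' _ hm]
    simp [T_zero]
  · rintro ⟨_, m1, hm1, a, ha, l1, hl1, z1, rfl⟩ ⟨_, m2, hm2, b, hb, l2, hl2, z2, rfl⟩
      ⟨_, m3, hm3, c, hc, l3, hl3, z3, rfl⟩ ⟨_, m4, hm4, d, hd, l4, hl4, z4, rfl⟩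
    obtain ⟨m, hm, l, hl, w, hw, _⟩ := E_T H M0 Λ h1 h2 17 z2 z1 hm2 hm1 hb ha hl2 hl1
    rw [he _ hb _ ha] at hw
    obtain ⟨w', hw'⟩ := E_T0 3 (c m4 + d m3) m ⁅c, d⁆ (l3 ∘ₗ d + l4 ∘ₗ c) l (l3 m4 + l4 m3) w
    refine ⟨_, hP1 _ hc _ hd _ hm, l ∘ₗ ⁅c, d⁆ ^ 3, ?_, w', ?_⟩
    · rw [Submodule.mem_dualAnnihilator]
      exact fun v hv => hP2 _ hc _ hd _ hv _ hl
    · rw [coe_E, coe_E, LieSubalgebra.coe_bracket]
      rw [hw, T_lie, hw']

theorem neg (h : InAV (Lb H M0 Λ h1 h2)) (h0 : 1 ∈ H) {a b c d : Module.End F M} (ha : a ∈ H)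
    (hb : b ∈ H) (hc : c ∈ H) (hd : d ∈ H) (u : ℕ → Module.End F M) (hu : ∀ i, u i ∈ H)
    {m : M} (hm : m ∈ M0) {l : Module.Dual F M} (hl : l ∈ Λ) (f : ℕ → M)
    (f0 : f 0 = (⁅a, b⁆ ^ 3) m) (fs : ∀ i, f (i + 1) = u i (f i)) (n : ℕ) :
    l ((⁅c, d⁆ ^ 3) (f n)) = 0 := by
  obtain ⟨I, hI, hg⟩ := (inAV_iff _).1 h
  let t : ∀ h ∈ H, Lb H M0 Λ h1 h2 := fun h hh =>
    ⟨T 0 h 0 0, 0, zero_mem _, h, hh, 0, zero_mem _, 0, rfl⟩
  have key : ∀ {a b}, ∀ ha : a ∈ H, ∀ hb : b ∈ H, ∀ m ∈ M0, ∀ l ∈ Λ, ∃ S ∈ I, ∃ w,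
      S.1 = T ((⁅a, b⁆ ^ 3) m) 0 (l ∘ₗ ⁅a, b⁆ ^ 3) w := by
    intro a b ha hb m hm l hl
    obtain ⟨w, hw⟩ := E_T0 17 0 m 1 0 l 0 0
    obtain ⟨w', hw'⟩ := E_T0 3 0 m ⁅a, b⁆ 0 l 0 w
    refine ⟨_, hg ⟨T m 0 l 0, m, hm, 0, zero_mem _, l, hl, 0, rfl⟩ (t 1 h0) (t a ha) (t b hb), w', ?_⟩
    rw [coe_E, coe_E, LieSubalgebra.coe_bracket]
    simp only [t]
    rw [hw, T_lie, ← hw']
    simp [Module.End.one_eq_id]
  have hf : ∀ n, ∃ S ∈ I, ∃ w, S.1 = T (f n) 0 0 w := fun n => by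
    induction n with
    | zero => simpa [f0] using key ha hb m hm 0 (zero_mem _)
    | succ n ih =>
      obtain ⟨S, hS, w, hw⟩ := ih
      refine ⟨_, I.lie_mem (x := t _ (hu n)) hS, 0, ?_⟩
      change ⁅T 0 (u n) 0 0, S.1⁆ = _
      rw [hw, T_lie, fs]; simp
  obtain ⟨S, hS, w, hw⟩ := hf n
  obtain ⟨S', hS', w', hw'⟩ := key hc hd 0 (zero_mem _) l hl
  have h3 : ⁅S'.1, S.1⁆ = 0 := congrArg Subtype.val (hI _ hS' _ hS)
  rw [hw, hw', T_lie] at h3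
  simpa [T_ap] using LinearMap.congr_fun h3 (1, 0, 0)

end block

end Pool.Agent.H74.LieProd
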