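import Pool.Agent.H74.LieProd2

set_option autoImplicit false

namespace Pool.Agent.H74.LieProd
open MvPolynomial

attribute [local instance 100] LieRing.ofAssociativeRing

abbrev P := MvPolynomial ℕ F

noncomputable def J : Ideal P := Ideal.span (Set.range fun i => (X i : P) ^ 16)

abbrev R := P ⧸ J

noncomputable def kap (n : ℕ) : ℕ →₀ ℕ :=
  Finsupp.single 0 8 + ∑ i ∈ Finset.range n, Finsupp.single i 2

theorem kap_ap (n i : ℕ) : kap n i = (if i = 0 then 8 else 0) + if i < n then 2 else 0 := by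
  simp [kap, Finsupp.single_apply, eq_comm]

theorem J_coeff (s : ℕ →₀ ℕ) (hs : ∀ i, s i < 16) : ∀ p ∈ J, coeff s p = 0 := fun p hp => by
  have : ∀ q, coeff s (q * p) = 0 := by
    induction hp using Submodule.span_induction with
    | mem x hx =>
      obtain ⟨i, rfl⟩ := hx
      intro q
      beta_reduce
      rw [X_pow_eq_monomial, coeff_mul_monomial', if_neg]
      intro h
      have := h i
      have := hs i
      simp at *; omega
    | zero => simp
    | add x y _ _ hx hy => intro q; rw [mul_add, coeff_add, hx, hy, add_zero]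
    | smul a x _ hx => intro q; rw [smul_eq_mul, ← mul_assoc, hx]
  simpa using this 1

noncomputable def tau (s : ℕ →₀ ℕ) (hs : ∀ i, s i < 16) : R →ₗ[F] F :=
  AddMonoidHom.toZModLinearMap 2 (M := R) (QuotientAddGroup.lift J.toAddSubgroup
    (lcoeff F s).toAddMonoidHom (J_coeff s hs))

theorem tau_mk (s : ℕ →₀ ℕ) (hs : ∀ i, s i < 16) (p : P) :
    tau s hs (Ideal.Quotient.mk J p) = coeff s p := rfl

instance : Nontrivial R := ⟨⟨0, 1, fun h => by
  have := congrArg (tau 0 (by simp)) h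
  rw [map_zero, ← map_one (Ideal.Quotient.mk J), tau_mk] at this
  simp at this⟩⟩

instance : CharP R 2 := charP_of_injective_algebraMap (algebraMap F R).injective 2

theorem kap_lt (n i : ℕ) : kap n i < 16 := by rw [kap_ap]; split_ifs <;> omega

theorem pow4 (G : P) : ∀ a, coeff a (G ^ 4) ≠ 0 → ∀ i, 4 ∣ a i := by
  induction G using MvPolynomial.induction_on' with
  | monomial u c =>
    intro a ha i
    rw [monomial_pow, coeff_monomial] at ha
    split_ifs at ha with h
    · subst h; simp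
    · simp at ha
  | add p q hp hq =>
    intro a ha
    have := add_pow_char_pow p q 2 2
    norm_num at this
    rw [this, coeff_add] at ha
    by_cases h : coeff a (p ^ 4) = 0
    · exact hq a (by simpa [h] using ha)
    · exact hp a h

theorem coeff_kap (n : ℕ) (G Q : P) (hQ : Q.totalDegree < 2 * n) : coeff (kap n) (G ^ 4 * Q) = 0 := by
  rw [coeff_mul]
  refine Finset.sum_eq_zero ?_
  rintro ⟨a, b⟩ hab
  have h1 : a + b = kap n := by simpa using hab
  by_cases ha : coeff a (G ^ 4) = 0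
  · rw [ha, zero_mul]
  refine mul_eq_zero_of_right _ (coeff_eq_zero_of_totalDegree_lt (hQ.trans_le ?_))
  have h2 : ∀ i ∈ Finset.range n, 2 ≤ b i := fun i hi => by
    have h3 := pow4 G a ha i
    have h4 := DFunLike.congr_fun h1 i
    rw [kap_ap, if_pos (Finset.mem_range.1 hi), Finsupp.add_apply] at h4
    split_ifs at h4 <;> omega
  calc 2 * n = ∑ _i ∈ Finset.range n, 2 := by simp [mul_comm]
    _ ≤ ∑ i ∈ Finset.range n, b i := Finset.sum_le_sum h2
    _ ≤ _ := Finset.sum_le_sum_of_subset fun i hi =>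
      Finsupp.mem_support_iff.2 (by have := h2 i hi; change b i ≠ 0; omega)

noncomputable def XX : AddSubgroup R := AddSubgroup.closure (Set.range fun i => Ideal.Quotient.mk J (X i))

theorem XX_prop : ∀ l ∈ XX, l ^ 16 = 0 ∧ ∃ p : P, p.totalDegree ≤ 1 ∧ Ideal.Quotient.mk J p = l := by
  intro l hl
  induction hl using AddSubgroup.closure_induction with
  | mem x hx =>
    obtain ⟨i, rfl⟩ := hx
    refine ⟨?_, X i, by simp, rfl⟩
    rw [← map_pow, Ideal.Quotient.eq_zero_iff_mem]
    exact Ideal.subset_span ⟨i, rfl⟩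
  | zero => exact ⟨by simp, 0, by simp, rfl⟩
  | add x y _ _ hx hy =>
    obtain ⟨h1, p, hp, rfl⟩ := hx
    obtain ⟨h2, q, hq, rfl⟩ := hy
    refine ⟨?_, p + q, (totalDegree_add p q).trans (max_le hp hq), rfl⟩
    have := add_pow_char_pow (Ideal.Quotient.mk J p) (Ideal.Quotient.mk J q) 2 4
    norm_num at this
    rw [this, h1, h2, add_zero]
  | neg x _ hx => rwa [CharTwo.neg_eq]

theorem posZ {A : Type} [CommRing A] [Algebra F A] [CharP A 2] (τ : A →ₗ[F] F) (k : ℕ)
    (l : Fin k → A) (hl : ∀ a ∈ AddSubgroup.closure (Set.range l), a ^ 16 = 0)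
    (hτ : ∀ (G : A) (S : Finset (Fin k)), τ (G ^ 4 * (∏ i ∈ S, l i) ^ 2) = 0) :
    InAV (LY τ (AddSubgroup.closure (Set.range l))) := by
  classical
  let V : AddSubgroup A :=
    AddSubgroup.closure {x | ∃ (G : A) (S : Finset (Fin k)), x = G ^ 4 * (∏ i ∈ S, l i) ^ 2}
  have hV : ∀ (a : A), (∀ G S, a * (G ^ 4 * (∏ i ∈ S, l i) ^ 2) ∈ V) → ∀ v ∈ V, a * v ∈ V := by
    intro a ha v hv
    induction hv using AddSubgroup.closure_induction with
    | mem x hx => obtain ⟨G, S, rfl⟩ := hx; exact ha G S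
    | zero => simp
    | add x y _ _ hx hy => rw [mul_add]; exact add_mem hx hy
    | neg x _ hx => rw [mul_neg]; exact neg_mem hx
  refine posY _ _ hl {u | u ^ 2 ∈ V} (AddSubgroup.subset_closure ⟨1, ∅, by simp⟩) ?_ ?_
  · intro a ha u hu
    change (a * u) ^ 2 ∈ V
    rw [mul_pow]
    induction ha using AddSubgroup.closure_induction with
    | mem x hx =>
      obtain ⟨i, rfl⟩ := hx
      refine hV _ (fun G S => AddSubgroup.subset_closure ?_) _ hu
      by_cases hi : i ∈ S
      · exact ⟨G * l i, S.erase i, by rw [← Finset.mul_prod_erase S l hi]; ring⟩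
      · exact ⟨G, insert i S, by rw [Finset.prod_insert hi]; ring⟩
    | zero => simp
    | add x y _ _ hx hy => rw [CharTwo.add_sq, add_mul]; exact add_mem hx hy
    | neg x _ hx => rwa [neg_sq]
  · intro G u hu
    have h1 : G ^ 4 * u ^ 2 ∈ V :=
      hV _ (fun G' S => AddSubgroup.subset_closure ⟨G * G', S, by ring⟩) _ hu
    generalize G ^ 4 * u ^ 2 = v at h1
    induction h1 using AddSubgroup.closure_induction with
    | mem x hx => obtain ⟨G, S, rfl⟩ := hx; exact hτ G S
    | zero => simp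
    | add x y _ _ hx hy => rw [map_add, hx, hy, add_zero]
    | neg x _ hx => rw [map_neg, hx, neg_zero]

theorem local_pos (k : ℕ) (l : Fin k → R) (hl : ∀ i, l i ∈ XX) :
    InAV (LY (tau _ (kap_lt (k + 1))) (AddSubgroup.closure (Set.range l))) := by
  refine posZ _ k l (fun a ha => (XX_prop a ((AddSubgroup.closure_le XX).2 ?_ ha)).1) fun G S => ?_
  · rintro _ ⟨i, rfl⟩; exact hl i
  obtain ⟨G, rfl⟩ := Ideal.Quotient.mk_surjective G
  choose p hp hp' using fun i => (XX_prop _ (hl i)).2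
  simp only [← hp', ← map_prod, ← map_pow, ← map_mul, tau_mk]
  refine coeff_kap _ _ _ ((totalDegree_pow _ _).trans_lt ?_)
  have h2 : (∏ i ∈ S, p i).totalDegree ≤ _ :=
    (totalDegree_finsetProd S p).trans (Finset.sum_le_sum fun i _ => hp i)
  have h3 := S.card_le_univ
  simp at h2 h3
  omega

theorem global_neg (n : ℕ) : ¬ InAV (LY (tau _ (kap_lt n)) XX) := fun h => by
  have := negY _ XX (fun i => Ideal.Quotient.mk J (X i))
    (fun i => AddSubgroup.subset_closure ⟨i, rfl⟩) n h
  simp only [← map_prod, ← map_pow, ← map_mul, tau_mk, ← Finset.prod_pow, X_pow_eq_monomial] at this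
  rw [← monomial_sum_one, monomial_mul, coeff_monomial] at this
  simp [kap] at this

theorem main (C : Finset (FreeLieAlgebra F ℕ)) : ∃ (L : Type) (_ : LieRing L) (_ : LieAlgebra F L),
    ¬ (InAV L ↔ ∀ c ∈ C, ∀ φ : ℕ → L, FreeLieAlgebra.lift F φ c = 0) := by
  by_contra hc
  push Not at hc
  obtain ⟨k, hk⟩ := exists_dep_finset C
  refine global_neg (k + 1) ((hc _ _ _).2 fun c hcC φ => ?_)
  choose m hm h hh l hl z hz using fun i => (φ i).2
  choose p q y hy d hd using hh
  let Y := AddSubgroup.closure (Set.range fun i : Fin k => y i)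
  have hY : Y ≤ XX := (AddSubgroup.closure_le XX).2 (by rintro _ ⟨i, rfl⟩; exact hy i)
  have hle : LY (tau _ (kap_lt (k + 1))) Y ≤ LY (tau _ (kap_lt (k + 1))) XX := by
    rintro _ ⟨m, hm, _, ⟨p, q, y, hy, d, rfl⟩, l, hl, z, rfl⟩
    exact ⟨m, hm, _, ⟨p, q, y, hY hy, d, rfl⟩, l, hl, z, rfl⟩
  let ψ : ℕ → LY (tau _ (kap_lt (k + 1))) Y := fun i => if hi : i < k then
    ⟨(φ i).1, m i, hm i, h i, ⟨p i, q i, y i, AddSubgroup.subset_closure ⟨⟨i, hi⟩, rfl⟩, d i, hd i⟩,
      l i, hl i, z i, hz i⟩ else 0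
  have h0 := (hc _ _ _).1 (local_pos k (fun i => y i) fun i => hy i) c hcC ψ
  rw [hk c hcC _ φ (LieSubalgebra.inclusion hle ∘ ψ) (fun i hi => by
    apply Subtype.ext; simp [ψ, hi]), ← map_lift, h0, map_zero]

end Pool.Agent.H74.LieProd
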