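import Pool.Agent.H74.CubeStep

set_option autoImplicit false

namespace Pool.Agent.H74.Cubes

/-- A system of cubes on a loop, with uniqueness of the last vertex in dimensions above `w`. -/
structure CubeSys (Q : Type) [Mul Q] (w : ℕ) where
  C : (n : ℕ) → Set (V n → Q)
  const : ∀ n a, (fun _ => a) ∈ C n
  dir : ∀ n (i : Fin n) a b, (fun s : V n => if s i then b else a) ∈ C n
  mul : ∀ n, ∀ x ∈ C n, ∀ y ∈ C n, (fun s => x s * y s) ∈ C n
  ldiv : ∀ n, ∀ x ∈ C n, ∀ y ∈ C n, ∀ r : V n → Q, (∀ s, x s * r s = y s) → r ∈ C n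
  rdiv : ∀ n, ∀ x ∈ C n, ∀ y ∈ C n, ∀ r : V n → Q, (∀ s, r s * x s = y s) → r ∈ C n
  uniq : ∀ n, w < n → ∀ x ∈ C n, ∀ y ∈ C n, (∀ s, s ≠ (fun _ => true) → x s = y s) →
    x (fun _ => true) = y (fun _ => true)

lemma series_of_upper {G : Type} [Group G] (c : ℕ) (h : Subgroup.upperCentralSeries G c = ⊤) :
    Series (fun a => Subgroup.upperCentralSeries G (c - a)) where
  zero := by simpa using h
  normal a := inferInstance
  anti a := Subgroup.upperCentralSeries_mono G (by omega)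
  comm a x hx y := by
    by_cases ha : a < c
    · have e : c - a = c - (a + 1) + 1 := by omega
      simp only [e] at hx
      exact Subgroup.mem_upperCentralSeries_succ_iff.1 hx y
    · have e : c - a = 0 := by omega
      simp only [e, Subgroup.upperCentralSeries_zero, Subgroup.mem_bot] at hx
      simp [hx]

theorem cubeSys_of_nilpotent (Q : Type) [MulOneClass Q]
    (hL : ∀ a : Q, Function.Bijective (fun x : Q => a * x))
    (hR : ∀ a : Q, Function.Bijective (fun x : Q => x * a))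
    (M : Subgroup (Equiv.Perm Q)) (mL : ∀ a, Equiv.ofBijective _ (hL a) ∈ M)
    (mR : ∀ a, Equiv.ofBijective _ (hR a) ∈ M) (c : ℕ) (h : Subgroup.upperCentralSeries M c = ⊤) :
    Nonempty (CubeSys Q (4 ^ c)) := by
  let ev : M → Q := fun g => g.1 1
  let l : Q → M := fun a => ⟨_, mL a⟩
  let r : Q → M := fun a => ⟨_, mR a⟩
  let H : Subgroup M := (MulAction.stabilizer (Equiv.Perm Q) (1 : Q)).comap M.subtype
  have eqv : ∀ x y : M, Eqv H x y ↔ ev x = ev y := fun x y => by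
    show (x.1⁻¹ * y.1) 1 = 1 ↔ x.1 1 = y.1 1
    rw [Equiv.Perm.mul_apply, Equiv.Perm.inv_eq_iff_eq, eq_comm]
  have evl : ∀ a (g : M), ev (l a * g) = a * ev g := fun a g => rfl
  have evr : ∀ a (g : M), ev (r a * g) = ev g * a := fun a g => rfl
  have evl1 : ∀ a, ev (l a) = a := fun a => mul_one a
  obtain ⟨Γ, hΓ, hc⟩ := exists_good (fun g => l (ev g)) (fun g => r (ev g)) (series_of_upper c h) c
  have hc := hc H (by simp) (fun g h => by rw [eqv, evl, evr])
  have h0 : Γ.s 0 = ⊤ := top_le_iff.1 (hΓ.one ▸ Γ.anti 0)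
  refine ⟨⟨fun n => {x | ∃ p ∈ (P Γ n).s 0, ∀ s, ev (p s) = x s}, ?_, ?_, ?_, ?_, ?_, ?_⟩⟩
  · intro n a
    exact ⟨_, const_mem Γ n 0 (l a) (h0 ▸ Subgroup.mem_top _), fun s => evl1 a⟩
  · intro n i a b
    refine ⟨_, dir_mem Γ hΓ.one n i (l a) (l b), fun s => ?_⟩
    dsimp only
    split_ifs <;> exact evl1 _
  · rintro n x ⟨p, hp, ep⟩ y ⟨q, hq, eq⟩
    obtain ⟨u, hu, e⟩ := (hc n p hp q hq).1
    exact ⟨u, hu, fun s => by rw [(eqv _ _).1 (e s), evl, ep, eq]⟩
  · rintro n x ⟨p, hp, ep⟩ y ⟨q, hq, eq⟩ z hz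
    obtain ⟨u, hu, e⟩ := (hc n p hp q hq).2.1
    refine ⟨u, hu, fun s => (hL (x s)).1 ?_⟩
    have := (eqv _ _).1 ((e s).left (l (ev (p s))))
    rw [mul_inv_cancel_left, evl, ep, eq] at this
    exact this.trans (hz s).symm
  · rintro n x ⟨p, hp, ep⟩ y ⟨q, hq, eq⟩ z hz
    obtain ⟨u, hu, e⟩ := (hc n p hp q hq).2.2
    refine ⟨u, hu, fun s => (hR (x s)).1 ?_⟩
    have := (eqv _ _).1 ((e s).left (r (ev (p s))))
    rw [mul_inv_cancel_left, evr, ep, eq] at this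
    exact this.trans (hz s).symm
  · rintro n hn x ⟨p, hp, ep⟩ y ⟨q, hq, eq⟩ hxy
    have := top_mem Γ H n 0 (p⁻¹ * q) (mul_mem (inv_mem hp) hq)
      ((hΓ.eq _ (by simpa using hn)).trans (by simp)) (fun s hs =>
        (eqv (p s) (q s)).2 (by rw [ep, eq, hxy s hs]))
    rw [← ep, ← eq]
    exact (eqv _ _).1 this

end Pool.Agent.H74.Cubes
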