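import Mathlib

set_option autoImplicit false

namespace Pool.Agent.H74.Loops

/-- A loop: `ldiv a b` is `a \ b` and `rdiv b a` is `b / a`. -/
class Loop (Q : Type) extends Mul Q, One Q where
  ldiv : Q → Q → Q
  rdiv : Q → Q → Q
  one_mul : ∀ a : Q, 1 * a = a
  mul_one : ∀ a : Q, a * 1 = a
  mul_ldiv : ∀ a b : Q, a * ldiv a b = b
  ldiv_mul : ∀ a b : Q, ldiv a (a * b) = b
  rdiv_mul : ∀ a b : Q, rdiv b a * a = b
  mul_rdiv : ∀ a b : Q, rdiv (b * a) a = b

/-- Polynomial operations of arity `n`: generated by projections and constants under the three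
loop operations. -/
inductive IsPoly {Q : Type} [Loop Q] {n : ℕ} : ((Fin n → Q) → Q) → Prop
  | proj (i : Fin n) : IsPoly (fun u => u i)
  | const (a : Q) : IsPoly (fun _ => a)
  | mul {p q : (Fin n → Q) → Q} : IsPoly p → IsPoly q → IsPoly (fun u => p u * q u)
  | ldiv {p q : (Fin n → Q) → Q} : IsPoly p → IsPoly q → IsPoly (fun u => Loop.ldiv (p u) (q u))
  | rdiv {p q : (Fin n → Q) → Q} : IsPoly p → IsPoly q → IsPoly (fun u => Loop.rdiv (p u) (q u))

/-- Absorbing operations. -/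
def Absorbing {Q : Type} [Loop Q] {n : ℕ} (p : (Fin n → Q) → Q) : Prop :=
  ∀ u : Fin n → Q, (∃ i, u i = 1) → p u = 1

/-- `k`-supernilpotence: every absorbing polynomial of arity greater than `k` is constant. -/
def Supernilp (Q : Type) [Loop Q] (k : ℕ) : Prop :=
  ∀ n, k < n → ∀ p : (Fin n → Q) → Q, IsPoly p → Absorbing p → ∀ u v, p u = p v

/-- The multiplication group. -/
def Mlt (Q : Type) [Loop Q] : Subgroup (Equiv.Perm Q) :=
  Subgroup.closure {σ | ∃ a : Q, (∀ x, σ x = a * x) ∨ (∀ x, σ x = x * a)}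

end Pool.Agent.H74.Loops
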