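import Pool.Agent.H74.LoopDefs
import Pool.Agent.H74.LoopCubes

set_option autoImplicit false

namespace Pool.Agent.H74.Loops

open Pool.Agent.H74.Cubes

variable {Q : Type} [Loop Q]

lemma bijL (a : Q) : Function.Bijective (fun x : Q => a * x) :=
  ⟨fun x y h => by
    have := congrArg (Loop.ldiv a) h
    simpa [Loop.ldiv_mul] using this, fun b => ⟨_, Loop.mul_ldiv a b⟩⟩

lemma bijR (a : Q) : Function.Bijective (fun x : Q => x * a) :=
  ⟨fun x y h => by
    have := congrArg (fun z => Loop.rdiv z a) h
    simpa [Loop.mul_rdiv] using this, fun b => ⟨_, Loop.rdiv_mul a b⟩⟩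

lemma supernilp_of_cubeSys {w : ℕ} (S : CubeSys Q w) : Supernilp Q w := by
  intro n hn p hp ha
  have key : ∀ u : Fin n → Q, (fun s : V n => p (fun i => if s i then u i else 1)) ∈ S.C n := by
    intro u
    clear ha
    induction hp with
    | proj i => exact S.dir n i 1 (u i)
    | const a => exact S.const n a
    | mul _ _ h1 h2 => exact S.mul n _ h1 _ h2
    | ldiv _ _ h1 h2 => exact S.ldiv n _ h1 _ h2 _ (fun s => Loop.mul_ldiv _ _)
    | rdiv _ _ h1 h2 => exact S.rdiv n _ h2 _ h1 _ (fun s => Loop.rdiv_mul _ _)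
  have one : ∀ u, p u = 1 := fun u => by
    have := S.uniq n hn _ (key u) _ (S.const n 1) (fun s hs => by
      apply ha
      by_contra hh
      push Not at hh
      apply hs
      funext i
      have := hh i
      cases h : s i
      · simp [h] at this
      · rfl)
    simpa using this
  intro u v
  rw [one, one]

theorem supernilp_of_upper (c : ℕ) (h : Subgroup.upperCentralSeries (Mlt Q) c = ⊤) :
    Supernilp Q (4 ^ c) := by
  let _ : MulOneClass Q := { one_mul := Loop.one_mul, mul_one := Loop.mul_one }
  obtain ⟨S⟩ := cubeSys_of_nilpotent Q bijL bijR (Mlt Q)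
    (fun a => Subgroup.subset_closure ⟨a, Or.inl fun _ => rfl⟩)
    (fun a => Subgroup.subset_closure ⟨a, Or.inr fun _ => rfl⟩) c h
  exact supernilp_of_cubeSys S

end Pool.Agent.H74.Loops
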