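import Mathlib

set_option autoImplicit false

namespace Pool.Agent.H74.NilHomog

/-- Function symbols: `0`, negation, multiplication by each scalar, sum and product. -/
inductive Fn (K : Type) : ℕ → Type
  | zero : Fn K 0
  | neg : Fn K 1
  | smul (c : K) : Fn K 1
  | add : Fn K 2
  | mul : Fn K 2

/-- The first-order language of `K`-algebras (no relation symbols). -/
def Lang (K : Type) : FirstOrder.Language := ⟨Fn K, fun _ => Empty⟩

/-- A `K`-vector space `H` with a product `mul` as a structure for `Lang K`. -/
@[reducible] def str (K H : Type) [Field K] [AddCommGroup H] [Module K H] (mul : H → H → H) :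
    (Lang K).Structure H where
  funMap := fun {_} f v => match f, v with
    | Fn.zero, _ => 0
    | Fn.neg, v => -v 0
    | Fn.smul c, v => c • v 0
    | Fn.add, v => v 0 + v 1
    | Fn.mul, v => mul (v 0) (v 1)
  RelMap := fun r _ => r.elim

/-- Two tuples have the same complete first-order type. -/
def SameType (K H : Type) [Field K] [AddCommGroup H] [Module K H] (mul : H → H → H) {k : ℕ}
    (a b : Fin k → H) : Prop :=
  ∀ φ : (Lang K).Formula (Fin k),
    @FirstOrder.Language.Formula.Realize (Lang K) H (str K H mul) (Fin k) φ a ↔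
      @FirstOrder.Language.Formula.Realize (Lang K) H (str K H mul) (Fin k) φ b

section assoc

variable (K A : Type) [Field K] [NonUnitalRing A] [Module K A]

/-- The `K`-span of the products `a * b` with `a ∈ M`, `b ∈ N`. -/
def prodSpan (M N : Submodule K A) : Submodule K A :=
  Submodule.span K {z | ∃ a ∈ M, ∃ b ∈ N, z = a * b}

/-- The powers: `A^1 = A` and `A^(k+2)` is the sum of the `A^i A^j`, `i + j = k + 2`, `i, j ≥ 1`
(the value at `0` is not used). -/
def power : ℕ → Submodule K A
  | 0 => ⊤
  | 1 => ⊤
  | k + 2 => ⨆ i : Fin (k + 1), prodSpan K A (power (i + 1)) (power (k + 1 - i))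
  decreasing_by all_goals omega

/-- The series `A^(0) = A`, `A^(k+1) = A^(k) A^(k)`. -/
def derived : ℕ → Submodule K A
  | 0 => ⊤
  | k + 1 => prodSpan K A (derived k) (derived k)

/-- Logical homogeneity of an associative, not necessarily unital, `K`-algebra. -/
def Homogeneous : Prop :=
  ∀ (k : ℕ) (a b : Fin k → A), SameType K A (fun u v => u * v) a b →
    ∃ σ : A →ₙₐ[K] A, Function.Bijective σ ∧ ∀ i, σ (a i) = b i

end assoc

end Pool.Agent.H74.NilHomog
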