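import Mathlib
import Pool.Agent.H74.NilHomogDefs

set_option autoImplicit false

namespace Pool.Agent.H74.NilHomog

section core

variable {K H : Type} [Field K] [AddCommGroup H] [Module K H] (m : H →ₗ[K] H →ₗ[K] H)

def IsE (φ : H →ₗ[K] H) : Prop := ∀ a b, φ (m a b) = m (φ a) (φ b)

def P : ℕ → Submodule K H
  | 0 => ⊤
  | k + 1 => Submodule.map₂ m (P k) ⊤

def U (U0 : Submodule K H) : ℕ → Submodule K H
  | 0 => U0
  | k + 1 => Submodule.map₂ m (U U0 k) U0

lemma P_succ_le (k : ℕ) : P m (k + 1) ≤ P m k := by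
  induction k with
  | zero => exact le_top
  | succ k ih => exact Submodule.map₂_le_map₂ ih le_rfl

variable {m}

lemma IsE.comp {φ ψ : H →ₗ[K] H} (h1 : IsE m φ) (h2 : IsE m ψ) : IsE m (φ ∘ₗ ψ) := by
  intro a b
  simp [h2 a b, h1 (ψ a) (ψ b)]

lemma IsE.pow {φ : H →ₗ[K] H} (h1 : IsE m φ) (n : ℕ) : IsE m (φ ^ n) := by
  induction n with
  | zero => intro a b; simp
  | succ n ih => rw [pow_succ]; exact ih.comp h1

lemma IsE.P1 {φ : H →ₗ[K] H} (h1 : IsE m φ) : P m 1 ≤ (P m 1).comap φ := by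
  refine Submodule.map₂_le.2 fun a _ b _ => ?_
  rw [Submodule.mem_comap, h1]
  exact Submodule.apply_mem_map₂ _ trivial trivial

lemma P_le (hP : ∀ k, ∀ a ∈ P m k, ∀ c d, m a (m c d) ∈ P m (k + 2))
    (U0 : Submodule K H) (h0 : U0 ⊔ P m 1 = ⊤) (k : ℕ) :
    U m U0 k ≤ P m k ∧ P m k ≤ U m U0 k ⊔ P m (k + 1) := by
  induction k with
  | zero => exact ⟨le_top, h0.ge⟩
  | succ k ih =>
    refine ⟨Submodule.map₂_le_map₂ ih.1 le_top, Submodule.map₂_le.2 fun a ha b _ => ?_⟩
    obtain ⟨w, hw, p, hp, rfl⟩ := Submodule.mem_sup.1 (ih.2 ha)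
    obtain ⟨u, hu, q, hq, rfl⟩ := Submodule.mem_sup.1 (h0.ge (Submodule.mem_top (x := b)))
    have h1 : m w u ∈ U m U0 (k + 1) := Submodule.apply_mem_map₂ _ hw hu
    have h2 : m p (u + q) ∈ P m (k + 2) := Submodule.apply_mem_map₂ _ hp trivial
    have h3 : m w q ∈ P m (k + 2) := by
      have : P m 1 ≤ (P m (k + 2)).comap (m w) :=
        Submodule.map₂_le.2 fun c _ d _ => hP k w (ih.1 hw) c d
      exact this hq
    have e : m (w + p) (u + q) = m w u + (m w q + m p (u + q)) := by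
      simp only [map_add, LinearMap.add_apply]; abel
    rw [e]
    exact Submodule.add_mem_sup h1 (add_mem h3 h2)

lemma top_le (hP : ∀ k, ∀ a ∈ P m k, ∀ c d, m a (m c d) ∈ P m (k + 2)) (hN : ∃ N, P m N = ⊥)
    (U0 : Submodule K H) (h0 : U0 ⊔ P m 1 = ⊤) (T : Submodule K H) (hT : ∀ k, U m U0 k ≤ T) :
    T = ⊤ := by
  obtain ⟨N, hN⟩ := hN
  have : ∀ k, (⊤ : Submodule K H) ≤ T ⊔ P m k := by
    intro k
    induction k with
    | zero => exact le_sup_right
    | succ k ih =>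
      refine ih.trans (sup_le le_sup_left ((P_le hP U0 h0 k).2.trans ?_))
      exact sup_le_sup_right (hT k) _
  have h := this N
  rw [hN, sup_bot_eq] at h
  exact top_le_iff.1 h

lemma nil_top (hP : ∀ k, ∀ a ∈ P m k, ∀ c d, m a (m c d) ∈ P m (k + 2)) (hN : ∃ N, P m N = ⊥)
    (U0 : Submodule K H) (h0 : U0 ⊔ P m 1 = ⊤) (hcl : ∀ a ∈ U0, ∀ b ∈ U0, m a b ∈ U0) :
    U0 = ⊤ := by
  apply top_le hP hN U0 h0
  intro k
  induction k with
  | zero => exact le_rfl
  | succ k ih => exact Submodule.map₂_le.2 fun a ha b hb => hcl a (ih ha) b hb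

lemma fin_dim (hP : ∀ k, ∀ a ∈ P m k, ∀ c d, m a (m c d) ∈ P m (k + 2)) (hN : ∃ N, P m N = ⊥)
    (U0 : Submodule K H) (h0 : U0 ⊔ P m 1 = ⊤) (hfg : U0.FG) : FiniteDimensional K H := by
  obtain ⟨N, hN⟩ := hN
  have hU : ∀ k, (U m U0 k).FG := by
    intro k
    induction k with
    | zero => exact hfg
    | succ k ih => exact ih.map₂ m hfg
  have : ∀ k, ∃ T : Submodule K H, T.FG ∧ (⊤ : Submodule K H) ≤ T ⊔ P m k := by
    intro k
    induction k with
    | zero => exact ⟨⊥, Submodule.fg_bot, le_sup_right⟩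
    | succ k ih =>
      obtain ⟨T, h1, h2⟩ := ih
      refine ⟨T ⊔ U m U0 k, h1.sup (hU k), h2.trans (sup_le ?_ ?_)⟩
      · exact le_sup_left.trans le_sup_left
      · exact (P_le hP U0 h0 k).2.trans (sup_le_sup_right le_sup_right _)
  obtain ⟨T, h1, h2⟩ := this N
  rw [hN, sup_bot_eq] at h2
  exact ⟨top_le_iff.1 h2 ▸ h1⟩

theorem core {ι : Type} [Finite ι] (x : ι → H)
    (hext : ∀ f : ι → H, ∃ φ : H →ₗ[K] H, IsE m φ ∧ ∀ i, φ (x i) = f i)
    (hgen : ∀ T : Submodule K H, (∀ i, x i ∈ T) → (∀ a ∈ T, ∀ b ∈ T, m a b ∈ T) → T = ⊤)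
    (hP : ∀ k, ∀ a ∈ P m k, ∀ c d, m a (m c d) ∈ P m (k + 2)) (hN : ∃ N, P m N = ⊥)
    (α β : H →ₗ[K] H) (hα : IsE m α) (hβ : IsE m β) :
    ∃ σ : H →ₗ[K] H, IsE m σ ∧ Function.Bijective σ ∧ ∀ a, β (α a) = a → σ a = α a := by
  classical
  have hspan : Submodule.span K (Set.range x) ⊔ P m 1 = ⊤ := by
    apply hgen
    · exact fun i => Submodule.mem_sup_left (Submodule.subset_span ⟨i, rfl⟩)
    · exact fun a _ b _ => Submodule.mem_sup_right (Submodule.apply_mem_map₂ _ trivial trivial)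
  have : FiniteDimensional K H :=
    fin_dim hP hN _ hspan (Submodule.fg_span (Set.finite_range x))
  have huniq : ∀ φ ψ : H →ₗ[K] H, IsE m φ → IsE m ψ → (∀ i, φ (x i) = ψ (x i)) → φ = ψ := by
    intro φ ψ h1 h2 h3
    have := hgen (LinearMap.eqLocus φ ψ) h3 (fun a ha b hb => by
      rw [LinearMap.mem_eqLocus] at *
      rw [h1, h2, ha, hb])
    exact LinearMap.eqLocus_eq_top.1 this
  by_cases htriv : P m 1 = ⊤
  · have h0 := nil_top hP hN ⊥ (by rw [htriv, bot_sup_eq]) (by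
      intro a ha b _
      rw [Submodule.mem_bot] at ha ⊢
      simp [ha])
    have hz : ∀ a : H, a = 0 := fun a => (Submodule.mem_bot K).1 (h0 ▸ Submodule.mem_top)
    exact ⟨LinearMap.id, fun _ _ => rfl, Function.bijective_id, fun a _ => by
      rw [hz (α a), hz (LinearMap.id a)]⟩
  let π := (P m 1).mkQ
  have hli : LinearIndependent K (fun i => π (x i)) := by
    have := Fintype.ofFinite ι
    rw [Fintype.linearIndependent_iff]
    intro g hg i0
    by_contra h0
    apply htriv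
    rw [eq_top_iff]
    intro h _
    obtain ⟨φ, h1, h2⟩ := hext (fun i => if i = i0 then h else 0)
    have h3 : ∑ i, g i • x i ∈ P m 1 := by
      rw [← Submodule.Quotient.mk_eq_zero, ← Submodule.mkQ_apply, map_sum]
      simpa [π] using hg
    have h4 := h1.P1 h3
    rw [Submodule.mem_comap, map_sum] at h4
    simp only [map_smul, h2, smul_ite, smul_zero, Finset.sum_ite_eq', Finset.mem_univ,
      if_true] at h4
    exact (Submodule.smul_mem_iff _ h0).1 h4
  have hsp : ⊤ ≤ Submodule.span K (Set.range fun i => π (x i)) := by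
    have h1 := congrArg (Submodule.map π) hspan
    rw [Submodule.map_sup, Submodule.map_span, Submodule.map_top, Submodule.range_mkQ,
      Submodule.mkQ_map_self, sup_bot_eq, ← Set.range_comp] at h1
    exact h1.ge
  let bV := Module.Basis.mk hli hsp
  let s : (H ⧸ P m 1) →ₗ[K] H := bV.constr K x
  have hsx : ∀ i, s (π (x i)) = x i := by
    intro i
    have := bV.constr_basis K x i
    simpa [bV] using this
  have hπs : ∀ v, π (s v) = v := by
    have : π ∘ₗ s = LinearMap.id := bV.ext fun i => by simp [bV, hsx]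
    exact fun v => DFunLike.congr_fun this v
  have hlift : ∀ j : (H ⧸ P m 1) →ₗ[K] H, ∃ J : H →ₗ[K] H, IsE m J ∧ ∀ v, J (s v) = j v := by
    intro j
    obtain ⟨J, h1, h2⟩ := hext (fun i => j (π (x i)))
    have : J ∘ₗ s = j := bV.ext fun i => by simp [bV, hsx, h2]
    exact ⟨J, h1, fun v => DFunLike.congr_fun this v⟩
  have hauto : ∀ φ : H →ₗ[K] H, IsE m φ → (∀ v, ∃ h, π (φ h) = v) → Function.Bijective φ := by
    intro φ h1 h2
    have h3 : LinearMap.range φ = ⊤ := by
      apply nil_top hP hN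
      · rw [eq_top_iff]
        intro h _
        obtain ⟨h', hh⟩ := h2 (π h)
        have : h - φ h' ∈ P m 1 := by
          rw [← Submodule.Quotient.eq]
          exact hh.symm
        have e : h = φ h' + (h - φ h') := by abel
        rw [e]
        exact Submodule.add_mem_sup ⟨h', rfl⟩ this
      · rintro _ ⟨a, rfl⟩ _ ⟨b, rfl⟩
        exact ⟨m a b, h1 a b⟩
    have h4 := LinearMap.range_eq_top.1 h3
    exact ⟨LinearMap.injective_iff_surjective.2 h4, h4⟩
  obtain ⟨N, hc⟩ := Filter.eventually_atTop.1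
    (LinearMap.eventually_isCompl_ker_pow_range_pow (β ∘ₗ α : Module.End K H))
  replace hc := (hc (N + 1) (by omega)).symm
  set g : H →ₗ[K] H := (β ∘ₗ α : Module.End K H) ^ (N + 1) with hg
  have hgE : IsE m g := (hβ.comp hα).pow _
  let ε : H →ₗ[K] H := (LinearMap.range g).projection (LinearMap.ker g) hc
  have hεm : ∀ h, ε h ∈ LinearMap.range g := fun h => Submodule.projection_apply_mem hc h
  have hεk : ∀ h, h - ε h ∈ LinearMap.ker g := fun h => Submodule.sub_projection_mem hc h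
  have hεl : ∀ h ∈ LinearMap.range g, ε h = h :=
    fun h hh => Submodule.projection_apply_of_mem_left hc hh
  have hinj : ∀ u ∈ LinearMap.range g, ∀ v ∈ LinearMap.range g, g u = g v → u = v := by
    intro u hu v hv e
    have h1 : u - v ∈ LinearMap.range g ⊓ LinearMap.ker g :=
      ⟨sub_mem hu hv, by simp [e]⟩
    rw [hc.inf_eq_bot] at h1
    exact sub_eq_zero.1 h1
  have hgε : ∀ h, g (ε h) = g h := by
    intro h
    have := hεk h
    rw [LinearMap.mem_ker, map_sub, sub_eq_zero] at this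
    exact this.symm
  have hεE : IsE m ε := by
    intro a b
    apply hinj _ (hεm _)
    · obtain ⟨a', ha⟩ := hεm a
      obtain ⟨b', hb⟩ := hεm b
      exact ⟨m a' b', by rw [hgE, ha, hb]⟩
    · rw [hgε, hgE, hgE, hgε, hgε]
  have hεε : ∀ h, ε (ε h) = ε h := fun h => hεl _ (hεm h)
  have hkey : ∀ h, α (ε h) ∈ P m 1 → ε h ∈ P m 1 := by
    intro h hh
    have h1 : g (ε h) ∈ P m 1 := by
      rw [hg, pow_succ]
      exact ((hβ.comp hα).pow N).P1 (hβ.P1 hh)
    let T := P m 1 ⊓ LinearMap.range g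
    have hT : ∀ t ∈ T, g t ∈ T := fun t ht => ⟨hgE.P1 ht.1, ⟨t, rfl⟩⟩
    have h2 : Function.Injective (g.restrict hT) := by
      intro u v e
      exact Subtype.ext (hinj _ u.2.2 _ v.2.2 (congrArg Subtype.val e))
    obtain ⟨t, ht⟩ := LinearMap.injective_iff_surjective.1 h2 ⟨g (ε h), h1, ⟨_, rfl⟩⟩
    rw [hinj _ (hεm h) _ t.2.2 (congrArg Subtype.val ht).symm]
    exact t.2.1
  let eb : (H ⧸ P m 1) →ₗ[K] (H ⧸ P m 1) := (P m 1).mapQ (P m 1) ε hεE.P1
  let ab : (H ⧸ P m 1) →ₗ[K] (H ⧸ P m 1) := (P m 1).mapQ (P m 1) α hα.P1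
  have heb : ∀ h, eb (π h) = π (ε h) := fun h => rfl
  have hab : ∀ h, ab (π h) = π (α h) := fun h => rfl
  have hebs : ∀ v, π (ε (s v)) = eb v := fun v => by rw [← heb, hπs]
  have hebb : ∀ v, eb (eb v) = eb v := by
    intro v
    rw [← hebs v, heb, hεε]
  have hinjb : Function.Injective (ab.domRestrict (LinearMap.range eb)) := by
    rw [injective_iff_map_eq_zero]
    rintro ⟨_, v, rfl⟩ hv
    apply Subtype.ext
    change ab (eb v) = 0 at hv
    change eb v = 0
    rw [← hebs] at hv ⊢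
    rw [hab] at hv
    exact (Submodule.Quotient.mk_eq_zero _).2 (hkey _ ((Submodule.Quotient.mk_eq_zero _).1 hv))
  obtain ⟨τ, hτ⟩ := Submodule.exists_linearEquiv_restrict_eq (LinearEquiv.ofInjective _ hinjb)
  have hτ' : ∀ v, τ (eb v) = ab (eb v) := fun v => (hτ ⟨eb v, v, rfl⟩).symm
  obtain ⟨J, hJ, hJs⟩ := hlift (ε ∘ₗ s ∘ₗ eb + (LinearMap.id - ε) ∘ₗ s ∘ₗ (LinearMap.id - eb))
  obtain ⟨E, hE, hEs⟩ := hlift (s ∘ₗ eb)
  obtain ⟨Q, hQ, hQs⟩ := hlift (α ∘ₗ ε ∘ₗ s ∘ₗ eb + s ∘ₗ τ.toLinearMap ∘ₗ (LinearMap.id - eb))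
  have hJb : Function.Bijective J := hauto J hJ fun v => ⟨s v, by
    simp [hJs, hebs, hebb, hπs]⟩
  have hQb : Function.Bijective Q := hauto Q hQ fun v => ⟨s (τ.symm v), by
    simp only [hQs, LinearMap.add_apply, LinearMap.comp_apply, map_add, hπs, ← hab, hebs, hebb,
      LinearMap.sub_apply, LinearMap.id_apply, LinearEquiv.coe_coe, map_sub, hτ']
    simp⟩
  have h1 : Q ∘ₗ E = α ∘ₗ ε ∘ₗ J := by
    apply huniq _ _ (hQ.comp hE) (hα.comp (hεE.comp hJ))
    intro i
    rw [← hsx i]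
    simp [hEs, hQs, hJs, hebb, hεε]
  have h2 : ε ∘ₗ J = J ∘ₗ E := by
    apply huniq _ _ (hεE.comp hJ) (hJ.comp hE)
    intro i
    rw [← hsx i]
    simp [hEs, hJs, hebb, hεε]
  let J' := LinearEquiv.ofBijective J hJb
  refine ⟨Q ∘ₗ J'.symm.toLinearMap, ?_, hQb.comp J'.symm.bijective, ?_⟩
  · apply hQ.comp
    intro a b
    apply J'.injective
    change _ = J _
    rw [hJ]
    change _ = m (J' _) (J' _)
    simp
  · intro a ha
    have h3 : g a = a := by
      rw [hg]
      generalize N + 1 = n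
      induction n with
      | zero => rfl
      | succ n ih => rw [pow_succ, Module.End.mul_apply, LinearMap.comp_apply, ha, ih]
    have h4 : ε a = a := hεl a ⟨a, h3⟩
    obtain ⟨z, rfl⟩ := hJb.2 a
    have h5 : J (E z) = J z := (DFunLike.congr_fun h2 z).symm.trans h4
    have h6 := DFunLike.congr_fun h1 z
    simp only [LinearMap.comp_apply] at h6
    rw [hJb.1 h5, h4] at h6
    rw [← h6]
    change Q (J'.symm (J' z)) = _
    simp

end core

section logic

open FirstOrder FirstOrder.Language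

variable {K H : Type} [Field K] [AddCommGroup H] [Module K H] {m : H →ₗ[K] H →ₗ[K] H}

lemma exists_endo {ι : Type} [Finite ι] (x : ι → H)
    (hext : ∀ f : ι → H, ∃ φ : H →ₗ[K] H, IsE m φ ∧ ∀ i, φ (x i) = f i)
    (hgen : ∀ T : Submodule K H, (∀ i, x i ∈ T) → (∀ a ∈ T, ∀ b ∈ T, m a b ∈ T) → T = ⊤)
    {k : ℕ} (a b : Fin k → H) (h : SameType K H (fun u v => m u v) a b) :
    ∃ α : H →ₗ[K] H, IsE m α ∧ ∀ i, α (a i) = b i := by
  let S := str K H (fun u v => m u v)
  let T : Submodule K H :=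
    { carrier := {h | ∃ t : (Lang K).Term ι, ∀ φ : H →ₗ[K] H, IsE m φ ∨ φ = LinearMap.id →
        φ h = t.realize (fun i => φ (x i))}
      add_mem' := by
        rintro u v ⟨t, ht⟩ ⟨t', ht'⟩
        refine ⟨Term.func Fn.add ![t, t'], fun φ hφ => ?_⟩
        rw [map_add, ht φ hφ, ht' φ hφ]
        rfl
      zero_mem' := ⟨Term.func Fn.zero ![], fun φ _ => map_zero φ⟩
      smul_mem' := by
        rintro c u ⟨t, ht⟩
        refine ⟨Term.func (Fn.smul c) ![t], fun φ hφ => ?_⟩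
        rw [map_smul, ht φ hφ]
        rfl }
  have hT : T = ⊤ := by
    apply hgen
    · exact fun i => ⟨Term.var i, fun φ _ => rfl⟩
    · rintro u ⟨t, ht⟩ v ⟨t', ht'⟩
      refine ⟨Term.func Fn.mul ![t, t'], fun φ hφ => ?_⟩
      have : φ (m u v) = m (φ u) (φ v) := by
        rcases hφ with hφ | rfl
        · exact hφ u v
        · rfl
      rw [this, ht φ hφ, ht' φ hφ]
      rfl
  choose t ht using fun i => (show a i ∈ T from hT ▸ Submodule.mem_top)
  let ψ : (Lang K).Formula (Fin k) :=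
    Formula.iExs ι (Formula.iInf fun i : Fin k =>
      Term.equal (Term.var (Sum.inl i)) ((t i).relabel Sum.inr))
  have hψ : ∀ c : Fin k → H, ψ.Realize c ↔ ∃ y : ι → H, ∀ i, c i = (t i).realize y := by
    intro c
    simp [ψ]
  obtain ⟨y, hy⟩ := (hψ b).1 ((h ψ).1 ((hψ a).2 ⟨x, fun i => ht i LinearMap.id (Or.inr rfl)⟩))
  obtain ⟨α, h1, h2⟩ := hext y
  refine ⟨α, h1, fun i => ?_⟩
  rw [ht i α (Or.inl h1), hy]
  simp only [h2]

theorem homog {ι : Type} [Finite ι] (x : ι → H)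
    (hext : ∀ f : ι → H, ∃ φ : H →ₗ[K] H, IsE m φ ∧ ∀ i, φ (x i) = f i)
    (hgen : ∀ T : Submodule K H, (∀ i, x i ∈ T) → (∀ a ∈ T, ∀ b ∈ T, m a b ∈ T) → T = ⊤)
    (hP : ∀ k, ∀ a ∈ P m k, ∀ c d, m a (m c d) ∈ P m (k + 2)) (hN : ∃ N, P m N = ⊥)
    {k : ℕ} (a b : Fin k → H) (h : SameType K H (fun u v => m u v) a b) :
    ∃ σ : H →ₗ[K] H, IsE m σ ∧ Function.Bijective σ ∧ ∀ i, σ (a i) = b i := by
  obtain ⟨α, h1, h2⟩ := exists_endo x hext hgen a b h
  obtain ⟨β, h3, h4⟩ := exists_endo x hext hgen b a (fun φ => (h φ).symm)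
  obtain ⟨σ, s1, s2, s3⟩ := core x hext hgen hP hN α β h1 h3
  exact ⟨σ, s1, s2, fun i => by rw [s3 _ (by rw [h2, h4]), h2]⟩

end logic

section assoc

variable (K A : Type) [Field K] [NonUnitalRing A] [Module K A] [IsScalarTower K A A]
  [SMulCommClass K A A]

lemma prodSpan_eq (M N : Submodule K A) :
    prodSpan K A M N = Submodule.map₂ (LinearMap.mul K A) M N := by
  rw [Submodule.map₂_eq_span_image2, prodSpan]
  congr 1
  ext z
  simp [Set.mem_mul, eq_comm]

lemma P_le_power (k : ℕ) : P (LinearMap.mul K A) k ≤ power K A (k + 1) := by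
  induction k with
  | zero => simp [power]
  | succ k ih =>
    rw [power]
    refine le_trans ?_ (le_iSup _ (Fin.last k))
    rw [prodSpan_eq]
    refine Submodule.map₂_le_map₂ (by simpa using ih) ?_
    simp [power]

lemma P_add_le (i j : ℕ) : P (LinearMap.mul K A) (i + j + 1) ≤
    Submodule.map₂ (LinearMap.mul K A) (P (LinearMap.mul K A) i) (P (LinearMap.mul K A) j) := by
  induction j with
  | zero => exact le_rfl
  | succ j ih =>
    refine Submodule.map₂_le.2 fun a ha b _ => ?_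
    have : Submodule.map₂ (LinearMap.mul K A) (P (LinearMap.mul K A) i) (P (LinearMap.mul K A) j) ≤
        (Submodule.map₂ (LinearMap.mul K A) (P (LinearMap.mul K A) i)
          (P (LinearMap.mul K A) (j + 1))).comap ((LinearMap.mul K A).flip b) := by
      refine Submodule.map₂_le.2 fun c hc d hd => ?_
      have h := Submodule.apply_mem_map₂ (LinearMap.mul K A) hc
        (show LinearMap.mul K A d b ∈ P (LinearMap.mul K A) (j + 1) from
          Submodule.apply_mem_map₂ _ hd trivial)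
      simpa [mul_assoc] using h
    exact this (ih ha)

lemma P_le_derived (n : ℕ) : P (LinearMap.mul K A) (2 ^ n - 1) ≤ derived K A n := by
  induction n with
  | zero => simp [derived]
  | succ n ih =>
    have : 2 ^ (n + 1) - 1 = (2 ^ n - 1) + (2 ^ n - 1) + 1 := by
      have : 0 < 2 ^ n := by positivity
      omega
    rw [this, derived, prodSpan_eq]
    exact (P_add_le K A _ _).trans (Submodule.map₂_le_map₂ ih ih)

variable {K A}

lemma map_prodSpan {B : Type} [NonUnitalRing B] [Module K B] (f : B →ₙₐ[K] A)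
    {M N : Submodule K B} {M' N' : Submodule K A} (h1 : ∀ z ∈ M, f z ∈ M')
    (h2 : ∀ z ∈ N, f z ∈ N') : ∀ z ∈ prodSpan K B M N, f z ∈ prodSpan K A M' N' := by
  have : prodSpan K B M N ≤ (prodSpan K A M' N').comap (f : B →ₗ[K] A) := by
    apply Submodule.span_le.2
    rintro _ ⟨a, ha, b, hb, rfl⟩
    exact Submodule.subset_span ⟨f a, h1 a ha, f b, h2 b hb, map_mul f a b⟩
  exact this

lemma map_power {B : Type} [NonUnitalRing B] [Module K B] (f : B →ₙₐ[K] A) (n : ℕ) :
    ∀ z ∈ power K B n, f z ∈ power K A n := by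
  induction n using Nat.strong_induction_on with
  | _ n ih =>
    match n with
    | 0 => simp [power]
    | 1 => simp [power]
    | k + 2 =>
      have : power K B (k + 2) ≤ (power K A (k + 2)).comap (f : B →ₗ[K] A) := by
        rw [power, power]
        refine iSup_le fun i z hz => ?_
        exact Submodule.mem_iSup_of_mem i
          (map_prodSpan f (ih _ (by omega)) (ih _ (by omega)) z hz)
      exact this

lemma map_derived {B : Type} [NonUnitalRing B] [Module K B] (f : B →ₙₐ[K] A) (n : ℕ) :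
    ∀ z ∈ derived K B n, f z ∈ derived K A n := by
  induction n with
  | zero => simp [derived]
  | succ n ih => exact map_prodSpan f ih ih

theorem homog_assoc {r : ℕ} (x : Fin r → A)
    (hext : ∀ f : Fin r → A, ∃! φ : A →ₙₐ[K] A, ∀ i, φ (x i) = f i)
    (hsub : ∀ S : NonUnitalSubalgebra K A, ∀ f : Fin r → S, ∃ φ : A →ₙₐ[K] S, ∀ i, φ (x i) = f i)
    (hN : ∃ N, P (LinearMap.mul K A) N = ⊥) : Homogeneous K A := by
  intro k a b h
  obtain ⟨σ, h1, h2, h3⟩ := homog (m := LinearMap.mul K A) x (by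
    intro f
    obtain ⟨φ, hφ, -⟩ := hext f
    exact ⟨(φ : A →ₗ[K] A), fun u v => map_mul φ u v, hφ⟩) (by
    intro T h1 h2
    let S : NonUnitalSubalgebra K A := T.toNonUnitalSubalgebra (fun u v hu hv => h2 u hu v hv)
    obtain ⟨φ, hφ⟩ := hsub S (fun i => ⟨x i, h1 i⟩)
    have e := (hext x).unique (y₁ := (NonUnitalSubalgebraClass.subtype S).comp φ)
      (y₂ := NonUnitalAlgHom.id K A) (fun i => by simp [hφ]) (fun i => rfl)
    rw [eq_top_iff]
    intro z _
    have : ((φ z : S) : A) = z := DFunLike.congr_fun e z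
    rw [← this]
    exact (φ z).2) (by
    intro k a ha c d
    have : LinearMap.mul K A (LinearMap.mul K A a c) d ∈ P (LinearMap.mul K A) (k + 2) :=
      Submodule.apply_mem_map₂ _ (Submodule.apply_mem_map₂ _ ha trivial) trivial
    simpa [mul_assoc] using this) hN a b h
  exact ⟨{ toFun := σ, map_smul' := σ.map_smul, map_zero' := σ.map_zero, map_add' := σ.map_add,
           map_mul' := h1 }, h2, h3⟩

end assoc

end Pool.Agent.H74.NilHomog
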