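import Mathlib

set_option autoImplicit false
set_option maxRecDepth 20000

namespace Pool.Agent.H74.OddCsorgo

/-- The underlying set of the loop: fifteen coordinates in the field with three elements. -/
@[ext] structure Q where
  v0 : ZMod 3
  v1 : ZMod 3
  v2 : ZMod 3
  v3 : ZMod 3
  p01 : ZMod 3
  p02 : ZMod 3
  p03 : ZMod 3
  p12 : ZMod 3
  p13 : ZMod 3
  p23 : ZMod 3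
  c0 : ZMod 3
  c1 : ZMod 3
  c2 : ZMod 3
  c3 : ZMod 3
  t : ZMod 3

def mul (x y : Q) : Q where
  v0 := x.v0 + y.v0
  v1 := x.v1 + y.v1
  v2 := x.v2 + y.v2
  v3 := x.v3 + y.v3
  p01 := x.p01 + x.v0 * y.v1 + y.p01
  p02 := x.p02 + x.v0 * y.v2 + y.p02
  p03 := x.p03 + x.v0 * y.v3 + y.p03
  p12 := x.p12 + x.v1 * y.v2 + y.p12
  p13 := x.p13 + x.v1 * y.v3 + y.p13
  p23 := x.p23 + x.v2 * y.v3 + y.p23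
  c0 := x.c0 + x.v1 * x.v2 * y.v3 - x.v1 * x.v3 * y.v2 - x.v2 * y.v1 * y.v3 + x.v3 * y.v1 * y.v2 + y.c0
  c1 := x.c1 - x.v0 * x.v2 * y.v3 + x.v0 * x.v3 * y.v2 + x.v2 * y.v0 * y.v3 - x.v3 * y.v0 * y.v2 + y.c1
  c2 := x.c2 + x.v0 * x.v1 * y.v3 - x.v0 * x.v3 * y.v1 - x.v1 * y.v0 * y.v3 + x.v3 * y.v0 * y.v1 + y.c2
  c3 := x.c3 - x.v0 * x.v1 * y.v2 + x.v0 * x.v2 * y.v1 + x.v1 * y.v0 * y.v2 - x.v2 * y.v0 * y.v1 + y.c3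
  t := x.p01 * x.v3 * y.v2 - x.p01 * y.v2 * y.v3 + x.p02 * x.v1 * y.v3 - x.p02 * y.v1 * y.v3 + x.p03 * x.v2 * y.v1 - x.p03 * y.v1 * y.v2 + x.p12 * x.v0 * y.v3 - x.p12 * x.v3 * y.v0 - x.p13 * x.v2 * y.v0 + x.p13 * y.v0 * y.v2 + x.p23 * x.v1 * y.v0 - x.p23 * y.v0 * y.v1 + x.t - x.v0 * x.v1 * y.p23 + x.v0 * x.v2 * y.p13 + x.v0 * y.c0 - x.v0 * y.p12 * y.v3 - x.v0 * y.p13 * y.v2 + x.v0 * y.p23 * y.v1 - x.v1 * x.v2 * y.p03 - x.v1 * x.v3 * y.p02 + x.v1 * y.c1 + x.v1 * y.p03 * y.v2 - x.v2 * x.v3 * y.p01 + x.v2 * y.c2 + x.v2 * y.p01 * y.v3 + x.v3 * y.c3 + x.v3 * y.p02 * y.v1 + x.v3 * y.p12 * y.v0 + y.t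

def ld (x z : Q) : Q where
  v0 := -x.v0 + z.v0
  v1 := -x.v1 + z.v1
  v2 := -x.v2 + z.v2
  v3 := -x.v3 + z.v3
  p01 := -x.p01 + x.v0 * x.v1 - x.v0 * z.v1 + z.p01
  p02 := -x.p02 + x.v0 * x.v2 - x.v0 * z.v2 + z.p02
  p03 := -x.p03 + x.v0 * x.v3 - x.v0 * z.v3 + z.p03
  p12 := -x.p12 + x.v1 * x.v2 - x.v1 * z.v2 + z.p12
  p13 := -x.p13 + x.v1 * x.v3 - x.v1 * z.v3 + z.p13
  p23 := -x.p23 + x.v2 * x.v3 - x.v2 * z.v3 + z.p23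
  c0 := -x.c0 - 2 * x.v1 * x.v2 * z.v3 + 2 * x.v1 * x.v3 * z.v2 + x.v2 * z.v1 * z.v3 - x.v3 * z.v1 * z.v2 + z.c0
  c1 := -x.c1 + 2 * x.v0 * x.v2 * z.v3 - 2 * x.v0 * x.v3 * z.v2 - x.v2 * z.v0 * z.v3 + x.v3 * z.v0 * z.v2 + z.c1
  c2 := -x.c2 - 2 * x.v0 * x.v1 * z.v3 + 2 * x.v0 * x.v3 * z.v1 + x.v1 * z.v0 * z.v3 - x.v3 * z.v0 * z.v1 + z.c2
  c3 := -x.c3 + 2 * x.v0 * x.v1 * z.v2 - 2 * x.v0 * x.v2 * z.v1 - x.v1 * z.v0 * z.v2 + x.v2 * z.v0 * z.v1 + z.c3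
  t := x.c0 * x.v0 + x.c1 * x.v1 + x.c2 * x.v2 + x.c3 * x.v3 - 2 * x.p01 * x.v3 * z.v2 + x.p01 * z.v2 * z.v3 - 2 * x.p02 * x.v1 * z.v3 + x.p02 * z.v1 * z.v3 - 2 * x.p03 * x.v2 * z.v1 + x.p03 * z.v1 * z.v2 - 2 * x.p12 * x.v0 * z.v3 + 2 * x.p12 * x.v3 * z.v0 + 2 * x.p13 * x.v2 * z.v0 - x.p13 * z.v0 * z.v2 - 2 * x.p23 * x.v1 * z.v0 + x.p23 * z.v0 * z.v1 - x.t + 6 * x.v0 * x.v1 * x.v2 * x.v3 - 4 * x.v0 * x.v1 * x.v3 * z.v2 + 2 * x.v0 * x.v1 * z.p23 - x.v0 * x.v1 * z.v2 * z.v3 - 4 * x.v0 * x.v2 * x.v3 * z.v1 - 2 * x.v0 * x.v2 * z.p13 + x.v0 * x.v2 * z.v1 * z.v3 + 2 * x.v0 * x.v3 * z.v1 * z.v2 - x.v0 * z.c0 + x.v0 * z.p12 * z.v3 + x.v0 * z.p13 * z.v2 - x.v0 * z.p23 * z.v1 - x.v1 * x.v2 * x.v3 * z.v0 + 2 * x.v1 * x.v2 * z.p03 + 2 * x.v1 * x.v3 *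 z.p02 + x.v1 * x.v3 * z.v0 * z.v2 - x.v1 * z.c1 - x.v1 * z.p03 * z.v2 + 2 * x.v2 * x.v3 * z.p01 - x.v2 * z.c2 - x.v2 * z.p01 * z.v3 - x.v3 * z.c3 - x.v3 * z.p02 * z.v1 - x.v3 * z.p12 * z.v0 + z.t

def rd (z y : Q) : Q where
  v0 := -y.v0 + z.v0
  v1 := -y.v1 + z.v1
  v2 := -y.v2 + z.v2
  v3 := -y.v3 + z.v3
  p01 := -y.p01 + y.v0 * y.v1 - y.v1 * z.v0 + z.p01
  p02 := -y.p02 + y.v0 * y.v2 - y.v2 * z.v0 + z.p02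
  p03 := -y.p03 + y.v0 * y.v3 - y.v3 * z.v0 + z.p03
  p12 := -y.p12 + y.v1 * y.v2 - y.v2 * z.v1 + z.p12
  p13 := -y.p13 + y.v1 * y.v3 - y.v3 * z.v1 + z.p13
  p23 := -y.p23 + y.v2 * y.v3 - y.v3 * z.v2 + z.p23
  c0 := -y.c0 - 2 * y.v1 * y.v2 * z.v3 + 2 * y.v1 * y.v3 * z.v2 + y.v2 * z.v1 * z.v3 - y.v3 * z.v1 * z.v2 + z.c0
  c1 := -y.c1 + 2 * y.v0 * y.v2 * z.v3 - 2 * y.v0 * y.v3 * z.v2 - y.v2 * z.v0 * z.v3 + y.v3 * z.v0 * z.v2 + z.c1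
  c2 := -y.c2 - 2 * y.v0 * y.v1 * z.v3 + 2 * y.v0 * y.v3 * z.v1 + y.v1 * z.v0 * z.v3 - y.v3 * z.v0 * z.v1 + z.c2
  c3 := -y.c3 + 2 * y.v0 * y.v1 * z.v2 - 2 * y.v0 * y.v2 * z.v1 - y.v1 * z.v0 * z.v2 + y.v2 * z.v0 * z.v1 + z.c3
  t := y.c0 * y.v0 - y.c0 * z.v0 + y.c1 * y.v1 - y.c1 * z.v1 + y.c2 * y.v2 - y.c2 * z.v2 + y.c3 * y.v3 - y.c3 * z.v3 - 2 * y.p01 * y.v3 * z.v2 + y.p01 * z.v2 * z.v3 - 2 * y.p02 * y.v1 * z.v3 + y.p02 * z.v1 * z.v3 - 2 * y.p03 * y.v2 * z.v1 + y.p03 * z.v1 * z.v2 - 2 * y.p12 * y.v0 * z.v3 + 2 * y.p12 * y.v3 * z.v0 + 2 * y.p13 * y.v2 * z.v0 - y.p13 * z.v0 * z.v2 - 2 * y.p23 * y.v1 * z.v0 + y.p23 * z.v0 * z.v1 - y.t + 6 * y.v0 * y.v1 * y.v2 * y.v3 - 2 * y.v0 * y.v1 * y.v3 * z.v2 + 2 * y.v0 * y.v1 * z.p23 - 2 * y.v0 * y.v2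 * z.p13 - y.v0 * y.v2 * z.v1 * z.v3 + y.v0 * z.p12 * z.v3 + y.v0 * z.p13 * z.v2 - y.v0 * z.p23 * z.v1 - 7 * y.v1 * y.v2 * y.v3 * z.v0 + 2 * y.v1 * y.v2 * z.p03 + y.v1 * y.v2 * z.v0 * z.v3 + 2 * y.v1 * y.v3 * z.p02 + y.v1 * y.v3 * z.v0 * z.v2 - y.v1 * z.p03 * z.v2 + 2 * y.v2 * y.v3 * z.p01 + 2 * y.v2 * y.v3 * z.v0 * z.v1 - y.v2 * z.p01 * z.v3 - y.v3 * z.p02 * z.v1 - y.v3 * z.p12 * z.v0 + z.t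

def one : Q := ⟨0, 0, 0, 0, 0, 0, 0, 0, 0, 0, 0, 0, 0, 0, 0⟩

def A (x a z : Q) : Q where
  v0 := z.v0
  v1 := z.v1
  v2 := z.v2
  v3 := z.v3
  p01 := z.p01
  p02 := z.p02
  p03 := z.p03
  p12 := z.p12
  p13 := z.p13
  p23 := z.p23
  c0 := -2 * a.v1 * x.v2 * z.v3 + 2 * a.v1 * x.v3 * z.v2 - a.v2 * x.v1 * z.v3 + a.v2 * x.v3 * z.v1 + a.v3 * x.v1 * z.v2 - a.v3 * x.v2 * z.v1 + z.c0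
  c1 := 2 * a.v0 * x.v2 * z.v3 - 2 * a.v0 * x.v3 * z.v2 + a.v2 * x.v0 * z.v3 - a.v2 * x.v3 * z.v0 - a.v3 * x.v0 * z.v2 + a.v3 * x.v2 * z.v0 + z.c1
  c2 := -2 * a.v0 * x.v1 * z.v3 + 2 * a.v0 * x.v3 * z.v1 - a.v1 * x.v0 * z.v3 + a.v1 * x.v3 * z.v0 + a.v3 * x.v0 * z.v1 - a.v3 * x.v1 * z.v0 + z.c2
  c3 := 2 * a.v0 * x.v1 * z.v2 - 2 * a.v0 * x.v2 * z.v1 + a.v1 * x.v0 * z.v2 - a.v1 * x.v2 * z.v0 - a.v2 * x.v0 * z.v1 + a.v2 * x.v1 * z.v0 + z.c3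
  t := a.p01 * x.v2 * z.v3 - a.p01 * x.v3 * z.v2 - a.p02 * x.v1 * z.v3 + a.p02 * x.v3 * z.v1 + a.p03 * x.v1 * z.v2 - a.p03 * x.v2 * z.v1 - 2 * a.p12 * x.v0 * z.v3 + 2 * a.p12 * x.v3 * z.v0 - a.p13 * x.v0 * z.v2 + a.p13 * x.v2 * z.v0 + a.p23 * x.v0 * z.v1 - a.p23 * x.v1 * z.v0 + a.v0 * a.v1 * x.v2 * z.v3 + a.v0 * a.v1 * x.v3 * z.v2 + 2 * a.v0 * a.v2 * x.v1 * z.v3 - 2 * a.v0 * a.v2 * x.v3 * z.v1 - 2 * a.v0 * a.v3 * x.v1 * z.v2 + 3 * a.v0 * a.v3 * x.v2 * z.v1 - a.v0 * x.p12 * z.v3 + a.v0 * x.p13 * z.v2 - a.v0 * x.p23 * z.v1 - a.v0 * x.v1 * x.v2 * z.v3 - a.v0 * x.v1 * x.v3 * z.v2 + a.v0 * x.v1 * z.p23 + a.v0 * x.v1 * z.v2 * z.v3 - a.v0 * x.v2 * x.v3 * z.v1 - a.v0 * x.v2 * z.p13 + a.v0 * x.v2 * z.v1 * z.v3 + a.v0 * x.v3 * z.p12 + a.v0 * x.v3 *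 z.v1 * z.v2 - 3 * a.v1 * a.v3 * x.v0 * z.v2 - a.v1 * a.v3 * x.v2 * z.v0 - 2 * a.v1 * x.p02 * z.v3 - a.v1 * x.p03 * z.v2 - 2 * a.v1 * x.p23 * z.v0 + 4 * a.v1 * x.v0 * x.v2 * z.v3 - 4 * a.v1 * x.v0 * x.v3 * z.v2 + 2 * a.v1 * x.v0 * z.p23 - a.v1 * x.v0 * z.v2 * z.v3 + a.v1 * x.v2 * z.p03 - a.v1 * x.v2 * z.v0 * z.v3 + 2 * a.v1 * x.v3 * z.p02 + 2 * a.v1 * x.v3 * z.v0 * z.v2 - a.v2 * a.v3 * x.v0 * z.v1 + 2 * a.v2 * a.v3 * x.v1 * z.v0 - a.v2 * x.p01 * z.v3 - 2 * a.v2 * x.p03 * z.v1 + 2 * a.v2 * x.p13 * z.v0 - 3 * a.v2 * x.v0 * x.v1 * z.v3 - 2 * a.v2 * x.v0 * z.p13 + a.v2 * x.v0 * z.v1 * z.v3 + a.v2 * x.v1 * x.v3 * z.v0 + 2 * a.v2 * x.v1 * z.p03 + a.v2 * x.v1 * z.v0 * z.v3 + a.v2 * x.v3 * z.p01 - a.v2 * x.v3 * z.v0 * z.v1 - 2 * a.v3 * x.p01 * z.v2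 - a.v3 * x.p02 * z.v1 + a.v3 * x.p12 * z.v0 - a.v3 * x.v0 * x.v2 * z.v1 - a.v3 * x.v0 * z.p12 + 2 * a.v3 * x.v0 * z.v1 * z.v2 + a.v3 * x.v1 * z.p02 - 2 * a.v3 * x.v1 * z.v0 * z.v2 + 2 * a.v3 * x.v2 * z.p01 + 2 * a.v3 * x.v2 * z.v0 * z.v1 + z.t

def B (x a z : Q) : Q where
  v0 := z.v0
  v1 := z.v1
  v2 := z.v2
  v3 := z.v3
  p01 := -x.v0 * z.v1 + x.v1 * z.v0 + z.p01
  p02 := -x.v0 * z.v2 + x.v2 * z.v0 + z.p02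
  p03 := -x.v0 * z.v3 + x.v3 * z.v0 + z.p03
  p12 := -x.v1 * z.v2 + x.v2 * z.v1 + z.p12
  p13 := -x.v1 * z.v3 + x.v3 * z.v1 + z.p13
  p23 := -x.v2 * z.v3 + x.v3 * z.v2 + z.p23
  c0 := -2 * a.v1 * x.v2 * z.v3 + 2 * a.v1 * x.v3 * z.v2 - a.v2 * x.v1 * z.v3 + a.v2 * x.v3 * z.v1 + a.v3 * x.v1 * z.v2 - a.v3 * x.v2 * z.v1 + z.c0
  c1 := 2 * a.v0 * x.v2 * z.v3 - 2 * a.v0 * x.v3 * z.v2 + a.v2 * x.v0 * z.v3 - a.v2 * x.v3 * z.v0 - a.v3 * x.v0 * z.v2 + a.v3 * x.v2 * z.v0 + z.c1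
  c2 := -2 * a.v0 * x.v1 * z.v3 + 2 * a.v0 * x.v3 * z.v1 - a.v1 * x.v0 * z.v3 + a.v1 * x.v3 * z.v0 + a.v3 * x.v0 * z.v1 - a.v3 * x.v1 * z.v0 + z.c2
  c3 := 2 * a.v0 * x.v1 * z.v2 - 2 * a.v0 * x.v2 * z.v1 + a.v1 * x.v0 * z.v2 - a.v1 * x.v2 * z.v0 - a.v2 * x.v0 * z.v1 + a.v2 * x.v1 * z.v0 + z.c3
  t := a.p01 * x.v2 * z.v3 - a.p01 * x.v3 * z.v2 - a.p02 * x.v1 * z.v3 + a.p02 * x.v3 * z.v1 + a.p03 * x.v1 * z.v2 - a.p03 * x.v2 * z.v1 - 2 * a.p12 * x.v0 * z.v3 + 2 * a.p12 * x.v3 * z.v0 - a.p13 * x.v0 * z.v2 + a.p13 * x.v2 * z.v0 + a.p23 * x.v0 * z.v1 - a.p23 * x.v1 * z.v0 - 3 * a.v0 * a.v1 * x.v2 * z.v3 + 3 * a.v0 * a.v1 * x.v3 * z.v2 + 5 * a.v0 * a.v2 * x.v1 * z.v3 - 5 * a.v0 * a.v2 * x.v3 * z.v1 - 4 * a.v0 * a.v3 * x.v1 * z.v2 + 4 * a.v0 * a.v3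 * x.v2 * z.v1 - a.v0 * x.p12 * z.v3 + a.v0 * x.p13 * z.v2 - a.v0 * x.p23 * z.v1 - 2 * a.v0 * x.v1 * x.v2 * z.v3 - a.v0 * x.v1 * x.v3 * z.v2 + a.v0 * x.v1 * z.p23 - 3 * a.v0 * x.v2 * x.v3 * z.v1 - a.v0 * x.v2 * z.p13 + 4 * a.v0 * x.v2 * z.v1 * z.v3 + a.v0 * x.v3 * z.p12 + 2 * a.v0 * x.v3 * z.v1 * z.v2 - a.v1 * a.v2 * x.v0 * z.v3 + a.v1 * a.v2 * x.v3 * z.v0 - 2 * a.v1 * a.v3 * x.v0 * z.v2 + 2 * a.v1 * a.v3 * x.v2 * z.v0 - 2 * a.v1 * x.p02 * z.v3 - a.v1 * x.p03 * z.v2 - 2 * a.v1 * x.p23 * z.v0 + a.v1 * x.v0 * x.v2 * z.v3 - 3 * a.v1 * x.v0 * x.v3 * z.v2 + 2 * a.v1 * x.v0 * z.p23 - a.v1 * x.v0 * z.v2 * z.v3 + 4 * a.v1 * x.v2 * x.v3 * z.v0 + a.v1 * x.v2 * z.p03 + 2 * a.v1 * x.v3 * z.p02 - a.v1 * x.v3 * z.v0 * z.v2 - a.v2 * a.v3 * x.v0 * z.v1 +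 a.v2 * a.v3 * x.v1 * z.v0 - a.v2 * x.p01 * z.v3 - 2 * a.v2 * x.p03 * z.v1 + 2 * a.v2 * x.p13 * z.v0 - a.v2 * x.v0 * x.v1 * z.v3 - 2 * a.v2 * x.v0 * x.v3 * z.v1 - 2 * a.v2 * x.v0 * z.p13 + 2 * a.v2 * x.v0 * z.v1 * z.v3 + a.v2 * x.v1 * x.v3 * z.v0 + 2 * a.v2 * x.v1 * z.p03 - a.v2 * x.v1 * z.v0 * z.v3 + a.v2 * x.v3 * z.p01 + a.v2 * x.v3 * z.v0 * z.v1 - 2 * a.v3 * x.p01 * z.v2 - a.v3 * x.p02 * z.v1 + a.v3 * x.p12 * z.v0 - a.v3 * x.v0 * x.v1 * z.v2 - a.v3 * x.v0 * x.v2 * z.v1 - a.v3 * x.v0 * z.p12 + a.v3 * x.v0 * z.v1 * z.v2 + 2 * a.v3 * x.v1 * x.v2 * z.v0 + a.v3 * x.v1 * z.p02 + a.v3 * x.v1 * z.v0 * z.v2 + 2 * a.v3 * x.v2 * z.p01 - 2 * a.v3 * x.v2 * z.v0 * z.v1 + x.c0 * z.v0 + x.c1 * z.v1 + x.c2 * z.v2 + x.c3 * z.v3 - x.v0 * x.v1 * x.v2 * z.v3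 - x.v0 * x.v1 * z.v2 * z.v3 - 2 * x.v0 * x.v2 * x.v3 * z.v1 + 3 * x.v0 * x.v2 * z.v1 * z.v3 + x.v0 * x.v3 * z.v1 * z.v2 - x.v0 * z.c0 + 3 * x.v1 * x.v2 * x.v3 * z.v0 - x.v1 * x.v2 * z.v0 * z.v3 - x.v1 * z.c1 - 2 * x.v2 * x.v3 * z.v0 * z.v1 - x.v2 * z.c2 - x.v3 * z.c3 + z.t

lemma one_mul' (x : Q) : mul one x = x := by ext <;> simp [mul, one]
lemma mul_one' (x : Q) : mul x one = x := by ext <;> simp [mul, one]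
lemma mul_ld (x z : Q) : mul x (ld x z) = z := by ext <;> simp only [mul, ld] <;> ring
lemma ld_mul (x z : Q) : ld x (mul x z) = z := by ext <;> simp only [mul, ld] <;> ring
lemma rd_mul (x z : Q) : mul (rd z x) x = z := by ext <;> simp only [mul, rd] <;> ring
lemma mul_rd (x z : Q) : rd (mul z x) x = z := by ext <;> simp only [mul, rd] <;> ring

lemma A_spec (x a z : Q) : mul (mul x a) (A x a z) = mul x (mul a z) := by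
  ext <;> simp only [mul, A] <;> ring

lemma B_spec (x a z : Q) : mul (mul a x) (B x a z) = mul (mul a z) x := by
  ext <;> simp only [mul, B] <;> ring

lemma h3 : (3 : ZMod 3) = 0 := rfl

lemma AA (x a u b z : Q) : A x a (A u b z) = A u b (A x a z) := by
  ext <;> simp only [A] <;> ring

lemma AB (x a u b z : Q) : A x a (B u b z) = B u b (A x a z) := by
  ext <;> simp only [A, B]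
  any_goals ring1
  linear_combination (a.v0 * u.v1 * x.v2 * z.v3 - a.v0 * u.v1 * x.v3 * z.v2 - a.v0 * u.v2 * x.v1 * z.v3 + a.v0 * u.v2 * x.v3 * z.v1 + a.v0 * u.v3 * x.v1 * z.v2 - a.v0 * u.v3 * x.v2 * z.v1 - a.v1 * u.v0 * x.v2 * z.v3 - a.v1 * u.v2 * x.v0 * z.v3 + a.v1 * u.v2 * x.v3 * z.v0 + a.v1 * u.v3 * x.v0 * z.v2 - a.v2 * u.v0 * x.v1 * z.v3 + a.v2 * u.v1 * x.v0 * z.v3 - a.v2 * u.v3 * x.v0 * z.v1 + a.v2 * u.v3 * x.v1 * z.v0 - a.v3 * u.v0 * x.v2 * z.v1 + a.v3 * u.v1 * x.v2 * z.v0) * h3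

lemma BB (x a u b z : Q) : B x a (B u b z) = B u b (B x a z) := by
  ext <;> simp only [A, B]
  any_goals ring1
  linear_combination (a.v0 * u.v1 * x.v2 * z.v3 - a.v0 * u.v1 * x.v3 * z.v2 - a.v0 * u.v2 * x.v1 * z.v3 + a.v0 * u.v2 * x.v3 * z.v1 + a.v0 * u.v3 * x.v1 * z.v2 - a.v0 * u.v3 * x.v2 * z.v1 - a.v1 * u.v0 * x.v2 * z.v3 - a.v1 * u.v2 * x.v0 * z.v3 + a.v1 * u.v2 * x.v3 * z.v0 + a.v1 * u.v3 * x.v0 * z.v2 - a.v2 * u.v0 * x.v1 * z.v3 + a.v2 * u.v1 * x.v0 * z.v3 - a.v2 * u.v3 * x.v0 * z.v1 + a.v2 * u.v3 * x.v1 * z.v0 - a.v3 * u.v0 * x.v2 * z.v1 + a.v3 * u.v1 * x.v2 * z.v0 + b.v0 * u.v1 * x.v2 * z.v3 - b.v0 * u.v1 * x.v3 * z.v2 - b.v0 * u.v2 * x.v1 * z.v3 + b.v0 * u.v2 * x.v3 * z.v1 + b.v0 * u.v3 * x.v1 * z.v2 - b.v0 * u.v3 * x.v2 * z.v1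 + b.v1 * u.v0 * x.v2 * z.v3 - b.v1 * u.v0 * x.v3 * z.v2 + b.v1 * u.v2 * x.v0 * z.v3 - b.v1 * u.v3 * x.v2 * z.v0 - b.v2 * u.v0 * x.v1 * z.v3 + b.v2 * u.v0 * x.v3 * z.v1 + b.v2 * u.v1 * x.v0 * z.v3 - b.v2 * u.v1 * x.v3 * z.v0 + b.v3 * u.v2 * x.v0 * z.v1 - b.v3 * u.v2 * x.v1 * z.v0) * h3

def eqv : Q ≃ (Fin 15 → ZMod 3) where
  toFun q := ![q.v0, q.v1, q.v2, q.v3, q.p01, q.p02, q.p03, q.p12, q.p13, q.p23, q.c0, q.c1, q.c2, q.c3, q.t]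
  invFun f := ⟨f 0, f 1, f 2, f 3, f 4, f 5, f 6, f 7, f 8, f 9, f 10, f 11, f 12, f 13, f 14⟩
  left_inv _ := rfl
  right_inv f := by funext i; fin_cases i <;> rfl

end Pool.Agent.H74.OddCsorgo
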