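import Mathlib

set_option autoImplicit false

namespace Pool.Agent.H74.PD

/-- K splits over its subgroup H: K is a proper amalgam A *_H B, or an HNN extension with H as
associated subgroup. -/
def SplitsOver {K : Type} [Group K] (H : Subgroup K) : Prop :=
  (∃ (A : Bool → Type) (_ : ∀ i, Group (A i)) (φ : ∀ i, H →* A i),
    (∀ i, Function.Injective (φ i)) ∧ (∀ i, ¬ Function.Surjective (φ i)) ∧
    ∃ e : Monoid.PushoutI φ ≃* K, ∀ h : H, e (Monoid.PushoutI.base φ h) = h) ∨
  (∃ (A : Type) (_ : Group A) (B C : Subgroup A) (ψ : B ≃* C) (e : HNNExtension A B C ψ ≃* K),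
    B.map (e.toMonoidHom.comp HNNExtension.of) = H ∨ C.map (e.toMonoidHom.comp HNNExtension.of) = H)

theorem not_splits {G : Type} [Group G] (H : Subgroup G) (y t : G) (σ : G →* G)
    (h1 : ∀ g : G, ∃ m : ℤ, (y ^ m)⁻¹ * g ∈ H) (h2 : ∀ h ∈ H, σ h = h)
    (h3 : ∀ m : ℤ, σ (y ^ m) = y ^ m → m = 0) (ht : t ∈ H)
    (h4 : ∀ m : ℤ, t * y ^ m * t⁻¹ * y ^ m ∈ H) (K : Subgroup G) (hK : H ≤ K) :
    ¬ SplitsOver (H.subgroupOf K) := by
  rintro (⟨A, _, φ, hi, hs, e, he⟩ | ⟨A, _, B, C, ψ, e, he⟩)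
  · let f : ∀ i, A i →* G := fun i =>
      K.subtype.comp (e.toMonoidHom.comp (Monoid.PushoutI.of (φ := φ) i))
    have hf : ∀ i (h : H.subgroupOf K), f i (φ i h) = (h : K) := fun i h => by
      change ((e (Monoid.PushoutI.of (φ := φ) i (φ i h)) : K) : G) = _
      rw [Monoid.PushoutI.of_apply_eq_base, he]
    have key : ∀ i, ∃ (a : A i) (m : ℤ), m ≠ 0 ∧ f i a = y ^ m := fun i => by
      obtain ⟨a, ha⟩ : ∃ a, a ∉ Set.range (φ i) := not_forall.1 (hs i)
      obtain ⟨m, hm⟩ := h1 (f i a)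
      let h : H.subgroupOf K := ⟨⟨_, hK hm⟩, hm⟩
      refine ⟨a * (φ i h)⁻¹, m, ?_, ?_⟩
      · rintro rfl
        refine ha ⟨h, Monoid.PushoutI.of_injective hi i (e.injective (Subtype.ext ?_))⟩
        change f i (φ i h) = f i a
        rw [hf]; simp [h]
      · rw [map_mul, map_inv, hf]; simp [h]
    obtain ⟨a, m, hm, ha⟩ := key false
    obtain ⟨b, n, hn, hb⟩ := key true
    let s : Bool → (G →* G) := fun i => cond i σ (MonoidHom.id G)
    let Φ : Monoid.PushoutI φ →* G := Monoid.PushoutI.lift (fun i => (s i).comp (f i))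
      (K.subtype.comp (H.subgroupOf K).subtype) fun i => by
        ext h
        change s i (f i (φ i h)) = (h : K)
        rw [hf]
        cases i
        · rfl
        · exact h2 _ h.2
    have e1 : f false (a ^ n) = y ^ (m * n) := by rw [map_zpow, ha, zpow_mul]
    have e2 : f true (b ^ m) = y ^ (m * n) := by rw [map_zpow, hb, mul_comm, zpow_mul]
    have e3 : Monoid.PushoutI.of (φ := φ) false (a ^ n) = Monoid.PushoutI.of true (b ^ m) :=
      e.injective (Subtype.ext (e1.trans e2.symm))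
    have e4 := congrArg Φ e3
    rw [Monoid.PushoutI.lift_of, Monoid.PushoutI.lift_of] at e4
    change f false (a ^ n) = σ (f true (b ^ m)) at e4
    rw [e1, e2] at e4
    exact mul_ne_zero hm hn (h3 _ e4.symm)
  · let lam : HNNExtension A B C ψ →* Multiplicative ℤ :=
      HNNExtension.lift 1 (Multiplicative.ofAdd 1) (by simp)
    let μ : K →* Multiplicative ℤ := lam.comp e.symm.toMonoidHom
    have hμ : ∀ k : K, (k : G) ∈ H → μ k = 1 := fun k hk => by
      have : ∃ a, e (HNNExtension.of a) = k := by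
        have hk' : k ∈ H.subgroupOf K := hk
        rcases he with he | he <;>
        · rw [← he] at hk'
          obtain ⟨a, -, ha⟩ := hk'
          exact ⟨a, ha⟩
      obtain ⟨a, rfl⟩ := this
      change lam (e.symm (e _)) = 1
      rw [e.symm_apply_apply, HNNExtension.lift_of]; rfl
    have hall : ∀ k : K, μ k = 1 := fun k => by
      obtain ⟨m, hm⟩ := h1 k
      have hy : y ^ m ∈ K := by
        have := mul_mem k.2 (inv_mem (hK hm))
        simpa using this
      have p1 := hμ ((⟨_, hy⟩ : K)⁻¹ * k) hm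
      have p2 := hμ (⟨t, hK ht⟩ * ⟨_, hy⟩ * (⟨t, hK ht⟩ : K)⁻¹ * ⟨_, hy⟩) (h4 m)
      simp only [map_mul, map_inv, hμ ⟨t, hK ht⟩ ht, one_mul, inv_one, mul_one] at p1 p2
      have p3 : μ ⟨_, hy⟩ = 1 := by
        have := congrArg Multiplicative.toAdd p2
        simp only [toAdd_mul, toAdd_one] at this
        exact Multiplicative.toAdd.injective (by simp only [toAdd_one]; omega)
      simpa [p3] using p1
    have := hall (e HNNExtension.t)
    change lam (e.symm (e _)) = 1 at this
    rw [e.symm_apply_apply, HNNExtension.lift_t] at this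
    simpa using this

end Pool.Agent.H74.PD
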