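import Mathlib

set_option autoImplicit false

namespace Pool.Agent.H74.PZ

open Finset Polynomial

noncomputable def g (a b : ℕ) : ℕ → ℕ → ℂ[X]
  | 0, _ => 1
  | c + 1, u => X ^ (u + b) * g a b c u + (X ^ a - X ^ u) * g a b c (u + 1)

theorem g_mod (a b c u : ℕ) : ∃ h : ℂ[X],
    g a b c u = ∏ i ∈ range c, (X ^ a - X ^ (u + i)) + X ^ b * h := by
  induction c generalizing u with
  | zero => exact ⟨0, by simp [g]⟩
  | succ c ih =>
    obtain ⟨h, e⟩ := ih (u + 1)
    refine ⟨X ^ u * g a b c u + (X ^ a - X ^ u) * h, ?_⟩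
    rw [g, e, prod_range_succ']
    have : ∀ i, u + 1 + i = u + (i + 1) := fun i => by ring
    simp only [this, add_zero]
    ring

section cnt
open Classical
variable {F V : Type} [Field F] [Fintype F] [AddCommGroup V] [Module F V] [Fintype V]

noncomputable def ka {c : ℕ} (Y : Fin c → V) (U : Submodule F V) : ℕ :=
  (univ.filter (fun x : Fin c → F => ∑ i, x i • Y i ∈ U)).card

theorem ka_cons {c : ℕ} (y : V) (Y : Fin c → V) (U : Submodule F V) :
    ka (Fin.cons y Y : Fin (c + 1) → V) U =
      if y ∈ U then Fintype.card F * ka Y U else ka Y (U ⊔ F ∙ y) := by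
  have e : ka (Fin.cons y Y : Fin (c + 1) → V) U
      = ∑ x : Fin c → F, ∑ t : F, if t • y + ∑ i, x i • Y i ∈ U then 1 else 0 := by
    rw [ka, card_filter, sum_comm, ← Fintype.sum_prod_type']
    symm
    apply Fintype.sum_equiv (Fin.consEquiv (fun _ : Fin (c + 1) => F))
    rintro ⟨t, x⟩
    simp [Fin.consEquiv, Fin.sum_univ_succ]
  rw [e]
  split_ifs with h
  · rw [ka, card_filter, mul_sum]
    apply sum_congr rfl
    intro x _
    have : ∀ t : F, (t • y + ∑ i, x i • Y i ∈ U) ↔ ∑ i, x i • Y i ∈ U := fun t =>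
      U.add_mem_iff_right (U.smul_mem t h)
    simp only [this]
    split_ifs <;> simp
  · rw [ka, card_filter]
    apply sum_congr rfl
    intro x _
    generalize ∑ i, x i • Y i = v
    split_ifs with h1
    · obtain ⟨w, hw, z, hz, rfl⟩ := Submodule.mem_sup.1 h1
      obtain ⟨s, rfl⟩ := Submodule.mem_span_singleton.1 hz
      have : ∀ t : F, (t • y + (w + s • y) ∈ U) ↔ t = -s := by
        intro t
        constructor
        · intro h2
          by_contra h3
          have h4 : t + s ≠ 0 := fun h5 => h3 (eq_neg_of_add_eq_zero_left h5)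
          apply h
          have h6 : (t + s) • y ∈ U := by
            have := U.sub_mem h2 hw
            rwa [show t • y + (w + s • y) - w = (t + s) • y by module] at this
          exact (U.smul_mem_iff h4).1 h6
        · rintro rfl
          rwa [show (-s) • y + (w + s • y) = w by module]
      simp only [this]
      simp
    · apply sum_eq_zero
      intro t _
      rw [if_neg]
      intro h2
      apply h1
      have h3 : v = (t • y + v) + (-t) • y := by module
      rw [h3]
      exact Submodule.add_mem_sup h2 (Submodule.mem_span_singleton.2 ⟨-t, rfl⟩)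

theorem sum_ka (a b : ℕ) (hV : Fintype.card V = Fintype.card F ^ a) (c : ℕ) (U : Submodule F V) :
    ((∑ Y : Fin c → V, ka Y U ^ b : ℕ) : ℂ)
      = (g a b c (Module.finrank F U)).eval (Fintype.card F : ℂ) := by
  induction c generalizing U with
  | zero =>
    have : ∀ Y : Fin 0 → V, ka Y U = 1 := fun Y => by simp [ka]
    simp [this, g]
  | succ c ih =>
    have e : ∑ Y : Fin (c + 1) → V, ka Y U ^ b
        = ∑ y : V, ∑ Y : Fin c → V, ka (Fin.cons y Y : Fin (c + 1) → V) U ^ b := by
      rw [← Fintype.sum_prod_type']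
      symm
      apply Fintype.sum_equiv (Fin.consEquiv (fun _ : Fin (c + 1) => V))
      rintro ⟨t, x⟩
      simp [Fin.consEquiv]
    have hU : (univ.filter (fun y : V => y ∈ U)).card = Fintype.card F ^ Module.finrank F U := by
      rw [← Module.card_eq_pow_finrank (K := F) (V := U), Fintype.card_subtype]
    have hU' : (univ.filter (fun y : V => y ∈ U)).card + (univ.filter (fun y : V => ¬ y ∈ U)).card
        = Fintype.card F ^ a := by
      rw [card_filter_add_card_filter_not, card_univ, hV]
    have e2 : ∀ y : V, ((∑ Y : Fin c → V, ka (Fin.cons y Y : Fin (c + 1) → V) U ^ b : ℕ) : ℂ)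
        = if y ∈ U then (Fintype.card F : ℂ) ^ b * (g a b c (Module.finrank F U)).eval
          (Fintype.card F : ℂ) else (g a b c (Module.finrank F U + 1)).eval (Fintype.card F : ℂ) := by
      intro y
      simp only [ka_cons]
      split_ifs with h
      · rw [← ih U]
        simp only [mul_pow]
        rw [← mul_sum]
        push_cast
        rfl
      · rw [ih, Submodule.finrank_sup_span_singleton h]
    rw [e, Nat.cast_sum]
    simp only [e2]
    rw [sum_ite, sum_const, sum_const, nsmul_eq_mul, nsmul_eq_mul, g]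
    have h1 : ((univ.filter (fun y : V => ¬ y ∈ U)).card : ℂ)
        = (Fintype.card F : ℂ) ^ a - (Fintype.card F : ℂ) ^ Module.finrank F U := by
      rw [hU] at hU'
      have := congrArg (Nat.cast : ℕ → ℂ) hU'
      push_cast at this
      linear_combination this
    rw [h1, hU]
    simp only [eval_add, eval_mul, eval_pow, eval_X, eval_sub]
    push_cast
    ring

end cnt

theorem key (A B : Multiset ℂ) (P : ℂ[X])
    (h : ∀ k : ℕ, 0 < k → P.eval (2 ^ k) = (B.map (fun b => b ^ k)).sum - (A.map (fun a => a ^ k)).sum)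
    (l : ℂ → ℂ) (l0 : l 0 = 0) (n : ℕ) (hn : P.natDegree < n) :
    ∑ j ∈ range n, P.coeff j * l (2 ^ j) = (B.map l).sum - (A.map l).sum := by
  classical
  set Z : Finset ℂ := insert 0 (A.toFinset ∪ B.toFinset ∪ (range n).image (fun j => 2 ^ j)) with hZ
  set R := Lagrange.interpolate Z id l with hR
  have hRz : ∀ z ∈ Z, R.eval z = l z := fun z hz =>
    Lagrange.eval_interpolate_at_node l (Set.injOn_id _) hz
  have h0 : R.coeff 0 = 0 := by
    rw [coeff_zero_eq_eval_zero, hRz 0 (mem_insert_self _ _), l0]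
  have hM : ∀ M : Multiset ℂ, (∀ z ∈ M, z ∈ Z) → (M.map l).sum
      = ∑ k ∈ range (R.natDegree + 1), R.coeff k * (M.map (fun b => b ^ k)).sum := by
    intro M hM
    rw [Multiset.map_congr rfl (fun z hz => (hRz z (hM z hz)).symm)]
    simp only [eval_eq_sum_range, ← Multiset.sum_map_mul_left]
    exact Multiset.sum_map_sum
  rw [hM A (fun z hz => by simp [hZ, hz]), hM B (fun z hz => by simp [hZ, hz]), ← sum_sub_distrib]
  have e1 : ∀ j ∈ range n, P.coeff j * l (2 ^ j)
      = ∑ k ∈ range (R.natDegree + 1), R.coeff k * (P.coeff j * (2 ^ k) ^ j) := by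
    intro j hj
    rw [← hRz (2 ^ j) (by
      simp only [hZ, mem_insert, mem_union, mem_image]
      exact Or.inr (Or.inr ⟨j, hj, rfl⟩)), eval_eq_sum_range, mul_sum]
    apply sum_congr rfl
    intro k _
    rw [← pow_mul, ← pow_mul, mul_comm j k]
    ring
  rw [sum_congr rfl e1, sum_comm]
  apply sum_congr rfl
  intro k _
  rw [← mul_sum, ← mul_sub, ← eval_eq_sum_range' hn]
  rcases Nat.eq_zero_or_pos k with rfl | hk
  · rw [h0, zero_mul, zero_mul]
  · rw [h k hk]

theorem lower (A B : Multiset ℂ) (s b : ℕ) (p q : ℂ[X]) (hp : p.natDegree < b)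
    (h : ∀ k : ℕ, 0 < k → (X ^ s * (p + X ^ b * q)).eval (2 ^ k)
      = (B.map (fun b => b ^ k)).sum - (A.map (fun a => a ^ k)).sum)
    (z : ℂ) (hz : ‖z‖ = 1) : ‖p.eval z‖ ≤ (A.card + B.card : ℕ) := by
  classical
  set l : ℂ → ℂ := fun w => if ∃ j, s ≤ j ∧ j < s + b ∧ w = 2 ^ j then
    z ^ (Nat.log 2 ⌊‖w‖⌋₊ - s) else 0 with hl
  have l0 : l 0 = 0 := by
    simp only [hl]
    rw [if_neg]
    rintro ⟨j, -, -, hj⟩
    exact pow_ne_zero j two_ne_zero hj.symm
  have l1 : ∀ w, ‖l w‖ ≤ 1 := by
    intro w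
    simp only [hl]
    split_ifs
    · rw [norm_pow, hz, one_pow]
    · simp
  have lg : ∀ j : ℕ, Nat.log 2 ⌊‖(2 : ℂ) ^ j‖⌋₊ = j := by
    intro j
    have : ‖(2 : ℂ) ^ j‖ = ((2 ^ j : ℕ) : ℝ) := by simp
    rw [this, Nat.floor_natCast, Nat.log_pow (by norm_num)]
  have l2 : ∀ j : ℕ, l (2 ^ j) = if s ≤ j ∧ j < s + b then z ^ (j - s) else 0 := by
    intro j
    simp only [hl]
    rw [lg]
    congr 1
    apply propext
    constructor
    · rintro ⟨i, h1, h2, h3⟩
      have : j = i := by rw [← lg j, h3, lg]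
      exact this ▸ ⟨h1, h2⟩
    · rintro ⟨h1, h2⟩
      exact ⟨j, h1, h2, rfl⟩
  set P := X ^ s * (p + X ^ b * q) with hP
  have k1 := key A B P h l l0 (s + b + (P.natDegree + 1)) (by omega)
  have k2 : ∑ j ∈ range (s + b + (P.natDegree + 1)), P.coeff j * l (2 ^ j) = p.eval z := by
    rw [sum_range_add, sum_range_add, eval_eq_sum_range' hp]
    rw [sum_eq_zero (s := range s), sum_eq_zero (s := range (P.natDegree + 1)), zero_add, add_zero]
    · apply sum_congr rfl
      intro j hj
      have hj' := mem_range.1 hj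
      rw [l2, if_pos (by omega), Nat.add_sub_cancel_left, hP, add_comm s j, coeff_X_pow_mul,
        coeff_add, coeff_X_pow_mul', if_neg (by omega), add_zero]
    · intro j _
      rw [l2, if_neg (by omega), mul_zero]
    · intro j hj
      have hj' := mem_range.1 hj
      rw [l2, if_neg (by omega), mul_zero]
  have k3 : ∀ M : Multiset ℂ, ‖(M.map l).sum‖ ≤ M.card := by
    intro M
    induction M using Multiset.induction_on with
    | empty => simp
    | cons w M ih =>
      rw [Multiset.map_cons, Multiset.sum_cons, Multiset.card_cons]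
      push_cast
      linarith [norm_add_le (l w) (M.map l).sum, l1 w]
  rw [← k2, k1]
  push_cast
  linarith [norm_sub_le (B.map l).sum (A.map l).sum, k3 A, k3 B]

theorem big (a c : ℕ) (ha : 2 * c < a) : ∃ z : ℂ, ‖z‖ = 1 ∧
    (2 : ℝ) ^ c ≤ ‖(∏ i ∈ range c, (X ^ a - X ^ (0 + i)) : ℂ[X]).eval z‖ ^ 2 := by
  have ha0 : (0 : ℝ) < a := by exact_mod_cast (by omega : 0 < a)
  set z : ℂ := Complex.exp ((Real.pi / a : ℝ) * Complex.I) with hz
  have hp : ∀ i : ℕ, z ^ i = Complex.exp ((i * (Real.pi / a) : ℝ) * Complex.I) := by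
    intro i
    rw [hz, ← Complex.exp_nat_mul]
    push_cast
    ring_nf
  refine ⟨z, Complex.norm_exp_ofReal_mul_I _, ?_⟩
  rw [eval_prod, norm_prod, ← prod_pow, ← card_range c, ← prod_const, card_range]
  apply prod_le_prod (fun _ _ => by norm_num)
  intro i hi
  have hi' : (2 : ℝ) * i ≤ a := by
    have := mem_range.1 hi
    exact_mod_cast (by omega : 2 * i ≤ a)
  have h1 : z ^ a = -1 := by
    rw [hp, mul_div_cancel₀ _ ha0.ne', Complex.exp_pi_mul_I]
  simp only [eval_sub, eval_pow, eval_X, zero_add]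
  rw [h1, hp, Complex.sq_norm, Complex.normSq_apply]
  simp only [Complex.sub_re, Complex.sub_im, Complex.exp_ofReal_mul_I_re,
    Complex.exp_ofReal_mul_I_im, Complex.neg_re, Complex.neg_im, Complex.one_re, Complex.one_im]
  have h2 : 0 ≤ Real.cos (i * (Real.pi / a)) := by
    apply Real.cos_nonneg_of_neg_pi_div_two_le_of_le
    · have : 0 ≤ i * (Real.pi / a) := by positivity
      linarith [Real.pi_pos]
    · rw [mul_div_assoc', div_le_div_iff₀ ha0 (by norm_num)]
      nlinarith [Real.pi_pos]
  nlinarith [Real.sin_sq_add_cos_sq (i * (Real.pi / a))]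

end Pool.Agent.H74.PZ
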