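import Mathlib
import Pool.Agent.H74.PZ1

set_option autoImplicit false

namespace Pool.Agent.H74.PZ

open Finset Polynomial Classical

variable {O : Type} [Field O] [CharP O 2]

def S (O : Type) [Field O] [CharP O 2] (N : ℕ) : Subfield O :=
  RingHom.eqLocusField (iterateFrobenius O 2 N) (RingHom.id O)

theorem mem_S {N : ℕ} {x : O} : x ∈ S O N ↔ iterateFrobenius O 2 N x = x := Iff.rfl

theorem two0 : (2 : O) = 0 := by exact_mod_cast CharP.cast_eq_zero O 2

theorem card_S [IsAlgClosed O] (N : ℕ) (hN : 0 < N) : Nat.card (S O N) = 2 ^ N := by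
  have h1 : (1 : ℕ) < 2 ^ N := Nat.one_lt_two_pow (by omega)
  have hs : (X ^ (2 ^ N) - X : O[X]).Separable :=
    galois_poly_separable 2 (2 ^ N) (dvd_pow_self 2 (by omega))
  have h2 := card_rootSet_eq_natDegree (K := O) hs (IsAlgClosed.splits _)
  rw [FiniteField.X_pow_card_sub_X_natDegree_eq O h1] at h2
  rw [← h2, ← Nat.card_eq_fintype_card]
  apply Nat.card_congr
  apply Equiv.subtypeEquivRight
  intro x
  rw [mem_rootSet_of_ne hs.ne_zero]
  change iterateFrobenius O 2 N x = x ↔ _
  simp [iterateFrobenius_def, sub_eq_zero]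

theorem fin_S [IsAlgClosed O] (N : ℕ) (hN : 0 < N) : Finite (S O N) :=
  Nat.finite_of_card_ne_zero (by rw [card_S N hN]; positivity)

theorem per {N : ℕ} {x : O} : x ∈ S O N ↔ Function.IsPeriodicPt (frobenius O 2) N x := by
  rw [mem_S, coe_iterateFrobenius]
  rfl

theorem S_mono {s n : ℕ} {x : O} (h : x ∈ S O s) (hn : s ∣ n) : x ∈ S O n :=
  per.2 ((per.1 h).trans_dvd hn)

theorem S_gcd {m n : ℕ} {x : O} (h : x ∈ S O m) (h' : x ∈ S O n) : x ∈ S O (Nat.gcd m n) :=
  per.2 ((per.1 h).gcd (per.1 h'))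

noncomputable def T (s m : ℕ) : O →+ O :=
  ∑ i ∈ range m, (iterateFrobenius O 2 (s * i) : O →+ O)

theorem T_def (s m : ℕ) (u : O) : T s m u = ∑ i ∈ range m, iterateFrobenius O 2 (s * i) u := by
  simp [T]

theorem T_mul {s : ℕ} (m : ℕ) {a : O} (h : a ∈ S O s) (u : O) : T s m (a * u) = a * T s m u := by
  rw [T_def, T_def, mul_sum]
  apply sum_congr rfl
  intro i _
  rw [map_mul, mem_S.1 (S_mono h (dvd_mul_right s i))]

theorem T_mem {s m : ℕ} {u : O} (h : u ∈ S O (s * m)) : T s m u ∈ S O s := by
  rw [mem_S, T_def, map_sum]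
  have h1 := sum_range_succ (fun i => iterateFrobenius O 2 (s * i) u) m
  have h2 := sum_range_succ' (fun i => iterateFrobenius O 2 (s * i) u) m
  rw [mem_S.1 h] at h1
  simp only [mul_zero, iterateFrobenius_zero_apply] at h2
  rw [h1] at h2
  rw [add_right_cancel h2]
  apply sum_congr rfl
  intro i _
  rw [← iterateFrobenius_add_apply]
  congr 2
  ring

theorem T_mem' (s m : ℕ) {n : ℕ} {u : O} (h : u ∈ S O n) : T s m u ∈ S O n := by
  rw [T_def]
  apply Subfield.sum_mem
  intro i _
  rw [iterateFrobenius_def]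
  exact pow_mem h _

theorem T_comp (s m : ℕ) (u : O) : T 1 (s * m) u = T 1 s (T s m u) := by
  induction m with
  | zero => simp [T_def]
  | succ m ih =>
    rw [T_def s, sum_range_succ, ← T_def, map_add, ← ih, mul_add, mul_one, T_def, sum_range_add,
      ← T_def, T_def 1 s]
    congr 1
    apply sum_congr rfl
    intro i _
    rw [← iterateFrobenius_add_apply]
    congr 2
    ring

theorem AS {z u : O} (h : z ^ 2 + z = u) (N : ℕ) : iterateFrobenius O 2 N z = z + T 1 N u := by
  induction N with
  | zero => simp [T_def]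
  | succ N ih =>
    rw [T_def, sum_range_succ, ← T_def, ← add_assoc, ← ih, iterateFrobenius_add_apply, one_mul,
      ← h, ← map_add]
    congr 1
    rw [iterateFrobenius_def]
    linear_combination (-z) * two0 (O := O)

theorem AS_cnt [IsAlgClosed O] (N : ℕ) [Fintype (S O N)] (u : O) :
    (∑ z : S O N, if z.1 ^ 2 + z.1 = u then 1 else 0) = if T 1 N u = 0 then 2 else 0 := by
  obtain ⟨o, ho⟩ : ∃ o : O, o ^ 2 + o = u := by
    obtain ⟨o, ho⟩ := IsAlgClosed.exists_root (X ^ 2 + X - C u : O[X]) (by
      have : (X ^ 2 + X - C u : O[X]).degree = 2 := by compute_degree!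
      rw [this]; norm_num)
    exact ⟨o, by simpa [sub_eq_zero] using ho⟩
  split_ifs with h
  · have h1 : o ∈ S O N := by rw [mem_S, AS ho, h, add_zero]
    rw [← card_filter]
    have : univ.filter (fun z : S O N => z.1 ^ 2 + z.1 = u) = {⟨o, h1⟩, ⟨o, h1⟩ + 1} := by
      ext z
      simp only [mem_filter, mem_univ, true_and, mem_insert, mem_singleton, Subtype.ext_iff]
      push_cast
      constructor
      · intro hz
        have : (z.1 - o) * (z.1 - (o + 1)) = 0 := by
          linear_combination hz - ho + (o ^ 2 + o - z.1 * o - z.1) * two0 (O := O)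
        rcases mul_eq_zero.1 this with h2 | h2
        · exact Or.inl (sub_eq_zero.1 h2)
        · exact Or.inr (sub_eq_zero.1 h2)
      · rintro (h2 | h2)
        · rw [h2, ho]
        · rw [h2]
          linear_combination ho + (o + 1) * two0 (O := O)
    rw [this, card_pair]
    simp
  · apply sum_eq_zero
    intro z _
    rw [if_neg]
    intro hz
    apply h
    have := AS hz N
    rw [mem_S.1 z.2] at this
    exact left_eq_add.1 this

theorem inner_cnt [IsAlgClosed O] (s m : ℕ) (hs : 0 < s) [Fintype (S O s)] [Fintype (S O (s * m))]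
    (u : O) (hu : u ∈ S O (s * m)) :
    (∑ w : S O s, ∑ z : S O (s * m), if z.1 ^ 2 + z.1 = u * w.1 then 1 else 0)
      = 2 ^ s + if T s m u = 0 then 2 ^ s else 0 := by
  have hc : Fintype.card (S O s) = 2 ^ s := by rw [← Nat.card_eq_fintype_card, card_S s hs]
  have e : ∀ w : S O s, (∑ z : S O (s * m), if z.1 ^ 2 + z.1 = u * w.1 then 1 else 0)
      = ∑ z : S O s, if z.1 ^ 2 + z.1 = w.1 * T s m u then 1 else 0 := by
    intro w
    rw [AS_cnt, AS_cnt, T_comp, mul_comm u, T_mul m w.2]
  simp only [e]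
  split_ifs with h
  · simp only [AS_cnt, h, mul_zero, map_zero, if_true, sum_const, card_univ, hc, smul_eq_mul]
    ring
  · rw [sum_comm, add_zero, ← hc, ← card_univ, card_eq_sum_ones]
    apply sum_congr rfl
    intro z _
    have hv : T s m u ∈ S O s := T_mem hu
    have : ∀ w : S O s, (z.1 ^ 2 + z.1 = w.1 * T s m u) ↔ w = (z ^ 2 + z) / ⟨_, hv⟩ := by
      intro w
      rw [Subtype.ext_iff]
      push_cast
      rw [eq_div_iff h, eq_comm]
    simp only [this]
    simp

theorem T_ne [IsAlgClosed O] (s m : ℕ) (h : 0 < s * m) : ∃ u ∈ S O (s * m), T s m u ≠ 0 := by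
  by_contra hc
  push Not at hc
  have := fin_S (O := O) (s * m) h
  let _ := Fintype.ofFinite (S O (s * m))
  have hs : Function.Surjective (fun z : S O (s * m) => z ^ 2 + z) := by
    intro u
    have h1 := AS_cnt (s * m) u.1
    rw [T_comp, hc u.1 u.2, map_zero, if_pos rfl] at h1
    by_contra h2
    push Not at h2
    rw [sum_eq_zero] at h1
    · exact absurd h1 (by norm_num)
    · intro z _
      rw [if_neg]
      intro h3
      apply h2 z
      exact Subtype.ext (by push_cast; exact h3)
  have hi := Finite.injective_iff_surjective.2 hs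
  have : (0 : S O (s * m)) = 1 := hi (Subtype.ext (by
    push_cast
    linear_combination -two0 (O := O)))
  exact zero_ne_one this

end Pool.Agent.H74.PZ
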