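import Mathlib
import Pool.Agent.H74.PZ2

set_option autoImplicit false

namespace Pool.Agent.H74.PZ

open Finset Polynomial Classical

variable {O : Type} [Field O] [CharP O 2] [IsAlgClosed O]

def K (O : Type) [Field O] [CharP O 2] (k e : ℕ) : IntermediateField (S O k) O :=
  (S O (k * e)).toIntermediateField (fun x => S_mono x.2 (dvd_mul_right k e))

theorem card_K (k e : ℕ) (h : 0 < k * e) : Nat.card (K O k e) = 2 ^ (k * e) := card_S _ h

theorem fin_K (k e : ℕ) (h : 0 < k * e) : Finite (K O k e) := fin_S _ h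

theorem rank_K (k e : ℕ) (hk : 0 < k) (he : 0 < e) : Module.finrank (S O k) (K O k e) = e := by
  have h := Nat.mul_pos hk he
  have := fin_K (O := O) k e h
  have := fin_S (O := O) k hk
  let _ := Fintype.ofFinite (S O k)
  let _ := Fintype.ofFinite (K O k e)
  have h1 := Module.card_eq_pow_finrank (K := S O k) (V := K O k e)
  rw [← Nat.card_eq_fintype_card, ← Nat.card_eq_fintype_card, card_K k e h, card_S k hk,
    ← pow_mul] at h1
  exact (Nat.eq_of_mul_eq_mul_left hk (Nat.pow_right_injective le_rfl h1)).symm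

theorem exB (k e : ℕ) (hk : 0 < k) (he : 0 < e) : ∃ b : Fin e → O, (∀ i, b i ∈ S O (k * e)) ∧
    ∀ e', 0 < e' → Nat.Coprime e e' → ∀ α : Fin e → O, (∀ i, α i ∈ S O (k * e')) →
      ∑ i, α i * b i = 0 → ∀ i, α i = 0 := by
  have := fin_K (O := O) k e (Nat.mul_pos hk he)
  have : Module.Finite (S O k) (K O k e) := Module.Finite.of_finite
  let b := Module.finBasisOfFinrankEq (S O k) (K O k e) (rank_K k e hk he)
  refine ⟨fun i => (b i).1, fun i => (b i).2, fun e' he' hc α hα h i => ?_⟩
  have h1 : (K O k e).LinearDisjoint (K O k e') :=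
    IntermediateField.LinearDisjoint.of_finrank_coprime (by
      rwa [rank_K k e hk he, rank_K k e' hk he'])
  have h2 := Fintype.linearIndependent_iff.1 (h1.linearIndependent_left b.linearIndependent)
    (fun i => ⟨α i, hα i⟩) h i
  exact congrArg Subtype.val h2

theorem M_cnt (k a b c : ℕ) (hk : 0 < k) (ha : 0 < a) (hb : 0 < b) (hc : 0 < c)
    (hab : Nat.Coprime b a) (hbc : Nat.Coprime b c) (hac : Nat.Coprime c a)
    [Fintype (S O (k * (b * c)))] [Fintype (S O (k * (a * c)))] :
    ((∑ x : S O (k * (b * c)), ∑ y : S O (k * (a * c)),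
      if T (k * (a * b)) c (x.1 * y.1) = 0 then 1 else 0 : ℕ) : ℂ) = (g a b c 0).eval (2 ^ k) := by
  have := fin_S (O := O) k hk
  have := fin_K (O := O) k a (Nat.mul_pos hk ha)
  have := fin_S (O := O) (k * (a * b)) (by positivity)
  have := fin_S (O := O) (k * (a * b) * c) (by positivity)
  let _ := Fintype.ofFinite (S O k)
  let _ := Fintype.ofFinite (K O k a)
  have hF : Fintype.card (S O k) = 2 ^ k := by rw [← Nat.card_eq_fintype_card, card_S k hk]
  have hV : Fintype.card (K O k a) = Fintype.card (S O k) ^ a := by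
    rw [← Nat.card_eq_fintype_card, card_K k a (Nat.mul_pos hk ha), hF, pow_mul]
  have h0 := sum_ka a b hV c (⊥ : Submodule (S O k) (K O k a))
  rw [finrank_bot, hF] at h0
  push_cast at h0
  rw [← h0]
  norm_cast
  obtain ⟨f, hf, hf'⟩ := exB (O := O) k b hk hb
  obtain ⟨e, he, he'⟩ := exB (O := O) k c hk hc
  have hin : ∀ x : Fin c → S O k, ∑ i, (x i).1 * e i ∈ S O (k * c) := fun x =>
    Subfield.sum_mem _ (fun i _ => mul_mem (S_mono (x i).2 (dvd_mul_right _ _)) (he i))
  let P : (Fin b → Fin c → S O k) → S O (k * (b * c)) := fun X =>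
    ⟨∑ s, (∑ i, (X s i).1 * e i) * f s, Subfield.sum_mem _ (fun s _ => mul_mem
      (S_mono (hin _) ⟨b, by ring⟩) (S_mono (hf s) ⟨c, by ring⟩))⟩
  have hP : Function.Bijective P := by
    apply Function.Injective.bijective_of_nat_card_le
    · intro X Y h
      have h1 : ∑ s, (∑ i, (X s i).1 * e i) * f s = ∑ s, (∑ i, (Y s i).1 * e i) * f s :=
        congrArg Subtype.val h
      have h2 := hf' c hc hbc (fun s => ∑ i, (X s i).1 * e i - ∑ i, (Y s i).1 * e i)
        (fun s => sub_mem (hin _) (hin _)) (by simp only [sub_mul, sum_sub_distrib, h1, sub_self])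
      funext s i
      have h3 := he' 1 one_pos (Nat.coprime_one_right c) (fun i => (X s i).1 - (Y s i).1)
        (fun i => by rw [mul_one]; exact sub_mem (X s i).2 (Y s i).2)
        (by simp only [sub_mul, sum_sub_distrib]; exact h2 s) i
      exact Subtype.ext (sub_eq_zero.1 h3)
    · rw [card_S _ (by positivity), Nat.card_fun, Nat.card_fun, card_S k hk]
      simp only [Nat.card_eq_fintype_card, Fintype.card_fin, ← pow_mul]
      exact le_of_eq (by congr 1; ring)
  have hL : ∀ u ∈ S O (k * (a * b) * c), ∃ α : Fin c → S O (k * (a * b)),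
      ∑ i, (α i).1 * e i = u := by
    let Q : (Fin c → S O (k * (a * b))) → S O (k * (a * b) * c) := fun α =>
      ⟨∑ i, (α i).1 * e i, Subfield.sum_mem _ (fun i _ => mul_mem
        (S_mono (α i).2 (dvd_mul_right _ _)) (S_mono (he i) ⟨a * b, by ring⟩))⟩
    have hQ : Function.Bijective Q := by
      apply Function.Injective.bijective_of_nat_card_le
      · intro X Y h
        have h1 : ∑ i, (X i).1 * e i = ∑ i, (Y i).1 * e i := congrArg Subtype.val h
        funext i
        have h3 := he' (a * b) (by positivity) (Nat.Coprime.mul_right hac hbc.symm)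
          (fun i => (X i).1 - (Y i).1) (fun i => sub_mem (X i).2 (Y i).2)
          (by simp only [sub_mul, sum_sub_distrib, h1, sub_self]) i
        exact Subtype.ext (sub_eq_zero.1 h3)
      · rw [card_S _ (by positivity), Nat.card_fun, card_S _ (by positivity)]
        simp only [Nat.card_eq_fintype_card, Fintype.card_fin, ← pow_mul]
        exact le_rfl
    intro u hu
    obtain ⟨α, h⟩ := hQ.2 ⟨u, hu⟩
    exact ⟨α, congrArg Subtype.val h⟩
  have hmem : ∀ (y : S O (k * (a * c))) (i : Fin c),
      T (k * (a * b)) c (e i * y.1) ∈ S O (k * a) := by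
    intro y i
    have h1 : e i * y.1 ∈ S O (k * (a * c)) := mul_mem (S_mono (he i) ⟨a, by ring⟩) y.2
    have h2 := S_gcd (T_mem (s := k * (a * b)) (m := c) (S_mono h1 ⟨b, by ring⟩))
      (T_mem' (k * (a * b)) c h1)
    rwa [Nat.gcd_mul_left, Nat.gcd_mul_left, hbc, mul_one] at h2
  let R : S O (k * (a * c)) → (Fin c → K O k a) := fun y i => ⟨_, hmem y i⟩
  have hR : Function.Bijective R := by
    apply Function.Injective.bijective_of_nat_card_le
    · intro y y' h
      by_contra hne
      have hd : y.1 - y'.1 ≠ 0 := fun h1 => hne (Subtype.ext (sub_eq_zero.1 h1))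
      obtain ⟨u, hu, hu'⟩ := T_ne (O := O) (k * (a * b)) c (by positivity)
      obtain ⟨α, hα⟩ := hL (u / (y.1 - y'.1))
        (div_mem hu (S_mono (sub_mem y.2 y'.2) ⟨b, by ring⟩))
      apply hu'
      rw [← div_mul_cancel₀ u hd, ← hα, sum_mul, map_sum]
      apply sum_eq_zero
      intro i _
      have h2 : T (k * (a * b)) c (e i * y.1) = T (k * (a * b)) c (e i * y'.1) :=
        congrArg Subtype.val (congrFun h i)
      rw [mul_assoc, T_mul c (α i).2, mul_sub, map_sub, h2, sub_self, mul_zero]
    · rw [card_S _ (by positivity), Nat.card_fun, card_K _ _ (by positivity)]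
      simp only [Nat.card_eq_fintype_card, Fintype.card_fin, ← pow_mul]
      exact le_of_eq (by congr 1; ring)
  rw [sum_comm, ← hR.sum_comp]
  apply sum_congr rfl
  intro y _
  rw [← hP.sum_comp, ← card_filter, ka]
  have e1 : univ.filter (fun X : Fin b → Fin c → S O k =>
      T (k * (a * b)) c ((P X).1 * y.1) = 0) = Fintype.piFinset (fun _ : Fin b =>
        univ.filter (fun x : Fin c → S O k =>
          ∑ i, x i • R y i ∈ (⊥ : Submodule (S O k) (K O k a)))) := by
    ext X
    simp only [mem_filter, mem_univ, true_and, Fintype.mem_piFinset, Submodule.mem_bot]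
    have e2 : T (k * (a * b)) c ((P X).1 * y.1)
        = ∑ s, (∑ i, X s i • R y i : K O k a).1 * f s := by
      simp only [P, sum_mul, map_sum]
      apply sum_congr rfl
      intro s _
      rw [IntermediateField.coe_sum, sum_mul]
      apply sum_congr rfl
      intro i _
      rw [show (X s i).1 * e i * f s * y.1 = ((X s i).1 * f s) * (e i * y.1) by ring,
        T_mul c (mul_mem (S_mono (X s i).2 (dvd_mul_right _ _)) (S_mono (hf s) ⟨a, by ring⟩))]
      change _ = (X s i).1 * T (k * (a * b)) c (e i * y.1) * f s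
      ring
    rw [e2]
    constructor
    · intro h s
      exact Subtype.ext (hf' a ha hab _ (fun s => (∑ i, X s i • R y i : K O k a).2) h s)
    · intro h
      simp [h]
  rw [e1, Fintype.card_piFinset, prod_const, card_univ, Fintype.card_fin]

end Pool.Agent.H74.PZ
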