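import Mathlib

namespace Pool.Agent.H74.Pm
open Finset

section gen
variable {α : Type*}

def sg (l : α → α → ℤ) (x y : α) : ℤ := l x y - l y x
def io (l : α → α → ℤ) (x y : α) : ℤ := (1 - l x y) * (1 - l y x)
def de (l : α → α → ℤ) (x y : α) : ℤ := l x y * l y x
def st (l : α → α → ℤ) (x y : α) : ℤ := l x y * (1 - l y x)

def hA (l : α → α → ℤ) (z a b _c : α) : ℤ :=
  3 * (sg l z a * sg l z b) + io l z a * io l z b + 2 * (io l z a * de l a b)
    + 4 * (st l z a * io l z b * io l a b) - 1 + de l z a * de l z b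

def hB (l : α → α → ℤ) (z a b c : α) : ℤ :=
  sg l z a * sg l z b * sg l z c + sg l z a * io l z b * io l z c + 2 * (sg l z a * io l z b * de l b c)
    - sg l z a * de l a b * de l a c - 4 * (st l z a * io l z b * io l a b)

def six (h : α → α → α → α → ℤ) (a b c d : α) : ℤ :=
  h a b c d + h a b d c + h a c b d + h a c d b + h a d b c + h a d c b

def four (h : α → α → α → α → ℤ) (a b c d : α) : ℤ := h a b c d + h b a c d + h c a b d + h d a b c

def S4 (D : Finset α) (h : α → α → α → α → ℤ) : ℤ := ∑ a ∈ D, ∑ b ∈ D, ∑ c ∈ D, ∑ d ∈ D, h a b c d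

theorem s12 (D : Finset α) (h : α → α → α → α → ℤ) : S4 D (fun a b c d => h b a c d) = S4 D h :=
  sum_comm
theorem s23 (D : Finset α) (h : α → α → α → α → ℤ) : S4 D (fun a b c d => h a c b d) = S4 D h :=
  sum_congr rfl fun _ _ => sum_comm
theorem s34 (D : Finset α) (h : α → α → α → α → ℤ) : S4 D (fun a b c d => h a b d c) = S4 D h :=
  sum_congr rfl fun _ _ => sum_congr rfl fun _ _ => sum_comm

theorem S4_six (D : Finset α) (h : α → α → α → α → ℤ) : S4 D (six h) = 6 * S4 D h := by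
  have e1 := s34 D h
  have e2 := s23 D h
  have e3 : S4 D (fun a b c d => h a c d b) = S4 D h :=
    (s23 D (fun a b c d => h a b d c)).trans e1
  have e4 : S4 D (fun a b c d => h a d b c) = S4 D h :=
    (s34 D (fun a b c d => h a c b d)).trans (s23 D h)
  have e5 : S4 D (fun a b c d => h a d c b) = S4 D h :=
    (s34 D (fun a b c d => h a c d b)).trans e3
  have : S4 D (six h) = S4 D h + S4 D (fun a b c d => h a b d c) + S4 D (fun a b c d => h a c b d)
      + S4 D (fun a b c d => h a c d b) + S4 D (fun a b c d => h a d b c)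
      + S4 D (fun a b c d => h a d c b) := by
    simp only [S4, six, sum_add_distrib]
  rw [this, e1, e2, e3, e4, e5]
  ring

theorem S4_four (D : Finset α) (h : α → α → α → α → ℤ) : S4 D (four h) = 4 * S4 D h := by
  have e1 := s12 D h
  have e2 : S4 D (fun a b c d => h c a b d) = S4 D h :=
    (s23 D (fun a b c d => h b a c d)).trans e1
  have e3 : S4 D (fun a b c d => h d a b c) = S4 D h :=
    (s34 D (fun a b c d => h c a b d)).trans e2
  have : S4 D (four h) = S4 D h + S4 D (fun a b c d => h b a c d) + S4 D (fun a b c d => h c a b d)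
      + S4 D (fun a b c d => h d a b c) := by
    simp only [S4, four, sum_add_distrib]
  rw [this, e1, e2, e3]
  ring

theorem S4_nonpos (D : Finset α) (h : α → α → α → α → ℤ) (H : ∀ a b c d, four (six h) a b c d ≤ 0) :
    S4 D h ≤ 0 := by
  have h1 : S4 D (four (six h)) ≤ 0 :=
    sum_nonpos fun a _ => sum_nonpos fun b _ => sum_nonpos fun c _ => sum_nonpos fun d _ => H a b c d
  rw [S4_four, S4_six] at h1
  linarith

end gen

def I (b : Bool) : ℤ := if b then 1 else 0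

def mat (b01 b02 b03 b10 b12 b13 b20 b21 b23 b30 b31 b32 : Bool) : ℕ → ℕ → Bool
  | 0, 1 => b01 | 0, 2 => b02 | 0, 3 => b03
  | 1, 0 => b10 | 1, 2 => b12 | 1, 3 => b13
  | 2, 0 => b20 | 2, 1 => b21 | 2, 3 => b23
  | 3, 0 => b30 | 3, 1 => b31 | 3, 2 => b32
  | _, _ => true

def tr (m : ℕ → ℕ → Bool) : Bool :=
  [0, 1, 2, 3].all fun i => [0, 1, 2, 3].all fun j => [0, 1, 2, 3].all fun k =>
    !(m i j) || !(m j k) || m i k

theorem fin_check : ∀ b01 b02 b03 b10 b12 b13 b20 b21 b23 b30 b31 b32 : Bool,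
    tr (mat b01 b02 b03 b10 b12 b13 b20 b21 b23 b30 b31 b32) = true →
    four (six (hA (fun i j => I (mat b01 b02 b03 b10 b12 b13 b20 b21 b23 b30 b31 b32 i j)))) 0 1 2 3 ≤ 0 ∧
    four (six (hB (fun i j => I (mat b01 b02 b03 b10 b12 b13 b20 b21 b23 b30 b31 b32 i j)))) 0 1 2 3 ≤ 0 := by
  decide +kernel

variable {P : Type*} [PartialOrder P]

open Classical in
noncomputable def ell (x y : P) : ℤ := I (decide (x ≤ y))

theorem point (a b c d : P) :
    four (six (hA ell)) a b c d ≤ 0 ∧ four (six (hB ell)) a b c d ≤ 0 := by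
  classical
  refine fin_check (decide (a ≤ b)) (decide (a ≤ c)) (decide (a ≤ d)) (decide (b ≤ a))
    (decide (b ≤ c)) (decide (b ≤ d)) (decide (c ≤ a)) (decide (c ≤ b)) (decide (c ≤ d))
    (decide (d ≤ a)) (decide (d ≤ b)) (decide (d ≤ c)) ?_
  have key : ∀ x y z : P, (!(decide (x ≤ y)) || !(decide (y ≤ z)) || decide (x ≤ z)) = true := by
    intro x y z
    by_cases h1 : x ≤ y
    · by_cases h2 : y ≤ z
      · simp [h1.trans h2]
      · simp [h2]
    · simp [h1]
  simp [tr, mat, -Bool.or_eq_true, key]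

theorem ell_eq (x y : P) : (x ≤ y ∧ ell x y = 1) ∨ (¬ x ≤ y ∧ ell x y = 0) := by
  by_cases h : x ≤ y <;> simp [ell, I, h]

theorem de_eq [DecidableEq P] (x y : P) : de ell x y = if x = y then 1 else 0 := by
  unfold de
  rcases ell_eq x y with ⟨a, b⟩ | ⟨a, b⟩ <;> rcases ell_eq y x with ⟨c, d⟩ | ⟨c, d⟩ <;> rw [b, d]
  · rw [if_pos (le_antisymm a c)]; rfl
  · rw [if_neg (fun h => c h.ge)]; rfl
  · rw [if_neg (fun h => a h.le)]; rfl
  · rw [if_neg (fun h => a h.le)]; rfl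

theorem sum_de (D : Finset P) {x : P} (hx : x ∈ D) : ∑ y ∈ D, de ell x y = 1 := by
  classical
  simp only [de_eq, sum_ite_eq, if_pos hx]

open Classical in
theorem star (D : Finset P) :
    ∑ z ∈ D, (((D.filter (z < ·)).card : ℤ) + (D.filter (fun y => ¬ y ≤ z)).card + 2) *
      (((D.filter (z < ·)).card : ℤ) ^ 2 + ((D.filter (fun y => ¬ y ≤ z)).card : ℤ) ^ 2
        + 2 * (D.filter (z < ·)).card + 2 * (D.filter (fun y => ¬ y ≤ z)).card)
      ≤ ((D.card : ℤ) - 1) * D.card * (D.card + 1) * (D.card + 2) := by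
  rcases D.eq_empty_or_nonempty with rfl | hD
  · simp
  have n0 : (0 : ℤ) < D.card := by exact_mod_cast card_pos.2 hD
  obtain ⟨e, he⟩ : ∃ e : P → ℤ, e = fun z => ∑ y ∈ D, sg ell z y := ⟨_, rfl⟩
  obtain ⟨i, hi⟩ : ∃ i : P → ℤ, i = fun z => ∑ y ∈ D, io ell z y := ⟨_, rfl⟩
  obtain ⟨τ, hτ⟩ : ∃ τ : ℤ, τ = ∑ z ∈ D, ∑ a ∈ D, ∑ b ∈ D, st ell z a * io ell z b * io ell a b :=
    ⟨_, rfl⟩
  have io0 : ∀ x y : P, 0 ≤ io ell x y := by
    intro x y
    unfold io
    rcases ell_eq x y with ⟨a, b⟩ | ⟨a, b⟩ <;> rcases ell_eq y x with ⟨c, d⟩ | ⟨c, d⟩ <;> simp [b, d]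
  have st0 : ∀ x y : P, 0 ≤ st ell x y := by
    intro x y
    unfold st
    rcases ell_eq x y with ⟨a, b⟩ | ⟨a, b⟩ <;> rcases ell_eq y x with ⟨c, d⟩ | ⟨c, d⟩ <;> simp [b, d]
  have sg0 : ∀ x y : P, -1 ≤ sg ell x y := by
    intro x y
    unfold sg
    rcases ell_eq x y with ⟨a, b⟩ | ⟨a, b⟩ <;> rcases ell_eq y x with ⟨c, d⟩ | ⟨c, d⟩ <;> simp [b, d]
  have τ0 : 0 ≤ τ := by
    rw [hτ]
    exact sum_nonneg fun z _ => sum_nonneg fun a _ => sum_nonneg fun b _ =>
      mul_nonneg (mul_nonneg (st0 _ _) (io0 _ _)) (io0 _ _)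
  have e0 : ∑ z ∈ D, e z = 0 := by
    simp only [he, sg, sum_sub_distrib]
    rw [sum_comm, sub_self]
  have hA' : S4 D (hA ell) = D.card * (∑ z ∈ D, (3 * e z ^ 2 + i z ^ 2 + 2 * i z) + 4 * τ
      - D.card ^ 3 + D.card) := by
    have a1 : ∀ z ∈ D, ∑ a ∈ D, ∑ b ∈ D, hA ell z a b z = (3 * e z ^ 2 + i z ^ 2 + 2 * i z)
        + 4 * ∑ a ∈ D, ∑ b ∈ D, st ell z a * io ell z b * io ell a b - D.card ^ 2 + 1 := by
      intro z hz
      have b1 : ∑ a ∈ D, ∑ b ∈ D, io ell z a * de ell a b = i z := by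
        rw [hi]
        refine sum_congr rfl fun a ha => ?_
        rw [← mul_sum, sum_de D ha, mul_one]
      have b2 : ∑ a ∈ D, ∑ b ∈ D, de ell z a * de ell z b = 1 := by
        rw [← sum_mul_sum, sum_de D hz, mul_one]
      have b3 : ∑ a ∈ D, ∑ b ∈ D, sg ell z a * sg ell z b = e z ^ 2 := by
        rw [← sum_mul_sum, he, sq]
      have b4 : ∑ a ∈ D, ∑ b ∈ D, io ell z a * io ell z b = i z ^ 2 := by
        rw [← sum_mul_sum, hi, sq]
      simp only [hA, sum_add_distrib, sum_sub_distrib, ← mul_sum, sum_const, nsmul_eq_mul, mul_one]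
      simp only [← mul_sum] at b1 b2 b3 b4
      rw [b1, b2, b3, b4]
      ring
    have a2 : S4 D (hA ell) = D.card * ∑ z ∈ D, ∑ a ∈ D, ∑ b ∈ D, hA ell z a b z := by
      simp only [S4, mul_sum]
      refine sum_congr rfl fun z _ => sum_congr rfl fun a _ => sum_congr rfl fun b _ => ?_
      simp only [hA, sum_const, nsmul_eq_mul]
    rw [a2, sum_congr rfl a1, hτ]
    simp only [sum_add_distrib, sum_sub_distrib, ← mul_sum, sum_const, nsmul_eq_mul]
    ring
  have hB' : S4 D (hB ell) = ∑ z ∈ D, (e z ^ 3 + e z * i z ^ 2 + 2 * (e z * i z)) - ∑ z ∈ D, e z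
      - 4 * (D.card * τ) := by
    have a1 : ∀ z ∈ D, ∑ a ∈ D, ∑ b ∈ D, ∑ c ∈ D, hB ell z a b c
        = (e z ^ 3 + e z * i z ^ 2 + 2 * (e z * i z)) - e z
        - 4 * (D.card * ∑ a ∈ D, ∑ b ∈ D, st ell z a * io ell z b * io ell a b) := by
      intro z _
      have b1 : ∑ a ∈ D, ∑ b ∈ D, ∑ c ∈ D, sg ell z a * sg ell z b * sg ell z c = e z ^ 3 := by
        simp only [← mul_sum, ← sum_mul, he]
        ring
      have b2 : ∑ a ∈ D, ∑ b ∈ D, ∑ c ∈ D, sg ell z a * io ell z b * io ell z c = e z * i z ^ 2 := by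
        simp only [← mul_sum, ← sum_mul, he, hi]
        ring
      have b3 : ∑ a ∈ D, ∑ b ∈ D, ∑ c ∈ D, sg ell z a * io ell z b * de ell b c = e z * i z := by
        rw [he, hi, sum_mul_sum]
        refine sum_congr rfl fun a _ => sum_congr rfl fun b hb => ?_
        rw [← mul_sum, sum_de D hb, mul_one]
      have b4 : ∑ a ∈ D, ∑ b ∈ D, ∑ c ∈ D, sg ell z a * de ell a b * de ell a c = e z := by
        rw [he]
        refine sum_congr rfl fun a ha => ?_
        simp only [← mul_sum, ← sum_mul, sum_de D ha, mul_one]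
      have b5 : ∑ a ∈ D, ∑ b ∈ D, ∑ _c ∈ D, st ell z a * io ell z b * io ell a b
          = D.card * ∑ a ∈ D, ∑ b ∈ D, st ell z a * io ell z b * io ell a b := by
        simp only [sum_const, nsmul_eq_mul, mul_sum]
      rw [← b5, ← b3, ← b2, ← b1]
      nth_rewrite 1 [← b4]
      simp only [hB, sum_add_distrib, sum_sub_distrib, mul_sum]
    rw [S4, sum_congr rfl a1, hτ]
    simp only [sum_add_distrib, sum_sub_distrib, ← mul_sum]
  have hA2 := S4_nonpos D _ (fun a b c d => (point a b c d).1)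
  have hB2 := S4_nonpos D _ (fun a b c d => (point a b c d).2)
  rw [hA'] at hA2
  rw [hB', e0] at hB2
  have hA3 := nonpos_of_mul_nonpos_right hA2 n0
  have hC : 0 ≤ ∑ z ∈ D, (e z + D.card) * i z := by
    refine sum_nonneg fun z _ => mul_nonneg ?_ ?_
    · have : ∑ y ∈ D, (-1 : ℤ) ≤ e z := by rw [he]; exact sum_le_sum fun y _ => sg0 z y
      simp only [sum_const, nsmul_eq_mul] at this
      linarith
    · rw [hi]; exact sum_nonneg fun y _ => io0 z y
  have hi0 : 0 ≤ ∑ z ∈ D, i z := sum_nonneg fun z _ => by rw [hi]; exact sum_nonneg fun y _ => io0 z y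
  have pt : ∀ z ∈ D, 2 * ((((D.filter (z < ·)).card : ℤ) + (D.filter (fun y => ¬ y ≤ z)).card + 2) *
      (((D.filter (z < ·)).card : ℤ) ^ 2 + ((D.filter (fun y => ¬ y ≤ z)).card : ℤ) ^ 2
        + 2 * (D.filter (z < ·)).card + 2 * (D.filter (fun y => ¬ y ≤ z)).card))
      = (D.card + 1) ^ 3 - 4 * (D.card + 1) + (3 * (D.card + 1) ^ 2 - 4) * e z
        + (D.card + 1) * (3 * e z ^ 2 + i z ^ 2 + 2 * i z) + (e z ^ 3 + e z * i z ^ 2 + 2 * (e z * i z))
        - 2 * ((e z + D.card) * i z) - 2 * i z := by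
    intro z hz
    have u1 : ((D.filter (z < ·)).card : ℤ) = ∑ y ∈ D, st ell z y := by
      rw [card_filter]
      push_cast
      refine sum_congr rfl fun y _ => ?_
      unfold st
      rcases ell_eq z y with ⟨a, b⟩ | ⟨a, b⟩ <;> rcases ell_eq y z with ⟨c, d⟩ | ⟨c, d⟩ <;>
        simp [b, d, lt_iff_le_not_ge, a, c]
    have w1 : ((D.filter (fun y => ¬ y ≤ z)).card : ℤ) = ∑ y ∈ D, (1 - ell y z) := by
      rw [card_filter]
      push_cast
      refine sum_congr rfl fun y _ => ?_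
      rcases ell_eq y z with ⟨c, d⟩ | ⟨c, d⟩ <;> simp [c, d]
    have r1 : ∑ y ∈ D, (1 - ell y z) - ∑ y ∈ D, st ell z y = i z := by
      rw [hi, ← sum_sub_distrib]
      refine sum_congr rfl fun y _ => ?_
      unfold st io
      ring
    have r2 : ∑ y ∈ D, (1 - ell y z) + ∑ y ∈ D, st ell z y = D.card + e z - 1 := by
      have h1 : (D.card : ℤ) = ∑ _y ∈ D, (1 : ℤ) := by simp
      have h2 : ∑ y ∈ D, (1 - ell y z) + ∑ y ∈ D, st ell z y
          = ∑ _y ∈ D, (1 : ℤ) + ∑ y ∈ D, sg ell z y - ∑ y ∈ D, de ell z y := by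
        rw [← sum_add_distrib, ← sum_add_distrib, ← sum_sub_distrib]
        refine sum_congr rfl fun y _ => ?_
        unfold st sg de
        ring
      rw [h2, ← h1, sum_de D hz, he]
    rw [u1, w1]
    generalize ∑ y ∈ D, (1 - ell y z) = w at r1 r2
    generalize ∑ y ∈ D, st ell z y = u at r1 r2
    have : e z = w + u + 1 - D.card := by linarith
    rw [← r1, this]
    ring
  have fin := sum_congr rfl pt
  rw [← mul_sum] at fin
  simp only [sum_add_distrib, sum_sub_distrib, ← mul_sum, sum_const, nsmul_eq_mul] at fin hA3 hB2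
  rw [e0] at fin
  nlinarith

end Pool.Agent.H74.Pm
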