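import Pool.Agent.H74.Pm1

namespace Pool.Agent.H74.Pm
open Finset

variable {P : Type*} [Fintype P] [DecidableEq P] [PartialOrder P]

open Classical in
noncomputable def Lam (n : ℕ) (S : Finset P) (k : ℕ) : Finset (P → ℕ) :=
  (Fintype.piFinset (fun _ => range (n + 1))).filter
    (fun M => Set.InjOn M S ∧ (∀ x ∈ S, k ≤ M x) ∧ ∀ x, x ∉ S → M x = 0)

open Classical in
noncomputable def Ch (n : ℕ) (S D : Finset P) (M : P → ℕ) : Finset (Finset P) :=
  D.powerset.filter (fun C => (∀ x ∈ C, ∀ y ∈ C, x ≤ y ∨ y ≤ x) ∧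
    (∀ x ∈ C, ∀ y ∈ S, x < y → M x < M y) ∧ ∃ t ∈ C, M t = n)

omit [PartialOrder P] in
theorem mem_Lam {n k : ℕ} {S : Finset P} {M : P → ℕ} : M ∈ Lam n S k ↔
    (∀ x, M x ≤ n) ∧ Set.InjOn M S ∧ (∀ x ∈ S, k ≤ M x) ∧ ∀ x, x ∉ S → M x = 0 := by
  simp [Lam, Nat.lt_succ_iff]

theorem mem_Ch {n : ℕ} {S D C : Finset P} {M : P → ℕ} : C ∈ Ch n S D M ↔
    C ⊆ D ∧ (∀ x ∈ C, ∀ y ∈ C, x ≤ y ∨ y ≤ x) ∧
    (∀ x ∈ C, ∀ y ∈ S, x < y → M x < M y) ∧ ∃ t ∈ C, M t = n := by
  simp [Ch]

open Classical in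
theorem Ch_rec {n k : ℕ} {S D : Finset P} {M : P → ℕ} {z : P} (hD : D ⊆ S) (hM : M ∈ Lam n S k)
    (hz : z ∈ S) (hk : M z = k) (hkn : k < n) :
    (Ch n S D M).card ≤ (Ch n (S.erase z) (D.filter (fun y => ¬ y ≤ z)) (Function.update M z 0)).card
      + if z ∈ D then (Ch n (S.erase z) (D.filter (z < ·)) (Function.update M z 0)).card else 0 := by
  rw [mem_Lam] at hM
  have up : ∀ x, x ≠ z → Function.update M z 0 x = M x := fun x hx => Function.update_of_ne hx _ _
  have nb : ∀ C ∈ Ch n S D M, ∀ x ∈ C, ¬ x < z := by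
    intro C hC x hx h
    rw [mem_Ch] at hC
    have := hC.2.2.1 x hx z hz h
    have := hM.2.2.1 x (hD (hC.1 hx))
    omega
  have tr : ∀ C ∈ Ch n S D M, ∀ D' : Finset P, C.erase z ⊆ D' →
      C.erase z ∈ Ch n (S.erase z) D' (Function.update M z 0) := by
    intro C hC D' hD'
    rw [mem_Ch] at hC ⊢
    refine ⟨hD', fun x hx y hy => hC.2.1 x (mem_of_mem_erase hx) y (mem_of_mem_erase hy),
      fun x hx y hy h => ?_, ?_⟩
    · rw [up x (ne_of_mem_erase hx), up y (ne_of_mem_erase hy)]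
      exact hC.2.2.1 x (mem_of_mem_erase hx) y (mem_of_mem_erase hy) h
    · obtain ⟨t, ht, e⟩ := hC.2.2.2
      have : t ≠ z := by rintro rfl; omega
      exact ⟨t, mem_erase.2 ⟨this, ht⟩, by rw [up t this, e]⟩
  rw [← card_filter_add_card_filter_not (s := Ch n S D M) (fun C => z ∉ C)]
  refine add_le_add ?_ ?_
  · refine card_le_card fun C hC => ?_
    obtain ⟨h1, h2⟩ := mem_filter.1 hC
    have := tr C h1 (D.filter (fun y => ¬ y ≤ z)) (fun x hx => by
      have hx' := mem_of_mem_erase hx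
      refine mem_filter.2 ⟨(mem_Ch.1 h1).1 hx', fun h => ?_⟩
      exact nb C h1 x hx' (lt_of_le_of_ne h (ne_of_mem_erase hx)))
    rwa [erase_eq_of_notMem h2] at this
  · split_ifs with hzD
    · refine card_le_card_of_injOn (fun C => C.erase z) ?_ ?_
      · intro C hC
        obtain ⟨h1, h2⟩ := mem_filter.1 (mem_coe.1 hC)
        rw [not_not] at h2
        refine mem_coe.2 (tr C h1 _ fun x hx => ?_)
        have hx' := mem_of_mem_erase hx
        refine mem_filter.2 ⟨(mem_Ch.1 h1).1 hx', ?_⟩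
        rcases (mem_Ch.1 h1).2.1 x hx' z h2 with h | h
        · exact absurd (lt_of_le_of_ne h (ne_of_mem_erase hx)) (nb C h1 x hx')
        · exact lt_of_le_of_ne h (ne_of_mem_erase hx).symm
      · intro C hC C' hC' e
        have h1 := not_not.1 (mem_filter.1 (mem_coe.1 hC)).2
        have h2 := not_not.1 (mem_filter.1 (mem_coe.1 hC')).2
        have e' : C.erase z = C'.erase z := e
        rw [← insert_erase h1, ← insert_erase h2, e']
    · rw [Nat.le_zero, card_eq_zero, filter_eq_empty_iff]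
      intro C hC
      rw [not_not]
      exact fun h => hzD ((mem_Ch.1 hC).1 h)

omit [PartialOrder P] in
theorem Lam_rec {n k : ℕ} {S : Finset P} (hS : S.card + k = n + 1) (hkn : k ≤ n) (T : (P → ℕ) → ℤ)
    (U : P → (P → ℕ) → ℤ) (hT0 : ∀ M, 0 ≤ T M) (hU0 : ∀ z M, 0 ≤ U z M)
    (h : ∀ M ∈ Lam n S k, ∀ z ∈ S, M z = k → T M ≤ U z (Function.update M z 0)) :
    ∑ M ∈ Lam n S k, T M ≤ ∑ z ∈ S, ∑ M ∈ Lam n (S.erase z) (k + 1), U z M := by
  classical
  have h1 : ∑ M ∈ Lam n S k, T M ≤ ∑ M ∈ Lam n S k, ∑ z ∈ S, if M z = k then T M else 0 := by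
    refine sum_le_sum fun M hM => ?_
    rw [mem_Lam] at hM
    obtain ⟨z, hz, e⟩ := surj_on_of_inj_on_of_card_le (s := S) (t := Icc k n) (fun x _ => M x)
      (fun x hx => mem_Icc.2 ⟨hM.2.2.1 x hx, hM.1 x⟩) (fun x y hx hy e => hM.2.1 hx hy e)
      (by rw [Nat.card_Icc]; omega) k (mem_Icc.2 ⟨le_rfl, hkn⟩)
    have := single_le_sum (f := fun z => if M z = k then T M else 0)
      (fun z _ => by split_ifs; exacts [hT0 M, le_rfl]) hz
    rwa [if_pos e.symm] at this
  rw [sum_comm] at h1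
  refine h1.trans (sum_le_sum fun z hz => ?_)
  rw [← sum_filter]
  calc ∑ M ∈ (Lam n S k).filter (fun M => M z = k), T M
      ≤ ∑ M ∈ (Lam n S k).filter (fun M => M z = k), U z (Function.update M z 0) :=
        sum_le_sum fun M hM => h M (mem_filter.1 hM).1 z hz (mem_filter.1 hM).2
    _ = ∑ M ∈ ((Lam n S k).filter (fun M => M z = k)).image (fun M => Function.update M z 0),
          U z M := by
        rw [sum_image]
        intro M hM M' hM' e
        have h1 := (mem_filter.1 (mem_coe.1 hM)).2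
        have h2 := (mem_filter.1 (mem_coe.1 hM')).2
        funext x
        by_cases hx : x = z
        · rw [hx, h1, h2]
        · have := congrFun e x
          simpa [Function.update_of_ne hx] using this
    _ ≤ _ := by
        refine sum_le_sum_of_subset_of_nonneg (fun M' hM' => ?_) fun M _ _ => hU0 z M
        obtain ⟨M, hM, rfl⟩ := mem_image.1 hM'
        obtain ⟨hM, e⟩ := mem_filter.1 hM
        rw [mem_Lam] at hM ⊢
        have up : ∀ x, x ≠ z → Function.update M z 0 x = M x :=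
          fun x hx => Function.update_of_ne hx _ _
        refine ⟨fun x => ?_, fun x hx y hy e => ?_, fun x hx => ?_, fun x hx => ?_⟩
        · by_cases hx : x = z
          · rw [hx, Function.update_self]; omega
          · rw [up x hx]; exact hM.1 x
        · have hx' := mem_erase.1 (mem_coe.1 hx)
          have hy' := mem_erase.1 (mem_coe.1 hy)
          rw [up x hx'.1, up y hy'.1] at e
          exact hM.2.1 hx'.2 hy'.2 e
        · have hx' := mem_erase.1 hx
          rw [up x hx'.1]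
          have a := hM.2.2.1 x hx'.2
          have b : M x ≠ M z := fun e => hx'.1 (hM.2.1 hx'.2 hz e)
          omega
        · by_cases hx' : x = z
          · rw [hx', Function.update_self]
          · rw [up x hx']
            exact hM.2.2.2 x fun h => hx (mem_erase.2 ⟨hx', h⟩)

theorem cs {ι : Type*} (s : Finset ι) (A B : ι → ℤ) (K u w : ℤ) (hK : 0 ≤ K) (hu : 0 ≤ u)
    (hw : 0 ≤ w) (h1 : 6 * ∑ i ∈ s, A i ^ 2 ≤ K * (w * (w + 1) * (w + 2)))
    (h2 : 6 * ∑ i ∈ s, B i ^ 2 ≤ K * (u * (u + 1) * (u + 2))) :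
    6 * ∑ i ∈ s, (A i + B i) ^ 2 ≤ K * ((u + w + 2) * (u ^ 2 + w ^ 2 + 2 * u + 2 * w)) := by
  have c := sum_mul_sq_le_sq_mul_sq s A B
  have e : ∑ i ∈ s, (A i + B i) ^ 2 = ∑ i ∈ s, A i ^ 2 + ∑ i ∈ s, B i ^ 2 + 2 * ∑ i ∈ s, A i * B i := by
    rw [mul_sum, ← sum_add_distrib, ← sum_add_distrib]
    exact sum_congr rfl fun i _ => by ring
  have a0 : 0 ≤ ∑ i ∈ s, A i ^ 2 := sum_nonneg fun i _ => sq_nonneg _
  have b0 : 0 ≤ ∑ i ∈ s, B i ^ 2 := sum_nonneg fun i _ => sq_nonneg _
  have p1 : u * (u + 2) * (w * (w + 2)) ≤ (u * w + u + w) ^ 2 := by nlinarith [sq_nonneg (u - w)]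
  have p2 : 4 * ((u + 1) * (w + 1)) ≤ (u + w + 2) ^ 2 := by nlinarith [sq_nonneg (u - w)]
  have p3 := mul_le_mul p1 p2 (by positivity) (by positivity)
  have p4 := mul_le_mul h1 h2 (by positivity) (by positivity)
  have p5 : (12 * ∑ i ∈ s, A i * B i) ^ 2 ≤ (K * ((u * w + u + w) * (u + w + 2))) ^ 2 := by
    have := mul_le_mul_of_nonneg_left p3 (sq_nonneg K)
    nlinarith
  have p6 := (abs_le_of_sq_le_sq' p5 (by positivity)).2
  rw [e]
  nlinarith

open Classical in
theorem main (n m : ℕ) : ∀ (S D : Finset P) (k : ℕ), D ⊆ S → S.card = m + 1 → k + m = n →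
    6 * ∑ M ∈ Lam n S k, ((Ch n S D M).card : ℤ) ^ 2
      ≤ m.factorial * (D.card * (D.card + 1) * (D.card + 2)) := by
  induction m with
  | zero =>
    intro S D k hD hS hk
    obtain ⟨z, rfl⟩ := card_eq_one.1 hS
    have hL : (Lam n {z} k).card ≤ 1 := by
      refine card_le_one.2 fun M hM M' hM' => ?_
      rw [mem_Lam] at hM hM'
      funext x
      by_cases hx : x ∈ ({z} : Finset P)
      · have := hM.1 x
        have := hM'.1 x
        have := hM.2.2.1 x hx
        have := hM'.2.2.1 x hx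
        omega
      · rw [hM.2.2.2 x hx, hM'.2.2.2 x hx]
    rcases subset_singleton_iff.1 hD with rfl | rfl
    · have : ∀ M, Ch n {z} ∅ M = ∅ := by
        intro M
        refine eq_empty_of_forall_notMem fun C hC => ?_
        obtain ⟨h1, _, _, t, ht, _⟩ := mem_Ch.1 hC
        simpa using h1 ht
      simp [this]
    · have : ∀ M, ((Ch n {z} {z} M).card : ℤ) ^ 2 ≤ 1 := by
        intro M
        have : (Ch n {z} {z} M).card ≤ 1 := by
          refine card_le_one.2 fun C hC C' hC' => ?_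
          obtain ⟨h1, _, _, t, ht, _⟩ := mem_Ch.1 hC
          obtain ⟨h2, _, _, t', ht', _⟩ := mem_Ch.1 hC'
          rcases subset_singleton_iff.1 h1 with rfl | rfl
          · simp at ht
          rcases subset_singleton_iff.1 h2 with rfl | rfl
          · simp at ht'
          rfl
        have h0 : (0 : ℤ) ≤ (Ch n {z} {z} M).card := by positivity
        have h1 : ((Ch n {z} {z} M).card : ℤ) ≤ 1 := by exact_mod_cast this
        nlinarith
      have h2 := sum_le_card_nsmul (Lam n {z} k) _ 1 (fun M _ => this M)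
      have h3 : ((Lam n {z} k).card : ℤ) ≤ 1 := by exact_mod_cast hL
      simp only [nsmul_eq_mul, mul_one] at h2
      simp only [Nat.factorial_zero, card_singleton]
      push_cast
      linarith
  | succ m ih =>
    intro S D k hD hS hk
    have h1 := Lam_rec (n := n) (k := k) (S := S) (by omega) (by omega)
      (fun M => ((Ch n S D M).card : ℤ) ^ 2)
      (fun z M => (((Ch n (S.erase z) (D.filter (fun y => ¬ y ≤ z)) M).card : ℤ) +
        ((if z ∈ D then (Ch n (S.erase z) (D.filter (z < ·)) M).card else 0 : ℕ) : ℤ)) ^ 2)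
      (fun M => sq_nonneg _) (fun z M => sq_nonneg _)
      (fun M hM z hz e => by
        have := Ch_rec hD hM hz e (by omega)
        refine pow_le_pow_left₀ (by positivity) ?_ 2
        exact_mod_cast this)
    have sub1 : ∀ z, D.filter (fun y => ¬ y ≤ z) ⊆ S.erase z := fun z y hy =>
      mem_erase.2 ⟨fun h => (mem_filter.1 hy).2 h.le, hD (mem_filter.1 hy).1⟩
    have sub2 : ∀ z, D.filter (z < ·) ⊆ S.erase z := fun z y hy =>
      mem_erase.2 ⟨(mem_filter.1 hy).2.ne', hD (mem_filter.1 hy).1⟩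
    have cs' : ∀ z ∈ S, (S.erase z).card = m + 1 := fun z hz => by
      rw [card_erase_of_mem hz]; omega
    rw [← sum_sdiff hD] at h1
    have hst := star D
    have K0 : (0 : ℤ) ≤ m.factorial := by positivity
    have h2 := sum_le_sum (s := D) fun z hz => cs (Lam n (S.erase z) (k + 1))
      (fun M => ((Ch n (S.erase z) (D.filter (fun y => ¬ y ≤ z)) M).card : ℤ))
      (fun M => ((if z ∈ D then (Ch n (S.erase z) (D.filter (z < ·)) M).card else 0 : ℕ) : ℤ))
      m.factorial (D.filter (z < ·)).card (D.filter (fun y => ¬ y ≤ z)).card K0 (by positivity)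
      (by positivity) (ih _ _ _ (sub1 z) (cs' z (hD hz)) (by omega))
      (by simp only [if_pos hz]; exact ih _ _ _ (sub2 z) (cs' z (hD hz)) (by omega))
    have h3 := sum_le_card_nsmul (S \ D) (fun z => 6 * ∑ M ∈ Lam n (S.erase z) (k + 1),
      (((Ch n (S.erase z) (D.filter (fun y => ¬ y ≤ z)) M).card : ℤ) +
        ((if z ∈ D then (Ch n (S.erase z) (D.filter (z < ·)) M).card else 0 : ℕ) : ℤ)) ^ 2)
      (m.factorial * (D.card * (D.card + 1) * (D.card + 2))) (fun z hz => by
        obtain ⟨a, b⟩ := mem_sdiff.1 hz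
        simp only [if_neg b, Nat.cast_zero, add_zero]
        refine (ih _ _ _ (sub1 z) (cs' z a) (by omega)).trans (mul_le_mul_of_nonneg_left ?_ K0)
        have : ((D.filter (fun y => ¬ y ≤ z)).card : ℤ) ≤ D.card := by
          exact_mod_cast card_filter_le _ _
        gcongr)
    rw [← mul_sum, ← mul_sum] at h2
    rw [← mul_sum, nsmul_eq_mul] at h3
    have h4 : ((S \ D).card : ℤ) = m + 2 - D.card := by
      have := card_sdiff_add_card_eq_card hD
      have : ((S \ D).card : ℤ) + D.card = m + 1 + 1 := by exact_mod_cast this.trans hS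
      linarith
    rw [h4] at h3
    have h5 := mul_le_mul_of_nonneg_left hst K0
    rw [Nat.factorial_succ]
    push_cast at h1 h2 h3 ⊢
    nlinarith

end Pool.Agent.H74.Pm
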