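import Mathlib

set_option autoImplicit false

namespace Pool.Agent.H74.Prufer
open Polynomial

variable {k F : Type} [Field k] [Field F] [Algebra k F]

theorem horiz (δ : F → F) (h1 : δ 1 = 0) (hc : ∀ z, δ z = 0 → ∃ c : k, algebraMap k F c = z)
    {E : Type} [AddCommGroup E] [Module F E] [Module k E] [IsScalarTower k F E] (N : E →+ E)
    (hN : ∀ (μ : F) (e : E), N (μ • e) = δ μ • e + μ • N e) {ι : Type} (v : ι → E)
    (hv : ∀ i, N (v i) = 0) (hi : LinearIndependent k v) : LinearIndependent F v := by
  classical
  rw [linearIndependent_iff'] at hi ⊢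
  intro s
  induction s using Finset.induction_on with
  | empty => intro g _ i hi; simp at hi
  | insert a s ha ih =>
    intro g hg
    have hga : g a = 0 := by
      by_contra hne
      have h2 : ∑ i ∈ insert a s, (g i / g a) • v i = 0 := by
        have := congrArg (fun e => (g a)⁻¹ • e) hg
        simpa only [Finset.smul_sum, smul_smul, smul_zero, div_eq_inv_mul] using this
      have h3 := congrArg N h2
      rw [map_sum, map_zero] at h3
      simp only [hN, hv, smul_zero, add_zero] at h3
      rw [Finset.sum_insert ha, div_self hne, h1, zero_smul, zero_add] at h3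
      have h4 : ∀ i, ∃ c : k, i ∈ insert a s → algebraMap k F c = g i / g a := fun i => by
        by_cases hia : i = a
        · exact ⟨1, fun _ => by rw [hia, div_self hne, map_one]⟩
        · by_cases his : i ∈ s
          · obtain ⟨c, hc⟩ := hc _ (ih _ h3 i his)
            exact ⟨c, fun _ => hc⟩
          · exact ⟨0, fun h => by simp [hia, his] at h⟩
      choose c hc using h4
      have h5 := hi (insert a s) c (by
        rw [← h2]
        exact Finset.sum_congr rfl fun i hi => by rw [← hc i hi, algebraMap_smul]) a (by simp)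
      have h6 := hc a (by simp)
      rw [h5, map_zero, div_self hne] at h6
      exact zero_ne_one h6
    rw [Finset.sum_insert ha, hga, zero_smul, zero_add] at hg
    intro i hi
    rcases Finset.mem_insert.1 hi with rfl | hi
    · exact hga
    · exact ih g hg i hi

theorem ode (δ : Module.End k F) (hl : ∀ a b, δ (a * b) = δ a * b + a * δ b)
    (hc : ∀ z, δ z = 0 → ∃ c : k, algebraMap k F c = z) (q : k[X]) (hq : q.Monic)
    (V : Submodule k F) [FiniteDimensional k V] (hV : ∀ y ∈ V, aeval δ q y = 0) :
    Module.finrank k V ≤ q.natDegree := by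
  have h1 : δ 1 = 0 := by simpa using hl 1 1
  let b := Module.finBasis k V
  let Ψ : F →ₗ[k] (k[X] →ₗ[k] F) :=
    { toFun := fun y => (LinearMap.applyₗ y).comp (aeval δ).toLinearMap
      map_add' := fun y z => by ext p; simp
      map_smul' := fun c y => by ext p; simp }
  have hΨ : ∀ y p, Ψ y p = aeval δ p y := fun _ _ => rfl
  let N : (k[X] →ₗ[k] F) →+ (k[X] →ₗ[k] F) :=
    { toFun := fun G => δ.comp G - G.comp (LinearMap.mulLeft k X)
      map_zero' := by simp
      map_add' := fun G H => by rw [LinearMap.comp_add, LinearMap.add_comp]; abel }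
  have hN : ∀ G p, N G p = δ (G p) - G (X * p) := fun _ _ => rfl
  have hind : LinearIndependent F fun i => Ψ (b i) := by
    refine horiz (k := k) δ h1 hc N (fun μ G => ?_) _ (fun i => ?_) ?_
    · refine LinearMap.ext fun p => ?_
      simp only [hN, LinearMap.smul_apply, LinearMap.add_apply, smul_eq_mul, hl]
      ring
    · refine LinearMap.ext fun p => ?_
      simp [hN, hΨ]
    · refine (b.linearIndependent.map' V.subtype V.ker_subtype).map' Ψ ?_
      rw [LinearMap.ker_eq_bot']
      intro y hy
      simpa [hΨ] using LinearMap.congr_fun hy 1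
  let ev : (k[X] →ₗ[k] F) →ₗ[F] (Fin q.natDegree → F) :=
    { toFun := fun G i => G (X ^ (i : ℕ))
      map_add' := fun _ _ => rfl
      map_smul' := fun _ _ => rfl }
  have hind2 : LinearIndependent F fun i => ev (Ψ (b i)) := by
    rw [linearIndependent_iff'] at hind ⊢
    intro s g hg
    refine hind s g (LinearMap.ext fun p => ?_)
    set G := ∑ i ∈ s, g i • Ψ (b i) with hG
    have h2 : ev G = 0 := by rw [hG, map_sum]; simpa only [map_smul] using hg
    have h3 : ∀ r, G (q * r) = 0 := fun r => by
      rw [hG, LinearMap.sum_apply]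
      refine Finset.sum_eq_zero fun i _ => ?_
      rw [LinearMap.smul_apply, hΨ, mul_comm, map_mul, Module.End.mul_apply, hV _ (b i).2, map_zero,
        smul_zero]
    rw [← modByMonic_add_div p q, map_add, h3, add_zero, LinearMap.zero_apply]
    by_cases hq1 : q = 1
    · simp [hq1]
    · rw [as_sum_range' _ _ (natDegree_modByMonic_lt p hq hq1), map_sum]
      refine Finset.sum_eq_zero fun i hi => ?_
      rw [← smul_X_eq_monomial, map_smul]
      have := congrFun h2 ⟨i, Finset.mem_range.1 hi⟩
      change G (X ^ i) = 0 at this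
      rw [this, smul_zero]
  simpa using hind2.fintype_card_le_finrank

theorem cyc (δ : Module.End k F) (hl : ∀ a b, δ (a * b) = δ a * b + a * δ b)
    (hc : ∀ z, δ z = 0 → ∃ c : k, algebraMap k F c = z)
    (V : Submodule k F) [FiniteDimensional k V] (hV : ∀ y ∈ V, δ y ∈ V) :
    ∃ y ∈ V, ∀ M : Submodule k F, y ∈ M → (∀ z ∈ M, δ z ∈ M) → V ≤ M := by
  let d : Module.End k V := δ.restrict hV
  have hd : ∀ (p : k[X]) (z : V), ((aeval d p z : V) : F) = aeval δ p z := by
    intro p
    induction p using Polynomial.induction_on with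
    | C a => intro z; simp
    | add p q hp hq => intro z; simp [hp, hq]
    | monomial n a h =>
      intro z
      rw [pow_succ, ← mul_assoc, map_mul, map_mul _ _ X, Module.End.mul_apply,
        Module.End.mul_apply, h, aeval_X, aeval_X]
      rfl
  obtain ⟨y, hy⟩ := Module.exists_ker_toSpanSingleton_eq_annihilator k[X] (M := Module.AEval' d)
  let y' : V := (Module.AEval'.of d).symm y
  refine ⟨y', y'.2, fun M hM hs => ?_⟩
  have hmem : ∀ i : ℕ, (δ ^ i) (y' : F) ∈ M ⊓ V := fun i => by
    induction i with
    | zero => exact ⟨hM, y'.2⟩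
    | succ i ih => rw [pow_succ', Module.End.mul_apply]; exact ⟨hs _ ih.1, hV _ ih.2⟩
  have : FiniteDimensional k ↥(M ⊓ V) := Submodule.finiteDimensional_of_le inf_le_right
  set e := Module.finrank k ↥(M ⊓ V)
  have hdep : ¬ LinearIndependent k fun i : Fin (e + 1) => (⟨_, hmem i⟩ : ↥(M ⊓ V)) := fun h => by
    have := h.fintype_card_le_finrank
    simp at this
    omega
  obtain ⟨g, hg, i0, hi0⟩ := Fintype.not_linearIndependent_iff.1 hdep
  let q0 : k[X] := ∑ i : Fin (e + 1), monomial i (g i)
  have hq0 : q0 ≠ 0 := fun h => hi0 (by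
    have := congrArg (fun p => p.coeff i0) h
    simpa [q0, coeff_monomial, Fin.val_inj] using this)
  have hq1 : q0.natDegree ≤ e :=
    natDegree_sum_le_of_forall_le _ _ fun i _ => (natDegree_monomial_le _).trans (by omega)
  have hq2 : aeval δ q0 (y' : F) = 0 := by
    have := congrArg Subtype.val hg
    simpa [q0, aeval_monomial, LinearMap.sum_apply] using this
  have hq3 : q0 ∈ Module.annihilator k[X] (Module.AEval' d) := by
    rw [← hy, LinearMap.mem_ker, LinearMap.toSpanSingleton_apply]
    apply (Module.AEval'.of d).symm.injective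
    rw [Module.AEval.of_symm_smul, map_zero]
    apply Subtype.ext
    exact (hd q0 y').trans hq2
  have hq4 : ∀ z ∈ V, aeval δ q0 z = 0 := fun z hz => by
    have := Module.mem_annihilator.1 hq3 (Module.AEval'.of d ⟨z, hz⟩)
    rw [← Module.AEval.of_aeval_smul, LinearEquiv.map_eq_zero_iff] at this
    exact (hd q0 ⟨z, hz⟩).symm.trans (congrArg Subtype.val this)
  have h5 := ode δ hl hc (q0 * C q0.leadingCoeff⁻¹) (monic_mul_leadingCoeff_inv hq0) V (fun z hz => by
    rw [mul_comm, map_mul, Module.End.mul_apply, hq4 z hz, map_zero])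
  rw [natDegree_mul_leadingCoeff_inv _ hq0] at h5
  have h6 : M ⊓ V = V := Submodule.eq_of_le_of_finrank_le inf_le_right (h5.trans hq1)
  exact inf_eq_right.1 h6

end Pool.Agent.H74.Prufer
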