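import Mathlib
import Pool.Agent.H74.Prufer1

set_option autoImplicit false

namespace Pool.Agent.H74.Prufer
open Polynomial

abbrev τ := ℕ ⊕ (ℕ × Finset ℕ)
abbrev A := MvPolynomial τ (ZMod 2)
abbrev K := FractionRing A

noncomputable def xx (i : ℕ) : A := MvPolynomial.X (Sum.inl i)
noncomputable def cc (n : ℕ) (J : Finset ℕ) : A := MvPolynomial.X (Sum.inr (n, J))
noncomputable def mon (J : Finset ℕ) : A := ∏ i ∈ J, xx i
noncomputable def gg (n : ℕ) : A := ∑ J ∈ (Finset.range n).powerset, cc n J * mon J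
noncomputable def DA : Derivation (ZMod 2) A A :=
  MvPolynomial.mkDerivation (ZMod 2) (Sum.elim (fun n => gg n * xx n) fun _ => 0)
noncomputable abbrev ι : A →+* K := algebraMap A K

theorem ι_inj : Function.Injective ι := IsFractionRing.injective A K
theorem ι_ne {p : A} (h : p ≠ 0) : ι p ≠ 0 := fun h' => h (ι_inj (h'.trans (map_zero ι).symm))
theorem two_A : (2 : A) = 0 := CharTwo.two_eq_zero
theorem two_K : (2 : K) = 0 := by rw [← map_ofNat ι 2, two_A, map_zero]
theorem D_xx (n : ℕ) : DA (xx n) = gg n * xx n := by simp [DA, xx]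
theorem D_cc (n : ℕ) (J : Finset ℕ) : DA (cc n J) = 0 := by simp [DA, cc]
theorem D_mul (p q : A) : DA (p * q) = DA p * q + p * DA q := by
  rw [Derivation.leibniz]; simp only [smul_eq_mul]; ring
theorem D_sq (p : A) : DA (p ^ 2) = 0 := by
  rw [sq, D_mul]; linear_combination (p * DA p) * two_A
theorem C_mem (T : Subring A) (a : ZMod 2) : MvPolynomial.C a ∈ T := by
  obtain ⟨n, rfl⟩ := ZMod.intCast_surjective a
  rw [map_intCast]; exact intCast_mem T n

noncomputable def R : Subring A :=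
  Subring.closure ((Set.range fun i => xx i ^ 2) ∪ Set.range fun p : ℕ × Finset ℕ => cc p.1 p.2)

theorem xsq_mem (i : ℕ) : xx i ^ 2 ∈ R := Subring.subset_closure (Or.inl ⟨i, rfl⟩)
theorem cc_mem (n : ℕ) (J : Finset ℕ) : cc n J ∈ R := Subring.subset_closure (Or.inr ⟨(n, J), rfl⟩)

theorem sq_mem (p : A) : p ^ 2 ∈ R := by
  induction p using MvPolynomial.induction_on with
  | C a => rw [← map_pow]; exact C_mem _ _
  | add p q hp hq => rw [CharTwo.add_sq]; exact R.add_mem hp hq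
  | mul_X p v hp =>
    rw [mul_pow]
    refine R.mul_mem hp ?_
    rcases v with i | ⟨n, J⟩
    · exact xsq_mem i
    · exact R.pow_mem (cc_mem n J) 2

theorem D_R {r : A} (hr : r ∈ R) : DA r = 0 := by
  induction hr using Subring.closure_induction with
  | mem x hx =>
    rcases hx with ⟨i, rfl⟩ | ⟨p, rfl⟩
    · exact D_sq _
    · exact D_cc _ _
  | zero => simp
  | one => simp
  | add a b _ _ ha hb => rw [map_add, ha, hb, add_zero]
  | neg a _ ha => rw [map_neg, ha, neg_zero]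
  | mul a b _ _ ha hb => rw [D_mul, ha, hb]; simp

noncomputable def kk : Subfield K := Subfield.closure (ι '' R)

theorem ι_kk {r : A} (hr : r ∈ R) : ι r ∈ kk := Subfield.subset_closure ⟨r, hr, rfl⟩

theorem of_kk {z : K} (hz : z ∈ kk) : ∃ r ∈ R, ∃ s ∈ R, s ≠ 0 ∧ z = ι r / ι s := by
  obtain ⟨a, ha, b, hb, rfl⟩ := Subfield.mem_closure_iff.1 hz
  rw [← Subring.coe_map, Subring.closure_eq] at ha hb
  obtain ⟨r, hr, rfl⟩ := ha
  obtain ⟨s, hs, rfl⟩ := hb
  by_cases h : s = 0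
  · exact ⟨0, R.zero_mem, 1, R.one_mem, one_ne_zero, by simp [h]⟩
  · exact ⟨r, hr, s, hs, h, rfl⟩

theorem frac (z : K) : ∃ p q : A, q ≠ 0 ∧ z = ι p / ι q := by
  obtain ⟨p, q, hq, rfl⟩ := IsFractionRing.div_surjective A z
  exact ⟨p, q, nonZeroDivisors.ne_zero hq, rfl⟩

theorem sq_kk (z : K) : z ^ 2 ∈ kk := by
  obtain ⟨p, q, _, rfl⟩ := frac z
  rw [div_pow, ← map_pow, ← map_pow]
  exact kk.div_mem (ι_kk (sq_mem p)) (ι_kk (sq_mem q))

noncomputable def DK (z : K) : K :=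
  ι (DA ((frac z).choose * (frac z).choose_spec.choose)) / ι (frac z).choose_spec.choose ^ 2

theorem DK_div (p q : A) (hq : q ≠ 0) : DK (ι p / ι q) = ι (DA (p * q)) / ι q ^ 2 := by
  obtain ⟨h1, h2⟩ := (frac (ι p / ι q)).choose_spec.choose_spec
  unfold DK
  generalize (frac (ι p / ι q)).choose_spec.choose = q' at *
  generalize (frac (ι p / ι q)).choose = p' at *
  rw [div_eq_div_iff (ι_ne hq) (ι_ne h1), ← map_mul, ← map_mul] at h2
  have h3 := ι_inj h2
  rw [div_eq_div_iff (pow_ne_zero 2 (ι_ne h1)) (pow_ne_zero 2 (ι_ne hq)), ← map_pow, ← map_pow,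
    ← map_mul, ← map_mul]
  congr 1
  have h4 : DA (p' * q' * q ^ 2) = DA (p * q * q' ^ 2) := by
    congr 1; linear_combination -(q * q') * h3
  rw [D_mul _ (q ^ 2), D_mul _ (q' ^ 2), D_sq, D_sq] at h4
  simpa using h4

theorem DK_ι (p : A) : DK (ι p) = ι (DA p) := by simpa using DK_div p 1 one_ne_zero

theorem DK_add (a b : K) : DK (a + b) = DK a + DK b := by
  obtain ⟨p, q, hq, rfl⟩ := frac a
  obtain ⟨p', q', hq', rfl⟩ := frac b
  have h1 := ι_ne hq
  have h2 := ι_ne hq'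
  rw [div_add_div _ _ h1 h2, ← map_mul, ← map_mul, ← map_mul, ← map_add,
    DK_div _ _ (mul_ne_zero hq hq'), DK_div _ _ hq, DK_div _ _ hq']
  have : (p * q' + q * p') * (q * q') = p * q * q' ^ 2 + p' * q' * q ^ 2 := by ring
  rw [this, map_add, D_mul _ (q ^ 2), D_mul _ (q' ^ 2), D_sq, D_sq]
  simp only [mul_zero, add_zero, map_add, map_mul, map_pow]
  field_simp

theorem DK_mul (a b : K) : DK (a * b) = DK a * b + a * DK b := by
  obtain ⟨p, q, hq, rfl⟩ := frac a
  obtain ⟨p', q', hq', rfl⟩ := frac b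
  have h1 := ι_ne hq
  have h2 := ι_ne hq'
  rw [div_mul_div_comm, ← map_mul, ← map_mul,
    DK_div _ _ (mul_ne_zero hq hq'), DK_div _ _ hq, DK_div _ _ hq']
  have : p * p' * (q * q') = (p * q) * (p' * q') := by ring
  rw [this, D_mul (p * q)]
  simp only [map_add, map_mul]
  field_simp

theorem DK_kk {z : K} (hz : z ∈ kk) : DK z = 0 := by
  obtain ⟨r, hr, s, hs, h, rfl⟩ := of_kk hz
  rw [DK_div _ _ h, D_R (R.mul_mem hr hs)]; simp

noncomputable def DL : Module.End kk K where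
  toFun := DK
  map_add' := DK_add
  map_smul' := fun c z => by
    change DK (c.1 * z) = c.1 * DK z
    rw [DK_mul, DK_kk c.2]; simp

theorem DL_mul (a b : K) : DL (a * b) = DL a * b + a * DL b := DK_mul a b
theorem DL_ι (p : A) : DL (ι p) = ι (DA p) := DK_ι p
theorem DL_kk {z : K} (hz : z ∈ kk) : DL z = 0 := DK_kk hz
theorem DL_kmul {z : K} (hz : z ∈ kk) (a : K) : DL (z * a) = z * DL a := by
  rw [DL_mul, DL_kk hz]; simp
theorem kmul_mem {S : Submodule kk K} {z a : K} (hz : z ∈ kk) (ha : a ∈ S) : z * a ∈ S :=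
  S.smul_mem (⟨z, hz⟩ : kk) ha

noncomputable def An (n : ℕ) : Subring A := Subring.closure ((R : Set A) ∪ xx '' Set.Iio n)
noncomputable def Kn (n : ℕ) : Subalgebra kk K := Algebra.adjoin kk ((fun i => ι (xx i)) '' Set.Iio n)

theorem R_An {n : ℕ} {r : A} (h : r ∈ R) : r ∈ An n := Subring.subset_closure (Or.inl h)
theorem x_An {n i : ℕ} (h : i < n) : xx i ∈ An n := Subring.subset_closure (Or.inr ⟨i, h, rfl⟩)
theorem x_Kn {n i : ℕ} (h : i < n) : ι (xx i) ∈ Kn n := Algebra.subset_adjoin ⟨i, h, rfl⟩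
theorem kk_Kn {n : ℕ} {z : K} (h : z ∈ kk) : z ∈ Kn n := (Kn n).algebraMap_mem ⟨z, h⟩
theorem Kn_mono {m n : ℕ} (h : m ≤ n) : Kn m ≤ Kn n :=
  Algebra.adjoin_mono (Set.image_mono (Set.Iio_subset_Iio h))

theorem g_An {n i : ℕ} (h : i ≤ n) : gg i ∈ An n :=
  Subring.sum_mem _ fun _ hJ => Subring.mul_mem _ (R_An (cc_mem _ _))
    (Subring.prod_mem _ fun _ hj => x_An
      (lt_of_lt_of_le (Finset.mem_range.1 (Finset.mem_powerset.1 hJ hj)) h))

theorem ι_An {n : ℕ} {p : A} (hp : p ∈ An n) : ι p ∈ Kn n := by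
  have : An n ≤ (Kn n).toSubring.comap ι := by
    rw [An, Subring.closure_le]
    rintro _ (h | ⟨i, hi, rfl⟩)
    · exact kk_Kn (ι_kk h)
    · exact x_Kn hi
  exact this hp

theorem D_An {n : ℕ} {p : A} (hp : p ∈ An n) : DA p ∈ An n := by
  induction hp using Subring.closure_induction with
  | mem x hx =>
    rcases hx with h | ⟨i, hi, rfl⟩
    · rw [D_R h]; exact zero_mem _
    · rw [D_xx]; exact mul_mem (g_An (le_of_lt hi)) (x_An hi)
  | zero => rw [map_zero]; exact zero_mem _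
  | one => rw [Derivation.map_one_eq_zero]; exact zero_mem _
  | add a b _ _ ha hb => rw [map_add]; exact add_mem ha hb
  | neg a _ ha => rw [map_neg]; exact neg_mem ha
  | mul a b ha' hb' ha hb => rw [D_mul]; exact add_mem (mul_mem ha hb') (mul_mem ha' hb)

theorem of_Kn {n : ℕ} {h : K} (hh : h ∈ Kn n) : ∃ r ∈ R, r ≠ 0 ∧ ∃ a ∈ An n, ι a = ι r * h := by
  induction hh using Algebra.adjoin_induction with
  | mem x hx =>
    obtain ⟨i, hi, rfl⟩ := hx
    exact ⟨1, one_mem _, one_ne_zero, xx i, x_An hi, by simp⟩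
  | algebraMap c =>
    obtain ⟨r, hr, s, hs, h, he⟩ := of_kk c.2
    refine ⟨s, hs, h, r, R_An hr, ?_⟩
    change ι r = ι s * c.1
    rw [he, mul_div_cancel₀ _ (ι_ne h)]
  | add x y _ _ hx hy =>
    obtain ⟨r, hr, h, a, ha, he⟩ := hx
    obtain ⟨r', hr', h', a', ha', he'⟩ := hy
    refine ⟨r * r', mul_mem hr hr', mul_ne_zero h h', r' * a + r * a',
      add_mem (mul_mem (R_An hr') ha) (mul_mem (R_An hr) ha'), ?_⟩
    simp only [map_add, map_mul, he, he']; ring
  | mul x y _ _ hx hy =>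
    obtain ⟨r, hr, h, a, ha, he⟩ := hx
    obtain ⟨r', hr', h', a', ha', he'⟩ := hy
    refine ⟨r * r', mul_mem hr hr', mul_ne_zero h h', a * a', mul_mem ha ha', ?_⟩
    simp only [map_mul, he, he']; ring

theorem D_Kn {n : ℕ} {h : K} (hh : h ∈ Kn n) : DL h ∈ Kn n := by
  obtain ⟨r, hr, h0, a, ha, he⟩ := of_Kn hh
  have : DL h = (ι r)⁻¹ * ι (DA a) := by
    rw [← DL_ι, he, DL_kmul (ι_kk hr), inv_mul_cancel_left₀ (ι_ne h0)]
  rw [this]
  exact mul_mem (kk_Kn (kk.inv_mem (ι_kk hr))) (ι_An (D_An ha))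

theorem inv_mem_of {T : Subalgebra kk K} {z : K} (hz : z ∈ T) : z⁻¹ ∈ T := by
  by_cases h : z = 0
  · rw [h, inv_zero]; exact zero_mem _
  · have : z⁻¹ = (z ^ 2)⁻¹ * z := by field_simp
    rw [this]
    exact mul_mem (T.algebraMap_mem ⟨_, kk.inv_mem (sq_kk z)⟩) hz

theorem ex_Kn (z : K) : ∃ n, z ∈ Kn n := by
  have h : ∀ p : A, ∃ n, ι p ∈ Kn n := fun p => by
    induction p using MvPolynomial.induction_on with
    | C a => exact ⟨0, kk_Kn (ι_kk (C_mem _ _))⟩
    | add p q hp hq =>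
      obtain ⟨m, hm⟩ := hp
      obtain ⟨n, hn⟩ := hq
      exact ⟨max m n, by
        rw [map_add]; exact add_mem (Kn_mono (le_max_left _ _) hm) (Kn_mono (le_max_right _ _) hn)⟩
    | mul_X p v hp =>
      obtain ⟨m, hm⟩ := hp
      rw [map_mul]
      rcases v with i | ⟨n, J⟩
      · exact ⟨max m (i + 1), mul_mem (Kn_mono (le_max_left _ _) hm)
          (x_Kn (lt_of_lt_of_le i.lt_succ_self (le_max_right _ _)))⟩
      · exact ⟨m, mul_mem hm (kk_Kn (ι_kk (cc_mem n J)))⟩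
  obtain ⟨p, q, _, rfl⟩ := frac z
  obtain ⟨m, hm⟩ := h p
  obtain ⟨n, hn⟩ := h q
  exact ⟨max m n, by
    rw [div_eq_mul_inv]
    exact mul_mem (Kn_mono (le_max_left _ _) hm) (inv_mem_of (Kn_mono (le_max_right _ _) hn))⟩

instance Kn_fin (n : ℕ) : FiniteDimensional kk (Kn n) := by
  refine Algebra.finite_adjoin_of_finite_of_isIntegral ((Set.finite_Iio n).image _) ?_
  rintro _ ⟨i, _, rfl⟩
  exact IsIntegral.of_pow two_pos (isIntegral_algebraMap (x := (⟨_, sq_kk (ι (xx i))⟩ : kk)))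

theorem split {n : ℕ} {h : K} (hh : h ∈ Kn (n + 1)) :
    ∃ a ∈ Kn n, ∃ u ∈ Kn n, h = a + u * ι (xx n) := by
  induction hh using Algebra.adjoin_induction with
  | mem x hx =>
    obtain ⟨i, hi, rfl⟩ := hx
    rcases Nat.lt_succ_iff_lt_or_eq.1 hi with h | h
    · exact ⟨_, x_Kn h, 0, zero_mem _, by simp⟩
    · exact ⟨0, zero_mem _, 1, one_mem _, by simp [h]⟩
  | algebraMap c => exact ⟨_, (Kn n).algebraMap_mem c, 0, zero_mem _, by simp⟩
  | add x y _ _ hx hy =>
    obtain ⟨a, ha, u, hu, rfl⟩ := hx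
    obtain ⟨a', ha', u', hu', rfl⟩ := hy
    exact ⟨_, add_mem ha ha', _, add_mem hu hu', by ring⟩
  | mul x y _ _ hx hy =>
    obtain ⟨a, ha, u, hu, rfl⟩ := hx
    obtain ⟨a', ha', u', hu', rfl⟩ := hy
    exact ⟨_, add_mem (mul_mem ha ha') (mul_mem (mul_mem hu hu') (kk_Kn (sq_kk (ι (xx n))))), _,
      add_mem (mul_mem ha hu') (mul_mem hu ha'), by ring⟩

theorem expand (n : ℕ) {b : K} (hb : b ∈ Kn n) : ∃ r : Finset ℕ → K, (∀ J, r J ∈ kk) ∧
    ∑ J ∈ (Finset.range n).powerset, r J * ι (mon J) = b := by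
  induction n generalizing b with
  | zero =>
    have : b ∈ (⊥ : Subalgebra kk K) := by simpa [Kn] using hb
    obtain ⟨c, rfl⟩ := Algebra.mem_bot.1 this
    exact ⟨fun _ => c.1, fun _ => c.2, by simp [mon]; rfl⟩
  | succ n ih =>
    obtain ⟨a, ha, u, hu, rfl⟩ := split hb
    obtain ⟨r, hr, rfl⟩ := ih ha
    obtain ⟨r', hr', rfl⟩ := ih hu
    refine ⟨fun J => if n ∈ J then r' (J.erase n) else r J, fun J => ?_, ?_⟩
    · dsimp only; split_ifs
      exacts [hr' _, hr _]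
    · rw [Finset.range_add_one, Finset.sum_powerset_insert (by simp), Finset.sum_mul]
      congr 1
      · refine Finset.sum_congr rfl fun J hJ => ?_
        have : n ∉ J := fun h => by simpa using Finset.mem_powerset.1 hJ h
        beta_reduce
        rw [if_neg this]
      · refine Finset.sum_congr rfl fun J hJ => ?_
        have : n ∉ J := fun h => by simpa using Finset.mem_powerset.1 hJ h
        beta_reduce
        rw [if_pos (Finset.mem_insert_self _ _), Finset.erase_insert this, mon,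
          Finset.prod_insert this, map_mul, mon]
        ring

end Pool.Agent.H74.Prufer
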