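import Mathlib
import Pool.Agent.H74.Prufer2

set_option autoImplicit false

namespace Pool.Agent.H74.Prufer
open Polynomial

noncomputable def Φ (n : ℕ) (r : Finset ℕ → K) : A →+* K[X] :=
  MvPolynomial.eval₂Hom ((C.comp ι).comp MvPolynomial.C)
    (Sum.elim (fun i => C (ι (xx i))) fun p => C (ι (cc p.1 p.2)) + if p.1 = n then X * C (r p.2) else 0)

variable {n : ℕ} {r : Finset ℕ → K}

theorem Φ_x (i : ℕ) : Φ n r (xx i) = C (ι (xx i)) := by simp [Φ, xx]
theorem Φ_c (m : ℕ) (J : Finset ℕ) :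
    Φ n r (cc m J) = C (ι (cc m J)) + if m = n then X * C (r J) else 0 := by simp [Φ, cc]

theorem Φ_eval (p : A) : (Φ n r p).coeff 0 = ι p := by
  have : (constantCoeff : K[X] →+* K).comp (Φ n r) = ι := by
    refine MvPolynomial.ringHom_ext (fun a => by simp [Φ]) ?_
    rintro (i | ⟨m, J⟩)
    · change constantCoeff (Φ n r (xx i)) = ι (xx i)
      rw [Φ_x]; simp
    · change constantCoeff (Φ n r (cc m J)) = ι (cc m J)
      rw [Φ_c]
      split_ifs <;> simp
  exact RingHom.congr_fun this p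

theorem Φ_ne {p : A} (h : p ≠ 0) : Φ n r p ≠ 0 := fun h' => ι_ne h (by
  rw [← Φ_eval (n := n) (r := r), h', coeff_zero])

noncomputable def R0 (n : ℕ) : Subring A :=
  Subring.closure ((Set.range fun i => xx i ^ 2) ∪ {p | ∃ m J, m ≠ n ∧ p = cc m J})
noncomputable def B0 (n : ℕ) : Subalgebra (R0 n) A := Algebra.adjoin (R0 n) (xx '' Set.Iio n)

theorem R0_R {p : A} (h : p ∈ R0 n) : p ∈ R := by
  refine Subring.closure_mono ?_ h
  rintro _ (h | ⟨m, J, _, rfl⟩)
  · exact Or.inl h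
  · exact Or.inr ⟨(m, J), rfl⟩

theorem Φ_R0 {p : A} (h : p ∈ R0 n) : Φ n r p = C (ι p) := by
  have : R0 n ≤ RingHom.eqLocus (Φ n r) (C.comp ι) := by
    rw [R0, Subring.closure_le]
    rintro _ (⟨i, rfl⟩ | ⟨m, J, h, rfl⟩)
    · change Φ n r _ = C (ι _)
      simp [Φ_x]
    · change Φ n r _ = C (ι _)
      simp [Φ_c, h]
  exact this h

theorem B0_prop {p : A} (h : p ∈ B0 n) : Φ n r p = C (ι p) ∧ p ∈ An n := by
  induction h using Algebra.adjoin_induction with
  | mem x hx => obtain ⟨i, hi, rfl⟩ := hx; exact ⟨Φ_x i, x_An hi⟩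
  | algebraMap c => exact ⟨Φ_R0 c.2, R_An (R0_R c.2)⟩
  | add x y _ _ hx hy => exact ⟨by simp [hx.1, hy.1], add_mem hx.2 hy.2⟩
  | mul x y _ _ hx hy => exact ⟨by simp [hx.1, hy.1], mul_mem hx.2 hy.2⟩

theorem x_B0 {i : ℕ} (h : i < n) : xx i ∈ B0 n := Algebra.subset_adjoin ⟨i, h, rfl⟩
theorem c_B0 {m : ℕ} (h : m ≠ n) (J : Finset ℕ) : cc m J ∈ B0 n :=
  (B0 n).algebraMap_mem ⟨_, Subring.subset_closure (Or.inr ⟨m, J, h, rfl⟩)⟩
theorem g_B0 {i : ℕ} (h : i < n) : gg i ∈ B0 n :=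
  sum_mem fun _ hJ => mul_mem (c_B0 h.ne _)
    (prod_mem fun _ hj => x_B0 (lt_trans (Finset.mem_range.1 (Finset.mem_powerset.1 hJ hj)) h))

theorem D_B0 {p : A} (h : p ∈ B0 n) : DA p ∈ B0 n := by
  induction h using Algebra.adjoin_induction with
  | mem x hx => obtain ⟨i, hi, rfl⟩ := hx; rw [D_xx]; exact mul_mem (g_B0 hi) (x_B0 hi)
  | algebraMap c => exact (D_R (R0_R c.2)).symm ▸ zero_mem _
  | add x y _ _ hx hy => rw [map_add]; exact add_mem hx hy
  | mul a b ha' hb' ha hb => rw [D_mul]; exact add_mem (mul_mem ha hb') (mul_mem ha' hb)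

theorem ex_B0 (f : A) : ∃ m, ∀ n, m ≤ n → f ∈ B0 n := by
  induction f using MvPolynomial.induction_on with
  | C a => exact ⟨0, fun n _ => C_mem (B0 n).toSubring a⟩
  | add p q hp hq =>
    obtain ⟨m, hm⟩ := hp
    obtain ⟨m', hm'⟩ := hq
    exact ⟨max m m', fun n h => add_mem (hm n (le_of_max_le_left h)) (hm' n (le_of_max_le_right h))⟩
  | mul_X p v hp =>
    obtain ⟨m, hm⟩ := hp
    rcases v with i | ⟨l, J⟩
    · exact ⟨max m (i + 1), fun n h => mul_mem (hm n (le_of_max_le_left h))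
        (x_B0 (le_of_max_le_right h))⟩
    · exact ⟨max m (l + 1), fun n h => mul_mem (hm n (le_of_max_le_left h))
        (c_B0 (Nat.ne_of_lt (le_of_max_le_right h)) J)⟩

theorem Φ_g : Φ n r (gg n) =
    C (ι (gg n)) + X * C (∑ J ∈ (Finset.range n).powerset, r J * ι (mon J)) := by
  have h : ∀ J, Φ n r (mon J) = C (ι (mon J)) := fun J => by simp [mon, Φ_x]
  simp only [gg, map_sum, map_mul, Φ_c, h, if_true, Finset.mul_sum, ← Finset.sum_add_distrib]
  exact Finset.sum_congr rfl fun J _ => by ring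

def coefIn (T : Subring K) : Subring K[X] where
  carrier := {P | ∀ j, P.coeff j ∈ T}
  mul_mem' := fun ha hb j => by rw [coeff_mul]; exact sum_mem fun _ _ => mul_mem (ha _) (hb _)
  one_mem' := fun j => by rw [coeff_one]; split_ifs; exacts [one_mem _, zero_mem _]
  add_mem' := fun ha hb j => by rw [coeff_add]; exact add_mem (ha _) (hb _)
  zero_mem' := fun j => by rw [coeff_zero]; exact zero_mem _
  neg_mem' := fun ha j => by rw [coeff_neg]; exact neg_mem (ha _)

theorem C_coefIn {T : Subring K} {z : K} (h : z ∈ T) : C z ∈ coefIn T := fun j => by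
  rw [coeff_C]; split_ifs; exacts [h, zero_mem _]
theorem X_coefIn {T : Subring K} : X ∈ coefIn T := fun j => by
  rw [coeff_X]; split_ifs; exacts [one_mem _, zero_mem _]

theorem Φ_R (hr : ∀ J, r J ∈ kk) {p : A} (h : p ∈ R) (j : ℕ) : (Φ n r p).coeff j ∈ kk := by
  have : R ≤ (coefIn kk.toSubring).comap (Φ n r) := by
    rw [R, Subring.closure_le]
    rintro _ (⟨i, rfl⟩ | ⟨⟨m, J⟩, rfl⟩)
    · change Φ n r _ ∈ coefIn _
      rw [map_pow, Φ_x, ← map_pow]; exact C_coefIn (sq_kk _)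
    · change Φ n r _ ∈ coefIn _
      rw [Φ_c]
      refine add_mem (C_coefIn (ι_kk (cc_mem _ _))) ?_
      split_ifs
      exacts [mul_mem X_coefIn (C_coefIn (hr J)), zero_mem _]
  exact this h j

theorem Φ_An (hr : ∀ J, r J ∈ kk) {p : A} (h : p ∈ An n) (j : ℕ) : (Φ n r p).coeff j ∈ Kn n := by
  have : An n ≤ (coefIn (Kn n).toSubring).comap (Φ n r) := by
    rw [An, Subring.closure_le]
    rintro _ (h | ⟨i, hi, rfl⟩)
    · exact fun j => kk_Kn (Φ_R hr h j)
    · change Φ n r _ ∈ coefIn _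
      rw [Φ_x]; exact C_coefIn (x_Kn hi)
  exact this h j

theorem Φ_D (hr : ∀ J, r J ∈ kk) {p : A} (h : p ∈ An n) (j : ℕ) :
    (Φ n r (DA p)).coeff j = DL ((Φ n r p).coeff j) := by
  induction h using Subring.closure_induction generalizing j with
  | mem x hx =>
    rcases hx with h | ⟨i, hi, rfl⟩
    · rw [D_R h, DL_kk (Φ_R hr h j)]; simp
    · rw [D_xx, (B0_prop (mul_mem (g_B0 hi) (x_B0 hi))).1, Φ_x, coeff_C, coeff_C]
      split_ifs
      · rw [DL_ι, D_xx]
      · simp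
  | zero => simp
  | one => rw [Derivation.map_one_eq_zero, DL_kk (Φ_R hr (one_mem _) j)]; simp
  | add a b _ _ ha hb => simp only [map_add, coeff_add, ha, hb]
  | neg a _ ha => simp only [map_neg, coeff_neg, ha]
  | mul a b _ _ ha hb =>
    simp only [D_mul, map_add, map_mul, coeff_add, coeff_mul, map_sum, DL_mul, ha, hb,
      Finset.sum_add_distrib]

/-- `v` is the coefficient of `Φ w` in degree `j`, and nothing lies above. -/
def Top (n : ℕ) (r : Finset ℕ → K) (w : A) (j : ℕ) (v : K) : Prop :=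
  (Φ n r w).natDegree ≤ j ∧ (Φ n r w).coeff j = v

theorem Top.mul {w w' : A} {j j' : ℕ} {v v' : K} (h : Top n r w j v) (h' : Top n r w' j' v') :
    Top n r (w * w') (j + j') (v * v') :=
  ⟨by rw [map_mul]; exact natDegree_mul_le.trans (add_le_add h.1 h'.1),
    by rw [map_mul, coeff_mul_add_eq_of_natDegree_le h.1 h'.1, h.2, h'.2]⟩

theorem Top.D (hr : ∀ J, r J ∈ kk) {w : A} {j : ℕ} {v : K} (h : Top n r w j v) (hw : w ∈ An n) :
    Top n r (DA w) j (DL v) :=
  ⟨natDegree_le_iff_coeff_eq_zero.2 fun i hi => by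
    rw [Φ_D hr hw, coeff_eq_zero_of_natDegree_lt (h.1.trans_lt hi), map_zero],
    by rw [Φ_D hr hw, h.2]⟩

theorem Top.up {w : A} {j j' : ℕ} {v : K} (h : Top n r w j v) (hj : j < j') : Top n r w j' 0 :=
  ⟨h.1.trans hj.le, coeff_eq_zero_of_natDegree_lt (h.1.trans_lt hj)⟩

theorem Top.add {w w' : A} {j : ℕ} {v v' : K} (h : Top n r w j v) (h' : Top n r w' j v') :
    Top n r (w + w') j (v + v') :=
  ⟨by rw [map_add]; exact natDegree_add_le_of_degree_le h.1 h'.1,
    by rw [map_add, coeff_add, h.2, h'.2]⟩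

theorem top_B0 {f : A} (h : f ∈ B0 n) : Top n r f 0 (ι f) := by
  rw [Top, (B0_prop h).1]; simp

theorem top_g : Top n r (gg n) 1 (∑ J ∈ (Finset.range n).powerset, r J * ι (mon J)) := by
  rw [Top, Φ_g]
  generalize ∑ J ∈ (Finset.range n).powerset, r J * ι (mon J) = b
  exact ⟨by compute_degree, by simp [coeff_C]⟩

theorem top_self {w : A} (h : w ≠ 0) : ∃ j v, v ≠ 0 ∧ Top n r w j v :=
  ⟨_, _, leadingCoeff_ne_zero.2 (Φ_ne (n := n) (r := r) h), le_rfl, rfl⟩

theorem Top.op (hr : ∀ J, r J ∈ kk) {w : A} {j : ℕ} {v : K} (h : Top n r w j v) (hw : w ∈ An n) :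
    Top n r (DA w + gg n * w) (j + 1) ((∑ J ∈ (Finset.range n).powerset, r J * ι (mon J)) * v) := by
  have := ((h.D hr hw).up j.lt_succ_self).add (add_comm 1 j ▸ top_g.mul h)
  rwa [zero_add] at this

theorem top_indep (hr : ∀ J, r J ∈ kk) {I : Type} (w : I → A) (j : I → ℕ) (v : I → K)
    (h : ∀ i, Top n r (w i) (j i) (v i)) (hv : LinearIndependent kk v) :
    LinearIndependent kk fun i => ι (w i) := by
  classical
  rw [linearIndependent_iff'] at hv ⊢
  intro s g hg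
  obtain ⟨d, hd, hd0, hρ⟩ : ∃ d ∈ R, d ≠ 0 ∧ ∀ i ∈ s, ∃ ρ ∈ R, ι ρ = ι d * (g i).1 := by
    clear hg
    induction s using Finset.induction_on with
    | empty => exact ⟨1, one_mem _, one_ne_zero, by simp⟩
    | insert a s _ ih =>
      obtain ⟨d, hd, hd0, hρ⟩ := ih
      obtain ⟨p, hp, q, hq, hq0, he⟩ := of_kk (g a).2
      refine ⟨d * q, mul_mem hd hq, mul_ne_zero hd0 hq0, fun i hi => ?_⟩
      rcases Finset.mem_insert.1 hi with rfl | hi
      · refine ⟨d * p, mul_mem hd hp, ?_⟩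
        rw [he, map_mul, map_mul, mul_assoc, mul_div_cancel₀ _ (ι_ne hq0)]
      · obtain ⟨ρ, h1, h2⟩ := hρ i hi
        exact ⟨q * ρ, mul_mem hq h1, by rw [map_mul, map_mul, h2]; ring⟩
  choose! ρ h1 h2 using hρ
  have h3 : ∑ i ∈ s, ρ i * w i = 0 := ι_inj (by
    rw [map_sum, map_zero, ← mul_zero (ι d), ← hg, Finset.mul_sum]
    exact Finset.sum_congr rfl fun i hi => by
      rw [map_mul, h2 i hi, mul_assoc]; rfl)
  suffices h4 : ∀ i ∈ s, ρ i = 0 by
    intro i hi
    have := h2 i hi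
    rw [h4 i hi, map_zero] at this
    exact Subtype.ext ((mul_eq_zero.1 this.symm).resolve_left (ι_ne hd0))
  by_contra hne
  push Not at hne
  obtain ⟨i0, hi0, hmax⟩ := Finset.exists_max_image (s.filter fun i => ρ i ≠ 0)
    (fun i => (Φ n r (ρ i)).natDegree + j i) (by
      obtain ⟨i, hi, h⟩ := hne
      exact ⟨i, Finset.mem_filter.2 ⟨hi, h⟩⟩)
  set e := (Φ n r (ρ i0)).natDegree + j i0 with he
  have h5 := hv s (fun i => if hi : i ∈ s then ⟨_, Φ_R (n := n) hr (h1 i hi) (e - j i)⟩ else 0) (by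
    have := congrArg (fun p => (Φ n r p).coeff e) h3
    simp only [map_sum, map_zero, coeff_zero, finsetSum_coeff] at this
    rw [← this]
    refine Finset.sum_congr rfl fun i hi => ?_
    rw [dif_pos hi]
    change (Φ n r (ρ i)).coeff (e - j i) * v i = _
    by_cases h0 : ρ i = 0
    · simp [h0]
    · have h6 := hmax i (Finset.mem_filter.2 ⟨hi, h0⟩)
      have h7 : Top n r (ρ i) (e - j i) _ := ⟨by omega, rfl⟩
      have h8 := (h7.mul (h i)).2
      rw [show e - j i + j i = e by omega] at h8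
      exact h8.symm) i0 (Finset.mem_filter.1 hi0).1
  rw [dif_pos (Finset.mem_filter.1 hi0).1] at h5
  have h6 := congrArg Subtype.val h5
  change (Φ n r (ρ i0)).coeff (e - j i0) = 0 at h6
  rw [he, Nat.add_sub_cancel] at h6
  exact leadingCoeff_ne_zero.2 (Φ_ne (Finset.mem_filter.1 hi0).2) h6

end Pool.Agent.H74.Prufer
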