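import Mathlib
import Pool.Agent.H74.Prufer3

set_option autoImplicit false

namespace Pool.Agent.H74.Prufer
open Polynomial

variable {n : ℕ}

noncomputable def adK (f : K) : Module.End kk K := DL ∘ₗ LinearMap.mulLeft kk f
noncomputable def opK (n : ℕ) (f : K) : Module.End kk K := adK f + LinearMap.mulLeft kk (ι (gg n) * f)
noncomputable def PL (E : Module.End kk K) (d : ℕ) (c : ℕ → kk) : Module.End kk K :=
  E ^ d + ∑ i ∈ Finset.range d, c i • E ^ i

theorem adK_ap (f h : K) : adK f h = DL (f * h) := rfl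
theorem opK_ap (f h : K) : opK n f h = DL (f * h) + ι (gg n) * f * h := rfl
theorem PL_ap (E : Module.End kk K) (d : ℕ) (c : ℕ → kk) (h : K) :
    PL E d c h = (E ^ d) h + ∑ i ∈ Finset.range d, (c i).1 * (E ^ i) h := by
  simp only [PL, LinearMap.add_apply, LinearMap.sum_apply, LinearMap.smul_apply]; rfl

theorem adK_x (f u : K) : adK f (u * ι (xx n)) = opK n f u * ι (xx n) := by
  rw [adK_ap, opK_ap, ← mul_assoc, DL_mul (f * u), DL_ι, D_xx, map_mul ι]; ring

theorem PL_x (f : K) (d : ℕ) (c : ℕ → kk) (u : K) :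
    PL (adK f) d c (u * ι (xx n)) = PL (opK n f) d c u * ι (xx n) := by
  have h : ∀ i : ℕ, (adK f ^ i) (u * ι (xx n)) = (opK n f ^ i) u * ι (xx n) := fun i => by
    induction i with
    | zero => rfl
    | succ i ih => rw [pow_succ', pow_succ', Module.End.mul_apply, Module.End.mul_apply, ih, adK_x]
  simp only [PL_ap, h, add_mul, Finset.sum_mul, mul_assoc]

theorem PL_mem {T : Submodule kk K} {E : Module.End kk K} (hE : ∀ z ∈ T, E z ∈ T) (d : ℕ)
    (c : ℕ → kk) {h : K} (hh : h ∈ T) : PL E d c h ∈ T := by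
  have h1 : ∀ i : ℕ, (E ^ i) h ∈ T := fun i => by
    induction i with
    | zero => exact hh
    | succ i ih => rw [pow_succ', Module.End.mul_apply]; exact hE _ ih
  rw [PL_ap]
  exact add_mem (h1 d) (sum_mem fun i _ => kmul_mem (c i).2 (h1 i))

theorem exP {f : A} (hf : f ∈ B0 n) : ∃ (d : ℕ) (c : ℕ → kk), (∀ i, ∃ q ∈ R0 n, ι q = (c i).1) ∧
    ∀ h ∈ Kn n, PL (adK (ι f)) d c h = 0 := by
  have : Module.Finite (R0 n) (B0 n) := by
    refine Algebra.finite_adjoin_of_finite_of_isIntegral ((Set.finite_Iio n).image _) ?_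
    rintro _ ⟨i, _, rfl⟩
    exact IsIntegral.of_pow two_pos (isIntegral_algebraMap
      (x := (⟨_, Subring.subset_closure (Or.inl ⟨i, rfl⟩)⟩ : R0 n)))
  let E : Module.End (R0 n) (B0 n) :=
    { toFun := fun h => ⟨DA (f * h), D_B0 (mul_mem hf h.2)⟩
      map_add' := fun a b => Subtype.ext (by simp [mul_add])
      map_smul' := fun c a => Subtype.ext (by
        change DA (f * (c.1 * a.1)) = c.1 * DA (f * a.1)
        rw [mul_left_comm, D_mul, D_R (R0_R c.2)]; simp) }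
  obtain ⟨P, hP, hP0⟩ := LinearMap.exists_monic_and_aeval_eq_zero (R0 n) E
  have h1 : ∀ (i : ℕ) (h : B0 n), ι ((E ^ i) h).1 = (adK (ι f) ^ i) (ι h.1) := fun i h => by
    induction i with
    | zero => rfl
    | succ i ih =>
      rw [pow_succ', pow_succ', Module.End.mul_apply, Module.End.mul_apply, ← ih, adK_ap,
        ← map_mul, DL_ι]
      rfl
  refine ⟨P.natDegree, fun i => ⟨ι (P.coeff i).1, ι_kk (R0_R (P.coeff i).2)⟩,
    fun i => ⟨_, (P.coeff i).2, rfl⟩, fun h hh => ?_⟩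
  obtain ⟨r, hr, rfl⟩ := expand n hh
  rw [map_sum]
  refine Finset.sum_eq_zero fun J hJ => ?_
  have hm : mon J ∈ B0 n := prod_mem fun _ hj =>
    x_B0 (Finset.mem_range.1 (Finset.mem_powerset.1 hJ hj))
  have h2 := congrArg (fun z : B0 n => ι z.1) (LinearMap.congr_fun hP0 ⟨_, hm⟩)
  rw [aeval_eq_sum_range, Finset.sum_range_succ, hP.coeff_natDegree, one_smul] at h2
  simp only [LinearMap.add_apply, LinearMap.sum_apply, LinearMap.smul_apply, AddMemClass.coe_add,
    AddSubmonoidClass.coe_finsetSum, map_add, map_sum, h1, LinearMap.zero_apply,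
    ZeroMemClass.coe_zero, map_zero] at h2
  have h3 : PL (adK (ι f)) P.natDegree (fun i => ⟨ι (P.coeff i).1, ι_kk (R0_R (P.coeff i).2)⟩)
      (ι (mon J)) = 0 := by
    rw [PL_ap, add_comm, ← h2]
    congr 1
    refine Finset.sum_congr rfl fun i _ => ?_
    rw [← h1 i ⟨_, hm⟩, ← map_mul]
    rfl
  have h4 := LinearMap.map_smul (PL (adK (ι f)) P.natDegree
    (fun i => ⟨ι (P.coeff i).1, ι_kk (R0_R (P.coeff i).2)⟩)) (⟨r J, hr J⟩ : kk) (ι (mon J))
  rw [h3, smul_zero] at h4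
  exact h4

theorem nzP {f : A} (hf : f ∈ B0 n) (hf0 : f ≠ 0) (d : ℕ) (c : ℕ → kk)
    (hc : ∀ i, ∃ q ∈ R0 n, ι q = (c i).1) {u : K} (hu : u ∈ Kn n) (hu0 : u ≠ 0) :
    PL (opK n (ι f)) d c u ≠ 0 := by
  obtain ⟨s, hs, hs0, a, ha, he⟩ := of_Kn hu
  obtain ⟨r, hr, hb⟩ := expand n (one_mem (Kn n))
  choose q hq hq' using hc
  have ha0 : a ≠ 0 := fun h => mul_ne_zero (ι_ne hs0) hu0 (by rw [← he, h, map_zero])
  obtain ⟨j, v, hv, ht⟩ := top_self (n := n) (r := r) ha0
  let o : A → A := fun w => DA (f * w) + gg n * (f * w)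
  have hfA := (B0_prop (r := r) hf).2
  have h1 : ∀ i : ℕ, o^[i] a ∈ An n ∧ ι (o^[i] a) = (opK n (ι f) ^ i) (ι a) ∧
      Top n r (o^[i] a) (j + i) (ι f ^ i * v) := fun i => by
    induction i with
    | zero => exact ⟨ha, rfl, by simpa using ht⟩
    | succ i ih =>
      rw [Function.iterate_succ_apply']
      refine ⟨add_mem (D_An (mul_mem hfA ih.1)) (mul_mem (g_An le_rfl) (mul_mem hfA ih.1)), ?_, ?_⟩
      · rw [pow_succ', Module.End.mul_apply, ← ih.2.1, opK_ap, ← map_mul, DL_ι]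
        simp only [o, map_add, map_mul, mul_assoc]
      · have := ((top_B0 hf).mul ih.2.2).op hr (mul_mem hfA ih.1)
        rw [hb, one_mul, zero_add, ← mul_assoc (ι f), ← pow_succ'] at this
        exact this
  intro h0
  have h2 := LinearMap.map_smul (PL (opK n (ι f)) d c) (⟨ι s, ι_kk hs⟩ : kk) u
  rw [h0, smul_zero] at h2
  change PL (opK n (ι f)) d c (ι s * u) = 0 at h2
  rw [← he, PL_ap] at h2
  have h3 : o^[d] a + ∑ i ∈ Finset.range d, q i * o^[i] a = 0 := ι_inj (by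
    rw [map_zero, ← h2, map_add, map_sum, (h1 d).2.1]
    simp only [map_mul, hq', (h1 _).2.1])
  have h4 := congrArg (fun p => (Φ n r p).coeff (j + d)) h3
  simp only [map_add, map_sum, coeff_add, finsetSum_coeff, map_zero, coeff_zero, (h1 d).2.2.2] at h4
  rw [Finset.sum_eq_zero fun i hi => ?_, add_zero] at h4
  · exact mul_ne_zero (pow_ne_zero d (ι_ne hf0)) hv h4
  · exact (((top_B0 ((B0 n).algebraMap_mem ⟨_, hq i⟩)).mul (h1 i).2.2).up
      (by have := Finset.mem_range.1 hi; omega)).2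

theorem x_ne (i : ℕ) : ι (xx i) ≠ 0 := ι_ne (MvPolynomial.X_ne_zero _)

theorem x_notin (n : ℕ) : ι (xx n) ∉ Kn n := fun h => by
  obtain ⟨d, c, hc, h0⟩ := exP (one_mem (B0 n))
  have h1 := h0 _ h
  rw [← one_mul (ι (xx n)), PL_x] at h1
  exact mul_ne_zero (nzP (one_mem _) one_ne_zero d c hc (one_mem _) one_ne_zero) (x_ne n) h1

theorem Dx_eq (u : K) : DL (u * ι (xx n)) = (DL u + ι (gg n) * u) * ι (xx n) := by
  rw [DL_mul, DL_ι, D_xx, map_mul]; ring

theorem Dx_ne {u : K} (hu : u ∈ Kn n) (h0 : u ≠ 0) : DL u + ι (gg n) * u ≠ 0 := by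
  have := nzP (one_mem (B0 n)) one_ne_zero 1 0 (fun _ => ⟨0, zero_mem _, by simp⟩) hu h0
  simpa [PL_ap, opK_ap] using this

theorem mulx_notin {u : K} (hu : u ∈ Kn n) (h0 : u ≠ 0) : u * ι (xx n) ∉ Kn n := fun h =>
  x_notin n (by simpa [h0] using mul_mem (inv_mem_of hu) h)

theorem const (z : K) (hz : DL z = 0) : z ∈ kk := by
  obtain ⟨n, hn⟩ := ex_Kn z
  induction n generalizing z with
  | zero =>
    have : z ∈ (⊥ : Subalgebra kk K) := by simpa [Kn] using hn
    obtain ⟨c, rfl⟩ := Algebra.mem_bot.1 this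
    exact c.2
  | succ n ih =>
    obtain ⟨a, ha, u, hu, rfl⟩ := split hn
    by_cases h0 : u = 0
    · simp only [h0, zero_mul, add_zero] at hz ⊢
      exact ih a hz ha
    · rw [map_add, Dx_eq] at hz
      refine absurd ?_ (mulx_notin (add_mem (D_Kn hu) (mul_mem (ι_An (g_An le_rfl)) hu))
        (Dx_ne hu h0))
      rw [eq_neg_of_add_eq_zero_right hz]
      exact neg_mem (D_Kn ha)

theorem step (S : Submodule kk K) (hS : ∀ a ∈ S, ∀ b ∈ S, DL (a * b) ∈ S) {f : A} (hf : f ∈ B0 n)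
    (hf0 : f ≠ 0) (hfS : ι f ∈ S) {h : K} (hh : h ∈ S) (h1 : h ∈ Kn (n + 1)) (h2 : h ∉ Kn n)
    {u : K} (hu : u ∈ Kn n) : u * ι (xx n) ∈ S := by
  classical
  have hfA := (B0_prop (r := 0) hf).2
  have hfK := ι_An hfA
  have hfn := ι_ne hf0
  let V := Subalgebra.toSubmodule (Kn n)
  let W : Submodule kk K := V ⊓ S.comap (LinearMap.mulRight kk (ι (xx n)))
  have hW : ∀ z, z ∈ W ↔ z ∈ Kn n ∧ z * ι (xx n) ∈ S := fun _ => Iff.rfl
  obtain ⟨w0, hw0, hw0'⟩ : ∃ w : A, (w ∈ An n ∧ ι w ∈ W) ∧ w ≠ 0 := by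
    obtain ⟨a, ha, u, hu, rfl⟩ := split h1
    have h0 : u ≠ 0 := fun h0 => h2 (by simpa [h0] using ha)
    obtain ⟨d, c, hc, hP⟩ := exP hf
    have h3 := PL_mem (E := adK (ι f)) (fun z hz => hS _ hfS _ hz) d c hh
    rw [map_add, hP a ha, zero_add, PL_x] at h3
    have h4 : PL (opK n (ι f)) d c u ∈ V := PL_mem (fun z hz => add_mem (D_Kn (mul_mem hfK hz))
      (mul_mem (mul_mem (ι_An (g_An le_rfl)) hfK) hz)) d c hu
    obtain ⟨s, hs, hs0, a, ha, he⟩ := of_Kn h4
    refine ⟨a, ⟨ha, ?_⟩, fun h => mul_ne_zero (ι_ne hs0) (nzP hf hf0 d c hc hu h0)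
      (by rw [← he, h, map_zero])⟩
    rw [he]
    exact kmul_mem (ι_kk hs) ⟨h4, h3⟩
  let δ : Module.End kk K := LinearMap.mulLeft kk (ι f) ∘ₗ DL
  have hδ : ∀ z, δ z = ι f * DL z := fun _ => rfl
  have : FiniteDimensional kk V := Kn_fin n
  obtain ⟨y, hy, hcyc⟩ := cyc δ (fun a b => by simp only [hδ, DL_mul]; ring)
    (fun z hz => ⟨⟨z, const z ((mul_eq_zero.1 hz).resolve_left hfn)⟩, rfl⟩) V
    (fun z hz => mul_mem hfK (D_Kn hz))
  have hy0 : y ≠ 0 := fun h => by
    have := hcyc ⊥ (by simp [h]) (fun z hz => by simp [(Submodule.mem_bot _).1 hz]) (one_mem (Kn n))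
    simp at this
  obtain ⟨r, hr, hb⟩ := expand n (mul_mem (inv_mem_of hfK) hy)
  set b := (ι f)⁻¹ * y with hbdef
  have hb0 : b ≠ 0 := mul_ne_zero (inv_ne_zero hfn) hy0
  let T : Set K := {v | ∃ w j, (w ∈ An n ∧ ι w ∈ W) ∧ Top n r w j v}
  have hop : ∀ (s : A) (i : ℕ) (t : K), s ∈ An n → ι s ∈ S → Top n r s i t → ∀ v ∈ T,
      b * (t * v) ∈ T := by
    rintro s i t hs hs' ht v ⟨w, j, ⟨hw, hw'⟩, hv⟩
    have hm := add_mem (D_An (mul_mem hs hw)) (mul_mem (g_An le_rfl) (mul_mem hs hw))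
    refine ⟨_, _, ⟨hm, ι_An hm, ?_⟩, hb ▸ (ht.mul hv).op hr (mul_mem hs hw)⟩
    have := hS _ hs' _ hw'.2
    rw [LinearMap.mulRight_apply, ← mul_assoc, Dx_eq, ← map_mul, DL_ι, ← map_mul, ← map_add] at this
    exact this
  have hbr : ∀ v ∈ T, ∀ v' ∈ T, ∀ v'' ∈ T, b * DL (v * v') * v'' ∈ Submodule.span kk T := by
    rintro v ⟨w, j, ⟨hw, hw'⟩, hv⟩ v' ⟨w', j', ⟨hw2, hw2'⟩, hv'⟩ v'' hv''
    have h3 : ι (DA (w * w')) ∈ S := by
      have h4 := hS _ hw'.2 _ hw2'.2
      rw [LinearMap.mulRight_apply, LinearMap.mulRight_apply,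
        show ι w * ι (xx n) * (ι w' * ι (xx n)) = ι (xx n) ^ 2 * (ι w * ι w') by ring,
        DL_kmul (sq_kk _), ← map_mul, DL_ι] at h4
      simpa [x_ne n] using kmul_mem (kk.inv_mem (sq_kk (ι (xx n)))) h4
    rw [mul_assoc]
    exact Submodule.subset_span (hop _ _ _ (D_An (mul_mem hw hw2)) h3
      ((hv.mul hv').D hr (mul_mem hw hw2)) _ hv'')
  set U := Submodule.span kk T with hU
  have hlin : ∀ (μ : K), (∀ v ∈ T, μ * v ∈ U) → ∀ v ∈ U, μ * v ∈ U := fun μ h v hv =>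
    (Submodule.span_le.2 h : U ≤ U.comap (LinearMap.mulLeft kk μ)) hv
  have hbr2 : ∀ v ∈ T, ∀ v' ∈ U, ∀ v'' ∈ U, b * DL (v * v') * v'' ∈ U := fun v hv v' hv' v'' hv'' => by
    let G : Module.End kk K := LinearMap.mulLeft kk (b * v'') ∘ₗ DL ∘ₗ LinearMap.mulLeft kk v
    have hG : ∀ z, G z = b * DL (v * z) * v'' := fun z => by
      change b * v'' * DL (v * z) = _
      ring
    rw [← hG]
    refine (Submodule.span_le.2 fun z hz => ?_ : U ≤ U.comap G) hv'
    change G z ∈ U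
    rw [hG]
    exact hlin _ (hbr v hv z hz) _ hv''
  obtain ⟨j0, v0, hv0, ht0⟩ := top_self (n := n) (r := r) hw0'
  have hv0T : v0 ∈ T := ⟨w0, j0, hw0, ht0⟩
  have hv0U : v0 ∈ U := Submodule.subset_span hv0T
  have hyU : ∀ v ∈ U, y * v ∈ U := hlin y fun v hv => by
    have := hop f 0 _ hfA hfS (top_B0 hf) v hv
    rw [hbdef, mul_assoc, mul_left_comm y, inv_mul_cancel_left₀ hfn] at this
    exact Submodule.subset_span this
  let M : Submodule kk K :=
    { carrier := {μ | ∀ v ∈ U, μ * v ∈ U}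
      add_mem' := fun ha hb v hv => by rw [add_mul]; exact add_mem (ha v hv) (hb v hv)
      zero_mem' := fun v _ => by rw [zero_mul]; exact zero_mem _
      smul_mem' := fun c μ h v hv => by rw [smul_mul_assoc]; exact U.smul_mem c (h v hv) }
  have hM : V ≤ M := hcyc M hyU fun μ hμ v hv => by
    have h3 := hbr2 v0 hv0T _ (hμ v0 hv0U) _ (hyU v hv)
    rw [show v0 * (μ * v0) = v0 ^ 2 * μ by ring, DL_kmul (sq_kk _)] at h3
    have h4 := kmul_mem (kk.inv_mem (kk.mul_mem (sq_kk v0) (sq_kk b))) h3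
    convert h4 using 1
    have hy' : y = ι f * b := by rw [hbdef, mul_inv_cancel_left₀ hfn]
    rw [hδ, hy']
    field_simp
  have hTV : ∀ v ∈ T, v ∈ Kn n := by
    rintro v ⟨w, j, hw, hv⟩
    exact hv.2 ▸ Φ_An hr hw.1 j
  have hVU : V ≤ U := fun z hz => by
    have := hM ((Kn n).mul_mem hz (inv_mem_of (hTV v0 hv0T))) v0 hv0U
    rwa [inv_mul_cancel_right₀ hv0] at this
  obtain ⟨B, hB, hBs, hBi⟩ := exists_linearIndependent kk T
  choose w j hw ht using fun i : B => hB i.2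
  have hi := top_indep hr w j (fun i => i.1) ht hBi
  have hi2 : LinearIndependent kk fun i : B => (⟨ι (w i), (hw i).2⟩ : W) :=
    LinearIndependent.of_comp W.subtype hi
  have : FiniteDimensional kk W := Submodule.finiteDimensional_of_le inf_le_left
  have hfin : Finite B := hi2.finite
  have := Fintype.ofFinite B
  have : FiniteDimensional kk U := Submodule.finiteDimensional_of_le (S₂ := V) (Submodule.span_le.2 hTV)
  have h5 : Module.finrank kk V ≤ Module.finrank kk W := by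
    refine (Submodule.finrank_mono hVU).trans (le_trans ?_ hi2.fintype_card_le_finrank)
    rw [hU, ← hBs, ← Set.toFinset_card]
    exact finrank_span_le_card B
  have h6 : W = V := Submodule.eq_of_le_of_finrank_le inf_le_left h5
  exact ((hW u).1 (h6 ▸ hu)).2

theorem fin_le (S : Submodule kk K) [FiniteDimensional kk S] :
    ∃ n, S ≤ Subalgebra.toSubmodule (Kn n) := by
  obtain ⟨s, rfl⟩ := Module.Finite.iff_fg.1 ‹_›
  choose m hm using ex_Kn
  exact ⟨s.sup m, Submodule.span_le.2 fun z hz => Kn_mono (Finset.le_sup (f := m) hz) (hm z)⟩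

theorem main (S : Submodule kk K) (hS : ∀ a ∈ S, ∀ b ∈ S, DL (a * b) ∈ S)
    (hinf : ¬ FiniteDimensional kk S) (z : K) : DL z ∈ S := by
  classical
  have hno : ∀ m, ∃ h ∈ S, h ∉ Kn m := fun m => by
    by_contra hc
    push Not at hc
    have : FiniteDimensional kk (Subalgebra.toSubmodule (Kn m)) := Kn_fin m
    exact hinf (Submodule.finiteDimensional_of_le (S₂ := Subalgebra.toSubmodule (Kn m)) hc)
  obtain ⟨f', hf', hf0⟩ := hno 0
  obtain ⟨m0, hm0⟩ := ex_Kn f'
  obtain ⟨s, hs, hs0, f, _, he⟩ := of_Kn hm0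
  have hfS : ι f ∈ S := he ▸ kmul_mem (ι_kk hs) hf'
  have hfn : f ≠ 0 := fun h => mul_ne_zero (ι_ne hs0) (fun h' : f' = 0 => hf0 (h' ▸ zero_mem _))
    (by rw [← he, h, map_zero])
  obtain ⟨m1, hm1⟩ := ex_B0 f
  obtain ⟨m2, hm2⟩ := ex_Kn z
  obtain ⟨h, hh, hh'⟩ := hno (max m1 m2)
  have hex := ex_Kn h
  have h1 := Nat.find_spec hex
  have h2 : max m1 m2 < Nat.find hex := by
    by_contra hc
    exact hh' (Kn_mono (not_lt.1 hc) h1)
  obtain ⟨n, hn⟩ : ∃ n, Nat.find hex = n + 1 := ⟨Nat.find hex - 1, by omega⟩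
  have h3 : h ∉ Kn n := Nat.find_min hex (by omega)
  rw [hn] at h1 h2
  have hst := fun u (hu : u ∈ Kn n) => step S hS (hm1 n (by omega)) hfn hfS hh h1 h3 hu
  have h4 := hS _ (hst z (Kn_mono (by omega) hm2)) _ (hst 1 (one_mem _))
  rw [show z * ι (xx n) * (1 * ι (xx n)) = ι (xx n) ^ 2 * z by ring, DL_kmul (sq_kk _)] at h4
  simpa [x_ne n] using kmul_mem (kk.inv_mem (sq_kk (ι (xx n)))) h4

def L : Type := LinearMap.range DL

noncomputable instance : AddCommGroup L := inferInstanceAs (AddCommGroup (LinearMap.range DL))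
noncomputable instance : Module kk L := inferInstanceAs (Module kk (LinearMap.range DL))
noncomputable def val : L →ₗ[kk] K := (LinearMap.range DL).subtype
theorem val_inj : Function.Injective val := Subtype.val_injective
noncomputable instance : Bracket L L := ⟨fun a b => ⟨DL (val a * val b), _, rfl⟩⟩
theorem val_br (a b : L) : val ⁅a, b⁆ = DL (val a * val b) := rfl

noncomputable instance : LieRing L where
  add_lie a b c := val_inj (by simp only [val_br, map_add, add_mul])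
  lie_add a b c := val_inj (by simp only [val_br, map_add, mul_add])
  lie_self a := val_inj (by rw [val_br, ← sq, DL_kk (sq_kk _), map_zero])
  leibniz_lie a b c := val_inj (by
    simp only [val_br]
    rw [map_add, val_br, val_br, val_br, val_br, ← map_add]
    congr 1
    simp only [DL_mul]
    linear_combination -(DL (val a) * val b * val c) * two_K)

noncomputable instance : LieAlgebra kk L where
  lie_smul t a b := val_inj (by simp only [val_br, map_smul, mul_smul_comm])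

theorem proper (H : LieSubalgebra kk L) (hH : H ≠ ⊤) : FiniteDimensional kk H := by
  by_contra hinf
  apply hH
  rw [eq_top_iff]
  rintro ⟨_, z, rfl⟩ _
  obtain ⟨a, ha, he⟩ := main (H.toSubmodule.map val) (by
    rintro _ ⟨a, ha, rfl⟩ _ ⟨b, hb, rfl⟩
    exact ⟨⁅a, b⁆, H.lie_mem ha hb, rfl⟩) (fun h => hinf
      (Submodule.equivMapOfInjective val val_inj H.toSubmodule).symm.finiteDimensional) z
  exact (val_inj he : a = ⟨DL z, z, rfl⟩) ▸ ha

theorem notfg : ¬ ∃ s : Set L, s.Finite ∧ LieSubalgebra.lieSpan kk L s = ⊤ := by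
  rintro ⟨s, hs, h⟩
  have : FiniteDimensional kk (Submodule.span kk (val '' s)) :=
    FiniteDimensional.span_of_finite kk (hs.image _)
  obtain ⟨n, hn⟩ := fin_le (Submodule.span kk (val '' s))
  let H : LieSubalgebra kk L :=
    { (Subalgebra.toSubmodule (Kn n)).comap val with
      lie_mem' := fun ha hb => D_Kn (mul_mem ha hb) }
  have h1 : LieSubalgebra.lieSpan kk L s ≤ H :=
    LieSubalgebra.lieSpan_le.2 fun a ha => hn (Submodule.subset_span ⟨a, ha, rfl⟩)
  have h2 : DL (1 * ι (xx n)) ∈ Kn n := h1 (h ▸ trivial : (⟨_, _, rfl⟩ : L) ∈ _)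
  rw [Dx_eq] at h2
  exact mulx_notin (add_mem (D_Kn (one_mem _)) (mul_mem (ι_An (g_An le_rfl)) (one_mem _)))
    (Dx_ne (one_mem _) one_ne_zero) h2

theorem fg_of (H : LieSubalgebra kk L) [FiniteDimensional kk H] :
    ∃ s : Set L, s.Finite ∧ LieSubalgebra.lieSpan kk L s = H := by
  obtain ⟨s, hs⟩ := (Module.Finite.iff_fg (N := H.toSubmodule)).1 ‹_›
  refine ⟨s, s.finite_toSet, le_antisymm (LieSubalgebra.lieSpan_le.2 fun a ha => ?_) fun a ha => ?_⟩
  · exact (hs ▸ Submodule.subset_span ha : a ∈ H.toSubmodule)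
  · exact LieSubalgebra.submodule_span_le_lieSpan (hs ▸ ha : a ∈ Submodule.span kk (s : Set L))

theorem notfin : ¬ FiniteDimensional kk L := fun h => by
  have : FiniteDimensional kk (⊤ : LieSubalgebra kk L) :=
    inferInstanceAs (FiniteDimensional kk (⊤ : Submodule kk L))
  exact notfg (fg_of ⊤)

end Pool.Agent.H74.Prufer
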