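import Mathlib

namespace Pool.Agent.H74.Rg
open SimpleGraph

variable {V : Type}

/-- `S` is a dominating set. -/
def Dom (G : SimpleGraph V) (S : Set V) : Prop := ∀ x, x ∈ S ∨ ∃ y ∈ S, G.Adj x y

/-- `M` is a minimal dominating set. -/
def MinDom (G : SimpleGraph V) (M : Set V) : Prop := Dom G M ∧ ∀ v ∈ M, ¬ Dom G (M \ {v})

/-- `M₂` arises from `M₁` by adding one vertex `v` and removing some neighbours of `v`. -/
def Move (G : SimpleGraph V) (M₁ M₂ : Set V) : Prop :=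
  ∃ v, M₂ \ M₁ = {v} ∧ M₁ \ M₂ ⊆ G.neighborSet v

theorem Move.ne {G : SimpleGraph V} {M₁ M₂ : Set V} (h : Move G M₁ M₂) : M₁ ≠ M₂ := by
  rintro rfl
  obtain ⟨v, h, -⟩ := h
  have : v ∈ M₁ \ M₁ := h ▸ rfl
  exact this.2 this.1

/-- The reconfiguration graph of minimal dominating sets. -/
def Rec (G : SimpleGraph V) : SimpleGraph {M : Set V // MinDom G M} where
  Adj M₁ M₂ := Move G M₁.1 M₂.1 ∨ Move G M₂.1 M₁.1
  symm := ⟨fun _ _ h => h.symm⟩
  loopless := ⟨fun _ h => h.elim (fun h => h.ne rfl) (fun h => h.ne rfl)⟩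

def Short {W : Type} (H : SimpleGraph W) : Prop :=
  ∃ (u : W) (w : H.Walk u u), w.IsCycle ∧ w.length ≤ 5

theorem tri0 {W : Type} {H : SimpleGraph W} {a b c : W} (h1 : H.Adj a b) (h2 : H.Adj b c)
    (h3 : H.Adj c a) : Short H := by
  refine ⟨a, .cons h1 (.cons h2 (.cons h3 .nil)), ?_, by simp⟩
  have := h1.ne; have := h2.ne; have := h3.ne
  simp [Walk.cons_isCycle_iff]
  grind

theorem quad0 {W : Type} {H : SimpleGraph W} {a b c d : W} (h1 : H.Adj a b) (h2 : H.Adj b c)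
    (h3 : H.Adj c d) (h4 : H.Adj d a) (n1 : a ≠ c) (n2 : b ≠ d) : Short H := by
  refine ⟨a, .cons h1 (.cons h2 (.cons h3 (.cons h4 .nil))), ?_, by simp⟩
  have := h1.ne; have := h2.ne; have := h3.ne; have := h4.ne
  simp [Walk.cons_isCycle_iff]
  grind

theorem pent0 {W : Type} {H : SimpleGraph W} {a b c d e : W} (h1 : H.Adj a b) (h2 : H.Adj b c)
    (h3 : H.Adj c d) (h4 : H.Adj d e) (h5 : H.Adj e a) : Short H := by
  by_cases n1 : a = c
  · subst n1; exact tri0 h3 h4 h5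
  by_cases n2 : b = d
  · subst n2; exact tri0 h1 h4 h5
  by_cases n3 : c = e
  · subst n3; exact tri0 h1 h2 h5
  by_cases n4 : d = a
  · subst n4; exact tri0 h1 h2 h3
  by_cases n5 : e = b
  · subst n5; exact tri0 h2 h3 h4
  refine ⟨a, .cons h1 (.cons h2 (.cons h3 (.cons h4 (.cons h5 .nil)))), ?_, by simp⟩
  have := h1.ne; have := h2.ne; have := h3.ne; have := h4.ne; have := h5.ne
  simp [Walk.cons_isCycle_iff]
  grind

variable {G : SimpleGraph V}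

def MD (G : SimpleGraph V) (P : V → Prop) : Prop := MinDom G {x | P x}

def AA (G : SimpleGraph V) (P Q : V → Prop) : Prop :=
  Move G {x | P x} {x | Q x} ∨ Move G {x | Q x} {x | P x}

theorem AA.symm {P Q : V → Prop} (h : AA G P Q) : AA G Q P := Or.symm h

theorem mv {P Q : V → Prop} (v : V) (h1 : Q v) (h2 : ¬ P v) (h3 : ∀ x, Q x → x ≠ v → P x)
    (h4 : ∀ x, P x → ¬ Q x → G.Adj v x) : AA G P Q := by
  refine Or.inl ⟨v, ?_, fun x hx => h4 x hx.1 hx.2⟩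
  ext x
  constructor
  · rintro ⟨a, b⟩
    by_contra e
    exact b (h3 x a e)
  · rintro rfl
    exact ⟨h1, h2⟩

theorem tri {P Q R : V → Prop} (hP : MD G P) (hQ : MD G Q) (hR : MD G R) (h1 : AA G P Q)
    (h2 : AA G Q R) (h3 : AA G R P) : Short (Rec G) :=
  tri0 (a := ⟨_, hP⟩) (b := ⟨_, hQ⟩) (c := ⟨_, hR⟩) h1 h2 h3

theorem quad {P Q R S : V → Prop} (hP : MD G P) (hQ : MD G Q) (hR : MD G R) (hS : MD G S)
    (h1 : AA G P Q) (h2 : AA G Q R) (h3 : AA G R S) (h4 : AA G S P)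
    (x : V) (x1 : P x) (x2 : ¬ R x) (y : V) (y1 : S y) (y2 : ¬ Q y) : Short (Rec G) :=
  quad0 (a := ⟨_, hP⟩) (b := ⟨_, hQ⟩) (c := ⟨_, hR⟩) (d := ⟨_, hS⟩) h1 h2 h3 h4
    (fun e => x2 ((Set.ext_iff.1 (congrArg Subtype.val e) x).1 x1))
    (fun e => y2 ((Set.ext_iff.1 (congrArg Subtype.val e) y).2 y1))

theorem pent {P Q R S T : V → Prop} (hP : MD G P) (hQ : MD G Q) (hR : MD G R) (hS : MD G S)
    (hT : MD G T) (h1 : AA G P Q) (h2 : AA G Q R) (h3 : AA G R S) (h4 : AA G S T)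
    (h5 : AA G T P) : Short (Rec G) :=
  pent0 (a := ⟨_, hP⟩) (b := ⟨_, hQ⟩) (c := ⟨_, hR⟩) (d := ⟨_, hS⟩) (e := ⟨_, hT⟩) h1 h2 h3 h4 h5

theorem md_priv {P : V → Prop} (hd : ∀ x, ¬ P x → ∃ y, P y ∧ G.Adj x y)
    (hp : ∀ u, P u → ∃ p, ∀ y, P y → y ≠ u → p ≠ y ∧ ¬ G.Adj p y) : MD G P := by
  refine ⟨fun x => ?_, fun u hu h => ?_⟩
  · by_cases e : P x
    · exact Or.inl e
    · exact Or.inr (hd x e)
  · obtain ⟨p, hp⟩ := hp u hu
    rcases h p with h1 | ⟨y, hy, h1⟩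
    · exact (hp p h1.1 h1.2).1 rfl
    · exact (hp y hy.1 hy.2).2 h1

theorem md_ind {P : V → Prop} (hi : ∀ x y, P x → P y → ¬ G.Adj x y)
    (hd : ∀ x, ¬ P x → ∃ y, P y ∧ G.Adj x y) : MD G P :=
  md_priv hd fun u hu => ⟨u, fun y hy e => ⟨e.symm, hi u y hu hy⟩⟩

theorem md_sub [Finite V] {D : V → Prop} (hd : ∀ x, ¬ D x → ∃ y, D y ∧ G.Adj x y) :
    ∃ P : V → Prop, (∀ x, P x → D x) ∧ MD G P ∧ ∀ x, ¬ P x → ∃ y, P y ∧ G.Adj x y := by
  have h0 : Dom G {x | D x} := fun x => by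
    by_cases e : D x
    · exact Or.inl e
    · exact Or.inr (hd x e)
  obtain ⟨M, h1, h2⟩ := Finite.exists_le_minimal (p := Dom G) h0
  refine ⟨(· ∈ M), fun x hx => h1 hx, ⟨h2.1, fun v hv h => ?_⟩, fun x hx => ?_⟩
  · exact (h2.2 h Set.diff_subset hv).2 rfl
  · exact (h2.1 x).resolve_left hx

theorem md_ext [Finite V] {I : V → Prop} (h : ∀ x y, I x → I y → ¬ G.Adj x y) :
    ∃ P : V → Prop, (∀ x, I x → P x) ∧ MD G P ∧ ∀ x y, P x → P y → ¬ G.Adj x y := by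
  obtain ⟨M, h1, h2⟩ := Finite.exists_le_maximal
    (p := fun S : Set V => ∀ x y, x ∈ S → y ∈ S → ¬ G.Adj x y) (a := {x | I x}) h
  refine ⟨(· ∈ M), fun x hx => h1 hx, md_ind h2.1 fun x hx => ?_, h2.1⟩
  by_contra hn
  push Not at hn
  refine hx (h2.2 (y := insert x M) ?_ (Set.subset_insert _ _) (Set.mem_insert _ _))
  rintro a b (rfl | ha) (rfl | hb)
  · exact G.loopless.1 _
  · exact hn b hb
  · exact fun h => hn a ha h.symm
  · exact h2.1 a b ha hb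

theorem lift (u : V) (h : Short (Rec (G.induce {x | x ≠ u ∧ ¬ G.Adj u x}))) : Short (Rec G) := by
  set S : Set V := {x | x ≠ u ∧ ¬ G.Adj u x} with hS
  let F : Set S → Set V := fun M => {x | x = u ∨ ∃ h : x ∈ S, (⟨x, h⟩ : S) ∈ M}
  have hF : ∀ (M : Set S) (x : S), x.1 ∈ F M ↔ x ∈ M := by
    intro M x
    constructor
    · rintro (e | ⟨_, e⟩)
      · exact absurd e x.2.1
      · exact e
    · exact fun e => Or.inr ⟨x.2, e⟩
  have hM : ∀ M, MinDom (G.induce S) M → MinDom G (F M) := by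
    intro M hM
    refine md_priv (fun x hx => ?_) ?_
    · by_cases e : G.Adj u x
      · exact ⟨u, Or.inl rfl, e.symm⟩
      · have hx' : x ∈ S := ⟨fun e' => hx (Or.inl e'), e⟩
        rcases hM.1 ⟨x, hx'⟩ with h1 | ⟨y, hy, h1⟩
        · exact absurd (Or.inr ⟨hx', h1⟩) hx
        · exact ⟨y.1, Or.inr ⟨y.2, hy⟩, h1⟩
    · rintro w (rfl | ⟨hw, hw'⟩)
      · refine ⟨w, ?_⟩
        rintro y (e | ⟨hy, -⟩) ne
        · exact absurd e ne
        · exact ⟨ne.symm, hy.2⟩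
      · have := hM.2 _ hw'
        unfold Dom at this
        push Not at this
        obtain ⟨p, p1, p2⟩ := this
        refine ⟨p.1, ?_⟩
        rintro y (rfl | ⟨hy, hy'⟩) ne
        · exact ⟨p.2.1, fun e => p.2.2 e.symm⟩
        · have : (⟨y, hy⟩ : S) ∈ M \ {⟨w, hw⟩} := ⟨hy', fun e => ne (congrArg Subtype.val e)⟩
          exact ⟨fun e => p1 (by rw [show p = ⟨y, hy⟩ from Subtype.ext e]; exact this),
            fun e => p2 _ this e⟩
  have hmv : ∀ M M', Move (G.induce S) M M' → Move G (F M) (F M') := by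
    rintro M M' ⟨v, h1, h2⟩
    have hv : v ∈ M' \ M := h1 ▸ rfl
    refine ⟨v.1, ?_, ?_⟩
    · ext x
      constructor
      · rintro ⟨e | ⟨hx, hx'⟩, b⟩
        · exact absurd (Or.inl e) b
        · have : (⟨x, hx⟩ : S) ∈ M' \ M := ⟨hx', fun e => b (Or.inr ⟨hx, e⟩)⟩
          rw [h1] at this
          exact congrArg Subtype.val this
      · rintro rfl
        exact ⟨(hF _ _).2 hv.1, fun e => hv.2 ((hF _ _).1 e)⟩
    · rintro x ⟨e | ⟨hx, hx'⟩, b⟩
      · exact absurd (Or.inl e) b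
      · exact h2 (a := ⟨x, hx⟩) ⟨hx', fun e => b (Or.inr ⟨hx, e⟩)⟩
  let f : Rec (G.induce S) →g Rec G :=
    ⟨fun M => ⟨F M.1, hM _ M.2⟩, fun h => h.imp (hmv _ _) (hmv _ _)⟩
  have hf : Function.Injective f := by
    intro M M' e
    apply Subtype.ext
    ext x
    rw [← hF, ← hF, show F M.1 = F M'.1 from congrArg Subtype.val e]
  obtain ⟨a, w, h1, h2⟩ := h
  exact ⟨f a, w.map f, h1.map hf, by simpa using h2⟩

end Pool.Agent.H74.Rg
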