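import Pool.Agent.H74.Rg1

namespace Pool.Agent.H74.Rg
open SimpleGraph

variable {V : Type} {G : SimpleGraph V}

structure Ctx (G : SimpleGraph V) (v c l0 : V) : Prop where
  sy : ∀ x y, G.Adj x y → G.Adj y x
  ir : ∀ x, ¬ G.Adj x x
  vc : ¬ G.Adj v c
  ne : v ≠ c
  cl : G.Adj c l0
  vl : ¬ G.Adj v l0
  f1 : ∀ x y, ¬ G.Adj v x → ¬ G.Adj v y → G.Adj x y → x = c ∨ y = c
  H2 : ∀ u a b d e, G.Adj a b → G.Adj d e → a = u ∨ b = u ∨ d = u ∨ e = u ∨ G.Adj u a ∨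
    G.Adj u b ∨ G.Adj u d ∨ G.Adj u e ∨ a = d ∨ a = e ∨ b = d ∨ b = e
  H3 : ∀ u a b d, G.Adj a b → G.Adj b d → G.Adj a d →
    a = u ∨ b = u ∨ d = u ∨ G.Adj u a ∨ G.Adj u b ∨ G.Adj u d

variable {v c l0 : V}

theorem Ctx.f3 (K : Ctx G v c l0) : ∀ t x, ¬ G.Adj v t → t ≠ c → ¬ G.Adj c t → G.Adj v x →
    G.Adj t x := by
  intro t x h1 h2 h3 h4
  by_contra h
  obtain ⟨sy, ir, vc, ne, cl, vl, f1, H2, -⟩ := K
  have := H2 t v x c l0
  clear H2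
  have := f1 t l0
  grind

theorem Ctx.fB (K : Ctx G v c l0) : ∀ x y, G.Adj v x → ¬ G.Adj c x → G.Adj v y → ¬ G.Adj c y →
    ¬ G.Adj x y := by
  intro x y h1 h2 h3 h4 h
  obtain ⟨sy, ir, vc, ne, cl, vl, f1, -, H3⟩ := K
  have := H3 c v x y
  clear H3
  grind

theorem Ctx.fB1 (K : Ctx G v c l0) : (∀ t, ¬ G.Adj v t → t ≠ c → ¬ G.Adj c t → t = v) ∨
    ∀ x y, G.Adj v x → ¬ G.Adj c x → G.Adj v y → ¬ G.Adj c y → x = y := by
  by_contra h
  push Not at h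
  obtain ⟨⟨t, h1, h2, h3, h4⟩, x, y, h5, h6, h7, h8, h9⟩ := h
  have := K.f3 t y h1 h2 h3 h7
  obtain ⟨sy, ir, vc, ne, cl, vl, f1, H2, -⟩ := K
  have := H2 c v x t y
  clear H2
  grind

theorem Ctx.fl (K : Ctx G v c l0) : ∀ l x y, G.Adj c l → ¬ G.Adj v l → G.Adj v x → ¬ G.Adj x l →
    G.Adj v y → ¬ G.Adj y l → ¬ G.Adj x y := by
  intro l x y h1 h2 h3 h4 h5 h6 h
  obtain ⟨sy, ir, vc, ne, cl, vl, f1, -, H3⟩ := K
  have := H3 l v x y
  clear H3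
  grind

theorem Ctx.fl1 (K : Ctx G v c l0) : ∀ l l' x y, G.Adj c l → ¬ G.Adj v l → G.Adj c l' →
    ¬ G.Adj v l' → G.Adj v x → ¬ G.Adj x l → G.Adj v y → ¬ G.Adj y l → G.Adj x l' → x = y := by
  intro l l' x y h1 h2 h3 h4 h5 h6 h7 h8 h
  obtain ⟨sy, ir, vc, ne, cl, vl, f1, H2, -⟩ := K
  have := H2 l x l' v y
  clear H2
  have := f1 l l'
  grind

theorem Ctx.fl2 (K : Ctx G v c l0) : (∀ t, ¬ G.Adj v t → t ≠ c → ¬ G.Adj c t → t = v) ∨
    ∀ x y, G.Adj v x → ¬ G.Adj x l0 → G.Adj v y → ¬ G.Adj y l0 → x = y := by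
  by_contra h
  push Not at h
  obtain ⟨⟨t, h1, h2, h3, h4⟩, x, y, h5, h6, h7, h8, h9⟩ := h
  have := K.f3 t y h1 h2 h3 h7
  obtain ⟨sy, ir, vc, ne, cl, vl, f1, H2, -⟩ := K
  have := H2 l0 v x t y
  clear H2
  have := f1 t l0
  grind

def Ma (G : SimpleGraph V) (v c : V) (x : V) : Prop := ¬ G.Adj v x ∧ ¬ G.Adj c x
def Mb (G : SimpleGraph V) (v c : V) (x : V) : Prop := ¬ G.Adj v x ∧ x ≠ c
def Mc (G : SimpleGraph V) (v c : V) (x : V) : Prop := x = c ∨ (G.Adj v x ∧ ¬ G.Adj c x)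
def Bp (G : SimpleGraph V) (v c : V) (x : V) : Prop :=
  G.Adj v x ∧ ∀ l, G.Adj c l → ¬ G.Adj v l → ¬ G.Adj x l
def Md (G : SimpleGraph V) (v c : V) (x : V) : Prop := (G.Adj c x ∧ ¬ G.Adj v x) ∨ Bp G v c x

theorem Ctx.ma (K : Ctx G v c l0) : MD G (Ma G v c) := by
  obtain ⟨sy, ir, vc, ne, cl, vl, f1, -, -⟩ := K
  refine md_ind (fun x y => ?_) (fun x hx => ?_)
  · unfold Ma; grind
  · by_cases e : G.Adj v x
    · exact ⟨v, by unfold Ma; grind, by grind⟩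
    · exact ⟨c, by unfold Ma; grind, by unfold Ma at hx; grind⟩

theorem Ctx.mb (K : Ctx G v c l0) : MD G (Mb G v c) := by
  obtain ⟨sy, ir, vc, ne, cl, vl, f1, -, -⟩ := K
  refine md_ind (fun x y => ?_) (fun x hx => ?_)
  · unfold Mb; grind
  · by_cases e : G.Adj v x
    · exact ⟨v, by unfold Mb; grind, by grind⟩
    · exact ⟨l0, by unfold Mb; grind, by unfold Mb at hx; grind⟩

theorem Ctx.ab (K : Ctx G v c l0) : AA G (Ma G v c) (Mb G v c) := by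
  obtain ⟨sy, ir, vc, ne, cl, vl, f1, -, -⟩ := K
  refine (mv c ?_ ?_ (fun x => ?_) (fun x => ?_)).symm <;> simp only [Ma, Mb] <;> grind

theorem Ctx.mc (K : Ctx G v c l0) {b : V} (h1 : G.Adj v b) (h2 : ¬ G.Adj c b) :
    MD G (Mc G v c) := by
  have f3 := K.f3
  have fB := K.fB
  obtain ⟨sy, ir, vc, ne, cl, vl, f1, -, -⟩ := K
  refine md_ind (fun x y => ?_) (fun x hx => ?_)
  · unfold Mc; grind
  · by_cases e : G.Adj c x
    · exact ⟨c, Or.inl rfl, by grind⟩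
    · exact ⟨b, Or.inr ⟨h1, h2⟩, by unfold Mc at hx; grind⟩

theorem Ctx.ca (K : Ctx G v c l0) {b : V} (h1 : G.Adj v b) (h2 : ¬ G.Adj c b) :
    AA G (Mc G v c) (Ma G v c) := by
  have f3 := K.f3
  have fB1 := K.fB1
  obtain ⟨sy, ir, vc, ne, cl, vl, f1, -, -⟩ := K
  rcases fB1 with h | h
  · refine mv v ?_ ?_ (fun x => ?_) (fun x => ?_) <;> simp only [Ma, Mc] <;> grind
  · refine (mv b ?_ ?_ (fun x => ?_) (fun x => ?_)).symm <;> simp only [Ma, Mc] <;> grind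

theorem Ctx.md (K : Ctx G v c l0) {y : V} (h1 : Bp G v c y) : MD G (Md G v c) := by
  have f3 := K.f3
  have fl := K.fl l0
  obtain ⟨sy, ir, vc, ne, cl, vl, f1, -, -⟩ := K
  refine md_ind (fun x z => ?_) (fun x hx => ?_)
  · simp only [Md, Bp]; grind
  · simp only [Md, Bp] at *
    by_cases e : G.Adj v x
    · have : ∃ l, G.Adj c l ∧ ¬ G.Adj v l ∧ G.Adj x l := by grind
      obtain ⟨l, hl⟩ := this
      exact ⟨l, by grind, by grind⟩
    · by_cases e' : x = c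
      · exact ⟨l0, by grind, by grind⟩
      · exact ⟨y, Or.inr h1, by grind⟩

theorem Ctx.bd (K : Ctx G v c l0) {y : V} (h1 : Bp G v c y) : AA G (Mb G v c) (Md G v c) := by
  have f3 := K.f3
  have fl2 := K.fl2
  obtain ⟨sy, ir, vc, ne, cl, vl, f1, -, -⟩ := K
  rcases fl2 with h | h
  · refine (mv v ?_ ?_ (fun x => ?_) (fun x => ?_)).symm <;> simp only [Mb, Md, Bp] at * <;> grind
  · refine mv y ?_ ?_ (fun x => ?_) (fun x => ?_) <;> simp only [Mb, Md, Bp] at * <;> grind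

theorem Ctx.case0 [Finite V] (K : Ctx G v c l0) {b : V} (h1 : G.Adj v b) (h2 : G.Adj c b)
    (h3 : ∀ l, G.Adj c l → ¬ G.Adj v l → G.Adj b l) : Short (Rec G) := by
  have f3 := K.f3
  have ma := K.ma
  have mb := K.mb
  have ab := K.ab
  obtain ⟨sy, ir, vc, ne, cl, vl, f1, -, -⟩ := K
  obtain ⟨P, p1, p2, p3⟩ := md_sub (G := G) (D := fun x => x = b ∨ x = v) (by
    intro x hx
    by_cases e : G.Adj v x
    · exact ⟨v, Or.inr rfl, by grind⟩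
    · exact ⟨b, Or.inl rfl, by grind⟩)
  have hb : P b := by
    have := p3 c (by grind)
    grind
  clear p3
  refine tri ma mb p2 ab (mv b hb ?_ (fun x => ?_) (fun x => ?_))
    (mv b hb ?_ (fun x => ?_) (fun x => ?_)).symm <;> simp only [Ma, Mb] <;> grind

theorem Ctx.case1a [Finite V] (K : Ctx G v c l0)
    (n0 : ∀ b, G.Adj v b → G.Adj c b → ∃ l, G.Adj c l ∧ ¬ G.Adj v l ∧ ¬ G.Adj b l)
    (h1 : ∀ x, G.Adj v x → ∃ l, G.Adj c l ∧ ¬ G.Adj v l ∧ G.Adj x l)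
    {b : V} (hb : G.Adj v b) (hB : ∀ x, G.Adj v x → ¬ G.Adj c x → x = b) : Short (Rec G) := by
  have f3 := K.f3
  have ma := K.ma
  have mb := K.mb
  have ab := K.ab
  obtain ⟨sy, ir, vc, ne, cl, vl, f1, -, -⟩ := K
  have m1 : MD G (fun x => x = b ∨ x = c) := by
    refine md_priv (fun x hx => ?_) ?_
    · clear h1 n0
      by_cases e : G.Adj c x
      · exact ⟨c, Or.inr rfl, by grind⟩
      · exact ⟨b, Or.inl rfl, by grind⟩
    · rintro u (rfl | rfl)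
      · exact ⟨v, by clear h1 n0; grind⟩
      · by_cases e : G.Adj u b
        · obtain ⟨l, hl⟩ := n0 b hb e
          exact ⟨l, by clear h1 n0; grind⟩
        · exact ⟨u, by clear h1 n0; grind⟩
  clear n0
  obtain ⟨P, p1, p2, p3⟩ := md_sub (G := G) (D := fun x => x = b ∨ (G.Adj c x ∧ ¬ G.Adj v x)) (by
    intro x hx
    by_cases e : G.Adj v x
    · obtain ⟨l, hl⟩ := h1 x e
      exact ⟨l, by clear h1; grind, hl.2.2⟩
    · clear h1
      by_cases e' : x = c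
      · exact ⟨l0, by grind, by grind⟩
      · exact ⟨b, Or.inl rfl, by grind⟩)
  clear h1
  have hP : P b := by
    have := p3 v (by grind)
    grind
  have hL : ∀ x, G.Adj c x → ¬ G.Adj v x → ¬ P x → G.Adj b x := by
    intro x a1 a2 a3
    have := p3 x a3
    clear p3
    grind
  clear p3
  refine quad ma mb p2 m1 ab (mv b hP ?_ (fun x => ?_) (fun x => ?_))
    (mv c ?_ ?_ (fun x => ?_) (fun x => ?_))
    (mv b ?_ ?_ (fun x => ?_) (fun x => ?_)).symm c ?_ ?_ c ?_ ?_ <;>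
    (try simp only [Ma, Mb]) <;> grind

end Pool.Agent.H74.Rg
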