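import Pool.Agent.H74.Rg2

namespace Pool.Agent.H74.Rg
open SimpleGraph

variable {V : Type} {G : SimpleGraph V} {v c l0 : V}

theorem Ctx.case1b [Finite V] (K : Ctx G v c l0)
    (h1 : ∀ x, G.Adj v x → ∃ l, G.Adj c l ∧ ¬ G.Adj v l ∧ G.Adj x l)
    (hB : ∀ b, G.Adj v b → ∃ x, G.Adj v x ∧ ¬ G.Adj c x ∧ x ≠ b) {b0 : V} (hb0 : G.Adj v b0) :
    Short (Rec G) := by
  have f3 := K.f3
  have fB := K.fB
  have ma := K.ma
  have mb := K.mb
  have ab := K.ab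
  obtain ⟨b1, a1, a2, -⟩ := hB b0 hb0
  obtain ⟨b2, a3, a4, a5⟩ := hB b1 a1
  have mc := K.mc a1 a2
  have ca := K.ca a1 a2
  have fl3 : ∀ l x y, G.Adj c l → ¬ G.Adj v l → G.Adj v x → ¬ G.Adj x l → G.Adj v y →
      ¬ G.Adj y l → x = y := by
    intro l x y e1 e2 e3 e4 e5 e6
    obtain ⟨l', e7, e8, e9⟩ := h1 x e3
    exact K.fl1 l l' x y e1 e2 e7 e8 e3 e4 e5 e6 e9
  clear h1
  obtain ⟨sy, ir, vc, ne, cl, vl, f1, H2, -⟩ := K
  by_cases hq : ∃ b l, G.Adj v b ∧ ¬ G.Adj c b ∧ G.Adj c l ∧ ¬ G.Adj v l ∧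
      ∀ x, x = b ∨ x = l ∨ G.Adj x b ∨ G.Adj x l
  · obtain ⟨b, l, e1, e2, e3, e4, e5⟩ := hq
    clear H2 hB fl3
    have m1 : MD G (fun x => x = b ∨ x = l) := by
      refine md_priv (fun x hx => ?_) ?_
      · rcases e5 x with h | h | h | h
        · exact absurd (Or.inl h) hx
        · exact absurd (Or.inr h) hx
        · exact ⟨b, Or.inl rfl, h⟩
        · exact ⟨l, Or.inr rfl, h⟩
      · rintro u (rfl | rfl)
        · exact ⟨v, by grind⟩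
        · exact ⟨c, by grind⟩
    refine quad ma mb m1 mc ab (mv b ?_ ?_ (fun x => ?_) (fun x => ?_))
      (mv l ?_ ?_ (fun x => ?_) (fun x => ?_)).symm ca c ?_ ?_ c ?_ ?_ <;>
      (try simp only [Ma, Mb, Mc]) <;> (try have := e5 x) <;> grind
  have hn : ∀ b l, G.Adj v b → ¬ G.Adj c b → G.Adj c l → ¬ G.Adj v l →
      ∃ x, x ≠ b ∧ x ≠ l ∧ ¬ G.Adj x b ∧ ¬ G.Adj x l := by
    intro b l e1 e2 e3 e4
    by_contra h
    refine hq ⟨b, l, e1, e2, e3, e4, fun x => ?_⟩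
    by_contra h'
    exact h ⟨x, by tauto⟩
  clear hq
  have BL : ∀ y l, G.Adj v y → ¬ G.Adj c y → G.Adj c l → ¬ G.Adj v l → G.Adj y l := by
    intro y l e1 e2 e3 e4
    by_contra e5
    obtain ⟨x, x1, x2, x3, x4⟩ := hn y l e1 e2 e3 e4
    obtain ⟨b, d1, d2, d3⟩ := hB y e1
    have g1 := fl3 l x y e3 e4
    have g2 := fl3 l b y e3 e4
    have g3 := H2 y b l c x
    have g4 := f3 x y
    have g5 := fB b y
    clear hn hB H2 fl3 f3 fB
    by_cases G.Adj v x <;> by_cases G.Adj c x <;> by_cases G.Adj b l <;> by_cases x = c <;>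
      grind (splits := 40)
  obtain ⟨y, y1, y2, y3, y4⟩ := hn b1 l0 a1 a2 cl vl
  have hy : G.Adj v y := by
    have g1 := f3 y b1
    have g2 := BL b1 y
    clear hn hB H2 fl3 f3 fB BL
    grind
  have yB : ∀ b, G.Adj v b → ¬ G.Adj c b → ¬ G.Adj y b := by
    intro b e1 e2
    obtain ⟨x, x1, x2, x3, x4⟩ := hn b l0 e1 e2 cl vl
    have g1 := f3 x b
    have g2 := BL b x
    have g3 := fl3 l0 x y cl vl
    clear hn hB H2 fl3 f3 fB BL
    by_cases G.Adj v x <;> by_cases G.Adj c x <;> by_cases x = c <;> grind (splits := 40)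
  have cy : G.Adj c y := by
    have g2 := BL y l0
    clear hn hB H2 fl3 f3 fB BL
    grind
  have yL : ∀ l, G.Adj c l → ¬ G.Adj v l → l = l0 ∨ G.Adj y l := by
    intro l e1 e2
    have g1 := H2 y b1 l0 b2 l (BL _ _ a1 a2 cl vl) (BL _ _ a3 a4 e1 e2)
    have g2 := yB b1 a1 a2
    have g3 := yB b2 a3 a4
    clear hn hB H2 fl3 f3 fB BL yB
    grind
  have lN : ∀ x, G.Adj v x → x = y ∨ G.Adj x l0 := by
    intro x e
    have g3 := fl3 l0 x y cl vl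
    clear hn hB H2 fl3 f3 fB BL yB
    grind
  clear hn hB H2 fl3
  have m1 : MD G (fun x => x = y ∨ x = l0) := by
    refine md_ind (by grind) (fun x hx => ?_)
    by_cases e : G.Adj x l0
    · exact ⟨l0, Or.inr rfl, e⟩
    · exact ⟨y, Or.inl rfl, by grind⟩
  obtain ⟨P, p1, p2, p3⟩ := md_ext (G := G) (I := fun x => (G.Adj v x ∧ ¬ G.Adj c x) ∨ x = y)
    (by grind)
  have py : P y := p1 y (Or.inr rfl)
  have pb : P b1 := p1 b1 (Or.inl ⟨a1, a2⟩)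
  have pN : ∀ x, P x → G.Adj v x := by
    intro x hx
    have g1 := p3 x y hx py
    have g2 := p3 x b1 hx pb
    have g3 := f3 x y
    have g4 := BL b1 x
    clear f3 fB BL yB p3 p1 lN yL
    grind
  clear p3
  refine pent ma mb m1 p2 mc ab (mv y ?_ ?_ (fun x => ?_) (fun x => ?_))
    (mv l0 ?_ ?_ (fun x => ?_) (fun x => ?_)).symm (mv c ?_ ?_ (fun x => ?_) (fun x => ?_)) ca <;>
    (try simp only [Ma, Mb, Mc]) <;> grind

theorem Ctx.case2 [Finite V] (K : Ctx G v c l0)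
    (n0 : ∀ b, G.Adj v b → G.Adj c b → ∃ l, G.Adj c l ∧ ¬ G.Adj v l ∧ ¬ G.Adj b l)
    {y0 : V} (hy : Bp G v c y0) : Short (Rec G) := by
  have f3 := K.f3
  have fB := K.fB
  have fB1 := K.fB1
  have fl := K.fl l0
  have ma := K.ma
  have mb := K.mb
  have ab := K.ab
  have md := K.md hy
  have bd := K.bd hy
  have mc := @K.mc
  have ca := @K.ca
  have f4 : ∀ x l, G.Adj v x → ¬ Bp G v c x → G.Adj c l → ¬ G.Adj v l → G.Adj x l := by
    intro x l e1 e2 e3 e4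
    by_contra e5
    refine e2 ⟨e1, fun l' e6 e7 e8 => ?_⟩
    have := K.fl1 l l' x y0 e3 e4 e6 e7 e1 e5 hy.1 (hy.2 l e3 e4) e8
    exact hy.2 l' e6 e7 (this ▸ e8)
  have f5 : ∀ x, G.Adj v x → G.Adj c x → Bp G v c x := by
    intro x e1 e2
    by_contra e3
    obtain ⟨l, d1, d2, d3⟩ := n0 x e1 e2
    exact d3 (f4 x l e1 e3 d1 d2)
  have p1 : ∀ x, Bp G v c x → G.Adj v x := fun x h => h.1
  have p2 : ∀ x l, Bp G v c x → G.Adj c l → ¬ G.Adj v l → ¬ G.Adj x l := fun x l h => h.2 l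
  have p3 : ∀ x y, Bp G v c x → Bp G v c y → ¬ G.Adj x y := fun x y h h' =>
    fl x y K.cl K.vl h.1 (h.2 _ K.cl K.vl) h'.1 (h'.2 _ K.cl K.vl)
  have hMd : ∀ x, Md G v c x ↔ (G.Adj c x ∧ ¬ G.Adj v x) ∨ Bp G v c x := fun _ => Iff.rfl
  have vy := hy.1
  have yl := hy.2 _ K.cl K.vl
  generalize Bp G v c = Q at *
  clear n0 fl
  obtain ⟨sy, ir, vc, ne, cl, vl, f1, H2, -⟩ := K
  by_cases hB : ∀ x, G.Adj v x → G.Adj c x
  · clear H2 fB1 fB
    have m1 : MD G (fun x => x = y0 ∨ x = c) := by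
      refine md_priv (fun x hx => ?_) ?_
      · by_cases e : G.Adj c x
        · exact ⟨c, Or.inr rfl, by grind⟩
        · exact ⟨y0, Or.inl rfl, by grind⟩
      · rintro u (rfl | rfl)
        · exact ⟨v, by grind⟩
        · exact ⟨l0, by grind⟩
    refine quad ma mb md m1 ab bd (mv c ?_ ?_ (fun x => ?_) (fun x => ?_))
      (mv y0 ?_ ?_ (fun x => ?_) (fun x => ?_)).symm c ?_ ?_ c ?_ ?_ <;>
      (try simp only [Ma, Mb, hMd]) <;> grind
  push Not at hB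
  obtain ⟨b1, a1, a2⟩ := hB
  have mc := mc a1 a2
  have ca := ca a1 a2
  by_cases hS : ∀ x, G.Adj v x → ¬ G.Adj c x → Q x
  · clear H2 fB1
    refine quad ma mb md mc ab bd (mv c ?_ ?_ (fun x => ?_) (fun x => ?_)) ca c ?_ ?_ c ?_ ?_ <;>
      (try simp only [Ma, Mb, Mc, hMd]) <;> grind
  push Not at hS
  obtain ⟨b0, d1, d2, d3⟩ := hS
  have bl := f4 b0 l0 d1 d3 cl vl
  by_cases hI : ∃ y, Q y ∧ ¬ G.Adj c y
  · obtain ⟨y, y1, y2⟩ := hI
    have g0 := fB y b0 (p1 y y1) y2 d1 d2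
    have g0' := p2 y l0 y1 cl vl
    have g0'' := p1 y y1
    have L1 : ∀ l, G.Adj c l → ¬ G.Adj v l → l = l0 := by
      intro l e1 e2
      have g1 := H2 y c l b0 l0 e1 bl
      have g2 := p2 y l y1 e1 e2
      clear H2 fB1 fB f3 f4 f5 p1 p2 p3 hMd
      grind
    have B1 : ∀ x, Q x → ¬ G.Adj c x := by
      intro x e1 e2
      have g1 := H2 y c x b0 l0 e2 bl
      have g2 := p3 y x y1 e1
      have g3 := p1 x e1
      clear H2 fB1 fB f3 f4 f5 p1 p2 p3 hMd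
      grind
    clear H2 fB1
    refine quad ma mb md mc ab bd (mv l0 ?_ ?_ (fun x => ?_) (fun x => ?_)).symm
      ca c ?_ ?_ c ?_ ?_ <;> (try simp only [Ma, Mb, Mc, hMd]) <;> grind
  have hC : ∀ y, Q y → G.Adj c y := by
    intro y e
    by_contra e'
    exact hI ⟨y, e, e'⟩
  clear hI
  have BL : ∀ x l, G.Adj v x → ¬ G.Adj c x → G.Adj c l → ¬ G.Adj v l → G.Adj x l :=
    fun x l e1 e2 => f4 x l e1 (fun e => e2 (hC x e))
  have cy := hC y0 hy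
  clear f4
  by_cases ht : (∃ b, G.Adj v b ∧ ¬ G.Adj c b ∧ G.Adj y0 b) ∧ ∃ p, p ≠ y0 ∧ ¬ G.Adj p y0 ∧
      ∀ w, G.Adj v w → ¬ G.Adj c w → ¬ G.Adj y0 w → p ≠ w ∧ ¬ G.Adj p w
  · obtain ⟨⟨b, e1, e2, e3⟩, p, q1, q2, q3⟩ := ht
    clear H2
    have m1 : MD G (fun x => x = c ∨ x = y0 ∨ (G.Adj v x ∧ ¬ G.Adj c x ∧ ¬ G.Adj y0 x)) := by
      clear fB1
      refine md_priv (fun x hx => ?_) ?_
      · by_cases e : G.Adj c x
        · exact ⟨c, Or.inl rfl, by grind⟩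
        · exact ⟨y0, Or.inr (Or.inl rfl), by grind⟩
      · rintro u (rfl | rfl | hu)
        · exact ⟨p, by grind⟩
        · exact ⟨b, by grind⟩
        · exact ⟨u, by grind⟩
    clear q3
    refine tri mc ma m1 ca ?_ (mv y0 ?_ ?_ (fun x => ?_) (fun x => ?_)).symm
    · rcases fB1 with h | h
      · refine (mv v ?_ ?_ (fun x => ?_) (fun x => ?_)).symm <;> (try simp only [Ma]) <;> grind
      · refine mv y0 ?_ ?_ (fun x => ?_) (fun x => ?_) <;> (try simp only [Ma]) <;> grind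
    all_goals (clear fB1; (try simp only [Mc]); grind)
  clear fB1
  obtain ⟨w0, w1, w2, w3⟩ : ∃ w, G.Adj v w ∧ ¬ G.Adj c w ∧ ¬ G.Adj y0 w := by
    by_contra h
    refine ht ⟨⟨b0, d1, d2, ?_⟩, l0, ?_, ?_, fun w e1 e2 e3 => absurd ⟨w, e1, e2, e3⟩ h⟩
    · by_contra e
      exact h ⟨b0, d1, d2, e⟩
    · rintro rfl
      exact vl vy
    · exact fun e => yl e.symm
  let R : V → Prop := fun x => Q x ∧ ∀ w, G.Adj v w → ¬ G.Adj c w → ¬ G.Adj y0 w → ¬ G.Adj x w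
  have r1 : ∀ x, R x → Q x := fun x h => h.1
  have r2 : ∀ x w, R x → G.Adj v w → ¬ G.Adj c w → ¬ G.Adj y0 w → ¬ G.Adj x w := fun x w h => h.2 w
  have r3 : ∀ x, Q x → ¬ R x → ∃ w, G.Adj v w ∧ ¬ G.Adj c w ∧ ¬ G.Adj y0 w ∧ G.Adj x w := by
    intro x e1 e2
    by_contra h
    exact e2 ⟨e1, fun w a b c d => h ⟨w, a, b, c, d⟩⟩
  have r0 : R y0 := ⟨hy, fun w _ _ h => h⟩
  have r4 : (∀ b, G.Adj v b → ¬ G.Adj c b → ¬ G.Adj y0 b) ∨ ∀ x, R x → x = y0 := by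
    by_contra h
    push Not at h
    obtain ⟨⟨b, e1, e2, e3⟩, x, x1, x2⟩ := h
    refine ht ⟨⟨b, e1, e2, e3⟩, x, x2, p3 _ _ x1.1 hy, fun w a1 a2 a3 => ⟨?_, x1.2 w a1 a2 a3⟩⟩
    rintro rfl
    exact a2 (hC _ x1.1)
  clear ht
  clear_value R
  have m1 : MD G (fun x => (G.Adj v x ∧ ¬ G.Adj c x ∧ ¬ G.Adj y0 x) ∨ R x) := by
    clear H2 r4
    refine md_ind (by clear r3; grind) (fun x hx => ?_)
    by_cases e : G.Adj y0 x
    · exact ⟨y0, Or.inr r0, e.symm⟩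
    · by_cases e' : Q x
      · obtain ⟨w, e1, e2, e3, e4⟩ := r3 x e' (fun h => hx (Or.inr h))
        exact ⟨w, Or.inl ⟨e1, e2, e3⟩, e4⟩
      · exact ⟨w0, Or.inl ⟨w1, w2, w3⟩, by clear r3; grind⟩
  refine pent ma mb md m1 mc ab bd ?_ ?_ ca
  · by_cases hW : ∀ w, G.Adj v w → ¬ G.Adj c w → ¬ G.Adj y0 w → w = w0
    · have r5 : ∀ x, Q x → ¬ R x → G.Adj x w0 := by
        intro x e1 e2
        obtain ⟨w, e3, e4, e5, e6⟩ := r3 x e1 e2
        exact hW w e3 e4 e5 ▸ e6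
      clear H2 r3 r4
      refine mv w0 ?_ ?_ (fun x => ?_) (fun x => ?_) <;> (try simp only [hMd]) <;> grind
    · push Not at hW
      obtain ⟨w', u1, u2, u3, u4⟩ := hW
      have L1 : ∀ l, G.Adj c l → ¬ G.Adj v l → l = l0 := by
        intro l e1 e2
        have g1 := H2 y0 w0 l0 w' l (BL _ _ w1 w2 cl vl) (BL _ _ u1 u2 e1 e2)
        have g2 := p2 y0 l hy e1 e2
        clear H2 fB f3 f5 p1 p2 p3 hMd r1 r2 r3 r4 BL hC
        grind
      have r5 : ∀ x, Q x → R x := by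
        intro x e1
        by_contra e2
        obtain ⟨w, e3, e4, e5, e6⟩ := r3 x e1 e2
        have g1 := H2 y0 x w w0 l0 e6 (BL _ _ w1 w2 cl vl)
        have g2 := H2 y0 x w w' l0 e6 (BL _ _ u1 u2 cl vl)
        have g3 := p3 y0 x hy e1
        have g4 := hC x e1
        have g5 := p1 x e1
        clear H2 fB f3 f5 p1 p2 p3 hMd r1 r2 r3 r4 BL hC L1
        by_cases w = w0 <;> grind (splits := 60)
      clear H2 r3 r4
      refine (mv l0 ?_ ?_ (fun x => ?_) (fun x => ?_)).symm <;> (try simp only [hMd]) <;> grind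
  · clear H2 r3
    rcases r4 with h | h
    · refine mv c ?_ ?_ (fun x => ?_) (fun x => ?_) <;> (try simp only [Mc]) <;> grind
    · refine (mv y0 ?_ ?_ (fun x => ?_) (fun x => ?_)).symm <;> (try simp only [Mc]) <;> grind

theorem Ctx.core [Finite V] (K : Ctx G v c l0) {b : V} (hb : G.Adj v b) : Short (Rec G) := by
  by_cases n0 : ∀ b, G.Adj v b → G.Adj c b → ∃ l, G.Adj c l ∧ ¬ G.Adj v l ∧ ¬ G.Adj b l
  swap
  · push Not at n0
    obtain ⟨b, h1, h2, h3⟩ := n0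
    exact K.case0 h1 h2 h3
  by_cases h2 : ∃ y, Bp G v c y
  · obtain ⟨y, hy⟩ := h2
    exact K.case2 n0 hy
  have h1 : ∀ x, G.Adj v x → ∃ l, G.Adj c l ∧ ¬ G.Adj v l ∧ G.Adj x l := by
    intro x hx
    by_contra h
    exact h2 ⟨x, hx, fun l a b c => h ⟨l, a, b, c⟩⟩
  by_cases hB : ∀ b, G.Adj v b → ∃ x, G.Adj v x ∧ ¬ G.Adj c x ∧ x ≠ b
  · exact K.case1b h1 hB hb
  · push Not at hB
    obtain ⟨b, h3, h4⟩ := hB
    exact K.case1a n0 h1 h3 h4

end Pool.Agent.H74.Rg
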