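import Pool.Agent.H74.Rg3

namespace Pool.Agent.H74.Rg
open SimpleGraph

variable {V : Type} {G : SimpleGraph V}

def Bad (G : SimpleGraph V) : Prop :=
  (∃ a b d e, G.Adj a b ∧ G.Adj d e ∧ a ≠ d ∧ a ≠ e ∧ b ≠ d ∧ b ≠ e) ∨
    ∃ a b d, G.Adj a b ∧ G.Adj b d ∧ G.Adj a d

theorem multi (hb : Bad G) (h : ∀ v x y, G.Adj x y → G.Adj v x ∨ G.Adj v y) :
    Short (Rec G) := by
  have sy : ∀ x y, G.Adj x y → G.Adj y x := fun _ _ h => h.symm
  have ir : ∀ x, ¬ G.Adj x x := fun x => G.loopless.1 x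
  have mT : ∀ a, MD G (fun x => ¬ G.Adj a x) := fun a =>
    md_ind (fun x y h1 h2 h3 => (h a x y h3).elim h1 h2)
      (fun x hx => ⟨a, ir a, (not_not.1 hx).symm⟩)
  by_cases h1 : ∃ a b a' b', G.Adj a b ∧ a' ≠ a ∧ ¬ G.Adj a a' ∧ b' ≠ b ∧ ¬ G.Adj b b'
  · obtain ⟨a, b, a', b', e1, e2, e3, e4, e5⟩ := h1
    have key : ∀ s s', G.Adj s b → s' ≠ s → ¬ G.Adj s s' → MD G (fun x => x = s ∨ x = b) := by
      intro s s' d1 d2 d3
      refine md_priv (fun x hx => ?_) ?_
      · rcases h x s b d1 with g | g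
        · exact ⟨s, Or.inl rfl, g⟩
        · exact ⟨b, Or.inr rfl, g⟩
      · rintro u (rfl | rfl)
        · exact ⟨b', by clear h; grind⟩
        · exact ⟨s', by clear h; grind⟩
    have e6 : G.Adj a' b := by
      have := h a' a b e1
      clear h
      grind
    refine quad (mT a) (key a a' e1 e2 e3) (mT b) (key a' a e6 e2.symm (fun e => e3 e.symm))
      (mv b ?_ ?_ (fun x => ?_) (fun x => ?_)) (mv a ?_ ?_ (fun x => ?_) (fun x => ?_)).symm
      (mv a' ?_ ?_ (fun x => ?_) (fun x => ?_)) (mv b ?_ ?_ (fun x => ?_) (fun x => ?_)).symm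
      a ?_ ?_ a' ?_ ?_ <;> (try have g1 := h x a b e1) <;> (try have g2 := h x a' b e6) <;>
      clear h key mT <;> grind
  have h2 : ∀ a b, G.Adj a b → (∀ x, x = a ∨ G.Adj a x) ∨ ∀ x, x = b ∨ G.Adj b x := by
    intro a b e
    by_contra g
    push Not at g
    obtain ⟨⟨x, x1, x2⟩, y, y1, y2⟩ := g
    exact h1 ⟨a, b, x, y, e, x1, x2, y1, y2⟩
  have h3 : ∀ a b, G.Adj a b → AA G (fun x => ¬ G.Adj a x) (fun x => ¬ G.Adj b x) := by
    intro a b e
    rcases h2 a b e with g | g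
    · refine (mv a (ir a) (not_not.2 e.symm) (fun x x1 x2 => ?_) (fun x _ h => not_not.1 h)).symm
      exact absurd ((g x).resolve_left x2) x1
    · refine mv b (ir b) (not_not.2 e) (fun x x1 x2 => ?_) (fun x _ h => not_not.1 h)
      exact absurd ((g x).resolve_left x2) x1
  obtain ⟨a, b, d, e1, e2, e3⟩ : ∃ a b d, G.Adj a b ∧ G.Adj b d ∧ G.Adj a d := by
    rcases hb with ⟨a, b, d, e, e1, e2, n1, n2, n3, n4⟩ | hb
    · rcases h2 a b e1 with g | g
      · exact ⟨a, d, e, (g d).resolve_left n1.symm, e2, (g e).resolve_left n2.symm⟩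
      · exact ⟨b, d, e, (g d).resolve_left n3.symm, e2, (g e).resolve_left n4.symm⟩
    · exact hb
  exact tri (mT a) (mT b) (mT d) (h3 _ _ e1) (h3 _ _ e2) (h3 _ _ e3.symm)

theorem star (S : V → Prop) {x y : V} (hx : S x) (hy : S y) (hxy : G.Adj x y)
    (H2 : ∀ a b d e, S a → S b → S d → S e → G.Adj a b → G.Adj d e →
      a = d ∨ a = e ∨ b = d ∨ b = e)
    (H3 : ∀ a b d, S a → S b → S d → G.Adj a b → G.Adj b d → ¬ G.Adj a d) :
    ∃ c l, S c ∧ S l ∧ G.Adj c l ∧ ∀ a b, S a → S b → G.Adj a b → a = c ∨ b = c := by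
  by_cases h : ∀ a b, S a → S b → G.Adj a b → a = x ∨ b = x
  · exact ⟨x, y, hx, hy, hxy, h⟩
  push Not at h
  obtain ⟨a, b, ha, hb, hab, a1, b1⟩ := h
  refine ⟨y, x, hy, hx, hxy.symm, fun d e hd he hde => ?_⟩
  have g1 := H2 x y a b hx hy ha hb hxy hab
  have g2 := H2 x y d e hx hy hd he hxy hde
  have g3 := H2 a b d e ha hb hd he hab hde
  have g4 := H3 x y d hx hy hd hxy
  have g5 := H3 x y e hx hy he hxy
  have := hab.symm
  have := hde.symm
  clear H2 H3
  grind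

theorem main (n : ℕ) : ∀ (V : Type) [Finite V] (G : SimpleGraph V), Nat.card V = n → Bad G →
    Short (Rec G) := by
  induction n using Nat.strong_induction_on with
  | _ n ih =>
  intro V _ G hn hb
  by_cases h : ∃ u, Bad (G.induce {x | x ≠ u ∧ ¬ G.Adj u x})
  · obtain ⟨u, hu⟩ := h
    refine lift u (ih _ ?_ _ _ rfl hu)
    rw [← hn]
    exact Finite.card_subtype_lt (x := u) (fun h => h.1 rfl)
  push Not at h
  have H2 : ∀ u a b d e, G.Adj a b → G.Adj d e → a = u ∨ b = u ∨ d = u ∨ e = u ∨ G.Adj u a ∨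
      G.Adj u b ∨ G.Adj u d ∨ G.Adj u e ∨ a = d ∨ a = e ∨ b = d ∨ b = e := by
    intro u a b d e h1 h2
    by_contra g
    push Not at g
    obtain ⟨a1, b1, d1, e1, a2, b2, d2, e2, n1, n2, n3, n4⟩ := g
    exact h u (Or.inl ⟨⟨a, a1, a2⟩, ⟨b, b1, b2⟩, ⟨d, d1, d2⟩, ⟨e, e1, e2⟩, h1, h2,
      fun g => n1 (congrArg Subtype.val g), fun g => n2 (congrArg Subtype.val g),
      fun g => n3 (congrArg Subtype.val g), fun g => n4 (congrArg Subtype.val g)⟩)
  have H3 : ∀ u a b d, G.Adj a b → G.Adj b d → G.Adj a d →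
      a = u ∨ b = u ∨ d = u ∨ G.Adj u a ∨ G.Adj u b ∨ G.Adj u d := by
    intro u a b d h1 h2 h3
    by_contra g
    push Not at g
    obtain ⟨a1, b1, d1, a2, b2, d2⟩ := g
    exact h u (Or.inr ⟨⟨a, a1, a2⟩, ⟨b, b1, b2⟩, ⟨d, d1, d2⟩, h1, h2, h3⟩)
  clear h ih
  by_cases hm : ∀ v x y, G.Adj x y → G.Adj v x ∨ G.Adj v y
  · exact multi hb hm
  push Not at hm
  obtain ⟨v, x, y, h1, h2, h3⟩ := hm
  have sy : ∀ x y, G.Adj x y → G.Adj y x := fun _ _ h => h.symm
  obtain ⟨c, l, c1, l1, cl, f1⟩ := star (G := G) (fun z => ¬ G.Adj v z) h2 h3 h1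
    (fun a b d e s1 s2 s3 s4 e1 e2 => by
      have := H2 v a b d e e1 e2
      clear H2 H3
      grind (splits := 30))
    (fun a b d s1 s2 s3 e1 e2 e3 => by
      have := H3 v a b d e1 e2 e3
      clear H2 H3
      grind)
  obtain ⟨b, vb⟩ : ∃ b, G.Adj v b := by
    by_contra g
    push Not at g
    rcases hb with ⟨a, b, d, e, e1, e2, n1, n2, n3, n4⟩ | ⟨a, b, d, e1, e2, e3⟩
    · have := f1 a b (g a) (g b) e1
      have := f1 d e (g d) (g e) e2
      clear H2 H3 f1
      grind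
    · have := f1 a b (g a) (g b) e1
      have := f1 b d (g b) (g d) e2
      have := f1 a d (g a) (g d) e3
      have := e1.ne
      have := e2.ne
      have := e3.ne
      clear H2 H3 f1
      grind
  exact Ctx.core (c := c) (l0 := l) ⟨sy, fun x => G.loopless.1 x, c1, fun e => l1 (e ▸ cl), cl, l1,
    f1, H2, H3⟩ vb

theorem acyc [Finite V] (h : ¬ Bad G) : (Rec G).IsAcyclic := by
  classical
  have hs : (∀ M : Set V, Dom G M → M = Set.univ) ∨ ∃ c, ∀ x y, G.Adj x y → x = c ∨ y = c := by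
    by_cases e : ∃ x y, G.Adj x y
    · obtain ⟨x, y, e⟩ := e
      obtain ⟨c, -, -, -, -, hc⟩ := star (G := G) (fun _ => True) trivial trivial e
        (fun a b d e _ _ _ _ e1 e2 => by
          by_contra g
          push Not at g
          exact h (Or.inl ⟨a, b, d, e, e1, e2, g⟩))
        (fun a b d _ _ _ e1 e2 e3 => h (Or.inr ⟨a, b, d, e1, e2, e3⟩))
      exact Or.inr ⟨c, fun x y => hc x y trivial trivial⟩
    · refine Or.inl fun M hM => Set.eq_univ_of_forall fun x => ?_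
      rcases hM x with g | ⟨y, -, g⟩
      · exact g
      · exact absurd ⟨x, y, g⟩ e
  rcases hs with hs | ⟨c, h⟩
  · haveI : Subsingleton {M : Set V // MinDom G M} :=
      ⟨fun a b => Subtype.ext ((hs _ a.2.1).trans (hs _ b.2.1).symm)⟩
    exact IsAcyclic.of_subsingleton
  have hin : ∀ M, MinDom G M → c ∈ M → M = {x | ¬ G.Adj c x} := by
    intro M hM hc
    ext x
    constructor
    · intro hx hcx
      refine hM.2 x hx fun y => ?_
      by_cases e : G.Adj c y
      · exact Or.inr ⟨c, ⟨hc, hcx.ne⟩, e.symm⟩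
      · left
        rcases hM.1 y with h1 | ⟨z, hz, h1⟩
        · exact ⟨h1, fun e' => e (e' ▸ hcx)⟩
        · rcases h y z h1 with rfl | rfl
          · exact ⟨hc, hcx.ne⟩
          · exact absurd h1.symm e
    · intro hx
      rcases hM.1 x with h1 | ⟨z, hz, h1⟩
      · exact h1
      · rcases h x z h1 with rfl | rfl
        · exact hc
        · exact absurd h1.symm hx
  have hout : ∀ M, MinDom G M → c ∉ M → M = {x | x ≠ c} := by
    intro M hM hc
    ext x
    constructor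
    · rintro hx rfl
      exact hc hx
    · intro hx
      rcases hM.1 x with h1 | ⟨z, hz, h1⟩
      · exact h1
      · rcases h x z h1 with rfl | rfl
        · exact absurd rfl hx
        · exact absurd hz hc
  have inj : ∀ M M' : {M : Set V // MinDom G M}, (c ∈ M.1 ↔ c ∈ M'.1) → M = M' := by
    intro M M' e
    apply Subtype.ext
    by_cases hc : c ∈ M.1
    · rw [hin _ M.2 hc, hin _ M'.2 (e.1 hc)]
    · rw [hout _ M.2 hc, hout _ M'.2 (fun h' => hc (e.2 h'))]
  have hinj : Function.Injective (fun M : {M : Set V // MinDom G M} => decide (c ∈ M.1)) :=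
    fun M M' e => inj _ _ (by simpa using e)
  exact IsAcyclic.comap (G' := (⊤ : SimpleGraph Bool)) ⟨_, fun h => hinj.ne h.ne⟩ hinj
    (IsAcyclic.of_card_le_two (by simp))

end Pool.Agent.H74.Rg
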