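import Mathlib
import Pool.Agent.H74.KP1

set_option autoImplicit false

noncomputable section

namespace Pool.Agent.H74.SC

open unitInterval Set Topology

theorem t2_quot {A : Type} [TopologicalSpace A] [CompactSpace A] [T2Space A] (s : Setoid A)
    (h : IsClosed {z : A × A | s z.1 z.2}) : T2Space (Quotient s) := by
  have hc : ∀ C : Set A, IsClosed C → IsClosed (Quotient.mk s '' C) := fun C hC => by
    rw [← isQuotientMap_quotient_mk'.isClosed_preimage]
    have : (Quotient.mk' : A → Quotient s) ⁻¹' (Quotient.mk s '' C) =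
        Prod.snd '' ((C ×ˢ univ) ∩ {z : A × A | s z.1 z.2}) := by
      ext a
      constructor
      · rintro ⟨c, hc, e⟩; exact ⟨(c, a), ⟨⟨hc, trivial⟩, Quotient.exact e⟩, rfl⟩
      · rintro ⟨⟨c, a⟩, ⟨⟨hc, -⟩, e⟩, rfl⟩; exact ⟨c, hc, Quotient.sound e⟩
    rw [this]
    exact (((hC.prod isClosed_univ).inter h).isCompact.image continuous_snd).isClosed
  have hf : ∀ x : Quotient s, IsClosed (Quotient.mk s ⁻¹' {x}) := fun x => by
    obtain ⟨a, rfl⟩ := Quotient.exists_rep x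
    have := hc {a} isClosed_singleton
    rw [image_singleton] at this
    exact this.preimage continuous_quotient_mk'
  refine ⟨fun x y hxy => ?_⟩
  obtain ⟨U, V, hU, hV, h1, h2, hd⟩ := normal_separation (hf x) (hf y)
    (disjoint_left.2 fun a h1 h2 => hxy (h1.symm.trans h2))
  refine ⟨(Quotient.mk s '' Uᶜ)ᶜ, (Quotient.mk s '' Vᶜ)ᶜ, (hc _ hU.isClosed_compl).isOpen_compl,
    (hc _ hV.isClosed_compl).isOpen_compl, ?_, ?_, disjoint_left.2 fun z a b => ?_⟩
  · rintro ⟨a, ha, e⟩; exact ha (h1 e)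
  · rintro ⟨a, ha, e⟩; exact ha (h2 e)
  · obtain ⟨c, rfl⟩ := Quotient.exists_rep z
    by_cases hc : c ∈ U
    · exact b ⟨c, disjoint_left.1 hd hc, rfl⟩
    · exact a ⟨c, hc, rfl⟩

abbrev S1 := AddCircle (1 : ℝ)

section Pb
variable {X E B : Type} [TopologicalSpace X] [TopologicalSpace E] [TopologicalSpace B]

abbrev Pb (c : X → B) (p : E → B) := {z : X × E // c z.1 = p z.2}

theorem pb_cov {c : X → B} {p : E → B} (hc : Continuous c) (hp : IsCoveringMap p) :
    IsCoveringMap (fun z : Pb c p => z.1.1) := fun x => by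
  obtain ⟨hd, U, hx, hU, hU', H, hH⟩ := hp (c x)
  refine @IsEvenlyCovered.to_isEvenlyCovered_preimage _ _ _ _ _ (p ⁻¹' {c x}) _ _
    ⟨hd, c ⁻¹' U, hx, hU.preimage hc, (hU.preimage hc).preimage (by fun_prop), ?_⟩
  have m1 : ∀ z : (fun z : Pb c p => z.1.1) ⁻¹' (c ⁻¹' U), z.1.1.2 ∈ p ⁻¹' U := fun z => by
    have := z.2
    rw [mem_preimage, mem_preimage, z.1.2] at this
    exact this
  have m2 : ∀ y : (c ⁻¹' U) × (p ⁻¹' {c x}), c y.1.1 = p (H.symm (⟨c y.1.1, y.1.2⟩, y.2)).1 :=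
    fun y => by rw [← hH, H.apply_symm_apply]
  refine ⟨{ toFun := fun z => (⟨z.1.1.1, z.2⟩, (H ⟨z.1.1.2, m1 z⟩).2)
            invFun := fun y => ⟨⟨(y.1.1, (H.symm (⟨c y.1.1, y.1.2⟩, y.2)).1), m2 y⟩, y.1.2⟩
            left_inv := fun z => ?_
            right_inv := fun y => ?_
            continuous_toFun := by fun_prop
            continuous_invFun := by fun_prop }, fun _ => rfl⟩
  · have : (⟨c z.1.1.1, z.2⟩, (H ⟨z.1.1.2, m1 z⟩).2) = H ⟨z.1.1.2, m1 z⟩ :=
      Prod.ext (Subtype.ext (z.1.2.trans (hH ⟨z.1.1.2, m1 z⟩).symm)) rfl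
    ext
    · rfl
    · simp only [this, H.symm_apply_apply]
  · simp
end Pb

theorem exists_lift (g : I → S1) (hg : Continuous g) (a : ℝ) (h : g 0 = a) :
    ∃ s : I → ℝ, Continuous s ∧ (∀ t, g t = s t) ∧ s 0 = a := by
  obtain ⟨Γ, h1, h2⟩ := (AddCircle.isCoveringMap_coe (1 : ℝ)).exists_path_lifts ⟨g, hg⟩ a h
  exact ⟨Γ, Γ.continuous, fun t => (congrFun h1 t).symm, h2⟩

theorem coe_eq_zero {a : ℝ} : (a : S1) = 0 ↔ ∃ n : ℤ, (n : ℝ) = a := by
  rw [AddCircle.coe_eq_zero_iff]; simp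

theorem coe_eq {a b : ℝ} : (a : S1) = b ↔ ∃ n : ℤ, (n : ℝ) = a - b := by
  rw [← sub_eq_zero, ← AddCircle.coe_sub, coe_eq_zero]

theorem wind {X : Type} [TopologicalSpace X] (c : X → S1) (hc : Continuous c) (x₀ : X) :
    ∃ φ : FundamentalGroup X x₀ →* Multiplicative ℤ, ∀ (γ : Path x₀ x₀) (s : I → ℝ),
      Continuous s → (∀ t, c (γ t) = s t) →
      ((φ (FundamentalGroup.fromPath (Quotient.mk _ γ))).toAdd : ℝ) = s 1 - s 0 := by
  have hp := AddCircle.isAddQuotientCoveringMap_coe (1 : ℝ)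
  obtain ⟨a, ha⟩ : ∃ a : ℝ, (a : S1) = c x₀ := QuotientAddGroup.mk_surjective _
  let Ψ := (hp.fundamentalGroupToMulOpposite (x := c x₀) ⟨a, ha⟩).comp
    (FundamentalGroup.map ⟨c, hc⟩ x₀)
  have hz : ∀ u : AddSubgroup.zmultiples (1 : ℝ), ((⌊u.1⌋ : ℤ) : ℝ) = u.1 := by
    rintro ⟨_, n, rfl⟩; simp
  refine ⟨MonoidHom.mk' (fun γ => .ofAdd ⌊(Ψ γ).unop.toAdd.1⌋) fun x y => ?_, fun γ s hs h => ?_⟩
  · rw [← ofAdd_add, map_mul, MulOpposite.unop_mul, toAdd_mul]
    congr 1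
    apply Int.cast_injective (α := ℝ)
    rw [hz]
    push_cast
    rw [hz, hz, add_comm]
  · simp only [MonoidHom.mk'_apply, toAdd_ofAdd, hz]
    have h1 : (Ψ (FundamentalGroup.fromPath (Quotient.mk _ γ))).unop.toAdd.1 + a =
        hp.isCoveringMap.liftPath (γ.map hc) a (by simp [ha]) 1 :=
      hp.unop_fundamentalGroupToMulOpposite_smul (e := ⟨a, ha⟩)
    have h2 : (⟨fun t => s t - s 0 + a, by fun_prop⟩ : C(I, ℝ)) =
        hp.isCoveringMap.liftPath (γ.map hc) a (by simp [ha]) :=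
      (hp.isCoveringMap.eq_liftPath_iff' _).2 ⟨funext fun t => by
        simp [← h, ha], by simp⟩
    rw [← h2] at h1
    simpa using h1

section T
variable {W : Type} [TopologicalSpace W] (f : C(W, W))

def nf (z : W × I) : W × I := if z.2 = 1 then (f z.1, 0) else z

def T : Type := Quotient (Setoid.ker (nf f))

instance : TopologicalSpace (T f) := inferInstanceAs (TopologicalSpace (Quotient _))

def mk (x : W) (t : I) : T f := Quotient.mk _ (x, t)

theorem qm : IsQuotientMap fun z : W × I => mk f z.1 z.2 := isQuotientMap_quotient_mk'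

@[fun_prop] theorem cont_mk {A : Type} [TopologicalSpace A] {g : A → W} {k : A → I}
    (hg : Continuous g) (hk : Continuous k) : Continuous fun a => mk f (g a) (k a) :=
  (qm f).continuous.comp (hg.prodMk hk)

theorem mk_one (x : W) : mk f x 1 = mk f (f x) 0 := Quotient.sound (by simp [Setoid.ker_def, nf])

theorem mk_surj (y : T f) : ∃ x t, mk f x t = y := by
  obtain ⟨⟨x, t⟩, h⟩ := (qm f).surjective y
  exact ⟨x, t, h⟩

variable {f} in
theorem mk_eq {x y : W} {t s : I} : mk f x t = mk f y s ↔ (x = y ∧ t = s) ∨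
    (t = 1 ∧ s = 0 ∧ f x = y) ∨ (t = 0 ∧ s = 1 ∧ x = f y) ∨ (t = 1 ∧ s = 1 ∧ f x = f y) := by
  refine Quotient.eq.trans ?_
  simp only [Setoid.ker_def, nf]
  split_ifs with h1 h2 h2 <;> simp only [Prod.mk.injEq] <;> aesop

instance [CompactSpace W] : CompactSpace (T f) := Quotient.compactSpace

instance [CompactSpace W] [T2Space W] : T2Space (T f) := t2_quot _ (by
  have : {z : (W × I) × (W × I) | Setoid.ker (nf f) z.1 z.2} = {z | (z.1.1 = z.2.1 ∧ z.1.2 = z.2.2) ∨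
      (z.1.2 = 1 ∧ z.2.2 = 0 ∧ f z.1.1 = z.2.1) ∨ (z.1.2 = 0 ∧ z.2.2 = 1 ∧ z.1.1 = f z.2.1) ∨
      (z.1.2 = 1 ∧ z.2.2 = 1 ∧ f z.1.1 = f z.2.1)} := by
    ext z; exact Quotient.eq.symm.trans mk_eq
  rw [this]
  refine IsClosed.union ?_ (IsClosed.union ?_ (IsClosed.union ?_ ?_)) <;>
    repeat' first | refine IsClosed.inter ?_ ?_ | exact isClosed_eq (by fun_prop) (by fun_prop))

variable {f} in
def lift {Z : Type} (g : W → I → Z) (h : ∀ x, g x 1 = g (f x) 0) : T f → Z :=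
  Quotient.lift (fun z => g z.1 z.2) fun a b e => by
    rcases mk_eq.1 (Quotient.sound e : mk f a.1 a.2 = mk f b.1 b.2) with
      ⟨a1, a2⟩ | ⟨a1, a2, a3⟩ | ⟨a1, a2, a3⟩ | ⟨a1, a2, a3⟩
    · rw [a1, a2]
    · rw [a1, a2, h, a3]
    · rw [a1, a2, h, a3]
    · rw [a1, a2, h, h, a3]

@[simp] theorem lift_mk {Z : Type} (g : W → I → Z) (h : ∀ x, g x 1 = g (f x) 0) (x : W) (t : I) :
    lift g h (mk f x t) = g x t := rfl

variable {f} in
theorem cont_T {Z : Type} [TopologicalSpace Z] {g : T f → Z}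
    (h : Continuous fun z : W × I => g (mk f z.1 z.2)) : Continuous g :=
  (qm f).continuous_iff.2 h

variable {f} in
theorem cont_T' {A Z : Type} [TopologicalSpace A] [LocallyCompactSpace A] [TopologicalSpace Z]
    {g : A × T f → Z} (h : Continuous fun z : A × (W × I) => g (z.1, mk f z.2.1 z.2.2)) :
    Continuous g := (qm f).continuous_lift_prod_right h

def pr : T f → S1 := lift (fun _ t => ((t : ℝ) : S1)) fun _ => by simp

theorem pr_mk (x : W) (t : I) : pr f (mk f x t) = ((t : ℝ) : S1) := rfl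

theorem cont_pr : Continuous (pr f) :=
  cont_T (continuous_quotient_mk'.comp (continuous_subtype_val.comp continuous_snd))

def pj (s : ℝ) : I := projIcc 0 1 zero_le_one s

@[fun_prop] theorem cont_pj : Continuous pj := continuous_projIcc (h := zero_le_one)

@[simp] theorem pj_val (t : I) : pj t = t := projIcc_val _ t
theorem pj_of {s : ℝ} (h0 : 0 ≤ s) (h1 : s ≤ 1) : (pj s : ℝ) = s := by
  rw [pj, projIcc_of_mem _ ⟨h0, h1⟩]
theorem pj_le {s : ℝ} (h : s ≤ 0) : pj s = 0 := projIcc_of_le_left _ h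
theorem pj_ge {s : ℝ} (h : 1 ≤ s) : pj s = 1 := projIcc_of_right_le _ h
@[simp] theorem pj_zero : pj 0 = 0 := pj_le le_rfl
@[simp] theorem pj_one : pj 1 = 1 := pj_ge le_rfl

theorem tel {A : Type} [TopologicalSpace A] (w : ℤ → A → W) (hw : ∀ n, Continuous (w n))
    (ht : A → ℝ) (hc : Continuous ht) (h' : ∀ n : ℤ,
      (∀ a, ht a = n + 1 → w (n + 1) a = f (w n a)) ∨ ∀ a, (n : ℝ) + 1 ≤ ht a) :
    Continuous fun a => mk f (w ⌊ht a⌋ a) (pj (Int.fract (ht a))) := by
  refine continuous_iff_continuousAt.2 fun a₀ => ?_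
  obtain ⟨n, hn⟩ : ∃ n, ⌊ht a₀⌋ = n + 1 := ⟨⌊ht a₀⌋ - 1, by ring⟩
  rw [Int.floor_eq_iff] at hn
  push_cast at hn
  have : ∀ᶠ a in nhds a₀, (n : ℝ) < ht a ∧ ht a < n + 1 + 1 :=
    (hc.continuousAt.eventually (lt_mem_nhds (by linarith))).and
      (hc.continuousAt.eventually (gt_mem_nhds hn.2))
  have h0 := hw n
  have h1 := hw (n + 1)
  have h2 : ∀ a, (n : ℝ) + 1 ≤ ht a → ht a < n + 1 + 1 → mk f (w (n + 1) a) (pj (ht a - (n + 1))) =
      mk f (w ⌊ht a⌋ a) (pj (Int.fract (ht a))) := fun a e e' => by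
    have : ⌊ht a⌋ = n + 1 := Int.floor_eq_iff.2 ⟨by push_cast; exact e, by push_cast; exact e'⟩
    rw [Int.fract, this]; push_cast; rfl
  rcases h' n with h | h
  · have h3 : Continuous fun a => if ht a ≤ n + 1 then mk f (w n a) (pj (ht a - n))
        else mk f (w (n + 1) a) (pj (ht a - (n + 1))) :=
      Continuous.if_le (by fun_prop) (by fun_prop) hc
        continuous_const fun a e => by rw [h a e, e]; simp [mk_one]
    refine h3.continuousAt.congr ?_
    filter_upwards [this] with a ha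
    rcases lt_trichotomy (ht a) (n + 1) with e | e | e
    · have : ⌊ht a⌋ = n := Int.floor_eq_iff.2 ⟨ha.1.le, e⟩
      rw [if_pos e.le, Int.fract, this]
    · rw [if_pos e.le, ← h2 a e.ge ha.2, h a e, e]; simp [mk_one]
    · rw [if_neg e.not_ge, h2 a e.le ha.2]
  · refine ContinuousAt.congr (f := fun a => mk f (w (n + 1) a) (pj (ht a - (n + 1))))
      (Continuous.continuousAt (by fun_prop)) (this.mono fun a ha => h2 a (h a) ha.2)

def E (x : W) (s : ℝ) : T f :=
  mk f (f^[⌊max s 0⌋.toNat] x) (pj (Int.fract (max s 0)))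

@[fun_prop] theorem cont_E {A : Type} [TopologicalSpace A] {g : A → W} {k : A → ℝ}
    (hg : Continuous g) (hk : Continuous k) : Continuous fun a => E f (g a) (k a) :=
  tel f (fun n a => f^[n.toNat] (g a)) (fun n => (f.continuous.iterate _).comp hg)
    (fun a => max (k a) 0) (by fun_prop) fun n => by
      rcases le_or_gt 0 n with h | h
      · exact Or.inl fun a _ => by
          rw [show (n + 1).toNat = n.toNat + 1 by omega, Function.iterate_succ_apply']
      · exact Or.inr fun a => le_max_of_le_right (by exact_mod_cast (by omega : n + 1 ≤ 0))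

theorem E_add (x : W) (n : ℕ) (t : I) : E f x (t + n) = mk f (f^[n] x) t := by
  have h0 : (0 : ℝ) ≤ t + n := add_nonneg t.2.1 n.cast_nonneg
  rw [E, max_eq_left h0]
  rcases t.2.2.eq_or_lt with h | h
  · rw [h, show t = 1 from Subtype.ext h, mk_one, show (1 : ℝ) + n = ((n + 1 : ℕ) : ℝ) by
      push_cast; ring]
    simp [Function.iterate_succ_apply']
  · have : ⌊(t : ℝ) + n⌋ = n := by
      rw [Int.floor_add_natCast, Int.floor_eq_zero_iff.2 ⟨t.2.1, h⟩, zero_add]
    rw [Int.fract, this]; simp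

theorem E_val (x : W) (t : I) : E f x t = mk f x t := by simpa using E_add f x 0 t

theorem real_split {s : ℝ} (h : 0 ≤ s) : ∃ (n : ℕ) (t : I), s = t + n :=
  ⟨⌊s⌋₊, ⟨s - ⌊s⌋₊, sub_nonneg.2 (Nat.floor_le h), by linarith [Nat.lt_floor_add_one s]⟩, by simp⟩

theorem E_succ (x : W) {s : ℝ} (h : 0 ≤ s) : E f x (s + 1) = E f (f x) s := by
  obtain ⟨n, t, rfl⟩ := real_split h
  rw [E_add, add_assoc, ← Nat.cast_succ, E_add]; rfl

theorem pr_E (x : W) {s : ℝ} (h : 0 ≤ s) : pr f (E f x s) = s := by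
  obtain ⟨n, t, rfl⟩ := real_split h
  rw [E_add, pr_mk, eq_comm, coe_eq]; exact ⟨n, by simp⟩

def Fl (y : T f) (τ : ℝ) : T f :=
  lift (fun x t => E f x (t + max τ 0)) (fun x => by
    simp only [Icc.coe_one, Icc.coe_zero, zero_add]
    rw [add_comm, E_succ _ _ (le_max_right _ _)]) y

theorem Fl_mk (x : W) (t : I) {τ : ℝ} (h : 0 ≤ τ) : Fl f (mk f x t) τ = E f x (t + τ) := by
  rw [Fl, lift_mk, max_eq_left h]

@[fun_prop] theorem cont_Fl {A : Type} [TopologicalSpace A] {g : A → T f} {k : A → ℝ}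
    (hg : Continuous g) (hk : Continuous k) : Continuous fun a => Fl f (g a) (k a) := by
  have : Continuous fun z : ℝ × T f => Fl f z.2 z.1 :=
    cont_T' (show Continuous fun z : ℝ × (W × I) => E f z.2.1 (z.2.2 + max z.1 0) by fun_prop)
  exact this.comp (hk.prodMk hg)

theorem Fl_zero (y : T f) : Fl f y 0 = y := by
  obtain ⟨x, t, rfl⟩ := mk_surj f y
  rw [Fl_mk _ _ _ le_rfl, add_zero, E_val]

theorem pr_Fl (y : T f) {τ : ℝ} (h : 0 ≤ τ) : pr f (Fl f y τ) = pr f y + τ := by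
  obtain ⟨x, t, rfl⟩ := mk_surj f y
  rw [Fl_mk _ _ _ h, pr_E _ _ (add_nonneg t.2.1 h), pr_mk]; rfl

end T

end Pool.Agent.H74.SC
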