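import Mathlib
import Pool.Agent.H74.SC1

set_option autoImplicit false

noncomputable section

namespace Pool.Agent.H74.SC

open unitInterval Set Topology GenLoop Topology.Homotopy

section
variable {N : Type} {Z Z' : Type} [TopologicalSpace Z] [TopologicalSpace Z'] {z : Z} {z' : Z'}

def mO (m : C(Z, Z')) (h : m z = z') (g : Ω^ N Z z) : Ω^ N Z' z' :=
  ⟨m.comp g.1, fun y hy => (congrArg m (g.2 y hy)).trans h⟩

theorem mO_apply (m : C(Z, Z')) (h : m z = z') (g : Ω^ N Z z) (y : N → I) :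
    mO m h g y = m (g y) := rfl

variable [DecidableEq N]

theorem mO_trans (m : C(Z, Z')) (h : m z = z') (i : N) (a b : Ω^ N Z z) :
    mO m h (transAt i a b) = transAt i (mO m h a) (mO m h b) := by
  ext y; simp only [mO_apply, transAt, coe_copy]; split_ifs <;> rfl

def mH [Nonempty N] (m : C(Z, Z')) (h : m z = z') : HomotopyGroup N Z z →* HomotopyGroup N Z' z' :=
  MonoidHom.mk' (Quotient.map (mO m h) fun _ _ ⟨H⟩ => ⟨H.compContinuousMap m⟩) (by
    rintro ⟨a⟩ ⟨b⟩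
    obtain ⟨i⟩ := ‹Nonempty N›
    exact (congrArg _ (HomotopyGroup.mul_spec (i := i))).trans
      ((congrArg (Quotient.mk _) (mO_trans m h i b a)).trans HomotopyGroup.mul_spec.symm))

def cl (g : Ω^ N Z z) : HomotopyGroup N Z z := ⟦g⟧

theorem cl_trans [Nonempty N] (i : N) (p q : Ω^ N Z z) : cl (transAt i q p) = cl p * cl q :=
  HomotopyGroup.mul_spec.symm

theorem cl_symm [Nonempty N] (i : N) (p : Ω^ N Z z) : cl (symmAt i p) = (cl p)⁻¹ :=
  HomotopyGroup.inv_spec.symm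

omit [DecidableEq N] in
theorem cl_eq {p q : Ω^ N Z z} : cl p = cl q ↔ Homotopic p q := Quotient.eq
end

abbrev Q := Fin 2 → I

theorem glueZ {A Y : Type} [TopologicalSpace A] [TopologicalSpace Y] (w : ℤ → A × I → Y)
    (hw : ∀ n, Continuous (w n)) (h : ∀ n a, w n (a, 1) = w (n + 1) (a, 0)) :
    Continuous fun z : A × ℝ => w ⌊z.2⌋ (z.1, pj (Int.fract z.2)) := by
  refine LocallyFinite.continuous (f := fun n : ℤ => {z : A × ℝ | z.2 ∈ Icc (n : ℝ) (n + 1)}) ?_ ?_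
    (fun n => isClosed_Icc.preimage continuous_snd) fun n => ?_
  · intro z
    refine ⟨{y | y.2 ∈ Ioo (z.2 - 1) (z.2 + 1)}, (isOpen_Ioo.preimage continuous_snd).mem_nhds
      ⟨by simp, by simp⟩, (finite_Icc (⌊z.2⌋ - 2) (⌊z.2⌋ + 2)).subset ?_⟩
    rintro n ⟨y, ⟨a1, a2⟩, a3, a4⟩
    have := Int.floor_le z.2
    have := Int.lt_floor_add_one z.2
    constructor
    · exact_mod_cast (by push_cast; linarith : ((⌊z.2⌋ - 2 : ℤ) : ℝ) ≤ n)
    · exact_mod_cast (by push_cast; linarith : (n : ℝ) ≤ ((⌊z.2⌋ + 2 : ℤ) : ℝ))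
  · exact eq_univ_of_forall fun z => mem_iUnion.2
      ⟨⌊z.2⌋, Int.floor_le z.2, (Int.lt_floor_add_one z.2).le⟩
  · refine ((hw n).comp (f := fun z : A × ℝ => (z.1, pj (z.2 - n))) (by fun_prop)).continuousOn.congr
      fun z hz => ?_
    rcases hz.2.eq_or_lt with e | e
    · have : ⌊z.2⌋ = n + 1 := by rw [e]; simp
      simp [Int.fract, this, e, h]
    · have : ⌊z.2⌋ = n := Int.floor_eq_iff.2 ⟨hz.1, e⟩
      simp [Int.fract, this]

section
variable {F : Type} [TopologicalSpace F] (κ : C(F, F))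

abbrev LL := {γ : C(ℝ, F) // ∀ a, γ (a + 1) = κ (γ a)}

variable {κ}

def oL {o : F} (h : κ o = o) : LL κ := ⟨.const _ o, fun _ => h.symm⟩

theorem LL_ext (hκ : ∀ w, κ (κ w) = w) {a b : LL κ} (h : ∀ t : I, a.1 t = b.1 t) : a = b := by
  have : ∀ (n : ℤ) (t : I), a.1 (t + n) = b.1 (t + n) := fun n t => by
    induction n using Int.induction_on with
    | zero => simpa using h t
    | succ n ih => push_cast at ih ⊢; rw [← add_assoc, a.2, b.2, ih]
    | pred n ih =>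
      push_cast at ih ⊢
      rw [← hκ (a.1 _), ← hκ (b.1 _), ← a.2, ← b.2, show (t : ℝ) + (-n - 1) + 1 = t + -n by ring, ih]
  refine Subtype.ext (ContinuousMap.ext fun s => ?_)
  simpa using this ⌊s⌋ ⟨Int.fract s, Int.fract_nonneg s, (Int.fract_lt_one s).le⟩

theorem extL (hκ : ∀ w, κ (κ w) = w) {A : Type} [TopologicalSpace A] (δ : A × I → F)
    (hδ : Continuous δ) (h : ∀ a, δ (a, 1) = κ (δ (a, 0))) :
    ∃ G : C(A, LL κ), ∀ a (t : I), (G a).1 t = δ (a, t) := by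
  have hc := glueZ (fun n z => if Even n then δ z else κ (δ z))
    (fun n => by split_ifs <;> fun_prop) fun n a => by
      by_cases e : Even n <;> simp [e, Int.even_add_one, h, hκ]
  refine ⟨⟨fun a => ⟨⟨fun s => if Even ⌊s⌋ then δ (a, pj (Int.fract s)) else
    κ (δ (a, pj (Int.fract s))), hc.comp (Continuous.prodMk_right a)⟩, fun s => ?_⟩,
    Continuous.subtype_mk (ContinuousMap.continuous_of_continuous_uncurry _ hc) _⟩, fun a t => ?_⟩
  · by_cases e : Even ⌊s⌋ <;> simp [e, Int.even_add_one, hκ]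
  · rcases t.2.2.eq_or_lt with e | e
    · obtain rfl : t = 1 := Subtype.ext e
      simp [h]
    · have : ⌊(t : ℝ)⌋ = 0 := Int.floor_eq_zero_iff.2 ⟨t.2.1, e⟩
      simp [this, Int.fract_eq_self.2 ⟨t.2.1, e⟩]

@[fun_prop] theorem cont_LL {A : Type} [TopologicalSpace A] {g : A → LL κ} {k : A → ℝ}
    (hg : Continuous g) (hk : Continuous k) : Continuous fun a => (g a).1 (k a) :=
  (continuous_subtype_val.comp hg).eval hk

def mkLL {κ' : C(F, F)} (m : C(F, F)) (c : ℝ) (h : ∀ (γ : LL κ) a, m (γ.1 (c * (a + 1))) =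
    κ' (m (γ.1 (c * a)))) : C(LL κ, LL κ') :=
  ⟨fun γ => ⟨⟨fun a => m (γ.1 (c * a)), by fun_prop⟩, h γ⟩, Continuous.subtype_mk
    (ContinuousMap.continuous_of_continuous_uncurry _
      (show Continuous fun z : LL κ × ℝ => m (z.1.1 (c * z.2)) by fun_prop)) _⟩

def ev0 : C(LL κ, F) := ⟨fun γ => γ.1 0, by fun_prop⟩

def negL (hκ : ∀ w, κ (κ w) = w) : C(LL κ, LL κ) := mkLL (.id F) (-1) fun γ a => by
  have := γ.2 (-1 * (a + 1))
  rw [show -1 * (a + 1) + 1 = -1 * a by ring] at this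
  simp only [ContinuousMap.id_apply, this, hκ]

def nH (hκ : ∀ w, κ (κ w) = w) {o : F} (ho : κ o = o) :
    HomotopyGroup (Fin 2) (LL κ) (oL ho) →* HomotopyGroup (Fin 2) (LL κ) (oL ho) := mH (negL hκ) rfl

def eH {o : F} (ho : κ o = o) :
    HomotopyGroup (Fin 2) (LL κ) (oL ho) →* HomotopyGroup (Fin 2) F o := mH ev0 rfl

theorem exL (hκ : ∀ w, κ (κ w) = w) {o : F} (ho : κ o = o) (x : Ω^ (Fin 2) F o)
    (h : Homotopic x (mO κ ho x)) : ∃ G : Ω^ (Fin 2) (LL κ) (oL ho), mO ev0 (z' := o) rfl G = x := by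
  obtain ⟨H⟩ := h
  obtain ⟨G, hG⟩ := extL hκ (fun z : Q × I => H (z.2, z.1)) (by fun_prop) fun a => by
    simp; rfl
  refine ⟨⟨G, fun y hy => LL_ext hκ fun t => (hG y t).trans ((H.eq_fst t hy).trans (x.2 y hy))⟩, ?_⟩
  ext y
  exact (hG y 0).trans (H.apply_zero y)

theorem key0 (hκ : ∀ w, κ (κ w) = w) {o : F} (ho : κ o = o)
    (g : HomotopyGroup (Fin 2) (LL κ) (oL ho)) (h : eH ho g = 1) :
    g * nH hκ ho g = 1 := by
  obtain ⟨G⟩ := g
  obtain ⟨n⟩ : Homotopic (mO ev0 (z' := o) rfl G) const := Quotient.exact h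
  have n0 : ∀ y, n (0, y) = (G y).1 0 := fun y => n.apply_zero y
  have n1 : ∀ y, n (1, y) = o := fun y => n.apply_one y
  have Gb : ∀ y ∈ Cube.boundary (Fin 2), ∀ s, (G y).1 s = o := fun y hy s => by
    rw [boundary G y hy]; rfl
  have nb : ∀ t, ∀ y ∈ Cube.boundary (Fin 2), n (t, y) = o := fun t y hy =>
    (n.eq_snd t hy).trans rfl
  let Γ : Q × ℝ → F := fun z => if z.2 ≤ 0 then n (pj (-z.2), z.1) else
    if z.2 ≤ 1 then (G z.1).1 z.2 else κ (n (pj (z.2 - 1), z.1))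
  have cΓ : Continuous Γ := Continuous.if_le (by fun_prop)
    (Continuous.if_le (by fun_prop) (by fun_prop) continuous_snd continuous_const fun z e => by
      have := (G z.1).2 0
      simp only [zero_add] at this
      simp [e, n0, this]) continuous_snd continuous_const fun z e => by simp [e, n0]
  have Γb : ∀ y ∈ Cube.boundary (Fin 2), ∀ s, Γ (y, s) = o := fun y hy s => by
    simp only [Γ, nb _ y hy, Gb y hy, ho, ite_self]
  have Γ0 : ∀ y (t : I), Γ (y, -t) = n (t, y) := fun y t => by simp [Γ, t.2.1]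
  have Γ1 : ∀ y (t : I), Γ (y, 1 + t) = κ (n (t, y)) := fun y t => by
    have h1 : ¬(1 + (t : ℝ) ≤ 0) := by linarith [t.2.1]
    by_cases h2 : 1 + (t : ℝ) ≤ 1
    · obtain rfl : t = 0 := Subtype.ext (by linarith [t.2.1] : (t : ℝ) = 0)
      have := (G y).2 0
      simp only [zero_add] at this
      simp [Γ, n0, this]
    · simp [Γ, h1, h2]
  obtain ⟨M, hM⟩ := extL hκ (fun z : (I × Q) × I => Γ (z.1.2, (1 + 2 * z.1.1) * z.2 - z.1.1))
    (by fun_prop) fun a => by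
      simp only [Icc.coe_one, Icc.coe_zero, mul_one, mul_zero, zero_sub, Γ0, ← Γ1]
      congr 2; ring
  have Mb : ∀ t, ∀ y ∈ Cube.boundary (Fin 2), M (t, y) = oL ho := fun t y hy =>
    LL_ext hκ fun s => (hM _ s).trans (Γb y hy _)
  let M1 : Ω^ (Fin 2) (LL κ) (oL ho) := ⟨⟨fun y => M (1, y), by fun_prop⟩, Mb 1⟩
  have e1 : Homotopic G M1 := ⟨⟨⟨M, fun y => LL_ext hκ fun s => (hM _ s).trans (by
    have := s.2.2
    rcases s.2.1.eq_or_lt with e | e
    · simp [Γ, ← e, n0]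
    · simp [Γ, e.not_ge, this]), fun _ => rfl⟩, fun t y hy => (Mb t y hy).trans (G.2 y hy).symm⟩⟩
  let N3 : Ω^ (Fin 3) F o := ⟨⟨fun u => Γ (Fin.tail u, 3 * u 0 - 1), cΓ.comp (by
    unfold Fin.tail; fun_prop)⟩, by
    rintro u ⟨i, hi⟩
    refine Fin.cases (motive := fun i => u i = 0 ∨ u i = 1 → _) (fun hi => ?_)
      (fun i hi => Γb _ ⟨i, hi⟩ _) i hi
    rcases hi with e | e
    · simpa [e, n1] using Γ0 (Fin.tail u) 1
    · have := Γ1 (Fin.tail u) 1
      simp only [e, n1, ho, ContinuousMap.coe_mk, Icc.coe_one] at this ⊢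
      norm_num at this ⊢; exact this⟩
  obtain ⟨H⟩ : Homotopic (transAt 1 (symmAt 0 N3) N3) const :=
    cl_eq.1 (by rw [cl_trans, cl_symm, mul_inv_cancel]; rfl)
  have Hb : ∀ t, ∀ y ∈ Cube.boundary (Fin 3), H (t, y) = o := fun t y hy =>
    (H.eq_snd t hy).trans rfl
  obtain ⟨P, hP⟩ := extL hκ (fun z : (I × Q) × I => H (z.1.1, Fin.cons z.2 z.1.2))
    (H.continuous.comp (by fun_prop)) fun a => by
      rw [Hb _ _ ⟨0, Or.inr rfl⟩, Hb _ _ ⟨0, Or.inl rfl⟩, ho]
  let sh : I × LL κ → LL κ := fun z => ⟨⟨fun a => z.2.1 (z.1 - a), by fun_prop⟩, fun a => by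
    have := z.2.2 (z.1 - (a + 1))
    rw [show z.1 - (a + 1) + 1 = z.1 - a by ring] at this
    simp only [ContinuousMap.coe_mk, this, hκ]⟩
  have csh : Continuous sh := Continuous.subtype_mk (ContinuousMap.continuous_of_continuous_uncurry _
    (show Continuous fun z : (I × LL κ) × ℝ => z.1.2.1 (z.1.1 - z.2) by fun_prop)) _
  let M2 : Ω^ (Fin 2) (LL κ) (oL ho) := mO ⟨fun γ => sh (1, γ), by fun_prop⟩ rfl M1
  have e2 : Homotopic (mO (negL hκ) (z' := oL ho) rfl M1) M2 := ⟨⟨⟨⟨fun z => sh (z.1, M1 z.2), by fun_prop⟩,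
    fun y => Subtype.ext (ContinuousMap.ext fun s => by simp [sh, mO, negL, mkLL]),
    fun _ => rfl⟩, fun t y hy => by
      change sh (t, M1 y) = _
      rw [boundary M1 y hy]
      exact ((mO (negL hκ) (z' := oL ho) rfl M1).2 y hy).symm⟩⟩
  refine (?_ : Homotopic (transAt 0 M2 M1) const → _) ⟨⟨⟨P, fun y => LL_ext hκ fun s => ?_,
    fun y => LL_ext hκ fun s => (hP _ s).trans (H.apply_one _)⟩, fun t y hy => ?_⟩⟩
  · intro e3
    change cl G * nH hκ ho (cl G) = 1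
    rw [cl_eq.2 e1]
    exact (congrArg _ (cl_eq.2 e2)).trans ((cl_trans 0 _ _).symm.trans (cl_eq.2 e3))
  · refine (hP _ s).trans ((H.apply_zero _).trans ?_)
    have t1 : ∀ v : I, Fin.tail (α := fun _ => I) (Function.update (Fin.cons s y : Fin 3 → I) 1 v) =
      Function.update y 0 v := fun v => by ext i; fin_cases i <;> rfl
    simp only [coe_coe, transAt, coe_copy]
    change (if (y 0 : ℝ) ≤ 1 / 2 then _ else _) = _
    split_ifs
    · refine Eq.trans ?_ (hM (1, _) (σ s)).symm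
      change Γ (_, 3 * (1 - s) - 1) = Γ _
      congr 2
      · ext i; fin_cases i <;> rfl
      · norm_num
    · refine Eq.trans ?_ (hM _ s).symm
      change Γ (_, 3 * s - 1) = Γ _
      rw [t1]; congr 2; norm_num
  · obtain ⟨i, hi⟩ := hy
    exact (LL_ext hκ fun s => (hP _ s).trans (Hb _ _ ⟨i.succ, hi⟩)).trans
      ((transAt 0 M2 M1).2 y ⟨i, hi⟩).symm

theorem key1 (hκ : ∀ w, κ (κ w) = w) {o : F} (ho : κ o = o)
    (g x : HomotopyGroup (Fin 2) (LL κ) (oL ho)) (hx : nH hκ ho x = x)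
    (h : eH ho g = eH ho x) : g * nH hκ ho g = x * x := by
  have := key0 hκ ho (g * x⁻¹) (by rw [map_mul, map_inv, h, mul_inv_cancel])
  rw [map_mul, map_inv, hx] at this
  rw [← mul_one (x * x), ← this]
  simp only [mul_comm, mul_left_comm, mul_inv_cancel_left, mul_assoc]
end

end Pool.Agent.H74.SC
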