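import Mathlib
import Pool.Agent.H74.SC3

set_option autoImplicit false

noncomputable section

namespace Pool.Agent.H74.SC

open unitInterval Set Topology GenLoop Topology.Homotopy Function

abbrev bd (y : Q) : Prop := y ∈ Cube.boundary (Fin 2)

open Classical in
def nfF (z : Bool × Q) : Option (Bool × Q) := if bd z.2 then none else some z

def F : Type := Quotient (Setoid.ker nfF)

instance : TopologicalSpace F := inferInstanceAs (TopologicalSpace (Quotient _))

def io (k : Bool) (y : Q) : F := Quotient.mk _ (k, y)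

def oF : F := io false fun _ => 0

theorem bd0 : bd fun _ => 0 := ⟨0, Or.inl rfl⟩

theorem io_bd (k : Bool) {y : Q} (h : bd y) : io k y = oF :=
  Quotient.sound (by simp only [Setoid.ker_def, nfF, if_pos h, if_pos bd0])

theorem F_ind (w : F) : ∃ k y, io k y = w := by
  obtain ⟨⟨k, y⟩⟩ := w
  exact ⟨k, y, rfl⟩

def lF {Z : Type} (g : Bool → Q → Z) (h : ∀ k y, bd y → g k y = g false fun _ => 0) : F → Z :=
  Quotient.lift (fun z => g z.1 z.2) fun a b e => by
    have e : nfF a = nfF b := e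
    simp only [nfF] at e
    split_ifs at e with h1 h2
    · rw [h _ _ h1, h _ _ h2]
    · rw [Option.some.inj e]

@[simp] theorem lF_io {Z : Type} (g : Bool → Q → Z) (h) (k : Bool) (y : Q) :
    lF g h (io k y) = g k y := rfl

theorem qF : IsQuotientMap fun z : Bool × Q => io z.1 z.2 := isQuotientMap_quotient_mk'

@[fun_prop] theorem cont_io (k : Bool) : Continuous (io k) :=
  qF.continuous.comp (Continuous.prodMk_right k)

theorem cont_bool {A Z : Type} [TopologicalSpace A] [TopologicalSpace Z] {g : Bool × A → Z}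
    (h : ∀ k, Continuous fun a => g (k, a)) : Continuous g := continuous_prod_of_discrete_left.2 h

theorem cont_F {A Z : Type} [TopologicalSpace A] [LocallyCompactSpace A] [TopologicalSpace Z]
    {g : A × F → Z} (h : ∀ k, Continuous fun z : A × Q => g (z.1, io k z.2)) : Continuous g :=
  qF.continuous_lift_prod_right ((cont_bool (g := fun z : Bool × A × Q => g (z.2.1, io z.1 z.2.2))
    h).comp (f := fun z : A × Bool × Q => (z.2.1, z.1, z.2.2)) (by fun_prop))

def rQ (y : Q) : Q := fun j => if j = 0 then σ (y 0) else y j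

@[fun_prop] theorem cont_rQ : Continuous rQ :=
  continuous_pi fun j => by unfold rQ; split_ifs <;> fun_prop

@[simp] theorem rQ_rQ (y : Q) : rQ (rQ y) = y := by ext j; fin_cases j <;> simp [rQ]
@[simp] theorem rQ_0 (y : Q) : rQ y 0 = σ (y 0) := rfl
@[simp] theorem rQ_1 (y : Q) : rQ y 1 = y 1 := rfl
theorem rQ_u1 (y : Q) (v : I) : rQ (update y 1 v) = update (rQ y) 1 v := by
  ext j; fin_cases j <;> simp [rQ]
theorem rQ_u0 (y : Q) (v : I) : rQ (update y 0 v) = update y 0 (σ v) := by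
  ext j; fin_cases j <;> simp [rQ]
theorem u0_rQ (y : Q) (v : I) : update (rQ y) 0 v = update y 0 v := by
  ext j; fin_cases j <;> simp [rQ]

theorem bd_r {y : Q} (h : bd y) : bd (rQ y) := by
  obtain ⟨i, hi⟩ := h
  refine ⟨i, ?_⟩
  fin_cases i
  · rcases hi with e | e <;> simp_all
  · exact hi

def tw (b : Bool) (r : Bool → Bool) : C(F, F) :=
  ⟨lF (fun k y => io (xor k b) (if r k then rQ y else y)) fun k y h => by
      rw [io_bd _ (by split_ifs; exacts [bd_r h, h]), io_bd _ (by split_ifs; exacts [bd_r bd0, bd0])],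
    qF.continuous_iff.2 (cont_bool fun k => by
      change Continuous fun y => io (xor k b) (if r k then rQ y else y)
      split_ifs <;> fun_prop)⟩

theorem tw_io (b : Bool) (r : Bool → Bool) (k : Bool) (y : Q) :
    tw b r (io k y) = io (xor k b) (if r k then rQ y else y) := rfl

theorem tw_o (b : Bool) (r : Bool → Bool) : tw b r oF = oF :=
  io_bd _ (by split_ifs; exacts [bd_r bd0, bd0])

def sw := tw true fun _ => false
def rF := tw false fun _ => true
def k1 := tw false id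
def k2 := tw false not
def ta := tw true fun _ => true

def iO (k : Bool) : Ω^ (Fin 2) F oF := ⟨⟨io k, cont_io k⟩, fun _ h => io_bd k h⟩

def PhO (k : Bool) := transAt 1 (iO false) (if k then symmAt 0 (iO true) else iO true)

def Ph : C(F, F) := ⟨lF (fun k y => PhO k y) fun k y h => by rw [boundary _ y h, boundary _ _ bd0],
  qF.continuous_iff.2 (cont_bool fun k => (PhO k).1.continuous)⟩

theorem Ph_io (k : Bool) (y : Q) : Ph (io k y) = if (y 1 : ℝ) ≤ 1 / 2 then
    io false (update y 1 (pj (2 * y 1))) else io true (if k then rQ (update y 1 (pj (2 * y 1 - 1)))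
    else update y 1 (pj (2 * y 1 - 1))) := by cases k <;> rfl

theorem Ph_o : Ph oF = oF := boundary (PhO false) _ bd0

theorem Ph_tw : (∀ w, Ph (sw w) = k1 (Ph w)) ∧ (∀ w, Ph (ta w) = k2 (Ph w)) ∧
    ∀ w, Ph (rF w) = rF (Ph w) := by
  refine ⟨fun w => ?_, fun w => ?_, fun w => ?_⟩ <;> obtain ⟨k, y, rfl⟩ := F_ind w <;> cases k <;>
    simp only [sw, ta, rF, k1, k2, tw_io, Ph_io, rQ_1, Bool.xor_false, Bool.xor_true, if_true,
      Bool.false_eq_true, if_false, Bool.not_true, Bool.not_false] <;> split_ifs <;>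
    simp [tw_io, rQ_u1]

theorem tw_tw : (∀ w, sw (sw w) = w) ∧ (∀ w, ta (ta w) = w) ∧ (∀ w, k1 (k1 w) = w) ∧
    (∀ w, k2 (k2 w) = w) ∧ (∀ w, rF (rF w) = w) ∧ ∀ b r w, tw b r (rF w) = rF (tw b r w) := by
  refine ⟨fun w => ?_, fun w => ?_, fun w => ?_, fun w => ?_, fun w => ?_, fun b r w => ?_⟩ <;>
    obtain ⟨k, y, rfl⟩ := F_ind w <;> cases k <;> simp [sw, ta, rF, k1, k2, tw_io] <;>
    split_ifs <;> simp

def wO (k : Bool) : ℕ → Ω^ (Fin 2) F oF
  | 0 => iO k
  | j + 1 => transAt 0 (wO k j) (wO k j)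

def xi (n : ℝ) (y : Q) : Q := update y 0 (pj (Int.fract (n * y 0)))

theorem wO_eq (k : Bool) (j : ℕ) (y : Q) : wO k j y = io k (xi (2 ^ j) y) := by
  induction j generalizing y with
  | zero =>
    change io k y = _
    rcases (y 0).2.2.eq_or_lt with e | e
    · rw [io_bd _ ⟨0, Or.inr (Subtype.ext e)⟩, io_bd _ ⟨0, Or.inl (by simp [xi, e])⟩]
    · simp [xi, Int.fract_eq_self.2 ⟨(y 0).2.1, e⟩]
  | succ j ih =>
    have := (y 0).2.1
    have := (y 0).2.2
    simp only [wO, transAt, coe_copy, ih, xi, update_idem, update_self]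
    split_ifs with h
    · congr 4
      change _ * (pj _ : ℝ) = _
      rw [pj_of (by linarith) (by linarith)]; ring
    · congr 3
      change Int.fract (_ * (pj _ : ℝ)) = _
      rw [pj_of (by linarith) (by linarith), ← Int.fract_add_natCast _ (2 ^ j)]
      congr 1; push_cast; ring

theorem rF_wO (k : Bool) (j : ℕ) (y : Q) : rF (wO k j (rQ y)) = wO k j y := by
  simp only [wO_eq, rF, tw_io, xi, u0_rQ, rQ_u0, rQ_0, if_true, Bool.xor_false, coe_symm_eq]
  have e : Int.fract ((2 : ℝ) ^ j * (1 - y 0)) = Int.fract (-((2 : ℝ) ^ j * y 0)) := by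
    rw [← Int.fract_add_natCast (-_) (2 ^ j)]; congr 1; push_cast; ring
  rw [e]
  by_cases h : Int.fract ((2 : ℝ) ^ j * y 0) = 0
  · rw [io_bd _ ⟨0, Or.inr (by simp [Int.fract_neg_eq_zero.2 h])⟩,
      io_bd _ ⟨0, Or.inl (by simp [h])⟩]
  · rw [Int.fract_neg h]
    congr 2; ext
    have := Int.fract_nonneg ((2 : ℝ) ^ j * y 0)
    have := Int.fract_lt_one ((2 : ℝ) ^ j * y 0)
    rw [coe_symm_eq, pj_of (by linarith) (by linarith), pj_of (by linarith) (by linarith)]; ring

def Fam (κ : C(F, F)) (G : I × ℝ × Q → F) : Prop :=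
  Continuous G ∧ (∀ t a y, bd y → G (t, a, y) = oF) ∧ (∀ t a y, G (t, a + 1, y) = κ (G (t, a, y))) ∧
    ∀ t a y, G (t, a, rQ y) = rF (G (t, a, y))

def D1 (g : Q → F) (y : Q) : F := if (y 0 : ℝ) ≤ 1 / 2 then g (update y 0 (pj (2 * y 0))) else
  rF (g (rQ (update y 0 (pj (2 * y 0 - 1)))))

theorem bd_u {y : Q} (h : bd y) : ((y 0 : ℝ) ≤ 1 / 2 → bd (update y 0 (pj (2 * y 0)))) ∧
    (¬(y 0 : ℝ) ≤ 1 / 2 → bd (update y 0 (pj (2 * y 0 - 1)))) := by
  obtain ⟨i, hi⟩ := h
  fin_cases i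
  · rcases hi with e | e <;> simp only [Fin.zero_eta] at e <;> rw [e]
    · exact ⟨fun _ => ⟨0, Or.inl (by simp)⟩, fun h => absurd (by norm_num) h⟩
    · exact ⟨fun h => absurd h (by norm_num), fun _ => ⟨0, Or.inr (by norm_num)⟩⟩
  · exact ⟨fun _ => ⟨1, by simpa using hi⟩, fun _ => ⟨1, by simpa using hi⟩⟩

theorem fam_of {κ : C(F, F)} (ho : κ oF = oF) (hr : ∀ w, κ (rF w) = rF (κ w))
    {g h : Ω^ (Fin 2) (LL κ) (oL ho)} (e : cl g = cl h) : ∃ G, Fam κ G ∧
      (∀ a y, G (0, a, y) = D1 (fun y => (g y).1 a) y) ∧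
      ∀ a y, G (1, a, y) = D1 (fun y => (h y).1 a) y := by
  obtain ⟨H⟩ := cl_eq.1 e
  have Hb : ∀ t a y, bd y → (H (t, y)).1 a = oF := fun t a y hy => by
    rw [H.eq_fst t hy, g.2 y hy]; rfl
  have ro : rF oF = oF := tw_o _ _
  refine ⟨fun z => D1 (fun y => (H (z.1, y)).1 z.2.1) z.2.2, ⟨?_, fun t a y hy => ?_,
    fun t a y => ?_, fun t a y => ?_⟩, fun a y => by simp, fun a y => by simp⟩
  · refine Continuous.if_le (by fun_prop) (by fun_prop) (by fun_prop) continuous_const fun z e => ?_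
    beta_reduce
    rw [Hb _ _ _ ⟨0, Or.inr (by simp [e])⟩, Hb _ _ _ (bd_r ⟨0, Or.inl (by simp [e])⟩), ro]
  · simp only [D1]
    split_ifs with c
    · exact Hb _ _ _ ((bd_u hy).1 c)
    · rw [Hb _ _ _ (bd_r ((bd_u hy).2 c)), ro]
  · simp only [D1, (H _).2 a]
    split_ifs
    · rfl
    · rw [hr]
  · have := (y 0).2.1
    have := (y 0).2.2
    simp only [D1, rQ_0, coe_symm_eq, u0_rQ, rQ_u0]
    rcases lt_trichotomy (y 0 : ℝ) (1 / 2) with c | c | c
    · rw [if_neg (by linarith), if_pos c.le]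
      congr 6; ext
      rw [coe_symm_eq, pj_of (by linarith) (by linarith), pj_of (by linarith) (by linarith)]; ring
    · rw [if_pos (by linarith), if_pos c.le, Hb _ _ _ ⟨0, Or.inr (by norm_num [c])⟩,
        Hb _ _ _ ⟨0, Or.inr (by norm_num [c])⟩, ro]
    · rw [if_pos (by linarith), if_neg c.not_ge, tw_tw.2.2.2.2.1]
      congr 5; ext
      rw [coe_symm_eq, pj_of (by linarith) (by linarith), pj_of (by linarith) (by linarith)]; ring

def cst {κ : C(F, F)} (ho : κ oF = oF) (x : Ω^ (Fin 2) F oF) (hx : ∀ y, x y = κ (x y)) :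
    Ω^ (Fin 2) (LL κ) (oL ho) :=
  ⟨⟨fun y => ⟨.const _ (x y), fun _ => hx y⟩, Continuous.subtype_mk
    (ContinuousMap.continuous_of_continuous_uncurry _
      (show Continuous fun z : Q × ℝ => x.1 z.1 by fun_prop)) _⟩,
    fun y hy => Subtype.ext (congrArg (ContinuousMap.const ℝ) (boundary x y hy))⟩

theorem fam2 {κ κ' : C(F, F)} (hκ' : ∀ w, κ' (κ' w) = w) (ho' : κ' oF = oF)
    (hr : ∀ w, κ' (rF w) = rF (κ' w)) (k : Bool) (hk : ∀ y, io k y = κ' (io k y))
    (g p : Ω^ (Fin 2) (LL κ') (oL ho')) (hp : cl p = cl g * nH hκ' ho' (cl g))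
    (h : eH ho' (cl g) = cl (iO k) * cl (iO k)) : ∃ G, Fam κ' G ∧
      (∀ a y, G (0, a, y) = D1 (fun y => (p y).1 a) y) ∧ ∀ a y, G (1, a, y) = wO k 3 y := by
  let x := cst ho' (wO k 1) fun y => by rw [wO_eq, ← hk]
  obtain ⟨G, h1, h2, h3⟩ := fam_of ho' hr (g := p) (h := transAt 0 x x) (by
    rw [hp, cl_trans]
    exact key1 hκ' ho' _ _ rfl (h.trans (cl_trans 0 _ _).symm))
  refine ⟨G, h1, h2, fun a y => (h3 a y).trans ?_⟩
  have : (fun y => (transAt 0 x x y).1 a) = wO k 2 := funext fun y => by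
    change _ = transAt 0 (wO k 1) (wO k 1) y
    simp only [transAt, coe_copy]; split_ifs <;> rfl
  rw [this, D1, rF_wO]; rfl

theorem fib : ∃ ψ₁ ψ₂ : ℝ × Q → F, Fam sw (fun z => ψ₁ z.2) ∧ Fam ta (fun z => ψ₂ z.2) ∧
    (∃ G, Fam (.id F) G ∧ (∀ a y, G (0, a, y) = if (y 1 : ℝ) ≤ 1 / 2 then
      ψ₁ (2 * a, update y 1 (pj (2 * y 1))) else ψ₂ (2 * a, update y 1 (pj (2 * y 1 - 1)))) ∧
      ∀ a y, G (1, a, y) = wO false 3 y) ∧
    (∃ G, Fam k1 G ∧ (∀ a y, G (0, a, y) = Ph (ψ₁ (a, y))) ∧ ∀ a y, G (1, a, y) = wO false 3 y) ∧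
    ∃ G, Fam k2 G ∧ (∀ a y, G (0, a, y) = Ph (ψ₂ (a, y))) ∧ ∀ a y, G (1, a, y) = wO true 3 y := by
  obtain ⟨s1, s2, s3, s4, s5, s6⟩ := tw_tw
  obtain ⟨p1, p2, p3⟩ := Ph_tw
  have o1 : sw oF = oF := tw_o _ _
  have o2 : ta oF = oF := tw_o _ _
  have o3 : k1 oF = oF := tw_o _ _
  have o4 : k2 oF = oF := tw_o _ _
  obtain ⟨γ, hγ⟩ := exL s1 o1 (PhO false) (cl_eq.1 (by
    rw [PhO, mO_trans, cl_trans, cl_trans, mul_comm]; rfl))
  obtain ⟨δ, hδ⟩ := exL s2 o2 (PhO true) (cl_eq.1 (by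
    rw [PhO, mO_trans, cl_trans, cl_trans, mul_comm]
    congr 2
    ext y
    exact congrArg (io false) (rQ_rQ y).symm))
  let p := transAt 0 (mO (negL s1) (z' := oL o1) rfl γ) γ
  let q := transAt 0 (mO (negL s2) (z' := oL o2) rfl δ) δ
  have cP : ∀ k, cl (PhO k) = (if k then (cl (iO true))⁻¹ else cl (iO true)) * cl (iO false) :=
    fun k => by cases k <;> simp [PhO, cl_trans, cl_symm]
  have hD : ∀ g y, Ph (D1 g y) = D1 (fun y => Ph (g y)) y := fun g y => by
    simp only [D1]; split_ifs <;> simp only [p3]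
  have f1 := fam_of o1 (s6 _ _) (rfl : cl p = cl p)
  have f2 := fam_of o2 (s6 _ _) (rfl : cl q = cl q)
  refine ⟨fun z => D1 (fun y => (p y).1 z.1) z.2, fun z => D1 (fun y => (q y).1 z.1) z.2, ?_, ?_,
    ?_, ?_, ?_⟩
  · obtain ⟨G, ⟨a, b, c, d⟩, e, -⟩ := f1
    simp only [← e]
    exact ⟨by fun_prop, fun _ => b 0, fun _ => c 0, fun _ => d 0⟩
  · obtain ⟨G, ⟨a, b, c, d⟩, e, -⟩ := f2
    simp only [← e]
    exact ⟨by fun_prop, fun _ => b 0, fun _ => c 0, fun _ => d 0⟩
  · let d1 : C(LL sw, LL (.id F)) := mkLL (.id F) 2 fun γ a => by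
      simp only [ContinuousMap.id_apply]
      rw [show 2 * (a + 1) = 2 * a + 1 + 1 by ring, γ.2, γ.2, s1]
    let d2 : C(LL ta, LL (.id F)) := mkLL (.id F) 2 fun γ a => by
      simp only [ContinuousMap.id_apply]
      rw [show 2 * (a + 1) = 2 * a + 1 + 1 by ring, γ.2, γ.2, s2]
    have o0 : ContinuousMap.id F oF = oF := rfl
    obtain ⟨G, h1, h2, h3⟩ := fam2 (κ := .id F) (κ' := .id F) (fun _ => rfl) o0 (fun _ => rfl) false
      (fun _ => rfl) (transAt 1 (mO d1 rfl γ) (mO d2 rfl δ)) (transAt 1 (mO d1 rfl p) (mO d2 rfl q))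
      (by
        simp only [p, q, mO_trans, cl_trans, map_mul]
        rw [mul_mul_mul_comm]
        congr 3 <;> ext y a
        · exact congrArg (δ y).1 (by ring : -1 * (2 * a) = 2 * (-1 * a))
        · exact congrArg (γ y).1 (by ring : -1 * (2 * a) = 2 * (-1 * a)))
      (by
        rw [cl_trans, map_mul]
        have a1 : eH o0 (cl (mO d1 (z' := oL o0) rfl γ)) = cl (PhO false) := by
          rw [← hγ]; exact congrArg cl (by ext y; exact congrArg (γ y).1 (mul_zero 2))
        have a2 : eH o0 (cl (mO d2 (z' := oL o0) rfl δ)) = cl (PhO true) := by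
          rw [← hδ]; exact congrArg cl (by ext y; exact congrArg (δ y).1 (mul_zero 2))
        rw [a1, a2, cP, cP]
        simp [mul_comm, mul_left_comm])
    refine ⟨G, h1, fun a y => (h2 a y).trans ?_, h3⟩
    have u1 : ∀ u v, update (update y 0 u) 1 v = update (update y 1 v) 0 u := fun u v =>
      update_comm (by decide) _ _ _
    simp only [D1, transAt, coe_copy, update_of_ne (show (1 : Fin 2) ≠ 0 by decide),
      update_of_ne (show (0 : Fin 2) ≠ 1 by decide), rQ_u0, u1]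
    split_ifs <;> rfl
  · let m : C(LL sw, LL k1) := mkLL Ph 1 fun γ a => by rw [one_mul, one_mul, γ.2, p1]
    have mo : m (oL o1) = oL o3 := Subtype.ext (ContinuousMap.ext fun _ => Ph_o)
    obtain ⟨G, h1, h2, h3⟩ := fam2 (κ := k1) s3 o3 (s6 _ _) false (fun _ => rfl) (mO m mo γ)
      (mO m mo p) (by
        simp only [p, mO_trans, cl_trans]
        congr 2; ext y a
        exact congrArg (fun r => Ph ((γ y).1 r)) (by ring : -1 * (1 * a) = 1 * (-1 * a)))
      (by
        have : eH o3 (cl (mO m mo γ)) = mH Ph Ph_o (cl (PhO false)) := by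
          rw [← hγ]; exact congrArg cl (by ext y; exact congrArg (fun r => Ph ((γ y).1 r)) (one_mul 0))
        rw [this, cP]
        simp only [map_mul, Bool.false_eq_true, if_false]
        exact (congrArg₂ _ (cP true) (cP false)).trans (by simp [mul_comm, mul_left_comm]))
    exact ⟨G, h1, fun a y => (h2 a y).trans (by simp [hD, mO_apply, m, mkLL]), h3⟩
  · let m : C(LL ta, LL k2) := mkLL Ph 1 fun γ a => by rw [one_mul, one_mul, γ.2, p2]
    have mo : m (oL o2) = oL o4 := Subtype.ext (ContinuousMap.ext fun _ => Ph_o)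
    obtain ⟨G, h1, h2, h3⟩ := fam2 (κ := k2) s4 o4 (s6 _ _) true (fun _ => rfl) (mO m mo δ)
      (mO m mo q) (by
        simp only [q, mO_trans, cl_trans]
        congr 2; ext y a
        exact congrArg (fun r => Ph ((δ y).1 r)) (by ring : -1 * (1 * a) = 1 * (-1 * a)))
      (by
        have : eH o4 (cl (mO m mo δ)) = mH Ph Ph_o (cl (PhO true)) := by
          rw [← hδ]; exact congrArg cl (by ext y; exact congrArg (fun r => Ph ((δ y).1 r)) (one_mul 0))
        rw [this, cP]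
        simp only [map_mul, if_true, map_inv]
        exact (congrArg₂ (fun a b => a⁻¹ * b) (cP true) (cP false)).trans
          (by simp [mul_comm, mul_left_comm]))
    exact ⟨G, h1, fun a y => (h2 a y).trans (by simp [hD, mO_apply, m, mkLL]), h3⟩

end Pool.Agent.H74.SC
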