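import Mathlib
import Pool.Agent.H74.SC4
import Pool.Agent.H74.KP3

set_option autoImplicit false

noncomputable section

namespace Pool.Agent.H74.SC

open unitInterval Set Topology Function KP

abbrev R2 := ℝ × ℝ

variable {Y Y' : Type} [TopologicalSpace Y] [TopologicalSpace Y']

def Per (H : I × R2 → Y) : Prop :=
  Continuous H ∧ (∀ t a b, H (t, a + 1, b) = H (t, a, b)) ∧ ∀ t a b, H (t, a, b + 1) = H (t, a, b)

def Adm (C : I × R2 × Q → Y) (H : I × R2 → Y) : Prop :=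
  Continuous C ∧ (∀ t p y, bd y → C (t, p, y) = H (t, p)) ∧
    (∀ t a b y, C (t, (a + 1, b), y) = C (t, (a, b), y)) ∧
    ∀ t a b y, C (t, (a, b + 1), y) = C (t, (a, b), rQ y)

def Rel (H : I × R2 → Y) (c c' : R2 × Q → Y) : Prop :=
  ∃ C, Adm C H ∧ (∀ z, C (0, z) = c z) ∧ ∀ z, C (1, z) = c' z

abbrev RelC (e : R2 → Y) (c c' : R2 × Q → Y) : Prop := Rel (fun z => e z.2) c c'

theorem Adm.per {C : I × R2 × Q → Y} {H : I × R2 → Y} (h : Adm C H) : Per H := by
  obtain ⟨a, b, c, d⟩ := h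
  have : H = fun z => C (z.1, z.2, fun _ => 0) := funext fun z => (b _ _ _ bd0).symm
  exact ⟨by rw [this]; fun_prop, fun t x y => by rw [← b _ _ _ bd0, c, b _ _ _ bd0],
    fun t x y => by rw [← b _ _ _ bd0, d, b _ _ _ (bd_r bd0)]⟩

theorem Adm.at {C : I × R2 × Q → Y} {H : I × R2 → Y} (h : Adm C H) (k : I → I)
    (hk : Continuous k) : Adm (fun z => C (k z.1, z.2)) fun z => H (k z.1, z.2) :=
  ⟨h.1.comp (by fun_prop), fun t => h.2.1 (k t), fun t => h.2.2.1 (k t), fun t => h.2.2.2 (k t)⟩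

theorem Adm.map {C : I × R2 × Q → Y} {H : I × R2 → Y} (h : Adm C H) (m : C(Y, Y')) :
    Adm (fun z => m (C z)) fun z => m (H z) :=
  ⟨m.continuous.comp h.1, fun t p y e => congrArg m (h.2.1 t p y e),
    fun t a b y => congrArg m (h.2.2.1 t a b y), fun t a b y => congrArg m (h.2.2.2 t a b y)⟩

theorem Adm.int {C : I × R2 × Q → Y} {H : I × R2 → Y} (h : Adm C H) (t : I) (a b : ℝ) (m n : ℤ)
    (y : Q) : C (t, (a + m, b + n), y) = C (t, (a, b), if Even n then y else rQ y) := by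
  have h1 : ∀ b y, C (t, (a + m, b), y) = C (t, (a, b), y) := fun b y => by
    induction m using Int.induction_on with
    | zero => simp
    | succ n ih => push_cast at ih ⊢; rw [← add_assoc, h.2.2.1, ih]
    | pred n ih => push_cast at ih ⊢; rw [← h.2.2.1, ← ih]; congr 3; abel
  rw [h1]
  induction n using Int.induction_on generalizing y with
  | zero => simp
  | succ n ih =>
    push_cast at ih ⊢
    rw [← add_assoc, h.2.2.2, ih]
    by_cases e : Even n <;> simp [e, Int.even_add_one, ← Nat.not_even_iff_odd]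
  | pred n ih =>
    have := ih (rQ y)
    push_cast at this ⊢
    rw [← rQ_rQ y, ← h.2.2.2, show b + (-(n : ℝ) - 1) + 1 = b + -n by ring, this]
    by_cases e : Even n <;> simp [e, Int.even_sub_one, ← Nat.not_even_iff_odd]

variable {H : I × R2 → Y} {c c' d d' : R2 × Q → Y} {e : R2 → Y}

theorem Rel.right (h : Rel H c c') : Adm (fun z => c' z.2) fun z => H (1, z.2) := by
  obtain ⟨C, a, -, b⟩ := h
  simpa only [b] using a.at (fun _ => 1) continuous_const

theorem Rel.left (h : Rel H c c') : Adm (fun z => c z.2) fun z => H (0, z.2) := by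
  obtain ⟨C, a, b, -⟩ := h
  simpa only [b] using a.at (fun _ => 0) continuous_const

theorem Rel.symm (h : Rel H c c') : Rel (fun z => H (σ z.1, z.2)) c' c := by
  obtain ⟨C, a, b, b'⟩ := h
  exact ⟨_, a.at σ continuous_symm, by simpa using b', by simpa using b⟩

theorem Rel.map (h : Rel H c c') (m : C(Y, Y')) :
    Rel (fun z => m (H z)) (fun z => m (c z)) fun z => m (c' z) := by
  obtain ⟨C, a, b, b'⟩ := h
  exact ⟨_, a.map m, fun z => congrArg m (b z), fun z => congrArg m (b' z)⟩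

theorem RelC.trans (h : RelC e c d) (h' : RelC e d c') : RelC e c c' := by
  obtain ⟨C, ⟨a1, a2, a3, a4⟩, b, b'⟩ := h
  obtain ⟨D, ⟨e1, e2, e3, e4⟩, f, f'⟩ := h'
  refine ⟨fun z => if (z.1 : ℝ) ≤ 1 / 2 then C (pj (2 * z.1), z.2) else D (pj (2 * z.1 - 1), z.2),
    ⟨Continuous.if_le (by fun_prop) (by fun_prop) (by fun_prop) continuous_const fun z e => by
      simp [e, b', f], fun t p y hy => ?_, fun t a b y => ?_, fun t a b y => ?_⟩,
    fun z => by simp [b], fun z => by norm_num [f']⟩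
  · simp only [a2 _ _ _ hy, e2 _ _ _ hy, ite_self]
  · simp only [a3, e3]
  · simp only [a4, e4]

def eta (t : I) (y : Q) : Q := fun i => pj ((ex t (wt y) i + 1) / 2)

@[fun_prop] theorem cont_eta {A : Type} [TopologicalSpace A] {f : A → I} {g : A → Q}
    (hf : Continuous f) (hg : Continuous g) : Continuous fun a => eta (f a) (g a) := by
  have := cont_ex.comp (hf.prodMk (cont_wt.comp hg))
  exact continuous_pi fun i => cont_pj.comp ((((continuous_apply i).comp this).add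
    continuous_const).div_const _)

theorem wt_eta (t : I) (y : Q) : wt (eta t y) = ex t (wt y) := funext fun i => by
  have := abs_le.1 ((norm_le_pi_norm (ex t (wt y)) i).trans (mem_closedBall_zero_iff.1 (ex_mem t _)))
  simp only [wt, eta]
  rw [pj_of (by linarith) (by linarith)]; ring

theorem wt_inj {y y' : Q} (h : wt y = wt y') : y = y' := funext fun i => Subtype.ext (by
  have := congrFun h i; simp only [wt] at this; linarith)

theorem eta_zero (y : Q) : eta 0 y = y := wt_inj (by rw [wt_eta, ex_zero (wt_le y)])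

theorem eta_bd (t : I) {y : Q} (h : bd y) : eta t y = y :=
  wt_inj (by rw [wt_eta, ex_sph _ ((bd_iff y).1 h)])

theorem bd_eta {t : I} {y : Q} (h : 1 - (t : ℝ) / 2 ≤ ‖wt y‖) : bd (eta t y) := by
  have := ex_pos t (wt y)
  rw [bd, bd_iff, wt_eta, ex]
  rw [max_eq_left h] at this ⊢
  rw [norm_smul, norm_inv, norm_norm, inv_mul_cancel₀ this.ne']

theorem wt_r (y : Q) : ‖wt (rQ y)‖ = ‖wt y‖ := by
  simp only [Pi.norm_def]
  congr 2; ext i; fin_cases i
  · simp only [wt, coe_nnnorm, Real.norm_eq_abs]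
    rw [← abs_neg]; congr 1; simp; ring
  · rfl

theorem eta_r (t : I) (y : Q) : eta t (rQ y) = rQ (eta t y) := wt_inj (by
  have h := wt_eta t y
  rw [wt_eta]
  ext i; fin_cases i
  · have := congrFun h 0
    simp only [ex, wt_r, Pi.smul_apply, smul_eq_mul] at this ⊢
    simp only [wt] at this ⊢
    simp; linarith
  · have := congrFun h 1
    simp only [ex, wt_r, Pi.smul_apply, smul_eq_mul] at this ⊢
    exact this.symm)

def Bx (H : I × R2 → Y) (c : R2 × Q → Y) (t : I) (z : R2 × Q) : Y :=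
  if ‖wt z.2‖ ≤ 1 - (t : ℝ) / 2 then c (z.1, eta t z.2) else H (pj (2 * ‖wt z.2‖ - 2 + t), z.1)

theorem adm_Bx {C : I × R2 × Q → Y} (h : Adm C fun z => H (0, z.2)) (hH : Per H) (k : I → I)
    (hk : Continuous k) :
    Adm (fun z => Bx H (fun w => C (z.1, w)) (k z.1) z.2) fun z => H (k z.1, z.2) := by
  obtain ⟨a1, a2, a3, a4⟩ := h
  obtain ⟨b1, b2, b3⟩ := hH
  have := @cont_wt 2
  refine ⟨Continuous.if_le (by fun_prop) (by fun_prop) (by fun_prop) (by fun_prop) fun z e => ?_,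
    fun t p y hy => ?_, fun t a b y => ?_, fun t a b y => ?_⟩
  · beta_reduce
    rw [a2 _ _ _ (bd_eta e.ge), e, pj_le (by linarith)]
  · simp only [Bx, (bd_iff y).1 hy]
    split_ifs with c
    · rw [eta_bd _ hy, a2 _ _ _ hy, show k t = 0 from Subtype.ext (by
        have := (k t).2.1; change (k t : ℝ) = 0; linarith)]
    · norm_num
  · simp only [Bx, a3, b2]
  · simp only [Bx, a4, b3, wt_r, eta_r]

theorem Rel.ex (h : Adm (fun z => c z.2) fun z => H (0, z.2)) (hH : Per H) : ∃ c', Rel H c c' :=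
  ⟨_, _, adm_Bx h hH id continuous_id, fun z => by simp [Bx, wt_le, eta_zero], fun _ => rfl⟩

theorem Rel.ex' (h : Adm (fun z => c z.2) fun z => H (1, z.2)) (hH : Per H) : ∃ c', Rel H c' c := by
  obtain ⟨c', h⟩ := Rel.ex (H := fun z => H (σ z.1, z.2)) (by simpa using h)
    ⟨hH.1.comp (by fun_prop), fun t => hH.2.1 (σ t), fun t => hH.2.2 (σ t)⟩
  exact ⟨c', by simpa using h.symm⟩

theorem Rel.box (h : Rel H c c') : RelC (fun p => H (1, p)) c' (Bx H c 1) := by
  obtain ⟨C, ⟨a1, a2, a3, a4⟩, b, b'⟩ := h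
  have := @cont_wt 2
  refine ⟨fun z => C (pj (max (1 - z.1) (2 * ‖wt z.2.2‖ - 1)), z.2.1, eta z.1 z.2.2),
    ⟨by fun_prop, fun t p y hy => ?_, fun t a b y => a3 _ _ _ _, fun t a b y => ?_⟩, fun z => ?_,
    fun z => ?_⟩
  · beta_reduce
    rw [eta_bd _ hy, a2 _ _ _ hy, (bd_iff y).1 hy, pj_ge (le_max_of_le_right (by norm_num))]
  · simp only [a4, wt_r, eta_r]
  · beta_reduce
    rw [eta_zero, pj_ge (le_max_of_le_left (by simp)), b']
  · simp only [Bx]
    split_ifs with c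
    · rw [pj_le (max_le (by simp) (by norm_num at c; linarith)), b]
    · rw [a2 _ _ _ (bd_eta (not_le.1 c).le), max_eq_right (by norm_num at c ⊢; linarith)]
      congr 3; norm_num; ring

theorem RelC.symm (h : RelC e c d) : RelC e d c := Rel.symm h

theorem Rel.uniq (h : Rel H c c') (h' : Rel H d d') (k : RelC (fun p => H (0, p)) c d) :
    RelC (fun p => H (1, p)) c' d' := by
  obtain ⟨C, a, b, b'⟩ := k
  refine (h.box.trans ⟨_, adm_Bx a h.choose_spec.1.per (fun _ => 1) continuous_const, fun z => ?_,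
    fun z => ?_⟩).trans h'.box.symm
  · simp only [b]
  · simp only [b']

theorem Rel.back (h : Rel H c c') (h' : Rel H d d') (k : RelC (fun p => H (1, p)) c' d') :
    RelC (fun p => H (0, p)) c d := by
  simpa using h.symm.uniq h'.symm (by simpa using k)

theorem Rel.uniq0 (h : Rel H c c') (h' : Rel H c d') : RelC (fun p => H (1, p)) c' d' :=
  h.uniq h' ⟨_, h.left, fun _ => rfl, fun _ => rfl⟩

def AdmF (κ : C(F, F)) (ε : I × R2 × F → Y) (H : I × R2 → Y) : Prop :=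
  Continuous ε ∧ (∀ t p, ε (t, p, oF) = H (t, p)) ∧
    (∀ t a b w, ε (t, (a + 1, b), w) = ε (t, (a, b), κ w)) ∧
    ∀ t a b w, ε (t, (a, b + 1), w) = ε (t, (a, b), rF w)

theorem AdmF.ev {κ : C(F, F)} {ε : I × R2 × F → Y} (h : AdmF κ ε H) (hκ : ∀ w, κ (κ w) = w)
    {G : I × ℝ × Q → F} (g : Fam κ G) :
    Adm (fun z => ε (z.1, z.2.1, G (z.1, z.2.1.1, z.2.2))) H := by
  obtain ⟨a1, a2, a3, a4⟩ := h
  obtain ⟨b1, b2, b3, b4⟩ := g
  exact ⟨by fun_prop, fun t p y hy => by simp only [b2 _ _ _ hy, a2],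
    fun t a b y => by simp only [a3, b3, hκ], fun t a b y => by simp only [a4, b4]⟩

theorem exF (C : Bool → I × R2 × Q → Y) (hc : ∀ k, Continuous (C k))
    (hb : ∀ k t p y, bd y → C k (t, p, y) = H (t, p)) : ∃ ε : I × R2 × F → Y, Continuous ε ∧
      (∀ t p, ε (t, p, oF) = H (t, p)) ∧ ∀ t p k y, ε (t, p, io k y) = C k (t, p, y) := by
  have : Continuous fun z : (I × R2) × F => lF (fun k y => C k (z.1.1, z.1.2, y))
      (fun k y h => by rw [hb _ _ _ _ h, hb _ _ _ _ bd0]) z.2 :=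
    cont_F fun k => (hc k).comp (f := fun z : (I × R2) × Q => (z.1.1, z.1.2, z.2)) (by fun_prop)
  exact ⟨fun z => lF (fun k y => C k (z.1, z.2.1, y))
    (fun k y h => by rw [hb _ _ _ _ h, hb _ _ _ _ bd0]) z.2.2,
    this.comp (f := fun z : I × R2 × F => ((z.1, z.2.1), z.2.2)) (by fun_prop),
    fun t p => hb false t p _ bd0, fun _ _ _ _ => rfl⟩

theorem Adm.zop {C : I × R2 × Q → Y} (h : Adm C H) :
    Adm (fun z => C (z.1, z.2.1, xi (2 ^ 3) z.2.2)) H := by
  obtain ⟨ε, a, b, e⟩ := exF (fun _ => C) (fun _ => h.1) fun _ => h.2.1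
  have := AdmF.ev (κ := .id F) (G := fun z => wO false 3 z.2.2) ⟨a, b, fun t x y w => ?_,
    fun t x y w => ?_⟩ (fun _ => rfl) ⟨(wO false 3).1.continuous.comp (by fun_prop),
    fun _ _ => (wO false 3).2, fun _ _ _ => rfl, fun _ _ y => by
      beta_reduce; rw [← rF_wO false 3 y, tw_tw.2.2.2.2.1]⟩
  · simpa only [wO_eq, e] using this
  · obtain ⟨k, y, rfl⟩ := F_ind w
    simp only [ContinuousMap.id_apply, e, h.2.2.1]
  · obtain ⟨k, y, rfl⟩ := F_ind w
    simp only [rF, tw_io, e, h.2.2.2, if_true]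

theorem Rel.zop (h : Rel H c c') : Rel H (fun z => c (z.1, xi (2 ^ 3) z.2))
    fun z => c' (z.1, xi (2 ^ 3) z.2) := by
  obtain ⟨C, a, b, b'⟩ := h
  exact ⟨_, a.zop, fun _ => b _, fun _ => b' _⟩

theorem AdmF.dbl {κ : C(F, F)} {ε : I × R2 × F → Y} (h : AdmF κ ε H) (hκ : ∀ w, κ (κ w) = w) :
    AdmF (.id F) (fun z => ε (z.1, (2 * z.2.1.1, z.2.1.2), z.2.2))
      fun z => H (z.1, 2 * z.2.1, z.2.2) :=
  ⟨h.1.comp (by fun_prop), fun _ _ => h.2.1 _ _, fun t a b w => by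
    simp only [show 2 * (a + 1) = 2 * a + 1 + 1 by ring, h.2.2.1, hκ, ContinuousMap.id_apply],
    fun _ _ _ _ => h.2.2.2 _ _ _ _⟩

theorem AdmF.sh {κ κ' : C(F, F)} {ε : I × R2 × F → Y} (h : AdmF κ ε H)
    (hκ : ∀ w, rF (κ w) = κ' w) : AdmF κ' (fun z => ε (z.1, (z.2.1.1, z.2.1.2 + z.2.1.1), z.2.2))
      fun z => H (z.1, z.2.1, z.2.2 + z.2.1) :=
  ⟨h.1.comp (by fun_prop), fun _ _ => h.2.1 _ _, fun t a b w => by
    simp only [← add_assoc, h.2.2.1, h.2.2.2, hκ], fun t a b w => by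
    simp only [add_right_comm b 1 a, h.2.2.2]⟩

theorem mk_k1 {C D : I × R2 × Q → Y} (h : Adm C fun z => e z.2)
    (h' : Adm D fun z => e (z.2.1, z.2.2 + z.2.1)) : ∃ ε, AdmF k1 ε (fun z => e z.2) ∧
      (∀ t p y, ε (t, p, io false y) = C (t, p, y)) ∧
      ∀ t a b y, ε (t, (a, b), io true y) = D (t, (a, b - a), y) := by
  obtain ⟨ε, a1, a2, a3⟩ := exF (H := fun z => e z.2) (fun k z => if k then
    D (z.1, (z.2.1.1, z.2.1.2 - z.2.1.1), z.2.2) else C z)
    (fun k => by cases k; exacts [h.1, h'.1.comp (by fun_prop)]) fun k t p y hy => by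
      cases k
      · exact h.2.1 _ _ _ hy
      · simp [h'.2.1 _ _ _ hy]
  refine ⟨ε, ⟨a1, a2, fun t a b w => ?_, fun t a b w => ?_⟩, fun t p y => a3 _ _ _ _,
    fun t a b y => a3 _ _ _ _⟩ <;> obtain ⟨k, y, rfl⟩ := F_ind w <;> cases k <;>
    simp [k1, rF, tw_io, a3, h.2.2.1, h.2.2.2, h'.2.2.1]
  · rw [← rQ_rQ y, ← h'.2.2.2, rQ_rQ]; congr 3; ring
  · rw [← h'.2.2.2]; congr 3; ring

theorem mk_sw {C : I × R2 × Q → Y} (he : ∀ a b, e (a + 1, b) = e (a, b))
    (h : Adm C fun z => e (2 * z.2.1, z.2.2)) : ∃ ε, AdmF sw ε (fun z => e z.2) ∧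
      (∀ t a b y, ε (t, (a, b), io false y) = C (t, (a / 2, b), y)) ∧
      ∀ t a b y, ε (t, (a, b), io true y) = C (t, ((a + 1) / 2, b), y) := by
  obtain ⟨ε, a1, a2, a3⟩ := exF (H := fun z => e z.2) (fun k z => if k then
    C (z.1, ((z.2.1.1 + 1) / 2, z.2.1.2), z.2.2) else C (z.1, (z.2.1.1 / 2, z.2.1.2), z.2.2))
    (fun k => by cases k; exacts [h.1.comp (by fun_prop), h.1.comp (by fun_prop)])
    fun k t p y hy => by
      cases k <;> simp [h.2.1 _ _ _ hy, mul_div_cancel₀, he]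
  refine ⟨ε, ⟨a1, a2, fun t a b w => ?_, fun t a b w => ?_⟩, fun t a b y => a3 _ _ _ _,
    fun t a b y => a3 _ _ _ _⟩ <;> obtain ⟨k, y, rfl⟩ := F_ind w <;> cases k <;>
    simp [sw, rF, tw_io, a3, h.2.2.2]
  rw [← h.2.2.1 t (a / 2)]; congr 3; ring

end Pool.Agent.H74.SC
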