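import Mathlib
import Pool.Agent.H74.SC5

set_option autoImplicit false

noncomputable section

namespace Pool.Agent.H74.SC

open unitInterval Set Topology Function KP

theorem AdmF.at0 {Y : Type} [TopologicalSpace Y] {κ : C(F, F)} {ε : I × R2 × F → Y}
    {H : I × R2 → Y} (h : AdmF κ ε H) : AdmF κ (fun z => ε (0, z.2)) fun z => H (0, z.2) :=
  ⟨h.1.comp (by fun_prop), fun _ => h.2.1 0, fun _ => h.2.2.1 0, fun _ => h.2.2.2 0⟩

structure Dat (K : Type) [TopologicalSpace K] where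
  c : R2 → K
  inj : ∀ p q, c p = c q → ∃ m n : ℤ, q = (p.1 + m, p.2 + n)
  Hs : I × R2 → K
  Hb : I × R2 → K
  ps : Per Hs
  pb : Per Hb
  s0 : ∀ p, Hs (0, p) = c p
  s1 : ∀ p, Hs (1, p) = c (2 * p.1, p.2)
  b0 : ∀ p, Hb (0, p) = c p
  b1 : ∀ p, Hb (1, p) = c (p.1, p.2 + p.1)

def mu (y : Q) : ℝ := y 0 * (1 - y 0) * (y 1 * (1 - y 1))

theorem mu_zero {y : Q} : mu y = 0 ↔ bd y := by
  simp only [mu, mul_eq_zero, sub_eq_zero, bd, Cube.boundary, mem_setOf_eq, Fin.exists_fin_two,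
    Icc.coe_eq_zero, eq_comm (a := (1 : ℝ)), Icc.coe_eq_one]

theorem mu_r (y : Q) : mu (rQ y) = mu y := by simp [mu]; left; ring

abbrev Wt := ℂ × ℝ × ℝ

def emb (b : ℝ) (y : Q) : Wt :=
  (((mu y * (y 0 - 1 / 2) : ℝ) : ℂ) * Complex.exp (Real.pi * Complex.I * b), mu y * y 1, mu y)

@[fun_prop] theorem cont_emb {A : Type} [TopologicalSpace A] {f : A → ℝ} {g : A → Q}
    (hf : Continuous f) (hg : Continuous g) : Continuous fun a => emb (f a) (g a) := by
  unfold emb mu; fun_prop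

theorem emb_zero {b : ℝ} {y : Q} : emb b y = 0 ↔ bd y :=
  ⟨fun h => mu_zero.1 (congrArg (·.2.2) h), fun h => by simp [emb, mu_zero.2 h]⟩

theorem emb_succ (b : ℝ) (y : Q) : emb (b + 1) y = emb b (rQ y) := by
  simp only [emb, mu_r, rQ_0, rQ_1, coe_symm_eq]
  push_cast
  rw [mul_add, Complex.exp_add, mul_one, Complex.exp_pi_mul_I]
  congr 1; ring

theorem emb_inj {b : ℝ} {y y' : Q} (h : emb b y = emb b y') (hy : ¬bd y) : y = y' := by
  have h0 : mu y ≠ 0 := fun e => hy (mu_zero.1 e)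
  simp only [emb, Prod.mk.injEq, mul_eq_mul_right_iff, Complex.exp_ne_zero, or_false,
    Complex.ofReal_inj] at h
  obtain ⟨h1, h2, h3⟩ := h
  rw [← h3] at h1 h2
  ext i; fin_cases i
  · simpa using mul_left_cancel₀ h0 h1
  · exact mul_left_cancel₀ h0 h2

variable {K : Type} [TopologicalSpace K] (D : Dat K) {J : Type} (τ : J → S1)

abbrev V := {z : (K × S1) × Wt // z.2 = 0 ∨ ∃ j p y, z = ((D.c p, τ j), emb p.2 y)}

def iB : C(K × S1, V D τ) := ⟨fun x => ⟨(x, 0), Or.inl rfl⟩, by fun_prop⟩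

def PV (j : J) (z : R2 × Q) : V D τ := ⟨((D.c z.1, τ j), emb z.1.2 z.2), Or.inr ⟨j, z.1, z.2, rfl⟩⟩

theorem Dat.per : Per fun z : I × R2 => D.c z.2 := by
  simp only [← D.s0]
  exact ⟨D.ps.1.comp (by fun_prop), fun _ => D.ps.2.1 0, fun _ => D.ps.2.2 0⟩

theorem Dat.cc : Continuous D.c := D.per.1.comp (Continuous.prodMk_right 0)

theorem adm_PV (j : J) : Adm (fun z => PV D τ j z.2) fun z => iB D τ (D.c z.2, τ j) := by
  have := D.cc
  refine ⟨Continuous.subtype_mk (by fun_prop) _, fun t p y hy => Subtype.ext ?_,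
    fun t a b y => Subtype.ext ?_, fun t a b y => Subtype.ext ?_⟩
  · exact Prod.ext rfl (emb_zero.2 hy)
  · simp only [PV, D.per.2.1 t]
  · simp only [PV, D.per.2.2 t, emb_succ]

def qV (z : (K × S1) ⊕ J × (I × I) × Q) : V D τ :=
  z.elim (iB D τ) fun z => PV D τ z.1 ((z.2.1.1, z.2.1.2), z.2.2)

theorem qV_surj : Surjective (qV D τ) := by
  rintro ⟨⟨x, w⟩, h | ⟨j, ⟨a, b⟩, y, h⟩⟩
  · exact ⟨.inl x, Subtype.ext (Prod.ext rfl h.symm)⟩
  · refine ⟨.inr (j, (⟨Int.fract a, Int.fract_nonneg a, (Int.fract_lt_one a).le⟩,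
      ⟨Int.fract b, Int.fract_nonneg b, (Int.fract_lt_one b).le⟩), if Even ⌊b⌋ then y else rQ y), ?_⟩
    refine ((adm_PV D τ j).int 0 _ _ ⌊a⌋ ⌊b⌋ y).symm.trans (Subtype.ext ?_)
    simp [PV, h]

theorem PV_eq (hτ : Injective τ) {j j' : J} {p p' : R2} {y y' : Q}
    (h : PV D τ j (p, y) = PV D τ j' (p', y')) : j = j' ∧ ∃ m n : ℤ, p' = (p.1 + m, p.2 + n) ∧
      ((bd y ∧ bd y') ∨ y = if Even n then y' else rQ y') := by
  obtain rfl := hτ (congrArg (·.1.1.2) h)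
  obtain ⟨m, n, rfl⟩ := D.inj _ _ (congrArg (·.1.1.1) h)
  refine ⟨rfl, m, n, rfl, ?_⟩
  by_cases hy : bd y
  · exact Or.inl ⟨hy, emb_zero.1 ((congrArg (·.1.2) h).symm.trans (emb_zero.2 hy))⟩
  · exact Or.inr (emb_inj (congrArg (·.1.2) (h.trans ((adm_PV D τ j).int 0 _ _ m n y'))) hy)

variable [CompactSpace K] [T2Space K] [Finite J] [TopologicalSpace J] [DiscreteTopology J]

theorem cont_qV : Continuous (qV D τ) := Continuous.sumElim (iB D τ).continuous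
  (continuous_prod_of_discrete_left.2 fun j => (adm_PV D τ j).1.comp
    (f := fun z : (I × I) × Q => (0, ((z.1.1 : ℝ), (z.1.2 : ℝ)), z.2)) (by fun_prop))

instance : CompactSpace (V D τ) := ⟨(qV_surj D τ).range_eq ▸ isCompact_range (cont_qV D τ)⟩

variable {Y : Type} [TopologicalSpace Y] {τ}

theorem Vlift (hτ : Injective τ) (g : I × K × S1 → Y) (hg : Continuous g)
    (C : J → I × R2 × Q → Y) (hC : ∀ j, Adm (C j) fun z => g (z.1, D.c z.2, τ j)) :
    ∃ G : I × V D τ → Y, Continuous G ∧ (∀ t x, G (t, iB D τ x) = g (t, x)) ∧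
      ∀ t j z, G (t, PV D τ j z) = C j (t, z) := by
  classical
  let G : I × V D τ → Y := fun z => if h : ∃ w : J × R2 × Q, PV D τ w.1 w.2 = z.2 then
    C h.choose.1 (z.1, h.choose.2) else g (z.1, z.2.1.1)
  have G2 : ∀ t j z, G (t, PV D τ j z) = C j (t, z) := fun t j z => by
    have h : ∃ w : J × R2 × Q, PV D τ w.1 w.2 = PV D τ j z := ⟨(j, z), rfl⟩
    simp only [G, dif_pos h]
    obtain ⟨e, m, n, e', h'⟩ := PV_eq D τ hτ (p := z.1) (y := z.2) h.choose_spec.symm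
    rw [← e, show h.choose.2 = (_, h.choose.2.2) from Prod.ext e' rfl, (hC j).int]
    rcases h' with ⟨h1, h2⟩ | h'
    · rw [(hC j).2.1 _ _ _ (by split_ifs; exacts [h2, bd_r h2]), (hC j).2.1 _ _ _ h1]
    · rw [← h']
  have G1 : ∀ t x, G (t, iB D τ x) = g (t, x) := fun t x => by
    by_cases h : ∃ w : J × R2 × Q, PV D τ w.1 w.2 = iB D τ x
    · obtain ⟨⟨j, p, y⟩, h⟩ := h
      rw [← h, G2, (hC j).2.1 _ _ _ (emb_zero.1 (congrArg (·.1.2) h))]
      exact congrArg (fun v : V D τ => g (t, v.1.1)) h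
    · exact dif_neg h
  refine ⟨G, ((cont_qV D τ).isClosedMap.isQuotientMap (cont_qV D τ)
    (qV_surj D τ)).continuous_lift_prod_right ?_, G1, G2⟩
  have : Continuous (Sum.elim g fun z : I × J × (I × I) × Q =>
      C z.2.1 (z.1, ((z.2.2.1.1 : ℝ), (z.2.2.1.2 : ℝ)), z.2.2.2)) :=
    hg.sumElim ((continuous_prod_of_discrete_left.2 (fun j => (hC j).1.comp (f :=
      fun z : I × (I × I) × Q => (z.1, ((z.2.1.1 : ℝ), (z.2.1.2 : ℝ)), z.2.2)) (by fun_prop)) :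
      Continuous fun z : J × I × (I × I) × Q => C z.1 (z.2.1, ((z.2.2.1.1 : ℝ), (z.2.2.1.2 : ℝ)),
        z.2.2.2)).comp (f := fun z : I × J × (I × I) × Q => (z.2.1, z.1, z.2.2)) (by fun_prop))
  refine (this.comp (Homeomorph.prodSumDistrib (X := I)).continuous).congr ?_
  rintro ⟨t, x | x⟩
  · exact (G1 t x).symm
  · exact (G2 t _ _).symm

theorem Vmap (hτ : Injective τ) (g : C(K × S1, Y)) (c : J → R2 × Q → Y)
    (hc : ∀ j, Adm (fun z => c j z.2) fun z => g (D.c z.2, τ j)) :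
    ∃ G : C(V D τ, Y), (∀ x, G (iB D τ x) = g x) ∧ ∀ j z, G (PV D τ j z) = c j z := by
  obtain ⟨G, a, b, e⟩ := Vlift D hτ (fun z => g z.2) (by fun_prop) (fun j z => c j z.2) hc
  exact ⟨⟨fun v => G (0, v), by fun_prop⟩, b 0, e 0⟩

theorem Vhtp (hτ : Injective τ) (f g : C(V D τ, Y)) (h : ∀ x, g (iB D τ x) = f (iB D τ x))
    (hc : ∀ j, RelC (fun p => f (iB D τ (D.c p, τ j))) (fun z => f (PV D τ j z))
      fun z => g (PV D τ j z)) : ∃ H : f.Homotopy g, ∀ t x, H (t, iB D τ x) = f (iB D τ x) := by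
  choose C h1 h2 h3 using hc
  obtain ⟨G, a, b, e⟩ := Vlift D hτ (fun z => f (iB D τ z.2)) (by fun_prop) C h1
  refine ⟨⟨⟨G, a⟩, fun v => ?_, fun v => ?_⟩, b⟩ <;> obtain ⟨x | x, rfl⟩ := qV_surj D τ v
  exacts [b 0 x, (e 0 _ _).trans (h2 _ _), (b 1 x).trans (h x).symm, (e 1 _ _).trans (h3 _ _)]

theorem exZ (hτ : Injective τ) : ∃ Z : C(V D τ, V D τ), (∀ x, Z (iB D τ x) = iB D τ x) ∧
    ∀ j z, Z (PV D τ j z) = PV D τ j (z.1, xi (2 ^ 3) z.2) :=
  Vmap D hτ _ _ fun j => (adm_PV D τ j).zop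

def t1 : Unit → S1 := fun _ => 0
def t2 : Bool → S1 := fun b => if b then ((1 / 2 : ℝ) : S1) else 0

theorem t1_inj : Injective t1 := fun _ _ _ => rfl

theorem half_ne : ((1 / 2 : ℝ) : S1) ≠ 0 := fun h => by
  obtain ⟨n, h⟩ := coe_eq_zero.1 h
  have : ((2 * n : ℤ) : ℝ) = (1 : ℤ) := by push_cast; linarith
  have := Int.cast_injective this
  omega

theorem t2_inj : Injective t2 := fun a b h => by
  cases a <;> cases b <;> first | rfl | exact absurd h half_ne | exact absurd h.symm half_ne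

omit [CompactSpace K] [T2Space K] in
theorem perH (g : C(K × S1, Y)) : Per (fun z => g (D.Hs z, 0)) ∧
    Per fun z => g (D.Hb z, (((1 - z.1) / 2 : ℝ) : S1)) := by
  have := D.ps.1
  have := D.pb.1
  have : Continuous fun s : ℝ => (s : S1) := continuous_quotient_mk'
  exact ⟨⟨by fun_prop, fun t a b => by simp only [D.ps.2.1], fun t a b => by simp only [D.ps.2.2]⟩,
    by fun_prop, fun t a b => by simp only [D.pb.2.1], fun t a b => by simp only [D.pb.2.2]⟩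

theorem shift {Z₁ : C(V D t1, V D t1)} {Z₂ : C(V D t2, V D t2)}
    (z1 : ∀ x, Z₁ (iB D t1 x) = iB D t1 x)
    (z1' : ∀ j z, Z₁ (PV D t1 j z) = PV D t1 j (z.1, xi (2 ^ 3) z.2))
    (z2 : ∀ x, Z₂ (iB D t2 x) = iB D t2 x)
    (z2' : ∀ j z, Z₂ (PV D t2 j z) = PV D t2 j (z.1, xi (2 ^ 3) z.2)) :
    ∃ (u : C(V D t1, V D t2)) (v : C(V D t2, V D t1)), (∀ x, u (iB D t1 x) = iB D t2 x) ∧
      (∀ x, v (iB D t2 x) = iB D t1 x) ∧
      (∃ H : (v.comp u).Homotopy Z₁, ∀ t x, H (t, iB D t1 x) = iB D t1 x) ∧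
      ∃ H : (u.comp v).Homotopy Z₂, ∀ t x, H (t, iB D t2 x) = iB D t2 x := by
  obtain ⟨ψ₁, ψ₂, f1, f2, ⟨G, g1, g2, g3⟩, ⟨G₁, k11, k12, k13⟩, G₂, k21, k22, k23⟩ := fib
  obtain ⟨s1, s2, s3, s4, s5, s6⟩ := tw_tw
  obtain ⟨p1, p2, p3⟩ := Ph_tw
  have r1 : ∀ w, rF (sw w) = ta w := fun w => by
    obtain ⟨k, y, rfl⟩ := F_ind w; simp [rF, sw, ta, tw_io]
  have r2 : ∀ w, rF (k1 w) = k2 w := fun w => by
    obtain ⟨k, y, rfl⟩ := F_ind w; cases k <;> simp [rF, k1, k2, tw_io]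
  have fP : Fam (.id F) fun z => Ph (io false z.2.2) := ⟨by fun_prop, fun _ _ y h => by
    beta_reduce; rw [io_bd _ h, Ph_o], fun _ _ _ => rfl, fun _ _ y => p3 (io false y)⟩
  obtain ⟨d', hd⟩ := Rel.ex (c := PV D t2 true) (by simpa [D.b0, t2] using adm_PV D t2 true)
    (perH D (iB D t2)).2
  obtain ⟨εd, d1, d2, d3⟩ := mk_k1 (e := fun p => iB D t2 (D.c p, 0)) (adm_PV D t2 false)
    (by simpa [D.b1] using hd.right)
  obtain ⟨cU, hU⟩ := Rel.ex' (c := fun z => εd (0, (2 * z.1.1, z.1.2), Ph (io false z.2)))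
    (by simpa [D.s1] using ((d1.dbl s3).ev (fun _ => rfl) fP).at (fun _ => 0) continuous_const)
    (perH D (iB D t2)).1
  obtain ⟨u, u1, u2⟩ := Vmap D t1_inj (iB D t2) (fun _ => cU) fun _ => by
    simpa [D.s0, t1] using hU.left
  obtain ⟨c', hc⟩ := Rel.ex (c := PV D t1 ()) (by simpa [D.s0, t1] using adm_PV D t1 ())
    (perH D (iB D t1)).1
  have he : ∀ {L : Type} (τ : L → S1) a b, iB D τ (D.c (a + 1, b), 0) = iB D τ (D.c (a, b), 0) :=
    fun τ a b => by rw [show D.c (a + 1, b) = _ from D.per.2.1 0 a b]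
  obtain ⟨εc, c1, c2, c3⟩ := mk_sw (e := fun p => iB D t1 (D.c p, 0)) (he t1)
    (by simpa [D.s1] using hc.right)
  obtain ⟨m, hm⟩ := Rel.ex' (c := fun z => εc (0, (z.1.1, z.1.2 + z.1.1), ψ₂ (z.1.1, z.2)))
    (by simpa [D.b1] using ((c1.sh r1).ev s2 f2).at (fun _ => 0) continuous_const)
    (perH D (iB D t1)).2
  obtain ⟨v, v1, v2⟩ := Vmap D t2_inj (iB D t1)
    (fun j z => if j then m z else εc (0, z.1, ψ₁ (z.1.1, z.2))) fun j => by
      cases j
      · exact (c1.ev s1 f1).at (fun _ => 0) continuous_const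
      · simpa [D.b0, t2] using hm.left
  refine ⟨u, v, u1, v1, ?_, ?_⟩
  · obtain ⟨H, h⟩ := Vhtp D t1_inj (v.comp u) Z₁ (fun x => by simp [u1, v1, z1]) fun _ => by
      have a1 := (hU.map v).back (by simpa only [v1] using hc.zop) (by
        obtain ⟨C, b1, b2, b3⟩ := (hd.map v).uniq0 (by simpa [v1, v2] using hm)
        obtain ⟨ε, e1, e2, e3⟩ := mk_k1 (e := fun p => iB D t1 (D.c p, 0))
          ((c1.ev s1 f1).at (fun _ => 0) continuous_const) (by simpa [D.b1, v1] using b1)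
        simp only [D.s1, v1]
        refine RelC.trans ⟨_, (e1.dbl s3).ev (fun _ => rfl) fP, fun z => ?_, fun _ => rfl⟩
          ⟨fun z => εc (0, (2 * z.2.1.1, z.2.1.2), G (z.1, z.2.1.1, z.2.2)), ?_, fun z => ?_,
          fun z => ?_⟩
        · simp only [Ph_io]
          split_ifs <;> simp_all
        · exact (c1.at0.dbl s1).ev (fun _ => rfl) g1
        · simp only [Ph_io, g2]
          split_ifs <;> simp_all
        · simp [g3, wO_eq, c2])
      simpa [u1, v1, u2, z1', D.s0, t1] using a1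
    exact ⟨H, fun t x => (h t x).trans (by simp [u1, v1])⟩
  · obtain ⟨C, b1, b2, b3⟩ := (hc.map u).uniq0 (by simpa [u1, u2] using hU)
    obtain ⟨ε, e1, e2, e3⟩ := mk_sw (e := fun p => iB D t2 (D.c p, 0)) (he t2)
      (by simpa [D.s1, u1] using b1)
    have a0 : ∀ p w, ε (0, p, w) = u (εc (0, p, w)) := fun p w => by
      obtain ⟨k, y, rfl⟩ := F_ind w
      cases k <;> simp [e2, e3, c2, c3, b2]
    have a1 : ∀ p w, ε (1, p, w) = εd (0, p, Ph w) := fun p w => by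
      obtain ⟨k, y, rfl⟩ := F_ind w
      cases k
      · simp [e2, b3, mul_div_cancel₀]
      · simp only [e3, b3, mul_div_cancel₀ _ (two_ne_zero' ℝ), d1.2.2.1, ← p1]; rfl
    obtain ⟨H, h⟩ := Vhtp D t2_inj (u.comp v) Z₂ (fun x => by simp [u1, v1, z2]) fun j => by
      cases j
      · simp only [ContinuousMap.comp_apply, v1, u1, v2, z2']
        refine RelC.trans ⟨_, e1.ev s1 f1, fun z => a0 _ _, fun _ => rfl⟩
          ⟨_, d1.at0.ev s3 k11, fun z => ?_, fun z => ?_⟩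
        · simp only [a1, k12]
        · simp only [k13, wO_eq, d2]
      · have a2 := (hm.map u).back (by simpa only [u1] using hd.zop) (by
          simp only [D.b1, u1]
          refine RelC.trans ⟨_, by simpa using (e1.sh r1).ev s2 f2, fun z => a0 _ _, fun _ => rfl⟩
            ⟨_, by simpa using (d1.at0.sh r2).ev s4 k21, fun z => ?_, fun z => ?_⟩
          · simp only [a1, k22]
          · simp [k23, wO_eq, d3])
        simpa [u1, v1, v2, z2', D.b0, t2] using a2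
    exact ⟨H, fun t x => (h t x).trans (by simp [u1, v1])⟩

end Pool.Agent.H74.SC
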