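import Mathlib
import Pool.Agent.H74.SC1

set_option autoImplicit false

noncomputable section

namespace Pool.Agent.H74.SC

open unitInterval Set Topology ContinuousMap

section
variable {X X' : Type} [TopologicalSpace X] [TopologicalSpace X']

theorem htp {f g : C(X, X')} (H : I × X → X') (hH : Continuous H) (h0 : ∀ x, H (0, x) = f x)
    (h1 : ∀ x, H (1, x) = g x) : f.Homotopic g := ⟨⟨⟨H, hH⟩, h0, h1⟩⟩

end

variable {W W' : Type} [TopologicalSpace W] [TopologicalSpace W']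

def mm (φ : C(W, W')) (ψ : C(W', W)) : C(T (ψ.comp φ), T (φ.comp ψ)) :=
  ⟨lift (fun x t => mk _ (φ x) t) fun x => mk_one _ _,
    cont_T (show Continuous fun z : W × I => mk _ (φ z.1) z.2 by fun_prop)⟩

theorem mm_mm (φ : C(W, W')) (ψ : C(W', W)) : ((mm ψ φ).comp (mm φ ψ)).Homotopic (ContinuousMap.id _) :=
  (htp (fun z => Fl _ z.2 z.1) (by fun_prop) (fun x => Fl_zero _ x) fun y => by
    obtain ⟨x, t, rfl⟩ := mk_surj _ y
    rw [Fl_mk _ _ _ (by simp), Icc.coe_one, E_succ _ _ t.2.1, E_val]; rfl).symm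

def Γ {f g : C(W, W)} (F : f.Homotopy g) (x : W) (s : ℝ) : T f :=
  if s ≤ 1 then mk f x (pj s) else mk f (F (pj (s - 1), x)) 0

@[fun_prop] theorem cont_Γ {f g : C(W, W)} (F : f.Homotopy g) {A : Type} [TopologicalSpace A]
    {u : A → W} {k : A → ℝ} (hu : Continuous u) (hk : Continuous k) :
    Continuous fun a => Γ F (u a) (k a) :=
  Continuous.if_le (by fun_prop) (by fun_prop) hk continuous_const fun a e => by
    simp [e, mk_one]

theorem Γ_le {f g : C(W, W)} (F : f.Homotopy g) (x : W) {s : ℝ} (h : s ≤ 1) :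
    Γ F x s = mk f x (pj s) := if_pos h

theorem Γ_ge {f g : C(W, W)} (F : f.Homotopy g) (x : W) {s : ℝ} (h : 1 ≤ s) :
    Γ F x s = mk f (F (pj (s - 1), x)) 0 := by
  rcases h.eq_or_lt with rfl | h
  · simp [Γ, mk_one]
  · exact if_neg h.not_ge

def hm {f g : C(W, W)} (F : f.Homotopy g) : C(T g, T f) :=
  ⟨lift (fun x t => Γ F x (2 * t)) fun x => by
      rw [Γ_ge _ _ (by norm_num), Γ_le _ _ (by norm_num)]; norm_num,
    cont_T (show Continuous fun z : W × I => Γ F z.1 (2 * z.2) by fun_prop)⟩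

theorem hm_hm {f g : C(W, W)} (F : f.Homotopy g) :
    ((hm F).comp (hm F.symm)).Homotopic (ContinuousMap.id _) := by
  refine htp (fun z => lift (fun x t => Γ F x ((1 - z.1) * min (4 * (t : ℝ)) (3 - 2 * t) + z.1 * t))
    (fun x => by rw [Γ_ge _ _ (by norm_num), Γ_le _ _ (by norm_num)]; norm_num) z.2)
    (cont_T' (show Continuous fun z : I × (W × I) =>
      Γ F z.2.1 ((1 - z.1) * min (4 * (z.2.2 : ℝ)) (3 - 2 * z.2.2) + z.1 * z.2.2) by fun_prop))
    (fun y => ?_) fun y => ?_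
  · obtain ⟨x, t, rfl⟩ := mk_surj _ y
    have h0 := t.2.1
    have h1 := t.2.2
    simp only [lift_mk, Icc.coe_zero, sub_zero, one_mul, zero_mul, add_zero]
    change _ = hm F (Γ F.symm x (2 * t))
    rcases le_total (2 * (t : ℝ)) 1 with h | h
    · rw [Γ_le F.symm _ h, min_eq_left (by linarith)]
      change _ = Γ F x (2 * pj (2 * t))
      rw [pj_of (by linarith) h]; congr 1; ring
    · rw [Γ_ge F.symm _ h, min_eq_right (by linarith), Γ_ge _ _ (by linarith)]
      change _ = Γ F _ (2 * ((0 : I) : ℝ))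
      rw [Γ_le _ _ (by norm_num), Homotopy.symm_apply]
      simp only [Icc.coe_zero, mul_zero, pj_zero]
      congr 3
      ext
      rw [coe_symm_eq, pj_of (by linarith) (by linarith), pj_of (by linarith) (by linarith)]; ring
  · obtain ⟨x, t, rfl⟩ := mk_surj _ y
    simp [Γ_le _ _ t.2.2]

theorem hm_mk {f g : C(W, W)} (F : f.Homotopy g) {x : W} (h : ∀ t, F (t, x) = x) (s : I) :
    (∃ s', hm F (mk g x s) = mk f x s') ∧ hm F (mk g x 0) = mk f x 0 := by
  refine ⟨?_, (Γ_le F x (by norm_num)).trans (by simp)⟩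
  change ∃ s', Γ F x _ = _
  unfold Γ
  split_ifs
  · exact ⟨_, rfl⟩
  · exact ⟨0, by rw [h]⟩

theorem shiftT {B : Type} {u : C(W, W')} {v : C(W', W)} {Z : C(W, W)} {Z' : C(W', W')} {i : B → W}
    {i' : B → W'} (hu : ∀ x, u (i x) = i' x) (H : (v.comp u).Homotopy Z)
    (hH : ∀ t x, H (t, i x) = i x) (H' : (u.comp v).Homotopy Z') (hH' : ∀ t x, H' (t, i' x) = i' x) :
    ∃ h : T Z ≃ₕ T Z', ∀ x, (∀ s, ∃ s', h (mk Z (i x) s) = mk Z' (i' x) s') ∧
      h (mk Z (i x) 0) = mk Z' (i' x) 0 := by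
  let h1 : T Z ≃ₕ T (v.comp u) := ⟨hm H, hm H.symm, by simpa using hm_hm H.symm, hm_hm H⟩
  let h2 : T (v.comp u) ≃ₕ T (u.comp v) := ⟨mm u v, mm v u, mm_mm u v, mm_mm v u⟩
  let h3 : T (u.comp v) ≃ₕ T Z' := ⟨hm H'.symm, hm H', hm_hm H', by simpa using hm_hm H'.symm⟩
  have a : ∀ x s, h2 (mk _ (i x) s) = mk _ (i' x) s := fun x s => by rw [← hu]; rfl
  refine ⟨(h1.trans h2).trans h3, fun x => ⟨fun s => ?_, ?_⟩⟩
  · obtain ⟨s, e⟩ := (hm_mk H (hH · x) s).1
    obtain ⟨s', e'⟩ := (hm_mk H'.symm (fun t => hH' (σ t) x) s).1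
    exact ⟨s', (congrArg h3 ((congrArg h2 e).trans (a x s))).trans e'⟩
  · exact (congrArg h3 ((congrArg h2 (hm_mk H (hH · x) 0).2).trans (a x 0))).trans
      (hm_mk H'.symm (fun t => hH' (σ t) x) 0).2

theorem two_coe (a : ℝ) : 2 • (a : S1) = ((2 * a : ℝ) : S1) := by
  rw [← AddCircle.coe_nsmul]; simp

@[fun_prop] theorem cont_coe : Continuous fun s : ℝ => (s : S1) := continuous_quotient_mk'

theorem retract_fp {G H : Type} [Group G] [Group H] [Group.IsFinitelyPresented G] (ρ : G →* H)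
    (ι : H →* G) (h : ∀ x, ρ (ι x) = x) : Group.IsFinitelyPresented H := by
  obtain ⟨n, φ, hφ, -⟩ := ‹Group.IsFinitelyPresented G›.out
  let S : Set G := range fun i : Fin n => (φ (.of i))⁻¹ * ι (ρ (φ (.of i)))
  refine Group.IsFinitelyPresented.of_surjective ρ (fun x => ⟨ι x, h x⟩) ⟨S, finite_range _,
    le_antisymm (Subgroup.normalClosure_le_normal ?_) fun x hx => ?_⟩
  · rintro _ ⟨i, rfl⟩; simp [h]
  · let q := QuotientGroup.mk' (Subgroup.normalClosure S)
    have : q.comp φ = ((q.comp ι).comp ρ).comp φ := FreeGroup.ext_hom _ _ fun i =>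
      QuotientGroup.eq.2 (Subgroup.subset_normalClosure ⟨i, rfl⟩)
    obtain ⟨y, rfl⟩ := hφ x
    have := DFunLike.congr_fun this y
    simp only [MonoidHom.comp_apply, MonoidHom.mem_ker.1 hx, map_one] at this
    exact (QuotientGroup.eq_one_iff _).1 this

end Pool.Agent.H74.SC
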