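import Mathlib
import Pool.Agent.H74.SC2

set_option autoImplicit false

noncomputable section

namespace Pool.Agent.H74.SC

open unitInterval Set Topology Function Metric

def Op (n : ℕ) (u : ℕ → I) : Prop := ∀ k < n, u k ≠ 0 ∧ u k ≠ 1

structure Cells (X : Type) [TopologicalSpace X] where
  ι : Type
  fin : Finite ι
  d : ι → ℕ
  Φ : ι → (ℕ → I) → X
  cont : ∀ i, Continuous (Φ i)
  dep : ∀ i u v, (∀ k < d i, u k = v k) → Φ i u = Φ i v
  inj : ∀ i j u v, Op (d i) u → Op (d j) v → Φ i u = Φ j v → i = j ∧ ∀ k < d i, u k = v k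
  bdy : ∀ i u, ¬Op (d i) u → ∃ j v, d j < d i ∧ Φ j v = Φ i u
  cov : ∀ x, ∃ i u, Φ i u = x

def skel (Y : Type) [TopologicalSpace Y] [CWComplex (univ : Set Y)] (n : ℕ) : Set Y :=
  ⋃ m ≤ n, ⋃ j : RelCWComplex.cell (univ : Set Y) m, RelCWComplex.map m j '' closedBall 0 1

variable {X U A : Type} [TopologicalSpace X] [TopologicalSpace U] [TopologicalSpace A]

def Cells.Sk (C : Cells X) (n : ℕ) (x : X) : Prop := ∃ j v, C.d j ≤ n ∧ C.Φ j v = x

theorem Cells.op (C : Cells X) (n : ℕ) : ∀ i u, C.d i ≤ n →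
    ∃ j v, C.d j ≤ C.d i ∧ Op (C.d j) v ∧ C.Φ j v = C.Φ i u := by
  induction n using Nat.strong_induction_on with
  | _ n ih =>
    intro i u h
    by_cases e : Op (C.d i) u
    · exact ⟨i, u, le_rfl, e, rfl⟩
    · obtain ⟨j, v, h1, h2⟩ := C.bdy i u e
      obtain ⟨k, w, h3, h4, h5⟩ := ih (C.d j) (by omega) j v le_rfl
      exact ⟨k, w, by omega, h4, h5.trans h2⟩

def cv (n : ℕ) (u : Fin n → ℝ) (k : ℕ) : I := if h : k < n then pj ((u ⟨k, h⟩ + 1) / 2) else 0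

theorem cont_cv (n : ℕ) : Continuous (cv n) :=
  continuous_pi fun k => by unfold cv; split_ifs <;> fun_prop

theorem cv_val {n : ℕ} {u : Fin n → ℝ} (hu : u ∈ closedBall (0 : Fin n → ℝ) 1) (k : Fin n) :
    (cv n u k : ℝ) = (u k + 1) / 2 := by
  have := abs_le.1 ((norm_le_pi_norm u k).trans (mem_closedBall_zero_iff.1 hu))
  rw [cv, dif_pos k.2, pj_of (by linarith) (by linarith)]

theorem cv_op {n : ℕ} {u : Fin n → ℝ} (hu : u ∈ closedBall (0 : Fin n → ℝ) 1) :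
    Op n (cv n u) ↔ u ∈ ball (0 : Fin n → ℝ) 1 := by
  rw [mem_ball_zero_iff, pi_norm_lt_iff one_pos]
  have h := fun k => abs_le.1 ((norm_le_pi_norm u k).trans (mem_closedBall_zero_iff.1 hu))
  constructor
  · intro e k
    have a := cv_val hu k
    obtain ⟨b, c⟩ := e k k.2
    rw [Real.norm_eq_abs, abs_lt]
    exact ⟨(h k).1.lt_of_ne fun f => b (Subtype.ext (by rw [a, ← f]; norm_num)),
      (h k).2.lt_of_ne fun f => c (Subtype.ext (by rw [a, f]; norm_num))⟩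
  · intro e k hk
    have a := cv_val hu ⟨k, hk⟩
    have b := abs_lt.1 (e ⟨k, hk⟩)
    constructor <;> intro f <;> simp only [f, Icc.coe_zero, Icc.coe_one] at a <;> linarith

theorem cv_surj (n : ℕ) (v : ℕ → I) :
    ∃ u ∈ closedBall (0 : Fin n → ℝ) 1, ∀ k < n, cv n u k = v k := by
  refine ⟨fun k => 2 * v k - 1, mem_closedBall_zero_iff.2 ((pi_norm_le_iff_of_nonneg zero_le_one).2
    fun k => abs_le.2 ⟨by linarith [(v k).2.1], by linarith [(v k).2.2]⟩), fun k hk => ?_⟩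
  simp [cv, hk]

theorem Cells.cw [T2Space X] (C : Cells X) : ∃ _ : CWComplex (univ : Set X),
    RelCWComplex.Finite (univ : Set X) ∧ ∀ n x, x ∈ skel X n ↔ C.Sk n x := by
  have := C.fin
  have hi : ∀ n (i : {i // C.d i = n}), ∀ u ∈ closedBall (0 : Fin n → ℝ) 1,
      ∀ v ∈ ball (0 : Fin n → ℝ) 1, C.Φ i (cv n u) = C.Φ i (cv n v) → u = v := by
    rintro _ ⟨i, rfl⟩ u hu v hv e
    have hv' := ball_subset_closedBall hv
    by_cases h : Op (C.d i) (cv _ u)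
    · ext k
      have := congrArg Subtype.val ((C.inj _ _ _ _ h ((cv_op hv').2 hv) e).2 k k.2)
      rw [cv_val hu, cv_val hv'] at this
      linarith
    · obtain ⟨j, w, h1, h2⟩ := C.bdy _ _ h
      obtain ⟨k, w', h3, h4, h5⟩ := C.op _ j w le_rfl
      have := (C.inj _ _ _ _ h4 ((cv_op hv').2 hv) (h5.trans (h2.trans e))).1
      subst this; omega
  let cm : ∀ n, {i // C.d i = n} → PartialEquiv (Fin n → ℝ) X := fun n i =>
    InjOn.toPartialEquiv (fun u => C.Φ i (cv n u)) (ball 0 1) fun u hu v hv =>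
      hi n i u (ball_subset_closedBall hu) v hv
  have cc : ∀ n i, Continuous (cm n i) := fun n i => (C.cont i).comp (cont_cv n)
  have hr : ∀ j v, C.Φ j v ∈ cm (C.d j) ⟨j, rfl⟩ '' closedBall 0 1 := fun j v => by
    obtain ⟨u, hu, e⟩ := cv_surj (C.d j) v
    exact ⟨u, hu, C.dep _ _ _ e⟩
  obtain ⟨M, hM⟩ := (finite_range C.d).bddAbove
  refine ⟨_, CWComplex.finite_mkFinite univ _ cm (Filter.eventually_atTop.2 ⟨M + 1, fun n hn =>
    ⟨fun i => by have := hM ⟨i.1, rfl⟩; have := i.2; omega⟩⟩) (fun n => inferInstance)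
    (fun _ _ => rfl) (fun n i => (cc n i).continuousOn) (fun n i => ?_) ?_ ?_ ?_, fun n x => ?_⟩
  · rw [continuousOn_iff_isClosed]
    intro S hS
    refine ⟨cm n i '' (S ∩ closedBall 0 1),
      (((isCompact_closedBall _ _).inter_left hS).image (cc n i)).isClosed, ?_⟩
    ext y
    refine and_congr_left fun hy => ⟨fun h => ⟨_, ⟨h, ball_subset_closedBall
      ((cm n i).map_target hy)⟩, (cm n i).right_inv hy⟩, ?_⟩
    rintro ⟨u, ⟨h1, h2⟩, e⟩
    rwa [hi n i u h2 _ ((cm n i).map_target hy) (e.trans ((cm n i).right_inv hy).symm)] at h1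
  · rintro ⟨_, i, rfl⟩ - ⟨_, j, rfl⟩ - hne
    refine disjoint_left.2 ?_
    rintro _ ⟨u, hu, rfl⟩ ⟨v, hv, e⟩
    obtain rfl := (C.inj _ _ _ _ ((cv_op (ball_subset_closedBall hv)).2 hv)
      ((cv_op (ball_subset_closedBall hu)).2 hu) e).1
    exact hne rfl
  · rintro _ ⟨i, rfl⟩ u hu
    obtain ⟨j, v, h1, h2⟩ := C.bdy i (cv _ u) fun h =>
      (mem_ball_zero_iff.1 ((cv_op (sphere_subset_closedBall hu)).1 h)).ne
        (mem_sphere_zero_iff_norm.1 hu)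
    exact mem_iUnion₂.2 ⟨_, h1, mem_iUnion.2 ⟨⟨j, rfl⟩, mem_of_eq_of_mem h2.symm (hr j v)⟩⟩
  · refine eq_univ_of_forall fun x => ?_
    obtain ⟨i, u, rfl⟩ := C.cov x
    exact mem_iUnion₂.2 ⟨_, _, hr i u⟩
  · simp only [skel, mem_iUnion]
    constructor
    · rintro ⟨_, h, ⟨j, rfl⟩, u, -, e⟩
      exact ⟨j, _, h, e⟩
    · rintro ⟨j, v, h, rfl⟩
      exact ⟨_, h, _, hr j v⟩

def Cells.cyl (C : Cells U) (E : Cells A) (i : U → X) (c : A × I → X) (hi : Continuous i)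
    (hc : Continuous c) (ii : Injective i)
    (h0 : ∀ j v t, t = 0 ∨ t = 1 → ∃ x, C.Sk (E.d j) x ∧ i x = c (E.Φ j v, t))
    (ci : ∀ a a' t t', t ≠ 0 ∧ t ≠ 1 → t' ≠ 0 ∧ t' ≠ 1 → c (a, t) = c (a', t') → a = a' ∧ t = t')
    (cd : ∀ a t x, t ≠ 0 ∧ t ≠ 1 → c (a, t) ≠ i x)
    (cov : ∀ x, (∃ u, i u = x) ∨ ∃ z, c z = x) : Cells X where
  ι := C.ι ⊕ E.ι
  fin := by have := C.fin; have := E.fin; infer_instance
  d := Sum.elim C.d fun j => E.d j + 1
  Φ := Sum.elim (fun j u => i (C.Φ j u)) fun j u => c (E.Φ j fun k => u (k + 1), u 0)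
  cont := by
    rintro (j | j)
    · exact hi.comp (C.cont j)
    · exact hc.comp (((E.cont j).comp (by fun_prop)).prodMk (by fun_prop))
  dep := by
    rintro (j | j) u v h
    · exact congrArg i (C.dep j u v h)
    · simp only [Sum.elim_inr] at h ⊢
      rw [h 0 (by omega), E.dep j _ (fun k => v (k + 1)) fun k hk => h _ (by omega)]
  inj := by
    rintro (j | j) (k | k) u v hu hv e
    · obtain ⟨rfl, h⟩ := C.inj j k u v hu hv (ii e)
      exact ⟨rfl, h⟩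
    · exact absurd e.symm (cd _ _ _ (hv 0 (Nat.succ_pos _)))
    · exact absurd e (cd _ _ _ (hu 0 (Nat.succ_pos _)))
    · obtain ⟨e1, e2⟩ := ci _ _ _ _ (hu 0 (Nat.succ_pos _)) (hv 0 (Nat.succ_pos _)) e
      obtain ⟨rfl, h⟩ := E.inj j k _ _ (fun m hm => hu _ (Nat.succ_lt_succ hm))
        (fun m hm => hv _ (Nat.succ_lt_succ hm)) e1
      refine ⟨rfl, fun m hm => ?_⟩
      cases m
      exacts [e2, h _ (Nat.lt_of_succ_lt_succ hm)]
  bdy := by
    rintro (j | j) u hu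
    · obtain ⟨k, v, h1, h2⟩ := C.bdy j u hu
      exact ⟨.inl k, v, h1, congrArg i h2⟩
    · by_cases h : u 0 = 0 ∨ u 0 = 1
      · obtain ⟨_, ⟨k, v, h1, rfl⟩, h2⟩ := h0 j (fun k => u (k + 1)) _ h
        exact ⟨.inl k, v, Nat.lt_succ_of_le h1, h2⟩
      · obtain ⟨k, v, h1, h2⟩ := E.bdy j (fun k => u (k + 1)) fun e => hu fun m hm => by
          cases m
          exacts [not_or.1 h, e _ (Nat.lt_of_succ_lt_succ hm)]
        exact ⟨.inr k, fun m => Nat.casesOn m (u 0) v, Nat.succ_lt_succ h1, by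
          simp only [Sum.elim_inr, ← h2]; rfl⟩
  cov := fun x => by
    rcases cov x with ⟨u, rfl⟩ | ⟨⟨a, t⟩, rfl⟩
    · obtain ⟨j, v, rfl⟩ := C.cov u
      exact ⟨.inl j, v, rfl⟩
    · obtain ⟨j, v, rfl⟩ := E.cov a
      exact ⟨.inr j, fun m => Nat.casesOn m t v, rfl⟩

def cPt : Cells Unit where
  ι := Unit
  fin := inferInstance
  d := fun _ => 0
  Φ := fun _ _ => ()
  cont := fun _ => continuous_const
  dep := fun _ _ _ _ => rfl
  inj := fun _ _ _ _ _ _ _ => ⟨rfl, fun _ h => absurd h (Nat.not_lt_zero _)⟩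
  bdy := fun _ _ h => absurd (fun _ h => absurd h (Nat.not_lt_zero _)) h
  cov := fun _ => ⟨(), 0, rfl⟩

def Cells.bool (C : Cells U) : Cells (Bool × U) where
  ι := Bool × C.ι
  fin := by have := C.fin; infer_instance
  d := fun j => C.d j.2
  Φ := fun j u => (j.1, C.Φ j.2 u)
  cont := fun j => continuous_const.prodMk (C.cont j.2)
  dep := fun j u v h => by rw [C.dep _ u v h]
  inj := fun i j u v hu hv e =>
    have := C.inj _ _ _ _ hu hv (congrArg Prod.snd e)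
    ⟨Prod.ext (Prod.ext_iff.1 e).1 this.1, this.2⟩
  bdy := fun i u h =>
    have ⟨j, v, h1, h2⟩ := C.bdy _ u h
    ⟨(i.1, j), v, h1, Prod.ext rfl h2⟩
  cov := fun x =>
    have ⟨j, v, h⟩ := C.cov x.2
    ⟨(x.1, j), v, Prod.ext rfl h⟩

theorem coeI_inj {t s : I} (ht : t ≠ 1) (hs : s ≠ 1) (e : ((t : ℝ) : S1) = (s : ℝ)) : t = s :=
  Subtype.ext ((AddCircle.coe_eq_coe_iff_of_mem_Ico (a := 0)
    ⟨t.2.1, by simpa using lt_of_le_of_ne t.2.2 fun h => ht (Subtype.ext h)⟩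
    ⟨s.2.1, by simpa using lt_of_le_of_ne s.2.2 fun h => hs (Subtype.ext h)⟩).1 e)

theorem coeI_surj (x : S1) : ∃ t : I, ((t : ℝ) : S1) = x := by
  obtain ⟨a, rfl⟩ : ∃ a : ℝ, (a : S1) = x := QuotientAddGroup.mk_surjective _
  exact ⟨⟨Int.fract a, Int.fract_nonneg a, (Int.fract_lt_one a).le⟩, coe_eq.2 ⟨-⌊a⌋, by simp⟩⟩

theorem coeI_bd {t : I} (h : t = 0 ∨ t = 1) : ((t : ℝ) : S1) = 0 := by
  rcases h with rfl | rfl <;> simp

def Cells.circ (C : Cells U) : Cells (U × S1) :=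
  C.cyl C (fun u => (u, 0)) (fun z => (z.1, ((z.2 : ℝ) : S1))) (by fun_prop) (by fun_prop)
    (fun _ _ e => congrArg Prod.fst e)
    (fun j v t h => ⟨_, ⟨j, v, le_rfl, rfl⟩, Prod.ext rfl (coeI_bd h).symm⟩)
    (fun _ _ _ _ h h' e => ⟨congrArg Prod.fst e, coeI_inj h.2 h'.2 (congrArg Prod.snd e)⟩)
    (fun _ _ _ h e => h.1 (coeI_inj h.2 zero_ne_one (congrArg Prod.snd e)))
    fun x => have ⟨t, h⟩ := coeI_surj x.2; Or.inr ⟨(x.1, t), Prod.ext rfl h⟩

def cS1 : Cells S1 :=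
  cPt.cyl cPt (fun _ => 0) (fun z => ((z.2 : ℝ) : S1)) (by fun_prop) (by fun_prop)
    (fun _ _ _ => rfl) (fun j v t h => ⟨_, ⟨j, v, le_rfl, rfl⟩, (coeI_bd h).symm⟩)
    (fun _ _ _ _ h h' e => ⟨rfl, coeI_inj h.2 h'.2 e⟩)
    (fun _ _ _ h e => h.1 (coeI_inj h.2 zero_ne_one e))
    fun x => have ⟨t, h⟩ := coeI_surj x; Or.inr ⟨((), t), h⟩

def Cells.tor (C : Cells U) (f : C(U, U)) (hf : ∀ j v, C.Sk (C.d j) (f (C.Φ j v))) : Cells (T f) :=
  C.cyl C (fun u => SC.mk f u 0) (fun z => SC.mk f z.1 z.2) (by fun_prop) (by fun_prop)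
    (fun _ _ e => by simpa using mk_eq.1 e)
    (fun j v t h => by
      rcases h with rfl | rfl
      exacts [⟨_, ⟨j, v, le_rfl, rfl⟩, rfl⟩, ⟨_, hf j v, (mk_one f _).symm⟩])
    (fun _ _ _ _ h h' e => by simpa [h.1, h.2, h'.1, h'.2] using mk_eq.1 e)
    (fun _ _ _ h e => by simpa [h.1, h.2] using mk_eq.1 e)
    fun x => have ⟨a, t, h⟩ := mk_surj f x; Or.inr ⟨(a, t), h⟩

end Pool.Agent.H74.SC
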