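import Mathlib
import Pool.Agent.H74.SC6
import Pool.Agent.H74.SC7

set_option autoImplicit false

noncomputable section

namespace Pool.Agent.H74.SC

open unitInterval Set Topology Function

theorem gauge {B Ω ι : Type} [TopologicalSpace B] [TopologicalSpace Ω] [DiscreteTopology Ω]
    (U : ι → Set B) (hU : ∀ i, IsOpen (U i)) (hc : ∀ x, ∃ i, x ∈ U i) (g : ι → B → Equiv.Perm Ω)
    (hg : ∀ i j ω, ContinuousOn (fun x => (g j x).symm (g i x ω)) (U i ∩ U j)) :
    ∃ (E : Type) (_ : TopologicalSpace E) (p : E → B) (η : E → Ω), IsCoveringMap p ∧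
      (∀ x ω, ∃ e, p e = x ∧ η e = ω) ∧ (∀ e e', p e = p e' → η e = η e' → e = e') ∧
      ∀ i, ContinuousOn (fun e => (g i (p e)).symm (η e)) (p ⁻¹' U i) := by
  choose ix hix using hc
  let Z : FiberBundleCore ι B Ω :=
    { baseSet := U
      isOpen_baseSet := hU
      indexAt := ix
      mem_baseSet_at := hix
      coordChange := fun i j x ω => (g j x).symm (g i x ω)
      coordChange_self := fun i x _ v => by simp
      continuousOn_coordChange := fun i j => continuousOn_prod_of_discrete_right.2 fun ω =>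
        (hg i j ω).mono fun x hx => hx.1
      coordChange_comp := fun i j k x _ v => by simp }
  refine ⟨Z.TotalSpace, inferInstance, Z.proj, fun e => g (ix e.1) e.1 e.2,
    IsFiberBundle.isCoveringMap (F := Ω) fun x => ⟨Z.localTriv (ix x), hix x⟩,
    fun x ω => ⟨⟨x, (g (ix x) x).symm ω⟩, rfl, by simp⟩, ?_,
    fun i => continuous_snd.comp_continuousOn (Z.localTriv i).continuousOn⟩
  rintro ⟨x, a⟩ ⟨y, b⟩ (rfl : x = y) h
  rw [show a = b from (g _ _).injective h]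

abbrev TT := S1 × S1

def pi2 (p : R2) : TT := (p.1, p.2)

@[fun_prop] theorem cont_pi2 : Continuous pi2 := by unfold pi2; fun_prop

def ft (j : Bool) (p : R2) : R2 :=
  if j then (p.1 + ‖(p.1 : S1)‖, p.2 + p.1 - ‖(p.1 : S1)‖) else (2 * p.1, p.2)

def fT (j : Bool) (x : TT) : TT :=
  if j then (x.1 + (‖x.1‖ : ℝ), x.2 + x.1 - (‖x.1‖ : ℝ)) else (2 • x.1, x.2)

theorem pi2_ft (j : Bool) (p : R2) : pi2 (ft j p) = fT j (pi2 p) := by
  cases j <;> simp [pi2, ft, fT, ← two_coe]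

@[fun_prop] theorem cont_fT {A : Type} [TopologicalSpace A] {j : A → Bool} {x : A → TT}
    (hj : Continuous j) (hx : Continuous x) : Continuous fun a => fT (j a) (x a) :=
  (cont_bool (g := fun z : Bool × TT => fT z.1 z.2) fun k => by
    unfold fT; dsimp only; split_ifs <;> fun_prop).comp (hj.prodMk hx)

def nK (z : TT × I × Bool) : TT × I × Bool :=
  if z.2.1 = 1 then (fT z.2.2 z.1, 0, false) else if z.2.1 = 0 then (z.1, 0, false) else z

def KK : Type := Quotient (Setoid.ker nK)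

instance : TopologicalSpace KK := inferInstanceAs (TopologicalSpace (Quotient _))

def mK (z : TT × I × Bool) : KK := Quotient.mk _ z

theorem qK : IsQuotientMap mK := isQuotientMap_quotient_mk'

@[fun_prop] theorem cont_mK : Continuous mK := qK.continuous

theorem mK_eq {x y : TT} {t s : I} {j k : Bool} : mK (x, t, j) = mK (y, s, k) ↔
    (x = y ∧ t = s ∧ j = k) ∨ (t = 0 ∧ s = 0 ∧ x = y) ∨ (t = 1 ∧ s = 0 ∧ fT j x = y) ∨
      (t = 0 ∧ s = 1 ∧ x = fT k y) ∨ (t = 1 ∧ s = 1 ∧ fT j x = fT k y) := by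
  refine Quotient.eq.trans ?_
  simp only [Setoid.ker_def, nK]
  split_ifs with h1 h2 h3 h4 h5 h6 <;> simp only [Prod.mk.injEq] <;> aesop

instance : CompactSpace KK := Quotient.compactSpace

instance : T2Space KK := t2_quot _ (by
  have : {z : (TT × I × Bool) × (TT × I × Bool) | Setoid.ker nK z.1 z.2} =
      {z | (z.1.1 = z.2.1 ∧ z.1.2.1 = z.2.2.1 ∧ z.1.2.2 = z.2.2.2) ∨
      (z.1.2.1 = 0 ∧ z.2.2.1 = 0 ∧ z.1.1 = z.2.1) ∨
      (z.1.2.1 = 1 ∧ z.2.2.1 = 0 ∧ fT z.1.2.2 z.1.1 = z.2.1) ∨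
      (z.1.2.1 = 0 ∧ z.2.2.1 = 1 ∧ z.1.1 = fT z.2.2.2 z.2.1) ∨
      (z.1.2.1 = 1 ∧ z.2.2.1 = 1 ∧ fT z.1.2.2 z.1.1 = fT z.2.2.2 z.2.1)} := by
    ext z; exact Quotient.eq.symm.trans mK_eq
  rw [this]
  refine IsClosed.union ?_ (IsClosed.union ?_ (IsClosed.union ?_ (IsClosed.union ?_ ?_))) <;>
    repeat' first | refine IsClosed.inter ?_ ?_ | exact isClosed_eq (by fun_prop) (by fun_prop))

theorem mK_one (x : TT) (j : Bool) : mK (x, 1, j) = mK (fT j x, 0, false) := by simp [mK_eq]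
theorem mK_zero (x : TT) (j : Bool) : mK (x, 0, j) = mK (x, 0, false) := by simp [mK_eq]

theorem pi2_per (a b : ℝ) : pi2 (a + 1, b) = pi2 (a, b) ∧ pi2 (a, b + 1) = pi2 (a, b) := by
  simp [pi2]

theorem pi2_eq {p q : R2} (h : pi2 p = pi2 q) : ∃ m n : ℤ, q = (p.1 + m, p.2 + n) := by
  obtain ⟨m, hm⟩ := coe_eq.1 (congrArg Prod.fst h).symm
  obtain ⟨n, hn⟩ := coe_eq.1 (congrArg Prod.snd h).symm
  exact ⟨m, n, Prod.ext (by simp [hm]) (by simp [hn])⟩

def DK : Dat KK where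
  c p := mK (pi2 p, 0, false)
  inj p q h := pi2_eq (by simpa [mK_eq] using h)
  Hs z := mK (pi2 z.2, z.1, false)
  Hb z := if (z.1 : ℝ) ≤ 1 / 2 then mK (pi2 z.2, pj (2 * z.1), true) else
    mK (pi2 (z.2.1 + (2 - 2 * z.1) * ‖(z.2.1 : S1)‖,
      z.2.2 + z.2.1 - (2 - 2 * z.1) * ‖(z.2.1 : S1)‖), 0, false)
  ps := ⟨by fun_prop, fun t a b => by simp only [pi2_per], fun t a b => by simp only [pi2_per]⟩
  pb := ⟨Continuous.if_le (by fun_prop) (by fun_prop) (by fun_prop) continuous_const fun z e => by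
      rw [e, pj_ge (by norm_num), mK_one, ← pi2_ft]; norm_num [ft],
    fun t a b => by simp [pi2, add_right_comm a 1, ← add_assoc, add_sub_right_comm _ (1 : ℝ)],
    fun t a b => by simp [pi2, add_right_comm b 1, add_sub_right_comm _ (1 : ℝ)]⟩
  s0 _ := rfl
  s1 p := by rw [mK_one, ← pi2_ft]; rfl
  b0 p := by simp [mK_zero]
  b1 p := by norm_num

instance : PathConnectedSpace KK := by
  have a : ∀ z, Joined (mK z) (mK (0, 0, false)) := fun z => by
    have := ((PathConnectedSpace.joined (z.1, z.2.1) (0, 0)).map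
      (f := fun w : TT × I => mK (w.1, w.2, z.2.2)) (by fun_prop))
    rwa [mK_zero] at this
  refine ⟨⟨mK 0⟩, fun x y => ?_⟩
  obtain ⟨x, rfl⟩ := qK.surjective x
  obtain ⟨y, rfl⟩ := qK.surjective y
  exact (a x).trans (a y).symm

def cT : Cells TT := cS1.circ

theorem cT_sk : cT.Sk 0 (0, 0) ∧ (∀ x, cT.Sk 1 (x, 0)) ∧ (∀ x, cT.Sk 1 (0, x)) ∧ ∀ x, cT.Sk 2 x := by
  refine ⟨⟨.inl (.inl ()), 0, le_rfl, rfl⟩, fun x => ?_, fun x => ?_, fun x => ?_⟩
  · obtain ⟨t, rfl⟩ := coeI_surj x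
    exact ⟨.inl (.inr ()), fun _ => t, le_rfl, rfl⟩
  · obtain ⟨t, rfl⟩ := coeI_surj x
    exact ⟨.inr (.inl ()), fun _ => t, le_rfl, rfl⟩
  · obtain ⟨j, v, rfl⟩ := cT.cov x
    refine ⟨j, v, ?_, rfl⟩
    rcases j with (j | j) | j | j <;> simp [cT, Cells.circ, cS1, Cells.cyl, cPt]

theorem cT_f (k : Bool) (j : cT.ι) (v : ℕ → I) : cT.Sk (cT.d j) (fT k (cT.Φ j v)) := by
  obtain ⟨a, b, c, d⟩ := cT_sk
  rcases j with (j | j) | j | j
  · cases k <;> simpa [fT, cT, Cells.circ, cS1, Cells.cyl, cPt] using a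
  · change cT.Sk 1 (fT k (((v 0 : ℝ) : S1), 0))
    cases k
    · exact b _
    · have h0 := (v 0).2.1
      have h1 := (v 0).2.2
      simp only [fT, if_true, zero_add, AddCircle.norm_eq, inv_one, one_mul, mul_one]
      rcases lt_or_ge (v 0 : ℝ) (1 / 2) with h | h
      · rw [round_eq_zero_iff.2 ⟨by linarith, h⟩, Int.cast_zero, sub_zero, abs_of_nonneg h0, sub_self]
        exact b _
      · rw [show round (v 0 : ℝ) = 1 from by
          rw [round_eq, Int.floor_eq_iff]; push_cast; constructor <;> linarith,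
          abs_of_nonpos (by push_cast; linarith), ← AddCircle.coe_add]
        rw [show (v 0 : ℝ) + -(v 0 - ((1 : ℤ) : ℝ)) = 1 by simp, AddCircle.coe_period]
        exact c _
  · change cT.Sk 1 (fT k (0, ((v 0 : ℝ) : S1)))
    cases k <;> simpa [fT] using c _
  · exact d _

def cK : Cells KK :=
  cT.cyl cT.bool (fun x => mK (x, 0, false)) (fun z => mK (z.1.2, z.2, z.1.1)) (by fun_prop)
    (by fun_prop) (fun _ _ e => by simpa [mK_eq] using e)
    (fun j v t h => by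
      rcases h with rfl | rfl
      exacts [⟨_, ⟨j.2, v, le_rfl, rfl⟩, (mK_zero _ _).symm⟩, ⟨_, cT_f j.1 j.2 v, (mK_one _ _).symm⟩])
    (fun _ _ _ _ h h' e => by
      simp only [mK_eq, h.1, h.2, false_and, or_false] at e
      exact ⟨Prod.ext e.2.2 e.1, e.2.1⟩)
    (fun _ _ _ h e => by simp [mK_eq, h.1, h.2] at e)
    fun x => have ⟨z, h⟩ := qK.surjective x; Or.inr ⟨((z.2.2, z.1), z.2.1), h⟩

theorem cK_sk : cK.circ.Sk 0 (DK.c (0, 0), 0) ∧ ∀ p, cK.circ.Sk 2 (DK.c p, 0) := by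
  refine ⟨⟨.inl (.inl (.inl (.inl ()))), 0, le_rfl, rfl⟩, fun p => ?_⟩
  obtain ⟨j, v, h, e⟩ := cT_sk.2.2.2 (pi2 p)
  exact ⟨.inl (.inl j), v, h, congrArg (fun x => (mK (x, 0, false), (0 : S1))) e⟩

end Pool.Agent.H74.SC
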