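import Mathlib
import Pool.Agent.H74.SC7
import Pool.Agent.H74.KP3

set_option autoImplicit false

noncomputable section

namespace Pool.Agent.H74.SC

open unitInterval Set Topology Function Metric KP

variable {K : Type} [TopologicalSpace K] [T2Space K]

structure Att (L : Set K) {n : ℕ} (Φ : PartialEquiv (Fin n → ℝ) K) : Prop where
  cL : IsCompact L
  hs : Φ.source = ball 0 1
  c1 : ContinuousOn Φ (closedBall 0 1)
  c2 : ContinuousOn Φ.symm Φ.target
  hd : Disjoint (Φ '' ball 0 1) L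
  hm : MapsTo Φ (sphere 0 1) L

variable {L : Set K} {n : ℕ} {Φ : PartialEquiv (Fin n → ℝ) K}

omit [T2Space K] in
theorem Att.sp (h : Att L Φ) {u : Fin n → ℝ} (hu : ‖u‖ ≤ 1) : Φ u ∈ L ↔ ‖u‖ = 1 :=
  ⟨fun a => hu.eq_of_not_lt fun h' =>
    disjoint_left.1 h.hd ⟨u, mem_ball_zero_iff.2 h', rfl⟩ a, fun a => h.hm (by simpa using a)⟩

omit [T2Space K] in
theorem Att.inj (h : Att L Φ) {u v : Fin n → ℝ} (hu : ‖u‖ < 1) (hv : ‖v‖ ≤ 1) (e : Φ u = Φ v) :
    u = v := Φ.injOn (h.hs ▸ mem_ball_zero_iff.2 hu) (h.hs ▸ mem_ball_zero_iff.2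
      (hv.lt_of_ne fun a => hu.ne ((h.sp hu.le).1 (e ▸ (h.sp hv).2 a)))) e

theorem Att.rad (h : Att L Φ) {δ : ℝ} (h0 : 0 < δ) (h1 : δ ≤ 1) : ∃ H : I × K → K,
    ContinuousOn H (univ ×ˢ (L ∪ Φ '' closedBall 0 1)) ∧ (∀ t, ∀ y ∈ L, H (t, y) = y) ∧
    (∀ y ∈ L ∪ Φ '' closedBall 0 1, H (0, y) = y) ∧ ∀ u, δ ≤ ‖u‖ → ‖u‖ ≤ 1 → H (1, Φ u) ∈ L := by
  let e : I × (Fin n → ℝ) → Fin n → ℝ := fun c => (max ‖c.2‖ (1 - c.1 * (1 - δ)))⁻¹ • c.2
  have ep : ∀ (t : I) (u : Fin n → ℝ), 0 < max ‖u‖ (1 - t * (1 - δ)) := fun t u =>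
    lt_max_of_lt_right (by nlinarith [t.2.2])
  have ec : Continuous e := (Continuous.inv₀ (by fun_prop) fun c => (ep c.1 c.2).ne').smul
    continuous_snd
  have em : ∀ c, e c ∈ closedBall (0 : Fin n → ℝ) 1 := fun c => by
    rw [mem_closedBall_zero_iff, norm_smul, Real.norm_of_nonneg (inv_pos.2 (ep _ _)).le,
      inv_mul_le_iff₀ (ep _ _), mul_one]
    exact le_max_left _ _
  have es : ∀ t u, ‖u‖ = 1 → e (t, u) = u := fun t u a => by
    simp only [e, a]
    rw [max_eq_left (by nlinarith [t.2.1]), inv_one, one_smul]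
  have : CompactSpace L := isCompact_iff_compactSpace.1 h.cL
  have : Nonempty (closedBall (0 : Fin n → ℝ) 1) := ⟨⟨0, by simp⟩⟩
  have cΦ : Continuous fun u : closedBall (0 : Fin n → ℝ) 1 => Φ u := h.c1.domRestrict
  have nm : ∀ u : closedBall (0 : Fin n → ℝ) 1, ‖u.1‖ ≤ 1 := fun u => mem_closedBall_zero_iff.1 u.2
  obtain ⟨H, hH, hH'⟩ := fac (A := (I × L) ⊕ (I × closedBall (0 : Fin n → ℝ) 1))
    (Sum.elim (fun c => (c.1, (c.2 : K))) fun c => (c.1, Φ c.2))
    (Continuous.sumElim (by fun_prop) (continuous_fst.prodMk (cΦ.comp continuous_snd)))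
    (Sum.elim (fun c => (c.2 : K)) fun c => Φ (e (c.1, c.2)))
    (Continuous.sumElim (by fun_prop) (h.c1.comp_continuous (by fun_prop) fun c => em _))
    (by
      rintro (⟨t, y⟩ | ⟨t, u⟩) (⟨t', y'⟩ | ⟨t', u'⟩) e <;>
        simp only [Sum.elim_inl, Sum.elim_inr, Prod.mk.injEq] at e ⊢
      · exact e.2
      · rw [es _ _ ((h.sp (nm u')).1 (e.2 ▸ y.2)), e.2]
      · rw [es _ _ ((h.sp (nm u)).1 (e.2 ▸ y'.2)), e.2]
      · by_cases a : ‖u.1‖ = 1
        · rw [es _ _ a, es _ _ ((h.sp (nm u')).1 (e.2 ▸ (h.sp (nm u)).2 a)), e.2]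
        · rw [e.1, h.inj ((nm u).lt_of_ne a) (nm u') e.2])
  have H1 : ∀ t, ∀ y ∈ L, H (t, y) = y := fun t y hy => hH' (Sum.inl (t, ⟨y, hy⟩))
  have H2 : ∀ t, ∀ u ∈ closedBall (0 : Fin n → ℝ) 1, H (t, Φ u) = Φ (e (t, u)) := fun t u hu =>
    hH' (Sum.inr (t, ⟨u, hu⟩))
  refine ⟨H, hH.mono ?_, H1, ?_, fun u a b => ?_⟩
  · rintro ⟨t, y⟩ ⟨-, hy | ⟨u, hu, rfl⟩⟩
    · exact ⟨Sum.inl (t, ⟨y, hy⟩), rfl⟩
    · exact ⟨Sum.inr (t, ⟨u, hu⟩), rfl⟩
  · rintro y (hy | ⟨u, hu, rfl⟩)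
    · exact H1 0 y hy
    · rw [H2 0 u hu]; simp [e, max_eq_right (mem_closedBall_zero_iff.1 hu)]
  · rw [H2 1 u (mem_closedBall_zero_iff.2 b), h.sp (mem_closedBall_zero_iff.1 (em _))]
    simp only [e, Icc.coe_one, one_mul, sub_sub_cancel, max_eq_left a]
    rw [norm_smul, norm_inv, norm_norm, inv_mul_cancel₀ (by linarith)]

theorem Att.push (h : Att L Φ) {d : ℕ} (hd : d < n) (g : C(Fin d → I, K))
    (hg : ∀ x, g x ∈ L ∪ Φ '' closedBall 0 1) (S : Set (Fin d → I)) (hS : ∀ x ∈ S, g x ∈ L) :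
    ∃ g' : C(Fin d → I, K), g.HomotopicRel g' S ∧ ∀ x, g' x ∈ L := by
  classical
  let C := g ⁻¹' (Φ '' closedBall 0 (3 / 4))
  have cC : IsClosed C := ((isCompact_closedBall _ _).image_of_continuousOn
    (h.c1.mono (closedBall_subset_closedBall (by norm_num)))).isClosed.preimage g.continuous
  have ht : ∀ x ∈ C, g x ∈ Φ.target := by
    rintro x ⟨u, hu, e⟩
    exact e ▸ Φ.map_source (h.hs ▸ closedBall_subset_ball (by norm_num) hu)
  obtain ⟨k, hk⟩ := ContinuousMap.exists_restrict_eq cC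
    ⟨fun x => Φ.symm (g x), h.c2.comp_continuous (by fun_prop) fun x => ht x x.2⟩
  have k1 : ∀ x ∈ C, ‖k x‖ ≤ 3 / 4 ∧ Φ (k x) = g x := fun x hx => by
    have : k x = Φ.symm (g x) := DFunLike.congr_fun hk ⟨x, hx⟩
    obtain ⟨u, hu, e⟩ := hx
    rw [this, ← e, Φ.left_inv (h.hs ▸ closedBall_subset_ball (by norm_num) hu)]
    exact ⟨mem_closedBall_zero_iff.1 hu, rfl⟩
  obtain ⟨k', a1, a2, -⟩ := Continuous.exists_contDiff_approx (f := fun u : Fin d → ℝ =>
    k fun i => pj (u i)) (ε := fun _ => 1 / 32) 1 (by fun_prop) continuous_const (by norm_num)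
  obtain ⟨p, hp, hp'⟩ := (ContDiff.dense_compl_range_of_finrank_lt_finrank a1
    (by simpa using hd)).exists_mem_open isOpen_ball (nonempty_ball.2 (by norm_num) :
      (ball (0 : Fin n → ℝ) (1 / 32)).Nonempty)
  let m : (Fin d → I) → Fin n → ℝ := fun x => k' (fun i => x i) - p - k x
  have cm : Continuous m := by have := a1.continuous; fun_prop
  have m1 : ∀ x, ‖m x‖ < 1 / 16 := fun x => by
    have := a2 fun i => x i
    simp only [pj_val, dist_eq_norm] at this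
    have b := mem_ball_zero_iff.1 hp'
    have c := norm_sub_le (k' (fun i => x i) - k x) p
    rw [sub_right_comm] at c
    linarith
  let w : I × (Fin d → I) → Fin n → ℝ := fun z => k z.2 + (z.1 * pj (2 - 4 * ‖k z.2‖) : ℝ) • m z.2
  have cw : Continuous w := by fun_prop
  have w1 : ∀ z, ‖w z - k z.2‖ < 1 / 16 := fun z => by
    simp only [w, add_sub_cancel_left, norm_smul]
    have := (z.1 * pj (2 - 4 * ‖k z.2‖)).2
    rw [← Icc.coe_mul, Real.norm_of_nonneg this.1]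
    nlinarith [m1 z.2, norm_nonneg (m z.2), this.1, this.2]
  have w2 : ∀ t, ∀ x ∈ C, ‖w (t, x)‖ < 1 := fun t x hx => by
    linarith [norm_sub_norm_le (w (t, x)) (k x), w1 (t, x), (k1 x hx).1]
  have w3 : ∀ x, 0 < ‖w (1, x)‖ := fun x => by
    rcases le_total ‖k x‖ (1 / 4) with c | c
    · simp only [w, m, pj_ge (by linarith : 1 ≤ 2 - 4 * ‖k x‖)]
      simpa [sub_eq_zero] using fun e => hp ⟨_, e⟩
    · linarith [norm_sub_norm_le (k x) (w (1, x)), w1 (1, x), norm_sub_rev (k x) (w (1, x))]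
  obtain ⟨x₀, -, hx₀⟩ := isCompact_univ.exists_isMinOn univ_nonempty
    (f := fun x => ‖w (1, x)‖) (by fun_prop)
  obtain ⟨H, b1, b2, b3, b4⟩ := h.rad (lt_min (w3 x₀) (by norm_num : (0 : ℝ) < 3 / 4))
    (min_le_of_right_le (by norm_num))
  let G : I × (Fin d → I) → K := fun z => if z.2 ∈ C then Φ (w z) else g z.2
  let C' := g ⁻¹' (L ∪ Φ '' (closedBall 0 1 \ ball 0 (1 / 2)))
  have G' : ∀ t, ∀ x ∈ C', G (t, x) = g x := fun t x hx => by
    simp only [G]
    split_ifs with c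
    · obtain ⟨c1, c2⟩ := k1 x c
      have : 1 / 2 ≤ ‖k x‖ := by
        rcases hx with hx | ⟨u, ⟨hu, hu'⟩, e⟩
        · linarith [(h.sp (by linarith)).1 (c2 ▸ hx : Φ (k x) ∈ L)]
        · rw [h.inj (by linarith) (mem_closedBall_zero_iff.1 hu) (c2.trans e.symm)]
          simpa using hu'
      simp [w, pj_le (by linarith : 2 - 4 * ‖k x‖ ≤ 0), c2]
    · rfl
  have cG : Continuous G := by
    have cC' : IsClosed C' := (h.cL.union (((isCompact_closedBall _ _).diff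
      isOpen_ball).image_of_continuousOn (h.c1.mono diff_subset))).isClosed.preimage g.continuous
    have : (univ : Set (I × (Fin d → I))) = Prod.snd ⁻¹' C ∪ Prod.snd ⁻¹' C' := by
      refine (eq_univ_of_forall fun z => ?_).symm
      rcases hg z.2 with a | ⟨u, hu, e⟩
      · exact Or.inr (Or.inl a)
      · by_cases c : u ∈ ball (0 : Fin n → ℝ) (1 / 2)
        · exact Or.inl ⟨u, ball_subset_closedBall (ball_subset_ball (by norm_num) c), e⟩
        · exact Or.inr (Or.inr ⟨u, ⟨hu, c⟩, e⟩)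
    rw [← continuousOn_univ, this]
    exact ((h.c1.comp cw.continuousOn fun z hz => mem_closedBall_zero_iff.2
      (w2 _ _ hz).le).congr fun z hz => if_pos hz).union_of_isClosed
      ((g.continuous.comp continuous_snd).continuousOn.congr fun z hz => G' _ _ hz)
      (cC.preimage continuous_snd) (cC'.preimage continuous_snd)
  have mG : ∀ z, G z ∈ L ∪ Φ '' closedBall 0 1 := fun z => by
    simp only [G]
    split_ifs with c
    exacts [Or.inr ⟨_, mem_closedBall_zero_iff.2 (w2 _ _ c).le, rfl⟩, hg _]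
  have cH : Continuous fun z : I × (Fin d → I) => H (z.1, G (1, z.2)) :=
    b1.comp_continuous (by fun_prop) fun z => ⟨trivial, mG _⟩
  refine ⟨⟨fun x => H (1, G (1, x)), cH.comp (Continuous.prodMk_right 1)⟩,
    ContinuousMap.HomotopicRel.trans (g := ⟨fun x => G (1, x), by fun_prop⟩)
    ⟨⟨⟨⟨G, cG⟩, fun x => ?_, fun _ => rfl⟩, fun t x hx => G' t x (Or.inl (hS x hx))⟩⟩
    ⟨⟨⟨⟨_, cH⟩, fun x => b3 _ (mG _), fun _ => rfl⟩, fun t x hx => b2 _ _ ?_⟩⟩, fun x => ?_⟩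
  · simp only [G, w]
    split_ifs with c
    · simp [(k1 x c).2]
    · rfl
  · rw [G' 1 x (Or.inl (hS x hx))]; exact hS x hx
  · simp only [G, ContinuousMap.coe_mk]
    split_ifs with c
    · exact b4 _ (min_le_of_left_le (hx₀ (mem_univ x))) (w2 _ _ c).le
    · rcases hg x with a | ⟨u, hu, e⟩
      · rwa [b2 _ _ a]
      · rw [← e]
        exact b4 _ (min_le_of_right_le (not_lt.1 fun a => c ⟨u, mem_closedBall_zero_iff.2 a.le, e⟩))
          (mem_closedBall_zero_iff.1 hu)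

variable [CWComplex (univ : Set K)]

abbrev Ce (K : Type) [TopologicalSpace K] [CWComplex (univ : Set K)] :=
  Σ n, RelCWComplex.cell (univ : Set K) n

def LS (S : Finset (Ce K)) : Set K := ⋃ i ∈ S, RelCWComplex.map i.1 i.2 '' closedBall 0 1

theorem cw_ind (P : Finset (Ce K) → Prop) (h0 : P ∅) (h1 : ∀ [DecidableEq (Ce K)] a S,
    (∀ i ∈ S, i.1 ≤ a.1) → (∀ j, j.1 < a.1 → j ∈ S) → Att (LS S) (RelCWComplex.map a.1 a.2) →
    LS (insert a S) = LS S ∪ RelCWComplex.map a.1 a.2 '' closedBall 0 1 → P S → P (insert a S))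
    (S : Finset (Ce K)) (hS : ∀ i ∈ S, ∀ j, j.1 < i.1 → j ∈ S) : P S := by
  classical
  refine (?_ : (∀ i ∈ S, ∀ j, j.1 < i.1 → j ∈ S) →
    P S ∧ LS S ⊆ ⋃ i ∈ S, RelCWComplex.map i.1 i.2 '' ball 0 1) hS |>.1
  refine Finset.induction_on_max_value Sigma.fst S ?_ fun a S ha hmax ih => ?_
  · exact fun _ => ⟨h0, by simp [LS]⟩
  · intro h
    have hlow : ∀ i ∈ insert a S, ∀ j, j.1 < i.1 → j ∈ S := fun i hi j hj => by
      refine (Finset.mem_insert.1 (h i hi j hj)).resolve_left ?_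
      rintro rfl
      rcases Finset.mem_insert.1 hi with rfl | hi
      · exact lt_irrefl _ hj
      · exact (hmax i hi).not_gt hj
    obtain ⟨i1, i2⟩ := ih fun i hi => hlow i (Finset.mem_insert_of_mem hi)
    have e : LS (insert a S) = LS S ∪ RelCWComplex.map a.1 a.2 '' closedBall 0 1 := by
      simp only [LS, Finset.set_biUnion_insert, union_comm]
    have hm : MapsTo (RelCWComplex.map a.1 a.2) (sphere 0 1) (LS S) := fun u hu => by
      obtain ⟨J, hJ⟩ := RelCWComplex.mapsTo a.1 a.2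
      have := hJ hu
      simp only [empty_union, mem_iUnion] at this
      obtain ⟨m, hm, j, -, hj⟩ := this
      exact mem_biUnion (hlow a (Finset.mem_insert_self _ _) ⟨m, j⟩ hm) hj
    refine ⟨h1 a S hmax (hlow a (Finset.mem_insert_self _ _)) ⟨S.isCompact_biUnion fun i _ =>
      (isCompact_closedBall _ _).image_of_continuousOn (RelCWComplex.continuousOn i.1 i.2),
      RelCWComplex.source_eq _ _, RelCWComplex.continuousOn _ _,
      RelCWComplex.continuousOn_symm _ _, Disjoint.mono_right i2 ?_, hm⟩ e i1, ?_⟩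
    · simp only [disjoint_iUnion_right]
      exact fun i hi => RelCWComplex.pairwiseDisjoint' (mem_univ a) (mem_univ i)
        fun e => ha (e ▸ hi)
    · rw [e, Finset.set_biUnion_insert]
      rintro y (hy | ⟨u, hu, rfl⟩)
      · exact Or.inr (i2 hy)
      · rcases (mem_closedBall_zero_iff.1 hu).eq_or_lt with h | h
        · exact Or.inr (i2 (hm (by simpa using h)))
        · exact Or.inl ⟨u, mem_ball_zero_iff.2 h, rfl⟩

omit [T2Space K] in
theorem mem_skel {N : ℕ} {y : K} :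
    y ∈ skel K N ↔ ∃ i : Ce K, i.1 ≤ N ∧ y ∈ RelCWComplex.map i.1 i.2 '' closedBall 0 1 := by
  simp only [skel, mem_iUnion, Sigma.exists, exists_prop, exists_and_left]

theorem cpt_skel {C : Set K} (hC : IsCompact C) : ∃ N, C ⊆ skel K N := by
  by_contra h
  simp only [not_exists, not_subset] at h
  choose x h1 h2 using h
  have hc : ∀ m, IsClosed (x '' Ici m) := fun m =>
    (CWComplex.closed univ _ (subset_univ _)).2 fun n j => (((finite_Iio n).image x).subset (by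
      rintro _ ⟨⟨N, -, rfl⟩, a⟩
      exact ⟨N, not_le.1 fun b => h2 N (mem_skel.2 ⟨⟨n, j⟩, b, a⟩), rfl⟩)).isClosed
  obtain ⟨y, hy⟩ := IsCompact.nonempty_iInter_of_sequence_nonempty_isCompact_isClosed
    (fun m => x '' Ici m) (fun m => image_mono (Ici_subset_Ici.2 m.le_succ))
    (fun m => ⟨_, m, self_mem_Ici, rfl⟩) (hC.of_isClosed_subset (hc 0) (by rintro _ ⟨N, -, rfl⟩; exact h1 N))
    hc
  obtain ⟨n, j, hj⟩ := mem_iUnion₂.1 ((CWComplex.union (C := (univ : Set K))).ge (mem_univ y))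
  obtain ⟨N, a, rfl⟩ := mem_iInter.1 hy n
  exact h2 N (mem_skel.2 ⟨⟨n, j⟩, a, hj⟩)

variable [RelCWComplex.FiniteType (univ : Set K)]

omit [T2Space K] in
theorem ex_LS (N : ℕ) : ∃ S : Finset (Ce K), (∀ i, i ∈ S ↔ i.1 ≤ N) ∧ LS S = skel K N := by
  have : {i : Ce K | i.1 ≤ N}.Finite := by
    have := fun n => RelCWComplex.FiniteType.finite_cell (C := (univ : Set K)) (D := ∅) n
    refine ((finite_Iic N).biUnion fun n _ => finite_range (Sigma.mk n)).subset fun i hi => ?_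
    exact mem_biUnion hi ⟨i.2, rfl⟩
  refine ⟨this.toFinset, fun i => this.mem_toFinset, Set.ext fun y => ?_⟩
  simp only [LS, mem_skel, mem_iUnion, this.mem_toFinset, mem_setOf_eq, exists_prop]

omit [T2Space K] in
theorem skel_cpt (N : ℕ) : IsCompact (skel K N) := by
  obtain ⟨S, -, e⟩ := ex_LS (K := K) N
  exact e ▸ S.isCompact_biUnion fun i _ =>
    (isCompact_closedBall _ _).image_of_continuousOn (RelCWComplex.continuousOn i.1 i.2)

theorem cellApprox {d : ℕ} (g : C(Fin d → I, K)) (T : Set (Fin d → I))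
    (hT : ∀ x ∈ T, g x ∈ skel K d) :
    ∃ g' : C(Fin d → I, K), g.HomotopicRel g' T ∧ ∀ x, g' x ∈ skel K d := by
  obtain ⟨N, hN⟩ := cpt_skel (isCompact_range g.continuous)
  obtain ⟨S, h1, h2⟩ := ex_LS (K := K) N
  refine cw_ind (fun S => ∀ g : C(Fin d → I, K), (∀ x, g x ∈ LS S) → (∀ x ∈ T, g x ∈ skel K d) →
    ∃ g' : C(Fin d → I, K), g.HomotopicRel g' T ∧ ∀ x, g' x ∈ skel K d)
    (fun g h => absurd (h 0) (by simp [LS])) (fun a S b1 b2 b3 b4 ih g h hT => ?_) S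
    (fun i hi j hj => (h1 j).2 (hj.le.trans ((h1 i).1 hi))) g (fun x => h2 ▸ hN ⟨x, rfl⟩) hT
  rcases le_or_gt a.1 d with c | c
  · refine ⟨g, .refl g, fun x => ?_⟩
    obtain ⟨i, hi, e⟩ := mem_iUnion₂.1 (h x)
    refine mem_skel.2 ⟨i, ?_, e⟩
    rcases Finset.mem_insert.1 hi with rfl | hi
    exacts [c, (b1 i hi).trans c]
  · obtain ⟨g', e1, e2⟩ := b3.push c g (b4 ▸ h) T fun x hx => by
      obtain ⟨i, hi, e⟩ := mem_skel.1 (hT x hx)
      exact mem_biUnion (b2 i (hi.trans_lt c)) e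
    obtain ⟨g'', e3, e4⟩ := ih g' e2 fun x hx => e1.fst_eq_snd hx ▸ hT x hx
    exact ⟨g'', e1.trans e3, e4⟩

end Pool.Agent.H74.SC
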