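import Mathlib
import Pool.Agent.H74.SC8
import Pool.Agent.H74.SC9

set_option autoImplicit false

noncomputable section

namespace Pool.Agent.H74.SC

open unitInterval Set Topology Function Metric KP CategoryTheory

variable {K : Type} [TopologicalSpace K]

def Nul (A : Set K) : Prop := (⟨Subtype.val, continuous_subtype_val⟩ : C(A, K)).Nullhomotopic

def ar {x y : K} (γ : Path x y) : FundamentalGroupoid.mk x ⟶ FundamentalGroupoid.mk y := ⟦γ⟧

theorem ar_trans {x y z : K} (γ : Path x y) (δ : Path y z) : ar (γ.trans δ) = ar γ ≫ ar δ := rfl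

theorem Nul.path {A : Set K} (h : Nul A) {x y : K} (α β : Path x y) (ha : ∀ t, α t ∈ A)
    (hb : ∀ t, β t ∈ A) : ar α = ar β := by
  obtain ⟨c, ⟨F⟩⟩ := h
  have hx : x ∈ A := α.source ▸ ha 0
  have hy : y ∈ A := α.target ▸ ha 1
  have e : ∀ (γ : Path x y) (hγ : ∀ t, γ t ∈ A), ar γ ≫ ar (F.evalAt ⟨y, hy⟩) =
      ar (F.evalAt ⟨x, hx⟩) ≫ ar (Path.refl c) := fun γ hγ =>
    Quotient.sound (Path.Homotopic.map_trans_evalAt F (x₁ := ⟨x, hx⟩) (x₂ := ⟨y, hy⟩)
      ⟨⟨fun t => ⟨γ t, hγ t⟩, by fun_prop⟩, Subtype.ext γ.source, Subtype.ext γ.target⟩)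
  exact (cancel_mono _).1 ((e α ha).trans (e β hb).symm)

theorem path_ind {ι : Type} (U : ι → Set K) (hU : ∀ i, IsOpen (U i)) (hc : ∀ x, ∃ i, x ∈ U i)
    (P : ∀ x y : K, (FundamentalGroupoid.mk x ⟶ FundamentalGroupoid.mk y) → Prop)
    (h1 : ∀ x y z a b, P x y a → P y z b → P x z (a ≫ b))
    (h2 : ∀ x y (γ : Path x y) i, (∀ t, γ t ∈ U i) → P x y (ar γ)) (x y : K) (a) : P x y a := by
  obtain ⟨γ⟩ := a
  obtain ⟨t, t0, tm, ⟨n, tn⟩, ht⟩ := exists_monotone_Icc_subset_open_cover_unitInterval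
    (c := fun i => γ ⁻¹' U i) (fun i => (hU i).preimage γ.continuous)
    fun s _ => mem_iUnion.2 (hc (γ s))
  have : ∀ n, P _ _ (ar (γ.subpath 0 (t n))) := fun n => by
    induction n with
    | zero =>
      obtain ⟨i, hi⟩ := hc (γ 0)
      rw [t0]
      exact h2 _ _ _ i fun s => by simpa using hi
    | succ n ih =>
      obtain ⟨i, hi⟩ := ht n
      have := h1 _ _ _ _ _ ih (h2 _ _ (γ.subpath (t n) (t (n + 1))) i fun s => by
        obtain ⟨u, hu, e⟩ := (γ.range_subpath_of_le _ _ (tm n.le_succ)).le ⟨s, rfl⟩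
        exact e ▸ hi hu)
      rwa [← ar_trans, show ar _ = ar _ from
        Quotient.sound ⟨Path.Homotopy.subpathTransSubpath γ _ _ _⟩] at this
  have h := this n
  rw [tn n le_rfl, Path.subpath_zero_one] at h
  have key : ∀ x' y' (a : x' = x) (b : y' = y), P _ _ (ar (γ.cast a b)) → P _ _ (ar γ) := by
    rintro _ _ rfl rfl; exact id
  exact key _ _ _ _ h

theorem fp_of_cover [PathConnectedSpace K] {ι : Type} [Finite ι] (U : ι → Set K)
    (hU : ∀ i, IsOpen (U i)) (hc : ∀ x, ∃ i, x ∈ U i) (hp : ∀ i, IsPathConnected (U i))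
    (hn : ∀ i, ∃ A, Nul A ∧ ∀ j, (U j ∩ U i).Nonempty → U j ⊆ A) (x₀ : K) :
    Group.IsFinitelyPresented (FundamentalGroup K x₀) := by
  classical
  choose v hv hj using hp
  choose ix hix using hc
  choose A hA hA' using hn
  obtain ⟨D, hD⟩ : ∃ D : ∀ i, ∀ k ∈ U i, FundamentalGroupoid.mk x₀ ⟶ FundamentalGroupoid.mk k,
      ∀ i j x y (hx : x ∈ U j) (hy : y ∈ U j) (γ : Path x y), (U j ∩ U i).Nonempty →
      (∀ t, γ t ∈ A i) → D j y hy = D j x hx ≫ ar γ := by
    refine ⟨fun i k hk => ar (PathConnectedSpace.somePath x₀ (v i)) ≫ ar (hj i hk).somePath,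
      fun i j x y hx hy γ a b => ?_⟩
    beta_reduce
    rw [Category.assoc, ← ar_trans _ γ]
    refine congrArg _ ((hA i).path _ _ (fun t => hA' i j a ((hj j hy).somePath_mem t)) fun t => ?_)
    rcases (Path.trans_range (hj j hx).somePath γ).le ⟨t, rfl⟩ with ⟨s, e⟩ | ⟨s, e⟩ <;> rw [← e]
    exacts [hA' i j a ((hj j hx).somePath_mem s), b s]
  let gg : ι × ι → FundamentalGroup K x₀ := fun z =>
    if h : (U z.1 ∩ U z.2).Nonempty then D z.2 _ h.choose_spec.2 ≫ Groupoid.inv (D z.1 _ h.choose_spec.1)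
    else 1
  have hg : ∀ i j k (a : k ∈ U i) (b : k ∈ U j), gg (i, j) = D j k b ≫ Groupoid.inv (D i k a) :=
    fun i j k a b => by
      have h : (U i ∩ U j).Nonempty := ⟨k, a, b⟩
      have c := h.choose_spec
      let γ := ((hj i c.1).symm.trans (hj i a)).somePath
      have m : ∀ t, γ t ∈ A i := fun t => hA' i i ⟨k, a, a⟩ (JoinedIn.somePath_mem _ t)
      simp only [gg, dif_pos h]
      rw [hD i j _ k c.2 b γ ⟨k, b, a⟩ m, hD i i _ k c.1 a γ ⟨k, a, a⟩ m]
      simp
  let R : Set (FreeGroup (ι × ι)) := (fun z : ι × ι × ι => .of (z.1, z.2.1) * .of (z.2.1, z.2.2) *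
    (.of (z.1, z.2.2))⁻¹) '' {z | (U z.1 ∩ U z.2.1 ∩ U z.2.2).Nonempty}
  have : Finite R := (toFinite _).image _
  let θ : PresentedGroup R →* FundamentalGroup K x₀ := PresentedGroup.toGroup (f := gg) (by
    rintro _ ⟨⟨i, j, l⟩, ⟨k, ⟨a, b⟩, c⟩, rfl⟩
    simp only [map_mul, map_inv, FreeGroup.lift_apply_of, mul_inv_eq_one]
    rw [hg _ _ k a b, hg _ _ k b c, hg _ _ k a c, CategoryTheory.End.mul_def]
    simp)
  let x : ι → ι → PresentedGroup R := fun i j => .of (i, j)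
  have hx : ∀ i j l k, k ∈ U i → k ∈ U j → k ∈ U l → x i j * x j l = x i l := fun i j l k a b c =>
    PresentedGroup.mk_eq_mk_of_mul_inv_mem (rels := R) (x := .of (i, j) * .of (j, l))
      (y := .of (i, l)) ⟨(i, j, l), ⟨k, ⟨a, b⟩, c⟩, rfl⟩
  letI : TopologicalSpace (PresentedGroup R) := ⊥
  have : DiscreteTopology (PresentedGroup R) := ⟨rfl⟩
  obtain ⟨E, _, p, η, cov, e1, -, e3⟩ := gauge U hU (fun k => ⟨_, hix k⟩)
    (fun i k => Equiv.mulRight (x i (ix k))) fun i j ω =>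
      (continuousOn_const (c := ω * x i j)).congr fun k hk => by
        simp [← hx i j _ k hk.1 hk.2 (hix k)]
  have key : ∀ a b (γ : FundamentalGroupoid.mk a ⟶ FundamentalGroupoid.mk b), ∃ w,
      (∀ e : p ⁻¹' {a}, η (cov.monodromy γ e) = η e * w) ∧
      γ ≫ Groupoid.inv (D _ b (hix b)) ≫ θ w = Groupoid.inv (D _ a (hix a)) := by
    refine path_ind U hU (fun k => ⟨_, hix k⟩) _ ?_ fun a b γ i hγ => ?_
    · rintro a b c γ δ ⟨w, h1, h2⟩ ⟨w', h3, h4⟩
      refine ⟨w * w', fun e => ?_, ?_⟩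
      · rw [← mul_assoc, ← h1, ← h3]
        exact congrArg (fun e : p ⁻¹' {c} => η e) (cov.monodromy_trans_apply γ δ e)
      · rw [map_mul, CategoryTheory.End.mul_def, ← h2, ← h4]; simp
    · have ha : a ∈ U i := γ.source ▸ hγ 0
      have hb : b ∈ U i := γ.target ▸ hγ 1
      refine ⟨(x i (ix a))⁻¹ * x i (ix b), fun e => ?_, ?_⟩
      · have l1 := fun t => congrFun (cov.liftPath_lifts γ e (γ.source.trans e.2.symm)) t
        have := ((e3 i).comp_continuous (cov.liftPath γ e (γ.source.trans e.2.symm)).continuous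
          fun t => mem_preimage.2 (mem_of_eq_of_mem (l1 t) (hγ t)))
        have := PreconnectedSpace.constant (inferInstance : PreconnectedSpace I) this (x := 0) (y := 1)
        simp only [Function.comp_apply, cov.liftPath_zero, Equiv.mulRight_symm_apply] at this
        rw [show p _ = b from (l1 1).trans γ.target, congrArg ix (show p e = a from e.2)] at this
        rw [← mul_assoc, this, inv_mul_cancel_right]; rfl
      · rw [map_mul, map_inv, PresentedGroup.toGroup.of, PresentedGroup.toGroup.of,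
          hg i _ a ha (hix a), hg i _ b hb (hix b),
          hD i i a b ha hb γ ⟨a, ha, ha⟩ fun t => hA' i i ⟨a, ha, ha⟩ (hγ t), CategoryTheory.End.mul_def]
        change _ ≫ _ ≫ _ ≫ Groupoid.inv _ = _
        simp
  choose w w1 w2 using key x₀ x₀
  obtain ⟨e, he, he'⟩ := e1 x₀ 1
  let d : FundamentalGroup K x₀ := D _ x₀ (hix x₀)
  refine retract_fp ((MulAut.conj d).toMonoidHom.comp θ) (MonoidHom.mk' (fun γ => (w γ)⁻¹)
    fun γ δ => ?_) fun γ => ?_
  · have := w1 (γ * δ) ⟨e, he⟩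
    rw [show cov.monodromy (γ * δ) ⟨e, he⟩ = _ from cov.monodromy_trans_apply δ γ _, w1, w1,
      mul_assoc, mul_right_inj] at this
    rw [← mul_inv_rev, this]
  · have : θ (w γ) * d⁻¹ * γ = d⁻¹ := w2 γ
    change d * θ (w γ)⁻¹ * d⁻¹ = γ
    rw [map_inv, eq_mul_inv_of_mul_eq (eq_mul_inv_of_mul_eq this)]
    group

variable [T2Space K] [CWComplex (univ : Set K)] [RelCWComplex.Finite (univ : Set K)]

theorem nul_cover (x : K) : ∃ U, IsOpen U ∧ x ∈ U ∧ Nul U := by
  have : _root_.Finite (Ce K) := RelCWComplex.finite_cells_of_finite (C := (univ : Set K))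
  have := Fintype.ofFinite (Ce K)
  have e : LS Finset.univ = (univ : Set K) := by
    refine Eq.trans ?_ (RelCWComplex.union' (C := (univ : Set K)))
    simp [LS, iUnion_sigma]
  have := cw_ind (K := K) (fun S => ∀ x ∈ LS S, ∃ U, IsOpen U ∧ x ∈ U ∧ Nul (U ∩ LS S))
    (by simp [LS]) (fun a S _ _ h b ih x hx => ?_) Finset.univ fun _ _ _ _ => Finset.mem_univ _
  · simpa [e] using this x
  rw [b]
  generalize LS S = L at *
  generalize RelCWComplex.map a.1 a.2 = Φ at *
  by_cases c : x ∈ L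
  · obtain ⟨U, hU, hx, n⟩ := ih x c
    obtain ⟨H, b1, b2, b3, b4⟩ := h.rad (δ := 1 / 2) (by norm_num) (by norm_num)
    obtain ⟨W, hW, hW'⟩ := continuousOn_iff'.1 (b1.comp (f := fun y => ((1 : I), y)) (by fun_prop)
      fun y hy => ⟨trivial, hy⟩) U hU
    refine ⟨W \ Φ '' closedBall 0 (1 / 2), hW.sdiff ((isCompact_closedBall _ _).image_of_continuousOn
      (h.c1.mono (closedBall_subset_closedBall (by norm_num)))).isClosed,
      ⟨(hW'.subset ⟨by simpa [b2 1 x c] using hx, Or.inl c⟩).1, fun h' => disjoint_left.1 h.hd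
        (image_mono (closedBall_subset_ball (by norm_num)) h') c⟩, ?_⟩
    have cH : Continuous fun z : I × ((W \ Φ '' closedBall 0 (1 / 2)) ∩ (L ∪ Φ '' closedBall 0 1) :
        Set K) => H (z.1, z.2) := b1.comp_continuous (by fun_prop) fun z => ⟨trivial, z.2.2.2⟩
    obtain ⟨y, hy⟩ := n.comp_left ⟨fun y : ((W \ Φ '' closedBall 0 (1 / 2)) ∩
        (L ∪ Φ '' closedBall 0 1) : Set K) => ⟨H (1, y), (hW'.symm.subset ⟨y.2.1.1, y.2.2⟩).1, by
      obtain ⟨_, a, b | ⟨u, hu, rfl⟩⟩ := y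
      · rwa [b2 _ _ b]
      · exact b4 u (not_lt.1 fun h => a.2 ⟨u, mem_closedBall_zero_iff.2 h.le, rfl⟩)
          (mem_closedBall_zero_iff.1 hu)⟩, (cH.comp (Continuous.prodMk_right 1)).subtype_mk _⟩
    exact ⟨y, .trans (htp _ cH (fun y => b3 _ y.2.2) fun _ => rfl) hy⟩
  · have ht : ∀ y : (Lᶜ ∩ (L ∪ Φ '' closedBall 0 1) : Set K), y.1 ∈ Φ.target := by
      rintro ⟨_, a, b | ⟨u, hu, rfl⟩⟩
      · exact absurd b a
      · have hu := mem_closedBall_zero_iff.1 hu
        exact Φ.map_source (h.hs ▸ mem_ball_zero_iff.2 (hu.lt_of_ne fun e => a ((h.sp hu).2 e)))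
    refine ⟨Lᶜ, h.cL.isClosed.isOpen_compl, c, Φ 0, htp (fun z => Φ ((1 - z.1 : ℝ) • Φ.symm z.2))
      ?_ (fun y => ?_) fun y => by simp⟩
    · have := h.c2.comp_continuous continuous_subtype_val ht
      refine h.c1.comp_continuous (Continuous.smul (f := fun z : I × _ => (1 - z.1 : ℝ))
        (by fun_prop) (this.comp continuous_snd))
        fun z => mem_closedBall_zero_iff.2 ?_
      have := mem_ball_zero_iff.1 (h.hs ▸ Φ.map_target (ht z.2))
      rw [norm_smul, Real.norm_of_nonneg (by linarith [z.1.2.2])]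
      nlinarith [z.1.2.1, z.1.2.2, norm_nonneg (Φ.symm z.2)]
    · simp [Φ.right_inv (ht y)]

theorem fp_pi1 [CompactSpace K] [PathConnectedSpace K] [LocallyPathConnectedSpace K] (x₀ : K) :
    Group.IsFinitelyPresented (FundamentalGroup K x₀) := by
  choose N n1 n2 n3 using nul_cover (K := K)
  letI := uniformSpaceOfCompactR1 (γ := K)
  obtain ⟨V, hV, h⟩ := lebesgue_number_lemma isCompact_univ n1 fun x _ => mem_iUnion.2 ⟨x, n2 x⟩
  obtain ⟨W, hW, hs, hW'⟩ := comp_comp_symm_mem_uniformity_sets hV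
  let O : K → Set K := fun x => pathComponentIn (interior (UniformSpace.ball x W)) x
  have hx : ∀ x, x ∈ interior (UniformSpace.ball x W) := fun x =>
    mem_interior_iff_mem_nhds.2 (UniformSpace.ball_mem_nhds x hW)
  have hO : ∀ x, O x ⊆ UniformSpace.ball x W := fun x =>
    pathComponentIn_subset.trans interior_subset
  obtain ⟨t, ht⟩ := isCompact_univ.elim_finite_subcover O
    (fun x => isOpen_interior.pathComponentIn x) fun x _ =>
      mem_iUnion.2 ⟨x, mem_pathComponentIn_self (hx x)⟩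
  refine fp_of_cover (fun i : t => O i) (fun x => isOpen_interior.pathComponentIn _)
    (fun x => by simpa using ht (mem_univ x)) (fun x => isPathConnected_pathComponentIn (hx _))
    (fun i => ?_) x₀
  obtain ⟨y, hy⟩ := h i trivial
  exact ⟨_, n3 y, fun j ⟨b, b1, b2⟩ a ha =>
    hy (hW' ⟨j, ⟨b, hO _ b2, hs.symm _ _ (hO _ b1)⟩, hO _ ha⟩)⟩

end Pool.Agent.H74.SC
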