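import Mathlib
import Pool.Agent.H74.SC8

set_option autoImplicit false

noncomputable section

namespace Pool.Agent.H74.SC

open unitInterval Set Topology Function Filter

abbrev Om := ℤ × ℤ × ℕ

def trO (v : ℤ × ℤ) : Equiv.Perm Om :=
  ⟨fun w => (w.1 + v.1, w.2.1 + v.2, w.2.2), fun w => (w.1 - v.1, w.2.1 - v.2, w.2.2),
    fun w => by simp, fun w => by simp⟩

def pm (j : Bool) : Equiv.Perm Om := if j then
  ⟨fun w => (w.1, w.2.1 + w.1, w.2.2), fun w => (w.1, w.2.1 - w.1, w.2.2), fun w => by simp,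
    fun w => by simp⟩ else
  ⟨fun w => (2 * w.1 + (w.2.2 % 2 : ℕ), w.2.1, w.2.2 / 2),
    fun w => (w.1 / 2, w.2.1, 2 * w.2.2 + (w.1 % 2).toNat),
    fun w => Prod.ext (by simp only; omega) (Prod.ext rfl (by simp only; omega)),
    fun w => Prod.ext (by simp only; omega) (Prod.ext rfl (by simp only; omega))⟩

def dif (p q : R2) : ℤ × ℤ := (round (p.1 - q.1), round (p.2 - q.2))

theorem dif_cast {p q : R2} (h : pi2 p = pi2 q) :
    ((dif p q).1 : ℝ) = p.1 - q.1 ∧ ((dif p q).2 : ℝ) = p.2 - q.2 := by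
  obtain ⟨m, n, rfl⟩ := pi2_eq h.symm
  simp [dif]

theorem dif_cont {A : Type} [TopologicalSpace A] {p q : A → R2} {a : A} (hp : ContinuousAt p a)
    (hq : ContinuousAt q a) (h : ∀ a, pi2 (p a) = pi2 (q a)) :
    ContinuousAt (fun a => dif (p a) (q a)) a := by
  have := Int.isClosedEmbedding_coe_real.isInducing
  refine ContinuousAt.prodMk (this.continuousAt_iff.2 ?_) (this.continuousAt_iff.2 ?_)
  · exact (hp.fst.sub hq.fst).congr (.of_forall fun a => (dif_cast (h a)).1.symm)
  · exact (hp.snd.sub hq.snd).congr (.of_forall fun a => (dif_cast (h a)).2.symm)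

theorem tr_dif {p q r : R2} (h : pi2 p = pi2 r) (h' : pi2 q = pi2 r) (w : Om) :
    (trO (dif q r)).symm (trO (dif p r) w) = trO (dif p q) w := by
  have a := dif_cast h
  have b := dif_cast h'
  have c := dif_cast (h.trans h'.symm)
  refine Prod.ext (Int.cast_injective (α := ℝ) ?_) (Prod.ext (Int.cast_injective (α := ℝ) ?_) rfl) <;>
    simp only [trO, Equiv.coe_fn_mk, Equiv.coe_fn_symm_mk] <;> push_cast <;> linarith

theorem pm_dif (j : Bool) {p q : R2} (h : pi2 p = pi2 q) (w : Om) :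
    trO (dif (ft j p) (ft j q)) (pm j w) = pm j (trO (dif p q) w) := by
  have a := dif_cast h
  have b := dif_cast (show pi2 (ft j p) = pi2 (ft j q) by rw [pi2_ft, pi2_ft, h])
  have c : (p.1 : S1) = q.1 := congrArg Prod.fst h
  cases j <;> simp only [ft, c, if_true, Bool.false_eq_true, if_false] at b ⊢ <;>
  refine Prod.ext (Int.cast_injective (α := ℝ) ?_) (Prod.ext (Int.cast_injective (α := ℝ) ?_) rfl) <;>
    simp only [trO, pm, Equiv.coe_fn_mk, if_true, Bool.false_eq_true, if_false] <;> push_cast <;>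
    linarith

def ell (c : R2) (x : TT) : R2 := (AddCircle.equivIco 1 c.1 x.1, AddCircle.equivIco 1 c.2 x.2)

theorem pi2_ell (c : R2) (x : TT) : pi2 (ell c x) = x :=
  Prod.ext AddCircle.coe_equivIco AddCircle.coe_equivIco

def good (c : R2) : Set TT := {x | x.1 ≠ c.1 ∧ x.2 ≠ c.2}

theorem good_open (c : R2) : IsOpen (good c) :=
  (isOpen_ne.preimage continuous_fst).inter (isOpen_ne.preimage continuous_snd)

theorem ell_cont {c : R2} {x : TT} (h : x ∈ good c) : ContinuousAt (ell c) x :=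
  (continuousAt_subtype_val.comp ((AddCircle.continuousAt_equivIco 1 c.1 h.1).comp
    continuousAt_fst)).prodMk (continuousAt_subtype_val.comp
    ((AddCircle.continuousAt_equivIco 1 c.2 h.2).comp continuousAt_snd))

theorem ex_good (x : TT) : ∃ c, x ∈ good c := by
  have : ∀ a : S1, ∃ c : ℝ, a ≠ c := fun a => by
    by_cases h : a = 0
    exacts [⟨1 / 2, h ▸ half_ne.symm⟩, ⟨0, h⟩]
  exact ⟨((this x.1).choose, (this x.2).choose), (this x.1).choose_spec, (this x.2).choose_spec⟩

def dec : KK → TT × I × Bool := Quotient.lift nK fun _ _ h => h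

def R1 (k : KK) : TT := if ((dec k).2.1 : ℝ) ≤ 1 / 2 then (dec k).1 else fT (dec k).2.2 (dec k).1

def hK (k : KK) : S1 := ((dec k).2.1 : ℝ)

theorem R1_mK (z : TT × I × Bool) :
    R1 (mK z) = if (z.2.1 : ℝ) ≤ 1 / 2 then z.1 else fT z.2.2 z.1 := by
  change (if ((nK z).2.1 : ℝ) ≤ 1 / 2 then (nK z).1 else fT (nK z).2.2 (nK z).1) = _
  unfold nK
  by_cases a : z.2.1 = 1
  · norm_num [a]
  · by_cases b : z.2.1 = 0 <;> simp [a, b]

theorem hK_mK (z : TT × I × Bool) : hK (mK z) = (z.2.1 : ℝ) := by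
  change (((nK z).2.1 : ℝ) : S1) = _
  unfold nK
  split_ifs with a b
  · rw [a]; exact (AddCircle.coe_period 1).symm
  · rw [b]
  · rfl

theorem cont_hK : Continuous hK :=
  qK.continuous_iff.2 (by simp only [Function.comp_def, hK_mK]; fun_prop)

theorem side {A : Type} [TopologicalSpace A] {t : A → I} {a : A} (ht : ContinuousAt t a)
    (h : ((t a : ℝ) : S1) ≠ (1 / 2 : ℝ)) :
    ∀ᶠ b in 𝓝 a, ((t b : ℝ) ≤ 1 / 2 ↔ (t a : ℝ) ≤ 1 / 2) := by
  have ht := continuousAt_subtype_val.comp ht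
  rcases lt_trichotomy (t a : ℝ) (1 / 2) with c | c | c
  · exact (ht.eventually (gt_mem_nhds c)).mono fun b hb => iff_of_true (le_of_lt hb) c.le
  · exact absurd (by rw [c]) h
  · exact (ht.eventually (lt_mem_nhds c)).mono fun b hb => iff_of_false (not_le.2 hb) c.not_ge

theorem cont_R1 : ContinuousOn R1 {k | hK k ≠ (1 / 2 : ℝ)} := by
  refine (qK.continuousOn_isOpen_iff (isOpen_ne.preimage cont_hK)).2 fun z hz => ?_
  have := side (t := fun z : TT × I × Bool => z.2.1) (a := z) (by fun_prop) fun e => hz ((hK_mK z).trans e)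
  refine (ContinuousAt.congr (f := fun w => if (z.2.1 : ℝ) ≤ 1 / 2 then w.1 else fT w.2.2 w.1) ?_
    (this.mono fun w hw => by simp only [comp_apply, R1_mK, hw])).continuousWithinAt
  split_ifs <;> fun_prop

theorem cont_dec : ContinuousOn dec {k | hK k ≠ 0} := by
  refine (qK.continuousOn_isOpen_iff (isOpen_ne.preimage cont_hK)).2
    (continuousOn_id.congr fun z hz => ?_)
  have : ¬(z.2.1 = 0 ∨ z.2.1 = 1) := fun h => hz ((hK_mK z).trans (coeI_bd h))
  exact (if_neg fun h => this (Or.inr h)).trans (if_neg fun h => this (Or.inl h))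

def UK (i : Bool × R2) : Set KK := if i.1 then {k | hK k ≠ 0} ∩ dec ⁻¹' (Prod.fst ⁻¹' good i.2)
  else {k | hK k ≠ (1 / 2 : ℝ)} ∩ R1 ⁻¹' good i.2

def PK (i : Bool × R2) (k : KK) : R2 := if i.1 then (if ((dec k).2.1 : ℝ) ≤ 1 / 2 then
  ell i.2 (dec k).1 else ft (dec k).2.2 (ell i.2 (dec k).1)) else ell i.2 (R1 k)

def MK (i : Bool × R2) (k : KK) : Equiv.Perm Om :=
  if i.1 then (if ((dec k).2.1 : ℝ) ≤ 1 / 2 then 1 else pm (dec k).2.2) else 1

theorem pi2_PK (i : Bool × R2) (k : KK) : pi2 (PK i k) = R1 k := by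
  simp only [PK, R1]
  split_ifs <;> simp only [pi2_ell, pi2_ft]

theorem loc_K {i : Bool × R2} {k : KK} (h : k ∈ UK i) (h' : hK k ≠ (1 / 2 : ℝ)) :
    ContinuousAt (PK i) k ∧ ∀ᶠ l in 𝓝 k, MK i l = MK i k := by
  obtain ⟨b, c⟩ := i
  cases b
  · exact ⟨(ell_cont h.2).comp (cont_R1.continuousAt ((isOpen_ne.preimage cont_hK).mem_nhds h')),
      .of_forall fun _ => rfl⟩
  · have a := cont_dec.continuousAt ((isOpen_ne.preimage cont_hK).mem_nhds h.1)
    have s := side a.snd.fst h'
    have j : ∀ᶠ l in 𝓝 k, (dec l).2.2 = (dec k).2.2 :=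
      a.snd.snd.eventually ((isOpen_discrete {(dec k).2.2}).mem_nhds rfl)
    have e := (ell_cont h.2).comp (f := fun l => (dec l).1) a.fst
    refine ⟨ContinuousAt.congr (f := fun l => if ((dec k).2.1 : ℝ) ≤ 1 / 2 then
      ell c (dec l).1 else ft (dec k).2.2 (ell c (dec l).1)) ?_ ((s.and j).mono fun l hl => by
        simp only [PK, hl.1, hl.2, if_true]), (s.and j).mono fun l hl => by
        simp only [MK, hl.1, hl.2]⟩
    split_ifs
    · exact e
    · refine ContinuousAt.comp (g := ft _) (Continuous.continuousAt ?_) e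
      unfold ft; split_ifs <;> fun_prop

theorem covK : ∃ (E : Type) (_ : TopologicalSpace E) (p : E → KK) (Λ : E → R2 × ℕ),
    IsCoveringMap p ∧ (∃ e, p e = DK.c (0, 0) ∧ Λ e = ((0, 0), 0)) ∧
    ∀ e x, p e = mK (x, 0, false) → pi2 (Λ e).1 = x ∧ ContinuousAt Λ e := by
  have o1 : IsOpen {k | hK k ≠ 0} := isOpen_ne.preimage cont_hK
  have o2 : IsOpen {k | hK k ≠ (1 / 2 : ℝ)} := isOpen_ne.preimage cont_hK
  have hU : ∀ i, IsOpen (UK i) := by
    rintro ⟨_ | _, c⟩
    · exact cont_R1.isOpen_inter_preimage o2 (good_open c)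
    · exact cont_dec.isOpen_inter_preimage o1 ((good_open c).preimage continuous_fst)
  have hA : ∀ i k, pi2 (PK i k) = pi2 (ell 0 (R1 k)) := fun i k => by rw [pi2_PK, pi2_ell]
  obtain ⟨E, _, p, η, cov, e1, -, e3⟩ := gauge UK hU (fun k => by
      by_cases h : hK k = (1 / 2 : ℝ)
      · obtain ⟨c, hc⟩ := ex_good (dec k).1
        exact ⟨(true, c), fun e => half_ne (h.symm.trans e), hc⟩
      · obtain ⟨c, hc⟩ := ex_good (R1 k)
        exact ⟨(false, c), h, hc⟩)
    (fun i k => (MK i k).trans (trO (dif (PK i k) (ell 0 (R1 k))))) fun i j ω k hk => by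
      simp only [Equiv.symm_trans_apply, Equiv.trans_apply, tr_dif (hA _ _) (hA _ _)]
      refine ContinuousAt.continuousWithinAt ?_
      by_cases h : hK k = (1 / 2 : ℝ)
      · obtain ⟨_ | _, c⟩ := i
        · exact absurd h hk.1.1
        obtain ⟨_ | _, c'⟩ := j
        · exact absurd h hk.2.1
        have a := (cont_dec.continuousAt (o1.mem_nhds hk.1.1)).fst
        refine ((continuous_of_discreteTopology (f := fun v => trO v ω)).continuousAt.comp
          (dif_cont ((ell_cont hk.1.2).comp (f := fun l => (dec l).1) a)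
            ((ell_cont hk.2.2).comp (f := fun l => (dec l).1) a) fun l => by
            simp only [comp_apply, pi2_ell])).congr (.of_forall fun l => ?_)
        simp only [comp_apply, MK, PK, if_true]
        split_ifs
        · rfl
        · rw [pm_dif _ (by simp only [pi2_ell]), Equiv.symm_apply_apply]
      · obtain ⟨a1, a2⟩ := loc_K hk.1 h
        obtain ⟨b1, b2⟩ := loc_K hk.2 h
        refine ((continuous_of_discreteTopology
          (f := fun v => (MK j k).symm (trO v (MK i k ω)))).continuousAt.comp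
          (dif_cont a1 b1 fun l => by rw [pi2_PK, pi2_PK])).congr ((a2.and b2).mono fun l hl => ?_)
        simp only [comp_apply, hl.1, hl.2]
  have r0 : ∀ x, R1 (mK (x, 0, false)) = x := fun x => by simp [R1_mK]
  refine ⟨E, inferInstance, p, fun e => (((ell 0 (R1 (p e))).1 + (η e).1,
    (ell 0 (R1 (p e))).2 + (η e).2.1), (η e).2.2), cov, ?_, fun e x he => ⟨?_, ?_⟩⟩
  · obtain ⟨e, a, b⟩ := e1 (DK.c (0, 0)) 0
    refine ⟨e, a, ?_⟩
    have := AddCircle.equivIco_coe_of_mem (p := (1 : ℝ)) (a := 0) (y := 0) (by simp)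
    simp only [a, b, DK, r0, ell, pi2]
    simpa using this
  · simp only [he, r0]
    refine Eq.trans ?_ (pi2_ell 0 x)
    exact Prod.ext (coe_eq.2 ⟨(η e).1, by simp⟩) (coe_eq.2 ⟨(η e).2.1, by simp⟩)
  · obtain ⟨c, hc⟩ := ex_good x
    have h1 : hK (p e) ≠ (1 / 2 : ℝ) := by rw [he, hK_mK]; exact half_ne.symm
    have h2 : p e ∈ UK (false, c) := ⟨h1, by rw [mem_preimage, he, r0]; exact hc⟩
    have a := (e3 (false, c)).continuousAt (((hU _).preimage cov.continuous).mem_nhds h2)
    have b := (loc_K h2 h1).1.comp cov.continuous.continuousAt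
    have ci : Continuous fun n : ℤ => (n : ℝ) := continuous_of_discreteTopology
    refine (((b.fst.add (ci.continuousAt.comp a.fst)).prodMk
      (b.snd.add (ci.continuousAt.comp a.snd.fst))).prodMk a.snd.snd).congr (.of_forall fun l => ?_)
    have d := dif_cast (hA (false, c) (p l))
    refine Prod.ext (Prod.ext ?_ ?_) rfl <;>
      simp only [comp_apply, Pi.add_apply, MK, trO, Equiv.symm_trans_apply, Equiv.coe_fn_symm_mk,
        Bool.false_eq_true, if_false, Equiv.Perm.one_symm, Equiv.Perm.coe_one, id] <;>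
      push_cast <;> linarith

end Pool.Agent.H74.SC
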