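import Mathlib
import Pool.Agent.H74.SC4
import Pool.Agent.H74.SC2

set_option autoImplicit false

noncomputable section

namespace Pool.Agent.H74.SC

open unitInterval Set Topology Function Filter Complex ComplexConjugate

abbrev Mt := Matrix (Fin 2) (Fin 2) ℂ

def PP (a : ℂ × ℂ) : Mt := !![a.1 * conj a.1, a.1 * conj a.2; a.2 * conj a.1, a.2 * conj a.2]

def lk (a b : ℂ × ℂ) : ℂ := conj a.1 * b.1 + conj a.2 * b.2

theorem lk_conj (a b : ℂ × ℂ) : lk b a = conj (lk a b) := by simp [lk, mul_comm]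

theorem lk_self (a : ℂ × ℂ) : lk a a = ((normSq a.1 + normSq a.2 : ℝ) : ℂ) := by
  simp [lk, normSq_eq_conj_mul_self]

theorem tr4 (a b c d : ℂ × ℂ) :
    (PP a * PP b * PP c * PP d).trace = lk a b * lk b c * lk c d * lk d a := by
  simp [PP, lk, Matrix.trace, Fin.sum_univ_two]; ring

def gp (M i j : ℕ) : Q := ![pj (i / M), pj (j / M)]

def plq (P : Q → Mt) (M i j : ℕ) : ℂ :=
  (P (gp M i j) * P (gp M (i + 1) j) * P (gp M (i + 1) (j + 1)) * P (gp M i (j + 1))).trace

def SS (P : Q → Mt) (M : ℕ) : ℝ := ∑ i ∈ Finset.range M, ∑ j ∈ Finset.range M, arg (plq P M i j)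

theorem fine (P : I × Q → Mt) (hP : Continuous P) (h1 : ∀ z, ∃ a ≠ 0, P z = PP a) :
    ∀ᶠ M : ℕ in atTop, ∀ t i j, 0 < (plq (fun y => P (t, y)) M i j).re := by
  let Φ : I × Q × Q × Q × Q → ℝ := fun z => (P (z.1, z.2.1) * P (z.1, z.2.2.1) *
    P (z.1, z.2.2.2.1) * P (z.1, z.2.2.2.2)).trace.re
  have cΦ : Continuous Φ := continuous_re.comp (Continuous.matrix_trace (by fun_prop))
  obtain ⟨δ, h0, hδ⟩ := (isClosed_le cΦ (continuous_const (y := 0))).isCompact.exists_forall_le'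
    (f := fun z => dist z.2.2.1 z.2.1 + dist z.2.2.2.1 z.2.1 + dist z.2.2.2.2 z.2.1) (by fun_prop)
    (a := 0) (by
      rintro ⟨t, a, b, c, d⟩ h
      by_contra e
      have e1 := @dist_nonneg _ _ b a
      have e2 := @dist_nonneg _ _ c a
      have e3 := @dist_nonneg _ _ d a
      obtain rfl : b = a := dist_eq_zero.1 (by simp only at e; linarith)
      obtain rfl : c = b := dist_eq_zero.1 (by simp only at e; linarith)
      obtain rfl : d = c := dist_eq_zero.1 (by simp only at e; linarith)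
      obtain ⟨u, hu, e'⟩ := h1 (t, d)
      have : 0 < normSq u.1 + normSq u.2 := by
        by_contra f
        exact hu (Prod.ext (normSq_eq_zero.1 (by linarith [normSq_nonneg u.1, normSq_nonneg u.2]))
          (normSq_eq_zero.1 (by linarith [normSq_nonneg u.1, normSq_nonneg u.2])))
      simp only [Φ, mem_setOf_eq, e', tr4, lk_self, ← ofReal_mul, ofReal_re] at h
      exact absurd h (not_le.2 (by positivity)))
  filter_upwards [(tendsto_const_div_atTop_nhds_zero_nat (3 : ℝ)).eventually (gt_mem_nhds h0)]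
    with M hM t i j
  have d1 : ∀ k l : ℕ, (l = k ∨ l = k + 1) → dist (pj (l / M)) (pj (k / M)) ≤ 1 / M := by
    rintro k l (rfl | rfl)
    · simp
    · refine (abs_projIcc_sub_projIcc zero_le_one).trans (le_of_eq ?_)
      rw [← sub_div]; simp
  have d2 : ∀ k l, (k = i ∨ k = i + 1) → (l = j ∨ l = j + 1) → dist (gp M k l) (gp M i j) ≤ 1 / M :=
    fun k l a b => (dist_pi_le_iff (by positivity)).2
      (Fin.forall_fin_two.2 ⟨d1 _ _ a, d1 _ _ b⟩)
  by_contra e
  have := hδ (t, gp M i j, gp M (i + 1) j, gp M (i + 1) (j + 1), gp M i (j + 1)) (not_lt.1 e)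
  linarith [d2 _ _ (.inr rfl) (.inl rfl), d2 _ _ (.inr rfl) (.inr rfl), d2 _ _ (.inl rfl) (.inr rfl),
    show (3 : ℝ) / M = 1 / M + 1 / M + 1 / M by ring]

theorem SS_int (P : Q → Mt) (h1 : ∀ z, ∃ a ≠ 0, P z = PP a) (h2 : ∀ u, P ![0, u] = P ![1, u])
    (h3 : ∀ a b u, u = 0 ∨ u = 1 → P ![a, u] = P ![b, u]) {M : ℕ} (hM : M ≠ 0)
    (h : ∀ i j, plq P M i j ≠ 0) : (SS P M : Real.Angle) = 0 := by
  classical
  let sp : Mt → ℂ × ℂ := fun A => if h : ∃ a, A = PP a then h.choose else 0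
  have hs : ∀ z, P z = PP (sp (P z)) := fun z => by
    have : ∃ a, P z = PP a := (h1 z).imp fun _ h => h.2
    simp only [sp, dif_pos this, ← this.choose_spec]
  let s : ℕ → ℕ → ℂ × ℂ := fun i j => sp (P (gp M i j))
  let H : ℕ → ℕ → Real.Angle := fun i j => arg (lk (s i j) (s (i + 1) j))
  let W : ℕ → ℕ → Real.Angle := fun i j => arg (lk (s i j) (s i (j + 1)))
  have e : ∀ i j, (arg (plq P M i j) : Real.Angle) =
      (W (i + 1) j - W i j) - (H i (j + 1) - H i j) := fun i j => by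
    have := h i j
    rw [plq, hs, hs (gp M (i + 1) j), hs (gp M (i + 1) (j + 1)), hs (gp M i (j + 1)), tr4] at this ⊢
    simp only [ne_eq, mul_eq_zero, not_or] at this
    obtain ⟨⟨⟨a, b⟩, c⟩, d⟩ := this
    rw [arg_mul_coe_angle (by simp [a, b, c]) d, arg_mul_coe_angle (by simp [a, b]) c,
      arg_mul_coe_angle a b, lk_conj (s i (j + 1)), lk_conj (s i j) (s i (j + 1)),
      arg_conj_coe_angle, arg_conj_coe_angle]
    simp only [H, W, s]; abel
  have hM' : (M : ℝ) / M = 1 := div_self (by exact_mod_cast hM)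
  have e1 : ∀ j, W M j = W 0 j := fun j => by simp [W, s, gp, hM', h2]
  have e2 : ∀ i j, j = 0 ∨ j = M → H i j = 0 := fun i j hj => by
    have : P (gp M (i + 1) j) = P (gp M i j) := h3 _ _ _ (by rcases hj with rfl | rfl <;> simp [hM'])
    simp only [H, s, this, lk_self]
    rw [arg_ofReal_of_nonneg (add_nonneg (normSq_nonneg _) (normSq_nonneg _))]; rfl
  have : ∀ (f : ℕ → ℝ), ((∑ i ∈ Finset.range M, f i : ℝ) : Real.Angle) =
      ∑ i ∈ Finset.range M, (f i : Real.Angle) := fun f => map_sum Real.Angle.coeHom _ _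
  have e3 : ∀ i, ∑ j ∈ Finset.range M, (arg (plq P M i j) : Real.Angle) =
      ∑ j ∈ Finset.range M, (W (i + 1) j - W i j) := fun i => by
    rw [Finset.sum_congr rfl fun j _ => e i j, Finset.sum_sub_distrib, Finset.sum_range_sub (H i),
      e2 _ 0 (.inl rfl), e2 _ M (.inr rfl), sub_zero, sub_zero]
  simp only [SS, this, e3]
  rw [Finset.sum_comm]
  exact Finset.sum_eq_zero fun j _ => (Finset.sum_range_sub (fun i => W i j) M).trans
    (sub_eq_zero.2 (e1 j))

theorem lat (P : I × Q → Mt) (hP : Continuous P) (h1 : ∀ z, ∃ a ≠ 0, P z = PP a)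
    (h2 : ∀ t u, P (t, ![0, u]) = P (t, ![1, u]))
    (h3 : ∀ t a b u, u = 0 ∨ u = 1 → P (t, ![a, u]) = P (t, ![b, u])) :
    ∀ᶠ M : ℕ in atTop, SS (fun y => P (0, y)) M = SS (fun y => P (1, y)) M := by
  filter_upwards [fine P hP h1, eventually_ne_atTop 0] with M h hM
  have c : Continuous fun t : I => SS (fun y => P (t, y)) M :=
    continuous_finsetSum _ fun i _ => continuous_finsetSum _ fun j _ =>
      continuous_iff_continuousAt.2 fun t => (continuousAt_arg (Or.inl (h t i j))).comp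
        (f := fun t => plq (fun y => P (t, y)) M i j)
        (Continuous.matrix_trace (by fun_prop)).continuousAt
  choose n hn using fun t => Real.Angle.coe_eq_zero_iff.1 (SS_int (fun y => P (t, y))
    (fun y => h1 _) (h2 t) (h3 t) hM fun i j e => (h t i j).ne' (by rw [e]; rfl))
  have : Continuous n := Int.isClosedEmbedding_coe_real.isInducing.continuous_iff.2
    ((c.div_const (2 * Real.pi)).congr fun t => by
      rw [← hn]; simp [mul_div_assoc, Real.pi_ne_zero])
  rw [← hn, ← hn, PreconnectedSpace.constant inferInstance this (x := 0) (y := 1)]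

def chi (τ u θ : ℝ) : ℂ × ℂ :=
  ((√(1 - τ * u) * √(1 - u) : ℝ) + (√(τ * u) * √u : ℝ) * exp (2 * Real.pi * θ * Complex.I),
    -(√(τ * u) * √(1 - u) : ℝ) + (√(1 - τ * u) * √u : ℝ) * exp (2 * Real.pi * θ * Complex.I))

theorem cont_PP : Continuous PP :=
  continuous_matrix fun i j => by fin_cases i <;> fin_cases j <;> simp [PP] <;> fun_prop

@[fun_prop] theorem cont_chi {A : Type} [TopologicalSpace A] {a b c : A → ℝ} (ha : Continuous a)
    (hb : Continuous b) (hc : Continuous c) : Continuous fun x => PP (chi (a x) (b x) (c x)) :=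
  cont_PP.comp (by unfold chi; fun_prop)

theorem chi_int (τ u θ : ℝ) (n : ℤ) : chi τ u (θ + n) = chi τ u θ := by
  have : exp (2 * Real.pi * ((θ + n : ℝ) : ℂ) * Complex.I) = exp (2 * Real.pi * θ * Complex.I) := by
    rw [← mul_one (exp (2 * Real.pi * θ * Complex.I)), ← exp_int_mul_two_pi_mul_I n, ← exp_add]
    congr 1; push_cast; ring
  simp only [chi, this]

theorem ee (θ : ℝ) :
    exp (2 * Real.pi * θ * Complex.I) * conj (exp (2 * Real.pi * θ * Complex.I)) = 1 := by
  rw [← exp_conj, ← exp_add]; simp [map_ofNat]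

theorem chi_ne (τ u : I) (θ : ℝ) : chi τ u θ ≠ 0 := fun h => by
  have a := congrArg Prod.fst h
  have b := congrArg Prod.snd h
  simp only [chi, Prod.fst_zero, Prod.snd_zero] at a b
  have := (τ * u).2
  rw [Icc.coe_mul] at this
  have e1 : ((√(1 - τ * u) : ℝ) : ℂ) ^ 2 + ((√(τ * u) : ℝ) : ℂ) ^ 2 = 1 := by
    rw [← ofReal_pow, ← ofReal_pow, Real.sq_sqrt (by linarith [this.2]), Real.sq_sqrt this.1]; simp
  have e2 : ((√(1 - u) : ℝ) : ℂ) ^ 2 + ((√u : ℝ) : ℂ) ^ 2 = 1 := by
    norm_cast; rw [Real.sq_sqrt (by linarith [u.2.2]), Real.sq_sqrt u.2.1]; ring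
  push_cast at a b
  have c : ((√(1 - u) : ℝ) : ℂ) = 0 := by
    linear_combination (√(1 - τ * u) : ℝ) * a - (√(τ * u) : ℝ) * b - (√(1 - u) : ℝ) * e1
  have d : ((√u : ℝ) : ℂ) * exp (2 * Real.pi * θ * Complex.I) = 0 := by
    linear_combination (√(τ * u) : ℝ) * a + (√(1 - τ * u) : ℝ) * b -
      (√u : ℝ) * exp (2 * Real.pi * θ * Complex.I) * e1
  rw [c, (mul_eq_zero.1 d).resolve_right (exp_ne_zero _)] at e2
  simp at e2

theorem chi_end (τ a b : ℝ) {u : I} (h : u = 0 ∨ u = 1) : PP (chi τ u a) = PP (chi τ u b) := by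
  rcases h with rfl | rfl
  · simp [chi]
  · ext i j
    fin_cases i <;> fin_cases j <;> simp [chi, PP, -ofReal_exp] <;>
      simp only [mul_mul_mul_comm _ (exp _), ee]

theorem chi_bd {y : Q} (h : bd y) : PP (chi 1 (y 1) (y 0)) = PP (1, 0) := by
  have a : ∀ u : I, PP (chi 1 u 0) = PP (1, 0) := fun u => by
    have : ((√(1 - u) * √(1 - u) + √u * √u : ℝ) : ℂ) = 1 := by
      rw [Real.mul_self_sqrt (by linarith [u.2.2]), Real.mul_self_sqrt u.2.1]; simp
    congr 1
    simp only [chi, one_mul, ofReal_zero, mul_zero, zero_mul, exp_zero, mul_one]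
    exact Prod.ext (by simpa using this) (by simp [mul_comm])
  obtain ⟨i, hi⟩ := h
  fin_cases i
  · rcases hi with e | e <;> simp only [Fin.zero_eta] at e <;> rw [e]
    · exact a _
    · simpa using (congrArg PP (chi_int 1 (y 1) 0 1)).trans (a _)
  · exact (chi_end 1 _ 0 hi).trans (a _)

theorem degree (n : ℕ) (hn : 0 < n) :
    ∀ᶠ M : ℕ in atTop, SS (fun y => PP (chi 1 (y 1) (n * y 0))) M < 0 := by
  have c : Continuous fun z : I × Q => PP (chi z.1 (z.2 1) (n * z.2 0)) := by fun_prop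
  have h1 : ∀ z : I × Q, ∃ a ≠ 0, PP (chi z.1 (z.2 1) (n * z.2 0)) = PP a :=
    fun z => ⟨_, chi_ne _ _ _, rfl⟩
  filter_upwards [lat _ c h1 (fun t u => by simpa using congrArg PP (chi_int t u 0 n).symm)
    (fun t a b u h => chi_end _ _ _ h), fine _ c h1, eventually_gt_atTop (2 * n)] with M a b h
  refine lt_of_eq_of_lt a.symm ?_
  have hM : (0 : ℝ) < M := by exact_mod_cast (by omega : 0 < M)
  have ne : (Finset.range M).Nonempty := ⟨0, by simp; omega⟩
  refine Finset.sum_neg (fun i hi => Finset.sum_neg (fun j hj => arg_neg_iff.2 ?_) ne) ne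
  have b := b 0 i j
  have v : ∀ k : ℕ, k ≤ M → (pj (k / M) : ℝ) = k / M := fun k hk =>
    pj_of (by positivity) (by rw [div_le_one hM]; exact_mod_cast hk)
  rw [Finset.mem_range] at hi hj
  have u0 : (0 : ℝ) ≤ j / M := by positivity
  have u1 : ((j + 1 : ℕ) : ℝ) / M ≤ 1 := by rw [div_le_one hM]; exact_mod_cast hj
  have u2 : (j : ℝ) / M < ((j + 1 : ℕ) : ℝ) / M := by gcongr; simp
  have s0 : 0 < Real.sin (2 * Real.pi * (n / M)) := Real.sin_pos_of_pos_of_lt_pi (by positivity) (by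
    have : (2 * n : ℝ) / M < 1 := by rw [div_lt_one hM]; exact_mod_cast h
    have := mul_lt_mul_of_pos_left this Real.pi_pos
    linarith [show Real.pi * (2 * n / M) = 2 * Real.pi * (n / M) by ring])
  simp only [plq, tr4, gp, Matrix.cons_val_zero, Matrix.cons_val_one, v i hi.le, v j hj.le,
    v (i + 1) hi, v (j + 1) hj, Icc.coe_zero] at b ⊢
  generalize (j : ℝ) / M = u at *
  generalize ((j + 1 : ℕ) : ℝ) / M = w at *
  have l1 : ∀ u w θ : ℝ, lk (chi 0 u θ) (chi 0 w θ) = (√(1 - u) * √(1 - w) + √u * √w : ℝ) :=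
    fun u w θ => by
      simp only [lk, chi]
      simp [-ofReal_exp]
      linear_combination (√u : ℝ) * (√w : ℝ) * ee θ
  have l2 : ∀ u : ℝ, 0 ≤ u → u ≤ 1 → lk (chi 0 u (n * (i / M))) (chi 0 u (n * ((i + 1 : ℕ) / M))) =
      (1 - u : ℝ) + u * exp ((2 * Real.pi * (n / M) : ℝ) * Complex.I) := fun u a b => by
    have e1 : ((√(1 - u) : ℝ) : ℂ) * (√(1 - u) : ℝ) = (1 - u : ℝ) := by
      rw [← ofReal_mul, Real.mul_self_sqrt (by linarith)]
    have e2 : ((√u : ℝ) : ℂ) * (√u : ℝ) = u := by rw [← ofReal_mul, Real.mul_self_sqrt a]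
    have e3 : exp (2 * Real.pi * ((n * ((i + 1 : ℕ) / M) : ℝ) : ℂ) * Complex.I) =
        exp (2 * Real.pi * ((n * (i / M) : ℝ) : ℂ) * Complex.I) *
        exp ((2 * Real.pi * (n / M) : ℝ) * Complex.I) := by
      rw [← exp_add]; congr 1; push_cast; ring
    have e4 := ee (n * (i / M))
    simp only [lk, chi, e3, zero_mul, Real.sqrt_zero, sub_zero, Real.sqrt_one, one_mul, ofReal_zero,
      add_zero, neg_zero, zero_add, map_mul, conj_ofReal]
    linear_combination e1 + exp ((2 * Real.pi * (n / M) : ℝ) * Complex.I) * e2 +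
      (√u : ℝ) * (√u : ℝ) * exp ((2 * Real.pi * (n / M) : ℝ) * Complex.I) * e4
  rw [l1, l1, lk_conj (chi 0 w _), l2 u u0 (by linarith), l2 w (by linarith) u1,
    mul_comm √(1 - w), mul_comm √w] at b ⊢
  generalize √(1 - u) * √(1 - w) + √u * √w = r at *
  have r0 : r ≠ 0 := by rintro rfl; simp at b
  have : 0 < r * r * (Real.sin (2 * Real.pi * (n / M)) * (w - u)) :=
    mul_pos (mul_self_pos.2 r0) (mul_pos s0 (by linarith))
  simp only [mul_im, mul_re, add_re, add_im, ofReal_re, ofReal_im, conj_re, conj_im,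
    exp_ofReal_mul_I_re, exp_ofReal_mul_I_im]
  linarith

end Pool.Agent.H74.SC
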