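import Mathlib
import Pool.Agent.H74.SC11
import Pool.Agent.H74.SC12

set_option autoImplicit false

noncomputable section

namespace Pool.Agent.H74.SC

open unitInterval Set Topology Function KP

abbrev V1 := V DK t1

def al (j : Bool × Bool) (u : ℕ → I) : I := if j.1 then u 2 else 0
def be (j : Bool × Bool) (u : ℕ → I) : I := if j.2 then u (if j.1 then 3 else 2) else 0
def sq4 (y : Q) (a b : I) (k : ℕ) : I :=
  if k = 0 then y 0 else if k = 1 then y 1 else if k = 2 then a else b

theorem v2 (y : Q) : ![y 0, y 1] = y := by ext i; fin_cases i <;> rfl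

def dV (j : Bool × Bool) : ℕ := 2 + j.1.toNat + j.2.toNat

theorem op_V {j : Bool × Bool} {u : ℕ → I} (h : Op (dV j) u) : ¬bd ![u 0, u 1] ∧
    al j u ≠ 1 ∧ be j u ≠ 1 ∧ (al j u = 0 ↔ j.1 = false) ∧ (be j u = 0 ↔ j.2 = false) := by
  have a := h 0 (by simp [dV])
  have b := h 1 (by simp only [dV]; omega)
  refine ⟨?_, ?_⟩
  · rintro ⟨i, hi⟩
    fin_cases i
    exacts [hi.elim a.1 a.2, hi.elim b.1 b.2]
  · obtain ⟨_ | _, _ | _⟩ := j
    · simp [al, be]
    · simpa [al, be, and_comm] using h 2 (by simp [dV])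
    · simpa [al, be, and_comm] using h 2 (by simp [dV])
    · have := h 2 (by simp [dV]); have := h 3 (by simp [dV]); simp [al, be, *]

theorem int_zero {a b : I} {m : ℤ} (ha : a ≠ 1) (hb : b ≠ 1) (h : (b : ℝ) = a + m) : m = 0 := by
  have h1 : (a : ℝ) < 1 := lt_of_le_of_ne a.2.2 fun e => ha (Subtype.ext e)
  have h2 : (b : ℝ) < 1 := lt_of_le_of_ne b.2.2 fun e => hb (Subtype.ext e)
  have h3 : ((-1 : ℤ) : ℝ) < m := by push_cast; linarith [b.2.1]
  have h4 : (m : ℝ) < (1 : ℤ) := by push_cast; linarith [a.2.1]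
  have := Int.cast_lt.1 h3
  have := Int.cast_lt.1 h4
  omega

def cV : Cells V1 where
  ι := cK.circ.ι ⊕ Bool × Bool
  fin := by have := cK.circ.fin; infer_instance
  d := Sum.elim cK.circ.d dV
  Φ := Sum.elim (fun j u => iB DK t1 (cK.circ.Φ j u))
    fun j u => PV DK t1 () ((al j u, be j u), ![u 0, u 1])
  cont := by
    rintro (j | j)
    · exact (iB DK t1).continuous.comp (cK.circ.cont j)
    · refine (adm_PV DK t1 ()).1.comp
        (f := fun u : ℕ → I => (0, ((al j u : ℝ), (be j u : ℝ)), ![u 0, u 1])) ?_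
      unfold al be; split_ifs <;> fun_prop
  dep := by
    rintro (j | ⟨_ | _, _ | _⟩) u v h
    · exact congrArg (iB DK t1) (cK.circ.dep j u v h)
    all_goals simp only [Sum.elim_inr, dV, al, be, Bool.false_eq_true, if_false, if_true] at h ⊢
              simp (disch := simp) only [h]
  inj := by
    rintro (j | j) (k | k) u v hu hv e
    · obtain ⟨rfl, h⟩ := cK.circ.inj j k u v hu hv (congrArg (·.1.1) e)
      exact ⟨rfl, h⟩
    · exact absurd (emb_zero.1 (congrArg (·.1.2) e).symm) (op_V hv).1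
    · exact absurd (emb_zero.1 (congrArg (·.1.2) e)) (op_V hu).1
    · obtain ⟨a1, a2, a3, a4, a5⟩ := op_V hu
      obtain ⟨b1, b2, b3, b4, b5⟩ := op_V hv
      obtain ⟨-, m, n, e1, e2⟩ := PV_eq DK t1 t1_inj e
      obtain rfl := int_zero a2 b2 (congrArg Prod.fst e1)
      obtain rfl := int_zero a3 b3 (congrArg Prod.snd e1)
      have e2 := e2.resolve_left fun h => a1 h.1
      simp only [Int.cast_zero, add_zero, Prod.mk.injEq, Subtype.coe_inj, Even.zero, if_true]
        at e1 e2
      rw [← e1.1, b4] at a4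
      rw [← e1.2, b5] at a5
      obtain rfl : j = k := Prod.ext (by simpa using a4.symm) (by simpa using a5.symm)
      refine ⟨rfl, fun l hl => ?_⟩
      have c0 : u 0 = v 0 := congrFun e2 0
      have c1 : u 1 = v 1 := congrFun e2 1
      obtain ⟨_ | _, _ | _⟩ := j <;> simp [al, be, dV] at e1 hl <;> interval_cases l <;> simp [*]
  bdy := by
    rintro (j | j) u hu
    · obtain ⟨k, v, h1, h2⟩ := cK.circ.bdy j u hu
      exact ⟨.inl k, v, h1, congrArg (iB DK t1) h2⟩
    by_cases c : bd ![u 0, u 1]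
    · have : ∃ n < dV j, cK.circ.Sk n (DK.c (al j u, be j u), 0) := by
        obtain ⟨_ | _, _ | _⟩ := j
        · exact ⟨0, by simp [dV], cK_sk.1⟩
        all_goals exact ⟨2, by simp [dV], cK_sk.2 _⟩
      obtain ⟨n, h1, k, v, h2, h3⟩ := this
      exact ⟨.inl k, v, h2.trans_lt h1,
        (congrArg (iB DK t1) h3).trans ((adm_PV DK t1 ()).2.1 0 _ _ c).symm⟩
    simp only [Op, not_forall, Sum.elim_inr] at hu
    obtain ⟨k, h1, h2⟩ := hu
    have h2 : u k = 0 ∨ u k = 1 := by tauto
    have k0 : k ≠ 0 := fun e => c ⟨0, e ▸ h2⟩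
    have k1 : k ≠ 1 := fun e => c ⟨1, e ▸ h2⟩
    have p1 := fun b y => (adm_PV DK t1 ()).2.2.1 0 0 b y
    have p2 := fun a y => (adm_PV DK t1 ()).2.2.2 0 a 0 y
    simp only [zero_add] at p1 p2
    obtain ⟨_ | _, _ | _⟩ := j <;> simp only [dV, Bool.toNat_true, Bool.toNat_false] at h1
    · omega
    · obtain rfl : k = 2 := by omega
      rcases h2 with e | e
      · exact ⟨.inr (false, false), u, by simp [dV], by simp [al, be, e]⟩
      · exact ⟨.inr (false, false), sq4 (rQ ![u 0, u 1]) 0 0, by simp [dV],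
          by simp [al, be, e, p2, sq4, ← v2 (rQ _)]⟩
    · obtain rfl : k = 2 := by omega
      exact ⟨.inr (false, false), u, by simp [dV], by rcases h2 with e | e <;> simp [al, be, e, p1]⟩
    · obtain rfl | rfl : k = 2 ∨ k = 3 := by omega
      · exact ⟨.inr (false, true), sq4 ![u 0, u 1] (u 3) 0, by simp [dV],
          by rcases h2 with e | e <;> simp [al, be, e, p1, sq4]⟩
      · rcases h2 with e | e
        · exact ⟨.inr (true, false), u, by simp [dV], by simp [al, be, e]⟩
        · exact ⟨.inr (true, false), sq4 (rQ ![u 0, u 1]) (u 2) 0, by simp [dV],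
            by simp [al, be, e, p2, sq4, ← v2 (rQ _)]⟩
  cov := fun x => by
    obtain ⟨x | ⟨j, p, y⟩, rfl⟩ := qV_surj DK t1 x
    · obtain ⟨j, v, rfl⟩ := cK.circ.cov x
      exact ⟨.inl j, v, rfl⟩
    · exact ⟨.inr (true, true), sq4 y p.1 p.2, by simp [qV, al, be, sq4, v2]⟩

end Pool.Agent.H74.SC
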