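import Mathlib
import Pool.Agent.H74.SC13

set_option autoImplicit false

noncomputable section

namespace Pool.Agent.H74.SC

open unitInterval Set Topology Function KP Filter

def Cb {Y : Type} (G : I × Q → Y) : Prop := ∀ t y y', bd y → bd y' → G (t, y) = G (t, y')

theorem liftQ {E X : Type} [TopologicalSpace E] [TopologicalSpace X] {p : E → X}
    (hp : IsCoveringMap p) (G : I × Q → X) (hG : Continuous G) (hb : Cb G) (e : E)
    (h0 : ∀ y, G (0, y) = p e) :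
    ∃ L : I × Q → E, Continuous L ∧ (∀ z, p (L z) = G z) ∧ (∀ y, L (0, y) = e) ∧ Cb L := by
  have a := hp.liftHomotopy_lifts ⟨G, hG⟩ (.const Q e) h0
  have b := hp.liftHomotopy_zero ⟨G, hG⟩ (.const Q e) h0
  generalize hp.liftHomotopy ⟨G, hG⟩ (.const Q e) h0 = L at a b
  refine ⟨L, L.continuous, congrFun a, b, fun t y y' hy hy' => ?_⟩
  exact congrFun (hp.eq_of_comp_eq (g₁ := fun t => L (t, y)) (g₂ := fun t => L (t, y'))
    (by fun_prop) (by fun_prop) (funext fun t => (congrFun a _).trans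
      ((hb t y y' hy hy').trans (congrFun a _).symm)) 0 ((b y).trans (b y').symm)) t

theorem xi_it (N : ℕ) (y : Q) : (xi (2 ^ 3))^[N] y 1 = y 1 ∧
    ∃ m : ℤ, ((xi (2 ^ 3))^[N] y 0 : ℝ) = ((8 ^ N : ℕ) : ℝ) * y 0 + m := by
  induction N with
  | zero => exact ⟨rfl, 0, by simp⟩
  | succ N ih =>
    obtain ⟨h1, m, h2⟩ := ih
    rw [iterate_succ_apply']
    refine ⟨h1, 8 * m - ⌊(2 ^ 3 : ℝ) * (xi (2 ^ 3))^[N] y 0⌋, ?_⟩
    rw [xi, update_self, pj_of (Int.fract_nonneg _) (Int.fract_lt_one _).le, Int.fract]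
    push_cast at h2 ⊢
    generalize ⌊(2 ^ 3 : ℝ) * (xi (2 ^ 3))^[N] y 0⌋ = k
    rw [h2]; ring

theorem sph_emb (w : I × Q → Wt) (hw : Continuous w) (hb : Cb w) (h : ∀ z, ∃ y, emb 0 y = w z)
    (N : ℕ) (h0 : ∀ y, w (0, y) = emb 0 ((xi (2 ^ 3))^[N] y)) (h1 : ∀ y, w (1, y) = 0) : False := by
  obtain ⟨P, p1, p2⟩ := fac (emb 0) (by fun_prop) (fun y : Q => PP (chi 1 (y 1) (y 0)))
    (by fun_prop) fun a b e => by
      by_cases c : bd a
      · rw [chi_bd c, chi_bd (emb_zero.1 (e.symm.trans (emb_zero.2 c)))]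
      · rw [emb_inj e c]
  have := lat (fun z => P (w z)) (p1.comp_continuous hw h) (fun z => by
      obtain ⟨y, e⟩ := h z
      exact ⟨_, chi_ne 1 (y 1) (y 0), by rw [← e, p2]; rfl⟩)
    (fun t u => congrArg P (hb t _ _ ⟨0, Or.inl rfl⟩ ⟨0, Or.inr rfl⟩))
    fun t a b u hu => congrArg P (hb t _ _ ⟨1, hu⟩ ⟨1, hu⟩)
  obtain ⟨M, a, b⟩ := (this.and (degree (8 ^ N) (by positivity))).exists
  have c : ∀ y, P (w (0, y)) = PP (chi 1 (y 1) ((8 ^ N : ℕ) * y 0)) := fun y => by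
    obtain ⟨e, m, e'⟩ := xi_it N y
    rw [h0, p2, e, e', chi_int]
  have d : ∀ y, P (w (1, y)) = PP (1, 0) := fun y => by
    rw [h1, ← emb_zero.2 bd0, p2, chi_bd bd0]
  simp only [c, d] at a
  rw [a] at b
  simp [SS, plq, tr4, lk] at b

theorem emb_int (p : R2) (m n : ℤ) (y : Q) : ∃ y', emb p.2 y = emb (p.2 + n) y' := by
  refine ⟨if Even n then y else rQ y, ?_⟩
  have := congrArg (·.1.2) ((adm_PV DK t1 ()).int 0 p.1 p.2 m n (if Even n then y else rQ y))
  refine Eq.trans ?_ this.symm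
  split_ifs <;> simp [PV]

theorem sph_V (v : I × Q → V1) (hv : Continuous v) (hb : Cb v) (N : ℕ)
    (h0 : ∀ y, v (0, y) = PV DK t1 () ((0, 0), (xi (2 ^ 3))^[N] y))
    (h1 : ∀ y, (v (1, y)).1.2 = 0) : False := by
  obtain ⟨E, _, p, Λ, hp, ⟨e, e1, e2⟩, hΛ⟩ := covK
  obtain ⟨L, l1, l2, l3, l4⟩ := liftQ hp (fun z => (v z).1.1.1) (by fun_prop)
    (fun t y y' a b => by simp only [hb t y y' a b]) e fun y => by rw [h0, e1]; rfl
  let ψ : (R2 × ℕ) × Wt → Wt := fun u => (if u.1.2 = 0 then 1 else 0 : ℝ) •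
    (u.2.1 * Complex.exp (-(Real.pi * Complex.I * u.1.1.2)), u.2.2)
  have cψ : Continuous ψ := by
    have : Continuous fun n : ℕ => (if n = 0 then 1 else 0 : ℝ) := continuous_of_discreteTopology
    exact (this.comp (by fun_prop)).smul (by fun_prop)
  have nψ : ∀ u, ‖ψ u‖ ≤ ‖u.2‖ := fun u => by
    have : ‖Complex.exp (-(Real.pi * Complex.I * u.1.1.2))‖ = 1 := by simp [Complex.norm_exp]
    simp only [ψ]
    split_ifs
    · simp only [one_smul, Prod.norm_def, norm_mul, this, mul_one, le_refl]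
    · simp
  have key : ∀ z, (v z).1.2 = 0 ∨ ContinuousAt Λ (L z) ∧ ∃ y, (v z).1.2 = emb (Λ (L z)).1.2 y :=
    fun z => (v z).2.imp_right fun ⟨j, q, y, h⟩ => by
      obtain ⟨a, b⟩ := hΛ (L z) (pi2 q) ((l2 z).trans (congrArg (·.1.1) h))
      obtain ⟨m, n, c⟩ := pi2_eq a.symm
      rw [c, h]
      exact ⟨b, emb_int q m n y⟩
  have z0 : ∀ z, (v z).1.2 = 0 → ψ (Λ (L z), (v z).1.2) = 0 := fun z h =>
    norm_le_zero_iff.1 ((nψ _).trans (by simp [h]))
  refine sph_emb (fun z => ψ (Λ (L z), (v z).1.2)) (continuous_iff_continuousAt.2 fun z => ?_)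
    (fun t y y' a b => by simp only [hb t y y' a b, l4 t y y' a b]) (fun z => ?_) N (fun y => ?_)
    fun y => z0 _ (h1 y)
  · rcases key z with h | h
    · rw [ContinuousAt, z0 z h]
      refine squeeze_zero_norm (fun z => nψ _) ?_
      simpa [h] using (show Continuous fun z => ‖(v z).1.2‖ by fun_prop).tendsto z
    · exact cψ.continuousAt.comp ((h.1.comp l1.continuousAt).prodMk (by fun_prop))
  · rcases key z with h | ⟨-, y, h⟩
    · exact ⟨_, (emb_zero.2 bd0).trans (z0 z h).symm⟩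
    · simp only [ψ, h]
      split_ifs
      · exact ⟨y, by simp [emb, mul_assoc, ← Complex.exp_add]⟩
      · exact ⟨_, (emb_zero.2 bd0).trans (by simp)⟩
  · simp [ψ, l3, e2, h0, PV]

variable {Z : C(V1, V1)} (z1 : ∀ x, Z (iB DK t1 x) = iB DK t1 x)
  (z2 : ∀ j z, Z (PV DK t1 j z) = PV DK t1 j (z.1, xi (2 ^ 3) z.2))

include z1 z2 in
theorem detect (G : I × Q → T Z) (hG : Continuous G) (hb : Cb G)
    (h0 : ∀ y, G (0, y) = mk Z (PV DK t1 () ((0, 0), y)) 0)
    (h1 : ∀ y, ∃ b s, G (1, y) = mk Z (iB DK t1 b) s) : False := by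
  obtain ⟨s, s1, s2, s3, s4⟩ := liftQ (AddCircle.isCoveringMap_coe (1 : ℝ)) (fun z => pr Z (G z))
    ((cont_pr Z).comp hG) (fun t y y' a b => by simp only [hb t y y' a b]) 0
    fun y => by rw [h0]; rfl
  obtain ⟨N, hN⟩ : ∃ N : ℕ, ∀ z, s z ≤ N := by
    obtain ⟨M, hM⟩ := (isCompact_range s1).bddAbove
    exact ⟨⌈M⌉₊, fun z => (hM ⟨z, rfl⟩).trans (Nat.le_ceil M)⟩
  have a : ∀ z, ∃ v, mk Z v 0 = Fl Z (G z) (N - s z) := fun z => by
    obtain ⟨v, t, h⟩ := mk_surj Z (Fl Z (G z) (N - s z))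
    have b := congrArg (pr Z) h
    rw [pr_Fl _ _ (sub_nonneg.2 (hN z)), ← s2, ← AddCircle.coe_add, add_sub_cancel, pr_mk,
      (coe_eq_zero (a := N)).2 ⟨N, by simp⟩] at b
    by_cases c : t = 1
    · exact ⟨Z v, by rw [← h, c, mk_one]⟩
    · exact ⟨v, by rw [← h, coeI_inj c zero_ne_one b]⟩
  choose v hv using a
  have inj : Injective fun v => mk Z v 0 := fun _ _ e => by simpa using mk_eq.1 e
  have it : ∀ n b, Z^[n] (iB DK t1 b) = iB DK t1 b := fun n b => iterate_fixed (z1 b) n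
  refine sph_V v ((Continuous.isClosedEmbedding (by fun_prop) inj).isInducing.continuous_iff.2 ?_)
    (fun t y y' a b => inj (by simp only [hv, hb t y y' a b, s4 t y y' a b])) N (fun y => inj ?_)
    fun y => ?_
  · simp only [comp_def, hv]; fun_prop
  · have : ∀ n y, Z^[n] (PV DK t1 () ((0, 0), y)) = PV DK t1 () ((0, 0), (xi (2 ^ 3))^[n] y) :=
      fun n => by
        induction n with
        | zero => exact fun _ => rfl
        | succ n ih => exact fun y => by rw [iterate_succ_apply, z2, ih]; rfl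
    simp only [hv, h0, s3, sub_zero]
    rw [Fl_mk _ _ _ N.cast_nonneg, E_add, this]
  · obtain ⟨b, t, h⟩ := h1 y
    have c := hv (1, y)
    obtain ⟨n, t', e⟩ := real_split (add_nonneg t.2.1 (sub_nonneg.2 (hN (1, y))))
    rw [h, Fl_mk _ _ _ (sub_nonneg.2 (hN _)), e, E_add, it] at c
    rw [show v (1, y) = iB DK t1 b by have := mk_eq.1 c; simp [z1] at this; tauto]
    rfl

end Pool.Agent.H74.SC
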