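import Mathlib
import Pool.Agent.H74.SC10
import Pool.Agent.H74.SC14

set_option autoImplicit false

noncomputable section

namespace Pool.Agent.H74.SC

open unitInterval Set Topology Function KP ContinuousMap

theorem Cells.lpc {X : Type} [TopologicalSpace X] [T2Space X] (C : Cells X) :
    LocallyPathConnectedSpace X := by
  have := C.fin
  have h : Continuous fun z : Σ _ : C.ι, ℕ → I => C.Φ z.1 z.2 := continuous_sigma C.cont
  exact (h.isClosedMap.isQuotientMap h fun x =>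
    have ⟨i, u, e⟩ := C.cov x; ⟨⟨i, u⟩, e⟩).locallyPathConnectedSpace

section
variable {Y Y' : Type} [TopologicalSpace Y] [TopologicalSpace Y']

def Pc (f : C(Q, Y)) : Prop := ∀ y y', bd y → bd y' → f y = f y'

theorem hw {f g : C(Q, Y)} : f.HomotopicWith g Pc ↔ ∃ G : I × Q → Y, Continuous G ∧ Cb G ∧
    (∀ y, G (0, y) = f y) ∧ ∀ y, G (1, y) = g y :=
  ⟨fun ⟨H⟩ => ⟨H, H.continuous, H.prop', H.apply_zero, H.apply_one⟩,
    fun ⟨G, a, b, c, d⟩ => ⟨⟨⟨⟨G, a⟩, c, d⟩, b⟩⟩⟩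

variable [T2Space Y] [CWComplex (univ : Set Y)] [RelCWComplex.FiniteType (univ : Set Y)]

theorem sph_fin (g : C(Q, Y)) (hg : Pc g) :
    ∃ g' : C(Q, Y), g.HomotopicWith g' Pc ∧ ∀ y, g' y ∈ skel Y 2 := by
  obtain ⟨p, ⟨F⟩, hp⟩ := cellApprox (d := 0) (.const _ (g fun _ => 0)) ∅ fun _ h => h.elim
  let H : I × Q → Y := fun z => if ‖wt z.2‖ ≤ 1 - (z.1 : ℝ) / 2 then g (eta z.1 z.2) else
    F (pj (2 * ‖wt z.2‖ - 2 + z.1), 0)
  have := @cont_wt 2
  have cH : Continuous H :=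
    Continuous.if_le (by fun_prop) (by fun_prop) (by fun_prop) (by fun_prop) fun z e => by
      rw [hg _ _ (bd_eta e.ge) bd0, e, pj_le (by linarith), F.apply_zero]; rfl
  have bH : ∀ t y, bd y → H (t, y) = F (t, 0) := fun t y hy => by
    simp only [H, (bd_iff y).1 hy]
    split_ifs with c
    · rw [eta_bd _ hy, hg _ _ hy bd0, show t = 0 from Subtype.ext (by
        have := t.2.1; change (t : ℝ) = 0; linarith), F.apply_zero]; rfl
    · norm_num
  obtain ⟨g', ⟨F'⟩, h⟩ := cellApprox (⟨fun y => H (1, y), by fun_prop⟩ : C(Q, Y)) {y | bd y}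
    fun y hy => by
      obtain ⟨i, a, b⟩ := mem_skel.1 (hp 0)
      exact mem_skel.2 ⟨i, by omega, by simpa [bH 1 y hy] using b⟩
  refine ⟨g', (hw.2 ⟨H, cH, fun t y y' a b => by rw [bH t y a, bH t y' b],
    fun y => by simp [H, wt_le, eta_zero], fun _ => rfl⟩).trans (hw.2 ⟨F', F'.continuous,
    fun t y y' a b => ?_, F'.apply_zero, F'.apply_one⟩), h⟩
  rw [F'.eq_fst t a, F'.eq_fst t b]
  exact (bH 1 y a).trans (bH 1 y' b).symm

theorem loop_fin {x : Y} (hx : x ∈ skel Y 1) (γ : Path x x) :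
    ∃ γ' : Path x x, γ.Homotopic γ' ∧ ∀ t, γ' t ∈ skel Y 1 := by
  obtain ⟨g, ⟨F⟩, h⟩ := cellApprox (⟨fun u => γ (u 0), by fun_prop⟩ : C(Fin 1 → I, Y))
    {u | u 0 = 0 ∨ u 0 = 1} fun u hu => by rcases hu with e | e <;> simpa [e] using hx
  refine ⟨⟨⟨fun t => g fun _ => t, by fun_prop⟩, (F.fst_eq_snd (Or.inl rfl)).symm.trans γ.source,
    (F.fst_eq_snd (Or.inr rfl)).symm.trans γ.target⟩, ⟨⟨⟨⟨fun z => F (z.1, fun _ => z.2),
      by fun_prop⟩, fun t => F.apply_zero _, fun t => F.apply_one _⟩, fun t s hs =>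
      F.eq_fst t hs⟩⟩, fun t => h _⟩

end

variable {Z : C(V1, V1)} (z1 : ∀ x, Z (iB DK t1 x) = iB DK t1 x)
  (z2 : ∀ j z, Z (PV DK t1 j z) = PV DK t1 j (z.1, xi (2 ^ 3) z.2))

def x0 (Z : C(V1, V1)) : T Z := mk Z (iB DK t1 (DK.c (0, 0), 0)) 0

include z1 z2

theorem Z_cell (j : cV.ι) (v : ℕ → I) : cV.Sk (cV.d j) (Z (cV.Φ j v)) := by
  rcases j with j | j
  · exact ⟨.inl j, v, le_rfl, (z1 _).symm⟩
  · refine ⟨.inr j, update v 0 (pj (Int.fract (2 ^ 3 * v 0))), le_rfl, Eq.trans ?_ (z2 _ _).symm⟩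
    have : ![pj (Int.fract (2 ^ 3 * v 0)), v 1] = xi (2 ^ 3) ![v 0, v 1] := by
      ext i; fin_cases i <;> rfl
    obtain ⟨_ | _, _ | _⟩ := j <;> simp [cV, al, be, ← this]

theorem cwX : ∃ _ : CWComplex (univ : Set (T Z)), RelCWComplex.Finite (univ : Set (T Z)) ∧
    x0 Z ∈ skel (T Z) 1 ∧ (∀ x ∈ skel (T Z) 1, ∃ b s, x = mk Z (iB DK t1 b) s) ∧
    LocallyPathConnectedSpace (T Z) := by
  obtain ⟨c, h1, h2⟩ := (cV.tor Z (Z_cell z1 z2)).cw
  refine ⟨c, h1, (h2 _ _).2 ⟨.inl (.inl (.inl (.inl (.inl (.inl ()))))), 0, zero_le_one, rfl⟩,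
    fun x hx => ?_, (cV.tor Z (Z_cell z1 z2)).lpc⟩
  obtain ⟨(j | j) | j | j, v, h, rfl⟩ := (h2 _ _).1 hx
  · exact ⟨_, _, rfl⟩
  · exact absurd (show dV j ≤ 1 from h) (by unfold dV; omega)
  · exact ⟨_, _, rfl⟩
  · exact absurd (show dV j + 1 ≤ 1 from h) (by unfold dV; omega)

omit z1 z2 in
theorem Z_fst {J : Type} {τ : J → S1} {Z : C(V DK τ, V DK τ)} (z1 : ∀ x, Z (iB DK τ x) = iB DK τ x)
    (z2 : ∀ j z, Z (PV DK τ j z) = PV DK τ j (z.1, xi (2 ^ 3) z.2)) (v : V DK τ) :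
    (Z v).1.1 = v.1.1 := by
  obtain ⟨x | x, rfl⟩ := qV_surj DK τ v
  exacts [congrArg (·.1.1) (z1 x), congrArg (·.1.1) (z2 _ _)]

theorem exA : ∃ (c : T Z → S1) (A : S1 × T Z → T Z), Continuous c ∧ Continuous A ∧
    (∀ v s, c (mk Z v s) = v.1.1.2) ∧
    ∀ a v s, A (a, mk Z v s) = mk Z (iB DK t1 (v.1.1.1, a)) s := by
  refine ⟨lift (fun v _ => v.1.1.2) fun v => by rw [Z_fst z1 z2],
    fun z => lift (fun v s => mk Z (iB DK t1 (v.1.1.1, z.1)) s)
      (fun v => by rw [mk_one, z1, Z_fst z1 z2]) z.2,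
    cont_T (show Continuous fun z : V1 × I => z.1.1.1.2 by fun_prop), cont_T' ?_,
    fun _ _ => rfl, fun _ _ _ => rfl⟩
  exact show Continuous fun z : S1 × V1 × I => mk Z (iB DK t1 (z.2.1.1.1.1, z.1)) z.2.2 by fun_prop

omit z1 z2 in
instance : PathConnectedSpace (T Z) := by
  have a : ∀ v : V1, ∃ b, Joined v (iB DK t1 b) := fun v => by
    obtain ⟨x | ⟨j, p, y⟩, rfl⟩ := qV_surj DK t1 v
    · exact ⟨x, .refl _⟩
    · have := (PathConnectedSpace.joined y fun _ => 0).map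
        (f := fun y => PV DK t1 j ((p.1, p.2), y)) ((adm_PV DK t1 j).1.comp
          (f := fun y => (0, ((p.1 : ℝ), (p.2 : ℝ)), y)) (by fun_prop))
      rw [show PV DK t1 j (_, fun _ => 0) = _ from (adm_PV DK t1 j).2.1 0 _ _ bd0] at this
      exact ⟨_, this⟩
  have : PathConnectedSpace V1 := ⟨⟨iB DK t1 (mK 0, 0)⟩, fun x y => by
    obtain ⟨b, h⟩ := a x
    obtain ⟨b', h'⟩ := a y
    exact (h.trans ((PathConnectedSpace.joined b b').map (iB DK t1).continuous)).trans h'.symm⟩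
  exact (qm Z).surjective.pathConnectedSpace (qm Z).continuous

theorem not_dom {c : T Z → S1} (hc : Continuous c) (c1 : ∀ v s, c (mk Z v s) = v.1.1.2)
    {Y : Type} [TopologicalSpace Y] [T2Space Y] [CWComplex (univ : Set Y)]
    [RelCWComplex.FiniteType (univ : Set Y)] (i : C(Pb c ((↑) : ℝ → S1), Y))
    (r : C(Y, Pb c ((↑) : ℝ → S1))) : ¬(r.comp i).Homotopic (.id _) := by
  rintro ⟨H⟩
  obtain ⟨_, A, -, a1, -, a2⟩ := exA z1 z2
  obtain ⟨M, hM⟩ := ((skel_cpt (K := Y) 2).image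
    (show Continuous fun y => (r y).1.2 by fun_prop)).bddAbove
  have cP : Continuous fun y => PV DK t1 () ((0, 0), y) :=
    (adm_PV DK t1 ()).1.comp (f := fun y => (0, (0, 0), y)) (by fun_prop)
  let g : C(Q, Pb c ((↑) : ℝ → S1)) := ⟨fun y => ⟨(mk Z (PV DK t1 () ((0, 0), y)) 0, ⌈M⌉ + 1),
    (c1 _ _).trans (coe_eq_zero.2 ⟨⌈M⌉ + 1, by simp⟩).symm⟩, by fun_prop⟩
  have hg : Pc g := fun y y' a b => Subtype.ext (by
    simp only [g, coe_mk, (adm_PV DK t1 ()).2.1 0 _ _ a, (adm_PV DK t1 ()).2.1 0 _ _ b])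
  obtain ⟨g', h1, h2⟩ := sph_fin (i.comp g) fun y y' a b => congrArg i (hg y y' a b)
  obtain ⟨G, b1, b2, b3, b4⟩ := hw.1 h1
  obtain ⟨G, b1, b2, b3, b4⟩ := hw.1 ((hw.2 ⟨fun z => H (σ z.1, g z.2), by fun_prop,
    fun t y y' a b => by simp only [hg y y' a b], fun y => by simp, fun y => by simp⟩ :
      g.HomotopicWith ((r.comp i).comp g) Pc).trans (h := r.comp g') (hw.2 ⟨fun z => r (G z),
    by fun_prop, fun t y y' a b => by simp only [b2 t y y' a b], fun y => by simp [b3],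
    fun y => by simp [b4]⟩))
  have hM' := Int.le_ceil M
  refine detect z1 z2 (fun z => if (⌈M⌉ + 1 / 2 : ℝ) ≤ (G z).1.2 then (G z).1.1 else
    A (c (G z).1.1, (G z).1.1)) (Continuous.if_le (by fun_prop) (by fun_prop) continuous_const
      (by fun_prop) fun z e => ?_) (fun t y y' a b => by simp only [b2 t y y' a b])
    (fun y => ?_) fun y => ?_
  · have := (G z).2
    obtain ⟨v, s, h⟩ := mk_surj Z (G z).1.1
    rw [← h, ← e, c1] at this
    rw [← h, a2, c1]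
    obtain ⟨x | x, rfl⟩ := qV_surj DK t1 v
    · rfl
    · rw [AddCircle.coe_add, (coe_eq_zero (a := ⌈M⌉)).2 ⟨_, rfl⟩, zero_add] at this
      exact absurd this.symm half_ne
  · rw [b3, if_pos (by simp only [g, coe_mk]; linarith)]; rfl
  · have := hM ⟨_, h2 y, rfl⟩
    obtain ⟨v, s, h⟩ := mk_surj Z (G (1, y)).1.1
    rw [if_neg (by rw [b4]; exact not_le.2 (this.trans_lt (by linarith))), ← h, a2]
    exact ⟨_, _, rfl⟩

end Pool.Agent.H74.SC
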