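import Mathlib
import Pool.Agent.H74.SC15

set_option autoImplicit false

noncomputable section

namespace Pool.Agent.H74.SC

open unitInterval Set Topology Function KP ContinuousMap FundamentalGroup

section
variable {X Y : Type} [TopologicalSpace X] [TopologicalSpace Y] {x : X} {y : Y}

abbrev cls (γ : Path x x) : FundamentalGroup X x := fromPath (Quotient.mk _ γ)

theorem cls_surj (g : FundamentalGroup X x) : ∃ γ, cls γ = g := by
  obtain ⟨γ⟩ := g; exact ⟨γ, rfl⟩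

theorem cls_eq {γ γ' : Path x x} : cls γ = cls γ' ↔ γ.Homotopic γ' := Quotient.eq

def pmp (f : C(X, Y)) (h : f x = y) (γ : Path x x) : Path y y :=
  (γ.map f.continuous).cast h.symm h.symm

theorem map_cls (f : C(X, Y)) (h : f x = y) (γ : Path x x) :
    mapOfEq f h (cls γ) = cls (pmp f h γ) := mapOfEq_apply _ _ _

theorem rng (f : C(X, Y)) (h : f x = y) {P : FundamentalGroup Y y → Prop}
    (hP : ∀ γ : Path y y, (∃ γ' : Path x x, ∀ s, f (γ' s) = γ s) ↔ P (cls γ))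
    (g : FundamentalGroup Y y) : g ∈ (mapOfEq f h).range ↔ P g := by
  constructor
  · rintro ⟨g, rfl⟩
    obtain ⟨γ, rfl⟩ := cls_surj g
    rw [map_cls]
    exact (hP _).1 ⟨γ, fun _ => rfl⟩
  · obtain ⟨γ, rfl⟩ := cls_surj g
    intro a
    obtain ⟨γ', e⟩ := (hP γ).2 a
    exact ⟨cls γ', (map_cls _ _ _).trans (congrArg cls (Path.ext (funext e)))⟩

theorem full (h : X ≃ₕ Y) (δ : Path (h x) (h x)) :
    ∃ γ : Path x x, (γ.map h.toFun.continuous).Homotopic δ := by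
  have : (FundamentalGroupoid.map h.toFun).Full :=
    (FundamentalGroupoidFunctor.equivOfHomotopyEquiv h).full_functor
  obtain ⟨⟨γ⟩, e⟩ := this.map_surjective (X := .mk x) (Y := .mk x) (cls δ)
  exact ⟨γ, Quotient.exact e⟩

end

theorem two_zero {t : S1} (h : 2 • t = 0) : ∃ j, t2 j = t := by
  obtain ⟨a, rfl⟩ : ∃ a : ℝ, (a : S1) = t := QuotientAddGroup.mk_surjective _
  obtain ⟨n, e⟩ := coe_eq_zero.1 ((two_coe a).symm.trans h)
  obtain ⟨k, rfl | rfl⟩ := n.even_or_odd'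
  · exact ⟨false, (coe_eq_zero.2 ⟨k, by push_cast at e; linarith⟩).symm⟩
  · exact ⟨true, coe_eq.2 ⟨-k, by push_cast at e ⊢; linarith⟩⟩

theorem two_t2 (j : Bool) : 2 • t2 j = 0 := by
  cases j
  · exact smul_zero _
  · exact (two_coe _).trans (coe_eq_zero.2 ⟨1, by norm_num⟩)

theorem deg2 {X : Type} (c : X → S1) (x : X) :
    ((fun z : Pb c fun t : S1 => 2 • t => z.1.1) ⁻¹' {x}).ncard = 2 := by
  obtain ⟨a, e⟩ : ∃ a : ℝ, (a : S1) = c x := QuotientAddGroup.mk_surjective _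
  have e' : 2 • ((a / 2 : ℝ) : S1) = c x := by rw [two_coe, ← e]; congr 1; ring
  let f : Bool → Pb c fun t : S1 => 2 • t := fun j =>
    ⟨(x, (a / 2 : ℝ) + t2 j), by simp only [smul_add, e', two_t2, add_zero]⟩
  have : (fun z : Pb c fun t : S1 => 2 • t => z.1.1) ⁻¹' {x} = range f := by
    ext ⟨⟨y, t⟩, h⟩
    refine ⟨?_, fun ⟨j, e⟩ => e ▸ rfl⟩
    rintro (rfl : y = x)
    obtain ⟨j, h'⟩ := two_zero (t := t - (a / 2 : ℝ)) (by rw [smul_sub, e', sub_eq_zero]; exact h.symm)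
    exact ⟨j, Subtype.ext (Prod.ext rfl (by simp [f, h']))⟩
  rw [this, ncard_range_of_injective fun i j h => t2_inj (add_left_cancel (congrArg (·.1.2) h))]
  simp

def qq : C(V DK t2, V1) := ⟨fun v => ⟨((v.1.1.1, 2 • v.1.1.2), v.1.2), v.2.imp_right
  fun ⟨j, p, y, h⟩ => ⟨(), p, y, by rw [h]; simp only [two_t2, t1]⟩⟩, by fun_prop⟩

theorem qq_inj {v w : V DK t2} (h : qq v = qq w) (h' : v.1.1.2 = w.1.1.2) : v = w :=
  Subtype.ext (Prod.ext (Prod.ext (congrArg (·.1.1.1) h) h') (congrArg (·.1.2) h))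

variable {Z : C(V1, V1)} (z1 : ∀ x, Z (iB DK t1 x) = iB DK t1 x)
  (z2 : ∀ j z, Z (PV DK t1 j z) = PV DK t1 j (z.1, xi (2 ^ 3) z.2))
  {c : T Z → S1} (hc : Continuous c) (c1 : ∀ v s, c (mk Z v s) = v.1.1.2)

include z1 z2 hc c1

theorem exH : ∃ h : T Z ≃ₕ Pb c fun t : S1 => 2 • t, (h (x0 Z)).1 = (x0 Z, 0) ∧
    ∀ b s, (h (mk Z (iB DK t1 b) s)).1.2 = b.2 := by
  obtain ⟨W, w1, w2⟩ := exZ DK t2_inj
  obtain ⟨u, v, u1, -, ⟨H, h1⟩, H', h2⟩ := shift DK z1 z2 w1 w2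
  obtain ⟨h, h3⟩ := shiftT u1 H h1 H' h2
  have a : ∀ j z, qq (PV DK t2 j z) = PV DK t1 () z := fun j z =>
    Subtype.ext (Prod.ext (Prod.ext rfl (two_t2 j)) rfl)
  have b : ∀ v, qq (W v) = Z (qq v) := fun v => by
    obtain ⟨x | x, rfl⟩ := qV_surj DK t2 v
    · exact (congrArg qq (w1 x)).trans (z1 (x.1, 2 • x.2)).symm
    · simp only [qV, Sum.elim_inr, w2, a, z2]
  have d := fun v => congrArg Prod.snd (Z_fst w1 w2 v)
  let Φ : T W → Pb c fun t : S1 => 2 • t :=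
    lift (fun v s => ⟨(mk Z (qq v) s, v.1.1.2), c1 _ _⟩) fun v =>
      Subtype.ext (Prod.ext (by simp only [mk_one, b]) (d v).symm)
  have cΦ : Continuous Φ := cont_T (Continuous.subtype_mk
    (show Continuous fun z : V DK t2 × I => (mk Z (qq z.1) z.2, z.1.1.1.2) by fun_prop) _)
  have bΦ : Bijective Φ := ⟨fun x y e => by
      obtain ⟨v, s, rfl⟩ := mk_surj W x
      obtain ⟨w, t, rfl⟩ := mk_surj W y
      have e2 : v.1.1.2 = w.1.1.2 := congrArg (·.1.2) e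
      refine mk_eq.2 ((mk_eq.1 (congrArg (·.1.1) e)).imp (And.imp_left (qq_inj · e2))
        (Or.imp ?_ (Or.imp ?_ ?_))) <;> refine And.imp_right (And.imp_right fun f => qq_inj ?_ ?_) <;>
        simp only [b, d, e2] <;> exact f,
    fun ⟨⟨x, t⟩, e⟩ => by
      obtain ⟨v, s, rfl⟩ := mk_surj Z x
      have e : v.1.1.2 = 2 • t := (c1 v s).symm.trans e
      refine ⟨mk W ⟨((v.1.1.1, t), v.1.2), v.2.imp_right ?_⟩ s,
        Subtype.ext (Prod.ext (congrArg (mk Z · s) (Subtype.ext ?_)) rfl)⟩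
      · rintro ⟨_, p, y, h⟩
        obtain ⟨j, rfl⟩ := two_zero (e.symm.trans (congrArg (·.1.2) h))
        exact ⟨j, p, y, by rw [h]⟩
      · simp only [qq, coe_mk, ← e]⟩
  refine ⟨h.trans (cΦ.homeoOfEquivCompactToT2 (f := .ofBijective Φ bΦ)).toHomotopyEquiv, ?_,
    fun b s => ?_⟩
  · refine (congrArg (fun x => (Φ x).1) (h3 _).2).trans (Prod.ext (congrArg (mk Z · 0) ?_) rfl)
    exact Subtype.ext (Prod.ext (Prod.ext rfl (smul_zero _)) rfl)
  · obtain ⟨s', e⟩ := (h3 b).1 s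
    exact congrArg (fun x => (Φ x).1.2) e

end Pool.Agent.H74.SC
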