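import Mathlib
import Pool.Agent.H74.SC16

set_option autoImplicit false

noncomputable section

namespace Pool.Agent.H74.SC

open unitInterval Set Topology Function KP ContinuousMap FundamentalGroup

theorem main : ∃ (X : Type) (_ : TopologicalSpace X) (_ : T2Space X) (_ : CWComplex (univ : Set X))
    (x₀ : X) (φ : FundamentalGroup X x₀ →* Multiplicative ℤ) (X₂ : Type) (_ : TopologicalSpace X₂)
    (p : C(X₂, X)) (h : X ≃ₕ X₂) (hp : p (h x₀) = x₀) (X' : Type) (_ : TopologicalSpace X')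
    (q : C(X', X)) (x' : X'), q x' = x₀ ∧
    RelCWComplex.Finite (univ : Set X) ∧ PathConnectedSpace X ∧ PathConnectedSpace X₂ ∧
    PathConnectedSpace X' ∧ Surjective φ ∧ Group.IsFinitelyPresented φ.ker ∧ IsCoveringMap p ∧
    IsCoveringMap q ∧ (∀ x, (p ⁻¹' {x}).ncard = 2) ∧
    (∀ γ : Path x₀ x₀, (∃ γ' : Path (h x₀) (h x₀), ∀ s, p (γ' s) = γ s) ↔ 2 ∣ (φ (cls γ)).toAdd) ∧
    (∀ γ : Path x₀ x₀, (∃ γ' : Path x' x', ∀ s, q (γ' s) = γ s) ↔ φ (cls γ) = 1) ∧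
    (∀ g, (φ (mapOfEq (p.comp h.toFun) hp g)).toAdd = 2 * (φ g).toAdd) ∧
    ∀ (Y : Type) [TopologicalSpace Y] [T2Space Y] [CWComplex (univ : Set Y)]
      [RelCWComplex.FiniteType (univ : Set Y)] (i : C(X', Y)) (r : C(Y, X')),
      ¬(r.comp i).Homotopic (.id _) := by
  obtain ⟨Z, z1, z2⟩ := exZ DK t1_inj
  obtain ⟨c, A, hc, hA, c1, a1⟩ := exA z1 z2
  obtain ⟨cw, f1, f2, f3, f4⟩ := cwX z1 z2
  obtain ⟨h, h1, h2⟩ := exH z1 z2 hc c1
  obtain ⟨φ, hφ⟩ := wind c hc (x0 Z)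
  have c0 : c (x0 Z) = 0 := c1 _ _
  have cA : ∀ a x, c (A (a, x)) = a := fun a x => by
    obtain ⟨v, s, rfl⟩ := mk_surj Z x
    rw [a1, c1]; rfl
  have A0 : ∀ n : ℤ, A ((n : ℝ), x0 Z) = x0 Z := fun n => by
    rw [coe_eq_zero.2 ⟨n, rfl⟩]; exact a1 _ _ _
  have lf : ∀ γ : Path (x0 Z) (x0 Z), ∃ s : I → ℝ, Continuous s ∧ (∀ t, c (γ t) = s t) ∧
      s 0 = 0 ∧ s 1 = (φ (cls γ)).toAdd := fun γ => by
    obtain ⟨s, a, b, d⟩ := exists_lift (fun t => c (γ t)) (by fun_prop) 0 (by simpa using c0)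
    exact ⟨s, a, b, d, by rw [hφ γ s a b, d, sub_zero]⟩
  have lB : ∀ g, ∃ γ : Path (x0 Z) (x0 Z), cls γ = g ∧ ∀ t, ∃ b s, γ t = mk Z (iB DK t1 b) s :=
    fun g => by
      obtain ⟨γ, rfl⟩ := cls_surj g
      obtain ⟨γ', a, b⟩ := loop_fin f2 γ
      exact ⟨γ', cls_eq.2 a.symm, fun t => f3 _ (b t)⟩
  have q1 := pb_cov hc (AddCircle.isCoveringMap_coe (1 : ℝ))
  have pc : PathConnectedSpace (Pb c ((↑) : ℝ → S1)) := by
    let sc : ℝ → Pb c ((↑) : ℝ → S1) := fun r => ⟨(A (r, x0 Z), r), cA _ _⟩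
    have a : ∀ e, Joined e (sc 0) := fun e => by
      obtain ⟨Γ, a, b⟩ := q1.exists_path_lifts
        (PathConnectedSpace.somePath e.1.1 (x0 Z)).toContinuousMap e (by simp)
      have d : (Γ 1).1.1 = x0 Z := (congrFun a 1).trans (Path.target _)
      obtain ⟨n, hn⟩ := coe_eq_zero.1 ((Γ 1).2.symm.trans ((congrArg c d).trans c0))
      exact Joined.trans ⟨⟨Γ, b, Subtype.ext (Prod.ext (d.trans (A0 n).symm) hn.symm)⟩⟩
        ((PathConnectedSpace.joined (n : ℝ) 0).map (f := sc) (by fun_prop))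
    exact ⟨⟨sc 0⟩, fun x y => (a x).trans (a y).symm⟩
  have hf : ∀ a : ℝ, 2 • ((a / 2 : ℝ) : S1) = a := fun a => by rw [two_coe]; congr 1; ring
  refine ⟨T Z, inferInstance, inferInstance, cw, x0 Z, φ, _, inferInstance,
    ⟨fun z => z.1.1, by fun_prop⟩, h, congrArg Prod.fst h1, _, inferInstance,
    ⟨fun z : Pb c ((↑) : ℝ → S1) => z.1.1, by fun_prop⟩, ⟨(x0 Z, 0), c0⟩, rfl, f1, inferInstance,
    ?_, pc, fun n => ?_, ?_,
    pb_cov hc (AddCircle.isAddQuotientCoveringMap_nsmul_of_ne_zero (1 : ℝ) 2).isCoveringMap, q1,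
    deg2 c, fun γ => ⟨?_, ?_⟩, fun γ => ⟨?_, fun e => ?_⟩, fun g => ?_,
    fun Y _ _ _ _ => not_dom z1 z2 hc c1⟩
  · refine Surjective.pathConnectedSpace (f := fun z : Pb c ((↑) : ℝ → S1) =>
      ⟨(z.1.1, (z.1.2 / 2 : ℝ)), z.2.trans (hf _).symm⟩) ?_ (by fun_prop)
    rintro ⟨⟨x, t⟩, e⟩
    obtain ⟨a, rfl⟩ : ∃ a : ℝ, (a : S1) = t := QuotientAddGroup.mk_surjective _
    exact ⟨⟨(x, 2 * a), e.trans (two_coe a)⟩, by simp⟩
  · refine ⟨cls ⟨⟨fun t => A (((n.toAdd * t : ℝ) : S1), x0 Z), by fun_prop⟩, by simpa using A0 0,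
      by simpa using A0 n.toAdd⟩, Multiplicative.toAdd.injective (Int.cast_injective (α := ℝ) ?_)⟩
    exact (hφ _ (fun t => n.toAdd * t) (by fun_prop) fun t => cA _ _).trans (by simp)
  · have := fp_pi1 (x0 Z)
    let r : C(T Z, T Z) := ⟨fun x => A (0, x), by fun_prop⟩
    have r0 : r (x0 Z) = x0 Z := a1 _ _ _
    refine retract_fp ((mapOfEq r r0).codRestrict _ fun g => ?_) φ.ker.subtype fun g => ?_
    · obtain ⟨γ, rfl⟩ := cls_surj g
      rw [map_cls]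
      simpa using hφ (pmp r r0 γ) (fun _ => 0) continuous_const fun t => cA _ _
    · obtain ⟨g, hg⟩ := g
      obtain ⟨γ, rfl, b⟩ := lB g
      obtain ⟨s, s1, s2, s3, s4⟩ := lf γ
      rw [MonoidHom.mem_ker.1 hg] at s4
      refine Subtype.ext ((map_cls _ _ _).trans (cls_eq.2 ⟨⟨⟨⟨fun z => A ((z.1 * s z.2 : ℝ), γ z.2),
        by fun_prop⟩, fun t => by simp [pmp, r], fun t => ?_⟩, fun u t ht => ?_⟩⟩))
      · obtain ⟨b, u, e⟩ := b t
        simp only [Icc.coe_one, one_mul, ← s2, Path.coe_toContinuousMap, e, a1, c1]; rfl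
      · rcases ht with rfl | rfl <;> simpa [s3, s4, pmp, r] using r0
  · rintro ⟨γ', e⟩
    obtain ⟨s, a, b, d⟩ := exists_lift (fun t => (γ' t).1.2) (by fun_prop) 0 (by simp [h1])
    obtain ⟨n, hn⟩ := coe_eq_zero.1 ((b 1).symm.trans (by simp [h1]))
    refine ⟨n, Int.cast_injective (α := ℝ) ?_⟩
    rw [hφ γ (fun t => 2 * s t) (by fun_prop) fun t => by
      rw [← e, ← two_coe, ← b]; exact (γ' t).2, d, ← hn]
    simp
  · rintro ⟨n, hn⟩
    obtain ⟨s, s1, s2, s3, s4⟩ := lf γ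
    rw [hn] at s4
    refine ⟨⟨⟨fun t => ⟨(γ t, (s t / 2 : ℝ)), (s2 t).trans (hf _).symm⟩, by fun_prop⟩,
      Subtype.ext ?_, Subtype.ext ?_⟩, fun _ => rfl⟩
    · simp [h1, s3]
    · simp [h1, s4]
  · rintro ⟨γ', e⟩
    simpa using hφ γ (fun t => (γ' t).1.2) (by fun_prop) fun t => by rw [← e]; exact (γ' t).2
  · obtain ⟨s, s1, s2, s3, s4⟩ := lf γ
    rw [e] at s4
    exact ⟨⟨⟨fun t => ⟨(γ t, s t), s2 t⟩, by fun_prop⟩, Subtype.ext (by simp [s3]),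
      Subtype.ext (by simp [s4])⟩, fun _ => rfl⟩
  · obtain ⟨γ, rfl, b⟩ := lB g
    obtain ⟨s, s1, s2, s3, s4⟩ := lf γ
    refine Int.cast_injective (α := ℝ) ?_
    rw [map_cls, hφ _ (fun t => 2 * s t) (by fun_prop) fun t => ?_, s3, s4]
    · simp
    · obtain ⟨b, u, e⟩ := b t
      rw [← two_coe, ← s2, e, c1]
      exact (h (γ t)).2.trans (by rw [e, h2]; rfl)

end Pool.Agent.H74.SC
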