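import Mathlib
import Pool.Agent.H74.SC17

set_option autoImplicit false

noncomputable section

namespace Pool.Agent.H74.SC

open Set Topology Function ContinuousMap FundamentalGroup

theorem ker_map {X X₂ : Type} [TopologicalSpace X] [TopologicalSpace X₂] {x₀ : X}
    (φ : FundamentalGroup X x₀ →* Multiplicative ℤ) (p : C(X₂, X)) (h : X ≃ₕ X₂)
    (hp : p (h x₀) = x₀)
    (a : ∀ γ : Path x₀ x₀, (∃ γ' : Path (h x₀) (h x₀), ∀ s, p (γ' s) = γ s) ↔ 2 ∣ (φ (cls γ)).toAdd)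
    (b : ∀ g, (φ (mapOfEq (p.comp h.toFun) hp g)).toAdd = 2 * (φ g).toAdd) :
    φ.ker.map (mapOfEq (p.comp h.toFun) hp) = φ.ker := by
  ext g
  simp only [Subgroup.mem_map, MonoidHom.mem_ker, ← toAdd_eq_zero]
  constructor
  · rintro ⟨g, e, rfl⟩
    rw [b, e, mul_zero]
  · intro e
    obtain ⟨γ, rfl⟩ := cls_surj g
    obtain ⟨δ, c⟩ := (a γ).2 (e ▸ dvd_zero 2)
    obtain ⟨γ', d⟩ := full h δ
    have f := congrArg (mapOfEq p hp) (cls_eq.2 d)
    rw [map_cls, map_cls, show pmp p hp δ = γ from Path.ext (funext c)] at f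
    have f : mapOfEq (p.comp h.toFun) hp (cls γ') = cls γ := (map_cls _ _ _).trans f
    have := b (cls γ')
    rw [f, e] at this
    exact ⟨_, by omega, f⟩

theorem ker_inf {G : Type} [Group G] (φ : G →* Multiplicative ℤ) (Φ : Monoid.End G)
    (a : φ.ker.map Φ = φ.ker) (b : ∀ g, (φ (Φ g)).toAdd = 2 * (φ g).toAdd) :
    φ.ker = ⨅ k ≥ 1, MonoidHom.range (Φ ^ k : Monoid.End G) := by
  ext g
  simp only [Subgroup.mem_iInf, MonoidHom.mem_range]
  constructor
  · intro h k _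
    suffices ∃ x ∈ φ.ker, (Φ ^ k) x = g from this.imp fun _ => And.right
    clear * - a h
    induction k with
    | zero => exact ⟨g, h, rfl⟩
    | succ k ih =>
      obtain ⟨x, c, rfl⟩ := ih
      obtain ⟨y, d, rfl⟩ := a.ge c
      exact ⟨y, d, by rw [pow_succ]; rfl⟩
  · intro h
    have key : ∀ (k : ℕ) x, (φ ((Φ ^ k) x)).toAdd = 2 ^ k * (φ x).toAdd := fun k x => by
      induction k with
      | zero => simp
      | succ k ih => rw [pow_succ', Monoid.End.coe_mul, comp_apply, b, ih]; ring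
    rw [MonoidHom.mem_ker, ← toAdd_eq_zero]
    generalize hn : (φ g).toAdd = n
    obtain ⟨x, rfl⟩ := h (n.natAbs + 1) (by omega)
    refine Int.eq_zero_of_dvd_of_natAbs_lt_natAbs ⟨_, hn.symm.trans (key _ x)⟩ ?_
    rw [Int.natAbs_pow]
    exact (Nat.lt_succ_self _).trans (Nat.lt_pow_self (by norm_num))

end Pool.Agent.H74.SC
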