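import Mathlib

set_option autoImplicit false

namespace Pool.Agent.H74.Shuf

open Classical

/-- The shuffle algebra on the alphabet `Y`; the head of a list is the latest letter. -/
def Sh (Y : Type) : Type := List Y →₀ ℚ

variable {Y X : Type}

noncomputable instance : AddCommGroup (Sh Y) := inferInstanceAs (AddCommGroup (List Y →₀ ℚ))
noncomputable instance : Module ℚ (Sh Y) := inferInstanceAs (Module ℚ (List Y →₀ ℚ))

/-- coefficient of a word -/
noncomputable def co (w : List Y) : Sh Y →ₗ[ℚ] ℚ := Finsupp.lapply w
/-- a word -/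
noncomputable def wd (w : List Y) : Sh Y := Finsupp.single w (1 : ℚ)
/-- prepend a letter -/
noncomputable def I (a : Y) : Sh Y →ₗ[ℚ] Sh Y := Finsupp.lmapDomain ℚ ℚ (List.cons a)
/-- remove a first letter -/
noncomputable def D (a : Y) : Sh Y →ₗ[ℚ] Sh Y :=
  Finsupp.lcomapDomain (List.cons a) (List.cons_injective)
/-- linear extension -/
noncomputable def onW {M : Type} [AddCommGroup M] [Module ℚ M] (f : List Y → M) :
    Sh Y →ₗ[ℚ] M := Finsupp.linearCombination ℚ f

theorem co_ext {x y : Sh Y} (h : ∀ w, co w x = co w y) : x = y := Finsupp.ext h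

@[simp] theorem onW_wd {M : Type} [AddCommGroup M] [Module ℚ M] (f : List Y → M) (w : List Y) :
    onW f (wd w) = f w := by
  have := Finsupp.linearCombination_single ℚ (v := f) (1 : ℚ) w
  rw [one_smul] at this
  exact this

theorem co_wd (w v : List Y) : co w (wd v) = if v = w then 1 else 0 := by
  show (Finsupp.single v (1 : ℚ)) w = _
  rw [Finsupp.single_apply]

theorem co_D (a : Y) (w : List Y) (x : Sh Y) : co w (D a x) = co (a :: w) x := rfl

theorem I_wd (a : Y) (w : List Y) : I a (wd w) = wd (a :: w) := Finsupp.mapDomain_single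

theorem ind {P : Sh Y → Prop} (x : Sh Y) (h0 : P 0) (hadd : ∀ x y, P x → P y → P (x + y))
    (hs : ∀ (c : ℚ) (w : List Y), P (c • wd w)) : P x := by
  induction x using Finsupp.induction_linear with
  | zero => exact h0
  | add f g hf hg => exact hadd f g hf hg
  | single w c =>
    have := hs c w
    have e : c • wd w = (Finsupp.single w c : List Y →₀ ℚ) := by
      show c • (Finsupp.single w (1 : ℚ)) = _
      rw [Finsupp.smul_single, smul_eq_mul, mul_one]
    rw [e] at this
    exact this

theorem lext {M : Type} [AddCommGroup M] [Module ℚ M] {f g : Sh Y →ₗ[ℚ] M}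
    (h : ∀ w, f (wd w) = g (wd w)) : f = g := by
  apply LinearMap.ext
  intro x
  induction x using ind with
  | h0 => simp
  | hadd x y hx hy => simp [hx, hy]
  | hs c w => simp [h]

theorem mem_of_wd {M : Type} [AddCommGroup M] [Module ℚ M] (f : Sh Y →ₗ[ℚ] M) (S : Submodule ℚ M)
    (h : ∀ w, f (wd w) ∈ S) (x : Sh Y) : f x ∈ S := by
  induction x using ind with
  | h0 => simp
  | hadd x y hx hy => rw [map_add]; exact S.add_mem hx hy
  | hs c w => rw [map_smul]; exact S.smul_mem c (h w)

theorem dext {x y : Sh Y} (h0 : co [] x = co [] y) (h : ∀ a, D a x = D a y) : x = y := by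
  apply co_ext
  intro w
  cases w with
  | nil => exact h0
  | cons a w => rw [← co_D, ← co_D, h a]

@[simp] theorem D_nil (a : Y) : D a (wd ([] : List Y)) = 0 := by
  apply co_ext; intro w; rw [co_D, co_wd]; simp

theorem D_cons (a b : Y) (v : List Y) : D a (wd (b :: v)) = if a = b then wd v else 0 := by
  apply co_ext; intro w; rw [co_D, co_wd]
  by_cases h : a = b
  · subst h; simp [co_wd]
  · have : ¬ b = a := fun e => h e.symm
    simp [h, this]

theorem D_I (a b : Y) (x : Sh Y) : D a (I b x) = if a = b then x else 0 := by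
  induction x using ind with
  | h0 => simp
  | hadd x y hx hy => rw [map_add, map_add, hx, hy]; split_ifs <;> simp
  | hs c w => rw [map_smul, map_smul, I_wd, D_cons]; split_ifs <;> simp

@[simp] theorem co_nil_I (b : Y) (x : Sh Y) : co [] (I b x) = 0 := by
  induction x using ind with
  | h0 => simp
  | hadd x y hx hy => rw [map_add, map_add, hx, hy]; simp
  | hs c w => rw [map_smul, map_smul, I_wd, co_wd]; simp

@[simp] theorem co_nil_cons (b : Y) (v : List Y) : co [] (wd (b :: v)) = 0 := by
  rw [co_wd]; simp

@[simp] theorem co_nil_nil : co [] (wd ([] : List Y)) = 1 := by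
  rw [co_wd]; simp

/-- shuffle of two words -/
noncomputable def shw : List Y → List Y → Sh Y
  | [], v => wd v
  | a :: u, [] => wd (a :: u)
  | a :: u, b :: v => I a (shw u (b :: v)) + I b (shw (a :: u) v)
termination_by u v => u.length + v.length

noncomputable def mulL : Sh Y →ₗ[ℚ] Sh Y →ₗ[ℚ] Sh Y := onW (fun u => onW (fun v => shw u v))

theorem mulL_wd (u v : List Y) : mulL (wd u) (wd v) = shw u v := by simp [mulL]

theorem shw_nil_left (v : List Y) : shw [] v = wd v := by rw [shw]
theorem shw_nil_right (v : List Y) : shw v [] = wd v := by cases v <;> rw [shw]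
theorem shw_cons (a b : Y) (u v : List Y) :
    shw (a :: u) (b :: v) = I a (shw u (b :: v)) + I b (shw (a :: u) v) := by rw [shw]

theorem mulL_one_left (x : Sh Y) : mulL (wd []) x = x := by
  have : mulL (wd ([] : List Y)) = LinearMap.id := lext fun w => by
    rw [mulL_wd, shw_nil_left]; rfl
  rw [this]; rfl

theorem mulL_one_right (x : Sh Y) : mulL x (wd []) = x := by
  have : mulL.flip (wd ([] : List Y)) = LinearMap.id := lext fun w => by
    rw [LinearMap.flip_apply, mulL_wd, shw_nil_right]; rfl
  exact LinearMap.congr_fun this x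

theorem D_mulL_wd (c : Y) (u v : List Y) :
    D c (mulL (wd u) (wd v)) = mulL (D c (wd u)) (wd v) + mulL (wd u) (D c (wd v)) := by
  cases u with
  | nil => simp [mulL_one_left]
  | cons a u =>
    cases v with
    | nil => simp [mulL_one_right]
    | cons b v =>
      rw [mulL_wd, shw_cons, map_add, D_I, D_I, D_cons, D_cons]
      split_ifs <;> simp [mulL_wd]

theorem D_mulL (c : Y) (x y : Sh Y) :
    D c (mulL x y) = mulL (D c x) y + mulL x (D c y) := by
  induction x using ind with
  | h0 => simp
  | hadd x x' hx hx' => simp only [map_add, LinearMap.add_apply, hx, hx']; abel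
  | hs p u =>
    induction y using ind with
    | h0 => simp
    | hadd y y' hy hy' => simp only [map_add, hy, hy']; abel
    | hs q v => simp only [map_smul, LinearMap.smul_apply, D_mulL_wd, smul_add]

theorem co_mulL (x y : Sh Y) : co [] (mulL x y) = co [] x * co [] y := by
  induction x using ind with
  | h0 => simp
  | hadd x x' hx hx' => simp only [map_add, LinearMap.add_apply, hx, hx']; ring
  | hs p u =>
    induction y using ind with
    | h0 => simp
    | hadd y y' hy hy' => simp only [map_add, hy, hy']; ring
    | hs q v =>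
      simp only [map_smul, LinearMap.smul_apply, smul_eq_mul]
      cases u with
      | nil => simp [mulL_one_left]; ring
      | cons a u =>
        cases v with
        | nil => simp [mulL_one_right]
        | cons b v => simp [mulL_wd, shw_cons]

theorem D_wd_cases (c : Y) (u : List Y) :
    D c (wd u) = 0 ∨ ∃ u', u.length = u'.length + 1 ∧ D c (wd u) = wd u' := by
  cases u with
  | nil => left; simp
  | cons a u =>
    rw [D_cons]; split_ifs
    · right; exact ⟨u, rfl, rfl⟩
    · left; rfl

theorem mulL_comm_wd (n : ℕ) : ∀ u v : List Y, u.length + v.length < n →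
    mulL (wd u) (wd v) = mulL (wd v) (wd u) := by
  induction n with
  | zero => intro u v h; omega
  | succ n ih =>
    intro u v h
    apply dext
    · rw [co_mulL, co_mulL, mul_comm]
    · intro c
      rw [D_mulL, D_mulL, add_comm]
      congr 1
      · rcases D_wd_cases c v with h1 | ⟨v', h1, h2⟩
        · simp [h1]
        · rw [h2]; exact ih _ _ (by omega)
      · rcases D_wd_cases c u with h1 | ⟨v', h1, h2⟩
        · simp [h1]
        · rw [h2]; exact ih _ _ (by omega)

theorem mulL_comm (x y : Sh Y) : mulL x y = mulL y x := by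
  induction x using ind with
  | h0 => simp
  | hadd x x' hx hx' => simp only [map_add, LinearMap.add_apply, hx, hx']
  | hs p u =>
    induction y using ind with
    | h0 => simp
    | hadd y y' hy hy' => simp only [map_add, LinearMap.add_apply, hy, hy']
    | hs q v =>
      simp only [map_smul, LinearMap.smul_apply]
      rw [mulL_comm_wd _ u v (Nat.lt_succ_self _), smul_comm]

theorem mulL_assoc_wd (n : ℕ) : ∀ u v w : List Y, u.length + v.length + w.length < n →
    mulL (mulL (wd u) (wd v)) (wd w) = mulL (wd u) (mulL (wd v) (wd w)) := by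
  induction n with
  | zero => intro u v w h; omega
  | succ n ih =>
    intro u v w h
    apply dext
    · simp only [co_mulL, mul_assoc]
    · intro c
      simp only [D_mulL, map_add, LinearMap.add_apply]
      rw [add_assoc]
      congr 1
      · rcases D_wd_cases c u with h1 | ⟨v', h1, h2⟩
        · simp [h1]
        · rw [h2]; exact ih _ _ _ (by omega)
      congr 1
      · rcases D_wd_cases c v with h1 | ⟨v', h1, h2⟩
        · simp [h1]
        · rw [h2]; exact ih _ _ _ (by omega)
      · rcases D_wd_cases c w with h1 | ⟨v', h1, h2⟩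
        · simp [h1]
        · rw [h2]; exact ih _ _ _ (by omega)

theorem mulL_assoc (x y z : Sh Y) : mulL (mulL x y) z = mulL x (mulL y z) := by
  induction x using ind with
  | h0 => simp
  | hadd x x' hx hx' => simp only [map_add, LinearMap.add_apply, hx, hx']
  | hs p u =>
    induction y using ind with
    | h0 => simp
    | hadd y y' hy hy' => simp only [map_add, LinearMap.add_apply, hy, hy']
    | hs q v =>
      induction z using ind with
      | h0 => simp
      | hadd y y' hy hy' => simp only [map_add, hy, hy']
      | hs r w =>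
        simp only [map_smul, LinearMap.smul_apply]
        rw [mulL_assoc_wd _ u v w (Nat.lt_succ_self _)]

noncomputable instance : CommRing (Sh Y) :=
  { (inferInstance : AddCommGroup (Sh Y)) with
    mul := fun x y => mulL x y
    one := wd []
    left_distrib := fun x y z => map_add (mulL x) y z
    right_distrib := fun x y z => by
      show mulL (x + y) z = mulL x z + mulL y z
      rw [map_add]; rfl
    zero_mul := fun x => by
      show mulL 0 x = 0
      rw [map_zero]; rfl
    mul_zero := fun x => map_zero (mulL x)
    mul_assoc := mulL_assoc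
    one_mul := mulL_one_left
    mul_one := mulL_one_right
    mul_comm := mulL_comm }

theorem mul_def (x y : Sh Y) : x * y = mulL x y := rfl
theorem one_def : (1 : Sh Y) = wd [] := rfl

noncomputable instance : Algebra ℚ (Sh Y) :=
  Algebra.ofModule
    (fun r x y => by rw [mul_def, mul_def, map_smul]; rfl)
    (fun r x y => by rw [mul_def, mul_def, map_smul])

theorem D_mul (c : Y) (x y : Sh Y) : D c (x * y) = D c x * y + x * D c y := D_mulL c x y
theorem co_mul (x y : Sh Y) : co [] (x * y) = co [] x * co [] y := co_mulL x y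
@[simp] theorem D_one (c : Y) : D c (1 : Sh Y) = 0 := D_nil c
@[simp] theorem co_one : co [] (1 : Sh Y) = 1 := co_nil_nil

theorem wd_mul_cons (a b : Y) (u v : List Y) : wd (a :: u) * wd (b :: v) =
    I a (wd u * wd (b :: v)) + I b (wd (a :: u) * wd v) := by
  simp only [mul_def, mulL_wd, shw_cons]

theorem D_pow (c : Y) (x : Sh Y) (n : ℕ) :
    D c (x ^ (n + 1)) = ((n + 1 : ℕ) : ℚ) • (x ^ n * D c x) := by
  induction n with
  | zero => simp
  | succ n ih =>
    rw [pow_succ, D_mul, ih]
    simp only [Algebra.smul_def, map_natCast]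
    push_cast
    ring

/-- half shuffle -/
noncomputable def hsw (x : Sh Y) : List Y → Sh Y
  | [] => 0
  | b :: v => I b (x * wd v)

noncomputable def hs (x : Sh Y) : Sh Y →ₗ[ℚ] Sh Y := onW (hsw x)

theorem D_hs (c : Y) (x y : Sh Y) : D c (hs x y) = x * D c y := by
  induction y using ind with
  | h0 => simp
  | hadd y y' hy hy' => simp only [map_add, hy, hy', mul_add]
  | hs q v =>
    rw [map_smul, map_smul, map_smul, mul_smul_comm]
    congr 1
    cases v with
    | nil => simp [hs, hsw]
    | cons b v => simp only [hs, onW_wd, hsw, D_I, D_cons]; split_ifs <;> simp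

@[simp] theorem co_hs (x y : Sh Y) : co [] (hs x y) = 0 := by
  induction y using ind with
  | h0 => simp
  | hadd y y' hy hy' => simp only [map_add, hy, hy', add_zero]
  | hs q v =>
    rw [map_smul, map_smul]
    cases v with
    | nil => simp [hs, hsw]
    | cons b v => simp [hs, hsw]

noncomputable def hsL (y : Sh Y) : Sh Y →ₗ[ℚ] Sh Y where
  toFun x := hs x y
  map_add' x x' := by
    apply dext
    · simp
    · intro c; simp only [D_hs, map_add, add_mul]
  map_smul' c x := by
    apply dext
    · simp
    · intro a; simp only [D_hs, map_smul, smul_mul_assoc, RingHom.id_apply]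

@[simp] theorem hsL_apply (x y : Sh Y) : hsL y x = hs x y := rfl

/-- iterated integrals of a family -/
noncomputable def thw (α : Y → Sh X) : List Y → Sh X
  | [] => 1
  | y :: w => hs (thw α w) (α y)

noncomputable def thL (α : Y → Sh X) : Sh Y →ₗ[ℚ] Sh X := onW (thw α)

theorem thL_I (α : Y → Sh X) (y : Y) (x : Sh Y) : thL α (I y x) = hs (thL α x) (α y) := by
  have : thL α ∘ₗ I y = hsL (α y) ∘ₗ thL α := lext fun w => by
    simp [I_wd, thL, thw]
  exact LinearMap.congr_fun this x

theorem thL_one (α : Y → Sh X) : thL α 1 = 1 := by simp [one_def, thL, thw]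

theorem thL_mul_wd (α : Y → Sh X) (n : ℕ) : ∀ u v : List Y, u.length + v.length < n →
    thL α (wd u * wd v) = thL α (wd u) * thL α (wd v) := by
  induction n with
  | zero => intro u v h; omega
  | succ n ih =>
    intro u v h
    cases u with
    | nil => rw [← one_def, one_mul, thL_one, one_mul]
    | cons a u =>
      cases v with
      | nil => rw [← one_def, mul_one, thL_one, mul_one]
      | cons b v =>
        simp only [List.length_cons] at h
        rw [wd_mul_cons, map_add, thL_I, thL_I, ih _ _ (by simp; omega), ih _ _ (by simp; omega)]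
        rw [← I_wd a u, ← I_wd b v, thL_I, thL_I]
        apply dext
        · simp [co_mul]
        · intro c
          simp only [map_add, D_hs, D_mul]
          ring

theorem thL_mul (α : Y → Sh X) (x y : Sh Y) : thL α (x * y) = thL α x * thL α y := by
  induction x using ind with
  | h0 => simp
  | hadd x x' hx hx' => simp only [map_add, add_mul, hx, hx']
  | hs p u =>
    induction y using ind with
    | h0 => simp
    | hadd y y' hy hy' => simp only [map_add, mul_add, hy, hy']
    | hs q v =>
      simp only [map_smul, smul_mul_assoc, mul_smul_comm]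
      rw [thL_mul_wd α _ u v (Nat.lt_succ_self _)]

/-- the morphism of half-shuffle algebras determined by the images of the letters -/
noncomputable def th (α : Y → Sh X) : Sh Y →ₐ[ℚ] Sh X :=
  AlgHom.ofLinearMap (thL α) (thL_one α) (thL_mul α)

theorem th_I (α : Y → Sh X) (y : Y) (x : Sh Y) : th α (I y x) = hs (th α x) (α y) := thL_I α y x

theorem th_cons (α : Y → Sh X) (y : Y) (w : List Y) :
    th α (wd (y :: w)) = hs (th α (wd w)) (α y) := by rw [← I_wd, th_I]

theorem hs_one (x : Sh X) (h : co [] x = 0) : hs 1 x = x := by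
  apply dext
  · simp [h]
  · intro c; rw [D_hs, one_mul]

theorem th_letter (α : Y → Sh X) (y : Y) (h : co [] (α y) = 0) : th α (wd [y]) = α y := by
  rw [th_cons, ← one_def, map_one, hs_one _ h]

theorem th_hs (α : Y → Sh X) (x y : Sh Y) : th α (hs x y) = hs (th α x) (th α y) := by
  induction y using ind with
  | h0 => simp
  | hadd y y' hy hy' => simp only [map_add, hy, hy']
  | hs q v =>
    simp only [map_smul]
    congr 1
    cases v with
    | nil =>
      rw [← one_def, map_one (th α)]
      simp [one_def, hs, hsw]
    | cons b v =>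
      have : hs x (wd (b :: v)) = I b (x * wd v) := by simp [hs, hsw]
      rw [this, th_I, th_cons, map_mul]
      apply dext
      · simp
      · intro c; simp only [D_hs, mul_assoc]

theorem co_th (α : Y → Sh X) (x : Sh Y) : co [] (th α x) = co [] x := by
  induction x using ind with
  | h0 => simp
  | hadd y y' hy hy' => simp only [map_add, hy, hy']
  | hs q v =>
    simp only [map_smul]
    congr 1
    cases v with
    | nil => rw [← one_def, map_one]; simp
    | cons b v => simp [th_cons]

theorem th_comp {W : Type} (α : Y → Sh X) (β : W → Sh Y) (x : Sh W) :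
    th α (th β x) = th (fun w => th α (β w)) x := by
  induction x using ind with
  | h0 => simp
  | hadd y y' hy hy' => simp only [map_add, hy, hy']
  | hs q v =>
    simp only [map_smul]
    congr 1
    induction v with
    | nil => rw [← one_def]; simp
    | cons b v ih => rw [th_cons, th_cons, th_hs, ih]

theorem th_id (x : Sh Y) : th (fun y : Y => wd [y]) x = x := by
  induction x using ind with
  | h0 => simp
  | hadd y y' hy hy' => simp only [map_add, hy, hy']
  | hs q v =>
    simp only [map_smul]
    congr 1
    induction v with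
    | nil => rw [← one_def]; simp
    | cons b v ih =>
      rw [th_cons, ih]
      have : hs (wd v) (wd [b]) = I b (wd v * wd []) := by simp [hs, hsw]
      rw [this, ← one_def, mul_one, I_wd]

/-- weight of a word -/
def wt (ω : Y → ℕ) (w : List Y) : ℕ := (w.map ω).sum

@[simp] theorem wt_nil (ω : Y → ℕ) : wt ω [] = 0 := rfl
@[simp] theorem wt_cons (ω : Y → ℕ) (a : Y) (w : List Y) : wt ω (a :: w) = ω a + wt ω w := by
  simp [wt]

/-- span of the words whose weight satisfies a predicate -/
noncomputable def Sp (ω : Y → ℕ) (P : ℕ → Prop) : Submodule ℚ (Sh Y) :=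
  Submodule.span ℚ {x | ∃ w, P (wt ω w) ∧ x = wd w}

theorem wd_mem_Sp {ω : Y → ℕ} {P : ℕ → Prop} {w : List Y} (h : P (wt ω w)) : wd w ∈ Sp ω P :=
  Submodule.subset_span ⟨w, h, rfl⟩

theorem Sp_map {M : Type} [AddCommGroup M] [Module ℚ M] {ω : Y → ℕ} {P : ℕ → Prop}
    (f : Sh Y →ₗ[ℚ] M) (S : Submodule ℚ M) (h : ∀ w, P (wt ω w) → f (wd w) ∈ S)
    {x : Sh Y} (hx : x ∈ Sp ω P) : f x ∈ S := by
  have : Sp ω P ≤ S.comap f := by
    apply Submodule.span_le.2
    rintro _ ⟨w, hw, rfl⟩
    exact h w hw
  exact this hx

theorem Sp_mono {ω : Y → ℕ} {P Q : ℕ → Prop} (h : ∀ n, P n → Q n) {x : Sh Y} (hx : x ∈ Sp ω P) :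
    x ∈ Sp ω Q :=
  Sp_map LinearMap.id _ (fun _ hw => wd_mem_Sp (h _ hw)) hx

theorem I_mem_Sp {ω : Y → ℕ} {n : ℕ} (a : Y) {x : Sh Y} (hx : x ∈ Sp ω (· = n)) :
    I a x ∈ Sp ω (· = ω a + n) :=
  Sp_map (I a) _ (fun w hw => by rw [I_wd]; exact wd_mem_Sp (by simp [hw])) hx

theorem wd_mul_mem (ω : Y → ℕ) (n : ℕ) : ∀ u v : List Y, u.length + v.length < n →
    wd u * wd v ∈ Sp ω (· = wt ω u + wt ω v) := by
  induction n with
  | zero => intro u v h; omega
  | succ n ih =>
    intro u v h
    cases u with
    | nil => rw [← one_def, one_mul]; exact wd_mem_Sp (by simp)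
    | cons a u =>
      cases v with
      | nil => rw [← one_def, mul_one]; exact wd_mem_Sp (by simp)
      | cons b v =>
        simp only [List.length_cons] at h
        rw [wd_mul_cons]
        apply Submodule.add_mem
        · exact Sp_mono (fun m hm => by simp at hm ⊢; omega)
            (I_mem_Sp a (ih u (b :: v) (by simp; omega)))
        · exact Sp_mono (fun m hm => by simp at hm ⊢; omega)
            (I_mem_Sp b (ih (a :: u) v (by simp; omega)))

theorem mul_mem_Sp {ω : Y → ℕ} {P Q R : ℕ → Prop} (h : ∀ i j, P i → Q j → R (i + j))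
    {x y : Sh Y} (hx : x ∈ Sp ω P) (hy : y ∈ Sp ω Q) : x * y ∈ Sp ω R := by
  refine Sp_map (LinearMap.mulRight ℚ y) _ (fun u hu => ?_) hx
  refine Sp_map (LinearMap.mulLeft ℚ (wd u)) _ (fun v hv => ?_) hy
  exact Sp_mono (fun m hm => hm ▸ h _ _ hu hv) (wd_mul_mem ω _ u v (Nat.lt_succ_self _))

theorem hs_mem_Sp {ω : Y → ℕ} {P Q R : ℕ → Prop} (h : ∀ i j, P i → Q j → R (i + j))
    {x y : Sh Y} (hx : x ∈ Sp ω P) (hy : y ∈ Sp ω Q) : hs x y ∈ Sp ω R := by
  refine Sp_map (hsL y) _ (fun u hu => ?_) hx
  refine Sp_map (hs (wd u)) _ (fun v hv => ?_) hy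
  cases v with
  | nil => simp [hs, hsw]
  | cons b v =>
    have : hs (wd u) (wd (b :: v)) = I b (wd u * wd v) := by simp [hs, hsw]
    rw [this]
    refine Sp_mono (fun m hm => ?_) (I_mem_Sp b (wd_mul_mem ω _ u v (Nat.lt_succ_self _)))
    have := h _ _ hu hv
    simp only [wt_cons] at this
    have e : m = wt ω u + (ω b + wt ω v) := by omega
    rw [e]; exact this

theorem mem_Sp_true (ω : Y → ℕ) (x : Sh Y) : x ∈ Sp ω (fun _ => True) :=
  mem_of_wd LinearMap.id _ (fun _ => wd_mem_Sp trivial) x

end Pool.Agent.H74.Shuf
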