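import Pool.Agent.H74.ShufStep

set_option autoImplicit false

namespace Pool.Agent.H74.Shuf

open Classical

variable {A : Type}

/-- iterated area of a tree -/
noncomputable def arT : FreeMagma A → Sh A
  | FreeMagma.of a => wd [a]
  | FreeMagma.mul x y => ar2 (arT x) (arT y)

theorem arT_of (a : A) : arT (FreeMagma.of a) = wd [a] := rfl
theorem arT_mul (x y : FreeMagma A) : arT (x * y) = ar2 (arT x) (arT y) := rfl

theorem co_arT (t : FreeMagma A) : co [] (arT t) = 0 := by
  induction t with
  | ih1 a => simp [arT_of]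
  | ih2 x y _ _ => rw [arT_mul, co_ar2]

def one1 : A → ℕ := fun _ => 1

theorem arT_mem (t : FreeMagma A) : arT t ∈ Sp one1 (· = t.length) := by
  induction t with
  | ih1 a => exact wd_mem_Sp (by simp [one1, FreeMagma.length])
  | ih2 x y hx hy =>
    rw [arT_mul, ar2]
    have e : (x * y).length = x.length + y.length := rfl
    apply Submodule.sub_mem
    · exact hs_mem_Sp (fun i j hi hj => by omega) hx hy
    · exact hs_mem_Sp (fun i j hi hj => by omega) hy hx

def Bij {σ S T : Type} [CommRing S] [CommRing T] (θ : S →+* T) (f : σ → T) : Prop :=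
  Function.Bijective (MvPolynomial.eval₂Hom θ f)

theorem Bij_step {σ S S' T : Type} [CommRing S] [CommRing S'] [CommRing T] (θ : S →+* T)
    (f : σ → T) (h : Bij θ f) (θ' : S' →+* S) (ζ : S)
    (h' : Function.Bijective (Polynomial.eval₂RingHom θ' ζ)) :
    Bij (θ.comp θ') (fun o : Option σ => o.elim (θ ζ) f) := by
  have e : MvPolynomial.eval₂Hom (θ.comp θ') (fun o : Option σ => o.elim (θ ζ) f) =
      ((MvPolynomial.eval₂Hom θ f).comp (MvPolynomial.map (Polynomial.eval₂RingHom θ' ζ))).comp
        (MvPolynomial.optionEquivRight S' σ).toRingEquiv.toRingHom := by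
    apply MvPolynomial.ringHom_ext
    · intro r; simp [MvPolynomial.optionEquivRight_C]
    · intro o
      cases o with
      | none => simp [MvPolynomial.optionEquivRight_X_none]
      | some s => simp [MvPolynomial.optionEquivRight_X_some]
  unfold Bij
  rw [e]
  simp only [RingHom.coe_comp]
  refine (h.comp ⟨MvPolynomial.map_injective _ h'.1, MvPolynomial.map_surjective _ h'.2⟩).comp ?_
  exact (MvPolynomial.optionEquivRight S' σ).bijective

theorem step_bij {Y : Type} (z : Y) :
    Function.Bijective (Polynomial.eval₂RingHom (Th z).toRingHom (wd [z])) := by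
  have e : Polynomial.eval₂RingHom (Th z).toRingHom (wd [z]) =
      (Ph z).toRingHom.comp
        (Polynomial.algEquivAevalNegX (R := Sh (Al z))).toRingEquiv.toRingHom := by
    apply Polynomial.ringHom_ext
    · intro r; simp [Ph_C]
    · simp [Ph_X, ze]
  rw [e]
  simp only [RingHom.coe_comp]
  exact (Ph_bij z).comp (Polynomial.algEquivAevalNegX (R := Sh (Al z))).bijective

theorem th_arT {ι : Type} (τ : ι → FreeMagma A) (i : ι) :
    th (fun i => arT (τ i)) (wd [i]) = arT (τ i) :=
  th_letter (fun i => arT (τ i)) i (co_arT _)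

def pw (t z : FreeMagma A) : ℕ → FreeMagma A
  | 0 => t
  | k + 1 => pw t z k * z

theorem arT_pw {ι : Type} (τ : ι → FreeMagma A) (i0 : ι) (y : {y : ι // y ≠ i0}) (k : ℕ) :
    arT (pw (τ y.1) (τ i0) k) = th (fun i => arT (τ i)) (be i0 y k) := by
  induction k with
  | zero => rw [be, th_arT]; rfl
  | succ k ih => rw [be, th_ar2, ← ih, th_arT]; rfl

theorem finite_len [Finite A] (n : ℕ) : {t : FreeMagma A | t.length ≤ n}.Finite := by
  induction n with
  | zero =>
    have : {t : FreeMagma A | t.length ≤ 0} = ∅ := by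
      ext t; have := t.length_pos; simp; omega
    rw [this]; exact Set.finite_empty
  | succ n ih =>
    refine ((Set.finite_range FreeMagma.of).union (ih.image2 (· * ·) ih)).subset ?_
    intro t ht
    cases t with
    | of a => left; exact ⟨a, rfl⟩
    | mul x y =>
      right
      have e : (FreeMagma.mul x y).length = x.length + y.length := rfl
      have hx := x.length_pos
      have hy := y.length_pos
      simp only [Set.mem_ofPred_eq] at ht
      exact ⟨x, by simp only [Set.mem_ofPred_eq]; omega, y,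
        by simp only [Set.mem_ofPred_eq]; omega, rfl⟩

structure Hall (H : Set (FreeMagma A)) (r : FreeMagma A → FreeMagma A → Prop) : Prop where
  sto : IsStrictTotalOrder (FreeMagma A) r
  h1 : ∀ a : A, FreeMagma.of a ∈ H
  h2 : ∀ t' t'' : FreeMagma A, t' * t'' ∈ H → t'' ∈ H ∧ r (t' * t'') t''
  h3 : ∀ t' t'' : FreeMagma A, t' * t'' ∈ H ↔
      (t' ∈ H ∧ t'' ∈ H ∧ r t' t'' ∧
        ((∃ a : A, t' = FreeMagma.of a) ∨ ∃ u v : FreeMagma A, t' = u * v ∧ ¬ r v t''))

def Inv (H : Set (FreeMagma A)) (n : ℕ) (Z : Set (FreeMagma A)) : Prop :=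
  ∃ (σ ι : Type) (e : σ → FreeMagma A) (τ : ι → FreeMagma A), Function.Injective e ∧
    Set.range e = Z ∧ Bij (th (fun i => arT (τ i))).toRingHom (fun s => arT (e s)) ∧
    ∀ t : FreeMagma A, t.length ≤ n → (t ∈ Set.range τ ↔
      t ∈ H ∧ t ∉ Z ∧ ((∃ a : A, t = FreeMagma.of a) ∨ ∃ u v : FreeMagma A, t = u * v ∧ v ∈ Z))

theorem inv_empty {H : Set (FreeMagma A)} {r : FreeMagma A → FreeMagma A → Prop} (h : Hall H r)
    (n : ℕ) : Inv H n ∅ := by
  refine ⟨Empty, A, Empty.elim, FreeMagma.of, fun a => a.elim, Set.range_eq_empty _, ?_, ?_⟩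
  · constructor
    · rw [injective_iff_map_eq_zero]
      intro p hp
      rw [MvPolynomial.eq_C_of_isEmpty p] at hp ⊢
      simp only [MvPolynomial.eval₂Hom_C, arT_of] at hp
      have := th_id (MvPolynomial.coeff 0 p)
      rw [← this]
      exact congrArg _ hp |>.trans (map_zero _)
    · intro x
      exact ⟨MvPolynomial.C x, by simp only [MvPolynomial.eval₂Hom_C, arT_of]; exact th_id x⟩
  · intro t _
    constructor
    · rintro ⟨a, rfl⟩
      exact ⟨h.h1 a, by simp, Or.inl ⟨a, rfl⟩⟩
    · rintro ⟨_, _, ⟨a, rfl⟩ | ⟨u, v, _, hv⟩⟩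
      · exact ⟨a, rfl⟩
      · exact hv.elim

theorem wd_inj {Y : Type} {u v : List Y} (h : wd u = wd v) : u = v := by
  have := congrArg (co v) h
  rw [co_wd, co_wd, if_pos rfl] at this
  by_contra hne
  rw [if_neg hne] at this
  exact zero_ne_one this

theorem inv_step {H : Set (FreeMagma A)} {r : FreeMagma A → FreeMagma A → Prop} (h : Hall H r)
    (n : ℕ) (Z : Set (FreeMagma A)) (hup : ∀ a ∈ Z, ∀ t ∈ H, t.length ≤ n → r a t → t ∈ Z)
    (z : FreeMagma A) (hzH : z ∈ H) (hzn : z.length ≤ n) (hzZ : z ∉ Z)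
    (hmax : ∀ t ∈ H, t.length ≤ n → t ∉ Z → t = z ∨ r t z) (hI : Inv H n Z) :
    Inv H n (insert z Z) := by
  have := h.sto
  obtain ⟨σ, ι, e, τ, he, hr, hb, hc⟩ := hI
  have hτ : Function.Injective τ := by
    intro i j hij
    have h1 : MvPolynomial.eval₂Hom (th (fun i => arT (τ i))).toRingHom (fun s => arT (e s))
        (MvPolynomial.C (wd [i])) = MvPolynomial.eval₂Hom (th (fun i => arT (τ i))).toRingHom
          (fun s => arT (e s)) (MvPolynomial.C (wd [j])) := by
      simp only [MvPolynomial.eval₂Hom_C, AlgHom.toRingHom_eq_coe, RingHom.coe_coe]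
      rw [th_arT, th_arT, hij]
    have := wd_inj (MvPolynomial.C_injective _ _ (hb.1 h1))
    simpa using this
  have hlen : ∀ u v : FreeMagma A, (u * v).length = u.length + v.length := fun _ _ => rfl
  have hz : z ∈ Set.range τ := by
    rw [hc z hzn]
    refine ⟨hzH, hzZ, ?_⟩
    cases z with
    | of a => left; exact ⟨a, rfl⟩
    | mul u v =>
      right
      refine ⟨u, v, rfl, ?_⟩
      obtain ⟨hv, hr⟩ := h.h2 u v hzH
      by_contra hvZ
      have hl := hlen u v
      have : (FreeMagma.mul u v).length = (u * v).length := rfl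
      rcases hmax v hv (by omega) hvZ with h1 | h1
      · have := u.length_pos
        have h2 := congrArg FreeMagma.length h1
        omega
      · exact asymm_of r hr h1
  obtain ⟨i0, rfl⟩ := hz
  refine ⟨Option σ, Al i0, fun o => o.elim (τ i0) e, fun p => pw (τ p.1.1) (τ i0) p.2, ?_, ?_, ?_,
    ?_⟩
  · intro a b hab
    cases a with
    | none =>
      cases b with
      | none => rfl
      | some b => exact (hzZ (hr ▸ ⟨b, hab.symm⟩)).elim
    | some a =>
      cases b with
      | none => exact (hzZ (hr ▸ ⟨a, hab⟩)).elim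
      | some b => exact congrArg _ (he hab)
  · ext t
    constructor
    · rintro ⟨o, rfl⟩
      cases o with
      | none => exact Set.mem_insert _ _
      | some s => exact Set.mem_insert_of_mem _ (hr ▸ ⟨s, rfl⟩)
    · rintro (rfl | ht)
      · exact ⟨none, rfl⟩
      · rw [← hr] at ht
        obtain ⟨s, rfl⟩ := ht
        exact ⟨some s, rfl⟩
  · have := Bij_step _ _ hb _ _ (step_bij i0)
    convert this using 1
    · apply RingHom.ext
      intro x
      simp only [AlgHom.toRingHom_eq_coe, RingHom.coe_coe, RingHom.coe_comp, Function.comp_apply,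
        Th, th_comp, arT_pw]
    · funext o
      cases o with
      | none =>
        simp only [Option.elim_none, AlgHom.toRingHom_eq_coe, RingHom.coe_coe]
        rw [th_arT]
      | some s => rfl
  · intro t ht
    constructor
    · rintro ⟨⟨y, k⟩, rfl⟩
      simp only at ht ⊢
      induction k with
      | zero =>
        obtain ⟨h1, h2, h3⟩ := (hc (τ y.1) ht).1 ⟨y.1, rfl⟩
        refine ⟨h1, ?_, ?_⟩
        · rintro (h4 | h4)
          · exact y.2 (hτ h4)
          · exact h2 h4
        · rcases h3 with h3 | ⟨u, v, h3, h4⟩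
          · exact Or.inl h3
          · exact Or.inr ⟨u, v, h3, Set.mem_insert_of_mem _ h4⟩
      | succ k ih =>
        have hl : (pw (τ y.1) (τ i0) k).length ≤ n := by
          have := hlen (pw (τ y.1) (τ i0) k) (τ i0)
          simp only [pw] at ht
          omega
        obtain ⟨h1, h2, h3⟩ := ih hl
        have h4 : r (pw (τ y.1) (τ i0) k) (τ i0) :=
          (hmax _ h1 hl (fun h5 => h2 (Set.mem_insert_of_mem _ h5))).resolve_left
            (fun h5 => h2 (Set.mem_insert_iff.2 (Or.inl h5)))
        have h5 : pw (τ y.1) (τ i0) k * τ i0 ∈ H := by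
          rw [h.h3]
          refine ⟨h1, hzH, h4, ?_⟩
          rcases h3 with h3 | ⟨u, v, h3, h6⟩
          · exact Or.inl h3
          · refine Or.inr ⟨u, v, h3, fun h7 => ?_⟩
            rcases h6 with h6 | h6
            · rw [h6] at h7; exact irrefl_of r _ h7
            · exact hzZ (hup v h6 _ hzH hzn h7)
        have h6 := (h.h2 _ _ h5).2
        refine ⟨h5, ?_, Or.inr ⟨_, _, rfl, Set.mem_insert _ _⟩⟩
        rintro (h7 | h7)
        · simp only [pw] at h7
          rw [h7] at h6; exact irrefl_of r _ h6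
        · exact hzZ (hup _ h7 _ hzH hzn h6)
    · have base : ∀ t : FreeMagma A, t.length ≤ n → t ∈ H → t ∉ insert (τ i0) Z →
          ((∃ a : A, t = FreeMagma.of a) ∨ ∃ u v : FreeMagma A, t = u * v ∧ v ∈ Z) →
          t ∈ Set.range (fun p : Al i0 => pw (τ p.1.1) (τ i0) p.2) := by
        intro t ht h1 h2 h3
        obtain ⟨y, hy⟩ := (hc t ht).2 ⟨h1, fun h4 => h2 (Set.mem_insert_of_mem _ h4), h3⟩
        refine ⟨(⟨y, ?_⟩, 0), hy⟩
        rintro rfl
        exact h2 (hy ▸ Set.mem_insert _ _)
      induction t with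
      | ih1 a =>
        rintro ⟨h1, h2, _⟩
        exact base _ ht h1 h2 (Or.inl ⟨a, rfl⟩)
      | ih2 x y ihx _ =>
        rintro ⟨h1, h2, h3⟩
        rcases h3 with ⟨a, h3⟩ | ⟨u, v, h3, h4⟩
        · cases h3
        · have hv : y = v := by injection h3
          subst hv
          rcases h4 with h4 | h4
          · subst h4
            obtain ⟨h5, _, h6, h7⟩ := (h.h3 _ _).1 h1
            have hl := hlen x (τ i0)
            suffices hx : x ∈ Set.range (fun p : Al i0 => pw (τ p.1.1) (τ i0) p.2) by
              obtain ⟨⟨w, k⟩, hw⟩ := hx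
              exact ⟨(w, k + 1), by simp only [pw] at hw ⊢; rw [hw]⟩
            refine ihx (by omega) ⟨h5, ?_, ?_⟩
            · rintro (h8 | h8)
              · rw [h8] at h6; exact irrefl_of r _ h6
              · exact hzZ (hup _ h8 _ hzH hzn h6)
            · rcases h7 with h7 | ⟨a, b, h7, h8⟩
              · exact Or.inl h7
              · refine Or.inr ⟨a, b, h7, ?_⟩
                subst h7
                have hl2 := hlen a b
                by_contra h9
                rcases hmax b (h.h2 _ _ h5).1 (by omega)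
                  (fun h10 => h9 (Set.mem_insert_of_mem _ h10)) with h10 | h10
                · exact h9 (h10 ▸ Set.mem_insert _ _)
                · exact h8 h10
          · exact base _ ht h1 h2 (Or.inr ⟨x, y, rfl, h4⟩)

theorem inv_full [Finite A] {H : Set (FreeMagma A)} {r : FreeMagma A → FreeMagma A → Prop}
    (h : Hall H r) (n : ℕ) : Inv H n {t | t ∈ H ∧ t.length ≤ n} := by
  have := h.sto
  have hfin : {t | t ∈ H ∧ t.length ≤ n}.Finite := (finite_len n).subset (fun _ ht => ht.2)
  have key : ∀ k : ℕ, ∀ Z : Set (FreeMagma A), Z ⊆ {t | t ∈ H ∧ t.length ≤ n} →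
      (∀ a ∈ Z, ∀ t ∈ H, t.length ≤ n → r a t → t ∈ Z) → Inv H n Z →
      ({t | t ∈ H ∧ t.length ≤ n} \ Z).ncard = k → Inv H n {t | t ∈ H ∧ t.length ≤ n} := by
    intro k
    induction k with
    | zero =>
      intro Z hZ _ hI hk
      rw [Set.ncard_eq_zero (hfin.subset Set.sdiff_subset), Set.sdiff_eq_empty] at hk
      rw [← Set.Subset.antisymm hZ hk]; exact hI
    | succ k ih =>
      intro Z hZ hup hI hk
      have hf : ({t | t ∈ H ∧ t.length ≤ n} \ Z).Finite := hfin.subset Set.sdiff_subset
      have hne : ({t | t ∈ H ∧ t.length ≤ n} \ Z).Nonempty := by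
        apply Set.nonempty_of_ncard_ne_zero; omega
      obtain ⟨z, hz, hmax⟩ : ∃ z ∈ {t | t ∈ H ∧ t.length ≤ n} \ Z,
          ∀ t ∈ {t | t ∈ H ∧ t.length ≤ n} \ Z, t = z ∨ r t z := by
        let : LinearOrder (FreeMagma A) := linearOrderOfSTO r
        obtain ⟨z, hz, hm⟩ := Set.exists_max_image _ id hf hne
        exact ⟨z, hz, fun t ht => hm t ht⟩
      refine ih (insert z Z) (Set.insert_subset hz.1 hZ) ?_
        (inv_step h n Z hup z hz.1.1 hz.1.2 hz.2 (fun t h1 h2 h3 => hmax t ⟨⟨h1, h2⟩, h3⟩) hI) ?_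
      · rintro a (rfl | ha) t h1 h2 h3
        · by_contra h4
          rcases hmax t ⟨⟨h1, h2⟩, fun h5 => h4 (Set.mem_insert_of_mem _ h5)⟩ with h5 | h5
          · exact h4 (h5 ▸ Set.mem_insert _ _)
          · exact asymm_of r h3 h5
        · exact Set.mem_insert_of_mem _ (hup a ha t h1 h2 h3)
      · have : {t | t ∈ H ∧ t.length ≤ n} \ insert z Z = ({t | t ∈ H ∧ t.length ≤ n} \ Z) \ {z} := by
          ext t; simp only [Set.mem_sdiff, Set.mem_insert_iff, Set.mem_singleton_iff]; tauto
        rw [this, Set.ncard_sdiff_singleton_of_mem hz, hk]; rfl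
  exact key _ ∅ (Set.empty_subset _) (fun a ha => ha.elim) (inv_empty h n) rfl

instance {Y : Type} : Nontrivial (Sh Y) := ⟨⟨0, 1, fun h => by
  have := congrArg (co []) h
  simp at this⟩⟩

theorem aeval_inj [Finite A] {H : Set (FreeMagma A)} {r : FreeMagma A → FreeMagma A → Prop}
    (h : Hall H r) : Function.Injective (MvPolynomial.aeval (R := ℚ) (fun t : H => arT t.1)) := by
  rw [injective_iff_map_eq_zero]
  intro p hp
  obtain ⟨σ, ι, e, τ, he, hr, hb, -⟩ := inv_full h (p.vars.sup (fun t => t.1.length))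
  have hmem : ∀ s, e s ∈ H := fun s => by
    have : e s ∈ Set.range e := ⟨s, rfl⟩
    rw [hr] at this; exact this.1
  obtain ⟨q, rfl⟩ := MvPolynomial.exists_rename_eq_of_vars_subset_range p
    (fun s => (⟨e s, hmem s⟩ : H)) (fun a b hab => he (congrArg Subtype.val hab)) (by
      intro t ht
      have : t.1 ∈ Set.range e := by
        rw [hr]; exact ⟨t.2, Finset.le_sup (f := fun t : H => t.1.length) ht⟩
      obtain ⟨s, hs⟩ := this
      exact ⟨s, Subtype.ext hs⟩)
  rw [MvPolynomial.aeval_rename] at hp
  have h1 : MvPolynomial.eval₂Hom (th (fun i => arT (τ i))).toRingHom (fun s => arT (e s))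
      (MvPolynomial.map (algebraMap ℚ (Sh ι)) q) = 0 := by
    rw [MvPolynomial.eval₂Hom_map_hom, ← hp, MvPolynomial.aeval_eq_eval₂Hom]
    congr 2
    exact (th (fun i => arT (τ i))).comp_algebraMap
  have h2 := (injective_iff_map_eq_zero _).1 hb.1 _ h1
  have h3 : q = 0 := (injective_iff_map_eq_zero _).1
    (MvPolynomial.map_injective _ (algebraMap ℚ (Sh ι)).injective) q h2
  rw [h3, map_zero]

noncomputable def trunc (n : ℕ) : Sh A →ₗ[ℚ] Sh A :=
  onW (fun w => if wt one1 w ≤ n then wd w else 0)

theorem trunc_hi {n : ℕ} {x : Sh A} (hx : x ∈ Sp one1 (n < ·)) : trunc n x = 0 := by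
  have := Sp_map (trunc n) ⊥ (fun w hw => by
    have hw' : ¬ wt one1 w ≤ n := by omega
    simp [trunc, hw']) hx
  simpa using this

theorem trunc_lo {n : ℕ} {x : Sh A} (hx : x ∈ Sp one1 (· ≤ n)) : trunc n x = x := by
  have := Sp_map (trunc n - LinearMap.id) ⊥ (fun w hw => by
    simp [trunc, hw]) hx
  simpa [sub_eq_zero] using this

theorem prod_mem (L : List (FreeMagma A)) : ∃ j, (L.map arT).prod ∈ Sp one1 (· = j) := by
  induction L with
  | nil => exact ⟨0, wd_mem_Sp rfl⟩
  | cons t L ih =>
    obtain ⟨j, hj⟩ := ih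
    exact ⟨t.length + j, mul_mem_Sp (fun a b ha hb => by omega) (arT_mem t) hj⟩

theorem span_top [Finite A] {H : Set (FreeMagma A)} {r : FreeMagma A → FreeMagma A → Prop}
    (h : Hall H r) (x : Sh A) : x ∈ Submodule.span ℚ
      {y | ∃ L : List (FreeMagma A), (∀ t ∈ L, t ∈ H) ∧ y = (L.map arT).prod} := by
  refine mem_of_wd LinearMap.id _ (fun w => ?_) x
  obtain ⟨σ, ι, e, τ, he, hr, hb, hc⟩ := inv_full h (wt one1 w)
  set n := wt one1 w with hn
  have hmem : ∀ s, e s ∈ H := fun s => by
    have : e s ∈ Set.range e := ⟨s, rfl⟩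
    rw [hr] at this; exact this.1
  have hτ : ∀ i, n < (τ i).length := by
    intro i
    by_contra hi
    obtain ⟨h1, h2, -⟩ := (hc (τ i) (by omega)).1 ⟨i, rfl⟩
    exact h2 ⟨h1, by omega⟩
  have hθ : ∀ c : Sh ι, th (fun i => arT (τ i)) c - co [] c • 1 ∈ Sp one1 (n < ·) := by
    intro c
    refine mem_of_wd ((th (fun i => arT (τ i))).toLinearMap - (co []).smulRight (1 : Sh A)) _
      (fun u => ?_) c
    cases u with
    | nil => simp [← one_def]
    | cons i u =>
      simp only [LinearMap.sub_apply, AlgHom.toLinearMap_apply, LinearMap.smulRight_apply,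
        co_nil_cons, zero_smul, sub_zero, th_cons]
      have := hτ i
      exact hs_mem_Sp (fun a b _ hb => by omega) (mem_Sp_true _ _) (arT_mem (τ i))
  obtain ⟨P, hP⟩ := hb.2 (wd w)
  have key : trunc n (MvPolynomial.eval₂Hom (th (fun i => arT (τ i))).toRingHom
      (fun s => arT (e s)) P) ∈ Submodule.span ℚ
      {y | ∃ L : List (FreeMagma A), (∀ t ∈ L, t ∈ H) ∧ y = (L.map arT).prod} := by
    clear hP
    induction P using MvPolynomial.induction_on' with
    | add p q hp hq => rw [map_add, map_add]; exact Submodule.add_mem _ hp hq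
    | monomial s c =>
      rw [MvPolynomial.eval₂Hom_monomial]
      obtain ⟨L, hL, hQ⟩ : ∃ L : List (FreeMagma A), (∀ t ∈ L, t ∈ H) ∧
          (s.prod fun i k => arT (e i) ^ k) = (L.map arT).prod := by
        induction s using Finsupp.induction_linear with
        | zero => exact ⟨[], by simp, by simp⟩
        | add f g hf hg =>
          obtain ⟨L1, h1, h2⟩ := hf
          obtain ⟨L2, h3, h4⟩ := hg
          refine ⟨L1 ++ L2, ?_, ?_⟩
          · intro t ht
            rcases List.mem_append.1 ht with ht | ht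
            · exact h1 t ht
            · exact h3 t ht
          · rw [Finsupp.prod_add_index' (by simp) (by intros; rw [pow_add]), h2, h4]; simp
        | single i k =>
          refine ⟨List.replicate k (e i), ?_, ?_⟩
          · intro t ht; rw [List.eq_of_mem_replicate ht]; exact hmem i
          · rw [Finsupp.prod_single_index (by simp)]; simp
      rw [hQ]
      have e1 : (th (fun i => arT (τ i))).toRingHom c * (L.map arT).prod =
          (th (fun i => arT (τ i)) c - co [] c • 1) * (L.map arT).prod +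
            co [] c • (L.map arT).prod := by
        rw [sub_mul, smul_mul_assoc, one_mul, sub_add_cancel]; rfl
      rw [e1, map_add, trunc_hi (mul_mem_Sp (fun a b ha _ => by omega) (hθ c) (mem_Sp_true _ _)),
        zero_add, map_smul]
      apply Submodule.smul_mem
      obtain ⟨j, hj⟩ := prod_mem L
      by_cases hjn : j ≤ n
      · rw [trunc_lo (Sp_mono (fun m hm => by omega) hj)]
        exact Submodule.subset_span ⟨L, hL, rfl⟩
      · rw [trunc_hi (Sp_mono (fun m hm => by omega) hj)]
        exact Submodule.zero_mem _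
  rw [hP, trunc_lo (wd_mem_Sp le_rfl)] at key
  exact key

theorem monomial_list {σ : Type} (L : List σ) :
    MvPolynomial.monomial (Multiset.toFinsupp (L : Multiset σ)) (1 : ℚ) =
      (L.map MvPolynomial.X).prod := by
  induction L with
  | nil => simp
  | cons a L ih =>
    rw [← Multiset.cons_coe, ← Multiset.singleton_add, map_add, Multiset.toFinsupp_singleton,
      MvPolynomial.monomial_single_add, ih]
    simp

theorem main [Finite A] {H : Set (FreeMagma A)} {r : FreeMagma A → FreeMagma A → Prop}
    (h : Hall H r) :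
    LinearIndependent ℚ (fun l : {l : List (FreeMagma A) //
          (∀ t ∈ l, t ∈ H) ∧ l.Pairwise (fun x y => ¬ r x y)} => (l.1.map arT).prod) ∧
    Submodule.span ℚ (Set.range (fun l : {l : List (FreeMagma A) //
          (∀ t ∈ l, t ∈ H) ∧ l.Pairwise (fun x y => ¬ r x y)} => (l.1.map arT).prod)) = ⊤ := by
  have := h.sto
  constructor
  · let φ : {l : List (FreeMagma A) //
          (∀ t ∈ l, t ∈ H) ∧ l.Pairwise (fun x y => ¬ r x y)} → List H :=
      fun l => l.1.pmap Subtype.mk l.2.1
    have hφ : ∀ l, (φ l).map Subtype.val = l.1 := by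
      intro l; simp [φ, List.map_pmap]
    have hinj : Function.Injective (fun l => Multiset.toFinsupp (φ l : Multiset H)) := by
      intro l l' hl
      have h1 : (φ l).Perm (φ l') := Multiset.coe_eq_coe.1 (Multiset.toFinsupp.injective hl)
      have h2 := h1.map Subtype.val
      rw [hφ, hφ] at h2
      apply Subtype.ext
      refine List.Perm.eq_of_pairwise (fun a b _ _ hab hba => ?_) l.2.2 l'.2.2 h2
      rcases trichotomous_of r a b with h3 | h3 | h3
      · exact (hab h3).elim
      · exact h3
      · exact (hba h3).elim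
    have h1 := ((MvPolynomial.basisMonomials H ℚ).linearIndependent.comp _ hinj).map'
      (MvPolynomial.aeval (R := ℚ) (fun t : H => arT t.1)).toLinearMap
      (LinearMap.ker_eq_bot.2 (aeval_inj h))
    suffices e : (fun l : {l : List (FreeMagma A) //
          (∀ t ∈ l, t ∈ H) ∧ l.Pairwise (fun x y => ¬ r x y)} => (l.1.map arT).prod) =
        (⇑(MvPolynomial.aeval (R := ℚ) (fun t : H => arT t.1)).toLinearMap ∘
          ⇑(MvPolynomial.basisMonomials H ℚ) ∘ fun l => Multiset.toFinsupp (φ l : Multiset H)) by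
      rw [e]; exact h1
    funext l
    simp only [Function.comp_apply, MvPolynomial.coe_basisMonomials, AlgHom.toLinearMap_apply]
    have hm := monomial_list (φ l)
    rw [show (MvPolynomial.monomial (Multiset.toFinsupp (φ l : Multiset H)) (1 : ℚ)) =
      ((φ l).map MvPolynomial.X).prod by convert hm, map_list_prod, List.map_map,
      ← hφ l, List.map_map]
    congr 2
    funext t
    simp
  · rw [eq_top_iff]
    intro x _
    refine Submodule.span_mono ?_ (span_top h x)
    rintro _ ⟨L, hL, rfl⟩
    have : Std.Total (fun x y : FreeMagma A => ¬ r x y) := ⟨fun a b => by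
      by_cases hab : r a b
      · exact Or.inr (asymm_of r hab)
      · exact Or.inl hab⟩
    have : IsTrans (FreeMagma A) (fun x y : FreeMagma A => ¬ r x y) := ⟨fun a b c h1 h2 h3 => by
      rcases trichotomous_of r a b with h4 | h4 | h4
      · exact h1 h4
      · exact h2 (h4 ▸ h3)
      · exact h2 (trans_of r h4 h3)⟩
    have hp := List.perm_insertionSort (fun x y : FreeMagma A => ¬ r x y) L
    refine ⟨⟨L.insertionSort (fun x y : FreeMagma A => ¬ r x y),
      fun t ht => hL t (hp.mem_iff.1 ht), List.pairwise_insertionSort _ _⟩, ?_⟩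
    exact (hp.map arT).prod_eq

end Pool.Agent.H74.Shuf
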