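import Pool.Agent.H74.Shuf

set_option autoImplicit false

namespace Pool.Agent.H74.Shuf

open Classical Polynomial

variable {Y W : Type}

/-- the top-to-random operator -/
noncomputable def Ew : List W → Sh W
  | [] => 0
  | a :: u => wd u * wd [a]

noncomputable def E : Sh W →ₗ[ℚ] Sh W := onW Ew

theorem E_I (a : W) (x : Sh W) : E (I a x) = x * wd [a] := by
  have : E ∘ₗ I a = LinearMap.mulRight ℚ (wd [a]) := lext fun w => by
    simp [I_wd, E, Ew]
  exact LinearMap.congr_fun this x

theorem E_one : E (1 : Sh W) = 0 := by simp [one_def, E, Ew]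

theorem E_cons (a : W) (u : List W) : E (wd (a :: u)) = wd u * wd [a] := by simp [E, Ew]

theorem E_mul (x y : Sh W) : E (x * y) = E x * y + x * E y := by
  induction x using ind with
  | h0 => simp
  | hadd x x' hx hx' => simp only [map_add, add_mul, hx, hx']; abel
  | hs p u =>
    induction y using ind with
    | h0 => simp
    | hadd y y' hy hy' => simp only [map_add, mul_add, hy, hy']; abel
    | hs q v =>
      simp only [map_smul, smul_mul_assoc, mul_smul_comm, ← smul_add]
      congr 2
      cases u with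
      | nil => rw [← one_def]; simp [E_one]
      | cons a u =>
        cases v with
        | nil => rw [← one_def]; simp [E_one]
        | cons b v =>
          rw [wd_mul_cons, map_add, E_I, E_I, E_cons, E_cons]; ring

theorem E_prod (P : List W) :
    E (P.map (fun a => wd [a])).prod = (P.length : ℚ) • (P.map (fun a => wd [a])).prod := by
  induction P with
  | nil => simp [E_one]
  | cons a P ih =>
    simp only [List.map_cons, List.prod_cons, List.length_cons, E_mul, ih, E_cons, ← one_def,
      Algebra.smul_def, map_natCast]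
    push_cast
    ring

/-- elements killed by a polynomial in `E` that does not vanish at `c` -/
noncomputable def Gd (W : Type) (c : ℚ) : Submodule ℚ (Sh W) where
  carrier := {x | ∃ q : ℚ[X], q.eval c ≠ 0 ∧ (aeval (E : Module.End ℚ (Sh W)) q) x = 0}
  zero_mem' := ⟨1, by simp, by simp⟩
  add_mem' := by
    rintro x y ⟨q, hq, hx⟩ ⟨r, hr, hy⟩
    refine ⟨q * r, by simp [hq, hr], ?_⟩
    rw [map_add]
    have h1 : (aeval (E : Module.End ℚ (Sh W)) (q * r)) x = 0 := by
      rw [mul_comm, map_mul, Module.End.mul_apply, hx, map_zero]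
    have h2 : (aeval (E : Module.End ℚ (Sh W)) (q * r)) y = 0 := by
      rw [map_mul, Module.End.mul_apply, hy, map_zero]
    rw [h1, h2, add_zero]
  smul_mem' := by
    rintro c x ⟨q, hq, hx⟩
    exact ⟨q, hq, by rw [map_smul, hx, smul_zero]⟩

theorem mem_Gd_of {c k : ℚ} (hk : c ≠ k) {x : Sh W} (h : E x - k • x ∈ Gd W c) : x ∈ Gd W c := by
  obtain ⟨q, hq, hx⟩ := h
  refine ⟨q * (X - C k), by simp [hq, sub_eq_zero, hk], ?_⟩
  rw [map_mul, Module.End.mul_apply]
  simpa using hx

theorem wd_mem_Gd {c : ℚ} (hc : c < 0) (u : List W) : ∀ P : List W,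
    wd u * (P.map (fun a => wd [a])).prod ∈ Gd W c := by
  induction u with
  | nil =>
    intro P
    have hk : c ≠ (P.length : ℚ) := by
      have : (0 : ℚ) ≤ P.length := Nat.cast_nonneg _
      intro h; linarith
    apply mem_Gd_of hk
    rw [← one_def, one_mul, E_prod, sub_self]
    exact Submodule.zero_mem _
  | cons a u ih =>
    intro P
    have hk : c ≠ (P.length : ℚ) := by
      have : (0 : ℚ) ≤ P.length := Nat.cast_nonneg _
      intro h; linarith
    apply mem_Gd_of hk
    rw [E_mul, E_prod, E_cons, mul_smul_comm, add_sub_cancel_right]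
    have := ih (a :: P)
    simpa [mul_assoc] using this

theorem mem_Gd {c : ℚ} (hc : c < 0) (x : Sh W) : x ∈ Gd W c :=
  mem_of_wd LinearMap.id _ (fun w => by simpa using wd_mem_Gd hc w []) x

theorem E_inj {c : ℚ} (hc : c < 0) {x : Sh W} (h : E x = c • x) : x = 0 := by
  obtain ⟨q, hq, hx⟩ := mem_Gd hc x
  by_contra h0
  have hv : Module.End.HasEigenvector (E : Module.End ℚ (Sh W)) c x :=
    ⟨Module.End.mem_eigenspace_iff.2 h, h0⟩
  rw [Module.End.aeval_apply_of_hasEigenvector hv] at hx
  exact h0 ((smul_eq_zero.1 hx).resolve_left hq)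

theorem E_surj {c : ℚ} (hc : c < 0) (x : Sh W) : ∃ y, E y - c • y = x := by
  obtain ⟨q, hq, hx⟩ := mem_Gd hc x
  have hd := X_sub_C_mul_divByMonic_eq_sub_modByMonic q c
  rw [modByMonic_X_sub_C_eq_C_eval] at hd
  set r := q /ₘ (X - C c)
  refine ⟨-(q.eval c)⁻¹ • (aeval (E : Module.End ℚ (Sh W)) r) x, ?_⟩
  have h1 : (aeval (E : Module.End ℚ (Sh W)) ((X - C c) * r)) x = - (q.eval c) • x := by
    rw [hd, map_sub, LinearMap.sub_apply, hx]; simp
  rw [map_mul, Module.End.mul_apply] at h1
  simp only [map_sub, aeval_X, aeval_C, LinearMap.sub_apply, Module.algebraMap_end_apply] at h1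
  rw [map_smul, smul_comm c, ← smul_sub, h1, smul_smul]
  field_simp
  simp

/-- area -/
noncomputable def ar2 (x y : Sh Y) : Sh Y := hs x y - hs y x

theorem th_ar2 {X' : Type} (α : Y → Sh X') (x y : Sh Y) :
    th α (ar2 x y) = ar2 (th α x) (th α y) := by
  simp [ar2, th_hs]

theorem co_ar2 (x y : Sh Y) : co [] (ar2 x y) = 0 := by simp [ar2]

theorem D_ar2 (c : Y) (x y : Sh Y) : D c (ar2 x y) = x * D c y - y * D c x := by
  simp [ar2, D_hs]

/-- the new alphabet after eliminating `z` -/
abbrev Al (z : Y) : Type := {y : Y // y ≠ z} × ℕ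

variable (z : Y)

noncomputable def be (y : {y : Y // y ≠ z}) : ℕ → Sh Y
  | 0 => wd [y.1]
  | k + 1 => ar2 (be y k) (wd [z])

noncomputable def ze : Sh Y := - wd [z]

noncomputable def sg (y : {y : Y // y ≠ z}) : ℕ → Sh Y
  | 0 => 0
  | k + 1 => be z y k + ze z * sg y k

theorem D_letter (c a : Y) : D c (wd [a]) = if c = a then 1 else 0 := by
  rw [D_cons, one_def]

theorem co_be (y : {y : Y // y ≠ z}) (k : ℕ) : co [] (be z y k) = 0 := by
  cases k with
  | zero => simp [be]
  | succ k => simp [be, co_ar2]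

theorem D_be_z (y : {y : Y // y ≠ z}) (k : ℕ) : D z (be z y k) = sg z y k := by
  induction k with
  | zero => simp [be, sg, D_letter, y.2.symm]
  | succ k ih => simp only [be, sg, D_ar2, ih, D_letter, ze, if_true]; ring

theorem D_be_y (c y : {y : Y // y ≠ z}) (k : ℕ) :
    D c.1 (be z y k) = if y = c then ze z ^ k else 0 := by
  induction k with
  | zero =>
    simp only [be, D_letter, pow_zero]
    by_cases h : y = c
    · simp [h]
    · have : ¬ c.1 = y.1 := fun e => h (Subtype.ext e.symm)
      simp [h, this]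
  | succ k ih =>
    simp only [be, D_ar2, ih, D_letter, ze, if_neg c.2]
    split_ifs <;> ring

theorem D_ze_z : D z (ze z) = -1 := by simp [ze, D_letter]
theorem D_ze_y (c : {y : Y // y ≠ z}) : D c.1 (ze z) = 0 := by simp [ze, D_letter, c.2]

theorem D_zepow_y (c : {y : Y // y ≠ z}) (m : ℕ) : D c.1 (ze z ^ m) = 0 := by
  cases m with
  | zero => simp
  | succ m => rw [D_pow, D_ze_y]; simp

noncomputable def Th : Sh (Al z) →ₐ[ℚ] Sh Y := th (fun p : Al z => be z p.1 p.2)

noncomputable def Ph : (Sh (Al z))[X] →ₐ[ℚ] Sh Y :=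
  Polynomial.eval₂AlgHom (Th z) (ze z) (fun _ => Commute.all _ _)

theorem Ph_mono (m : ℕ) (x : Sh (Al z)) : Ph z (monomial m x) = Th z x * ze z ^ m := by
  simp [Ph]

theorem Ph_C (x : Sh (Al z)) : Ph z (C x) = Th z x := by simp [Ph]
theorem Ph_X : Ph z X = ze z := by simp [Ph]

/-- linear maps on polynomials over the shuffle algebra, from values on the basis -/
noncomputable def onP {M : Type} [AddCommGroup M] [Module ℚ M] (f : ℕ → List W → M) :
    (Sh W)[X] →ₗ[ℚ] M := Polynomial.lsum (fun m => onW (f m))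

theorem onP_mono' {M : Type} [AddCommGroup M] [Module ℚ M] (f : ℕ → List W → M) (m : ℕ)
    (x : Sh W) : onP f (monomial m x) = onW (f m) x := by
  simp [onP, Polynomial.lsum_apply, Polynomial.sum_monomial_index]

theorem onP_mono {M : Type} [AddCommGroup M] [Module ℚ M] (f : ℕ → List W → M) (m : ℕ)
    (u : List W) : onP f (monomial m (wd u)) = f m u := by
  rw [onP_mono', onW_wd]

theorem smul_mono (c : ℚ) (m : ℕ) (x : Sh W) : monomial m (c • x) = c • monomial m x := by
  rw [Polynomial.smul_monomial]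

theorem indP {P : (Sh W)[X] → Prop} (x : (Sh W)[X]) (h0 : P 0)
    (hadd : ∀ x y, P x → P y → P (x + y))
    (hs : ∀ (c : ℚ) (m : ℕ) (w : List W), P (c • monomial m (wd w))) : P x := by
  induction x using Polynomial.induction_on' with
  | add p q hp hq => exact hadd p q hp hq
  | monomial m a =>
    induction a using ind with
    | h0 => simpa using h0
    | hadd x y hx hy => rw [map_add]; exact hadd _ _ hx hy
    | hs c w => rw [smul_mono]; exact hs c m w

theorem lextP {M : Type} [AddCommGroup M] [Module ℚ M] {f g : (Sh W)[X] →ₗ[ℚ] M}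
    (h : ∀ m w, f (monomial m (wd w)) = g (monomial m (wd w))) : f = g := by
  apply LinearMap.ext
  intro x
  induction x using indP with
  | h0 => simp
  | hadd x y hx hy => simp [hx, hy]
  | hs c m w => simp only [map_smul, h]

noncomputable def sgh (y : {y : Y // y ≠ z}) : ℕ → (Sh (Al z))[X]
  | 0 => 0
  | k + 1 => C (wd [(y, k)]) + X * sgh y k

theorem Th_letter (p : Al z) : Th z (wd [p]) = be z p.1 p.2 :=
  th_letter _ _ (co_be z _ _)

theorem Ph_sgh (y : {y : Y // y ≠ z}) (k : ℕ) : Ph z (sgh z y k) = sg z y k := by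
  induction k with
  | zero => simp [sgh, sg]
  | succ k ih => simp only [sgh, sg, map_add, map_mul, ih, Ph_C, Ph_X, Th_letter]

theorem coeff_sgh (y : {y : Y // y ≠ z}) (k : ℕ) : ∀ i,
    (sgh z y k).coeff i = if i < k then wd [(y, k - 1 - i)] else 0 := by
  induction k with
  | zero => intro i; simp [sgh]
  | succ k ih =>
    intro i
    cases i with
    | zero => simp [sgh]
    | succ i =>
      simp only [sgh, coeff_add, coeff_C_succ, coeff_X_mul, ih, zero_add]
      by_cases h : i < k
      · rw [if_pos h, if_pos (by omega)]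
        congr 3; omega
      · rw [if_neg h, if_neg (by omega)]

noncomputable def dyw (c : {y : Y // y ≠ z}) (m : ℕ) : List (Al z) → (Sh (Al z))[X]
  | [] => 0
  | p :: u => if p.1 = c then monomial (p.2 + m) (wd u) else 0

noncomputable def dzw (m : ℕ) : List (Al z) → (Sh (Al z))[X]
  | [] => 0
  | p :: u => sgh z p.1 p.2 * monomial m (wd u)

noncomputable def Mw (m : ℕ) : List (Al z) → Sh (Al z)
  | [] => 0
  | p :: u => wd ((p.1, p.2 + m) :: u)

noncomputable def Epw (q : ℕ) : List (Al z) → Sh (Al z)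
  | [] => 0
  | p :: u => if q < p.2 then wd u * wd [(p.1, p.2 - 1 - q)] else 0

noncomputable def Dy (c : {y : Y // y ≠ z}) : (Sh (Al z))[X] →ₗ[ℚ] (Sh (Al z))[X] :=
  onP (dyw z c)

noncomputable def Dz : (Sh (Al z))[X] →ₗ[ℚ] (Sh (Al z))[X] :=
  onP (dzw z) - (derivative (R := Sh (Al z))).restrictScalars ℚ

noncomputable def Mm : (Sh (Al z))[X] →ₗ[ℚ] Sh (Al z) := onP (Mw z)

noncomputable def Ep (q : ℕ) : Sh (Al z) →ₗ[ℚ] Sh (Al z) := onW (Epw z q)

theorem Th_cons (p : Al z) (u : List (Al z)) :
    Th z (wd (p :: u)) = hs (Th z (wd u)) (be z p.1 p.2) := th_cons _ _ _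

theorem D_Ph_y (c : {y : Y // y ≠ z}) (x : (Sh (Al z))[X]) :
    D c.1 (Ph z x) = Ph z (Dy z c x) := by
  have : D c.1 ∘ₗ (Ph z).toLinearMap = (Ph z).toLinearMap ∘ₗ Dy z c := lextP fun m w => by
    simp only [LinearMap.comp_apply, AlgHom.toLinearMap_apply, Dy, onP_mono, Ph_mono, D_mul,
      D_zepow_y]
    cases w with
    | nil => rw [← one_def]; simp [dyw]
    | cons p u =>
      rw [Th_cons, D_hs, D_be_y, dyw]
      split_ifs
      · rw [Ph_mono]; ring
      · simp
  exact LinearMap.congr_fun this x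

theorem D_Ph_z (x : (Sh (Al z))[X]) : D z (Ph z x) = Ph z (Dz z x) := by
  have : D z ∘ₗ (Ph z).toLinearMap = (Ph z).toLinearMap ∘ₗ Dz z := lextP fun m w => by
    simp only [LinearMap.comp_apply, AlgHom.toLinearMap_apply, Dz, LinearMap.sub_apply, onP_mono,
      Ph_mono, D_mul, LinearMap.restrictScalars_apply, derivative_monomial, map_sub]
    have h1 : Th z (wd w) * D z (ze z ^ m) = - (Th z (wd w * (m : Sh (Al z))) * ze z ^ (m - 1)) := by
      cases m with
      | zero => simp
      | succ m =>
        rw [D_pow, D_ze_z, map_mul, map_natCast, Algebra.smul_def, map_natCast]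
        simp only [Nat.add_sub_cancel]
        ring
    rw [h1, sub_eq_add_neg]
    congr 1
    cases w with
    | nil => rw [← one_def]; simp [dzw]
    | cons p u => rw [Th_cons, D_hs, D_be_z, dzw, map_mul, Ph_sgh, Ph_mono]; ring
  exact LinearMap.congr_fun this x

theorem co_Ph (x : (Sh (Al z))[X]) : co [] (Ph z x) = co [] (x.coeff 0) := by
  induction x using Polynomial.induction_on' with
  | add p q hp hq => simp only [map_add, coeff_add, hp, hq]
  | monomial m a =>
    rw [Ph_mono, co_mul, Th, co_th]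
    cases m with
    | zero => simp
    | succ m =>
      rw [pow_succ, co_mul, coeff_monomial]
      simp [ze]

theorem D_Mm (p : Al z) (x : (Sh (Al z))[X]) : D p (Mm z x) = (Dy z p.1 x).coeff p.2 := by
  have : D p ∘ₗ Mm z = (lcoeff (Sh (Al z)) p.2).restrictScalars ℚ ∘ₗ Dy z p.1 := lextP fun m w => by
    simp only [LinearMap.comp_apply, Mm, Dy, onP_mono, LinearMap.restrictScalars_apply,
      lcoeff_apply]
    cases w with
    | nil => simp [Mw, dyw]
    | cons r u =>
      obtain ⟨c, n⟩ := p
      obtain ⟨y, k⟩ := r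
      simp only [Mw, dyw, D_cons, Prod.mk.injEq]
      by_cases h : y = c
      · subst h
        simp only [true_and, if_true, coeff_monomial]
        by_cases h2 : n = k + m
        · simp [h2]
        · rw [if_neg h2, if_neg (fun e => h2 e.symm)]
      · have : ¬ c = y := fun e => h e.symm
        simp [h, this]
  exact LinearMap.congr_fun this x

theorem co_Mm (x : (Sh (Al z))[X]) : co [] (Mm z x) = 0 := by
  have : co [] ∘ₗ Mm z = 0 := lextP fun m w => by
    simp only [LinearMap.comp_apply, Mm, onP_mono]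
    cases w with
    | nil => simp [Mw]
    | cons r u => simp [Mw]
  exact LinearMap.congr_fun this x

theorem Mm_C (x : Sh (Al z)) : Mm z (C x) = x - co [] x • 1 := by
  induction x using ind with
  | h0 => simp
  | hadd x y hx hy => simp only [map_add, hx, hy, add_smul]; abel
  | hs c w =>
    rw [← monomial_zero_left, smul_mono, map_smul, Mm, onP_mono]
    cases w with
    | nil => simp [Mw, one_def]
    | cons r u => simp [Mw]

/-- the key functional -/
noncomputable def Lq (q : ℕ) : (Sh (Al z))[X] →ₗ[ℚ] Sh (Al z) :=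
  (lcoeff (Sh (Al z)) q).restrictScalars ℚ ∘ₗ Dz z - Ep z q ∘ₗ Mm z

theorem Lq_apply (q : ℕ) (x : (Sh (Al z))[X]) :
    Lq z q x = (Dz z x).coeff q - Ep z q (Mm z x) := rfl

theorem Lq_mono (q m : ℕ) (hm : m ≤ q + 1) (x : Sh (Al z)) :
    Lq z q (monomial m x) =
      if m = q + 1 then - (E x - (-((q + 1 : ℕ) : ℚ)) • x) else 0 := by
  induction x using ind with
  | h0 => simp
  | hadd x y hx hy =>
    rw [map_add, map_add, hx, hy]
    split_ifs
    · simp only [map_add, smul_add]; abel
    · simp
  | hs c w =>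
    rw [smul_mono, map_smul]
    have : Lq z q (monomial m (wd w)) =
        if m = q + 1 then - (E (wd w) - (-((q + 1 : ℕ) : ℚ)) • wd w) else 0 := by
      rw [Lq_apply]
      simp only [Dz, LinearMap.sub_apply, onP_mono, Mm, LinearMap.restrictScalars_apply, coeff_sub,
        coeff_derivative, coeff_monomial]
      have hc : ∀ v : Sh (Al z), v * ((q : Sh (Al z)) + 1) = ((q + 1 : ℕ) : ℚ) • v := by
        intro v
        rw [Algebra.smul_def, map_natCast]; push_cast; ring
      cases w with
      | nil =>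
        rw [← one_def]
        simp only [dzw, Mw, coeff_zero, map_zero, E_one]
        split_ifs
        · rw [hc, neg_smul]; abel
        · simp
      | cons r u =>
        obtain ⟨y, k⟩ := r
        simp only [dzw, Mw, Ep, onW_wd, Epw, E_cons]
        rw [← C_mul_X_pow_eq_monomial, ← mul_assoc, coeff_mul_X_pow', coeff_mul_C, coeff_sgh]
        by_cases h : m = q + 1
        · subst h
          rw [if_neg (by omega), if_pos rfl, if_pos (by omega), if_pos rfl, hc]
          have : k + (q + 1) - 1 - q = k := by omega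
          rw [this, neg_smul]; abel
        · rw [if_pos (by omega), if_neg h, if_neg h]
          by_cases h2 : q - m < k
          · rw [if_pos h2, if_pos (by omega)]
            have : k + m - 1 - q = k - 1 - (q - m) := by omega
            rw [this, mul_comm (wd u), zero_mul]; abel
          · rw [if_neg h2, if_neg (by omega)]; simp
    rw [this]
    split_ifs
    · rw [map_smul, smul_neg, smul_sub, smul_comm c]
    · simp

theorem Lq_low (q : ℕ) (x : (Sh (Al z))[X]) (hx : x.natDegree ≤ q + 1) :
    Lq z q x = - (E (x.coeff (q + 1)) - (-((q + 1 : ℕ) : ℚ)) • x.coeff (q + 1)) := by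
  conv_lhs => rw [x.as_sum_range' (q + 2) (by omega)]
  rw [map_sum, Finset.sum_range_succ, Lq_mono z q _ le_rfl, if_pos rfl, Finset.sum_eq_zero, zero_add]
  intro m hm
  have := Finset.mem_range.1 hm
  rw [Lq_mono z q _ (by omega), if_neg (by omega)]

theorem uniq (x : (Sh (Al z))[X]) (hy : ∀ c, Dy z c x = 0) (hz : Dz z x = 0)
    (h0 : co [] (x.coeff 0) = 0) : x = 0 := by
  have hM : Mm z x = 0 := by
    apply dext
    · simp [co_Mm]
    · intro p; rw [D_Mm, hy]; simp
  cases hd : x.natDegree with
  | zero =>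
    rw [eq_C_of_natDegree_eq_zero hd] at hM ⊢
    rw [Mm_C, h0, zero_smul, sub_zero] at hM
    rw [hM, map_zero]
  | succ q =>
    have h1 := Lq_low z q x hd.le
    rw [Lq_apply, hz, hM] at h1
    simp only [coeff_zero, map_zero, sub_zero, zero_eq_neg, sub_eq_zero] at h1
    have h2 : x.coeff (q + 1) = 0 := E_inj (by
      have : (0 : ℚ) < ((q + 1 : ℕ) : ℚ) := by positivity
      linarith) h1
    rw [← leadingCoeff_eq_zero, leadingCoeff, hd, h2]

def om (p : Al z) : ℕ := p.2 + 1

noncomputable def RW (n : ℕ) : Submodule ℚ (Sh (Al z))[X] :=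
  Submodule.span ℚ {x | ∃ m u, wt (om z) u + m < n ∧ x = monomial m (wd u)}

noncomputable def monoL (m : ℕ) : Sh W →ₗ[ℚ] (Sh W)[X] := (monomial m).restrictScalars ℚ

theorem mono_mem_RW {n m i : ℕ} (h : i + m < n) {x : Sh (Al z)} (hx : x ∈ Sp (om z) (· = i)) :
    monomial m x ∈ RW z n :=
  Sp_map (monoL m) (RW z n) (fun w hw => Submodule.subset_span ⟨m, w, by omega, rfl⟩) hx

theorem RW_map {n : ℕ} (f : (Sh (Al z))[X] →ₗ[ℚ] (Sh (Al z))[X]) (S : Submodule ℚ (Sh (Al z))[X])
    (h : ∀ m u, wt (om z) u + m < n → f (monomial m (wd u)) ∈ S) {x : (Sh (Al z))[X]}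
    (hx : x ∈ RW z n) : f x ∈ S := by
  have : RW z n ≤ S.comap f := by
    apply Submodule.span_le.2
    rintro _ ⟨m, u, hw, rfl⟩
    exact h m u hw
  exact this hx

theorem Dy_mem {n : ℕ} (c : {y : Y // y ≠ z}) {x : (Sh (Al z))[X]} (hx : x ∈ RW z (n + 1)) :
    Dy z c x ∈ RW z n := by
  refine RW_map z _ _ (fun m u h => ?_) hx
  rw [Dy, onP_mono]
  cases u with
  | nil => simp [dyw]
  | cons p u =>
    rw [dyw]
    split_ifs
    · simp only [wt_cons, om] at h
      exact mono_mem_RW z (i := wt (om z) u) (by omega) (wd_mem_Sp rfl)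
    · simp

theorem sgh_mem (y : {y : Y // y ≠ z}) (u : List (Al z)) (n k : ℕ) : ∀ m,
    wt (om z) u + k + m < n → sgh z y k * monomial m (wd u) ∈ RW z n := by
  induction k with
  | zero => intro m _; simp [sgh]
  | succ k ih =>
    intro m h
    rw [sgh, add_mul, C_mul_monomial, mul_comm X, mul_assoc, X_mul_monomial]
    apply Submodule.add_mem
    · refine mono_mem_RW z (i := k + 1 + wt (om z) u) (by omega) ?_
      exact mul_mem_Sp (P := (· = k + 1)) (Q := (· = wt (om z) u))
        (fun i j hi hj => by omega) (wd_mem_Sp (by simp [om])) (wd_mem_Sp rfl)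
    · exact ih _ (by omega)

theorem Dz_mem {n : ℕ} {x : (Sh (Al z))[X]} (hx : x ∈ RW z (n + 1)) : Dz z x ∈ RW z n := by
  refine RW_map z _ _ (fun m u h => ?_) hx
  simp only [Dz, LinearMap.sub_apply, onP_mono, LinearMap.restrictScalars_apply,
    derivative_monomial]
  apply Submodule.sub_mem
  · cases u with
    | nil => simp [dzw]
    | cons p u =>
      simp only [wt_cons, om] at h
      exact sgh_mem z _ _ _ _ _ (by omega)
  · cases m with
    | zero => simp
    | succ m =>
      refine mono_mem_RW z (i := wt (om z) u) (by omega) ?_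
      have : wd u * ((m + 1 : ℕ) : Sh (Al z)) = ((m + 1 : ℕ) : ℚ) • wd u := by
        rw [Algebra.smul_def, map_natCast, mul_comm]
      rw [this]
      exact Submodule.smul_mem _ _ (wd_mem_Sp rfl)

theorem RW_mono {n n' : ℕ} (h : n ≤ n') {x : (Sh (Al z))[X]} (hx : x ∈ RW z n) : x ∈ RW z n' :=
  RW_map z LinearMap.id (RW z n') (fun m u hu => Submodule.subset_span ⟨m, u, by omega, rfl⟩) hx

theorem exists_RW (x : (Sh (Al z))[X]) : ∃ n, x ∈ RW z n := by
  induction x using indP with
  | h0 => exact ⟨0, Submodule.zero_mem _⟩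
  | hadd x y hx hy =>
    obtain ⟨n, hn⟩ := hx
    obtain ⟨m, hm⟩ := hy
    exact ⟨n + m, Submodule.add_mem _ (RW_mono z (by omega) hn) (RW_mono z (by omega) hm)⟩
  | hs c m w =>
    exact ⟨_, Submodule.smul_mem _ _ (Submodule.subset_span ⟨m, w, Nat.lt_succ_self _, rfl⟩)⟩

theorem Ph_inj_aux (n : ℕ) : ∀ x ∈ RW z n, Ph z x = 0 → x = 0 := by
  induction n with
  | zero =>
    intro x hx _
    have := RW_map z LinearMap.id ⊥ (fun m u h => by omega) hx
    simpa using this
  | succ n ih =>
    intro x hx h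
    apply uniq
    · intro c
      exact ih _ (Dy_mem z c hx) (by rw [← D_Ph_y, h, map_zero])
    · exact ih _ (Dz_mem z hx) (by rw [← D_Ph_z, h, map_zero])
    · rw [← co_Ph, h, map_zero]

theorem Ph_inj : Function.Injective (Ph z) := by
  rw [injective_iff_map_eq_zero]
  intro x hx
  obtain ⟨n, hn⟩ := exists_RW z x
  exact Ph_inj_aux z n x hn hx

theorem Dy_C_Mm (c : {y : Y // y ≠ z}) (x : (Sh (Al z))[X]) : Dy z c (C (Mm z x)) = Dy z c x := by
  ext n
  rw [← D_Mm z (c, n), ← D_Mm z (c, n), Mm_C, co_Mm, zero_smul, sub_zero]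

theorem Iz_mem_aux (x : (Sh (Al z))[X]) (h0 : x.coeff 0 = 0) :
    I z (Ph z (Dz z x - Dz z (C (Mm z x)))) = Ph z (x - C (Mm z x)) := by
  apply dext
  · rw [co_nil_I, co_Ph]; simp [h0, co_Mm]
  · intro c
    rw [D_I]
    split_ifs with h
    · subst h; rw [D_Ph_z, map_sub (Dz c)]
    · rw [D_Ph_y z ⟨c, h⟩, map_sub, Dy_C_Mm, sub_self, map_zero]

theorem Iz_mem (q : ℕ) : ∀ x : (Sh (Al z))[X], (∀ i, q ≤ i → x.coeff i = 0) →
    I z (Ph z x) ∈ (Ph z).range := by
  induction q with
  | zero =>
    intro x hx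
    have : x = 0 := by ext i; simp [hx i (Nat.zero_le _)]
    simp [this]
  | succ q ih =>
    intro x hx
    obtain ⟨y, hy⟩ := E_surj (c := -((q + 1 : ℕ) : ℚ)) (by
      have : (0 : ℚ) < ((q + 1 : ℕ) : ℚ) := by positivity
      linarith) (x.coeff q)
    set N := Dz z (monomial (q + 1) y) - Dz z (C (Mm z (monomial (q + 1) y))) with hN
    have hc : ∀ i, N.coeff i = Lq z i (monomial (q + 1) y) := by
      intro i
      have h1 := Lq_mono z i 0 (by omega) (Mm z (monomial (q + 1) y))
      rw [if_neg (by omega), Lq_apply, monomial_zero_left, Mm_C, co_Mm, zero_smul, sub_zero,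
        sub_eq_zero] at h1
      rw [hN, coeff_sub, h1, Lq_apply]
    have h1 : I z (Ph z N) ∈ (Ph z).range := by
      rw [hN, Iz_mem_aux z _ (by simp [coeff_monomial])]
      exact ⟨_, rfl⟩
    have h2 : I z (Ph z (x + N)) ∈ (Ph z).range := by
      apply ih
      intro i hi
      rw [coeff_add, hc, Lq_mono z i _ (by omega)]
      split_ifs with h
      · have : i = q := by omega
        subst this
        rw [hy]; simp
      · rw [hx i (by omega)]; simp
    have : I z (Ph z x) = I z (Ph z (x + N)) - I z (Ph z N) := by simp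
    rw [this]
    exact sub_mem h2 h1

theorem Iz_mem' (x : (Sh (Al z))[X]) : I z (Ph z x) ∈ (Ph z).range :=
  Iz_mem z (x.natDegree + 1) x (fun _ hi => coeff_eq_zero_of_natDegree_lt (by omega))

theorem I_mem (c : Y) (x : (Sh (Al z))[X]) : I c (Ph z x) ∈ (Ph z).range := by
  by_cases h : c = z
  · subst h; exact Iz_mem' c x
  induction x using Polynomial.induction_on' with
  | add p q hp hq => rw [map_add, map_add]; exact add_mem hp hq
  | monomial m a =>
    have : I c (Ph z (monomial m a)) =
        Ph z (C (I (⟨c, h⟩, m) a)) - I z (Ph z (C a * sgh z ⟨c, h⟩ m)) := by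
      rw [Ph_C, map_mul, Ph_C, Ph_sgh, Ph_mono, Th, th_I]
      apply dext
      · simp
      · intro b
        rw [map_sub, D_I, D_I, D_hs]
        by_cases hb : b = z
        · subst hb
          rw [if_neg (fun e => h e.symm), if_pos rfl, D_be_z, sub_self]
        · rw [if_neg hb, D_be_y z ⟨b, hb⟩, sub_zero]
          by_cases hbc : b = c
          · subst hbc; simp
          · rw [if_neg hbc, if_neg (fun e => hbc (congrArg Subtype.val e).symm), mul_zero]
    rw [this]
    exact sub_mem ⟨_, rfl⟩ (Iz_mem' z _)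

theorem Ph_surj : Function.Surjective (Ph z) := by
  intro x
  have : x ∈ Subalgebra.toSubmodule (Ph z).range := by
    refine mem_of_wd LinearMap.id _ (fun w => ?_) x
    show wd w ∈ (Ph z).range
    induction w with
    | nil => exact one_mem _
    | cons a w ih =>
      obtain ⟨y, hy⟩ := ih
      rw [← I_wd, ← hy]
      exact I_mem z a y
  exact this

theorem Ph_bij : Function.Bijective (Ph z) := ⟨Ph_inj z, Ph_surj z⟩

end Pool.Agent.H74.Shuf
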