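import Mathlib

namespace Pool.Agent.H74.So
open Finset

noncomputable def Gr (N σ x : ℕ) : ℝ :=
  if x ≤ σ then (x : ℝ) * (N - σ) / N else (σ : ℝ) * (N - x) / N

theorem Gr_nonneg {N σ x : ℕ} (h1 : σ ≤ N) (h2 : x ≤ N) : 0 ≤ Gr N σ x := by
  have a1 : (σ : ℝ) ≤ N := by exact_mod_cast h1
  have a2 : (x : ℝ) ≤ N := by exact_mod_cast h2
  unfold Gr
  split_ifs
  · exact div_nonneg (mul_nonneg (by positivity) (by linarith)) (by positivity)
  · exact div_nonneg (mul_nonneg (by positivity) (by linarith)) (by positivity)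

theorem aux1 {E H q σ x : ℝ} (σ0 : 0 < σ) (l : E ≤ H - q * (σ - x)) (a1 : H ≤ q * σ)
    (h' : x ≤ σ) : E * σ ≤ H * x := by
  nlinarith [mul_le_mul_of_nonneg_right l σ0.le, mul_nonneg (sub_nonneg.2 a1) (sub_nonneg.2 h')]

theorem aux2 {D ρ G : ℝ} (b1 : -(1 / 2) ≤ D) (ρ0 : 0 ≤ ρ) (ρ1 : ρ ≤ 1) (g0 : 0 ≤ G)
    (b2 : D - 1 / 2 ≤ ρ * G) : D ^ 2 - 1 / 4 ≤ ρ * (G ^ 2 + G) := by
  have c0 : 0 ≤ ρ * G := mul_nonneg ρ0 g0
  have c1 : (ρ * G) ^ 2 ≤ ρ * G ^ 2 := by nlinarith [mul_nonneg ρ0 (sq_nonneg G)]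
  have c2 : D ^ 2 - 1 / 4 ≤ (ρ * G) ^ 2 + ρ * G := by nlinarith
  nlinarith

theorem aux3 {H p q σ τ : ℝ} (hpq : p + q = 1) (σ0 : 0 < σ) (τ0 : 0 < τ) (a1 : H ≤ q * σ)
    (a2 : H ≤ p * τ) : H * (σ + τ) ≤ σ * τ := by
  have a3 := mul_le_mul_of_nonneg_right a1 τ0.le
  have a4 := mul_le_mul_of_nonneg_right a2 σ0.le
  have a5 : q * σ * τ + p * τ * σ = σ * τ := by
    have : q = 1 - p := by linarith
    rw [this]; ring
  linarith

theorem aux4 {D : ℝ} (b1 : -(1 / 2) ≤ D) (b2 : D ≤ 1 / 2) : D ^ 2 - 1 / 4 ≤ 0 := by nlinarith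

theorem excursion (N : ℕ) (p q R : ℝ) (hp : 0 ≤ p) (hq : 0 ≤ q) (hpq : p + q = 1) (hR : 0 ≤ R)
    (D g : ℕ → ℝ) (hg : ∀ x, 0 ≤ g x)
    (hD : ∀ x < N, D (x + 1) = D x + q ∨ D (x + 1) = D x - p)
    (hG : ∀ σ, 1 ≤ σ → σ + 1 ≤ N →
      ∑ x ∈ range (N + 1), g x * (Gr N σ x ^ 2 + Gr N σ x) ≤ R * (σ * (N - σ) / N))
    (s t : ℕ) (hst : s ≤ t) (ht : t ≤ N) (h1 : D s ≤ 1 / 2) (h2 : D t ≤ 1 / 2)
    (h3 : ∀ x, s < x → x ≤ t → -(1 / 2) ≤ D x) :
    ∑ x ∈ Ioc s t, g x * (D x ^ 2 - 1 / 4) ≤ (t - s) * (p * q) * R := by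
  have up : ∀ a b, a ≤ b → b ≤ N → ∃ u : ℕ, u ≤ b - a ∧ D b = D a + u - p * (b - a) := by
    intro a b hab
    induction b, hab using Nat.le_induction with
    | base => intro _; exact ⟨0, by omega, by simp⟩
    | succ b hab ih =>
      intro hb
      obtain ⟨u, hu, e⟩ := ih (by omega)
      rcases hD b (by omega) with h | h
      · refine ⟨u + 1, by omega, ?_⟩
        push_cast
        rw [h, e]
        linarith
      · refine ⟨u, by omega, ?_⟩
        push_cast
        rw [h, e]
        ring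
  obtain ⟨u, hu, e⟩ := up s t hst ht
  obtain ⟨d, hd⟩ : ∃ d, t = s + u + d := ⟨t - s - u, by omega⟩
  have hd' : (t : ℝ) = s + u + d := by exact_mod_cast hd
  have hu0 : (0 : ℝ) ≤ u := by positivity
  have hd0 : (0 : ℝ) ≤ d := by positivity
  have hs0 : (0 : ℝ) ≤ s := by positivity
  have htN : (t : ℝ) ≤ N := by exact_mod_cast ht
  obtain ⟨H, hH⟩ : ∃ H, H = D s + q * u - 1 / 2 := ⟨_, rfl⟩
  have hH1 : H ≤ q * u := by linarith
  have hH' : H = D t + p * d - 1 / 2 := by
    rw [hH, e, hd']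
    have : q = 1 - p := by linarith
    rw [this]
    ring
  have hH2 : H ≤ p * d := by linarith
  have left : ∀ x, s < x → x ≤ s + u → D x - 1 / 2 ≤ H - q * (s + u - x) := by
    intro x a b
    obtain ⟨w, hw, e'⟩ := up s x a.le (by omega)
    have : (w : ℝ) ≤ x - s := by
      have : w + s ≤ x := by omega
      have : (w : ℝ) + s ≤ x := by exact_mod_cast this
      linarith
    have hq' : q = 1 - p := by linarith
    rw [hH, e', hq']
    nlinarith
  have right : ∀ x, s + u ≤ x → x ≤ t → D x - 1 / 2 ≤ H - p * (x - (s + u)) := by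
    intro x a b
    obtain ⟨w, _, e'⟩ := up x t b ht
    have : (0 : ℝ) ≤ w := by positivity
    rw [hH', e', hd']
    nlinarith
  have hlen : (t : ℝ) - s = u + d := by linarith
  by_cases hH0 : H ≤ 0
  · refine le_trans (sum_nonpos fun x hx => ?_) (by rw [hlen]; positivity)
    rw [mem_Ioc] at hx
    have b1 := h3 x hx.1 hx.2
    have b2 : D x ≤ 1 / 2 := by
      rcases le_total x (s + u) with h | h
      · have := left x hx.1 h
        have h' : (x : ℝ) ≤ s + u := by exact_mod_cast h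
        linarith [mul_nonneg hq (sub_nonneg.2 h')]
      · have := right x h hx.2
        have h' : (s : ℝ) + u ≤ x := by exact_mod_cast h
        linarith [mul_nonneg hp (sub_nonneg.2 h')]
    exact mul_nonpos_of_nonneg_of_nonpos (hg x) (aux4 b1 b2)
  · push Not at hH0
    have u1 : 1 ≤ u := by
      rcases Nat.eq_zero_or_pos u with h | h
      · subst h; simp at hH1; linarith
      · exact h
    have d1 : 1 ≤ d := by
      rcases Nat.eq_zero_or_pos d with h | h
      · subst h; simp at hH2; linarith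
      · exact h
    have u1' : (1 : ℝ) ≤ u := by exact_mod_cast u1
    have d1' : (1 : ℝ) ≤ d := by exact_mod_cast d1
    have hG' := hG (s + u) (by omega) (by omega)
    obtain ⟨σ, hσ⟩ : ∃ σ : ℝ, σ = s + u := ⟨_, rfl⟩
    obtain ⟨τ, hτ⟩ : ∃ τ : ℝ, τ = N - σ := ⟨_, rfl⟩
    have σu : (u : ℝ) ≤ σ := by linarith
    have τd : (d : ℝ) ≤ τ := by linarith
    have σ0 : 0 < σ := by linarith
    have τ0 : 0 < τ := by linarith
    have N0 : (0 : ℝ) < N := by linarith
    have hN : (N : ℝ) = σ + τ := by linarith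
    have hqσ : H ≤ q * σ := hH1.trans (mul_le_mul_of_nonneg_left σu hq)
    have hpτ : H ≤ p * τ := hH2.trans (mul_le_mul_of_nonneg_left τd hp)
    have hγ : H * N ≤ σ * τ := by
      rw [hN]; exact aux3 hpq σ0 τ0 hqσ hpτ
    obtain ⟨ρ, hρ⟩ : ∃ ρ : ℝ, ρ = H * N / (σ * τ) := ⟨_, rfl⟩
    have ρ0 : 0 ≤ ρ := by rw [hρ]; positivity
    have ρ1 : ρ ≤ 1 := by rw [hρ, div_le_one (by positivity)]; exact hγ
    have hcast : ((s + u : ℕ) : ℝ) = σ := by rw [hσ]; push_cast; ring
    have pt : ∀ x ∈ Ioc s t, D x ^ 2 - 1 / 4 ≤ ρ * (Gr N (s + u) x ^ 2 + Gr N (s + u) x) := by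
      intro x hx
      rw [mem_Ioc] at hx
      have b1 := h3 x hx.1 hx.2
      have g0 : 0 ≤ Gr N (s + u) x := Gr_nonneg (by omega) (by omega)
      have b2 : D x - 1 / 2 ≤ ρ * Gr N (s + u) x := by
        unfold Gr
        rw [hcast, ← hτ]
        split_ifs with h
        · have l := left x hx.1 h
          have h' : (x : ℝ) ≤ σ := by rw [hσ]; exact_mod_cast h
          have : ρ * (x * τ / N) = H * x / σ := by rw [hρ]; field_simp
          rw [this, le_div_iff₀ σ0]
          rw [← hσ] at l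
          exact aux1 σ0 l hqσ h'
        · have l := right x (by omega) hx.2
          have h' : σ ≤ x := by rw [hσ]; exact_mod_cast (by omega : s + u ≤ x)
          have : ρ * (σ * (N - x) / N) = H * (N - x) / τ := by rw [hρ]; field_simp
          rw [this, le_div_iff₀ τ0]
          rw [← hσ] at l
          exact aux1 τ0 (by rw [hτ]; linarith) hpτ (by rw [hτ]; linarith)
      exact aux2 b1 ρ0 ρ1 g0 b2
    calc ∑ x ∈ Ioc s t, g x * (D x ^ 2 - 1 / 4)
        ≤ ∑ x ∈ Ioc s t, ρ * (g x * (Gr N (s + u) x ^ 2 + Gr N (s + u) x)) := by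
          refine sum_le_sum fun x hx => ?_
          have := mul_le_mul_of_nonneg_left (pt x hx) (hg x)
          linarith
      _ ≤ ∑ x ∈ range (N + 1), ρ * (g x * (Gr N (s + u) x ^ 2 + Gr N (s + u) x)) := by
          refine sum_le_sum_of_subset_of_nonneg ?_ fun x hx _ => ?_
          · intro x hx
            rw [mem_Ioc] at hx
            rw [mem_range]
            omega
          · have g0 : 0 ≤ Gr N (s + u) x := Gr_nonneg (by omega) (by rw [mem_range] at hx; omega)
            have := hg x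
            positivity
      _ ≤ ρ * (R * (σ * τ / N)) := by
          rw [← mul_sum]
          rw [hcast, ← hτ] at hG'
          exact mul_le_mul_of_nonneg_left hG' ρ0
      _ = H * R := by rw [hρ]; field_simp
      _ ≤ (t - s) * (p * q) * R := by
          refine mul_le_mul_of_nonneg_right ?_ hR
          rw [hlen]
          have a1 := mul_le_mul_of_nonneg_left hH1 hp
          have a2 := mul_le_mul_of_nonneg_left hH2 hq
          have a3 : H = p * H + q * H := by rw [← add_mul, hpq, one_mul]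
          nlinarith

theorem path (N : ℕ) (p q R : ℝ) (hp : 0 ≤ p) (hq : 0 ≤ q) (hpq : p + q = 1) (hR : 0 ≤ R)
    (D g : ℕ → ℝ) (hg : ∀ x, 0 ≤ g x)
    (hD : ∀ x < N, D (x + 1) = D x + q ∨ D (x + 1) = D x - p)
    (hG : ∀ σ, 1 ≤ σ → σ + 1 ≤ N →
      ∑ x ∈ range (N + 1), g x * (Gr N σ x ^ 2 + Gr N σ x) ≤ R * (σ * (N - σ) / N))
    (h0 : |D 0| ≤ 1 / 2) (hN : |D N| ≤ 1 / 2) :
    ∑ x ∈ range (N + 1), g x * (D x ^ 2 - 1 / 4) ≤ N * (p * q) * R := by
  have close : ∀ s t, s ≤ t → t ≤ N → |D s| ≤ 1 / 2 → |D t| ≤ 1 / 2 →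
      ∑ x ∈ range (s + 1), g x * (D x ^ 2 - 1 / 4) ≤ s * (p * q) * R →
      ((∀ x, s < x → x < t → 1 / 2 < D x) ∨ (∀ x, s < x → x < t → D x < -(1 / 2))) →
      ∑ x ∈ range (t + 1), g x * (D x ^ 2 - 1 / 4) ≤ t * (p * q) * R := by
    intro s t hst ht a1 a2 a3 a4
    rw [abs_le] at a1 a2
    have sp : ∑ x ∈ range (t + 1), g x * (D x ^ 2 - 1 / 4)
        = ∑ x ∈ range (s + 1), g x * (D x ^ 2 - 1 / 4) + ∑ x ∈ Ioc s t, g x * (D x ^ 2 - 1 / 4) := by
      rw [← sum_union]
      · congr 1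
        ext x
        simp only [mem_range, mem_union, mem_Ioc]
        omega
      · rw [disjoint_left]
        intro x h1 h2
        rw [mem_range] at h1
        rw [mem_Ioc] at h2
        omega
    rw [sp]
    rcases a4 with a4 | a4
    · have := excursion N p q R hp hq hpq hR D g hg hD hG s t hst ht a1.2 a2.2 (fun x b c => by
        rcases c.lt_or_eq with c | c
        · have := a4 x b c; linarith
        · rw [c]; exact a2.1)
      linarith
    · have := excursion N q p R hq hp (by linarith) hR (fun x => - D x) g hg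
        (fun x hx => by rcases hD x hx with h | h <;> [right; left] <;> linarith) hG s t hst ht
        (by linarith [a1.1]) (by linarith [a2.1]) (fun x b c => by
        rcases c.lt_or_eq with c | c
        · have := a4 x b c; linarith
        · rw [c]; linarith [a2.2])
      simp only [neg_sq] at this
      linarith
  have inv : ∀ t, t ≤ N → ∃ s ≤ t, |D s| ≤ 1 / 2 ∧
      ∑ x ∈ range (s + 1), g x * (D x ^ 2 - 1 / 4) ≤ s * (p * q) * R ∧
      ((∀ x, s < x → x ≤ t → 1 / 2 < D x) ∨ (∀ x, s < x → x ≤ t → D x < -(1 / 2))) := by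
    intro t
    induction t with
    | zero =>
      intro _
      refine ⟨0, le_rfl, h0, ?_, Or.inl fun x a b => by omega⟩
      rw [abs_le] at h0
      simp only [zero_add, range_one, sum_singleton, Nat.cast_zero, zero_mul]
      exact mul_nonpos_of_nonneg_of_nonpos (hg 0) (by nlinarith)
    | succ t ih =>
      intro ht
      obtain ⟨s, hs, a1, a3, a4⟩ := ih (by omega)
      by_cases hc : |D (t + 1)| ≤ 1 / 2
      · refine ⟨t + 1, le_rfl, hc, close s (t + 1) (by omega) ht a1 hc a3 ?_,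
          Or.inl fun x a b => by omega⟩
        rcases a4 with a4 | a4
        · exact Or.inl fun x a b => a4 x a (by omega)
        · exact Or.inr fun x a b => a4 x a (by omega)
      · refine ⟨s, by omega, a1, a3, ?_⟩
        rw [not_le, lt_abs] at hc
        have hstep := hD t (by omega)
        rcases hc with hc | hc
        · left
          intro x a b
          rcases b.lt_or_eq with b | b
          · rcases a4 with a4 | a4
            · exact a4 x a (by omega)
            · have := a4 t (by omega) le_rfl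
              rcases hstep with h | h <;> linarith
          · rw [b]; exact hc
        · right
          intro x a b
          rcases b.lt_or_eq with b | b
          · rcases a4 with a4 | a4
            · have := a4 t (by omega) le_rfl
              rcases hstep with h | h <;> linarith
            · exact a4 x a (by omega)
          · rw [b]; linarith
  obtain ⟨s, hs, a1, a3, a4⟩ := inv N le_rfl
  refine close s N hs le_rfl a1 hN a3 ?_
  rcases a4 with a4 | a4
  · exact Or.inl fun x a b => a4 x a b.le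
  · exact Or.inr fun x a b => a4 x a b.le

end Pool.Agent.H74.So
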