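import Pool.Agent.H74.So1

namespace Pool.Agent.H74.So
open Finset

noncomputable def Phi (n k a j : ℝ) : ℝ :=
  a * (k - a) / (k - 1) + (j - a) * (n - k - (j - a)) / (n - k - 1)

noncomputable def FA (n : ℕ) (g : ℕ → ℝ) (k : ℕ) (a : ℕ → ℝ) : ℝ :=
  ∑ x ∈ range (n - 1), g x * Phi n k (a x) (x + 1)

noncomputable def cutF (n : ℕ) (g : ℕ → ℝ) (s : ℕ) : ℝ :=
  FA n g s (fun x => ((min (x + 1) s : ℕ) : ℝ))

theorem Phi_eq (N k a x : ℝ) (h1 : 0 < k - 1) (h2 : 0 < N + 2 - k - 1) :
    Phi (N + 2) k a (x + 1) = x + 1 - x ^ 2 / N -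
      ((a - 1 / 2 - x * ((k - 1) / N)) ^ 2 - 1 / 4) / ((k - 1) * (N - (k - 1)) / N) := by
  have h3 : N ≠ 0 := by linarith
  have h4 : N - (k - 1) ≠ 0 := by linarith
  have h5 : N + 2 - k - 1 = N - (k - 1) := by ring
  unfold Phi
  rw [h5]
  field_simp
  ring

theorem lemM (N k : ℕ) (g a : ℕ → ℝ) (hg : ∀ x, 0 ≤ g x) (hk1 : 2 ≤ k) (hk2 : k ≤ N)
    (h0 : a 0 = 0 ∨ a 0 = 1) (hs : ∀ x < N, a (x + 1) = a x + 1 ∨ a (x + 1) = a x)
    (hN : a N = k ∨ a N = k - 1) :
    ∃ s, 2 ≤ s ∧ s ≤ N ∧ cutF (N + 2) g s ≤ FA (N + 2) g k a := by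
  have hk1' : (2 : ℝ) ≤ k := by exact_mod_cast hk1
  have hk2' : (k : ℝ) ≤ N := by exact_mod_cast hk2
  have N0 : (0 : ℝ) < N := by linarith
  obtain ⟨σ, hσ, hmax⟩ := exists_max_image (Icc 1 (N - 1))
    (fun σ : ℕ => (∑ x ∈ range (N + 1), g x * (Gr N σ x ^ 2 + Gr N σ x)) / (σ * (N - σ) / N))
    ⟨1, by rw [mem_Icc]; omega⟩
  rw [mem_Icc] at hσ
  have γpos : ∀ σ : ℕ, 1 ≤ σ → σ + 1 ≤ N → (0 : ℝ) < σ * (N - σ) / N := by
    intro σ a b
    have a' : (1 : ℝ) ≤ σ := by exact_mod_cast a
    have b' : (σ : ℝ) + 1 ≤ N := by exact_mod_cast b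
    exact div_pos (mul_pos (by linarith) (by linarith)) N0
  obtain ⟨R, hR⟩ : ∃ R, R = (∑ x ∈ range (N + 1), g x * (Gr N σ x ^ 2 + Gr N σ x)) /
    (σ * (N - σ) / N) := ⟨_, rfl⟩
  have R0 : 0 ≤ R := by
    rw [hR]
    refine div_nonneg (sum_nonneg fun x hx => ?_) (γpos σ hσ.1 (by omega)).le
    have g0 : 0 ≤ Gr N σ x := Gr_nonneg (by omega) (by rw [mem_range] at hx; omega)
    have := hg x
    positivity
  have hp := path N ((k - 1) / N) (1 - (k - 1) / N) R (div_nonneg (by linarith) N0.le)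
    (by rw [sub_nonneg, div_le_one N0]; linarith) (by ring) R0
    (fun x => a x - 1 / 2 - x * ((k - 1) / N)) g hg
    (fun x hx => by
      rcases hs x hx with h | h
      · left; rw [h]; push_cast; ring
      · right; rw [h]; push_cast; ring)
    (fun τ a b => by
      have := hmax τ (by rw [mem_Icc]; omega)
      rw [← hR, div_le_iff₀ (γpos τ a b)] at this
      exact this)
    (by rcases h0 with h | h <;> rw [h] <;> norm_num [abs_le])
    (by
      have : (N : ℝ) * ((k - 1) / N) = k - 1 := by field_simp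
      rcases hN with h | h <;> rw [h, this, abs_le] <;> constructor <;> linarith)
  have σ1 : (1 : ℝ) ≤ σ := by exact_mod_cast hσ.1
  have σ2 : (σ : ℝ) + 1 ≤ N := by exact_mod_cast (by omega : σ + 1 ≤ N)
  refine ⟨σ + 1, by omega, by omega, ?_⟩
  have e1 : cutF (N + 2) g (σ + 1) = ∑ x ∈ range (N + 1), g x * (x + 1 - x ^ 2 / N) - R := by
    unfold cutF FA
    rw [hR, sum_div, ← sum_sub_distrib]
    refine sum_congr rfl fun x _ => ?_
    push_cast
    rw [Phi_eq _ _ _ _ (by linarith) (by linarith)]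
    have : min ((x : ℝ) + 1) (σ + 1) - 1 / 2 - x * ((σ + 1 - 1) / N) = Gr N σ x + 1 / 2 := by
      unfold Gr
      split_ifs with h
      · have h' : (x : ℝ) ≤ σ := by exact_mod_cast h
        rw [min_eq_left (by linarith)]
        field_simp
        ring
      · have h' : (σ : ℝ) ≤ x := by exact_mod_cast (by omega : σ ≤ x)
        rw [min_eq_right (by linarith)]
        field_simp
        ring
    rw [this, add_sub_cancel_right]
    ring
  have γk : (0 : ℝ) < (k - 1) * (N - (k - 1)) / N :=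
    div_pos (mul_pos (by linarith) (by linarith)) N0
  have e2 : FA (N + 2) g k a = ∑ x ∈ range (N + 1), g x * (x + 1 - x ^ 2 / N) -
      (∑ x ∈ range (N + 1), g x * ((a x - 1 / 2 - x * ((k - 1) / N)) ^ 2 - 1 / 4)) /
        ((k - 1) * (N - (k - 1)) / N) := by
    unfold FA
    rw [sum_div, ← sum_sub_distrib]
    refine sum_congr rfl fun x _ => ?_
    push_cast
    rw [Phi_eq _ _ _ _ (by linarith) (by linarith)]
    ring
  rw [e1, e2]
  refine sub_le_sub_left ?_ _
  rw [div_le_iff₀ γk]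
  refine hp.trans (le_of_eq ?_)
  field_simp

noncomputable def L (s j : ℕ) : ℝ := (j : ℝ) * (s - j) / (s - 1)

noncomputable def ph (n s j : ℕ) : ℝ := if j ≤ s then L s j else L (n - s) (n - j)

theorem cutF_eq (n : ℕ) (g : ℕ → ℝ) (s : ℕ) (hs : s ≤ n) :
    cutF n g s = ∑ x ∈ range (n - 1), g x * ph n s (x + 1) := by
  unfold cutF FA
  refine sum_congr rfl fun x hx => ?_
  rw [mem_range] at hx
  congr 1
  unfold ph Phi L
  beta_reduce
  split_ifs with h
  · rw [min_eq_left h]
    push_cast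
    simp
  · rw [min_eq_right (by omega), Nat.cast_sub hs, Nat.cast_sub (by omega)]
    push_cast
    simp only [sub_self, mul_zero, zero_div, zero_add]
    congr 1
    ring

theorem L_self (s : ℕ) : L s s = 0 := by simp [L]

theorem L_one {s : ℕ} (h : 2 ≤ s) : L s 1 = 1 := by
  have : (2 : ℝ) ≤ s := by exact_mod_cast h
  unfold L
  rw [Nat.cast_one, one_mul, div_self (by linarith)]

theorem L_mono {s j : ℕ} (h1 : 1 ≤ j) (h : j ≤ s) : L s j ≤ L (s + 1) j := by
  have a1 : (1 : ℝ) ≤ j := by exact_mod_cast h1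
  have a2 : (j : ℝ) ≤ s := by exact_mod_cast h
  rcases h.lt_or_eq with h | h
  · have a3 : (j : ℝ) + 1 ≤ s := by exact_mod_cast h
    unfold L
    push_cast
    rw [div_le_div_iff₀ (by linarith) (by linarith)]
    nlinarith [mul_nonneg (by linarith : (0 : ℝ) ≤ j) (by linarith : (0 : ℝ) ≤ j - 1)]
  · subst h
    rw [L_self]
    unfold L
    push_cast
    exact div_nonneg (mul_nonneg (by linarith) (by linarith)) (by linarith)

theorem L_conc {s j : ℕ} (h1 : 1 ≤ j) (h : j ≤ s) : L s j + L (s + 2) j ≤ 2 * L (s + 1) j := by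
  have a1 : (1 : ℝ) ≤ j := by exact_mod_cast h1
  have a2 : (j : ℝ) ≤ s := by exact_mod_cast h
  by_cases hs : s = 1
  · have : j = 1 := by omega
    subst hs this
    rw [L_self, L_one (by omega), L_one (by omega)]
    norm_num
  · have a3 : (2 : ℝ) ≤ s := by exact_mod_cast (by omega : 2 ≤ s)
    have e : 2 * L (s + 1) j - (L s j + L (s + 2) j) = 2 * (j * (j - 1)) / ((s - 1) * s * (s + 1)) := by
      unfold L
      push_cast
      have b1 : (s : ℝ) - 1 ≠ 0 := by linarith
      have b2 : (s : ℝ) + 1 - 1 = s := by ring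
      have b3 : (s : ℝ) + 2 - 1 = s + 1 := by ring
      rw [b2, b3]
      field_simp
      ring
    have : (0 : ℝ) ≤ 2 * (j * (j - 1)) / ((s - 1) * s * (s + 1)) :=
      div_nonneg (mul_nonneg (by norm_num) (mul_nonneg (by linarith) (by linarith)))
        (mul_nonneg (mul_nonneg (by linarith) (by linarith)) (by linarith))
    linarith

theorem ph_right {n s j : ℕ} (h : s ≤ j) : ph n s j = L (n - s) (n - j) := by
  unfold ph
  split_ifs with h'
  · have : j = s := by omega
    subst this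
    rw [L_self, L_self]
  · rfl

theorem ph_left {n s j : ℕ} (h : j ≤ s) : ph n s j = L s j := if_pos h

theorem cut_conc (n : ℕ) (g : ℕ → ℝ) (hg : ∀ x, 0 ≤ g x) (s : ℕ) (hs : s + 2 ≤ n) (h0 : g s = 0) :
    cutF n g s + cutF n g (s + 2) ≤ 2 * cutF n g (s + 1) := by
  rw [cutF_eq n g _ (by omega), cutF_eq n g _ (by omega), cutF_eq n g _ (by omega), mul_sum,
    ← sum_add_distrib]
  refine sum_le_sum fun x hx => ?_
  rw [mem_range] at hx
  rcases lt_trichotomy x s with h | h | h
  · rw [ph_left (by omega), ph_left (by omega), ph_left (by omega)]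
    have := mul_le_mul_of_nonneg_left (L_conc (s := s) (j := x + 1) (by omega) (by omega)) (hg x)
    linarith
  · rw [h, h0]; simp
  · rw [ph_right (by omega), ph_right (by omega), ph_right (by omega)]
    have := mul_le_mul_of_nonneg_left
      (L_conc (s := n - (s + 2)) (j := n - (x + 1)) (by omega) (by omega)) (hg x)
    rw [show n - (s + 2) + 2 = n - s by omega, show n - (s + 2) + 1 = n - (s + 1) by omega] at this
    linarith

theorem cut_up (n : ℕ) (g : ℕ → ℝ) (hg : ∀ x, 0 ≤ g x) (hs : 3 ≤ n) (h0 : g 1 = 0) :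
    cutF n g 3 ≤ cutF n g 2 := by
  rw [cutF_eq n g _ (by omega), cutF_eq n g _ (by omega)]
  refine sum_le_sum fun x hx => ?_
  rw [mem_range] at hx
  rcases lt_trichotomy x 1 with h | h | h
  · have : x = 0 := by omega
    subst this
    rw [ph_left (by omega), ph_left (by omega), L_one (by omega), L_one (by omega)]
  · rw [h, h0]; simp
  · rw [ph_right (by omega), ph_right (by omega)]
    have := mul_le_mul_of_nonneg_left
      (L_mono (s := n - 3) (j := n - (x + 1)) (by omega) (by omega)) (hg x)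
    rwa [show n - 3 + 1 = n - 2 by omega] at this

theorem cut_down (N : ℕ) (g : ℕ → ℝ) (hg : ∀ x, 0 ≤ g x) (h0 : g N = 0) :
    cutF (N + 3) g N ≤ cutF (N + 3) g (N + 1) := by
  rw [cutF_eq _ g _ (by omega), cutF_eq _ g _ (by omega)]
  refine sum_le_sum fun x hx => ?_
  rw [mem_range] at hx
  rcases lt_trichotomy x N with h | h | h
  · rw [ph_left (by omega), ph_left (by omega)]
    exact mul_le_mul_of_nonneg_left (L_mono (by omega) (by omega)) (hg x)
  · rw [h, h0]; simp
  · have : x = N + 1 := by omega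
    subst this
    rw [ph_right (by omega), ph_right (by omega), show N + 3 - (N + 1 + 1) = 1 by omega,
      L_one (by omega), L_one (by omega)]

theorem cut_flat (n : ℕ) (g : ℕ → ℝ) (hn : 4 ≤ n) (h0 : ∀ x, 1 ≤ x → x + 3 ≤ n → g x = 0) :
    cutF n g 0 = cutF n g 2 := by
  rw [cutF_eq _ g _ (by omega), cutF_eq _ g _ (by omega)]
  refine sum_congr rfl fun x hx => ?_
  rw [mem_range] at hx
  by_cases h1 : x = 0
  · subst h1
    rw [ph_right (by omega), ph_left (by omega), L_one (by omega)]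
    congr 1
    have : (4 : ℝ) ≤ n := by exact_mod_cast hn
    unfold L
    rw [Nat.sub_zero, Nat.cast_sub (by omega)]
    have : (n : ℝ) - 1 ≠ 0 := by linarith
    push_cast
    field_simp
    ring
  by_cases h2 : x + 2 = n
  · rw [ph_right (by omega), ph_right (by omega), show n - (x + 1) = 1 by omega,
      L_one (by omega), L_one (by omega)]
  · rw [h0 x (by omega) (by omega)]; simp

def Good (n : ℕ) (g : ℕ → ℝ) (s : ℕ) : Prop := s = 0 ∨ s = n ∨ g (s - 1) ≠ 0

theorem ties_his (n : ℕ) (g : ℕ → ℝ) (hg : ∀ x, 0 ≤ g x) :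
    ∃ s ≤ n, Good n g s ∧ ∀ t ≤ n, cutF n g s ≤ cutF n g t := by
  obtain ⟨m, hm, hmin⟩ := exists_min_image (range (n + 1)) (cutF n g) ⟨0, by simp⟩
  by_contra hcon
  push Not at hcon
  have key : ∀ s, s ≤ m → ∀ t ≤ n, cutF n g (m - s) ≤ cutF n g t := by
    intro s
    induction s with
    | zero => intro _ t ht; exact hmin t (by rw [mem_range]; omega)
    | succ s ih =>
      intro hs t ht
      have ih' := ih (by omega)
      rw [mem_range] at hm
      have hb : ¬ Good n g (m - s) := fun hh => by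
        obtain ⟨t, ht, h⟩ := hcon (m - s) (by omega) hh
        exact absurd (ih' t ht) (not_le.2 h)
      unfold Good at hb
      push Not at hb
      have := cut_conc n g hg (m - (s + 1)) (by omega) (by rw [← hb.2.2]; congr 1)
      have h2 := ih' (m - (s + 1) + 2) (by omega)
      rw [show m - (s + 1) + 1 = m - s by omega] at this
      have h3 := ih' t ht
      linarith
  obtain ⟨t, ht, h⟩ := hcon 0 (by omega) (Or.inl rfl)
  have := key m le_rfl t ht
  rw [Nat.sub_self] at this
  linarith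

theorem ties_mid (n : ℕ) (g : ℕ → ℝ) (hg : ∀ x, 0 ≤ g x) (hn : 4 ≤ n) :
    ∃ s, (s = 0 ∨ (2 ≤ s ∧ s + 2 ≤ n ∧ g (s - 1) ≠ 0)) ∧
      ∀ t, 2 ≤ t → t + 2 ≤ n → cutF n g s ≤ cutF n g t := by
  obtain ⟨m, hm, hmin⟩ := exists_min_image (Icc 2 (n - 2)) (cutF n g) ⟨2, by rw [mem_Icc]; omega⟩
  rw [mem_Icc] at hm
  have hmin' : ∀ t, 2 ≤ t → t + 2 ≤ n → cutF n g m ≤ cutF n g t :=
    fun t a b => hmin t (by rw [mem_Icc]; omega)
  by_contra hcon
  push Not at hcon
  have tie : ∀ s, 2 ≤ s → s + 2 ≤ n → cutF n g s ≤ cutF n g m → g (s - 1) = 0 := by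
    intro s a b c
    by_contra h
    obtain ⟨t, t1, t2, t3⟩ := hcon s (Or.inr ⟨a, b, h⟩)
    have := hmin' t t1 t2
    linarith
  have up : ∀ s, m ≤ s → s + 2 ≤ n → cutF n g s ≤ cutF n g m := by
    intro s hs
    induction s, hs using Nat.le_induction with
    | base => intro _; exact le_rfl
    | succ s hs ih =>
      intro h
      have ih' := ih (by omega)
      have h0 := tie s (by omega) (by omega) ih'
      by_cases h2 : s = 2
      · subst h2
        exact (cut_up n g hg (by omega) h0).trans ih'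
      · have := cut_conc n g hg (s - 1) (by omega) h0
        rw [show s - 1 + 2 = s + 1 by omega, show s - 1 + 1 = s by omega] at this
        have := hmin' (s - 1) (by omega) (by omega)
        linarith
  have down : ∀ d, d + 2 ≤ m → cutF n g (m - d) ≤ cutF n g m := by
    intro d
    induction d with
    | zero => intro _; exact le_rfl
    | succ d ih =>
      intro h
      have ih' := ih (by omega)
      have h0 := tie (m - d) (by omega) (by omega) ih'
      rw [show m - d - 1 = m - (d + 1) by omega] at h0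
      rw [show m - d = m - (d + 1) + 1 by omega] at ih'
      by_cases h2 : n = m - (d + 1) + 3
      · have := cut_down (m - (d + 1)) g hg h0
        rw [← h2] at this
        exact this.trans ih'
      · have := cut_conc n g hg (m - (d + 1)) (by omega) h0
        have := hmin' (m - (d + 1) + 2) (by omega) (by omega)
        linarith
  have all : ∀ s, 2 ≤ s → s + 2 ≤ n → cutF n g s ≤ cutF n g m := by
    intro s a b
    rcases le_total m s with h | h
    · exact up s h b
    · have := down (m - s) (by omega)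
      rwa [show m - (m - s) = s by omega] at this
  have fl := cut_flat n g hn (fun x a b => tie (x + 1) (by omega) (by omega) (all _ (by omega) (by omega)))
  obtain ⟨t, t1, t2, t3⟩ := hcon 0 (Or.inl rfl)
  have := hmin' t t1 t2
  have := all 2 le_rfl (by omega)
  linarith

theorem ties_uis (n : ℕ) (g : ℕ → ℝ) (hg : ∀ x, 0 ≤ g x) (hn : 2 ≤ n) :
    ∃ s ≤ n, s ≠ 1 ∧ s + 1 ≠ n ∧ Good n g s ∧ cutF n g s ≤ cutF n g 0 ∧
      ∀ t, 2 ≤ t → t + 2 ≤ n → cutF n g s ≤ cutF n g t := by
  by_cases h4 : 4 ≤ n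
  · obtain ⟨s, h1, h2⟩ := ties_mid n g hg h4
    rcases le_total (cutF n g s) (cutF n g 0) with h | h
    · rcases h1 with h1 | h1
      · exact ⟨s, by omega, by omega, by omega, Or.inl h1, h, h2⟩
      · exact ⟨s, by omega, by omega, by omega, Or.inr (Or.inr h1.2.2), h, h2⟩
    · exact ⟨0, by omega, by omega, by omega, Or.inl rfl, le_rfl, fun t a b => h.trans (h2 t a b)⟩
  · exact ⟨0, by omega, by omega, by omega, Or.inl rfl, le_rfl, fun t a b => by omega⟩

theorem Phi_symm (n k a j : ℝ) : Phi n (n - k) (j - a) j = Phi n k a j := by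
  unfold Phi
  rw [sub_sub_cancel, sub_sub_cancel, add_comm]

theorem lemS (n i : ℕ) (g : ℕ → ℝ) (hg : ∀ x, 0 ≤ g x) (hn : 2 ≤ n) :
    ∃ s ≤ n, cutF n g s ≤ FA n g 1 (fun x => if i ≤ x then 1 else 0) := by
  have hn' : (2 : ℝ) ≤ n := by exact_mod_cast hn
  by_cases h : 2 * i ≤ n
  · refine ⟨1, by omega, ?_⟩
    unfold cutF FA
    refine sum_le_sum fun x hx => mul_le_mul_of_nonneg_left ?_ (hg x)
    beta_reduce
    rw [min_eq_right (by omega)]
    split_ifs with h1
    · simp
    · have : 2 * ((x : ℝ) + 1) ≤ n := by exact_mod_cast (by omega : 2 * (x + 1) ≤ n)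
      unfold Phi
      simp only [Nat.cast_one, sub_self, mul_zero, zero_mul, zero_div, zero_add, div_zero]
      exact div_le_div_of_nonneg_right (by nlinarith) (by linarith)
  · refine ⟨n - 1, by omega, ?_⟩
    unfold cutF FA
    refine sum_le_sum fun x hx => mul_le_mul_of_nonneg_left ?_ (hg x)
    rw [mem_range] at hx
    beta_reduce
    rw [min_eq_left (by omega), Nat.cast_sub (by omega), ← Phi_symm]
    push_cast
    rw [sub_sub_cancel, sub_self]
    split_ifs with h1
    · have : (n : ℝ) ≤ 2 * ((x : ℝ) + 1) := by exact_mod_cast (by omega : n ≤ 2 * (x + 1))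
      unfold Phi
      simp only [sub_self, mul_zero, zero_mul, zero_div, zero_add, div_zero]
      exact div_le_div_of_nonneg_right (by nlinarith) (by linarith)
    · exact le_rfl

end Pool.Agent.H74.So
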