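import Pool.Agent.H74.So2

namespace Pool.Agent.H74.So
open Finset

variable {n : ℕ}

noncomputable def W (v : Fin n → ℝ) (C : Finset (Fin n)) : ℝ :=
  (∑ i ∈ C, ∑ j ∈ C, |v i - v j|) / (C.card - 1)

noncomputable def F (v : Fin n → ℝ) (A : Finset (Fin n)) : ℝ := W v A + W v Aᶜ

noncomputable def gap (v : Fin n → ℝ) (x : ℕ) : ℝ :=
  if h : x + 1 < n then v ⟨x + 1, h⟩ - v ⟨x, by omega⟩ else 0

noncomputable def aC (C : Finset (Fin n)) (x : ℕ) : ℝ := ∑ i ∈ C, if i.val ≤ x then 1 else 0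

theorem gap_nonneg {v : Fin n → ℝ} (hv : Monotone v) (x : ℕ) : 0 ≤ gap v x := by
  unfold gap
  split_ifs with h
  · exact sub_nonneg.2 (hv (by simp [Fin.le_def]))
  · exact le_rfl

theorem tele (v : Fin n → ℝ) (i : Fin n) (j : ℕ) (hij : i.val ≤ j) : ∀ hj : j < n,
    v ⟨j, hj⟩ - v i = ∑ x ∈ Ico i.val j, gap v x := by
  induction j, hij using Nat.le_induction with
  | base => intro _; simp
  | succ j hij ih =>
    intro hj
    rw [sum_Ico_succ_top hij, ← ih (by omega), gap, dif_pos hj]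
    ring

theorem abs_eq_sum {v : Fin n → ℝ} (hv : Monotone v) (i j : Fin n) :
    |v i - v j| = ∑ x ∈ range (n - 1), gap v x *
      ((if i.val ≤ x then 1 else 0) + (if j.val ≤ x then 1 else 0)
        - 2 * ((if i.val ≤ x then 1 else 0) * (if j.val ≤ x then 1 else 0))) := by
  wlog h : i ≤ j generalizing i j
  · rw [abs_sub_comm, this j i (le_of_not_ge h)]
    refine sum_congr rfl fun x _ => ?_
    ring
  rw [abs_sub_comm, abs_of_nonneg (sub_nonneg.2 (hv h)), tele v i j.val h j.isLt]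
  have hj := j.isLt
  have h' : i.val ≤ j.val := h
  have e : Ico i.val j.val = (range (n - 1)).filter (fun x => i.val ≤ x ∧ x < j.val) := by
    ext x
    simp only [mem_Ico, mem_filter, mem_range]
    omega
  rw [e, sum_filter]
  refine sum_congr rfl fun x _ => ?_
  by_cases h1 : i.val ≤ x <;> by_cases h2 : j.val ≤ x
  · rw [if_neg (by omega), if_pos h1, if_pos h2]; ring
  · rw [if_pos (by omega), if_pos h1, if_neg h2]; ring
  · omega
  · rw [if_neg (by omega), if_neg h1, if_neg h2]; ring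

theorem pair_sum {v : Fin n → ℝ} (hv : Monotone v) (C : Finset (Fin n)) :
    ∑ i ∈ C, ∑ j ∈ C, |v i - v j|
      = ∑ x ∈ range (n - 1), gap v x * (2 * (aC C x * (C.card - aC C x))) := by
  simp_rw [abs_eq_sum hv]
  rw [sum_congr rfl fun i _ => sum_comm, sum_comm]
  refine sum_congr rfl fun x _ => ?_
  simp_rw [← mul_sum]
  congr 1
  simp_rw [sum_sub_distrib, sum_add_distrib, ← mul_sum, ← sum_mul, sum_const, nsmul_eq_mul,
    ← mul_sum]
  unfold aC
  ring

theorem aC_univ (x : ℕ) (hx : x < n) : aC (univ : Finset (Fin n)) x = x + 1 := by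
  unfold aC
  rw [sum_boole]
  have : (univ.filter (fun i : Fin n => i.val ≤ x)) = univ.filter (fun i : Fin n => i.val < x + 1) := by
    refine filter_congr fun i _ => by omega
  rw [this, Fin.card_filter_val_lt, min_eq_right (by omega)]
  push_cast
  ring

theorem aC_compl (C : Finset (Fin n)) (x : ℕ) (hx : x < n) : aC Cᶜ x = x + 1 - aC C x := by
  rw [← aC_univ x hx]
  unfold aC
  rw [← sum_add_sum_compl C]
  ring

theorem card_compl' (C : Finset (Fin n)) : ((Cᶜ).card : ℝ) = n - C.card := by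
  have := card_add_card_compl C
  rw [Fintype.card_fin] at this
  have : (C.card : ℝ) + (Cᶜ).card = n := by exact_mod_cast this
  linarith

theorem F_eq {v : Fin n → ℝ} (hv : Monotone v) (A : Finset (Fin n)) :
    F v A = 2 * FA n (gap v) A.card (aC A) := by
  unfold F W FA
  rw [pair_sum hv, pair_sum hv, sum_div, sum_div, ← sum_add_distrib, mul_sum]
  refine sum_congr rfl fun x hx => ?_
  rw [mem_range] at hx
  rw [aC_compl A x (by omega), card_compl']
  unfold Phi
  ring

def Cs (n s : ℕ) : Finset (Fin n) := univ.filter (fun i => i.val < s)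

theorem card_Cs {s : ℕ} (hs : s ≤ n) : (Cs n s).card = s := by
  unfold Cs
  rw [Fin.card_filter_val_lt, min_eq_right hs]

theorem F_Cs {v : Fin n → ℝ} (hv : Monotone v) {s : ℕ} (hs : s ≤ n) :
    F v (Cs n s) = 2 * cutF n (gap v) s := by
  rw [F_eq hv, card_Cs hs]
  unfold cutF FA
  congr 1
  refine sum_congr rfl fun x hx => ?_
  rw [mem_range] at hx
  congr 2
  unfold aC Cs
  rw [sum_boole, filter_filter]
  have : (univ.filter (fun i : Fin n => i.val < s ∧ i.val ≤ x))
      = univ.filter (fun i : Fin n => i.val < min (x + 1) s) := by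
    refine filter_congr fun i _ => by omega
  rw [this, Fin.card_filter_val_lt, min_eq_right (by omega)]

theorem F_compl (v : Fin n → ℝ) (A : Finset (Fin n)) : F v Aᶜ = F v A := by
  unfold F
  rw [compl_compl, add_comm]

theorem aC_succ (A : Finset (Fin n)) (x : ℕ) :
    aC A (x + 1) = aC A x + ∑ i ∈ A, if i.val = x + 1 then 1 else 0 := by
  unfold aC
  rw [← sum_add_distrib]
  refine sum_congr rfl fun i _ => ?_
  split_ifs <;> first | omega | norm_num

theorem single_sum (A : Finset (Fin n)) (y : ℕ) :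
    (∑ i ∈ A, if i.val = y then (1 : ℝ) else 0) = 0 ∨ (∑ i ∈ A, if i.val = y then (1 : ℝ) else 0) = 1 := by
  by_cases h : ∃ i ∈ A, i.val = y
  · obtain ⟨i, hi, e⟩ := h
    right
    rw [sum_eq_single i, if_pos e]
    · intro b _ hb
      rw [if_neg]
      intro h
      exact hb (Fin.ext (h.trans e.symm))
    · intro h; exact absurd hi h
  · left
    push Not at h
    exact sum_eq_zero fun i hi => if_neg (h i hi)

theorem mid {v : Fin n → ℝ} (hv : Monotone v) (A : Finset (Fin n)) (h1 : 2 ≤ A.card)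
    (h2 : A.card + 2 ≤ n) : ∃ s, 2 ≤ s ∧ s + 2 ≤ n ∧ 2 * cutF n (gap v) s ≤ F v A := by
  obtain ⟨N, rfl⟩ : ∃ N, n = N + 2 := ⟨n - 2, by omega⟩
  obtain ⟨s, a, b, c⟩ := lemM N A.card (gap v) (aC A) (gap_nonneg hv) h1 (by omega)
    (by
      have := single_sum A 0
      unfold aC
      simpa using this)
    (fun x _ => by
      rw [aC_succ]
      rcases single_sum A (x + 1) with h | h <;> rw [h] <;> simp)
    (by
      have e : aC A (N + 1) = A.card := by
        unfold aC
        rw [sum_congr rfl fun i _ => if_pos (by have := i.isLt; omega)]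
        simp
      have := aC_succ A N
      rcases single_sum A (N + 1) with h | h <;> rw [h, e] at this
      · left; linarith
      · right; linarith)
  exact ⟨s, a, by omega, by rw [F_eq hv]; linarith⟩

theorem one {v : Fin n → ℝ} (hv : Monotone v) (hn : 2 ≤ n) (A : Finset (Fin n)) (h1 : A.card = 1) :
    ∃ s ≤ n, 2 * cutF n (gap v) s ≤ F v A := by
  obtain ⟨i, rfl⟩ := card_eq_one.1 h1
  obtain ⟨s, a, b⟩ := lemS n i.val (gap v) (gap_nonneg hv) hn
  refine ⟨s, a, ?_⟩
  rw [F_eq hv, h1]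
  have : aC {i} = fun x => if i.val ≤ x then 1 else 0 := by
    funext x
    rw [aC, sum_singleton]
  rw [this]
  linarith

theorem zero {v : Fin n → ℝ} (hv : Monotone v) (A : Finset (Fin n)) (h1 : A.card = 0) :
    2 * cutF n (gap v) 0 = F v A := by
  rw [← F_Cs hv (Nat.zero_le _), card_eq_zero.1 h1, card_eq_zero.1 (card_Cs (Nat.zero_le n))]

theorem his {v : Fin n → ℝ} (hv : Monotone v) (hn : 2 ≤ n) :
    ∃ s ≤ n, Good n (gap v) s ∧ ∀ A, F v (Cs n s) ≤ F v A := by
  obtain ⟨s, hs, hg, h⟩ := ties_his n (gap v) (gap_nonneg hv)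
  refine ⟨s, hs, hg, fun A => ?_⟩
  rw [F_Cs hv hs]
  have hc := card_add_card_compl A
  rw [Fintype.card_fin] at hc
  have : ∃ t ≤ n, 2 * cutF n (gap v) t ≤ F v A := by
    by_cases e0 : A.card = 0
    · exact ⟨0, by omega, (zero hv A e0).le⟩
    by_cases e1 : A.card = 1
    · exact one hv hn A e1
    by_cases f0 : Aᶜ.card = 0
    · exact ⟨0, by omega, by rw [← F_compl]; exact (zero hv _ f0).le⟩
    by_cases f1 : Aᶜ.card = 1
    · rw [← F_compl]; exact one hv hn _ f1
    obtain ⟨t, _, b, c⟩ := mid hv A (by omega) (by omega)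
    exact ⟨t, by omega, c⟩
  obtain ⟨t, a, b⟩ := this
  have := h t a
  linarith

theorem uis {v : Fin n → ℝ} (hv : Monotone v) (hn : 2 ≤ n) :
    ∃ s ≤ n, s ≠ 1 ∧ s + 1 ≠ n ∧ Good n (gap v) s ∧
      ∀ A, A.card ≠ 1 → Aᶜ.card ≠ 1 → F v (Cs n s) ≤ F v A := by
  obtain ⟨s, hs, h1, h2, hg, h0, h⟩ := ties_uis n (gap v) (gap_nonneg hv) hn
  refine ⟨s, hs, h1, h2, hg, fun A e1 f1 => ?_⟩
  rw [F_Cs hv hs]
  have hc := card_add_card_compl A
  rw [Fintype.card_fin] at hc
  by_cases e0 : A.card = 0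
  · rw [← zero hv A e0]; linarith
  by_cases f0 : Aᶜ.card = 0
  · rw [← F_compl, ← zero hv _ f0]; linarith
  obtain ⟨t, a, b, c⟩ := mid hv A (by omega) (by omega)
  have := h t a b
  linarith

theorem good_sep {v : Fin n → ℝ} (hv : Monotone v) {s : ℕ} (hg : Good n (gap v) s)
    (i j : Fin n) (hi : i.val < s) (hj : ¬ j.val < s) : v i < v j := by
  have hjn := j.isLt
  rcases hg with h | h | h
  · omega
  · omega
  · have h0 := gap_nonneg hv (s - 1)
    have h1 : 0 < gap v (s - 1) := lt_of_le_of_ne h0 h.symm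
    rw [gap, dif_pos (by omega)] at h1
    have a1 : v i ≤ v ⟨s - 1, by omega⟩ := hv (by rw [Fin.le_def]; simp; omega)
    have a2 : v ⟨s - 1 + 1, by omega⟩ ≤ v j := hv (by rw [Fin.le_def]; simp; omega)
    linarith

end Pool.Agent.H74.So
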