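import Mathlib

/-! Folded graphs and the subgroups of a free group that they recognise. -/

namespace Pool.Agent.H74.Stallings

variable {α V : Type*}

def run (δ : V → α × Bool → Option V) : List (α × Bool) → V → Option V
  | [], v => some v
  | a :: l, v => (δ v a).bind (run δ l)

def Folded (δ : V → α × Bool → Option V) : Prop :=
  ∀ v a w, δ v a = some w → δ w (a.1, !a.2) = some v

lemma run_append (δ : V → α × Bool → Option V) (l l' : List (α × Bool)) (v : V) :
    run δ (l ++ l') v = (run δ l v).bind (run δ l') := by
  induction l generalizing v with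
  | nil => rfl
  | cons a l ih =>
    simp only [List.cons_append, run]
    cases δ v a with
    | none => rfl
    | some w => exact ih w

lemma run_step {δ : V → α × Bool → Option V} (h : Folded δ) {l l' : List (α × Bool)}
    (hs : FreeGroup.Red.Step l l') {v w : V} (hr : run δ l v = some w) : run δ l' v = some w := by
  cases hs with
  | @not L1 L2 x b =>
    rw [run_append] at hr ⊢
    cases h1 : run δ L1 v with
    | none => rw [h1] at hr; simp at hr
    | some u =>
      rw [h1] at hr
      simp only [Option.bind_some, run] at hr ⊢
      cases h2 : δ u (x, b) with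
      | none => rw [h2] at hr; simp at hr
      | some u' =>
        rw [h2] at hr
        have h3 := h _ _ _ h2
        simp only [Option.bind_some, run] at hr
        rw [h3] at hr
        exact hr

lemma run_red {δ : V → α × Bool → Option V} (h : Folded δ) {l l' : List (α × Bool)}
    (hs : FreeGroup.Red l l') {v w : V} (hr : run δ l v = some w) : run δ l' v = some w := by
  induction hs with
  | refl => exact hr
  | tail _ h2 ih => exact run_step h h2 ih

lemma run_invRev {δ : V → α × Bool → Option V} (h : Folded δ) (l : List (α × Bool)) {v w : V}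
    (hr : run δ l v = some w) : run δ (FreeGroup.invRev l) w = some v := by
  induction l generalizing v with
  | nil => simp only [run, Option.some.injEq] at hr; subst hr; rfl
  | cons a l ih =>
    simp only [run] at hr
    cases h2 : δ v a with
    | none => rw [h2] at hr; simp at hr
    | some u =>
      rw [h2] at hr
      have h3 := ih hr
      have : FreeGroup.invRev (a :: l) = FreeGroup.invRev l ++ [(a.1, !a.2)] := by
        simp [FreeGroup.invRev]
      rw [this, run_append, h3]
      simp only [Option.bind_some, run, h _ _ _ h2]

/-- the subgroup of loops at `v` -/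
def loops {δ : V → α × Bool → Option V} (h : Folded δ) (v : V) : Subgroup (FreeGroup α) where
  carrier := {g | ∃ l, FreeGroup.mk l = g ∧ run δ l v = some v}
  one_mem' := ⟨[], rfl, rfl⟩
  mul_mem' := by
    rintro _ _ ⟨l, rfl, hl⟩ ⟨l', rfl, hl'⟩
    exact ⟨l ++ l', FreeGroup.mul_mk.symm, by rw [run_append, hl]; exact hl'⟩
  inv_mem' := by
    rintro _ ⟨l, rfl, hl⟩
    exact ⟨FreeGroup.invRev l, FreeGroup.inv_mk.symm, run_invRev h l hl⟩

lemma run_toWord [DecidableEq α] {δ : V → α × Bool → Option V} (h : Folded δ) {v : V}
    {g : FreeGroup α} (hg : g ∈ loops h v) : run δ g.toWord v = some v := by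
  obtain ⟨l, rfl, hl⟩ := hg
  rw [FreeGroup.toWord_mk]
  exact run_red h FreeGroup.reduce.red hl

lemma potential {W A B : Type*} [CommGroup A] {δ : V → α × Bool → Option V}
    {ε : W → α × Bool → Option W} (φ : V → W → Option B) (c : B → A) (ψ : FreeGroup α →* A)
    (h : ∀ v w k a v' w', φ v w = some k → δ v a = some v' → ε w a = some w' →
      ∃ k', φ v' w' = some k' ∧ c k' = c k * ψ (FreeGroup.mk [a]))
    (l : List (α × Bool)) {v v' : V} {w w' : W} {k : B} (h0 : φ v w = some k)
    (h1 : run δ l v = some v') (h2 : run ε l w = some w') :
    ∃ k', φ v' w' = some k' ∧ c k' = c k * ψ (FreeGroup.mk l) := by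
  induction l generalizing v w k with
  | nil =>
    simp only [run, Option.some.injEq] at h1 h2
    subst h1 h2
    exact ⟨k, h0, by rw [← FreeGroup.one_eq_mk, map_one, mul_one]⟩
  | cons a l ih =>
    simp only [run] at h1 h2
    cases h3 : δ v a with
    | none => rw [h3] at h1; simp at h1
    | some u =>
      cases h4 : ε w a with
      | none => rw [h4] at h2; simp at h2
      | some u' =>
        rw [h3] at h1
        rw [h4] at h2
        obtain ⟨k1, h5, h6⟩ := h _ _ _ _ _ _ h0 h3 h4
        obtain ⟨k2, h7, h8⟩ := ih h5 h1 h2
        refine ⟨k2, h7, ?_⟩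
        rw [h8, h6, mul_assoc, ← map_mul, FreeGroup.mul_mk]
        rfl

end Pool.Agent.H74.Stallings
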