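import Mathlib

set_option autoImplicit false

namespace Pool.Agent.H74.StepGrp

open MeasureTheory Set Classical

/-- `d` is a left-invariant metric inducing the topology of `G`. -/
structure IsCompatLI (G : Type) [Group G] [TopologicalSpace G] (d : G → G → ℝ) : Prop where
  self : ∀ x, d x x = 0
  eq_of : ∀ x y, d x y = 0 → x = y
  symm : ∀ x y, d x y = d y x
  triangle : ∀ x y z, d x z ≤ d x y + d y z
  compat : ∀ U : Set G, IsOpen U ↔ ∀ x ∈ U, ∃ ε > 0, ∀ y, d x y < ε → y ∈ U
  leftInv : ∀ h g f, d (h * g) (h * f) = d g f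

/-- `d` is a maximal compatible left-invariant metric. -/
def IsMaximal (G : Type) [Group G] [TopologicalSpace G] (d : G → G → ℝ) : Prop :=
  IsCompatLI G d ∧ ∀ e : G → G → ℝ, IsCompatLI G e → ∃ K : ℝ, ∀ g f, e g f ≤ K * d g f + K

/-- Every continuous action on a nonempty compact Hausdorff space has an invariant Borel
probability measure. -/
def IsAmenable (G : Type) [Group G] [TopologicalSpace G] : Prop :=
  ∀ (X : Type) [TopologicalSpace X] [CompactSpace X] [T2Space X] [Nonempty X] [MulAction G X]
    [ContinuousSMul G X] [MeasurableSpace X] [BorelSpace X],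
    ∃ μ : Measure X, IsProbabilityMeasure μ ∧
      ∀ (g : G) (s : Set X), MeasurableSet s → μ ((fun x => g • x) ⁻¹' s) = μ s

abbrev Om : Type := ℕ → ZMod 2

noncomputable def mu : Measure Om := Measure.addHaarMeasure ⊤

instance : mu.IsAddHaarMeasure := by unfold mu; infer_instance

instance : IsProbabilityMeasure mu := ⟨by
  have := Measure.addHaarMeasure_self (G := Om) (K₀ := ⊤)
  simpa [mu] using this⟩

theorem mu_single (t : Om) : mu {t} = 0 := by
  by_contra h
  have hinf : (univ : Set Om).Infinite := infinite_univ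
  have := hinf.meas_eq_top (μ := mu) ⟨mu {t}, h, fun x _ => by
    rw [Measure.addHaar_singleton mu x, Measure.addHaar_singleton mu t]⟩
  simp at this

theorem small_clopen (ε : ℝ) (hε : 0 < ε) (t : Om) :
    ∃ U : Set Om, IsClopen U ∧ t ∈ U ∧ mu.real U < ε := by
  obtain ⟨V, hV, hVo, hVm⟩ := ({t} : Set Om).exists_isOpen_lt_of_lt (μ := mu) (ENNReal.ofReal ε)
    (by rw [mu_single]; simpa using hε)
  obtain ⟨U, hU, htU, hUV⟩ := compact_exists_isClopen_in_isOpen hVo (hV rfl)
  refine ⟨U, hU, htU, ?_⟩
  have : mu U < ENNReal.ofReal ε := lt_of_le_of_lt (measure_mono hUV) hVm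
  exact (ENNReal.lt_ofReal_iff_toReal_lt (measure_ne_top _ _)).1 this

abbrev F : Type := FreeGroup Bool

abbrev G0 : Type := LocallyConstant Om F

instance : Countable G0 := by
  have hc : Countable (TopologicalSpace.Clopens Om) :=
    TopologicalSpace.Clopens.countable_iff_secondCountable.2 inferInstance
  let f : G0 → Finset (F × TopologicalSpace.Clopens Om) := fun g =>
    g.range_finite.toFinset.image (fun h => (h, ⟨{t | g t = h}, g.isLocallyConstant.isClopen_fiber h⟩))
  refine Function.Injective.countable (f := f) ?_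
  intro g g' h
  ext1 t
  have h1 : (g t, (⟨{s | g s = g t}, g.isLocallyConstant.isClopen_fiber _⟩ :
      TopologicalSpace.Clopens Om)) ∈ f g :=
    Finset.mem_image.2 ⟨g t, by simp, rfl⟩
  rw [h] at h1
  obtain ⟨a, -, ha⟩ := Finset.mem_image.1 h1
  simp only [Prod.mk.injEq] at ha
  have h2 : t ∈ {s | g s = g t} := rfl
  have h3 : {s | g' s = a} = {s | g s = g t} := congrArg (fun U : TopologicalSpace.Clopens Om => U.carrier) ha.2
  rw [← h3] at h2
  rw [← ha.1]; exact h2.symm

/-- the set where two step functions differ -/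
def df (g f : G0) : Set Om := {t | g t ≠ f t}

theorem df_clopen (g f : G0) : IsClopen (df g f) := by
  have : df g f = {t | (g⁻¹ * f) t = 1}ᶜ := by
    ext t; simp [df, inv_mul_eq_one]
  rw [this]
  exact ((g⁻¹ * f).isLocallyConstant.isClopen_fiber 1).compl

theorem df_meas (g f : G0) : MeasurableSet (df g f) := (df_clopen g f).isOpen.measurableSet

def G : Type := G0 × Multiplicative ℤ

noncomputable instance : Group G := inferInstanceAs (Group (G0 × Multiplicative ℤ))
instance : Countable G := inferInstanceAs (Countable (G0 × Multiplicative ℤ))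

def nn (x : G) : ℝ := ((Multiplicative.toAdd x.2 : ℤ) : ℝ)

theorem nn_mul (x y : G) : nn (x * y) = nn x + nn y := by
  show ((Multiplicative.toAdd x.2 + Multiplicative.toAdd y.2 : ℤ) : ℝ) = _
  push_cast; rfl
theorem nn_inv (x : G) : nn x⁻¹ = - nn x := by
  show ((- Multiplicative.toAdd x.2 : ℤ) : ℝ) = _
  push_cast; rfl
theorem nn_one : nn 1 = 0 := by
  show ((0 : ℤ) : ℝ) = 0
  simp
theorem fst_mul (x y : G) (t : Om) : (x * y).1 t = x.1 t * y.1 t := rfl
theorem fst_inv (x : G) (t : Om) : (x⁻¹).1 t = (x.1 t)⁻¹ := rfl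
theorem fst_one (t : Om) : (1 : G).1 t = 1 := rfl

noncomputable def dd (x y : G) : ℝ := mu.real (df x.1 y.1) + |nn x - nn y|

noncomputable instance : MetricSpace G where
  dist := dd
  dist_self x := by simp [dd, df]
  dist_comm x y := by
    have : df x.1 y.1 = df y.1 x.1 := by ext t; simp [df, eq_comm]
    simp only [dd, this, abs_sub_comm]
  dist_triangle x y z := by
    have h1 : mu.real (df x.1 z.1) ≤ mu.real (df x.1 y.1) + mu.real (df y.1 z.1) := by
      refine le_trans (measureReal_mono ?_) (measureReal_union_le _ _)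
      intro t ht
      by_contra h
      simp only [df, mem_union, mem_ofPred_eq, not_or, not_not] at h ht
      exact ht (h.1.trans h.2)
    have h2 := abs_sub_le (nn x) (nn y) (nn z)
    simp only [dd]; linarith
  eq_of_dist_eq_zero := by
    intro x y h
    have h1 : 0 ≤ mu.real (df x.1 y.1) := measureReal_nonneg
    have h2 := abs_nonneg (nn x - nn y)
    simp only [dd] at h
    have h3 : mu (df x.1 y.1) = 0 := by
      rw [← measureReal_eq_zero_iff (measure_ne_top _ _)]; linarith
    have h4 : df x.1 y.1 = ∅ := ((df_clopen _ _).isOpen.measure_eq_zero_iff mu).1 h3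
    have h5 : nn x = nn y := by
      have : |nn x - nn y| = 0 := by linarith
      rwa [abs_eq_zero, sub_eq_zero] at this
    apply Prod.ext
    · ext1 t
      by_contra h6
      have : t ∈ df x.1 y.1 := h6
      rw [h4] at this; exact this
    · exact Multiplicative.toAdd.injective (Int.cast_injective (α := ℝ) h5)

theorem dist_def (x y : G) : dist x y = mu.real (df x.1 y.1) + |nn x - nn y| := rfl

theorem dist_left (h x y : G) : dist (h * x) (h * y) = dist x y := by
  have : df (h * x).1 (h * y).1 = df x.1 y.1 := by ext t; simp [df, fst_mul]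
  rw [dist_def, dist_def, this, nn_mul, nn_mul]; congr 2; ring

theorem dist_right (h x y : G) : dist (x * h) (y * h) = dist x y := by
  have : df (x * h).1 (y * h).1 = df x.1 y.1 := by ext t; simp [df, fst_mul]
  rw [dist_def, dist_def, this, nn_mul, nn_mul]; congr 2; ring

theorem dist_inv (x y : G) : dist x⁻¹ y⁻¹ = dist x y := by
  rw [← dist_left x, ← dist_right y]; simp [dist_comm]

instance : IsTopologicalGroup G where
  continuous_mul := by
    refine continuous_prod_of_continuous_lipschitzWith _ 1 (fun a => ?_) (fun b => ?_)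
    · exact (LipschitzWith.mk_one (fun x y => (dist_left a x y).le)).continuous
    · exact LipschitzWith.mk_one (fun x y => (dist_right b x y).le)
  continuous_inv := (LipschitzWith.mk_one (fun x y => (dist_inv x y).le)).continuous

theorem compat : IsCompatLI G dist where
  self := dist_self
  eq_of _ _ := eq_of_dist_eq_zero
  symm := dist_comm
  triangle := dist_triangle
  compat U := by
    rw [Metric.isOpen_iff]
    refine forall₂_congr fun x _ => exists_congr fun ε => and_congr_right fun _ => ?_
    exact forall_congr' fun y => by rw [Metric.mem_ball, dist_comm]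
  leftInv := dist_left

def inl (g : G0) : G := (g, 1)
def inr (n : ℤ) : G := (1, Multiplicative.ofAdd n)

theorem maximal : IsMaximal G dist := by
  refine ⟨compat, fun e he => ?_⟩
  have e0 : ∀ x y, 0 ≤ e x y := fun x y => by
    have := he.triangle x y x
    rw [he.self, he.symm y x] at this; linarith
  have emul : ∀ x y, e 1 (x * y) ≤ e 1 x + e 1 y := fun x y => by
    have h1 := he.triangle 1 x (x * y)
    have h2 := he.leftInv x 1 y
    rw [mul_one] at h2; linarith
  have hopen : IsOpen {y | e 1 y < 1} := by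
    rw [he.compat]
    intro x hx
    refine ⟨1 - e 1 x, sub_pos.2 hx, fun y hy => ?_⟩
    have := he.triangle 1 x y
    show e 1 y < 1
    linarith
  obtain ⟨ε, hε, hball⟩ := (compat.compat _).1 hopen 1 (by simp [he.self])
  choose U hU htU hUm using small_clopen ε hε
  obtain ⟨s, hs⟩ := isCompact_univ.elim_finite_subcover U (fun t => (hU t).isOpen)
    (fun t _ => mem_iUnion.2 ⟨t, htU t⟩)
  have key : ∀ s : Finset Om, ∀ g : G0, (∀ t, (∀ a ∈ s, t ∉ U a) → g t = 1) →
      e 1 (inl g) ≤ s.card := by
    intro s
    induction s using Finset.induction_on with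
    | empty =>
      intro g hg
      have : g = 1 := by ext1 t; exact hg t (by simp)
      subst this
      have h0 : e 1 (inl 1) = 0 := he.self 1
      rw [h0]; simp
    | insert a s ha ih =>
      intro g hg
      have e1 : inl g = inl (g.mulIndicator (hU a)) * inl (g.mulIndicator (hU a).compl) := by
        apply Prod.ext
        · ext1 t
          show g t = g.mulIndicator (hU a) t * g.mulIndicator (hU a).compl t
          by_cases h : t ∈ U a
          · rw [LocallyConstant.mulIndicator_of_mem _ _ h,
              LocallyConstant.mulIndicator_of_notMem _ _ (by simpa using h), mul_one]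
          · rw [LocallyConstant.mulIndicator_of_notMem _ _ h,
              LocallyConstant.mulIndicator_of_mem _ _ (by simpa using h), one_mul]
        · rfl
      have h1 : e 1 (inl (g.mulIndicator (hU a))) < 1 := by
        apply hball
        rw [dist_def]
        have : nn 1 - nn (inl (g.mulIndicator (hU a))) = 0 := sub_self _
        rw [this, abs_zero, add_zero]
        refine lt_of_le_of_lt (measureReal_mono ?_) (hUm a)
        intro t ht
        by_contra h
        exact ht (LocallyConstant.mulIndicator_of_notMem g (hU a) h).symm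
      have h2 := ih (g.mulIndicator (hU a).compl) (fun t ht => by
        by_cases h : t ∈ U a
        · exact LocallyConstant.mulIndicator_of_notMem _ _ (by simpa using h)
        · rw [LocallyConstant.mulIndicator_of_mem _ _ (by simpa using h)]
          apply hg
          intro b hb
          rcases Finset.mem_insert.1 hb with rfl | hb
          · exact h
          · exact ht b hb)
      rw [e1, Finset.card_insert_of_notMem ha]
      have := emul (inl (g.mulIndicator (hU a))) (inl (g.mulIndicator (hU a).compl))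
      push_cast; linarith
  have hN : ∀ g : G0, e 1 (inl g) ≤ s.card := fun g => key s g (fun t ht => by
    obtain ⟨a, ha, h⟩ := mem_iUnion₂.1 (hs (mem_univ t))
    exact (ht a ha h).elim)
  set c := e 1 (inr 1) with hc
  have hc' : e 1 (inr (-1)) = c := by
    have := he.leftInv (inr 1) 1 (inr (-1))
    have h2 : inr 1 * inr (-1) = 1 := by apply Prod.ext <;> simp [inr] <;> rfl
    rw [h2, mul_one, he.symm] at this
    exact this.symm
  have hadd : ∀ m n : ℤ, inr (m + n) = inr m * inr n := fun m n => by
    apply Prod.ext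
    · exact (mul_one _).symm
    · rfl
  have hz : ∀ n : ℤ, e 1 (inr n) ≤ c * |(n : ℝ)| := by
    intro n
    induction n using Int.induction_on with
    | zero =>
      have h0 : e 1 (inr 0) = 0 := he.self 1
      rw [h0]; simp
    | succ n ih =>
      have := emul (inr n) (inr 1)
      rw [← hadd] at this
      push_cast at ih ⊢
      rw [abs_of_nonneg (by positivity)] at ih ⊢
      linarith
    | pred n ih =>
      have := emul (inr (-n)) (inr (-1))
      rw [← hadd, hc', ← sub_eq_add_neg] at this
      push_cast at ih ⊢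
      have h0 : (0 : ℝ) ≤ n := Nat.cast_nonneg _
      rw [abs_of_nonpos (by linarith)] at ih ⊢
      linarith
  refine ⟨s.card + c, fun g f => ?_⟩
  have h1 : e g f = e 1 (g⁻¹ * f) := by rw [← he.leftInv g⁻¹, inv_mul_cancel]
  have h2 : g⁻¹ * f = inl (g⁻¹ * f).1 * inr (Multiplicative.toAdd (g⁻¹ * f).2) := by
    apply Prod.ext
    · exact (mul_one _).symm
    · exact (one_mul _).symm
  have h3 := emul (inl (g⁻¹ * f).1) (inr (Multiplicative.toAdd (g⁻¹ * f).2))
  rw [← h2] at h3
  have h4 := hN (g⁻¹ * f).1
  have h5 := hz (Multiplicative.toAdd (g⁻¹ * f).2)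
  have h6 : |((Multiplicative.toAdd (g⁻¹ * f).2 : ℤ) : ℝ)| ≤ dist g f := by
    have : ((Multiplicative.toAdd (g⁻¹ * f).2 : ℤ) : ℝ) = - (nn g - nn f) := by
      show nn (g⁻¹ * f) = _
      rw [nn_mul, nn_inv]; ring
    rw [this, abs_neg, dist_def]
    have : 0 ≤ mu.real (df g.1 f.1) := measureReal_nonneg
    linarith
  have h7 : 0 ≤ c := e0 _ _
  have h8 : (0 : ℝ) ≤ s.card := Nat.cast_nonneg _
  have h9 : 0 ≤ dist g f := dist_nonneg
  nlinarith [mul_le_mul_of_nonneg_left h6 h7, mul_nonneg h8 h9]

theorem exists_swap : ∃ p : Equiv.Perm ℤ, ∀ n : ℤ, (p n) % 3 = 0 ↔ ¬ n % 3 = 0 := by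
  have i1 : Infinite {n : ℤ // n % 3 = 0} :=
    Infinite.of_injective (fun k : ℤ => ⟨3 * k, by omega⟩) (fun a b h => by
      simp only [Subtype.mk.injEq] at h; omega)
  have i2 : Infinite {n : ℤ // ¬ n % 3 = 0} :=
    Infinite.of_injective (fun k : ℤ => ⟨3 * k + 1, by omega⟩) (fun a b h => by
      simp only [Subtype.mk.injEq] at h; omega)
  have i3 : Infinite {n : ℤ // ¬ ¬ n % 3 = 0} :=
    Infinite.of_injective (fun k : ℤ => ⟨3 * k, by omega⟩) (fun a b h => by
      simp only [Subtype.mk.injEq] at h; omega)
  obtain ⟨e1⟩ : Nonempty ({n : ℤ // n % 3 = 0} ≃ {n : ℤ // ¬ n % 3 = 0}) :=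
    nonempty_equiv_of_countable
  obtain ⟨e2⟩ : Nonempty ({n : ℤ // ¬ n % 3 = 0} ≃ {n : ℤ // ¬ ¬ n % 3 = 0}) :=
    nonempty_equiv_of_countable
  refine ⟨Equiv.subtypeCongr e1 e2, fun n => ?_⟩
  by_cases h : n % 3 = 0
  · have h1 : Equiv.subtypeCongr e1 e2 n = e1 ⟨n, h⟩ := by
      simp [Equiv.subtypeCongr, Equiv.sumCompl_symm_apply_of_pos (p := fun n : ℤ => n % 3 = 0) h]
    rw [h1]
    have := (e1 ⟨n, h⟩).2
    tauto
  · have h1 : Equiv.subtypeCongr e1 e2 n = e2 ⟨n, h⟩ := by
      simp [Equiv.subtypeCongr, Equiv.sumCompl_symm_apply_of_neg (p := fun n : ℤ => n % 3 = 0) h]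
    rw [h1]
    have := (e2 ⟨n, h⟩).2
    tauto

noncomputable def rho : F →* Equiv.Perm ℤ :=
  FreeGroup.lift (fun b : Bool => if b then Equiv.addRight 1 else exists_swap.choose)

noncomputable def act (x : G) (p : Om × ℤ) : Om × ℤ := (p.1, rho (x.1 p.1) p.2)

theorem act_one : act 1 = id := by funext p; simp [act, fst_one]
theorem act_mul (x y : G) : act (x * y) = act x ∘ act y := by funext p; simp [act, fst_mul]

theorem act_meas (x : G) : Measurable (act x) := by
  refine measurable_fst.prodMk (measurable_from_prod_countable_left fun n => ?_)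
  exact (x.1.isLocallyConstant.comp (fun h => rho h n)).continuous.measurable

theorem act_meas_iff (x : G) (S : Set (Om × ℤ)) :
    MeasurableSet (act x ⁻¹' S) ↔ MeasurableSet S := by
  refine ⟨fun h => ?_, fun h => act_meas x h⟩
  have := act_meas x⁻¹ h
  rwa [← preimage_comp, ← act_mul, mul_inv_cancel, act_one, preimage_id] at this

/-- finitely additive probabilities on the product with first marginal `mu` -/
def XS : Set (Set (Om × ℤ) → ℝ) :=
  {φ | (∀ S, φ S ∈ Icc (0 : ℝ) 1) ∧ (∀ S, ¬ MeasurableSet S → φ S = 0) ∧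
    (∀ S T, MeasurableSet S → MeasurableSet T → Disjoint S T → φ (S ∪ T) = φ S + φ T) ∧
    ∀ B, MeasurableSet B → φ (Prod.fst ⁻¹' B) = mu.real B}

theorem XS_compact : IsCompact XS := by
  refine (isCompact_univ_pi (fun _ : Set (Om × ℤ) => isCompact_Icc (a := (0 : ℝ)) (b := 1))).of_isClosed_subset
    ?_ (fun φ hφ S _ => hφ.1 S)
  simp only [XS, ofPred_and, ofPred_forall]
  refine IsClosed.inter (isClosed_iInter fun S => isClosed_Icc.preimage (continuous_apply S))
    (IsClosed.inter (isClosed_iInter fun S => isClosed_iInter fun _ =>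
      isClosed_eq (continuous_apply S) continuous_const) (IsClosed.inter ?_ ?_))
  · exact isClosed_iInter fun S => isClosed_iInter fun T => isClosed_iInter fun _ =>
      isClosed_iInter fun _ => isClosed_iInter fun _ =>
        isClosed_eq (continuous_apply _) ((continuous_apply S).add (continuous_apply T))
  · exact isClosed_iInter fun B => isClosed_iInter fun _ =>
      isClosed_eq (continuous_apply _) continuous_const

instance : CompactSpace XS := isCompact_iff_compactSpace.1 XS_compact

instance : Nonempty XS := ⟨⟨fun S => if MeasurableSet S then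
    mu.real ((fun t : Om => (t, (0 : ℤ))) ⁻¹' S) else 0, by
  have hm : Measurable (fun t : Om => (t, (0 : ℤ))) := measurable_id.prodMk measurable_const
  refine ⟨fun S => ?_, fun S hS => if_neg hS, fun S T hS hT h => ?_, fun B hB => ?_⟩
  · dsimp only
    split_ifs
    · exact ⟨measureReal_nonneg, measureReal_le_one⟩
    · simp
  · simp only [if_pos hS, if_pos hT, if_pos (hS.union hT), preimage_union]
    exact measureReal_union (h.preimage _) (hm hT)
  · simp only [if_pos (measurable_fst hB)]
    rfl⟩⟩

noncomputable instance : MulAction G XS where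
  smul x φ := ⟨fun S => φ.1 (act x ⁻¹' S), fun S => φ.2.1 _,
    fun S hS => φ.2.2.1 _ (by rwa [act_meas_iff]),
    fun S T hS hT h => φ.2.2.2.1 _ _ (act_meas x hS) (act_meas x hT) (h.preimage _),
    fun B hB => φ.2.2.2.2 B hB⟩
  one_smul φ := by
    apply Subtype.ext; funext S
    show φ.1 (act 1 ⁻¹' S) = _
    rw [act_one, preimage_id]
  mul_smul x y φ := by
    apply Subtype.ext; funext S
    show φ.1 (act (x * y) ⁻¹' S) = φ.1 (act y ⁻¹' (act x ⁻¹' S))
    rw [act_mul, preimage_comp]

theorem smul_val (x : G) (φ : XS) (S : Set (Om × ℤ)) : (x • φ).1 S = φ.1 (act x ⁻¹' S) := rfl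

theorem XS_le (φ : XS) {S T : Set (Om × ℤ)} {B : Set Om} (hS : MeasurableSet S)
    (hT : MeasurableSet T) (hB : MeasurableSet B)
    (h : S \ Prod.fst ⁻¹' B = T \ Prod.fst ⁻¹' B) : φ.1 S ≤ φ.1 T + mu.real B := by
  have hB' : MeasurableSet (Prod.fst ⁻¹' B : Set (Om × ℤ)) := measurable_fst hB
  have h1 := φ.2.2.2.1 _ _ (hS.inter hB') (hS.diff hB') disjoint_inf_sdiff
  have h2 := φ.2.2.2.1 _ _ (hT.inter hB') (hT.diff hB') disjoint_inf_sdiff
  have h3 := φ.2.2.2.1 _ _ (hB'.inter hS) (hB'.diff hS) disjoint_inf_sdiff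
  rw [inter_union_sdiff] at h1 h2 h3
  rw [φ.2.2.2.2 B hB, inter_comm] at h3
  have h4 := (φ.2.1 (T ∩ Prod.fst ⁻¹' B)).1
  have h5 := (φ.2.1 (Prod.fst ⁻¹' B \ S)).1
  rw [h] at h1
  linarith

instance : ContinuousSMul G XS where
  continuous_smul := by
    refine continuous_induced_rng.2 (continuous_pi fun S => ?_)
    refine continuous_prod_of_continuous_lipschitzWith
      (fun p : G × XS => p.2.1 (act p.1 ⁻¹' S)) 1 (fun a => ?_) (fun φ => ?_)
    · exact (continuous_apply (act a ⁻¹' S)).comp continuous_subtype_val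
    · refine LipschitzWith.of_le_add (fun x y => ?_)
      by_cases hS : MeasurableSet S
      · have := XS_le φ (act_meas x hS) (act_meas y hS) (df_meas x.1 y.1) (by
          ext p
          simp only [mem_sdiff, mem_preimage, df, mem_ofPred_eq, not_not, act]
          constructor
          · rintro ⟨h1, h2⟩; exact ⟨h2 ▸ h1, h2⟩
          · rintro ⟨h1, h2⟩; exact ⟨h2.symm ▸ h1, h2⟩)
        rw [dist_def]
        have h2 := abs_nonneg (nn x - nn y)
        dsimp only
        linarith
      · dsimp only
        rw [φ.2.2.1 _ (by rwa [act_meas_iff]), φ.2.2.1 _ (by rwa [act_meas_iff])]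
        simp

theorem not_amenable : ¬ IsAmenable G := by
  intro h
  let _ : MeasurableSpace XS := borel XS
  have : BorelSpace XS := ⟨rfl⟩
  obtain ⟨lam, hprob, hinv⟩ := h XS
  let ev : Set ℤ → XS → ℝ := fun A φ => φ.1 (Prod.snd ⁻¹' A)
  have hc : ∀ A, Continuous (ev A) := fun A => (continuous_apply _).comp continuous_subtype_val
  have hi : ∀ A, Integrable (ev A) lam := fun A =>
    (hc A).integrable_of_hasCompactSupport (HasCompactSupport.of_compactSpace _)
  let m : Set ℤ → ℝ := fun A => ∫ φ, ev A φ ∂lam
  have hms : ∀ A : Set ℤ, MeasurableSet (Prod.snd ⁻¹' A : Set (Om × ℤ)) := fun A =>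
    measurable_snd (MeasurableSet.of_discrete)
  have madd : ∀ A B, Disjoint A B → m (A ∪ B) = m A + m B := by
    intro A B hAB
    simp only [m]
    rw [← integral_add (hi A) (hi B)]
    congr 1
    funext φ
    exact φ.2.2.2.1 _ _ (hms A) (hms B) (hAB.preimage _)
  have muniv : m univ = 1 := by
    have : ev univ = fun _ => 1 := by
      funext φ
      have := φ.2.2.2.2 univ MeasurableSet.univ
      simpa [ev] using this
    simp [m, this]
  have minv : ∀ (f : F) (A : Set ℤ), m (rho f ⁻¹' A) = m A := by
    intro f A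
    let x : G := inl (LocallyConstant.const Om f)
    have hx : Measurable (fun φ : XS => x • φ) := (continuous_const_smul x).measurable
    have hmap : lam.map (fun φ : XS => x • φ) = lam := by
      ext s hs
      rw [Measure.map_apply hx hs, hinv x s hs]
    have := integral_map (μ := lam) hx.aemeasurable (f := ev A) (hc A).aestronglyMeasurable
    rw [hmap] at this
    exact this.symm
  have h1 := minv (FreeGroup.of true) {n | n % 3 = 1}
  have h2 := minv (FreeGroup.of true) {n | n % 3 = 2}
  have h3 := minv (FreeGroup.of false) {n | n % 3 = 0}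
  have e1 : rho (FreeGroup.of true) ⁻¹' {n | n % 3 = 1} = {n | n % 3 = 0} := by
    ext n; simp [rho]; omega
  have e2 : rho (FreeGroup.of true) ⁻¹' {n | n % 3 = 2} = {n | n % 3 = 1} := by
    ext n; simp [rho]; omega
  have e3 : rho (FreeGroup.of false) ⁻¹' {n | n % 3 = 0} = {n | n % 3 = 1} ∪ {n | n % 3 = 2} := by
    ext n
    have := exists_swap.choose_spec n
    simp only [rho, FreeGroup.lift_apply_of, mem_preimage, mem_ofPred_eq, mem_union]
    simp only [Bool.false_eq_true, if_false]
    rw [this]; omega
  have d1 : Disjoint {n : ℤ | n % 3 = 1} {n | n % 3 = 2} := by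
    rw [Set.disjoint_left]; intro n h1 h2; simp only [mem_ofPred_eq] at h1 h2; omega
  have d2 : Disjoint {n : ℤ | n % 3 = 0} ({n | n % 3 = 1} ∪ {n | n % 3 = 2}) := by
    rw [Set.disjoint_left]; intro n h1 h2; simp only [mem_ofPred_eq, mem_union] at h1 h2; omega
  have e4 : {n : ℤ | n % 3 = 0} ∪ ({n | n % 3 = 1} ∪ {n | n % 3 = 2}) = univ := by
    ext n; simp only [mem_ofPred_eq, mem_union, mem_univ, iff_true]; omega
  have h4 := madd _ _ d2
  rw [e4, muniv, madd _ _ d1] at h4
  rw [e1] at h1
  rw [e2] at h2
  rw [e3, madd _ _ d1] at h3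
  linarith

noncomputable def alpha : G →* (ℝ ≃ᵃⁱ[ℝ] ℝ) where
  toFun x := AffineIsometryEquiv.constVAdd ℝ ℝ (nn x)
  map_one' := by ext t; simp [nn_one]
  map_mul' x y := by ext t; simp [nn_mul, add_assoc]

theorem alpha_apply (x : G) (t : ℝ) : alpha x t = nn x + t := rfl

theorem nn_cont : Continuous nn := by
  refine (LipschitzWith.mk_one (fun x y => ?_)).continuous
  rw [dist_def, Real.dist_eq]
  have : 0 ≤ mu.real (df x.1 y.1) := measureReal_nonneg
  linarith

theorem dist_one_le (x : G) : dist x 1 ≤ 1 + |nn x| := by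
  rw [dist_def, nn_one, sub_zero]
  have : mu.real (df x.1 (1 : G).1) ≤ 1 := measureReal_le_one
  linarith

theorem le_dist_one (x : G) : |nn x| ≤ dist x 1 := by
  rw [dist_def, nn_one, sub_zero]
  have : 0 ≤ mu.real (df x.1 (1 : G).1) := measureReal_nonneg
  linarith

end Pool.Agent.H74.StepGrp
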