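import Pool.Agent.H74.SubLatDefs

set_option autoImplicit false

namespace Pool.Agent.H74.SubLat

open FirstOrder Filter

section frame

variable {S : Type} [CommRing S]

/-- the submodule cut out by two linear forms -/
def cut (a b : Fin 3 → S) : Submodule S (Fin 3 → S) where
  carrier := {w | a 0 * w 0 + a 1 * w 1 + a 2 * w 2 = 0 ∧ b 0 * w 0 + b 1 * w 1 + b 2 * w 2 = 0}
  zero_mem' := by simp
  add_mem' := fun {x y} hx hy => ⟨by simp only [Pi.add_apply]; linear_combination hx.1 + hy.1,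
    by simp only [Pi.add_apply]; linear_combination hx.2 + hy.2⟩
  smul_mem' := fun c x hx => ⟨by simp only [Pi.smul_apply, smul_eq_mul]; linear_combination c * hx.1,
    by simp only [Pi.smul_apply, smul_eq_mul]; linear_combination c * hx.2⟩

lemma mem_cut {a b w : Fin 3 → S} : w ∈ cut a b ↔
    a 0 * w 0 + a 1 * w 1 + a 2 * w 2 = 0 ∧ b 0 * w 0 + b 1 * w 1 + b 2 * w 2 = 0 := Iff.rfl

variable (S)
def fX (k : ℕ) : Submodule S (Fin 3 → S) := cut ![1, -k, 0] ![0, 0, 1]
def fA : Submodule S (Fin 3 → S) := cut ![0, 1, 0] ![0, 0, 1]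
def fU : Submodule S (Fin 3 → S) := cut ![1, 0, 0] ![0, 1, 0]
def fC : Submodule S (Fin 3 → S) := cut ![1, 0, 0] ![0, 1, -1]
def fV : Submodule S (Fin 3 → S) := cut ![1, 0, 1] ![0, 1, 0]

lemma r1 : fX S 0 ≤ fU S ⊔ fC S := fun w hw => Submodule.mem_sup.2
  ⟨![0, 0, -w 1], by simp [fU, mem_cut], ![0, w 1, w 1], by simp [fC, mem_cut], by
    simp only [fX, mem_cut] at hw
    ext i; fin_cases i <;> simp_all⟩

lemma r2 : fU S ≤ fV S ⊔ fA S := fun w hw => Submodule.mem_sup.2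
  ⟨![-w 2, 0, w 2], by simp [fV, mem_cut], ![w 2, 0, 0], by simp [fA, mem_cut], by
    simp only [fU, mem_cut] at hw
    ext i; fin_cases i <;> simp_all⟩

lemma r3 (k : ℕ) : ((fX S k ⊔ fU S) ⊓ (fA S ⊔ fC S) ⊔ fV S) ⊓ (fA S ⊔ fX S 0) ≤ fX S (k + 1) := by
  rintro w ⟨h1, h2⟩
  obtain ⟨m, ⟨h3, h4⟩, v, hv, rfl⟩ := Submodule.mem_sup.1 h1
  obtain ⟨x, hx, u, hu, rfl⟩ := Submodule.mem_sup.1 h3
  obtain ⟨a, ha, c, hc, e⟩ := Submodule.mem_sup.1 h4
  obtain ⟨a', ha', y, hy, e'⟩ := Submodule.mem_sup.1 h2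
  have e1 := congrFun e 1
  have e2 := congrFun e 2
  have e3 := congrFun e' 2
  simp [fX, fU, fA, fC, fV, mem_cut] at hx hu ha hc ha' hy hv e1 e2 e3 ⊢
  refine ⟨?_, by linear_combination -e3 + ha'.2 + hy.2⟩
  linear_combination hx.1 + hu.1 + hv.1 - (k + 1 : S) * (hu.2 + hv.2) + e3 - ha'.2 - hy.2 - e2 + e1
    + ha.2 - ha.1 - hc.2 + hu.2

lemma r4 : fA S ⊓ fX S 0 ≤ ⊥ := fun w hw => by
  simp only [fA, fX, Submodule.mem_inf, mem_cut] at hw
  ext i; fin_cases i <;> simp_all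

lemma r5 : fV S ⊓ fU S ≤ ⊥ := fun w hw => by
  simp [fV, fU, Submodule.mem_inf, mem_cut] at hw
  obtain ⟨⟨h1, h2⟩, h3, -⟩ := hw
  ext i; fin_cases i
  · exact h3
  · exact h2
  · simpa [h3] using h1

lemma r6 : fX S 0 ⊓ fC S ≤ ⊥ := fun w hw => by
  simp [fX, fC, Submodule.mem_inf, mem_cut] at hw
  obtain ⟨⟨h1, h2⟩, -, h3⟩ := hw
  ext i; fin_cases i
  · exact h1
  · simpa [h2] using h3
  · exact h2

lemma r7 [Nontrivial S] : fX S 0 ≠ ⊥ := fun h => by
  have : (![0, 1, 0] : Fin 3 → S) ∈ fX S 0 := by simp [fX, mem_cut]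
  rw [h] at this
  simpa using congrFun this 1

lemma r8 (n : ℕ) (h : (n : S) = 0) : fX S n = fX S 0 := by simp [fX, h]

lemma r9 (n : ℕ) (h : IsUnit (n : S)) : fX S n ⊓ fX S 0 ≤ ⊥ := fun w hw => by
  simp [fX, Submodule.mem_inf, mem_cut] at hw
  obtain ⟨⟨h1, h2⟩, h3, -⟩ := hw
  ext i; fin_cases i
  · exact h3
  · exact h.mul_right_eq_zero.1 (by simpa [h3] using h1)
  · exact h2

variable {S} {D V : Type} [DivisionRing D] [AddCommGroup V] [Module D V]

lemma frame [Nontrivial S] (f : Submodule S (Fin 3 → S) → Submodule D V)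
    (hf : Function.Injective f) (hi : ∀ a b, f (a ⊓ b) = f a ⊓ f b)
    (hs : ∀ a b, f (a ⊔ b) = f a ⊔ f b) (n : ℕ) :
    ((n : S) = 0 → (n : D) = 0) ∧ (IsUnit (n : S) → (n : D) ≠ 0) := by
  have mono : ∀ {a b}, a ≤ b → f a ≤ f b := fun {a b} h => by
    rw [← inf_eq_left, ← hi, inf_eq_left.2 h]
  obtain ⟨a, ha, ha0⟩ : ∃ a ∈ f (fX S 0), a ∉ f ⊥ := by
    by_contra h
    push Not at h
    exact r7 S (hf (le_antisymm h (mono bot_le)))
  have h1 := mono (r1 S) ha
  rw [hs] at h1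
  obtain ⟨u, hu, c, hc, e1⟩ := Submodule.mem_sup.1 h1
  have h2 := mono (r2 S) (neg_mem hu)
  rw [hs] at h2
  obtain ⟨v, hv, b, hb, e2⟩ := Submodule.mem_sup.1 h2
  have key : ∀ k : ℕ, a + (k : D) • b ∈ f (fX S k) := fun k => by
    induction k with
    | zero => simpa using ha
    | succ k ih =>
      refine mono (r3 S k) ?_
      simp only [hi, hs]
      refine ⟨?_, add_comm a _ ▸ Submodule.add_mem_sup (Submodule.smul_mem _ _ hb) ha⟩
      have : a + ((k + 1 : ℕ) : D) • b = (a + (k : D) • b + -u) + -v := by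
        rw [← e2, Nat.cast_succ, add_smul, one_smul]; abel
      rw [this]
      refine Submodule.add_mem_sup ⟨Submodule.add_mem_sup ih (neg_mem hu), ?_⟩ (neg_mem hv)
      have : a + (k : D) • b + -u = (k : D) • b + c := by rw [← e1]; abel
      rw [this]
      exact Submodule.add_mem_sup (Submodule.smul_mem _ _ hb) hc
  have bot : ∀ {x y w}, x ⊓ y ≤ ⊥ → w ∈ f x → w ∈ f y → w ∈ f ⊥ := fun h h1 h2 =>
    mono h (by rw [hi]; exact ⟨h1, h2⟩)
  refine ⟨fun h => by_contra fun h' => ha0 ?_, fun h h' => ha0 ?_⟩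
  · have h3 := key n
    rw [r8 S n h] at h3
    have h4 : b ∈ f ⊥ := bot (r4 S) hb
      ((Submodule.smul_mem_iff _ h').1 ((Submodule.add_mem_iff_right _ ha).1 h3))
    have h5 : v ∈ f ⊥ := bot (r5 S) hv (by
      rw [eq_sub_of_add_eq e2]; exact sub_mem (neg_mem hu) (mono bot_le h4))
    have h6 : u ∈ f ⊥ := neg_mem_iff.1 (e2 ▸ add_mem h5 h4)
    have h7 : c ∈ f ⊥ := bot (r6 S) (by
      rw [eq_sub_of_add_eq' e1]; exact sub_mem ha (mono bot_le h6)) hc
    exact e1 ▸ add_mem h6 h7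
  · have h3 := key n
    rw [h', zero_smul, add_zero] at h3
    exact bot (r9 S n h) h3 ha

end frame

/-- the test lattices -/
abbrev Lp (p : ℕ) : Type := Submodule (ZMod p) (Fin 3 → ZMod p) × Submodule ℚ (Fin 3 → ℚ)

lemma not_mem (p : ℕ) (hp : p.Prime) : ¬ InKDiv (Lp p) := by
  rintro ⟨D, V, _, _, _, f, hf, hi, hs⟩
  have : Fact p.Prime := ⟨hp⟩
  have h1 := (frame (fun x => f (x, ⊥)) (fun a b h => (Prod.ext_iff.1 (hf h)).1)
    (fun a b => by rw [← hi]; simp) (fun a b => by rw [← hs]; simp) p).1 (by simp)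
  exact (frame (fun x => f (⊥, x)) (fun a b h => (Prod.ext_iff.1 (hf h)).2)
    (fun a b => by rw [← hi]; simp) (fun a b => by rw [← hs]; simp) p).2
    (by simpa using hp.ne_zero) h1

lemma ultra {α : Type} (u : Ultrafilter α) (R M : α → Type) [∀ a, CommRing (R a)]
    [∀ a, AddCommGroup (M a)] [∀ a, Module (R a) (M a)]
    (h : ∀ n : ℤ, n ≠ 0 → ∀ᶠ a in (u : Filter α), IsUnit (n : R a)) :
    ∃ (W : Type) (_ : AddCommGroup W) (_ : Module ℚ W)
      (F : (∀ a, Submodule (R a) (M a)) → Submodule ℚ W),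
      (∀ x y, F x ≤ F y ↔ ∀ᶠ a in (u : Filter α), x a ≤ y a) ∧
      (∀ x y, F (x ⊓ y) = F x ⊓ F y) ∧ ∀ x y, F (x ⊔ y) = F x ⊔ F y := by
  classical
  let Sb : (∀ a, Submodule (R a) (M a)) → Submodule (∀ a, R a) (∀ a, M a) := fun x =>
    { carrier := {w | ∀ᶠ a in (u : Filter α), w a ∈ x a}
      zero_mem' := Eventually.of_forall fun a => zero_mem _
      add_mem' := fun h1 h2 => (Eventually.and h1 h2).mono fun a h => add_mem h.1 h.2
      smul_mem' := fun c w hw => Eventually.mono hw fun a h => Submodule.smul_mem _ (c a) h }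
  let I : Ideal (∀ a, R a) :=
    { carrier := {w | ∀ᶠ a in (u : Filter α), w a = 0}
      zero_mem' := Eventually.of_forall fun a => rfl
      add_mem' := fun h1 h2 => (Eventually.and h1 h2).mono fun a h => by simp [h.1, h.2]
      smul_mem' := fun c w hw => Eventually.mono hw fun a h => by simp [h] }
  let W := (∀ a, M a) ⧸ Sb ⊥
  have tor : Module.IsTorsionBySet (∀ a, R a) W I := by
    rintro x ⟨c, hc⟩
    obtain ⟨x, rfl⟩ := Submodule.Quotient.mk_surjective _ x
    exact (Submodule.Quotient.mk_eq_zero _).2 (Eventually.mono hc fun a h => by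
      change c a • x a = 0
      rw [h, zero_smul])
  let _ := tor.module
  let g : ℚ →+* (∀ a, R a) ⧸ I := IsLocalization.lift (M := nonZeroDivisors ℤ)
    (g := Int.castRingHom _) fun n => by
      have hn := h n (nonZeroDivisors.ne_zero n.2)
      refine IsUnit.of_mul_eq_one (Ideal.Quotient.mk I fun a => Ring.inverse ((n : ℤ) : R a)) ?_
      change Ideal.Quotient.mk I ((n : ℤ) : ∀ a, R a) * _ = Ideal.Quotient.mk I 1
      rw [← map_mul, Ideal.Quotient.eq]
      exact hn.mono fun a ha => by simp [Ring.mul_inverse_cancel _ ha]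
  let _ : Module ℚ W := Module.compHom W g
  let F : (∀ a, Submodule (R a) (M a)) → Submodule ℚ W := fun x =>
    { ((Sb x).map (Sb ⊥).mkQ).toAddSubmonoid with
      smul_mem' := fun q w hw => by
        obtain ⟨c, hc⟩ := Ideal.Quotient.mk_surjective (g q)
        have : q • w = c • w := by
          change g q • w = _
          rw [← hc]; rfl
        rw [this]
        exact Submodule.smul_mem ((Sb x).map (Sb ⊥).mkQ) c hw }
  have mem : ∀ x w, (Sb ⊥).mkQ w ∈ F x ↔ ∀ᶠ a in (u : Filter α), w a ∈ x a := fun x w => by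
    refine ⟨?_, fun h => ⟨w, h, rfl⟩⟩
    rintro ⟨w', h1, h2⟩
    have h3 : ∀ᶠ a in (u : Filter α), (w' - w) a = 0 := (Submodule.Quotient.eq _).1 h2
    exact (Eventually.and h1 h3).mono fun a h => by
      rw [← sub_eq_zero.1 h.2]; exact h.1
  refine ⟨W, inferInstance, inferInstance, F, fun x y => ⟨fun hxy => ?_, fun hxy w hw => ?_⟩,
    fun x y => ?_, fun x y => ?_⟩
  · by_contra hh
    have h1 := Ultrafilter.eventually_not.2 hh
    have : ∀ a, ∃ w ∈ x a, ¬ x a ≤ y a → w ∉ y a := fun a => by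
      by_cases h : x a ≤ y a
      · exact ⟨0, zero_mem _, fun h' => absurd h h'⟩
      · obtain ⟨w, h1, h2⟩ := SetLike.not_le_iff_exists.1 h
        exact ⟨w, h1, fun _ => h2⟩
    choose w hw hw' using this
    obtain ⟨a, h2, h3⟩ := (h1.and ((mem y w).1 (hxy ((mem x w).2 (Eventually.of_forall hw))))).exists
    exact hw' a h2 h3
  · obtain ⟨w, rfl⟩ := (Sb ⊥).mkQ_surjective w
    exact (mem y w).2 ((hxy.and ((mem x w).1 hw)).mono fun a h => h.1 h.2)
  · ext w
    obtain ⟨w, rfl⟩ := (Sb ⊥).mkQ_surjective w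
    rw [Submodule.mem_inf, mem, mem, mem, ← eventually_and]; rfl
  · ext w
    obtain ⟨w, rfl⟩ := (Sb ⊥).mkQ_surjective w
    rw [mem, Submodule.mem_sup]
    constructor
    · intro hw
      have : ∀ a, ∃ v ∈ x a, w a ∈ x a ⊔ y a → w a - v ∈ y a := fun a => by
        by_cases h : w a ∈ x a ⊔ y a
        · obtain ⟨v, h1, z, h2, e⟩ := Submodule.mem_sup.1 h
          exact ⟨v, h1, fun _ => by rw [← e]; simpa using h2⟩
        · exact ⟨0, zero_mem _, fun h' => absurd h' h⟩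
      choose v hv hv' using this
      exact ⟨_, (mem x v).2 (Eventually.of_forall hv), _,
        (mem y (w - v)).2 (hw.mono fun a h => hv' a h), by simp⟩
    · rintro ⟨v, hv, z, hz, e⟩
      obtain ⟨v, rfl⟩ := (Sb ⊥).mkQ_surjective v
      obtain ⟨z, rfl⟩ := (Sb ⊥).mkQ_surjective z
      rw [← mem (x ⊔ y), ← e, ← map_add, mem]
      exact (((mem x v).1 hv).and ((mem y z).1 hz)).mono fun a h => Submodule.add_mem_sup h.1 h.2

theorem not_fin (Q : ∀ (L : Type) [Lattice L], Prop) (h1 : ∀ (L : Type) [Lattice L], Q L → InKDiv L)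
    (h2 : ∀ (L : Type) [Lattice L] (W : Type) [AddCommGroup W] [Module ℚ W], Embeds L ℚ W → Q L) :
    ¬ ∃ T : lang.Theory, T.Finite ∧ ∀ (L : Type) [Lattice L] [Nonempty L], L ⊨ T ↔ Q L := by
  rintro ⟨T, hT, H⟩
  have : Infinite Nat.Primes := Nat.Primes.infinite
  let u : Ultrafilter Nat.Primes := hyperfilter _
  obtain ⟨W1, _, _, F1, a1, b1, c1⟩ := ultra u (fun p => ZMod p) (fun p => Fin 3 → ZMod p)
    fun n hn => by
      refine hyperfilter_le_cofinite (mem_of_superset (Set.Finite.compl_mem_cofinite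
        ((Set.finite_le_nat n.natAbs).preimage Subtype.val_injective.injOn)) fun p hp => ?_)
      have : Fact (p : ℕ).Prime := ⟨p.2⟩
      refine isUnit_iff_ne_zero.2 fun h => hp ?_
      exact Nat.le_of_dvd (Int.natAbs_pos.2 hn)
        (Int.natCast_dvd.1 ((ZMod.intCast_zmod_eq_zero_iff_dvd n p).1 h))
  obtain ⟨W2, _, _, F2, a2, b2, c2⟩ := ultra u (fun _ => ℚ) (fun _ => Fin 3 → ℚ)
    fun n hn => Eventually.of_forall fun _ => isUnit_iff_ne_zero.2 (by simpa using hn)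
  let G : (∀ p : Nat.Primes, Lp p) → Submodule ℚ (W1 × W2) := fun x =>
    (F1 fun p => (x p).1).prod (F2 fun p => (x p).2)
  have hG : ∀ x y, G x = G y ↔ ∀ᶠ p in (u : Filter Nat.Primes), x p = y p := fun x y => by
    simp only [G, le_antisymm_iff (a := Submodule.prod _ _), Submodule.prod_le_iff,
      Submodule.map_le_iff_le_comap, Submodule.prod_comap_inl, Submodule.prod_comap_inr, a1, a2,
      ← eventually_and, le_antisymm_iff (a := x _), Prod.le_def]
  let P := (u : Filter Nat.Primes).Product fun p => Lp p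
  let f : P → Submodule ℚ (W1 × W2) := Quotient.lift G fun x y h => (hG x y).2 h
  have hf : Function.Injective f := by
    rintro ⟨x⟩ ⟨y⟩ h
    exact Quotient.sound ((hG x y).1 h)
  let sP : lang.Structure P := Language.Ultraproduct.structure
  have ex : ∀ x : Fin 2 → P, ∃ y : Fin 2 → ∀ p : Nat.Primes, Lp p, x = fun i => (y i : P) := fun x =>
    ⟨fun i => (x i).out, funext fun i => (Quotient.out_eq _).symm⟩
  have hm : ∀ x : Fin 2 → P, f (sP.funMap Sym.meet x) = f (x 0) ⊓ f (x 1) := fun x => by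
    obtain ⟨y, rfl⟩ := ex x
    refine (congrArg f (Language.Ultraproduct.funMap_cast (L := lang) Sym.meet y)).trans ?_
    change G (y 0 ⊓ y 1) = G (y 0) ⊓ G (y 1)
    simp only [G, Submodule.prod_inf_prod, ← b1, ← b2]; rfl
  have hj : ∀ x : Fin 2 → P, f (sP.funMap Sym.join x) = f (x 0) ⊔ f (x 1) := fun x => by
    obtain ⟨y, rfl⟩ := ex x
    refine (congrArg f (Language.Ultraproduct.funMap_cast (L := lang) Sym.join y)).trans ?_
    change G (y 0 ⊔ y 1) = G (y 0) ⊔ G (y 1)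
    simp only [G, Submodule.prod_sup_prod, ← c1, ← c2]; rfl
  let _ : Max P := ⟨fun a b => sP.funMap Sym.join ![a, b]⟩
  let _ : Min P := ⟨fun a b => sP.funMap Sym.meet ![a, b]⟩
  let _ : LE P := ⟨fun a b => f a ≤ f b⟩
  let _ : LT P := ⟨fun a b => f a < f b⟩
  let lat : Lattice P := hf.lattice f Iff.rfl Iff.rfl (fun a b => hj _) (fun a b => hm _)
  have es : str P = sP := by
    refine Language.Structure.ext ?_ ?_
    · funext n g x
      cases g
      · exact hf ((hm _).trans (hm _).symm)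
      · exact hf ((hj _).trans (hj _).symm)
    · funext n r
      exact r.elim
  have : Nonempty P := ⟨((fun _ => ⊥ : ∀ p : Nat.Primes, Lp p) : P)⟩
  have hP := (H P).2 (h2 P _ ⟨f, hf, fun a b => hm _, fun a b => hj _⟩)
  rw [es] at hP
  have : ∀ᶠ p : Nat.Primes in (u : Filter Nat.Primes), ∀ φ ∈ T, Lp p ⊨ φ :=
    (eventually_all_finite hT).2 fun φ hφ =>
      (Language.Ultraproduct.sentence_realize φ).1 (hP.realize_of_mem φ hφ)
  obtain ⟨p, hp⟩ := this.exists
  exact not_mem p p.2 (h1 _ ((H _).1 ⟨hp⟩))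

end Pool.Agent.H74.SubLat
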