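import Mathlib

set_option autoImplicit false

namespace Pool.Agent.H74.SubLat

open FirstOrder

/-- The function symbols of the language of lattices: two binary ones. -/
inductive Sym : ℕ → Type
  | meet : Sym 2
  | join : Sym 2

/-- The first-order language `{∧, ∨}` of lattices. -/
def lang : Language := ⟨Sym, fun _ => Empty⟩

/-- A lattice as a structure for the language of lattices. -/
instance str (L : Type) [Lattice L] : lang.Structure L where
  funMap := fun {_} f x => match f, x with
    | .meet, x => x 0 ⊓ x 1
    | .join, x => x 0 ⊔ x 1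
  RelMap := fun r _ => r.elim

/-- `L` is isomorphic to a sublattice of the lattice of subspaces of the `D`-vector space `V`. -/
def Embeds (L : Type) [Lattice L] (D V : Type) [DivisionRing D] [AddCommGroup V] [Module D V] :
    Prop :=
  ∃ f : L → Submodule D V, Function.Injective f ∧ (∀ a b, f (a ⊓ b) = f a ⊓ f b) ∧
    ∀ a b, f (a ⊔ b) = f a ⊔ f b

/-- `L` embeds into the subspace lattice of a vector space over some division ring. -/
def InKDiv (L : Type) [Lattice L] : Prop :=
  ∃ (D V : Type) (_ : DivisionRing D) (_ : AddCommGroup V) (_ : Module D V), Embeds L D V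

/-- `L` embeds into the subspace lattice of a vector space over some field. -/
def InKField (L : Type) [Lattice L] : Prop :=
  ∃ (F V : Type) (_ : Field F) (_ : AddCommGroup V) (_ : Module F V), Embeds L F V

/-- Lattice terms. -/
inductive Tm : Type
  | var : ℕ → Tm
  | meet : Tm → Tm → Tm
  | join : Tm → Tm → Tm

/-- The value of a lattice term. -/
def Tm.eval {L : Type} [Lattice L] (v : ℕ → L) : Tm → L
  | .var n => v n
  | .meet s t => s.eval v ⊓ t.eval v
  | .join s t => s.eval v ⊔ t.eval v

/-- `L` satisfies all identities `s = t` with `(s, t) ∈ Σ`. -/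
def SatId (L : Type) [Lattice L] (S : Set (Tm × Tm)) : Prop :=
  ∀ e ∈ S, ∀ v : ℕ → L, e.1.eval v = e.2.eval v

end Pool.Agent.H74.SubLat
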