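import Pool.Agent.H74.ThinTorus

namespace Pool.Agent.H74.Thin

open Module Polynomial Matrix

attribute [local instance 100] LieRing.ofAssociativeRing

variable (K : Type*) [Field K] [CharP K 2]

abbrev Mat := Matrix (Fin 6) (Fin 6) K

variable {K}

lemma h2K : (2 : K) = 0 := by exact_mod_cast CharP.cast_eq_zero K 2

lemma comm_symm {A X : Mat K} (hA : Aᵀ = A) (hX : Xᵀ = X) : (A * X - X * A)ᵀ = A * X - X * A := by
  rw [transpose_sub, transpose_mul, transpose_mul, hA, hX, sub_eq_add_neg, sub_eq_add_neg,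
    neg_end (K := K), neg_end (K := K), add_comm]

omit [CharP K 2] in
lemma comm_diag {A X : Mat K} (hA : Aᵀ = A) (hX : Xᵀ = X) (i : Fin 6) :
    (A * X - X * A) i i = 0 := by
  rw [Matrix.sub_apply, Matrix.mul_apply, Matrix.mul_apply, sub_eq_zero]
  refine Finset.sum_congr rfl fun j _ => ?_
  have h1 : A i j = A j i := (congrFun (congrFun hA i) j).symm
  have h2 : X j i = X i j := (congrFun (congrFun hX j) i).symm
  rw [h1, h2, mul_comm]

variable (K)

/-- symmetric matrices with zero diagonal -/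
def Alt : LieSubalgebra K (Mat K) where
  carrier := {X | Xᵀ = X ∧ ∀ i, X i i = 0}
  add_mem' := by
    rintro X Y ⟨h1, h2⟩ ⟨h3, h4⟩
    exact ⟨by rw [transpose_add, h1, h3], fun i => by simp [h2, h4]⟩
  zero_mem' := ⟨by simp, by simp⟩
  smul_mem' := by
    rintro c X ⟨h1, h2⟩
    exact ⟨by rw [transpose_smul, h1], fun i => by simp [h2]⟩
  lie_mem' := by
    rintro X Y ⟨h1, -⟩ ⟨h3, -⟩
    exact ⟨comm_symm h1 h3, comm_diag h1 h3⟩

/-- symmetric matrices of trace zero -/
def Sym0 : Submodule K (Mat K) where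
  carrier := {X | Xᵀ = X ∧ X.trace = 0}
  add_mem' := by
    rintro X Y ⟨h1, h2⟩ ⟨h3, h4⟩
    exact ⟨by rw [transpose_add, h1, h3], by simp [h2, h4]⟩
  zero_mem' := ⟨by simp, by simp⟩
  smul_mem' := by
    rintro c X ⟨h1, h2⟩
    exact ⟨by rw [transpose_smul, h1], by simp [h2]⟩

/-- the action of a symmetric matrix by commutators -/
def phi : Sym0 K →ₗ[K] Module.End K (Alt K) where
  toFun A :=
    { toFun := fun X => ⟨A.1 * X.1 - X.1 * A.1, comm_symm A.2.1 X.2.1, comm_diag A.2.1 X.2.1⟩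
      map_add' := fun X Y => Subtype.ext (by
        show A.1 * (X.1 + Y.1) - (X.1 + Y.1) * A.1 = (A.1 * X.1 - X.1 * A.1) + (A.1 * Y.1 - Y.1 * A.1)
        noncomm_ring)
      map_smul' := fun c X => Subtype.ext (by
        show A.1 * (c • X.1) - (c • X.1) * A.1 = c • (A.1 * X.1 - X.1 * A.1)
        rw [Matrix.mul_smul, Matrix.smul_mul, smul_sub]) }
  map_add' A B := by
    ext1 X
    apply Subtype.ext
    show (A.1 + B.1) * X.1 - X.1 * (A.1 + B.1) = (A.1 * X.1 - X.1 * A.1) + (B.1 * X.1 - X.1 * B.1)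
    noncomm_ring
  map_smul' c A := by
    ext1 X
    apply Subtype.ext
    show (c • A.1) * X.1 - X.1 * (c • A.1) = c • (A.1 * X.1 - X.1 * A.1)
    rw [Matrix.mul_smul, Matrix.smul_mul, smul_sub]

variable {K}

lemma phi_val (A : Sym0 K) (X : Alt K) : (phi K A X).1 = A.1 * X.1 - X.1 * A.1 := rfl

lemma lie_val (X Y : Alt K) : (⁅X, Y⁆ : Alt K).1 = X.1 * Y.1 - Y.1 * X.1 := rfl

lemma alt_symm (X : Alt K) (i j : Fin 6) : X.1 i j = X.1 j i := by
  conv_lhs => rw [← X.2.1]
  rfl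

lemma alt_mem_sym0 (X : Alt K) : X.1 ∈ Sym0 K :=
  ⟨X.2.1, by simp [Matrix.trace, X.2.2]⟩

lemma ad_eq_phi (X : Alt K) : LieAlgebra.ad K (Alt K) X = phi K ⟨X.1, alt_mem_sym0 X⟩ := by
  ext1 Y
  rfl

lemma comm_mem_sym0 (A B : Sym0 K) : A.1 * B.1 - B.1 * A.1 ∈ Sym0 K :=
  ⟨comm_symm A.2.1 B.2.1, by rw [trace_sub, trace_mul_comm, sub_self]⟩

lemma sq_mem_sym0 (A : Sym0 K) : A.1 * A.1 ∈ Sym0 K := by
  refine ⟨by rw [transpose_mul, A.2.1], ?_⟩
  have hs : ∀ i j, A.1 i j = A.1 j i := fun i j => by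
    conv_lhs => rw [← A.2.1]
    rfl
  have htr := A.2.2
  simp only [Matrix.trace, Matrix.diag, Matrix.mul_apply, Fin.sum_univ_six] at htr ⊢
  rw [hs 1 0, hs 2 0, hs 3 0, hs 4 0, hs 5 0, hs 2 1, hs 3 1, hs 4 1, hs 5 1, hs 3 2, hs 4 2,
    hs 5 2, hs 4 3, hs 5 3, hs 5 4]
  linear_combination (A.1 0 0 + A.1 1 1 + A.1 2 2 + A.1 3 3 + A.1 4 4 + A.1 5 5) * htr +
    (A.1 0 1 ^ 2 + A.1 0 2 ^ 2 + A.1 0 3 ^ 2 + A.1 0 4 ^ 2 + A.1 0 5 ^ 2 + A.1 1 2 ^ 2 +
      A.1 1 3 ^ 2 + A.1 1 4 ^ 2 + A.1 1 5 ^ 2 + A.1 2 3 ^ 2 + A.1 2 4 ^ 2 + A.1 2 5 ^ 2 +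
      A.1 3 4 ^ 2 + A.1 3 5 ^ 2 + A.1 4 5 ^ 2 -
      (A.1 0 0 * (A.1 1 1 + A.1 2 2 + A.1 3 3 + A.1 4 4 + A.1 5 5) +
        A.1 1 1 * (A.1 2 2 + A.1 3 3 + A.1 4 4 + A.1 5 5) +
        A.1 2 2 * (A.1 3 3 + A.1 4 4 + A.1 5 5) + A.1 3 3 * (A.1 4 4 + A.1 5 5) +
        A.1 4 4 * A.1 5 5)) * (h2K (K := K))

lemma phi_comm (A B : Sym0 K) :
    phi K A * phi K B - phi K B * phi K A = phi K ⟨_, comm_mem_sym0 A B⟩ := by
  ext1 X
  apply Subtype.ext
  show (A.1 * (B.1 * X.1 - X.1 * B.1) - (B.1 * X.1 - X.1 * B.1) * A.1) -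
    (B.1 * (A.1 * X.1 - X.1 * A.1) - (A.1 * X.1 - X.1 * A.1) * B.1) =
    (A.1 * B.1 - B.1 * A.1) * X.1 - X.1 * (A.1 * B.1 - B.1 * A.1)
  noncomm_ring

lemma phi_sq (A : Sym0 K) : phi K A * phi K A = phi K ⟨_, sq_mem_sym0 A⟩ := by
  ext1 X
  apply Subtype.ext
  show A.1 * (A.1 * X.1 - X.1 * A.1) - (A.1 * X.1 - X.1 * A.1) * A.1 =
    (A.1 * A.1) * X.1 - X.1 * (A.1 * A.1)
  have h1 := two_end (K := K) (A.1 * X.1 * A.1)
  have h2 := two_end (K := K) (X.1 * (A.1 * A.1))
  have : A.1 * (A.1 * X.1 - X.1 * A.1) - (A.1 * X.1 - X.1 * A.1) * A.1 =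
    (A.1 * A.1) * X.1 - X.1 * (A.1 * A.1) - (A.1 * X.1 * A.1 + A.1 * X.1 * A.1) +
      (X.1 * (A.1 * A.1) + X.1 * (A.1 * A.1)) := by noncomm_ring
  rw [this, h1, h2, sub_zero, add_zero]

lemma env_le_range : env K (Alt K) ≤ LinearMap.range (phi K) := by
  refine env_le (fun x => ⟨_, (ad_eq_phi x).symm⟩) ?_ ?_
  · rintro _ ⟨A, rfl⟩ _ ⟨B, rfl⟩
    exact ⟨_, (phi_comm A B).symm⟩
  · rintro _ ⟨A, rfl⟩
    exact ⟨_, (phi_sq A).symm⟩

lemma phi_pow (A : Sym0 K) (j : ℕ) :
    ∃ B : Sym0 K, B.1 = A.1 ^ (2 ^ j) ∧ phi K A ^ (2 ^ j) = phi K B := by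
  induction j with
  | zero => exact ⟨A, by simp, by simp⟩
  | succ j ih =>
    obtain ⟨B, h1, h2⟩ := ih
    refine ⟨⟨_, sq_mem_sym0 B⟩, ?_, ?_⟩
    · show B.1 * B.1 = _
      rw [h1, pow_succ, pow_mul, sq]
    · rw [pow_succ, pow_mul, h2, sq, phi_sq]

variable (K) in
/-- the basis elements -/
def E (p q : Fin 6) : Alt K :=
  ⟨Matrix.single p q 1 + Matrix.single q p 1, by
    rw [transpose_add, transpose_single, transpose_single, add_comm], fun i => by
    simp only [Matrix.add_apply, Matrix.single, Matrix.of_apply, and_comm (a := q = i)]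
    exact two_end (K := K) _⟩

lemma E_val (p q i j : Fin 6) : (E K p q).1 i j =
    (if p = i ∧ q = j then 1 else 0) + (if q = i ∧ p = j then 1 else 0) := rfl

lemma E_symm (p q : Fin 6) : E K p q = E K q p := Subtype.ext (add_comm _ _)

lemma mul_E (A : Mat K) (p q i j : Fin 6) : (A * (E K p q).1) i j =
    (if q = j then A i p else 0) + (if p = j then A i q else 0) := by
  show (A * (Matrix.single p q 1 + Matrix.single q p 1 : Mat K)) i j = _
  rw [Matrix.mul_add, Matrix.add_apply]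
  congr 1
  · split_ifs with h
    · subst h; simp
    · exact Matrix.mul_single_apply_of_ne _ _ _ _ _ (Ne.symm h) _
  · split_ifs with h
    · subst h; simp
    · exact Matrix.mul_single_apply_of_ne _ _ _ _ _ (Ne.symm h) _

lemma E_mul (A : Mat K) (p q i j : Fin 6) : ((E K p q).1 * A) i j =
    (if p = i then A q j else 0) + (if q = i then A p j else 0) := by
  show ((Matrix.single p q 1 + Matrix.single q p 1 : Mat K) * A) i j = _
  rw [Matrix.add_mul, Matrix.add_apply]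
  congr 1
  · split_ifs with h
    · subst h; simp
    · exact Matrix.single_mul_apply_of_ne _ _ _ _ _ (Ne.symm h) _
  · split_ifs with h
    · subst h; simp
    · exact Matrix.single_mul_apply_of_ne _ _ _ _ _ (Ne.symm h) _

lemma ker_phi {A : Sym0 K} (h : phi K A = 0) : ∃ c : K, A.1 = c • (1 : Mat K) := by
  have key : ∀ p q i j : Fin 6, (if q = j then A.1 i p else 0) + (if p = j then A.1 i q else 0) =
      (if p = i then A.1 q j else 0) + (if q = i then A.1 p j else 0) := by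
    intro p q i j
    have h1 : (phi K A (E K p q)).1 i j = 0 := by rw [h]; rfl
    rwa [phi_val, Matrix.sub_apply, mul_E, E_mul, sub_eq_zero] at h1
  have hex : ∀ i p : Fin 6, ∃ q, q ≠ i ∧ q ≠ p := by decide
  have hoff : ∀ i p, i ≠ p → A.1 i p = 0 := by
    intro i p hip
    obtain ⟨q, h1, h2⟩ := hex i p
    have := key p q i q
    simpa [h1, h2.symm, hip.symm] using this
  have hdiag : ∀ p, A.1 p p = A.1 0 0 := by
    intro p
    by_cases hp : p = 0
    · rw [hp]
    · have := key p 0 p 0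
      simpa [hp, Ne.symm hp] using this
  refine ⟨A.1 0 0, ?_⟩
  ext i j
  by_cases hij : i = j
  · subst hij; simp [hdiag i]
  · simp [hoff i j hij, hij]

lemma one_mem_sym0 : (1 : Mat K) ∈ Sym0 K :=
  ⟨transpose_one, by
    rw [trace_one, Fintype.card_fin]
    have : ((6 : ℕ) : K) = 3 * 2 := by norm_num
    rw [this, h2K, mul_zero]⟩

lemma phi_one : phi K ⟨1, one_mem_sym0⟩ = 0 := by
  ext1 X
  apply Subtype.ext
  rw [phi_val]; simp

lemma torus_le (T : Submodule K (Module.End K (Alt K))) (hT : IsTorus K (Alt K) T) :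
    finrank K T ≤ 4 := by
  classical
  let b := Module.finBasis K T
  have hex : ∀ i, ∃ A : Sym0 K, phi K A = (b i).1 := fun i => env_le_range (hT.1 (b i).2)
  choose A hA using hex
  let B' : Option (Fin (finrank K T)) → Sym0 K := fun o => o.elim ⟨1, one_mem_sym0⟩ A
  have hli : LinearIndependent K B' := by
    rw [linearIndependent_option]
    have h1 : LinearIndependent K (fun i => ((b i).1 : Module.End K (Alt K))) :=
      b.linearIndependent.map' T.subtype (Submodule.ker_subtype _)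
    have h2 : LinearIndependent K A := by
      apply LinearIndependent.of_comp (phi K)
      have : (phi K) ∘ A = fun i => ((b i).1 : Module.End K (Alt K)) := funext hA
      rwa [this]
    refine ⟨h2, fun hmem => ?_⟩
    obtain ⟨c, hc⟩ := (Submodule.mem_span_range_iff_exists_fun K).1 hmem
    have hc' : ∑ i, c i • A i = ⟨1, one_mem_sym0⟩ := hc
    have h3 := congrArg (phi K) hc'
    rw [phi_one, map_sum] at h3
    simp only [map_smul, hA] at h3
    have h4 := Fintype.linearIndependent_iff.1 h1 c h3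
    simp only [h4, zero_smul, Finset.sum_const_zero] at hc'
    have h5 := congrFun (congrFun (congrArg Subtype.val hc') 0) 0
    simp at h5
  have hcA : ∀ i j, (A i).1 * (A j).1 = (A j).1 * (A i).1 := by
    intro i j
    have h1 := phi_comm (A i) (A j)
    rw [hA, hA, hT.2.1 _ (b i).2 _ (b j).2, sub_self] at h1
    obtain ⟨c, hc⟩ := ker_phi h1.symm
    have h2 := comm_diag (A i).2.1 (A j).2.1 0
    have hc' : (A i).1 * (A j).1 - (A j).1 * (A i).1 = c • (1 : Mat K) := hc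
    rw [hc'] at h2
    have h3 : c = 0 := by simpa using h2
    rw [h3, zero_smul, sub_eq_zero] at hc'
    exact hc'
  have hsepA : ∀ i, ∃ p : K[X], p.Separable ∧ aeval (A i).1 p = 0 := by
    intro i
    have key : ∀ a ∈ Submodule.span K
        {x : Module.End K (Alt K) | ∃ j : ℕ, 1 ≤ j ∧ x = (b i).1 ^ (2 ^ j)},
        ∃ (q : K[X]) (B : Sym0 K), derivative q = 0 ∧ B.1 = aeval (A i).1 q ∧ phi K B = a := by
      intro a ha
      induction ha using Submodule.span_induction with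
      | mem x hx =>
        obtain ⟨j, hj, rfl⟩ := hx
        obtain ⟨B, h1, h2⟩ := phi_pow (A i) j
        refine ⟨X ^ (2 ^ j), B, ?_, by simp [h1], by rw [← h2, hA]⟩
        obtain ⟨j, rfl⟩ := Nat.exists_eq_add_of_le' hj
        rw [derivative_X_pow, pow_succ, Nat.cast_mul, Nat.cast_ofNat, h2K]
        simp
      | zero => exact ⟨0, 0, by simp, by simp, by simp⟩
      | add x y _ _ hx hy =>
        obtain ⟨q, B, h1, h2, h3⟩ := hx
        obtain ⟨q', B', h1', h2', h3'⟩ := hy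
        exact ⟨q + q', B + B', by simp [h1, h1'], by simp [h2, h2'], by simp [h3, h3']⟩
      | smul c x _ hx =>
        obtain ⟨q, B, h1, h2, h3⟩ := hx
        exact ⟨c • q, c • B, by simp [h1], by simp [h2], by simp [h3]⟩
    obtain ⟨q, B, h1, h2, h3⟩ := key _ (hT.2.2 _ (b i).2)
    have h4 : phi K (A i - B) = 0 := by rw [map_sub, h3, hA, sub_self]
    obtain ⟨c, hc⟩ := ker_phi h4
    have hc' : (A i).1 - B.1 = c • (1 : Mat K) := hc
    refine ⟨X - q - C c, ?_, ?_⟩
    · rw [Polynomial.separable_def]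
      simp only [derivative_sub, derivative_X, h1, derivative_C, sub_zero]
      exact isCoprime_one_right
    · rw [map_sub, map_sub, aeval_X, ← h2, hc', aeval_C, Algebra.algebraMap_eq_smul_one, sub_self]
  have := card_lt_of_comm (K := K) (m := 6) (by norm_num) (fun o => (B' o).1)
    (hli.map' (Sym0 K).subtype (Submodule.ker_subtype _))
    (by
      rintro (_ | i) (_ | j)
      · rfl
      · show 1 * (A j).1 = (A j).1 * 1
        simp
      · show (A i).1 * 1 = 1 * (A i).1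
        simp
      · exact hcA i j)
    (fun o => (B' o).2.2)
    (by
      rintro (_ | i)
      · refine ⟨X - C 1, separable_X_sub_C, ?_⟩
        show aeval (1 : Mat K) _ = 0
        simp
      · exact hsepA i)
  simp only [Fintype.card_option, Fintype.card_fin] at this
  omega

end Pool.Agent.H74.Thin
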