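import Pool.Agent.H74.ThinDefs

namespace Pool.Agent.H74.Thin

open Module

variable {K L : Type*} [Field K] [LieRing L] [LieAlgebra K L]

lemma two_end [CharP K 2] {V : Type*} [AddCommGroup V] [Module K V] (x : V) : x + x = 0 := by
  have h : (2 : K) = 0 := by exact_mod_cast CharP.cast_eq_zero K 2
  rw [← two_smul K x, h, zero_smul]

lemma neg_end [CharP K 2] {V : Type*} [AddCommGroup V] [Module K V] (x : V) : -x = x := by
  rw [neg_eq_iff_add_eq_zero]; exact two_end (K := K) x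

lemma env_le {S : Submodule K (Module.End K L)} (h1 : ∀ x : L, LieAlgebra.ad K L x ∈ S)
    (h2 : ∀ a ∈ S, ∀ b ∈ S, a * b - b * a ∈ S) (h3 : ∀ a ∈ S, a * a ∈ S) : env K L ≤ S :=
  sInf_le ⟨h1, h2, h3⟩

lemma ad_mem_env (x : L) : LieAlgebra.ad K L x ∈ env K L := by
  rw [env, Submodule.mem_sInf]; intro S hS; exact hS.1 x

lemma sq_mem_env {a : Module.End K L} (ha : a ∈ env K L) : a * a ∈ env K L := by
  rw [env, Submodule.mem_sInf] at ha ⊢; intro S hS; exact hS.2.2 a (ha S hS)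

/-- The subspace of derivations. -/
def derS (K L : Type*) [Field K] [LieRing L] [LieAlgebra K L] : Submodule K (Module.End K L) where
  carrier := {d | ∀ x y : L, d ⁅x, y⁆ = ⁅d x, y⁆ + ⁅x, d y⁆}
  add_mem' := by
    intro a b ha hb x y
    simp only [LinearMap.add_apply, ha x y, hb x y, add_lie, lie_add]; abel
  zero_mem' := by intro x y; simp
  smul_mem' := by
    intro c a ha x y
    simp only [LinearMap.smul_apply, ha x y, smul_lie, lie_smul, smul_add]

lemma sq_der [CharP K 2] {a : Module.End K L} (ha : a ∈ derS K L) : a * a ∈ derS K L := by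
  intro x y
  have ha' : ∀ x y : L, a ⁅x, y⁆ = ⁅a x, y⁆ + ⁅x, a y⁆ := ha
  simp only [Module.End.mul_apply, ha', map_add]
  have := two_end (K := K) ⁅a x, a y⁆
  rw [add_assoc, ← add_assoc ⁅a x, a y⁆, this, zero_add]

lemma ad_der (z : L) : LieAlgebra.ad K L z ∈ derS K L := by
  intro x y
  simp only [LieAlgebra.ad_apply]
  exact leibniz_lie z x y

lemma env_der [CharP K 2] : env K L ≤ derS K L := by
  refine env_le ad_der ?_ (fun a ha => sq_der ha)
  intro a ha b hb x y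
  have ha' : ∀ x y : L, a ⁅x, y⁆ = ⁅a x, y⁆ + ⁅x, a y⁆ := ha
  have hb' : ∀ x y : L, b ⁅x, y⁆ = ⁅b x, y⁆ + ⁅x, b y⁆ := hb
  simp only [LinearMap.sub_apply, Module.End.mul_apply, ha', hb', map_add, sub_lie, lie_sub]
  abel

lemma mem_wt {n : ℕ} {t : Fin n → Module.End K L} {α : Fin n → ZMod 2} {x : L} :
    x ∈ wt t α ↔ ∀ i, t i x = (((α i).val : ℕ) : K) • x := by
  simp only [wt, Submodule.mem_iInf, Module.End.mem_eigenspace_iff]

lemma cast_add [CharP K 2] (a b : ZMod 2) :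
    ((((a + b).val : ℕ) : K)) = ((a.val : ℕ) : K) + ((b.val : ℕ) : K) := by
  have h : (1 : K) + 1 = 0 := two_end (K := K) (1 : K)
  fin_cases a <;> fin_cases b
  · show (((0 : ℕ)) : K) = ((0 : ℕ) : K) + ((0 : ℕ) : K); simp
  · show (((1 : ℕ)) : K) = ((0 : ℕ) : K) + ((1 : ℕ) : K); simp
  · show (((1 : ℕ)) : K) = ((1 : ℕ) : K) + ((0 : ℕ) : K); simp
  · show (((0 : ℕ)) : K) = ((1 : ℕ) : K) + ((1 : ℕ) : K); simp [h]

lemma cast_inj {a b : ZMod 2} (h : ((a.val : ℕ) : K) = ((b.val : ℕ) : K)) : a = b := by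
  fin_cases a <;> fin_cases b
  · rfl
  · exfalso
    have h' : (((0 : ℕ)) : K) = ((1 : ℕ) : K) := h
    simp at h'
  · exfalso
    have h' : (((1 : ℕ)) : K) = ((0 : ℕ) : K) := h
    simp at h'
  · rfl

lemma lie_mem_wt [CharP K 2] {n : ℕ} {t : Fin n → Module.End K L} (ht : ∀ i, t i ∈ env K L)
    {α β : Fin n → ZMod 2} {x y : L} (hx : x ∈ wt t α) (hy : y ∈ wt t β) :
    ⁅x, y⁆ ∈ wt t (α + β) := by
  rw [mem_wt] at hx hy ⊢
  intro i
  have h : t i ⁅x, y⁆ = ⁅t i x, y⁆ + ⁅x, t i y⁆ := env_der (ht i) x y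
  rw [h, hx i, hy i, smul_lie, lie_smul, Pi.add_apply, cast_add, add_smul]

lemma wt_indep {n : ℕ} {t : Fin n → Module.End K L} (hc : ∀ i j, t i * t j = t j * t i) :
    iSupIndep (wt t) := by
  have h := Module.End.independent_iInf_maxGenEigenspace_of_forall_mapsTo t
    (fun i j φ => Module.End.mapsTo_maxGenEigenspace_of_comm (hc j i) φ)
  have hinj : Function.Injective
      (fun (α : Fin n → ZMod 2) (i : Fin n) => (((α i).val : ℕ) : K)) := by
    intro α β hαβ
    funext i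
    exact cast_inj (congrFun hαβ i)
  refine (h.comp hinj).mono ?_
  intro α
  simp only [wt, Function.comp]
  refine iInf_mono fun i => ?_
  exact Module.End.eigenspace_le_maxGenEigenspace

end Pool.Agent.H74.Thin
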