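import Mathlib

namespace Pool.Agent.H74.ThinComb

def mk (a b c d e f g h i j k l m n o : Bool) : Fin 6 → Fin 6 → Bool :=
  ![![false, a, b, c, d, e], ![a, false, f, g, h, i], ![b, f, false, j, k, l],
    ![c, g, j, false, m, n], ![d, h, k, m, false, o], ![e, i, l, n, o, false]]

lemma comb0 : ∀ a b c d e f g h i j k l m n o : Bool,
    a.toNat + b.toNat + c.toNat + d.toNat + e.toNat + f.toNat + g.toNat + h.toNat + i.toNat +
      j.toNat + k.toNat + l.toNat + m.toNat + n.toNat + o.toNat = 7 →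
    (∀ p q s : Fin 6, p ≠ s → mk a b c d e f g h i j k l m n o p q = true →
      mk a b c d e f g h i j k l m n o q s = true → mk a b c d e f g h i j k l m n o p s = true) →
    ∃ p q : Fin 6, mk a b c d e f g h i j k l m n o p q = true ∧ ∀ s, s ≠ p → s ≠ q →
      mk a b c d e f g h i j k l m n o p s = false ∧
        mk a b c d e f g h i j k l m n o q s = false := by
  decide +kernel

lemma comb (r : Fin 6 → Fin 6 → Bool) (hs : ∀ p q, r p q = r q p) (hd : ∀ p, r p p = false)
    (hc : ∀ p q s, p ≠ s → r p q = true → r q s = true → r p s = true)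
    (hn : (Finset.univ.filter
      (fun pq : Fin 6 × Fin 6 => pq.1 < pq.2 ∧ r pq.1 pq.2 = true)).card = 7) :
    ∃ p q, r p q = true ∧ ∀ s, s ≠ p → s ≠ q → r p s = false ∧ r q s = false := by
  have hr : r = mk (r 0 1) (r 0 2) (r 0 3) (r 0 4) (r 0 5) (r 1 2) (r 1 3) (r 1 4) (r 1 5)
      (r 2 3) (r 2 4) (r 2 5) (r 3 4) (r 3 5) (r 4 5) := by
    funext p q
    fin_cases p <;> fin_cases q <;> first | exact hd _ | rfl | exact hs _ _
  have hb : ∀ x : Bool, (if x = true then 1 else 0 : ℕ) = x.toNat := by decide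
  rw [Finset.card_filter, Fintype.sum_prod_type] at hn
  simp only [Fin.sum_univ_six] at hn
  simp only [Fin.isValue, lt_self_iff_false, false_and, Fin.reduceLT, true_and, if_false, hb] at hn
  have := comb0 (r 0 1) (r 0 2) (r 0 3) (r 0 4) (r 0 5) (r 1 2) (r 1 3) (r 1 4) (r 1 5)
      (r 2 3) (r 2 4) (r 2 5) (r 3 4) (r 3 5) (r 4 5) (by omega) (by rw [← hr]; exact hc)
  rwa [← hr] at this

end Pool.Agent.H74.ThinComb
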