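import Mathlib

/-! Definitions for thin decompositions of Lie algebras in characteristic two.
For a centreless Lie algebra `L` the minimal 2-envelope is realised inside `End L`
as the 2-closure of `ad L`, with the square as 2-map. -/

namespace Pool.Agent.H74.Thin

open Module

variable (K L : Type*) [Field K] [LieRing L] [LieAlgebra K L]

/-- The 2-envelope of a centreless Lie algebra: the least subspace of `End L` that contains
`ad L` and is closed under commutators and squares. -/
def env : Submodule K (Module.End K L) :=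
  sInf {S | (∀ x : L, LieAlgebra.ad K L x ∈ S) ∧ (∀ a ∈ S, ∀ b ∈ S, a * b - b * a ∈ S) ∧
    ∀ a ∈ S, a * a ∈ S}

/-- `a` is semisimple in the sense of restricted Lie algebras: it lies in the span of
its iterated 2-powers `a ^ (2 ^ j)`, `j ≥ 1`. -/
def IsSS (a : Module.End K L) : Prop :=
  a ∈ Submodule.span K {b : Module.End K L | ∃ j : ℕ, 1 ≤ j ∧ b = a ^ (2 ^ j)}

/-- A torus: an abelian subalgebra of the 2-envelope consisting of semisimple elements. -/
def IsTorus (T : Submodule K (Module.End K L)) : Prop :=
  T ≤ env K L ∧ (∀ a ∈ T, ∀ b ∈ T, a * b = b * a) ∧ ∀ a ∈ T, IsSS K L a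

/-- The absolute toral rank is `n`: the largest dimension of a torus is `n`. -/
def AbsToralRank (n : ℕ) : Prop :=
  IsGreatest {m : ℕ | ∃ T : Submodule K (Module.End K L), IsTorus K L T ∧ finrank K T = m} n

variable {K L}

/-- The weight space of `t₁, …, tₙ` for the vector `α` in `F₂ⁿ`. -/
def wt {n : ℕ} (t : Fin n → Module.End K L) (α : Fin n → ZMod 2) : Submodule K L :=
  ⨅ i, Module.End.eigenspace (t i) (((α i).val : ℕ) : K)

/-- `t₁, …, tₙ` is a toral basis of a torus `T` that defines a thin decomposition of `L`. -/
structure IsThin {n : ℕ} (t : Fin n → Module.End K L) : Prop where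
  dim : finrank K L = 2 ^ n - 1
  rank : AbsToralRank K L n
  torus : IsTorus K L (Submodule.span K (Set.range t))
  indep : LinearIndependent K t
  toral : ∀ i, t i * t i = t i
  inter : ∀ x : L, LieAlgebra.ad K L x ∈ Submodule.span K (Set.range t) →
    LieAlgebra.ad K L x = 0
  zero : wt t 0 = ⊥
  one : ∀ α, α ≠ 0 → finrank K (wt t α) = 1

/-- A graded subalgebra: a subalgebra that is the sum of the weight spaces over a set of
nonzero vectors. -/
def IsGraded {n : ℕ} (t : Fin n → Module.End K L) (M : LieSubalgebra K L) : Prop :=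
  ∃ S : Set (Fin n → ZMod 2), (0 : Fin n → ZMod 2) ∉ S ∧ M.toSubmodule = ⨆ α ∈ S, wt t α

end Pool.Agent.H74.Thin
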