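import Pool.Agent.H74.ThinBasic

namespace Pool.Agent.H74.Thin

open Module Polynomial

/-- commuting separable trace-zero matrices span a space of dimension less than the size -/
lemma card_lt_of_comm {K : Type*} [Field K] {m : ℕ} (hm : 0 < m) {ι : Type*} [Fintype ι]
    (B : ι → Matrix (Fin m) (Fin m) K) (hli : LinearIndependent K B)
    (hc : ∀ i j, B i * B j = B j * B i) (htr : ∀ i, (B i).trace = 0)
    (hsep : ∀ i, ∃ p : K[X], p.Separable ∧ aeval (B i) p = 0) : Fintype.card ι < m := by
  classical
  let F := AlgebraicClosure K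
  let B' : ι → Matrix (Fin m) (Fin m) F := fun i => (B i).map (algebraMap K F)
  have hli' : LinearIndependent F B' := by
    have h1 : LinearIndependent K (fun i => (fun pq : Fin m × Fin m => B i pq.1 pq.2)) :=
      hli.map' (LinearEquiv.curry K K (Fin m) (Fin m)).symm.toLinearMap (LinearEquiv.ker _)
    have h2 := (linearIndependent_algebraMap_comp_iff (S := F)).2 h1
    exact h2.map' (LinearEquiv.curry F F (Fin m) (Fin m)).toLinearMap (LinearEquiv.ker _)
  let f : ι → Module.End F (Fin m → F) := fun i => Matrix.toLinAlgEquiv' (B' i)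
  have hfli : LinearIndependent F f :=
    hli'.map' (Matrix.toLinAlgEquiv' (R := F) (n := Fin m)).toLinearEquiv.toLinearMap
      (LinearEquiv.ker _)
  have hfc : ∀ i j, Commute (f i) (f j) := by
    intro i j
    show f i * f j = f j * f i
    simp only [f, ← map_mul, B', ← Matrix.map_mul, hc i j]
  have hss : ∀ i, (f i).IsSemisimple := by
    intro i
    obtain ⟨p, hp, hp0⟩ := hsep i
    refine Module.End.isSemisimple_of_squarefree_aeval_eq_zero
      (p := p.map (algebraMap K F)) (hp.map).squarefree ?_
    simp only [f]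
    rw [Polynomial.aeval_algHom_apply (Matrix.toLinAlgEquiv' (R := F) (n := Fin m))]
    have : aeval (B' i) (p.map (algebraMap K F)) = (aeval (B i) p).map (algebraMap K F) := by
      rw [Polynomial.aeval_map_algebraMap]
      exact Polynomial.aeval_algHom_apply ((Algebra.ofId K F).mapMatrix (m := Fin m)) (B i) p
    rw [this, hp0]; simp
  have htop := Module.End.iSup_iInf_maxGenEigenspace_eq_top_of_iSup_maxGenEigenspace_eq_top_of_commute
    f (fun i j _ => hfc i j) (fun i => Module.End.iSup_maxGenEigenspace_eq_top (f i))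
  let S : Set (Fin m → F) := {v | ∀ i, ∃ c : F, f i v = c • v}
  have hS : Submodule.span F S = ⊤ := by
    rw [eq_top_iff, ← htop, iSup_le_iff]
    intro χ v hv
    apply Submodule.subset_span
    intro i
    have := (Submodule.mem_iInf _).1 hv i
    rw [(hss i).isFinitelySemisimple.maxGenEigenspace_eq_eigenspace,
      Module.End.mem_eigenspace_iff] at this
    exact ⟨_, this⟩
  obtain ⟨s, hsS, hsp, hsli⟩ := exists_linearIndependent F S
  let b : Basis s F (Fin m → F) := Basis.mk hsli (by rw [Subtype.range_coe, hsp, hS])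
  have : Finite s := Module.Finite.finite_basis b
  let _ : Fintype s := Fintype.ofFinite s
  have hcard : Fintype.card s = m := by
    rw [← finrank_eq_card_basis b]; simp
  have hb : ∀ k : s, ∀ i, ∃ c : F, f i (b k) = c • b k := by
    intro k
    have : b k = k.1 := Basis.mk_apply _ _ _
    rw [this]; exact hsS k.2
  choose ψ hψ using hb
  let σ : (s → F) →ₗ[F] F := ∑ k, LinearMap.proj k
  have hσ : ∀ g : s → F, σ g = ∑ k, g k := by intro g; simp [σ]
  have hψσ : ∀ i, (fun k => ψ k i) ∈ LinearMap.ker σ := by
    intro i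
    rw [LinearMap.mem_ker, hσ]
    have h1 : LinearMap.trace F _ (f i) = ∑ k, ψ k i := by
      rw [LinearMap.trace_eq_matrix_trace F b, Matrix.trace]
      refine Finset.sum_congr rfl fun k _ => ?_
      simp [LinearMap.toMatrix_apply, hψ]
    have h2 : LinearMap.trace F _ (f i) = (B' i).trace := by
      simp only [f]
      exact Matrix.trace_toLin'_eq (B' i)
    rw [← h1, h2]
    simp only [B']
    rw [← AddMonoidHom.map_trace (algebraMap K F) (B i), htr, map_zero]
  have hψli : LinearIndependent F (fun i => (⟨fun k => ψ k i, hψσ i⟩ : LinearMap.ker σ)) := by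
    apply LinearIndependent.of_comp (LinearMap.ker σ).subtype
    rw [Fintype.linearIndependent_iff] at hfli ⊢
    intro g hg
    apply hfli g
    apply b.ext
    intro k
    have := congrFun hg k
    simp only [Function.comp, Submodule.subtype_apply, Finset.sum_apply, Pi.smul_apply,
      smul_eq_mul, Pi.zero_apply] at this
    simp only [LinearMap.sum_apply, LinearMap.smul_apply, hψ, smul_smul, ← Finset.sum_smul, this,
      zero_smul, LinearMap.zero_apply]
  have h1 := hψli.fintype_card_le_finrank
  have h2 : finrank F (LinearMap.ker σ) < finrank F (s → F) := by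
    apply Submodule.finrank_lt
    intro htop'
    obtain ⟨k⟩ : Nonempty s := Fintype.card_pos_iff.1 (by rw [hcard]; exact hm)
    have : (Pi.single k 1 : s → F) ∈ LinearMap.ker σ := htop' ▸ Submodule.mem_top
    rw [LinearMap.mem_ker, hσ] at this
    simp at this
  rw [Module.finrank_fintype_fun_eq_card, hcard] at h2
  omega

/-- an additive polynomial with nonzero linear term that kills a finite set -/
lemma exists_additive {K : Type*} [Field K] [CharP K 2] (s : Finset K) :
    ∃ (N : ℕ) (c : ℕ → K), c 0 ≠ 0 ∧ ∀ x ∈ s, ∑ j ∈ Finset.range (N + 1), c j * x ^ (2 ^ j) = 0 := by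
  classical
  induction s using Finset.induction_on with
  | empty => exact ⟨0, fun _ => 1, one_ne_zero, by simp⟩
  | insert a s _ ih =>
    obtain ⟨N, c, hc0, hc⟩ := ih
    set y := ∑ j ∈ Finset.range (N + 1), c j * a ^ (2 ^ j) with hy
    by_cases h0 : y = 0
    · refine ⟨N, c, hc0, fun x hx => ?_⟩
      rcases Finset.mem_insert.1 hx with rfl | hx
      · exact h0
      · exact hc x hx
    · let c' : ℕ → K := fun j => (if j < N + 1 then y * c j else 0) +
        (match j with | 0 => 0 | j + 1 => c j ^ 2)
      have key : ∀ x : K, ∑ j ∈ Finset.range (N + 1 + 1), c' j * x ^ (2 ^ j) =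
          y * (∑ j ∈ Finset.range (N + 1), c j * x ^ (2 ^ j)) +
            (∑ j ∈ Finset.range (N + 1), c j * x ^ (2 ^ j)) ^ 2 := by
        intro x
        simp only [c', add_mul, Finset.sum_add_distrib]
        congr 1
        · rw [Finset.sum_range_succ, if_neg (lt_irrefl _), zero_mul, add_zero, Finset.mul_sum]
          refine Finset.sum_congr rfl fun j hj => ?_
          rw [if_pos (Finset.mem_range.1 hj), mul_assoc]
        · rw [Finset.sum_range_succ', zero_mul, add_zero, CharTwo.sum_sq]
          refine Finset.sum_congr rfl fun j _ => ?_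
          rw [mul_pow, ← pow_mul, pow_succ 2 j]
      refine ⟨N + 1, c', ?_, fun x hx => ?_⟩
      · simp only [c', Nat.zero_lt_succ, if_true, add_zero]
        exact mul_ne_zero h0 hc0
      · rw [key]
        rcases Finset.mem_insert.1 hx with rfl | hx
        · rw [← hy, sq]; exact CharTwo.add_self_eq_zero _
        · rw [hc x hx]; simp

variable {K L : Type*} [Field K] [LieRing L] [LieAlgebra K L]

lemma pow_two_pow_sum [CharP K 2] {n : ℕ} {t : Fin n → Module.End K L}
    (hc : ∀ i j, t i * t j = t j * t i) (ht : ∀ i, t i * t i = t i) (a : Fin n → K) (j : ℕ) :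
    (∑ i, a i • t i) ^ (2 ^ j) = ∑ i, a i ^ (2 ^ j) • t i := by
  have hsq : ∀ (a : Fin n → K) (s : Finset (Fin n)),
      (∑ i ∈ s, a i • t i) * (∑ i ∈ s, a i • t i) = ∑ i ∈ s, a i ^ 2 • t i := by
    intro a s
    induction s using Finset.induction_on with
    | empty => simp
    | insert k s hk ih =>
      have hcm : (a k • t k) * (∑ i ∈ s, a i • t i) = (∑ i ∈ s, a i • t i) * (a k • t k) := by
        rw [Finset.mul_sum, Finset.sum_mul]
        refine Finset.sum_congr rfl fun i _ => ?_
        rw [smul_mul_smul_comm, smul_mul_smul_comm, hc, mul_comm]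
      rw [Finset.sum_insert hk, Finset.sum_insert hk, add_mul, mul_add, mul_add, ih, hcm,
        smul_mul_smul_comm, ht, sq, add_assoc, ← add_assoc (_ * _), two_end (K := K), zero_add]
  induction j with
  | zero => simp
  | succ j ih =>
    rw [pow_succ, pow_mul, ih, sq, hsq]
    simp only [← pow_mul]

lemma isTorus_span [CharP K 2] {n : ℕ} {t : Fin n → Module.End K L} (he : ∀ i, t i ∈ env K L)
    (hc : ∀ i j, t i * t j = t j * t i) (ht : ∀ i, t i * t i = t i) :
    IsTorus K L (Submodule.span K (Set.range t)) := by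
  classical
  refine ⟨Submodule.span_le.2 (by rintro _ ⟨i, rfl⟩; exact he i), ?_, ?_⟩
  · intro a ha b hb
    obtain ⟨u, rfl⟩ := (Submodule.mem_span_range_iff_exists_fun K).1 ha
    obtain ⟨v, rfl⟩ := (Submodule.mem_span_range_iff_exists_fun K).1 hb
    rw [Finset.sum_mul_sum, Finset.sum_mul_sum, Finset.sum_comm]
    refine Finset.sum_congr rfl fun i _ => Finset.sum_congr rfl fun j _ => ?_
    rw [smul_mul_smul_comm, smul_mul_smul_comm, hc, mul_comm]
  · intro a ha
    obtain ⟨u, rfl⟩ := (Submodule.mem_span_range_iff_exists_fun K).1 ha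
    obtain ⟨N, c, hc0, hcs⟩ := exists_additive (Finset.univ.image u)
    have h1 : ∑ j ∈ Finset.range (N + 1), c j • (∑ i, u i • t i) ^ (2 ^ j) = 0 := by
      simp only [pow_two_pow_sum hc ht, Finset.smul_sum, smul_smul]
      rw [Finset.sum_comm]
      refine Finset.sum_eq_zero fun i _ => ?_
      rw [← Finset.sum_smul, hcs _ (Finset.mem_image_of_mem _ (Finset.mem_univ i)), zero_smul]
    rw [Finset.sum_range_succ', pow_zero, pow_one, add_comm, add_eq_zero_iff_eq_neg] at h1
    unfold IsSS
    rw [← Submodule.smul_mem_iff _ hc0, h1]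
    refine Submodule.neg_mem _ (Submodule.sum_mem _ fun j _ =>
      Submodule.smul_mem _ _ (Submodule.subset_span ⟨j + 1, by omega, rfl⟩))

end Pool.Agent.H74.Thin
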