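import Mathlib

set_option autoImplicit false

namespace Pool.Agent.H74.Yo

/-- Abstract data of a canonical colouring of the seven-cycle family. -/
structure St (k : ℕ) where
  a : Fin 7 → ℕ
  h : Fin 7 → ℕ → Prop
  gx : Fin 7 → Prop
  gc : Fin 7 → ℕ → Prop
  ha : ∀ i, a i < k
  hne : ∀ i, a i ≠ a (i + 1)
  hav0 : ∀ i, ¬ h i (a i)
  hav1 : ∀ i, ¬ h i (a (i + 1))
  hav3 : ∀ i, ¬ h i (a (i + 3))
  h4 : ∀ i t1 t2 t3 t4, t1 < k → t2 < k → t3 < k → t4 < k → t1 ≠ t2 → t1 ≠ t3 → t1 ≠ t4 →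
    t2 ≠ t3 → t2 ≠ t4 → t3 ≠ t4 → h i t1 ∨ h i t2 ∨ h i t3 ∨ h i t4
  topx : ∀ i, a i + 1 = k → gx i
  topc : ∀ i t, t + 1 = k → h i t → gc i t
  xx1 : ∀ i, gx i → a (i + 1) + 1 = a i → gx (i + 1)
  xx2 : ∀ i, gx (i + 1) → a i + 1 = a (i + 1) → gx i
  xc0 : ∀ i t, gx i → t + 1 = a i → h i t → gc i t
  xc1 : ∀ i t, gx (i + 1) → t + 1 = a (i + 1) → h i t → gc i t
  xc3 : ∀ i t, gx (i + 3) → t + 1 = a (i + 3) → h i t → gc i t
  cc : ∀ i t, gc i (t + 1) → h i t → gc i t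
  cx0 : ∀ i, gc i (a i + 1) → gx i
  cx1 : ∀ i, gc i (a (i + 1) + 1) → gx (i + 1)
  cx3 : ∀ i, gc i (a (i + 3) + 1) → gx (i + 3)
  uxx : ∀ i j, gx i → gx j → a i = a j → i = j
  uxc : ∀ i j, gx i → gc j (a i) → False
  ucc : ∀ i j t, gc i t → gc j t → i = j

variable {k : ℕ}

/-- Rotation of the data. -/
def St.rot (S : St k) (b : Fin 7) : St k where
  a i := S.a (i + b)
  h i := S.h (i + b)
  gx i := S.gx (i + b)
  gc i := S.gc (i + b)
  ha i := S.ha _
  hne i := by rw [add_right_comm]; exact S.hne _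
  hav0 i := S.hav0 _
  hav1 i := by rw [add_right_comm]; exact S.hav1 _
  hav3 i := by rw [add_right_comm]; exact S.hav3 _
  h4 i := S.h4 _
  topx i := S.topx _
  topc i := S.topc _
  xx1 i := by rw [add_right_comm]; exact S.xx1 _
  xx2 i := by rw [add_right_comm]; exact S.xx2 _
  xc0 i := S.xc0 _
  xc1 i := by rw [add_right_comm]; exact S.xc1 _
  xc3 i := by rw [add_right_comm]; exact S.xc3 _
  cc i := S.cc _
  cx0 i := S.cx0 _
  cx1 i := by rw [add_right_comm]; exact S.cx1 _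
  cx3 i := by rw [add_right_comm]; exact S.cx3 _
  uxx i j h1 h2 h3 := add_right_cancel (S.uxx _ _ h1 h2 h3)
  uxc i j := S.uxc _ _
  ucc i j t h1 h2 := add_right_cancel (S.ucc _ _ t h1 h2)

/-- A clique missing three distinct colours has all the others. -/
theorem St.has (S : St k) (i : Fin 7) {p q r t : ℕ} (hp : p < k) (hq : q < k) (hr : r < k)
    (ht : t < k) (npq : p ≠ q) (npr : p ≠ r) (nqr : q ≠ r) (mp : ¬ S.h i p) (mq : ¬ S.h i q)
    (mr : ¬ S.h i r) (n1 : t ≠ p) (n2 : t ≠ q) (n3 : t ≠ r) : S.h i t := by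
  rcases S.h4 i p q r t hp hq hr ht npq npr n1.symm nqr n2.symm n3.symm with h | h | h | h
  · exact absurd h mp
  · exact absurd h mq
  · exact absurd h mr
  · exact h

/-- Descending inside a clique. -/
theorem St.desc (S : St k) (i : Fin 7) {m s : ℕ} (hs : S.gc i s) (hm : m ≤ s)
    (hall : ∀ t, m ≤ t → t < s → S.h i t) : S.gc i m := by
  induction s with
  | zero => obtain rfl : m = 0 := by omega
            exact hs
  | succ s ih =>
    rcases Nat.eq_or_lt_of_le hm with rfl | hlt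
    · exact hs
    · exact ih (S.cc i s hs (hall s (by omega) (by omega))) (by omega)
        (fun t h1 h2 => hall t h1 (by omega))

/-- A clique is plain when it misses the top colour, which is not used by `x_i`, `x_(i+1)`. -/
def St.Plain (S : St k) (i : Fin 7) : Prop :=
  ¬ S.h i (k - 1) ∧ S.a i + 1 < k ∧ S.a (i + 1) + 1 < k

theorem St.Plain.has {S : St k} {i : Fin 7} (P : S.Plain i) {t : ℕ} (ht : t + 1 < k)
    (n0 : t ≠ S.a i) (n1 : t ≠ S.a (i + 1)) : S.h i t := by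
  obtain ⟨p1, p2, p3⟩ := P
  exact S.has i (p := k - 1) (q := S.a i) (r := S.a (i + 1)) (by omega) (by omega) (by omega)
    (by omega) (by omega) (by omega) (S.hne i) p1 (S.hav0 i) (S.hav1 i) (by omega) n0 n1

theorem St.Plain.tri {S : St k} {i : Fin 7} (P : S.Plain i) (h3 : S.a (i + 3) + 1 < k) :
    S.a (i + 3) = S.a i ∨ S.a (i + 3) = S.a (i + 1) := by
  by_contra hc
  push Not at hc
  exact S.hav3 i (P.has h3 hc.1 hc.2)

/-- A good cycle vertex between two plain cliques has colour zero. -/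
theorem St.two (S : St k) (i : Fin 7) (P : S.Plain i) (Q : S.Plain (i + 1))
    (g : S.gx (i + 1)) (hpos : 0 < S.a (i + 1)) : False := by
  obtain ⟨t, ht⟩ : ∃ t, t + 1 = S.a (i + 1) := ⟨S.a (i + 1) - 1, by omega⟩
  have htk : t + 1 < k := by have := P.2.2; omega
  have e1 : i ≠ i + 1 := (by decide : ∀ i : Fin 7, i ≠ i + 1) i
  have e2 : i ≠ i + 1 + 1 := (by decide : ∀ i : Fin 7, i ≠ i + 1 + 1) i
  by_cases c1 : t = S.a i <;> by_cases c2 : t = S.a (i + 1 + 1)
  · exact e2 (S.uxx _ _ (S.xx2 i g (by omega)) (S.xx1 _ g (by omega)) (by omega))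
  · have := S.xc0 _ t g ht (Q.has htk (by omega) c2)
    exact S.uxc i _ (S.xx2 i g (by omega)) (c1 ▸ this)
  · have := S.xc1 _ t g ht (P.has htk c1 (by omega))
    exact S.uxc _ _ (S.xx1 _ g (by omega)) (c2 ▸ this)
  · exact e1 (S.ucc _ _ t (S.xc1 _ t g ht (P.has htk c1 (by omega)))
      (S.xc0 _ t g ht (Q.has htk (by omega) c2)))

/-- A good vertex of colour `t` at a given place. -/
def St.W (S : St k) (p : Fin 7 ⊕ Fin 7) (t : ℕ) : Prop :=
  match p with
  | .inl j => S.gx j ∧ S.a j = t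
  | .inr j => S.gc j t

theorem St.uniq (S : St k) {p q : Fin 7 ⊕ Fin 7} {t : ℕ} (hp : S.W p t) (hq : S.W q t) :
    p = q := by
  rcases p with i | i <;> rcases q with j | j
  · rw [S.uxx i j hp.1 hq.1 (hp.2.trans hq.2.symm)]
  · exact (S.uxc i j hp.1 (by rw [hp.2]; exact hq)).elim
  · exact (S.uxc j i hq.1 (by rw [hq.2]; exact hp)).elim
  · rw [S.ucc i j t hp hq]

/-- Contribution of the clique `G_i` or of `x_i` below `x_(i+1)`. -/
theorem St.cl (S : St k) (i : Fin 7) {t : ℕ} (g : S.gx (i + 1)) (ht : t + 1 = S.a (i + 1))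
    (hh : t ≠ S.a i → S.h i t) : S.W (.inl i) t ∨ S.W (.inr i) t := by
  by_cases c : t = S.a i
  · exact Or.inl ⟨S.xx2 i g (by omega), c.symm⟩
  · exact Or.inr (S.xc1 i t g ht (hh c))

/-- Contribution of the clique `G_i` or of `x_(i+1)` below `x_i`. -/
theorem St.cr (S : St k) (i : Fin 7) {t : ℕ} (g : S.gx i) (ht : t + 1 = S.a i)
    (hh : t ≠ S.a (i + 1) → S.h i t) : S.W (.inl (i + 1)) t ∨ S.W (.inr i) t := by
  by_cases c : t = S.a (i + 1)
  · exact Or.inl ⟨S.xx1 i g (by omega), c.symm⟩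
  · exact Or.inr (S.xc0 i t g ht (hh c))

theorem St.clash (S : St k) {p q r s : Fin 7 ⊕ Fin 7} {t : ℕ} (h1 : S.W p t ∨ S.W q t)
    (h2 : S.W r t ∨ S.W s t) (n1 : p ≠ r) (n2 : p ≠ s) (n3 : q ≠ r) (n4 : q ≠ s) : False := by
  rcases h1 with h1 | h1 <;> rcases h2 with h2 | h2
  · exact n1 (S.uniq h1 h2)
  · exact n2 (S.uniq h1 h2)
  · exact n3 (S.uniq h1 h2)
  · exact n4 (S.uniq h1 h2)

theorem St.caseA (S : St k) (hlt : ∀ i, S.a i + 1 < k) (hm : ∀ i, i ≠ 0 → ¬ S.h i (k - 1)) :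
    False := by
  have P : ∀ i, i ≠ 0 → S.Plain i := fun i hi => ⟨hm i hi, hlt _, hlt _⟩
  have P1 := P 1 (by decide)
  have P2 := P 2 (by decide)
  have P3 := P 3 (by decide)
  have P4 := P 4 (by decide)
  have P5 := P 5 (by decide)
  have P6 := P 6 (by decide)
  have t1 : S.a 4 = S.a 1 ∨ S.a 4 = S.a 2 := P1.tri (hlt _)
  have t2 : S.a 5 = S.a 2 ∨ S.a 5 = S.a 3 := P2.tri (hlt _)
  have t3 : S.a 6 = S.a 3 ∨ S.a 6 = S.a 4 := P3.tri (hlt _)
  have t4 : S.a 0 = S.a 4 ∨ S.a 0 = S.a 5 := P4.tri (hlt _)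
  have t5 : S.a 1 = S.a 5 ∨ S.a 1 = S.a 6 := P5.tri (hlt _)
  have t6 : S.a 2 = S.a 6 ∨ S.a 2 = S.a 0 := P6.tri (hlt _)
  have n0 : S.a 0 ≠ S.a 1 := S.hne 0
  have n1 : S.a 1 ≠ S.a 2 := S.hne 1
  have n2 : S.a 2 ≠ S.a 3 := S.hne 2
  have n3 : S.a 3 ≠ S.a 4 := S.hne 3
  have n4 : S.a 4 ≠ S.a 5 := S.hne 4
  have n5 : S.a 5 ≠ S.a 6 := S.hne 5
  have n6 : S.a 6 ≠ S.a 0 := S.hne 6
  have r0 : S.a 0 ≠ S.a 3 := by omega
  have r1 : S.a 1 ≠ S.a 3 := by omega
  have l0 := hlt 0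
  have l1 := hlt 1
  have l3 := hlt 3
  have H0 : ∀ t, t < k → t ≠ S.a 0 → t ≠ S.a 1 → t ≠ S.a 3 → S.h 0 t := fun t ht a b c =>
    S.has 0 (S.ha 0) (S.ha 1) (S.ha 3) ht n0 r0 r1 (S.hav0 0) (S.hav1 0) (S.hav3 0) a b c
  have top : S.gc 0 (k - 1) :=
    S.topc 0 _ (by omega) (H0 _ (by omega) (by omega) (by omega) (by omega))
  have D : ∀ m, m + 1 < k → S.a 0 ≤ m → S.a 1 ≤ m → S.a 3 ≤ m → S.gc 0 (m + 1) :=
    fun m h a b c => S.desc 0 top (by omega)
      (fun t h1 h2 => H0 t (by omega) (by omega) (by omega) (by omega))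
  rcases (by omega : (S.a 0 < S.a 3 ∧ S.a 1 < S.a 3) ∨ (S.a 1 < S.a 0 ∧ S.a 3 < S.a 0) ∨
    (S.a 0 < S.a 1 ∧ S.a 3 < S.a 1)) with hc | hc | hc
  · have g : S.gx 3 := S.cx3 0 (D (S.a 3) l3 (by omega) (by omega) le_rfl)
    exact S.two 2 P2 P3 g (show 0 < S.a 3 by omega)
  · have g : S.gx 0 := S.cx0 0 (D (S.a 0) l0 le_rfl (by omega) (by omega))
    obtain ⟨t, ht⟩ : ∃ t, t + 1 = S.a 0 := ⟨S.a 0 - 1, by omega⟩
    have c6 := S.cl 6 g ht (fun c => P6.has (by omega) c (show t ≠ S.a 0 by omega))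
    by_cases e : t = S.a 3
    · have c4 : S.W (.inr 4) t := S.xc3 4 t g ht
        (P4.has (by omega) (by omega) (show t ≠ S.a 5 by omega))
      exact S.clash c6 (Or.inl c4 : _ ∨ S.W (.inr 4) t) (by decide) (by decide) (by decide)
        (by decide)
    · have c0 := S.cr 0 g ht (fun c => H0 t (by omega) (by omega) c e)
      exact S.clash c6 c0 (by decide) (by decide) (by decide) (by decide)
  · have g : S.gx 1 := S.cx1 0 (D (S.a 1) l1 (by omega) le_rfl (by omega))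
    obtain ⟨t, ht⟩ : ∃ t, t + 1 = S.a 1 := ⟨S.a 1 - 1, by omega⟩
    have c1 := S.cr 1 g ht (fun c => P1.has (by omega) (by omega) c)
    by_cases e : t = S.a 3
    · have c5 : S.W (.inr 5) t := S.xc3 5 t g ht
        (P5.has (by omega) (by omega) (show t ≠ S.a 6 by omega))
      exact S.clash c1 (Or.inl c5 : _ ∨ S.W (.inr 5) t) (by decide) (by decide) (by decide)
        (by decide)
    · have c0 := S.cl 0 g ht (fun c => H0 t (by omega) c (by omega) e)
      exact S.clash c1 c0 (by decide) (by decide) (by decide) (by decide)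

theorem St.caseB (S : St k) (hk : 4 ≤ k) (h0 : S.a 0 + 1 = k) : False := by
  have g0 : S.gx 0 := S.topx 0 h0
  have hlt : ∀ i, i ≠ 0 → S.a i + 1 < k := by
    intro i hi
    have := S.ha i
    by_contra hc
    exact hi (S.uxx i 0 (S.topx i (by omega)) g0 (by omega))
  have hm : ∀ i, ¬ S.h i (k - 1) := by
    intro i hi
    have := S.topc i (k - 1) (by omega) hi
    exact S.uxc 0 i g0 (by rw [show S.a 0 = k - 1 by omega]; exact this)
  have l1 := hlt 1 (by decide)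
  have l2 := hlt 2 (by decide)
  have l3 := hlt 3 (by decide)
  have l4 := hlt 4 (by decide)
  have l5 := hlt 5 (by decide)
  have l6 := hlt 6 (by decide)
  have P1 : S.Plain 1 := ⟨hm _, l1, l2⟩
  have P2 : S.Plain 2 := ⟨hm _, l2, l3⟩
  have P3 : S.Plain 3 := ⟨hm _, l3, l4⟩
  have P4 : S.Plain 4 := ⟨hm _, l4, l5⟩
  have P5 : S.Plain 5 := ⟨hm _, l5, l6⟩
  have t1 : S.a 4 = S.a 1 ∨ S.a 4 = S.a 2 := P1.tri l4
  have t2 : S.a 5 = S.a 2 ∨ S.a 5 = S.a 3 := P2.tri l5
  have t3 : S.a 6 = S.a 3 ∨ S.a 6 = S.a 4 := P3.tri l6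
  have t5 : S.a 1 = S.a 5 ∨ S.a 1 = S.a 6 := P5.tri l1
  have n1 : S.a 1 ≠ S.a 2 := S.hne 1
  have n2 : S.a 2 ≠ S.a 3 := S.hne 2
  have n3 : S.a 3 ≠ S.a 4 := S.hne 3
  have n4 : S.a 4 ≠ S.a 5 := S.hne 4
  have n5 : S.a 5 ≠ S.a 6 := S.hne 5
  obtain ⟨t, ht⟩ : ∃ t, t + 1 = S.a 0 := ⟨S.a 0 - 1, by omega⟩
  have c4 : t ≠ S.a 4 → t ≠ S.a 5 → S.W (.inr 4) t ∨ S.W (.inr 4) t := fun a b =>
    Or.inl (S.xc3 4 t g0 ht (P4.has (by omega) a b))
  by_cases hA : S.a 3 = S.a 1
  · by_cases e1 : t = S.a 1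
    · have g : S.gx 1 := S.xx1 0 g0 (show S.a 1 + 1 = S.a 0 by omega)
      obtain ⟨u, hu⟩ : ∃ u, u + 1 = S.a 1 := ⟨S.a 1 - 1, by omega⟩
      by_cases e : u = S.a 2
      · exact S.two 1 P1 P2 (S.xx1 1 g (show S.a 2 + 1 = S.a 1 by omega))
          (show 0 < S.a 2 by omega)
      · have c1 := S.cr 1 g hu (fun c => P1.has (by omega) (by omega) c)
        have c5 : S.W (.inr 5) u := S.xc3 5 u g hu
          (P5.has (by omega) (by omega) (show u ≠ S.a 6 by omega))
        exact S.clash c1 (Or.inl c5 : _ ∨ S.W (.inr 5) u) (by decide) (by decide) (by decide)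
          (by decide)
    · by_cases e2 : t = S.a 6
      · have g : S.gx 6 := S.xx2 6 g0 (show S.a 6 + 1 = S.a 0 by omega)
        obtain ⟨u, hu⟩ : ∃ u, u + 1 = S.a 6 := ⟨S.a 6 - 1, by omega⟩
        by_cases e : u = S.a 5
        · exact S.two 4 P4 P5 (S.xx2 5 g (show S.a 5 + 1 = S.a 6 by omega))
            (show 0 < S.a 5 by omega)
        · have c5 := S.cl 5 g hu (fun c => P5.has (by omega) c (show u ≠ S.a 6 by omega))
          have c3 : S.W (.inr 3) u := S.xc3 3 u g hu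
            (P3.has (by omega) (by omega) (show u ≠ S.a 4 by omega))
          exact S.clash c5 (Or.inl c3 : _ ∨ S.W (.inr 3) u) (by decide) (by decide) (by decide)
            (by decide)
      · have top : S.gc 4 t := S.xc3 4 t g0 ht
          (P4.has (by omega) (by omega) (show t ≠ S.a 5 by omega))
        have D : ∀ m, m < t → S.a 4 ≤ m → S.a 5 ≤ m → S.gc 4 (m + 1) :=
          fun m h a b => S.desc 4 top (by omega)
            (fun u h1 h2 => P4.has (by omega) (by omega) (show u ≠ S.a 5 by omega))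
        rcases (by omega : S.a 5 < S.a 4 ∨ S.a 4 < S.a 5) with hc | hc
        · exact S.two 3 P3 P4 (S.cx0 4 (D (S.a 4) (by omega) le_rfl (by omega)))
            (show 0 < S.a 4 by omega)
        · exact S.two 4 P4 P5 (S.cx1 4 (D (S.a 5) (by omega) (by omega) le_rfl))
            (show 0 < S.a 5 by omega)
  · have H0 : ∀ u, u + 1 < k → u ≠ S.a 1 → u ≠ S.a 3 → S.h 0 u := fun u hu b c =>
      S.has 0 (S.ha 0) (S.ha 1) (S.ha 3) (by omega) (by omega) (by omega) (by omega)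
        (S.hav0 0) (S.hav1 0) (S.hav3 0) (by omega) b c
    have H6 : ∀ u, u + 1 < k → u ≠ S.a 6 → u ≠ S.a 2 → S.h 6 u := fun u hu b c =>
      S.has 6 (S.ha 6) (S.ha 0) (S.ha 2) (by omega) (by omega) (by omega) (by omega)
        (S.hav0 6) (S.hav1 6) (S.hav3 6) b (by omega) c
    have c0 := fun e : t ≠ S.a 3 => S.cr 0 g0 ht (fun c => H0 t (by omega) c e)
    have c6 := fun e : t ≠ S.a 2 => S.cl 6 g0 ht (fun c => H6 t (by omega) c e)
    by_cases e2 : t = S.a 2
    · by_cases e5 : t = S.a 5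
      · have top : S.gc 0 t := S.xc0 0 t g0 ht (H0 t (by omega) (by omega) (by omega))
        have D : ∀ m, m < t → S.a 1 ≤ m → S.a 3 ≤ m → S.gc 0 (m + 1) :=
          fun m h a b => S.desc 0 top (by omega)
            (fun u h1 h2 => H0 u (by omega) (by omega) (by omega))
        rcases (by omega : S.a 1 < S.a 3 ∨ S.a 3 < S.a 1) with hc | hc
        · exact S.two 2 P2 P3 (S.cx3 0 (D (S.a 3) (by omega) (by omega) le_rfl))
            (show 0 < S.a 3 by omega)
        · have g : S.gx 1 := S.cx1 0 (D (S.a 1) (by omega) le_rfl (by omega))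
          obtain ⟨u, hu⟩ : ∃ u, u + 1 = S.a 1 := ⟨S.a 1 - 1, by omega⟩
          have c1 := S.cr 1 g hu (fun c => P1.has (by omega) (by omega) c)
          have c5 : S.W (.inr 5) u := S.xc3 5 u g hu
            (P5.has (by omega) (by omega) (show u ≠ S.a 6 by omega))
          exact S.clash c1 (Or.inl c5 : _ ∨ S.W (.inr 5) u) (by decide) (by decide) (by decide)
            (by decide)
      · exact S.clash (c0 (by omega)) (c4 (by omega) e5) (by decide) (by decide) (by decide)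
          (by decide)
    · by_cases e3 : t = S.a 3
      · by_cases e5 : t = S.a 5
        · have top : S.gc 6 t := S.xc1 6 t g0 ht (H6 t (by omega) (by omega) e2)
          have D : ∀ m, m < t → S.a 6 ≤ m → S.a 2 ≤ m → S.gc 6 (m + 1) :=
            fun m h a b => S.desc 6 top (by omega)
              (fun u h1 h2 => H6 u (by omega) (by omega) (by omega))
          rcases (by omega : S.a 6 < S.a 2 ∨ S.a 2 < S.a 6) with hc | hc
          · exact S.two 1 P1 P2 (S.cx3 6 (D (S.a 2) (by omega) (by omega) le_rfl))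
              (show 0 < S.a 2 by omega)
          · have g : S.gx 6 := S.cx0 6 (D (S.a 6) (by omega) le_rfl (by omega))
            obtain ⟨u, hu⟩ : ∃ u, u + 1 = S.a 6 := ⟨S.a 6 - 1, by omega⟩
            have c5 := S.cl 5 g hu (fun c => P5.has (by omega) c (show u ≠ S.a 6 by omega))
            have c3 : S.W (.inr 3) u := S.xc3 3 u g hu
              (P3.has (by omega) (by omega) (show u ≠ S.a 4 by omega))
            exact S.clash c5 (Or.inl c3 : _ ∨ S.W (.inr 3) u) (by decide) (by decide)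
              (by decide) (by decide)
        · exact S.clash (c6 e2) (c4 (by omega) e5) (by decide) (by decide) (by decide)
            (by decide)
      · exact S.clash (c6 e2) (c0 e3) (by decide) (by decide) (by decide) (by decide)

theorem St.false (S : St k) (hk : 4 ≤ k) : False := by
  by_cases h1 : ∃ b, S.a b + 1 = k
  · obtain ⟨b, hb⟩ := h1
    exact (S.rot b).caseB hk (by simpa [St.rot] using hb)
  · push Not at h1
    have hlt : ∀ i, S.a i + 1 < k := fun i => by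
      have := S.ha i
      have := h1 i
      omega
    by_cases h2 : ∃ b, S.h b (k - 1)
    · obtain ⟨b, hb⟩ := h2
      refine (S.rot b).caseA (fun i => hlt _) (fun i hi hc => hi ?_)
      have := S.ucc _ _ _ (S.topc _ (k - 1) (by omega) hc) (S.topc _ (k - 1) (by omega) hb)
      simpa using this
    · push Not at h2
      exact S.caseA hlt (fun i _ => h2 i)

end Pool.Agent.H74.Yo
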