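import Mathlib

set_option autoImplicit false

namespace Pool.Agent.H74.Yo

open Classical Finset

variable {V : Type} [Fintype V]

/-- Arcs that go up for the function `c`. -/
noncomputable def ups (D : V → V → Prop) (c : V → ℕ) : Finset (V × V) :=
  univ.filter fun p => D p.1 p.2 ∧ c p.1 < c p.2

theorem mem_ups {D : V → V → Prop} {c : V → ℕ} {p : V × V} :
    p ∈ ups D c ↔ D p.1 p.2 ∧ c p.1 < c p.2 := by simp [ups]

theorem exists_canon (D : V → V → Prop) (hirr : ∀ u, ¬ D u u) (has : ∀ u v, D u v → ¬ D v u) :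
    ∃ c : V → ℕ, (∀ u v, D u v → c u < c v ∨ c v + 2 ≤ c u) ∧
      ∀ v, 0 < c v → ∃ u, D u v ∧ c u + 1 = c v := by
  have hb : ∀ c : V → ℕ, (ups D c).card ≤ Fintype.card (V × V) := fun c => card_le_univ _
  have h1 : ∃ n, ∃ c : V → ℕ, Fintype.card (V × V) - (ups D c).card = n := ⟨_, fun _ => 0, rfl⟩
  obtain ⟨c0, hc0⟩ := Nat.find_spec h1
  have hmax : ∀ c : V → ℕ, (ups D c).card ≤ (ups D c0).card := by
    intro c
    have := Nat.find_min' h1 ⟨c, rfl⟩
    have := hb c
    have := hb c0
    omega
  have h2 : ∃ n, ∃ c : V → ℕ, (ups D c).card = (ups D c0).card ∧ ∑ v, c v = n :=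
    ⟨_, c0, rfl, rfl⟩
  obtain ⟨c, hc, hs⟩ := Nat.find_spec h2
  have key : ∀ c' : V → ℕ, ∀ u v, D u v → ¬ c u < c v → c' u < c' v →
      (∀ a b, D a b → c a < c b → c' a < c' b) → False := by
    intro c' u v huv hn hlt hall
    have hss : ups D c ⊂ ups D c' := by
      refine ⟨fun p hp => ?_, fun hsub => hn ?_⟩
      · rw [mem_ups] at hp ⊢
        exact ⟨hp.1, hall _ _ hp.1 hp.2⟩
      · exact (mem_ups.1 (hsub (mem_ups.2 (show D (u, v).1 (u, v).2 ∧ _ from ⟨huv, hlt⟩)))).2
    have := card_lt_card hss
    have := hmax c'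
    omega
  refine ⟨c, fun u v huv => ?_, fun v hv => ?_⟩
  · have hne : u ≠ v := fun e => hirr u (e ▸ huv)
    by_contra hcon
    push Not at hcon
    rcases (by omega : c u = c v ∨ c u = c v + 1) with e | e
    · refine key (fun w => if w = v then 2 * c w + 1 else 2 * c w) u v huv (by omega) ?_ ?_
      · simp only [hne, if_false, if_true]; omega
      · intro a b _ hab
        split_ifs <;> omega
    · refine key (fun w => if w = v then 3 * c w + 2 else if w = u then 3 * c w - 2 else 3 * c w)
        u v huv (by omega) ?_ ?_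
      · simp only [hne, if_false, if_true]; omega
      · intro a b hD hab
        have hx : ¬ (a = v ∧ b = u) := fun h => has u v huv (h.1 ▸ h.2 ▸ hD)
        by_cases a1 : a = v <;> by_cases a2 : a = u <;> by_cases b1 : b = v <;>
          by_cases b2 : b = u <;> simp only [a1, a2, b1, b2, if_true, if_false, hne, hne.symm] <;>
          subst_vars <;> first | omega | exact absurd ⟨rfl, rfl⟩ hx | exact absurd rfl hne
  · by_contra hcon
    push Not at hcon
    set c' : V → ℕ := fun w => if w = v then c w - 1 else c w with hc'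
    have hsub : ups D c ⊆ ups D c' := by
      intro p hp
      rw [mem_ups] at hp ⊢
      refine ⟨hp.1, ?_⟩
      have h3 := hp.2
      simp only [hc']
      split_ifs with a b b
      · rw [a, b] at h3; omega
      · omega
      · have := hcon p.1 (b ▸ hp.1)
        rw [b] at h3 ⊢
        omega
      · exact h3
    have hcard : (ups D c').card = (ups D c0).card :=
      le_antisymm (hmax c') (hc ▸ card_le_card hsub)
    have hlt : ∑ w, c' w < ∑ w, c w := by
      refine sum_lt_sum (fun w _ => ?_) ⟨v, mem_univ _, ?_⟩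
      · simp only [hc']; split_ifs <;> omega
      · simp only [hc', if_true]; omega
    have := Nat.find_min' h2 ⟨c', hcard, rfl⟩
    omega

omit [Fintype V] in
theorem down_path {D : V → V → Prop} {c : V → ℕ}
    (h : ∀ v, 0 < c v → ∃ u, D u v ∧ c u + 1 = c v) (v : V) :
    ∃ f : ℕ → V, f (c v) = v ∧ (∀ j, j ≤ c v → c (f j) = j) ∧
      ∀ j, j < c v → D (f j) (f (j + 1)) := by
  induction hn : c v generalizing v with
  | zero => exact ⟨fun _ => v, rfl, fun j hj => by simp [hn]; omega, fun j hj => by omega⟩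
  | succ n ih =>
    obtain ⟨u, hu, hcu⟩ := h v (by omega)
    obtain ⟨f, f1, f2, f3⟩ := ih u (by omega)
    refine ⟨fun j => if j = n + 1 then v else f j, by simp, fun j hj => ?_, fun j hj => ?_⟩
    · by_cases e : j = n + 1
      · simp [e, hn]
      · simp only [e, if_false]; exact f2 j (by omega)
    · have e1 : j ≠ n + 1 := by omega
      by_cases e : j = n
      · subst e
        simp only [e1, if_false, if_true, f1]; exact hu
      · have e2 : j + 1 ≠ n + 1 := by omega
        simp only [e1, e2, if_false]; exact f3 j (by omega)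

/-- From an orientation with exactly one directed path on `k` vertices to a canonical colouring. -/
theorem exists_good (G : SimpleGraph V) (D : V → V → Prop) (k : ℕ) (hk : 0 < k)
    (h1 : ∀ u v, D u v → G.Adj u v) (h2 : ∀ u v, G.Adj u v → (D u v ↔ ¬ D v u))
    (hu : ∀ f g : Fin k → V,
      (Function.Injective f ∧ ∀ i j : Fin k, i.val + 1 = j.val → D (f i) (f j)) →
      (Function.Injective g ∧ ∀ i j : Fin k, i.val + 1 = j.val → D (g i) (g j)) → f = g) :
    ∃ (c : V → ℕ) (Good : V → Prop), (∀ v, c v < k) ∧ (∀ u v, G.Adj u v → c u ≠ c v) ∧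
      (∀ v, c v + 1 = k → Good v) ∧ (∀ u v, Good v → G.Adj u v → c u + 1 = c v → Good u) ∧
      ∀ u v, Good u → Good v → c u = c v → u = v := by
  obtain ⟨c, ca, cb⟩ := exists_canon D (fun u h => (h1 u u h).ne rfl)
    (fun u v h => (h2 u v (h1 u v h)).1 h)
  have mk : ∀ (f : ℕ → V) (s : ℕ), (∀ j, j < k → c (f (j + s)) = j + s) →
      (∀ j, j + 1 < k → D (f (j + s)) (f (j + s + 1))) →
      (Function.Injective (fun i : Fin k => f (i.val + s)) ∧
        ∀ i j : Fin k, i.val + 1 = j.val → D (f (i.val + s)) (f (j.val + s))) := by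
    intro f s a b
    refine ⟨fun i j e => ?_, fun i j e => ?_⟩
    · have e' := congrArg c e
      simp only [a _ i.2, a _ j.2] at e'
      exact Fin.ext (by omega)
    · have := b i.val (by omega)
      rwa [show i.val + s + 1 = j.val + s by omega] at this
  have hlt : ∀ v, c v < k := by
    intro v
    by_contra hc
    obtain ⟨f, -, f2, f3⟩ := down_path cb v
    have e := hu _ _ (mk f 0 (fun j hj => f2 _ (by omega)) (fun j hj => f3 _ (by omega)))
      (mk f 1 (fun j hj => f2 _ (by omega)) (fun j hj => f3 _ (by omega)))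
    have e' := congrArg c (congrFun e ⟨0, hk⟩)
    simp only [f2 (0 + 0) (by omega), f2 (0 + 1) (by omega)] at e'
    omega
  refine ⟨c, fun v => ∃ f : ℕ → V, f (c v) = v ∧ (∀ j, j < k → c (f j) = j) ∧
    ∀ j, j + 1 < k → D (f j) (f (j + 1)), hlt, fun u v huv => ?_, fun v hv => ?_,
    fun u v hv huv hc => ?_, fun u v hu' hv e => ?_⟩
  · by_cases hD : D u v
    · have := ca u v hD; omega
    · have := ca v u ((h2 v u huv.symm).2 hD); omega
  · obtain ⟨f, f1, f2, f3⟩ := down_path cb v
    exact ⟨f, f1, fun j hj => f2 j (by omega), fun j hj => f3 j (by omega)⟩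
  · have hD : D u v := by
      by_contra hD
      have := ca v u ((h2 v u huv.symm).2 hD); omega
    obtain ⟨f, f1, f2, f3⟩ := hv
    obtain ⟨g, g1, g2, g3⟩ := down_path cb u
    refine ⟨fun j => if j ≤ c u then g j else f j, by simp [g1], fun j hj => ?_, fun j hj => ?_⟩
    · dsimp only
      split_ifs with e
      · exact g2 j e
      · exact f2 j hj
    · dsimp only
      by_cases e1 : j < c u
      · rw [if_pos (by omega), if_pos (by omega)]; exact g3 j e1
      · by_cases e2 : j = c u
        · rw [if_pos (by omega), if_neg (by omega), e2, g1, hc, f1]; exact hD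
        · rw [if_neg (by omega), if_neg (by omega)]; exact f3 j hj
  · obtain ⟨f, f1, f2, f3⟩ := hu'
    obtain ⟨g, g1, g2, g3⟩ := hv
    have e' := congrFun (hu _ _ (mk f 0 f2 f3) (mk g 0 g2 g3)) ⟨c u, hlt u⟩
    simp only [Nat.add_zero] at e'
    rw [← f1, e', e, g1]

end Pool.Agent.H74.Yo
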